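import Pool.Agent.LibPRB.Lad

/-! # Artin–Schreier steps over ladder curves -/

set_option autoImplicit false

namespace Pool.Agent.PRB

/-- `L = K(z)`, `z ^ p - z = g`, over the ladder curve `Λ`, with all its structure. -/
structure ASD {p : ℕ} {k : Type} [Field k] {ζ : k} {K : Type} [Field K] [Algebra k K]
    (Λ : Lad p ζ K) (g : K) (N : ℕ) (L : Type) [Field L] [Algebra k L] [Algebra K L] (z : L) where
  as : IsAS p g z
  D : Derivation k L L
  sig : L →ₐ[k] L
  phi : L →+* L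
  inf : Plc k L
  N_pos : 0 < N
  N_p : ¬ p ∣ N
  g_inf : Λ.inf.ord g = -N
  g_sig : Λ.sig g = ζ ^ N • g
  g_phi : Λ.phi g = g
  g_pl : ∀ P : Plc k K, P.ge 0 g ∨ (P.ord g < 0 ∧ ¬ (p : ℤ) ∣ P.ord g)
  D_alg : ∀ a : K, D (algebraMap K L a) = algebraMap K L (Λ.D a)
  D_z : D z = - algebraMap K L (Λ.D g)
  sig_alg : ∀ a : K, sig (algebraMap K L a) = algebraMap K L (Λ.sig a)
  sig_z : sig z = ζ ^ N • z
  phi_alg : ∀ a : K, phi (algebraMap K L a) = algebraMap K L (Λ.phi a)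
  phi_z : phi z = z
  inf_over : OverRam p g z inf Λ.inf

end Pool.Agent.PRB
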