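import Pool.Agent.LibPRB.PBa
import Pool.Agent.LibPRB.ASb

/-! # The Cartier operator of an Artin–Schreier extension -/

set_option autoImplicit false

namespace Pool.Agent.PRB

variable {p : ℕ} [Fact p.Prime] {k K L : Type} [Field k] [Field K] [Field L]
  [Algebra k K] [Algebra k L] [Algebra K L] [IsScalarTower k K L] {g : K} {z : L}

theorem ASPB_span_add [CharP L p] {s x y : L}
    (hx : ∃ c : ℕ → L, x = ∑ i ∈ Finset.range p, c i ^ p * s ^ i)
    (hy : ∃ c : ℕ → L, y = ∑ i ∈ Finset.range p, c i ^ p * s ^ i) :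
    ∃ c : ℕ → L, x + y = ∑ i ∈ Finset.range p, c i ^ p * s ^ i := by
  obtain ⟨c, rfl⟩ := hx
  obtain ⟨d, rfl⟩ := hy
  refine ⟨fun i => c i + d i, ?_⟩
  rw [← Finset.sum_add_distrib]
  refine Finset.sum_congr rfl fun i _ => ?_
  rw [add_pow_char]
  ring

theorem ASPB_span_zero {s : L} :
    ∃ c : ℕ → L, (0 : L) = ∑ i ∈ Finset.range p, c i ^ p * s ^ i := by
  refine ⟨fun _ => 0, ?_⟩
  have hp : p ≠ 0 := (Fact.out : p.Prime).ne_zero
  simp [hp]

theorem ASPB_span_sum [CharP L p] {s : L} {ι : Type*} (S : Finset ι) (f : ι → L)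
    (hf : ∀ j ∈ S, ∃ c : ℕ → L, f j = ∑ i ∈ Finset.range p, c i ^ p * s ^ i) :
    ∃ c : ℕ → L, ∑ j ∈ S, f j = ∑ i ∈ Finset.range p, c i ^ p * s ^ i := by
  classical
  induction S using Finset.induction_on with
  | empty => simpa using ASPB_span_zero (p := p) (s := s)
  | insert j S hj ih =>
    rw [Finset.sum_insert hj]
    exact ASPB_span_add (hf j (Finset.mem_insert_self _ _))
      (ih fun i hi => hf i (Finset.mem_insert_of_mem hi))

/-- expansion of `c z ^ d` with respect to `p`-th powers -/
theorem ASPB_expand (h : IsAS p g z) (x : K) (d : ℕ) :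
    algebraMap K L x * z ^ d = ∑ l ∈ Finset.range (d + 1),
      (z ^ l) ^ p * algebraMap K L ((d.choose l : K) * (x * (-g) ^ (d - l))) := by
  have hz : z = z ^ p + algebraMap K L (-g) := by
    rw [h.eq, map_neg]; ring
  have e : algebraMap K L x * z ^ d = algebraMap K L x * (z ^ p + algebraMap K L (-g)) ^ d := by
    rw [← hz]
  rw [e, add_pow, Finset.mul_sum]
  refine Finset.sum_congr rfl fun l _ => ?_
  rw [map_mul, map_mul, map_pow, map_natCast, ← pow_mul, ← pow_mul, mul_comm p l]
  ring

theorem PB.of_AS [CharP K p] (h : IsAS p g z) {s : K} {D : Derivation k K K} (hs : PB p s D)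
    (D' : Derivation k L L) (hD : ∀ a : K, D' (algebraMap K L a) = algebraMap K L (D a)) :
    PB p (algebraMap K L s) D' := by
  have : CharP L p := charP_of_injective_algebraMap (algebraMap K L).injective p
  refine ⟨by rw [hD, hs.D_s, map_one], fun a => ?_⟩
  obtain ⟨c, rfl⟩ := h.repr a
  refine ASPB_span_sum _ _ fun i _ => ?_
  rw [ASPB_expand h]
  refine ASPB_span_sum _ _ fun l _ => ?_
  obtain ⟨e, he⟩ := hs.span ((i.choose l : K) * (c i * (-g) ^ (i - l)))
  refine ⟨fun j => z ^ l * algebraMap K L (e j), ?_⟩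
  rw [he, map_sum, Finset.mul_sum]
  refine Finset.sum_congr rfl fun j _ => ?_
  rw [map_mul, map_pow, map_pow, mul_pow]
  ring

theorem car_algebraMap [CharP K p] (h : IsAS p g z) {s : K} {D : Derivation k K K}
    (hs : PB p s D)
    (D' : Derivation k L L) (hD : ∀ a : K, D' (algebraMap K L a) = algebraMap K L (D a)) (a : K) :
    car p D' (algebraMap K L a) = algebraMap K L (car p D a) := by
  have : CharP L p := charP_of_injective_algebraMap (algebraMap K L).injective p
  have hs' := PB.of_AS h hs D' hD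
  have hit : ∀ n : ℕ, D'^[n] (algebraMap K L a) = algebraMap K L (D^[n] a) := by
    intro n
    induction n with
    | zero => rfl
    | succ n ih => rw [Function.iterate_succ_apply', Function.iterate_succ_apply', ih, hD]
  have h1 : car p D' (algebraMap K L a) ^ p = (algebraMap K L (car p D a)) ^ p := by
    rw [hs'.car_pow, hit, ← map_neg, ← hs.car_pow, map_pow]
  exact frobenius_inj L p h1

theorem ASPB_car_natCast_mul [CharP K p] {s : K} {D : Derivation k K K} (hs : PB p s D)
    (n : ℕ) (x : K) : car p D ((n : K) * x) = (n : K) * car p D x := by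
  induction n with
  | zero => rw [Nat.cast_zero, zero_mul, zero_mul, hs.car_zero]
  | succ n ih =>
    rw [Nat.cast_succ, add_mul, one_mul, hs.car_add, ih, add_mul, one_mul]

/-- The Cartier operator is triangular with respect to the powers of `z`. -/
theorem co_car [CharP K p] (h : IsAS p g z) {s : K} {D : Derivation k K K} (hs : PB p s D)
    (D' : Derivation k L L) (hD : ∀ a : K, D' (algebraMap K L a) = algebraMap K L (D a))
    (a : L) (l : ℕ) :
    h.co (car p D' a) l =
      ∑ d ∈ Finset.Ico l p, (d.choose l : K) * car p D (h.co a d * (-g) ^ (d - l)) := by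
  have : CharP L p := charP_of_injective_algebraMap (algebraMap K L).injective p
  have hs' := PB.of_AS h hs D' hD
  set c : ℕ → K := fun l =>
    ∑ d ∈ Finset.Ico l p, (d.choose l : K) * car p D (h.co a d * (-g) ^ (d - l)) with hc
  have hc0 : ∀ i, p ≤ i → c i = 0 := by
    intro i hi
    simp only [hc]
    rw [Finset.Ico_eq_empty (by omega), Finset.sum_empty]
  have hterm : ∀ d, car p D' (algebraMap K L (h.co a d) * z ^ d) =
      ∑ l ∈ Finset.range (d + 1), algebraMap K L
        ((d.choose l : K) * car p D (h.co a d * (-g) ^ (d - l))) * z ^ l := by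
    intro d
    rw [ASPB_expand h, hs'.car_finset_sum]
    refine Finset.sum_congr rfl fun l _ => ?_
    rw [hs'.car_pow_mul, car_algebraMap h hs D' hD, ASPB_car_natCast_mul hs, mul_comm]
  have hmain : ∑ i ∈ Finset.range p, algebraMap K L (c i) * z ^ i = car p D' a := by
    conv_rhs => rw [← h.sum_co a]
    rw [hs'.car_finset_sum]
    simp only [hterm, hc, map_sum, Finset.sum_mul]
    refine Finset.sum_comm' fun l d => ?_
    simp only [Finset.mem_range, Finset.mem_Ico]
    omega
  exact congrFun (h.co_eq hc0 hmain) l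

end Pool.Agent.PRB
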