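import Pool.Agent.LibPRB.EtV

/-! # Artin–Schreier extensions: unramified places and coefficients -/

set_option autoImplicit false

namespace Pool.Agent.PRB

variable {p : ℕ} [Fact p.Prime] {k K L : Type} [Field k] [Field K] [Field L]
  [Algebra k K] [Algebra k L] [Algebra K L] [IsScalarTower k K L] {g : K} {z : L}

theorem EtCo_val_sum (Q : Plc k L) {ι : Type*} (s : Finset ι) (f : ι → L)
    (hf : ∀ i ∈ s, Q.ge 0 (f i)) : Q.val (∑ i ∈ s, f i) = ∑ i ∈ s, Q.val (f i) := by
  classical
  induction s using Finset.induction_on with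
  | empty => simpa using Q.val_const 0
  | insert i s hi ih =>
    rw [Finset.sum_insert hi, Finset.sum_insert hi,
      Q.val_add (hf i (Finset.mem_insert_self _ _))
        (Q.ge_sum _ _ fun j hj => hf j (Finset.mem_insert_of_mem hj)),
      ih fun j hj => hf j (Finset.mem_insert_of_mem hj)]

/-- If all coefficients are regular at `P` and `a` vanishes at all places above `P`, then all
coefficients vanish at `P`. -/
theorem EtCo_aux [IsAlgClosed k] [CharP k p] (h : IsAS p g z) (P : Plc k K) (hg : P.ge 0 g)
    (a : L) (ha : ∀ i, P.ge 0 (h.co a i)) (hQ : ∀ Q : Plc k L, OverEt Q P → Q.ge 1 a)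
    (i : ℕ) (hi : i < p) : P.val (h.co a i) = 0 := by
  classical
  set F : Polynomial k := ∑ i ∈ Finset.range p,
    Polynomial.C (P.val (h.co a i)) * Polynomial.X ^ i with hF
  have hp : p.Prime := Fact.out
  have hp0 : 0 < p := hp.pos
  -- a root of `X ^ p - X = g(P)`
  obtain ⟨O, hO⟩ := exists_over (L := L) P
  obtain ⟨Q0, -, hQ0⟩ := et_exists h P hg O hO
  set z0 := Q0.val z with hz0def
  have hz0 : z0 ^ p - z0 = P.val g := et_val_eq h P hg Q0 hQ0
  have hroot : ∀ j : ℕ, F.eval (z0 + j) = 0 := by
    intro j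
    obtain ⟨Q, hQP, hQz⟩ := et_exists_val h P hg (z0 + j) (by
      rw [add_pow_char, ← hz0]
      have : (j : k) ^ p = j := by
        have := map_natCast (frobenius k p) j
        rwa [frobenius_def] at this
      rw [this]; ring)
    have hz := et_ge_z h P hg Q hQP
    have h1 : Q.val a = 0 := by
      have := hQ Q hQP
      exact (Q.val_eq_zero_iff (this.mono (by norm_num))).mpr this
    have h2 : ∀ i ∈ Finset.range p, Q.ge 0 (algebraMap K L (h.co a i) * z ^ i) := by
      intro i _
      have := Q.ge_mul ((hQP.ge_iff 0 _).mpr (ha i)) (Q.ge_pow hz i)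
      simpa using this
    rw [← h.sum_co a, EtCo_val_sum Q _ _ h2] at h1
    rw [hF, Polynomial.eval_finset_sum, ← h1]
    refine Finset.sum_congr rfl fun i _ => ?_
    rw [Q.val_mul ((hQP.ge_iff 0 _).mpr (ha i)) (by simpa using Q.ge_pow hz i), hQP.val (ha i),
      Q.val_pow hz, hQz, Polynomial.eval_mul, Polynomial.eval_C, Polynomial.eval_pow,
      Polynomial.eval_X]
  have hF0 : F = 0 := by
    apply Polynomial.eq_zero_of_natDegree_lt_card_of_eval_eq_zero F
      (f := fun j : Fin p => z0 + ((j : ℕ) : k))
    · intro i j hij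
      have h1 : ((i : ℕ) : k) = ((j : ℕ) : k) := by
        have := hij
        simpa using this
      have h2 := (CharP.natCast_eq_natCast k p).mp h1
      apply Fin.ext
      have h3 := Nat.mod_eq_of_lt i.2
      have h4 := Nat.mod_eq_of_lt j.2
      rw [Nat.ModEq, h3, h4] at h2
      exact h2
    · intro j
      exact hroot j
    · rw [Fintype.card_fin]
      have h5 : F.natDegree ≤ p - 1 := by
        rw [hF]
        apply Polynomial.natDegree_sum_le_of_forall_le
        intro i hi
        rw [Finset.mem_range] at hi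
        exact (Polynomial.natDegree_C_mul_X_pow_le _ _).trans (by omega)
      omega
  have h1 : F.coeff i = P.val (h.co a i) := by
    rw [hF, Polynomial.finset_sum_coeff]
    simp [Polynomial.coeff_X_pow, hi]
  rw [← h1, hF0, Polynomial.coeff_zero]

/-- `a` has order `≥ n` at all places above `P` iff all its coefficients have order `≥ n`. -/
theorem et_coeff [IsAlgClosed k] [CharP k p] (h : IsAS p g z) (P : Plc k K) (hg : P.ge 0 g)
    (n : ℤ) (a : L) :
    (∀ Q : Plc k L, OverEt Q P → Q.ge n a) ↔ ∀ i, P.ge n (h.co a i) := by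
  classical
  constructor
  · intro hQ
    by_contra hcon
    push Not at hcon
    obtain ⟨i1, hi1⟩ := hcon
    have hne1 : h.co a i1 ≠ 0 := fun h0 => hi1 (Or.inl h0)
    have hi1p : i1 < p := by
      by_contra hlt
      exact hne1 (h.co_of_le a (not_lt.mp hlt))
    -- the coefficient of smallest order
    obtain ⟨i0, hi0, hmin⟩ : ∃ i0 ∈ (Finset.range p).filter (fun i => h.co a i ≠ 0),
        ∀ i ∈ (Finset.range p).filter (fun i => h.co a i ≠ 0),
          P.ord (h.co a i0) ≤ P.ord (h.co a i) :=
      Finset.exists_min_image _ _ ⟨i1, by simp [hi1p, hne1]⟩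
    simp only [Finset.mem_filter, Finset.mem_range] at hi0 hmin
    set u := h.co a i0 with hu
    have hu0 : u ≠ 0 := hi0.2
    have hlt : P.ord u < n := by
      have h1 := hmin i1 ⟨hi1p, hne1⟩
      rw [P.ge_iff hne1] at hi1
      omega
    have hco : ∀ i, h.co (algebraMap K L u⁻¹ * a) i = u⁻¹ * h.co a i := fun i => h.co_mul _ _ _
    have h1 : ∀ i, P.ge 0 (h.co (algebraMap K L u⁻¹ * a) i) := by
      intro i
      rw [hco]
      by_cases hz : h.co a i = 0
      · rw [hz, mul_zero]; exact P.ge_zero 0
      · have hip : i < p := by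
          by_contra hlt
          exact hz (h.co_of_le a (not_lt.mp hlt))
        right
        rw [P.ord_mul (inv_ne_zero hu0) hz, P.ord_inv]
        have := hmin i ⟨hip, hz⟩
        omega
    have h2 : ∀ Q : Plc k L, OverEt Q P → Q.ge 1 (algebraMap K L u⁻¹ * a) := by
      intro Q hQP
      have h3 : Q.ge (-P.ord u) (algebraMap K L u⁻¹) := by
        right
        rw [hQP, P.ord_inv]
      exact (Q.ge_mul h3 (hQ Q hQP)).mono (by omega)
    have h3 := EtCo_aux h P hg _ h1 h2 i0 hi0.1
    rw [hco, ← hu, inv_mul_cancel₀ hu0] at h3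
    have h4 : P.val (1 : K) = 1 := by simpa using P.val_const 1
    rw [h4] at h3
    exact one_ne_zero h3
  · intro hc Q hQP
    have hz := et_ge_z h P hg Q hQP
    rw [← h.sum_co a]
    apply Q.ge_sum
    intro i _
    have h1 := Q.ge_mul ((hQP.ge_iff n _).mpr (hc i)) (Q.ge_pow hz i)
    simpa using h1

end Pool.Agent.PRB
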