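import Pool.Agent.LibPRB.EtV

/-! # Artin–Schreier extensions: uniqueness of unramified places -/

set_option autoImplicit false

namespace Pool.Agent.PRB

variable {p : ℕ} [Fact p.Prime] {k K L : Type} [Field k] [Field K] [Field L]
  [Algebra k K] [Algebra k L] [Algebra K L] [IsScalarTower k K L] {g : K} {z : L}

/-- The approximations of `z` in `K`. -/
noncomputable def EtU_y (p : ℕ) {k K : Type} [Field k] [Field K] [Algebra k K] (g : K) (c : k) :
    ℕ → K
  | 0 => algebraMap k K c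
  | n + 1 => EtU_y p g c n ^ p - g

theorem EtU_y_ge (P : Plc k K) (hg : P.ge 0 g) (c : k) (n : ℕ) : P.ge 0 (EtU_y p g c n) := by
  induction n with
  | zero => exact P.ge_const c
  | succ n ih =>
    have := P.ge_pow ih p
    rw [mul_zero] at this
    exact P.ge_sub this hg

theorem EtU_sub_y [CharP K p] (h : IsAS p g z) (P : Plc k K) (hg : P.ge 0 g)
    (Q : Plc k L) (hQ : OverEt Q P) (n : ℕ) :
    Q.ge (p ^ n : ℕ) (z - algebraMap K L (EtU_y p g (Q.val z) n)) := by
  haveI : CharP L p := charP_of_injective_algebraMap (algebraMap K L).injective p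
  induction n with
  | zero =>
    have h1 := Q.val_spec (et_ge_z h P hg Q hQ)
    rw [IsScalarTower.algebraMap_apply k K L] at h1
    simpa [EtU_y] using h1
  | succ n ih =>
    have h1 := Q.ge_pow ih p
    have h2 : z - algebraMap K L (EtU_y p g (Q.val z) (n + 1)) =
        (z - algebraMap K L (EtU_y p g (Q.val z) n)) ^ p := by
      rw [sub_pow_char, h.eq]
      simp only [EtU_y, map_sub, map_pow]
      ring
    rw [h2]
    refine h1.mono (le_of_eq ?_)
    push_cast
    ring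

theorem EtU_approx [CharP K p] (h : IsAS p g z) (P : Plc k K) (hg : P.ge 0 g)
    (Q : Plc k L) (hQ : OverEt Q P) (a : L) (M : ℕ) (hM : ∀ i, P.ge (-M) (h.co a i)) (n : ℕ) :
    Q.ge ((p ^ n : ℕ) - (M : ℤ)) (a - algebraMap K L
      (∑ i ∈ Finset.range p, h.co a i * EtU_y p g (Q.val z) n ^ i)) := by
  have hz := et_ge_z h P hg Q hQ
  set y := EtU_y p g (Q.val z) n with hy
  have hy0 : Q.ge 0 (algebraMap K L y) := (hQ.ge_iff 0 y).mpr (EtU_y_ge P hg _ n)
  have h1 : a - algebraMap K L (∑ i ∈ Finset.range p, h.co a i * y ^ i) =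
      ∑ i ∈ Finset.range p, algebraMap K L (h.co a i) * (z ^ i - algebraMap K L y ^ i) := by
    conv_lhs => rw [← h.sum_co a]
    rw [map_sum, ← Finset.sum_sub_distrib]
    refine Finset.sum_congr rfl fun i _ => ?_
    simp only [map_mul, map_pow]
    rw [h.sum_co a]
    ring
  rw [h1]
  apply Q.ge_sum
  intro i _
  have h2 := (hQ.ge_iff (-M) _).mpr (hM i)
  have h3 : Q.ge (p ^ n : ℕ) (z ^ i - algebraMap K L y ^ i) := by
    rw [← (Commute.all z (algebraMap K L y)).geom_sum₂_mul i]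
    have h4 : Q.ge 0 (∑ j ∈ Finset.range i, z ^ j * algebraMap K L y ^ (i - 1 - j)) := by
      apply Q.ge_sum
      intro j _
      have h5 := Q.ge_mul (Q.ge_pow hz j) (Q.ge_pow hy0 (i - 1 - j))
      simpa using h5
    have h6 := Q.ge_mul h4 (EtU_sub_y h P hg Q hQ n)
    rwa [zero_add] at h6
  have h4 := Q.ge_mul h2 h3
  refine h4.mono (le_of_eq (by ring))

theorem EtU_ord [CharP K p] (h : IsAS p g z) (P : Plc k K) (hg : P.ge 0 g)
    (Q : Plc k L) (hQ : OverEt Q P) (a : L) (ha : a ≠ 0) (M : ℕ)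
    (hM : ∀ i, P.ge (-M) (h.co a i)) (n : ℕ) (hn : Q.ord a + 1 ≤ (p ^ n : ℕ) - (M : ℤ)) :
    P.ord (∑ i ∈ Finset.range p, h.co a i * EtU_y p g (Q.val z) n ^ i) = Q.ord a := by
  have h1 := EtU_approx h P hg Q hQ a M hM n
  have h2 := (h1.mono hn)
  have h3 := Q.ord_add_eq ha (Q.ge_neg h2)
  rw [← hQ, ← h3.2]
  congr 1
  ring

/-- A place above `P` is determined by the value of `z`. -/
theorem et_unique [IsAlgClosed k] [CharP k p] (h : IsAS p g z) (P : Plc k K) (hg : P.ge 0 g)
    (Q Q' : Plc k L) (hQ : OverEt Q P) (hQ' : OverEt Q' P) (hz : Q.val z = Q'.val z) :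
    Q = Q' := by
  haveI : CharP K p := charP_of_injective_algebraMap (algebraMap k K).injective p
  ext a
  by_cases ha : a = 0
  · rw [ha, Q.ord_zero, Q'.ord_zero]
  -- a common bound
  obtain ⟨M, hM⟩ : ∃ M : ℕ, ∀ i, P.ge (-M) (h.co a i) := by
    refine ⟨∑ i ∈ Finset.range p, (P.ord (h.co a i)).natAbs, fun i => ?_⟩
    rcases lt_or_ge i p with hi | hi
    · right
      have h1 : (P.ord (h.co a i)).natAbs ≤
          ∑ i ∈ Finset.range p, (P.ord (h.co a i)).natAbs :=
        Finset.single_le_sum (f := fun i => (P.ord (h.co a i)).natAbs)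
          (fun _ _ => Nat.zero_le _) (Finset.mem_range.mpr hi)
      have h2 : ((P.ord (h.co a i)).natAbs : ℤ) ≤
          ((∑ i ∈ Finset.range p, (P.ord (h.co a i)).natAbs : ℕ) : ℤ) := by exact_mod_cast h1
      omega
    · left; exact h.co_of_le a hi
  have hp : 1 < p := (Fact.out : p.Prime).one_lt
  obtain ⟨n, hn⟩ : ∃ n : ℕ, (M + (Q.ord a).natAbs + (Q'.ord a).natAbs + 1) ≤ p ^ n :=
    ⟨_, (Nat.lt_pow_self hp).le⟩
  have h1 := EtU_ord h P hg Q hQ a ha M hM n (by omega)
  have h2 := EtU_ord h P hg Q' hQ' a ha M hM n (by omega)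
  rw [← h1, ← h2, hz]

end Pool.Agent.PRB
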