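import Pool.Agent.LibPRB.Diff
import Pool.Agent.LibPRB.EtCo
import Pool.Agent.LibPRB.EtU

/-! # Orders of differentials: unramified places -/

set_option autoImplicit false

namespace Pool.Agent.PRB

variable {p : ℕ} [Fact p.Prime] {k K L : Type} [Field k] [Field K] [Field L]
  [Algebra k K] [Algebra k L] [Algebra K L] [IsScalarTower k K L] {g : K} {z : L}

/-- The functions which are regular at `Q` and have a derivative of order `≥ -δ`. -/
def DiffE_ring (Q : Plc k L) (D' : Derivation k L L) (δ : ℤ) : Subring L where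
  carrier := {x | Q.ge 0 x ∧ Q.ge (-δ) (D' x)}
  mul_mem' := fun {a b} ha hb => by
    refine ⟨by simpa using Q.ge_mul ha.1 hb.1, ?_⟩
    rw [Derivation.leibniz, smul_eq_mul, smul_eq_mul]
    exact Q.ge_add (by simpa using Q.ge_mul ha.1 hb.2) (by simpa using Q.ge_mul hb.1 ha.2)
  one_mem' := ⟨Q.ge_one, by rw [Derivation.map_one_eq_zero]; exact Q.ge_zero _⟩
  add_mem' := fun {a b} ha hb => ⟨Q.ge_add ha.1 hb.1, by
    rw [map_add]; exact Q.ge_add ha.2 hb.2⟩
  zero_mem' := ⟨Q.ge_zero _, by rw [map_zero]; exact Q.ge_zero _⟩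
  neg_mem' := fun {a} ha => ⟨Q.ge_neg ha.1, by rw [map_neg]; exact Q.ge_neg ha.2⟩

omit [Fact p.Prime] in
theorem DiffE_mem {Q : Plc k L} {D' : Derivation k L L} {δ : ℤ} {x : L} :
    x ∈ DiffE_ring Q D' δ ↔ Q.ge 0 x ∧ Q.ge (-δ) (D' x) := Iff.rfl

omit [Fact p.Prime] in
theorem DiffE_ord (Q : Plc k L) {x : L} (hx : Q.ge 0 x) (hv : Q.val x ≠ 0) :
    x ≠ 0 ∧ Q.ord x = 0 := by
  have h1 : ¬ Q.ge 1 x := fun h => hv ((Q.val_eq_zero_iff hx).2 h)
  have hx0 : x ≠ 0 := fun h => h1 (Or.inl h)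
  refine ⟨hx0, ?_⟩
  rw [Q.ge_iff hx0] at hx h1
  omega

theorem DiffE_nat [CharP k p] {x : k} (hx : x ^ p = x) : ∃ j < p, x = (j : k) := by
  have h1 : x ∈ (⊥ : Subfield k) := (Subfield.mem_bot_iff_pow_eq_self k p).2 hx
  obtain ⟨n, rfl⟩ := (mem_bot_iff_intCast p k).1 h1
  have hp : (0 : ℤ) < p := by exact_mod_cast (Fact.out : p.Prime).pos
  obtain ⟨m, hm⟩ := Int.eq_ofNat_of_zero_le (Int.emod_nonneg n hp.ne')
  refine ⟨m, ?_, ?_⟩
  · have h2 := Int.emod_lt_of_pos n hp
    omega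
  · have h6 : n = p * (n / p) + m := by
      rw [← hm]
      exact (Int.mul_ediv_add_emod n p).symm
    have h7 : (n : k) = ((p * (n / p) + m : ℤ) : k) := by rw [← h6]
    rw [h7]
    push_cast
    rw [CharP.cast_eq_zero k p, zero_mul, zero_add]

theorem diff_et [IsAlgClosed k] [CharP k p] (h : IsAS p g z) (P : Plc k K) (hg : P.ge 0 g)
    (D : Derivation k K K) (D' : Derivation k L L)
    (hD : ∀ a : K, D' (algebraMap K L a) = algebraMap K L (D a)) {δ : ℤ} (hP : IsDiff P D δ)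
    (Q : Plc k L) (hQ : OverEt Q P) : IsDiff Q D' δ := by
  classical
  have hcp : CharP L p := charP_of_injective_algebraMap (algebraMap k L).injective p
  have hp : p.Prime := Fact.out
  refine ⟨?_, ?_⟩
  swap
  · obtain ⟨π, h1, h2, h3, h4⟩ := hP.2
    refine ⟨algebraMap K L π, by simpa using h1, by rw [hQ, h2], ?_, ?_⟩
    · rw [hD]; simpa using h3
    · rw [hD, hQ, h4]
  intro a ha
  -- the ring
  have hzQ : Q.ge 0 z := et_ge_z h P hg Q hQ
  have hDz : D' z = - algebraMap K L (D g) := by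
    have h1 : D' (z ^ p) = D' (z + algebraMap K L g) := by rw [h.eq]
    rw [Derivation.leibniz_pow, map_add, hD, ← Nat.cast_smul_eq_nsmul L, CharP.cast_eq_zero,
      zero_smul] at h1
    linear_combination -h1
  have hzR : z ∈ DiffE_ring Q D' δ := by
    refine ⟨hzQ, ?_⟩
    rw [hDz]
    exact Q.ge_neg ((hQ.ge_iff _ _).2 (hP.1 g hg))
  have hcR : ∀ c : k, algebraMap k L c ∈ DiffE_ring Q D' δ := fun c =>
    ⟨Q.ge_const c, by rw [D'.map_algebraMap]; exact Q.ge_zero _⟩
  have hKR : ∀ c : K, P.ge 0 c → algebraMap K L c ∈ DiffE_ring Q D' δ := fun c hc =>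
    ⟨(hQ.ge_iff _ _).2 hc, by rw [hD]; exact (hQ.ge_iff _ _).2 (hP.1 c hc)⟩
  -- the unit
  let f : ℕ → L := fun j => z - algebraMap k L (Q.val z + j)
  let e : L := ∏ j ∈ Finset.Ico 1 p, f j
  have hfR : ∀ j, f j ∈ DiffE_ring Q D' δ := fun j => Subring.sub_mem _ hzR (hcR _)
  have heR : e ∈ DiffE_ring Q D' δ := Subring.prod_mem _ fun j _ => hfR j
  have hfQ : ∀ j ∈ Finset.Ico 1 p, f j ≠ 0 ∧ Q.ord (f j) = 0 := by
    intro j hj
    rw [Finset.mem_Ico] at hj
    refine DiffE_ord Q (hfR j).1 ?_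
    have h1 : Q.val (f j) = -(j : k) := by
      change Q.val (z - algebraMap k L (Q.val z + j)) = _
      rw [Q.val_sub hzQ (Q.ge_const _), Q.val_const]
      ring
    rw [h1, neg_ne_zero]
    intro h2
    rw [CharP.cast_eq_zero_iff k p] at h2
    exact absurd (Nat.le_of_dvd (by omega) h2) (by omega)
  have heQ : e ≠ 0 ∧ Q.ord e = 0 := by
    have h1 : ∀ s : Finset ℕ, s ⊆ Finset.Ico 1 p →
        (∏ j ∈ s, f j) ≠ 0 ∧ Q.ord (∏ j ∈ s, f j) = 0 := by
      intro s
      induction s using Finset.induction_on with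
      | empty => intro _; simp [Q.ord_one]
      | insert j s hj ih =>
        intro hs
        have h2 := ih (fun x hx => hs (Finset.mem_insert_of_mem hx))
        have h3 := hfQ j (hs (Finset.mem_insert_self _ _))
        rw [Finset.prod_insert hj]
        refine ⟨mul_ne_zero h3.1 h2.1, ?_⟩
        rw [Q.ord_mul h3.1 h2.1, h3.2, h2.2, add_zero]
    exact h1 _ (Finset.Subset.refl _)
  have heQ' : ∀ Q' : Plc k L, OverEt Q' P → Q' ≠ Q → Q'.ge 1 e := by
    intro Q' hQ' hne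
    have hz' : Q'.ge 0 z := et_ge_z h P hg Q' hQ'
    have h1 := et_val_eq h P hg Q hQ
    have h2 := et_val_eq h P hg Q' hQ'
    have h3 : (Q'.val z - Q.val z) ^ p = Q'.val z - Q.val z := by
      rw [sub_pow_char]
      linear_combination h2 - h1
    obtain ⟨j, hj, hj'⟩ := DiffE_nat h3
    have hj0 : j ≠ 0 := by
      rintro rfl
      rw [Nat.cast_zero, sub_eq_zero] at hj'
      exact hne (et_unique h P hg Q' Q hQ' hQ hj')
    have hjm : j ∈ Finset.Ico 1 p := Finset.mem_Ico.2 ⟨by omega, hj⟩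
    have hfj : Q'.ge 1 (f j) := by
      have h4 : Q'.val z = Q.val z + j := by linear_combination hj'
      change Q'.ge 1 (z - algebraMap k L (Q.val z + j))
      rw [← h4]
      exact Q'.val_spec hz'
    have hrest : ∀ s : Finset ℕ, Q'.ge 0 (∏ j ∈ s, f j) := by
      intro s
      induction s using Finset.induction_on with
      | empty => simpa using Q'.ge_one
      | insert i s hi ih =>
        rw [Finset.prod_insert hi]
        have h5 : Q'.ge 0 (f i) := Q'.ge_sub hz' (Q'.ge_const _)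
        simpa using Q'.ge_mul h5 ih
    change Q'.ge 1 (∏ j ∈ Finset.Ico 1 p, f j)
    rw [← Finset.mul_prod_erase _ _ hjm]
    simpa using Q'.ge_mul hfj (hrest _)
  -- a bound for the poles of `a`
  obtain ⟨n, hn⟩ : ∃ n : ℕ, ∀ i, P.ge (-(n : ℤ)) (h.co a i) := by
    refine ⟨∑ i ∈ Finset.range p, (P.ord (h.co a i)).natAbs, fun i => ?_⟩
    rcases lt_or_ge i p with hi | hi
    · right
      have h1 : (P.ord (h.co a i)).natAbs ≤ ∑ i ∈ Finset.range p, (P.ord (h.co a i)).natAbs :=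
        Finset.single_le_sum (f := fun i => (P.ord (h.co a i)).natAbs)
          (fun _ _ => Nat.zero_le _) (Finset.mem_range.2 hi)
      omega
    · left
      exact h.co_of_le a hi
  have hpole := (et_coeff h P hg (-(n : ℤ)) a).2 hn
  have hb : ∀ Q' : Plc k L, OverEt Q' P → Q'.ge 0 (e ^ n * a) := by
    intro Q' hQ'
    by_cases hQQ : Q' = Q
    · rw [hQQ]
      have h1 : Q.ge 0 (e ^ n) := by simpa using Q.ge_pow heR.1 n
      simpa using Q.ge_mul h1 ha
    · have h1 := Q'.ge_pow (heQ' Q' hQ' hQQ) n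
      have h2 := Q'.ge_mul h1 (hpole Q' hQ')
      refine h2.mono ?_
      linarith
  have hbc := (et_coeff h P hg 0 (e ^ n * a)).1 hb
  have hbR : e ^ n * a ∈ DiffE_ring Q D' δ := by
    rw [← h.sum_co (e ^ n * a)]
    exact Subring.sum_mem _ fun i _ => Subring.mul_mem _ (hKR _ (hbc i)) (Subring.pow_mem _ hzR i)
  have henR : e ^ n ∈ DiffE_ring Q D' δ := Subring.pow_mem _ heR n
  have h1 : D' (e ^ n * a) = e ^ n * D' a + a * D' (e ^ n) := by
    rw [Derivation.leibniz, smul_eq_mul, smul_eq_mul]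
  have h2 : e ^ n * D' a = D' (e ^ n * a) - a * D' (e ^ n) := by
    rw [h1]; ring
  have h3 : Q.ge (-δ) (e ^ n * D' a) := by
    rw [h2]
    exact Q.ge_sub hbR.2 (by simpa using Q.ge_mul ha henR.2)
  rw [Q.ge_mul_iff (pow_ne_zero _ heQ.1), Q.ord_pow, heQ.2, mul_zero, sub_zero] at h3
  exact h3

end Pool.Agent.PRB
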