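import Pool.Agent.LibPRB.ASb

/-! # Artin–Schreier extensions: ramified places, orders -/

set_option autoImplicit false

namespace Pool.Agent.PRB

variable {p : ℕ} [Fact p.Prime] {k K L : Type} [Field k] [Field K] [Field L]
  [Algebra k K] [Algebra k L] [Algebra K L] [IsScalarTower k K L] {g : K} {z : L}

/-- A finite sum of terms with pairwise distinct orders. -/
theorem RamG_min {k K : Type} [Field k] [Field K] [Algebra k K] (P : Plc k K) {ι : Type*}
    (S : Finset ι) (f : ι → K)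
    (hd : ∀ i ∈ S, ∀ j ∈ S, f i ≠ 0 → f j ≠ 0 → P.ord (f i) = P.ord (f j) → i = j)
    (hex : ∃ i ∈ S, f i ≠ 0) :
    ∃ i ∈ S, f i ≠ 0 ∧ (∀ j ∈ S, f j ≠ 0 → P.ord (f i) ≤ P.ord (f j)) ∧
      P.ord (∑ j ∈ S, f j) = P.ord (f i) ∧ ∑ j ∈ S, f j ≠ 0 := by
  classical
  obtain ⟨i0, hi0, hf0⟩ := hex
  obtain ⟨i, hi, hmin⟩ := Finset.exists_min_image (S.filter fun i => f i ≠ 0)
    (fun i => P.ord (f i)) ⟨i0, Finset.mem_filter.2 ⟨hi0, hf0⟩⟩
  obtain ⟨hiS, hfi⟩ := Finset.mem_filter.1 hi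
  have hmin' : ∀ j ∈ S, f j ≠ 0 → P.ord (f i) ≤ P.ord (f j) := fun j hj hfj =>
    hmin j (Finset.mem_filter.2 ⟨hj, hfj⟩)
  have hrest : P.ge (P.ord (f i) + 1) (∑ j ∈ S.erase i, f j) := by
    refine P.ge_sum _ _ fun j hj => ?_
    obtain ⟨hji, hjS⟩ := Finset.mem_erase.1 hj
    by_cases hfj : f j = 0
    · exact Or.inl hfj
    · right
      have h1 := hmin' j hjS hfj
      have h2 : P.ord (f i) ≠ P.ord (f j) := fun h => hji (hd i hiS j hjS hfi hfj h).symm
      omega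
  have h3 := P.ord_add_eq hfi hrest
  rw [Finset.add_sum_erase S f hiS] at h3
  exact ⟨i, hiS, hfi, hmin', h3.2, h3.1⟩

omit [Fact p.Prime] [IsScalarTower k K L] in
theorem RamG_term {P : Plc k K} {Q : Plc k L} (hg : P.ord g < 0) (hQ : OverRam p g z Q P)
    {c : K} (hc : c ≠ 0) (i : ℕ) :
    algebraMap K L c * z ^ i ≠ 0 ∧
      Q.ord (algebraMap K L c * z ^ i) = p * P.ord c + i * P.ord g := by
  have hz : z ≠ 0 := by
    rintro rfl
    have := hQ.2
    rw [Q.ord_zero] at this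
    omega
  have hc' : algebraMap K L c ≠ 0 := by simpa using hc
  refine ⟨mul_ne_zero hc' (pow_ne_zero _ hz), ?_⟩
  rw [Q.ord_mul hc' (pow_ne_zero _ hz), Q.ord_pow, hQ.1, hQ.2]

theorem RamG_main (h : IsAS p g z) (P : Plc k K) (hg : P.ord g < 0)
    (hp : ¬ (p : ℤ) ∣ P.ord g) (Q : Plc k L) (hQ : OverRam p g z Q P) (a : L) (ha : a ≠ 0) :
    ∃ i < p, h.co a i ≠ 0 ∧ Q.ord a = p * P.ord (h.co a i) + i * P.ord g ∧
      ∀ j, h.co a j ≠ 0 → Q.ord a ≤ p * P.ord (h.co a j) + j * P.ord g := by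
  have hex : ∃ i ∈ Finset.range p, algebraMap K L (h.co a i) * z ^ i ≠ 0 := by
    by_contra hcon
    push Not at hcon
    apply ha
    rw [← h.sum_co a]
    exact Finset.sum_eq_zero hcon
  have hne : ∀ i, algebraMap K L (h.co a i) * z ^ i ≠ 0 → h.co a i ≠ 0 := by
    intro i hi h0
    apply hi
    rw [h0, map_zero, zero_mul]
  have hd : ∀ i ∈ Finset.range p, ∀ j ∈ Finset.range p,
      algebraMap K L (h.co a i) * z ^ i ≠ 0 → algebraMap K L (h.co a j) * z ^ j ≠ 0 →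
      Q.ord (algebraMap K L (h.co a i) * z ^ i) = Q.ord (algebraMap K L (h.co a j) * z ^ j) →
      i = j := by
    intro i hi j hj hfi hfj he
    rw [(RamG_term hg hQ (hne i hfi) i).2, (RamG_term hg hQ (hne j hfj) j).2] at he
    have h1 : (p : ℤ) ∣ ((i : ℤ) - j) * P.ord g :=
      ⟨P.ord (h.co a j) - P.ord (h.co a i), by linear_combination he⟩
    have hpp : Prime (p : ℤ) := Nat.prime_iff_prime_int.1 (Fact.out : p.Prime)
    rcases hpp.dvd_or_dvd h1 with h2 | h2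
    · have hi' := Finset.mem_range.1 hi
      have hj' := Finset.mem_range.1 hj
      have h3 : ((i : ℤ) - j).natAbs < p := by omega
      have h4 : (i : ℤ) - j = 0 := by
        apply Int.eq_zero_of_abs_lt_dvd h2
        have : |(i : ℤ) - j| = (((i : ℤ) - j).natAbs : ℤ) := (Int.natCast_natAbs _).symm
        rw [this]; exact_mod_cast h3
      omega
    · exact absurd h2 hp
  obtain ⟨i, hiS, hfi, hmin, hord, _⟩ := RamG_min Q (Finset.range p)
    (fun i => algebraMap K L (h.co a i) * z ^ i) hd hex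
  rw [h.sum_co a] at hord
  refine ⟨i, Finset.mem_range.1 hiS, hne i hfi, ?_, ?_⟩
  · rw [hord, (RamG_term hg hQ (hne i hfi) i).2]
  · intro j hj
    have hjp : j < p := by
      by_contra hcon
      exact hj (h.co_of_le a (not_lt.1 hcon))
    have h1 := hmin j (Finset.mem_range.2 hjp) (RamG_term hg hQ hj j).1
    rw [(RamG_term hg hQ hj j).2] at h1
    rw [hord]
    exact h1

/-- The order of `a` at a ramified place is the minimum of the orders of its terms. -/
theorem ram_ge_iff (h : IsAS p g z) (P : Plc k K) (hg : P.ord g < 0)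
    (hp : ¬ (p : ℤ) ∣ P.ord g) (Q : Plc k L) (hQ : OverRam p g z Q P) (n : ℤ) (a : L) :
    Q.ge n a ↔ ∀ i, h.co a i = 0 ∨ n ≤ p * P.ord (h.co a i) + i * P.ord g := by
  by_cases ha : a = 0
  · subst ha
    exact ⟨fun _ i => Or.inl (h.co_zero i), fun _ => Q.ge_zero n⟩
  constructor
  · intro hn i
    rw [Q.ge_iff ha] at hn
    by_cases hc : h.co a i = 0
    · exact Or.inl hc
    · obtain ⟨_, _, _, _, hmin⟩ := RamG_main h P hg hp Q hQ a ha
      exact Or.inr (hn.trans (hmin i hc))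
  · intro hall
    rw [← h.sum_co a]
    refine Q.ge_sum _ _ fun i _ => ?_
    rcases hall i with h0 | h1
    · rw [h0, map_zero, zero_mul]; exact Q.ge_zero n
    · by_cases hc : h.co a i = 0
      · rw [hc, map_zero, zero_mul]; exact Q.ge_zero n
      · right
        rw [(RamG_term hg hQ hc i).2]; exact h1

theorem ram_exists_ord (h : IsAS p g z) (P : Plc k K) (hg : P.ord g < 0)
    (hp : ¬ (p : ℤ) ∣ P.ord g) (Q : Plc k L) (hQ : OverRam p g z Q P) (a : L) (ha : a ≠ 0) :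
    ∃ i < p, h.co a i ≠ 0 ∧ Q.ord a = p * P.ord (h.co a i) + i * P.ord g := by
  obtain ⟨i, hi, hc, ho, _⟩ := RamG_main h P hg hp Q hQ a ha
  exact ⟨i, hi, hc, ho⟩

theorem ram_unique (h : IsAS p g z) (P : Plc k K) (hg : P.ord g < 0)
    (hp : ¬ (p : ℤ) ∣ P.ord g) (Q Q' : Plc k L) (hQ : OverRam p g z Q P)
    (hQ' : OverRam p g z Q' P) : Q = Q' := by
  apply Plc.ext_ring
  intro a
  rw [ram_ge_iff h P hg hp Q hQ 0 a, ram_ge_iff h P hg hp Q' hQ' 0 a]

end Pool.Agent.PRB
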