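import Pool.Agent.LibPRB.Diff
import Pool.Agent.LibPRB.RamG

/-! # Orders of differentials: ramified places -/

set_option autoImplicit false

namespace Pool.Agent.PRB

variable {p : ℕ} [Fact p.Prime] {k K L : Type} [Field k] [Field K] [Field L]
  [Algebra k K] [Algebra k L] [Algebra K L] [IsScalarTower k K L] {g : K} {z : L}

omit [Fact p.Prime] [IsScalarTower k K L] in
theorem DiffR_expand (D : Derivation k K K) (D' : Derivation k L L)
    (hD : ∀ a : K, D' (algebraMap K L a) = algebraMap K L (D a))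
    (hDz : D' z = - algebraMap K L (D g)) (c : K) (i : ℕ) :
    D' (algebraMap K L c * z ^ i) = algebraMap K L (D c) * z ^ i +
      -((i : L) * (algebraMap K L c * z ^ (i - 1) * algebraMap K L (D g))) := by
  rw [Derivation.leibniz, Derivation.leibniz_pow, hD, hDz, smul_eq_mul, smul_eq_mul, smul_eq_mul,
    nsmul_eq_mul]
  ring

omit [Fact p.Prime] [IsScalarTower k K L] in
theorem DiffR_alg (P : Plc k K) (Q : Plc k L) (hQ : OverRam p g z Q P) {n : ℤ} {a : K}
    (ha : P.ge n a) : Q.ge (p * n) (algebraMap K L a) := by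
  rcases ha with ha | ha
  · left; rw [ha, map_zero]
  · right
    rw [hQ.1]
    exact mul_le_mul_of_nonneg_left ha (by positivity)

omit [IsScalarTower k K L] in
/-- The first summand. -/
theorem DiffR_fst (P : Plc k K) (D : Derivation k K K) {δ : ℤ} (hP : IsDiff P D δ)
    (Q : Plc k L) (hQ : OverRam p g z Q P) (c : K) (i : ℕ)
    (hc : c = 0 ∨ 1 ≤ p * P.ord c + i * P.ord g) :
    Q.ge (1 - p - p * δ) (algebraMap K L (D c) * z ^ i) := by
  rcases hc with hc | hc
  · left; rw [hc, map_zero, map_zero, zero_mul]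
  · have h1 : P.ge (P.ord c - 1 - δ) (D c) := hP.ge_D (Or.inr le_rfl)
    have h2 : Q.ge (p * (P.ord c - 1 - δ)) (algebraMap K L (D c)) := DiffR_alg P Q hQ h1
    have h3 : Q.ge (i * P.ord g) (z ^ i) := by
      right; rw [Q.ord_pow, hQ.2]
    refine (Q.ge_mul h2 h3).mono ?_
    have : (p : ℤ) * (P.ord c - 1 - δ) = p * P.ord c - p - p * δ := by ring
    rw [this]
    linarith

theorem diff_ram [IsAlgClosed k] [CharP k p] (h : IsAS p g z) (P : Plc k K) (hg : P.ord g < 0)
    (hp : ¬ (p : ℤ) ∣ P.ord g) (D : Derivation k K K) (D' : Derivation k L L)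
    (hD : ∀ a : K, D' (algebraMap K L a) = algebraMap K L (D a))
    (hDz : D' z = - algebraMap K L (D g)) {δ : ℤ} (hP : IsDiff P D δ)
    (Q : Plc k L) (hQ : OverRam p g z Q P) :
    IsDiff Q D' (p * δ + (p - 1) * (1 - P.ord g)) := by
  have hp2 : (2 : ℤ) ≤ p := by exact_mod_cast (Fact.out : p.Prime).two_le
  have hg0 : g ≠ 0 := by
    rintro rfl
    rw [P.ord_zero] at hg
    exact lt_irrefl 0 hg
  have hz0 : z ≠ 0 := by
    rintro rfl
    have h1 := hQ.2
    rw [Q.ord_zero] at h1
    omega
  obtain ⟨hDg0, hDg⟩ := hP.ord_D hg0 hp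
  have hneg : ((p : ℤ) - 1) * P.ord g ≤ -1 := by
    have h1 : 0 < ((p : ℤ) - 1) * (-P.ord g) := mul_pos (by linarith) (by linarith)
    linarith
  apply isDiff_of
  · intro a ha
    rw [ram_ge_iff h P hg hp Q hQ] at ha
    have hterm : ∀ i < p, Q.ge (-(p * δ + (p - 1) * (1 - P.ord g)))
        (D' (algebraMap K L (h.co a i) * z ^ i)) := by
      intro i hi
      rw [DiffR_expand D D' hD hDz]
      apply Q.ge_add
      · refine (DiffR_fst P D hP Q hQ _ i (ha i)).mono ?_
        linarith
      · apply Q.ge_neg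
        rcases Nat.eq_zero_or_pos i with hi0 | hi0
        · left; rw [hi0]; simp
        rcases ha i with hc | hc
        · left; rw [hc, map_zero]; simp
        · have h1 : Q.ge 0 (i : L) := by
            have := Q.ge_const (i : k)
            rwa [map_natCast] at this
          have h2 : Q.ge (p * P.ord (h.co a i)) (algebraMap K L (h.co a i)) :=
            DiffR_alg P Q hQ (Or.inr le_rfl)
          have h3 : Q.ge ((i - 1 : ℕ) * P.ord g) (z ^ (i - 1)) := by
            right; rw [Q.ord_pow, hQ.2]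
          have h4 : Q.ge (p * (P.ord g - 1 - δ)) (algebraMap K L (D g)) :=
            DiffR_alg P Q hQ (Or.inr hDg.ge)
          refine (Q.ge_mul h1 (Q.ge_mul (Q.ge_mul h2 h3) h4)).mono ?_
          have h5 : ((i - 1 : ℕ) : ℤ) = i - 1 := by omega
          rw [h5]
          have h6 : (0 : ℤ) + (p * P.ord (h.co a i) + (i - 1) * P.ord g +
              p * (P.ord g - 1 - δ)) = (p * P.ord (h.co a i) + i * P.ord g) +
              ((p - 1) * P.ord g - p - p * δ) := by ring
          rw [h6]
          linarith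
    have hsum : a = ∑ i ∈ Finset.range p, algebraMap K L (h.co a i) * z ^ i := (h.sum_co a).symm
    rw [hsum, map_sum]
    exact Q.ge_sum _ _ fun i hi => hterm i (Finset.mem_range.mp hi)
  · obtain ⟨b, hb0, hb1⟩ := Q.exists_unif
    obtain ⟨i, hi, hc0, hc⟩ := ram_exists_ord h P hg hp Q hQ b hb0
    set c := h.co b i with hcdef
    rw [hb1] at hc
    have hi0 : 0 < i := by
      rcases Nat.eq_zero_or_pos i with hi0 | hi0
      · rw [hi0] at hc
        exfalso
        have h1 : (p : ℤ) ∣ 1 := ⟨P.ord c, by rw [hc]; simp⟩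
        have h2 := Int.le_of_dvd one_pos h1
        linarith
      · exact hi0
    have hc1 : algebraMap K L c ≠ 0 := by rwa [Ne, map_eq_zero]
    have hDg1 : algebraMap K L (D g) ≠ 0 := by rwa [Ne, map_eq_zero]
    have hik : (i : k) ≠ 0 := by
      rw [Ne, CharP.cast_eq_zero_iff k p]
      intro hdvd
      exact absurd (Nat.le_of_dvd hi0 hdvd) (not_le.mpr hi)
    have hiL : (i : L) ≠ 0 := by
      have h1 : algebraMap k L (i : k) ≠ 0 := by rwa [Ne, map_eq_zero]
      rwa [map_natCast] at h1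
    have hiO : Q.ord (i : L) = 0 := by
      have := Q.ord_const (i : k)
      rwa [map_natCast] at this
    refine ⟨algebraMap K L c * z ^ i, mul_ne_zero hc1 (pow_ne_zero _ hz0), ?_, ?_⟩
    · rw [Q.ord_mul hc1 (pow_ne_zero _ hz0), Q.ord_pow, hQ.1, hQ.2, ← hc]
    · rw [DiffR_expand D D' hD hDz, add_comm]
      have hne : -((i : L) * (algebraMap K L c * z ^ (i - 1) * algebraMap K L (D g))) ≠ 0 :=
        neg_ne_zero.mpr (mul_ne_zero hiL (mul_ne_zero (mul_ne_zero hc1 (pow_ne_zero _ hz0)) hDg1))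
      have hord : Q.ord (-((i : L) * (algebraMap K L c * z ^ (i - 1) * algebraMap K L (D g)))) =
          -(p * δ + (p - 1) * (1 - P.ord g)) := by
        rw [Q.ord_neg, Q.ord_mul hiL (mul_ne_zero (mul_ne_zero hc1 (pow_ne_zero _ hz0)) hDg1),
          Q.ord_mul (mul_ne_zero hc1 (pow_ne_zero _ hz0)) hDg1,
          Q.ord_mul hc1 (pow_ne_zero _ hz0), Q.ord_pow, hQ.1, hQ.1, hQ.2, hiO, hDg]
        have h5 : ((i - 1 : ℕ) : ℤ) = i - 1 := by omega
        rw [h5]
        have h6 : (0 : ℤ) + (p * P.ord c + (i - 1) * P.ord g +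
            p * (P.ord g - 1 - δ)) = (p * P.ord c + i * P.ord g) +
            ((p - 1) * P.ord g - p - p * δ) := by ring
        rw [h6, ← hc]
        ring
      have hfst := DiffR_fst P D hP Q hQ c i (Or.inr hc.le)
      rw [← hord]
      apply Q.ord_add_eq hne
      rw [hord]
      refine hfst.mono ?_
      linarith

end Pool.Agent.PRB
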