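import Pool.Agent.LibPRB.ASDs
import Pool.Agent.LibPRB.DiffE
import Pool.Agent.LibPRB.DiffR
import Pool.Agent.LibPRB.ASPB

/-! # Artin–Schreier steps: differentials -/

set_option autoImplicit false

namespace Pool.Agent.PRB

theorem ASDd_finite {p : ℕ} {k : Type} [Field k]
    {K : Type} [Field K] [Algebra k K] {g : K}
    {L : Type} [Field L] [Algebra k L] [Algebra K L] [IsScalarTower k K L] {z : L} (s : K)
    (h : IsAS p g z) (hf : Module.Finite (IntermediateField.adjoin k {s}) K) :
    Module.Finite (IntermediateField.adjoin k {algebraMap K L s}) L := by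
  classical
  have hmem : ∀ x : K, x ∈ IntermediateField.adjoin k {s} →
      algebraMap K L x ∈ IntermediateField.adjoin k {algebraMap K L s} := by
    intro x hx
    have h1 : (IntermediateField.adjoin k {s}).map (IsScalarTower.toAlgHom k K L) =
        IntermediateField.adjoin k {algebraMap K L s} := by
      rw [IntermediateField.adjoin_map, Set.image_singleton]
      rfl
    rw [← h1]
    exact ⟨x, hx, rfl⟩
  obtain ⟨B, hB⟩ := hf.fg_top
  refine ⟨⟨(B ×ˢ Finset.range p).image fun q => algebraMap K L q.1 * z ^ q.2, ?_⟩⟩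
  rw [eq_top_iff]
  have key : ∀ i < p, ∀ a : K, algebraMap K L a * z ^ i ∈
      Submodule.span (IntermediateField.adjoin k {algebraMap K L s})
        ((((B ×ˢ Finset.range p).image fun q => algebraMap K L q.1 * z ^ q.2 : Finset L)) : Set L) := by
    intro i hi a
    have ha : a ∈ Submodule.span (IntermediateField.adjoin k {s}) (B : Set K) := by
      rw [hB]; trivial
    induction ha using Submodule.span_induction with
    | mem x hx =>
      apply Submodule.subset_span
      rw [Finset.mem_coe, Finset.mem_image]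
      exact ⟨(x, i), Finset.mem_product.mpr ⟨hx, Finset.mem_range.mpr hi⟩, rfl⟩
    | zero => simp
    | add x y _ _ hx hy =>
      rw [map_add, add_mul]
      exact Submodule.add_mem _ hx hy
    | smul c x _ hx =>
      have h2 : algebraMap K L (c • x) * z ^ i =
          (⟨algebraMap K L c, hmem c c.2⟩ : IntermediateField.adjoin k {algebraMap K L s}) •
            (algebraMap K L x * z ^ i) := by
        rw [IntermediateField.smul_def, IntermediateField.smul_def, smul_eq_mul, smul_eq_mul,
          map_mul, mul_assoc]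
      rw [h2]
      exact Submodule.smul_mem _ _ hx
  intro a _
  obtain ⟨c, hc⟩ := h.repr a
  rw [hc]
  exact Submodule.sum_mem _ fun i hi => key i (Finset.mem_range.mp hi) (c i)

namespace ASD

variable {p : ℕ} [Fact p.Prime] {k : Type} [Field k] [IsAlgClosed k] [CharP k p] {ζ : k}
  {K : Type} [Field K] [Algebra k K] {Λ : Lad p ζ K} {g : K} {N : ℕ}
  {L : Type} [Field L] [Algebra k L] [Algebra K L] [IsScalarTower k K L] {z : L}

theorem diff (A : ASD Λ g N L z) (Q : Plc k L) : ∃ δ, IsDiff Q A.D δ := by
  obtain ⟨P, hP⟩ := A.exists_under Q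
  obtain ⟨δ, hδ⟩ := Λ.gf.diff P
  rcases hP with ⟨hg, hQ⟩ | ⟨hg, hQ⟩
  · exact ⟨δ, diff_et A.as P hg Λ.D A.D A.D_alg hδ Q hQ⟩
  · have hp : ¬ (p : ℤ) ∣ P.ord g := by
      rcases A.g_pl P with (h | h) | h
      · rw [h, P.ord_zero] at hg
        exact absurd hg (lt_irrefl 0)
      · exact absurd hg (not_lt.mpr h)
      · exact h.2
    exact ⟨_, diff_ram A.as P hg hp Λ.D A.D A.D_alg A.D_z hδ Q hQ⟩

theorem gf (A : ASD Λ g N L z) : GF p (algebraMap K L Λ.s) A.D := by
  haveI : CharP K p := charP_of_injective_algebraMap (algebraMap k K).injective p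
  exact
    { pb := PB.of_AS A.as Λ.pb A.D A.D_alg
      disc := A.disc
      diff := A.diff
      fsupp := A.fsupp }

theorem ff (A : ASD Λ g N L z) :
    Module.Finite (IntermediateField.adjoin k {algebraMap K L Λ.s}) L :=
  ASDd_finite Λ.s A.as Λ.ff

end ASD

end Pool.Agent.PRB
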