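import Pool.Agent.LibPRB.ASl

/-! # Extension of a derivation to an Artin–Schreier extension -/

set_option autoImplicit false

namespace Pool.Agent.PRB

variable {p : ℕ} [Fact p.Prime] {k K L : Type} [Field k] [Field K] [Field L]
  [Algebra k K] [Algebra k L] [Algebra K L] [IsScalarTower k K L] {g : K} {z : L}

theorem exists_deriv [CharP K p] (h : IsAS p g z) (D : Derivation k K K) :
    ∃ D' : Derivation k L L, (∀ a : K, D' (algebraMap K L a) = algebraMap K L (D a)) ∧
      D' z = - algebraMap K L (D g) := by
  have hcp : CharP L p := charP_of_injective_algebraMap (algebraMap K L).injective p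
  let θ : K →+* TrivSqZeroExt L L :=
    { toFun := fun a => (TrivSqZeroExt.inl (algebraMap K L a) +
        TrivSqZeroExt.inr (algebraMap K L (D a)) : TrivSqZeroExt L L)
      map_one' := by
        ext <;> simp
      map_mul' := fun a b => by
        ext
        · simp
        · simp only [map_mul, Derivation.leibniz, smul_eq_mul, map_add, TrivSqZeroExt.snd_add,
            TrivSqZeroExt.snd_inl, TrivSqZeroExt.snd_inr, TrivSqZeroExt.snd_mul,
            TrivSqZeroExt.fst_add, TrivSqZeroExt.fst_inl, TrivSqZeroExt.fst_inr, zero_add,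
            add_zero, MulOpposite.smul_eq_mul_unop, MulOpposite.unop_op]
          ring
      map_zero' := by
        ext <;> simp
      map_add' := fun a b => by
        ext
        · simp
        · simp only [map_add, TrivSqZeroExt.snd_add, TrivSqZeroExt.snd_inl,
            TrivSqZeroExt.snd_inr, zero_add] }
  have hθf : ∀ a, (θ a).fst = algebraMap K L a := fun a => by
    change (TrivSqZeroExt.inl (algebraMap K L a) +
        TrivSqZeroExt.inr (algebraMap K L (D a)) : TrivSqZeroExt L L).fst = _
    simp
  have hθs : ∀ a, (θ a).snd = algebraMap K L (D a) := fun a => by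
    change (TrivSqZeroExt.inl (algebraMap K L a) +
        TrivSqZeroExt.inr (algebraMap K L (D a)) : TrivSqZeroExt L L).snd = _
    simp only [TrivSqZeroExt.snd_add, TrivSqZeroExt.snd_inl, TrivSqZeroExt.snd_inr, zero_add]
  obtain ⟨w, hwf, hws⟩ : ∃ w : TrivSqZeroExt L L, w.fst = z ∧ w.snd = -algebraMap K L (D g) := by
    refine ⟨TrivSqZeroExt.inl z + TrivSqZeroExt.inr (-algebraMap K L (D g)), ?_, ?_⟩
    · simp only [TrivSqZeroExt.fst_add, TrivSqZeroExt.fst_inl, TrivSqZeroExt.fst_inr, add_zero]
    · simp only [TrivSqZeroExt.snd_add, TrivSqZeroExt.snd_inl, TrivSqZeroExt.snd_inr, zero_add]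
  have hw : w ^ p = w + θ g := by
    ext
    · rw [TrivSqZeroExt.fst_pow, TrivSqZeroExt.fst_add, hwf, hθf, h.eq]
    · rw [TrivSqZeroExt.snd_pow, TrivSqZeroExt.snd_add, hws, hθs, neg_add_cancel]
      rw [← Nat.cast_smul_eq_nsmul L, CharP.cast_eq_zero, zero_smul]
  obtain ⟨Θ, hΘ, hΘz⟩ := h.lift θ w hw
  have hfst : ∀ a : L, (Θ a).fst = a := by
    have h1 : (TrivSqZeroExt.fstHom L L L).toRingHom.comp Θ = RingHom.id L := by
      apply h.ringHom_ext
      · intro a
        change (Θ (algebraMap K L a)).fst = algebraMap K L a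
        rw [hΘ, hθf]
      · change (Θ z).fst = z
        rw [hΘz, hwf]
    intro a
    exact congrArg (fun f : L →+* L => f a) h1
  have hmul : ∀ a b : L, (Θ (a * b)).snd = a * (Θ b).snd + b * (Θ a).snd := by
    intro a b
    rw [map_mul, TrivSqZeroExt.snd_mul, hfst, hfst, smul_eq_mul,
      MulOpposite.smul_eq_mul_unop, MulOpposite.unop_op, mul_comm (Θ a).snd b]
  let E : L →ₗ[k] L :=
    { toFun := fun a => (Θ a).snd
      map_add' := fun a b => by rw [map_add, TrivSqZeroExt.snd_add]
      map_smul' := fun c a => by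
        have h1 : c • a = algebraMap K L (algebraMap k K c) * a := by
          rw [← IsScalarTower.algebraMap_apply, Algebra.smul_def]
        rw [h1, hmul, hΘ, hθs, D.map_algebraMap, map_zero, mul_zero, add_zero,
          ← IsScalarTower.algebraMap_apply, ← Algebra.smul_def]
        rfl }
  refine ⟨Derivation.mk' E fun a b => ?_, fun a => ?_, ?_⟩
  · change (Θ (a * b)).snd = a • (Θ b).snd + b • (Θ a).snd
    rw [hmul, smul_eq_mul, smul_eq_mul]
  · change (Θ (algebraMap K L a)).snd = _
    rw [hΘ, hθs]
  · change (Θ z).snd = _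
    rw [hΘz, hws]

end Pool.Agent.PRB
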