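import Pool.Agent.LibPRB.Defs

/-! # Existence of Artin–Schreier extensions -/

set_option autoImplicit false

namespace Pool.Agent.PRB

variable {p : ℕ} [Fact p.Prime] {k K : Type} [Field k] [Field K] [Algebra k K]

open Polynomial

/-- The polynomial `X ^ p - X - g`. -/
noncomputable def ASex_f (p : ℕ) {K : Type} [Field K] (g : K) : K[X] := X ^ p - X - C g

theorem ASex_f_eq (g : K) : ASex_f p g = X ^ p + (-X - C g) := by
  unfold ASex_f; ring

theorem ASex_deg (g : K) : (-X - C g : K[X]).degree < p := by
  have h2 := (Fact.out : p.Prime).two_le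
  have h1 : (-X - C g : K[X]).degree ≤ 1 := by
    rw [show (-X - C g : K[X]) = -(X + C g) by ring, degree_neg]
    exact (degree_X_add_C g).le
  refine h1.trans_lt ?_
  exact_mod_cast (show 1 < p by omega)

theorem ASex_monic (g : K) : (ASex_f p g).Monic := by
  rw [ASex_f_eq]
  exact monic_X_pow_add (ASex_deg g)

theorem ASex_natDegree (g : K) : (ASex_f p g).natDegree = p := by
  rw [ASex_f_eq]
  exact natDegree_eq_of_degree_eq_some ((degree_add_eq_left_of_degree_lt
    (by rw [degree_X_pow]; exact ASex_deg g)).trans (degree_X_pow p))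

/-- No multiple `m g`, `0 < m < p`, is of the form `y ^ p - y`. -/
theorem ASex_noroot [CharP K p] (P : Plc k K) (g : K) (h0 : P.ord g < 0)
    (hp : ¬ (p : ℤ) ∣ P.ord g) (m : ℕ) (hm : 0 < m) (hmp : m < p) (y : K)
    (hy : y ^ p - y = m * g) : False := by
  have hg : g ≠ 0 := by
    rintro rfl
    rw [P.ord_zero] at h0
    exact lt_irrefl _ h0
  have hm0 : (m : K) ≠ 0 := by
    intro h
    rw [CharP.cast_eq_zero_iff K p] at h
    exact absurd (Nat.le_of_dvd hm h) (not_le.2 hmp)
  have hmo : P.ord (m : K) = 0 := by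
    have := P.ord_const (m : k)
    rwa [map_natCast] at this
  have ho : P.ord ((m : K) * g) = P.ord g := by
    rw [P.ord_mul hm0 hg, hmo, zero_add]
  have hy0 : y ≠ 0 := by
    rintro rfl
    rw [zero_pow (Fact.out : p.Prime).ne_zero, sub_zero] at hy
    exact (mul_ne_zero hm0 hg) hy.symm
  by_cases hyo : 0 ≤ P.ord y
  · have h1 : P.ge 0 (y ^ p - y) :=
      P.ge_sub (by simpa using P.ge_pow (Or.inr hyo : P.ge 0 y) p) (Or.inr hyo)
    rw [hy, P.ge_iff (mul_ne_zero hm0 hg), ho] at h1
    omega
  · have hp2 := (Fact.out : p.Prime).two_le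
    have h2 : P.ord (y ^ p) = p * P.ord y := P.ord_pow p
    have h3 : P.ord (y ^ p) < P.ord (-y) := by
      rw [h2, P.ord_neg]
      have : (2 : ℤ) ≤ p := by exact_mod_cast hp2
      nlinarith
    have h4 := P.ord_add_eq' (pow_ne_zero p hy0) (neg_ne_zero.2 hy0) h3
    rw [← sub_eq_add_neg, hy, ho, h2] at h4
    exact hp ⟨_, h4.2⟩

theorem ASex_irreducible [CharP K p] (P : Plc k K) (g : K) (h0 : P.ord g < 0)
    (hp : ¬ (p : ℤ) ∣ P.ord g) : Irreducible (ASex_f p g) := by
  have hdeg : (ASex_f p g).degree ≠ 0 := by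
    rw [degree_eq_natDegree (ASex_monic g).ne_zero, ASex_natDegree]
    exact_mod_cast (Fact.out : p.Prime).ne_zero
  obtain ⟨z, hz⟩ := IsAlgClosed.exists_aeval_eq_zero (AlgebraicClosure K) (ASex_f p g) hdeg
  have hint : IsIntegral K z := ⟨ASex_f p g, ASex_monic g, by rwa [← aeval_def]⟩
  set q := minpoly K z with hq
  have hqm : q.Monic := minpoly.monic hint
  have hdvd : q ∣ ASex_f p g := minpoly.dvd K z hz
  have hle : q.natDegree ≤ p := by
    have := natDegree_le_of_dvd hdvd (ASex_monic g).ne_zero
    rwa [ASex_natDegree] at this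
  haveI : CharP (AlgebraicClosure K) p := charP_of_injective_algebraMap
    (algebraMap K (AlgebraicClosure K)).injective p
  have hroot : ∀ r : AlgebraicClosure K, aeval r (ASex_f p g) = 0 →
      r ^ p = r + algebraMap K _ g := by
    intro r hr
    unfold ASex_f at hr
    simp only [map_sub, map_pow, aeval_X, aeval_C] at hr
    linear_combination hr
  have hge : p ≤ q.natDegree := by
    by_contra hlt
    push Not at hlt
    have hpos : 0 < q.natDegree := minpoly.natDegree_pos hint
    set Q := q.map (algebraMap K (AlgebraicClosure K)) with hQ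
    have hsplit : Q.Splits := IsAlgClosed.splits Q
    have hcard : Q.roots.card = q.natDegree := by
      rw [← hsplit.natDegree_eq_card_roots, hQ, natDegree_map]
    have hsum : Q.nextCoeff = -Q.roots.sum := by
      exact hsplit.nextCoeff_eq_neg_sum_roots_of_monic (hqm.map _)
    have hfr : ∀ s : Multiset (AlgebraicClosure K), (∀ r ∈ s, r ^ p = r + algebraMap K _ g) →
        s.sum ^ p = s.sum + s.card * algebraMap K (AlgebraicClosure K) g := by
      intro s
      induction s using Multiset.induction_on with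
      | empty =>
        intro _
        simp [(Fact.out : p.Prime).ne_zero]
      | cons a s ih =>
        intro h
        rw [Multiset.sum_cons, add_pow_char, h a (Multiset.mem_cons_self a s),
          ih fun r hr => h r (Multiset.mem_cons_of_mem hr), Multiset.card_cons]
        push_cast
        ring
    have h1 := hfr Q.roots (fun r hr => by
      apply hroot
      have h2 : aeval r q = 0 := by
        have := (mem_roots'.1 hr).2
        rw [IsRoot.def, hQ, eval_map, ← aeval_def] at this
        exact this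
      obtain ⟨t, ht⟩ := hdvd
      rw [ht, map_mul, h2, zero_mul])
    have h3 : Q.roots.sum = algebraMap K (AlgebraicClosure K) (-q.nextCoeff) := by
      rw [map_neg, ← nextCoeff_map (algebraMap K (AlgebraicClosure K)).injective, ← hQ, hsum,
        neg_neg]
    rw [h3, hcard] at h1
    have h4 : (-q.nextCoeff) ^ p - (-q.nextCoeff) = (q.natDegree : K) * g := by
      apply (algebraMap K (AlgebraicClosure K)).injective
      rw [map_sub, map_pow, h1, map_mul, map_natCast]
      ring
    exact ASex_noroot P g h0 hp _ hpos hlt _ h4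
  have heq : q = ASex_f p g :=
    (eq_of_monic_of_dvd_of_natDegree_le hqm (ASex_monic g) hdvd
      (by rw [ASex_natDegree]; exact hge)).symm
  rw [← heq]
  exact minpoly.irreducible hint

/-- If `g` has a pole of order prime to `p` then `K(z)`, `z ^ p - z = g`, has degree `p`. -/
theorem exists_AS [CharP K p] (P : Plc k K) (g : K) (h0 : P.ord g < 0)
    (hp : ¬ (p : ℤ) ∣ P.ord g) :
    ∃ (L : Type) (_ : Field L) (_ : Algebra k L) (_ : Algebra K L) (_ : IsScalarTower k K L)
      (z : L), IsAS p g z := by
  haveI : Fact (Irreducible (ASex_f p g)) := ⟨ASex_irreducible P g h0 hp⟩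
  have hf0 := (ASex_monic (p := p) g).ne_zero
  refine ⟨AdjoinRoot (ASex_f p g), inferInstance,
    ((algebraMap K (AdjoinRoot (ASex_f p g))).comp (algebraMap k K)).toAlgebra, inferInstance,
    @IsScalarTower.of_algebraMap_eq _ _ _ _ _ _ _ _
      ((algebraMap K (AdjoinRoot (ASex_f p g))).comp (algebraMap k K)).toAlgebra (fun _ => rfl),
    AdjoinRoot.root (ASex_f p g), ?_, ?_, ?_⟩
  · have h := AdjoinRoot.mk_self (f := ASex_f p g)
    have h1 : AdjoinRoot.mk (ASex_f p g) (X ^ p - X - C g) = 0 := h
    rw [map_sub, map_sub, map_pow, AdjoinRoot.mk_X, AdjoinRoot.mk_C] at h1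
    rw [AdjoinRoot.algebraMap_eq]
    linear_combination h1
  · intro a
    obtain ⟨r, rfl⟩ := AdjoinRoot.mk_surjective a
    refine ⟨(r %ₘ ASex_f p g).coeff, ?_⟩
    have h1 : AdjoinRoot.mk (ASex_f p g) r = AdjoinRoot.mk (ASex_f p g) (r %ₘ ASex_f p g) := by
      rw [AdjoinRoot.mk_eq_mk]
      have := modByMonic_add_div r (ASex_f p g)
      exact ⟨r /ₘ ASex_f p g, by linear_combination -this⟩
    have hlt : (r %ₘ ASex_f p g).natDegree < p := by
      have := natDegree_modByMonic_lt r (ASex_monic (p := p) g) (by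
        intro h
        have h2 := ASex_natDegree (p := p) g
        rw [h, natDegree_one] at h2
        exact (Fact.out : p.Prime).ne_zero h2.symm)
      rwa [ASex_natDegree] at this
    rw [h1]
    conv_lhs => rw [as_sum_range' (r %ₘ ASex_f p g) p hlt]
    rw [map_sum]
    refine Finset.sum_congr rfl fun i _ => ?_
    rw [← C_mul_X_pow_eq_monomial, map_mul, map_pow, AdjoinRoot.mk_X, AdjoinRoot.mk_C,
      AdjoinRoot.algebraMap_eq]
  · intro c hc i hi
    have h1 : AdjoinRoot.mk (ASex_f p g) (∑ i ∈ Finset.range p, C (c i) * X ^ i) = 0 := by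
      rw [map_sum, ← hc]
      refine Finset.sum_congr rfl fun i _ => ?_
      rw [map_mul, map_pow, AdjoinRoot.mk_X, AdjoinRoot.mk_C, AdjoinRoot.algebraMap_eq]
    rw [AdjoinRoot.mk_eq_zero] at h1
    have h2 : (∑ i ∈ Finset.range p, C (c i) * X ^ i : K[X]) = 0 := by
      refine eq_zero_of_dvd_of_degree_lt h1 ?_
      rw [degree_eq_natDegree hf0, ASex_natDegree]
      refine (degree_sum_le _ _).trans_lt ?_
      rw [Finset.sup_lt_iff (by exact_mod_cast WithBot.bot_lt_coe _)]
      intro j hj
      exact (degree_C_mul_X_pow_le _ _).trans_lt (by exact_mod_cast Finset.mem_range.1 hj)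
    have h3 := congrArg (fun r => coeff r i) h2
    simp only [finsetSum_coeff, coeff_C_mul, coeff_X_pow, coeff_zero] at h3
    simpa [hi] using h3

end Pool.Agent.PRB
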