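import Pool.Agent.LibPRB.ASb

/-! # Artin–Schreier extensions: universal property -/

set_option autoImplicit false

namespace Pool.Agent.PRB

variable {p : ℕ} [Fact p.Prime] {K L : Type} [Field K] [Field L] [Algebra K L] {g : K} {z : L}

namespace IsAS

theorem ASl_li (h : IsAS p g z) : LinearIndependent K (fun i : Fin p => z ^ (i : ℕ)) := by
  rw [Fintype.linearIndependent_iff]
  intro c hc i
  have h1 : ∑ i ∈ Finset.range p,
      algebraMap K L ((fun j : ℕ => if hj : j < p then c ⟨j, hj⟩ else 0) i) * z ^ i = 0 := by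
    rw [Finset.sum_range, ← hc]
    apply Finset.sum_congr rfl
    intro j _
    simp [Algebra.smul_def]
  have h2 := h.indep _ h1 i i.2
  simpa using h2

theorem ASl_span (h : IsAS p g z) :
    ⊤ ≤ Submodule.span K (Set.range (fun i : Fin p => z ^ (i : ℕ))) := by
  intro a _
  obtain ⟨c, rfl⟩ := h.repr a
  apply Submodule.sum_mem
  intro i hi
  rw [← Algebra.smul_def]
  apply Submodule.smul_mem
  apply Submodule.subset_span
  exact ⟨⟨i, Finset.mem_range.1 hi⟩, rfl⟩

noncomputable def ASl_basis (h : IsAS p g z) : Module.Basis (Fin p) K L :=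
  Module.Basis.mk h.ASl_li h.ASl_span

theorem finite (h : IsAS p g z) : Module.Finite K L :=
  Module.Finite.of_basis h.ASl_basis

theorem finrank (h : IsAS p g z) : Module.finrank K L = p := by
  rw [Module.finrank_eq_card_basis h.ASl_basis, Fintype.card_fin]

theorem ASl_ker (h : IsAS p g z) (q : Polynomial K) (hq : Polynomial.aeval z q = 0) :
    (Polynomial.X ^ p - Polynomial.X - Polynomial.C g) ∣ q := by
  have hp : 1 < p := (Fact.out : p.Prime).one_lt
  set f : Polynomial K := Polynomial.X ^ p - Polynomial.X - Polynomial.C g with hf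
  have hfe : f = Polynomial.X ^ p - (Polynomial.X + Polynomial.C g) := by rw [hf]; ring
  have hdeg : (Polynomial.X + Polynomial.C g : Polynomial K).degree < (p : ℕ) := by
    rw [Polynomial.degree_X_add_C]
    exact_mod_cast hp
  have hmon : f.Monic := by
    rw [hfe]
    exact Polynomial.monic_X_pow_sub (n := p) (p := Polynomial.X + Polynomial.C g) (by
      exact_mod_cast (by simpa using hdeg))
  have hfd : f.degree = (p : ℕ) := by
    rw [hfe, Polynomial.degree_sub_eq_left_of_degree_lt, Polynomial.degree_X_pow]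
    rw [Polynomial.degree_X_pow]
    exact hdeg
  have hfz : Polynomial.aeval z f = 0 := by
    simp only [hf, map_sub, map_pow, Polynomial.aeval_X, Polynomial.aeval_C]
    rw [h.eq]; ring
  rw [← Polynomial.modByMonic_eq_zero_iff_dvd hmon]
  set r := q %ₘ f with hr
  have hrz : Polynomial.aeval z r = 0 := by
    have := Polynomial.modByMonic_add_div q f
    have h2 := congrArg (Polynomial.aeval z) this
    rw [map_add, map_mul, hfz, zero_mul, add_zero, hq] at h2
    exact h2
  have hrd : r.degree < (p : ℕ) := by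
    rw [← hfd]
    exact Polynomial.degree_modByMonic_lt q hmon
  have hsum : ∑ i ∈ Finset.range p, algebraMap K L (r.coeff i) * z ^ i = 0 := by
    rw [← hrz, Polynomial.aeval_def, Polynomial.eval₂_eq_sum_range' (algebraMap K L)]
    by_cases hr0 : r = 0
    · rw [hr0]; simp; exact (Fact.out : p.Prime).pos
    · exact (Polynomial.natDegree_lt_iff_degree_lt hr0).2 hrd
  ext i
  by_cases hi : i < p
  · rw [h.indep _ hsum i hi]; simp
  · rw [Polynomial.coeff_zero]
    apply Polynomial.coeff_eq_zero_of_degree_lt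
    refine lt_of_lt_of_le hrd ?_
    exact_mod_cast not_lt.1 hi

/-- Universal property of `L = K(z)`. -/
theorem lift (h : IsAS p g z) {M : Type} [CommRing M] (θ : K →+* M) (w : M)
    (hw : w ^ p = w + θ g) :
    ∃ Θ : L →+* M, (∀ a : K, Θ (algebraMap K L a) = θ a) ∧ Θ z = w := by
  have hsurj : Function.Surjective
      ((Polynomial.aeval z : Polynomial K →ₐ[K] L) : Polynomial K →+* L) := by
    intro a
    obtain ⟨c, rfl⟩ := h.repr a
    refine ⟨∑ i ∈ Finset.range p, Polynomial.C (c i) * Polynomial.X ^ i, ?_⟩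
    simp
  have hker : RingHom.ker ((Polynomial.aeval z : Polynomial K →ₐ[K] L) : Polynomial K →+* L) ≤
      RingHom.ker (Polynomial.eval₂RingHom θ w) := by
    intro q hq
    rw [RingHom.mem_ker] at hq ⊢
    obtain ⟨u, rfl⟩ := h.ASl_ker q hq
    rw [map_mul]
    have : Polynomial.eval₂RingHom θ w (Polynomial.X ^ p - Polynomial.X - Polynomial.C g) = 0 := by
      simp [hw]
    rw [this, zero_mul]
  let Θ := (((Polynomial.aeval z : Polynomial K →ₐ[K] L) : Polynomial K →+* L).liftOfSurjective
    hsurj) ⟨Polynomial.eval₂RingHom θ w, hker⟩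
  have hΘ : ∀ q : Polynomial K, Θ (Polynomial.aeval z q) = Polynomial.eval₂ θ w q := fun q =>
    RingHom.liftOfRightInverse_comp_apply _ _ _ _ q
  refine ⟨Θ, fun a => ?_, ?_⟩
  · have := hΘ (Polynomial.C a)
    simpa using this
  · have := hΘ Polynomial.X
    simpa using this

theorem ringHom_ext (h : IsAS p g z) {M : Type} [CommRing M] {Θ Θ' : L →+* M}
    (h1 : ∀ a : K, Θ (algebraMap K L a) = Θ' (algebraMap K L a)) (h2 : Θ z = Θ' z) : Θ = Θ' := by
  ext a
  obtain ⟨c, rfl⟩ := h.repr a
  simp only [map_sum, map_mul, map_pow, h1, h2]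

/-- The translations `z ↦ z + j`. -/
theorem exists_translation [CharP K p] (h : IsAS p g z) (j : ℕ) :
    ∃ τ : L ≃ₐ[K] L, τ z = z + j := by
  haveI : CharP L p := charP_of_injective_algebraMap (algebraMap K L).injective p
  have hj : ((j : L)) ^ p = j := by
    have := map_natCast (frobenius L p) j
    rwa [frobenius_def] at this
  obtain ⟨Θ, h1, h2⟩ := h.lift (algebraMap K L) (z + j) (by
    rw [add_pow_char, hj, h.eq]; ring)
  let Θ' : L →ₐ[K] L := { Θ with commutes' := h1 }
  haveI := h.finite
  have hb : Function.Bijective Θ' := Algebra.IsAlgebraic.algHom_bijective Θ'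
  exact ⟨AlgEquiv.ofBijective Θ' hb, h2⟩

end IsAS

end Pool.Agent.PRB
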