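import Pool.Agent.LibPRB.Defs

/-! # Places above and below -/

set_option autoImplicit false

namespace Pool.Agent.PRB

variable {k K L : Type} [Field k] [Field K] [Field L]
  [Algebra k K] [Algebra k L] [Algebra K L]

/-- Every place extends. -/
theorem exists_over (P : Plc k K) :
    ∃ O : ValuationSubring L, ∀ a : K, algebraMap K L a ∈ O ↔ P.ge 0 a := by
  obtain ⟨A, h, hloc⟩ := IsLocalRing.exists_factor_valuationRing
    ((algebraMap K L).comp P.ring.subtype)
  refine ⟨A, fun a => ⟨fun ha => ?_, fun ha => h ⟨a, ha⟩⟩⟩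
  by_contra hcon
  have ha0 : a ≠ 0 := by
    rintro rfl
    exact hcon (P.ge_zero 0)
  have hlt : P.ord a < 0 := by
    rw [P.ge_iff ha0] at hcon
    exact not_le.1 hcon
  have hinv : P.ge 0 a⁻¹ := Or.inr (by rw [P.ord_inv]; omega)
  have hu : IsUnit (⟨a⁻¹, hinv⟩ : P.ring) := by
    apply hloc.map_nonunit
    refine IsUnit.of_mul_eq_one (⟨algebraMap K L a, ha⟩ : A.toSubring) ?_
    apply Subtype.ext
    change algebraMap K L a⁻¹ * algebraMap K L a = 1
    rw [← map_mul, inv_mul_cancel₀ ha0, map_one]
  obtain ⟨b, hb⟩ := hu.exists_right_inv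
  have hb' : a⁻¹ * (b : K) = 1 := congrArg Subtype.val hb
  have hab : (b : K) = a := by
    field_simp at hb'
    exact hb'
  apply hcon
  rw [← hab]
  exact b.2

/-- The restriction of a place to a subfield over which `L` is algebraic is a place. -/
theorem comap_isPl [IsScalarTower k K L] [Algebra.IsAlgebraic K L] (O : ValuationSubring L)
    (hO : IsPl k O) : IsPl k (O.comap (algebraMap K L)) := by
  refine ⟨fun c => ?_, fun htop => hO.2 ?_⟩
  · rw [ValuationSubring.mem_comap, ← IsScalarTower.algebraMap_apply]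
    exact hO.1 c
  · have hK : ∀ a : K, algebraMap K L a ∈ O := by
      intro a
      rw [← ValuationSubring.mem_comap, htop]
      trivial
    rw [eq_top_iff]
    intro x _
    have hx : IsIntegral K x := (Algebra.IsAlgebraic.isAlgebraic x).isIntegral
    obtain ⟨f, hf, hfx⟩ := hx
    let φ : K →+* O := (algebraMap K L).codRestrict O.toSubring hK
    have hx2 : IsIntegral O x := by
      refine ⟨f.map φ, hf.map φ, ?_⟩
      rw [Polynomial.eval₂_map]
      exact hfx
    obtain ⟨y, hy⟩ := IsIntegrallyClosed.isIntegral_iff.1 hx2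
    rw [← hy]
    exact y.2

end Pool.Agent.PRB
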