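import Pool.Agent.LibPRB.RamG
import Pool.Agent.LibPRB.OverEx

/-! # Artin–Schreier extensions: ramified places, existence -/

set_option autoImplicit false

namespace Pool.Agent.PRB

/-- A sum whose nonzero terms have pairwise different valuations. -/
theorem RamE_dom {L Γ : Type*} [Field L] [LinearOrderedCommGroupWithZero Γ] (v : Valuation L Γ)
    (s : Finset ℕ) (f : ℕ → L)
    (hne : ∀ i ∈ s, ∀ j ∈ s, i ≠ j → f i ≠ 0 → f j ≠ 0 → v (f i) ≠ v (f j))
    (h0 : ∑ i ∈ s, f i ≠ 0) :
    ∃ i ∈ s, f i ≠ 0 ∧ v (∑ j ∈ s, f j) = v (f i) ∧ v (∑ j ∈ s, f j - f i) < v (f i) := by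
  classical
  have hs : s.Nonempty := by
    rw [Finset.nonempty_iff_ne_empty]
    rintro rfl
    simp at h0
  obtain ⟨i, hi, hmax⟩ := s.exists_max_image (fun i => v (f i)) hs
  have hfi : f i ≠ 0 := by
    intro h
    apply h0
    apply Finset.sum_eq_zero
    intro j hj
    have := hmax j hj
    simp only [h, map_zero] at this
    have h2 := le_antisymm this zero_le
    exact (map_eq_zero v).1 h2
  have hvi : v (f i) ≠ 0 := (map_ne_zero v).2 hfi
  have hrest : v (∑ j ∈ s.erase i, f j) < v (f i) := by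
    apply v.map_sum_lt hvi
    intro j hj
    have hj' := Finset.mem_erase.1 hj
    by_cases hfj : f j = 0
    · rw [hfj, map_zero]; exact zero_lt_iff.2 hvi
    · exact lt_of_le_of_ne (hmax j hj'.2) (hne j hj'.2 i hi hj'.1 hfj hfi)
  have hsum : ∑ j ∈ s, f j = f i + ∑ j ∈ s.erase i, f j := (Finset.add_sum_erase s f hi).symm
  refine ⟨i, hi, hfi, ?_, ?_⟩
  · rw [hsum]; exact v.map_add_eq_of_lt_left hrest
  · rw [hsum, add_sub_cancel_left]; exact hrest

variable {p : ℕ} [Fact p.Prime] {k K L : Type} [Field k] [Field K] [Field L]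
  [Algebra k K] [Algebra k L] [Algebra K L] [IsScalarTower k K L] {g : K} {z : L}

/-- Every valuation ring of `L` above a place `P` at which `g` has a pole of order prime to `p` is
the ring of a totally ramified place. -/
theorem ram_exists [CharP k p] (h : IsAS p g z) (P : Plc k K) (hg : P.ord g < 0)
    (hp : ¬ (p : ℤ) ∣ P.ord g) (O : ValuationSubring L)
    (hO : ∀ a : K, algebraMap K L a ∈ O ↔ P.ge 0 a) :
    ∃ Q : Plc k L, Q.ring = O ∧ OverRam p g z Q P := by
  classical
  have hpp : p.Prime := Fact.out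
  have hp0 : p ≠ 0 := hpp.ne_zero
  have hpz : (0 : ℤ) < p := by exact_mod_cast hpp.pos
  set v := O.valuation with hv
  have hι : Function.Injective (algebraMap K L) := (algebraMap K L).injective
  have hle : ∀ a : K, a ≠ 0 → (v (algebraMap K L a) ≤ 1 ↔ 0 ≤ P.ord a) := by
    intro a ha
    rw [hv, O.valuation_le_one_iff, hO, P.ge_iff ha]
  have hval0 : ∀ a : K, a ≠ 0 → P.ord a = 0 → v (algebraMap K L a) = 1 := by
    intro a ha h0
    apply le_antisymm
    · rw [hle a ha, h0]
    · have h1 : v (algebraMap K L a⁻¹) ≤ 1 := by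
        rw [hle _ (inv_ne_zero ha), P.ord_inv, h0]; simp
      rw [map_inv₀, map_inv₀] at h1
      exact (inv_le_one₀ (zero_lt_iff.2 ((map_ne_zero v).2 ((map_ne_zero _).2 ha)))).1 h1
  obtain ⟨π, hπ, hπ1⟩ := P.exists_unif
  set ϖ := v (algebraMap K L π) with hϖ
  have hϖ0 : 0 < ϖ := zero_lt_iff.2 ((map_ne_zero v).2 ((map_ne_zero _).2 hπ))
  have hϖ1 : ϖ < 1 := by
    apply lt_of_le_of_ne
    · rw [hϖ, hle π hπ, hπ1]; norm_num
    · intro he
      have h1 : v (algebraMap K L π⁻¹) ≤ 1 := by
        rw [map_inv₀, map_inv₀, ← hϖ, he, inv_one]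
      rw [hle _ (inv_ne_zero hπ), P.ord_inv, hπ1] at h1
      norm_num at h1
  have hK : ∀ a : K, a ≠ 0 → v (algebraMap K L a) = ϖ ^ P.ord a := by
    intro a ha
    have h1 : P.ord (a / π ^ (P.ord a)) = 0 := by
      rw [P.ord_div ha (zpow_ne_zero _ hπ), P.ord_zpow, hπ1]; ring
    have h2 := hval0 _ (div_ne_zero ha (zpow_ne_zero _ hπ)) h1
    rw [map_div₀, map_div₀, map_zpow₀, map_zpow₀, ← hϖ] at h2
    exact (div_eq_one_iff_eq (zpow_ne_zero _ hϖ0.ne')).1 h2
  have hinj : ∀ m n : ℤ, ϖ ^ m = ϖ ^ n → m = n := fun m n hmn =>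
    (zpow_right_strictAnti₀ hϖ0 hϖ1).injective hmn
  have hg0 : g ≠ 0 := by
    rintro rfl
    rw [P.ord_zero] at hg
    exact lt_irrefl _ hg
  have hvg : 1 < v (algebraMap K L g) := by
    rw [← not_le, hle g hg0]
    exact not_le.2 hg
  have hzg : algebraMap K L g = z ^ p - z := by rw [h.eq]; ring
  have hvz : 1 < v z := by
    by_contra hc
    rw [not_lt] at hc
    have : v (algebraMap K L g) ≤ 1 := by
      rw [hzg]
      apply v.map_sub_le _ hc
      rw [map_pow]
      exact pow_le_one' hc p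
    exact absurd hvg (not_lt.2 this)
  have hz0 : z ≠ 0 := by
    rintro rfl
    rw [map_zero] at hvz
    exact absurd hvz (by simp)
  have hvzp : v z ^ p = ϖ ^ P.ord g := by
    rw [← hK g hg0, hzg]
    rw [v.map_sub_eq_of_lt_left, map_pow]
    rw [map_pow]
    exact lt_self_pow₀ hvz hpp.one_lt
  -- terms
  have hterm : ∀ (c : K) (i : ℕ), c ≠ 0 →
      v (algebraMap K L c * z ^ i) ^ p = ϖ ^ (p * P.ord c + i * P.ord g) := by
    intro c i hc
    rw [map_mul, mul_pow, hK c hc, map_pow, ← pow_mul, mul_comm i p, pow_mul, hvzp,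
      zpow_add₀ hϖ0.ne', ← zpow_natCast (ϖ ^ P.ord c), ← zpow_mul, ← zpow_natCast (ϖ ^ P.ord g),
      ← zpow_mul, mul_comm (P.ord c), mul_comm (P.ord g)]
  have hprime : Prime (p : ℤ) := Nat.prime_iff_prime_int.1 hpp
  have hdist : ∀ (c : ℕ → K), ∀ i ∈ Finset.range p, ∀ j ∈ Finset.range p, i ≠ j →
      algebraMap K L (c i) * z ^ i ≠ 0 → algebraMap K L (c j) * z ^ j ≠ 0 →
      v (algebraMap K L (c i) * z ^ i) ≠ v (algebraMap K L (c j) * z ^ j) := by
    intro c i hi j hj hij hci hcj he
    have h1 : c i ≠ 0 := by rintro h0; rw [h0] at hci; simp at hci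
    have h2 : c j ≠ 0 := by rintro h0; rw [h0] at hcj; simp at hcj
    have h3 := congrArg (· ^ p) he
    simp only [hterm _ _ h1, hterm _ _ h2] at h3
    have h4 := hinj _ _ h3
    have h5 : (p : ℤ) ∣ ((i : ℤ) - j) * P.ord g :=
      ⟨P.ord (c j) - P.ord (c i), by linarith [h4]⟩
    rcases hprime.dvd_or_dvd h5 with h6 | h6
    · rw [Finset.mem_range] at hi hj
      have h7 : (i : ℤ) - j = 0 := by
        apply Int.eq_zero_of_abs_lt_dvd h6
        rw [abs_lt]
        constructor <;> omega
      apply hij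
      omega
    · exact hp h6
  -- the order
  have hkey : ∀ a : L, a ≠ 0 → ∃ (i : ℕ) (c : K), i < p ∧ c ≠ 0 ∧
      v a = v (algebraMap K L c * z ^ i) ∧ v (a - algebraMap K L c * z ^ i) < v a := by
    intro a ha
    obtain ⟨c, rfl⟩ := h.repr a
    obtain ⟨i, hi, h1, h2, h3⟩ := RamE_dom v (Finset.range p)
      (fun i => algebraMap K L (c i) * z ^ i) (hdist c) ha
    refine ⟨i, c i, Finset.mem_range.1 hi, ?_, h2, ?_⟩
    · intro h0; simp [h0] at h1
    · rw [h2]; exact h3
  have hex : ∀ a : L, a ≠ 0 → ∃ n : ℤ, v a ^ p = ϖ ^ n := by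
    intro a ha
    obtain ⟨i, c, _, hc, h1, _⟩ := hkey a ha
    exact ⟨_, by rw [h1, hterm c i hc]⟩
  let ord : L → ℤ := fun a => if ha : a = 0 then 0 else (hex a ha).choose
  have hord : ∀ a : L, a ≠ 0 → v a ^ p = ϖ ^ ord a := by
    intro a ha
    have : ord a = (hex a ha).choose := by simp only [ord, dif_neg ha]
    rw [this]
    exact (hex a ha).choose_spec
  have hord0 : ord 0 = 0 := by simp [ord]
  have horde : ∀ (a : L) (n : ℤ), a ≠ 0 → v a ^ p = ϖ ^ n → ord a = n := by
    intro a n ha hn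
    rw [hord a ha] at hn
    exact hinj _ _ hn
  have hle1 : ∀ a : L, a ≠ 0 → (v a ≤ 1 ↔ 0 ≤ ord a) := by
    intro a ha
    rw [← pow_le_one_iff (x := v a) hp0, hord a ha]
    rw [← zpow_zero ϖ, zpow_le_zpow_iff_right_of_lt_one₀ hϖ0 hϖ1]
  have hlt1 : ∀ a : L, a ≠ 0 → (v a < 1 ↔ 0 < ord a) := by
    intro a ha
    rw [← pow_lt_one_iff (x := v a) hp0, hord a ha]
    rw [← zpow_zero ϖ, zpow_lt_zpow_iff_right_of_lt_one₀ hϖ0 hϖ1]
  have hkc : ∀ c : k, algebraMap k L c = algebraMap K L (algebraMap k K c) := fun c =>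
    IsScalarTower.algebraMap_apply k K L c
  have hKord : ∀ a : K, a ≠ 0 → ord (algebraMap K L a) = p * P.ord a := by
    intro a ha
    apply horde _ _ ((map_ne_zero _).2 ha)
    rw [hK a ha, ← zpow_natCast, ← zpow_mul, mul_comm]
  let Q : Plc k L :=
    { ord := ord
      ord_zero := hord0
      ord_mul' := by
        intro a b ha hb
        apply horde _ _ (mul_ne_zero ha hb)
        rw [map_mul, mul_pow, hord a ha, hord b hb, zpow_add₀ hϖ0.ne']
      ord_add' := by
        intro a b ha hb hab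
        have h1 := v.map_add a b
        rcases le_max_iff.1 h1 with h2 | h2
        · have h3 := pow_le_pow_left' h2 p
          rw [hord _ hab, hord a ha, zpow_le_zpow_iff_right_of_lt_one₀ hϖ0 hϖ1] at h3
          exact (min_le_left _ _).trans h3
        · have h3 := pow_le_pow_left' h2 p
          rw [hord _ hab, hord b hb, zpow_le_zpow_iff_right_of_lt_one₀ hϖ0 hϖ1] at h3
          exact (min_le_right _ _).trans h3
      exists_unif := by
        have hcop : IsCoprime (p : ℤ) (P.ord g) := (Prime.coprime_iff_not_dvd hprime).2 hp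
        obtain ⟨x, y, hxy⟩ := hcop
        have hne : algebraMap K L (π ^ x) * z ^ y ≠ 0 :=
          mul_ne_zero ((map_ne_zero _).2 (zpow_ne_zero _ hπ)) (zpow_ne_zero _ hz0)
        refine ⟨algebraMap K L (π ^ x) * z ^ y, hne, ?_⟩
        apply horde _ _ hne
        rw [map_mul, mul_pow, hK _ (zpow_ne_zero _ hπ), P.ord_zpow, hπ1, mul_one, map_zpow₀,
          ← zpow_natCast (v z ^ y), ← zpow_mul, mul_comm y (p : ℤ), zpow_mul, zpow_natCast, hvzp,
          ← zpow_natCast (ϖ ^ x), ← zpow_mul, ← zpow_mul, ← zpow_add₀ hϖ0.ne', mul_comm (P.ord g),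
          hxy]
      ord_const := by
        intro c
        by_cases hc : c = 0
        · rw [hc, map_zero, hord0]
        · rw [hkc, hKord _ ((map_ne_zero _).2 hc), P.ord_const, mul_zero]
      exists_const := by
        intro a ha h0
        obtain ⟨i, c, hi, hc, h1, h2⟩ := hkey a ha
        have h3 := hterm c i hc
        rw [← h1, hord a ha, h0] at h3
        have h4 := hinj _ _ h3
        have h5 : (p : ℤ) ∣ i * P.ord g := ⟨-P.ord c, by linarith⟩
        have h6 : i = 0 := by
          rcases hprime.dvd_or_dvd h5 with h6 | h6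
          · have h7 : (p : ℕ) ∣ i := by exact_mod_cast h6
            exact Nat.eq_zero_of_dvd_of_lt h7 hi
          · exact absurd h6 hp
        subst h6
        have h7 : P.ord c = 0 := by
          have : (p : ℤ) * P.ord c = 0 := by
            simpa using h4.symm
          rcases mul_eq_zero.1 this with h8 | h8
          · exact absurd h8 hpz.ne'
          · exact h8
        rw [pow_zero, mul_one] at h1 h2
        have hva : v a = 1 := by rw [h1]; exact hval0 c hc h7
        rw [hva] at h2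
        obtain ⟨c', hc'⟩ := P.exists_const c hc h7
        have h8 : v (algebraMap K L (c - algebraMap k K c')) < 1 := by
          rcases hc' with h9 | h9
          · rw [h9, map_zero, map_zero]; exact zero_lt_one
          · have h10 : c - algebraMap k K c' ≠ 0 := by
              intro h11; rw [h11, P.ord_zero] at h9; exact lt_irrefl _ h9
            rw [hK _ h10, ← zpow_zero ϖ, zpow_lt_zpow_iff_right_of_lt_one₀ hϖ0 hϖ1]
            exact h9
        refine ⟨c', ?_⟩
        by_cases h9 : a - algebraMap k L c' = 0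
        · exact Or.inl h9
        · right
          rw [← hlt1 _ h9]
          have h10 : a - algebraMap k L c' =
              (a - algebraMap K L c) + algebraMap K L (c - algebraMap k K c') := by
            rw [map_sub, hkc]; ring
          rw [h10]
          exact v.map_add_lt h2 h8 }
  refine ⟨Q, ?_, ?_, ?_⟩
  · ext a
    rw [Q.mem_ring, ← O.valuation_le_one_iff, ← hv]
    by_cases ha : a = 0
    · rw [ha, map_zero]
      exact ⟨fun _ => zero_le_one, fun _ => Q.ge_zero 0⟩
    · rw [Q.ge_iff ha]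
      exact (hle1 a ha).symm
  · intro a
    by_cases ha : a = 0
    · rw [ha, map_zero, P.ord_zero, mul_zero]; exact hord0
    · exact hKord a ha
  · exact horde z _ hz0 hvzp

end Pool.Agent.PRB
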