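import Pool.Agent.LibPRB.ASD
import Pool.Agent.LibPRB.ASl
import Pool.Agent.LibPRB.ASex
import Pool.Agent.LibPRB.ASder
import Pool.Agent.LibPRB.RamE
import Pool.Agent.LibPRB.OverEx

/-! # Existence of Artin–Schreier steps -/

set_option autoImplicit false

namespace Pool.Agent.PRB

/-- Existence of the Artin–Schreier step. -/
theorem exists_ASD {p : ℕ} [Fact p.Prime] {k : Type} [Field k] [IsAlgClosed k] [CharP k p] {ζ : k}
    (hζ : IsPrimitiveRoot ζ (p - 1))
    {K : Type} [Field K] [Algebra k K] (Λ : Lad p ζ K) (g : K) (N : ℕ)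
    (N_pos : 0 < N) (N_p : ¬ p ∣ N) (g_inf : Λ.inf.ord g = -N) (g_sig : Λ.sig g = ζ ^ N • g)
    (g_phi : Λ.phi g = g)
    (g_pl : ∀ P : Plc k K, P.ge 0 g ∨ (P.ord g < 0 ∧ ¬ (p : ℤ) ∣ P.ord g)) :
    ∃ (L : Type) (_ : Field L) (_ : Algebra k L) (_ : Algebra K L) (_ : IsScalarTower k K L)
      (z : L), Nonempty (ASD Λ g N L z) := by
  have hp : p.Prime := Fact.out
  have : CharP K p := charP_of_injective_algebraMap (algebraMap k K).injective p
  have h0 : Λ.inf.ord g < 0 := by rw [g_inf]; omega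
  have hdvd : ¬ (p : ℤ) ∣ Λ.inf.ord g := by
    rw [g_inf, dvd_neg]
    exact_mod_cast N_p
  obtain ⟨L, _, _, _, _, z, h⟩ := exists_AS (k := k) Λ.inf g h0 hdvd
  obtain ⟨D', hD1, hD2⟩ := exists_deriv h Λ.D
  have hζp : (ζ ^ N) ^ p = ζ ^ N := by
    have h1 : ζ ^ p = ζ := by
      calc ζ ^ p = ζ ^ (p - 1) * ζ := by rw [← pow_succ, Nat.sub_add_cancel hp.one_lt.le]
        _ = ζ := by rw [hζ.pow_eq_one, one_mul]
    rw [← pow_mul, mul_comm, pow_mul, h1]
  have hw1 : (ζ ^ N • z) ^ p = ζ ^ N • z + ((algebraMap K L).comp (Λ.sig : K →+* K)) g := by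
    have h2 : ((algebraMap K L).comp (Λ.sig : K →+* K)) g = ζ ^ N • algebraMap K L g := by
      have h3 : ((algebraMap K L).comp (Λ.sig : K →+* K)) g = algebraMap K L (Λ.sig g) := rfl
      rw [h3, g_sig, Algebra.smul_def, Algebra.smul_def, map_mul,
        ← IsScalarTower.algebraMap_apply]
    rw [h2, smul_pow, hζp, h.eq, smul_add]
  obtain ⟨S, hS1, hS2⟩ := h.lift ((algebraMap K L).comp (Λ.sig : K →+* K)) (ζ ^ N • z) hw1
  have hw2 : z ^ p = z + ((algebraMap K L).comp Λ.phi) g := by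
    have h3 : ((algebraMap K L).comp Λ.phi) g = algebraMap K L (Λ.phi g) := rfl
    rw [h3, g_phi, h.eq]
  obtain ⟨F, hF1, hF2⟩ := h.lift ((algebraMap K L).comp Λ.phi) z hw2
  obtain ⟨O, hO⟩ := exists_over (L := L) Λ.inf
  obtain ⟨Q, -, hQ⟩ := ram_exists h Λ.inf h0 hdvd O hO
  refine ⟨L, inferInstance, inferInstance, inferInstance, inferInstance, z, ⟨?_⟩⟩
  exact
    { as := h
      D := D'
      sig := { S with
        commutes' := fun c => by
          change S (algebraMap k L c) = algebraMap k L c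
          rw [IsScalarTower.algebraMap_apply k K L, hS1]
          change algebraMap K L (Λ.sig (algebraMap k K c)) = _
          rw [Λ.sig.commutes] }
      phi := F
      inf := Q
      N_pos := N_pos
      N_p := N_p
      g_inf := g_inf
      g_sig := g_sig
      g_phi := g_phi
      g_pl := g_pl
      D_alg := hD1
      D_z := hD2
      sig_alg := fun a => hS1 a
      sig_z := hS2
      phi_alg := fun a => hF1 a
      phi_z := hF2
      inf_over := hQ }

end Pool.Agent.PRB
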