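import Pool.Agent.LibPRB.ASDp
import Pool.Agent.LibPRB.ASPB

/-! # Artin–Schreier steps: the automorphism and the Frobenius -/

set_option autoImplicit false

namespace Pool.Agent.PRB

theorem ASDw_ind {p : ℕ} {K L : Type} [Field K] [Field L] [Algebra K L] {g : K} {z : L}
    (h : IsAS p g z) (P : L → Prop) (halg : ∀ c, P (algebraMap K L c)) (hz : P z)
    (hadd : ∀ a b, P a → P b → P (a + b)) (hmul : ∀ a b, P a → P b → P (a * b)) (a : L) : P a := by
  have hpow : ∀ i, P (z ^ i) := by
    intro i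
    induction i with
    | zero => simpa using halg 1
    | succ i ih => rw [pow_succ]; exact hmul _ _ ih hz
  have hsum : ∀ (s : Finset ℕ) (c : ℕ → K), P (∑ i ∈ s, algebraMap K L (c i) * z ^ i) := by
    intro s c
    classical
    induction s using Finset.induction_on with
    | empty => simpa using halg 0
    | insert i s hi ih =>
      rw [Finset.sum_insert hi]
      exact hadd _ _ (hmul _ _ (halg _) (hpow i)) ih
  obtain ⟨c, hc⟩ := h.repr a
  rw [hc]
  exact hsum _ c

namespace ASD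

variable {p : ℕ} [Fact p.Prime] {k : Type} [Field k] [IsAlgClosed k] [CharP k p] {ζ : k}
  {K : Type} [Field K] [Algebra k K] {Λ : Lad p ζ K} {g : K} {N : ℕ}
  {L : Type} [Field L] [Algebra k L] [Algebra K L] [IsScalarTower k K L] {z : L}

omit [IsAlgClosed k] [CharP k p] in
theorem ASDw_ne (hζ : IsPrimitiveRoot ζ (p - 1)) : ζ ≠ 0 := by
  have h2 := (Fact.out : p.Prime).two_le
  exact hζ.ne_zero (by omega)

omit [IsAlgClosed k] [CharP k p] in
theorem ASDw_co (A : ASD Λ g N L z) (a : L) {d : ℕ} (hd : d < p) :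
    A.as.co (A.sig a) d = ζ ^ (d * N) • Λ.sig (A.as.co a d) := by
  have h1 : ∑ i ∈ Finset.range p,
      algebraMap K L (ζ ^ (i * N) • Λ.sig (A.as.co a i)) * z ^ i = A.sig a := by
    conv_rhs => rw [← A.as.sum_co a, map_sum]
    refine Finset.sum_congr rfl fun i _ => ?_
    rw [map_mul, map_pow, A.sig_alg, A.sig_z, Algebra.smul_def, Algebra.smul_def, mul_pow,
      map_mul, ← IsScalarTower.algebraMap_apply k K L, ← map_pow, ← pow_mul, mul_comm i N]
    ring
  exact A.as.co_eq_of_lt h1 hd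

omit [IsAlgClosed k] [CharP k p] in
theorem ASDw_co_smul (A : ASD Λ g N L z) (c : k) (a : L) (d : ℕ) :
    A.as.co (c • a) d = c • A.as.co a d := by
  rw [Algebra.smul_def, IsScalarTower.algebraMap_apply k K L, A.as.co_mul, Algebra.smul_def]

theorem sig_iff (A : ASD Λ g N L z) (hζ : IsPrimitiveRoot ζ (p - 1)) (e : ℤ) (a : L) :
    A.sig a = ζ ^ e • a ↔
      ∀ d < p, Λ.sig (A.as.co a d) = ζ ^ (e - d * N : ℤ) • A.as.co a d := by
  have h0 := ASDw_ne hζ
  have key : ∀ d < p, A.as.co (A.sig a) d = A.as.co (ζ ^ e • a) d ↔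
      Λ.sig (A.as.co a d) = ζ ^ (e - d * N : ℤ) • A.as.co a d := by
    intro d hd
    rw [A.ASDw_co a hd, A.ASDw_co_smul]
    have h1 : ζ ^ e = ζ ^ (d * N) * ζ ^ (e - d * N : ℤ) := by
      rw [← zpow_natCast, ← zpow_add₀ h0]
      congr 1
      push_cast
      ring
    rw [h1, mul_smul]
    exact ⟨fun h => smul_right_injective K (pow_ne_zero _ h0) h, fun h => by rw [h]⟩
  constructor
  · intro h d hd
    rw [← key d hd, h]
  · intro h
    exact A.as.ext fun d hd => (key d hd).mpr (h d hd)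

theorem sig_D (A : ASD Λ g N L z) (hζ : IsPrimitiveRoot ζ (p - 1)) (a : L) :
    A.D (A.sig a) = ζ • A.sig (A.D a) := by
  have hs : ∀ (c : k) (x : K), algebraMap K L (c • x) = c • algebraMap K L x := by
    intro c x
    rw [Algebra.smul_def, Algebra.smul_def, map_mul, ← IsScalarTower.algebraMap_apply k K L]
  refine ASDw_ind A.as (fun a => A.D (A.sig a) = ζ • A.sig (A.D a)) ?_ ?_ ?_ ?_ a
  · intro c
    rw [A.sig_alg, A.D_alg, A.D_alg, A.sig_alg, Λ.sig_D, hs]
  · rw [A.sig_z, Derivation.map_smul, A.D_z, map_neg, A.sig_alg, smul_neg, smul_neg, ← hs, ← hs,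
      ← Λ.sig_D, A.g_sig, Derivation.map_smul]
  · intro a b ha hb
    rw [map_add, map_add, map_add, map_add, ha, hb, smul_add]
  · intro a b ha hb
    rw [map_mul, Derivation.leibniz, Derivation.leibniz, map_add, smul_eq_mul, smul_eq_mul,
      smul_eq_mul, smul_eq_mul, map_mul, map_mul, ha, hb, smul_add, mul_smul_comm, mul_smul_comm]

theorem sig_iter (A : ASD Λ g N L z) (hζ : IsPrimitiveRoot ζ (p - 1)) (a : L) :
    A.sig^[p - 1] a = a := by
  have hz : ∀ n : ℕ, A.sig^[n] z = ζ ^ (n * N) • z := by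
    intro n
    induction n with
    | zero => simp
    | succ n ih =>
      rw [Function.iterate_succ_apply', ih, map_smul, A.sig_z, smul_smul, ← pow_add]
      congr 2
      ring
  have halg : ∀ (n : ℕ) (c : K), A.sig^[n] (algebraMap K L c) = algebraMap K L (Λ.sig^[n] c) := by
    intro n c
    induction n with
    | zero => rfl
    | succ n ih => rw [Function.iterate_succ_apply', ih, A.sig_alg, Function.iterate_succ_apply']
  refine ASDw_ind A.as (fun a => A.sig^[p - 1] a = a) ?_ ?_ ?_ ?_ a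
  · intro c
    rw [halg, Λ.sig_iter]
  · rw [hz, pow_mul, hζ.pow_eq_one, one_pow, one_smul]
  · intro a b ha hb
    rw [iterate_map_add, ha, hb]
  · intro a b ha hb
    rw [iterate_map_mul, ha, hb]

theorem sig_inf (A : ASD Λ g N L z) (hζ : IsPrimitiveRoot ζ (p - 1)) (a : L) :
    A.inf.ord (A.sig a) = A.inf.ord a := by
  have h0 := ASDw_ne hζ
  have hg : Λ.inf.ord g < 0 := by
    have h1 := A.g_inf
    have h2 := A.N_pos
    omega
  by_cases ha : a = 0
  · rw [ha, map_zero]
  have hsa : A.sig a ≠ 0 := by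
    intro h
    exact ha (A.sig.toRingHom.injective (h.trans (map_zero A.sig).symm))
  have hge : ∀ n : ℤ, A.inf.ge n (A.sig a) ↔ A.inf.ge n a := by
    intro n
    rw [ram_ge_iff A.as Λ.inf hg (A.ASDp_ndvd _ hg) A.inf A.inf_over,
      ram_ge_iff A.as Λ.inf hg (A.ASDp_ndvd _ hg) A.inf A.inf_over]
    refine forall_congr' fun i => ?_
    by_cases hi : i < p
    · rw [A.ASDw_co a hi]
      by_cases hc : A.as.co a i = 0
      · rw [hc, map_zero, smul_zero]
      · have hc' : Λ.sig (A.as.co a i) ≠ 0 := by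
          intro h
          exact hc (Λ.sig.toRingHom.injective (h.trans (map_zero Λ.sig).symm))
        have hu : (algebraMap k K (ζ ^ (i * N))) ≠ 0 := by
          rw [Ne, map_eq_zero]
          exact pow_ne_zero _ h0
        have h2 : Λ.inf.ord (ζ ^ (i * N) • Λ.sig (A.as.co a i)) = Λ.inf.ord (A.as.co a i) := by
          rw [Algebra.smul_def, Λ.inf.ord_mul hu hc', Λ.inf.ord_const, zero_add, Λ.sig_inf]
        have h3 : ζ ^ (i * N) • Λ.sig (A.as.co a i) ≠ 0 := by
          rw [Algebra.smul_def]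
          exact mul_ne_zero hu hc'
        rw [h2]
        simp only [h3, hc, false_or]
    · rw [A.as.co_of_le _ (not_lt.mp hi), A.as.co_of_le _ (not_lt.mp hi)]
  apply le_antisymm
  · have := (hge (A.inf.ord (A.sig a))).mp (Or.inr le_rfl)
    rwa [A.inf.ge_iff ha] at this
  · have := (hge (A.inf.ord a)).mpr (Or.inr le_rfl)
    rwa [A.inf.ge_iff hsa] at this

theorem phi_const (A : ASD Λ g N L z) (c : k) :
    A.phi (algebraMap k L c) = algebraMap k L (c ^ p) := by
  rw [IsScalarTower.algebraMap_apply k K L, A.phi_alg, Λ.phi_const,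
    ← IsScalarTower.algebraMap_apply k K L]

theorem phi_sig (A : ASD Λ g N L z) (hζ : IsPrimitiveRoot ζ (p - 1)) (a : L) :
    A.phi (A.sig a) = A.sig (A.phi a) := by
  have h : A.phi.comp A.sig.toRingHom = A.sig.toRingHom.comp A.phi := by
    apply A.as.ringHom_ext
    · intro c
      change A.phi (A.sig (algebraMap K L c)) = A.sig (A.phi (algebraMap K L c))
      rw [A.sig_alg, A.phi_alg, A.phi_alg, A.sig_alg, Λ.phi_sig]
    · change A.phi (A.sig z) = A.sig (A.phi z)
      rw [A.phi_z, A.sig_z, Algebra.smul_def, map_mul, A.phi_const, A.phi_z]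
      congr 2
      have h2 : ζ ^ p = ζ := by
        have h3 : p - 1 + 1 = p := Nat.sub_add_cancel (Fact.out : p.Prime).one_le
        rw [← h3, pow_succ, hζ.pow_eq_one, one_mul]
      rw [← pow_mul, mul_comm, pow_mul, h2]
  exact DFunLike.congr_fun h a

theorem phi_iter (A : ASD Λ g N L z) (a : L) : ∃ n > 0, A.phi^[n] a = a := by
  have halg : ∀ (n : ℕ) (c : K), A.phi^[n] (algebraMap K L c) = algebraMap K L (Λ.phi^[n] c) := by
    intro n c
    induction n with
    | zero => rfl
    | succ n ih => rw [Function.iterate_succ_apply', ih, A.phi_alg, Function.iterate_succ_apply']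
  refine ASDw_ind A.as (fun a => ∃ n > 0, A.phi^[n] a = a) ?_ ?_ ?_ ?_ a
  · intro c
    obtain ⟨n, hn, h⟩ := Λ.phi_iter c
    exact ⟨n, hn, by rw [halg, h]⟩
  · exact ⟨1, one_pos, A.phi_z⟩
  · rintro a b ⟨n, hn, ha⟩ ⟨m, hm, hb⟩
    have h1 : A.phi^[n * m] a = a := Function.IsPeriodicPt.mul_const ha m
    have h2 : A.phi^[n * m] b = b := Function.IsPeriodicPt.const_mul hb n
    exact ⟨n * m, Nat.mul_pos hn hm, by rw [iterate_map_add, h1, h2]⟩
  · rintro a b ⟨n, hn, ha⟩ ⟨m, hm, hb⟩
    have h1 : A.phi^[n * m] a = a := Function.IsPeriodicPt.mul_const ha m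
    have h2 : A.phi^[n * m] b = b := Function.IsPeriodicPt.const_mul hb n
    exact ⟨n * m, Nat.mul_pos hn hm, by rw [iterate_map_mul, h1, h2]⟩

end ASD

end Pool.Agent.PRB
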