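import Pool.Agent.LibPRB.Plc

/-! # Codimension one, leading coefficients -/

set_option autoImplicit false

namespace Pool.Agent.PRB

/-- Codimension one. -/
theorem finrank_succ {k V : Type} [Field k] [AddCommGroup V] [Module k V] (A B : Submodule k V)
    (hAB : A ≤ B) (hA : Module.Finite k A) (u : V) (huB : u ∈ B) (huA : u ∉ A)
    (h : ∀ c ∈ B, ∃ r : k, c - r • u ∈ A) :
    Module.Finite k B ∧ Module.finrank k B = Module.finrank k A + 1 := by
  have hB : B = A ⊔ Submodule.span k {u} := by
    apply le_antisymm
    · intro c hc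
      obtain ⟨r, hr⟩ := h c hc
      have h1 : c = (c - r • u) + r • u := by abel
      rw [h1]
      exact Submodule.add_mem_sup hr (Submodule.smul_mem _ _ (Submodule.mem_span_singleton_self u))
    · apply sup_le hAB
      rw [Submodule.span_le]
      simpa using huB
  have hu0 : u ≠ 0 := by
    rintro rfl
    exact huA A.zero_mem
  haveI : Module.Finite k (Submodule.span k {u} : Submodule k V) := by infer_instance
  haveI := hA
  have hfin : Module.Finite k (A ⊔ Submodule.span k {u} : Submodule k V) := by infer_instance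
  rw [hB]
  refine ⟨hfin, ?_⟩
  have h2 := Submodule.finrank_sup_add_finrank_inf_eq A (Submodule.span k {u})
  have h3 : A ⊓ Submodule.span k {u} = ⊥ := by
    rw [Submodule.eq_bot_iff]
    rintro x ⟨hx1, hx2⟩
    obtain ⟨r, rfl⟩ := Submodule.mem_span_singleton.mp hx2
    by_cases hr : r = 0
    · simp [hr]
    · exfalso
      apply huA
      have := A.smul_mem r⁻¹ hx1
      rwa [smul_smul, inv_mul_cancel₀ hr, one_smul] at this
  rw [h3, finrank_bot, finrank_span_singleton hu0] at h2
  omega

/-- Leading coefficients. -/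
theorem Plc.exists_sub_smul {k K : Type} [Field k] [Field K] [Algebra k K] (P : Plc k K) {u c : K}
    (hu : u ≠ 0) (hc : P.ge (P.ord u) c) : ∃ r : k, P.ge (P.ord u + 1) (c - r • u) := by
  have h1 : P.ge 0 (c / u) := by
    by_cases hc0 : c = 0
    · left; simp [hc0]
    · rw [P.ge_iff hc0] at hc
      right
      rw [P.ord_div hc0 hu]
      linarith
  obtain ⟨r, hr⟩ := P.res h1
  refine ⟨r, ?_⟩
  have h2 : c - r • u = u * (c / u - algebraMap k K r) := by
    rw [Algebra.smul_def]
    field_simp
  rw [h2]
  have h3 : P.ge (P.ord u) u := Or.inr le_rfl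
  exact P.ge_mul h3 hr

end Pool.Agent.PRB
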