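import Pool.Agent.LibPRB.LadW
import Pool.Agent.LibPRB.LinA

/-! # Ladder curves: finiteness of the spaces `Msp` -/

set_option autoImplicit false

namespace Pool.Agent.PRB

/-- One more pole order at one place. -/
private theorem LadM_step {k K : Type} [Field k] [Field K] [Algebra k K] (P : Plc k K) (n : ℤ)
    (A B : Submodule k K) (hAB : A ≤ B) (hA : Module.Finite k A) (h1 : ∀ c ∈ B, P.ge n c)
    (h2 : ∀ c ∈ B, P.ge (n + 1) c → c ∈ A) : Module.Finite k B := by
  by_cases hex : ∃ u ∈ B, u ≠ 0 ∧ P.ord u = n ∧ u ∉ A
  · obtain ⟨u, huB, hu0, hun, huA⟩ := hex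
    refine (finrank_succ A B hAB hA u huB huA fun c hc => ?_).1
    obtain ⟨r, hr⟩ := P.exists_sub_smul hu0 (by rw [hun]; exact h1 c hc)
    rw [hun] at hr
    exact ⟨r, h2 _ (B.sub_mem hc (B.smul_mem r huB)) hr⟩
  · push Not at hex
    have hBA : B = A := by
      refine le_antisymm (fun c hc => ?_) hAB
      by_cases hc0 : c = 0
      · rw [hc0]
        exact A.zero_mem
      · have h3 := h1 c hc
        rw [P.ge_iff hc0] at h3
        rcases h3.eq_or_lt with h | h
        · exact hex c hc hc0 h.symm
        · exact h2 c hc ((P.ge_iff hc0).2 (by linarith))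
    rw [hBA]
    exact hA

namespace Lad

variable {p : ℕ} [Fact p.Prime] {k : Type} [Field k] [IsAlgClosed k] [CharP k p] {ζ : k}
  {K : Type} [Field K] [Algebra k K]

theorem Msp_zero_eq (Λ : Lad p ζ K) :
    Λ.Msp (fun _ => 0) (Λ.gam - 1) = Λ.Msp (fun _ => 0) (Λ.gam - 2) := by
  apply le_antisymm
  · intro c hc
    rw [mem_Msp] at hc ⊢
    refine ⟨hc.1, ?_⟩
    by_cases hc0 : c = 0
    · rw [hc0]
      exact Λ.inf.ge_zero _
    · have h1 : Λ.inf.ord c ≠ 1 - Λ.gam :=
        Λ.nopol c hc0 fun P hP => by simpa using hc.1 P hP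
      have h2 := hc.2
      rw [Λ.inf.ge_iff hc0] at h2 ⊢
      omega
  · intro c hc
    rw [mem_Msp] at hc ⊢
    exact ⟨hc.1, hc.2.mono (by linarith)⟩

/-- One more pole order at infinity. -/
private theorem LadM_inf (Λ : Lad p ζ K) (b : Plc k K → ℕ) (B : ℤ)
    (h : Module.Finite k (Λ.Msp b B)) : Module.Finite k (Λ.Msp b (B + 1)) := by
  refine LadM_step Λ.inf (-(B + 1)) (Λ.Msp b B) _ ?_ h ?_ ?_
  · intro c hc
    rw [mem_Msp] at hc ⊢
    exact ⟨hc.1, hc.2.mono (by linarith)⟩
  · intro c hc
    exact (mem_Msp.1 hc).2
  · intro c hc h1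
    rw [mem_Msp] at hc ⊢
    exact ⟨hc.1, h1.mono (by linarith)⟩

/-- Finiteness without poles at finite places. -/
private theorem LadM_base (Λ : Lad p ζ K) (B : ℤ) :
    Module.Finite k (Λ.Msp (fun _ => 0) B) := by
  have h0 : Module.Finite k (Λ.Msp (fun _ => 0) (Λ.gam - 2)) := by
    rw [← regSp_eq]
    exact Λ.fd
  have h1 : ∀ n : ℕ, Module.Finite k (Λ.Msp (fun _ => 0) (Λ.gam - 2 + n)) := by
    intro n
    induction n with
    | zero =>
      have h3 : (Λ.gam - 2 + ((0 : ℕ) : ℤ) : ℤ) = Λ.gam - 2 := by simp
      rw [h3]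
      exact h0
    | succ n ih =>
      have h2 := LadM_inf Λ _ _ ih
      have h3 : (Λ.gam - 2 + (n : ℤ) + 1 : ℤ) = Λ.gam - 2 + ((n + 1 : ℕ) : ℤ) := by
        push_cast
        ring
      rw [h3] at h2
      exact h2
  have h2 := h1 (B - (Λ.gam - 2)).toNat
  have hle : Λ.Msp (fun _ => 0) B ≤
      Λ.Msp (fun _ => 0) (Λ.gam - 2 + ((B - (Λ.gam - 2)).toNat : ℤ)) := by
    intro c hc
    rw [mem_Msp] at hc ⊢
    refine ⟨hc.1, hc.2.mono ?_⟩
    have := Int.self_le_toNat (B - (Λ.gam - 2))
    linarith
  exact Submodule.finiteDimensional_of_le hle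

open Classical in
/-- All the spaces `Msp b B` are finite-dimensional. -/
private theorem LadM_aux (Λ : Lad p ζ K) (B : ℤ) (S : Finset (Plc k K)) :
    ∀ b : Plc k K → ℕ, (∀ P ∉ S, b P = 0) → Module.Finite k (Λ.Msp b B) := by
  induction S using Finset.induction_on with
  | empty =>
    intro b hb
    have : b = fun _ => 0 := funext fun P => hb P (Finset.notMem_empty P)
    rw [this]
    exact LadM_base Λ B
  | insert P S _ ih =>
    intro b hb
    have h0 : Module.Finite k (Λ.Msp (Function.update b P 0) B) := by
      apply ih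
      intro P' hP'
      by_cases h : P' = P
      · rw [h, Function.update_self]
      · rw [Function.update_of_ne h]
        exact hb P' fun h' => (Finset.mem_insert.1 h').elim h hP'
    by_cases hinf : P = Λ.inf
    · have : Λ.Msp b B = Λ.Msp (Function.update b P 0) B := by
        ext c
        rw [mem_Msp, mem_Msp]
        refine and_congr_left fun _ => forall_congr' fun P' => ?_
        refine imp_congr_right fun hP' => ?_
        rw [Function.update_of_ne (by rw [hinf]; exact hP')]
      rw [this]
      exact h0
    · have h1 : ∀ m : ℕ, Module.Finite k (Λ.Msp (Function.update b P m) B) := by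
        intro m
        induction m with
        | zero => exact h0
        | succ m ihm =>
          refine LadM_step P (-((m + 1 : ℕ) : ℤ)) (Λ.Msp (Function.update b P m) B) _ ?_ ihm ?_ ?_
          · intro c hc
            rw [mem_Msp] at hc ⊢
            refine ⟨fun P' hP' => ?_, hc.2⟩
            have h2 := hc.1 P' hP'
            by_cases h : P' = P
            · subst h
              rw [Function.update_self] at h2 ⊢
              exact h2.mono (by push_cast; linarith)
            · rw [Function.update_of_ne h] at h2 ⊢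
              exact h2
          · intro c hc
            have h2 := (mem_Msp.1 hc).1 P hinf
            rw [Function.update_self] at h2
            exact h2
          · intro c hc h3
            rw [mem_Msp] at hc ⊢
            refine ⟨fun P' hP' => ?_, hc.2⟩
            have h2 := hc.1 P' hP'
            by_cases h : P' = P
            · subst h
              rw [Function.update_self]
              exact h3.mono (by push_cast; linarith)
            · rw [Function.update_of_ne h] at h2 ⊢
              exact h2
      have h2 := h1 (b P)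
      rw [Function.update_eq_self] at h2
      exact h2

/-- All the spaces `Msp b B` are finite-dimensional. -/
theorem finite_Msp (Λ : Lad p ζ K) (b : Plc k K → ℕ) (hb : {P | b P ≠ 0}.Finite) (B : ℤ) :
    Module.Finite k (Λ.Msp b B) :=
  LadM_aux Λ B hb.toFinset b fun P hP => by
    by_contra h
    exact hP (hb.mem_toFinset.2 h)

end Lad

end Pool.Agent.PRB
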