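import Pool.Agent.LibPRB.ASDr
import Pool.Agent.LibPRB.ASDw
import Pool.Agent.LibPRB.LadM

/-! # Artin–Schreier steps: dimensions -/

set_option autoImplicit false

namespace Pool.Agent.PRB

namespace ASD

variable {p : ℕ} [Fact p.Prime] {k : Type} [Field k] [IsAlgClosed k] [CharP k p] {ζ : k}
  {K : Type} [Field K] [Algebra k K] {Λ : Lad p ζ K} {g : K} {N : ℕ}
  {L : Type} [Field L] [Algebra k L] [Algebra K L] [IsScalarTower k K L] {z : L}

omit [IsAlgClosed k] [CharP k p] in
theorem ASDf_co_smul (A : ASD Λ g N L z) (r : k) (a : L) (i : ℕ) :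
    A.as.co (r • a) i = r • A.as.co a i := by
  have h : r • a = algebraMap K L (algebraMap k K r) * a := by
    rw [← IsScalarTower.algebraMap_apply, Algebra.smul_def]
  rw [h, A.as.co_mul, Algebra.smul_def]

omit [IsAlgClosed k] [CharP k p] in
/-- A subspace given by conditions on the coefficients is the product of the spaces of
coefficients. -/
theorem ASDf_equiv (A : ASD Λ g N L z) (V : Submodule k L) (W : ℕ → Submodule k K)
    (hV : ∀ a, a ∈ V ↔ ∀ d < p, A.as.co a d ∈ W d) :
    Nonempty (V ≃ₗ[k] (∀ d : Fin p, W (d : ℕ))) := by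
  classical
  let f : V →ₗ[k] (∀ d : Fin p, W (d : ℕ)) :=
    { toFun := fun a d => ⟨A.as.co (a : L) d, (hV a).1 a.2 d d.2⟩
      map_add' := fun a b => by
        funext d
        apply Subtype.ext
        exact A.as.co_add _ _ _
      map_smul' := fun r a => by
        funext d
        apply Subtype.ext
        exact A.ASDf_co_smul r _ _ }
  have hf : ∀ (a : V) (d : Fin p), ((f a d : W (d : ℕ)) : K) = A.as.co (a : L) d :=
    fun a d => rfl
  refine ⟨LinearEquiv.ofBijective f ⟨?_, ?_⟩⟩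
  · intro a b hab
    apply Subtype.ext
    apply A.as.ext
    intro i hi
    have h1 := congrFun hab ⟨i, hi⟩
    have h2 := congrArg Subtype.val h1
    exact h2
  · intro c
    let c' : ℕ → K := fun i => if h : i < p then (c ⟨i, h⟩ : K) else 0
    have hc' : ∀ (i : ℕ) (hi : i < p), c' i = (c ⟨i, hi⟩ : K) := fun i hi => dif_pos hi
    let a : L := ∑ i ∈ Finset.range p, algebraMap K L (c' i) * z ^ i
    have hco : ∀ i < p, A.as.co a i = c' i := fun i hi => A.as.co_eq_of_lt rfl hi
    have ha : a ∈ V := by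
      rw [hV]
      intro d hd
      rw [hco d hd, hc' d hd]
      exact (c ⟨d, hd⟩).2
    refine ⟨⟨a, ha⟩, ?_⟩
    funext d
    apply Subtype.ext
    rw [hf]
    change A.as.co a d = _
    rw [hco d d.2, hc' d d.2]

omit [CharP k p] [IsAlgClosed k] in
theorem ASDf_g_ne (A : ASD Λ g N L z) : g ≠ 0 := by
  intro h
  have h1 := A.g_inf
  rw [h, Λ.inf.ord_zero] at h1
  have := A.N_pos
  omega

theorem ASDf_finite_Mg (A : ASD Λ g N L z) (d : ℕ) : Module.Finite k (Λ.Mg g d) := by
  unfold Lad.Mg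
  apply Lad.finite_Msp
  refine (Λ.fsupp g A.ASDf_g_ne).subset ?_
  intro P hP hP0
  apply hP
  have h1 : pole g P = 0 := by
    unfold pole
    rw [hP0]
    simp
  have hp : 0 < p := (Fact.out : p.Prime).pos
  simp only [h1, bnd, mul_zero, zero_add]
  exact Nat.div_eq_of_lt (by omega)

omit [IsAlgClosed k] [CharP k p] in
theorem ASDf_finrank (A : ASD Λ g N L z) (V : Submodule k L) (W : ℕ → Submodule k K)
    (hV : ∀ a, a ∈ V ↔ ∀ d < p, A.as.co a d ∈ W d) (hW : ∀ d, Module.Finite k (W d)) :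
    Module.Finite k V ∧ Module.finrank k V = ∑ d ∈ Finset.range p, Module.finrank k (W d) := by
  obtain ⟨e⟩ := A.ASDf_equiv V W hV
  have := hW
  refine ⟨Module.Finite.equiv e.symm, ?_⟩
  rw [e.finrank_eq, Module.finrank_pi_fintype, Finset.sum_range]

/-- Dimensions of the spaces of regular differentials of given weight. -/
theorem finrank_regSp_wt (A : ASD Λ g N L z) (hζ : IsPrimitiveRoot ζ (p - 1))
    (e : ℤ) :
    Module.finrank k (regSp A.D ⊓ wtSp A.sig (ζ ^ e) : Submodule k L) =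
      ∑ d ∈ Finset.range p, Module.finrank k
        (Λ.Mg g d ⊓ wtSp Λ.sig (ζ ^ (e - d * N : ℤ)) : Submodule k K) := by
  refine (A.ASDf_finrank (regSp A.D ⊓ wtSp A.sig (ζ ^ e))
    (fun d => Λ.Mg g d ⊓ wtSp Λ.sig (ζ ^ (e - d * N : ℤ))) ?_ ?_).2
  · intro a
    rw [Submodule.mem_inf, A.mem_regSp_iff, mem_wtSp, A.sig_iff hζ]
    constructor
    · rintro ⟨h1, h2⟩ d hd
      exact Submodule.mem_inf.2 ⟨h1 d hd, h2 d hd⟩
    · intro h
      exact ⟨fun d hd => (Submodule.mem_inf.1 (h d hd)).1,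
        fun d hd => (Submodule.mem_inf.1 (h d hd)).2⟩
  · intro d
    have := A.ASDf_finite_Mg d
    exact Submodule.finiteDimensional_of_le (S₂ := Λ.Mg g d) inf_le_left

theorem finrank_regSp (A : ASD Λ g N L z) :
    Module.Finite k (regSp A.D) ∧ Module.finrank k (regSp A.D) =
      ∑ d ∈ Finset.range p, Module.finrank k (Λ.Mg g d) :=
  A.ASDf_finrank (regSp A.D) (fun d => Λ.Mg g d) (fun a => A.mem_regSp_iff a) A.ASDf_finite_Mg

end ASD

end Pool.Agent.PRB
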