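import Pool.Agent.LibPRB.ASD
import Pool.Agent.LibPRB.EtU
import Pool.Agent.LibPRB.RamE

/-! # Artin–Schreier steps: places -/

set_option autoImplicit false

namespace Pool.Agent.PRB

namespace ASD

variable {p : ℕ} [Fact p.Prime] {k : Type} [Field k] [IsAlgClosed k] [CharP k p] {ζ : k}
  {K : Type} [Field K] [Algebra k K] {Λ : Lad p ζ K} {g : K} {N : ℕ}
  {L : Type} [Field L] [Algebra k L] [Algebra K L] [IsScalarTower k K L] {z : L}

omit [Fact p.Prime] [IsAlgClosed k] [CharP k p] [IsScalarTower k K L] in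
theorem ASDp_ndvd (A : ASD Λ g N L z) (P : Plc k K) (hg : P.ord g < 0) : ¬ (p : ℤ) ∣ P.ord g := by
  rcases A.g_pl P with (h | h) | h
  · rw [h, P.ord_zero] at hg
    exact absurd hg (lt_irrefl 0)
  · exact absurd hg (not_lt.mpr h)
  · exact h.2

theorem ASDp_main (A : ASD Λ g N L z) (O : ValuationSubring L) (hO : IsPl k O) :
    ∃ (Q : Plc k L) (P : Plc k K), Q.ring = O ∧
      ((P.ge 0 g ∧ OverEt Q P) ∨ (P.ord g < 0 ∧ OverRam p g z Q P)) := by
  have hfin : Module.Finite K L := A.as.finite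
  have halg : Algebra.IsAlgebraic K L := inferInstance
  obtain ⟨P, hP⟩ := Λ.disc _ (comap_isPl (k := k) (K := K) O hO)
  have hOP : ∀ a : K, algebraMap K L a ∈ O ↔ P.ge 0 a := by
    intro a
    rw [← P.mem_ring, hP, ValuationSubring.mem_comap]
  by_cases hg : P.ge 0 g
  · obtain ⟨Q, hQ, hQP⟩ := et_exists A.as P hg O hOP
    exact ⟨Q, P, hQ, Or.inl ⟨hg, hQP⟩⟩
  · have hg' : P.ord g < 0 := by
      by_contra h
      exact hg (Or.inr (not_lt.mp h))
    obtain ⟨Q, hQ, hQP⟩ := ram_exists A.as P hg' (A.ASDp_ndvd P hg') O hOP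
    exact ⟨Q, P, hQ, Or.inr ⟨hg', hQP⟩⟩

theorem disc (A : ASD Λ g N L z) (O : ValuationSubring L) (hO : IsPl k O) :
    ∃ Q : Plc k L, Q.ring = O := by
  obtain ⟨Q, _, hQ, _⟩ := A.ASDp_main O hO
  exact ⟨Q, hQ⟩

/-- Every place of `L` lies over a place of `K`. -/
theorem exists_under (A : ASD Λ g N L z) (Q : Plc k L) :
    ∃ P : Plc k K, (P.ge 0 g ∧ OverEt Q P) ∨ (P.ord g < 0 ∧ OverRam p g z Q P) := by
  obtain ⟨Q', P, hQ, h⟩ := A.ASDp_main Q.ring Q.isPl
  have hQQ : Q' = Q := Plc.ext_ring' hQ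
  subst hQQ
  exact ⟨P, h⟩

theorem exists_over_et (A : ASD Λ g N L z) (P : Plc k K) (hg : P.ge 0 g) :
    ∃ Q : Plc k L, OverEt Q P := by
  obtain ⟨O, hO⟩ := exists_over (L := L) P
  obtain ⟨Q, _, hQ⟩ := et_exists A.as P hg O hO
  exact ⟨Q, hQ⟩

theorem exists_over_ram (A : ASD Λ g N L z) (P : Plc k K) (hg : P.ord g < 0) :
    ∃ Q : Plc k L, OverRam p g z Q P := by
  obtain ⟨O, hO⟩ := exists_over (L := L) P
  obtain ⟨Q, _, hQ⟩ := ram_exists A.as P hg (A.ASDp_ndvd P hg) O hO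
  exact ⟨Q, hQ⟩

/-- The place at infinity is the only place above the place at infinity. -/
theorem eq_inf_iff (A : ASD Λ g N L z) (Q : Plc k L) :
    Q = A.inf ↔ Q.ord (algebraMap K L Λ.s) < 0 := by
  have hp : (0 : ℤ) < p := by exact_mod_cast (Fact.out : p.Prime).pos
  have hinf : ∀ P : Plc k K, P.ord Λ.s < 0 → P = Λ.inf := by
    intro P hP
    by_contra hne
    rcases Λ.fin_s P hne with h | h
    · rw [h, P.ord_zero] at hP
      exact absurd hP (lt_irrefl 0)
    · exact absurd hP (not_lt.mpr h)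
  have hN : Λ.inf.ord g < 0 := by
    have h1 := A.g_inf
    have h2 := A.N_pos
    omega
  constructor
  · rintro rfl
    rw [A.inf_over.1]
    exact mul_neg_of_pos_of_neg hp Λ.inf_s
  · intro hQ
    obtain ⟨P, ⟨hg, hQP⟩ | ⟨hg, hQP⟩⟩ := A.exists_under Q
    · rw [hQP] at hQ
      have hP := hinf P hQ
      subst hP
      rcases hg with h | h
      · rw [h, Plc.ord_zero] at hN
        exact absurd hN (lt_irrefl 0)
      · exact absurd hN (not_lt.mpr h)
    · rw [hQP.1] at hQ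
      have hQ' : P.ord Λ.s < 0 := by
        by_contra h
        exact absurd hQ (not_lt.mpr (mul_nonneg hp.le (not_lt.mp h)))
      have hP := hinf P hQ'
      subst hP
      exact ram_unique A.as Λ.inf hg (A.ASDp_ndvd _ hg) Q A.inf hQP A.inf_over

end ASD

end Pool.Agent.PRB
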