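import Pool.Agent.LibPRB.Lad

/-! # Ladder curves: weights and orders -/

set_option autoImplicit false

namespace Pool.Agent.PRB

namespace Lad

variable {p : ℕ} [Fact p.Prime] {k : Type} [Field k] [IsAlgClosed k] [CharP k p] {ζ : k}
  {K : Type} [Field K] [Algebra k K]

theorem mem_regSp_iff (Λ : Lad p ζ K) (a : K) :
    a ∈ regSp Λ.D ↔ (∀ P, P ≠ Λ.inf → P.ge 0 a) ∧ Λ.inf.ge (2 - Λ.gam) a := by
  rw [mem_regSp]
  have e1 : -((Λ.gam : ℤ) - 2) = 2 - Λ.gam := by ring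
  constructor
  · intro h
    refine ⟨fun P hP => ?_, ?_⟩
    · simpa using h P 0 (Λ.fin_diff P hP)
    · have := h Λ.inf _ Λ.inf_diff
      rwa [e1] at this
  · rintro ⟨h1, h2⟩ P δ hδ
    by_cases hP : P = Λ.inf
    · subst hP
      have := hδ.unique Λ.inf_diff
      subst this
      rwa [e1]
    · have := hδ.unique (Λ.fin_diff P hP)
      subst this
      simpa using h1 P hP

theorem regSp_eq (Λ : Lad p ζ K) : regSp Λ.D = Λ.Msp (fun _ => 0) (Λ.gam - 2) := by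
  ext a
  rw [mem_regSp_iff, mem_Msp]
  have e1 : -((Λ.gam : ℤ) - 2) = 2 - Λ.gam := by ring
  rw [e1]
  simp

theorem LadW_val (Λ : Lad p ζ K) (P : Plc k K) (hfix : ∀ a, P.ord (Λ.sig a) = P.ord a) {a : K}
    (ha : P.ge 0 a) : P.val (Λ.sig a) = P.val a := by
  apply P.val_eq
  have h1 := P.val_spec ha
  have h2 : Λ.sig a - algebraMap k K (P.val a) = Λ.sig (a - algebraMap k K (P.val a)) := by
    rw [map_sub, AlgHom.commutes]
  rw [h2]
  rcases h1 with h1 | h1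
  · left
    rw [h1, map_zero]
  · right
    rw [hfix]
    exact h1

theorem LadW_key (Λ : Lad p ζ K) (hζ : IsPrimitiveRoot ζ (p - 1)) (P : Plc k K)
    (hfix : ∀ a, P.ord (Λ.sig a) = P.ord a) {r : K} (hr : r ≠ 0) (h0 : P.ord r = 0) {m : ℤ}
    (hs : Λ.sig r = ζ ^ m • r) : ((p - 1 : ℕ) : ℤ) ∣ m := by
  have hge : P.ge 0 r := Or.inr h0.ge
  have h1 := Λ.LadW_val P hfix hge
  rw [hs, Algebra.smul_def, P.val_mul (P.ge_const _) hge, P.val_const] at h1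
  have h2 : P.val r ≠ 0 := by
    rw [Ne, P.val_eq_zero_iff hge, P.ge_iff hr, h0]
    norm_num
  have h3 : ζ ^ m = 1 := mul_right_cancel₀ h2 (by rw [h1, one_mul])
  exact (hζ.zpow_eq_one_iff_dvd m).1 h3

/-- The value at infinity is `sig`-invariant. -/
theorem val_inf_sig (Λ : Lad p ζ K) {a : K} (ha : Λ.inf.ge 0 a) :
    Λ.inf.val (Λ.sig a) = Λ.inf.val a :=
  Λ.LadW_val Λ.inf Λ.sig_inf ha

/-- Weight and order at infinity: an element of weight `e` has pole order `≡ e`. -/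
theorem weight_inf (Λ : Lad p ζ K) (hζ : IsPrimitiveRoot ζ (p - 1)) {a : K} (ha : a ≠ 0) {e : ℤ}
    (hs : Λ.sig a = ζ ^ e • a) : ((p - 1 : ℕ) : ℤ) ∣ e + Λ.inf.ord a := by
  have hζ0 : ζ ≠ 0 := hζ.ne_zero (by
    have := (Fact.out : p.Prime).two_le
    omega)
  obtain ⟨n1, n2, h1, h2, h12⟩ : ∃ n1 n2 : ℕ, Λ.gam ≤ n1 ∧ Λ.gam ≤ n2 ∧
      (n2 : ℤ) = n1 - Λ.inf.ord a := by
    refine ⟨Λ.gam + (Λ.inf.ord a).natAbs, (Λ.gam + (Λ.inf.ord a).natAbs - Λ.inf.ord a).toNat,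
      by omega, by omega, by omega⟩
  obtain ⟨u, hu0, -, hu, hus, -⟩ := Λ.pol n1 h1
  obtain ⟨v, hv0, -, hv, hvs, -⟩ := Λ.pol n2 h2
  have hr0 : a * u / v ≠ 0 := div_ne_zero (mul_ne_zero ha hu0) hv0
  refine Λ.LadW_key hζ Λ.inf Λ.sig_inf hr0 ?_ ?_
  · rw [Λ.inf.ord_div (mul_ne_zero ha hu0) hv0, Λ.inf.ord_mul ha hu0, hu, hv, h12]
    ring
  · rw [map_div₀, map_mul, hs, hus, hvs]
    simp only [Algebra.smul_def, map_pow, map_zpow₀]
    have hz : algebraMap k K ζ ≠ 0 := by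
      rw [Ne, map_eq_zero]
      exact hζ0
    have h3 : e + Λ.inf.ord a = e + n1 - n2 := by rw [h12]; ring
    rw [h3, zpow_sub₀ hz, zpow_add₀ hz, zpow_natCast, zpow_natCast]
    field_simp

/-- `s` is a uniformizer at the finite places where it vanishes. -/
theorem ord_s (Λ : Lad p ζ K) (P : Plc k K) (hP : P ≠ Λ.inf) (c : k) (hc : P.val Λ.s = c) :
    Λ.s - algebraMap k K c ≠ 0 ∧ P.ord (Λ.s - algebraMap k K c) = 1 := by
  have hD : Λ.D (Λ.s - algebraMap k K c) = 1 := by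
    rw [map_sub, Λ.pb.D_s, Derivation.map_algebraMap, sub_zero]
  have hne : Λ.s - algebraMap k K c ≠ 0 := by
    intro h
    rw [h, map_zero] at hD
    exact zero_ne_one hD
  refine ⟨hne, ?_⟩
  have h1 : P.ge 1 (Λ.s - algebraMap k K c) := by
    rw [← hc]
    exact P.val_spec (Λ.fin_s P hP)
  rw [P.ge_iff hne] at h1
  refine le_antisymm ?_ h1
  by_contra h2
  push Not at h2
  have h3 : P.ge 2 (Λ.s - algebraMap k K c) := Or.inr (by omega)
  have h4 := (Λ.fin_diff P hP).ge_D h3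
  rw [hD, P.ge_iff one_ne_zero, P.ord_one] at h4
  norm_num at h4

/-- Weight and order at a fixed finite place with `s = 0`: an element of weight `e` has pole order
`≡ -e`. -/
theorem weight_fix (Λ : Lad p ζ K) (hζ : IsPrimitiveRoot ζ (p - 1)) (P : Plc k K)
    (hP : P ≠ Λ.inf) (hfix : ∀ a, P.ord (Λ.sig a) = P.ord a) (hs0 : P.ge 1 Λ.s) {a : K}
    (ha : a ≠ 0) {e : ℤ} (hs : Λ.sig a = ζ ^ e • a) :
    ((p - 1 : ℕ) : ℤ) ∣ e - P.ord a := by
  have hζ0 : ζ ≠ 0 := hζ.ne_zero (by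
    have := (Fact.out : p.Prime).two_le
    omega)
  have h1 := Λ.ord_s P hP 0 ((P.val_eq_zero_iff (hs0.mono (by norm_num))).2 hs0)
  rw [map_zero, sub_zero] at h1
  obtain ⟨hs1, hs2⟩ := h1
  have hr0 : a / Λ.s ^ (P.ord a) ≠ 0 := div_ne_zero ha (zpow_ne_zero _ hs1)
  refine Λ.LadW_key hζ P hfix hr0 ?_ ?_
  · rw [P.ord_div ha (zpow_ne_zero _ hs1), P.ord_zpow, hs2]
    ring
  · rw [map_div₀, map_zpow₀, hs, Λ.sig_s]
    simp only [Algebra.smul_def, map_zpow₀]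
    have hz : algebraMap k K ζ ≠ 0 := by
      rw [Ne, map_eq_zero]
      exact hζ0
    rw [zpow_sub₀ hz, mul_zpow]
    have h2 := zpow_ne_zero (P.ord a) hz
    have h3 := zpow_ne_zero (P.ord a) hs1
    field_simp

end Lad

end Pool.Agent.PRB
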