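import Pool.Agent.LibPRB.ASDp
import Pool.Agent.LibPRB.DiffE
import Pool.Agent.LibPRB.DiffR
import Pool.Agent.LibPRB.LadW

/-! # Artin–Schreier steps: regular differentials -/

set_option autoImplicit false

namespace Pool.Agent.PRB

theorem ASDr_arith {p : ℕ} (hp : 0 < p) (D d : ℕ) (hd : d < p) (m x : ℤ) :
    -(p * m + (p - 1) * (1 - -(D : ℤ))) ≤ p * x + d * -(D : ℤ) ↔ -(m + bnd p D d) ≤ x := by
  have h1 : ((((p - 1 - d) * D + (p - 1) : ℕ)) : ℤ) = ((p : ℤ) - 1 - d) * D + ((p : ℤ) - 1) := by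
    push_cast [Nat.cast_sub (show d ≤ p - 1 by omega), Nat.cast_sub (show 1 ≤ p by omega)]
    ring
  have hp' : (0 : ℤ) < p := by exact_mod_cast hp
  have h2 : (-x - m) ≤ (bnd p D d : ℤ) ↔ (-x - m) * p ≤ ((p : ℤ) - 1 - d) * D + ((p : ℤ) - 1) := by
    unfold bnd
    rw [Int.natCast_ediv, h1]
    exact Int.le_ediv_iff_mul_le hp'
  constructor
  · intro h
    have h3 : (-x - m) * p ≤ ((p : ℤ) - 1 - d) * D + ((p : ℤ) - 1) := by nlinarith
    have h4 := h2.2 h3
    linarith
  · intro h
    have h3 := h2.1 (by linarith)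
    nlinarith

namespace ASD

variable {p : ℕ} [Fact p.Prime] {k : Type} [Field k] [IsAlgClosed k] [CharP k p] {ζ : k}
  {K : Type} [Field K] [Algebra k K] {Λ : Lad p ζ K} {g : K} {N : ℕ}
  {L : Type} [Field L] [Algebra k L] [Algebra K L] [IsScalarTower k K L] {z : L}

/-- The condition at a totally ramified place. -/
theorem ASDr_ram (A : ASD Λ g N L z) (P : Plc k K) (hg : P.ord g < 0)
    (hp : ¬ (p : ℤ) ∣ P.ord g) (Q : Plc k L) (hQ : OverRam p g z Q P) (m : ℤ) (a : L) :
    Q.ge (-(p * m + (p - 1) * (1 - P.ord g))) a ↔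
      ∀ d < p, P.ge (-(m + bnd p (pole g P) d)) (A.as.co a d) := by
  have hpp : 0 < p := (Fact.out : p.Prime).pos
  have hpole : P.ord g = -((pole g P : ℕ) : ℤ) := by
    unfold pole
    rw [Int.toNat_of_nonneg (by omega)]
    ring
  rw [ram_ge_iff A.as P hg hp Q hQ]
  constructor
  · intro h d hd
    by_cases h0 : A.as.co a d = 0
    · exact Or.inl h0
    · rcases h d with h1 | h1
      · exact absurd h1 h0
      · right
        rw [hpole] at h1
        exact (ASDr_arith hpp _ d hd m _).1 h1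
  · intro h d
    by_cases hd : d < p
    · rcases h d hd with h1 | h1
      · exact Or.inl h1
      · right
        rw [hpole]
        exact (ASDr_arith hpp _ d hd m _).2 h1
    · left
      exact A.as.co_of_le a (not_lt.1 hd)

/-- The place at infinity is not a place where `g` is regular. -/
theorem ASDr_ne_inf (A : ASD Λ g N L z) (P : Plc k K) (hg : P.ge 0 g) : P ≠ Λ.inf := by
  rintro rfl
  have h1 := A.g_inf
  have h2 := A.N_pos
  rcases hg with h | h
  · rw [h, Plc.ord_zero] at h1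
    omega
  · omega

theorem ASDr_pole (P : Plc k K) (hg : P.ge 0 g) (d : ℕ) : bnd p (pole g P) d = 0 := by
  have hpp : 0 < p := (Fact.out : p.Prime).pos
  have h1 : pole g P = 0 := by
    unfold pole
    rcases hg with h | h
    · rw [h, Plc.ord_zero]; rfl
    · omega
  unfold bnd
  rw [h1, mul_zero, zero_add]
  exact Nat.div_eq_of_lt (by omega)

/-- The regular differentials. -/
theorem mem_regSp_iff (A : ASD Λ g N L z) (a : L) :
    a ∈ regSp A.D ↔ ∀ d < p, A.as.co a d ∈ Λ.Mg g d := by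
  have hinf : Λ.inf.ord g < 0 := by
    rw [A.g_inf]
    have := A.N_pos
    omega
  have hinfp : ¬ (p : ℤ) ∣ Λ.inf.ord g := by
    rw [A.g_inf, dvd_neg]
    exact_mod_cast A.N_p
  rw [mem_regSp]
  constructor
  · intro h d hd
    unfold Lad.Mg
    rw [Lad.mem_Msp]
    constructor
    · intro P hP
      rcases A.g_pl P with hg | ⟨hg, hgp⟩
      · have h1 := (et_coeff A.as P hg (-0) a).1 (fun Q hQ =>
          h Q 0 (diff_et A.as P hg Λ.D A.D A.D_alg (Λ.fin_diff P hP) Q hQ)) d
        rw [ASDr_pole P hg d]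
        simpa using h1
      · obtain ⟨Q, hQ⟩ := A.exists_over_ram P hg
        have h1 := h Q _ (diff_ram A.as P hg hgp Λ.D A.D A.D_alg A.D_z (Λ.fin_diff P hP) Q hQ)
        have h2 := (ASDr_ram A P hg hgp Q hQ 0 a).1 h1 d hd
        simpa using h2
    · have h1 := h A.inf _ (diff_ram A.as Λ.inf hinf hinfp Λ.D A.D A.D_alg A.D_z Λ.inf_diff A.inf
        A.inf_over)
      exact (ASDr_ram A Λ.inf hinf hinfp A.inf A.inf_over _ a).1 h1 d hd
  · intro h Q δ hδ
    obtain ⟨P, ⟨hg, hQ⟩ | ⟨hg, hQ⟩⟩ := A.exists_under Q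
    · have hP := A.ASDr_ne_inf P hg
      have h0 : δ = 0 := hδ.unique
        (diff_et A.as P hg Λ.D A.D A.D_alg (Λ.fin_diff P hP) Q hQ)
      subst h0
      refine (et_coeff A.as P hg (-0) a).2 (fun d => ?_) Q hQ
      by_cases hd : d < p
      · have h1 : P.ge (-((bnd p (pole g P) d : ℕ) : ℤ)) (A.as.co a d) := (h d hd).1 P hP
        rw [ASDr_pole P hg d] at h1
        simpa using h1
      · rw [A.as.co_of_le a (not_lt.1 hd)]
        exact P.ge_zero _
    · have hgp : ¬ (p : ℤ) ∣ P.ord g := by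
        rcases A.g_pl P with h1 | h1
        · rcases h1 with h1 | h1
          · rw [h1, Plc.ord_zero] at hg
            omega
          · omega
        · exact h1.2
      by_cases hP : P = Λ.inf
      · subst hP
        have h0 := hδ.unique
          (diff_ram A.as Λ.inf hg hgp Λ.D A.D A.D_alg A.D_z Λ.inf_diff Q hQ)
        subst h0
        exact (ASDr_ram A Λ.inf hg hgp Q hQ _ a).2 fun d hd => (h d hd).2
      · have h0 := hδ.unique
          (diff_ram A.as P hg hgp Λ.D A.D A.D_alg A.D_z (Λ.fin_diff P hP) Q hQ)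
        subst h0
        refine (ASDr_ram A P hg hgp Q hQ 0 a).2 fun d hd => ?_
        have := (h d hd).1 P hP
        simpa using this

end ASD

end Pool.Agent.PRB
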