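import Pool.Agent.LibPRB.ASDp

/-! # Artin–Schreier steps: finiteness of zeros and poles -/

set_option autoImplicit false

namespace Pool.Agent.PRB

namespace ASD

/-- A root of a monic polynomial with coefficients without poles has no pole. -/
private theorem ASDs_ge {k K L : Type} [Field k] [Field K] [Field L] [Algebra k L] [Algebra K L]
    (Q : Plc k L) (f : Polynomial K) (hf : f.Monic) (a : L) (hfa : Polynomial.aeval a f = 0)
    (hc : ∀ i, Q.ge 0 (algebraMap K L (f.coeff i))) : Q.ge 0 a := by
  by_contra hcon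
  have ha : a ≠ 0 := fun h => hcon (by rw [h]; exact Q.ge_zero _)
  rw [Q.ge_iff ha, not_le] at hcon
  have hn : f.natDegree ≠ 0 := by
    intro h
    rw [hf.natDegree_eq_zero.1 h] at hfa
    simp at hfa
  have h1 : a ^ f.natDegree =
      - ∑ i ∈ Finset.range f.natDegree, algebraMap K L (f.coeff i) * a ^ i := by
    have h2 : Polynomial.aeval a f = ∑ i ∈ Finset.range (f.natDegree + 1),
        algebraMap K L (f.coeff i) * a ^ i := by
      rw [Polynomial.aeval_eq_sum_range]
      exact Finset.sum_congr rfl fun i _ => Algebra.smul_def _ _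
    rw [hfa, Finset.sum_range_succ, hf.coeff_natDegree, map_one, one_mul] at h2
    linear_combination h2.symm
  have h3 : Q.ge ((f.natDegree - 1 : ℤ) * Q.ord a) (a ^ f.natDegree) := by
    rw [h1]
    apply Q.ge_neg
    apply Q.ge_sum
    intro i hi
    rw [Finset.mem_range] at hi
    have h4 := Q.ge_mul (hc i) (Q.ge_pow (Or.inr le_rfl : Q.ge (Q.ord a) a) i)
    refine h4.mono ?_
    have h5 : (i : ℤ) ≤ f.natDegree - 1 := by omega
    rw [zero_add]
    exact mul_le_mul_of_nonpos_right h5 hcon.le
  rw [Q.ge_iff (pow_ne_zero _ ha), Q.ord_pow] at h3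
  linarith

variable {p : ℕ} [Fact p.Prime] {k : Type} [Field k] [IsAlgClosed k] [CharP k p] {ζ : k}
  {K : Type} [Field K] [Algebra k K] {Λ : Lad p ζ K} {g : K} {N : ℕ}
  {L : Type} [Field L] [Algebra k L] [Algebra K L] [IsScalarTower k K L] {z : L}

/-- There are finitely many places above a given place. -/
private theorem ASDs_over (A : ASD Λ g N L z) (P : Plc k K) :
    {Q : Plc k L | (P.ge 0 g ∧ OverEt Q P) ∨ (P.ord g < 0 ∧ OverRam p g z Q P)}.Finite := by
  by_cases hg : P.ord g < 0
  · have hng : ¬ P.ge 0 g := by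
      rintro (h | h)
      · rw [h, P.ord_zero] at hg
        exact lt_irrefl _ hg
      · exact absurd hg (not_lt.2 h)
    have hp : ¬ (p : ℤ) ∣ P.ord g := by
      rcases A.g_pl P with h | h
      · exact absurd h hng
      · exact h.2
    refine Set.Subsingleton.finite fun Q hQ Q' hQ' => ?_
    rcases hQ with h | h
    · exact absurd h.1 hng
    rcases hQ' with h' | h'
    · exact absurd h'.1 hng
    exact ram_unique A.as P hg hp Q Q' h.2 h'.2
  · -- the values of `z`
    have hfin : {c : k | c ^ p - c = P.val g}.Finite := by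
      have hp1 : 1 < p := (Fact.out : p.Prime).one_lt
      set f : Polynomial k := Polynomial.X ^ p - Polynomial.X - Polynomial.C (P.val g) with hf
      have hf0 : f ≠ 0 := by
        intro h
        have h1 : f.coeff p = 1 := by
          rw [hf, Polynomial.coeff_sub, Polynomial.coeff_sub, Polynomial.coeff_X_pow,
            Polynomial.coeff_X, Polynomial.coeff_C]
          have hp0 : p ≠ 0 := by omega
          simp only [if_true, hp1.ne, hp0, if_false, sub_zero]
        rw [h] at h1
        simp at h1
      refine (f.rootSet_finite k).subset fun c hc => ?_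
      rw [Polynomial.mem_rootSet]
      refine ⟨hf0, ?_⟩
      simp only [Set.mem_ofPred_eq] at hc
      simp [hf, hc]
    refine Set.Finite.of_finite_image (f := fun Q : Plc k L => Q.val z)
      (hfin.subset ?_) ?_
    · rintro _ ⟨Q, hQ, rfl⟩
      rcases hQ with h | h
      · exact et_val_eq A.as P h.1 Q h.2
      · exact absurd h.1 hg
    · intro Q hQ Q' hQ' hz
      rcases hQ with h | h
      · rcases hQ' with h' | h'
        · exact et_unique A.as P h.1 Q Q' h.2 h'.2 hz
        · exact absurd h'.1 hg
      · exact absurd h.1 hg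

theorem fsupp (A : ASD Λ g N L z) (a : L) (ha : a ≠ 0) : {Q : Plc k L | Q.ord a ≠ 0}.Finite := by
  have hfinK : Module.Finite K L := A.as.finite
  have hint : ∀ b : L, IsIntegral K b := fun b => Algebra.IsIntegral.isIntegral b
  -- the bad places below
  have hbad : ∀ b : L, {P : Plc k K | ∃ i, ¬ P.ge 0 ((minpoly K b).coeff i)}.Finite := by
    intro b
    have h1 : {P : Plc k K | ∃ i, ¬ P.ge 0 ((minpoly K b).coeff i)} ⊆
        ⋃ i ∈ (minpoly K b).support, {P : Plc k K | P.ord ((minpoly K b).coeff i) ≠ 0} := by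
      rintro P ⟨i, hi⟩
      have h0 : (minpoly K b).coeff i ≠ 0 := fun h => hi (by rw [h]; exact P.ge_zero _)
      simp only [Set.mem_iUnion]
      refine ⟨i, Polynomial.mem_support_iff.2 h0, fun h => hi ?_⟩
      right
      rw [h]
    refine Set.Finite.subset (Set.Finite.biUnion (Finset.finite_toSet _) fun i hi => ?_) h1
    exact Λ.fsupp _ (Polynomial.mem_support_iff.1 hi)
  have hB := (hbad a).union (hbad a⁻¹)
  refine Set.Finite.subset (hB.biUnion fun P _ => ASDs_over A P) fun Q hQ => ?_
  obtain ⟨P, hP⟩ := A.exists_under Q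
  simp only [Set.mem_iUnion]
  refine ⟨P, ?_, hP⟩
  by_contra hcon
  apply hQ
  have hge : ∀ r : K, P.ge 0 r → Q.ge 0 (algebraMap K L r) := by
    intro r hr
    by_cases hr0 : r = 0
    · rw [hr0, map_zero]
      exact Q.ge_zero _
    · rw [P.ge_iff hr0] at hr
      right
      rcases hP with h | h
      · rw [h.2 r]
        exact hr
      · rw [h.2.1 r]
        exact mul_nonneg (by positivity) hr
  have hnot : ∀ b : L, P ∉ {P : Plc k K | ∃ i, ¬ P.ge 0 ((minpoly K b).coeff i)} →
      Q.ge 0 b := by
    intro b hb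
    have hb' : ∀ i, P.ge 0 ((minpoly K b).coeff i) := by
      intro i
      by_contra h
      exact hb ⟨i, h⟩
    exact ASDs_ge Q (minpoly K b) (minpoly.monic (hint b)) b (minpoly.aeval K b)
      fun i => hge _ (hb' i)
  have h1 := hnot a fun h => hcon (Or.inl h)
  have h2 := hnot a⁻¹ fun h => hcon (Or.inr h)
  rw [Q.ge_iff ha] at h1
  rw [Q.ge_iff (inv_ne_zero ha), Q.ord_inv] at h2
  linarith

end ASD

end Pool.Agent.PRB
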