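import Pool.Agent.LibPRB.TwD

/-!
# Weak approximation for discrete valuations

PLAN. (a) for `Q ≠ Q'` there is `x` with `0 < Q.ord x`, `Q'.ord x < 0`, `x ≠ 0`: by `Plc.ext_ring`
there is an element in exactly one of the two rings.  If there is `x` with `Q.ge 0 x`,
`Q'.ord x < 0`: the rings are not comparable either (if `Q'.ring ≤ Q.ring` then they are equal: let
`t` be a uniformizer of `Q'`, `Q.ord t ≥ 0`; `x t ^ N` is a unit of `Q'` for a suitable `N > 0`, hence
a unit of `Q.ring`, so `Q.ord x + N * Q.ord t = 0`, so `Q.ord t = 0`, so all elements, which are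
`t ^ m u` with `u` a unit of `Q'`, have `Q`-order `0`, contradiction with `exists_unif`), so there is
`y` with `Q'.ge 0 y`, `Q.ord y < 0`, and `x / y` works.
(b) by induction on the finite set `T` (`Q ∉ T`): there is `z ≠ 0` with `0 < Q.ord z` and
`Q'.ord z < 0` for all `Q' ∈ T`: for `insert R T` take `z` for `T` and `x` for `R` as in (a).  If
`R.ord z < 0` take `z`; otherwise take `z ^ M + x` with `M` so large that
`M * Q'.ord z < Q'.ord x` for all `Q' ∈ T`.
(c) `s = (1 / (1 + z)) ^ M`.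
-/

set_option autoImplicit false

namespace Pool.Agent.PRB

variable {k L : Type} [Field k] [Field L] [Algebra k L]

private theorem Appr_one (P P' : Plc k L) (hne : P ≠ P') :
    ∃ x : L, x ≠ 0 ∧ 0 ≤ P.ord x ∧ P'.ord x < 0 := by
  by_contra hcon
  push Not at hcon
  apply hne
  have hzero : ∀ a, a ≠ 0 → P.ord a = 0 → P'.ord a = 0 := by
    intro a ha h0
    have h1 := hcon a ha h0.ge
    have h2 := hcon a⁻¹ (inv_ne_zero ha) (by rw [P.ord_inv, h0, neg_zero])
    rw [P'.ord_inv] at h2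
    omega
  obtain ⟨π, hπ, hπ1⟩ := P.exists_unif
  obtain ⟨ρ, hρ, hρ1⟩ := P'.exists_unif
  have key : ∀ a, a ≠ 0 → P'.ord a = P.ord a * P'.ord π := by
    intro a ha
    have h1 : P.ord (a / π ^ (P.ord a)) = 0 := by
      rw [P.ord_div ha (zpow_ne_zero _ hπ), P.ord_zpow, hπ1]; ring
    have h2 := hzero _ (div_ne_zero ha (zpow_ne_zero _ hπ)) h1
    rw [P'.ord_div ha (zpow_ne_zero _ hπ), P'.ord_zpow] at h2
    linarith
  have hQπ : 0 ≤ P'.ord π := hcon π hπ (by rw [hπ1]; norm_num)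
  have h1 := key ρ hρ
  rw [hρ1] at h1
  have h3 : P'.ord π = 1 := by
    rcases Int.eq_one_or_neg_one_of_mul_eq_one' h1.symm with ⟨_, h2⟩ | ⟨_, h2⟩
    · exact h2
    · rw [h2] at hQπ; norm_num at hQπ
  ext a
  by_cases ha : a = 0
  · rw [ha, P.ord_zero, P'.ord_zero]
  · rw [key a ha, h3]; ring

private theorem Appr_two (Q Q' : Plc k L) (hne : Q ≠ Q') :
    ∃ x : L, x ≠ 0 ∧ 0 < Q.ord x ∧ Q'.ord x < 0 := by
  obtain ⟨x, hx, hx1, hx2⟩ := Appr_one Q Q' hne
  obtain ⟨y, hy, hy1, hy2⟩ := Appr_one Q' Q (Ne.symm hne)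
  refine ⟨x / y, div_ne_zero hx hy, ?_, ?_⟩
  · rw [Q.ord_div hx hy]
    omega
  · rw [Q'.ord_div hx hy]
    omega

private theorem Appr_z (Q : Plc k L) (T : Finset (Plc k L)) :
    Q ∉ T → ∃ z : L, z ≠ 0 ∧ 0 < Q.ord z ∧ ∀ Q' ∈ T, Q'.ord z < 0 := by
  classical
  induction T using Finset.induction_on with
  | empty =>
    intro _
    obtain ⟨a, ha, h1⟩ := Q.exists_unif
    exact ⟨a, ha, by rw [h1]; norm_num, by simp⟩
  | insert R T hR ih =>
    intro hQ
    rw [Finset.mem_insert, not_or] at hQ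
    obtain ⟨z, hz, hz1, hz2⟩ := ih hQ.2
    obtain ⟨x, hx, hx1, hx2⟩ := Appr_two Q R hQ.1
    by_cases hRz : R.ord z < 0
    · refine ⟨z, hz, hz1, ?_⟩
      intro Q' hQ'
      rcases Finset.mem_insert.1 hQ' with h | h
      · rw [h]; exact hRz
      · exact hz2 Q' h
    · push Not at hRz
      set N : ℕ := 1 + ∑ Q' ∈ T, (Q'.ord x).natAbs with hN
      have hzN : z ^ N ≠ 0 := pow_ne_zero N hz
      have hN1 : (1 : ℤ) ≤ N := by
        rw [hN]
        push_cast
        have : (0 : ℤ) ≤ ∑ Q' ∈ T, |Q'.ord x| := Finset.sum_nonneg fun _ _ => abs_nonneg _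
        linarith
      have hRN : 0 ≤ R.ord (z ^ N) := by
        rw [R.ord_pow]
        positivity
      have hR' : x + z ^ N ≠ 0 ∧ R.ord (x + z ^ N) = R.ord x :=
        R.ord_add_eq' hx hzN (by linarith)
      refine ⟨x + z ^ N, hR'.1, ?_, ?_⟩
      · have h1 := Q.ord_add' x (z ^ N) hx hzN hR'.1
        have h2 : 0 < Q.ord (z ^ N) := by
          rw [Q.ord_pow]
          exact mul_pos (by linarith) hz1
        exact lt_of_lt_of_le (lt_min hx1 h2) h1
      · intro Q' hQ'
        rcases Finset.mem_insert.1 hQ' with h | h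
        · rw [h, hR'.2]; exact hx2
        · have h1 := hz2 Q' h
          have h2 : (Q'.ord x).natAbs ≤ ∑ Q' ∈ T, (Q'.ord x).natAbs :=
            Finset.single_le_sum (f := fun Q' : Plc k L => (Q'.ord x).natAbs)
              (fun _ _ => Nat.zero_le _) h
          have h3 : Q'.ord (z ^ N) < Q'.ord x := by
            rw [Q'.ord_pow]
            have h4 : (N : ℤ) * Q'.ord z ≤ -N := by nlinarith
            have h5 : ((Q'.ord x).natAbs : ℤ) < N := by
              rw [hN]
              push_cast at h2 ⊢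
              have h2' : |Q'.ord x| ≤ ∑ Q' ∈ T, |Q'.ord x| := by
                have := (Nat.cast_le (α := ℤ)).2 h2
                push_cast at this
                exact this
              linarith
            have h6 : -((Q'.ord x).natAbs : ℤ) ≤ Q'.ord x := by
              have := neg_abs_le (Q'.ord x)
              rw [Int.natCast_natAbs]
              exact this
            linarith
          have h7 := Q'.ord_add_eq' hzN hx h3
          rw [add_comm x, h7.2, Q'.ord_pow]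
          have h8 : (N : ℤ) * Q'.ord z ≤ -N := by nlinarith
          linarith

theorem exists_appr (T : Finset (Plc k L)) (Q : Plc k L) (hQ : Q ∉ T) (M : ℕ) :
    ∃ s : L, s ≠ 0 ∧ Q.ord s = 0 ∧ ∀ Q' ∈ T, (M : ℤ) ≤ Q'.ord s := by
  obtain ⟨z, hz, hz1, hz2⟩ := Appr_z Q T hQ
  have h1 : (1 : L) + z ≠ 0 ∧ Q.ord (1 + z) = Q.ord 1 :=
    Q.ord_add_eq' one_ne_zero hz (by rw [Q.ord_one]; exact hz1)
  refine ⟨((1 + z)⁻¹) ^ M, pow_ne_zero _ (inv_ne_zero h1.1), ?_, ?_⟩
  · rw [Q.ord_pow, Q.ord_inv, h1.2, Q.ord_one]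
    simp
  · intro Q' hQ'
    have h2 := hz2 Q' hQ'
    have h3 := Q'.ord_add_eq' hz one_ne_zero (by rw [Q'.ord_one]; exact h2)
    rw [Q'.ord_pow, Q'.ord_inv, add_comm (1 : L), h3.2]
    have h4 : (1 : ℤ) ≤ -Q'.ord z := by linarith
    have h5 : (0 : ℤ) ≤ M := by positivity
    nlinarith

end Pool.Agent.PRB
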