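import Mathlib

/-! # `1 - C` is surjective for a `p⁻¹`-linear operator on a finite-dimensional space -/

set_option autoImplicit false

namespace Pool.Agent.PRB

variable {p : ℕ} [Fact p.Prime] {k V : Type} [Field k] [IsAlgClosed k] [CharP k p]
  [AddCommGroup V] [Module k V]

open Polynomial in
/-- The polynomials used for solving `v - C v = u`. -/
noncomputable def Lang_N {k : Type} [Field k] (p n : ℕ) (a : ℕ → k) : ℕ → k[X]
  | 0 => X
  | j + 1 => (Lang_N p n a j) ^ p - Polynomial.C (a (n - 1 - j)) * X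

open Polynomial in
theorem Lang_N_monic {k : Type} [Field k] {p : ℕ} (hp : 1 < p) (n : ℕ) (a : ℕ → k) (j : ℕ) :
    (Lang_N p n a j).Monic ∧ (Lang_N p n a j).natDegree = p ^ j := by
  induction j with
  | zero => exact ⟨monic_X, by simp [Lang_N]⟩
  | succ j ih =>
    obtain ⟨h1, h2⟩ := ih
    have h3 : ((Lang_N p n a j) ^ p).Monic := h1.pow p
    have h4 : ((Lang_N p n a j) ^ p).natDegree = p ^ (j + 1) := by
      rw [h1.natDegree_pow, h2, pow_succ, mul_comm]
    have hpos : 1 < p ^ (j + 1) := Nat.one_lt_pow (Nat.succ_ne_zero j) hp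
    have h5 : (Polynomial.C (a (n - 1 - j)) * X : k[X]).degree
        < ((Lang_N p n a j) ^ p).degree := by
      refine lt_of_le_of_lt (degree_C_mul_X_le _) ?_
      rw [degree_eq_natDegree h3.ne_zero, h4]
      exact_mod_cast hpos
    constructor
    · exact h3.sub_of_left h5
    · rw [Lang_N, natDegree_sub_eq_left_of_natDegree_lt, h4]
      rw [h4]
      exact lt_of_le_of_lt ((natDegree_C_mul_le _ _).trans natDegree_X_le) hpos

theorem lang_surjective [Module.Finite k V] (C : V →+ V)
    (hC : ∀ (c : k) (v : V), C (c ^ p • v) = c • C v) (u : V) : ∃ v : V, v - C v = u := by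
  have hp : 1 < p := (Fact.out : p.Prime).one_lt
  -- a relation between the iterates
  obtain ⟨n, a, hrel⟩ : ∃ (n : ℕ) (a : ℕ → k),
      C^[n] u = ∑ i ∈ Finset.range n, a i • C^[i] u := by
    have hdep : ¬ LinearIndependent k (fun i : Fin (Module.finrank k V + 1) => C^[(i : ℕ)] u) := by
      intro h
      have := h.fintype_card_le_finrank
      simp at this
    rw [Fintype.not_linearIndependent_iff] at hdep
    obtain ⟨g, hg, i₀, hi₀⟩ := hdep
    -- the largest index with nonzero coefficient
    let b : ℕ → k := fun i => if h : i < Module.finrank k V + 1 then g ⟨i, h⟩ else 0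
    have hb : ∑ i ∈ Finset.range (Module.finrank k V + 1), b i • C^[i] u = 0 := by
      rw [← hg, ← Fin.sum_univ_eq_sum_range (fun i => b i • C^[i] u)]
      refine Finset.sum_congr rfl fun i _ => ?_
      simp only [b, i.2, dif_pos]
    have hex : ∃ m, m < Module.finrank k V + 1 ∧ b m ≠ 0 :=
      ⟨i₀, i₀.2, by simp only [b, i₀.2, dif_pos]; exact hi₀⟩
    classical
    let n := Nat.findGreatest (fun m => b m ≠ 0) (Module.finrank k V)
    have hn0 : b n ≠ 0 := by
      obtain ⟨m, hm, hbm⟩ := hex
      exact Nat.findGreatest_spec (P := fun m => b m ≠ 0) (Nat.lt_succ_iff.mp hm) hbm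
    have hnle : n ≤ Module.finrank k V := Nat.findGreatest_le _
    have hgt : ∀ m, n < m → m ≤ Module.finrank k V → b m = 0 := by
      intro m h1 h2
      by_contra h
      exact Nat.findGreatest_is_greatest (P := fun m => b m ≠ 0) h1 h2 h
    have hb2 : ∑ i ∈ Finset.range (n + 1), b i • C^[i] u = 0 := by
      rw [← hb]
      refine Finset.sum_subset (Finset.range_subset_range.mpr (by omega)) ?_
      intro m hm hm'
      rw [Finset.mem_range] at hm hm'
      rw [hgt m (by omega) (by omega), zero_smul]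
    rw [Finset.sum_range_succ] at hb2
    refine ⟨n, fun i => -(b i / b n), ?_⟩
    have h1 : b n • C^[n] u = -∑ i ∈ Finset.range n, b i • C^[i] u :=
      eq_neg_of_add_eq_zero_right hb2
    have h2 : C^[n] u = (b n)⁻¹ • (b n • C^[n] u) := by
      rw [smul_smul, inv_mul_cancel₀ hn0, one_smul]
    rw [h2, h1, smul_neg, Finset.smul_sum, ← Finset.sum_neg_distrib]
    refine Finset.sum_congr rfl fun i _ => ?_
    rw [smul_smul, neg_smul]
    congr 2
    ring
  rcases Nat.eq_zero_or_pos n with rfl | hn
  · refine ⟨0, ?_⟩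
    simp only [Function.iterate_zero, id_eq, Finset.range_zero, Finset.sum_empty] at hrel
    rw [hrel]
    simp
  -- the root
  obtain ⟨t, ht⟩ : ∃ t : k, (Lang_N p n a n - 1).IsRoot t := by
    apply IsAlgClosed.exists_root
    obtain ⟨h1, h2⟩ := Lang_N_monic hp n a n
    have hlt : (1 : Polynomial k).degree < (Lang_N p n a n).degree := by
      rw [Polynomial.degree_eq_natDegree h1.ne_zero, h2, Polynomial.degree_one]
      exact_mod_cast (Nat.pos_of_ne_zero (by positivity) : 0 < p ^ n)
    rw [Polynomial.degree_sub_eq_left_of_degree_lt hlt,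
      Polynomial.degree_eq_natDegree h1.ne_zero, h2]
    have : 0 < p ^ n := by positivity
    exact_mod_cast this.ne'
  let ν : ℕ → k := fun j => (Lang_N p n a j).eval t
  have hν0 : ν 0 = t := by simp [ν, Lang_N]
  have hνs : ∀ j, ν (j + 1) = ν j ^ p - a (n - 1 - j) * t := by
    intro j
    simp [ν, Lang_N]
  have hνn : ν n = 1 := by
    have h := ht
    rw [Polynomial.IsRoot, Polynomial.eval_sub, Polynomial.eval_one] at h
    exact sub_eq_zero.mp h
  refine ⟨∑ i ∈ Finset.range n, ν (n - 1 - i) ^ p • C^[i] u, ?_⟩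
  have hCv : C (∑ i ∈ Finset.range n, ν (n - 1 - i) ^ p • C^[i] u)
      = ∑ i ∈ Finset.range n, ν (n - (i + 1)) • C^[i + 1] u := by
    rw [map_sum]
    refine Finset.sum_congr rfl fun i hi => ?_
    rw [hC, Function.iterate_succ_apply']
    congr 2
    omega
  have hv : ∑ i ∈ Finset.range n, ν (n - 1 - i) ^ p • C^[i] u
      = ∑ i ∈ Finset.range n, ν (n - i) • C^[i] u + t • C^[n] u := by
    rw [hrel, Finset.smul_sum, ← Finset.sum_add_distrib]
    refine Finset.sum_congr rfl fun i hi => ?_
    rw [Finset.mem_range] at hi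
    have h1 := hνs (n - 1 - i)
    have h2 : n - 1 - i + 1 = n - i := by omega
    have h3 : n - 1 - (n - 1 - i) = i := by omega
    rw [h2, h3] at h1
    rw [smul_smul, ← add_smul, h1]
    congr 1
    ring
  rw [hCv, hv]
  have htel := Finset.sum_range_sub' (fun i => ν (n - i) • C^[i] u) n
  rw [Finset.sum_sub_distrib] at htel
  simp only [Nat.sub_zero, Nat.sub_self, hνn, hν0, Function.iterate_zero, id_eq, one_smul] at htel
  have : ∑ i ∈ Finset.range n, ν (n - i) • C^[i] u + t • C^[n] u
      - ∑ i ∈ Finset.range n, ν (n - (i + 1)) • C^[i + 1] u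
      = (∑ i ∈ Finset.range n, ν (n - i) • C^[i] u
      - ∑ i ∈ Finset.range n, ν (n - (i + 1)) • C^[i + 1] u) + t • C^[n] u := by abel
  rw [this, htel]
  abel

/-- Version for stable subspaces. -/
theorem lang_surjective_sub (W : Submodule k V) [Module.Finite k W] (C : V → V)
    (hadd : ∀ v w, C (v + w) = C v + C w)
    (hC : ∀ (c : k) (v : V), C (c ^ p • v) = c • C v) (hW : ∀ v ∈ W, C v ∈ W) (u : V)
    (hu : u ∈ W) : ∃ v ∈ W, v - C v = u := by
  let CW : W →+ W := AddMonoidHom.mk' (fun w => ⟨C w, hW w w.2⟩) (by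
    intro v w
    exact Subtype.ext (hadd v w))
  obtain ⟨v, hv⟩ := lang_surjective (p := p) CW (by
    intro c v
    exact Subtype.ext (hC c v)) ⟨u, hu⟩
  refine ⟨v, v.2, ?_⟩
  exact congrArg Subtype.val hv

end Pool.Agent.PRB
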