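import Pool.Agent.LibPRB.FixE
import Pool.Agent.LibPRB.Lang

/-!
# Fixed points: a logarithmic pole at infinity; small matrices

PLAN.
`fixP_inf`: like `fixP_mul_one` (FixC.lean) with evaluation at `c` replaced by the coefficient of degree `N`:
if `degree B < N + 1` and `W` is monic of degree `(p-1)(N+1)` then
`(B * W).coeff (p * N + (p - 1)) = B.coeff N`, so for a fixed point `(B.coeff N)^p = B.coeff N`: `p` values; kernel =
the fixed points of degree `< N` (for `i > N` the condition is `0 = 0`); surjectivity by `lang_surjective_sub` (Lang.lean)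
for the operator `T` on the polynomials of degree `< N` (`T G` = the polynomial with coefficients the `p`-th roots of
`(G W)_(p i + p - 1)`, `i < N`).
`fixP_one`: `B = C b`: `b ^ p = W.coeff (p - 1) * b`; for `i ≥ 1` `(B * W).coeff (p i + p - 1) = 0` by the degree
(`natDegree W ≤ 2 (p-1) < 2 p - 1`).  If the coefficient is `0`: only `b = 0`; if it is `u ≠ 0`: the `p` roots of the separable
polynomial `X ^ p - u X`.
`fixP_two_nil`: `B = C x + C y * X`, `x^p = a x + b y`, `y^p = c x + d y` with `a = W_(p-1)`, `b = W_(p-2)`,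
`c = W_(2p-1)`, `d = W_(2p-2)`, all fixed by Frobenius; so `x^(p^2) = a x^p + b y^p = (a^2 + b c) x + b (a + d) y = 0`
and `y^(p^2) = c (a + d) x + (b c + d^2) y = 0` since `a + d = 0`, `a d = b c`.
-/

set_option autoImplicit false

namespace Pool.Agent.PRB

variable {p : ℕ} [Fact p.Prime] {k : Type} [Field k] [IsAlgClosed k] [CharP k p]

open Polynomial in
private theorem FixI_exists (W G : k[X]) :
    ∃ B : k[X], ∀ i, B.coeff i ^ p = (G * W).coeff (p * i + (p - 1)) := by
  have hp : 0 < p := (Fact.out : p.Prime).pos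
  have h : ∀ i : ℕ, ∃ z : k, z ^ p = (G * W).coeff (p * i + (p - 1)) := fun i =>
    IsAlgClosed.exists_pow_nat_eq _ hp
  choose z hz using h
  refine ⟨∑ i ∈ Finset.range ((G * W).natDegree + 1), C (z i) * X ^ i, ?_⟩
  intro i
  rw [finset_sum_coeff]
  by_cases hi : i ∈ Finset.range ((G * W).natDegree + 1)
  · rw [Finset.sum_eq_single i]
    · rw [coeff_C_mul_X_pow, if_pos rfl, hz]
    · intro j _ hj
      rw [coeff_C_mul_X_pow, if_neg hj.symm]
    · intro h
      exact absurd hi h
  · rw [Finset.sum_eq_zero, zero_pow hp.ne']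
    · symm
      apply coeff_eq_zero_of_natDegree_lt
      rw [Finset.mem_range] at hi
      have h1 : i ≤ p * i := Nat.le_mul_of_pos_left i hp
      omega
    · intro j hj
      rw [coeff_C_mul_X_pow, if_neg]
      intro h
      rw [h] at hi
      exact hi hj

open Polynomial in
private noncomputable def FixI_T (p : ℕ) [Fact p.Prime] {k : Type} [Field k] [IsAlgClosed k]
    [CharP k p] (W G : k[X]) : k[X] := Classical.choose (FixI_exists (p := p) W G)

open Polynomial in
private theorem FixI_T_spec (W G : k[X]) (i : ℕ) :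
    (FixI_T p W G).coeff i ^ p = (G * W).coeff (p * i + (p - 1)) :=
  Classical.choose_spec (FixI_exists (p := p) W G) i

omit [IsAlgClosed k] in
private theorem FixI_inj {a b : k} (h : a ^ p = b ^ p) : a = b := by
  have h1 : frobenius k p a = frobenius k p b := h
  exact frobenius_inj k p h1

open Polynomial in
private theorem FixI_T_unique (W G B : k[X])
    (h : ∀ i, B.coeff i ^ p = (G * W).coeff (p * i + (p - 1))) : FixI_T p W G = B := by
  ext i
  apply FixI_inj (p := p)
  rw [FixI_T_spec, h]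

open Polynomial in
private theorem FixI_T_add (W G H : k[X]) : FixI_T p W (G + H) = FixI_T p W G + FixI_T p W H := by
  apply FixI_T_unique
  intro i
  rw [coeff_add, add_pow_char, FixI_T_spec, FixI_T_spec, add_mul, coeff_add]

open Polynomial in
private theorem FixI_T_smul (W : k[X]) (a : k) (G : k[X]) :
    FixI_T p W (a ^ p • G) = a • FixI_T p W G := by
  apply FixI_T_unique
  intro i
  rw [coeff_smul, smul_eq_mul, mul_pow, FixI_T_spec, smul_mul_assoc, coeff_smul, smul_eq_mul]

open Polynomial in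
private theorem FixI_T_deg (W G : k[X]) (M : ℕ) (hW : W.natDegree + 1 ≤ (p - 1) * (M + 1) + 1)
    (hG : G.degree < (M : ℕ)) : (FixI_T p W G).degree < (M : ℕ) := by
  have hp : 2 ≤ p := (Fact.out : p.Prime).two_le
  rw [degree_lt_iff_coeff_zero]
  intro i hi
  have h1 : (FixI_T p W G).coeff i ^ p = 0 := by
    rw [FixI_T_spec]
    by_cases hG0 : G = 0
    · rw [hG0, zero_mul, coeff_zero]
    · apply coeff_eq_zero_of_natDegree_lt
      have h2 : G.natDegree < M := by
        rw [degree_eq_natDegree hG0] at hG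
        exact_mod_cast hG
      have h3 : (G * W).natDegree ≤ G.natDegree + W.natDegree := natDegree_mul_le
      obtain ⟨n, rfl⟩ : ∃ n, p = n + 1 := ⟨p - 1, by omega⟩
      simp only [Nat.add_sub_cancel] at hW ⊢
      have h4 : (n + 1) * M ≤ (n + 1) * i := Nat.mul_le_mul_left _ hi
      have h5 : (n + 1) * M = n * M + M := by ring
      have h6 : n * (M + 1) = n * M + n := by ring
      omega
  exact pow_eq_zero_iff (by omega : p ≠ 0) |>.mp h1

/-- the group of the fixed points -/
private def FixI_F (p : ℕ) [Fact p.Prime] {k : Type} [Field k] [CharP k p] (W : Polynomial k)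
    (N : ℕ) : AddSubgroup (Polynomial k) where
  carrier := {B | B.degree < (N : ℕ) ∧ ∀ i, B.coeff i ^ p = (B * W).coeff (p * i + (p - 1))}
  zero_mem' := by
    refine ⟨?_, fun i => ?_⟩
    · rw [Polynomial.degree_zero]
      exact WithBot.bot_lt_coe _
    · rw [zero_mul, Polynomial.coeff_zero, Polynomial.coeff_zero,
        zero_pow (Fact.out : p.Prime).ne_zero]
  add_mem' := by
    intro a b ha hb
    refine ⟨lt_of_le_of_lt (Polynomial.degree_add_le _ _) (max_lt ha.1 hb.1), fun i => ?_⟩
    rw [Polynomial.coeff_add, add_pow_char, ha.2, hb.2, add_mul, Polynomial.coeff_add]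
  neg_mem' := by
    intro a ha
    refine ⟨by rw [Polynomial.degree_neg]; exact ha.1, fun i => ?_⟩
    have h1 : (-(a.coeff i)) ^ p = -(a.coeff i ^ p) := by
      have := map_neg (frobenius k p) (a.coeff i)
      exact this
    rw [Polynomial.coeff_neg, h1, ha.2, neg_mul, Polynomial.coeff_neg]

/-- the group of the values -/
private def FixI_Y (p : ℕ) [Fact p.Prime] {k : Type} [Field k] [CharP k p] (a : k) :
    AddSubgroup k where
  carrier := {y | y ^ p = a * y}
  zero_mem' := by
    change (0 : k) ^ p = a * 0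
    rw [zero_pow (Fact.out : p.Prime).ne_zero, mul_zero]
  add_mem' := by
    intro x y hx hy
    change (x + y) ^ p = a * (x + y)
    rw [add_pow_char, show x ^ p = a * x from hx, show y ^ p = a * y from hy]
    ring
  neg_mem' := by
    intro x hx
    change (-x) ^ p = a * -x
    have h1 : (-x) ^ p = -(x ^ p) := by
      have := map_neg (frobenius k p) x
      exact this
    rw [h1, show x ^ p = a * x from hx]
    ring

open Polynomial in
private theorem FixI_card_Y {a : k} (ha : a ≠ 0) : Nat.card (FixI_Y p a) = p := by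
  have hp2 : 2 ≤ p := (Fact.out : p.Prime).two_le
  have hdeg : (X ^ p - C a * X : k[X]).natDegree = p := by
    rw [natDegree_sub_eq_left_of_natDegree_lt]
    · exact natDegree_X_pow p
    · rw [natDegree_X_pow]
      exact lt_of_le_of_lt ((natDegree_C_mul_le _ _).trans natDegree_X_le) (by omega)
  have hne : (X ^ p - C a * X : k[X]) ≠ 0 := by
    intro h
    rw [h, natDegree_zero] at hdeg
    omega
  have hsep : (X ^ p - C a * X : k[X]).Separable := by
    rw [separable_def]
    have h1 : derivative (X ^ p - C a * X : k[X]) = C (-a) := by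
      rw [derivative_sub, derivative_X_pow, CharP.cast_eq_zero, C_0, zero_mul, derivative_mul,
        derivative_C, zero_mul, derivative_X, mul_one, zero_add, zero_sub, C_neg]
    rw [h1]
    refine ⟨0, C (-a)⁻¹, ?_⟩
    rw [zero_mul, zero_add, ← C_mul, inv_mul_cancel₀ (neg_ne_zero.mpr ha), C_1]
  have h2 := card_rootSet_eq_natDegree (K := k) hsep (IsAlgClosed.splits _)
  rw [hdeg] at h2
  refine Eq.trans ?_ h2
  rw [← Nat.card_eq_fintype_card]
  apply Nat.card_congr
  apply Equiv.subtypeEquivRight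
  intro y
  rw [mem_rootSet]
  have h3 : (aeval y) (X ^ p - C a * X : k[X]) = y ^ p - a * y := by
    simp
  rw [h3, sub_eq_zero]
  constructor
  · intro h
    exact ⟨hne, h⟩
  · intro h
    exact h.2

omit [IsAlgClosed k] [CharP k p] in
private theorem FixI_top {W : Polynomial k} {N : ℕ} (hW : W.Monic)
    (hd : W.natDegree = (p - 1) * (N + 1)) {B : Polynomial k}
    (hB : B.degree < ((N + 1 : ℕ) : WithBot ℕ)) :
    (B * W).coeff (p * N + (p - 1)) = B.coeff N := by
  have hp2 : 2 ≤ p := (Fact.out : p.Prime).two_le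
  have h1 : B.natDegree ≤ N := by
    by_cases h0 : B = 0
    · rw [h0, Polynomial.natDegree_zero]; exact Nat.zero_le _
    · rw [Polynomial.degree_eq_natDegree h0] at hB
      have : B.natDegree < N + 1 := by exact_mod_cast hB
      omega
  have h2 : p * N + (p - 1) = N + (p - 1) * (N + 1) := by
    obtain ⟨n, rfl⟩ : ∃ n, p = n + 1 := ⟨p - 1, by omega⟩
    simp only [Nat.add_sub_cancel]
    ring
  rw [h2, Polynomial.coeff_mul_add_eq_of_natDegree_le h1 hd.le]
  have h3 : W.coeff ((p - 1) * (N + 1)) = 1 := by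
    rw [← hd]
    exact hW
  rw [h3, mul_one]

omit [IsAlgClosed k] [CharP k p] [Fact p.Prime] in
private theorem FixI_deg_iff (B : Polynomial k) (N : ℕ) :
    B.degree < ((N : ℕ) : WithBot ℕ) ↔
      B.degree < ((N + 1 : ℕ) : WithBot ℕ) ∧ B.coeff N = 0 := by
  rw [Polynomial.degree_lt_iff_coeff_zero, Polynomial.degree_lt_iff_coeff_zero]
  constructor
  · intro h
    exact ⟨fun m hm => h m (by omega), h N le_rfl⟩
  · rintro ⟨h1, h2⟩ m hm
    rcases hm.eq_or_lt with h3 | h3
    · rw [← h3]; exact h2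
    · exact h1 m h3

theorem fixP_inf (W : Polynomial k) (N s : ℕ) (h : FixP p W N s) (hW : W.Monic)
    (hd : W.natDegree = (p - 1) * (N + 1)) : FixP p W (N + 1) (s + 1) := by
  classical
  have hp2 : 2 ≤ p := (Fact.out : p.Prime).two_le
  have hdeg1 : W.natDegree + 1 ≤ (p - 1) * (N + 1 + 1) + 1 := by
    rw [hd]
    have : (p - 1) * (N + 1) ≤ (p - 1) * (N + 1 + 1) := Nat.mul_le_mul_left _ (by omega)
    omega
  have hdeg0 : W.natDegree + 1 ≤ (p - 1) * (N + 1) + 1 := by
    rw [hd]
  have htop : ∀ B G : Polynomial k, G.degree < ((N + 1 : ℕ) : WithBot ℕ) →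
      (∀ i, B.coeff i ^ p = (G * W).coeff (p * i + (p - 1))) → B.coeff N ^ p = G.coeff N := by
    intro B G hG hB
    rw [hB N, FixI_top hW hd hG]
  -- the map to the coefficient of degree `N`
  let φ : FixI_F p W (N + 1) →+ FixI_Y p (1 : k) :=
    { toFun := fun B => ⟨B.1.coeff N, by
        change B.1.coeff N ^ p = 1 * B.1.coeff N
        rw [one_mul]
        exact htop B.1 B.1 B.2.1 B.2.2⟩
      map_zero' := by
        apply Subtype.ext
        exact Polynomial.coeff_zero N
      map_add' := fun a b => by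
        apply Subtype.ext
        exact Polynomial.coeff_add _ _ N }
  have hφ : ∀ a, (φ a).1 = a.1.coeff N := fun _ => rfl
  have hsurj : Function.Surjective φ := by
    rintro ⟨y, hy⟩
    have hy' : y ^ p = y := by
      have h1 : y ^ p = 1 * y := hy
      rw [h1, one_mul]
    let V : Submodule k (Polynomial k) := Polynomial.degreeLT k N
    have hVmem : ∀ G, G ∈ V ↔ G.degree < ((N : ℕ) : WithBot ℕ) := fun G =>
      Polynomial.mem_degreeLT
    have : Module.Finite k V :=
      Module.Finite.equiv (Polynomial.degreeLTEquiv k N).symm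
    obtain ⟨B0, hB0⟩ : ∃ B0 : Polynomial k, B0 = Polynomial.C y * Polynomial.X ^ N := ⟨_, rfl⟩
    have hB0deg : B0.degree < ((N + 1 : ℕ) : WithBot ℕ) := by
      rw [hB0]
      refine lt_of_le_of_lt (Polynomial.degree_C_mul_X_pow_le N y) ?_
      exact_mod_cast Nat.lt_succ_self N
    have hB0c : B0.coeff N = y := by
      rw [hB0, Polynomial.coeff_C_mul_X_pow, if_pos rfl]
    have hTB : (FixI_T p W B0).coeff N = y := by
      apply FixI_inj (p := p)
      rw [htop _ B0 hB0deg (FixI_T_spec W B0), hB0c, hy']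
    have hu : FixI_T p W B0 - B0 ∈ V := by
      rw [hVmem, FixI_deg_iff]
      refine ⟨lt_of_le_of_lt (Polynomial.degree_sub_le _ _)
        (max_lt (FixI_T_deg W _ (N + 1) hdeg1 hB0deg) hB0deg), ?_⟩
      rw [Polynomial.coeff_sub, hTB, hB0c, sub_self]
    obtain ⟨v, hv, hv2⟩ := lang_surjective_sub (p := p) V (FixI_T p W) (FixI_T_add W)
      (FixI_T_smul W) (fun G hG => by
        rw [hVmem] at hG ⊢
        exact FixI_T_deg W _ N hdeg0 hG) _ hu
    have hfix : FixI_T p W (B0 + v) = B0 + v := by
      rw [FixI_T_add]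
      linear_combination -hv2
    rw [hVmem, FixI_deg_iff] at hv
    refine ⟨⟨B0 + v, ?_, ?_⟩, ?_⟩
    · exact lt_of_le_of_lt (Polynomial.degree_add_le _ _) (max_lt hB0deg hv.1)
    · intro i
      rw [← FixI_T_spec W (B0 + v) i, hfix]
    · apply Subtype.ext
      rw [hφ]
      change (B0 + v).coeff N = y
      rw [Polynomial.coeff_add, hB0c, hv.2, add_zero]
  have hker : Nat.card φ.ker = Nat.card (FixI_F p W N) := by
    symm
    apply Nat.card_congr
    let ψ : FixI_F p W N → φ.ker := fun B =>
      ⟨⟨B.1, ((FixI_deg_iff B.1 N).1 B.2.1).1, B.2.2⟩, by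
      rw [AddMonoidHom.mem_ker]
      apply Subtype.ext
      rw [hφ]
      exact ((FixI_deg_iff B.1 N).1 B.2.1).2⟩
    refine Equiv.ofBijective ψ ⟨?_, ?_⟩
    · intro a b hab
      exact Subtype.ext (congrArg (fun z => z.1.1) hab)
    · rintro ⟨⟨B, hB⟩, hker⟩
      rw [AddMonoidHom.mem_ker] at hker
      have h0 : B.coeff N = 0 := congrArg Subtype.val hker
      exact ⟨⟨B, (FixI_deg_iff B N).2 ⟨hB.1, h0⟩, hB.2⟩, rfl⟩
  have h1 : Nat.card (FixI_F p W (N + 1)) = Nat.card (FixI_F p W (N + 1) ⧸ φ.ker) *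
      Nat.card φ.ker := AddSubgroup.card_eq_card_quotient_mul_card_addSubgroup φ.ker
  have h2 : Nat.card (FixI_F p W (N + 1) ⧸ φ.ker) = Nat.card (FixI_Y p (1 : k)) :=
    Nat.card_congr (QuotientAddGroup.quotientKerEquivOfSurjective φ hsurj).toEquiv
  rw [h2, hker, FixI_card_Y one_ne_zero] at h1
  have h3 : Nat.card (FixI_F p W N) = p ^ s := h
  rw [h3] at h1
  have h4 : Nat.card (FixI_F p W (N + 1)) = p ^ (s + 1) := by
    rw [h1, pow_succ, mul_comm]
  exact h4

omit [IsAlgClosed k] in
private theorem FixI_one_card (W : Polynomial k) (hW : W.natDegree ≤ 2 * (p - 1)) :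
    Nat.card {B : Polynomial k // B.degree < ((1 : ℕ) : WithBot ℕ) ∧
      ∀ i, B.coeff i ^ p = (B * W).coeff (p * i + (p - 1))} =
      Nat.card (FixI_Y p (W.coeff (p - 1))) := by
  have hp2 : 2 ≤ p := (Fact.out : p.Prime).two_le
  apply Nat.card_congr
  refine
    { toFun := fun B => ⟨B.1.coeff 0, ?_⟩
      invFun := fun y => ⟨Polynomial.C y.1, ?_, ?_⟩
      left_inv := ?_
      right_inv := ?_ }
  · change B.1.coeff 0 ^ p = W.coeff (p - 1) * B.1.coeff 0
    have h1 := B.2.2 0
    have h2 : B.1 = Polynomial.C (B.1.coeff 0) := by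
      apply Polynomial.eq_C_of_degree_le_zero
      have h3 := B.2.1
      rw [Polynomial.degree_lt_iff_coeff_zero] at h3
      rw [Polynomial.degree_le_iff_coeff_zero]
      intro m hm
      exact h3 m (by exact_mod_cast hm)
    rw [h1]
    conv_lhs => rw [h2]
    rw [Polynomial.coeff_C_mul, mul_zero, zero_add, mul_comm]
  · exact lt_of_le_of_lt Polynomial.degree_C_le (by exact_mod_cast Nat.one_pos)
  · intro i
    rw [Polynomial.coeff_C_mul]
    rcases Nat.eq_zero_or_pos i with h0 | h0
    · subst h0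
      rw [Polynomial.coeff_C_zero, mul_zero, zero_add, mul_comm]
      exact y.2
    · rw [Polynomial.coeff_C_of_ne_zero h0.ne', zero_pow (by omega)]
      have h1 : W.coeff (p * i + (p - 1)) = 0 := by
        apply Polynomial.coeff_eq_zero_of_natDegree_lt
        have h2 : p * 1 ≤ p * i := Nat.mul_le_mul_left p h0
        omega
      rw [h1, mul_zero]
  · intro B
    apply Subtype.ext
    symm
    apply Polynomial.eq_C_of_degree_le_zero
    have h3 := B.2.1
    rw [Polynomial.degree_lt_iff_coeff_zero] at h3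
    rw [Polynomial.degree_le_iff_coeff_zero]
    intro m hm
    exact h3 m (by exact_mod_cast hm)
  · intro y
    apply Subtype.ext
    exact Polynomial.coeff_C_zero

theorem fixP_one (W : Polynomial k) (hW : W.natDegree ≤ 2 * (p - 1)) :
    (W.coeff (p - 1) = 0 → FixP p W 1 0) ∧ (W.coeff (p - 1) ≠ 0 → FixP p W 1 1) := by
  have hp2 : 2 ≤ p := (Fact.out : p.Prime).two_le
  constructor
  · intro h0
    unfold FixP
    rw [FixI_one_card W hW, h0, pow_zero, Nat.card_eq_one_iff_unique]
    have h1 : ∀ y : FixI_Y p (0 : k), y.1 = 0 := by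
      intro y
      have h2 : y.1 ^ p = 0 * y.1 := y.2
      rw [zero_mul] at h2
      exact (pow_eq_zero_iff (by omega)).1 h2
    exact ⟨⟨fun a b => Subtype.ext ((h1 a).trans (h1 b).symm)⟩, ⟨0⟩⟩
  · intro h0
    unfold FixP
    rw [FixI_one_card W hW, FixI_card_Y h0, pow_one]

theorem fixP_two_nil (W : Polynomial k) (hW : W.natDegree ≤ 3 * (p - 1)) (a b c d : k)
    (ha : W.coeff (p - 1) = a) (hb : W.coeff (p - 2) = b) (hc : W.coeff (2 * p - 1) = c)
    (hd : W.coeff (2 * p - 2) = d) (ha' : a ^ p = a) (hb' : b ^ p = b) (hc' : c ^ p = c)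
    (hd' : d ^ p = d) (h1 : a + d = 0) (h2 : a * d = b * c) : FixP p W 2 0 := by
  have hp2 : 2 ≤ p := (Fact.out : p.Prime).two_le
  unfold FixP
  rw [pow_zero, Nat.card_eq_one_iff_unique]
  have key : ∀ B : {B : Polynomial k // B.degree < ((2 : ℕ) : WithBot ℕ) ∧
      ∀ i, B.coeff i ^ p = (B * W).coeff (p * i + (p - 1))}, B.1 = 0 := by
    rintro ⟨B, hB, hfix⟩
    change B = 0
    rw [Polynomial.degree_lt_iff_coeff_zero] at hB
    have hBe : B = Polynomial.C (B.coeff 0) + Polynomial.C (B.coeff 1) * Polynomial.X := by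
      ext m
      rw [Polynomial.coeff_add, Polynomial.coeff_C_mul]
      rcases m with _ | _ | m
      · simp
      · simp [Polynomial.coeff_C]
      · rw [hB (m + 1 + 1) (by omega), Polynomial.coeff_C_of_ne_zero (by omega),
          Polynomial.coeff_X_of_ne_one (by omega)]
        simp
    obtain ⟨x, hx⟩ : ∃ x, x = B.coeff 0 := ⟨_, rfl⟩
    obtain ⟨y, hy⟩ : ∃ y, y = B.coeff 1 := ⟨_, rfl⟩
    have hcoef : ∀ m : ℕ, (B * W).coeff (m + 1) = x * W.coeff (m + 1) + y * W.coeff m := by
      intro m
      conv_lhs => rw [hBe]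
      rw [← hx, ← hy, add_mul, Polynomial.coeff_add, Polynomial.coeff_C_mul, mul_assoc,
        Polynomial.coeff_C_mul, Polynomial.coeff_X_mul]
    have e0 := hfix 0
    have e1 := hfix 1
    have i0 : p * 0 + (p - 1) = (p - 2) + 1 := by omega
    have i1 : p * 1 + (p - 1) = (2 * p - 2) + 1 := by omega
    have i0' : p - 2 + 1 = p - 1 := by omega
    have i1' : 2 * p - 2 + 1 = 2 * p - 1 := by omega
    rw [i0, hcoef, i0', ha, hb, ← hx] at e0
    rw [i1, hcoef, i1', hc, hd, ← hy] at e1
    have hx2 : (x ^ p) ^ p = 0 := by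
      rw [e0, add_pow_char, mul_pow, mul_pow, ha', hb', e0, e1]
      linear_combination (a * x + b * y) * h1 - x * h2
    have hy2 : (y ^ p) ^ p = 0 := by
      rw [e1, add_pow_char, mul_pow, mul_pow, hc', hd', e0, e1]
      linear_combination (c * x + d * y) * h1 - y * h2
    have hp0 : p ≠ 0 := by omega
    have hx0 : x = 0 := (pow_eq_zero_iff hp0).1 ((pow_eq_zero_iff hp0).1 hx2)
    have hy0 : y = 0 := (pow_eq_zero_iff hp0).1 ((pow_eq_zero_iff hp0).1 hy2)
    rw [hBe, ← hx, ← hy, hx0, hy0]
    simp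
  refine ⟨⟨fun u v => Subtype.ext ((key u).trans (key v).symm)⟩, ⟨⟨0, ?_, ?_⟩⟩⟩
  · rw [Polynomial.degree_zero]
    exact WithBot.bot_lt_coe _
  · intro i
    rw [zero_mul, Polynomial.coeff_zero, Polynomial.coeff_zero, zero_pow (by omega)]

end Pool.Agent.PRB
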