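import Pool.Agent.LibPRB.PolL
import Pool.Agent.LibPRB.FixI

/-!
# A decision procedure for the number of fixed points

PLAN. `W = (t.map ...).prod`; `natDegree W = (t.map Prod.snd).sum` (`natDegree_lprod`), `W.coeff j = (lprod p t).getD j 0`
(`coeff_lprod`).  Cases `(N, s)`: `(0, 0)`: `fixP_zero`; `(1, 0)`, `(1, 1)`: `fixP_one` (`CharP.cast_eq_zero_iff`); `(2, 0)`:
`fixP_two_nil` with `a, b, c, d` natural numbers (Frobenius fixes natural numbers: `map_natCast (frobenius k p)`);
`(a + d) % p = 0` gives `a + d = 0` in `k`, `(a * d) % p = (b * c) % p` gives `a d = b c`.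
`base_fin`: `Finset.prod` over `Fin r` as `List.prod (List.ofFn ...)` (`List.prod_ofFn`), `algebraMap (ZMod p) k x = (x.val : k)`
(`ZMod.natCast_zmod_val`, `map_natCast`), `ZMod.val_lt`.
-/

set_option autoImplicit false

namespace Pool.Agent.PRB

/-- Sufficient condition for `FixP p (∏ (X - c)^e) N s`. -/
def okB (p : ℕ) (t : List (ℕ × ℕ)) (N s : ℕ) : Bool :=
  match N, s with
  | 0, 0 => true
  | 1, 0 => decide ((t.map Prod.snd).sum ≤ 2 * (p - 1)) && decide (((lprod p t).getD (p - 1) 0) % p = 0)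
  | 1, 1 => decide ((t.map Prod.snd).sum ≤ 2 * (p - 1)) && decide (((lprod p t).getD (p - 1) 0) % p ≠ 0)
  | 2, 0 => decide ((t.map Prod.snd).sum ≤ 3 * (p - 1)) &&
      decide (((lprod p t).getD (p - 1) 0 + (lprod p t).getD (2 * p - 2) 0) % p = 0) &&
      decide (((lprod p t).getD (p - 1) 0 * (lprod p t).getD (2 * p - 2) 0) % p =
        ((lprod p t).getD (p - 2) 0 * (lprod p t).getD (2 * p - 1) 0) % p)
  | _, _ => false

open Polynomial in
theorem fixP_of_okB {p : ℕ} [Fact p.Prime] {k : Type} [Field k] [IsAlgClosed k] [CharP k p]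
    (t : List (ℕ × ℕ)) (ht : ∀ x ∈ t, x.1 ≤ p) (N s : ℕ) (h : okB p t N s = true) :
    FixP p ((t.map fun x : ℕ × ℕ => (X - C (x.1 : k)) ^ x.2).prod) N s := by
  have hdeg := natDegree_lprod (k := k) t
  have hco := fun j => coeff_lprod (p := p) (k := k) t ht j
  generalize (t.map fun x : ℕ × ℕ => (X - C (x.1 : k)) ^ x.2).prod = W at hdeg hco ⊢
  have hz : ∀ n : ℕ, (n : k) = 0 ↔ n % p = 0 := fun n => by
    rw [CharP.cast_eq_zero_iff k p n, Nat.dvd_iff_mod_eq_zero]
  have hfr : ∀ n : ℕ, (n : k) ^ p = (n : k) := fun n => by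
    have := map_natCast (frobenius k p) n
    rwa [frobenius_def] at this
  unfold okB at h
  split at h
  · exact fixP_zero p (Fact.out : p.Prime).pos W
  · rw [Bool.and_eq_true, decide_eq_true_eq, decide_eq_true_eq] at h
    exact (fixP_one W (hdeg.le.trans h.1)).1 (by rw [hco, hz]; exact h.2)
  · rw [Bool.and_eq_true, decide_eq_true_eq, decide_eq_true_eq] at h
    exact (fixP_one W (hdeg.le.trans h.1)).2 (by rw [hco, Ne, hz]; exact h.2)
  · rw [Bool.and_eq_true, Bool.and_eq_true, decide_eq_true_eq, decide_eq_true_eq,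
      decide_eq_true_eq] at h
    obtain ⟨⟨h1, h2⟩, h3⟩ := h
    refine fixP_two_nil W (hdeg.le.trans h1) _ _ _ _ (hco _) (hco _) (hco _) (hco _) (hfr _)
      (hfr _) (hfr _) (hfr _) ?_ ?_
    · rw [← Nat.cast_add, hz]
      exact h2
    · rw [← Nat.cast_mul, ← Nat.cast_mul]
      exact (CharP.natCast_eq_natCast' k p) h3
  · exact absurd h (by decide)

open Polynomial in
theorem base_fin {p : ℕ} [Fact p.Prime] {k : Type} [Field k] [IsAlgClosed k] [CharP k p]
    [Algebra (ZMod p) k] {r : ℕ} (c : Fin r → ZMod p) (q : Fin r → ℕ) (N s : ℕ)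
    (h : okB p (List.ofFn fun i => ((c i).val, q i)) N s = true) :
    FixP p (∏ i, (X - C (algebraMap (ZMod p) k (c i))) ^ q i) N s := by
  have h1 := fixP_of_okB (k := k) (List.ofFn fun i => ((c i).val, q i)) (fun x hx => by
    rw [List.mem_ofFn] at hx
    obtain ⟨i, rfl⟩ := hx
    exact (ZMod.val_lt (c i)).le) N s h
  rw [List.map_ofFn, List.prod_ofFn] at h1
  have h2 : (∏ i, (X - C (algebraMap (ZMod p) k (c i))) ^ q i) =
      ∏ i, ((fun x : ℕ × ℕ => (X - C (x.1 : k)) ^ x.2) ∘ fun i => ((c i).val, q i)) i := by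
    refine Finset.prod_congr rfl fun i _ => ?_
    have h3 : algebraMap (ZMod p) k (c i) = (((c i).val : ℕ) : k) := by
      conv_lhs => rw [← ZMod.natCast_zmod_val (c i)]
      rw [map_natCast]
    rw [h3]
    rfl
  rw [h2]
  exact h1

end Pool.Agent.PRB
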