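import Pool.Agent.LibPRB.PBa

/-! # Derivation, scaling and Frobenius of `k(X)` -/

set_option autoImplicit false

namespace Pool.Agent.PRB

section Base3

open TrivSqZeroExt

/-- `f ↦ f + ε f'`. -/
private noncomputable def Base3_hom (k : Type) [Field k] :
    Polynomial k →+* DualNumber (RatFunc k) where
  toFun f := inl (algebraMap _ (RatFunc k) f) +
    inr (algebraMap _ (RatFunc k) (Polynomial.derivative f))
  map_one' := by ext <;> simp
  map_mul' f g := by
    ext
    · simp
    · simp only [snd_add, snd_inl, snd_inr, zero_add, snd_mul, fst_add, fst_inl, fst_inr, add_zero,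
        smul_eq_mul, MulOpposite.smul_eq_mul_unop, MulOpposite.unop_op, Polynomial.derivative_mul,
        map_add, map_mul]
      ring
  map_zero' := by ext <;> simp
  map_add' f g := by
    ext
    · simp
    · simp only [snd_add, snd_inl, snd_inr, zero_add, Polynomial.derivative_add, map_add]

private theorem Base3_unit (k : Type) [Field k] (y : nonZeroDivisors (Polynomial k)) :
    IsUnit (Base3_hom k y) := by
  rw [TrivSqZeroExt.isUnit_iff_isUnit_fst]
  have h : (Base3_hom k y).fst = algebraMap _ (RatFunc k) (y : Polynomial k) := by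
    simp [Base3_hom]
  rw [h, isUnit_iff_ne_zero, Ne, map_eq_zero_iff _ (RatFunc.algebraMap_injective k)]
  exact nonZeroDivisors.ne_zero y.2

private noncomputable def Base3_lift (k : Type) [Field k] : RatFunc k →+* DualNumber (RatFunc k) :=
  IsLocalization.lift (M := nonZeroDivisors (Polynomial k)) (S := RatFunc k) (Base3_unit k)

private theorem Base3_lift_alg (k : Type) [Field k] (f : Polynomial k) :
    Base3_lift k (algebraMap _ (RatFunc k) f) = Base3_hom k f :=
  IsLocalization.lift_eq _ _

private theorem Base3_fst (k : Type) [Field k] (a : RatFunc k) : (Base3_lift k a).fst = a := by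
  have h : ((fstHom (RatFunc k) (RatFunc k) (RatFunc k)).toRingHom.comp (Base3_lift k)) =
      RingHom.id (RatFunc k) := by
    apply IsLocalization.ringHom_ext (nonZeroDivisors (Polynomial k))
    refine RingHom.ext fun f => ?_
    change (Base3_lift k (algebraMap _ (RatFunc k) f)).fst = algebraMap _ (RatFunc k) f
    rw [Base3_lift_alg]
    simp [Base3_hom]
  exact RingHom.congr_fun h a

private noncomputable def Base3_D (k : Type) [Field k] : Derivation k (RatFunc k) (RatFunc k) :=
  Derivation.mk'
    { toFun := fun a => (Base3_lift k a).snd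
      map_add' := fun a b => by rw [map_add, snd_add]
      map_smul' := fun c a => by
        have h1 : c • a = algebraMap (Polynomial k) (RatFunc k) (Polynomial.C c) * a := by
          rw [Algebra.smul_def]
          rfl
        have h2 : Base3_hom k (Polynomial.C c) =
            inl (algebraMap (Polynomial k) (RatFunc k) (Polynomial.C c)) := by
          simp [Base3_hom]
        simp only [RingHom.id_apply]
        rw [h1, map_mul, Base3_lift_alg, h2, snd_mul, fst_inl, snd_inl, smul_zero, add_zero,
          smul_eq_mul, Algebra.smul_def]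
        rfl }
    (fun a b => by
      change (Base3_lift k (a * b)).snd = a • (Base3_lift k b).snd + b • (Base3_lift k a).snd
      rw [map_mul, snd_mul, Base3_fst, Base3_fst]
      simp only [smul_eq_mul, MulOpposite.smul_eq_mul_unop, MulOpposite.unop_op]
      ring)

private theorem Base3_D_alg (k : Type) [Field k] (f : Polynomial k) :
    Base3_D k (algebraMap _ (RatFunc k) f) =
      algebraMap _ (RatFunc k) (Polynomial.derivative f) := by
  change (Base3_lift k (algebraMap _ (RatFunc k) f)).snd = _
  rw [Base3_lift_alg]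
  change ((inl (algebraMap _ (RatFunc k) f) : DualNumber (RatFunc k)) +
    inr (algebraMap _ (RatFunc k) (Polynomial.derivative f))).snd = _
  rw [snd_add, snd_inl, snd_inr, zero_add]

end Base3

variable {p : ℕ} [Fact p.Prime] {k : Type} [Field k] [IsAlgClosed k] [CharP k p]

private theorem Base3_poly (f : Polynomial k) : ∃ c : ℕ → Polynomial k,
    f = ∑ i ∈ Finset.range p, c i ^ p * Polynomial.X ^ i := by
  have hp : 0 < p := (Fact.out : p.Prime).pos
  induction f using Polynomial.induction_on' with
  | add f g hf hg =>
    obtain ⟨c, hc⟩ := hf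
    obtain ⟨d, hd⟩ := hg
    refine ⟨fun i => c i + d i, ?_⟩
    rw [hc, hd, ← Finset.sum_add_distrib]
    refine Finset.sum_congr rfl fun i _ => ?_
    rw [add_pow_char, add_mul]
  | monomial n a =>
    obtain ⟨b, hb⟩ := IsAlgClosed.exists_pow_nat_eq a hp
    refine ⟨fun i => if i = n % p then Polynomial.C b * Polynomial.X ^ (n / p) else 0, ?_⟩
    rw [Finset.sum_eq_single (n % p)]
    · simp only [if_true]
      rw [mul_pow, ← pow_mul, mul_assoc, ← pow_add, ← Polynomial.C_pow, hb, mul_comm (n / p) p,
        Nat.div_add_mod, Polynomial.C_mul_X_pow_eq_monomial]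
    · intro i _ hi
      simp [hi, hp.ne']
    · intro h
      exact absurd (Finset.mem_range.2 (Nat.mod_lt _ hp)) h

theorem ratFunc_deriv : ∃ D : Derivation k (RatFunc k) (RatFunc k),
    PB p (RatFunc.X : RatFunc k) D ∧
      ∀ f : Polynomial k, D (algebraMap _ (RatFunc k) f) =
        algebraMap _ (RatFunc k) (Polynomial.derivative f) := by
  refine ⟨Base3_D k, ⟨?_, ?_⟩, Base3_D_alg k⟩
  · have h := Base3_D_alg k Polynomial.X
    rw [RatFunc.algebraMap_X, Polynomial.derivative_X, map_one] at h
    exact h
  · intro a
    have hp : 0 < p := (Fact.out : p.Prime).pos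
    have hd : algebraMap _ (RatFunc k) a.denom ≠ 0 := by
      rw [Ne, map_eq_zero_iff _ (RatFunc.algebraMap_injective k)]
      exact a.denom_ne_zero
    obtain ⟨c, hc⟩ := Base3_poly (p := p) (a.num * a.denom ^ (p - 1))
    refine ⟨fun i => algebraMap _ (RatFunc k) (c i) / algebraMap _ (RatFunc k) a.denom, ?_⟩
    have h1 := congrArg (algebraMap _ (RatFunc k)) hc
    rw [map_sum, map_mul, map_pow] at h1
    have h2 : a * algebraMap _ (RatFunc k) a.denom ^ p =
        ∑ i ∈ Finset.range p, algebraMap _ (RatFunc k) (c i) ^ p * RatFunc.X ^ i := by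
      have hgen : ∀ x n d : RatFunc k, d ≠ 0 → x = n / d → x * d ^ p = n * d ^ (p - 1) := by
        intro x n d hd0 hx
        have h4 : d ^ p = d ^ (p - 1) * d := by
          rw [← pow_succ]
          congr 1
          omega
        rw [hx, h4]
        field_simp
      rw [hgen a _ _ hd a.num_div_denom.symm, h1]
      refine Finset.sum_congr rfl fun i _ => ?_
      rw [map_mul, map_pow, map_pow, RatFunc.algebraMap_X]
    have h5 : a = (∑ i ∈ Finset.range p, algebraMap _ (RatFunc k) (c i) ^ p * RatFunc.X ^ i) /
        algebraMap _ (RatFunc k) a.denom ^ p := by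
      rw [← h2, mul_div_cancel_right₀ _ (pow_ne_zero _ hd)]
    conv_lhs => rw [h5]
    rw [Finset.sum_div]
    refine Finset.sum_congr rfl fun i _ => ?_
    rw [div_pow, div_mul_eq_mul_div]

/-- The scaling automorphism. -/
theorem ratFunc_sig (ζ : k) (hζ : ζ ≠ 0) : ∃ σ : RatFunc k →ₐ[k] RatFunc k,
    σ RatFunc.X = ζ • (RatFunc.X : RatFunc k) := by
  let _ : Invertible ζ := invertibleOfNonzero hζ
  set e : Polynomial k ≃ₐ[k] Polynomial k := Polynomial.algEquivCMulXAddC ζ 0 with he
  have hinj : Function.Injective e.toAlgHom := e.injective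
  refine ⟨RatFunc.mapAlgHom e.toAlgHom
    (nonZeroDivisors_le_comap_nonZeroDivisors_of_injective _ hinj), ?_⟩
  have h1 : (RatFunc.X : RatFunc k) =
      algebraMap (Polynomial k) (RatFunc k) Polynomial.X /
        algebraMap (Polynomial k) (RatFunc k) 1 := by simp
  rw [RatFunc.coe_mapAlgHom_eq_coe_map]
  conv_lhs => rw [h1]
  rw [RatFunc.map_apply_div]
  have h2 : e.toAlgHom Polynomial.X = Polynomial.C ζ * Polynomial.X := by
    simp [he]
  rw [h2, map_one, map_one, div_one, map_mul, RatFunc.algebraMap_X, RatFunc.algebraMap_C,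
    ← RatFunc.smul_eq_C_mul]

private theorem Base3_alg [Algebra (ZMod p) k] [Algebra.IsAlgebraic (ZMod p) k] (c : k) :
    ∃ n > 0, c ^ p ^ n = c := by
  have hc : IsIntegral (ZMod p) c := Algebra.IsIntegral.isIntegral c
  have _ : FiniteDimensional (ZMod p) (IntermediateField.adjoin (ZMod p) {c}) :=
    IntermediateField.adjoin.finiteDimensional hc
  have _ : Finite (IntermediateField.adjoin (ZMod p) {c}) := Module.finite_of_finite (ZMod p)
  let _ : Fintype (IntermediateField.adjoin (ZMod p) {c}) := Fintype.ofFinite _
  refine ⟨Module.finrank (ZMod p) (IntermediateField.adjoin (ZMod p) {c}),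
    Module.finrank_pos, ?_⟩
  have h1 := FiniteField.pow_card (⟨c, IntermediateField.mem_adjoin_simple_self (ZMod p) c⟩ :
    IntermediateField.adjoin (ZMod p) {c})
  have h2 : Fintype.card (IntermediateField.adjoin (ZMod p) {c}) =
      p ^ Module.finrank (ZMod p) (IntermediateField.adjoin (ZMod p) {c}) := by
    rw [← Nat.card_eq_fintype_card, Module.natCard_eq_pow_finrank (K := ZMod p), Nat.card_zmod]
  rw [h2] at h1
  have h3 := congrArg Subtype.val h1
  exact h3

/-- The Frobenius of `k` on `k(X)`. -/
theorem ratFunc_phi [Algebra (ZMod p) k] [Algebra.IsAlgebraic (ZMod p) k] :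
    ∃ φ : RatFunc k →+* RatFunc k,
    φ RatFunc.X = RatFunc.X ∧
      (∀ c : k, φ (algebraMap k _ c) = algebraMap k _ (c ^ p)) ∧
      ∀ a, ∃ n > 0, φ^[n] a = a := by
  classical
  set F : Polynomial k →+* Polynomial k := Polynomial.mapRingHom (frobenius k p) with hF
  have hinj : Function.Injective F := Polynomial.map_injective _ (frobenius k p).injective
  have hnz := nonZeroDivisors_le_comap_nonZeroDivisors_of_injective _ hinj
  set φ : RatFunc k →+* RatFunc k := RatFunc.mapRingHom F hnz with hφ
  have hdiv : ∀ f g : Polynomial k, φ (algebraMap _ _ f / algebraMap _ _ g) =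
      algebraMap _ _ (F f) / algebraMap _ _ (F g) := by
    intro f g
    rw [hφ, RatFunc.coe_mapRingHom_eq_coe_map, RatFunc.map_apply_div]
  have halg : ∀ f : Polynomial k, φ (algebraMap _ _ f) = algebraMap _ _ (F f) := by
    intro f
    have := hdiv f 1
    rwa [map_one, map_one, div_one, map_one, div_one] at this
  refine ⟨φ, ?_, ?_, ?_⟩
  · rw [← RatFunc.algebraMap_X, halg, hF, Polynomial.coe_mapRingHom, Polynomial.map_X]
  · intro c
    have h1 : ∀ c : k, algebraMap k (RatFunc k) c = algebraMap _ _ (Polynomial.C c) :=
      fun c => rfl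
    rw [h1, h1, halg, hF, Polynomial.coe_mapRingHom, Polynomial.map_C]
    rfl
  · -- powers of Frobenius fixing a finite set of constants
    have hfin : ∀ s : Finset k, ∃ n > 0, ∀ c ∈ s, c ^ p ^ n = c := by
      intro s
      induction s using Finset.induction_on with
      | empty => exact ⟨1, one_pos, by simp⟩
      | insert a s _ ih =>
        obtain ⟨n, hn, h1⟩ := ih
        obtain ⟨m, hm, h2⟩ := Base3_alg (p := p) a
        have hpow : ∀ (c : k) (n : ℕ), c ^ p ^ n = c → ∀ j : ℕ, c ^ p ^ (n * j) = c := by
          intro c n h j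
          induction j with
          | zero => simp
          | succ j ihj => rw [Nat.mul_succ, pow_add, pow_mul, ihj, h]
        refine ⟨n * m, Nat.mul_pos hn hm, fun c hc => ?_⟩
        rcases Finset.mem_insert.1 hc with rfl | hc
        · rw [mul_comm n m]
          exact hpow c m h2 n
        · exact hpow c n (h1 c hc) m
    have hiter : ∀ (n : ℕ) (f : Polynomial k) (i : ℕ), (F^[n] f).coeff i = f.coeff i ^ p ^ n := by
      intro n f i
      induction n with
      | zero => simp
      | succ n ih =>
        have hFc : ∀ (f : Polynomial k), (F f).coeff i = f.coeff i ^ p := by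
          intro f
          rw [hF, Polynomial.coe_mapRingHom, Polynomial.coeff_map, frobenius_def]
        rw [Function.iterate_succ_apply', hFc, ih, ← pow_mul, pow_succ]
    have hiterφ : ∀ (n : ℕ) (f g : Polynomial k), φ^[n] (algebraMap _ _ f / algebraMap _ _ g) =
        algebraMap _ _ (F^[n] f) / algebraMap _ _ (F^[n] g) := by
      intro n f g
      induction n with
      | zero => simp
      | succ n ih =>
        rw [Function.iterate_succ_apply', ih, hdiv, Function.iterate_succ_apply',
          Function.iterate_succ_apply']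
    intro a
    obtain ⟨n, hn, h⟩ := hfin (a.num.coeffs ∪ a.denom.coeffs)
    have hfix : ∀ f : Polynomial k, (∀ c ∈ f.coeffs, c ^ p ^ n = c) → F^[n] f = f := by
      intro f hf
      ext i
      rw [hiter]
      by_cases h0 : f.coeff i = 0
      · rw [h0, zero_pow (pow_ne_zero _ (Fact.out : p.Prime).ne_zero)]
      · exact hf _ (Polynomial.coeff_mem_coeffs h0)
    refine ⟨n, hn, ?_⟩
    conv_lhs => rw [← a.num_div_denom]
    rw [hiterφ, hfix _ fun c hc => h c (Finset.mem_union_left _ hc),
      hfix _ fun c hc => h c (Finset.mem_union_right _ hc), a.num_div_denom]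

end Pool.Agent.PRB
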