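import Pool.Agent.LibPRB.GF

/-! # Ladder curves -/

set_option autoImplicit false

namespace Pool.Agent.PRB

/-- A curve over `k` with function field `K`, a point `inf` at infinity, an automorphism `sig` of
order `p - 1` and a Frobenius `phi`, such that `ds` has no zero outside infinity. `gam` is twice the
genus, `ginv` is the genus of the quotient by `sig`; the `p`-rank is `0`. -/
structure Lad (p : ℕ) {k : Type} [Field k] (ζ : k) (K : Type) [Field K] [Algebra k K] where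
  s : K
  D : Derivation k K K
  sig : K →ₐ[k] K
  phi : K →+* K
  inf : Plc k K
  gam : ℕ
  ginv : ℕ
  pb : PB p s D
  disc : ∀ O : ValuationSubring K, IsPl k O → ∃ P : Plc k K, P.ring = O
  inf_s : inf.ord s < 0
  inf_diff : IsDiff inf D (gam - 2)
  fin_s : ∀ P, P ≠ inf → P.ge 0 s
  fin_diff : ∀ P, P ≠ inf → IsDiff P D 0
  fsupp : ∀ a : K, a ≠ 0 → {P : Plc k K | P.ord a ≠ 0}.Finite
  ff : Module.Finite (IntermediateField.adjoin k {s}) K
  sig_s : sig s = ζ • s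
  sig_D : ∀ a, D (sig a) = ζ • sig (D a)
  sig_iter : ∀ a, sig^[p - 1] a = a
  sig_inf : ∀ a, inf.ord (sig a) = inf.ord a
  phi_const : ∀ c : k, phi (algebraMap k K c) = algebraMap k K (c ^ p)
  phi_s : phi s = s
  phi_sig : ∀ a, phi (sig a) = sig (phi a)
  phi_iter : ∀ a, ∃ n > 0, phi^[n] a = a
  gam_mod : p - 1 ∣ gam
  pol : ∀ n : ℕ, gam ≤ n → ∃ c : K, c ≠ 0 ∧ (∀ P, P ≠ inf → P.ge 0 c) ∧ inf.ord c = -n ∧
    sig c = ζ ^ n • c ∧ phi c = c
  nopol : ∀ c : K, c ≠ 0 → (∀ P, P ≠ inf → P.ge 0 c) → inf.ord c ≠ 1 - gam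
  nolog : ∀ a : K, car p D a = a → (∀ P, P ≠ inf → P.ge 0 a) → inf.ge (2 - gam) a → a = 0
  poles : ∀ P, P ≠ inf → ∀ n : ℕ, ∃ c : K, c ≠ 0 ∧ P.ord c = -n ∧
    ∀ P', P' ≠ inf → P' ≠ P → P'.ge 0 c
  fd : Module.Finite k (regSp D)
  dim : 2 * Module.finrank k (regSp D) = gam
  dimInv : Module.finrank k (regSp D ⊓ wtSp sig ζ⁻¹ : Submodule k K) = ginv

open Classical in
/-- The indicator function of a finite set of places. -/
noncomputable def ind {k K : Type} [Field k] [Field K] [Algebra k K] (S : Finset (Plc k K))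
    (P : Plc k K) : ℕ := if P ∈ S then 1 else 0

/-- The pole order of `g` at `P`. -/
def pole {k K : Type} [Field k] [Field K] [Algebra k K] (g : K) (P : Plc k K) : ℕ :=
  (-(P.ord g)).toNat

namespace Lad

variable {p : ℕ} [Fact p.Prime] {k : Type} [Field k] {ζ : k} {K : Type} [Field K] [Algebra k K]

/-- Functions with poles of order `≤ b P` at the finite places `P`, and `≤ B` at infinity. -/
def Msp (Λ : Lad p ζ K) (b : Plc k K → ℕ) (B : ℤ) : Submodule k K where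
  carrier := {c | (∀ P, P ≠ Λ.inf → P.ge (-(b P)) c) ∧ Λ.inf.ge (-B) c}
  add_mem' := fun ha hb =>
    ⟨fun P hP => P.ge_add (ha.1 P hP) (hb.1 P hP), Λ.inf.ge_add ha.2 hb.2⟩
  zero_mem' := ⟨fun P _ => P.ge_zero _, Λ.inf.ge_zero _⟩
  smul_mem' := fun c _ ha => ⟨fun P hP => P.ge_smul c (ha.1 P hP), Λ.inf.ge_smul c ha.2⟩

theorem mem_Msp {Λ : Lad p ζ K} {b : Plc k K → ℕ} {B : ℤ} {c : K} :
    c ∈ Λ.Msp b B ↔ (∀ P, P ≠ Λ.inf → P.ge (-(b P)) c) ∧ Λ.inf.ge (-B) c := Iff.rfl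

/-- The space of coefficients of `z ^ d` of the regular differentials of `z ^ p - z = g`. -/
def Mg (Λ : Lad p ζ K) (g : K) (d : ℕ) : Submodule k K :=
  Λ.Msp (fun P => bnd p (pole g P) d) (Λ.gam - 2 + bnd p (pole g Λ.inf) d)

theorem gf (Λ : Lad p ζ K) : GF p Λ.s Λ.D where
  pb := Λ.pb
  disc := Λ.disc
  diff := fun P => by
    by_cases h : P = Λ.inf
    · exact ⟨_, h ▸ Λ.inf_diff⟩
    · exact ⟨0, Λ.fin_diff P h⟩
  fsupp := Λ.fsupp

end Lad

end Pool.Agent.PRB
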