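import Pool.Agent.LibPRB.Base2
import Pool.Agent.LibPRB.Base3
import Pool.Agent.LibPRB.Lad

/-! # The rational function field as a ladder curve -/

set_option autoImplicit false

namespace Pool.Agent.PRB

section aux

variable {k : Type} [Field k]

/-- `P` is the place `X = c`. -/
def Base_IsC (P : Plc k (RatFunc k)) (c : k) : Prop :=
  ∀ f : Polynomial k, f ≠ 0 → P.ord (algebraMap _ (RatFunc k) f) = f.rootMultiplicity c

/-- `P` is the place at infinity. -/
def Base_IsInf (P : Plc k (RatFunc k)) : Prop :=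
  ∀ f : Polynomial k, f ≠ 0 → P.ord (algebraMap _ (RatFunc k) f) = - f.natDegree

theorem Base_alg_const (c : k) : algebraMap k (RatFunc k) c =
    algebraMap (Polynomial k) (RatFunc k) (Polynomial.C c) := by
  rw [RatFunc.algebraMap_C, RatFunc.algebraMap_eq_C]

theorem Base_alg_X : algebraMap (Polynomial k) (RatFunc k) Polynomial.X = RatFunc.X :=
  RatFunc.algebraMap_X

theorem Base_smul (c : k) (a : RatFunc k) : c • a = algebraMap k (RatFunc k) c * a :=
  Algebra.smul_def c a

theorem Base_alg_ne {f : Polynomial k} (hf : f ≠ 0) : algebraMap (Polynomial k) (RatFunc k) f ≠ 0 :=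
  RatFunc.algebraMap_ne_zero hf

/-- Ring homs are determined by the constants and `X`. -/
theorem Base_ext {L : Type} [Field L] (φ ψ : RatFunc k →+* L)
    (hc : ∀ c : k, φ (algebraMap k _ c) = ψ (algebraMap k _ c))
    (hX : φ RatFunc.X = ψ RatFunc.X) (a : RatFunc k) : φ a = ψ a := by
  have hpoly : ∀ f : Polynomial k, φ (algebraMap _ (RatFunc k) f) =
      ψ (algebraMap _ (RatFunc k) f) := by
    intro f
    induction f using Polynomial.induction_on' with
    | add f g hf hg => rw [map_add, map_add, map_add, hf, hg]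
    | monomial n c =>
      rw [← Polynomial.C_mul_X_pow_eq_monomial, map_mul, map_pow, ← Base_alg_const, Base_alg_X,
        map_mul, map_mul, map_pow, map_pow, hc, hX]
  rw [← RatFunc.num_div_denom a, map_div₀, map_div₀, hpoly, hpoly]

theorem Base_ord (P : Plc k (RatFunc k)) {a : RatFunc k} (ha : a ≠ 0) :
    P.ord a = P.ord (algebraMap _ _ a.num) - P.ord (algebraMap _ _ a.denom) := by
  conv_lhs => rw [← RatFunc.num_div_denom a]
  rw [P.ord_div (Base_alg_ne (RatFunc.num_ne_zero ha)) (Base_alg_ne (RatFunc.denom_ne_zero a))]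

theorem Base_eq {P Q : Plc k (RatFunc k)} (h : ∀ f : Polynomial k, f ≠ 0 →
    P.ord (algebraMap _ (RatFunc k) f) = Q.ord (algebraMap _ (RatFunc k) f)) : P = Q := by
  ext a
  by_cases ha : a = 0
  · rw [ha, P.ord_zero, Q.ord_zero]
  · rw [Base_ord P ha, Base_ord Q ha, h _ (RatFunc.num_ne_zero ha), h _ (RatFunc.denom_ne_zero a)]

theorem Base_IsC.eq {P Q : Plc k (RatFunc k)} {c : k} (hP : Base_IsC P c) (hQ : Base_IsC Q c) :
    P = Q :=
  Base_eq fun f hf => by rw [hP f hf, hQ f hf]

theorem Base_IsInf.eq {P Q : Plc k (RatFunc k)} (hP : Base_IsInf P) (hQ : Base_IsInf Q) :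
    P = Q :=
  Base_eq fun f hf => by rw [hP f hf, hQ f hf]

theorem Base_IsInf.ord_X {P : Plc k (RatFunc k)} (hP : Base_IsInf P) :
    P.ord RatFunc.X = -1 := by
  rw [← Base_alg_X, hP _ Polynomial.X_ne_zero, Polynomial.natDegree_X]
  rfl

theorem Base_IsC.ge_poly {P : Plc k (RatFunc k)} {c : k} (hP : Base_IsC P c) (f : Polynomial k) :
    P.ge 0 (algebraMap _ _ f) := by
  by_cases hf : f = 0
  · left; rw [hf, map_zero]
  · right; rw [hP f hf]; positivity

theorem Base_IsC.ne_inf {P Q : Plc k (RatFunc k)} {c : k} (hP : Base_IsC P c)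
    (hQ : Base_IsInf Q) : P ≠ Q := by
  intro h
  have h1 := hP _ Polynomial.X_ne_zero
  rw [Base_alg_X, h, hQ.ord_X] at h1
  have : (0 : ℤ) ≤ (Polynomial.rootMultiplicity c (Polynomial.X : Polynomial k) : ℤ) := by
    positivity
  omega

theorem Base_IsC.val_X {P : Plc k (RatFunc k)} {c : k} (hP : Base_IsC P c) :
    P.val RatFunc.X = c := by
  apply P.val_eq
  right
  have h1 : (RatFunc.X : RatFunc k) - algebraMap k _ c =
      algebraMap _ _ (Polynomial.X - Polynomial.C c) := by
    rw [map_sub, Base_alg_X, Base_alg_const]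
  rw [h1, hP _ (Polynomial.X_sub_C_ne_zero c), Polynomial.rootMultiplicity_X_sub_C_self]
  rfl

theorem Base_IsC.denom {P : Plc k (RatFunc k)} {c : k} (hP : Base_IsC P c) {a : RatFunc k}
    (ha : P.ge 0 a) : a.denom.eval c ≠ 0 := by
  intro h
  have hne : a ≠ 0 := by
    rintro rfl
    rw [RatFunc.denom_zero] at h
    simp at h
  rw [P.ge_iff hne, Base_ord P hne, hP _ (RatFunc.num_ne_zero hne),
    hP _ (RatFunc.denom_ne_zero a)] at ha
  have h1 : 0 < a.denom.rootMultiplicity c :=
    (Polynomial.rootMultiplicity_pos (RatFunc.denom_ne_zero a)).2 h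
  have h2 : 0 < a.num.rootMultiplicity c := by omega
  have h3 : a.num.eval c = 0 := (Polynomial.rootMultiplicity_pos (RatFunc.num_ne_zero hne)).1 h2
  obtain ⟨u, v, huv⟩ := RatFunc.isCoprime_num_denom a
  have := congrArg (Polynomial.eval c) huv
  simp [h, h3] at this

theorem Base_IsC.ord_denom {P : Plc k (RatFunc k)} {c : k} (hP : Base_IsC P c) {a : RatFunc k}
    (ha : P.ge 0 a) : P.ord (algebraMap _ _ a.denom) = 0 := by
  rw [hP _ (RatFunc.denom_ne_zero a), Polynomial.rootMultiplicity_eq_zero (hP.denom ha)]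
  rfl

theorem Base_IsInf.ge_deriv {P : Plc k (RatFunc k)} (hP : Base_IsInf P) (f : Polynomial k) :
    P.ge (-(f.natDegree : ℤ) + 1) (algebraMap _ _ (Polynomial.derivative f)) := by
  by_cases hf : Polynomial.derivative f = 0
  · left; rw [hf, map_zero]
  · right
    rw [hP _ hf]
    have h0 : f.natDegree ≠ 0 := by
      intro h
      apply hf
      rw [Polynomial.eq_C_of_natDegree_eq_zero h, Polynomial.derivative_C]
    have := Polynomial.natDegree_derivative_lt h0
    omega

theorem Base_IsInf.ge_poly {P : Plc k (RatFunc k)} (hP : Base_IsInf P) (f : Polynomial k) :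
    P.ge (-(f.natDegree : ℤ)) (algebraMap _ _ f) := by
  by_cases hf : f = 0
  · left; rw [hf, map_zero]
  · right
    rw [hP _ hf]

end aux

section aux2

variable {k : Type} [Field k] [IsAlgClosed k]

theorem Base_class (P : Plc k (RatFunc k)) : (∃ c, Base_IsC P c) ∨ Base_IsInf P := by
  obtain ⟨Q, hQ, h⟩ := ratFunc_disc P.ring P.isPl
  have : Q = P := Plc.ext_ring' hQ
  subst this
  exact h

theorem Base_exists_C {P Q : Plc k (RatFunc k)} (hQ : Base_IsInf Q) (h : P ≠ Q) :
    ∃ c, Base_IsC P c := by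
  rcases Base_class P with h1 | h1
  · exact h1
  · exact absurd (h1.eq hQ) h

/-- A function without finite poles is a polynomial. -/
theorem Base_poly {Q : Plc k (RatFunc k)} (hQ : Base_IsInf Q) (a : RatFunc k)
    (ha : ∀ P, P ≠ Q → P.ge 0 a) : ∃ f : Polynomial k, algebraMap _ _ f = a := by
  have h1 : ∀ c, a.denom.eval c ≠ 0 := by
    intro c
    obtain ⟨P, hP⟩ := exists_plc_C c
    exact Base_IsC.denom (P := P) hP (ha P (Base_IsC.ne_inf hP hQ))
  have h2 : a.denom.degree = 0 := by
    by_contra h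
    obtain ⟨c, hc⟩ := IsAlgClosed.exists_root _ h
    exact h1 c hc
  have h3 : a.denom = 1 :=
    Polynomial.eq_one_of_monic_natDegree_zero (RatFunc.monic_denom a)
      (Polynomial.natDegree_eq_of_degree_eq_some h2)
  refine ⟨a.num, ?_⟩
  conv_rhs => rw [← RatFunc.num_div_denom a]
  rw [h3, map_one, div_one]

/-- No nonzero function without finite poles vanishes at infinity. -/
theorem Base_zero {Q : Plc k (RatFunc k)} (hQ : Base_IsInf Q) (a : RatFunc k)
    (ha : ∀ P, P ≠ Q → P.ge 0 a) (h : Q.ge 1 a) : a = 0 := by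
  obtain ⟨f, rfl⟩ := Base_poly hQ a ha
  by_contra hne
  have hf : f ≠ 0 := by rintro rfl; exact hne (map_zero _)
  rw [Q.ge_iff hne, hQ f hf] at h
  omega

end aux2

variable {p : ℕ} [Fact p.Prime] {k : Type} [Field k] [IsAlgClosed k] [CharP k p]

theorem Base_finite_poly (f : Polynomial k) (hf : f ≠ 0) (Q : Plc k (RatFunc k))
    (hQ : Base_IsInf Q) :
    {P : Plc k (RatFunc k) | P.ord (algebraMap _ _ f) ≠ 0 ∧ P ≠ Q}.Finite := by
  classical
  have h1 : (f.roots.toFinset : Set k).Finite := f.roots.toFinset.finite_toSet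
  refine Set.Finite.of_finite_image (f := fun P : Plc k (RatFunc k) => P.val RatFunc.X)
    (h1.subset ?_) ?_
  · rintro _ ⟨P, ⟨hP1, hP2⟩, rfl⟩
    obtain ⟨c, hc⟩ := Base_exists_C hQ hP2
    rw [hc f hf] at hP1
    simp only [hc.val_X, Finset.mem_coe, Multiset.mem_toFinset]
    rw [Polynomial.mem_roots hf, Polynomial.IsRoot]
    apply (Polynomial.rootMultiplicity_pos hf).1
    apply Nat.pos_of_ne_zero
    exact_mod_cast hP1
  · rintro P ⟨_, hP2⟩ P' ⟨_, hP2'⟩ h
    obtain ⟨c, hc⟩ := Base_exists_C hQ hP2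
    obtain ⟨c', hc'⟩ := Base_exists_C hQ hP2'
    simp only at h
    rw [hc.val_X, hc'.val_X] at h
    subst h
    exact hc.eq hc'

/-- The rational function field is a ladder curve of genus `0`. -/
theorem exists_base [Algebra (ZMod p) k] [Algebra.IsAlgebraic (ZMod p) k] (hp2 : p ≠ 2) (ζ : k)
    (hζ : IsPrimitiveRoot ζ (p - 1)) :
    ∃ Λ : Lad p ζ (RatFunc k), Λ.gam = 0 ∧ Λ.ginv = 0 ∧ Λ.inf.ord Λ.s = -1 ∧
      (∀ P Q : Plc k (RatFunc k), P ≠ Λ.inf → Q ≠ Λ.inf → P.val Λ.s = Q.val Λ.s → P = Q) ∧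
      (∀ c : k, ∃ P : Plc k (RatFunc k), P ≠ Λ.inf ∧ P.val Λ.s = c) := by
  have hp : p.Prime := Fact.out
  have hz0 : ζ ≠ 0 := hζ.ne_zero (by have := hp.two_le; omega)
  obtain ⟨D, hpb, hD⟩ := ratFunc_deriv (p := p) (k := k)
  obtain ⟨σ, hσ⟩ := ratFunc_sig (k := k) ζ hz0
  obtain ⟨φ, hφX, hφc, hφi⟩ := ratFunc_phi (p := p) (k := k)
  obtain ⟨Q, hQ'⟩ := exists_plc_inf (k := k)
  have hQ : Base_IsInf Q := hQ'
  have hσc : ∀ c : k, σ (algebraMap k _ c) = algebraMap k _ c := fun c => σ.commutes c
  have hσpoly : ∀ f : Polynomial k, σ (algebraMap _ _ f) =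
      algebraMap _ _ (f.comp (Polynomial.C ζ * Polynomial.X)) := by
    intro f
    induction f using Polynomial.induction_on' with
    | add f g hf hg => rw [map_add, map_add, hf, hg, Polynomial.add_comp, map_add]
    | monomial n c =>
      rw [← Polynomial.C_mul_X_pow_eq_monomial, map_mul, map_pow, ← Base_alg_const, Base_alg_X,
        map_mul, map_pow, hσc, hσ, Polynomial.mul_comp, Polynomial.pow_comp, Polynomial.X_comp,
        Polynomial.C_comp, map_mul, map_pow, map_mul, ← Base_alg_const, ← Base_alg_const,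
        Base_alg_X, Base_smul]
  have hσiter : ∀ n : ℕ, ∀ c : k, σ^[n] (algebraMap k _ c) = algebraMap k _ c := by
    intro n c
    induction n with
    | zero => rfl
    | succ n ih => rw [Function.iterate_succ_apply', ih, hσc]
  have hσiterX : ∀ n : ℕ, σ^[n] RatFunc.X = ζ ^ n • (RatFunc.X : RatFunc k) := by
    intro n
    induction n with
    | zero => simp
    | succ n ih =>
      rw [Function.iterate_succ_apply', ih, map_smul, hσ, smul_smul, pow_succ]
  have hσord : ∀ f : Polynomial k, f ≠ 0 → Q.ord (σ (algebraMap _ _ f)) =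
      Q.ord (algebraMap _ _ f) := by
    intro f hf
    have hd : (Polynomial.C ζ * Polynomial.X : Polynomial k).natDegree = 1 :=
      Polynomial.natDegree_C_mul_X ζ hz0
    have hne : f.comp (Polynomial.C ζ * Polynomial.X) ≠ 0 := by
      intro h
      rw [Polynomial.comp_eq_zero_iff] at h
      rcases h with h | ⟨_, h⟩
      · exact hf h
      · rw [h, Polynomial.natDegree_C] at hd
        exact zero_ne_one hd
    rw [hσpoly, hQ _ hne, hQ _ hf, Polynomial.natDegree_comp, hd, mul_one]
  have hσD : ∀ f : Polynomial k, D (σ (algebraMap _ _ f)) = ζ • σ (D (algebraMap _ _ f)) := by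
    intro f
    rw [hσpoly, hD, hD, hσpoly, Polynomial.derivative_comp, map_mul, Base_smul]
    congr 1
    rw [Polynomial.derivative_mul, Polynomial.derivative_C, Polynomial.derivative_X, zero_mul,
      zero_add, mul_one, Base_alg_const]
  have hinfdiff : IsDiff Q D (((0 : ℕ) : ℤ) - 2) := by
    apply isDiff_of
    · intro a ha
      by_cases ha0 : a = 0
      · left; rw [ha0, map_zero]
      rw [Q.ge_iff ha0, Base_ord Q ha0, hQ _ (RatFunc.num_ne_zero ha0),
        hQ _ (RatFunc.denom_ne_zero a)] at ha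
      have h1 : D a = (algebraMap _ _ a.denom)⁻¹ ^ 2 * (algebraMap _ _ a.denom *
          algebraMap _ _ (Polynomial.derivative a.num) - algebraMap _ _ a.num *
          algebraMap _ _ (Polynomial.derivative a.denom)) := by
        conv_lhs => rw [← RatFunc.num_div_denom a]
        rw [Derivation.leibniz_div, hD, hD, smul_eq_mul, smul_eq_mul, smul_eq_mul]
      rw [h1]
      have h2 : Q.ge (-(a.denom.natDegree : ℤ) - a.num.natDegree + 1) (algebraMap _ (RatFunc k) a.denom *
          algebraMap _ _ (Polynomial.derivative a.num) - algebraMap _ _ a.num *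
          algebraMap _ _ (Polynomial.derivative a.denom)) := by
        apply Q.ge_sub
        · exact (Q.ge_mul (hQ.ge_poly a.denom) (hQ.ge_deriv a.num)).mono (by omega)
        · exact (Q.ge_mul (hQ.ge_poly a.num) (hQ.ge_deriv a.denom)).mono (by omega)
      have h3 : Q.ge (2 * a.denom.natDegree : ℤ) ((algebraMap _ (RatFunc k) a.denom)⁻¹ ^ 2) := by
        right
        rw [Q.ord_pow, Q.ord_inv, hQ _ (RatFunc.denom_ne_zero a)]
        push_cast
        linarith
      exact (Q.ge_mul h3 h2).mono (by push_cast; omega)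
    · refine ⟨RatFunc.X⁻¹, inv_ne_zero RatFunc.X_ne_zero, ?_, ?_, ?_⟩
      · rw [Q.ord_inv, hQ.ord_X]; rfl
      · rw [Derivation.leibniz_inv, hpb.D_s]
        simp [RatFunc.X_ne_zero]
      · rw [Derivation.leibniz_inv, hpb.D_s, smul_eq_mul, mul_one, Q.ord_neg, Q.ord_pow, Q.ord_inv,
          hQ.ord_X]
        norm_num
  have hfindiff : ∀ P, P ≠ Q → IsDiff P D 0 := by
    intro P hP
    obtain ⟨c, hc⟩ := Base_exists_C hQ hP
    refine ⟨?_, ?_⟩
    · intro a ha
      have h1 : D a = (algebraMap _ _ a.denom)⁻¹ ^ 2 * (algebraMap _ _ a.denom *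
          algebraMap _ _ (Polynomial.derivative a.num) - algebraMap _ _ a.num *
          algebraMap _ _ (Polynomial.derivative a.denom)) := by
        conv_lhs => rw [← RatFunc.num_div_denom a]
        rw [Derivation.leibniz_div, hD, hD, smul_eq_mul, smul_eq_mul, smul_eq_mul]
      rw [h1]
      have h3 : P.ge 0 ((algebraMap _ (RatFunc k) a.denom)⁻¹ ^ 2) := by
        right
        rw [P.ord_pow, P.ord_inv, hc.ord_denom ha]
        norm_num
      have h4 := P.ge_mul (hc.ge_poly a.denom) (hc.ge_poly (Polynomial.derivative a.num))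
      have h5 := P.ge_mul (hc.ge_poly a.num) (hc.ge_poly (Polynomial.derivative a.denom))
      have h6 := P.ge_mul h3 (P.ge_sub h4 h5)
      simpa using h6
    · refine ⟨algebraMap _ _ (Polynomial.X - Polynomial.C c),
        Base_alg_ne (Polynomial.X_sub_C_ne_zero c), ?_, ?_, ?_⟩
      · rw [hc _ (Polynomial.X_sub_C_ne_zero c), Polynomial.rootMultiplicity_X_sub_C_self]
        rfl
      · rw [hD]; simp
      · rw [hD]; simp [P.ord_one]
  have hreg : ∀ a, a ∈ regSp D → a = 0 := by
    intro a ha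
    apply Base_zero hQ a (fun P hP => by simpa using ha P 0 (hfindiff P hP))
    exact (ha Q _ hinfdiff).mono (by norm_num)
  have hbot : regSp D = ⊥ := by
    rw [eq_bot_iff]
    intro a ha
    rw [Submodule.mem_bot]
    exact hreg a ha
  refine ⟨{
    s := RatFunc.X
    D := D
    sig := σ
    phi := φ
    inf := Q
    gam := 0
    ginv := 0
    pb := hpb
    disc := fun O hO => (ratFunc_disc O hO).imp fun P h => h.1
    inf_s := by rw [hQ.ord_X]; norm_num
    inf_diff := hinfdiff
    fin_s := ?_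
    fin_diff := hfindiff
    fsupp := ?_
    ff := ?_
    sig_s := hσ
    sig_D := ?_
    sig_iter := ?_
    sig_inf := ?_
    phi_const := hφc
    phi_s := hφX
    phi_sig := ?_
    phi_iter := hφi
    gam_mod := dvd_zero _
    pol := ?_
    nopol := ?_
    nolog := ?_
    poles := ?_
    fd := ?_
    dim := ?_
    dimInv := ?_ }, rfl, rfl, hQ.ord_X, ?_, ?_⟩
  · -- fin_s
    intro P hP
    obtain ⟨c, hc⟩ := Base_exists_C hQ hP
    have := hc.ge_poly Polynomial.X
    rwa [Base_alg_X] at this
  · -- fsupp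
    intro a ha
    have h1 := Base_finite_poly a.num (RatFunc.num_ne_zero ha) Q hQ
    have h2 := Base_finite_poly a.denom (RatFunc.denom_ne_zero a) Q hQ
    refine ((h1.union h2).union (Set.finite_singleton Q)).subset ?_
    intro P hP
    by_cases hPQ : P = Q
    · exact Or.inr hPQ
    left
    by_contra h3
    apply hP
    rw [Base_ord P ha]
    have h4 : P.ord (algebraMap _ _ a.num) = 0 := by
      by_contra h; exact h3 (Or.inl ⟨h, hPQ⟩)
    have h5 : P.ord (algebraMap _ _ a.denom) = 0 := by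
      by_contra h; exact h3 (Or.inr ⟨h, hPQ⟩)
    rw [h4, h5, sub_zero]
  · -- ff
    rw [RatFunc.adjoin_X]
    refine ⟨⟨{1}, ?_⟩⟩
    rw [eq_top_iff]
    intro a _
    have : a = (⟨a, IntermediateField.mem_top⟩ : (⊤ : IntermediateField k (RatFunc k))) •
        (1 : RatFunc k) := by
      rw [Algebra.smul_def, mul_one]
      rfl
    rw [this]
    exact Submodule.smul_mem _ _ (Submodule.subset_span (by simp))
  · -- sig_D
    intro a
    rw [← RatFunc.num_div_denom a]
    set u := algebraMap _ (RatFunc k) a.num with hu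
    set v := algebraMap _ (RatFunc k) a.denom with hv
    rw [map_div₀, Derivation.leibniz_div, Derivation.leibniz_div, hu, hσD, ← hu, hv, hσD, ← hv]
    simp only [smul_eq_mul, map_mul, map_pow, map_inv₀, map_sub, Base_smul]
    ring
  · -- sig_iter
    intro a
    have h1 : ∀ n : ℕ, ∀ b : RatFunc k, σ^[n] b = ((σ : RatFunc k →+* RatFunc k) ^ n) b := by
      intro n b
      induction n with
      | zero => rfl
      | succ n ih =>
        rw [Function.iterate_succ_apply', ih, pow_succ']
        rfl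
    rw [h1]
    refine Base_ext ((σ : RatFunc k →+* RatFunc k) ^ (p - 1)) (RingHom.id _) ?_ ?_ a
    · intro c
      rw [← h1, hσiter]
      rfl
    · rw [← h1, hσiterX, hζ.pow_eq_one, one_smul]
      rfl
  · -- sig_inf
    intro a
    by_cases ha : a = 0
    · rw [ha, map_zero]
    have h3 : σ a = σ (algebraMap _ _ a.num) / σ (algebraMap _ _ a.denom) := by
      rw [← map_div₀, RatFunc.num_div_denom]
    have hinj : Function.Injective σ := σ.toRingHom.injective
    rw [h3, Q.ord_div ((map_ne_zero_iff _ hinj).2 (Base_alg_ne (RatFunc.num_ne_zero ha)))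
      ((map_ne_zero_iff _ hinj).2 (Base_alg_ne (RatFunc.denom_ne_zero a))),
      hσord _ (RatFunc.num_ne_zero ha), hσord _ (RatFunc.denom_ne_zero a), ← Base_ord Q ha]
  · -- phi_sig
    intro a
    refine Base_ext (φ.comp (σ : RatFunc k →+* RatFunc k)) ((σ : RatFunc k →+* RatFunc k).comp φ)
      ?_ ?_ a
    · intro c
      show φ (σ (algebraMap k _ c)) = σ (φ (algebraMap k _ c))
      rw [hσc, hφc, hσc]
    · show φ (σ RatFunc.X) = σ (φ RatFunc.X)
      have hzp : ζ ^ p = ζ := by
        have h1 : p = (p - 1) + 1 := by have := hp.two_le; omega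
        conv_lhs => rw [h1]
        rw [pow_succ, hζ.pow_eq_one, one_mul]
      rw [hφX, hσ, Base_smul, map_mul, hφc, hφX, hzp]
  · -- pol
    intro n _
    refine ⟨RatFunc.X ^ n, pow_ne_zero _ RatFunc.X_ne_zero, ?_, ?_, ?_, ?_⟩
    · intro P hP
      obtain ⟨c, hc⟩ := Base_exists_C hQ hP
      have := hc.ge_poly (Polynomial.X ^ n)
      rwa [map_pow, Base_alg_X] at this
    · rw [Q.ord_pow, hQ.ord_X]; ring
    · rw [map_pow, hσ, smul_pow]
    · rw [map_pow, hφX]
  · -- nopol
    intro c hc0 hc h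
    obtain ⟨f, rfl⟩ := Base_poly hQ c hc
    have hf : f ≠ 0 := by rintro rfl; exact hc0 (map_zero _)
    rw [hQ f hf] at h
    push_cast at h
    omega
  · -- nolog
    intro a _ ha h
    exact Base_zero hQ a ha (h.mono (by norm_num))
  · -- poles
    intro P hP n
    obtain ⟨c, hc⟩ := Base_exists_C hQ hP
    refine ⟨(algebraMap _ _ (Polynomial.X - Polynomial.C c))⁻¹ ^ n,
      pow_ne_zero _ (inv_ne_zero (Base_alg_ne (Polynomial.X_sub_C_ne_zero c))), ?_, ?_⟩
    · rw [P.ord_pow, P.ord_inv, hc _ (Polynomial.X_sub_C_ne_zero c),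
        Polynomial.rootMultiplicity_X_sub_C_self]
      ring
    · intro P' hP' hPP'
      obtain ⟨c', hc'⟩ := Base_exists_C hQ hP'
      right
      have hne : c' ≠ c := by
        rintro rfl
        exact hPP' (hc'.eq hc)
      rw [P'.ord_pow, P'.ord_inv, hc' _ (Polynomial.X_sub_C_ne_zero c),
        Polynomial.rootMultiplicity_eq_zero]
      · simp
      · simpa [sub_eq_zero] using hne
  · -- fd
    show Module.Finite k (regSp D)
    rw [hbot]
    infer_instance
  · -- dim
    show 2 * Module.finrank k (regSp D) = 0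
    rw [hbot]
    simp
  · -- dimInv
    show Module.finrank k (regSp D ⊓ wtSp σ ζ⁻¹ : Submodule k (RatFunc k)) = 0
    rw [hbot, bot_inf_eq]
    simp
  · intro P P' hP hP' h
    obtain ⟨c, hc⟩ := Base_exists_C hQ hP
    obtain ⟨c', hc'⟩ := Base_exists_C hQ hP'
    have h1 := hc.val_X
    have h2 := hc'.val_X
    have h3 : c = c' := by rw [← h1, ← h2]; exact h
    subst h3
    exact hc.eq hc'
  · intro c
    obtain ⟨P, hP'⟩ := exists_plc_C c
    have hP : Base_IsC P c := hP'
    exact ⟨P, hP.ne_inf hQ, hP.val_X⟩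

end Pool.Agent.PRB
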