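import Pool.Agent.LibPRB.Plc

/-! # The places of `k(X)` -/

set_option autoImplicit false

namespace Pool.Agent.PRB

variable {k : Type} [Field k] [IsAlgClosed k]

open Polynomial in
omit [IsAlgClosed k] in
theorem Base1_exists (v : Polynomial k → ℤ)
    (hmul : ∀ f g, f ≠ 0 → g ≠ 0 → v (f * g) = v f + v g)
    (hadd : ∀ f g, f ≠ 0 → g ≠ 0 → f + g ≠ 0 → min (v f) (v g) ≤ v (f + g))
    (hC : ∀ c : k, c ≠ 0 → v (C c) = 0)
    (hunif : ∃ f g, f ≠ 0 ∧ g ≠ 0 ∧ v f - v g = 1)
    (hres : ∀ f g, f ≠ 0 → g ≠ 0 → v f = v g →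
      ∃ c : k, f - C c * g = 0 ∨ v g < v (f - C c * g)) :
    ∃ P : Plc k (RatFunc k), ∀ f : Polynomial k, f ≠ 0 →
      P.ord (algebraMap _ (RatFunc k) f) = v f := by
  classical
  have inj : ∀ f : Polynomial k, algebraMap (Polynomial k) (RatFunc k) f = 0 ↔ f = 0 := fun f => by
    rw [← map_zero (algebraMap (Polynomial k) (RatFunc k))]
    exact (RatFunc.algebraMap_injective k).eq_iff
  set o : RatFunc k → ℤ := fun a => if a = 0 then 0 else v a.num - v a.denom with ho
  have key : ∀ f g : Polynomial k, f ≠ 0 → g ≠ 0 →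
      o (algebraMap _ (RatFunc k) f / algebraMap _ (RatFunc k) g) = v f - v g := by
    intro f g hf hg
    have hf' : algebraMap _ (RatFunc k) f ≠ 0 := (inj f).not.mpr hf
    have hg' : algebraMap _ (RatFunc k) g ≠ 0 := (inj g).not.mpr hg
    set x : RatFunc k := algebraMap _ (RatFunc k) f / algebraMap _ (RatFunc k) g with hx
    have hx0 : x ≠ 0 := div_ne_zero hf' hg'
    have hn0 : x.num ≠ 0 := RatFunc.num_ne_zero hx0
    have hd0 : x.denom ≠ 0 := RatFunc.denom_ne_zero x
    have hd0' : algebraMap _ (RatFunc k) x.denom ≠ 0 := (inj _).not.mpr hd0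
    have h1 : algebraMap _ (RatFunc k) x.num / algebraMap _ (RatFunc k) x.denom =
        algebraMap _ (RatFunc k) f / algebraMap _ (RatFunc k) g := by
      rw [RatFunc.num_div_denom]
    rw [div_eq_div_iff hd0' hg', ← map_mul, ← map_mul] at h1
    have h2 := RatFunc.algebraMap_injective k h1
    have h3 := hmul _ _ hn0 hg
    have h4 := hmul _ _ hf hd0
    rw [h2] at h3
    have h5 : o x = v x.num - v x.denom := by simp only [ho]; rw [if_neg hx0]
    rw [h5]
    linarith
  have rep : ∀ a : RatFunc k, a ≠ 0 → ∃ f g : Polynomial k, f ≠ 0 ∧ g ≠ 0 ∧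
      a = algebraMap _ (RatFunc k) f / algebraMap _ (RatFunc k) g := by
    intro a ha
    exact ⟨a.num, a.denom, RatFunc.num_ne_zero ha, RatFunc.denom_ne_zero a,
      (RatFunc.num_div_denom a).symm⟩
  have v1 : v 1 = 0 := by
    have := hC 1 one_ne_zero
    rwa [map_one] at this
  have keyP : ∀ f : Polynomial k, f ≠ 0 → o (algebraMap _ (RatFunc k) f) = v f := by
    intro f hf
    have := key f 1 hf one_ne_zero
    rwa [map_one, div_one, v1, sub_zero] at this
  refine ⟨⟨o, ?_, ?_, ?_, ?_, ?_, ?_⟩, keyP⟩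
  · simp [ho]
  · intro a b ha hb
    obtain ⟨f, g, hf, hg, rfl⟩ := rep a ha
    obtain ⟨f', g', hf', hg', rfl⟩ := rep b hb
    rw [div_mul_div_comm, ← map_mul, ← map_mul, key _ _ (mul_ne_zero hf hf') (mul_ne_zero hg hg'),
      key _ _ hf hg, key _ _ hf' hg', hmul _ _ hf hf', hmul _ _ hg hg']
    ring
  · intro a b ha hb hab
    obtain ⟨f, g, hf, hg, rfl⟩ := rep a ha
    obtain ⟨f', g', hf', hg', rfl⟩ := rep b hb
    have hg1 : algebraMap _ (RatFunc k) g ≠ 0 := (inj g).not.mpr hg
    have hg1' : algebraMap _ (RatFunc k) g' ≠ 0 := (inj g').not.mpr hg'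
    rw [div_add_div _ _ hg1 hg1', ← map_mul, ← map_mul, ← map_mul, ← map_add] at hab ⊢
    have hs : f * g' + g * f' ≠ 0 := by
      intro h
      rw [h, map_zero, zero_div] at hab
      exact hab rfl
    rw [key _ _ hs (mul_ne_zero hg hg'), key _ _ hf hg, key _ _ hf' hg', hmul _ _ hg hg']
    have h1 := hadd _ _ (mul_ne_zero hf hg') (mul_ne_zero hg hf') hs
    rw [hmul _ _ hf hg', hmul _ _ hg hf'] at h1
    rcases min_le_iff.mp h1 with h2 | h2
    · exact (min_le_left _ _).trans (by linarith)
    · exact (min_le_right _ _).trans (by linarith)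
  · obtain ⟨f, g, hf, hg, h⟩ := hunif
    exact ⟨_, div_ne_zero ((inj f).not.mpr hf) ((inj g).not.mpr hg), by rw [key f g hf hg, h]⟩
  · intro c
    by_cases hc : c = 0
    · rw [hc, map_zero]; simp [ho]
    · have h1 : algebraMap k (RatFunc k) c = algebraMap _ (RatFunc k) (C c) :=
        IsScalarTower.algebraMap_apply k (Polynomial k) (RatFunc k) c
      rw [h1, keyP _ (C_ne_zero.mpr hc), hC c hc]
  · intro a ha h0
    obtain ⟨f, g, hf, hg, rfl⟩ := rep a ha
    have hg1 : algebraMap _ (RatFunc k) g ≠ 0 := (inj g).not.mpr hg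
    have h0' : v f = v g := by
      have h1 : o (algebraMap _ (RatFunc k) f / algebraMap _ (RatFunc k) g) = 0 := h0
      rw [key f g hf hg] at h1
      linarith
    obtain ⟨c, hc⟩ := hres f g hf hg h0'
    have h1 : algebraMap k (RatFunc k) c = algebraMap _ (RatFunc k) (C c) :=
      IsScalarTower.algebraMap_apply k (Polynomial k) (RatFunc k) c
    have h2 : algebraMap _ (RatFunc k) f / algebraMap _ (RatFunc k) g - algebraMap k (RatFunc k) c
        = algebraMap _ (RatFunc k) (f - C c * g) / algebraMap _ (RatFunc k) g := by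
      rw [h1, map_sub, map_mul, sub_div, mul_div_assoc, div_self hg1, mul_one]
    refine ⟨c, ?_⟩
    by_cases hz : f - C c * g = 0
    · left
      rw [h2, hz, map_zero, zero_div]
    · right
      change 0 < o _
      rw [h2, key _ _ hz hg]
      rcases hc with hc | hc
      · exact absurd hc hz
      · linarith

/-- The place `X = c` of `k(X)`. -/
theorem exists_plc_C (c : k) : ∃ P : Plc k (RatFunc k),
    ∀ f : Polynomial k, f ≠ 0 → P.ord (algebraMap _ (RatFunc k) f) = f.rootMultiplicity c := by
  refine Base1_exists (fun f => (f.rootMultiplicity c : ℤ)) ?_ ?_ ?_ ?_ ?_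
  · intro f g hf hg
    rw [Polynomial.rootMultiplicity_mul (mul_ne_zero hf hg)]
    push_cast
    ring
  · intro f g hf hg hfg
    have := Polynomial.rootMultiplicity_add c hfg
    rw [← Nat.cast_min]
    exact_mod_cast this
  · intro d hd
    rw [Polynomial.rootMultiplicity_C]
    rfl
  · refine ⟨Polynomial.X - Polynomial.C c, 1, Polynomial.X_sub_C_ne_zero c, one_ne_zero, ?_⟩
    rw [Polynomial.rootMultiplicity_X_sub_C_self, ← Polynomial.C_1, Polynomial.rootMultiplicity_C]
    norm_num
  · intro f g hf hg h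
    have h' : f.rootMultiplicity c = g.rootMultiplicity c := by exact_mod_cast h
    obtain ⟨f', hf1, hf2⟩ := Polynomial.exists_eq_pow_rootMultiplicity_mul_and_not_dvd f hf c
    obtain ⟨g', hg1, hg2⟩ := Polynomial.exists_eq_pow_rootMultiplicity_mul_and_not_dvd g hg c
    rw [Polynomial.dvd_iff_isRoot, Polynomial.IsRoot.def] at hg2
    refine ⟨f'.eval c / g'.eval c, ?_⟩
    set d := f'.eval c / g'.eval c with hd
    by_cases hz : f - Polynomial.C d * g = 0
    · exact Or.inl hz
    · right
      have h3 : (Polynomial.X - Polynomial.C c) ∣ (f' - Polynomial.C d * g') := by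
        rw [Polynomial.dvd_iff_isRoot, Polynomial.IsRoot.def, Polynomial.eval_sub,
          Polynomial.eval_mul, Polynomial.eval_C, hd, div_mul_cancel₀ _ hg2, sub_self]
      have h4 : f - Polynomial.C d * g =
          (Polynomial.X - Polynomial.C c) ^ g.rootMultiplicity c * (f' - Polynomial.C d * g') := by
        rw [h'] at hf1
        have h7 : f - Polynomial.C d * g =
            (Polynomial.X - Polynomial.C c) ^ g.rootMultiplicity c * f' - Polynomial.C d *
              ((Polynomial.X - Polynomial.C c) ^ g.rootMultiplicity c * g') := by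
          rw [← hf1, ← hg1]
        rw [h7]
        ring
      have h5 : (Polynomial.X - Polynomial.C c) ^ (g.rootMultiplicity c + 1) ∣
          f - Polynomial.C d * g := by
        rw [h4, pow_succ]
        exact mul_dvd_mul_left _ h3
      rw [← Polynomial.le_rootMultiplicity_iff hz] at h5
      have h6 : g.rootMultiplicity c < (f - Polynomial.C d * g).rootMultiplicity c := h5
      exact_mod_cast h6

/-- The place at infinity of `k(X)`. -/
theorem exists_plc_inf : ∃ P : Plc k (RatFunc k),
    ∀ f : Polynomial k, f ≠ 0 → P.ord (algebraMap _ (RatFunc k) f) = - f.natDegree := by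
  refine Base1_exists (fun f => -(f.natDegree : ℤ)) ?_ ?_ ?_ ?_ ?_
  · intro f g hf hg
    rw [Polynomial.natDegree_mul hf hg]
    push_cast
    ring
  · intro f g hf hg hfg
    have := Polynomial.natDegree_add_le f g
    rw [min_neg_neg, neg_le_neg_iff]
    exact_mod_cast this
  · intro d hd
    rw [Polynomial.natDegree_C]
    norm_num
  · refine ⟨1, Polynomial.X, one_ne_zero, Polynomial.X_ne_zero, ?_⟩
    rw [Polynomial.natDegree_X, Polynomial.natDegree_one]
    norm_num
  · intro f g hf hg h
    have h' : f.natDegree = g.natDegree := by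
      have h1 : -(f.natDegree : ℤ) = -(g.natDegree : ℤ) := h
      omega
    have hlg : g.leadingCoeff ≠ 0 := Polynomial.leadingCoeff_ne_zero.mpr hg
    have hlf : f.leadingCoeff ≠ 0 := Polynomial.leadingCoeff_ne_zero.mpr hf
    refine ⟨f.leadingCoeff / g.leadingCoeff, ?_⟩
    set d := f.leadingCoeff / g.leadingCoeff with hd
    have hd0 : d ≠ 0 := div_ne_zero hlf hlg
    by_cases hz : f - Polynomial.C d * g = 0
    · exact Or.inl hz
    · right
      have h1 : f.degree = (Polynomial.C d * g).degree := by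
        rw [Polynomial.degree_C_mul hd0, Polynomial.degree_eq_natDegree hf,
          Polynomial.degree_eq_natDegree hg, h']
      have h2 : f.leadingCoeff = (Polynomial.C d * g).leadingCoeff := by
        rw [Polynomial.leadingCoeff_mul, Polynomial.leadingCoeff_C, hd, div_mul_cancel₀ _ hlg]
      have h3 := Polynomial.degree_sub_lt_left h1 hf h2
      have h4 : (f - Polynomial.C d * g).natDegree < f.natDegree :=
        Polynomial.natDegree_lt_natDegree hz h3
      rw [h'] at h4
      have h5 : ((f - Polynomial.C d * g).natDegree : ℤ) < g.natDegree := by exact_mod_cast h4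
      linarith

end Pool.Agent.PRB
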