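import Pool.Agent.LibPRB.Base1

/-! # All places of `k(X)` -/

set_option autoImplicit false

namespace Pool.Agent.PRB

variable {k : Type} [Field k] [IsAlgClosed k]

theorem Base2_const (O : ValuationSubring (RatFunc k)) (hO : IsPl k O) {a : k} (ha : a ≠ 0) :
    O.valuation (algebraMap _ (RatFunc k) (Polynomial.C a)) = 1 := by
  have e : ∀ b : k, algebraMap (Polynomial k) (RatFunc k) (Polynomial.C b) =
      algebraMap k (RatFunc k) b := fun b => by
    rw [RatFunc.algebraMap_C, RatFunc.algebraMap_eq_C]
  have h1 : O.valuation (algebraMap _ (RatFunc k) (Polynomial.C a)) ≤ 1 := by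
    rw [ValuationSubring.valuation_le_one_iff, e]
    exact hO.1 a
  have h2 : O.valuation (algebraMap _ (RatFunc k) (Polynomial.C a⁻¹)) ≤ 1 := by
    rw [ValuationSubring.valuation_le_one_iff, e]
    exact hO.1 a⁻¹
  have h3 : O.valuation (algebraMap _ (RatFunc k) (Polynomial.C a)) *
      O.valuation (algebraMap _ (RatFunc k) (Polynomial.C a⁻¹)) = 1 := by
    rw [← map_mul, ← map_mul, ← map_mul, mul_inv_cancel₀ ha, map_one, map_one, map_one]
  refine le_antisymm h1 ?_
  rw [← h3]
  exact mul_le_of_le_one_right' h2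

theorem Base2_poly (O : ValuationSubring (RatFunc k)) (hO : IsPl k O)
    (hX : O.valuation (algebraMap _ (RatFunc k) (Polynomial.X : Polynomial k)) ≤ 1)
    (f : Polynomial k) : O.valuation (algebraMap _ (RatFunc k) f) ≤ 1 := by
  induction f using Polynomial.induction_on' with
  | add f g hf hg =>
    rw [map_add]
    exact (O.valuation.map_add _ _).trans (max_le hf hg)
  | monomial n a =>
    rw [← Polynomial.C_mul_X_pow_eq_monomial, map_mul, map_mul, map_pow, map_pow]
    by_cases ha : a = 0
    · subst ha; simp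
    · rw [Base2_const O hO ha, one_mul]
      exact pow_le_one₀ zero_le hX

theorem Base2_caseA (O : ValuationSubring (RatFunc k)) (hO : IsPl k O)
    (hX : O.valuation (algebraMap _ (RatFunc k) (Polynomial.X : Polynomial k)) ≤ 1) :
    ∃ c : k, O.valuation (algebraMap _ (RatFunc k) (Polynomial.X - Polynomial.C c)) < 1 := by
  by_contra hcon
  push Not at hcon
  have hall : ∀ (n : ℕ) (f : Polynomial k), f.natDegree = n → f ≠ 0 →
      1 ≤ O.valuation (algebraMap _ (RatFunc k) f) := by
    intro n
    induction n with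
    | zero =>
      intro f hf hf0
      rw [Polynomial.eq_C_of_natDegree_eq_zero hf] at hf0 ⊢
      rw [Base2_const O hO (by simpa using hf0)]
    | succ n ih =>
      intro f hf hf0
      obtain ⟨c, hc⟩ := IsAlgClosed.exists_root f (by
        intro h
        rw [Polynomial.degree_eq_natDegree hf0, hf] at h
        exact absurd h (by norm_cast))
      obtain ⟨q, rfl⟩ := Polynomial.dvd_iff_isRoot.2 hc
      have hq0 : q ≠ 0 := right_ne_zero_of_mul hf0
      rw [Polynomial.natDegree_mul (Polynomial.X_sub_C_ne_zero c) hq0,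
        Polynomial.natDegree_X_sub_C] at hf
      rw [map_mul, map_mul]
      exact one_le_mul (hcon c) (ih q (by omega) hq0)
  apply hO.2
  rw [eq_top_iff]
  intro r _
  by_cases hr : r = 0
  · subst hr; exact O.zero_mem
  rw [← ValuationSubring.valuation_le_one_iff, ← RatFunc.num_div_denom r, map_div₀]
  have h1 := Base2_poly O hO hX r.num
  have h2 := hall _ r.denom rfl r.denom_ne_zero
  have h3 : (0 : O.ValueGroup) < O.valuation (algebraMap _ (RatFunc k) r.denom) :=
    lt_of_lt_of_le zero_lt_one h2
  exact (div_le_one₀ h3).2 (h1.trans h2)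

theorem Base2_ord (P : Plc k (RatFunc k)) (O : ValuationSubring (RatFunc k)) (π : O.ValueGroup)
    (d : Polynomial k → ℕ) (s : ℤ)
    (hP : ∀ f : Polynomial k, f ≠ 0 → P.ord (algebraMap _ (RatFunc k) f) = s * d f)
    (hO : ∀ f : Polynomial k, f ≠ 0 → O.valuation (algebraMap _ (RatFunc k) f) = π ^ (d f))
    (hd : ∀ m n : ℕ, π ^ m ≤ π ^ n ↔ s * n ≤ s * m) (hπ : π ≠ 0) : P.ring = O := by
  ext r
  by_cases hr : r = 0
  · subst hr
    exact ⟨fun _ => O.zero_mem, fun _ => P.ge_zero 0⟩
  rw [P.mem_ring, P.ge_iff hr]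
  have hn := RatFunc.num_ne_zero hr
  have hdn := r.denom_ne_zero
  have hn' : algebraMap _ (RatFunc k) r.num ≠ 0 := by simpa using hn
  have hd' : algebraMap _ (RatFunc k) r.denom ≠ 0 := by simpa using hdn
  rw [← ValuationSubring.valuation_le_one_iff, ← RatFunc.num_div_denom r, map_div₀,
    P.ord_div hn' hd', hP _ hn, hP _ hdn, hO _ hn, hO _ hdn,
    div_le_one₀ (zero_lt_iff.2 (pow_ne_zero _ hπ)), hd]
  constructor <;> intro h <;> linarith

/-- All places of `k(X)`. -/
theorem ratFunc_disc (O : ValuationSubring (RatFunc k)) (hO : IsPl k O) :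
    ∃ P : Plc k (RatFunc k), P.ring = O ∧
      ((∃ c, ∀ f : Polynomial k, f ≠ 0 →
        P.ord (algebraMap _ (RatFunc k) f) = f.rootMultiplicity c) ∨
      (∀ f : Polynomial k, f ≠ 0 → P.ord (algebraMap _ (RatFunc k) f) = - f.natDegree)) := by
  by_cases hX : O.valuation (algebraMap _ (RatFunc k) (Polynomial.X : Polynomial k)) ≤ 1
  · obtain ⟨c, hc⟩ := Base2_caseA O hO hX
    obtain ⟨P, hP⟩ := exists_plc_C c
    refine ⟨P, ?_, Or.inl ⟨c, hP⟩⟩
    have hXc0 : algebraMap _ (RatFunc k) (Polynomial.X - Polynomial.C c) ≠ 0 :=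
      RatFunc.algebraMap_ne_zero (Polynomial.X_sub_C_ne_zero c)
    have hunit : ∀ f : Polynomial k, f.eval c ≠ 0 →
        O.valuation (algebraMap _ (RatFunc k) f) = 1 := by
      intro f hf
      obtain ⟨q, hq⟩ := Polynomial.dvd_iff_isRoot.2
        (show (f - Polynomial.C (f.eval c)).IsRoot c by simp)
      have e : f = Polynomial.C (f.eval c) + (Polynomial.X - Polynomial.C c) * q := by
        rw [← hq]; ring
      rw [e, map_add]
      have h1 := Base2_const O hO hf
      have h2 : O.valuation (algebraMap _ (RatFunc k)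
          ((Polynomial.X - Polynomial.C c) * q)) < 1 := by
        rw [map_mul, map_mul]
        exact mul_lt_one_of_lt_of_le hc (Base2_poly O hO hX q)
      rw [Valuation.map_add_eq_of_lt_left _ (by rw [h1]; exact h2), h1]
    refine Base2_ord P O _ (fun f => f.rootMultiplicity c) 1
      (fun f hf => by rw [hP f hf]; ring) (fun f hf => ?_) (fun m n => ?_)
      ((Valuation.ne_zero_iff O.valuation).2 hXc0)
    · obtain ⟨g, hg, hg2⟩ := Polynomial.exists_eq_pow_rootMultiplicity_mul_and_not_dvd f hf c
      have hge : g.eval c ≠ 0 := fun h => hg2 (Polynomial.dvd_iff_isRoot.2 h)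
      conv_lhs => rw [hg]
      rw [map_mul, map_mul, hunit g hge, mul_one, map_pow, map_pow]
    · rw [pow_le_pow_iff_right_of_lt_one₀
        (zero_lt_iff.2 ((Valuation.ne_zero_iff O.valuation).2 hXc0)) hc]
      simp
  · push Not at hX
    obtain ⟨P, hP⟩ := exists_plc_inf (k := k)
    refine ⟨P, ?_, Or.inr hP⟩
    have hX0 : O.valuation (algebraMap _ (RatFunc k) (Polynomial.X : Polynomial k)) ≠ 0 :=
      (lt_trans zero_lt_one hX).ne'
    have hdeg : ∀ (n : ℕ) (f : Polynomial k), f.natDegree = n → f ≠ 0 →
        O.valuation (algebraMap _ (RatFunc k) f) =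
          O.valuation (algebraMap _ (RatFunc k) (Polynomial.X : Polynomial k)) ^ n := by
      intro n
      induction n using Nat.strong_induction_on with
      | _ n ih =>
        intro f hf hf0
        have e := Polynomial.eraseLead_add_C_mul_X_pow f
        have h1 : O.valuation (algebraMap _ (RatFunc k)
            (Polynomial.C f.leadingCoeff * Polynomial.X ^ f.natDegree)) =
            O.valuation (algebraMap _ (RatFunc k) (Polynomial.X : Polynomial k)) ^ n := by
          rw [map_mul, map_mul, Base2_const O hO (Polynomial.leadingCoeff_ne_zero.2 hf0), one_mul,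
            map_pow, map_pow, hf]
        rw [← e, map_add]
        by_cases h0 : f.eraseLead = 0
        · rw [h0, map_zero, zero_add, h1]
        · have h2 : f.eraseLead.natDegree < f.natDegree :=
            (Polynomial.eraseLead_natDegree_lt_or_eraseLead_eq_zero f).resolve_right h0
          rw [Valuation.map_add_eq_of_lt_right _ ?_, h1]
          rw [h1, ih _ (by omega) f.eraseLead rfl h0]
          exact pow_lt_pow_right₀ hX (by omega)
    refine Base2_ord P O _ (fun f => f.natDegree) (-1)
      (fun f hf => by rw [hP f hf]; ring) (fun f hf => hdeg _ f rfl hf) (fun m n => ?_) hX0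
    rw [pow_le_pow_iff_right₀ hX]
    omega

end Pool.Agent.PRB
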