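import Pool.Agent.LibPRB.Box1

/-! # Bookkeeping for the box theorem, II -/

set_option autoImplicit false

namespace Pool.Agent.PRB

theorem Box2_cards {k : Type} [DecidableEq k] (F0 F1 F2 C A' B : Finset k) (τ a0 : k)
    (hA : A' ⊆ F0) (hB : B ⊆ F1) (hτ : τ ∈ A') (ha0 : a0 ∈ A') (hne : a0 ≠ τ)
    {M : Type} [AddCommMonoid M] (G : Fin 8 → ℕ → M) :
    ∑ i, G i (boxS F0 F1 F2 C A' B τ a0 i).card =
      G 0 (F0.card - A'.card) + G 1 (A'.card - 2) + G 2 1 + G 3 1 + G 4 (F1.card - B.card) +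
        G 5 B.card + G 6 F2.card + G 7 C.card := by
  rw [Fin.sum_univ_eight]
  have h0 : (boxS F0 F1 F2 C A' B τ a0 0).card = F0.card - A'.card :=
    Finset.card_sdiff_of_subset hA
  have h1 : (boxS F0 F1 F2 C A' B τ a0 1).card = A'.card - 2 := by
    change ((A'.erase τ).erase a0).card = _
    rw [Finset.card_erase_of_mem (Finset.mem_erase.2 ⟨hne, ha0⟩), Finset.card_erase_of_mem hτ]
    omega
  have h2 : (boxS F0 F1 F2 C A' B τ a0 2).card = 1 := Finset.card_singleton _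
  have h3 : (boxS F0 F1 F2 C A' B τ a0 3).card = 1 := Finset.card_singleton _
  have h4 : (boxS F0 F1 F2 C A' B τ a0 4).card = F1.card - B.card :=
    Finset.card_sdiff_of_subset hB
  have h5 : (boxS F0 F1 F2 C A' B τ a0 5).card = B.card := rfl
  have h6 : (boxS F0 F1 F2 C A' B τ a0 6).card = F2.card := rfl
  have h7 : (boxS F0 F1 F2 C A' B τ a0 7).card = C.card := rfl
  rw [h0, h1, h2, h3, h4, h5, h6, h7]

theorem Box2_prod {k : Type} [DecidableEq k] (F0 F1 F2 C A' B : Finset k) (τ a0 : k)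
    (hA : A' ⊆ F0) (hB : B ⊆ F1) (hτ : τ ∈ A') (ha0 : a0 ∈ A') (hne : a0 ≠ τ)
    {M : Type} [CommMonoid M] (G : k → M) (e0 e1 e2 : ℕ) (e : Fin 8 → ℕ)
    (he : e = ![e0, e0, e0, e0, e1, e1, e2, 0]) :
    ∏ i, (∏ c ∈ boxS F0 F1 F2 C A' B τ a0 i, G c) ^ e i =
      (∏ c ∈ F0, G c) ^ e0 * (∏ c ∈ F1, G c) ^ e1 * (∏ c ∈ F2, G c) ^ e2 := by
  have h1 : ∏ c ∈ F0, G c =
      (∏ c ∈ F0 \ A', G c) * ((∏ c ∈ (A'.erase τ).erase a0, G c) * G a0 * G τ) := by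
    rw [← Finset.prod_sdiff hA]
    congr 1
    rw [← Finset.prod_erase_mul A' G hτ,
      ← Finset.prod_erase_mul (A'.erase τ) G (Finset.mem_erase.2 ⟨hne, ha0⟩)]
  have h2 : ∏ c ∈ F1, G c = (∏ c ∈ F1 \ B, G c) * ∏ c ∈ B, G c := by
    rw [← Finset.prod_sdiff hB]
  rw [Fin.prod_univ_eight, he]
  change (∏ c ∈ F0 \ A', G c) ^ e0 * (∏ c ∈ (A'.erase τ).erase a0, G c) ^ e0 *
    (∏ c ∈ ({a0} : Finset k), G c) ^ e0 * (∏ c ∈ ({τ} : Finset k), G c) ^ e0 *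
    (∏ c ∈ F1 \ B, G c) ^ e1 * (∏ c ∈ B, G c) ^ e1 * (∏ c ∈ F2, G c) ^ e2 *
    (∏ c ∈ C, G c) ^ 0 = _
  rw [h1, h2, Finset.prod_singleton, Finset.prod_singleton, pow_zero, mul_one]
  simp only [mul_pow, mul_assoc]

end Pool.Agent.PRB
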