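import Mathlib

/-!
# The fibres of `ell = (X ^ p - X) ∘ (X ^ p - X)`

PLAN. `ell = X ^ (p^2) - 2 X ^ p + X` (Frobenius is additive), `ell (x) = (x^p - x)^p - (x^p - x)`.
`ell_fib_prod`: `derivative ell = 1` (char `p`), so `ell - C b` is separable (`Polynomial.Separable`, coprime to its
derivative `1`), monic of degree `p^2`, and it splits over the algebraically closed `k`:
`Polynomial.prod_multiset_X_sub_C_of_monic_of_roots_card_eq` or `eq_prod_roots_of_monic_of_splits_id`, `nodup_roots`.
`fib_card`: degree.  `fib_pow`: `ell (x^p) = ell (x)^p = b^p = b`.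
`fib_iter`: with `F x = x ^ p` (additive, `F b = b`): `(F - 1)^2 x = b`, so `(F - 1)^3 x = 0`, so
`(F - 1)^p x = 0` (`p ≥ 3`), and `(F - 1)^p = F^p - 1` (e.g. in `Module.End (ZMod p) k`: `sub_pow_char` for
commuting elements, `Commute.sub_pow_char...`, or `sub_pow_char_of_commute`; or directly: `y = x^p - x`,
`y^p = y + b`, `x^(p^i) = x + i y + (i (i-1)/2) b` by induction, and `p ∣ p`, `p ∣ p (p-1)/2` for `p` odd).
`fib_zero`: `x ^ p = x` gives `ell x = 0`.
-/

set_option autoImplicit false

namespace Pool.Agent.PRB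

open Polynomial

/-- `ell = ℘ ∘ ℘`, `℘ = X ^ p - X` -/
noncomputable def ell (p : ℕ) (k : Type) [Field k] : k[X] := (X ^ p - X : k[X]).comp (X ^ p - X)

open Classical in
/-- The fibre of `ell` over `b`. -/
noncomputable def fib (p : ℕ) {k : Type} [Field k] (b : k) : Finset k :=
  (ell p k - C b).roots.toFinset

variable {p : ℕ} [Fact p.Prime] {k : Type} [Field k] [IsAlgClosed k] [CharP k p]

omit [IsAlgClosed k] [CharP k p] in
private theorem BoxA_deg : (X ^ p - X : k[X]).natDegree = p :=
  FiniteField.X_pow_card_sub_X_natDegree_eq k (Fact.out : p.Prime).one_lt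

omit [IsAlgClosed k] [CharP k p] in
private theorem BoxA_mon : (X ^ p - X : k[X]).Monic := by
  apply (monic_X_pow p).sub_of_left
  rw [degree_X, degree_X_pow]
  exact_mod_cast (Fact.out : p.Prime).one_lt

omit [IsAlgClosed k] [CharP k p] in
private theorem BoxA_eval (x : k) :
    (ell p k).eval x = (x ^ p - x) ^ p - (x ^ p - x) := by
  simp [ell, eval_comp]

theorem ell_natDegree : (ell p k).natDegree = p ^ 2 := by
  unfold ell
  rw [natDegree_comp, BoxA_deg, sq]

theorem ell_monic : (ell p k).Monic := by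
  unfold ell
  apply Monic.comp BoxA_mon BoxA_mon
  rw [BoxA_deg]
  exact (Fact.out : p.Prime).ne_zero

private theorem BoxA_mon' (b : k) : (ell p k - C b).Monic := by
  apply ell_monic.sub_of_left
  have h1 : (ell p k).degree = ((p ^ 2 : ℕ) : WithBot ℕ) := by
    rw [degree_eq_natDegree ell_monic.ne_zero, ell_natDegree]
  rw [h1]
  refine lt_of_le_of_lt degree_C_le ?_
  have : 0 < p ^ 2 := pow_pos (Fact.out : p.Prime).pos 2
  exact_mod_cast this

private theorem BoxA_sep (b : k) : (ell p k - C b).Separable := by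
  have h1 : derivative (ell p k - C b) = 1 := by
    unfold ell
    rw [derivative_sub, derivative_C, sub_zero, derivative_comp]
    have h2 : derivative (X ^ p - X : k[X]) = -1 := by
      rw [derivative_sub, derivative_X_pow, derivative_X, CharP.cast_eq_zero k p]
      simp
    rw [h2]
    simp
  rw [separable_def, h1]
  exact isCoprime_one_right

theorem mem_fib (b x : k) : x ∈ fib p b ↔ (ell p k).eval x = b := by
  classical
  unfold fib
  rw [Multiset.mem_toFinset, mem_roots (BoxA_mon' b).ne_zero, IsRoot.def, eval_sub, eval_C,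
    sub_eq_zero]

theorem ell_fib_prod (b : k) : ∏ c ∈ fib p b, (X - C c : k[X]) = ell p k - C b := by
  classical
  have hnd : (ell p k - C b).roots.Nodup := nodup_roots (BoxA_sep b)
  have hcard : Multiset.card (ell p k - C b).roots = (ell p k - C b).natDegree :=
    (IsAlgClosed.splits (ell p k - C b)).natDegree_eq_card_roots.symm
  have h1 := prod_multiset_X_sub_C_of_monic_of_roots_card_eq (BoxA_mon' b) hcard
  conv_rhs => rw [← h1]
  have h2 : fib p b = ⟨(ell p k - C b).roots, hnd⟩ := by
    ext x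
    unfold fib
    rw [Multiset.mem_toFinset]
    rfl
  rw [h2]
  rfl

theorem fib_card (b : k) : (fib p b).card = p ^ 2 := by
  have h1 := congrArg natDegree (ell_fib_prod (p := p) b)
  rw [natDegree_finset_prod_X_sub_C_eq_card, natDegree_sub_C, ell_natDegree] at h1
  exact h1

theorem fib_pow {b : k} (hb : b ^ p = b) {x : k} (hx : x ∈ fib p b) : x ^ p ∈ fib p b := by
  rw [mem_fib, BoxA_eval] at hx ⊢
  have h1 : (x ^ p) ^ p - x ^ p = (x ^ p - x) ^ p := (sub_pow_char (x ^ p) x).symm
  rw [h1, ← sub_pow_char, hx, hb]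

theorem fib_iter (hp : p ≠ 2) {b : k} (hb : b ^ p = b) {x : k} (hx : x ∈ fib p b) :
    x ^ (p ^ p) = x := by
  rw [mem_fib, BoxA_eval] at hx
  have hnat : ∀ n : ℕ, ((n : ℕ) : k) ^ p = n := fun n => map_natCast (frobenius k p) n
  obtain ⟨y, hy⟩ : ∃ y : k, y = x ^ p - x := ⟨_, rfl⟩
  rw [← hy] at hx
  have hxp : x ^ p = x + y := by rw [hy]; ring
  have hyp : y ^ p = y + b := by rw [← hx]; ring
  have key : ∀ i : ℕ, x ^ (p ^ i) = x + (i : k) * y + ((i.choose 2 : ℕ) : k) * b := by
    intro i
    induction i with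
    | zero => simp
    | succ i ih =>
      rw [pow_succ, pow_mul, ih, add_pow_char, add_pow_char, mul_pow, mul_pow, hnat, hnat, hxp,
        hyp, hb, Nat.choose_succ_succ' i 1, Nat.choose_one_right]
      push_cast
      ring
  have hpp := (Fact.out : p.Prime)
  have h2 : ((p.choose 2 : ℕ) : k) = 0 := by
    rw [CharP.cast_eq_zero_iff k p]
    exact hpp.dvd_choose_self (by norm_num) (lt_of_le_of_ne hpp.two_le (Ne.symm hp))
  rw [key p, h2, CharP.cast_eq_zero k p]
  ring

theorem fib_zero {x : k} (hx : x ^ p = x) : x ∈ fib p (0 : k) := by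
  rw [mem_fib, BoxA_eval, hx, sub_self, zero_pow (Fact.out : p.Prime).ne_zero, sub_self]

end Pool.Agent.PRB
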