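import Pool.Agent.LibPRB.BoxA

/-!
# Frobenius stable subsets of the fibre over `1`

PLAN. Every `x ∈ fib p 1` satisfies `x ^ (p^p) = x` (`fib_iter`) and `x ^ p ≠ x` (`fib_zero`, `mem_fib`: otherwise
`1 = ell x = 0`).  So its orbit `{x ^ (p ^ t) | t < p}` (`Finset.image`, `Finset.range p`) has exactly `p`
elements: if `x ^ (p^t) = x ^ (p^u)`, `t < u < p`, then `x^(p^(u-t)) = x` (injectivity of Frobenius), and with
`x^(p^p) = x` and `gcd (u - t) p = 1`: `x^p = x` (`Function.IsPeriodicPt`/`Nat.Coprime`, minimal period of
`fun x => x ^ p` divides both), contradiction.  Induction on `i`: given a stable `B ⊆ fib p 1` with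
`B.card = p i`, `i < p`, there is `x ∈ fib p 1 \ B` (`card = p^2`), its orbit is contained in `fib p 1`
(`fib_pow`) and disjoint from `B` (stable, Frobenius is a permutation of finite order on the orbit).
-/

set_option autoImplicit false

namespace Pool.Agent.PRB

variable {p : ℕ} [Fact p.Prime] {k : Type} [Field k] [IsAlgClosed k] [CharP k p]

theorem exists_fib_sub (hp : p ≠ 2) (i : ℕ) (hi : i ≤ p) :
    ∃ B : Finset k, B ⊆ fib p (1 : k) ∧ B.card = p * i ∧ ∀ c ∈ B, c ^ p ∈ B := by
  classical
  have hp2 : p.Prime := Fact.out
  have hit : ∀ n : ℕ, ∀ x : k, (fun x : k => x ^ p)^[n] x = x ^ (p ^ n) := by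
    intro n x
    rw [pow_iterate]
  induction i with
  | zero => exact ⟨∅, by simp, by simp, by simp⟩
  | succ i ih =>
    obtain ⟨B, hB1, hB2, hB3⟩ := ih (by omega)
    have hlt : B.card < (fib p (1 : k)).card := by
      rw [hB2, fib_card, sq]
      exact Nat.mul_lt_mul_of_pos_left (by omega) hp2.pos
    obtain ⟨x, hx, hxB⟩ := Finset.exists_mem_notMem_of_card_lt_card hlt
    have hmem : ∀ t : ℕ, (fun x : k => x ^ p)^[t] x ∈ fib p (1 : k) := by
      intro t
      induction t with
      | zero => exact hx
      | succ t iht =>
        rw [Function.iterate_succ_apply']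
        exact fib_pow (one_pow p) iht
    have hperp : (fun x : k => x ^ p)^[p] x = x := by
      rw [hit]
      exact fib_iter hp (one_pow p) hx
    have hnf : x ^ p ≠ x := by
      intro h
      have h1 := fib_zero (p := p) h
      rw [mem_fib] at h1 hx
      rw [h1] at hx
      exact zero_ne_one hx
    have hmin : Function.minimalPeriod (fun x : k => x ^ p) x = p := by
      have h1 : Function.IsPeriodicPt (fun x : k => x ^ p) p x := hperp
      rcases (Nat.dvd_prime hp2).1 h1.minimalPeriod_dvd with h2 | h2
      · exact absurd (Function.minimalPeriod_eq_one_iff_isFixedPt.1 h2) hnf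
      · exact h2
    have hBit : ∀ c ∈ B, ∀ t : ℕ, (fun x : k => x ^ p)^[t] c ∈ B := by
      intro c hc t
      induction t with
      | zero => exact hc
      | succ t iht =>
        rw [Function.iterate_succ_apply']
        exact hB3 _ iht
    have hdisj : Disjoint B ((Finset.range p).image (fun t => (fun x : k => x ^ p)^[t] x)) := by
      rw [Finset.disjoint_right]
      intro c hc hcB
      obtain ⟨t, ht, rfl⟩ := Finset.mem_image.1 hc
      rw [Finset.mem_range] at ht
      have h1 := hBit _ hcB (p - t)
      rw [← Function.iterate_add_apply, Nat.sub_add_cancel ht.le, hperp] at h1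
      exact hxB h1
    refine ⟨B ∪ (Finset.range p).image (fun t => (fun x : k => x ^ p)^[t] x), ?_, ?_, ?_⟩
    · apply Finset.union_subset hB1
      intro c hc
      obtain ⟨t, _, rfl⟩ := Finset.mem_image.1 hc
      exact hmem t
    · rw [Finset.card_union_of_disjoint hdisj, hB2, Finset.card_image_of_injOn,
        Finset.card_range]
      · ring
      · intro a ha b hb hab
        have h1 := Function.iterate_injOn_Iio_minimalPeriod (f := fun x : k => x ^ p) (x := x)
        rw [hmin] at h1
        exact h1 (by simpa using ha) (by simpa using hb) hab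
    · intro c hc
      rcases Finset.mem_union.1 hc with h1 | h1
      · exact Finset.mem_union_left _ (hB3 c h1)
      · apply Finset.mem_union_right
        obtain ⟨t, ht, rfl⟩ := Finset.mem_image.1 h1
        rw [Finset.mem_range] at ht
        have h2 : ((fun x : k => x ^ p)^[t] x) ^ p = (fun x : k => x ^ p)^[t + 1] x := by
          rw [Function.iterate_succ_apply']
        rw [h2]
        rcases Nat.lt_or_ge (t + 1) p with h3 | h3
        · exact Finset.mem_image_of_mem _ (Finset.mem_range.2 h3)
        · have h4 : t + 1 = p := by omega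
          rw [h4, hperp]
          exact Finset.mem_image.2 ⟨0, Finset.mem_range.2 hp2.pos, rfl⟩

end Pool.Agent.PRB
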