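import Mathlib

/-!
# Points of given degree

PLAN. `exists_orbit`: let `K = GaloisField p δ`, embedded in `k` (`IsAlgClosed.lift`, `k` is a `ZMod p`-algebra),
`ζ` a generator of `Kˣ`, of order `p^δ - 1`; `x` its image in `k`.  `x ^ (p^j) = x ↔ p^δ - 1 ∣ p^j - 1 ↔ δ ∣ j`
(`orderOf_dvd_iff_pow_eq_one`, `Nat.pow_sub_one_gcd_pow_sub_one` or `pow_sub_one_dvd_pow_sub_one_iff`).
`C = {x ^ (p^t) | t < δ}`: `card = δ` (injectivity of Frobenius), stable; every `c = x^(p^t) ∈ C` satisfies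
`c^(p^j) = c ↔ δ ∣ j`.
`exists_fp`: the image of `ZMod p → k`.
-/

set_option autoImplicit false

namespace Pool.Agent.PRB

variable {p : ℕ} [Fact p.Prime] {k : Type} [Field k] [IsAlgClosed k] [CharP k p]

theorem BoxC_dvd {q : ℕ} (hq : 1 < q) (δ j : ℕ) : q ^ δ - 1 ∣ q ^ j - 1 ↔ δ ∣ j := by
  have h1 := Nat.pow_sub_one_gcd_pow_sub_one q δ j
  constructor
  · intro h
    rw [Nat.gcd_eq_left h] at h1
    have h2 : 1 ≤ q ^ δ := Nat.one_le_pow _ _ (by omega)
    have h3 : 1 ≤ q ^ (Nat.gcd δ j) := Nat.one_le_pow _ _ (by omega)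
    have h4 : q ^ δ = q ^ (Nat.gcd δ j) := by omega
    have h5 := Nat.pow_right_injective hq h4
    rw [h5]
    exact Nat.gcd_dvd_right _ _
  · intro h
    rw [Nat.gcd_eq_left h] at h1
    rw [← h1]
    exact Nat.gcd_dvd_right _ _

omit [IsAlgClosed k] in
theorem BoxC_inj : Function.Injective (fun x : k => x ^ p) := frobenius_inj k p

theorem BoxC_exists (δ : ℕ) (hδ : 0 < δ) : ∃ ζ : k, ∀ j : ℕ, ζ ^ (p ^ j) = ζ ↔ δ ∣ j := by
  have hp : 1 < p := (Fact.out : p.Prime).one_lt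
  have hN0 : ((p ^ δ - 1 : ℕ) : k) ≠ 0 := by
    rw [Nat.cast_sub (Nat.one_le_pow _ _ (by omega)), Nat.cast_pow, CharP.cast_eq_zero k p,
      zero_pow hδ.ne']
    simp
  haveI : NeZero ((p ^ δ - 1 : ℕ) : k) := ⟨hN0⟩
  obtain ⟨ζ, hζ⟩ := HasEnoughRootsOfUnity.exists_primitiveRoot k (p ^ δ - 1)
  refine ⟨ζ, fun j => ?_⟩
  have hN : p ^ δ - 1 ≠ 0 := by
    intro h
    rw [h] at hN0
    exact hN0 Nat.cast_zero
  have hz : ζ ≠ 0 := hζ.ne_zero hN
  rw [← BoxC_dvd hp δ j, ← hζ.pow_eq_one_iff_dvd]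
  have h1 : 1 ≤ p ^ j := Nat.one_le_pow _ _ (by omega)
  obtain ⟨m, hm⟩ : ∃ m, p ^ j = m + 1 := ⟨p ^ j - 1, by omega⟩
  rw [hm, Nat.add_sub_cancel, pow_succ]
  constructor
  · intro h
    exact mul_right_cancel₀ hz (by rw [h, one_mul])
  · intro h
    rw [h, one_mul]

theorem exists_orbit (δ : ℕ) (hδ : 0 < δ) :
    ∃ C : Finset k, C.card = δ ∧ (∀ c ∈ C, c ^ p ∈ C) ∧
      ∀ c ∈ C, ∀ j : ℕ, c ^ (p ^ j) = c ↔ δ ∣ j := by
  classical
  obtain ⟨ζ, hζ⟩ := BoxC_exists (p := p) (k := k) δ hδ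
  have hit : ∀ n : ℕ, ∀ x : k, (fun x : k => x ^ p)^[n] x = x ^ (p ^ n) := by
    intro n x
    rw [pow_iterate]
  have hper : ∀ j : ℕ, Function.IsPeriodicPt (fun x : k => x ^ p) j ζ ↔ δ ∣ j := by
    intro j
    rw [← hζ j]
    unfold Function.IsPeriodicPt Function.IsFixedPt
    rw [hit]
  have hmin : Function.minimalPeriod (fun x : k => x ^ p) ζ = δ := by
    apply Nat.dvd_antisymm
    · exact ((hper δ).2 dvd_rfl).minimalPeriod_dvd
    · exact (hper _).1 (Function.isPeriodicPt_minimalPeriod _ _)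
  refine ⟨(Finset.range δ).image (fun t => (fun x : k => x ^ p)^[t] ζ), ?_, ?_, ?_⟩
  · rw [Finset.card_image_of_injOn, Finset.card_range]
    intro a ha b hb hab
    have h1 := Function.iterate_injOn_Iio_minimalPeriod (f := fun x : k => x ^ p) (x := ζ)
    rw [hmin] at h1
    exact h1 (by simpa using ha) (by simpa using hb) hab
  · intro c hc
    obtain ⟨t, ht, rfl⟩ := Finset.mem_image.1 hc
    rw [Finset.mem_range] at ht
    have h1 : ((fun x : k => x ^ p)^[t] ζ) ^ p = (fun x : k => x ^ p)^[t + 1] ζ := by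
      rw [Function.iterate_succ_apply']
    rw [h1]
    rcases Nat.lt_or_ge (t + 1) δ with h2 | h2
    · exact Finset.mem_image_of_mem _ (Finset.mem_range.2 h2)
    · have h3 : t + 1 = δ := by omega
      have h4 : (fun x : k => x ^ p)^[t + 1] ζ = (fun x : k => x ^ p)^[0] ζ := by
        rw [h3]
        exact (hper δ).2 dvd_rfl
      rw [h4]
      exact Finset.mem_image_of_mem _ (Finset.mem_range.2 hδ)
  · intro c hc j
    obtain ⟨t, ht, rfl⟩ := Finset.mem_image.1 hc
    rw [← hζ j, ← hit j, ← Function.iterate_add_apply, add_comm, Function.iterate_add_apply,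
      hit j]
    exact (BoxC_inj.iterate t).eq_iff

theorem exists_fp : ∃ A : Finset k, A.card = p ∧ ∀ c : k, c ∈ A ↔ c ^ p = c := by
  classical
  have hp : 1 < p := (Fact.out : p.Prime).one_lt
  let φ : ZMod p →+* k := ZMod.castHom (dvd_refl p) k
  let A : Finset k := (Finset.univ : Finset (ZMod p)).image φ
  have hA : A.card = p := by
    rw [Finset.card_image_of_injective _ φ.injective, Finset.card_univ, ZMod.card]
  let P : Polynomial k := Polynomial.X ^ p - Polynomial.X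
  have hP0 : P ≠ 0 := FiniteField.X_pow_card_sub_X_ne_zero k hp
  have hdeg : P.natDegree = p := FiniteField.X_pow_card_sub_X_natDegree_eq k hp
  have hroot : ∀ c : k, c ∈ P.roots.toFinset ↔ c ^ p = c := by
    intro c
    rw [Multiset.mem_toFinset, Polynomial.mem_roots hP0, Polynomial.IsRoot.def]
    simp only [P, Polynomial.eval_sub, Polynomial.eval_pow, Polynomial.eval_X, sub_eq_zero]
  have hsub : A ⊆ P.roots.toFinset := by
    intro c hc
    obtain ⟨z, _, rfl⟩ := Finset.mem_image.1 hc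
    rw [hroot, ← map_pow, ZMod.pow_card]
  have hle : P.roots.toFinset.card ≤ A.card := by
    rw [hA]
    exact (Multiset.toFinset_card_le _).trans ((Polynomial.card_roots' P).trans hdeg.le)
  have heq := Finset.eq_of_subset_of_card_le hsub hle
  refine ⟨A, hA, fun c => ?_⟩
  rw [heq]
  exact hroot c

end Pool.Agent.PRB
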