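import Mathlib

/-!
# The parameters of the construction

PLAN. Let `n = p - 1` (even, `n ≥ 4`).  Choice of `m0`: if `3 ∤ n`: `m0 = 3`, `d0 = gcd (3, n) = 1`; if `3 ∣ n`
and `n % 4 = 2`: `m0 = 4`, `d0 = 2`; in both cases `κ = (m0 - d0) / 2 = 1`.  Otherwise `12 ∣ n`, `n ^ 2 ≤ 4 a`:
`m0 = n - 1`, `d0 = 1`, `κ = n / 2 - 1`.  `m2 = n - 1 - m0`.  (`d2 = gcd (m2, n) ≤ n`.)
Choice of `j`: `1 ≤ j ≤ n / 2` with `j κ ≡ a` mod `n / 2` and `j κ ≤ a` (for `κ = 1`: `j = (a - 1) % (n/2) + 1`; for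
`κ = n / 2 - 1 ≡ -1`: `j = n/2 - a % (n/2)`, and `j κ ≤ (n/2) ^ 2 ≤ a`).  `L = (a - j κ) / (n/2)`.
If `p ∤ L + 1`: `l = 0`, `D = L + 1`; otherwise `l = 1`, `D = L` (then `L + 1 ≥ p`, so `D ≥ 1`, and `p ∤ L`).
Parity: `p^2 (3 n - d0 - 1 - d2)` is even: `n` is even; `d0 + d2` is odd, because `m0 + 1 + m2 = n` is even and
`d_i` is odd iff `m_i` is odd (`n` even) — so exactly one of `d0, d2` is odd.
`i`: `f - j d0 - p^2 (3 n - d0 - 1 - d2) / 2 - p i` must be divisible by `n` (and nonnegative): as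
`p ≡ 1` mod `n`, take `i` = the residue of the rest modulo `n`, `0 ≤ i < n`.  `δ` is the quotient; `δ ≥ 2 p^2`
because `f ≥ 4 p^3` and `j d0 ≤ n`, `p i ≤ p n`, `p^2 (3 n) / 2 ≤ (3/2) p^2 n`, `2 p^2 n`:
`n + p n + (3/2) p^2 n + 2 p^2 n ≤ 4 p^3` for `n = p - 1`.
-/

set_option autoImplicit false

namespace Pool.Agent.PRB

private theorem BoxN_lD {p : ℕ} (hp : p.Prime) (L : ℕ) : ∃ l D : ℕ, l ≤ 1 ∧ 1 ≤ D ∧ ¬ p ∣ D ∧
    (L : ℤ) = l + ((D : ℤ) - 1) := by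
  by_cases h : p ∣ L + 1
  · have h2 : 2 ≤ p := hp.two_le
    have h1 : p ≤ L + 1 := Nat.le_of_dvd (by omega) h
    refine ⟨1, L, le_rfl, by omega, ?_, by push_cast; ring⟩
    intro h3
    have h4 : p ∣ 1 := (Nat.dvd_add_right h3).mp h
    exact absurd (Nat.dvd_one.mp h4) hp.one_lt.ne'
  · exact ⟨0, L + 1, by omega, by omega, h, by push_cast; ring⟩

private theorem BoxN_A {p n h : ℕ} (hp : p.Prime) (hn : n = 2 * h) (h2 : 2 ≤ h) (a : ℕ)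
    (ha : 1 ≤ a) (hpa : ¬ 12 ∣ n ∨ n ^ 2 ≤ 4 * a) :
    ∃ m0 m2 j l D : ℕ, m0 + 1 + m2 = n ∧ 3 ≤ m0 ∧ 1 ≤ j ∧ j ≤ h ∧ Nat.gcd m0 n ≤ 2 ∧ l ≤ 1 ∧
      1 ≤ D ∧ ¬ p ∣ D ∧
      (2 * (a : ℤ) = j * (m0 - (Nat.gcd m0 n : ℕ)) + n * l + n * ((D : ℤ) - 1)) := by
  have hhpos : 0 < h := by omega
  -- the case of difference 2
  have key : ∀ m0 m2 : ℕ, m0 + 1 + m2 = n → 3 ≤ m0 → Nat.gcd m0 n ≤ 2 →
      m0 = Nat.gcd m0 n + 2 → ∃ m0 m2 j l D : ℕ, m0 + 1 + m2 = n ∧ 3 ≤ m0 ∧ 1 ≤ j ∧ j ≤ h ∧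
      Nat.gcd m0 n ≤ 2 ∧ l ≤ 1 ∧ 1 ≤ D ∧ ¬ p ∣ D ∧
      (2 * (a : ℤ) = j * (m0 - (Nat.gcd m0 n : ℕ)) + n * l + n * ((D : ℤ) - 1)) := by
    intro m0 m2 h3 h4 h5 h6
    obtain ⟨l, D, hl, hD, hpD, hLD⟩ := BoxN_lD hp ((a - 1) / h)
    have h7 := Nat.div_add_mod (a - 1) h
    have h8 := Nat.mod_lt (a - 1) hhpos
    refine ⟨m0, m2, (a - 1) % h + 1, l, D, h3, h4, by omega, by omega, h5, hl, hD, hpD, ?_⟩
    have h9 : (m0 : ℤ) - (Nat.gcd m0 n : ℕ) = 2 := by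
      have : (m0 : ℤ) = (Nat.gcd m0 n : ℕ) + 2 := by exact_mod_cast h6
      linarith
    have h10 : (a : ℤ) = h * (((a - 1) / h : ℕ) : ℤ) + (((a - 1) % h : ℕ) : ℤ) + 1 := by
      have : a = h * ((a - 1) / h) + (a - 1) % h + 1 := by omega
      exact_mod_cast this
    rw [h9, h10, hLD, hn]
    push_cast
    ring
  by_cases h3 : 3 ∣ n
  · by_cases h4 : n % 4 = 2
    · -- `m0 = 4`
      have hg : Nat.gcd 4 n = 2 := by
        obtain ⟨k, hk⟩ : ∃ k, n = 4 * k + 2 := ⟨n / 4, by omega⟩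
        rw [hk, Nat.gcd_mul_left_add_right]
        norm_num
      exact key 4 (n - 5) (by omega) (by norm_num) (by rw [hg]) (by rw [hg])
    · have h12 : 12 ∣ n := by omega
      rcases hpa with h5 | h5
      · exact absurd h12 h5
      · have hn12 : 12 ≤ n := Nat.le_of_dvd (by omega) h12
        have hg : Nat.gcd (n - 1) n = 1 := by
          have h6 : Nat.Coprime (n - 1) (n - 1 + 1) := by simp
          rwa [show n - 1 + 1 = n by omega] at h6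
        have h7 := Nat.div_add_mod a h
        have h8 := Nat.mod_lt a hhpos
        have h9 : h * h ≤ a := by
          have : (2 * h) ^ 2 = 4 * (h * h) := by ring
          rw [hn, this] at h5
          omega
        have h10 : h ≤ a / h := (Nat.le_div_iff_mul_le hhpos).mpr h9
        generalize a / h = q at h7 h10
        generalize a % h = r at h7 h8
        obtain ⟨l, D, hl, hD, hpD, hLD⟩ := BoxN_lD hp (q - (h - 1 - r))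
        refine ⟨n - 1, 0, h - r, l, D, by omega, by omega, by omega, by omega,
          by rw [hg]; omega, hl, hD, hpD, ?_⟩
        rw [hg]
        have h11 : ((q - (h - 1 - r) : ℕ) : ℤ) = (q : ℤ) - (h - 1 - (r : ℤ)) := by omega
        rw [h11] at hLD
        have h12 : ((h - r : ℕ) : ℤ) = h - (r : ℤ) := by omega
        have h13 : ((n - 1 : ℕ) : ℤ) = 2 * h - 1 := by omega
        have h14 : (a : ℤ) = h * (q : ℤ) + (r : ℤ) := by exact_mod_cast h7.symm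
        rw [h12, h13]
        have h15 : (D : ℤ) - 1 = (q : ℤ) - (h - 1 - (r : ℤ)) - l := by
          linarith
        rw [h15, hn]
        push_cast
        linear_combination 2 * h14
  · -- `m0 = 3`
    have hg : Nat.gcd 3 n = 1 := (Nat.Prime.coprime_iff_not_dvd Nat.prime_three).mpr h3
    exact key 3 (n - 4) (by omega) le_rfl (by rw [hg]; omega) (by rw [hg])

private theorem BoxN_B {p n h : ℕ} (hpn : p = n + 1) (hn : n = 2 * h) (h2 : 2 ≤ h) {f : ℕ}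
    (hf : 4 * p ^ 3 ≤ f) {m0 m2 j : ℕ} (hm : m0 + 1 + m2 = n) (hj : j ≤ h)
    (hg : Nat.gcd m0 n ≤ 2) :
    ∃ i δ : ℕ, i ≤ p ∧ 2 * p ^ 2 ≤ δ ∧
      (2 * (f : ℤ) = p ^ 2 * (3 * n - (Nat.gcd m0 n : ℕ) - 1 - (Nat.gcd m2 n : ℕ)) +
        2 * j * (Nat.gcd m0 n : ℕ) + 2 * p * i + 2 * n * δ) := by
  have hnpos : 0 < n := by omega
  have hd2 : Nat.gcd m2 n ≤ n := Nat.gcd_le_right _ hnpos
  have heven : ∀ m, 2 ∣ Nat.gcd m n ↔ 2 ∣ m := by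
    intro m
    rw [Nat.dvd_gcd_iff]
    exact ⟨fun hh => hh.1, fun hh => ⟨hh, ⟨h, hn⟩⟩⟩
  have hpar : ∃ e : ℤ, 3 * (n : ℤ) - (Nat.gcd m0 n : ℕ) - 1 - (Nat.gcd m2 n : ℕ) = 2 * e := by
    have h3 := heven m0
    have h4 := heven m2
    refine ⟨(3 * (n : ℤ) - (Nat.gcd m0 n : ℕ) - 1 - (Nat.gcd m2 n : ℕ)) / 2, ?_⟩
    omega
  obtain ⟨e, he⟩ := hpar
  set d0 : ℕ := Nat.gcd m0 n with hd0
  set d2 : ℕ := Nat.gcd m2 n with hd2'
  have hjd : j * d0 ≤ n := by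
    calc j * d0 ≤ h * 2 := Nat.mul_le_mul hj hg
      _ = n := by omega
  have hjdZ : (j : ℤ) * d0 ≤ n := by exact_mod_cast hjd
  have he2 : 2 * e ≤ 3 * n := by
    rw [← he]
    have : (0 : ℤ) ≤ (d0 : ℤ) := by positivity
    have : (0 : ℤ) ≤ (d2 : ℤ) := by positivity
    linarith
  have hnZ : (0 : ℤ) < n := by exact_mod_cast hnpos
  have hpZ : (p : ℤ) = n + 1 := by rw [hpn]; push_cast; ring
  have hfZ : 4 * (p : ℤ) ^ 3 ≤ f := by exact_mod_cast hf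
  set x : ℤ := f - j * d0 - p ^ 2 * e with hx
  have hx1 := Int.emod_nonneg x hnZ.ne'
  have hx2 := Int.emod_lt_of_pos x hnZ
  have hx3 := Int.mul_ediv_add_emod x n
  set i : ℤ := x % n with hi
  set δ : ℤ := x / n - i with hδ
  have hnδ : (n : ℤ) * δ = x - p * i := by
    rw [hδ, hpZ]
    linear_combination hx3
  have hδ2 : 2 * (p : ℤ) ^ 2 ≤ δ := by
    by_contra hcon
    have h5 : δ + 1 ≤ 2 * (p : ℤ) ^ 2 := by omega
    have h6 : (n : ℤ) * (δ + 1) ≤ n * (2 * (p : ℤ) ^ 2) := mul_le_mul_of_nonneg_left h5 hnZ.le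
    have h7 : (p : ℤ) * i ≤ p * n := mul_le_mul_of_nonneg_left hx2.le (by omega)
    have h8 : (p : ℤ) ^ 2 * (2 * e) ≤ p ^ 2 * (3 * n) := mul_le_mul_of_nonneg_left he2 (by positivity)
    have h9 : (n : ℤ) = p - 1 := by linarith
    have h10 : 2 * ((n : ℤ) * δ) ≥ 8 * (p : ℤ) ^ 3 - 2 * n - p ^ 2 * (3 * n) - 2 * (p * n) := by
      rw [hnδ, hx]
      linarith
    rw [h9] at h6 h10 
    have h11 : (5 : ℤ) ≤ p := by omega
    nlinarith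
  have hδ0 : 0 ≤ δ := le_trans (by positivity) hδ2
  refine ⟨i.toNat, δ.toNat, ?_, ?_, ?_⟩
  · have : ((i.toNat : ℕ) : ℤ) ≤ (p : ℤ) := by
      rw [Int.toNat_of_nonneg hx1]
      linarith
    exact_mod_cast this
  · have : ((2 * p ^ 2 : ℕ) : ℤ) ≤ ((δ.toNat : ℕ) : ℤ) := by
      rw [Int.toNat_of_nonneg hδ0]
      push_cast
      exact hδ2
    exact_mod_cast this
  · rw [Int.toNat_of_nonneg hx1, Int.toNat_of_nonneg hδ0, he]
    have h12 : 2 * (n : ℤ) * δ = 2 * (x - p * i) := by rw [← hnδ]; ring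
    rw [h12, hx]
    ring

theorem boxN (p : ℕ) (hp : p.Prime) (h5 : 5 ≤ p) (f a : ℕ) (hf : 4 * p ^ 3 ≤ f) (ha : 1 ≤ a)
    (hpa : ¬ 12 ∣ p - 1 ∨ (p - 1) ^ 2 ≤ 4 * a) :
    ∃ m0 m2 j l D i δ : ℕ, m0 + 1 + m2 = p - 1 ∧ 3 ≤ m0 ∧ 1 ≤ j ∧ j + 1 ≤ p ∧ l ≤ 1 ∧ 1 ≤ D ∧
      ¬ p ∣ D ∧ i ≤ p ∧ 2 * p ^ 2 ≤ δ ∧
      (2 * (f : ℤ) = p ^ 2 * (3 * (p - 1) - Int.gcd m0 (p - 1) - 1 - Int.gcd m2 (p - 1)) +
        2 * j * Int.gcd m0 (p - 1) + 2 * p * i + 2 * (p - 1) * δ) ∧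
      (2 * (a : ℤ) = j * (m0 - Int.gcd m0 (p - 1)) + (p - 1) * l + (p - 1) * (D - 1)) := by
  have hpodd : p % 2 = 1 := by
    rcases hp.eq_two_or_odd with h | h
    · omega
    · exact h
  obtain ⟨h, hh⟩ : ∃ h, p - 1 = 2 * h := ⟨(p - 1) / 2, by omega⟩
  have h2 : 2 ≤ h := by omega
  obtain ⟨m0, m2, j, l, D, h3, h4, h5, h6, h7, h8, h9, h10, h11⟩ :=
    BoxN_A hp hh h2 a ha hpa
  obtain ⟨i, δ, h12, h13, h14⟩ := BoxN_B (p := p) (n := p - 1) (by omega) hh h2 hf h3 h6 h7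
  have hc : ((p - 1 : ℕ) : ℤ) = (p : ℤ) - 1 := by
    rw [Nat.cast_sub (by omega)]
    simp
  have hg : ∀ m : ℕ, Int.gcd (m : ℤ) ((p : ℤ) - 1) = Nat.gcd m (p - 1) := by
    intro m
    rw [← hc, Int.gcd_natCast_natCast]
  refine ⟨m0, m2, j, l, D, i, δ, h3, h4, h5, by omega, h8, h9, h10, h12, h13, ?_, ?_⟩
  · rw [hg, hg, ← hc]
    exact h14
  · rw [hg, ← hc]
    exact h11

end Pool.Agent.PRB
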