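import Pool.Agent.LibPRB.FixE

/-!
# Ordinarity is preserved by the pullback along `X ↦ X ^ p - X`

PLAN. Let `D = derivative`, `L = X ^ p - X` (so `D L = -1`).  By `deriv_pred_eq_zero_iff` (FixE.lean) we
have to show: `degree B < p N`, `D^[p-1] (B * W.comp L) = 0` imply `B = 0`.
(1) `B = ∑ i < p, (B_i).comp L * X ^ i` with `degree B_i < N` (repeated division with remainder by the monic
polynomial `L` of degree `p`; e.g. by induction on `N`: `B = Q * L + r`, `Polynomial.modByMonic`).
(2) `X ^ i = (X ^ p - L) ^ i = ∑ l ≤ i, i.choose l * (X ^ l) ^ p * (-L) ^ (i - l)`, so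
`B * W.comp L = ∑ l < p, (X ^ l) ^ p * (H_l).comp L`, `H_l = ∑_{l ≤ i < p} i.choose l * (-X) ^ (i - l) * B_i * W`.
(3) `D` commutes with multiplication by `p`-th powers, `D (F.comp L) = -(D F).comp L`, so
`D^[p-1] (F.comp L) = (-1) ^ (p-1) (D^[p-1] F).comp L = (D^[p-1] F).comp L` (in characteristic 2 too), and
`D^[p-1] F = S.expand p`-like: it is a polynomial in `X ^ p` (`coeff_deriv_pred`), write
`D^[p-1] H_l = (G_l).comp (X ^ p)`.  `L ^ p = X ^ (p^2) - X ^ p = L.comp (X ^ p)`.  So
`0 = ∑ l < p, (X ^ p) ^ l * (G_l.comp L).comp (X ^ p)`, hence `∑ l < p, X ^ l * G_l.comp L = 0`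
(`Polynomial.expand_injective` / `comp` with `X ^ p` injective).
(4) all `G_l = 0`: the nonzero terms have distinct degrees `l + p * natDegree G_l` (`natDegree_comp`).
(5) descending induction on `i`: if `B_j = 0` for `j > i` then `H_i = B_i * W`, `D^[p-1] (B_i W) = 0`, so
`B_i = 0` by `h`.
-/

set_option autoImplicit false

namespace Pool.Agent.PRB

variable {p : ℕ} [Fact p.Prime] {k : Type} [Field k] [CharP k p]

/-- the derivative on the coefficients of `∑ (F i).comp L * X ^ i`, `L' = -1` -/
private noncomputable def OrdS_del (F : ℕ → Polynomial k) (i : ℕ) : Polynomial k :=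
  -(Polynomial.derivative (F i)) + Polynomial.C ((i : k) + 1) * F (i + 1)

private theorem OrdS_del_apply (F : ℕ → Polynomial k) (i : ℕ) :
    OrdS_del F i = -(Polynomial.derivative (F i)) + Polynomial.C ((i : k) + 1) * F (i + 1) := rfl

omit [Fact p.Prime] in
private theorem OrdS_dL (p : ℕ) [CharP k p] :
    Polynomial.derivative (Polynomial.X ^ p - Polynomial.X : Polynomial k) = -1 := by
  rw [Polynomial.derivative_sub, Polynomial.derivative_X_pow, Polynomial.derivative_X,
    CharP.cast_eq_zero k p, Polynomial.C_0, zero_mul, zero_sub]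

private theorem OrdS_der (L : Polynomial k) (hL : Polynomial.derivative L = -1) (n : ℕ)
    (F : ℕ → Polynomial k) (hF : ∀ j, n ≤ j → F j = 0) :
    Polynomial.derivative (∑ i ∈ Finset.range n, (F i).comp L * Polynomial.X ^ i) =
      ∑ i ∈ Finset.range n, (OrdS_del F i).comp L * Polynomial.X ^ i := by
  rw [Polynomial.derivative_sum]
  have h1 : ∀ i ∈ Finset.range n,
      Polynomial.derivative ((F i).comp L * Polynomial.X ^ i) =
      -((Polynomial.derivative (F i)).comp L * Polynomial.X ^ i) +
        (F i).comp L * (Polynomial.C (i : k) * Polynomial.X ^ (i - 1)) := by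
    intro i _
    rw [Polynomial.derivative_mul, Polynomial.derivative_comp, hL,
      Polynomial.derivative_X_pow]
    ring
  have h2 : ∀ i ∈ Finset.range n, (OrdS_del F i).comp L * Polynomial.X ^ i =
      -((Polynomial.derivative (F i)).comp L * Polynomial.X ^ i) +
        (F (i + 1)).comp L * (Polynomial.C ((i : k) + 1) * Polynomial.X ^ i) := by
    intro i _
    unfold OrdS_del
    rw [Polynomial.add_comp, Polynomial.neg_comp, Polynomial.mul_comp, Polynomial.C_comp]
    ring
  rw [Finset.sum_congr rfl h1, Finset.sum_congr rfl h2, Finset.sum_add_distrib,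
    Finset.sum_add_distrib]
  congr 1
  cases n with
  | zero => simp
  | succ m =>
    rw [Finset.sum_range_succ', Finset.sum_range_succ]
    rw [hF (m + 1) le_rfl]
    simp

private theorem OrdS_del_zero (n : ℕ) (F : ℕ → Polynomial k) (hF : ∀ j, n ≤ j → F j = 0) (m : ℕ) :
    ∀ j, n ≤ j → OrdS_del^[m] F j = 0 := by
  induction m with
  | zero => exact hF
  | succ m ih =>
    intro j hj
    rw [Function.iterate_succ_apply', OrdS_del_apply, ih j hj, ih (j + 1) (by omega)]
    simp

private theorem OrdS_iter (L : Polynomial k) (hL : Polynomial.derivative L = -1) (n : ℕ)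
    (F : ℕ → Polynomial k) (hF : ∀ j, n ≤ j → F j = 0) (m : ℕ) :
    Polynomial.derivative^[m] (∑ i ∈ Finset.range n, (F i).comp L * Polynomial.X ^ i) =
      ∑ i ∈ Finset.range n, (OrdS_del^[m] F i).comp L * Polynomial.X ^ i := by
  induction m with
  | zero => rfl
  | succ m ih =>
    rw [Function.iterate_succ_apply', ih, OrdS_der L hL n _ (OrdS_del_zero n F hF m)]
    simp only [Function.iterate_succ_apply']

/-- the top coefficient -/
private theorem OrdS_top (F : ℕ → Polynomial k) (i : ℕ) (hF : ∀ j, i < j → F j = 0) (m : ℕ) :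
    OrdS_del^[m] F i = (-1) ^ m * Polynomial.derivative^[m] (F i) := by
  induction m with
  | zero => simp
  | succ m ih =>
    rw [Function.iterate_succ_apply', OrdS_del_apply]
    have h1 := OrdS_del_zero (i + 1) F (fun j hj => hF j hj) m (i + 1) le_rfl
    rw [h1, mul_zero, add_zero, ih, Function.iterate_succ_apply']
    have h2 : ((-1 : Polynomial k) ^ m) = Polynomial.C ((-1) ^ m) := by simp
    rw [h2, Polynomial.derivative_C_mul, pow_succ, ← h2]
    ring

omit [CharP k p] in
private theorem OrdS_monic : (Polynomial.X ^ p - Polynomial.X : Polynomial k).Monic ∧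
    (Polynomial.X ^ p - Polynomial.X : Polynomial k).natDegree = p := by
  have hp : 1 < p := (Fact.out : p.Prime).one_lt
  have hd : (Polynomial.X : Polynomial k).degree < (p : ℕ) := by
    rw [Polynomial.degree_X]
    exact_mod_cast hp
  refine ⟨Polynomial.monic_X_pow_sub hd, ?_⟩
  apply Polynomial.natDegree_eq_of_degree_eq_some
  rw [Polynomial.degree_sub_eq_left_of_degree_lt, Polynomial.degree_X_pow]
  rw [Polynomial.degree_X_pow]
  exact hd

omit [CharP k p] in
private theorem OrdS_decomp (N : ℕ) : ∀ B : Polynomial k, B.degree < ((p * N : ℕ) : WithBot ℕ) →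
    ∃ b : ℕ → Polynomial k, (∀ i, (b i).degree < (N : WithBot ℕ)) ∧
      B = ∑ i ∈ Finset.range p,
        (b i).comp (Polynomial.X ^ p - Polynomial.X) * Polynomial.X ^ i := by
  obtain ⟨hm, hd⟩ := OrdS_monic (p := p) (k := k)
  set L : Polynomial k := Polynomial.X ^ p - Polynomial.X with hLd
  have hp0 : 0 < p := (Fact.out : p.Prime).pos
  induction N with
  | zero =>
    intro B hB
    have hB0 : B = 0 := by
      by_contra h
      rw [Polynomial.degree_eq_natDegree h, mul_zero] at hB
      have : B.natDegree < 0 := by exact_mod_cast hB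
      omega
    refine ⟨fun _ => 0, fun i => ?_, ?_⟩
    · rw [Polynomial.degree_zero]
      exact WithBot.bot_lt_coe _
    · rw [hB0]
      simp
  | succ N ih =>
    intro B hB
    have hQ : (B /ₘ L).degree < ((p * N : ℕ) : WithBot ℕ) := by
      by_cases hQ0 : B /ₘ L = 0
      · rw [hQ0, Polynomial.degree_zero]
        exact WithBot.bot_lt_coe _
      · have hB0 : B ≠ 0 := by
          rintro rfl
          simp at hQ0
        have h1 : ¬ B.degree < L.degree := fun h => hQ0 ((Polynomial.divByMonic_eq_zero_iff hm).2 h)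
        rw [not_lt, Polynomial.degree_eq_natDegree hB0, Polynomial.degree_eq_natDegree hm.ne_zero,
          hd] at h1
        have h2 : p ≤ B.natDegree := by exact_mod_cast h1
        rw [Polynomial.degree_eq_natDegree hB0] at hB
        have h3 : B.natDegree < p * (N + 1) := by exact_mod_cast hB
        rw [Polynomial.degree_eq_natDegree hQ0, Polynomial.natDegree_divByMonic B hm, hd]
        have h4 : B.natDegree - p < p * N := by
          rw [mul_add, mul_one] at h3
          omega
        exact_mod_cast h4
    obtain ⟨c, hc, hcQ⟩ := ih _ hQ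
    refine ⟨fun i => c i * Polynomial.X + Polynomial.C ((B %ₘ L).coeff i), fun i => ?_, ?_⟩
    · refine lt_of_le_of_lt (Polynomial.degree_add_le _ _) (max_lt ?_ ?_)
      · by_cases hci : c i = 0
        · rw [hci, zero_mul, Polynomial.degree_zero]
          exact WithBot.bot_lt_coe _
        · have h1 := hc i
          rw [Polynomial.degree_eq_natDegree hci] at h1
          have h2 : (c i).natDegree < N := by exact_mod_cast h1
          rw [Polynomial.degree_mul_X, Polynomial.degree_eq_natDegree hci]
          have h3 : (c i).natDegree + 1 < N + 1 := by omega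
          exact_mod_cast h3
      · refine lt_of_le_of_lt Polynomial.degree_C_le ?_
        have : 0 < N + 1 := Nat.succ_pos N
        exact_mod_cast this
    · have hr : B %ₘ L = ∑ i ∈ Finset.range p,
          Polynomial.C ((B %ₘ L).coeff i) * Polynomial.X ^ i := by
        have h1 : (B %ₘ L).natDegree < p := by
          have h2 := Polynomial.natDegree_modByMonic_lt B hm (by
            intro h3
            rw [h3, Polynomial.natDegree_one] at hd
            omega)
          rwa [hd] at h2
        exact Polynomial.as_sum_range_C_mul_X_pow' (B %ₘ L) h1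
      have h1 : ∀ i ∈ Finset.range p,
          (c i * Polynomial.X + Polynomial.C ((B %ₘ L).coeff i)).comp L * Polynomial.X ^ i =
          L * ((c i).comp L * Polynomial.X ^ i) +
            Polynomial.C ((B %ₘ L).coeff i) * Polynomial.X ^ i := by
        intro i _
        rw [Polynomial.add_comp, Polynomial.mul_comp, Polynomial.X_comp, Polynomial.C_comp]
        ring
      rw [Finset.sum_congr rfl h1, Finset.sum_add_distrib, ← Finset.mul_sum, ← hcQ, ← hr]
      have h2 := Polynomial.modByMonic_add_div B L
      rw [add_comm] at h2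
      exact h2.symm

omit [CharP k p] in
private theorem OrdS_uniq (F : ℕ → Polynomial k)
    (h : ∑ i ∈ Finset.range p, (F i).comp (Polynomial.X ^ p - Polynomial.X) * Polynomial.X ^ i = 0) :
    ∀ i < p, F i = 0 := by
  obtain ⟨hm, hd⟩ := OrdS_monic (p := p) (k := k)
  set L : Polynomial k := Polynomial.X ^ p - Polynomial.X with hLd
  have hp0 : 0 < p := (Fact.out : p.Prime).pos
  have hcomp : ∀ i, (F i).comp L = 0 → F i = 0 := by
    intro i hi
    rcases Polynomial.comp_eq_zero_iff.1 hi with h1 | ⟨_, h2⟩
    · exact h1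
    · exfalso
      have h3 := congrArg Polynomial.natDegree h2
      rw [Polynomial.natDegree_C, hd] at h3
      omega
  have hdeg : ∀ i, (F i).comp L * Polynomial.X ^ i ≠ 0 →
      ((F i).comp L * Polynomial.X ^ i).degree = (((F i).natDegree * p + i : ℕ) : WithBot ℕ) := by
    intro i hi
    have h1 : (F i).comp L ≠ 0 := left_ne_zero_of_mul hi
    rw [Polynomial.degree_eq_natDegree hi, Polynomial.natDegree_mul_X_pow i h1,
      Polynomial.natDegree_comp, hd]
  have key := Polynomial.degree_sum_eq_of_disjoint
    (fun i => (F i).comp L * Polynomial.X ^ i) (Finset.range p) (by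
    intro i hi j hj hij
    simp only [Set.mem_setOf_eq, Finset.mem_range] at hi hj
    simp only [Function.onFun, Function.comp, ne_eq]
    rw [hdeg i hi.2, hdeg j hj.2]
    intro h1
    have h2 : (F i).natDegree * p + i = (F j).natDegree * p + j := by exact_mod_cast h1
    have h3 := congrArg (fun n => n % p) h2
    simp only [Nat.mul_add_mod_self_right] at h3
    rw [Nat.mod_eq_of_lt hi.1, Nat.mod_eq_of_lt hj.1] at h3
    exact hij h3)
  rw [h, Polynomial.degree_zero] at key
  intro i hi
  have h1 : ((F i).comp L * Polynomial.X ^ i).degree ≤ ⊥ := by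
    rw [key]
    exact Finset.le_sup (f := fun i => ((F i).comp L * Polynomial.X ^ i).degree)
      (Finset.mem_range.2 hi)
  have h2 := Polynomial.degree_eq_bot.1 (le_bot_iff.1 h1)
  apply hcomp
  by_contra h3
  exact mul_ne_zero h3 (pow_ne_zero _ Polynomial.X_ne_zero) h2

theorem ordP_comp (W : Polynomial k) (N : ℕ) (h : OrdP p W N) :
    OrdP p (W.comp (Polynomial.X ^ p - Polynomial.X)) (p * N) := by
  classical
  intro B hB hcoef
  rw [← deriv_pred_eq_zero_iff] at hcoef
  obtain ⟨b, hb, hBb⟩ := OrdS_decomp (p := p) N B hB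
  set L : Polynomial k := Polynomial.X ^ p - Polynomial.X with hLd
  by_contra hB0
  have hex : ∃ i ∈ Finset.range p, b i ≠ 0 := by
    by_contra hcon
    push Not at hcon
    apply hB0
    rw [hBb]
    refine Finset.sum_eq_zero fun i hi => ?_
    rw [hcon i hi, Polynomial.zero_comp, zero_mul]
  obtain ⟨i1, hi1, hbi1⟩ := hex
  obtain ⟨i0, hi0, hmax⟩ := Finset.exists_max_image ((Finset.range p).filter fun i => b i ≠ 0)
    (fun i => i) ⟨i1, Finset.mem_filter.2 ⟨hi1, hbi1⟩⟩
  obtain ⟨hi0p, hbi0⟩ := Finset.mem_filter.1 hi0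
  set F : ℕ → Polynomial k := fun i => if i < p then b i * W else 0 with hF
  have hFp : ∀ j, p ≤ j → F j = 0 := by
    intro j hj
    simp only [hF]
    rw [if_neg (by omega)]
  have hFtop : ∀ j, i0 < j → F j = 0 := by
    intro j hj
    simp only [hF]
    by_cases hjp : j < p
    · rw [if_pos hjp]
      by_contra h1
      have h2 : b j ≠ 0 := left_ne_zero_of_mul h1
      have h3 := hmax j (Finset.mem_filter.2 ⟨Finset.mem_range.2 hjp, h2⟩)
      omega
    · rw [if_neg hjp]
  have hsum : B * W.comp L = ∑ i ∈ Finset.range p, (F i).comp L * Polynomial.X ^ i := by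
    rw [hBb, Finset.sum_mul]
    refine Finset.sum_congr rfl fun i hi => ?_
    simp only [hF]
    rw [if_pos (Finset.mem_range.1 hi), Polynomial.mul_comp]
    ring
  rw [hsum, OrdS_iter L (OrdS_dL p) p F hFp] at hcoef
  have h1 := OrdS_uniq (p := p) _ hcoef i0 (Finset.mem_range.1 hi0p)
  rw [OrdS_top F i0 hFtop] at h1
  have h2 : Polynomial.derivative^[p - 1] (F i0) = 0 := by
    rcases mul_eq_zero.1 h1 with h3 | h3
    · exact absurd h3 (pow_ne_zero _ (neg_ne_zero.2 one_ne_zero))
    · exact h3
  have hFi0 : F i0 = b i0 * W := by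
    simp only [hF]
    rw [if_pos (Finset.mem_range.1 hi0p)]
  rw [hFi0, deriv_pred_eq_zero_iff] at h2
  exact hbi0 (h (b i0) (hb i0) h2)

end Pool.Agent.PRB
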