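import Pool.Agent.LibPRB.OrdB
import Pool.Agent.LibPRB.OrdS
import Pool.Agent.LibPRB.BoxA

/-!
# Ordinarity of the base covers

PLAN. `ordP_ell`: `ell = L.comp L`, `L = X^p - X`; `ordP_comp` (OrdS.lean) twice, `Polynomial.comp_assoc`,
`p * (p * N) = p^2 * N`.
`boxO`: let `n = p - 1` and let `q_i ∈ {0, ..., n-1}` be the exponents, `q_1 = n - d ≥ 1` (as `0 < d < n`).  The sum
`q_0 + q_1 + q_2` is divisible by `n` (`m0 + 1 + m2 = n`), positive and `< 3 n`.  If it is `n`: `ordP_one`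
(the polynomial is monic of degree `n`), `Nb = 1`.  If it is `2 n`: put `r_i = n - q_i`; then `r_i ≥ 1` and
`r_0 + r_1 + r_2 = n`, and `ordP_two` applies (`q_i = p - 1 - r_i`), `Nb = 2`.
-/

set_option autoImplicit false

namespace Pool.Agent.PRB

open Polynomial

variable {p : ℕ} [Fact p.Prime] {k : Type} [Field k] [CharP k p]

theorem ordP_ell (W : k[X]) (N : ℕ) (h : OrdP p W N) :
    OrdP p (W.comp (ell p k)) (p ^ 2 * N) := by
  have h1 := ordP_comp _ _ (ordP_comp W N h)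
  rw [Polynomial.comp_assoc] at h1
  have e1 : p ^ 2 * N = p * (p * N) := by ring
  rw [e1]
  exact h1

theorem boxO (hp2 : p ≠ 2) (m0 m2 : ℕ) (hm : m0 + 1 + m2 = p - 1) (d : ℕ) (hd0 : 0 < d)
    (hd : d < p - 1) : ∃ Nb : ℕ,
      OrdP p ((X : k[X]) ^ ((-((d : ℤ) * (m0 : ℤ))) % ((p : ℤ) - 1)).toNat *
        (X - 1) ^ ((-((d : ℤ) * 1)) % ((p : ℤ) - 1)).toNat *
        (X + 1) ^ ((-((d : ℤ) * (m2 : ℤ))) % ((p : ℤ) - 1)).toNat) Nb ∧
      (p - 1) * Nb = ((-((d : ℤ) * (m0 : ℤ))) % ((p : ℤ) - 1)).toNat +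
        ((-((d : ℤ) * 1)) % ((p : ℤ) - 1)).toNat +
        ((-((d : ℤ) * (m2 : ℤ))) % ((p : ℤ) - 1)).toNat := by
  have hp : p.Prime := Fact.out
  have hp1 := hp.one_lt
  have hcast : ((p - 1 : ℕ) : ℤ) = (p : ℤ) - 1 := by omega
  obtain ⟨n, hn⟩ : ∃ n : ℤ, n = (p : ℤ) - 1 := ⟨_, rfl⟩
  have hnpos : 0 < n := by omega
  have hdn : (d : ℤ) < n := by omega
  have hd0' : (0 : ℤ) < d := by exact_mod_cast hd0
  rw [← hn]
  have b0 : ∀ z : ℤ, 0 ≤ z % n := fun z => Int.emod_nonneg _ hnpos.ne'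
  have b1 : ∀ z : ℤ, z % n < n := fun z => Int.emod_lt_of_pos _ hnpos
  have hq1 : (-((d : ℤ) * 1)) % n = n - d := by
    have e1 : (-((d : ℤ) * 1)) = (n - d) + n * (-1) := by ring
    rw [e1, Int.add_mul_emod_self_left]
    exact Int.emod_eq_of_lt (by omega) (by omega)
  have hdiv : n ∣ (-((d : ℤ) * (m0 : ℤ))) % n + (-((d : ℤ) * 1)) % n +
      (-((d : ℤ) * (m2 : ℤ))) % n := by
    rw [Int.emod_def, Int.emod_def, Int.emod_def]
    have hm' : (m0 : ℤ) + 1 + m2 = n := by omega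
    refine ⟨-(d : ℤ) - (-((d : ℤ) * (m0 : ℤ))) / n - (-((d : ℤ) * 1)) / n -
      (-((d : ℤ) * (m2 : ℤ))) / n, ?_⟩
    linear_combination (-(d : ℤ)) * hm'
  have hA0 := b0 (-((d : ℤ) * (m0 : ℤ)))
  have hA1 := b1 (-((d : ℤ) * (m0 : ℤ)))
  have hC0 := b0 (-((d : ℤ) * (m2 : ℤ)))
  have hC1 := b1 (-((d : ℤ) * (m2 : ℤ)))
  rw [hq1] at hdiv ⊢
  generalize (-((d : ℤ) * (m0 : ℤ))) % n = q0 at *
  generalize (-((d : ℤ) * (m2 : ℤ))) % n = q2 at *
  obtain ⟨t, ht⟩ := hdiv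
  have ht0 : 0 < t := by
    by_contra hcon
    have : n * t ≤ 0 := mul_nonpos_of_nonneg_of_nonpos hnpos.le (not_lt.1 hcon)
    omega
  have ht3 : t < 3 := by
    by_contra hcon
    have : n * 3 ≤ n * t := mul_le_mul_of_nonneg_left (not_lt.1 hcon) hnpos.le
    omega
  have m1 : (X - 1 : k[X]).Monic := by
    simpa using Polynomial.monic_X_sub_C (1 : k)
  have m2' : (X + 1 : k[X]).Monic := by
    simpa using Polynomial.monic_X_add_C (1 : k)
  have d1 : (X - 1 : k[X]).natDegree = 1 := by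
    simpa using Polynomial.natDegree_X_sub_C (1 : k)
  have d2 : (X + 1 : k[X]).natDegree = 1 := by
    simpa using Polynomial.natDegree_X_add_C (1 : k)
  have ht12 : t = 1 ∨ t = 2 := by omega
  rcases ht12 with rfl | rfl
  · refine ⟨1, ordP_one _ (((Polynomial.monic_X_pow _).mul (m1.pow _)).mul (m2'.pow _)) ?_, ?_⟩
    · rw [Polynomial.Monic.natDegree_mul ((Polynomial.monic_X_pow _).mul (m1.pow _)) (m2'.pow _),
        Polynomial.Monic.natDegree_mul (Polynomial.monic_X_pow _) (m1.pow _),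
        Polynomial.natDegree_X_pow, m1.natDegree_pow, m2'.natDegree_pow, d1, d2]
      omega
    · omega
  · refine ⟨2, ?_, by omega⟩
    have h1 := ordP_two (k := k) hp2 (p - 1 - q0.toNat) (p - 1 - (n - d).toNat)
      (p - 1 - q2.toNat) (by omega)
    have e0 : p - 1 - (p - 1 - q0.toNat) = q0.toNat := by omega
    have e1 : p - 1 - (p - 1 - (n - d).toNat) = (n - d).toNat := by omega
    have e2 : p - 1 - (p - 1 - q2.toNat) = q2.toNat := by omega
    rw [e0, e1, e2] at h1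
    exact h1

end Pool.Agent.PRB
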