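import Pool.Agent.LibPRB.FixE

/-!
# Ordinarity: adding logarithmic poles

PLAN. By `deriv_pred_eq_zero_iff` the hypothesis says `derivative^[p-1] (B * (W * ∏ (X - C c) ^ (p-1))) = 0`.
For `c ∈ C` write this as `derivative^[p-1] (G * (X - C c) ^ (p - 1)) = 0`; its value at `c` is
`(p - 1)! * G.eval c` (Leibniz: `Polynomial.iterate_derivative_mul`, or Taylor expansion: the value at `c`
of the `(p-1)`-th derivative is `(p-1)!` times the coefficient of `X ^ (p-1)` of `taylor c`), so
`G.eval c = 0`, and as `W.eval c ≠ 0` and `c - c' ≠ 0` for the other `c' ∈ C`: `B.eval c = 0`.  Hence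
`B = (∏ c ∈ C, (X - C c)) * B'` (`Finset.prod_dvd_of_coprime`/`Polynomial.prod_X_sub_C_dvd_iff...`), with
`degree B' < N`, and `B * W * ∏ (X - C c) ^ (p - 1) = (∏ (X - C c)) ^ p * (B' * W)`; `derivative^[p-1]` commutes
with the multiplication by a `p`-th power (`derivative (f ^ p) = 0`), so `derivative^[p-1] (B' W) = 0`, `B' = 0`.
-/

set_option autoImplicit false

namespace Pool.Agent.PRB

variable {p : ℕ} [Fact p.Prime] {k : Type} [Field k] [CharP k p]

/-- multiplication by a polynomial with derivative zero -/
theorem OrdC_iter (F H : Polynomial k) (hF : Polynomial.derivative F = 0) (n : ℕ) :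
    Polynomial.derivative^[n] (F * H) = F * Polynomial.derivative^[n] H := by
  induction n with
  | zero => rfl
  | succ n ih =>
    rw [Function.iterate_succ_apply', ih, Polynomial.derivative_mul, hF, zero_mul, zero_add,
      Function.iterate_succ_apply']

/-- the value of the derivative -/
theorem OrdC_eval (G : Polynomial k) (c : k) (n : ℕ) :
    (Polynomial.derivative^[n] (G * (Polynomial.X - Polynomial.C c) ^ n)).eval c =
      (n.factorial : k) * G.eval c := by
  rw [Polynomial.iterate_derivative_mul, Polynomial.eval_finsetSum,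
    Finset.sum_eq_single_of_mem n (Finset.mem_range.2 (Nat.lt_succ_self n))]
  · rw [Polynomial.iterate_derivative_X_sub_pow]
    simp [Nat.descFactorial_self]
    ring
  · intro j hj hjn
    have hj' : j < n := lt_of_le_of_ne (Nat.lt_succ_iff.1 (Finset.mem_range.1 hj)) hjn
    rw [Polynomial.iterate_derivative_X_sub_pow]
    have h0 : n - j ≠ 0 := by omega
    simp [h0]

theorem OrdC_step (W : Polynomial k) (N : ℕ) (h : OrdP p W N) (c : k) (hc : W.eval c ≠ 0) :
    OrdP p (W * (Polynomial.X - Polynomial.C c) ^ (p - 1)) (N + 1) := by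
  have hp : p.Prime := Fact.out
  have hp0 := hp.pos
  intro B hB hi
  have h1 : Polynomial.derivative^[p - 1]
      ((B * W) * (Polynomial.X - Polynomial.C c) ^ (p - 1)) = 0 := by
    rw [mul_assoc]
    exact (deriv_pred_eq_zero_iff _).2 hi
  have h2 : (((p - 1).factorial : ℕ) : k) ≠ 0 := by
    intro h0
    rw [CharP.cast_eq_zero_iff k p, hp.dvd_factorial] at h0
    omega
  have h3 : (B * W).eval c = 0 := by
    have h4 := OrdC_eval (B * W) c (p - 1)
    rw [h1, Polynomial.eval_zero] at h4
    exact (mul_eq_zero.1 h4.symm).resolve_left h2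
  rw [Polynomial.eval_mul] at h3
  have h5 : B.IsRoot c := (mul_eq_zero.1 h3).resolve_right hc
  obtain ⟨B', rfl⟩ := Polynomial.dvd_iff_isRoot.2 h5
  have h6 : (Polynomial.X - Polynomial.C c) * B' * W *
      (Polynomial.X - Polynomial.C c) ^ (p - 1) =
      (Polynomial.X - Polynomial.C c) ^ p * (B' * W) := by
    conv_rhs => rw [show p = (p - 1) + 1 by omega, pow_succ]
    ring
  rw [h6, OrdC_iter] at h1
  · have h7 : (Polynomial.X - Polynomial.C c) ^ p ≠ 0 :=
      pow_ne_zero _ (Polynomial.X_sub_C_ne_zero c)
    have h8 : Polynomial.derivative^[p - 1] (B' * W) = 0 :=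
      (mul_eq_zero.1 h1).resolve_left h7
    have h9 : B' = 0 := by
      refine h B' ?_ ((deriv_pred_eq_zero_iff _).1 h8)
      by_contra hcon
      have hB0 : B' ≠ 0 := by
        rintro rfl
        exact hcon (by rw [Polynomial.degree_zero]; exact WithBot.bot_lt_coe _)
      have e1 : ((Polynomial.X - Polynomial.C c) * B').degree = 1 + B'.degree := by
        rw [Polynomial.degree_mul, Polynomial.degree_X_sub_C]
      rw [e1, Polynomial.degree_eq_natDegree hB0] at hB
      rw [Polynomial.degree_eq_natDegree hB0] at hcon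
      apply hcon
      have e2 : 1 + B'.natDegree < N + 1 := by exact_mod_cast hB
      have e3 : B'.natDegree < N := by omega
      exact_mod_cast e3
    rw [h9, mul_zero]
  · rw [Polynomial.derivative_pow]
    simp

theorem ordP_mul_prod (W : Polynomial k) (N : ℕ) (h : OrdP p W N) (C : Finset k)
    (hC : ∀ c ∈ C, W.eval c ≠ 0) :
    OrdP p (W * ∏ c ∈ C, (Polynomial.X - Polynomial.C c) ^ (p - 1)) (N + C.card) := by
  classical
  induction C using Finset.induction_on with
  | empty => simpa using h
  | insert c C hc ih =>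
    have h1 := ih fun c' hc' => hC c' (Finset.mem_insert_of_mem hc')
    have h2 := OrdC_step _ _ h1 c (by
      rw [Polynomial.eval_mul, Polynomial.eval_prod]
      refine mul_ne_zero (hC c (Finset.mem_insert_self _ _)) ?_
      rw [Finset.prod_ne_zero_iff]
      intro c' hc'
      rw [Polynomial.eval_pow]
      refine pow_ne_zero _ ?_
      rw [Polynomial.eval_sub, Polynomial.eval_X, Polynomial.eval_C, sub_ne_zero]
      rintro rfl
      exact hc hc')
    rw [Finset.prod_insert hc, Finset.card_insert_of_notMem hc]
    have e1 : W * ((Polynomial.X - Polynomial.C c) ^ (p - 1) *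
        ∏ c ∈ C, (Polynomial.X - Polynomial.C c) ^ (p - 1)) =
        W * (∏ c ∈ C, (Polynomial.X - Polynomial.C c) ^ (p - 1)) *
          (Polynomial.X - Polynomial.C c) ^ (p - 1) := by ring
    rw [e1, ← add_assoc]
    exact h2

end Pool.Agent.PRB
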