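import Pool.Agent.LibPRB.DatA

/-!
# Branch data constant on pieces: splitting off the logarithmic poles

PLAN. `datE_split`: if `0 < datD` and `(p-1) ∣ d m` both `(d m) % (p-1)` and `(-(d m)) % (p-1)` vanish; if
`(p-1) ∤ d m` then `(-(d m)) % (p-1) = (p-1) - (d m) % (p-1)` (`Int.emod` uniqueness, `Int.neg_emod` or
`Int.emod_emod_of...`: both sides are in `0..p-2` and congruent).
`pie_prod`: for each piece `(∏ c ∈ S i, (X - C c)) ^ datE = (∏ c ∈ S i, (X - C c)) ^ datQ * (∏ c ∈ S i, (X - C c) ^ (p-1) or 1)`,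
`Finset.prod_mul_distrib`, `Finset.prod_biUnion` (pairwise disjoint), `Finset.prod_filter`, `Finset.prod_pow`.
`pie_card`: the same with sums, `Finset.card_biUnion`.
`pie_mem`: `Finset.mem_biUnion`, `Finset.mem_filter`.
-/

set_option autoImplicit false

namespace Pool.Agent.PRB

open Polynomial

/-- The exponent of `W_d` without logarithmic pole. -/
def datQ (p : ℕ) (m : ℤ) (d : ℕ) : ℕ := ((-(d * m)) % (p - 1 : ℤ)).toNat

open Classical in
/-- The points at which a logarithmic pole is allowed in degree `d`. -/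
noncomputable def logSet (p : ℕ) {k : Type} {r : ℕ} (S : Fin r → Finset k) (m ν : Fin r → ℤ)
    (d : ℕ) : Finset k :=
  (Finset.univ.filter fun i => 0 < datD p (m i) (ν i) ∧ ((p : ℤ) - 1) ∣ d * m i).biUnion S

variable {p : ℕ} [Fact p.Prime] {k : Type} [Field k]

theorem datE_split (m ν : ℤ) (d : ℕ) :
    datE p m ν d = datQ p m d + if 0 < datD p m ν ∧ ((p : ℤ) - 1) ∣ d * m then p - 1 else 0 := by
  have hn := DatA_n (p := p)
  have hp2 := (Fact.out : p.Prime).two_le
  have hmod : ∀ x : ℤ, ((p : ℤ) - 1) ∣ x → x % ((p : ℤ) - 1) = 0 := fun x h =>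
    Int.emod_eq_zero_of_dvd h
  unfold datE datQ
  by_cases h1 : 0 < datD p m ν
  · by_cases h2 : ((p : ℤ) - 1) ∣ d * m
    · rw [if_pos h1, if_pos ⟨h1, h2⟩, hmod _ h2, hmod _ ((dvd_neg).2 h2)]
      omega
    · rw [if_pos h1, if_neg (fun h => h2 h.2), add_zero]
      congr 1
      have e1 : -((d : ℤ) * m) = ((p : ℤ) - 1 - (d * m) % ((p : ℤ) - 1)) +
          ((p : ℤ) - 1) * (-((d * m) / ((p : ℤ) - 1)) - 1) := by
        have := Int.emod_add_mul_ediv ((d : ℤ) * m) ((p : ℤ) - 1)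
        linear_combination this
      have h3 := Int.emod_nonneg ((d : ℤ) * m) hn.ne'
      have h4 : (d : ℤ) * m % ((p : ℤ) - 1) ≠ 0 := fun h => h2 (Int.dvd_of_emod_eq_zero h)
      have h5 := Int.emod_lt_of_pos ((d : ℤ) * m) hn
      conv_rhs => rw [e1, Int.add_mul_emod_self_left]
      exact (Int.emod_eq_of_lt (by linarith) (by omega)).symm
  · rw [if_neg h1, if_neg (fun h => h1 h.1), add_zero]

private theorem PieL_log [DecidableEq k] {r : ℕ} (S : Fin r → Finset k) (m ν : Fin r → ℤ)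
    (d : ℕ) : logSet p S m ν d =
      (Finset.univ.filter fun i => 0 < datD p (m i) (ν i) ∧ ((p : ℤ) - 1) ∣ d * m i).biUnion S := by
  ext c
  simp only [logSet, Finset.mem_biUnion, Finset.mem_filter]

theorem pie_prod {r : ℕ} (S : Fin r → Finset k) (hdj : ∀ i j, i ≠ j → Disjoint (S i) (S j))
    (m ν : Fin r → ℤ) (d : ℕ) :
    ∏ i, (∏ c ∈ S i, (X - C c : k[X])) ^ datE p (m i) (ν i) d =
      (∏ i, (∏ c ∈ S i, (X - C c : k[X])) ^ datQ p (m i) d) *
        ∏ c ∈ logSet p S m ν d, (X - C c) ^ (p - 1) := by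
  classical
  have h1 : ∀ i, (∏ c ∈ S i, (X - C c : k[X])) ^ datE p (m i) (ν i) d =
      (∏ c ∈ S i, (X - C c : k[X])) ^ datQ p (m i) d *
        (if 0 < datD p (m i) (ν i) ∧ ((p : ℤ) - 1) ∣ d * m i then
          ∏ c ∈ S i, (X - C c : k[X]) ^ (p - 1) else 1) := by
    intro i
    rw [datE_split, pow_add]
    congr 1
    split_ifs with h
    · rw [Finset.prod_pow]
    · rw [pow_zero]
  rw [Finset.prod_congr rfl (fun i _ => h1 i), Finset.prod_mul_distrib]
  congr 1
  rw [← Finset.prod_filter, PieL_log, Finset.prod_biUnion]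
  intro i _ j _ hij
  exact hdj i j hij

theorem pie_card {r : ℕ} (S : Fin r → Finset k) (hdj : ∀ i j, i ≠ j → Disjoint (S i) (S j))
    (m ν : Fin r → ℤ) (d : ℕ) :
    ∑ i, (S i).card * datE p (m i) (ν i) d =
      ∑ i, (S i).card * datQ p (m i) d + (p - 1) * (logSet p S m ν d).card := by
  classical
  have h1 : ∀ i, (S i).card * datE p (m i) (ν i) d = (S i).card * datQ p (m i) d +
      (if 0 < datD p (m i) (ν i) ∧ ((p : ℤ) - 1) ∣ d * m i then (p - 1) * (S i).card else 0) := by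
    intro i
    rw [datE_split, mul_add]
    congr 1
    split_ifs with h
    · rw [mul_comm]
    · rw [mul_zero]
  rw [Finset.sum_congr rfl (fun i _ => h1 i), Finset.sum_add_distrib]
  congr 1
  rw [← Finset.sum_filter, PieL_log, Finset.card_biUnion, Finset.mul_sum]
  intro i _ j _ hij
  exact hdj i j hij

theorem pie_mem {r : ℕ} {S : Fin r → Finset k} {m ν : Fin r → ℤ} {d : ℕ} {c : k} :
    c ∈ logSet p S m ν d ↔ ∃ i, 0 < datD p (m i) (ν i) ∧ ((p : ℤ) - 1) ∣ d * m i ∧ c ∈ S i := by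
  simp only [logSet, Finset.mem_biUnion, Finset.mem_filter, Finset.mem_univ, true_and, and_assoc]

theorem datQ_zero (m : ℤ) : datQ p m 0 = 0 := by
  unfold datQ
  simp

/-- If no exponent of `W_d` without logarithmic poles is divisible... the points with
`(p-1) ∣ d m` have exponent `0`. -/
theorem datQ_eq_zero_iff (m : ℤ) (d : ℕ) : datQ p m d = 0 ↔ ((p : ℤ) - 1) ∣ d * m := by
  have hn := DatA_n (p := p)
  unfold datQ
  rw [Int.toNat_eq_zero]
  have h3 := Int.emod_nonneg (-((d : ℤ) * m)) hn.ne'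
  constructor
  · intro h
    exact (dvd_neg).1 (Int.dvd_of_emod_eq_zero (le_antisymm h h3))
  · intro h
    exact (Int.emod_eq_zero_of_dvd ((dvd_neg).2 h)).le

end Pool.Agent.PRB
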