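import Pool.Agent.LibPRB.HasP
import Pool.Agent.LibPRB.PieL
import Pool.Agent.LibPRB.BoxA
import Pool.Agent.LibPRB.BoxB
import Pool.Agent.LibPRB.BoxC
import Pool.Agent.LibPRB.BoxO
import Pool.Agent.LibPRB.BoxN
import Pool.Agent.LibPRB.OrdC
import Pool.Agent.LibPRB.Box2

/-! # All curves with large `p`-rank -/

set_option autoImplicit false

namespace Pool.Agent.PRB

open Polynomial

theorem Box_disj {p : ℕ} [Fact p.Prime] {k : Type} [Field k] [IsAlgClosed k] [CharP k p]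
    {b b' : k} (h : b ≠ b') : Disjoint (fib p b) (fib p b') := by
  rw [Finset.disjoint_left]
  intro x hx hx'
  rw [mem_fib] at hx hx'
  exact h (hx.symm.trans hx')

theorem Box_eval {p : ℕ} [Fact p.Prime] {k : Type} [Field k] [IsAlgClosed k] [CharP k p]
    (b c : k) : (ell p k - C b).eval c = 0 ↔ c ∈ fib p b := by
  rw [mem_fib, eval_sub, eval_C, sub_eq_zero]

/-- Ordinarity for the pieces. -/
theorem Box_ord {p : ℕ} [Fact p.Prime] {k : Type} [Field k] [IsAlgClosed k] [CharP k p]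
    [DecidableEq k] (hp2 : p ≠ 2) (m0 m2 : ℕ) (hm : m0 + 1 + m2 = p - 1) (X' A' B : Finset k)
    (τ a0 : k)
    (hA : A' ⊆ fib p (0 : k)) (hB : B ⊆ fib p (1 : k)) (hτ : τ ∈ A') (ha0 : a0 ∈ A')
    (hne : a0 ≠ τ) (hC0 : Disjoint (fib p (0 : k)) X') (hC1 : Disjoint (fib p (1 : k)) X')
    (hC2 : Disjoint (fib p (-1 : k)) X') (h01 : Disjoint (fib p (0 : k)) (fib p (1 : k)))
    (h02 : Disjoint (fib p (0 : k)) (fib p (-1 : k)))
    (h12 : Disjoint (fib p (1 : k)) (fib p (-1 : k)))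
    (l r : ℤ) (hm0 : 3 ≤ m0) (hr : 0 ≤ r) (m ν : Fin 8 → ℤ)
    (hmd : m = ![(m0 : ℤ), m0, m0, m0, 1, 1, m2, 0])
    (hνd : ν = ![(m0 : ℤ) + 1, m0, m0 - l, m0 + 1 + r, 2, 1, m2 + 1, -1]) (νI : ℤ)
    (hI : 0 < datD p (-(p ^ 2 * (p - 1))) νI) (d : ℕ)
    (hd : d < p - 1) :
    OrdP p (∏ i, (∏ c ∈ boxS (fib p 0) (fib p 1) (fib p (-1)) X' A' B τ a0 i,
        (X - C c : k[X])) ^ datE p (m i) (ν i) d)
      ((∑ i, (boxS (fib p 0) (fib p 1) (fib p (-1)) X' A' B τ a0 i).card *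
        datE p (m i) (ν i) d + datE p (-(p ^ 2 * (p - 1))) νI d) / (p - 1) - 1) := by
  have hp : p.Prime := Fact.out
  have hn : (0 : ℤ) < (p : ℤ) - 1 := DatA_n
  have hc1 : ((p - 1 : ℕ) : ℤ) = (p : ℤ) - 1 := by
    push_cast [show 1 ≤ p from hp.one_lt.le]; ring
  have hp1 : 0 < p - 1 := by omega
  set S := boxS (fib p 0) (fib p 1) (fib p (-1)) X' A' B τ a0 with hS
  have hdj := Box1_dj (fib p 0) (fib p 1) (fib p (-1)) X' A' B τ a0 h01 h02 h12 hC0 hC1 hC2 hA hB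
    hτ ha0 hne
  rw [← hS] at hdj
  set q0 := datQ p m0 d with hq0
  set q1 := datQ p 1 d with hq1
  set q2 := datQ p m2 d with hq2
  have hq : (fun i => datQ p (m i) d) = ![q0, q0, q0, q0, q1, q1, q2, 0] := by
    funext i
    rw [hmd]
    fin_cases i <;> first | rfl | simp [datQ]
  have hprod := Box2_prod (fib p 0) (fib p 1) (fib p (-1)) X' A' B τ a0 hA hB hτ ha0 hne
    (fun c => (X - C c : k[X])) q0 q1 q2 (fun i => datQ p (m i) d) hq
  rw [ell_fib_prod, ell_fib_prod, ell_fib_prod] at hprod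
  have hcard : ∑ i, (S i).card * datQ p (m i) d = p ^ 2 * (q0 + q1 + q2) := by
    have h1 := Box2_prod (fib p 0) (fib p 1) (fib p (-1)) X' A' B τ a0 hA hB hτ ha0 hne
      (fun _ => Multiplicative.ofAdd (1 : ℕ)) q0 q1 q2 (fun i => datQ p (m i) d) hq
    have h2 := congrArg Multiplicative.toAdd h1
    simp only [Finset.prod_const, toAdd_prod, toAdd_pow, toAdd_mul, toAdd_ofAdd, smul_eq_mul,
      mul_one, fib_card] at h2
    rw [← hS] at h2
    rw [Finset.sum_congr rfl fun i _ => mul_comm (S i).card (datQ p (m i) d), h2]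
    ring
  rw [pie_prod S hdj m ν d, pie_card S hdj m ν d, hprod, hcard]
  -- the base
  obtain ⟨Nb, hNb, hNb2, hd0⟩ : ∃ Nb : ℕ,
      OrdP p ((X : k[X]) ^ q0 * (X - 1) ^ q1 * (X + 1) ^ q2) Nb ∧
        (p - 1) * Nb = q0 + q1 + q2 ∧ True := by
    rcases Nat.eq_zero_or_pos d with h | h
    · refine ⟨0, ordP_zero _ _, ?_, trivial⟩
      have h0 : ∀ x : ℤ, datQ p x d = 0 := fun x => by rw [h]; exact datQ_zero x
      simp only [hq0, hq1, hq2, h0, mul_zero, add_zero]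
    · obtain ⟨Nb, h1, h2⟩ := boxO (p := p) (k := k) hp2 m0 m2 hm d h hd
      exact ⟨Nb, h1, h2, trivial⟩
  have hbase := ordP_ell _ _ hNb
  have hcomp : ((X : k[X]) ^ q0 * (X - 1) ^ q1 * (X + 1) ^ q2).comp (ell p k) =
      (ell p k - C 0) ^ q0 * (ell p k - C 1) ^ q1 * (ell p k - C (-1)) ^ q2 := by
    simp only [mul_comp, pow_comp, sub_comp, add_comp, X_comp, one_comp, map_zero, map_one,
      map_neg, sub_zero, sub_neg_eq_add]
  rw [hcomp] at hbase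
  have hfin := ordP_mul_prod _ _ hbase (logSet p S m ν d) ?_
  · have hdI : datE p (-(p ^ 2 * (p - 1))) νI d = p - 1 := by
      have h3 : datQ p (-((p : ℤ) ^ 2 * (p - 1))) d = 0 := by
        rw [datQ_eq_zero_iff]
        exact ⟨-(d * p ^ 2), by ring⟩
      rw [datE_split, if_pos ⟨hI, ⟨-(d * p ^ 2), by ring⟩⟩, h3, zero_add]
    rw [hdI]
    have h4 : (p ^ 2 * (q0 + q1 + q2) + (p - 1) * (logSet p S m ν d).card + (p - 1)) / (p - 1) - 1
        = p ^ 2 * Nb + (logSet p S m ν d).card := by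
      rw [← hNb2]
      have h5 : p ^ 2 * ((p - 1) * Nb) + (p - 1) * (logSet p S m ν d).card + (p - 1) =
          (p - 1) * (p ^ 2 * Nb + (logSet p S m ν d).card + 1) := by ring
      rw [h5, Nat.mul_div_cancel_left _ hp1]
      omega
    rw [h4]
    exact hfin
  -- the polynomial does not vanish at the logarithmic points
  intro c hc
  rw [pie_mem] at hc
  obtain ⟨i, hi1, hi2, hi3⟩ := hc
  rw [← datQ_eq_zero_iff] at hi2
  rw [eval_mul, eval_mul, eval_pow, eval_pow, eval_pow]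
  have e0 : c ∉ fib p (0 : k) → (ell p k - C 0).eval c ^ q0 ≠ 0 := fun h =>
    pow_ne_zero _ (mt (Box_eval _ _).1 h)
  have e1 : c ∉ fib p (1 : k) → (ell p k - C 1).eval c ^ q1 ≠ 0 := fun h =>
    pow_ne_zero _ (mt (Box_eval _ _).1 h)
  have e2 : c ∉ fib p (-1 : k) → (ell p k - C (-1)).eval c ^ q2 ≠ 0 := fun h =>
    pow_ne_zero _ (mt (Box_eval _ _).1 h)
  have case0 : c ∈ fib p (0 : k) → q0 = 0 → (ell p k - C 0).eval c ^ q0 *
      (ell p k - C 1).eval c ^ q1 * (ell p k - C (-1)).eval c ^ q2 ≠ 0 := by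
    intro h hq
    refine mul_ne_zero (mul_ne_zero (by rw [hq, pow_zero]; exact one_ne_zero)
      (e1 (Finset.disjoint_left.1 h01 h))) (e2 (Finset.disjoint_left.1 h02 h))
  have case1 : c ∈ fib p (1 : k) → q1 = 0 → (ell p k - C 0).eval c ^ q0 *
      (ell p k - C 1).eval c ^ q1 * (ell p k - C (-1)).eval c ^ q2 ≠ 0 := by
    intro h hq
    refine mul_ne_zero (mul_ne_zero (e0 (Finset.disjoint_right.1 h01 h))
      (by rw [hq, pow_zero]; exact one_ne_zero)) (e2 (Finset.disjoint_left.1 h12 h))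
  have case2 : c ∈ fib p (-1 : k) → q2 = 0 → (ell p k - C 0).eval c ^ q0 *
      (ell p k - C 1).eval c ^ q1 * (ell p k - C (-1)).eval c ^ q2 ≠ 0 := by
    intro h hq
    refine mul_ne_zero (mul_ne_zero (e0 (Finset.disjoint_right.1 h02 h))
      (e1 (Finset.disjoint_right.1 h12 h))) (by rw [hq, pow_zero]; exact one_ne_zero)
  rw [hmd] at hi2
  match i, hi2, hi3 with
  | 0, hi2, hi3 => exact case0 (Finset.mem_sdiff.1 hi3).1 hi2
  | 1, hi2, hi3 =>
    exact case0 (hA (Finset.mem_of_mem_erase (Finset.mem_of_mem_erase hi3))) hi2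
  | 2, hi2, hi3 => exact case0 ((Finset.mem_singleton.1 hi3) ▸ hA ha0) hi2
  | 3, hi2, hi3 => exact case0 ((Finset.mem_singleton.1 hi3) ▸ hA hτ) hi2
  | 4, hi2, hi3 => exact case1 (Finset.mem_sdiff.1 hi3).1 hi2
  | 5, hi2, hi3 => exact case1 (hB hi3) hi2
  | 6, hi2, hi3 => exact case2 hi3 hi2
  | 7, hi2, hi3 =>
    exact mul_ne_zero (mul_ne_zero (e0 (Finset.disjoint_right.1 hC0 hi3))
      (e1 (Finset.disjoint_right.1 hC1 hi3))) (e2 (Finset.disjoint_right.1 hC2 hi3))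

theorem box_main (p : ℕ) [Fact p.Prime] (h5 : 5 ≤ p) (f a : ℕ) (hf : 4 * p ^ 3 ≤ f) (ha : 1 ≤ a)
    (hpa : ¬ 12 ∣ p - 1 ∨ (p - 1) ^ 2 ≤ 4 * a) : HasCurve p (f + a) f := by
  classical
  have hch : CharP (AlgebraicClosure (ZMod p)) p :=
    charP_of_injective_algebraMap (algebraMap (ZMod p) (AlgebraicClosure (ZMod p))).injective p
  obtain ⟨m0, m2, j, l, D, i, δ, hm, hm0, hj1, hjp, hl, hD1, hpD, hip, hδ, hfe, hae⟩ :=
    boxN p Fact.out h5 f a hf ha hpa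
  have hp : p.Prime := Fact.out
  have hp2 : p ≠ 2 := by omega
  have hn : (0 : ℤ) < (p : ℤ) - 1 := by omega
  have hn0 : ((p : ℤ) - 1) ≠ 0 := hn.ne'
  have hc1 : ((p - 1 : ℕ) : ℤ) = (p : ℤ) - 1 := by push_cast [show 1 ≤ p by omega]; ring
  have hmz : (m0 : ℤ) + 1 + m2 = p - 1 := by rw [← hc1]; exact_mod_cast hm
  have hm0z : (3 : ℤ) ≤ m0 := by exact_mod_cast hm0
  have hlz : (l : ℤ) ≤ 1 := by exact_mod_cast hl
  have hl0 : (0 : ℤ) ≤ l := by positivity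
  have hm2z : (0 : ℤ) ≤ m2 := by positivity
  have hD1z : (1 : ℤ) ≤ D := by exact_mod_cast hD1
  -- the point sets
  obtain ⟨Fp, hFpc, hFp⟩ := exists_fp (p := p) (k := AlgebraicClosure (ZMod p))
  obtain ⟨A', hA'F, hA'c⟩ := Finset.exists_subset_card_eq (s := Fp) (n := j + 1) (by omega)
  obtain ⟨τ, hτ⟩ : A'.Nonempty := Finset.card_pos.1 (by omega)
  obtain ⟨a0, ha0e⟩ : (A'.erase τ).Nonempty :=
    Finset.card_pos.1 (by rw [Finset.card_erase_of_mem hτ]; omega)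
  obtain ⟨hne, ha0⟩ := Finset.mem_erase.1 ha0e
  obtain ⟨B, hBF, hBc, hBφ⟩ := exists_fib_sub (p := p) (k := AlgebraicClosure (ZMod p)) hp2 i hip
  obtain ⟨C, hCc, hCφ, hCj⟩ := exists_orbit (p := p) (k := AlgebraicClosure (ZMod p)) δ
    (by nlinarith)
  have hfix : ∀ c ∈ A', c ^ p = c := fun c hc => (hFp c).1 (hA'F hc)
  have hA'0 : A' ⊆ fib p (0 : AlgebraicClosure (ZMod p)) := fun c hc => fib_zero (hfix c hc)
  -- disjointness
  have h01 : Disjoint (fib p (0 : AlgebraicClosure (ZMod p))) (fib p 1) := Box_disj zero_ne_one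
  have hne1 : (1 : AlgebraicClosure (ZMod p)) ≠ -1 := by
    intro h
    have h2 : ((2 : ℕ) : AlgebraicClosure (ZMod p)) = 0 := by
      push_cast
      linear_combination h
    rw [CharP.cast_eq_zero_iff (AlgebraicClosure (ZMod p)) p] at h2
    have := Nat.le_of_dvd (by norm_num) h2
    omega
  have h02 : Disjoint (fib p (0 : AlgebraicClosure (ZMod p))) (fib p (-1)) :=
    Box_disj (by intro h; exact neg_ne_zero.2 one_ne_zero h.symm)
  have h12 : Disjoint (fib p (1 : AlgebraicClosure (ZMod p))) (fib p (-1)) := Box_disj hne1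
  have hb1 : (-1 : AlgebraicClosure (ZMod p)) ^ p = -1 := by
    rw [Odd.neg_one_pow (hp.odd_of_ne_two hp2)]
  have hCnot : ∀ b : AlgebraicClosure (ZMod p), b ^ p = b → ∀ c ∈ C, c ∉ fib p b := by
    intro b hb c hc hcb
    have h1 := fib_iter hp2 hb hcb
    have h2 := (hCj c hc p).1 h1
    have h3 := Nat.le_of_dvd (by omega) h2
    nlinarith
  have hC0 : Disjoint (fib p (0 : AlgebraicClosure (ZMod p))) C := by
    rw [Finset.disjoint_left]
    exact fun c h1 h2 => hCnot 0 (zero_pow hp.ne_zero) c h2 h1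
  have hC1 : Disjoint (fib p (1 : AlgebraicClosure (ZMod p))) C := by
    rw [Finset.disjoint_left]
    exact fun c h1 h2 => hCnot 1 (one_pow _) c h2 h1
  have hC2 : Disjoint (fib p (-1 : AlgebraicClosure (ZMod p))) C := by
    rw [Finset.disjoint_left]
    exact fun c h1 h2 => hCnot (-1) hb1 c h2 h1
  -- the data
  set r : ℤ := (D : ℤ) - 2 * p ^ 2 + l + j + p * i + δ with hr
  have hr0 : 0 ≤ r := by
    have : (2 : ℤ) * p ^ 2 ≤ δ := by exact_mod_cast hδ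
    rw [hr]
    have h1 : (0 : ℤ) ≤ (p : ℤ) * i := by positivity
    have h4 : (0 : ℤ) ≤ (j : ℤ) := by positivity
    linarith
  set m : Fin 8 → ℤ := ![(m0 : ℤ), m0, m0, m0, 1, 1, m2, 0] with hmd
  set ν : Fin 8 → ℤ := ![(m0 : ℤ) + 1, m0, m0 - l, m0 + 1 + r, 2, 1, m2 + 1, -1] with hνd
  set S := boxS (fib p (0 : AlgebraicClosure (ZMod p))) (fib p 1) (fib p (-1)) C A' B τ a0 with hS
  have hcards : ∀ {M : Type} [AddCommMonoid M] (G : Fin 8 → ℕ → M),
      ∑ i, G i (S i).card = G 0 (p ^ 2 - (j + 1)) + G 1 (j - 1) + G 2 1 + G 3 1 +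
        G 4 (p ^ 2 - p * i) + G 5 (p * i) + G 6 (p ^ 2) + G 7 δ := by
    intro M _ G
    have h1 := Box2_cards (fib p (0 : AlgebraicClosure (ZMod p))) (fib p 1) (fib p (-1)) C A' B τ a0
      hA'0 hBF hτ ha0 hne G
    rw [hA'c, hBc, hCc, fib_card, fib_card, fib_card] at h1
    exact h1
  have hpz : (5 : ℤ) ≤ p := by exact_mod_cast h5
  have cz0 : ((p ^ 2 - (j + 1) : ℕ) : ℤ) = (p : ℤ) ^ 2 - (j + 1) := by
    have : j + 1 ≤ p ^ 2 := by nlinarith
    push_cast [this]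
    ring
  have cz1 : ((j - 1 : ℕ) : ℤ) = (j : ℤ) - 1 := by push_cast [hj1]; ring
  have cz4 : ((p ^ 2 - p * i : ℕ) : ℤ) = (p : ℤ) ^ 2 - p * i := by
    have : p * i ≤ p ^ 2 := by nlinarith
    push_cast [this]
    ring
  have D0 : datD p m0 (m0 + 1) = m0 - (p - 1) := by unfold datD; ring
  have D1 : datD p m0 m0 = m0 := by unfold datD; ring
  have D2 : datD p m0 (m0 - l) = m0 + (p - 1) * l := by unfold datD; ring
  have D3 : datD p m0 (m0 + 1 + r) = m0 - (p - 1) - (p - 1) * r := by unfold datD; ring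
  have D4 : datD p 1 2 = 2 - p := by unfold datD; ring
  have D5 : datD p 1 1 = 1 := by unfold datD; ring
  have D6 : datD p m2 (m2 + 1) = m2 - (p - 1) := by unfold datD; ring
  have D7 : datD p 0 (-1) = p - 1 := by unfold datD; ring
  have N0 : ¬ 0 < datD p m0 (m0 + 1) := by rw [D0]; linarith
  have P1 : 0 < datD p m0 m0 := by rw [D1]; linarith
  have P2 : 0 < datD p m0 (m0 - l) := by
    rw [D2]
    have : 0 ≤ ((p : ℤ) - 1) * l := mul_nonneg hn.le hl0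
    linarith
  have N3 : ¬ 0 < datD p m0 (m0 + 1 + r) := by
    rw [D3]
    have : 0 ≤ ((p : ℤ) - 1) * r := mul_nonneg hn.le hr0
    linarith
  have N4 : ¬ 0 < datD p 1 2 := by rw [D4]; linarith
  have P5 : 0 < datD p 1 1 := by rw [D5]; norm_num
  have N6 : ¬ 0 < datD p m2 (m2 + 1) := by rw [D6]; linarith
  have P7 : 0 < datD p 0 (-1) := by rw [D7]; linarith
  have hsm : ∀ x : ℤ, 0 < x → x < p → ¬ (p : ℤ) ∣ x := by
    intro x h1 h2 h3
    have := Int.le_of_dvd h1 h3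
    linarith
  have hpp1 : ¬ (p : ℤ) ∣ (p : ℤ) - 1 := hsm _ hn (by linarith)
  have hmI : (-((p : ℤ) ^ 2 * (p - 1))) = -∑ i, ((S i).card : ℤ) * m i := by
    rw [hcards (fun i x => (x : ℤ) * m i)]
    change _ = -((((p ^ 2 - (j + 1) : ℕ) : ℤ)) * m0 + ((j - 1 : ℕ) : ℤ) * m0 + ((1 : ℕ) : ℤ) * m0 +
      ((1 : ℕ) : ℤ) * m0 + ((p ^ 2 - p * i : ℕ) : ℤ) * 1 + ((p * i : ℕ) : ℤ) * 1 +
      ((p ^ 2 : ℕ) : ℤ) * m2 + (δ : ℤ) * 0)
    rw [cz0, cz1, cz4, ← hmz]
    push_cast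
    ring
  have hνI : (-((p : ℤ) ^ 3 + D)) = -∑ i, ((S i).card : ℤ) * ν i := by
    rw [hcards (fun i x => (x : ℤ) * ν i)]
    change _ = -((((p ^ 2 - (j + 1) : ℕ) : ℤ)) * (m0 + 1) + ((j - 1 : ℕ) : ℤ) * m0 +
      ((1 : ℕ) : ℤ) * (m0 - l) +
      ((1 : ℕ) : ℤ) * (m0 + 1 + r) + ((p ^ 2 - p * i : ℕ) : ℤ) * 2 + ((p * i : ℕ) : ℤ) * 1 +
      ((p ^ 2 : ℕ) : ℤ) * (m2 + 1) + (δ : ℤ) * (-1))
    rw [cz0, cz1, cz4, hr]
    have hm2' : (m2 : ℤ) = p - 2 - m0 := by linarith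
    rw [hm2']
    push_cast
    ring
  have hDI : datD p (-((p : ℤ) ^ 2 * (p - 1))) (-((p : ℤ) ^ 3 + D)) = (p - 1) * D := by
    unfold datD
    ring
  have hDIpos : 0 < datD p (-((p : ℤ) ^ 2 * (p - 1))) (-((p : ℤ) ^ 3 + D)) := by
    rw [hDI]
    exact mul_pos hn (by linarith)
  have hprime : Prime (p : ℤ) := Nat.prime_iff_prime_int.1 hp
  refine hasCurve_piecesO p 8 S
    (Box1_dj _ _ _ C A' B τ a0 h01 h02 h12 hC0 hC1 hC2 hA'0 hBF hτ ha0 hne)
    (Box1_phi _ _ _ C A' B τ a0 (fun c hc => fib_pow (zero_pow hp.ne_zero) hc)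
      (fun c hc => fib_pow (one_pow _) hc) (fun c hc => fib_pow hb1 hc) hCφ hfix hBφ hτ ha0)
    m ν _ _ hmI hνI ?_ ?_ (Or.inr hDIpos) ?_ (f + a) f ?_ ?_
  · intro i _ hi
    match i, hi with
    | 0, hi => exact absurd hi N0
    | 1, hi =>
      change ¬ (p : ℤ) ∣ datD p m0 m0
      rw [D1]
      exact hsm _ (by linarith) (by linarith)
    | 2, hi =>
      change ¬ (p : ℤ) ∣ datD p m0 (m0 - l)
      rw [D2]
      intro h
      have h1 : (p : ℤ) ∣ m0 - l := by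
        have h2 : (m0 : ℤ) - l = (m0 + (p - 1) * l) - p * l := by ring
        rw [h2]
        exact dvd_sub h (dvd_mul_right _ _)
      exact hsm _ (by linarith) (by linarith) h1
    | 3, hi => exact absurd hi N3
    | 4, hi => exact absurd hi N4
    | 5, hi =>
      change ¬ (p : ℤ) ∣ datD p 1 1
      rw [D5]
      exact hsm _ (by norm_num) (by linarith)
    | 6, hi => exact absurd hi N6
    | 7, hi =>
      change ¬ (p : ℤ) ∣ datD p 0 (-1)
      rw [D7]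
      exact hpp1
  · intro _ h
    rw [hDI] at h
    rcases hprime.dvd_or_dvd h with h | h
    · exact hpp1 h
    · exact hpD (by exact_mod_cast h)
  · intro d hd
    exact Box_ord hp2 m0 m2 hm C A' B τ a0 hA'0 hBF hτ ha0 hne hC0 hC1 hC2 h01 h02 h12 l r hm0
      hr0 m ν hmd hνd _ hDIpos d hd
  · have G0 : datG p m0 (m0 + 1) = (p - 1) - Int.gcd m0 (p - 1) := by unfold datG; rw [if_neg N0]
    have G1 : datG p m0 m0 = (p - 1) + m0 := by unfold datG; rw [if_pos P1, D1]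
    have G2 : datG p m0 (m0 - l) = (p - 1) + (m0 + (p - 1) * l) := by
      unfold datG; rw [if_pos P2, D2]
    have G3 : datG p m0 (m0 + 1 + r) = (p - 1) - Int.gcd m0 (p - 1) := by
      unfold datG; rw [if_neg N3]
    have G4 : datG p 1 2 = (p - 1) - 1 := by unfold datG; rw [if_neg N4]; simp
    have G5 : datG p 1 1 = (p - 1) + 1 := by unfold datG; rw [if_pos P5, D5]
    have G6 : datG p m2 (m2 + 1) = (p - 1) - Int.gcd m2 (p - 1) := by unfold datG; rw [if_neg N6]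
    have G7 : datG p 0 (-1) = (p - 1) + (p - 1) := by unfold datG; rw [if_pos P7, D7]
    have GI : datG p (-((p : ℤ) ^ 2 * (p - 1))) (-((p : ℤ) ^ 3 + D)) = (p - 1) + (p - 1) * D := by
      unfold datG; rw [if_pos hDIpos, hDI]
    rw [hcards (fun i x => (x : ℤ) * datG p (m i) (ν i)), GI]
    change _ = (((p ^ 2 - (j + 1) : ℕ) : ℤ)) * datG p m0 (m0 + 1) +
      ((j - 1 : ℕ) : ℤ) * datG p m0 m0 + ((1 : ℕ) : ℤ) * datG p m0 (m0 - l) +
      ((1 : ℕ) : ℤ) * datG p m0 (m0 + 1 + r) + ((p ^ 2 - p * i : ℕ) : ℤ) * datG p 1 2 +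
      ((p * i : ℕ) : ℤ) * datG p 1 1 +
      ((p ^ 2 : ℕ) : ℤ) * datG p m2 (m2 + 1) + (δ : ℤ) * datG p 0 (-1) + _
    rw [G0, G1, G2, G3, G4, G5, G6, G7, cz0, cz1, cz4]
    push_cast
    linear_combination hfe + hae
  · have G0 : datF p m0 (m0 + 1) = (p - 1) - Int.gcd m0 (p - 1) := by unfold datF; rw [if_neg N0]
    have G1 : datF p m0 m0 = (p - 1) + Int.gcd m0 (p - 1) := by unfold datF; rw [if_pos P1]
    have G2 : datF p m0 (m0 - l) = (p - 1) + Int.gcd m0 (p - 1) := by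
      unfold datF; rw [if_pos P2]
    have G3 : datF p m0 (m0 + 1 + r) = (p - 1) - Int.gcd m0 (p - 1) := by
      unfold datF; rw [if_neg N3]
    have G4 : datF p 1 2 = (p - 1) - 1 := by unfold datF; rw [if_neg N4]; simp
    have G5 : datF p 1 1 = (p - 1) + 1 := by unfold datF; rw [if_pos P5]; simp
    have G6 : datF p m2 (m2 + 1) = (p - 1) - Int.gcd m2 (p - 1) := by unfold datF; rw [if_neg N6]
    have hg0 : (Int.gcd 0 ((p : ℤ) - 1) : ℤ) = p - 1 := by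
      rw [Int.gcd_zero_left, Int.natCast_natAbs, abs_of_pos hn]
    have G7 : datF p 0 (-1) = (p - 1) + (p - 1) := by
      unfold datF; rw [if_pos P7, hg0]
    have hgI : (Int.gcd (-((p : ℤ) ^ 2 * (p - 1))) ((p : ℤ) - 1) : ℤ) = p - 1 := by
      have h1 : Int.gcd (-((p : ℤ) ^ 2 * (p - 1))) ((p : ℤ) - 1) = Int.natAbs ((p : ℤ) - 1) := by
        exact Int.gcd_eq_natAbs_right ⟨-(p : ℤ) ^ 2, by ring⟩
      rw [h1, Int.natCast_natAbs, abs_of_pos hn]
    have GI : datF p (-((p : ℤ) ^ 2 * (p - 1))) (-((p : ℤ) ^ 3 + D)) = (p - 1) + (p - 1) := by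
      unfold datF; rw [if_pos hDIpos, hgI]
    rw [hcards (fun i x => (x : ℤ) * datF p (m i) (ν i)), GI]
    change _ = (((p ^ 2 - (j + 1) : ℕ) : ℤ)) * datF p m0 (m0 + 1) +
      ((j - 1 : ℕ) : ℤ) * datF p m0 m0 + ((1 : ℕ) : ℤ) * datF p m0 (m0 - l) +
      ((1 : ℕ) : ℤ) * datF p m0 (m0 + 1 + r) + ((p ^ 2 - p * i : ℕ) : ℤ) * datF p 1 2 +
      ((p * i : ℕ) : ℤ) * datF p 1 1 +
      ((p ^ 2 : ℕ) : ℤ) * datF p m2 (m2 + 1) + (δ : ℤ) * datF p 0 (-1) + _
    rw [G0, G1, G2, G3, G4, G5, G6, G7, cz0, cz1, cz4]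
    push_cast
    linear_combination hfe

end Pool.Agent.PRB
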