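import Mathlib

/-! # Bookkeeping for the box theorem -/

set_option autoImplicit false

namespace Pool.Agent.PRB

/-- The pieces. -/
def boxS {k : Type} [DecidableEq k] (F0 F1 F2 C A' B : Finset k) (τ a0 : k) : Fin 8 → Finset k :=
  ![F0 \ A', (A'.erase τ).erase a0, {a0}, {τ}, F1 \ B, B, F2, C]

theorem Box1_dj {k : Type} [DecidableEq k] (F0 F1 F2 C A' B : Finset k) (τ a0 : k)
    (h01 : Disjoint F0 F1) (h02 : Disjoint F0 F2) (h12 : Disjoint F1 F2) (hC0 : Disjoint F0 C)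
    (hC1 : Disjoint F1 C) (hC2 : Disjoint F2 C) (hA : A' ⊆ F0) (hB : B ⊆ F1) (hτ : τ ∈ A')
    (ha0 : a0 ∈ A') (hne : a0 ≠ τ) :
    ∀ i j, i ≠ j → Disjoint (boxS F0 F1 F2 C A' B τ a0 i) (boxS F0 F1 F2 C A' B τ a0 j) := by
  set lab : k → Fin 8 := fun x => if x ∈ C then 7 else if x ∈ F2 then 6 else if x ∈ B then 5
    else if x ∈ F1 then 4 else if x = τ then 3 else if x = a0 then 2 else if x ∈ A' then 1 else 0
    with hlab
  have n0 : ∀ x ∈ F0, x ∉ C ∧ x ∉ F2 ∧ x ∉ B ∧ x ∉ F1 := fun x hx =>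
    ⟨Finset.disjoint_left.1 hC0 hx, Finset.disjoint_left.1 h02 hx,
      fun h => Finset.disjoint_left.1 h01 hx (hB h), Finset.disjoint_left.1 h01 hx⟩
  have n1 : ∀ x ∈ F1, x ∉ C ∧ x ∉ F2 := fun x hx =>
    ⟨Finset.disjoint_left.1 hC1 hx, Finset.disjoint_left.1 h12 hx⟩
  have key : ∀ i, ∀ x ∈ boxS F0 F1 F2 C A' B τ a0 i, lab x = i := by
    intro i x hx
    match i with
    | 0 =>
      have hx' : x ∈ F0 \ A' := hx
      obtain ⟨h1, h2⟩ := Finset.mem_sdiff.1 hx'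
      obtain ⟨a1, a2, a3, a4⟩ := n0 x h1
      have a5 : x ≠ τ := fun h => h2 (h ▸ hτ)
      have a6 : x ≠ a0 := fun h => h2 (h ▸ ha0)
      simp only [hlab, if_neg a1, if_neg a2, if_neg a3, if_neg a4, if_neg a5, if_neg a6, if_neg h2]
    | 1 =>
      have hx' : x ∈ (A'.erase τ).erase a0 := hx
      obtain ⟨a6, h2⟩ := Finset.mem_erase.1 hx'
      obtain ⟨a5, h2⟩ := Finset.mem_erase.1 h2
      obtain ⟨a1, a2, a3, a4⟩ := n0 x (hA h2)
      simp only [hlab, if_neg a1, if_neg a2, if_neg a3, if_neg a4, if_neg a5, if_neg a6, if_pos h2]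
    | 2 =>
      have hx' : x = a0 := Finset.mem_singleton.1 hx
      subst hx'
      obtain ⟨a1, a2, a3, a4⟩ := n0 x (hA ha0)
      simp only [hlab, if_neg a1, if_neg a2, if_neg a3, if_neg a4, if_neg hne, if_true]
    | 3 =>
      have hx' : x = τ := Finset.mem_singleton.1 hx
      subst hx'
      obtain ⟨a1, a2, a3, a4⟩ := n0 x (hA hτ)
      simp only [hlab, if_neg a1, if_neg a2, if_neg a3, if_neg a4, if_true]
    | 4 =>
      have hx' : x ∈ F1 \ B := hx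
      obtain ⟨h1, h2⟩ := Finset.mem_sdiff.1 hx'
      obtain ⟨a1, a2⟩ := n1 x h1
      simp only [hlab, if_neg a1, if_neg a2, if_neg h2, if_pos h1]
    | 5 =>
      have hx' : x ∈ B := hx
      obtain ⟨a1, a2⟩ := n1 x (hB hx')
      simp only [hlab, if_neg a1, if_neg a2, if_pos hx']
    | 6 =>
      have hx' : x ∈ F2 := hx
      have a1 : x ∉ C := Finset.disjoint_left.1 hC2 hx'
      simp only [hlab, if_neg a1, if_pos hx']
    | 7 =>
      have hx' : x ∈ C := hx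
      simp only [hlab, if_pos hx']
  intro i j hij
  rw [Finset.disjoint_left]
  intro x hx hy
  exact hij ((key i x hx).symm.trans (key j x hy))

theorem Box1_phi {p : ℕ} [Fact p.Prime] {k : Type} [DecidableEq k] [Field k] [CharP k p]
    (F0 F1 F2 C A' B : Finset k) (τ a0 : k)
    (hF0 : ∀ c ∈ F0, c ^ p ∈ F0) (hF1 : ∀ c ∈ F1, c ^ p ∈ F1) (hF2 : ∀ c ∈ F2, c ^ p ∈ F2)
    (hC : ∀ c ∈ C, c ^ p ∈ C) (hA : ∀ c ∈ A', c ^ p = c) (hB : ∀ c ∈ B, c ^ p ∈ B)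
    (hτ : τ ∈ A') (ha0 : a0 ∈ A') :
    ∀ i, ∀ c ∈ boxS F0 F1 F2 C A' B τ a0 i, c ^ p ∈ boxS F0 F1 F2 C A' B τ a0 i := by
  have hinj : ∀ a b : k, a ^ p = b ^ p → a = b := fun a b h => frobenius_inj k p h
  intro i x hx
  match i with
  | 0 =>
    have hx' : x ∈ F0 \ A' := hx
    change x ^ p ∈ F0 \ A'
    obtain ⟨h1, h2⟩ := Finset.mem_sdiff.1 hx'
    refine Finset.mem_sdiff.2 ⟨hF0 x h1, fun h => h2 ?_⟩
    have h3 : x ^ p = x := hinj _ _ (hA _ h)
    rwa [h3] at h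
  | 1 =>
    have hx' : x ∈ (A'.erase τ).erase a0 := hx
    change x ^ p ∈ (A'.erase τ).erase a0
    rw [hA x (Finset.mem_of_mem_erase (Finset.mem_of_mem_erase hx'))]
    exact hx'
  | 2 =>
    have hx' : x = a0 := Finset.mem_singleton.1 hx
    change x ^ p ∈ ({a0} : Finset k)
    rw [hx', hA a0 ha0]
    exact Finset.mem_singleton_self _
  | 3 =>
    have hx' : x = τ := Finset.mem_singleton.1 hx
    change x ^ p ∈ ({τ} : Finset k)
    rw [hx', hA τ hτ]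
    exact Finset.mem_singleton_self _
  | 4 =>
    have hx' : x ∈ F1 \ B := hx
    change x ^ p ∈ F1 \ B
    obtain ⟨h1, h2⟩ := Finset.mem_sdiff.1 hx'
    refine Finset.mem_sdiff.2 ⟨hF1 x h1, fun h => h2 ?_⟩
    obtain ⟨b, hb, hbx⟩ := Finset.surj_on_of_inj_on_of_card_le (s := B) (t := B)
      (fun a _ => a ^ p) (fun a ha => hB a ha) (fun a b _ _ h => hinj a b h) le_rfl (x ^ p) h
    rw [hinj _ _ hbx]
    exact hb
  | 5 => exact hB x hx
  | 6 => exact hF2 x hx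
  | 7 => exact hC x hx

end Pool.Agent.PRB
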