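import Pool.Agent.LibPRB.Defs

/-! # Orders of differentials at a place -/

set_option autoImplicit false

namespace Pool.Agent.PRB

variable {p : ℕ} [Fact p.Prime] {k K : Type} [Field k] [Field K] [Algebra k K]

theorem Diff_ge_intCast (P : Plc k K) (n : ℤ) : P.ge 0 (n : K) := by
  have := P.ge_const (n : k)
  rwa [map_intCast] at this

theorem Diff_expand (D : Derivation k K K) (n : ℤ) (π u : K) :
    D (π ^ n * u) = (n : K) * π ^ (n - 1) * D π * u + π ^ n * D u := by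
  rw [D.leibniz, Derivation.leibniz_zpow]
  simp only [smul_eq_mul, zsmul_eq_mul]
  ring

theorem Diff_ord_zpow (P : Plc k K) {π : K} (hπ : P.ord π = 1) (n : ℤ) :
    P.ord (π ^ n) = n := by
  rw [P.ord_zpow, hπ, mul_one]

theorem Diff_ge_zpow (P : Plc k K) {π : K} (hπ : P.ord π = 1) (n : ℤ) :
    P.ge n (π ^ n) := Or.inr (Diff_ord_zpow P hπ n).ge

namespace IsDiff

variable {P : Plc k K} {D : Derivation k K K} {δ : ℤ}

/-- `ord (D a) ≥ ord a - 1 - δ`. -/
theorem ge_D (h : IsDiff P D δ) {n : ℤ} {a : K} (ha : P.ge n a) : P.ge (n - 1 - δ) (D a) := by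
  obtain ⟨h1, π, hπ, hπ1, hD, hDo⟩ := h
  have hu : P.ge 0 (π ^ (-n) * a) := by
    have := P.ge_mul (Diff_ge_zpow P hπ1 (-n)) ha
    simpa using this
  have hau : a = π ^ n * (π ^ (-n) * a) := by
    rw [← mul_assoc, ← zpow_add₀ hπ, add_neg_cancel, zpow_zero, one_mul]
  have hDu := h1 _ hu
  have hDπ : P.ge (-δ) (D π) := Or.inr hDo.ge
  rw [hau, Diff_expand]
  refine P.ge_add ?_ ?_
  · have := P.ge_mul (P.ge_mul (P.ge_mul (Diff_ge_intCast P n)
      (Diff_ge_zpow P hπ1 (n - 1))) hDπ) hu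
    exact this.mono (by linarith)
  · have := P.ge_mul (Diff_ge_zpow P hπ1 n) hDu
    exact this.mono (by linarith)

/-- If `p` does not divide `ord a` then `ord (D a) = ord a - 1 - δ`. -/
theorem ord_D [CharP k p] (h : IsDiff P D δ) {a : K} (ha : a ≠ 0) (hp : ¬ (p : ℤ) ∣ P.ord a) :
    D a ≠ 0 ∧ P.ord (D a) = P.ord a - 1 - δ := by
  obtain ⟨h1, π, hπ, hπ1, hD, hDo⟩ := h
  set n := P.ord a with hn
  have hu0 : π ^ (-n) * a ≠ 0 := mul_ne_zero (zpow_ne_zero _ hπ) ha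
  have huo : P.ord (π ^ (-n) * a) = 0 := by
    rw [P.ord_mul (zpow_ne_zero _ hπ) ha, Diff_ord_zpow P hπ1]; linarith
  have hu : P.ge 0 (π ^ (-n) * a) := Or.inr huo.ge
  have hau : a = π ^ n * (π ^ (-n) * a) := by
    rw [← mul_assoc, ← zpow_add₀ hπ, add_neg_cancel, zpow_zero, one_mul]
  have hDu := h1 _ hu
  have hnk : (n : k) ≠ 0 := fun h0 => hp ((CharP.intCast_eq_zero_iff k p n).mp h0)
  have hnK : (n : K) = algebraMap k K (n : k) := (map_intCast _ _).symm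
  have hnK0 : (n : K) ≠ 0 := by
    rw [hnK]; exact (map_ne_zero _).mpr hnk
  have hnKo : P.ord (n : K) = 0 := by rw [hnK, P.ord_const]
  set T := (n : K) * π ^ (n - 1) * D π * (π ^ (-n) * a) with hT
  have hT0 : T ≠ 0 := mul_ne_zero (mul_ne_zero (mul_ne_zero hnK0 (zpow_ne_zero _ hπ)) hD) hu0
  have hTo : P.ord T = n - 1 - δ := by
    rw [hT, P.ord_mul (mul_ne_zero (mul_ne_zero hnK0 (zpow_ne_zero _ hπ)) hD) hu0,
      P.ord_mul (mul_ne_zero hnK0 (zpow_ne_zero _ hπ)) hD,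
      P.ord_mul hnK0 (zpow_ne_zero _ hπ), hnKo, Diff_ord_zpow P hπ1, hDo, huo]
    ring
  have h2 : P.ge (P.ord T + 1) (π ^ n * D (π ^ (-n) * a)) := by
    have := P.ge_mul (Diff_ge_zpow P hπ1 n) hDu
    exact this.mono (by rw [hTo]; linarith)
  have h3 := P.ord_add_eq hT0 h2
  have h4 : D a = T + π ^ n * D (π ^ (-n) * a) := by
    conv_lhs => rw [hau]
    rw [Diff_expand]
  rw [h4]
  exact ⟨h3.1, h3.2.trans hTo⟩

theorem unique {δ' : ℤ} (h : IsDiff P D δ) (h' : IsDiff P D δ') : δ = δ' := by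
  obtain ⟨h1, π, hπ, hπ1, hD, hDo⟩ := h
  obtain ⟨h1', π', hπ', hπ1', hD', hDo'⟩ := h'
  have a1 := h1 π' (Or.inr (by rw [hπ1']; norm_num))
  have a2 := h1' π (Or.inr (by rw [hπ1]; norm_num))
  rw [P.ge_iff hD', hDo'] at a1
  rw [P.ge_iff hD, hDo] at a2
  linarith

end IsDiff

/-- Criterion: some uniformizer has a derivative of order exactly `-δ`, and no element of the
maximal ideal has a derivative of smaller order. -/
theorem isDiff_of (P : Plc k K) (D : Derivation k K K) (δ : ℤ)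
    (h1 : ∀ a, P.ge 1 a → P.ge (-δ) (D a))
    (h2 : ∃ π : K, π ≠ 0 ∧ P.ord π = 1 ∧ D π ≠ 0 ∧ P.ord (D π) = -δ) : IsDiff P D δ := by
  refine ⟨fun a ha => ?_, h2⟩
  obtain ⟨c, hc⟩ := P.res ha
  have := h1 _ hc
  rwa [map_sub, Derivation.map_algebraMap, sub_zero] at this

end Pool.Agent.PRB
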