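import Pool.Agent.LibPRB.Jac
import Pool.Agent.LibPRB.Diff

/-! # The Cartier operator and places -/

set_option autoImplicit false

namespace Pool.Agent.PRB

variable {p : ℕ} [Fact p.Prime] {k K : Type} [Field k] [Field K] [Algebra k K] [CharP K p]
  {s : K} {D : Derivation k K K}

omit [CharP K p] in
theorem CarPl_iter {P : Plc k K} {δ : ℤ} (hP : IsDiff P D δ) {n : ℤ} {a : K} (ha : P.ge n a)
    (i : ℕ) : P.ge (n - i * (1 + δ)) (D^[i] a) := by
  induction i with
  | zero => simpa using ha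
  | succ i ih =>
    rw [Function.iterate_succ_apply']
    refine (hP.ge_D ih).mono ?_
    push_cast
    linarith

/-- If `a ds` has a pole of order `≤ m` at `P` then `C (a ds)` has a pole of order `≤ ⌈m/p⌉`. -/
theorem car_ge (h : PB p s D) {P : Plc k K} {δ : ℤ} (hP : IsDiff P D δ) (m : ℕ) {a : K}
    (ha : P.ge (-δ - m) a) : P.ge (-δ - ((m + p - 1) / p : ℕ)) (car p D a) := by
  have hp : 0 < p := (Fact.out : p.Prime).pos
  have h1 := CarPl_iter hP ha (p - 1)
  have h2 : P.ge (-δ - m - ((p - 1 : ℕ) : ℤ) * (1 + δ)) (car p D a ^ p) := by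
    rw [h.car_pow]
    exact P.ge_neg h1
  by_cases hc : car p D a = 0
  · rw [hc]; exact P.ge_zero _
  · rw [P.ge_iff (pow_ne_zero _ hc), P.ord_pow] at h2
    rw [P.ge_iff hc]
    set q := (m + p - 1) / p with hq
    have h3 : m + p - 1 < p * (q + 1) := by
      rw [hq]
      exact Nat.lt_mul_div_succ _ hp
    have h4 : ((m : ℤ) + p - 1) < p * (q + 1) := by
      have : ((m + p - 1 : ℕ) : ℤ) < ((p * (q + 1) : ℕ) : ℤ) := by exact_mod_cast h3
      rw [Nat.cast_sub (by omega)] at this
      push_cast at this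
      linarith
    have h5 : ((p - 1 : ℕ) : ℤ) = (p : ℤ) - 1 := by
      rw [Nat.cast_sub (by omega)]
      simp
    rw [h5] at h2
    by_contra hcon
    have h6 : P.ord (car p D a) + δ ≤ -(q : ℤ) - 1 := by linarith
    have hp' : (0 : ℤ) < p := by exact_mod_cast hp
    have h7 : (p : ℤ) * (P.ord (car p D a) + δ) ≤ p * (-(q : ℤ) - 1) :=
      mul_le_mul_of_nonneg_left h6 hp'.le
    nlinarith

/-- If `a ds` is fixed by the Cartier operator then it has at most a simple pole at `P`. -/
theorem log_ge (h : PB p s D) {P : Plc k K} {δ : ℤ} (hP : IsDiff P D δ) {a : K}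
    (ha : car p D a = a) : P.ge (-δ - 1) a := by
  obtain ⟨y, hy, hD⟩ := (h.log_iff a).2 ha
  have h1 : P.ge (P.ord y) y := Or.inr le_rfl
  have h2 := hP.ge_D h1
  rw [hD, mul_comm, P.ge_mul_iff hy] at h2
  refine h2.mono ?_
  linarith

end Pool.Agent.PRB
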