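import Pool.Agent.LibPRB.Cls1

/-! # The `p`-torsion of the divisor class group and regular logarithmic differentials -/

set_option autoImplicit false

namespace Pool.Agent.PRB

variable {p : ℕ} [Fact p.Prime] {k K : Type} [Field k] [IsAlgClosed k] [CharP k p] [Field K]
  [Algebra k K] {s : K} {D : Derivation k K K}

section

variable {k K : Type} [Field k] [Field K] [Algebra k K]

theorem Cls_valueAt_one (P : Place k K) (Q : Plc k K) (hQ : Q.ring = P.1) (f : Kˣ) :
    valueAt P f = 1 ↔ Q.ord (f : K) = 0 := by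
  have h1 : valueAt P f = 1 ↔ f ∈ P.1.unitGroup := QuotientGroup.eq_one_iff f
  rw [h1, ValuationSubring.mem_unitGroup_iff]
  have h2 : P.1.valuation (f : K) = 1 ↔ ((f : K) ∈ P.1 ∧ (f : K)⁻¹ ∈ P.1) := by
    rw [← ValuationSubring.valuation_le_one_iff, ← ValuationSubring.valuation_le_one_iff, map_inv₀]
    have h3 : P.1.valuation (f : K) ≠ 0 := by
      rw [Ne, map_eq_zero]
      exact f.ne_zero
    constructor
    · intro h
      rw [h]
      simp
    · rintro ⟨h4, h5⟩
      refine le_antisymm h4 ?_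
      have h6 := mul_le_mul_right h5 (P.1.valuation (f : K))
      rwa [mul_inv_cancel₀ h3, mul_one] at h6
  rw [h2, ← hQ, Q.mem_ring, Q.mem_ring, Q.ge_iff f.ne_zero, Q.ge_iff (inv_ne_zero f.ne_zero),
    Q.ord_inv]
  omega

theorem Cls_valueAt_eq (P : Place k K) (Q : Plc k K) (hQ : Q.ring = P.1) (f g : Kˣ) :
    valueAt P f = valueAt P g ↔ Q.ord (f : K) = Q.ord (g : K) := by
  have h1 : valueAt P f = valueAt P g ↔ valueAt P (f / g) = 1 := by
    rw [map_div, div_eq_one]
  rw [h1, Cls_valueAt_one P Q hQ, Units.val_div_eq_div_val, Q.ord_div f.ne_zero g.ne_zero,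
    sub_eq_zero]

theorem Cls_pow_eq_one {p : ℕ} (hp : 0 < p) (P : Place k K) (Q : Plc k K) (hQ : Q.ring = P.1)
    (v : ValueGroup P) (hv : v ^ p = 1) : v = 1 := by
  obtain ⟨x, rfl⟩ : ∃ x : Kˣ, valueAt P x = v := QuotientGroup.mk'_surjective _ v
  rw [← map_pow, Cls_valueAt_one P Q hQ, Units.val_pow_eq_pow_val, Q.ord_pow] at hv
  rw [Cls_valueAt_one P Q hQ]
  rcases mul_eq_zero.1 hv with h | h
  · exact absurd h (by exact_mod_cast hp.ne')
  · exact h

/-- The class `c` and the function `a` are related. -/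
def Cls_R (p : ℕ) (D : Derivation k K K) (c : DivClass k K) (a : K) : Prop :=
  ∃ (d : Div k K) (y : Kˣ), QuotientGroup.mk d = c ∧
    (∀ P : Place k K, d.1 P ^ p = valueAt P y) ∧ a = D (y : K) / (y : K)

end

theorem Cls_one {D : Derivation k K K} (c : DivClass k K) :
    c ^ p = 1 ↔ ∃ a, Cls_R p D c a := by
  constructor
  · intro hc
    obtain ⟨d, rfl⟩ := QuotientGroup.mk_surjective c
    rw [← QuotientGroup.mk_pow, QuotientGroup.eq_one_iff, mem_principalDiv] at hc
    obtain ⟨y, hy⟩ := hc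
    exact ⟨_, d, y, rfl, fun P => hy P, rfl⟩
  · rintro ⟨a, d, y, rfl, hy, -⟩
    rw [← QuotientGroup.mk_pow, QuotientGroup.eq_one_iff, mem_principalDiv]
    exact ⟨y, fun P => hy P⟩

theorem Cls_two (h : GF p s D) {c : DivClass k K} {a : K} (hR : Cls_R p D c a) :
    a ∈ regSp D ∧ car p D a = a := by
  haveI : CharP K p := charP_of_injective_algebraMap (algebraMap k K).injective p
  obtain ⟨d, y, -, hy, rfl⟩ := hR
  constructor
  · intro Q δ hδ
    rw [logder_ge_iff h Q hδ y.ne_zero]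
    obtain ⟨x, hx⟩ : ∃ x : Kˣ, valueAt (⟨Q.ring, Q.isPl⟩ : Place k K) x =
      d.1 ⟨Q.ring, Q.isPl⟩ := QuotientGroup.mk'_surjective _ _
    have h1 := hy ⟨Q.ring, Q.isPl⟩
    rw [← hx, ← map_pow, Cls_valueAt_eq _ Q rfl, Units.val_pow_eq_pow_val, Q.ord_pow] at h1
    exact ⟨_, h1.symm⟩
  · rw [← h.pb.log_iff]
    exact ⟨y, y.ne_zero, by field_simp⟩

theorem Cls_three (h : GF p s D) {a : K} (ha : a ∈ regSp D) (hc : car p D a = a) :
    ∃ c : DivClass k K, Cls_R p D c a := by
  haveI : CharP K p := charP_of_injective_algebraMap (algebraMap k K).injective p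
  obtain ⟨y, hy0, hy⟩ := (h.pb.log_iff a).2 hc
  have hay : a = D y / y := by rw [hy]; field_simp
  have hQ : ∀ P : Place k K, ∃ Q : Plc k K, Q.ring = P.1 := fun P => h.disc P.1 P.2
  choose Q hQ using hQ
  have hx : ∀ P : Place k K, ∃ x : Kˣ, (p : ℤ) * (Q P).ord (x : K) = (Q P).ord y ∧
      ((Q P).ord y = 0 → x = 1) := by
    intro P
    obtain ⟨δ, hδ⟩ := h.diff (Q P)
    have h1 := ha (Q P) δ hδ
    rw [hay, logder_ge_iff h (Q P) hδ hy0] at h1
    obtain ⟨n, hn⟩ := h1
    obtain ⟨π, hπ, hπ1⟩ := (Q P).exists_unif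
    refine ⟨Units.mk0 π hπ ^ n, ?_, ?_⟩
    · rw [Units.val_zpow_eq_zpow_val, Units.val_mk0, (Q P).ord_zpow, hπ1, hn]
      ring
    · intro h0
      rw [h0] at hn
      have hp0 : (p : ℤ) ≠ 0 := by exact_mod_cast (Fact.out : p.Prime).ne_zero
      have : n = 0 := by
        rcases mul_eq_zero.1 hn.symm with h2 | h2
        · exact absurd h2 hp0
        · exact h2
      rw [this, zpow_zero]
  choose x hx1 hx2 using hx
  let d : ∀ P : Place k K, ValueGroup P := fun P => valueAt P (x P)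
  have hd : {P | d P ≠ 1}.Finite := by
    have h1 : {P : Place k K | d P ≠ 1} ⊆ Q ⁻¹' {P : Plc k K | P.ord y ≠ 0} := by
      intro P hP h0
      apply hP
      change valueAt P (x P) = 1
      rw [hx2 P h0, map_one]
    refine Set.Finite.subset (Set.Finite.preimage ?_ (h.fsupp y hy0)) h1
    intro P _ P' _ hPP
    apply Subtype.ext
    rw [← hQ P, ← hQ P', hPP]
  refine ⟨QuotientGroup.mk (⟨d, hd⟩ : Div k K), ⟨d, hd⟩, Units.mk0 y hy0, rfl, fun P => ?_, ?_⟩
  · change valueAt P (x P) ^ p = _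
    rw [← map_pow, Cls_valueAt_eq P (Q P) (hQ P), Units.val_pow_eq_pow_val, (Q P).ord_pow, hx1,
      Units.val_mk0]
  · rw [Units.val_mk0]
    exact hay

theorem Cls_four (h : GF p s D) {c : DivClass k K} {a a' : K} (hR : Cls_R p D c a)
    (hR' : Cls_R p D c a') : a = a' := by
  haveI : CharP K p := charP_of_injective_algebraMap (algebraMap k K).injective p
  obtain ⟨d, y, hc, hy, rfl⟩ := hR
  obtain ⟨d', y', hc', hy', rfl⟩ := hR'
  rw [← hc', QuotientGroup.eq, mem_principalDiv] at hc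
  obtain ⟨f, hf⟩ := hc
  have h1 : ∀ P : Place k K, valueAt P y' = valueAt P (y * f ^ p) := by
    intro P
    have h2 : (d.1 P)⁻¹ * d'.1 P = valueAt P f := hf P
    rw [map_mul, map_pow, ← h2, ← hy, ← hy', mul_pow, inv_pow, mul_inv_cancel_left]
  obtain ⟨e, he⟩ := const_of_ord h ((y' : K) / ((y : K) * (f : K) ^ p))
    (div_ne_zero y'.ne_zero (mul_ne_zero y.ne_zero (pow_ne_zero _ f.ne_zero))) (fun Q => by
      have h2 := h1 ⟨Q.ring, Q.isPl⟩
      rw [Cls_valueAt_eq _ Q rfl] at h2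
      rw [Q.ord_div y'.ne_zero (mul_ne_zero y.ne_zero (pow_ne_zero _ f.ne_zero)), h2]
      simp)
  have h3 : (y' : K) = (f : K) ^ p * (algebraMap k K e * y) := by
    rw [← he]
    have := f.ne_zero
    have := y.ne_zero
    field_simp
  have h4 : D (y' : K) = (f : K) ^ p * (algebraMap k K e * D (y : K)) := by
    rw [h3, D_pow_mul (p := p), ← Algebra.smul_def, ← Algebra.smul_def, D.map_smul]
  have he0 : algebraMap k K e ≠ 0 := by
    intro h0
    rw [h0, zero_mul, mul_zero] at h3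
    exact y'.ne_zero h3
  have := f.ne_zero
  have := y.ne_zero
  rw [h4, h3]
  field_simp

theorem Cls_five (h : GF p s D) {c c' : DivClass k K} {a : K} (hR : Cls_R p D c a)
    (hR' : Cls_R p D c' a) : c = c' := by
  haveI : CharP K p := charP_of_injective_algebraMap (algebraMap k K).injective p
  obtain ⟨d, y, rfl, hy, ha⟩ := hR
  obtain ⟨d', y', rfl, hy', ha'⟩ := hR'
  have hyy : D ((y : K) / (y' : K)) = 0 := by
    have hy0 := y.ne_zero
    have hy0' := y'.ne_zero
    have h1 : (y : K) = (y : K) / (y' : K) * (y' : K) := by field_simp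
    have h2 : D (y : K) = ((y : K) / (y' : K)) * D (y' : K) + (y' : K) * D ((y : K) / (y' : K)) := by
      conv_lhs => rw [h1, D.leibniz]
      simp only [smul_eq_mul]
    have h3 : D (y : K) = a * y := by rw [ha]; field_simp
    have h4 : D (y' : K) = a * y' := by rw [ha']; field_simp
    rw [h3, h4] at h2
    have h5 : (y' : K) * D ((y : K) / (y' : K)) = 0 := by
      have h6 : (y : K) / (y' : K) * (a * y') = a * y := by field_simp
      rw [h6] at h2
      linear_combination -h2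
    exact (mul_eq_zero.1 h5).resolve_left hy0'
  obtain ⟨b, hb⟩ := h.pb.ker hyy
  have hb0 : b ≠ 0 := by
    rintro rfl
    rw [zero_pow (Fact.out : p.Prime).ne_zero] at hb
    exact div_ne_zero y.ne_zero y'.ne_zero hb.symm
  rw [QuotientGroup.eq, mem_principalDiv]
  refine ⟨(Units.mk0 b hb0)⁻¹, fun P => ?_⟩
  obtain ⟨Q, hQ⟩ := h.disc P.1 P.2
  have h1 : valueAt P y = valueAt P y' * valueAt P (Units.mk0 b hb0) ^ p := by
    rw [← map_pow, ← map_mul]
    congr 1
    apply Units.ext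
    rw [Units.val_mul, Units.val_pow_eq_pow_val, Units.val_mk0, hb]
    have hy0' := y'.ne_zero
    field_simp
  rw [← hy P, ← hy' P] at h1
  have h2 : (d.1 P * (d'.1 P)⁻¹ * (valueAt P (Units.mk0 b hb0))⁻¹) ^ p = 1 := by
    rw [mul_pow, mul_pow, h1, inv_pow, inv_pow, mul_comm (d'.1 P ^ p), mul_inv_cancel_right,
      mul_inv_cancel]
  have h3 := Cls_pow_eq_one (Fact.out : p.Prime).pos P Q hQ _ h2
  change (d.1 P)⁻¹ * d'.1 P = _
  rw [map_inv]
  rw [mul_inv_eq_one] at h3
  rw [← h3]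
  rw [mul_inv_rev, inv_inv, mul_comm]

theorem card_torsion (h : GF p s D) :
    Nat.card {c : DivClass k K // c ^ p = 1} = Nat.card {a : K // a ∈ regSp D ∧ car p D a = a} := by
  have hf : ∀ c : {c : DivClass k K // c ^ p = 1}, ∃ a, Cls_R p D c.1 a :=
    fun c => (Cls_one c.1).1 c.2
  choose f hf using hf
  refine Nat.card_congr (Equiv.ofBijective (fun c => ⟨f c, Cls_two h (hf c)⟩) ⟨?_, ?_⟩)
  · intro c c' hcc
    have h1 : f c = f c' := congrArg Subtype.val hcc
    have h2 := hf c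
    rw [h1] at h2
    exact Subtype.ext (Cls_five h h2 (hf c'))
  · rintro ⟨a, ha, hc⟩
    obtain ⟨c, hR⟩ := Cls_three h ha hc
    refine ⟨⟨c, (Cls_one c).2 ⟨a, hR⟩⟩, ?_⟩
    exact Subtype.ext (Cls_four h (hf _) hR)

end Pool.Agent.PRB
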