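import Pool.Agent.LibPRB.PBa

/-! # Hochschild–Jacobson formula and logarithmic derivatives -/

set_option autoImplicit false

namespace Pool.Agent.PRB

variable {p : ℕ} [Fact p.Prime] {k K : Type} [Field k] [Field K] [Algebra k K] [CharP K p]

/-- binomial recursion -/
theorem Jac_pascal (f : ℕ → ℕ → K) (n : ℕ) :
    ∑ ij ∈ Finset.HasAntidiagonal.antidiagonal (n + 1), ((n + 1).choose ij.1 : K) * f ij.1 ij.2 =
      ∑ ij ∈ Finset.HasAntidiagonal.antidiagonal n, (n.choose ij.1 : K) * (f ij.1 (ij.2 + 1) + f (ij.1 + 1) ij.2) := by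
  rw [Finset.sum_antidiagonal_choose_succ_mul, ← Finset.sum_add_distrib]
  refine Finset.sum_congr rfl fun ij hij => ?_
  have h : n.choose ij.2 = n.choose ij.1 := by
    rw [Finset.HasAntidiagonal.mem_antidiagonal] at hij
    rw [← hij, Nat.choose_symm_add]
  rw [h]; ring

/-- Leibniz rule for `D - a` -/
theorem Jac_leib (D : Derivation k K K) (a : K) (x y : K) (n : ℕ) :
    (fun x => D x - a * x)^[n] (x * y) =
      ∑ ij ∈ Finset.HasAntidiagonal.antidiagonal n, (n.choose ij.1 : K) *
        ((fun x => D x - a * x)^[ij.1] x * D^[ij.2] y) := by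
  induction n with
  | zero => simp
  | succ n ih =>
    rw [Function.iterate_succ_apply', ih,
      Jac_pascal (fun i j => (fun x => D x - a * x)^[i] x * D^[j] y)]
    show D _ - a * _ = _
    rw [map_sum, Finset.mul_sum, ← Finset.sum_sub_distrib]
    refine Finset.sum_congr rfl fun ij _ => ?_
    rw [Function.iterate_succ_apply', Function.iterate_succ_apply', Derivation.leibniz,
      Derivation.leibniz, Derivation.map_natCast]
    simp only [smul_eq_mul, mul_zero, add_zero]
    ring

/-- coefficients of `(D - t a)^n 1` -/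
noncomputable def Jac_U (D : K → K) (a : K) : ℕ → ℕ → K
  | 0, 0 => 1
  | 0, _ + 1 => 0
  | n + 1, 0 => D (Jac_U D a n 0)
  | n + 1, i + 1 => D (Jac_U D a n (i + 1)) - a * Jac_U D a n i

theorem Jac_U_gt (D : Derivation k K K) (a : K) (n i : ℕ) (h : n < i) : Jac_U D a n i = 0 := by
  induction n generalizing i with
  | zero =>
    cases i with
    | zero => omega
    | succ i => rfl
  | succ n ih =>
    cases i with
    | zero => omega
    | succ i =>
      show D (Jac_U D a n (i + 1)) - a * Jac_U D a n i = 0
      rw [ih _ (by omega), ih _ (by omega)]; simp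

theorem Jac_U_self (D : Derivation k K K) (a : K) (n : ℕ) : Jac_U D a n n = (-a) ^ n := by
  induction n with
  | zero => simp [Jac_U]
  | succ n ih =>
    show D (Jac_U D a n (n + 1)) - a * Jac_U D a n n = _
    rw [ih, Jac_U_gt D a n (n + 1) (by omega)]; simp [pow_succ]; ring

theorem Jac_U_zero (D : Derivation k K K) (a : K) (n : ℕ) (hn : 0 < n) : Jac_U D a n 0 = 0 := by
  induction n with
  | zero => omega
  | succ n ih =>
    show D (Jac_U D a n 0) = 0
    cases n with
    | zero => simp [Jac_U]
    | succ n => rw [ih (by omega)]; simp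

theorem Jac_sum_U (D : Derivation k K K) (a : K) (n : ℕ) :
    (fun x => D x - a * x)^[n] (1 : K) = ∑ i ∈ Finset.range (n + 1), Jac_U D a n i := by
  induction n with
  | zero => simp [Jac_U]
  | succ n ih =>
    rw [Function.iterate_succ_apply', ih]
    show D _ - a * _ = _
    rw [Finset.sum_range_succ' _ (n + 1), map_sum, Finset.mul_sum]
    show _ = ∑ i ∈ Finset.range (n + 1), (D (Jac_U D a n (i + 1)) - a * Jac_U D a n i) +
      D (Jac_U D a n 0)
    rw [Finset.sum_sub_distrib]
    have h := Finset.sum_range_succ' (fun i => D (Jac_U D a n i)) (n + 1)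
    rw [Finset.sum_range_succ, Jac_U_gt D a n (n + 1) (by omega)] at h
    simp only [map_zero, add_zero] at h
    rw [h]; ring

/-- auxiliary function -/
noncomputable def Jac_F (D : Derivation k K K) (a : K) (i j : ℕ) : ℕ → K
  | 0 => 0
  | l + 1 => Jac_U D a j i * D^[l] a

theorem Jac_diff (D : Derivation k K K) (a : K) (n i : ℕ) :
    ((i + 1 : ℕ) : K) * Jac_U D a n (i + 1) =
      - ∑ ij ∈ Finset.HasAntidiagonal.antidiagonal n, (n.choose ij.1 : K) * Jac_F D a i ij.1 ij.2 := by
  induction n generalizing i with
  | zero => simp [Jac_U, Jac_F]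
  | succ n ih =>
    rw [Jac_pascal (fun j l => Jac_F D a i j l)]
    show ((i + 1 : ℕ) : K) * (D (Jac_U D a n (i + 1)) - a * Jac_U D a n i) = _
    have hD : ((i + 1 : ℕ) : K) * D (Jac_U D a n (i + 1)) =
        D (((i + 1 : ℕ) : K) * Jac_U D a n (i + 1)) := by
      rw [Derivation.leibniz, Derivation.map_natCast]; simp
    have hlast : ∑ ij ∈ Finset.HasAntidiagonal.antidiagonal n, (n.choose ij.1 : K) *
        (if ij.2 = 0 then a * Jac_U D a ij.1 i else 0) = a * Jac_U D a n i := by
      rw [Finset.sum_eq_single (n, 0)]
      · simp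
      · intro b hb hne
        rw [Finset.HasAntidiagonal.mem_antidiagonal] at hb
        have : b.2 ≠ 0 := by
          intro h; apply hne; ext <;> simp <;> omega
        simp [this]
      · intro h; simp at h
    rw [mul_sub, hD, ih, map_neg, map_sum, ← neg_add', neg_inj]
    cases i with
    | zero =>
      rw [show ((0 + 1 : ℕ) : K) * (a * Jac_U D a n 0) = a * Jac_U D a n 0 by push_cast; ring,
        ← hlast, ← Finset.sum_add_distrib]
      refine Finset.sum_congr rfl fun ij _ => ?_
      rw [Derivation.leibniz, Derivation.map_natCast]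
      simp only [smul_eq_mul, mul_zero, add_zero]
      rcases ij with ⟨j, l⟩
      cases l with
      | zero => simp only [Jac_F, if_true, Function.iterate_zero, id_eq, map_zero]; ring
      | succ l =>
        simp only [Jac_F, Jac_U, Derivation.leibniz, Function.iterate_succ_apply', smul_eq_mul,
          Nat.succ_ne_zero, if_false]
        ring
    | succ i =>
      have e : ((i + 1 + 1 : ℕ) : K) * (a * Jac_U D a n (i + 1)) =
          a * (((i + 1 : ℕ) : K) * Jac_U D a n (i + 1)) + a * Jac_U D a n (i + 1) := by
        push_cast; ring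
      rw [e, ih, ← hlast, mul_neg, Finset.mul_sum, ← Finset.sum_neg_distrib,
        ← Finset.sum_add_distrib, ← Finset.sum_add_distrib]
      refine Finset.sum_congr rfl fun ij _ => ?_
      rw [Derivation.leibniz, Derivation.map_natCast]
      simp only [smul_eq_mul, mul_zero, add_zero]
      rcases ij with ⟨j, l⟩
      cases l with
      | zero => simp only [Jac_F, if_true, Function.iterate_zero, id_eq, map_zero]; ring
      | succ l =>
        simp only [Jac_F, Jac_U, Derivation.leibniz, Function.iterate_succ_apply', smul_eq_mul,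
          Nat.succ_ne_zero, if_false]
        ring

theorem Jac_neg_one_pow : (-1 : K) ^ p = -1 := by
  have h := add_pow_char (-1 : K) 1 (p := p)
  rw [neg_add_cancel, zero_pow (Fact.out : p.Prime).ne_zero, one_pow] at h
  linear_combination -h

namespace PB

variable {s : K} {D : Derivation k K K}

/-- Hochschild's formula for the operator `D - a`. -/
theorem iter_sub (h : PB p s D) (a y : K) :
    (fun x => D x - a * x)^[p] y = - (a ^ p + D^[p - 1] a) * y := by
  have hp : p.Prime := Fact.out
  obtain ⟨m, rfl⟩ : ∃ m, p = m + 1 := ⟨p - 1, by have := hp.pos; omega⟩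
  have hchoose : ∀ j, 0 < j → j < m + 1 → (((m + 1).choose j : ℕ) : K) = 0 := by
    intro j h0 h1
    rw [CharP.cast_eq_zero_iff K (m + 1)]
    exact hp.dvd_choose_self h0.ne' h1
  -- first reduce to y = 1
  have h1 := Jac_leib D a 1 y (m + 1)
  rw [one_mul] at h1
  rw [h1, Finset.Nat.sum_antidiagonal_eq_sum_range_succ
    (fun i j => (((m + 1).choose i : ℕ) : K) * ((fun x => D x - a * x)^[i] 1 * D^[j] y)),
    Finset.sum_range_succ, Finset.sum_range_succ']
  rw [Finset.sum_eq_zero (fun i hi => by
    rw [Finset.mem_range] at hi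
    rw [hchoose (i + 1) (by omega) (by omega), zero_mul])]
  have hDp : D^[m + 1] y = 0 := h.iter_p y
  have hT : (fun x => D x - a * x)^[m + 1] (1 : K) = - (a ^ (m + 1) + D^[m] a) := by
    rw [Jac_sum_U, Finset.sum_range_succ, Finset.sum_range_succ', Jac_U_self,
      Jac_U_zero D a (m + 1) (by omega)]
    have hdiff : ∀ i, ((i + 1 : ℕ) : K) * Jac_U D a (m + 1) (i + 1) =
        - (Jac_U D a 0 i * D^[m] a) := by
      intro i
      rw [Jac_diff, Finset.Nat.sum_antidiagonal_eq_sum_range_succ
        (fun j l => (((m + 1).choose j : ℕ) : K) * Jac_F D a i j l), Finset.sum_range_succ,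
        Finset.sum_range_succ']
      rw [Finset.sum_eq_zero (fun j hj => by
        rw [Finset.mem_range] at hj
        rw [hchoose (j + 1) (by omega) (by omega), zero_mul])]
      simp [Jac_F]
    cases m with
    | zero => exact absurd hp (by norm_num)
    | succ m =>
      rw [Finset.sum_range_succ']
      have h0 := hdiff 0
      have hrest : ∀ i ∈ Finset.range m, Jac_U D a (m + 1 + 1) (i + 1 + 1) = 0 := by
        intro i hi
        rw [Finset.mem_range] at hi
        have := hdiff (i + 1)
        have hne : ((i + 1 + 1 : ℕ) : K) ≠ 0 := by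
          intro h0
          rw [CharP.cast_eq_zero_iff K (m + 1 + 1)] at h0
          have := Nat.le_of_dvd (by omega) h0
          omega
        rw [show Jac_U D a 0 (i + 1) = 0 from rfl, zero_mul, neg_zero] at this
        exact (mul_eq_zero.mp this).resolve_left hne
      rw [Finset.sum_eq_zero hrest]
      rw [show Jac_U D a 0 0 = 1 from rfl] at h0
      rw [neg_pow, Jac_neg_one_pow (p := m + 1 + 1)]
      push_cast at h0
      linear_combination h0
  simp only [Nat.sub_zero, Nat.sub_self, Nat.add_sub_cancel, Nat.choose_self, Nat.choose_zero_right,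
    Nat.cast_one, hT, hDp, Function.iterate_zero, id_eq]
  ring

/-- Logarithmic derivatives are the fixed points of the Cartier operator. -/
theorem log_iff (h : PB p s D) (a : K) : (∃ y : K, y ≠ 0 ∧ D y = a * y) ↔ car p D a = a := by
  rw [h.car_eq_iff]
  have hp : p.Prime := Fact.out
  constructor
  · rintro ⟨y, hy, hDy⟩
    have h1 := h.iter_sub a y
    have h2 : ∀ n : ℕ, 0 < n → (fun x => D x - a * x)^[n] y = 0 := by
      intro n hn
      induction n with
      | zero => omega
      | succ n ih =>
        rw [Function.iterate_succ_apply]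
        show (fun x => D x - a * x)^[n] (D y - a * y) = 0
        rw [hDy, sub_self]
        clear ih hn
        induction n with
        | zero => rfl
        | succ n ih => rw [Function.iterate_succ_apply', ih]; simp
    rw [h2 p hp.pos] at h1
    have := (mul_eq_zero.mp h1.symm).resolve_right hy
    linear_combination -this
  · intro h0
    have h1 : (fun x => D x - a * x)^[p] (1 : K) = 0 := by
      rw [h.iter_sub, h0]; simp
    classical
    have hex : ∃ n, (fun x => D x - a * x)^[n] (1 : K) = 0 := ⟨p, h1⟩
    have hn := Nat.find_spec hex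
    have hmin := fun m => Nat.find_min hex (m := m)
    obtain ⟨m, hm⟩ : ∃ m, Nat.find hex = m + 1 := by
      refine ⟨Nat.find hex - 1, ?_⟩
      have : Nat.find hex ≠ 0 := by
        intro h0'
        rw [h0'] at hn
        simp at hn
      omega
    rw [hm, Function.iterate_succ_apply'] at hn
    refine ⟨_, hmin m (by omega), ?_⟩
    have : D ((fun x => D x - a * x)^[m] 1) - a * ((fun x => D x - a * x)^[m] 1) = 0 := hn
    exact sub_eq_zero.mp this

end PB

end Pool.Agent.PRB
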