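import Pool.Agent.LibPRB.GF
import Pool.Agent.LibPRB.Jac

/-! # Logarithmic derivatives and orders; constants -/

set_option autoImplicit false

namespace Pool.Agent.PRB

variable {p : ℕ} [Fact p.Prime] {k K : Type} [Field k] [IsAlgClosed k] [CharP k p] [Field K]
  [Algebra k K] {s : K} {D : Derivation k K K}

theorem Cls1_mem_range_of_isIntegral {k K : Type} [Field k] [IsAlgClosed k] [Field K]
    [Algebra k K] {x : K} (hx : IsIntegral (algebraMap k K).range x) :
    x ∈ (algebraMap k K).range := by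
  have h1 : IsIntegral k x := by
    obtain ⟨f, hf, hfx⟩ := hx
    have hsurj : Function.Surjective (algebraMap k K).rangeRestrict :=
      (algebraMap k K).rangeRestrict_surjective
    obtain ⟨g, hg1, hg2, hg3⟩ := Polynomial.lifts_and_degree_eq_and_monic
      (f := (algebraMap k K).rangeRestrict)
      ((Polynomial.mem_lifts _).mpr (Polynomial.map_surjective _ hsurj f)) hf
    refine ⟨g, hg3, ?_⟩
    rw [← hg1, Polynomial.eval₂_map] at hfx
    exact hfx
  have h2 := IsAlgClosed.degree_eq_one_of_irreducible k (minpoly.irreducible h1)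
  exact minpoly.mem_range_of_degree_eq_one k x h2

/-- A function without zeros and poles is constant. -/
theorem const_of_ord (h : GF p s D) (u : K) (hu : u ≠ 0) (h0 : ∀ P : Plc k K, P.ord u = 0) :
    ∃ c : k, u = algebraMap k K c := by
  by_contra hc
  have hu' : u ∉ (algebraMap k K).range := by
    rintro ⟨c, hc'⟩
    exact hc ⟨c, hc'.symm⟩
  haveI : IsIntegrallyClosedIn (algebraMap k K).range K := by
    rw [Subring.isIntegrallyClosedIn_iff]
    intro x hx
    exact Cls1_mem_range_of_isIntegral hx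
  obtain ⟨V, hV, huV⟩ := Subring.exists_le_valuationSubring_of_isIntegrallyClosedIn hu'
  have hpl : IsPl k V := by
    refine ⟨fun c => hV ⟨c, rfl⟩, ?_⟩
    rintro rfl
    exact huV (by trivial)
  obtain ⟨P, hP⟩ := h.disc V hpl
  apply huV
  rw [← hP, P.mem_ring]
  exact Or.inr (h0 P).ge

/-- `dlog y` is regular at `P` iff `p` divides the order of `y`. -/
theorem logder_ge_iff (h : GF p s D) (P : Plc k K) {δ : ℤ} (hP : IsDiff P D δ) {y : K}
    (hy : y ≠ 0) : P.ge (-δ) (D y / y) ↔ (p : ℤ) ∣ P.ord y := by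
  constructor
  · intro h1
    by_contra hn
    obtain ⟨h2, h3⟩ := hP.ord_D hy hn
    rw [P.ge_iff (div_ne_zero h2 hy), P.ord_div h2 hy, h3] at h1
    linarith
  · intro h1
    obtain ⟨h2, π, hπ, hπ1, hD, hDo⟩ := hP
    set n := P.ord y with hn
    set v := π ^ (-n) * y with hv
    have hv0 : v ≠ 0 := mul_ne_zero (zpow_ne_zero _ hπ) hy
    have hvo : P.ord v = 0 := by
      rw [hv, P.ord_mul (zpow_ne_zero _ hπ) hy, Diff_ord_zpow P hπ1]; linarith
    have hyv : y = π ^ n * v := by
      rw [hv, ← mul_assoc, ← zpow_add₀ hπ, add_neg_cancel, zpow_zero, one_mul]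
    have hnK : (n : K) = 0 := by
      have : (n : k) = 0 := (CharP.intCast_eq_zero_iff k p n).mpr h1
      rw [← map_intCast (algebraMap k K) n, this, map_zero]
    have hDy : D y = π ^ n * D v := by
      conv_lhs => rw [hyv]
      rw [Diff_expand, hnK]; ring
    have hq : D y / y = D v * v⁻¹ := by
      rw [hDy]
      conv_lhs => rw [hyv]
      rw [mul_div_mul_left _ _ (zpow_ne_zero _ hπ), div_eq_mul_inv]
    rw [hq]
    have h4 := h2 v (Or.inr hvo.ge)
    have h5 : P.ge 0 v⁻¹ := Or.inr (by rw [P.ord_inv, hvo]; norm_num)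
    simpa using P.ge_mul h4 h5

end Pool.Agent.PRB
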