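import Mathlib

/-! # Counting lemmas -/

set_option autoImplicit false

namespace Pool.Agent.PRB

open Finset

theorem Cnt_floor (p D h : ℕ) (hp : p.Prime) (hD : 0 < D) (hpD : ¬ p ∣ D) (h1 : 1 ≤ h)
    (h2 : h ≤ p - 1) : h * D / p + (p - h) * D / p + 1 = D := by
  have hp0 : 0 < p := hp.pos
  have hlt : h < p := by omega
  have hr : ¬ p ∣ h * D := by
    intro hh
    rcases (Nat.Prime.dvd_mul hp).1 hh with h3 | h3
    · exact absurd (Nat.le_of_dvd (by omega) h3) (by omega)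
    · exact hpD h3
  have hmod : 0 < (h * D) % p := Nat.pos_of_ne_zero fun hh => hr (Nat.dvd_of_mod_eq_zero hh)
  have hmod2 : (h * D) % p < p := Nat.mod_lt _ hp0
  have hdm := Nat.div_add_mod (h * D) p
  set a := h * D / p with ha
  set r := (h * D) % p with hrdef
  have hsum : (p - h) * D + h * D = p * D := by
    rw [← Nat.add_mul]; congr 1; omega
  have haD : a + 1 ≤ D := by
    have : p * a < p * D := by nlinarith
    have := Nat.lt_of_mul_lt_mul_left this
    omega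
  have hb : (p - h) * D / p = D - (a + 1) := by
    have he : (p - h) * D = (p - r) + p * (D - (a + 1)) := by
      obtain ⟨c, hc⟩ := Nat.exists_eq_add_of_le haD
      have h4 : D - (a + 1) = c := by omega
      rw [h4]
      have h5 : (p - h) * D + (p * a + r) = p * (a + 1 + c) := by
        rw [hdm, hsum]; rw [← hc]
      have h6 : p * (a + 1 + c) = p * a + p + p * c := by ring
      omega
    rw [he, Nat.add_mul_div_left _ _ hp0, Nat.div_eq_of_lt (by omega), zero_add]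
  rw [hb]; omega

theorem Cnt_pair (p D h : ℕ) (hp : p.Prime) (hD : 0 < D) (hpD : ¬ p ∣ D) (h1 : 1 ≤ h)
    (h2 : h ≤ p - 1) (P Q : ℕ → Prop) [DecidablePred P] [DecidablePred Q]
    (hPQ : ∀ y ∈ Icc 1 (D - 1), (Q y ↔ P (D - y))) :
    #{y ∈ Icc 1 (h * D / p) | P y} + #{y ∈ Icc 1 ((p - h) * D / p) | Q y} =
      #{y ∈ Icc 1 (D - 1) | P y} := by
  have hfl := Cnt_floor p D h hp hD hpD h1 h2
  generalize h * D / p = a at hfl ⊢
  generalize (p - h) * D / p = b at hfl ⊢
  have hcard : #{y ∈ Icc 1 b | Q y} = #{y ∈ Icc (a + 1) (D - 1) | P y} := by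
    refine Finset.card_bij' (fun y _ => D - y) (fun y _ => D - y) ?_ ?_ ?_ ?_
    · intro y hy
      simp only [mem_filter, mem_Icc] at hy ⊢
      refine ⟨⟨by omega, by omega⟩, ?_⟩
      exact (hPQ y (by simp only [mem_Icc]; omega)).1 hy.2
    · intro y hy
      simp only [mem_filter, mem_Icc] at hy ⊢
      refine ⟨⟨by omega, by omega⟩, ?_⟩
      refine (hPQ (D - y) (by simp only [mem_Icc]; omega)).2 ?_
      have : D - (D - y) = y := by omega
      rw [this]; exact hy.2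
    · intro y hy
      simp only [mem_filter, mem_Icc] at hy
      show D - (D - y) = y
      omega
    · intro y hy
      simp only [mem_filter, mem_Icc] at hy
      show D - (D - y) = y
      omega
  rw [hcard, ← Finset.card_union_of_disjoint]
  · congr 1
    ext y
    simp only [mem_union, mem_filter, mem_Icc]
    constructor
    · rintro (⟨⟨h3, h4⟩, h5⟩ | ⟨⟨h3, h4⟩, h5⟩)
      · exact ⟨⟨h3, by omega⟩, h5⟩
      · exact ⟨⟨by omega, h4⟩, h5⟩
    · rintro ⟨⟨h3, h4⟩, h5⟩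
      by_cases h6 : y ≤ a
      · exact Or.inl ⟨⟨h3, h6⟩, h5⟩
      · exact Or.inr ⟨⟨by omega, h4⟩, h5⟩
  · rw [Finset.disjoint_left]
    intro y hy hy'
    simp only [mem_filter, mem_Icc] at hy hy'
    omega

theorem Cnt_reflect (p : ℕ) (f : ℕ → ℕ) :
    ∑ h ∈ Icc 1 (p - 1), f (p - h) = ∑ h ∈ Icc 1 (p - 1), f h := by
  refine Finset.sum_nbij' (fun h => p - h) (fun h => p - h) ?_ ?_ ?_ ?_ ?_
  · intro h hh
    simp only [mem_Icc] at hh ⊢
    omega
  · intro h hh
    simp only [mem_Icc] at hh ⊢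
    omega
  · intro h hh
    simp only [mem_Icc] at hh
    show p - (p - h) = h
    omega
  · intro h hh
    simp only [mem_Icc] at hh
    show p - (p - h) = h
    omega
  · intro h hh
    rfl

theorem Cnt_one (n D y : ℕ) (hn : 0 < n) (hc : Nat.Coprime D n) :
    #{h ∈ Icc 1 n | y ≡ h * D [MOD n]} = 1 := by
  rw [Finset.card_eq_one]
  -- existence
  have hex : ∃ h ∈ Icc 1 n, y ≡ h * D [MOD n] := by
    haveI : NeZero n := ⟨hn.ne'⟩
    have hu : IsUnit ((D : ℕ) : ZMod n) := (ZMod.isUnit_iff_coprime D n).2 hc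
    obtain ⟨u, hu⟩ := hu
    set z : ZMod n := (y : ZMod n) * ((u⁻¹ : (ZMod n)ˣ) : ZMod n) with hz
    have hzD : z * (D : ZMod n) = (y : ZMod n) := by
      rw [hz, ← hu, mul_assoc, Units.inv_mul, mul_one]
    by_cases h0 : z.val = 0
    · refine ⟨n, by simp only [mem_Icc]; omega, ?_⟩
      rw [← ZMod.natCast_eq_natCast_iff]
      have hz0 : z = 0 := (ZMod.val_eq_zero z).1 h0
      rw [hz0, zero_mul] at hzD
      push_cast
      rw [← hzD]
      simp
    · refine ⟨z.val, ?_, ?_⟩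
      · have := ZMod.val_lt z
        simp only [mem_Icc]; omega
      · rw [← ZMod.natCast_eq_natCast_iff]
        push_cast
        rw [ZMod.natCast_zmod_val, hzD]
  obtain ⟨h, hh, hy⟩ := hex
  refine ⟨h, ?_⟩
  ext h'
  simp only [mem_filter, mem_singleton]
  constructor
  · rintro ⟨hh', hy'⟩
    have h3 : h' * D ≡ h * D [MOD n] := hy'.symm.trans hy
    have h4 : h' ≡ h [MOD n] := Nat.ModEq.cancel_right_of_coprime (by
      rw [Nat.coprime_comm] at hc; exact hc) h3
    simp only [mem_Icc] at hh hh'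
    rcases Nat.lt_trichotomy h' h with h5 | h5 | h5
    · have h6 := (Nat.modEq_iff_dvd' h5.le).1 h4
      exact absurd (Nat.le_of_dvd (by omega) h6) (by omega)
    · exact h5
    · have h6 := (Nat.modEq_iff_dvd' h5.le).1 h4.symm
      exact absurd (Nat.le_of_dvd (by omega) h6) (by omega)
  · rintro rfl
    exact ⟨hh, hy⟩

/-- `#{y ∈ [1, ⌊hD/p⌋] : y ≡ hD mod (p-1)}` summed over `h = 1, …, p-1` is `(D-1)/2`. -/
theorem cnt_unit (p D : ℕ) (hp : p.Prime) (hD : 0 < D) (hpD : ¬ p ∣ D)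
    (hc : Nat.Coprime D (p - 1)) :
    2 * ∑ h ∈ Icc 1 (p - 1), #{y ∈ Icc 1 (h * D / p) | y ≡ h * D [MOD p - 1]} = D - 1 := by
  have hp1 : 0 < p - 1 := by have := hp.two_le; omega
  have h1 := Cnt_reflect p (fun h => #{y ∈ Icc 1 (h * D / p) | y ≡ h * D [MOD p - 1]})
  have h2 : 2 * ∑ h ∈ Icc 1 (p - 1), #{y ∈ Icc 1 (h * D / p) | y ≡ h * D [MOD p - 1]} =
      ∑ h ∈ Icc 1 (p - 1), (#{y ∈ Icc 1 (h * D / p) | y ≡ h * D [MOD p - 1]} +
        #{y ∈ Icc 1 ((p - h) * D / p) | y ≡ (p - h) * D [MOD p - 1]}) := by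
    rw [Finset.sum_add_distrib, h1]; ring
  rw [h2]
  have h3 : ∀ h ∈ Icc 1 (p - 1), (#{y ∈ Icc 1 (h * D / p) | y ≡ h * D [MOD p - 1]} +
        #{y ∈ Icc 1 ((p - h) * D / p) | y ≡ (p - h) * D [MOD p - 1]}) =
        #{y ∈ Icc 1 (D - 1) | y ≡ h * D [MOD p - 1]} := by
    intro h hh
    simp only [mem_Icc] at hh
    refine Cnt_pair p D h hp hD hpD hh.1 hh.2 _ _ ?_
    intro y hy
    simp only [mem_Icc] at hy
    -- y ≡ (p - h) D  iff  D - y ≡ h D, adding: (p-h) D + h D = p D ≡ D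
    have h4 : (p - h) * D + h * D ≡ D [MOD p - 1] := by
      have h5 : (p - h) * D + h * D = D + (p - 1) * D := by
        rw [← Nat.add_mul]
        have : p - h + h = 1 + (p - 1) := by omega
        rw [this]; ring
      rw [h5]
      have h55 : (p - 1) * D ≡ 0 [MOD (p - 1)] := Nat.modEq_zero_iff_dvd.2 (Dvd.intro D rfl)
      simpa using Nat.ModEq.add_left D h55
    have h6 : y + (D - y) = D := by omega
    constructor
    · intro h7
      -- (D - y) + y ≡ hD + y
      have h8 : y + (D - y) ≡ y + h * D [MOD p - 1] := by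
        rw [h6]
        exact h4.symm.trans (Nat.ModEq.add_right _ h7.symm)
      exact Nat.ModEq.add_left_cancel' y h8
    · intro h7
      have h8 : y + (D - y) ≡ (p - h) * D + (D - y) [MOD p - 1] := by
        rw [h6]
        exact h4.symm.trans (Nat.ModEq.add_left _ h7.symm)
      exact Nat.ModEq.add_right_cancel' (D - y) h8
  rw [Finset.sum_congr rfl h3]
  have h4 : ∑ h ∈ Icc 1 (p - 1), #{y ∈ Icc 1 (D - 1) | y ≡ h * D [MOD p - 1]} =
      ∑ y ∈ Icc 1 (D - 1), #{h ∈ Icc 1 (p - 1) | y ≡ h * D [MOD p - 1]} := by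
    simp only [Finset.card_filter]
    exact Finset.sum_comm
  rw [h4, Finset.sum_congr rfl (fun y _ => Cnt_one (p - 1) D y hp1 hc)]
  simp

/-- The same for multiples of `p - 1`. -/
theorem cnt_zero (p D : ℕ) (hp : p.Prime) (hD : 0 < D) (hpD : ¬ p ∣ D)
    (hc : p - 1 ∣ D) :
    2 * ∑ h ∈ Icc 1 (p - 1), #{y ∈ Icc 1 (h * D / p) | y ≡ 0 [MOD p - 1]} =
      (p - 1) * (D / (p - 1) - 1) := by
  have hp1 : 0 < p - 1 := by have := hp.two_le; omega
  have h1 := Cnt_reflect p (fun h => #{y ∈ Icc 1 (h * D / p) | y ≡ 0 [MOD p - 1]})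
  have h2 : 2 * ∑ h ∈ Icc 1 (p - 1), #{y ∈ Icc 1 (h * D / p) | y ≡ 0 [MOD p - 1]} =
      ∑ h ∈ Icc 1 (p - 1), (#{y ∈ Icc 1 (h * D / p) | y ≡ 0 [MOD p - 1]} +
        #{y ∈ Icc 1 ((p - h) * D / p) | y ≡ 0 [MOD p - 1]}) := by
    rw [Finset.sum_add_distrib, h1]; ring
  rw [h2]
  have h3 : ∀ h ∈ Icc 1 (p - 1), (#{y ∈ Icc 1 (h * D / p) | y ≡ 0 [MOD p - 1]} +
        #{y ∈ Icc 1 ((p - h) * D / p) | y ≡ 0 [MOD p - 1]}) =
        #{y ∈ Icc 1 (D - 1) | y ≡ 0 [MOD p - 1]} := by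
    intro h hh
    simp only [mem_Icc] at hh
    refine Cnt_pair p D h hp hD hpD hh.1 hh.2 _ _ ?_
    intro y hy
    simp only [mem_Icc] at hy
    rw [Nat.modEq_zero_iff_dvd, Nat.modEq_zero_iff_dvd]
    constructor
    · intro h7
      exact Nat.dvd_sub hc h7
    · intro h7
      have h8 : y = D - (D - y) := by omega
      rw [h8]
      exact Nat.dvd_sub hc h7
  rw [Finset.sum_congr rfl h3]
  have h5 : #{y ∈ Icc 1 (D - 1) | y ≡ 0 [MOD p - 1]} = D / (p - 1) - 1 := by
    obtain ⟨D1, hD1⟩ := hc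
    have hD1pos : 0 < D1 := by
      rcases Nat.eq_zero_or_pos D1 with h | h
      · rw [h, mul_zero] at hD1; omega
      · exact h
    have h6 : D / (p - 1) = D1 := by
      rw [hD1]; exact Nat.mul_div_cancel_left D1 hp1
    rw [h6]
    have h7 : (Finset.filter (fun y => y ≡ 0 [MOD p - 1]) (Icc 1 (D - 1))) =
        (Icc 1 (D1 - 1)).image (fun i => (p - 1) * i) := by
      ext y
      simp only [mem_filter, mem_Icc, mem_image, Nat.modEq_zero_iff_dvd]
      constructor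
      · rintro ⟨⟨h8, h9⟩, i, rfl⟩
        refine ⟨i, ⟨?_, ?_⟩, rfl⟩
        · rcases Nat.eq_zero_or_pos i with h | h
          · rw [h, mul_zero] at h8; omega
          · exact h
        · have h10 : (p - 1) * i < (p - 1) * D1 := by rw [← hD1]; omega
          have := Nat.lt_of_mul_lt_mul_left h10
          omega
      · rintro ⟨i, ⟨h8, h9⟩, rfl⟩
        refine ⟨⟨Nat.mul_pos hp1 h8, ?_⟩, Dvd.intro i rfl⟩
        have h10 : (p - 1) * i < (p - 1) * D1 := Nat.mul_lt_mul_of_pos_left (by omega) hp1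
        rw [← hD1] at h10
        omega
    rw [h7, Finset.card_image_of_injective _ (fun a b hab => Nat.eq_of_mul_eq_mul_left hp1 hab)]
    simp
  rw [Finset.sum_congr rfl (fun h _ => h5)]
  simp

/-- The total count. -/
theorem cnt_total (p D : ℕ) (hp : p.Prime) (hD : 0 < D) (hpD : ¬ p ∣ D) :
    2 * ∑ h ∈ Icc 1 (p - 1), h * D / p = (p - 1) * (D - 1) := by
  have h1 := Cnt_reflect p (fun h => h * D / p)
  have h2 : 2 * ∑ h ∈ Icc 1 (p - 1), h * D / p =
      ∑ h ∈ Icc 1 (p - 1), (h * D / p + (p - h) * D / p) := by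
    rw [Finset.sum_add_distrib, h1]; ring
  rw [h2]
  have h3 : ∀ h ∈ Icc 1 (p - 1), h * D / p + (p - h) * D / p = D - 1 := by
    intro h hh
    simp only [mem_Icc] at hh
    have := Cnt_floor p D h hp hD hpD hh.1 hh.2
    omega
  rw [Finset.sum_congr rfl h3]
  simp

end Pool.Agent.PRB
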