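import Pool.Agent.LibPRB.Plc

/-!
# Curves over finite fields through their function fields

Smooth projective geometrically connected curves over a field are the same thing as function fields
of one variable in which the base field is algebraically closed (geometrically: which stay fields
after base change to the algebraic closure).
-/

set_option autoImplicit false

open TensorProduct

namespace Pool.Agent.PRB

/-- `F` is a function field in one variable over `k`: a finite extension of `k(x)` for some `x`
transcendental over `k`. -/
def IsFunctionField (k F : Type) [Field k] [Field F] [Algebra k F] : Prop :=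
  ∃ x : F, Transcendental k x ∧ Module.Finite (IntermediateField.adjoin k {x}) F

/-- The places of `F/k`: the valuation rings of `F` which contain `k` and are not `F`. -/
abbrev Place (k F : Type) [Field k] [Field F] [Algebra k F] : Type :=
  {O : ValuationSubring F // IsPl k O}

/-- The differential `ω` of `F/k` is regular at the place with valuation ring `O`: it is a finite
sum of differentials `a db` with `a, b ∈ O`. -/
def RegularAt {k F : Type} [Field k] [Field F] [Algebra k F] (O : ValuationSubring F)
    (ω : Ω[F⁄k]) : Prop :=
  ω ∈ AddSubgroup.closure {η : Ω[F⁄k] | ∃ a ∈ O, ∃ b ∈ O, η = a • KaehlerDifferential.D k F b}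

theorem RegularAt.smul {k F : Type} [Field k] [Field F] [Algebra k F] (P : Place k F)
    (c : k) {ω : Ω[F⁄k]} (h : RegularAt P.1 ω) : RegularAt P.1 (c • ω) := by
  refine AddSubgroup.closure_induction (p := fun ω _ => c • ω ∈ AddSubgroup.closure
    {η : Ω[F⁄k] | ∃ a ∈ P.1, ∃ b ∈ P.1, η = a • KaehlerDifferential.D k F b}) ?_ ?_ ?_ ?_ h
  · rintro _ ⟨a, ha, b, hb, rfl⟩
    refine AddSubgroup.subset_closure ⟨algebraMap k F c * a, mul_mem (P.2.1 c) ha, b, hb, ?_⟩
    rw [mul_smul, algebraMap_smul]
  · rw [smul_zero]; exact AddSubgroup.zero_mem _
  · intro x y _ _ hx hy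
    rw [smul_add]; exact AddSubgroup.add_mem _ hx hy
  · intro x _ hx
    rw [smul_neg]; exact AddSubgroup.neg_mem _ hx

/-- The `k`-vector space of the differentials of `F/k` which are regular at all places. -/
def regularDifferentials (k F : Type) [Field k] [Field F] [Algebra k F] :
    Submodule k (Ω[F⁄k]) where
  carrier := {ω | ∀ P : Place k F, RegularAt P.1 ω}
  add_mem' := fun {a b} ha hb P => AddSubgroup.add_mem _ (ha P) (hb P)
  zero_mem' := fun P => AddSubgroup.zero_mem _
  smul_mem' := fun c _ h P => RegularAt.smul P c (h P)

/-- The genus of `F/k` (`k` algebraically closed): the dimension of the space of regular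
differentials. -/
noncomputable def genus (k F : Type) [Field k] [Field F] [Algebra k F] : ℕ :=
  Module.finrank k (regularDifferentials k F)

/-- The value group `Fˣ/O_Pˣ` of the place `P` (it is infinite cyclic for function fields). -/
def ValueGroup {k F : Type} [Field k] [Field F] [Algebra k F] (P : Place k F) : Type :=
  Fˣ ⧸ P.1.unitGroup

noncomputable instance {k F : Type} [Field k] [Field F] [Algebra k F] (P : Place k F) :
    CommGroup (ValueGroup P) := QuotientGroup.Quotient.commGroup P.1.unitGroup

/-- The valuation `Fˣ → Fˣ/O_Pˣ` of the place `P`. -/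
noncomputable def valueAt {k F : Type} [Field k] [Field F] [Algebra k F] (P : Place k F) :
    Fˣ →* ValueGroup P := QuotientGroup.mk' P.1.unitGroup

theorem Div_mul {k F : Type} [Field k] [Field F] [Algebra k F] {a b : ∀ P : Place k F, ValueGroup P}
    (ha : {P | a P ≠ 1}.Finite) (hb : {P | b P ≠ 1}.Finite) : {P | (a * b) P ≠ 1}.Finite :=
  (ha.union hb).subset fun P hP => by
    by_contra h
    have h1 : a P = 1 := by_contra fun h' => h (Or.inl h')
    have h2 : b P = 1 := by_contra fun h' => h (Or.inr h')
    refine hP ?_
    change a P * b P = 1
    rw [h1, h2, one_mul]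

theorem Div_one {k F : Type} [Field k] [Field F] [Algebra k F] :
    {P | (1 : ∀ P : Place k F, ValueGroup P) P ≠ 1}.Finite := by simp

theorem Div_inv {k F : Type} [Field k] [Field F] [Algebra k F] {a : ∀ P : Place k F, ValueGroup P}
    (ha : {P | a P ≠ 1}.Finite) : {P | a⁻¹ P ≠ 1}.Finite :=
  ha.subset fun P hP h => hP (by
    change (a P)⁻¹ = 1
    rw [h, inv_one])

/-- The divisor group of `F/k`: the families of elements of the value groups of the places `P`
which are trivial for almost all places `P` (the group is written multiplicatively). -/
def Div (k F : Type) [Field k] [Field F] [Algebra k F] :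
    Subgroup (∀ P : Place k F, ValueGroup P) where
  carrier := {d | {P | d P ≠ 1}.Finite}
  mul_mem' := Div_mul
  one_mem' := Div_one
  inv_mem' := Div_inv

/-- The family of the values of a function `f ∈ Fˣ` at all places: its divisor. -/
noncomputable def divisorOf (k F : Type) [Field k] [Field F] [Algebra k F] :
    Fˣ →* (∀ P : Place k F, ValueGroup P) := Pi.monoidHom fun P => valueAt P

/-- The subgroup of the principal divisors: the elements of the divisor group which are the
divisor of some function `f ∈ Fˣ`. -/
noncomputable def principalDiv (k F : Type) [Field k] [Field F] [Algebra k F] :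
    Subgroup (Div k F) :=
  (divisorOf k F).range.subgroupOf (Div k F)

theorem mem_principalDiv {k F : Type} [Field k] [Field F] [Algebra k F] {d : Div k F} :
    d ∈ principalDiv k F ↔ ∃ f : Fˣ, ∀ P : Place k F, d.1 P = valueAt P f := by
  unfold principalDiv
  rw [Subgroup.mem_subgroupOf, MonoidHom.mem_range]
  exact exists_congr fun f => ⟨fun h P => (congrFun h P).symm, fun h => funext fun P => (h P).symm⟩

/-- The divisor class group of `F/k`. Its `n`-torsion is the `n`-torsion of the group of `k`-points
of the Jacobian of the curve. -/
abbrev DivClass (k F : Type) [Field k] [Field F] [Algebra k F] : Type :=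
  Div k F ⧸ principalDiv k F

/-- `F/k` is the base change of `F₀/k₀`: it is isomorphic to `k ⊗ F₀` over `k`. -/
def IsBaseChange (k₀ k F₀ F : Type) [Field k₀] [Field k] [Field F₀] [Field F] [Algebra k₀ k]
    [Algebra k₀ F₀] [Algebra k F] : Prop :=
  Nonempty (k ⊗[k₀] F₀ ≃ₐ[k] F)

/-- `F/k` (`k` algebraically closed of characteristic `p`) is the function field of a smooth
projective curve of genus `g` and `p`-rank `f`: the `p`-torsion of its divisor class group (that
is, of its Jacobian) has exactly `p ^ f` elements. -/
def HasInvariants (k F : Type) [Field k] [Field F] [Algebra k F] (p g f : ℕ) : Prop :=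
  IsFunctionField k F ∧ genus k F = g ∧ Nat.card {c : DivClass k F // c ^ p = 1} = p ^ f

/-- There is a smooth projective geometrically connected curve over `F_p`, with function field
`F₀`, whose base change to the algebraic closure `k` of `F_p`, with function field
`F = k ⊗ F₀`, has genus `g`, and such that the `p`-torsion of its Jacobian over `k` has exactly
`p ^ f` elements. -/
def HasCurve (p : ℕ) [Fact p.Prime] (g f : ℕ) : Prop :=
  ∃ (F₀ F : Type) (_ : Field F₀) (_ : Field F) (_ : Algebra (ZMod p) F₀)
    (_ : Algebra (AlgebraicClosure (ZMod p)) F),
    IsFunctionField (ZMod p) F₀ ∧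
    IsBaseChange (ZMod p) (AlgebraicClosure (ZMod p)) F₀ F ∧
    HasInvariants (AlgebraicClosure (ZMod p)) F p g f

end Pool.Agent.PRB
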