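import Mathlib

/-!
# Sums of integer parts, II

PLAN.
`sum_tame`: `⌈d m / n⌉ = -((-(d m)) / n)`; `n * ⌈d m / n⌉ = d m + (-(d m)) % n`, and
`∑_{d < n} (-(d m)) % n = g ∑_{i < n/g} g i`-like: with `g = gcd m n` the map `d ↦ (-(d m)) % n` on
`0 ≤ d < n` takes each of the values `0, g, 2 g, ..., n - g` exactly `g` times; the sum is
`g * (g * (n/g) (n/g - 1) / 2) = n (n - g) / 2`.  Alternative without counting: pair `d` and `n - d`:
`(-(d m)) % n + (-((n - d) m)) % n = n` if `n ∤ d m` and `0` otherwise, and the number of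
`0 ≤ d < n` with `n ∣ d m` is `g`; so `2 ∑ = n (n - g)`.
`sum_log`: `1 + (d m) / n = ⌈d m / n⌉ + [n ∣ d m]`, the number of `0 ≤ d < n` with `n ∣ d m` is `g`.
-/

set_option autoImplicit false

namespace Pool.Agent.PRB

theorem SumT_card (n : ℕ) (hn : 0 < n) (m : ℤ) :
    ((Finset.range n).filter (fun d : ℕ => (n : ℤ) ∣ (d : ℤ) * m)).card = Int.gcd m n := by
  classical
  set g := Int.gcd m n with hg
  have hg0 : 0 < g := Int.gcd_pos_of_ne_zero_right m (by exact_mod_cast hn.ne')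
  obtain ⟨q, hq⟩ : g ∣ n := by
    have := Int.gcd_dvd_right m (n : ℤ)
    exact_mod_cast this
  obtain ⟨m', hm'⟩ : (g : ℤ) ∣ m := Int.gcd_dvd_left m (n : ℤ)
  have hq0 : 0 < q := Nat.pos_of_ne_zero (by rintro rfl; omega)
  have hcop : Int.gcd m' q = 1 := by
    have h1 : Int.gcd m n = g * Int.gcd m' q := by
      rw [hm', hq]
      push_cast
      rw [Int.gcd_mul_left]
      simp
    rw [← hg] at h1
    have h2 : g * 1 = g * Int.gcd m' q := by rw [mul_one]; exact h1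
    exact (Nat.eq_of_mul_eq_mul_left hg0 h2).symm
  have hiff : ∀ d : ℕ, (n : ℤ) ∣ (d : ℤ) * m ↔ q ∣ d := by
    intro d
    rw [hq, hm']
    push_cast
    rw [show (d : ℤ) * (g * m') = g * (d * m') by ring,
      mul_dvd_mul_iff_left (by exact_mod_cast hg0.ne' : (g : ℤ) ≠ 0)]
    constructor
    · intro h1
      have h2 : (q : ℤ) ∣ d := by
        have hc : IsCoprime (q : ℤ) m' := by
          rw [Int.isCoprime_iff_gcd_eq_one, Int.gcd_comm]
          exact hcop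
        exact hc.dvd_of_dvd_mul_right h1
      exact_mod_cast h2
    · intro h1
      have h2 : (q : ℤ) ∣ d := by exact_mod_cast h1
      exact h2.mul_right _
  have hset : (Finset.range n).filter (fun d : ℕ => (n : ℤ) ∣ (d : ℤ) * m) =
      (Finset.range g).image (fun i => q * i) := by
    ext d
    simp only [Finset.mem_filter, Finset.mem_range, Finset.mem_image, hiff]
    constructor
    · rintro ⟨h1, ⟨i, rfl⟩⟩
      refine ⟨i, ?_, rfl⟩
      rw [hq, mul_comm] at h1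
      exact lt_of_mul_lt_mul_right h1 (Nat.zero_le _) |> fun h => by simpa using h
    · rintro ⟨i, hi, rfl⟩
      refine ⟨?_, dvd_mul_right _ _⟩
      rw [hq, mul_comm]
      exact Nat.mul_lt_mul_of_pos_right hi hq0
  rw [hset, Finset.card_image_of_injective, Finset.card_range]
  intro a b hab
  exact Nat.eq_of_mul_eq_mul_left hq0 hab

theorem SumT_neg (x : ℤ) (n : ℕ) (hn : 0 < n) :
    -((-x) / (n : ℤ)) = x / n + 1 - (if (n : ℤ) ∣ x then 1 else 0) := by
  rw [Int.neg_ediv, Int.sign_eq_one_of_pos (by exact_mod_cast hn)]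
  split_ifs <;> ring

theorem SumT_pair (n : ℕ) (hn : 0 < n) (m : ℤ) (d e : ℕ) (hde : d + e = n) :
    -((-((d : ℤ) * m)) / (n : ℤ)) + -((-((e : ℤ) * m)) / (n : ℤ)) =
      m + 1 - (if (n : ℤ) ∣ (d : ℤ) * m then 1 else 0) := by
  have hn' : (n : ℤ) ≠ 0 := by exact_mod_cast hn.ne'
  have h1 : (-((e : ℤ) * m)) / (n : ℤ) = (d * m) / n - m := by
    have h2 : -((e : ℤ) * m) = d * m + (-m) * n := by
      have : (n : ℤ) = d + e := by exact_mod_cast hde.symm
      rw [this]; ring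
    rw [h2, Int.add_mul_ediv_right _ _ hn']
    ring
  rw [SumT_neg _ n hn, h1]
  ring

theorem sum_tame (n : ℕ) (hn : 0 < n) (m : ℤ) :
    2 * ∑ d ∈ Finset.range n, -((-((d : ℤ) * m)) / (n : ℤ)) = m * (n - 1) + n - Int.gcd m n := by
  classical
  have hcard := SumT_card n hn m
  rw [Finset.card_filter] at hcard
  obtain ⟨k, rfl⟩ : ∃ k, n = k + 1 := ⟨n - 1, by omega⟩
  rw [Finset.sum_range_succ'] at hcard ⊢
  have h0 : -((-(((0 : ℕ) : ℤ) * m)) / ((k + 1 : ℕ) : ℤ)) = 0 := by simp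
  rw [h0, add_zero]
  have href := Finset.sum_range_reflect
    (fun d : ℕ => -((-(((d + 1 : ℕ) : ℤ) * m)) / ((k + 1 : ℕ) : ℤ))) k
  have h1 : ∀ d ∈ Finset.range k,
      -((-(((d + 1 : ℕ) : ℤ) * m)) / ((k + 1 : ℕ) : ℤ)) +
        -((-(((k - 1 - d + 1 : ℕ) : ℤ) * m)) / ((k + 1 : ℕ) : ℤ)) =
      m + 1 - (if ((k + 1 : ℕ) : ℤ) ∣ ((d + 1 : ℕ) : ℤ) * m then 1 else 0) := by
    intro d hd
    have hd' := Finset.mem_range.1 hd
    exact SumT_pair (k + 1) hn m (d + 1) (k - 1 - d + 1) (by omega)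
  have h3 := Finset.sum_congr rfl h1
  rw [Finset.sum_add_distrib, Finset.sum_sub_distrib, href, Finset.sum_const,
    Finset.card_range, nsmul_eq_mul, ← two_mul] at h3
  rw [h3]
  have h2 : (∑ d ∈ Finset.range k,
      (if ((k + 1 : ℕ) : ℤ) ∣ ((d + 1 : ℕ) : ℤ) * m then (1 : ℤ) else 0)) + 1 =
      (Int.gcd m ((k + 1 : ℕ) : ℤ) : ℤ) := by
    rw [← hcard]
    push_cast
    simp
  push_cast at h2 ⊢
  linarith

theorem sum_log (n : ℕ) (hn : 0 < n) (m : ℤ) :
    2 * ∑ d ∈ Finset.range n, (1 + ((d : ℤ) * m) / (n : ℤ)) = m * (n - 1) + n + Int.gcd m n := by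
  classical
  have hcard := SumT_card n hn m
  rw [Finset.card_filter] at hcard
  have h1 := sum_tame n hn m
  have h2 : ∑ d ∈ Finset.range n, (1 + ((d : ℤ) * m) / (n : ℤ)) =
      ∑ d ∈ Finset.range n, -((-((d : ℤ) * m)) / (n : ℤ)) +
        ∑ d ∈ Finset.range n, (if (n : ℤ) ∣ (d : ℤ) * m then (1 : ℤ) else 0) := by
    rw [← Finset.sum_add_distrib]
    refine Finset.sum_congr rfl fun d _ => ?_
    rw [SumT_neg _ n hn]
    ring
  have h3 : ∑ d ∈ Finset.range n, (if (n : ℤ) ∣ (d : ℤ) * m then (1 : ℤ) else 0) =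
      (Int.gcd m n : ℤ) := by
    rw [← hcard]
    push_cast
    rfl
  rw [h2, h3, mul_add, h1]
  ring

end Pool.Agent.PRB
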