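import Mathlib

/-!
# Sums of integer parts

PLAN.
`sum_wild`: `x = n + D`, `p = n + 1`, `D = p m - n ν`, `p ∤ ν` (because `D ≡ ν` mod `p`).  For every integer `x`:
`2 ∑_{d < p} ((x + d ν) / p) = 2 x + (p - 1) (ν - 1)`: `p * ((x + d ν) / p) = x + d ν - (x + d ν) % p`, and
`(x + d ν) % p` runs through all residues `0, ..., p - 1` (`d ↦ (x + d ν) % p` is injective on
`0 ≤ d < p` because `p` is a prime not dividing `ν`; `Finset.sum_bij`/`Finset.sum_nbij` or
`ZMod`); `∑_{d<p} d = p (p-1) / 2`.  The term `d = n` is `(n + D + n ν) / p = (n + p m) / p = m`.  Subtract.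
-/

set_option autoImplicit false

namespace Pool.Agent.PRB

private theorem SumW_res (p : ℕ) (hp : p.Prime) (x ν : ℤ) (hν : ¬ (p : ℤ) ∣ ν) :
    ∑ d ∈ Finset.range p, (x + d * ν) % (p : ℤ) = ∑ r ∈ Finset.range p, (r : ℤ) := by
  have hp0 : (0 : ℤ) < p := by exact_mod_cast hp.pos
  have h0 : ∀ d : ℕ, 0 ≤ (x + d * ν) % (p : ℤ) := fun d => Int.emod_nonneg _ hp0.ne'
  have h1 : ∀ d : ℕ, (x + d * ν) % (p : ℤ) < p := fun d => Int.emod_lt_of_pos _ hp0
  obtain ⟨f, hf⟩ : ∃ f : ℕ → ℕ, ∀ d, ((f d : ℕ) : ℤ) = (x + d * ν) % (p : ℤ) :=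
    ⟨fun d => ((x + d * ν) % (p : ℤ)).toNat, fun d => Int.toNat_of_nonneg (h0 d)⟩
  have hinj : Set.InjOn f (Finset.range p : Set ℕ) := by
    intro d hd d' hd' he
    rw [Finset.coe_range, Set.mem_Iio] at hd hd'
    have h2 : (x + d * ν) % (p : ℤ) = (x + d' * ν) % (p : ℤ) := by
      rw [← hf, ← hf, he]
    have h3 : (p : ℤ) ∣ (x + d * ν) - (x + d' * ν) :=
      Int.dvd_of_emod_eq_zero (Int.emod_emod_of_dvd _ (dvd_refl _) ▸ by
        rw [Int.sub_emod, h2, sub_self, Int.zero_emod, Int.zero_emod])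
    have h4 : (x + d * ν) - (x + d' * ν) = ((d : ℤ) - d') * ν := by ring
    rw [h4] at h3
    rcases (Nat.prime_iff_prime_int.1 hp).dvd_or_dvd h3 with h5 | h5
    · have h6 : (d : ℤ) - d' = 0 := by
        apply Int.eq_zero_of_abs_lt_dvd h5
        rw [abs_lt]
        constructor <;> omega
      omega
    · exact absurd h5 hν
  have himg : (Finset.range p).image f = Finset.range p := by
    apply Finset.eq_of_subset_of_card_le
    · intro r hr
      obtain ⟨d, _, rfl⟩ := Finset.mem_image.1 hr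
      rw [Finset.mem_range]
      have := h1 d
      rw [← hf] at this
      exact_mod_cast this
    · rw [Finset.card_image_of_injOn hinj]
  conv_rhs => rw [← himg, Finset.sum_image hinj]
  exact Finset.sum_congr rfl fun d _ => (hf d).symm

private theorem SumW_tri (p : ℕ) : 2 * ∑ r ∈ Finset.range p, (r : ℤ) = p * (p - 1) := by
  induction p with
  | zero => simp
  | succ n ih =>
    rw [Finset.sum_range_succ, mul_add, ih]
    push_cast
    ring

theorem sum_wild (p : ℕ) (hp : p.Prime) (m ν : ℤ) (h : ¬ (p : ℤ) ∣ p * m - (p - 1) * ν) :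
    2 * ∑ d ∈ Finset.range (p - 1), ((p - 1) + (p * m - (p - 1) * ν) + d * ν) / (p : ℤ) =
      (p - 1) + (p * m - (p - 1) * ν) + m * (p - 2) := by
  have hp0 : (0 : ℤ) < p := by exact_mod_cast hp.pos
  have hν : ¬ (p : ℤ) ∣ ν := by
    rintro ⟨t, rfl⟩
    exact h ⟨m - (p - 1) * t, by ring⟩
  obtain ⟨x, hx⟩ : ∃ x : ℤ, x = (p - 1) + (p * m - (p - 1) * ν) := ⟨_, rfl⟩
  rw [← hx]
  have h1 : (p : ℤ) * ∑ d ∈ Finset.range p, (x + d * ν) / (p : ℤ) =
      p * x + ν * (∑ r ∈ Finset.range p, (r : ℤ)) - ∑ r ∈ Finset.range p, (r : ℤ) := by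
    conv_rhs => rw [← SumW_res p hp x ν hν]
    rw [SumW_res p hp x ν hν]
    have h2 : ∀ d : ℕ, (p : ℤ) * ((x + d * ν) / (p : ℤ)) = x + d * ν - (x + d * ν) % (p : ℤ) := by
      intro d
      have := Int.mul_ediv_add_emod (x + d * ν) (p : ℤ)
      linarith
    rw [Finset.mul_sum, Finset.sum_congr rfl fun d _ => h2 d, Finset.sum_sub_distrib,
      Finset.sum_add_distrib, SumW_res p hp x ν hν, Finset.sum_const, Finset.card_range,
      nsmul_eq_mul, ← Finset.sum_mul]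
    ring
  have h2 := SumW_tri p
  have h3 : 2 * ∑ d ∈ Finset.range p, (x + d * ν) / (p : ℤ) = 2 * x + (p - 1) * (ν - 1) := by
    apply mul_left_cancel₀ hp0.ne'
    linear_combination 2 * h1 + (ν - 1) * h2
  have h4 : ∑ d ∈ Finset.range p, (x + d * ν) / (p : ℤ) =
      ∑ d ∈ Finset.range (p - 1), (x + d * ν) / (p : ℤ) + m := by
    obtain ⟨n, rfl⟩ : ∃ n, p = n + 1 := ⟨p - 1, (Nat.sub_add_cancel hp.one_le).symm⟩
    rw [Nat.add_sub_cancel, Finset.sum_range_succ]
    congr 1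
    have h5 : x + n * ν = n + m * ((n + 1 : ℕ) : ℤ) := by
      rw [hx]
      push_cast
      ring
    rw [h5, Int.add_mul_ediv_right _ _ hp0.ne', Int.ediv_eq_zero_of_lt (by positivity)
      (by push_cast; linarith), zero_add]
  rw [h4] at h3
  rw [hx] at h3 ⊢
  linarith

end Pool.Agent.PRB
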