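import Pool.Agent.LibPRB.TwLog
import Pool.Agent.LibPRB.SumW
import Pool.Agent.LibPRB.SumT

/-! # Branch data of the covers of the line: local invariants -/

set_option autoImplicit false

namespace Pool.Agent.PRB

/-- The invariant `p m - (p - 1) ν` of a point with `ord h = m`, `ord v = ν`. -/
def datD (p : ℕ) (m ν : ℤ) : ℤ := p * m - (p - 1) * ν

/-- The exponent of the polynomial `W_d` at a point with data `(m, ν)`. -/
def datE (p : ℕ) (m ν : ℤ) (d : ℕ) : ℕ :=
  if 0 < datD p m ν then ((p - 1 : ℤ) - (d * m) % (p - 1)).toNat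
  else ((-(d * m)) % (p - 1 : ℤ)).toNat

/-- The contribution of a point with data `(m, ν)` to `2 g + 2 (p - 1)`. -/
def datG (p : ℕ) (m ν : ℤ) : ℤ :=
  if 0 < datD p m ν then (p - 1) + datD p m ν else (p - 1) - Int.gcd m (p - 1)

variable {p : ℕ} [Fact p.Prime] {k K : Type} [Field k] [Field K] [Algebra k K]

theorem DatA_n : (0 : ℤ) < (p : ℤ) - 1 := by
  have := (Fact.out : p.Prime).two_le
  omega

theorem DatA_twD {h v : K} {P : Plc k K} {m ν : ℤ} (hm : P.ord h = m) (hν : P.ord v = ν) :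
    twD p h v P = datD p m ν := by
  unfold twD datD
  rw [hm, hν]

/-- `(p - 1) E - d m = datE`. -/
theorem DatA_twl {h v : K} {P : Plc k K} {m ν : ℤ} (hm : P.ord h = m) (hν : P.ord v = ν) (d : ℕ) :
    (datE p m ν d : ℤ) = (p - 1) * twl p h v d P - d * m := by
  have hn := DatA_n (p := p)
  unfold datE twl cdiv
  rw [DatA_twD hm hν, hm]
  have h1 := Int.emod_nonneg (d * m) hn.ne'
  have h2 := Int.emod_lt_of_pos (d * m) hn
  have h3 := Int.emod_nonneg (-(d * m)) hn.ne'
  have h4 := Int.emod_def (d * m) (p - 1 : ℤ)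
  have h5 := Int.emod_def (-(d * m)) (p - 1 : ℤ)
  split_ifs with h
  · rw [Int.toNat_of_nonneg (by linarith)]
    linear_combination -h4
  · rw [Int.toNat_of_nonneg h3]
    linear_combination h5

theorem DatA_twc_last {h v : K} {P : Plc k K} {m : ℤ} (hm : P.ord h = m) :
    twc p h v (p - 1) P = m := by
  have hn := DatA_n (p := p)
  have hp : 1 ≤ p := (Fact.out : p.Prime).one_lt.le
  unfold twc cdiv
  rw [hm]
  have hc : ((p - 1 : ℕ) : ℤ) = (p : ℤ) - 1 := by push_cast [hp]; ring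
  rw [hc]
  split_ifs with h
  · unfold twD
    rw [hm]
    have h1 : ((p : ℤ) - 1 + (p * m - (p - 1) * P.ord v) + (p - 1) * P.ord v) =
        (p - 1) + p * m := by ring
    rw [h1, Int.add_mul_ediv_left _ _ (by omega)]
    rw [Int.ediv_eq_zero_of_lt (by omega) (by omega), zero_add]
  · rw [neg_mul_eq_mul_neg, Int.mul_ediv_cancel_left _ hn.ne', neg_neg]

theorem DatA_sum_twc {h v : K} {P : Plc k K} {m ν : ℤ} (hm : P.ord h = m) (hν : P.ord v = ν)
    (hD : 0 < datD p m ν → ¬ (p : ℤ) ∣ datD p m ν) :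
    2 * ∑ d ∈ Finset.range (p - 1), twc p h v d P = datG p m ν + m * (p - 2) := by
  have hn := DatA_n (p := p)
  have hp : 1 ≤ p := (Fact.out : p.Prime).one_lt.le
  have hp2 := (Fact.out : p.Prime).two_le
  have hc : ((p - 1 : ℕ) : ℤ) = (p : ℤ) - 1 := by push_cast [hp]; ring
  unfold twc datG cdiv
  rw [DatA_twD hm hν, hm, hν]
  split_ifs with h
  · have h1 := sum_wild p Fact.out m ν (hD h)
    unfold datD
    rw [h1]
  · have h1 := sum_tame (p - 1) (by omega) m
    rw [hc] at h1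
    rw [h1]
    ring

theorem DatA_twc_pos {h v : K} {P : Plc k K} {m ν : ℤ} (hm : P.ord h = m) (hν : P.ord v = ν)
    {d : ℕ} (hd : d < p - 1) : (d : ℤ) * m ≤ (p - 1) * twc p h v d P := by
  have hn := DatA_n (p := p)
  have h1 := DatA_twl (p := p) hm hν d
  have h2 := twl_le_twc (p := p) (h := h) (v := v) P hd
  have h3 : (0 : ℤ) ≤ (datE p m ν d : ℤ) := by positivity
  nlinarith

theorem DatA_twc_pos' {h v : K} {P : Plc k K} {m ν : ℤ} (hm : P.ord h = m) (hν : P.ord v = ν)
    (h0 : 0 < datD p m ν) {d : ℕ} (hd : d < p - 1) :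
    (d : ℤ) * m + 1 ≤ (p - 1) * twc p h v d P := by
  have hn := DatA_n (p := p)
  have h1 := DatA_twl (p := p) hm hν d
  have h2 := twl_le_twc (p := p) (h := h) (v := v) P hd
  have h3 : (1 : ℤ) ≤ (datE p m ν d : ℤ) := by
    unfold datE
    rw [if_pos h0]
    have h4 := Int.emod_lt_of_pos (d * m) hn
    rw [Int.toNat_of_nonneg (by linarith)]
    linarith
  nlinarith

end Pool.Agent.PRB
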