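import Pool.Agent.LibPRB.Curve

/-!
# Basic notions: differentials at places, `p`-bases, the Cartier operator, Artin–Schreier extensions
-/

set_option autoImplicit false

namespace Pool.Agent.PRB

section basic

variable {k K : Type} [Field k] [Field K] [Algebra k K]

/-- `D = d/ds`; the differential `ds` has order `δ` at `P` (so `a ds` is regular at `P` iff
`ord a ≥ -δ`). -/
def IsDiff (P : Plc k K) (D : Derivation k K K) (δ : ℤ) : Prop :=
  (∀ a, P.ge 0 a → P.ge (-δ) (D a)) ∧ ∃ π : K, π ≠ 0 ∧ P.ord π = 1 ∧ D π ≠ 0 ∧ P.ord (D π) = -δ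

/-- `{s}` is a `p`-basis of `K`, and `D = d/ds`. -/
structure PB (p : ℕ) (s : K) (D : Derivation k K K) : Prop where
  D_s : D s = 1
  span : ∀ a : K, ∃ c : ℕ → K, a = ∑ i ∈ Finset.range p, c i ^ p * s ^ i

open Classical in
/-- The Cartier operator in the coordinate `s`: `car a = c` with `c ^ p = - D^(p-1) a`; the
Cartier operator maps `a ds` to `(car a) ds`. -/
noncomputable def car (p : ℕ) (D : Derivation k K K) (a : K) : K :=
  if h : ∃ c : K, c ^ p = - (D^[p - 1] a) then h.choose else 0

end basic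

/-- `L = K(z)` with `z ^ p - z = g`, of degree `p` over `K`. -/
structure IsAS (p : ℕ) {K L : Type} [Field K] [Field L] [Algebra K L] (g : K) (z : L) : Prop where
  eq : z ^ p = z + algebraMap K L g
  repr : ∀ a : L, ∃ c : ℕ → K, a = ∑ i ∈ Finset.range p, algebraMap K L (c i) * z ^ i
  indep : ∀ c : ℕ → K, ∑ i ∈ Finset.range p, algebraMap K L (c i) * z ^ i = 0 → ∀ i < p, c i = 0

section AS

variable {k K L : Type} [Field k] [Field K] [Field L] [Algebra k K] [Algebra k L] [Algebra K L]

/-- The place `Q` of `L` lies over the place `P` of `K`, unramified. -/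
def OverEt (Q : Plc k L) (P : Plc k K) : Prop := ∀ a : K, Q.ord (algebraMap K L a) = P.ord a

/-- The place `Q` of `L` lies over the place `P` of `K`, totally ramified of degree `p`, and
`z` has order `ord_P g`. -/
def OverRam (p : ℕ) (g : K) (z : L) (Q : Plc k L) (P : Plc k K) : Prop :=
  (∀ a : K, Q.ord (algebraMap K L a) = p * P.ord a) ∧ Q.ord z = P.ord g

/-- `Q` lies over `P`. -/
def Over (Q : Plc k L) (P : Plc k K) : Prop := ∀ a : K, Q.ge 0 (algebraMap K L a) ↔ P.ge 0 a

open Classical in
/-- The coefficients of `a` with respect to the basis `z ^ i`, `i < p`. -/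
noncomputable def IsAS.co {p : ℕ} {g : K} {z : L} (h : IsAS p g z) (a : L) (i : ℕ) : K :=
  if i < p then (h.repr a).choose i else 0

end AS

/-- The bound `⌈(p-1-d) D / p⌉`. -/
def bnd (p D d : ℕ) : ℕ := ((p - 1 - d) * D + (p - 1)) / p

end Pool.Agent.PRB
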