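import Pool.Agent.LibPRB.Curve

/-! # Descent to `F_p` -/

set_option autoImplicit false

open TensorProduct

namespace Pool.Agent.PRB

variable (p : ℕ) [Fact p.Prime]

theorem Desc_prime (k : Type) [Field k] [Algebra (ZMod p) k] (c : k) (h : c ^ p = c) :
    ∃ d : ZMod p, algebraMap (ZMod p) k d = c := by
  have : CharP k p := charP_of_injective_algebraMap (algebraMap (ZMod p) k).injective p
  have h1 : c ∈ (⊥ : Subfield k) := (Subfield.mem_bot_iff_pow_eq_self k p).mpr h
  rw [← ZMod.fieldRange_castHom_eq_bot p, RingHom.mem_fieldRange] at h1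
  obtain ⟨d, hd⟩ := h1
  refine ⟨d, ?_⟩
  rw [← hd]
  exact congrArg (fun f : ZMod p →+* k => f d) (Subsingleton.elim _ _)

/-- Fixed elements which are independent over `F_p` are independent over `k`. -/
theorem Desc_indep (k : Type) [Field k] [Algebra (ZMod p) k] (F : Type) [Field F] [Algebra k F]
    (φ : F →+* F) (hφ : ∀ c : k, φ (algebraMap k F c) = algebraMap k F (c ^ p))
    {I : Type} (b : I → F) (hb : ∀ i, φ (b i) = b i)
    (hl : ∀ (s : Finset I) (d : I → ZMod p),
      ∑ i ∈ s, algebraMap k F (algebraMap (ZMod p) k (d i)) * b i = 0 → ∀ i ∈ s, d i = 0) :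
    ∀ (n : ℕ) (s : Finset I) (_ : s.card = n) (c : I → k),
      ∑ i ∈ s, algebraMap k F (c i) * b i = 0 → ∀ i ∈ s, c i = 0 := by
  classical
  intro n
  induction n with
  | zero =>
    intro s hs c _ i hi
    rw [Finset.card_eq_zero] at hs
    subst hs
    simp at hi
  | succ n ih =>
    intro s hs c hc i hi
    by_contra hne
    set c' : I → k := fun j => (c i)⁻¹ * c j with hc'
    have h1 : ∑ j ∈ s, algebraMap k F (c' j) * b j = 0 := by
      have : ∑ j ∈ s, algebraMap k F (c' j) * b j
          = algebraMap k F (c i)⁻¹ * ∑ j ∈ s, algebraMap k F (c j) * b j := by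
        rw [Finset.mul_sum]
        refine Finset.sum_congr rfl fun j _ => ?_
        rw [hc', map_mul, mul_assoc]
      rw [this, hc, mul_zero]
    have h2 : ∑ j ∈ s, algebraMap k F (c' j ^ p) * b j = 0 := by
      have := congrArg φ h1
      rw [map_sum, map_zero] at this
      rw [← this]
      refine Finset.sum_congr rfl fun j _ => ?_
      rw [map_mul, hφ, hb]
    have hi1 : c' i = 1 := inv_mul_cancel₀ hne
    have h3 : ∑ j ∈ s.erase i, algebraMap k F (c' j ^ p - c' j) * b j = 0 := by
      have h4 : ∑ j ∈ s, algebraMap k F (c' j ^ p - c' j) * b j = 0 := by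
        have : ∑ j ∈ s, algebraMap k F (c' j ^ p - c' j) * b j
            = ∑ j ∈ s, algebraMap k F (c' j ^ p) * b j - ∑ j ∈ s, algebraMap k F (c' j) * b j := by
          rw [← Finset.sum_sub_distrib]
          refine Finset.sum_congr rfl fun j _ => ?_
          rw [map_sub, sub_mul]
        rw [this, h1, h2, sub_zero]
      rw [← Finset.add_sum_erase s _ hi, hi1, one_pow, sub_self, map_zero, zero_mul, zero_add] at h4
      exact h4
    have h5 := ih (s.erase i) (by rw [Finset.card_erase_of_mem hi, hs]; rfl) _ h3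
    have h6 : ∀ j ∈ s, ∃ d : ZMod p, algebraMap (ZMod p) k d = c' j := by
      intro j hj
      by_cases hji : j = i
      · subst hji
        exact ⟨1, by rw [hi1, map_one]⟩
      · exact Desc_prime p k _ (sub_eq_zero.mp (h5 j (Finset.mem_erase.mpr ⟨hji, hj⟩)))
    choose! d hd using h6
    have h7 := hl s d (by
      rw [← h1]
      refine Finset.sum_congr rfl fun j hj => ?_
      rw [hd j hj]) i hi
    have h8 := hd i hi
    rw [h7, map_zero, hi1] at h8
    exact zero_ne_one h8

open Polynomial in
/-- The vectors of the powers `α ^ (p ^ i)`, `α` in the field with `p ^ n` elements, span. -/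
theorem Desc_span (k : Type) [Field k] [CharP k p] [IsAlgClosed k] (n : ℕ) (hn : 0 < n) :
    Submodule.span k {v : Fin n → k | ∃ α : k, α ^ p ^ n = α ∧ v = fun i : Fin n => α ^ p ^ (i : ℕ)} = ⊤ := by
  classical
  by_contra hne
  obtain ⟨f, hf, hf'⟩ := Submodule.exists_dual_map_eq_bot_of_lt_top
    (p := Submodule.span k {v : Fin n → k | ∃ α : k, α ^ p ^ n = α ∧ v = fun i : Fin n => α ^ p ^ (i : ℕ)})
    (lt_top_iff_ne_top.mpr hne) inferInstance
  have hp1 : 1 < p := (Fact.out : p.Prime).one_lt
  set P : k[X] := ∑ i : Fin n, C (f (Pi.single i 1)) * X ^ p ^ (i : ℕ) with hP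
  have hroot : ∀ α : k, α ^ p ^ n = α → P.eval α = 0 := by
    intro α hα
    have h1 : f (fun i : Fin n => α ^ p ^ (i : ℕ)) = 0 := by
      have : f (fun i : Fin n => α ^ p ^ (i : ℕ)) ∈ Submodule.map f (Submodule.span k
          {v : Fin n → k | ∃ α : k, α ^ p ^ n = α ∧ v = fun i : Fin n => α ^ p ^ (i : ℕ)}) :=
        Submodule.mem_map_of_mem (Submodule.subset_span ⟨α, hα, rfl⟩)
      rw [hf'] at this
      exact (Submodule.mem_bot k).mp this
    have h2 : (fun i : Fin n => α ^ p ^ (i : ℕ)) = ∑ i : Fin n, (α ^ p ^ (i : ℕ)) • Pi.single i 1 := by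
      funext j
      rw [Finset.sum_apply, Finset.sum_eq_single j]
      · simp
      · intro i _ hij
        simp [hij.symm]
      · simp
    rw [h2, map_sum] at h1
    rw [hP, eval_finsetSum, ← h1]
    refine Finset.sum_congr rfl fun i _ => ?_
    rw [map_smul, smul_eq_mul, eval_mul, eval_C, eval_pow, eval_X, mul_comm]
  have hdeg : P.natDegree < p ^ n := by
    refine lt_of_le_of_lt (natDegree_sum_le_of_forall_le (n := p ^ (n - 1)) _ _ ?_) ?_
    · intro i _
      refine le_trans (natDegree_C_mul_X_pow_le _ _) ?_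
      exact Nat.pow_le_pow_right (by omega) (by have := i.2; omega)
    · exact Nat.pow_lt_pow_right hp1 (by omega)
  have hP0 : P = 0 := by
    have hsep : (X ^ (p ^ n) - X : k[X]).Separable :=
      galois_poly_separable p (p ^ n) (dvd_pow_self p hn.ne')
    have hq1 : 1 < p ^ n := Nat.one_lt_pow hn.ne' hp1
    have hd : (X ^ (p ^ n) - X : k[X]).natDegree = p ^ n :=
      FiniteField.X_pow_card_sub_X_natDegree_eq k hq1
    have hcard : (X ^ (p ^ n) - X : k[X]).roots.toFinset.card = p ^ n := by
      rw [Multiset.toFinset_card_of_nodup (nodup_roots hsep)]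
      rw [← (IsAlgClosed.splits (X ^ (p ^ n) - X : k[X])).natDegree_eq_card_roots, hd]
    by_contra hP0
    have hsub : (X ^ (p ^ n) - X : k[X]).roots.toFinset ⊆ P.roots.toFinset := by
      intro α hα
      rw [Multiset.mem_toFinset] at hα ⊢
      have h1 := isRoot_of_mem_roots hα
      rw [IsRoot.def, eval_sub, eval_pow, eval_X, sub_eq_zero] at h1
      rw [mem_roots hP0]
      exact hroot α h1
    have h1 := Finset.card_le_card hsub
    have h2 := P.roots.toFinset_card_le
    have h3 := P.card_roots'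
    omega
  apply hf
  refine LinearMap.pi_ext' fun i => LinearMap.ext_ring ?_
  have h1 : P.coeff (p ^ (i : ℕ)) = f (Pi.single i 1) := by
    rw [hP, finsetSum_coeff, Finset.sum_eq_single i]
    · simp
    · intro j _ hji
      rw [coeff_C_mul_X_pow, if_neg]
      intro h
      exact hji (Fin.ext (Nat.pow_right_injective hp1 h.symm))
    · simp
  rw [hP0, coeff_zero] at h1
  simpa using h1.symm

/-- Galois descent: a semilinear Frobenius `φ` on `F`, each element of which is fixed by some
power of `φ`, defines an `F_p`-structure. -/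
theorem exists_descent (k : Type) [Field k] [Algebra (ZMod p) k] [Algebra.IsAlgebraic (ZMod p) k]
    [IsAlgClosed k] (F : Type) [Field F] [Algebra k F]
    (φ : F →+* F) (hφ : ∀ c : k, φ (algebraMap k F c) = algebraMap k F (c ^ p))
    (hfin : ∀ a : F, ∃ n > 0, φ^[n] a = a) :
    ∃ (F₀ : Type) (_ : Field F₀) (_ : Algebra (ZMod p) F₀) (ι : F₀ →+* F),
      (∀ a : F, (∃ b : F₀, ι b = a) ↔ φ a = a) ∧
      ∃ e : k ⊗[ZMod p] F₀ ≃ₐ[k] F, ∀ b : F₀, e (1 ⊗ₜ b) = ι b := by
  classical
  have hkp : CharP k p := charP_of_injective_algebraMap (algebraMap (ZMod p) k).injective p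
  let algF : Algebra (ZMod p) F := ((algebraMap k F).comp (algebraMap (ZMod p) k)).toAlgebra
  have : IsScalarTower (ZMod p) k F := IsScalarTower.of_algebraMap_eq' rfl
  let F₀ : Subfield F := φ.eqLocusField (RingHom.id F)
  have hmem : ∀ a : F, a ∈ F₀ ↔ φ a = a := fun a => Iff.rfl
  have hz : ∀ d : ZMod p, algebraMap (ZMod p) F d ∈ F₀ := by
    intro d
    rw [hmem, IsScalarTower.algebraMap_apply (ZMod p) k F, hφ, ← map_pow, ZMod.pow_card]
  let algF₀ : Algebra (ZMod p) F₀ := ((algebraMap (ZMod p) F).codRestrict F₀ hz).toAlgebra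
  let ι : F₀ →ₐ[ZMod p] F :=
    { F₀.subtype with commutes' := fun d => rfl }
  let e₀ : k ⊗[ZMod p] F₀ →ₐ[k] F :=
    Algebra.TensorProduct.lift (Algebra.ofId k F) ι (fun _ _ => mul_comm _ _)
  have he₀ : ∀ (c : k) (b : F₀), e₀ (c ⊗ₜ b) = algebraMap k F c * (b : F) := by
    intro c b
    exact Algebra.TensorProduct.lift_tmul _ _ _ _ _
  have hinj : Function.Injective e₀ := by
    set B := Module.Basis.ofVectorSpace (ZMod p) F₀ with hB
    have hli := Desc_indep p k F φ hφ (fun i => ((B i : F₀) : F)) (fun i => (B i).2) (by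
      intro s d hd i hi
      have h1 := linearIndependent_iff'.mp B.linearIndependent s d (by
        apply Subtype.ext
        rw [AddSubmonoidClass.coe_finsetSum]
        refine Eq.trans (Finset.sum_congr rfl fun j _ => ?_) hd
        rw [Algebra.smul_def]
        rfl) i hi
      exact h1)
    rw [injective_iff_map_eq_zero]
    intro x hx
    set T := Algebra.TensorProduct.basis k B with hT
    have h1 : x = ∑ i ∈ (T.repr x).support, T.repr x i • T i := (T.linearCombination_repr x).symm
    have h2 : ∑ i ∈ (T.repr x).support, algebraMap k F (T.repr x i) * ((B i : F₀) : F) = 0 := by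
      rw [← hx]
      conv_rhs => rw [h1]
      rw [map_sum]
      refine Finset.sum_congr rfl fun i _ => ?_
      rw [hT, Algebra.TensorProduct.basis_apply, map_smul, he₀, map_one, one_mul,
        Algebra.smul_def]
    have h3 := hli _ _ rfl _ h2
    have h4 : (T.repr x).support = ∅ := by
      by_contra hne
      obtain ⟨i, hi⟩ := Finset.nonempty_iff_ne_empty.mpr hne
      exact (Finsupp.mem_support_iff.mp hi) (h3 i hi)
    rw [h1, h4, Finset.sum_empty]
  have hsurj : Function.Surjective e₀ := by
    intro a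
    obtain ⟨n, hn, hna⟩ := hfin a
    have hspan := Desc_span p k n hn
    let L : (Fin n → k) →ₗ[k] F := Fintype.linearCombination k (fun i : Fin n => φ^[(i : ℕ)] a)
    have hL : ∀ v : Fin n → k, L v = ∑ i : Fin n, algebraMap k F (v i) * φ^[(i : ℕ)] a := by
      intro v
      rw [Fintype.linearCombination_apply]
      refine Finset.sum_congr rfl fun i _ => ?_
      rw [Algebra.smul_def]
    have hpow : ∀ (j : ℕ) (c : k), φ^[j] (algebraMap k F c) = algebraMap k F (c ^ p ^ j) := by
      intro j
      induction j with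
      | zero => intro c; simp
      | succ j ih =>
        intro c
        rw [Function.iterate_succ_apply', ih, hφ, ← pow_mul, ← pow_succ]
    have hle : Submodule.span k {v : Fin n → k | ∃ α : k, α ^ p ^ n = α ∧
        v = fun i : Fin n => α ^ p ^ (i : ℕ)} ≤ (LinearMap.range e₀.toLinearMap).comap L := by
      rw [Submodule.span_le]
      rintro v ⟨α, hα, rfl⟩
      change L _ ∈ LinearMap.range e₀.toLinearMap
      have h1 : L (fun i : Fin n => α ^ p ^ (i : ℕ))
          = ∑ i ∈ Finset.range n, φ^[i] (algebraMap k F α * a) := by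
        rw [hL, Finset.sum_range]
        refine Finset.sum_congr rfl fun i _ => ?_
        rw [iterate_map_mul, hpow]
      have h2 : φ (L (fun i : Fin n => α ^ p ^ (i : ℕ)))
          = L (fun i : Fin n => α ^ p ^ (i : ℕ)) := by
        rw [h1, map_sum]
        have h3 : ∀ i ∈ Finset.range n, φ (φ^[i] (algebraMap k F α * a))
            = φ^[i + 1] (algebraMap k F α * a) := fun i _ =>
          (Function.iterate_succ_apply' _ _ _).symm
        rw [Finset.sum_congr rfl h3]
        obtain ⟨m, rfl⟩ : ∃ m, n = m + 1 := ⟨n - 1, by omega⟩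
        rw [Finset.sum_range_succ, Finset.sum_range_succ' (fun i => φ^[i] (algebraMap k F α * a)),
          iterate_map_mul, hpow, hα, hna, Function.iterate_zero_apply]
      refine ⟨(1 : k) ⊗ₜ[ZMod p] (⟨_, h2⟩ : F₀), ?_⟩
      rw [AlgHom.toLinearMap_apply, he₀, map_one, one_mul]
    rw [hspan] at hle
    have h4 : L (Pi.single ⟨0, hn⟩ 1) ∈ LinearMap.range e₀.toLinearMap :=
      hle (Submodule.mem_top)
    have h5 : L (Pi.single ⟨0, hn⟩ 1) = a := by
      rw [hL, Finset.sum_eq_single ⟨0, hn⟩]
      · simp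
      · intro j _ hj
        simp [hj]
      · simp
    rw [h5] at h4
    obtain ⟨x, hx⟩ := h4
    exact ⟨x, hx⟩
  refine ⟨F₀, inferInstance, algF₀, F₀.subtype, ?_, AlgEquiv.ofBijective e₀ ⟨hinj, hsurj⟩, ?_⟩
  · intro a
    constructor
    · rintro ⟨b, rfl⟩
      exact b.2
    · intro h
      exact ⟨⟨a, h⟩, rfl⟩
  · intro b
    change e₀ (1 ⊗ₜ b) = _
    rw [he₀, map_one, one_mul]
    rfl

end Pool.Agent.PRB
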