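import Pool.Agent.LibPRB.Curve

/-! # Descent to `F_p`: function fields -/

set_option autoImplicit false

open TensorProduct

namespace Pool.Agent.PRB

variable (p : ℕ) [Fact p.Prime]

theorem DescF_pow {k₁ K₁ : Type} [Field k₁] [Field K₁] [Algebra k₁ K₁] (t : K₁)
    (ht : Transcendental k₁ t) : LinearIndependent k₁ (fun j : ℕ => t ^ j) := by
  have h1 : LinearMap.ker (Polynomial.aeval (R := k₁) t).toLinearMap = ⊥ :=
    LinearMap.ker_eq_bot.2 (transcendental_iff_injective.1 ht)
  have h2 := (Polynomial.basisMonomials k₁).linearIndependent.map'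
    (Polynomial.aeval (R := k₁) t).toLinearMap h1
  have h3 : (fun j : ℕ => t ^ j) =
      (Polynomial.aeval (R := k₁) t).toLinearMap ∘ (Polynomial.basisMonomials k₁) := by
    funext j
    simp
  rw [h3]
  exact h2

theorem DescF_up {k₁ K₁ : Type} [Field k₁] [Field K₁] [Algebra k₁ K₁] (t : K₁)
    (ht : Transcendental k₁ t) {ι : Type} (v : ι → K₁)
    (hv : LinearIndependent (IntermediateField.adjoin k₁ {t}) v) :
    LinearIndependent k₁ (fun q : ℕ × ι => t ^ q.1 * v q.2) := by
  have h1 : LinearIndependent k₁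
      (fun j : ℕ => (IntermediateField.AdjoinSimple.gen k₁ t) ^ j) := by
    refine LinearIndependent.of_comp (IntermediateField.adjoin k₁ {t}).val.toLinearMap ?_
    have h3 : ((IntermediateField.adjoin k₁ {t}).val.toLinearMap ∘
        fun j : ℕ => (IntermediateField.AdjoinSimple.gen k₁ t) ^ j) = fun j : ℕ => t ^ j := by
      funext j
      simp
    rw [h3]
    exact DescF_pow t ht
  exact linearIndependent_smul h1 hv

open IntermediateField.algebraAdjoinAdjoin in
theorem DescF_down {k₁ K₁ : Type} [Field k₁] [Field K₁] [Algebra k₁ K₁] (t : K₁)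
    {ι : Type} (v : ι → K₁)
    (hv : LinearIndependent k₁ (fun q : ℕ × ι => t ^ q.1 * v q.2)) :
    LinearIndependent (IntermediateField.adjoin k₁ {t}) v := by
  classical
  rw [← LinearIndependent.iff_fractionRing (R := Algebra.adjoin k₁ {t}), linearIndependent_iff']
  intro s c hc i hi
  have hP : ∀ i, ∃ P : Polynomial k₁, Polynomial.aeval t P = (c i : K₁) := by
    intro i
    have h : (c i : K₁) ∈ (Polynomial.aeval (R := k₁) t).range := by
      rw [← Algebra.adjoin_singleton_eq_range_aeval]
      exact (c i).2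
    exact h
  choose P hP using hP
  set N := s.sup (fun i => (P i).natDegree + 1) with hN
  have h1 : ∑ q ∈ Finset.range N ×ˢ s, (P q.2).coeff q.1 • (t ^ q.1 * v q.2) = 0 := by
    rw [Finset.sum_product_right, ← hc]
    refine Finset.sum_congr rfl fun i hi => ?_
    have h2 : (c i) • v i = (c i : K₁) * v i := rfl
    have hlt : (P i).natDegree < N := Nat.lt_of_succ_le
      (Finset.le_sup (f := fun i => (P i).natDegree + 1) hi)
    rw [h2, ← hP i, Polynomial.aeval_eq_sum_range' hlt, Finset.sum_mul]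
    refine Finset.sum_congr rfl fun j _ => ?_
    simp only [smul_mul_assoc]
  have h3 := linearIndependent_iff'.1 hv (Finset.range N ×ˢ s) (fun q => (P q.2).coeff q.1) h1
  have h4 : P i = 0 := by
    ext j
    rw [Polynomial.coeff_zero]
    by_cases hj : j < N
    · exact h3 (j, i) (Finset.mem_product.2 ⟨Finset.mem_range.2 hj, hi⟩)
    · apply Polynomial.coeff_eq_zero_of_natDegree_lt
      have hlt : (P i).natDegree < N := Nat.lt_of_succ_le
        (Finset.le_sup (f := fun i => (P i).natDegree + 1) hi)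
      omega
  apply Subtype.ext
  rw [← hP i, h4, map_zero]
  rfl

/-- `F₀` is a function field if `k ⊗ F₀` is one, with separating element in `F₀`. -/
theorem functionField_descent (k : Type) [Field k] [Algebra (ZMod p) k] (F : Type) [Field F]
    [Algebra k F] (F₀ : Type) [Field F₀] [Algebra (ZMod p) F₀]
    (e : k ⊗[ZMod p] F₀ ≃ₐ[k] F) (x : F₀) (hx : Transcendental k (e (1 ⊗ₜ x)))
    (hfin : Module.Finite (IntermediateField.adjoin k {e (1 ⊗ₜ x)}) F) :
    IsFunctionField (ZMod p) F₀ := by
  classical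
  have hpow : ∀ (j : ℕ) (y : F₀), e (1 ⊗ₜ (x ^ j * y)) = e (1 ⊗ₜ x) ^ j * e (1 ⊗ₜ y) := by
    intro j y
    rw [← map_pow, ← map_mul, Algebra.TensorProduct.tmul_pow,
      Algebra.TensorProduct.tmul_mul_tmul, one_pow, one_mul]
  have hx0 : Transcendental (ZMod p) x := by
    intro hcon
    obtain ⟨P, hP0, hP⟩ := hcon
    apply hx
    refine ⟨P.map (algebraMap (ZMod p) k), ?_, ?_⟩
    · exact (Polynomial.map_ne_zero_iff (algebraMap (ZMod p) k).injective).2 hP0
    · have h1 : Polynomial.aeval (e (1 ⊗ₜ x)) (P.map (algebraMap (ZMod p) k)) =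
          e (1 ⊗ₜ (Polynomial.aeval x P)) := by
        rw [Polynomial.aeval_eq_sum_range, Polynomial.aeval_eq_sum_range, tmul_sum, map_sum,
          Polynomial.natDegree_map]
        refine Finset.sum_congr rfl fun j _ => ?_
        have h2 := hpow j 1
        rw [mul_one] at h2
        have h3 : e ((1 : k) ⊗ₜ[ZMod p] (1 : F₀)) = 1 := map_one e
        rw [h3, mul_one] at h2
        rw [← h2, Polynomial.coeff_map, TensorProduct.tmul_smul, ← map_smul, algebraMap_smul]
      rw [h1, hP, tmul_zero, map_zero]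
  refine ⟨x, hx0, ?_⟩
  have hrank : Module.rank (IntermediateField.adjoin (ZMod p) {x}) F₀ ≤
      (Module.finrank (IntermediateField.adjoin k {e (1 ⊗ₜ x)}) F : ℕ) := by
    apply rank_le
    intro s hs
    have h1 := DescF_up x hx0 (fun i : s => (i : F₀)) hs
    have h2 := Module.Flat.linearIndependent_one_tmul (S := k) h1
    have h3 : LinearIndependent k (fun q : ℕ × s => e (1 ⊗ₜ x) ^ q.1 * e (1 ⊗ₜ (q.2 : F₀))) := by
      have h4 := h2.map' e.toLinearEquiv.toLinearMap (LinearEquiv.ker _)
      have h5 : (fun q : ℕ × s => e (1 ⊗ₜ x) ^ q.1 * e (1 ⊗ₜ (q.2 : F₀))) =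
          e.toLinearEquiv.toLinearMap ∘
            fun q : ℕ × s => (1 : k) ⊗ₜ[ZMod p] (x ^ q.1 * (q.2 : F₀)) := by
        funext q
        exact (hpow q.1 q.2).symm
      rw [h5]
      exact h4
    have h5 := DescF_down (e (1 ⊗ₜ x)) (fun i : s => e (1 ⊗ₜ (i : F₀))) h3
    have h6 := h5.fintype_card_le_finrank
    simpa using h6
  exact Module.rank_lt_aleph0_iff.1 (hrank.trans_lt (Cardinal.natCast_lt_aleph0))

end Pool.Agent.PRB
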