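import Pool.Agent.LibPRB.Lad

/-! # Ladder curves: weight decomposition -/

set_option autoImplicit false

namespace Pool.Agent.PRB

theorem LadE_geom {k : Type} [Field k] {x : k} {n : ℕ} (hx : x ≠ 1) (hn : x ^ n = 1) :
    ∑ i ∈ Finset.range n, x ^ i = 0 := by
  have h := mul_neg_geom_sum x n
  rw [hn, sub_self] at h
  rcases mul_eq_zero.mp h with h | h
  · exact absurd (sub_eq_zero.mp h).symm hx
  · exact h

theorem LadE_cast {p : ℕ} [Fact p.Prime] {k : Type} [Field k] [CharP k p] :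
    ((p - 1 : ℕ) : k) ≠ 0 := by
  intro h
  rw [CharP.cast_eq_zero_iff k p] at h
  have hp := (Fact.out : p.Prime).two_le
  have := Nat.le_of_dvd (by omega) h
  omega

/-- the projector to the weight `e` part -/
noncomputable def LadE_proj {k K : Type} [Field k] [Field K] [Algebra k K] (n : ℕ) (ζ : k)
    (σ : K →ₐ[k] K) (e : ℕ) : K →ₗ[k] K :=
  ∑ i ∈ Finset.range n, ((n : k)⁻¹ * (ζ⁻¹) ^ (e * i)) • (σ.toLinearMap ^ i)

theorem LadE_pow {k K : Type} [Field k] [Field K] [Algebra k K] (σ : K →ₐ[k] K) (i : ℕ) (a : K) :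
    (σ.toLinearMap ^ i) a = σ^[i] a := by
  rw [Module.End.pow_apply]
  rfl

theorem LadE_proj_apply {k K : Type} [Field k] [Field K] [Algebra k K] (n : ℕ) (ζ : k)
    (σ : K →ₐ[k] K) (e : ℕ) (a : K) :
    LadE_proj n ζ σ e a =
      ∑ i ∈ Finset.range n, ((n : k)⁻¹ * (ζ⁻¹) ^ (e * i)) • σ^[i] a := by
  unfold LadE_proj
  rw [LinearMap.sum_apply]
  refine Finset.sum_congr rfl fun i _ => ?_
  rw [LinearMap.smul_apply, LadE_pow]

theorem LadE_sig_proj {k K : Type} [Field k] [Field K] [Algebra k K] (n : ℕ) (ζ : k)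
    (hζ : ζ ^ n = 1) (hζ0 : ζ ≠ 0)
    (σ : K →ₐ[k] K) (hσ : ∀ a, σ^[n] a = a) (e : ℕ) (a : K) :
    σ (LadE_proj n ζ σ e a) = ζ ^ e • LadE_proj n ζ σ e a := by
  rw [LadE_proj_apply, map_sum, Finset.smul_sum]
  have h1 : ∀ i ∈ Finset.range n, σ (((n : k)⁻¹ * (ζ⁻¹) ^ (e * i)) • σ^[i] a) =
      ζ ^ e • (((n : k)⁻¹ * (ζ⁻¹) ^ (e * (i + 1))) • σ^[i + 1] a) := by
    intro i _
    rw [map_smul, Function.iterate_succ_apply', smul_smul]
    congr 1
    rw [mul_add, mul_one, pow_add]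
    have : ζ ^ e * (ζ⁻¹) ^ e = 1 := by
      rw [← mul_pow, mul_inv_cancel₀ hζ0, one_pow]
    linear_combination (-(n : k)⁻¹ * ζ⁻¹ ^ (e * i)) * this
  rw [Finset.sum_congr rfl h1, ← Finset.smul_sum, ← Finset.smul_sum]
  congr 1
  have h2 := Finset.sum_range_succ (fun i => ((n : k)⁻¹ * (ζ⁻¹) ^ (e * i)) • σ^[i] a) n
  have h3 := Finset.sum_range_succ' (fun i => ((n : k)⁻¹ * (ζ⁻¹) ^ (e * i)) • σ^[i] a) n
  have h4 : ((n : k)⁻¹ * (ζ⁻¹) ^ (e * n)) • σ^[n] a =
      ((n : k)⁻¹ * (ζ⁻¹) ^ (e * 0)) • σ^[0] a := by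
    rw [hσ a, mul_comm e n, pow_mul, inv_pow, hζ]
    simp
  rw [h2, h4] at h3
  exact (add_right_cancel h3).symm

theorem LadE_sum_proj {k K : Type} [Field k] [Field K] [Algebra k K] (n : ℕ) (ζ : k)
    (hζ : IsPrimitiveRoot ζ n) (hn : (n : k) ≠ 0)
    (σ : K →ₐ[k] K) (a : K) :
    ∑ e ∈ Finset.range n, LadE_proj n ζ σ e a = a := by
  have hn0 : 0 < n := by
    rcases Nat.eq_zero_or_pos n with h | h
    · simp [h] at hn
    · exact h
  simp only [LadE_proj_apply]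
  rw [Finset.sum_comm]
  have h1 : ∀ i ∈ Finset.range n, ∑ e ∈ Finset.range n,
      ((n : k)⁻¹ * (ζ⁻¹) ^ (e * i)) • σ^[i] a = if i = 0 then a else 0 := by
    intro i hi
    rw [← Finset.sum_smul, ← Finset.mul_sum]
    have h2 : ∀ e ∈ Finset.range n, (ζ⁻¹) ^ (e * i) = ((ζ⁻¹) ^ i) ^ e := by
      intro e _
      rw [← pow_mul, mul_comm]
    rw [Finset.sum_congr rfl h2]
    split_ifs with h
    · subst h
      simp [hn]
    · have h3 : (ζ⁻¹) ^ i ≠ 1 := by
        intro h4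
        have := hζ.inv.pow_eq_one_iff_dvd i |>.mp h4
        exact absurd (Nat.le_of_dvd (Nat.pos_of_ne_zero h) this)
          (not_le.mpr (Finset.mem_range.mp hi))
      rw [LadE_geom h3 (by rw [← pow_mul, mul_comm, pow_mul, inv_pow, hζ.pow_eq_one]; simp)]
      simp
  rw [Finset.sum_congr rfl h1, Finset.sum_ite_eq']
  simp [hn0]

theorem LadE_proj_wt {k K : Type} [Field k] [Field K] [Algebra k K] (n : ℕ) (ζ : k)
    (hζ : IsPrimitiveRoot ζ n) (hn : (n : k) ≠ 0)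
    (σ : K →ₐ[k] K) (e e' : ℕ) (he : e < n) (he' : e' < n) (w : K) (hw : σ w = ζ ^ e' • w) :
    LadE_proj n ζ σ e w = if e = e' then w else 0 := by
  have hn0 : 0 < n := by omega
  have hζ0 : ζ ≠ 0 := hζ.ne_zero hn0.ne'
  have h1 : ∀ i, σ^[i] w = (ζ ^ e') ^ i • w := by
    intro i
    induction i with
    | zero => simp
    | succ i ih =>
      rw [Function.iterate_succ_apply', ih, map_smul, hw, smul_smul, pow_succ]
  rw [LadE_proj_apply]
  have h2 : ∀ i ∈ Finset.range n, ((n : k)⁻¹ * (ζ⁻¹) ^ (e * i)) • σ^[i] w =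
      ((n : k)⁻¹ * ((ζ⁻¹) ^ e * ζ ^ e') ^ i) • w := by
    intro i _
    rw [h1, smul_smul, mul_pow, pow_mul, mul_assoc]
  rw [Finset.sum_congr rfl h2, ← Finset.sum_smul, ← Finset.mul_sum]
  split_ifs with h
  · subst h
    have : (ζ⁻¹) ^ e * ζ ^ e = 1 := by rw [← mul_pow, inv_mul_cancel₀ hζ0, one_pow]
    rw [this]
    simp [hn]
  · have h3 : (ζ⁻¹) ^ e * ζ ^ e' ≠ 1 := by
      intro h4
      apply h
      have h5 : ζ ^ e' = ζ ^ e := by
        have : ζ ^ e * ((ζ⁻¹) ^ e * ζ ^ e') = ζ ^ e := by rw [h4, mul_one]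
        rwa [← mul_assoc, ← mul_pow, mul_inv_cancel₀ hζ0, one_pow, one_mul] at this
      exact hζ.pow_inj he he' h5.symm
    rw [LadE_geom h3]
    · simp
    · rw [mul_pow, ← pow_mul, ← pow_mul, mul_comm e, mul_comm e', pow_mul, pow_mul,
        inv_pow, hζ.pow_eq_one]
      simp

namespace Lad

variable {p : ℕ} [Fact p.Prime] {k : Type} [Field k] [IsAlgClosed k] [CharP k p] {ζ : k}
  {K : Type} [Field K] [Algebra k K]

/-- Weight decomposition. -/
theorem exists_weights (Λ : Lad p ζ K) (hζ : IsPrimitiveRoot ζ (p - 1)) (a : K) :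
    ∃ c : ℕ → K, (∀ e, Λ.sig (c e) = ζ ^ e • c e) ∧ (∑ e ∈ Finset.range (p - 1), c e = a) ∧
      ∀ e, ∃ r : ℕ → k, c e = ∑ i ∈ Finset.range (p - 1), r i • Λ.sig^[i] a := by
  have hp := (Fact.out : p.Prime).two_le
  have hζ0 : ζ ≠ 0 := hζ.ne_zero (by omega)
  refine ⟨fun e => LadE_proj (p - 1) ζ Λ.sig e a, ?_, ?_, ?_⟩
  · intro e
    exact LadE_sig_proj (p - 1) ζ hζ.pow_eq_one hζ0 Λ.sig Λ.sig_iter e a
  · exact LadE_sum_proj (p - 1) ζ hζ LadE_cast Λ.sig a
  · intro e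
    exact ⟨_, LadE_proj_apply (p - 1) ζ Λ.sig e a⟩

/-- Sum over the weights. -/
theorem finrank_weights (Λ : Lad p ζ K) (hζ : IsPrimitiveRoot ζ (p - 1)) (V : Submodule k K)
    (hV : Module.Finite k V) (hσ : ∀ a ∈ V, Λ.sig a ∈ V) :
    Module.finrank k V =
      ∑ e ∈ Finset.range (p - 1), Module.finrank k (V ⊓ wtSp Λ.sig (ζ ^ (e : ℤ)) :
        Submodule k K) := by
  have hp := (Fact.out : p.Prime).two_le
  have hζ0 : ζ ≠ 0 := hζ.ne_zero (by omega)
  have hcast : ((p - 1 : ℕ) : k) ≠ 0 := LadE_cast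
  have hiter : ∀ i, ∀ a ∈ V, Λ.sig^[i] a ∈ V := by
    intro i
    induction i with
    | zero => intro a ha; simpa using ha
    | succ i ih =>
      intro a ha
      rw [Function.iterate_succ_apply']
      exact hσ _ (ih a ha)
  have hproj : ∀ e, ∀ a ∈ V, LadE_proj (p - 1) ζ Λ.sig e a ∈ V := by
    intro e a ha
    rw [LadE_proj_apply]
    exact Submodule.sum_mem _ fun i _ => Submodule.smul_mem _ _ (hiter i a ha)
  have hwt : ∀ e : ℕ, ∀ a, LadE_proj (p - 1) ζ Λ.sig e a ∈ wtSp Λ.sig (ζ ^ (e : ℤ)) := by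
    intro e a
    rw [mem_wtSp, LadE_sig_proj (p - 1) ζ hζ.pow_eq_one hζ0 Λ.sig Λ.sig_iter e a, zpow_natCast]
  have hfinW : ∀ e : Fin (p - 1), Module.Finite k
      (V ⊓ wtSp Λ.sig (ζ ^ ((e : ℕ) : ℤ)) : Submodule k K) := fun e =>
    Submodule.finiteDimensional_of_le inf_le_left
  let W : Fin (p - 1) → Submodule k K := fun e => V ⊓ wtSp Λ.sig (ζ ^ ((e : ℕ) : ℤ))
  let Φ : V →ₗ[k] (∀ e : Fin (p - 1), W e) :=
    LinearMap.pi fun e => LinearMap.codRestrict (W e)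
      ((LadE_proj (p - 1) ζ Λ.sig (e : ℕ)).comp V.subtype)
      (fun a => ⟨hproj _ _ a.2, hwt _ _⟩)
  have hΦ : Function.Bijective Φ := by
    constructor
    · rw [injective_iff_map_eq_zero]
      intro a ha
      have h1 : ∀ e ∈ Finset.range (p - 1), LadE_proj (p - 1) ζ Λ.sig e (a : K) = 0 := by
        intro e he
        have := congrFun ha ⟨e, Finset.mem_range.mp he⟩
        exact congrArg Subtype.val this
      have h2 := LadE_sum_proj (p - 1) ζ hζ hcast Λ.sig (a : K)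
      rw [Finset.sum_congr rfl h1, Finset.sum_const_zero] at h2
      exact Subtype.ext h2.symm
    · intro w
      refine ⟨⟨∑ e : Fin (p - 1), (w e : K), Submodule.sum_mem _ fun e _ => (w e).2.1⟩, ?_⟩
      funext e
      apply Subtype.ext
      change LadE_proj (p - 1) ζ Λ.sig (e : ℕ) (∑ e : Fin (p - 1), (w e : K)) = w e
      rw [map_sum, Finset.sum_eq_single e]
      · rw [LadE_proj_wt (p - 1) ζ hζ hcast Λ.sig e e e.2 e.2 (w e) ?_, if_pos rfl]
        have := (w e).2.2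
        rwa [SetLike.mem_coe, mem_wtSp, zpow_natCast] at this
      · intro e' _ hne
        rw [LadE_proj_wt (p - 1) ζ hζ hcast Λ.sig e e' e.2 e'.2 (w e') ?_, if_neg ?_]
        · intro h
          exact hne (Fin.ext h.symm)
        · have := (w e').2.2
          rwa [SetLike.mem_coe, mem_wtSp, zpow_natCast] at this
      · intro h
        exact absurd (Finset.mem_univ e) h
  have h1 := (LinearEquiv.ofBijective Φ hΦ).finrank_eq
  have : ∀ e, Module.Finite k (W e) := hfinW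
  rw [h1, Module.finrank_pi_fintype, Finset.sum_range]

end Lad

end Pool.Agent.PRB
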