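import Pool.Agent.LibPRB.LadR
import Pool.Agent.LibPRB.LadM

/-! # Ladder curves: simple poles -/

set_option autoImplicit false

namespace Pool.Agent.PRB

namespace Lad

variable {p : ℕ} [Fact p.Prime] {k : Type} [Field k] [IsAlgClosed k] [CharP k p] {ζ : k}
  {K : Type} [Field K] [Algebra k K]

/-- Simple poles. -/
theorem finrank_simple (Λ : Lad p ζ K) (S : Finset (Plc k K)) (hS : Λ.inf ∉ S) :
    2 * Module.finrank k (Λ.Msp (ind S) (Λ.gam - 1)) =
      Λ.gam + 2 * S.card := by
  classical
  induction S using Finset.induction_on with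
  | empty =>
    have h1 : (ind (∅ : Finset (Plc k K))) = fun _ => 0 := by
      funext P
      simp [ind]
    rw [h1, Λ.Msp_zero_eq, ← Λ.regSp_eq, Λ.dim]
    simp
  | insert P₀ S hP₀ ih =>
    have hP₀inf : P₀ ≠ Λ.inf := by
      rintro rfl
      exact hS (Finset.mem_insert_self _ _)
    have hS' : Λ.inf ∉ S := fun h => hS (Finset.mem_insert_of_mem h)
    have hind0 : ind S P₀ = 0 := by simp [ind, hP₀]
    have hind1 : ind (insert P₀ S) P₀ = 1 := by simp [ind]
    have hind2 : ∀ P, P ≠ P₀ → ind (insert P₀ S) P = ind S P := by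
      intro P hP
      simp [ind, hP]
    obtain ⟨u, hu0, hu1, hu2, hu3⟩ := Λ.exists_pole P₀ hP₀inf 1 one_pos
    have hu1' : P₀.ord u = -1 := by simpa using hu1
    have hfin : Module.Finite k (Λ.Msp (ind S) (Λ.gam - 1)) := by
      apply Λ.finite_Msp
      refine S.finite_toSet.subset ?_
      intro P hP
      by_contra hPS
      apply hP
      have : P ∉ S := hPS
      simp [ind, this]
    have hinf : ∀ n : ℤ, n = 1 - Λ.gam → n = -(Λ.gam - 1) := by intro n hn; omega
    have key := finrank_succ (Λ.Msp (ind S) (Λ.gam - 1)) (Λ.Msp (ind (insert P₀ S)) (Λ.gam - 1))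
      (fun c hc => by
        rw [mem_Msp] at hc ⊢
        refine ⟨fun P hP => ?_, hc.2⟩
        refine (hc.1 P hP).mono ?_
        by_cases hPP : P = P₀
        · rw [hPP, hind0, hind1]; norm_num
        · rw [hind2 P hPP])
      hfin u
      (by
        rw [mem_Msp]
        refine ⟨fun P hP => ?_, ?_⟩
        · by_cases hPP : P = P₀
          · rw [hPP, hind1]
            exact Or.inr (by rw [hu1']; norm_num)
          · refine (hu2 P hP hPP).mono ?_
            omega
        · rw [← hinf _ rfl]; exact hu3)
      (by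
        intro h
        rw [mem_Msp] at h
        have h1 := h.1 P₀ hP₀inf
        rw [hind0, P₀.ge_iff hu0, hu1'] at h1
        norm_num at h1)
      (by
        intro c hc
        rw [mem_Msp] at hc
        have h1 := hc.1 P₀ hP₀inf
        rw [hind1] at h1
        obtain ⟨r, hr⟩ := P₀.exists_sub_smul (u := u) (c := c) hu0 (by rw [hu1']; exact h1)
        refine ⟨r, ?_⟩
        rw [mem_Msp]
        refine ⟨fun P hP => ?_, ?_⟩
        · by_cases hPP : P = P₀
          · rw [hPP, hind0]
            rw [hu1'] at hr
            simpa using hr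
          · refine P.ge_sub ?_ (P.ge_smul r ((hu2 P hP hPP).mono (by omega)))
            have := hc.1 P hP
            rwa [hind2 P hPP] at this
        · refine Λ.inf.ge_sub hc.2 (Λ.inf.ge_smul r ?_)
          rw [← hinf _ rfl]; exact hu3)
    rw [key.2, Finset.card_insert_of_notMem hP₀, mul_add, ih hS']
    ring

end Lad

end Pool.Agent.PRB
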