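import Pool.Agent.LibPRB.LadP
import Pool.Agent.LibPRB.LadS
import Pool.Agent.LibPRB.LadE
import Pool.Agent.LibPRB.Cnt

/-! # Dimensions in an Artin–Schreier step: unit case -/

set_option autoImplicit false

namespace Pool.Agent.PRB

namespace Lad

open Finset

section aux

variable {p : ℕ} [Fact p.Prime] {k : Type} [Field k] {ζ : k} {K : Type} [Field K] [Algebra k K]

omit [Fact p.Prime] in
theorem DimU_sig_inj (Λ : Lad p ζ K) : Function.Injective Λ.sig := Λ.sig.toRingHom.injective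

theorem DimU_sig_surj (Λ : Lad p ζ K) (a : K) : ∃ b, Λ.sig b = a := by
  have h2 := (Fact.out : p.Prime).two_le
  obtain ⟨n, hn⟩ : ∃ n, p - 1 = n + 1 := ⟨p - 2, by omega⟩
  have h := Λ.sig_iter a
  rw [hn, Function.iterate_succ_apply'] at h
  exact ⟨_, h⟩

/-- The place `a ↦ P.ord (sig a)`. -/
def DimU_tr (Λ : Lad p ζ K) (P : Plc k K) : Plc k K where
  ord a := P.ord (Λ.sig a)
  ord_zero := by rw [map_zero, P.ord_zero]
  ord_mul' a b ha hb := by
    rw [map_mul]
    exact P.ord_mul' _ _ ((map_ne_zero_iff _ Λ.DimU_sig_inj).2 ha)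
      ((map_ne_zero_iff _ Λ.DimU_sig_inj).2 hb)
  ord_add' a b ha hb hab := by
    have h := (map_ne_zero_iff _ Λ.DimU_sig_inj).2 hab
    rw [map_add] at h ⊢
    exact P.ord_add' _ _ ((map_ne_zero_iff _ Λ.DimU_sig_inj).2 ha)
      ((map_ne_zero_iff _ Λ.DimU_sig_inj).2 hb) h
  exists_unif := by
    obtain ⟨a, ha, h1⟩ := P.exists_unif
    obtain ⟨b, rfl⟩ := Λ.DimU_sig_surj a
    exact ⟨b, (map_ne_zero_iff _ Λ.DimU_sig_inj).1 ha, h1⟩
  ord_const c := by rw [AlgHom.commutes, P.ord_const]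
  exists_const a ha h := by
    obtain ⟨c, hc⟩ := P.exists_const (Λ.sig a) ((map_ne_zero_iff _ Λ.DimU_sig_inj).2 ha) h
    refine ⟨c, ?_⟩
    rw [← AlgHom.commutes Λ.sig, ← map_sub] at hc
    rcases hc with hc | hc
    · exact Or.inl ((map_eq_zero_iff _ Λ.DimU_sig_inj).1 hc)
    · exact Or.inr hc

theorem DimU_tr_ord (Λ : Lad p ζ K) (P : Plc k K) (a : K) :
    (Λ.DimU_tr P).ord a = P.ord (Λ.sig a) := rfl

theorem DimU_tr_ge (Λ : Lad p ζ K) (P : Plc k K) (n : ℤ) (a : K) :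
    (Λ.DimU_tr P).ge n a ↔ P.ge n (Λ.sig a) := by
  unfold Plc.ge
  rw [DimU_tr_ord, map_eq_zero_iff _ Λ.DimU_sig_inj]

theorem DimU_tr_ne_inf (Λ : Lad p ζ K) (P : Plc k K) (hP : P ≠ Λ.inf) : Λ.DimU_tr P ≠ Λ.inf := by
  intro h
  apply hP
  ext a
  obtain ⟨b, rfl⟩ := Λ.DimU_sig_surj a
  rw [← DimU_tr_ord, h, Λ.sig_inf]

theorem DimU_ord_smul (P : Plc k K) {c : k} (hc : c ≠ 0) (a : K) : P.ord (c • a) = P.ord a := by
  by_cases ha : a = 0
  · simp [ha]
  rw [Algebra.smul_def, P.ord_mul (by simpa using hc) ha, P.ord_const, zero_add]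

/-- `Msp (ind S) B` is stable under `sig` if `S` is the set of the finite poles of an
eigenvector of `sig`. -/
theorem DimU_stable (Λ : Lad p ζ K) (S : Finset (Plc k K)) (g : K) {c : k} (hc : c ≠ 0)
    (hsig : Λ.sig g = c • g)
    (hS : ∀ P, P ∈ S ↔ P ≠ Λ.inf ∧ P.ord g < 0) (B : ℤ) (a : K) (ha : a ∈ Λ.Msp (ind S) B) :
    Λ.sig a ∈ Λ.Msp (ind S) B := by
  rw [mem_Msp] at ha ⊢
  refine ⟨fun P hP => ?_, ?_⟩
  · have h1 := ha.1 (Λ.DimU_tr P) (Λ.DimU_tr_ne_inf P hP)
    rw [DimU_tr_ge] at h1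
    have h2 : ind S (Λ.DimU_tr P) = ind S P := by
      have h3 : Λ.DimU_tr P ∈ S ↔ P ∈ S := by
        rw [hS, hS, DimU_tr_ord, hsig, DimU_ord_smul P hc]
        simp [hP, Λ.DimU_tr_ne_inf P hP]
      unfold ind
      by_cases h4 : P ∈ S
      · rw [if_pos h4, if_pos (h3.2 h4)]
      · rw [if_neg h4, if_neg (fun h => h4 (h3.1 h))]
    rwa [h2] at h1
  · rcases ha.2 with h | h
    · left; rw [h, map_zero]
    · right; rwa [Λ.sig_inf]

omit [Fact p.Prime] in
theorem DimU_bnd_top (hp : 0 < p) (D : ℕ) : bnd p D (p - 1) = 0 := by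
  unfold bnd
  rw [Nat.sub_self, zero_mul, zero_add]
  exact Nat.div_eq_of_lt (by omega)

omit [Fact p.Prime] in
theorem DimU_bnd_zero (hp : 0 < p) (d : ℕ) : bnd p 0 d = 0 := by
  unfold bnd
  rw [mul_zero, zero_add]
  exact Nat.div_eq_of_lt (by omega)

omit [Fact p.Prime] in
theorem DimU_bnd_eq (hp : p.Prime) {D : ℕ} (hpD : ¬ p ∣ D) {d : ℕ} (hd : d < p - 1) :
    bnd p D d = (p - 1 - d) * D / p + 1 := by
  unfold bnd
  have h1 : ¬ p ∣ (p - 1 - d) * D := by
    intro h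
    rcases (Nat.Prime.dvd_mul hp).1 h with h | h
    · have := Nat.le_of_dvd (by omega) h
      omega
    · exact hpD h
  set n := (p - 1 - d) * D with hn
  have h2 : 0 < n % p := Nat.pos_of_ne_zero fun h => h1 (Nat.dvd_of_mod_eq_zero h)
  have h3 := Nat.mod_lt n hp.pos
  have h4 := Nat.div_add_mod n p
  apply Nat.div_eq_of_lt_le
  · have : (n / p + 1) * p = p * (n / p) + p := by ring
    omega
  · have : (n / p + 1 + 1) * p = p * (n / p) + 2 * p := by ring
    omega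

omit [Fact p.Prime] in
theorem DimU_sum_flip (n : ℕ) (f : ℕ → ℕ) : ∑ d ∈ range n, f (n - d) = ∑ h ∈ Icc 1 n, f h := by
  refine Finset.sum_nbij' (fun d => n - d) (fun h => n - h) ?_ ?_ ?_ ?_ ?_
  · intro d hd; simp only [mem_range] at hd; simp only [mem_Icc]; omega
  · intro d hd; simp only [mem_Icc] at hd; simp only [mem_range]; omega
  · intro d hd; simp only [mem_range] at hd; omega
  · intro d hd; simp only [mem_Icc] at hd; omega
  · intro d hd; rfl

/-- The classes `-1 - d N` run over all classes modulo `p - 1`. -/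
theorem DimU_sum_weights (hζ : IsPrimitiveRoot ζ (p - 1)) (N : ℕ) (hNc : Nat.Coprime N (p - 1))
    (F : k → ℕ) :
    ∑ d ∈ range (p - 1), F (ζ ^ (-1 - d * N : ℤ)) = ∑ e ∈ range (p - 1), F (ζ ^ (e : ℤ)) := by
  have hp2 := (Fact.out : p.Prime).two_le
  have hpos : 0 < p - 1 := by omega
  have hposZ : (0 : ℤ) < ((p - 1 : ℕ) : ℤ) := by exact_mod_cast hpos
  have hz0 : ζ ≠ 0 := hζ.ne_zero (by omega)
  set r : ℕ → ℕ := fun d => ((-1 - d * N : ℤ) % ((p - 1 : ℕ) : ℤ)).toNat with hr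
  have hrr : ∀ d, ((r d : ℕ) : ℤ) = (-1 - d * N : ℤ) % ((p - 1 : ℕ) : ℤ) := by
    intro d
    rw [hr]
    exact Int.toNat_of_nonneg (Int.emod_nonneg _ hposZ.ne')
  have hmaps : ∀ d ∈ range (p - 1), r d ∈ range (p - 1) := by
    intro d _
    have h := Int.emod_lt_of_pos (-1 - d * N : ℤ) hposZ
    rw [← hrr] at h
    rw [mem_range]
    exact_mod_cast h
  have hinj : Set.InjOn r (range (p - 1) : Finset ℕ) := by
    intro d hd d' hd' h
    have h1 : (-1 - d * N : ℤ) % ((p - 1 : ℕ) : ℤ) = (-1 - d' * N : ℤ) % ((p - 1 : ℕ) : ℤ) := by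
      rw [← hrr, ← hrr]
      exact_mod_cast h
    have h2 : ((p - 1 : ℕ) : ℤ) ∣ (d' - d : ℤ) * N := by
      have h4 : ((p - 1 : ℕ) : ℤ) ∣ (-1 - d * N : ℤ) - (-1 - d' * N : ℤ) :=
        Int.ModEq.dvd (Int.ModEq.symm h1)
      have e : (-1 - d * N : ℤ) - (-1 - d' * N : ℤ) = (d' - d : ℤ) * N := by ring
      rwa [e] at h4
    have h3 : ((p - 1 : ℕ) : ℤ) ∣ (d' - d : ℤ) := by
      have hc : IsCoprime ((p - 1 : ℕ) : ℤ) (N : ℤ) := Nat.isCoprime_iff_coprime.2 hNc.symm
      exact hc.dvd_of_dvd_mul_right h2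
    simp only [coe_range, Set.mem_Iio] at hd hd'
    obtain ⟨c, hc⟩ := h3
    have hlt : |(d' - d : ℤ)| < ((p - 1 : ℕ) : ℤ) := by
      rw [abs_lt]
      constructor <;> omega
    have := Int.eq_zero_of_abs_lt_dvd (Dvd.intro c hc.symm) hlt
    omega
  have himg : (range (p - 1)).image r = range (p - 1) := by
    apply Finset.eq_of_subset_of_card_le
    · intro x hx
      obtain ⟨d, hd, rfl⟩ := Finset.mem_image.1 hx
      exact hmaps d hd
    · rw [Finset.card_image_of_injOn hinj]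
  have hsum : ∑ e ∈ range (p - 1), F (ζ ^ (e : ℤ)) =
      ∑ d ∈ range (p - 1), F (ζ ^ ((r d : ℕ) : ℤ)) := by
    conv_lhs => rw [← himg]
    rw [Finset.sum_image hinj]
  rw [hsum]
  apply Finset.sum_congr rfl
  intro d _
  congr 1
  rw [hrr]
  have h1 := Int.emod_add_mul_ediv (-1 - d * N : ℤ) ((p - 1 : ℕ) : ℤ)
  have h2 : ζ ^ (((p - 1 : ℕ) : ℤ)) = 1 := by rw [zpow_natCast, hζ.pow_eq_one]
  conv_lhs => rw [← h1]
  rw [zpow_add₀ hz0, zpow_mul, h2, one_zpow, mul_one]

end aux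

variable {p : ℕ} [Fact p.Prime] {k : Type} [Field k] [IsAlgClosed k] [CharP k p] {ζ : k}
  {K : Type} [Field K] [Algebra k K]

/-- Unit case: the dimension of the space of `sig`-invariant regular differentials of
`z ^ p - z = g`. -/
theorem dim_unit (Λ : Lad p ζ K) (hζ : IsPrimitiveRoot ζ (p - 1)) (hp2 : p ≠ 2) (g : K) (N : ℕ)
    (hN : 0 < N)
    (hNp : ¬ p ∣ N) (hNc : Nat.Coprime N (p - 1)) (hinf : Λ.inf.ord g = -N)
    (hsig : Λ.sig g = ζ ^ N • g)
    (hg : ∀ P : Plc k K, P.ge 0 g ∨ (P.ord g < 0 ∧ ¬ (p : ℤ) ∣ P.ord g))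
    (S : Finset (Plc k K)) (hS : ∀ P, P ∈ S ↔ P ≠ Λ.inf ∧ P.ord g < 0)
    (hfix : ∀ P ∈ S, P.ord g = -1 ∨ ((∀ a, P.ord (Λ.sig a) = P.ord a) ∧ P.ge 1 Λ.s)) :
    2 * ∑ d ∈ range p, Module.finrank k
        (Λ.Mg g d ⊓ wtSp Λ.sig (ζ ^ (-1 - d * N : ℤ)) : Submodule k K) =
      2 * Λ.ginv + Λ.gam + 2 * S.card + (N - 1) + ∑ P ∈ S, (pole g P - 1) := by
  classical
  have hp : p.Prime := Fact.out
  have hp1 : p - 1 + 1 = p := by have := hp.two_le; omega
  have hz0 : ζ ≠ 0 := hζ.ne_zero (by have := hp.two_le; omega)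
  have hzN : ζ ^ N ≠ 0 := pow_ne_zero _ hz0
  have hg0 : g ≠ 0 := by
    intro h
    rw [h, Λ.inf.ord_zero] at hinf
    omega
  have hpinf : pole g Λ.inf = N := by
    unfold pole
    rw [hinf]
    simp
  have hgammod : ((p - 1 : ℕ) : ℤ) ∣ (Λ.gam : ℤ) := by exact_mod_cast Λ.gam_mod
  -- poles
  have hSinf : Λ.inf ∉ S := fun h => ((hS _).1 h).1 rfl
  have hpole0 : ∀ P ∉ S, P ≠ Λ.inf → pole g P = 0 := by
    intro P hPS hP
    have : ¬ P.ord g < 0 := fun h => hPS ((hS P).2 ⟨hP, h⟩)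
    unfold pole
    omega
  have hpole1 : ∀ P ∈ S, 1 ≤ pole g P ∧ ¬ p ∣ pole g P ∧ P.ord g = -(pole g P : ℤ) := by
    intro P hPS
    have h1 := ((hS P).1 hPS).2
    have h2 : P.ord g = -(pole g P : ℤ) := by unfold pole; omega
    refine ⟨by omega, ?_, h2⟩
    intro h3
    rcases hg P with h | h
    · rw [P.ge_iff hg0] at h; omega
    · apply h.2
      rw [h2]
      exact (dvd_neg).2 (by exact_mod_cast h3)
  -- the last term
  have hlast : Module.finrank k
      (Λ.Mg g (p - 1) ⊓ wtSp Λ.sig (ζ ^ (-1 - ((p - 1 : ℕ) : ℤ) * N : ℤ)) : Submodule k K) =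
        Λ.ginv := by
    have h1 : Λ.Mg g (p - 1) = regSp Λ.D := by
      rw [regSp_eq]
      unfold Mg
      congr 1
      · funext P
        exact DimU_bnd_top hp.pos _
      · rw [DimU_bnd_top hp.pos]
        simp
    have h2 : ζ ^ (-1 - ((p - 1 : ℕ) : ℤ) * N : ℤ) = ζ⁻¹ := by
      have h3 : ζ ^ (((p - 1 : ℕ) : ℤ)) = 1 := by rw [zpow_natCast, hζ.pow_eq_one]
      rw [zpow_sub₀ hz0, zpow_mul, h3, one_zpow, div_one, zpow_neg_one]
    rw [h1, h2]
    exact Λ.dimInv
  -- the other terms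
  have hterm : ∀ d ∈ range (p - 1), Module.finrank k
      (Λ.Mg g d ⊓ wtSp Λ.sig (ζ ^ (-1 - d * N : ℤ)) : Submodule k K) =
      Module.finrank k (Λ.Msp (ind S) (Λ.gam - 1) ⊓
        wtSp Λ.sig (ζ ^ (-1 - d * N : ℤ)) : Submodule k K) +
      ∑ P ∈ S, (if pole g P = 1 then 0 else
        #{y ∈ Icc 1 ((p - 1 - d) * pole g P / p) | y ≡ (p - 1 - d) * pole g P [MOD p - 1]}) +
      #{y ∈ Icc 1 ((p - 1 - d) * N / p) | y ≡ (p - 1 - d) * N [MOD p - 1]} := by
    intro d hd
    rw [mem_range] at hd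
    have hb1 : ∀ P ∈ S, bnd p (pole g P) d = (p - 1 - d) * pole g P / p + 1 :=
      fun P hPS => DimU_bnd_eq hp (hpole1 P hPS).2.1 hd
    have hβ : bnd p N d = (p - 1 - d) * N / p + 1 := DimU_bnd_eq hp hNp hd
    have hone : (p - 1 - d) * 1 / p = 0 := Nat.div_eq_of_lt (by omega)
    have h := Λ.finrank_fixed_poles hζ S hSinf (fun P => bnd p (pole g P) d)
      (fun P hPS hP => by rw [hpole0 P hPS hP]; exact DimU_bnd_zero hp.pos d)
      (fun P hPS => by rw [hb1 P hPS]; exact Nat.succ_le_succ (Nat.zero_le _))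
      (fun P hPS => by
        rcases hfix P hPS with h1 | h1
        · left
          have : pole g P = 1 := by unfold pole; rw [h1]; rfl
          rw [hb1 P hPS, this, hone]
        · exact Or.inr h1)
      (bnd p N d) (by rw [hβ]; exact Nat.succ_le_succ (Nat.zero_le _)) (-1 - d * N : ℤ)
    have hM : Λ.Mg g d = Λ.Msp (fun P => bnd p (pole g P) d) (Λ.gam - 2 + (bnd p N d : ℕ)) := by
      unfold Mg
      rw [hpinf]
    rw [hM, h]
    have hcast : ((p - 1 - d : ℕ) : ℤ) = ((p - 1 : ℕ) : ℤ) - d := by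
      rw [Nat.cast_sub hd.le]
    congr 1
    · congr 1
      apply Finset.sum_congr rfl
      intro P hPS
      rw [hb1 P hPS]
      split_ifs with h1
      · rw [h1, hone]
        simp
      · have hfx : (∀ a, P.ord (Λ.sig a) = P.ord a) ∧ P.ge 1 Λ.s := by
          rcases hfix P hPS with h2 | h2
          · exfalso
            apply h1
            unfold pole
            rw [h2]
            rfl
          · exact h2
        have hw := Λ.weight_fix hζ P ((hS P).1 hPS).1 hfx.1 hfx.2 hg0 (e := (N : ℤ))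
          (by rw [zpow_natCast]; exact hsig)
        rw [(hpole1 P hPS).2.2] at hw
        -- shift
        refine Finset.card_nbij' (fun y => (y - 1).toNat) (fun y => (y : ℤ) + 1) ?_ ?_ ?_ ?_
        · intro y hy
          simp only [coe_filter, Set.mem_ofPred_eq, mem_Icc] at hy ⊢
          obtain ⟨⟨hy2, hy3⟩, hy4⟩ := hy
          refine ⟨by omega, ?_⟩
          rw [Nat.ModEq.comm, Nat.modEq_iff_dvd]
          have e : ((((y - 1).toNat : ℕ) : ℤ) - (((p - 1 - d) * pole g P : ℕ) : ℤ)) =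
              (y + (-1 - d * N)) - ((p - 1 - d : ℕ) : ℤ) * ((N : ℤ) - -(pole g P : ℤ)) +
                ((p - 1 : ℕ) : ℤ) * N := by
            rw [Int.toNat_of_nonneg (by omega), Nat.cast_mul, hcast]
            ring
          rw [e]
          exact dvd_add (dvd_sub hy4 (hw.mul_left _)) (dvd_mul_right _ _)
        · intro y hy
          simp only [coe_filter, Set.mem_ofPred_eq, mem_Icc] at hy ⊢
          refine ⟨by omega, ?_⟩
          have hy4 := (Nat.modEq_iff_dvd.1 hy.2.symm)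
          have e : (((y : ℤ) + 1) + (-1 - d * N)) =
              ((y : ℤ) - (((p - 1 - d) * pole g P : ℕ) : ℤ)) +
                ((p - 1 - d : ℕ) : ℤ) * ((N : ℤ) - -(pole g P : ℤ)) -
                ((p - 1 : ℕ) : ℤ) * N := by
            rw [Nat.cast_mul, hcast]
            ring
          rw [e]
          exact dvd_sub (dvd_add hy4 (hw.mul_left _)) (dvd_mul_right _ _)
        · intro y hy
          simp only [coe_filter, Set.mem_ofPred_eq, mem_Icc] at hy
          show (((y - 1).toNat : ℕ) : ℤ) + 1 = y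
          omega
        · intro y hy
          simp only [coe_filter, Set.mem_ofPred_eq, mem_Icc] at hy
          show (((y : ℤ) + 1) - 1).toNat = y
          omega
    · rw [hβ]
      refine Finset.card_nbij' (fun y => y.toNat) (fun y => (y : ℤ)) ?_ ?_ ?_ ?_
      · intro y hy
        simp only [coe_filter, Set.mem_ofPred_eq, mem_Icc] at hy ⊢
        obtain ⟨⟨hy2, hy3⟩, hy4⟩ := hy
        refine ⟨by omega, ?_⟩
        rw [Nat.ModEq.comm, Nat.modEq_iff_dvd]
        have e : (((y.toNat : ℕ) : ℤ) - (((p - 1 - d) * N : ℕ) : ℤ)) =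
            ((Λ.gam : ℤ) - 1 + y - (-1 - d * N)) - Λ.gam - ((p - 1 : ℕ) : ℤ) * N := by
          rw [Int.toNat_of_nonneg (by omega), Nat.cast_mul, hcast]
          ring
        rw [e]
        exact dvd_sub (dvd_sub hy4 hgammod) (dvd_mul_right _ _)
      · intro y hy
        simp only [coe_filter, Set.mem_ofPred_eq, mem_Icc] at hy ⊢
        refine ⟨by omega, ?_⟩
        have hy4 := (Nat.modEq_iff_dvd.1 hy.2.symm)
        have e : ((Λ.gam : ℤ) - 1 + y - (-1 - d * N)) =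
            ((y : ℤ) - (((p - 1 - d) * N : ℕ) : ℤ)) + Λ.gam + ((p - 1 : ℕ) : ℤ) * N := by
          rw [Nat.cast_mul, hcast]
          ring
        rw [e]
        exact dvd_add (dvd_add hy4 hgammod) (dvd_mul_right _ _)
      · intro y hy
        simp only [coe_filter, Set.mem_ofPred_eq, mem_Icc] at hy
        show ((y.toNat : ℕ) : ℤ) = y
        omega
      · intro y hy
        simp only [coe_filter, Set.mem_ofPred_eq, mem_Icc] at hy
        show ((y : ℤ)).toNat = y
        omega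
  -- first terms
  have hfirst : 2 * ∑ d ∈ range (p - 1), Module.finrank k (Λ.Msp (ind S) (Λ.gam - 1) ⊓
        wtSp Λ.sig (ζ ^ (-1 - d * N : ℤ)) : Submodule k K) = Λ.gam + 2 * S.card := by
    rw [DimU_sum_weights hζ N hNc (fun c => Module.finrank k (Λ.Msp (ind S) (Λ.gam - 1) ⊓
        wtSp Λ.sig c : Submodule k K))]
    rw [← Λ.finrank_weights hζ (Λ.Msp (ind S) (Λ.gam - 1)) (Λ.finite_Msp _ (by
      apply S.finite_toSet.subset
      intro P hP
      by_contra h
      apply hP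
      unfold ind
      rw [if_neg (by simpa using h)]) _)
      (fun a ha => Λ.DimU_stable S g hzN hsig hS _ a ha)]
    exact Λ.finrank_simple S hSinf
  have hthird : 2 * ∑ d ∈ range (p - 1),
      #{y ∈ Icc 1 ((p - 1 - d) * N / p) | y ≡ (p - 1 - d) * N [MOD p - 1]} = N - 1 := by
    rw [DimU_sum_flip (p - 1) (fun h => #{y ∈ Icc 1 (h * N / p) | y ≡ h * N [MOD p - 1]})]
    exact cnt_unit p N hp hN hNp hNc
  have hsecond : 2 * ∑ d ∈ range (p - 1), ∑ P ∈ S, (if pole g P = 1 then 0 else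
        #{y ∈ Icc 1 ((p - 1 - d) * pole g P / p) | y ≡ (p - 1 - d) * pole g P [MOD p - 1]}) =
      ∑ P ∈ S, (pole g P - 1) := by
    rw [Finset.sum_comm, Finset.mul_sum]
    apply Finset.sum_congr rfl
    intro P hPS
    by_cases h1 : pole g P = 1
    · simp [h1]
    · simp only [h1, if_false]
      rw [DimU_sum_flip (p - 1) (fun h => #{y ∈ Icc 1 (h * pole g P / p) |
        y ≡ h * pole g P [MOD p - 1]})]
      have hfx : (∀ a, P.ord (Λ.sig a) = P.ord a) ∧ P.ge 1 Λ.s := by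
        rcases hfix P hPS with h2 | h2
        · exfalso
          apply h1
          unfold pole
          rw [h2]
          rfl
        · exact h2
      have hw := Λ.weight_fix hζ P ((hS P).1 hPS).1 hfx.1 hfx.2 hg0 (e := (N : ℤ))
        (by rw [zpow_natCast]; exact hsig)
      rw [(hpole1 P hPS).2.2] at hw
      refine cnt_unit p _ hp (hpole1 P hPS).1 (hpole1 P hPS).2.1 ?_
      have hw2 : p - 1 ∣ N + pole g P := by
        have e : (N : ℤ) - -(pole g P : ℤ) = ((N + pole g P : ℕ) : ℤ) := by push_cast; ring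
        rw [e] at hw
        exact_mod_cast hw
      have h5 : Nat.gcd (pole g P) (p - 1) ∣ N := by
        have h6 : Nat.gcd (pole g P) (p - 1) ∣ N + pole g P := (Nat.gcd_dvd_right _ _).trans hw2
        exact (Nat.dvd_add_left (Nat.gcd_dvd_left _ _)).1 h6
      exact Nat.Coprime.eq_one_of_dvd (Nat.Coprime.coprime_dvd_left h5 hNc)
        (Nat.gcd_dvd_right _ _)
  have hsplit : ∀ f : ℕ → ℕ, ∑ d ∈ range p, f d = ∑ d ∈ range (p - 1), f d + f (p - 1) := by
    intro f
    conv_lhs => rw [← hp1]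
    rw [Finset.sum_range_succ]
  rw [hsplit, Finset.sum_congr rfl hterm, hlast]
  rw [Finset.sum_add_distrib, Finset.sum_add_distrib]
  linarith

end Lad

end Pool.Agent.PRB
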