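import Pool.Agent.LibPRB.LadM

/-! # Ladder curves: poles at infinity -/

set_option autoImplicit false

namespace Pool.Agent.PRB

namespace Lad

variable {p : ℕ} [Fact p.Prime] {k : Type} [Field k] [IsAlgClosed k] [CharP k p] {ζ : k}
  {K : Type} [Field K] [Algebra k K]

omit [Fact p.Prime] [IsAlgClosed k] [CharP k p] in
theorem LadI_pol (Λ : Lad p ζ K) (b : Plc k K → ℕ) (B : ℤ) (hB : Λ.gam ≤ B + 1) :
    ∃ c : K, c ≠ 0 ∧ c ∈ Λ.Msp b (B + 1) ∧ Λ.inf.ord c = -(B + 1) ∧ Λ.sig c = ζ ^ (B + 1) • c := by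
  obtain ⟨n, hn⟩ : ∃ n : ℕ, (n : ℤ) = B + 1 := ⟨(B + 1).toNat, Int.toNat_of_nonneg (by omega)⟩
  obtain ⟨c, hc0, hc1, hc2, hc3, _⟩ := Λ.pol n (by omega)
  refine ⟨c, hc0, ⟨fun P hP => (hc1 P hP).mono (by omega), Or.inr (by rw [hc2, hn])⟩, by
    rw [hc2, hn], ?_⟩
  rw [hc3, ← hn, zpow_natCast]

omit [Fact p.Prime] [IsAlgClosed k] [CharP k p] in
theorem LadI_notMem (Λ : Lad p ζ K) (b : Plc k K → ℕ) (B : ℤ) {c : K} (hc : c ≠ 0)
    (h : Λ.inf.ord c = -(B + 1)) : c ∉ Λ.Msp b B := by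
  rintro ⟨-, h2⟩
  rw [Λ.inf.ge_iff hc, h] at h2
  omega

omit [Fact p.Prime] [IsAlgClosed k] [CharP k p] in
theorem LadI_le (Λ : Lad p ζ K) (b : Plc k K → ℕ) (B : ℤ) : Λ.Msp b B ≤ Λ.Msp b (B + 1) :=
  fun _ hc => ⟨hc.1, hc.2.mono (by omega)⟩

omit [Fact p.Prime] [IsAlgClosed k] [CharP k p] in
theorem LadI_sub (Λ : Lad p ζ K) (b : Plc k K → ℕ) (B : ℤ) {u c : K} (hu : u ≠ 0)
    (huM : u ∈ Λ.Msp b (B + 1))
    (h : Λ.inf.ord u = -(B + 1)) (hc : c ∈ Λ.Msp b (B + 1)) : ∃ r : k, c - r • u ∈ Λ.Msp b B := by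
  obtain ⟨r, hr⟩ := Λ.inf.exists_sub_smul hu (c := c) (by rw [h]; exact hc.2)
  refine ⟨r, fun P hP => P.ge_sub (hc.1 P hP) (P.ge_smul r (huM.1 P hP)), ?_⟩
  have h2 : Λ.inf.ord u + 1 = -B := by rw [h]; ring
  rwa [h2] at hr

/-- One more pole at infinity. -/
theorem finrank_inf (Λ : Lad p ζ K) (hζ : IsPrimitiveRoot ζ (p - 1)) (b : Plc k K → ℕ)
    (hb : {P | b P ≠ 0}.Finite) (B : ℤ) (hB : Λ.gam ≤ B + 1) (e : ℤ) :
    Module.finrank k (Λ.Msp b (B + 1) ⊓ wtSp Λ.sig (ζ ^ e) : Submodule k K) =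
      Module.finrank k (Λ.Msp b B ⊓ wtSp Λ.sig (ζ ^ e) : Submodule k K) +
        (if ((p - 1 : ℕ) : ℤ) ∣ B + 1 - e then 1 else 0) := by
  have hfin := Λ.finite_Msp b hb B
  split_ifs with hdvd
  · obtain ⟨u, hu0, huM, hu1, hu2⟩ := Λ.LadI_pol b B hB
    have hp2 := (Fact.out : p.Prime).two_le
    have hζ0 : ζ ≠ 0 := hζ.ne_zero (by omega)
    have hze : ζ ^ (B + 1) = ζ ^ e := by
      have h1 : ζ ^ (B + 1 - e) = 1 := (hζ.zpow_eq_one_iff_dvd _).mpr hdvd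
      have h2 : B + 1 = (B + 1 - e) + e := by ring
      rw [h2, zpow_add₀ hζ0, h1, one_mul]
    rw [hze] at hu2
    have hA : Module.Finite k (Λ.Msp b B ⊓ wtSp Λ.sig (ζ ^ e) : Submodule k K) :=
      Submodule.finiteDimensional_of_le (inf_le_left : _ ≤ Λ.Msp b B)
    refine (finrank_succ _ _ (inf_le_inf_right _ (Λ.LadI_le b B)) hA u ⟨huM, hu2⟩
      (fun h => Λ.LadI_notMem b B hu0 hu1 h.1) ?_).2
    rintro c ⟨hc1, hc2⟩
    obtain ⟨r, hr⟩ := Λ.LadI_sub b B hu0 huM hu1 hc1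
    exact ⟨r, hr, Submodule.sub_mem _ hc2 (Submodule.smul_mem _ _ hu2)⟩
  · have heq : Λ.Msp b (B + 1) ⊓ wtSp Λ.sig (ζ ^ e) = Λ.Msp b B ⊓ wtSp Λ.sig (ζ ^ e) := by
      refine le_antisymm ?_ (inf_le_inf_right _ (Λ.LadI_le b B))
      rintro a ⟨ha1, ha2⟩
      refine ⟨⟨ha1.1, ?_⟩, ha2⟩
      by_cases ha : a = 0
      · exact Or.inl ha
      · have h1 := Λ.weight_inf hζ ha ha2
        have h2 := ha1.2
        rw [Λ.inf.ge_iff ha] at h2 ⊢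
        by_contra hlt
        have h3 : Λ.inf.ord a = -(B + 1) := by omega
        rw [h3] at h1
        apply hdvd
        have h4 : B + 1 - e = -(e + -(B + 1)) := by ring
        rw [h4]
        exact (dvd_neg).mpr h1
    rw [heq, add_zero]

/-- The same without weights. -/
theorem finrank_inf' (Λ : Lad p ζ K) (b : Plc k K → ℕ)
    (hb : {P | b P ≠ 0}.Finite) (B : ℤ) (hB : Λ.gam ≤ B + 1) :
    Module.finrank k (Λ.Msp b (B + 1)) = Module.finrank k (Λ.Msp b B) + 1 := by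
  have hfin := Λ.finite_Msp b hb B
  obtain ⟨u, hu0, huM, hu1, -⟩ := Λ.LadI_pol b B hB
  exact (finrank_succ _ _ (Λ.LadI_le b B) hfin u huM (Λ.LadI_notMem b B hu0 hu1)
    fun c hc => Λ.LadI_sub b B hu0 huM hu1 hc).2

end Lad

end Pool.Agent.PRB
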