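import Pool.Agent.LibPRB.LadP
import Pool.Agent.LibPRB.LadI
import Pool.Agent.LibPRB.Cnt

/-! # Dimensions in an Artin–Schreier step: weight zero, totals -/

set_option autoImplicit false

namespace Pool.Agent.PRB

theorem DimZ_div (p x : ℕ) (hp : 0 < p) (hx : x % p ≠ 0) : (x + (p - 1)) / p = x / p + 1 := by
  have h1 : x % p < p := Nat.mod_lt _ hp
  have h2 : (x % p + (p - 1)) / p = 1 := by
    apply Nat.div_eq_of_lt_le <;> omega
  calc (x + (p - 1)) / p = (p * (x / p) + (x % p + (p - 1))) / p := by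
        rw [← Nat.add_assoc, Nat.div_add_mod]
    _ = x / p + (x % p + (p - 1)) / p := Nat.mul_add_div hp _ _
    _ = x / p + 1 := by rw [h2]

theorem DimZ_bnd (p : ℕ) (hp : p.Prime) (N d : ℕ) (hNp : ¬ p ∣ N) (hd : d < p) :
    (d = p - 1 → bnd p N d = 0) ∧ (d ≠ p - 1 → bnd p N d = (p - 1 - d) * N / p + 1) := by
  have hp1 := hp.one_lt
  constructor
  · rintro rfl
    unfold bnd
    rw [Nat.sub_self, zero_mul, zero_add]
    exact Nat.div_eq_of_lt (by omega)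
  · intro h
    unfold bnd
    apply DimZ_div _ _ hp.pos
    intro h0
    rcases (hp.dvd_mul).1 (Nat.dvd_of_mod_eq_zero h0) with h1 | h1
    · exact absurd (Nat.le_of_dvd (by omega) h1) (by omega)
    · exact hNp h1

namespace Lad

open Finset

variable {p : ℕ} [Fact p.Prime] {k : Type} [Field k] [IsAlgClosed k] [CharP k p] {ζ : k}
  {K : Type} [Field K] [Algebra k K]

theorem DimZ_Mg (Λ : Lad p ζ K) (g : K) (N : ℕ) (hN : 0 < N) (hinf : Λ.inf.ord g = -N)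
    (hg : ∀ P, P ≠ Λ.inf → P.ge 0 g) (d : ℕ) :
    Λ.Mg g d = Λ.Msp (fun _ => 0) (Λ.gam - 2 + bnd p N d) := by
  have hg0 : g ≠ 0 := by
    rintro rfl
    rw [Λ.inf.ord_zero] at hinf
    omega
  have hpinf : pole g Λ.inf = N := by
    unfold pole; rw [hinf]; simp
  have hp0 : 0 < p := (Fact.out : p.Prime).pos
  ext c
  rw [Mg, mem_Msp, mem_Msp, hpinf]
  refine and_congr ?_ Iff.rfl
  refine forall_congr' fun P => forall_congr' fun hP => ?_
  have h1 : pole g P = 0 := by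
    have := hg P hP
    rw [P.ge_iff hg0] at this
    unfold pole
    omega
  have h2 : bnd p 0 d = 0 := by
    unfold bnd
    rw [mul_zero, zero_add]
    exact Nat.div_eq_of_lt (by omega)
  rw [h1, h2]

theorem DimZ_fin (Λ : Lad p ζ K) : Module.finrank k (Λ.Msp (fun _ => 0) (Λ.gam - 1)) * 2 =
    Λ.gam := by
  rw [Msp_zero_eq, ← regSp_eq, mul_comm]
  exact Λ.dim

theorem DimZ_add (Λ : Lad p ζ K) (b : ℕ) :
    Module.finrank k (Λ.Msp (fun _ => 0) (Λ.gam - 2 + ((b + 1 : ℕ) : ℤ))) =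
      Module.finrank k (Λ.Msp (fun _ => 0) (Λ.gam - 1)) + b := by
  induction b with
  | zero =>
    have : (Λ.gam : ℤ) - 2 + ((0 + 1 : ℕ) : ℤ) = Λ.gam - 1 := by push_cast; ring
    rw [this, add_zero]
  | succ b ih =>
    have h1 : (Λ.gam : ℤ) - 2 + ((b + 1 + 1 : ℕ) : ℤ) =
        ((Λ.gam : ℤ) - 2 + ((b + 1 : ℕ) : ℤ)) + 1 := by push_cast; ring
    rw [h1, Λ.finrank_inf' (fun _ => 0) (by simp) _ (by push_cast; omega), ih]
    ring

theorem DimZ_addwt (Λ : Lad p ζ K) (hζ : IsPrimitiveRoot ζ (p - 1)) (b : ℕ) :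
    Module.finrank k (Λ.Msp (fun _ => 0) (Λ.gam - 2 + ((b + 1 : ℕ) : ℤ)) ⊓
        wtSp Λ.sig (ζ ^ (-1 : ℤ)) : Submodule k K) =
      Λ.ginv + #{y ∈ Icc 1 b | y ≡ 0 [MOD p - 1]} := by
  induction b with
  | zero =>
    have : (Λ.gam : ℤ) - 2 + ((0 + 1 : ℕ) : ℤ) = Λ.gam - 1 := by push_cast; ring
    rw [this, Msp_zero_eq, ← regSp_eq]
    have h0 : ζ ^ (-1 : ℤ) = ζ⁻¹ := by simp
    rw [h0, Λ.dimInv]
    simp
  | succ b ih =>
    have h1 : (Λ.gam : ℤ) - 2 + ((b + 1 + 1 : ℕ) : ℤ) =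
        ((Λ.gam : ℤ) - 2 + ((b + 1 : ℕ) : ℤ)) + 1 := by push_cast; ring
    rw [h1, Λ.finrank_inf hζ (fun _ => 0) (by simp) _ (by push_cast; omega), ih]
    rw [add_assoc]
    congr 1
    have h2 : Icc 1 (b + 1) = insert (b + 1) (Icc 1 b) := by
      ext x; simp only [mem_Icc, mem_insert]; omega
    rw [h2, filter_insert]
    have h3 : (((p - 1 : ℕ) : ℤ) ∣ (Λ.gam : ℤ) - 2 + ((b + 1 : ℕ) : ℤ) + 1 - (-1)) ↔
        b + 1 ≡ 0 [MOD p - 1] := by
      have h4 : (Λ.gam : ℤ) - 2 + ((b + 1 : ℕ) : ℤ) + 1 - (-1) = Λ.gam + ((b + 1 : ℕ) : ℤ) := by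
        push_cast; ring
      rw [h4, Nat.modEq_zero_iff_dvd]
      have h5 : ((p - 1 : ℕ) : ℤ) ∣ (Λ.gam : ℤ) := by exact_mod_cast Λ.gam_mod
      rw [dvd_add_right h5]
      exact_mod_cast Iff.rfl
    by_cases h : b + 1 ≡ 0 [MOD p - 1]
    · rw [if_pos h, if_pos (h3.2 h), card_insert_of_notMem]
      simp
    · rw [if_neg h, if_neg (fun h' => h (h3.1 h'))]
      simp

/-- The case of weight zero and no finite poles. -/
theorem dim_zero (Λ : Lad p ζ K) (hζ : IsPrimitiveRoot ζ (p - 1)) (hp2 : p ≠ 2) (g : K) (N : ℕ)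
    (hN : 0 < N)
    (hNp : ¬ p ∣ N) (hNc : p - 1 ∣ N) (hinf : Λ.inf.ord g = -N)
    (hg : ∀ P, P ≠ Λ.inf → P.ge 0 g) :
    2 * ∑ d ∈ range p, Module.finrank k
        (Λ.Mg g d ⊓ wtSp Λ.sig (ζ ^ (-1 - d * N : ℤ)) : Submodule k K) =
      2 * p * Λ.ginv + (p - 1) * (N / (p - 1) - 1) := by
  have hp : p.Prime := Fact.out
  have hp1 := hp.one_lt
  have hζ0 : ζ ≠ 0 := hζ.ne_zero (by omega)
  have hw : ∀ d : ℕ, ζ ^ (-1 - d * N : ℤ) = ζ ^ (-1 : ℤ) := by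
    intro d
    obtain ⟨m, rfl⟩ := hNc
    rw [zpow_sub₀ hζ0]
    have : ζ ^ ((d : ℤ) * (((p - 1) * m : ℕ) : ℤ)) = 1 := by
      rw [show (d : ℤ) * (((p - 1) * m : ℕ) : ℤ) = (((p - 1) * (m * d) : ℕ) : ℤ) by
        push_cast; ring, zpow_natCast, pow_mul, hζ.pow_eq_one, one_pow]
    rw [this, div_one]
  have key : ∀ d ∈ range p, Module.finrank k
        (Λ.Mg g d ⊓ wtSp Λ.sig (ζ ^ (-1 - d * N : ℤ)) : Submodule k K) =
      Λ.ginv + #{y ∈ Icc 1 ((p - 1 - d) * N / p) | y ≡ 0 [MOD p - 1]} := by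
    intro d hd
    rw [mem_range] at hd
    rw [hw, Λ.DimZ_Mg g N hN hinf hg]
    by_cases h : d = p - 1
    · rw [(DimZ_bnd p hp N d hNp hd).1 h]
      have h0 : ζ ^ (-1 : ℤ) = ζ⁻¹ := by simp
      have h1 : (Λ.gam : ℤ) - 2 + ((0 : ℕ) : ℤ) = Λ.gam - 2 := by push_cast; ring
      rw [h1, ← regSp_eq, h0, Λ.dimInv, h]
      simp
    · rw [(DimZ_bnd p hp N d hNp hd).2 h]
      exact Λ.DimZ_addwt hζ _
  rw [sum_congr rfl key, sum_add_distrib, sum_const, card_range, mul_add]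
  have h1 : ∑ d ∈ range p, #{y ∈ Icc 1 ((p - 1 - d) * N / p) | y ≡ 0 [MOD p - 1]} =
      ∑ h ∈ Icc 1 (p - 1), #{y ∈ Icc 1 (h * N / p) | y ≡ 0 [MOD p - 1]} := by
    have h2 := sum_range_reflect (fun h => #{y ∈ Icc 1 (h * N / p) | y ≡ 0 [MOD p - 1]}) p
    rw [h2]
    symm
    apply sum_subset
    · intro x hx
      rw [mem_Icc] at hx
      rw [mem_range]; omega
    · intro x hx hx'
      rw [mem_Icc] at hx'
      rw [mem_range] at hx
      have : x = 0 := by omega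
      subst this
      simp
  rw [h1, cnt_zero p N hp hN hNp hNc, smul_eq_mul]
  ring

/-- Total dimensions. -/
theorem dim_total (Λ : Lad p ζ K) (g : K) (N : ℕ) (hN : 0 < N)
    (hNp : ¬ p ∣ N) (hinf : Λ.inf.ord g = -N) (hg : ∀ P, P ≠ Λ.inf → P.ge 0 g) :
    2 * ∑ d ∈ range p, Module.finrank k (Λ.Mg g d) = p * Λ.gam + (p - 1) * (N - 1) := by
  have hp : p.Prime := Fact.out
  have hp1 := hp.one_lt
  have key : ∀ d ∈ range p, Module.finrank k (Λ.Mg g d) =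
      Module.finrank k (Λ.Msp (fun _ => 0) (Λ.gam - 1)) + (p - 1 - d) * N / p := by
    intro d hd
    rw [mem_range] at hd
    rw [Λ.DimZ_Mg g N hN hinf hg]
    by_cases h : d = p - 1
    · rw [(DimZ_bnd p hp N d hNp hd).1 h]
      have h1 : (Λ.gam : ℤ) - 2 + ((0 : ℕ) : ℤ) = Λ.gam - 2 := by push_cast; ring
      rw [h1, Msp_zero_eq, h]
      simp
    · rw [(DimZ_bnd p hp N d hNp hd).2 h]
      exact Λ.DimZ_add _
  rw [sum_congr rfl key, sum_add_distrib, sum_const, card_range, mul_add]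
  have h1 : ∑ d ∈ range p, (p - 1 - d) * N / p = ∑ h ∈ Icc 1 (p - 1), h * N / p := by
    have h2 := sum_range_reflect (fun h => h * N / p) p
    rw [h2]
    symm
    apply sum_subset
    · intro x hx
      rw [mem_Icc] at hx
      rw [mem_range]; omega
    · intro x hx hx'
      rw [mem_Icc] at hx'
      rw [mem_range] at hx
      have : x = 0 := by omega
      subst this
      simp
  rw [h1, cnt_total p N hp hN hNp, smul_eq_mul]
  have h3 := Λ.DimZ_fin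
  congr 1
  calc 2 * (p * Module.finrank k (Λ.Msp (fun _ => 0) (Λ.gam - 1))) =
      p * (Module.finrank k (Λ.Msp (fun _ => 0) (Λ.gam - 1)) * 2) := by ring
    _ = p * Λ.gam := by rw [h3]

end Lad

end Pool.Agent.PRB
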