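import Pool.Agent.LibPRB.OverEx

/-! # Finite extensions: value groups and residue fields -/

set_option autoImplicit false

namespace Pool.Agent.PRB

variable {p : ℕ} [Fact p.Prime] {k K L : Type} [Field k] [Field K] [Field L]
  [Algebra k K] [Algebra k L] [Algebra K L] [IsScalarTower k K L] {g : K} {z : L}

theorem ValF_div_mem {L : Type} [Field L] (O : ValuationSubring L) {x y : L} (hy : y ≠ 0)
    (h : O.valuation x ≤ O.valuation y) : x / y ∈ O := by
  rw [← ValuationSubring.valuation_le_one_iff, map_div₀]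
  have hy' : O.valuation y ≠ 0 := (Valuation.ne_zero_iff _).2 hy
  exact div_le_one_of_le₀ h zero_le'

/-- In a vanishing sum with a nonzero term two nonzero terms have the same value. -/
theorem ValF_two {L : Type} [Field L] (O : ValuationSubring L) (S : Finset ℕ) (t : ℕ → L)
    (hne : ∃ i ∈ S, t i ≠ 0) (hsum : ∑ i ∈ S, t i = 0) :
    ∃ i ∈ S, ∃ j ∈ S, j < i ∧ t i ≠ 0 ∧ t j ≠ 0 ∧ O.valuation (t i) = O.valuation (t j) := by
  classical
  by_contra hcon
  push Not at hcon
  have hd : ∀ i ∈ S, ∀ j ∈ S, t i ≠ 0 → t j ≠ 0 → O.valuation (t i) = O.valuation (t j) →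
      i = j := by
    intro i hi j hj hti htj he
    rcases lt_trichotomy i j with h | h | h
    · exact absurd he.symm (hcon j hj i hi h htj hti)
    · exact h
    · exact absurd he (hcon i hi j hj h hti htj)
  obtain ⟨i0, hi0, ht0⟩ := hne
  obtain ⟨i, hi, hmax⟩ := Finset.exists_max_image S (fun i => O.valuation (t i)) ⟨i0, hi0⟩
  have hti : t i ≠ 0 := by
    intro h0
    have := hmax i0 hi0
    simp only [h0, map_zero] at this
    exact ht0 ((Valuation.zero_iff _).1 (le_zero_iff.1 this))
  have hvi : O.valuation (t i) ≠ 0 := (Valuation.ne_zero_iff _).2 hti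
  have hrest : O.valuation (∑ j ∈ S.erase i, t j) < O.valuation (t i) := by
    refine Valuation.map_sum_lt _ hvi fun j hj => ?_
    obtain ⟨hji, hjS⟩ := Finset.mem_erase.1 hj
    by_cases htj : t j = 0
    · rw [htj, map_zero]
      exact zero_lt_iff.2 hvi
    · exact lt_of_le_of_ne (hmax j hjS) fun he => hji (hd j hjS i hi htj hti he)
  have h1 : t i = - ∑ j ∈ S.erase i, t j := by
    rw [← Finset.add_sum_erase S t hi] at hsum
    exact eq_neg_of_add_eq_zero_left hsum
  rw [h1, Valuation.map_neg] at hrest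
  exact lt_irrefl _ hrest

/-- Finite extensions: the value group of a valuation ring `O` of `L` above `P` is commensurable
with the value group of `P`. -/
theorem exists_pow_unit (hfin : Module.Finite K L) (P : Plc k K) (O : ValuationSubring L)
    (hO : ∀ a : K, algebraMap K L a ∈ O ↔ P.ge 0 a) (a : L) (ha : a ≠ 0) :
    ∃ (m : ℕ) (c : K), 0 < m ∧ c ≠ 0 ∧ a ^ m / algebraMap K L c ∈ O ∧
      algebraMap K L c / a ^ m ∈ O := by
  obtain ⟨f, hf, hfa⟩ := (Algebra.IsIntegral.isIntegral (R := K) a)
  have hf0 : f ≠ 0 := hf.ne_zero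
  have hsum : ∑ i ∈ f.support, algebraMap K L (f.coeff i) * a ^ i = 0 := by
    rw [← hfa, Polynomial.eval₂_eq_sum, Polynomial.sum_def]
  have hterm : ∀ i ∈ f.support, algebraMap K L (f.coeff i) * a ^ i ≠ 0 := by
    intro i hi
    refine mul_ne_zero ?_ (pow_ne_zero _ ha)
    rw [Ne, map_eq_zero]
    exact Polynomial.mem_support_iff.1 hi
  obtain ⟨i0, hi0⟩ := Polynomial.support_nonempty.2 hf0
  obtain ⟨i, hi, j, hj, hji, _, _, hv⟩ := ValF_two O f.support
    (fun i => algebraMap K L (f.coeff i) * a ^ i) ⟨i0, hi0, hterm i0 hi0⟩ hsum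
  have hci := Polynomial.mem_support_iff.1 hi
  have hcj := Polynomial.mem_support_iff.1 hj
  have hc : f.coeff j / f.coeff i ≠ 0 := div_ne_zero hcj hci
  have hc' : algebraMap K L (f.coeff j / f.coeff i) ≠ 0 := by
    rw [Ne, map_eq_zero]; exact hc
  have hci' : algebraMap K L (f.coeff i) ≠ 0 := by rw [Ne, map_eq_zero]; exact hci
  have hkey : O.valuation (a ^ (i - j)) = O.valuation (algebraMap K L (f.coeff j / f.coeff i)) := by
    have h1 : a ^ i = a ^ (i - j) * a ^ j := by rw [← pow_add]; congr 1; omega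
    have hv' : O.valuation (algebraMap K L (f.coeff i)) * (O.valuation (a ^ (i - j)) *
        O.valuation (a ^ j)) = O.valuation (algebraMap K L (f.coeff j)) * O.valuation (a ^ j) := by
      rw [← map_mul, ← h1, ← map_mul, ← map_mul]
      exact hv
    have hvj : O.valuation (a ^ j) ≠ 0 := (Valuation.ne_zero_iff _).2 (pow_ne_zero _ ha)
    have hvi : O.valuation (algebraMap K L (f.coeff i)) ≠ 0 := (Valuation.ne_zero_iff _).2 hci'
    have h2 : O.valuation (algebraMap K L (f.coeff i)) * O.valuation (a ^ (i - j)) =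
        O.valuation (algebraMap K L (f.coeff j)) := by
      apply mul_right_cancel₀ hvj
      rw [mul_assoc]; exact hv'
    rw [map_div₀, map_div₀, eq_div_iff hvi, mul_comm]
    exact h2
  exact ⟨i - j, f.coeff j / f.coeff i, by omega, hc, ValF_div_mem O hc' hkey.le,
    ValF_div_mem O (pow_ne_zero _ ha) hkey.ge⟩

theorem ValF_lt {k K L : Type} [Field k] [Field K] [Field L] [Algebra k K] [Algebra K L]
    (P : Plc k K) (O : ValuationSubring L)
    (hO : ∀ a : K, algebraMap K L a ∈ O ↔ P.ge 0 a) (b : K) (hb : P.ge 1 b) :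
    O.valuation (algebraMap K L b) < 1 := by
  by_contra hcon
  rw [not_lt] at hcon
  have hb0 : b ≠ 0 := by
    rintro rfl
    rw [map_zero, map_zero] at hcon
    exact not_lt_of_ge hcon zero_lt_one
  rw [P.ge_iff hb0] at hb
  have h1 : algebraMap K L b⁻¹ ∈ O := by
    rw [← ValuationSubring.valuation_le_one_iff, map_inv₀, map_inv₀]
    exact inv_le_one_of_one_le₀ hcon
  rw [hO, P.ge_iff (inv_ne_zero hb0), P.ord_inv] at h1
  omega

theorem ValF_root {k L : Type} [Field k] [IsAlgClosed k] [Field L] [Algebra k L]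
    (O : ValuationSubring L) (hk : ∀ c : k, algebraMap k L c ∈ O) (a : L) (ha : a ∈ O) :
    ∀ (n : ℕ) (C : Polynomial k), C.natDegree = n → C ≠ 0 →
      O.valuation (Polynomial.aeval a C) < 1 →
      ∃ c : k, O.valuation (a - algebraMap k L c) < 1 := by
  intro n
  induction n with
  | zero =>
    intro C hC hC0 hv
    exfalso
    obtain ⟨c, rfl⟩ : ∃ c, C = Polynomial.C c := ⟨_, Polynomial.eq_C_of_natDegree_eq_zero hC⟩
    have hc0 : c ≠ 0 := by rintro rfl; simp at hC0
    rw [Polynomial.aeval_C] at hv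
    have h1 := (ValuationSubring.valuation_le_one_iff O _).2 (hk c⁻¹)
    rw [map_inv₀, map_inv₀] at h1
    have hvc : O.valuation (algebraMap k L c) ≠ 0 := by
      rw [Valuation.ne_zero_iff, Ne, map_eq_zero]; exact hc0
    have h2 : (1 : O.ValueGroup) < (O.valuation (algebraMap k L c))⁻¹ :=
      (one_lt_inv₀ (zero_lt_iff.2 hvc)).2 hv
    exact absurd h1 (not_le.2 h2)
  | succ n ih =>
    intro C hC hC0 hv
    obtain ⟨c, hc⟩ := IsAlgClosed.exists_root C (by
      rw [Polynomial.degree_eq_natDegree hC0, hC]; exact_mod_cast Nat.succ_ne_zero n)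
    obtain ⟨C', rfl⟩ := Polynomial.dvd_iff_isRoot.2 hc
    have hC'0 : C' ≠ 0 := right_ne_zero_of_mul hC0
    have hdeg : C'.natDegree = n := by
      rw [Polynomial.natDegree_mul (Polynomial.X_sub_C_ne_zero c) hC'0,
        Polynomial.natDegree_X_sub_C] at hC
      omega
    rw [map_mul, map_mul, map_sub, Polynomial.aeval_X, Polynomial.aeval_C] at hv
    by_cases hlt : O.valuation (a - algebraMap k L c) < 1
    · exact ⟨c, hlt⟩
    · have hle : O.valuation (a - algebraMap k L c) ≤ 1 :=
        (ValuationSubring.valuation_le_one_iff O _).2 (O.sub_mem ha (hk c))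
      have h1 : O.valuation (a - algebraMap k L c) = 1 := le_antisymm hle (not_lt.1 hlt)
      rw [h1, one_mul] at hv
      exact ih C' hdeg hC'0 hv

/-- Finite extensions: the residue field of a valuation ring `O` of `L` above `P` is `k`. -/
theorem exists_residue [IsAlgClosed k] (hfin : Module.Finite K L) (P : Plc k K)
    (O : ValuationSubring L)
    (hO : ∀ a : K, algebraMap K L a ∈ O ↔ P.ge 0 a) (a : L) (ha : a ∈ O) :
    ∃ c : k, a - algebraMap k L c = 0 ∨ (a - algebraMap k L c)⁻¹ ∉ O := by
  classical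
  obtain ⟨f, hf, hfa⟩ := (Algebra.IsIntegral.isIntegral (R := K) a)
  have hf0 : f ≠ 0 := hf.ne_zero
  have hk : ∀ c : k, algebraMap k L c ∈ O := by
    intro c
    rw [IsScalarTower.algebraMap_apply k K L, hO]
    exact P.ge_const c
  obtain ⟨i, hi, hmin⟩ := Finset.exists_min_image f.support (fun i => P.ord (f.coeff i))
    (Polynomial.support_nonempty.2 hf0)
  have hci := Polynomial.mem_support_iff.1 hi
  have hs : ∀ j, P.ge 0 (f.coeff j / f.coeff i) := by
    intro j
    by_cases hcj : f.coeff j = 0
    · left; rw [hcj, zero_div]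
    · right
      rw [P.ord_div hcj hci]
      have := hmin j (Polynomial.mem_support_iff.2 hcj)
      omega
  let C : Polynomial k := ∑ j ∈ f.support, Polynomial.monomial j (P.val (f.coeff j / f.coeff i))
  have hCi : C.coeff i = 1 := by
    simp only [C, Polynomial.finset_sum_coeff, Polynomial.coeff_monomial]
    rw [Finset.sum_eq_single i]
    · rw [if_pos rfl, div_self hci]
      have := P.val_const 1
      rwa [map_one] at this
    · intro j _ hji; rw [if_neg hji]
    · intro h; exact absurd hi h
  have hC0 : C ≠ 0 := by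
    intro h
    rw [h, Polynomial.coeff_zero] at hCi
    exact zero_ne_one hCi
  have hsum : ∑ j ∈ f.support, algebraMap K L (f.coeff j / f.coeff i) * a ^ j = 0 := by
    have h1 : ∑ i ∈ f.support, algebraMap K L (f.coeff i) * a ^ i = 0 := by
      rw [← hfa, Polynomial.eval₂_eq_sum, Polynomial.sum_def]
    have h2 : ∀ j ∈ f.support, algebraMap K L (f.coeff j / f.coeff i) * a ^ j =
        (algebraMap K L (f.coeff i))⁻¹ * (algebraMap K L (f.coeff j) * a ^ j) := by
      intro j _
      rw [map_div₀, div_eq_mul_inv]; ring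
    rw [Finset.sum_congr rfl h2, ← Finset.mul_sum, h1, mul_zero]
  have hCa : Polynomial.aeval a C = - ∑ j ∈ f.support, algebraMap K L (f.coeff j / f.coeff i -
      algebraMap k K (P.val (f.coeff j / f.coeff i))) * a ^ j := by
    have h1 : Polynomial.aeval a C = ∑ j ∈ f.support,
        algebraMap k L (P.val (f.coeff j / f.coeff i)) * a ^ j := by
      simp only [C, map_sum, Polynomial.aeval_monomial]
    rw [h1]
    have h2 : ∀ j ∈ f.support, algebraMap K L (f.coeff j / f.coeff i -
        algebraMap k K (P.val (f.coeff j / f.coeff i))) * a ^ j =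
        algebraMap K L (f.coeff j / f.coeff i) * a ^ j -
        algebraMap k L (P.val (f.coeff j / f.coeff i)) * a ^ j := by
      intro j _
      rw [map_sub, ← IsScalarTower.algebraMap_apply]; ring
    rw [Finset.sum_congr rfl h2, Finset.sum_sub_distrib, hsum]; ring
  have hv : O.valuation (Polynomial.aeval a C) < 1 := by
    rw [hCa, Valuation.map_neg]
    refine Valuation.map_sum_lt _ one_ne_zero fun j _ => ?_
    rw [map_mul, map_pow]
    have h1 := ValF_lt P O hO _ (P.val_spec (hs j))
    have h2 : O.valuation a ≤ 1 := (ValuationSubring.valuation_le_one_iff O _).2 ha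
    calc _ ≤ O.valuation (algebraMap K L (f.coeff j / f.coeff i -
        algebraMap k K (P.val (f.coeff j / f.coeff i)))) * 1 :=
          mul_le_mul_right (pow_le_one₀ zero_le' h2) _
      _ < 1 := by rw [mul_one]; exact h1
  obtain ⟨c, hc⟩ := ValF_root O hk a ha C.natDegree C rfl hC0 hv
  refine ⟨c, ?_⟩
  by_cases h0 : a - algebraMap k L c = 0
  · exact Or.inl h0
  · right
    rw [← ValuationSubring.valuation_le_one_iff, map_inv₀, not_le]
    exact (one_lt_inv₀ (zero_lt_iff.2 ((Valuation.ne_zero_iff _).2 h0))).2 hc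

end Pool.Agent.PRB
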