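import Pool.Agent.LibPRB.ASl
import Pool.Agent.LibPRB.ValF

/-! # Artin–Schreier extensions: unramified places, existence -/

set_option autoImplicit false

namespace Pool.Agent.PRB

variable {p : ℕ} [Fact p.Prime] {k K L : Type} [Field k] [Field K] [Field L]
  [Algebra k K] [Algebra k L] [Algebra K L] [IsScalarTower k K L] {g : K} {z : L}

theorem EtEx_unit (P : Plc k K) (O : ValuationSubring L)
    (hO : ∀ a : K, algebraMap K L a ∈ O ↔ P.ge 0 a) {u : K} (hu : u ≠ 0) (hu0 : P.ord u = 0) :
    O.valuation (algebraMap K L u) = 1 := by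
  apply le_antisymm
  · rw [O.valuation_le_one_iff, hO, P.ge_iff hu, hu0]
  · have h1 : O.valuation (algebraMap K L u⁻¹) ≤ 1 := by
      rw [O.valuation_le_one_iff, hO, P.ge_iff (inv_ne_zero hu), P.ord_inv, hu0]; simp
    rw [map_inv₀, map_inv₀] at h1
    have h0 : O.valuation (algebraMap K L u) ≠ 0 := by simpa using hu
    exact (inv_le_one₀ (zero_lt_iff.mpr h0)).mp h1

theorem EtEx_val (P : Plc k K) (O : ValuationSubring L)
    (hO : ∀ a : K, algebraMap K L a ∈ O ↔ P.ge 0 a) {π : K} (hπ : π ≠ 0) (hπ1 : P.ord π = 1)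
    {c : K} (hc : c ≠ 0) :
    O.valuation (algebraMap K L c) = O.valuation (algebraMap K L π) ^ P.ord c := by
  have h := EtEx_unit P O hO (u := c / π ^ P.ord c) (div_ne_zero hc (zpow_ne_zero _ hπ))
    (by rw [P.ord_div hc (zpow_ne_zero _ hπ), P.ord_zpow, hπ1]; ring)
  rw [map_div₀, map_div₀, map_zpow₀, map_zpow₀] at h
  have h0 : O.valuation (algebraMap K L π) ^ P.ord c ≠ 0 :=
    zpow_ne_zero _ (by simpa using hπ)
  rwa [div_eq_one_iff_eq h0] at h

theorem EtEx_lt_one (P : Plc k K) (O : ValuationSubring L)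
    (hO : ∀ a : K, algebraMap K L a ∈ O ↔ P.ge 0 a) {π : K} (hπ : π ≠ 0) (hπ1 : P.ord π = 1) :
    O.valuation (algebraMap K L π) < 1 := by
  by_contra h
  rw [not_lt] at h
  have h0 : O.valuation (algebraMap K L π) ≠ 0 := by simpa using hπ
  have h1 : O.valuation (algebraMap K L π⁻¹) ≤ 1 := by
    rw [map_inv₀, map_inv₀]
    exact (inv_le_one₀ (zero_lt_iff.mpr h0)).mpr h
  rw [O.valuation_le_one_iff, hO, P.ge_iff (inv_ne_zero hπ), P.ord_inv, hπ1] at h1
  norm_num at h1

/-- A valuation ring above `P`, with the same value group, is the ring of an unramified place. -/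
theorem EtEx_build [IsAlgClosed k] (hfin : Module.Finite K L) (P : Plc k K)
    (O : ValuationSubring L)
    (hO : ∀ a : K, algebraMap K L a ∈ O ↔ P.ge 0 a) {π : K} (hπ : π ≠ 0) (hπ1 : P.ord π = 1)
    (H : ∀ a : L, a ≠ 0 → ∃ n : ℤ, O.valuation a = O.valuation (algebraMap K L π) ^ n) :
    ∃ Q : Plc k L, Q.ring = O ∧ OverEt Q P := by
  classical
  set q := O.valuation (algebraMap K L π) with hq
  have hq0 : q ≠ 0 := by rw [hq]; simpa using hπ
  have hq0' : 0 < q := zero_lt_iff.mpr hq0
  have hq1 : q < 1 := EtEx_lt_one P O hO hπ hπ1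
  have hanti : StrictAnti (fun n : ℤ => q ^ n) := zpow_right_strictAnti₀ hq0' hq1
  let ord : L → ℤ := fun a => if h : a = 0 then 0 else (H a h).choose
  have hord : ∀ a, a ≠ 0 → O.valuation a = q ^ ord a := by
    intro a ha
    have := (H a ha).choose_spec
    simp only [ord, dif_neg ha]
    exact this
  have huniq : ∀ a (n : ℤ), a ≠ 0 → O.valuation a = q ^ n → ord a = n := by
    intro a n ha h
    rw [hord a ha] at h
    exact hanti.injective h
  have hK : ∀ a : K, ord (algebraMap K L a) = P.ord a := by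
    intro a
    by_cases ha : a = 0
    · simp [ha, ord, P.ord_zero]
    · exact huniq _ _ (by simpa using ha) (EtEx_val P O hO hπ hπ1 ha)
  have hmem : ∀ a, a ≠ 0 → (a ∈ O ↔ 0 ≤ ord a) := by
    intro a ha
    rw [← O.valuation_le_one_iff, hord a ha]
    have := hanti.le_iff_ge (a := ord a) (b := 0)
    simpa using this
  let Q : Plc k L :=
    { ord := ord
      ord_zero := by simp [ord]
      ord_mul' := by
        intro a b ha hb
        apply huniq _ _ (mul_ne_zero ha hb)
        rw [map_mul, hord a ha, hord b hb, zpow_add₀ hq0]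
      ord_add' := by
        intro a b ha hb hab
        have h := O.valuation.map_add a b
        rw [hord a ha, hord b hb, hord _ hab] at h
        rcases le_max_iff.mp h with h | h
        · exact (min_le_left _ _).trans (hanti.le_iff_ge.mp h)
        · exact (min_le_right _ _).trans (hanti.le_iff_ge.mp h)
      exists_unif := ⟨algebraMap K L π, by simpa using hπ, by rw [hK, hπ1]⟩
      ord_const := by
        intro c
        rw [IsScalarTower.algebraMap_apply k K L, hK, P.ord_const]
      exists_const := by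
        intro a ha ha0
        have haO : a ∈ O := by rw [hmem a ha, ha0]
        obtain ⟨c, hc⟩ := exists_residue hfin P O hO a haO
        refine ⟨c, ?_⟩
        by_cases hac : a - algebraMap k L c = 0
        · exact Or.inl hac
        · right
          rcases hc with hc | hc
          · exact absurd hc hac
          · rw [hmem _ (inv_ne_zero hac)] at hc
            have h1 : ord (a - algebraMap k L c)⁻¹ = - ord (a - algebraMap k L c) := by
              apply huniq _ _ (inv_ne_zero hac)
              rw [map_inv₀, hord _ hac, zpow_neg]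
            rw [h1] at hc
            omega }
  refine ⟨Q, ?_, fun a => hK a⟩
  ext a
  rw [Plc.mem_ring]
  by_cases ha : a = 0
  · simp [ha, Q.ge_zero, O.zero_mem]
  · rw [Q.ge_iff ha, hmem a ha]

theorem EtEx_main [IsAlgClosed k] [CharP k p] (h : IsAS p g z) (P : Plc k K) (hg : P.ge 0 g)
    (O : ValuationSubring L) (hO : ∀ a : K, algebraMap K L a ∈ O ↔ P.ge 0 a)
    {π : K} (hπ : π ≠ 0) (hπ1 : P.ord π = 1) (a : L) (ha : a ≠ 0) :
    ∃ n : ℤ, O.valuation a = O.valuation (algebraMap K L π) ^ n := by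
  classical
  have hp : p.Prime := Fact.out
  have : CharP K p := charP_of_injective_algebraMap (algebraMap k K).injective p
  have : CharP L p := charP_of_injective_algebraMap (algebraMap k L).injective p
  have hfin := h.finite
  set q := O.valuation (algebraMap K L π) with hq
  have hq0 : q ≠ 0 := by rw [hq]; simpa using hπ
  have hq0' : 0 < q := zero_lt_iff.mpr hq0
  have hq1 : q < 1 := EtEx_lt_one P O hO hπ hπ1
  have hanti : StrictAnti (fun n : ℤ => q ^ n) := zpow_right_strictAnti₀ hq0' hq1
  have hval : ∀ c : K, c ≠ 0 → O.valuation (algebraMap K L c) = q ^ P.ord c :=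
    fun c hc => EtEx_val P O hO hπ hπ1 hc
  -- z is integral
  have hgO : algebraMap K L g ∈ O := (hO g).mpr hg
  have hg1 : O.valuation (algebraMap K L g) ≤ 1 := (O.valuation_le_one_iff _).mpr hgO
  have hz1 : O.valuation z ≤ 1 := by
    by_contra hz
    rw [not_le] at hz
    have h1 : O.valuation z ^ p ≤ O.valuation z := by
      rw [← map_pow, h.eq]
      refine (O.valuation.map_add _ _).trans ?_
      exact max_le le_rfl (hg1.trans hz.le)
    have h2 : O.valuation z < O.valuation z ^ p := lt_self_pow₀ hz hp.one_lt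
    exact absurd h1 (not_le.mpr h2)
  have hzO : z ∈ O := (O.valuation_le_one_iff _).mp hz1
  -- residue
  obtain ⟨c0, hc0⟩ := exists_residue hfin P O hO z hzO
  set w := z - algebraMap k L c0 with hw
  have hw1 : O.valuation w < 1 := by
    rcases hc0 with hc0 | hc0
    · rw [hc0]; simp
    · rw [← O.valuation_le_one_iff, map_inv₀, not_le] at hc0
      by_cases hw0 : w = 0
      · rw [hw0]; simp
      · have h0 : 0 < O.valuation w := zero_lt_iff.mpr (by simpa using hw0)
        exact (one_lt_inv₀ h0).mp hc0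
  -- w ^ p - w
  set h0 : K := g - (algebraMap k K c0 ^ p - algebraMap k K c0) with hh0
  have hc0K : algebraMap k L c0 = algebraMap K L (algebraMap k K c0) :=
    IsScalarTower.algebraMap_apply k K L c0
  have hwh : w * (w ^ (p - 1) - 1) = algebraMap K L h0 := by
    have e1 : w * (w ^ (p - 1) - 1) = w ^ p - w := by
      rw [mul_sub, mul_one, mul_comm, pow_sub_one_mul hp.ne_zero]
    rw [e1, hw, sub_pow_char, h.eq, hh0, hc0K]
    simp only [map_sub, map_pow]
    ring
  have hv1 : O.valuation (w ^ (p - 1) - 1) = 1 := by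
    have h1 : O.valuation (w ^ (p - 1)) < 1 := by
      rw [map_pow]
      exact pow_lt_one₀ zero_le hw1 (by have := hp.two_le; omega)
    rw [Valuation.map_sub_swap]
    exact Valuation.map_one_sub_of_lt _ h1
  have hvw : O.valuation w = O.valuation (algebraMap K L h0) := by
    rw [← hwh, map_mul, hv1, mul_one]
  have hwq : O.valuation w ≤ q := by
    by_cases hh : h0 = 0
    · rw [hvw, hh]; simp
    · rw [hvw, hval h0 hh]
      rw [hvw, hval h0 hh] at hw1
      have h1 : (0 : ℤ) < P.ord h0 := by
        have := hanti.lt_iff_gt (a := P.ord h0) (b := 0)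
        simp only [zpow_zero] at this
        exact this.mp hw1
      have h2 := hanti.antitone (show (1 : ℤ) ≤ P.ord h0 by omega)
      simpa using h2
  -- the sequence y
  let y : ℕ → K := fun n => Nat.rec (algebraMap k K c0) (fun _ y => y ^ p - g) n
  have hy : ∀ n, O.valuation (z - algebraMap K L (y n)) ≤ q ^ (p ^ n) := by
    intro n
    induction n with
    | zero =>
      show O.valuation (z - algebraMap K L (algebraMap k K c0)) ≤ _
      rw [← hc0K]; simpa using hwq
    | succ n ih =>
      show O.valuation (z - algebraMap K L (y n ^ p - g)) ≤ _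
      have e : z - algebraMap K L (y n ^ p - g) = (z - algebraMap K L (y n)) ^ p := by
        rw [sub_pow_char, h.eq]; simp only [map_sub, map_pow]; ring
      rw [e, map_pow, pow_succ, pow_mul]
      exact pow_le_pow_left₀ zero_le ih p
  have hq_le : ∀ n : ℕ, q ^ n ≤ 1 := fun n => pow_le_one₀ zero_le hq1.le
  have hyO : ∀ n, algebraMap K L (y n) ∈ O := by
    intro n
    have h1 : z - algebraMap K L (y n) ∈ O := by
      rw [← O.valuation_le_one_iff]
      exact (hy n).trans (hq_le _)
    have := sub_mem hzO h1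
    simpa using this
  have hypow : ∀ n i, O.valuation (z ^ i - algebraMap K L (y n) ^ i) ≤ q ^ (p ^ n) := by
    intro n i
    have h1 : ((⟨z, hzO⟩ : O) - ⟨_, hyO n⟩) ∣ ((⟨z, hzO⟩ : O) ^ i - (⟨_, hyO n⟩ : O) ^ i) :=
      sub_dvd_pow_sub_pow _ _ _
    obtain ⟨r, hr⟩ := h1
    have h2 : z ^ i - algebraMap K L (y n) ^ i = (z - algebraMap K L (y n)) * (r : L) := by
      have := congrArg (Subtype.val) hr
      simpa using this
    rw [h2, map_mul]
    calc _ ≤ q ^ (p ^ n) * 1 := mul_le_mul' (hy n) (O.valuation_le_one r)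
      _ = _ := mul_one _
  -- coefficients
  obtain ⟨c, hc⟩ := h.repr a
  obtain ⟨M, hM⟩ : ∃ M : ℕ, ∀ i ∈ Finset.range p,
      O.valuation (algebraMap K L (c i)) ≤ q ^ (-(M : ℤ)) := by
    refine ⟨∑ i ∈ Finset.range p, (P.ord (c i)).natAbs, fun i hi => ?_⟩
    by_cases hci : c i = 0
    · rw [hci]; simp
    · rw [hval _ hci]
      apply hanti.antitone
      have h1 : (P.ord (c i)).natAbs ≤ ∑ i ∈ Finset.range p, (P.ord (c i)).natAbs :=
        Finset.single_le_sum (f := fun i => (P.ord (c i)).natAbs) (fun _ _ => Nat.zero_le _) hi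
      omega
  let b : ℕ → K := fun n => ∑ i ∈ Finset.range p, c i * y n ^ i
  have hab : ∀ n, O.valuation (a - algebraMap K L (b n)) ≤ q ^ ((p ^ n : ℕ) - (M : ℤ)) := by
    intro n
    have e : a - algebraMap K L (b n) = ∑ i ∈ Finset.range p,
        algebraMap K L (c i) * (z ^ i - algebraMap K L (y n) ^ i) := by
      rw [hc]
      simp only [b, map_sum, map_mul, map_pow, mul_sub, Finset.sum_sub_distrib]
    rw [e]
    apply Valuation.map_sum_le
    intro i hi
    rw [map_mul, show ((p ^ n : ℕ) : ℤ) - (M : ℤ) = -(M : ℤ) + ((p ^ n : ℕ) : ℤ) by ring,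
      zpow_add₀ hq0, zpow_natCast]
    exact mul_le_mul' (hM i hi) (hypow n i)
  by_contra hcon
  push_neg at hcon
  have hle : ∀ n : ℕ, O.valuation a ≤ q ^ ((p ^ n : ℕ) - (M : ℤ)) := by
    intro n
    refine le_trans ?_ (hab n)
    have hne : O.valuation a ≠ O.valuation (algebraMap K L (b n)) := by
      by_cases hb : b n = 0
      · rw [hb]; simpa using ha
      · rw [hval _ hb]; exact hcon _
    rcases lt_or_gt_of_ne hne with h1 | h1
    · rw [Valuation.map_sub_eq_of_lt_right _ h1]; exact h1.le
    · rw [Valuation.map_sub_eq_of_lt_left _ h1]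
  obtain ⟨m, d, hm, hd, h1, h2⟩ := exists_pow_unit hfin P O hO a ha
  rw [← O.valuation_le_one_iff, map_div₀, map_pow, hval d hd] at h1 h2
  have hva : 0 < O.valuation a := zero_lt_iff.mpr (by simpa using ha)
  have h3 : q ^ P.ord d ≤ O.valuation a ^ m := by
    rwa [div_le_one₀ (pow_pos hva m)] at h2
  set N := M + (P.ord d).natAbs + 1 with hN
  have h4 : O.valuation a ^ m ≤ (q ^ ((p ^ N : ℕ) - (M : ℤ))) ^ m := pow_le_pow_left₀ zero_le (hle N) m
  rw [← zpow_natCast (q ^ _) m, ← zpow_mul] at h4
  have h5 := hanti.le_iff_ge.mp (h3.trans h4)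
  have h6 : N < p ^ N := Nat.lt_pow_self hp.one_lt
  have h7 : (1 : ℤ) ≤ m := by exact_mod_cast hm
  have h8 : ((P.ord d).natAbs : ℤ) + 1 ≤ (p ^ N : ℕ) - (M : ℤ) := by
    have : ((N : ℕ) : ℤ) < ((p ^ N : ℕ) : ℤ) := by exact_mod_cast h6
    omega
  have h9 : ((P.ord d).natAbs : ℤ) + 1 ≤ ((p ^ N : ℕ) - (M : ℤ)) * m := by nlinarith
  omega

/-- Every valuation ring of `L` above a place `P` at which `g` is regular is the ring of a place
which is unramified over `P`. -/
theorem et_exists [IsAlgClosed k] [CharP k p] (h : IsAS p g z) (P : Plc k K) (hg : P.ge 0 g)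
    (O : ValuationSubring L) (hO : ∀ a : K, algebraMap K L a ∈ O ↔ P.ge 0 a) :
    ∃ Q : Plc k L, Q.ring = O ∧ OverEt Q P := by
  obtain ⟨π, hπ, hπ1⟩ := P.exists_unif
  exact EtEx_build h.finite P O hO hπ hπ1 (EtEx_main h P hg O hO hπ hπ1)

end Pool.Agent.PRB
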