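import Pool.Agent.LibPRB.EtEx

/-! # Artin–Schreier extensions: unramified places and the values of `z` -/

set_option autoImplicit false

namespace Pool.Agent.PRB

variable {p : ℕ} [Fact p.Prime] {k K L : Type} [Field k] [Field K] [Field L]
  [Algebra k K] [Algebra k L] [Algebra K L] [IsScalarTower k K L] {g : K} {z : L}

theorem OverEt.ge_iff {Q : Plc k L} {P : Plc k K} (h : OverEt Q P) (n : ℤ) (a : K) :
    Q.ge n (algebraMap K L a) ↔ P.ge n a := by
  unfold Plc.ge
  rw [h a, map_eq_zero]

theorem OverEt.val {Q : Plc k L} {P : Plc k K} (h : OverEt Q P) {a : K} (ha : P.ge 0 a) :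
    Q.val (algebraMap K L a) = P.val a := by
  apply Q.val_eq
  have h1 := (h.ge_iff 1 _).mpr (P.val_spec ha)
  rwa [map_sub, ← IsScalarTower.algebraMap_apply k K L] at h1

theorem et_ge_z (h : IsAS p g z) (P : Plc k K) (hg : P.ge 0 g) (Q : Plc k L)
    (hQ : OverEt Q P) : Q.ge 0 z := by
  by_cases hz : z = 0
  · rw [hz]; exact Q.ge_zero 0
  · rw [Q.ge_iff hz]
    by_contra hneg
    push Not at hneg
    have h1 : Q.ge (Q.ord z) (z + algebraMap K L g) :=
      Q.ge_add (Or.inr le_rfl) (((hQ.ge_iff 0 g).mpr hg).mono hneg.le)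
    rw [← h.eq, Q.ge_iff (pow_ne_zero _ hz), Q.ord_pow] at h1
    have hp : (1 : ℤ) < p := by exact_mod_cast (Fact.out : p.Prime).one_lt
    nlinarith

theorem et_val_eq (h : IsAS p g z) (P : Plc k K) (hg : P.ge 0 g) (Q : Plc k L)
    (hQ : OverEt Q P) : Q.val z ^ p - Q.val z = P.val g := by
  have hz := et_ge_z h P hg Q hQ
  have h1 := Q.val_pow hz p
  rw [h.eq, Q.val_add hz ((hQ.ge_iff 0 g).mpr hg), hQ.val hg] at h1
  rw [← h1]; ring

/-- The place `Q ∘ τ`. -/
def EtV_comap (Q : Plc k L) (τ : L ≃ₐ[K] L) : Plc k L where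
  ord := fun a => Q.ord (τ a)
  ord_zero := by rw [map_zero, Q.ord_zero]
  ord_mul' := fun a b ha hb => by
    rw [map_mul]
    exact Q.ord_mul (by simpa using ha) (by simpa using hb)
  ord_add' := fun a b ha hb hab => by
    rw [map_add]
    refine Q.ord_add' _ _ (by simpa using ha) (by simpa using hb) ?_
    rw [← map_add]
    exact (map_ne_zero_iff τ τ.injective).mpr hab
  exists_unif := by
    obtain ⟨a, ha, h1⟩ := Q.exists_unif
    exact ⟨τ.symm a, by simpa using ha, by simpa using h1⟩
  ord_const := fun c => by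
    rw [IsScalarTower.algebraMap_apply k K L, AlgEquiv.commutes,
      ← IsScalarTower.algebraMap_apply k K L, Q.ord_const]
  exists_const := fun a ha h0 => by
    obtain ⟨c, hc⟩ := Q.exists_const (τ a) (by simpa using ha) h0
    refine ⟨c, ?_⟩
    have h1 : τ (a - algebraMap k L c) = τ a - algebraMap k L c := by
      rw [map_sub, IsScalarTower.algebraMap_apply k K L, AlgEquiv.commutes]
    rcases hc with hc | hc
    · left
      have h2 : τ (a - algebraMap k L c) = 0 := by rw [h1, hc]
      exact (map_eq_zero_iff τ τ.injective).mp h2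
    · right
      rw [h1]
      exact hc

theorem EtV_comap_ge (Q : Plc k L) (τ : L ≃ₐ[K] L) (n : ℤ) (a : L) :
    (EtV_comap Q τ).ge n a ↔ Q.ge n (τ a) := by
  unfold Plc.ge
  have : τ a = 0 ↔ a = 0 := by simp
  rw [this]
  rfl

theorem EtV_pow_eq [CharP k p] {x : k}
    (hx : x ^ p = x) : ∃ j < p, x = (j : k) := by
  have h1 : x ∈ (⊥ : Subfield k) := (Subfield.mem_bot_iff_pow_eq_self k p).mpr hx
  obtain ⟨n, hn⟩ := (mem_bot_iff_intCast p k).mp h1
  have hp : (0 : ℤ) < p := by exact_mod_cast (Fact.out : p.Prime).pos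
  refine ⟨(n % p).toNat, ?_, ?_⟩
  · have := Int.emod_lt_of_pos n hp
    have := Int.emod_nonneg n hp.ne'
    omega
  · rw [← hn]
    have h2 : ((n % p).toNat : ℤ) = n % p := Int.toNat_of_nonneg (Int.emod_nonneg n hp.ne')
    have h3 : (((n % p).toNat : ℤ) : k) = ((n : ℤ) : k) := by
      rw [h2]
      have h4 := Int.emod_add_mul_ediv n p
      have h5 : ((n % p + p * (n / p) : ℤ) : k) = (n : k) := by rw [h4]
      push_cast at h5
      rw [CharP.cast_eq_zero k p, zero_mul, add_zero] at h5
      exact h5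
    rw [← h3]
    push_cast
    rfl

/-- Each possible value of `z` occurs. -/
theorem et_exists_val [IsAlgClosed k] [CharP k p] (h : IsAS p g z) (P : Plc k K)
    (hg : P.ge 0 g) (c : k) (hc : c ^ p - c = P.val g) :
    ∃ Q : Plc k L, OverEt Q P ∧ Q.val z = c := by
  haveI : CharP K p := charP_of_injective_algebraMap (algebraMap k K).injective p
  obtain ⟨O, hO⟩ := exists_over (L := L) P
  obtain ⟨Q, -, hQ⟩ := et_exists h P hg O hO
  have hz := et_ge_z h P hg Q hQ
  have h1 := et_val_eq h P hg Q hQ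
  have h2 : (c - Q.val z) ^ p = c - Q.val z := by
    rw [sub_pow_char]
    linear_combination hc - h1
  obtain ⟨j, -, hj⟩ := EtV_pow_eq h2
  obtain ⟨τ, hτ⟩ := h.exists_translation j
  refine ⟨EtV_comap Q τ, ?_, ?_⟩
  · intro a
    change Q.ord (τ (algebraMap K L a)) = _
    rw [AlgEquiv.commutes, hQ]
  · apply Plc.val_eq
    rw [EtV_comap_ge, map_sub, hτ, IsScalarTower.algebraMap_apply k K L, AlgEquiv.commutes,
      ← IsScalarTower.algebraMap_apply k K L]
    have h3 : z + (j : L) - algebraMap k L c = z - algebraMap k L (Q.val z) := by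
      have : (j : L) = algebraMap k L (j : k) := by simp
      rw [this, ← hj, map_sub]; ring
    rw [h3]
    exact Q.val_spec hz

end Pool.Agent.PRB
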