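import Pool.Agent.LibPRB.TwD
import Pool.Agent.LibPRB.Diff

/-!
# Differentials at a place: existence from boundedness; tame extensions

PLAN for `isDiff_of_bdd`. Let `t` be a uniformizer of `Q`.
(1) for every `N` and every `a` with `Q.ge 0 a` there are `c : ℕ → k` and `b` with `Q.ge 0 b` and
`a = ∑ i < N, algebraMap (c i) * t ^ i + t ^ N * b` (induction, `Plc.res`).
(2) `D' a = (∑ i < N, c_i * i * t ^ (i-1) + N * t ^ (N-1) * b) * D' t + t ^ N * D' b`.
(3) if `D' t = 0` then `D' a = t ^ N * D' b` has order `≥ N - C` for all `N`, so `D' a = 0` for all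
`a` with `Q.ge 0 a`, hence for all `a` (if `Q.ord a < 0` use `a⁻¹`): contradiction with `hne`.
(4) `δ := -Q.ord (D' t)`: take `N` with `N - C ≥ Q.ord (D' t)` in (2).
PLAN for `diff_tame`: `IsDiff P D δ` gives `π : K` with `P.ord π = 1`, `P.ord (D π) = -δ`,
`D π ≠ 0`; `Q.ord π = e`; `IsDiff.ord_D` (Diff.lean) at `Q` for `algebraMap π`:
`Q.ord (D' π) = e - 1 - δ'`, and `Q.ord (D' π) = Q.ord (algebraMap (D π)) = -e δ`.
-/

set_option autoImplicit false

namespace Pool.Agent.PRB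

private theorem FinD_expand {k L : Type} [Field k] [Field L] [Algebra k L] (Q : Plc k L)
    (D' : Derivation k L L) {t : L} (ht : Q.ord t = 1) (N : ℕ) :
    ∀ a : L, Q.ge 0 a → ∃ g b : L, Q.ge 0 g ∧ Q.ge 0 b ∧ D' a = g * D' t + t ^ N * D' b := by
  have ht0 : t ≠ 0 := by
    rintro rfl
    have := Q.ord_zero
    omega
  induction N with
  | zero =>
    intro a ha
    exact ⟨0, a, Q.ge_zero 0, ha, by simp⟩
  | succ N ih =>
    intro a ha
    obtain ⟨g, b, hg, hb, h⟩ := ih a ha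
    obtain ⟨c, hc⟩ := Q.res hb
    have hti : Q.ge (-1) t⁻¹ := Or.inr (by rw [Q.ord_inv, ht])
    have hb' : Q.ge 0 (t⁻¹ * (b - algebraMap k L c)) := by
      have := Q.ge_mul hti hc
      simpa using this
    have htN : Q.ge 0 (t ^ N) := Or.inr (by rw [Q.ord_pow, ht]; positivity)
    have hbt : b = algebraMap k L c + t * (t⁻¹ * (b - algebraMap k L c)) := by
      rw [← mul_assoc, mul_inv_cancel₀ ht0, one_mul]
      ring
    have hDb : D' b = t * D' (t⁻¹ * (b - algebraMap k L c)) +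
        (t⁻¹ * (b - algebraMap k L c)) * D' t := by
      conv_lhs => rw [hbt]
      rw [map_add, Derivation.map_algebraMap, zero_add, D'.leibniz]
      simp only [smul_eq_mul]
    refine ⟨g + t ^ N * (t⁻¹ * (b - algebraMap k L c)), t⁻¹ * (b - algebraMap k L c), ?_, hb', ?_⟩
    · refine Q.ge_add hg ?_
      have := Q.ge_mul htN hb'
      simpa using this
    · rw [h, hDb]
      ring

theorem isDiff_of_bdd {k L : Type} [Field k] [Field L] [Algebra k L] (Q : Plc k L)
    (D' : Derivation k L L) (C : ℕ) (hb : ∀ a, Q.ge 0 a → Q.ge (-C) (D' a))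
    (hne : ∃ a, D' a ≠ 0) : ∃ δ, IsDiff Q D' δ := by
  obtain ⟨t, ht0, ht⟩ := Q.exists_unif
  have hDt : D' t ≠ 0 := by
    intro h0
    have h1 : ∀ a, Q.ge 0 a → D' a = 0 := by
      intro a ha
      by_contra hDa
      obtain ⟨g, b, hg, hbb, h⟩ := FinD_expand Q D' ht ((Q.ord (D' a)).toNat + C + 1) a ha
      rw [h0, mul_zero, zero_add] at h
      have h2 := Q.ge_mul (Or.inr (by rw [Q.ord_pow, ht, mul_one]) :
        Q.ge (((Q.ord (D' a)).toNat + C + 1 : ℕ) : ℤ) (t ^ ((Q.ord (D' a)).toNat + C + 1)))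
        (hb b hbb)
      rw [← h, Q.ge_iff hDa] at h2
      have h3 := Int.self_le_toNat (Q.ord (D' a))
      push_cast at h2
      omega
    obtain ⟨a, ha⟩ := hne
    refine ha ?_
    by_cases h2 : Q.ge 0 a
    · exact h1 a h2
    · have ha0 : a ≠ 0 := fun h => h2 (h ▸ Q.ge_zero 0)
      have h3 : Q.ge 0 a⁻¹ := by
        refine Or.inr ?_
        rw [Q.ord_inv]
        rw [Q.ge_iff ha0] at h2
        omega
      have h4 := h1 _ h3
      have h5 : D' (a⁻¹ * a) = 0 := by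
        rw [inv_mul_cancel₀ ha0, Derivation.map_one_eq_zero]
      rw [D'.leibniz, h4, smul_zero, add_zero, smul_eq_mul] at h5
      exact (mul_eq_zero.1 h5).resolve_left (inv_ne_zero ha0)
  refine ⟨-Q.ord (D' t), fun a ha => ?_, t, ht0, ht, hDt, (neg_neg _).symm⟩
  rw [neg_neg]
  obtain ⟨g, b, hg, hbb, h⟩ := FinD_expand Q D' ht ((Q.ord (D' t)).toNat + C) a ha
  rw [h]
  refine Q.ge_add ?_ ?_
  · have := Q.ge_mul hg (Or.inr le_rfl : Q.ge (Q.ord (D' t)) (D' t))
    rwa [zero_add] at this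
  · have h2 := Q.ge_mul (Or.inr (by rw [Q.ord_pow, ht, mul_one]) :
      Q.ge (((Q.ord (D' t)).toNat + C : ℕ) : ℤ) (t ^ ((Q.ord (D' t)).toNat + C)))
      (hb b hbb)
    refine h2.mono ?_
    have h3 := Int.self_le_toNat (Q.ord (D' t))
    push_cast
    omega

variable {p : ℕ} [Fact p.Prime] {k K L : Type} [Field k] [Field K] [Field L]
  [Algebra k K] [Algebra k L] [Algebra K L] [IsScalarTower k K L]

theorem diff_tame [CharP k p] {e : ℕ} {Q : Plc k L} {P : Plc k K} (hQ : OverE e Q P)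
    (hpe : ¬ p ∣ e) (D : Derivation k K K) (D' : Derivation k L L)
    (hD : ∀ a : K, D' (algebraMap K L a) = algebraMap K L (D a)) {δ δ' : ℤ}
    (hP : IsDiff P D δ) (hQ' : IsDiff Q D' δ') : δ' = e * δ + e - 1 := by
  obtain ⟨_, π, hπ, hπ1, hDπ, hDo⟩ := hP
  have h1 : Q.ord (algebraMap K L π) = e := by rw [hQ.2, hπ1, mul_one]
  have h2 : algebraMap K L π ≠ 0 := (map_ne_zero _).2 hπ
  have h3 := (hQ'.ord_D h2 (by rw [h1]; exact_mod_cast hpe)).2
  rw [hD, hQ.2, hDo, h1] at h3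
  linarith

end Pool.Agent.PRB
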