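import Pool.Agent.LibPRB.LogL

/-! # Logarithmic differentials on the Artin–Schreier extension: count -/

set_option autoImplicit false

namespace Pool.Agent.PRB

namespace ASD

variable {p : ℕ} [Fact p.Prime] {k : Type} [Field k] [IsAlgClosed k] [CharP k p] {ζ : k}
  {K : Type} [Field K] [Algebra k K] {Λ : Lad p ζ K} {g : K} {N : ℕ}
  {L : Type} [Field L] [Algebra k L] [Algebra K L] [IsScalarTower k K L] {z : L}

omit [IsAlgClosed k] [CharP k p] in
theorem LogT_sig_inj (Λ : Lad p ζ K) : Function.Injective Λ.sig := (Λ.sig : K →+* K).injective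

/-- The place `P ∘ sig`. -/
noncomputable def LogT_comap (Λ : Lad p ζ K) (P : Plc k K) : Plc k K where
  ord a := P.ord (Λ.sig a)
  ord_zero := by rw [map_zero, P.ord_zero]
  ord_mul' a b ha hb := by
    rw [map_mul, P.ord_mul' _ _ ((map_ne_zero _).mpr ha) ((map_ne_zero _).mpr hb)]
  ord_add' a b ha hb hab := by
    rw [map_add]
    exact P.ord_add' _ _ ((map_ne_zero _).mpr ha) ((map_ne_zero _).mpr hb)
      (by rw [← map_add]; exact (map_ne_zero _).mpr hab)
  exists_unif := by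
    have hp : p.Prime := Fact.out
    obtain ⟨π, hπ, hπ1⟩ := P.exists_unif
    have h1 : Λ.sig (Λ.sig^[p - 2] π) = π := by
      rw [← Function.iterate_succ_apply' (⇑Λ.sig)]
      have : (p - 2).succ = p - 1 := by have := hp.two_le; omega
      rw [this]; exact Λ.sig_iter π
    refine ⟨Λ.sig^[p - 2] π, ?_, by rw [h1, hπ1]⟩
    intro h0
    rw [h0, map_zero] at h1
    exact hπ h1.symm
  ord_const c := by rw [AlgHom.commutes, P.ord_const]
  exists_const a ha h0 := by
    obtain ⟨c, hc⟩ := P.exists_const (Λ.sig a) ((map_ne_zero _).mpr ha) h0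
    have e : Λ.sig (a - algebraMap k K c) = Λ.sig a - algebraMap k K c := by
      rw [map_sub, AlgHom.commutes]
    refine ⟨c, ?_⟩
    rw [e]
    rcases hc with hc | hc
    · left
      rw [← e] at hc
      exact (map_eq_zero_iff _ (LogT_sig_inj Λ)).mp hc
    · exact Or.inr hc

theorem LogT_comap_ge (Λ : Lad p ζ K) (P : Plc k K) (n : ℤ) (a : K) :
    (LogT_comap Λ P).ge n a ↔ P.ge n (Λ.sig a) := by
  unfold Plc.ge
  rw [map_eq_zero_iff _ (LogT_sig_inj Λ)]
  rfl

theorem LogT_ord_smul (P : Plc k K) {c : k} (hc : c ≠ 0) (a : K) : P.ord (c • a) = P.ord a := by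
  by_cases ha : a = 0
  · simp [ha]
  · rw [Algebra.smul_def, P.ord_mul (by simpa using hc) ha, P.ord_const, zero_add]

theorem LogT_comap_ne (Λ : Lad p ζ K) (hζ : ζ ≠ 0) (P : Plc k K) (hP : P ≠ Λ.inf) :
    LogT_comap Λ P ≠ Λ.inf := by
  intro h
  have h1 : (LogT_comap Λ P).ord Λ.s = Λ.inf.ord Λ.s := by rw [h]
  have h2 : P.ord (Λ.sig Λ.s) = Λ.inf.ord Λ.s := h1
  rw [Λ.sig_s, LogT_ord_smul P hζ] at h2
  have h3 := Λ.inf_s
  have hs : Λ.s ≠ 0 := by
    intro h0
    rw [h0, Λ.inf.ord_zero] at h3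
    exact lt_irrefl _ h3
  have h4 := Λ.fin_s P hP
  rw [P.ge_iff hs, h2] at h4
  omega

theorem LogT_stable (A : ASD Λ g N L z) (hζ : ζ ≠ 0)
    (S : Finset (Plc k K)) (hS : ∀ P, P ∈ S ↔ P ≠ Λ.inf ∧ P.ord g < 0) (a : K)
    (ha : a ∈ Λ.Msp (ind S) (Λ.gam - 1)) : Λ.sig a ∈ Λ.Msp (ind S) (Λ.gam - 1) := by
  rw [Lad.mem_Msp] at ha ⊢
  refine ⟨fun P hP => ?_, ?_⟩
  · have hQ := LogT_comap_ne Λ hζ P hP
    have h1 := ha.1 _ hQ
    rw [LogT_comap_ge] at h1
    have h2 : ind S (LogT_comap Λ P) = ind S P := by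
      have h3 : (LogT_comap Λ P).ord g = P.ord g := by
        show P.ord (Λ.sig g) = _
        rw [A.g_sig, LogT_ord_smul P (pow_ne_zero _ hζ)]
      have h4 : LogT_comap Λ P ∈ S ↔ P ∈ S := by
        rw [hS, hS, h3]; simp [hP, hQ]
      unfold ind
      by_cases h5 : P ∈ S
      · rw [if_pos h5, if_pos (h4.mpr h5)]
      · rw [if_neg h5, if_neg (fun h => h5 (h4.mp h))]
    rwa [h2] at h1
  · rcases ha.2 with h | h
    · left; rw [h, map_zero]
    · right; rw [Λ.sig_inf]; exact h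

theorem LogT_prod (n N : ℕ) (hn : 0 < n) (hNc : Nat.Coprime N n) (f : ℤ → ℕ)
    (hf : ∀ e e' : ℤ, (n : ℤ) ∣ e - e' → f e = f e') :
    ∏ m ∈ Finset.range n, f (-1 - m * N) = ∏ e ∈ Finset.range n, f e := by
  have hn' : (n : ℤ) ≠ 0 := by exact_mod_cast hn.ne'
  have hmod : ∀ x : ℤ, ((x % n).toNat : ℤ) = x % n := fun x =>
    Int.toNat_of_nonneg (Int.emod_nonneg _ hn')
  have hmaps : ∀ m ∈ Finset.range n, ((-1 - m * N : ℤ) % n).toNat ∈ Finset.range n := by
    intro m _
    rw [Finset.mem_range]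
    have h1 := Int.emod_lt_of_pos (-1 - m * N : ℤ) (show (0 : ℤ) < n by exact_mod_cast hn)
    have h2 := hmod (-1 - m * N : ℤ)
    omega
  have hinj : Set.InjOn (fun m : ℕ => ((-1 - m * N : ℤ) % n).toNat) (Finset.range n) := by
    intro m hm m' hm' h
    rw [Finset.coe_range, Set.mem_Iio] at hm hm'
    have h1 : (-1 - m * N : ℤ) % n = (-1 - m' * N : ℤ) % n := by
      have h' : (((-1 - m * N : ℤ) % n).toNat : ℤ) = (((-1 - m' * N : ℤ) % n).toNat : ℤ) :=
        congrArg (fun x : ℕ => (x : ℤ)) h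
      rwa [hmod, hmod] at h'
    have h2 : (n : ℤ) ∣ ((m' : ℤ) - m) * N := by
      have h3 := Int.ModEq.dvd (show (-1 - m' * N : ℤ) ≡ (-1 - m * N : ℤ) [ZMOD n] from h1.symm)
      convert h3 using 1; ring
    have h3 : (n : ℤ) ∣ (m' : ℤ) - m := by
      have hc : IsCoprime (n : ℤ) (N : ℤ) := (Nat.isCoprime_iff_coprime.mpr hNc).symm
      exact hc.dvd_of_dvd_mul_right h2
    have h4 : |(m' : ℤ) - m| < n := by
      rw [abs_lt]; constructor <;> omega
    have := Int.eq_zero_of_abs_lt_dvd h3 h4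
    omega
  refine Finset.prod_nbij (fun m : ℕ => ((-1 - m * N : ℤ) % n).toNat) hmaps hinj ?_ ?_
  · exact Finset.surjOn_of_injOn_of_card_le _ (fun m hm => hmaps m hm) hinj le_rfl
  · intro m _
    apply hf
    show (n : ℤ) ∣ (-1 - m * N : ℤ) - (((-1 - m * N : ℤ) % n).toNat : ℤ)
    rw [hmod]
    exact Int.dvd_self_sub_emod

/-- The number of `sig`-invariant regular logarithmic differentials. -/
theorem log_count (A : ASD Λ g N L z) (hζ : IsPrimitiveRoot ζ (p - 1)) (hp2 : p ≠ 2)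
    (hNc : Nat.Coprime N (p - 1))
    (S : Finset (Plc k K)) (hS : ∀ P, P ∈ S ↔ P ≠ Λ.inf ∧ P.ord g < 0) :
    Nat.card {a : L // a ∈ regSp A.D ∧ A.sig a = ζ⁻¹ • a ∧ car p A.D a = a} = p ^ S.card := by
  have hp : p.Prime := Fact.out
  have : CharP K p := charP_of_injective_algebraMap (algebraMap k K).injective p
  have : CharP L p := charP_of_injective_algebraMap (algebraMap k L).injective p
  have hp3 : 3 ≤ p := by have := hp.two_le; omega
  have hζ0 : ζ ≠ 0 := hζ.ne_zero (by omega)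
  have hS' : Λ.inf ∉ S := by rw [hS]; simp
  -- the filtration
  have hFil : ∀ m, m ≤ p → Nat.card {a : L // a ∈ A.Fil m ∧ car p A.D a = a} =
      ∏ i ∈ Finset.range m, Nat.card {c : K // c ∈ Λ.Mg g i ∧
        Λ.sig c = ζ ^ (-1 - i * N : ℤ) • c ∧ car p Λ.D c = c} := by
    intro m
    induction m with
    | zero =>
      intro _
      rw [Finset.range_zero, Finset.prod_empty, Nat.card_eq_one_iff_unique]
      refine ⟨⟨?_⟩, ?_⟩
      · rintro ⟨a, ha, _⟩ ⟨b, hb, _⟩
        have ha0 : a = 0 := A.as.eq_zero_iff.mpr fun i _ => ha.2.2 i (Nat.zero_le _)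
        have hb0 : b = 0 := A.as.eq_zero_iff.mpr fun i _ => hb.2.2 i (Nat.zero_le _)
        simp [ha0, hb0]
      · exact ⟨⟨0, zero_mem _, A.as.eq_zero_iff.mpr fun i _ =>
          (A.car_mem_Fil hζ 0 0 (zero_mem _)).2.2 i (Nat.zero_le _)⟩⟩
    | succ m ih =>
      intro hm
      rw [A.card_Fil_succ hζ m (by omega), ih (by omega), Finset.prod_range_succ]
  have hFp : Nat.card {a : L // a ∈ regSp A.D ∧ A.sig a = ζ⁻¹ • a ∧ car p A.D a = a} =
      Nat.card {a : L // a ∈ A.Fil p ∧ car p A.D a = a} := by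
    apply Nat.card_congr
    refine Equiv.subtypeEquivRight fun a => ?_
    rw [mem_Fil]
    constructor
    · rintro ⟨h1, h2, h3⟩
      exact ⟨⟨h1, h2, fun d hd => A.as.co_of_le a hd⟩, h3⟩
    · rintro ⟨⟨h1, h2, _⟩, h3⟩
      exact ⟨h1, h2, h3⟩
  rw [hFp, hFil p le_rfl]
  obtain ⟨q, rfl⟩ : ∃ q, p = q + 1 := ⟨p - 1, by omega⟩
  rw [Finset.prod_range_succ]
  simp only [Nat.add_sub_cancel] at hζ hNc
  have hlast : Nat.card {c : K // c ∈ Λ.Mg g q ∧
        Λ.sig c = ζ ^ (-1 - q * N : ℤ) • c ∧ car (q + 1) Λ.D c = c} = 1 := by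
    have hb : ∀ D, bnd (q + 1) D q = 0 := by
      intro D
      unfold bnd
      rw [Nat.add_sub_cancel, Nat.sub_self, zero_mul, zero_add]
      exact Nat.div_eq_of_lt (by omega)
    rw [Nat.card_eq_one_iff_unique]
    have hz : ∀ c : K, c ∈ Λ.Mg g q → car (q + 1) Λ.D c = c → c = 0 := by
      intro c hc hcar
      unfold Lad.Mg at hc
      rw [Lad.mem_Msp] at hc
      apply Λ.nolog c hcar
      · intro P hP
        have := hc.1 P hP
        rw [hb] at this
        simpa using this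
      · have := hc.2
        rw [hb] at this
        refine this.mono (le_of_eq ?_); push_cast; ring
    refine ⟨⟨?_⟩, ?_⟩
    · rintro ⟨a, ha, _, ha'⟩ ⟨b, hb, _, hb'⟩
      simp [hz a ha ha', hz b hb hb']
    · exact ⟨⟨0, zero_mem _, by simp, Λ.pb.car_zero⟩⟩
  rw [hlast, mul_one]
  have hmem : ∀ m ∈ Finset.range q, ∀ c : K, car (q + 1) Λ.D c = c →
      (c ∈ Λ.Mg g m ↔ c ∈ Λ.Msp (ind S) (Λ.gam - 1)) := by
    intro m hm c hc
    rw [Finset.mem_range] at hm
    have hb1 : ∀ D, 0 < D → 1 ≤ bnd (q + 1) D m := by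
      intro D hD
      unfold bnd
      rw [Nat.add_sub_cancel, Nat.le_div_iff_mul_le (by omega), one_mul]
      have : 1 * 1 ≤ (q - m) * D := Nat.mul_le_mul (by omega) hD
      omega
    have hb0 : bnd (q + 1) 0 m = 0 := by
      unfold bnd
      rw [mul_zero, zero_add]
      exact Nat.div_eq_of_lt (by omega)
    unfold Lad.Mg
    rw [Lad.mem_Msp, Lad.mem_Msp]
    constructor
    · rintro ⟨h1, h2⟩
      refine ⟨fun P hP => ?_, ?_⟩
      · by_cases hPS : P ∈ S
        · have := log_ge Λ.pb (Λ.fin_diff P hP) hc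
          simp only [ind, if_pos hPS]
          simpa using this
        · have h3 := h1 P hP
          have h4 : pole g P = 0 := by
            have : ¬ P.ord g < 0 := fun h => hPS ((hS P).mpr ⟨hP, h⟩)
            unfold pole; omega
          rw [h4, hb0] at h3
          simpa [ind, hPS] using h3
      · have := log_ge Λ.pb Λ.inf_diff hc
        refine this.mono (le_of_eq ?_); ring
    · rintro ⟨h1, h2⟩
      refine ⟨fun P hP => ?_, ?_⟩
      · have h3 := h1 P hP
        by_cases hPS : P ∈ S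
        · have h4 : 0 < pole g P := by
            have := ((hS P).mp hPS).2
            unfold pole; omega
          have h5 := hb1 _ h4
          refine h3.mono ?_
          simp only [ind, if_pos hPS]
          push_cast; omega
        · refine h3.mono ?_
          simp only [ind, if_neg hPS]
          push_cast; omega
      · have h4 : 0 < pole g Λ.inf := by
          unfold pole; rw [A.g_inf]; have := A.N_pos; omega
        have h5 := hb1 _ h4
        refine h2.mono ?_
        omega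
  have hstep : ∀ m ∈ Finset.range q, Nat.card {c : K // c ∈ Λ.Mg g m ∧
        Λ.sig c = ζ ^ (-1 - m * N : ℤ) • c ∧ car (q + 1) Λ.D c = c} =
      Nat.card {c : K // c ∈ Λ.Msp (ind S) (Λ.gam - 1) ∧
        Λ.sig c = ζ ^ (-1 - m * N : ℤ) • c ∧ car (q + 1) Λ.D c = c} := by
    intro m hm
    apply Nat.card_congr
    refine Equiv.subtypeEquivRight fun c => ?_
    constructor
    · rintro ⟨h1, h2, h3⟩; exact ⟨(hmem m hm c h3).mp h1, h2, h3⟩
    · rintro ⟨h1, h2, h3⟩; exact ⟨(hmem m hm c h3).mpr h1, h2, h3⟩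
  rw [Finset.prod_congr rfl hstep]
  have h1 := LogT_prod q N (by omega) hNc (fun e : ℤ => Nat.card {c : K //
      c ∈ Λ.Msp (ind S) (Λ.gam - 1) ∧
        Λ.sig c = ζ ^ e • c ∧ car (q + 1) Λ.D c = c}) (by
    intro e e' he
    obtain ⟨t, ht⟩ := he
    have : ζ ^ e = ζ ^ e' := by
      have : e = e' + q * t := by linarith
      rw [this, zpow_add₀ hζ0, zpow_mul, zpow_natCast, hζ.pow_eq_one, one_zpow, mul_one]
    simp only [this])
  refine h1.trans ?_
  have h2 := Λ.log_card_weights (by simpa using hζ) S hS' (fun a ha => LogT_stable A hζ0 S hS a ha)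
  simpa using h2

end ASD

end Pool.Agent.PRB
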