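import Pool.Agent.LibPRB.GF

/-! # The genus in terms of the space `regSp` -/

set_option autoImplicit false

namespace Pool.Agent.PRB

variable {p : ℕ} [Fact p.Prime] {k K : Type} [Field k] [IsAlgClosed k] [CharP k p] [Field K]
  [Algebra k K] {s : K} {D : Derivation k K K}

theorem Kah_D_term {M : Type*} [AddCommGroup M] [Module K M] [Module k M]
    [CharP K p] (E : Derivation k K M) (c x : K) (i : ℕ) :
    E (c ^ p * x ^ i) = (c ^ p * (i * x ^ (i - 1))) • E x := by
  rw [Derivation.leibniz, Derivation.leibniz_pow, Derivation.leibniz_pow]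
  have h0 : (p : ℕ) • c ^ (p - 1) • E c = 0 := by
    rw [← Nat.cast_smul_eq_nsmul K, CharP.cast_eq_zero, zero_smul]
  rw [h0, smul_zero, add_zero, ← Nat.cast_smul_eq_nsmul K, smul_smul, smul_smul]
  rw [mul_assoc]

theorem Kah_D_eq (h : GF p s D) (b : K) :
    KaehlerDifferential.D k K b = D b • KaehlerDifferential.D k K s := by
  have : CharP K p := charP_of_injective_algebraMap (algebraMap k K).injective p
  obtain ⟨c, rfl⟩ := h.pb.span b
  rw [map_sum, map_sum, Finset.sum_smul]
  apply Finset.sum_congr rfl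
  intro i _
  rw [Kah_D_term (p := p), Kah_D_term (p := p) D, h.pb.D_s, smul_eq_mul, mul_one]

/-- Every differential is a multiple of `ds`, and `a ds ↔ a`, `db ↔ D b`. -/
theorem exists_kaehler_equiv (h : GF p s D) :
    ∃ e : Ω[K⁄k] ≃ₗ[K] K, ∀ b : K, e (KaehlerDifferential.D k K b) = D b := by
  refine ⟨LinearEquiv.ofLinear D.liftKaehlerDifferential
    (LinearMap.toSpanSingleton K _ (KaehlerDifferential.D k K s)) ?_ ?_, ?_⟩
  · ext
    simp [h.pb.D_s]
  · apply LinearMap.ext_on (KaehlerDifferential.span_range_derivation k K)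
    rintro _ ⟨b, rfl⟩
    simp only [LinearMap.comp_apply, Derivation.liftKaehlerDifferential_comp_D,
      LinearMap.toSpanSingleton_apply, LinearMap.id_apply]
    exact (Kah_D_eq h b).symm
  · intro b
    simp

theorem Kah_mem_iff (h : GF p s D) (e : Ω[K⁄k] ≃ₗ[K] K)
    (he : ∀ b : K, e (KaehlerDifferential.D k K b) = D b) (ω : Ω[K⁄k]) :
    ω ∈ regularDifferentials k K ↔ e ω ∈ regSp D := by
  constructor
  · intro hω P δ hδ
    have h1 : RegularAt P.ring ω := hω ⟨P.ring, P.isPl⟩
    unfold RegularAt at h1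
    refine AddSubgroup.closure_induction (p := fun ω _ => P.ge (-δ) (e ω)) ?_ ?_ ?_ ?_ h1
    · rintro _ ⟨a, ha, b, hb, rfl⟩
      rw [map_smul, he, smul_eq_mul]
      have := P.ge_mul (P.mem_ring.1 ha) (hδ.1 b (P.mem_ring.1 hb))
      rwa [zero_add] at this
    · rw [map_zero]; exact P.ge_zero _
    · intro x y _ _ hx hy
      rw [map_add]; exact P.ge_add hx hy
    · intro x _ hx
      rw [map_neg]; exact P.ge_neg hx
  · intro hω
    rintro ⟨O, hO⟩
    obtain ⟨P, rfl⟩ := h.disc O hO
    obtain ⟨δ, hδ⟩ := h.diff P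
    have h1 := hω P δ hδ
    obtain ⟨π, hπ, hπ1, hDπ, hDπ1⟩ := hδ.2
    apply AddSubgroup.subset_closure
    refine ⟨e ω / D π, ?_, π, ?_, ?_⟩
    · rw [P.mem_ring]
      by_cases h0 : e ω = 0
      · left; rw [h0, zero_div]
      · right
        rw [P.ge_iff h0] at h1
        rw [P.ord_div h0 hDπ, hDπ1]
        linarith
    · rw [P.mem_ring]
      right
      rw [hπ1]; norm_num
    · apply e.injective
      rw [map_smul, he, smul_eq_mul, div_mul_cancel₀ _ hDπ]

theorem genus_eq (h : GF p s D) : genus k K = Module.finrank k (regSp D) := by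
  obtain ⟨e, he⟩ := exists_kaehler_equiv h
  unfold genus
  have h1 : regSp D = (regularDifferentials k K).map
      ((e.restrictScalars k : Ω[K⁄k] ≃ₗ[k] K) : Ω[K⁄k] →ₗ[k] K) := by
    ext a
    rw [Submodule.mem_map]
    constructor
    · intro ha
      refine ⟨e.symm a, ?_, by simp⟩
      rw [Kah_mem_iff h e he]
      simpa using ha
    · rintro ⟨ω, hω, rfl⟩
      exact (Kah_mem_iff h e he ω).1 hω
  rw [h1]
  exact (LinearEquiv.finrank_map_eq (e.restrictScalars k) _).symm

end Pool.Agent.PRB
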