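import Pool.Agent.LibPRB.PBa

/-! # The quotient by an automorphism of order `p - 1`: the derivation -/

set_option autoImplicit false

namespace Pool.Agent.PRB

variable {p : ℕ} [Fact p.Prime] {k X Y : Type} [Field k] [IsAlgClosed k] [CharP k p]
  [Field X] [Field Y] [Algebra k X] [Algebra k Y] [Algebra X Y] [IsScalarTower k X Y]

omit [IsAlgClosed k] [CharP k p] [Fact p.Prime] in
theorem Tame2_DX {s : Y} {D : Derivation k Y Y} (hs : s ≠ 0) (n : ℕ)
    (hb : ∀ a : X, ∃ b : X, algebraMap X Y b * s ^ n = - D (algebraMap X Y a)) :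
    ∃ DX : Derivation k X X, ∀ a : X, algebraMap X Y (DX a) * s ^ n = - D (algebraMap X Y a) := by
  choose f hf using hb
  have hsn : s ^ n ≠ 0 := pow_ne_zero _ hs
  have hinj : Function.Injective (algebraMap X Y) := (algebraMap X Y).injective
  have key : ∀ u v : X, algebraMap X Y u * s ^ n = algebraMap X Y v * s ^ n → u = v := by
    intro u v huv
    exact hinj (mul_right_cancel₀ hsn huv)
  refine ⟨Derivation.mk' ⟨⟨f, ?_⟩, ?_⟩ ?_, fun a => hf a⟩
  · intro x y
    apply key
    rw [hf, map_add, map_add, map_add, add_mul, hf, hf]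
    ring
  · intro c x
    apply key
    change algebraMap X Y (f (c • x)) * s ^ n = algebraMap X Y (c • f x) * s ^ n
    have hsm : ∀ (c : k) (x : X), algebraMap X Y (c • x) = c • algebraMap X Y x :=
      fun c x => map_smul (IsScalarTower.toAlgHom k X Y) c x
    rw [hf, hsm, hsm, Derivation.map_smul, smul_mul_assoc, hf, smul_neg]
  · intro a b
    apply key
    change algebraMap X Y (f (a * b)) * s ^ n = algebraMap X Y (a • f b + b • f a) * s ^ n
    rw [hf, map_mul, Derivation.leibniz, map_add, smul_eq_mul, smul_eq_mul, smul_eq_mul,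
      smul_eq_mul, map_mul, map_mul, add_mul, mul_assoc, mul_assoc, hf, hf]
    ring

/-- `s ^ (p-1)` is a `p`-basis of the fixed field `X`, with derivation
`D_X = -s^(-(p-2)) d/ds`. -/
theorem tame_deriv {s : Y} {D : Derivation k Y Y} (h : PB p s D) (ζ : k)
    (hζ : IsPrimitiveRoot ζ (p - 1)) (σ : Y →ₐ[k] Y) (hσs : σ s = ζ • s)
    (hσD : ∀ a, D (σ a) = ζ • σ (D a))
    (hX : ∀ a : Y, (∃ b : X, algebraMap X Y b = a) ↔ σ a = a) :
    ∃ (sX : X) (DX : Derivation k X X), algebraMap X Y sX = s ^ (p - 1) ∧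
      (∀ a : X, algebraMap X Y (DX a) * s ^ (p - 2) = - D (algebraMap X Y a)) ∧
      PB p sX DX := by
  classical
  have hp : p.Prime := Fact.out
  have hp2 : 2 ≤ p := hp.two_le
  have : CharP Y p := charP_of_injective_algebraMap (algebraMap k Y).injective p
  have : CharP X p := charP_of_injective_algebraMap (algebraMap k X).injective p
  have hs : s ≠ 0 := by
    intro h0
    have := h.D_s
    rw [h0, map_zero] at this
    exact zero_ne_one this
  -- the image of ζ in Y
  set z : Y := algebraMap k Y ζ with hz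
  have hζ1 : ζ ^ (p - 1) = 1 := hζ.pow_eq_one
  have hz1 : z ^ (p - 1) = 1 := by rw [hz, ← map_pow, hζ1, map_one]
  have hz0 : z ≠ 0 := by
    intro h0
    rw [h0, zero_pow (by omega)] at hz1
    exact zero_ne_one hz1
  have hzp : z ^ p = z := by
    calc z ^ p = z ^ ((p - 1) + 1) := by rw [show p - 1 + 1 = p by omega]
      _ = z := by rw [pow_succ, hz1, one_mul]
  have hσz : σ z = z := by rw [hz]; exact σ.commutes ζ
  have hσs' : σ s = z * s := by rw [hσs, Algebra.smul_def]
  have hσD' : ∀ a, D (σ a) = z * σ (D a) := by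
    intro a; rw [hσD, Algebra.smul_def]
  -- s ^ (p - 1) is fixed
  have hfix1 : σ (s ^ (p - 1)) = s ^ (p - 1) := by
    rw [map_pow, hσs', mul_pow, hz1, one_mul]
  obtain ⟨sX, hsX⟩ := (hX _).2 hfix1
  have hσX : ∀ a : X, σ (algebraMap X Y a) = algebraMap X Y a := fun a => (hX _).1 ⟨a, rfl⟩
  have hb : ∀ a : X, ∃ b : X, algebraMap X Y b * s ^ (p - 2) = - D (algebraMap X Y a) := by
    intro a
    have hfix : σ (- D (algebraMap X Y a) / s ^ (p - 2)) = - D (algebraMap X Y a) / s ^ (p - 2) := by
      rw [map_div₀, map_neg, map_pow, hσs']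
      have h1 : D (algebraMap X Y a) = z * σ (D (algebraMap X Y a)) := by
        rw [← hσD', hσX]
      have h2 : σ (D (algebraMap X Y a)) = D (algebraMap X Y a) / z := by
        rw [eq_div_iff hz0, mul_comm, ← h1]
      rw [h2, mul_pow]
      have h3 : z * z ^ (p - 2) = 1 := by
        rw [← pow_succ', show p - 2 + 1 = p - 1 by omega, hz1]
      have hs2 : s ^ (p - 2) ≠ 0 := pow_ne_zero _ hs
      have hz2 : z ^ (p - 2) ≠ 0 := pow_ne_zero _ hz0
      rw [← neg_div, div_div, ← mul_assoc, h3, one_mul]
    obtain ⟨b, hb⟩ := (hX _).2 hfix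
    refine ⟨b, ?_⟩
    rw [hb, div_mul_cancel₀ _ (pow_ne_zero _ hs)]
  obtain ⟨DX, hDX⟩ := Tame2_DX hs (p - 2) hb
  refine ⟨sX, DX, hsX, hDX, ?_, ?_⟩
  · -- DX sX = 1
    apply (algebraMap X Y).injective
    apply mul_right_cancel₀ (pow_ne_zero (p - 2) hs)
    rw [hDX, hsX, Derivation.leibniz_pow, h.D_s, map_one, one_mul]
    rw [show p - 1 - 1 = p - 2 by omega]
    rw [smul_eq_mul, mul_one, nsmul_eq_mul, Nat.cast_sub (by omega), CharP.cast_eq_zero]
    ring
  · intro a
    obtain ⟨c, hc⟩ := h.span (algebraMap X Y a)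
    have hinv : ∀ j < p, σ (c j) * z ^ j = c j := by
      apply h.unique
      have h1 := hσX a
      rw [hc, map_sum] at h1
      rw [← h1]
      refine Finset.sum_congr rfl fun i _ => ?_
      rw [map_mul, map_pow, map_pow, hσs', mul_pow, mul_pow, ← pow_mul, mul_comm i p, pow_mul, hzp,
        mul_assoc]
    -- the coefficients
    have hd : ∀ i, ∃ d : X, i < p → algebraMap X Y d =
        if i = 0 then c 0 else c (p - i) / s ^ (i - 1) := by
      intro i
      by_cases hi : i < p
      · by_cases hi0 : i = 0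
        · subst hi0
          have h0 := hinv 0 hp.pos
          rw [pow_zero, mul_one] at h0
          obtain ⟨b, hb⟩ := (hX _).2 h0
          exact ⟨b, fun _ => by rw [if_pos rfl, hb]⟩
        · have hj := hinv (p - i) (by omega)
          have hfix : σ (c (p - i) / s ^ (i - 1)) = c (p - i) / s ^ (i - 1) := by
            rw [map_div₀, map_pow, hσs', mul_pow]
            have hne : z ^ (p - i) ≠ 0 := pow_ne_zero _ hz0
            have h2 : σ (c (p - i)) = c (p - i) / z ^ (p - i) := by
              rw [eq_div_iff hne, hj]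
            rw [h2, div_div, ← mul_assoc, ← pow_add, show p - i + (i - 1) = p - 1 by omega, hz1,
              one_mul]
          obtain ⟨b, hb⟩ := (hX _).2 hfix
          exact ⟨b, fun _ => by rw [if_neg hi0, hb]⟩
      · exact ⟨0, fun h => absurd h hi⟩
    choose d hd using hd
    refine ⟨d, ?_⟩
    apply (algebraMap X Y).injective
    rw [hc, map_sum]
    have e1 : Finset.range p = Finset.range ((p - 1) + 1) := by
      rw [show p - 1 + 1 = p by omega]
    rw [e1, Finset.sum_range_succ', Finset.sum_range_succ']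
    congr 1
    · -- reflect
      rw [← Finset.sum_range_reflect]
      refine Finset.sum_congr rfl fun i hi => ?_
      have hi' : i < p - 1 := Finset.mem_range.1 hi
      rw [map_mul, map_pow, map_pow, hsX, hd (i + 1) (by omega), if_neg (by omega),
        show p - 1 - 1 - i + 1 = p - (i + 1) by omega, show i + 1 - 1 = i by omega, div_pow,
        ← pow_mul, ← pow_mul]
      have hsi : s ^ (i * p) ≠ 0 := pow_ne_zero _ hs
      have h3 : s ^ ((p - 1) * (i + 1)) = s ^ (i * p) * s ^ (p - (i + 1)) := by
        rw [← pow_add]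
        congr 1
        obtain ⟨q, rfl⟩ : ∃ q, p = q + 1 := ⟨p - 1, by omega⟩
        have : q + 1 - (i + 1) = q - i := by omega
        rw [this]
        have : i ≤ q := by omega
        obtain ⟨r, rfl⟩ := Nat.exists_eq_add_of_le this
        simp only [Nat.add_sub_cancel, Nat.add_sub_cancel_left]
        ring
      rw [h3, ← mul_assoc, div_mul_cancel₀ _ hsi]
    · rw [map_mul, map_pow, map_pow, hd 0 hp.pos, if_pos rfl, pow_zero, pow_zero]

end Pool.Agent.PRB
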