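import Pool.Agent.LibPRB.Jac

/-! # The quotient by an automorphism of order `p - 1`: logarithmic differentials -/

set_option autoImplicit false

namespace Pool.Agent.PRB

variable {p : ℕ} [Fact p.Prime] {k X Y : Type} [Field k] [IsAlgClosed k] [CharP k p]
  [Field X] [Field Y] [Algebra k X] [Algebra k Y] [Algebra X Y] [IsScalarTower k X Y]

omit [IsAlgClosed k] [CharP k p] [Fact p.Prime] in
private theorem TameL_deriv_prod (D : Derivation k Y Y) (b : Y) (f : ℕ → Y)
    (hf : ∀ i, D (f i) = b * f i) (n : ℕ) :
    D (∏ i ∈ Finset.range n, f i) = (n : Y) * b * ∏ i ∈ Finset.range n, f i := by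
  induction n with
  | zero => simp
  | succ n ih =>
    rw [Finset.prod_range_succ, Derivation.leibniz, ih, hf, smul_eq_mul, smul_eq_mul]
    push_cast
    ring

/-- Comparison of the logarithmic differentials of `X` and `Y`. -/
theorem tame_log {s : Y} {D : Derivation k Y Y} (h : PB p s D) (ζ : k)
    (hζ : IsPrimitiveRoot ζ (p - 1)) (σ : Y →ₐ[k] Y) (hσs : σ s = ζ • s)
    (hσD : ∀ a, D (σ a) = ζ • σ (D a)) (hσN : ∀ a, σ^[p - 1] a = a)
    (hX : ∀ a : Y, (∃ b : X, algebraMap X Y b = a) ↔ σ a = a)
    (sX : X) (DX : Derivation k X X)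
    (hDX : ∀ a : X, algebraMap X Y (DX a) * s ^ (p - 2) = - D (algebraMap X Y a))
    (hsX : PB p sX DX) (a : X) :
    car p DX a = a ↔
      car p D (-(algebraMap X Y a * s ^ (p - 2))) = -(algebraMap X Y a * s ^ (p - 2)) := by
  have : CharP Y p := charP_of_injective_algebraMap (algebraMap k Y).injective p
  have : CharP X p := charP_of_injective_algebraMap (algebraMap k X).injective p
  have hp2 : 2 ≤ p := (Fact.out : p.Prime).two_le
  have hs : s ≠ 0 := by
    rintro rfl
    have := h.D_s
    rw [map_zero] at this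
    exact zero_ne_one this
  rw [← hsX.log_iff, ← h.log_iff]
  set b : Y := -(algebraMap X Y a * s ^ (p - 2)) with hb
  constructor
  · rintro ⟨y, hy, hDy⟩
    refine ⟨algebraMap X Y y, by simpa using hy, ?_⟩
    have h1 := hDX y
    rw [hDy, map_mul] at h1
    rw [hb]
    linear_combination h1
  · rintro ⟨y, hy, hDy⟩
    have hσb : ζ • σ b = b := by
      have h1 : σ (algebraMap X Y a) = algebraMap X Y a := (hX _).1 ⟨a, rfl⟩
      have h2 : ζ ^ (p - 2) * ζ = 1 := by
        rw [← pow_succ, show p - 2 + 1 = p - 1 by omega]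
        exact hζ.pow_eq_one
      have h3 : algebraMap k Y ζ * algebraMap k Y ζ ^ (p - 2) = 1 := by
        rw [← map_pow, ← map_mul, mul_comm, h2, map_one]
      rw [hb, map_neg, map_mul, map_pow, h1, hσs, Algebra.smul_def, Algebra.smul_def, mul_pow]
      linear_combination -(algebraMap X Y a * s ^ (p - 2)) * h3
    have hDi : ∀ i : ℕ, D (σ^[i] y) = b * σ^[i] y := by
      intro i
      induction i with
      | zero => exact hDy
      | succ i ih =>
        rw [Function.iterate_succ_apply', hσD, ih, map_mul]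
        rw [← smul_mul_assoc, hσb]
    set N : Y := ∏ i ∈ Finset.range (p - 1), σ^[i] y with hN
    have hyi : ∀ i : ℕ, σ^[i] y ≠ 0 := by
      intro i
      induction i with
      | zero => exact hy
      | succ i ih =>
        rw [Function.iterate_succ_apply']
        exact (map_ne_zero σ).2 ih
    have hN0 : N ≠ 0 := Finset.prod_ne_zero_iff.2 fun i _ => hyi i
    have hDN : D N = -b * N := by
      rw [hN, TameL_deriv_prod D b (fun i => σ^[i] y) hDi (p - 1)]
      have : ((p - 1 : ℕ) : Y) = -1 := by
        rw [Nat.cast_sub (by omega), CharP.cast_eq_zero]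
        simp
      rw [this]
      ring
    have hσN' : σ N = N := by
      have h1 : σ N = ∏ i ∈ Finset.range (p - 1), σ^[i + 1] y := by
        rw [hN, map_prod]
        refine Finset.prod_congr rfl fun i _ => ?_
        rw [Function.iterate_succ_apply']
      have h2 : (∏ i ∈ Finset.range (p - 1), σ^[i + 1] y) * σ^[0] y =
          (∏ i ∈ Finset.range (p - 1), σ^[i] y) * σ^[p - 1] y := by
        rw [← Finset.prod_range_succ]
        exact (Finset.prod_range_succ' (fun i => σ^[i] y) (p - 1)).symm
      rw [hσN, ← h1, ← hN] at h2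
      exact mul_right_cancel₀ hy h2
    have hDNi : D N⁻¹ = b * N⁻¹ := by
      have h1 : D (N * N⁻¹) = 0 := by
        rw [mul_inv_cancel₀ hN0]
        simp
      rw [Derivation.leibniz, hDN, smul_eq_mul, smul_eq_mul] at h1
      have h2 : N * D N⁻¹ = N * (b * N⁻¹) := by
        linear_combination h1
      exact mul_left_cancel₀ hN0 h2
    obtain ⟨x, hx⟩ := (hX N⁻¹).2 (by rw [map_inv₀, hσN'])
    refine ⟨x, ?_, ?_⟩
    · rintro rfl
      rw [map_zero] at hx
      exact inv_ne_zero hN0 hx.symm
    · apply (algebraMap X Y).injective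
      apply mul_right_cancel₀ (pow_ne_zero (p - 2) hs)
      rw [hDX, hx, hDNi, map_mul, hx, hb]
      ring

end Pool.Agent.PRB
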