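import Pool.Agent.LibPRB.TameD
import Pool.Agent.LibPRB.Tame2
import Pool.Agent.LibPRB.TameL
import Pool.Agent.LibPRB.Kah
import Pool.Agent.LibPRB.Cls

/-! # The quotient by an automorphism of order `p - 1`: genus and `p`-rank -/

set_option autoImplicit false

namespace Pool.Agent.PRB

variable {p : ℕ} [Fact p.Prime] {k X Y : Type} [Field k] [IsAlgClosed k] [CharP k p]
  [Field X] [Field Y] [Algebra k X] [Algebra k Y] [Algebra X Y] [IsScalarTower k X Y]

theorem Tame3_gf {s : Y} {D : Derivation k Y Y} (h : GF p s D)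
    (htame : ∀ Q : Plc k Y, ∃ f : X, ¬ (p : ℤ) ∣ Q.ord (algebraMap X Y f)) (hs : s ≠ 0)
    (sX : X) (DX : Derivation k X X)
    (hDX : ∀ a : X, algebraMap X Y (DX a) * s ^ (p - 2) = - D (algebraMap X Y a))
    (hpb : PB p sX DX) : GF p sX DX where
  pb := hpb
  disc := fun O hO => by
    obtain ⟨P, _, _, hP, _⟩ := tame_disc h.disc htame O hO
    exact ⟨P, hP⟩
  diff := fun P => by
    obtain ⟨Q, e, hQP⟩ := tame_exists_over h.disc htame P
    obtain ⟨δ, hδ⟩ := h.diff Q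
    obtain ⟨δX, hX, _⟩ := tame_diff hs DX hDX Q P e hQP δ hδ
    exact ⟨δX, hX⟩
  fsupp := fun a ha => tame_fsupp h.disc htame h.fsupp a ha

theorem Tame3_reg {s : Y} {D : Derivation k Y Y} (h : GF p s D)
    (htame : ∀ Q : Plc k Y, ∃ f : X, ¬ (p : ℤ) ∣ Q.ord (algebraMap X Y f)) (hs : s ≠ 0)
    (DX : Derivation k X X)
    (hDX : ∀ a : X, algebraMap X Y (DX a) * s ^ (p - 2) = - D (algebraMap X Y a)) (a : X) :
    a ∈ regSp DX ↔ -(algebraMap X Y a * s ^ (p - 2)) ∈ regSp D := by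
  constructor
  · intro ha Q δ hδ
    obtain ⟨P, e, hQP⟩ := tame_restrict Q (htame Q)
    obtain ⟨δX, hX, hiff⟩ := tame_diff hs DX hDX Q P e hQP δ hδ
    exact (hiff a).mp (ha P δX hX)
  · intro ha P δX' hX'
    obtain ⟨Q, e, hQP⟩ := tame_exists_over h.disc htame P
    obtain ⟨δ, hδ⟩ := h.diff Q
    obtain ⟨δX, hX, hiff⟩ := tame_diff hs DX hDX Q P e hQP δ hδ
    rw [hX'.unique hX]
    exact (hiff a).mpr (ha Q δ hδ)

theorem Tame3_zeta (ζ : k) (hζ : IsPrimitiveRoot ζ (p - 1)) : ζ ^ (p - 2) = ζ⁻¹ := by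
  have hp := (Fact.out : p.Prime).two_le
  have hζ0 : ζ ≠ 0 := by
    intro h0
    have h1 := hζ.pow_eq_one
    rw [h0, zero_pow (by omega)] at h1
    exact zero_ne_one h1
  have h2 : ζ ^ (p - 2) * ζ = 1 := by
    rw [← pow_succ, show p - 2 + 1 = p - 1 by omega, hζ.pow_eq_one]
  exact eq_inv_of_mul_eq_one_left h2

/-- Genus and `p`-torsion of the quotient of `Y` by `σ`. -/
theorem tame_main {s : Y} {D : Derivation k Y Y} (h : GF p s D) (ζ : k)
    (hζ : IsPrimitiveRoot ζ (p - 1)) (σ : Y →ₐ[k] Y) (hσs : σ s = ζ • s)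
    (hσD : ∀ a, D (σ a) = ζ • σ (D a)) (hσN : ∀ a, σ^[p - 1] a = a)
    (hX : ∀ a : Y, (∃ b : X, algebraMap X Y b = a) ↔ σ a = a)
    (htame : ∀ Q : Plc k Y, ∃ f : X, ¬ (p : ℤ) ∣ Q.ord (algebraMap X Y f)) :
    genus k X = Module.finrank k (regSp D ⊓ wtSp σ ζ⁻¹ : Submodule k Y) ∧
    Nat.card {c : DivClass k X // c ^ p = 1} =
      Nat.card {a : Y // a ∈ regSp D ∧ σ a = ζ⁻¹ • a ∧ car p D a = a} := by
  have hs : s ≠ 0 := by
    intro h0
    have h1 := h.pb.D_s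
    rw [h0, map_zero] at h1
    exact zero_ne_one h1
  have hsp : s ^ (p - 2) ≠ 0 := pow_ne_zero _ hs
  obtain ⟨sX, DX, _, hDX, hpb⟩ := tame_deriv (X := X) h.pb ζ hζ σ hσs hσD hX
  have hG : GF p sX DX := Tame3_gf h htame hs sX DX hDX hpb
  have hreg := Tame3_reg h htame hs DX hDX
  have hσsp : σ (s ^ (p - 2)) = ζ⁻¹ • s ^ (p - 2) := by
    rw [map_pow, hσs, smul_pow, Tame3_zeta ζ hζ]
  have hζ0 : ζ⁻¹ ≠ 0 := by
    rw [← Tame3_zeta ζ hζ]
    have hp := (Fact.out : p.Prime).two_le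
    refine pow_ne_zero _ ?_
    intro h0
    have h1 := hζ.pow_eq_one
    rw [h0, zero_pow (by omega)] at h1
    exact zero_ne_one h1
  have hwt : ∀ a : X, σ (-(algebraMap X Y a * s ^ (p - 2))) =
      ζ⁻¹ • (-(algebraMap X Y a * s ^ (p - 2))) := by
    intro a
    rw [map_neg, map_mul, (hX _).mp ⟨a, rfl⟩, hσsp, mul_smul_comm, smul_neg]
  have hinj : ∀ a b : X, -(algebraMap X Y a * s ^ (p - 2)) = -(algebraMap X Y b * s ^ (p - 2)) →
      a = b := by
    intro a b hab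
    exact (algebraMap X Y).injective (mul_right_cancel₀ hsp (neg_injective hab))
  have hsurj : ∀ b : Y, σ b = ζ⁻¹ • b → ∃ a : X, -(algebraMap X Y a * s ^ (p - 2)) = b := by
    intro b hb
    have h2 : σ (-(b / s ^ (p - 2))) = -(b / s ^ (p - 2)) := by
      rw [map_neg, map_div₀, hb, hσsp]
      congr 1
      rw [Algebra.smul_def, Algebra.smul_def,
        mul_div_mul_left _ _ (by rw [Ne, FaithfulSMul.algebraMap_eq_zero_iff]; exact hζ0)]
    obtain ⟨a, ha⟩ := (hX _).mpr h2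
    refine ⟨a, ?_⟩
    rw [ha]
    field_simp
  constructor
  · rw [genus_eq hG]
    refine LinearEquiv.finrank_eq ?_
    refine LinearEquiv.ofBijective
      { toFun := fun a => ⟨-(algebraMap X Y a.1 * s ^ (p - 2)), (hreg a.1).mp a.2, hwt a.1⟩
        map_add' := fun a b => Subtype.ext (by
          change -(algebraMap X Y (a.1 + b.1) * s ^ (p - 2)) =
            -(algebraMap X Y a.1 * s ^ (p - 2)) + -(algebraMap X Y b.1 * s ^ (p - 2))
          rw [map_add]; ring)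
        map_smul' := fun c a => Subtype.ext (by
          change -(algebraMap X Y (c • a.1) * s ^ (p - 2)) =
            c • (-(algebraMap X Y a.1 * s ^ (p - 2)))
          rw [Algebra.smul_def, Algebra.smul_def, map_mul, ← IsScalarTower.algebraMap_apply]
          ring) } ⟨?_, ?_⟩
    · intro a b hab
      exact Subtype.ext (hinj _ _ (congrArg Subtype.val hab))
    · rintro ⟨b, hb1, hb2⟩
      obtain ⟨a, ha⟩ := hsurj b hb2
      exact ⟨⟨a, (hreg a).mpr (ha ▸ hb1)⟩, Subtype.ext ha⟩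
  · rw [card_torsion hG]
    refine Nat.card_congr (Equiv.ofBijective
      (fun a => ⟨-(algebraMap X Y a.1 * s ^ (p - 2)), (hreg a.1).mp a.2.1, hwt a.1,
        (tame_log h.pb ζ hζ σ hσs hσD hσN hX sX DX hDX hpb a.1).mp a.2.2⟩) ⟨?_, ?_⟩)
    · intro a b hab
      exact Subtype.ext (hinj _ _ (congrArg Subtype.val hab))
    · rintro ⟨b, hb1, hb2, hb3⟩
      obtain ⟨a, ha⟩ := hsurj b hb2
      exact ⟨⟨a, (hreg a).mpr (ha ▸ hb1),
        (tame_log h.pb ζ hζ σ hσs hσD hσN hX sX DX hDX hpb a).mpr (ha ▸ hb3)⟩, Subtype.ext ha⟩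

end Pool.Agent.PRB
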