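import Pool.Agent.LibPRB.ASDp
import Pool.Agent.LibPRB.ASDw
import Pool.Agent.LibPRB.LadW

/-! # Tameness of the quotient -/

set_option autoImplicit false

namespace Pool.Agent.PRB

private theorem TameQ_not_dvd_pred {p : ℕ} [Fact p.Prime] : ¬ (p : ℤ) ∣ ((p - 1 : ℕ) : ℤ) := by
  intro h
  have hp2 : 2 ≤ p := (Fact.out : p.Prime).two_le
  have h1 : p ∣ p - 1 := by exact_mod_cast h
  have := Nat.le_of_dvd (by omega) h1
  omega

private theorem TameQ_base {p : ℕ} [Fact p.Prime] {k : Type} [Field k] [IsAlgClosed k]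
    [CharP k p] {ζ : k} {K : Type} [Field K] [Algebra k K] (Λ : Lad p ζ K)
    (hζ : IsPrimitiveRoot ζ (p - 1)) (P : Plc k K) (hP : P ≠ Λ.inf) :
    ∃ f : K, Λ.sig f = f ∧ ¬ (p : ℤ) ∣ P.ord f := by
  have hp2 : 2 ≤ p := (Fact.out : p.Prime).two_le
  have hsig : Λ.sig (Λ.s ^ (p - 1)) = Λ.s ^ (p - 1) := by
    rw [map_pow, Λ.sig_s, Algebra.smul_def, mul_pow, ← map_pow, hζ.pow_eq_one, map_one, one_mul]
  by_cases hc : P.val Λ.s = 0
  · obtain ⟨-, h1⟩ := Λ.ord_s P hP 0 hc
    rw [map_zero, sub_zero] at h1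
    refine ⟨Λ.s ^ (p - 1), hsig, ?_⟩
    rw [P.ord_pow, h1, mul_one]
    exact TameQ_not_dvd_pred
  · obtain ⟨h0, h1⟩ := Λ.ord_s P hP _ rfl
    set c := P.val Λ.s with hcdef
    have hs0 : P.ge 0 Λ.s := Λ.fin_s P hP
    refine ⟨Λ.s ^ (p - 1) - algebraMap k K (c ^ (p - 1)), ?_, ?_⟩
    · rw [map_sub, hsig, AlgHom.commutes]
    · set G : K := ∑ i ∈ Finset.range (p - 1),
        Λ.s ^ i * algebraMap k K c ^ (p - 1 - 1 - i) with hG
      have hprod : Λ.s ^ (p - 1) - algebraMap k K (c ^ (p - 1)) =
          G * (Λ.s - algebraMap k K c) := by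
        rw [hG, (Commute.all _ _).geom_sum₂_mul, map_pow]
      have hG1 : P.ge 1 (G - algebraMap k K (-(c ^ (p - 2)))) := by
        have h2 : algebraMap k K (-(c ^ (p - 2))) = ∑ i ∈ Finset.range (p - 1),
            algebraMap k K c ^ i * algebraMap k K c ^ (p - 1 - 1 - i) := by
          have h3 : ∀ i ∈ Finset.range (p - 1),
              algebraMap k K c ^ i * algebraMap k K c ^ (p - 1 - 1 - i) =
                algebraMap k K c ^ (p - 2) := by
            intro i hi
            rw [Finset.mem_range] at hi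
            rw [← pow_add]
            congr 1
            omega
          rw [Finset.sum_congr rfl h3, Finset.sum_const, Finset.card_range, nsmul_eq_mul]
          have h4 : ((p - 1 : ℕ) : k) = -1 := by
            rw [Nat.cast_sub (by omega), CharP.cast_eq_zero]
            simp
          have h5 : ((p - 1 : ℕ) : K) = -1 := by
            have := congrArg (algebraMap k K) h4
            rwa [map_natCast, map_neg, map_one] at this
          rw [h5, map_neg, map_pow]
          ring
        rw [h2, hG, ← Finset.sum_sub_distrib]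
        apply P.ge_sum
        intro i _
        rw [← sub_mul]
        have h3 : P.ge 1 (Λ.s ^ i - algebraMap k K c ^ i) := by
          have h4 : P.ge 0 (Λ.s ^ i) := by
            simpa using P.ge_pow hs0 i
          have := P.val_spec h4
          rwa [P.val_pow hs0, map_pow] at this
        have h4 : P.ge 0 (algebraMap k K c ^ (p - 1 - 1 - i)) := by
          rw [← map_pow]
          exact P.ge_const _
        simpa using P.ge_mul h3 h4
      have hconst : algebraMap k K (-(c ^ (p - 2))) ≠ 0 := by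
        simpa using pow_ne_zero (p - 2) hc
      have h2 := P.ord_add_eq hconst (b := G - algebraMap k K (-(c ^ (p - 2))))
        (by rw [P.ord_const]; simpa using hG1)
      rw [add_sub_cancel, P.ord_const] at h2
      rw [hprod, P.ord_mul h2.1 h0, h2.2, h1]
      intro h3
      have h4 : (p : ℤ) ∣ 1 := by simpa using h3
      have h5 := Int.le_of_dvd one_pos h4
      omega

/-- At each place of `L` some `sig`-invariant function has order prime to `p`. -/
theorem ASD.exists_tame {p : ℕ} [Fact p.Prime] {k : Type} [Field k] [IsAlgClosed k] [CharP k p]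
    {ζ : k} {K : Type} [Field K] [Algebra k K] {Λ : Lad p ζ K} {g : K} {N : ℕ}
    {L : Type} [Field L] [Algebra k L] [Algebra K L] [IsScalarTower k K L] {z : L}
    (A : ASD Λ g N L z) (hζ : IsPrimitiveRoot ζ (p - 1)) (Q : Plc k L) :
    ∃ f : L, A.sig f = f ∧ ¬ (p : ℤ) ∣ Q.ord f := by
  obtain ⟨P, ⟨hg, hQ⟩ | ⟨hg, -, hz⟩⟩ := A.exists_under Q
  · have hP : P ≠ Λ.inf := by
      rintro rfl
      have hN := A.N_pos
      have h1 := A.g_inf
      rcases hg with h0 | h0
      · rw [h0, Λ.inf.ord_zero] at h1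
        omega
      · omega
    obtain ⟨f, hf, hfp⟩ := TameQ_base Λ hζ P hP
    refine ⟨algebraMap K L f, ?_, ?_⟩
    · rw [A.sig_alg, hf]
    · rw [hQ f]
      exact hfp
  · refine ⟨z ^ (p - 1), ?_, ?_⟩
    · rw [map_pow, A.sig_z, Algebra.smul_def, mul_pow, ← map_pow, ← pow_mul, mul_comm N,
        pow_mul, hζ.pow_eq_one, one_pow, map_one, one_mul]
    · rw [Q.ord_pow, hz]
      intro h
      have hp : Prime (p : ℤ) := Nat.prime_iff_prime_int.1 Fact.out
      rcases hp.dvd_or_dvd h with h1 | h1
      · exact TameQ_not_dvd_pred h1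
      · rcases A.g_pl P with h2 | h2
        · rcases h2 with h2 | h2
          · rw [h2, P.ord_zero] at hg
            omega
          · omega
        · exact h2.2 h1

end Pool.Agent.PRB
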