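import Pool.Agent.LibPRB.Fixed
import Pool.Agent.LibPRB.TameQ
import Pool.Agent.LibPRB.Tame3
import Pool.Agent.LibPRB.LogT
import Pool.Agent.LibPRB.ASDd
import Pool.Agent.LibPRB.ASDf
import Pool.Agent.LibPRB.ASDex
import Pool.Agent.LibPRB.DimU

/-! # The quotient of the Artin–Schreier extension by `sig` -/

set_option autoImplicit false

namespace Pool.Agent.PRB

/-- A function with a pole is transcendental. -/
theorem Quot_transc {k F : Type} [Field k] [IsAlgClosed k] [Field F] [Algebra k F] (Q : Plc k F)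
    (x : F) (hx : Q.ord x < 0) : Transcendental k x := by
  intro halg
  have hint : IsIntegral k x := halg.isIntegral
  have h1 := IsAlgClosed.degree_eq_one_of_irreducible k (minpoly.irreducible hint)
  obtain ⟨c, hc⟩ := minpoly.mem_range_of_degree_eq_one k x h1
  rw [← hc, Q.ord_const] at hx
  omega

/-- The main construction: the quotient by `sig` of the Artin–Schreier extension
`z ^ p - z = g` of a ladder curve. -/
theorem hasCurve_of_ladder (p : ℕ) [Fact p.Prime] (hp2 : p ≠ 2)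
    (ζ : AlgebraicClosure (ZMod p)) (hζ : IsPrimitiveRoot ζ (p - 1)) {K : Type} [Field K]
    [Algebra (AlgebraicClosure (ZMod p)) K] (Λ : Lad p ζ K) (g : K) (N : ℕ)
    (N_pos : 0 < N) (N_p : ¬ p ∣ N) (hNc : Nat.Coprime N (p - 1))
    (g_inf : Λ.inf.ord g = -N) (g_sig : Λ.sig g = ζ ^ N • g) (g_phi : Λ.phi g = g)
    (g_pl : ∀ P : Plc (AlgebraicClosure (ZMod p)) K,
      P.ge 0 g ∨ (P.ord g < 0 ∧ ¬ (p : ℤ) ∣ P.ord g))
    (S : Finset (Plc (AlgebraicClosure (ZMod p)) K))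
    (hS : ∀ P, P ∈ S ↔ P ≠ Λ.inf ∧ P.ord g < 0)
    (hfix : ∀ P ∈ S, P.ord g = -1 ∨ ((∀ a, P.ord (Λ.sig a) = P.ord a) ∧ P.ge 1 Λ.s)) (G : ℕ)
    (hG : 2 * G = 2 * Λ.ginv + Λ.gam + 2 * S.card + (N - 1) + ∑ P ∈ S, (pole g P - 1)) :
    HasCurve p G S.card := by
  have hp : p.Prime := Fact.out
  obtain ⟨L, iF, ikL, iKL, iST, z, ⟨A⟩⟩ :=
    exists_ASD hζ Λ g N N_pos N_p g_inf g_sig g_phi g_pl
  have hsig : A.sig (algebraMap K L Λ.s) = ζ • algebraMap K L Λ.s := by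
    rw [A.sig_alg, Λ.sig_s, Algebra.smul_def, Algebra.smul_def, map_mul,
      ← IsScalarTower.algebraMap_apply (AlgebraicClosure (ZMod p)) K L]
  have hsn : A.sig (algebraMap K L Λ.s ^ (p - 1)) = algebraMap K L Λ.s ^ (p - 1) := by
    rw [map_pow, hsig, Algebra.smul_def, mul_pow, ← map_pow, hζ.pow_eq_one, map_one, one_mul]
  have htr : Transcendental (AlgebraicClosure (ZMod p)) (algebraMap K L Λ.s) :=
    Quot_transc A.inf _ ((A.eq_inf_iff A.inf).mp rfl)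
  obtain ⟨X, iX, ikX, iXL, iSTX, hX, hXff, F₀, iF0, iZF0, hF0, he⟩ :=
    exists_fixed p (AlgebraicClosure (ZMod p)) L (algebraMap K L Λ.s) htr A.ff (p - 1)
      (by have := hp.two_le; omega) A.sig (A.sig_iter hζ) hsn A.phi A.phi_const
      (by rw [A.phi_alg, Λ.phi_s]) (A.phi_sig hζ) A.phi_iter
  obtain ⟨hgen, hcard⟩ := tame_main (X := X) A.gf ζ hζ A.sig hsig (A.sig_D hζ) (A.sig_iter hζ) hX
    (by
      intro Q
      obtain ⟨f, hf, hf'⟩ := A.exists_tame hζ Q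
      obtain ⟨b, hb⟩ := (hX f).mpr hf
      exact ⟨b, by rw [hb]; exact hf'⟩)
  refine ⟨F₀, X, iF0, iX, iZF0, ikX, hF0, he,
    show _ ∧ _ ∧ _ from ⟨hXff, ?_, ?_⟩⟩
  · rw [hgen]
    have h1 := A.finrank_regSp_wt hζ (-1)
    rw [zpow_neg_one] at h1
    have h2 := Λ.dim_unit hζ hp2 g N N_pos N_p hNc g_inf g_sig g_pl S hS hfix
    rw [← hG] at h2
    rw [h1]
    exact Nat.eq_of_mul_eq_mul_left (by norm_num) h2
  · rw [hcard]
    exact A.log_count hζ hp2 hNc S hS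

end Pool.Agent.PRB
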