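import Pool.Agent.LibPRB.StepA
import Pool.Agent.LibPRB.ASPB
import Pool.Agent.LibPRB.CarPl

/-! # Steps without finite poles: no regular logarithmic differentials -/

set_option autoImplicit false

namespace Pool.Agent.PRB

namespace ASD

variable {p : ℕ} [Fact p.Prime] {k : Type} [Field k] [IsAlgClosed k] [CharP k p] {ζ : k}
  {K : Type} [Field K] [Algebra k K] {Λ : Lad p ζ K} {g : K} {N : ℕ}
  {L : Type} [Field L] [Algebra k L] [Algebra K L] [IsScalarTower k K L] {z : L}

theorem nolog (A : ASD Λ g N L z) (hreg : ∀ P, P ≠ Λ.inf → P.ge 0 g) (a : L)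
    (ha : car p A.D a = a) (h : ∀ Q, Q ≠ A.inf → Q.ge 0 a)
    (hinf : A.inf.ge (2 - (p * Λ.gam + (p - 1) * (N - 1) : ℕ)) a) : a = 0 := by
  classical
  haveI : CharP K p := charP_of_injective_algebraMap (algebraMap k K).injective p
  by_contra hne
  have hex : ∃ i, i < p ∧ A.as.co a i ≠ 0 := by
    by_contra hcon
    push_neg at hcon
    exact hne ((A.as.eq_zero_iff).mpr hcon)
  -- the top index
  obtain ⟨d, hd, hmax⟩ : ∃ d, (d < p ∧ A.as.co a d ≠ 0) ∧
      ∀ e, d < e → e < p → A.as.co a e = 0 := by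
    have hfin : (Finset.filter (fun i => A.as.co a i ≠ 0) (Finset.range p)).Nonempty := by
      obtain ⟨i, hi, hi0⟩ := hex
      exact ⟨i, by simp [hi, hi0]⟩
    refine ⟨(Finset.filter (fun i => A.as.co a i ≠ 0) (Finset.range p)).max' hfin, ?_, ?_⟩
    · have := Finset.max'_mem _ hfin
      simpa using this
    · intro e he hep
      by_contra hne0
      have := Finset.le_max' (Finset.filter (fun i => A.as.co a i ≠ 0) (Finset.range p)) e
        (by simp [hep, hne0])
      omega
  obtain ⟨hdp, hd0⟩ := hd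
  have hcar : car p Λ.D (A.as.co a d) = A.as.co a d := by
    have h1 := co_car A.as Λ.pb A.D A.D_alg a d
    rw [ha] at h1
    rw [Finset.sum_eq_single d] at h1
    · simpa using h1.symm
    · intro e he hed
      rw [Finset.mem_Ico] at he
      rw [hmax e (by omega) he.2]
      simp [Λ.pb.car_zero]
    · intro hnot
      exact absurd (Finset.mem_Ico.mpr ⟨le_rfl, hdp⟩) hnot
  have hfin := (A.reg_iff hreg a).mp h d hdp
  have hlog := log_ge Λ.pb Λ.inf_diff hcar
  rw [Λ.inf.ge_iff hd0] at hlog
  have hno := Λ.nopol _ hd0 hfin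
  exact hd0 (Λ.nolog _ hcar hfin (Or.inr (by omega)))

end ASD

end Pool.Agent.PRB
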