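import Pool.Agent.LibPRB.StepA
import Pool.Agent.LibPRB.EtU

/-! # Steps without finite poles: functions with given poles -/

set_option autoImplicit false

namespace Pool.Agent.PRB

theorem StepQ_ord_zero {k K : Type} [Field k] [Field K] [Algebra k K] (P : Plc k K) {x : K}
    (hx : P.ge 0 x) (hv : P.val x ≠ 0) : x ≠ 0 ∧ P.ord x = 0 := by
  have h0 : x ≠ 0 := by
    rintro rfl
    apply hv
    rw [P.val_eq_zero_iff hx]
    exact P.ge_zero 1
  refine ⟨h0, ?_⟩
  rw [P.ge_iff h0] at hx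
  have h1 : ¬ P.ge 1 x := fun h => hv ((P.val_eq_zero_iff (Or.inr hx)).mpr h)
  rw [P.ge_iff h0] at h1
  omega

theorem StepQ_pow_eq {p : ℕ} [Fact p.Prime] {k : Type} [Field k] [CharP k p] {x : k}
    (hx : x ^ p = x) : ∃ j < p, x = (j : k) := by
  have h1 : x ∈ (⊥ : Subfield k) := (Subfield.mem_bot_iff_pow_eq_self k p).mpr hx
  obtain ⟨n, hn⟩ := (mem_bot_iff_intCast p k).mp h1
  have hp : (0 : ℤ) < p := by exact_mod_cast (Fact.out : p.Prime).pos
  refine ⟨(n % p).toNat, ?_, ?_⟩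
  · have := Int.emod_lt_of_pos n hp
    have := Int.emod_nonneg n hp.ne'
    omega
  · rw [← hn]
    have h2 : ((n % p).toNat : ℤ) = n % p := Int.toNat_of_nonneg (Int.emod_nonneg n hp.ne')
    have h3 : (((n % p).toNat : ℤ) : k) = ((n : ℤ) : k) := by
      rw [h2]
      have h4 := Int.emod_add_mul_ediv n p
      have h5 : ((n % p + p * (n / p) : ℤ) : k) = (n : k) := by rw [h4]
      push_cast at h5
      rw [CharP.cast_eq_zero k p, zero_mul, add_zero] at h5
      exact h5
    rw [← h3]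
    push_cast
    rfl

namespace ASD

variable {p : ℕ} [Fact p.Prime] {k : Type} [Field k] [IsAlgClosed k] [CharP k p] {ζ : k}
  {K : Type} [Field K] [Algebra k K] {Λ : Lad p ζ K} {g : K} {N : ℕ}
  {L : Type} [Field L] [Algebra k L] [Algebra K L] [IsScalarTower k K L] {z : L}

theorem StepQ_under (A : ASD Λ g N L z) (hreg : ∀ P, P ≠ Λ.inf → P.ge 0 g) (Q : Plc k L)
    (hQ : Q ≠ A.inf) : ∃ P : Plc k K, P ≠ Λ.inf ∧ P.ge 0 g ∧ OverEt Q P := by
  have hNP := A.N_pos
  obtain ⟨P, hP⟩ := A.exists_under Q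
  have hPinf : P ≠ Λ.inf := by
    rintro rfl
    rcases hP with ⟨hg, -⟩ | ⟨-, hram⟩
    · rcases hg with hg | hg
      · have := A.g_inf
        rw [hg, Plc.ord_zero] at this
        omega
      · rw [A.g_inf] at hg
        omega
    · apply hQ
      rw [A.eq_inf_iff, hram.1]
      have h1 := Λ.inf_s
      have h2 : (0 : ℤ) < p := by exact_mod_cast (Fact.out : p.Prime).pos
      exact mul_neg_of_pos_of_neg h2 h1
  refine ⟨P, hPinf, hreg P hPinf, ?_⟩
  rcases hP with ⟨-, h⟩ | ⟨hneg, -⟩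
  · exact h
  · exfalso
    rcases hreg P hPinf with h | h
    · rw [h, Plc.ord_zero] at hneg
      omega
    · omega

theorem poles (A : ASD Λ g N L z) (hreg : ∀ P, P ≠ Λ.inf → P.ge 0 g) (Q : Plc k L)
    (hQ : Q ≠ A.inf) (n : ℕ) :
    ∃ c : L, c ≠ 0 ∧ Q.ord c = -n ∧ ∀ Q', Q' ≠ A.inf → Q' ≠ Q → Q'.ge 0 c := by
  obtain ⟨P, hPinf, hPg, hQP⟩ := A.StepQ_under hreg Q hQ
  obtain ⟨c0, hc0, hc1, hc2⟩ := Λ.poles P hPinf n
  have hzQ := et_ge_z A.as P hPg Q hQP
  set z0 := Q.val z with hz0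
  set e : L := ∏ j ∈ Finset.Ico 1 p, (z - algebraMap k L (z0 + (j : k))) with he
  -- factors at `Q`
  have hfac : ∀ j ∈ Finset.Ico 1 p, (z - algebraMap k L (z0 + (j : k))) ≠ 0 ∧
      Q.ord (z - algebraMap k L (z0 + (j : k))) = 0 := by
    intro j hj
    rw [Finset.mem_Ico] at hj
    apply StepQ_ord_zero Q (Q.ge_sub hzQ (Q.ge_const _))
    rw [Q.val_sub hzQ (Q.ge_const _), Q.val_const, ← hz0]
    have : (j : k) ≠ 0 := by
      rw [Ne, CharP.cast_eq_zero_iff k p]
      exact Nat.not_dvd_of_pos_of_lt (by omega) hj.2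
    simpa using this
  have hprod : ∀ S : Finset ℕ, S ⊆ Finset.Ico 1 p →
      (∏ j ∈ S, (z - algebraMap k L (z0 + (j : k)))) ≠ 0 ∧
      Q.ord (∏ j ∈ S, (z - algebraMap k L (z0 + (j : k)))) = 0 := by
    intro S
    induction S using Finset.induction_on with
    | empty => intro _; simp [Q.ord_one]
    | insert i S hi ih =>
      intro hS
      rw [Finset.insert_subset_iff] at hS
      obtain ⟨h1, h2⟩ := ih hS.2
      obtain ⟨h3, h4⟩ := hfac i hS.1
      rw [Finset.prod_insert hi]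
      exact ⟨mul_ne_zero h3 h1, by rw [Q.ord_mul h3 h1, h4, h2]; rfl⟩
  obtain ⟨he0, he1⟩ := hprod _ (Finset.Subset.refl _)
  rw [← he] at he0 he1
  have hc0' : algebraMap K L c0 ≠ 0 := by
    rw [Ne, map_eq_zero]; exact hc0
  refine ⟨algebraMap K L c0 * e ^ n, mul_ne_zero hc0' (pow_ne_zero _ he0), ?_, ?_⟩
  · rw [Q.ord_mul hc0' (pow_ne_zero _ he0), Q.ord_pow, he1, hQP c0, hc1]; ring
  · intro Q' hQ' hne
    obtain ⟨P', hP'inf, hP'g, hQP'⟩ := A.StepQ_under hreg Q' hQ'
    have hzQ' := et_ge_z A.as P' hP'g Q' hQP'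
    have hfac' : ∀ j ∈ Finset.Ico 1 p, Q'.ge 0 (z - algebraMap k L (z0 + (j : k))) := by
      intro j _
      exact Q'.ge_sub hzQ' (Q'.ge_const _)
    have hge0 : ∀ S : Finset ℕ, S ⊆ Finset.Ico 1 p →
        Q'.ge 0 (∏ j ∈ S, (z - algebraMap k L (z0 + (j : k)))) := by
      intro S
      induction S using Finset.induction_on with
      | empty => intro _; simpa using Q'.ge_one
      | insert i S hi ih =>
        intro hS
        rw [Finset.insert_subset_iff] at hS
        rw [Finset.prod_insert hi]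
        simpa using Q'.ge_mul (hfac' i hS.1) (ih hS.2)
    by_cases hPP : P' = P
    · subst hPP
      -- the value of `z` at `Q'` is `z0 + j`
      have hval : Q'.val z ≠ z0 := fun h =>
        hne (et_unique A.as P' hP'g Q' Q hQP' hQP (h.trans hz0))
      have h1 := et_val_eq A.as P' hP'g Q' hQP'
      have h2 := et_val_eq A.as P' hP'g Q hQP
      rw [← hz0] at h2
      have h3 : (Q'.val z - z0) ^ p = Q'.val z - z0 := by
        rw [sub_pow_char]
        linear_combination h1 - h2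
      obtain ⟨j, hj, hj'⟩ := StepQ_pow_eq h3
      have hj1 : 1 ≤ j := by
        rcases Nat.eq_zero_or_pos j with h | h
        · exfalso
          rw [h, Nat.cast_zero, sub_eq_zero] at hj'
          exact hval hj'
        · exact h
      have hjm : j ∈ Finset.Ico 1 p := Finset.mem_Ico.mpr ⟨hj1, hj⟩
      have h4 : Q'.ge 1 (z - algebraMap k L (z0 + (j : k))) := by
        have h5 := Q'.val_spec hzQ'
        have h6 : Q'.val z = z0 + j := by linear_combination hj'
        rwa [h6] at h5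
      have h5 : Q'.ge 1 e := by
        rw [he, ← Finset.mul_prod_erase _ _ hjm]
        simpa using Q'.ge_mul h4 (hge0 _ (Finset.erase_subset _ _))
      have h6 := Q'.ge_pow h5 n
      have h7 : Q'.ge (-n) (algebraMap K L c0) := by
        rw [hQP'.ge_iff]
        exact Or.inr hc1.ge
      have h8 := Q'.ge_mul h7 h6
      simpa using h8
    · have h5 : Q'.ge 0 e := hge0 _ (Finset.Subset.refl _)
      have h6 := Q'.ge_pow h5 n
      have h7 : Q'.ge 0 (algebraMap K L c0) := by
        rw [hQP'.ge_iff]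
        exact hc2 P' hP'inf hPP
      have h8 := Q'.ge_mul h7 h6
      simpa using h8

end ASD

end Pool.Agent.PRB
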