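import Pool.Agent.LibPRB.StepP
import Pool.Agent.LibPRB.StepL
import Pool.Agent.LibPRB.StepQ
import Pool.Agent.LibPRB.ASDex
import Pool.Agent.LibPRB.ASDd
import Pool.Agent.LibPRB.ASDf
import Pool.Agent.LibPRB.DimU
import Pool.Agent.LibPRB.DimZ

/-! # Ladder steps -/

set_option autoImplicit false

namespace Pool.Agent.PRB

variable {p : ℕ} [Fact p.Prime] {k : Type} [Field k] [IsAlgClosed k] [CharP k p] {ζ : k}
  {K : Type} [Field K] [Algebra k K]

/-- The ladder step: an Artin–Schreier extension without finite poles is again a ladder curve. -/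
theorem Lad.step (hζ : IsPrimitiveRoot ζ (p - 1)) (hp2 : p ≠ 2) (Λ : Lad p ζ K) (g : K) (N : ℕ)
    (N_pos : 0 < N) (N_p : ¬ p ∣ N) (g_inf : Λ.inf.ord g = -N) (g_sig : Λ.sig g = ζ ^ N • g)
    (g_phi : Λ.phi g = g) (hreg : ∀ P, P ≠ Λ.inf → P.ge 0 g) :
    ∃ (L : Type) (_ : Field L) (_ : Algebra k L) (_ : Algebra K L) (_ : IsScalarTower k K L)
      (z : L) (Λ' : Lad p ζ L), IsAS p g z ∧ Λ'.s = algebraMap K L Λ.s ∧
        OverRam p g z Λ'.inf Λ.inf ∧
        (∀ Q, Q ≠ Λ'.inf → ∃ P, P ≠ Λ.inf ∧ OverEt Q P) ∧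
        (∀ P, P ≠ Λ.inf → ∀ Q, OverEt Q P → Q ≠ Λ'.inf) ∧
        (∀ a : K, Λ'.sig (algebraMap K L a) = algebraMap K L (Λ.sig a)) ∧
        Λ'.sig z = ζ ^ N • z ∧
        (∀ a : K, Λ'.phi (algebraMap K L a) = algebraMap K L (Λ.phi a)) ∧ Λ'.phi z = z ∧
        Λ'.gam = p * Λ.gam + (p - 1) * (N - 1) ∧
        (Nat.Coprime N (p - 1) → 2 * Λ'.ginv = 2 * Λ.ginv + Λ.gam + (N - 1)) ∧
        (p - 1 ∣ N → 2 * Λ'.ginv = 2 * p * Λ.ginv + (p - 1) * (N / (p - 1) - 1)) := by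
  have g_neg : Λ.inf.ord g < 0 := by rw [g_inf]; omega
  have g_ndvd : ¬ (p : ℤ) ∣ Λ.inf.ord g := by
    rw [g_inf, Int.dvd_neg]
    intro h
    exact N_p (Int.natCast_dvd_natCast.mp h)
  have g_pl : ∀ P : Plc k K, P.ge 0 g ∨ (P.ord g < 0 ∧ ¬ (p : ℤ) ∣ P.ord g) := by
    intro P
    by_cases hP : P = Λ.inf
    · right; rw [hP]; exact ⟨g_neg, g_ndvd⟩
    · exact Or.inl (hreg P hP)
  obtain ⟨L, iF, ikL, iKL, iST, z, ⟨A⟩⟩ :=
    exists_ASD hζ Λ g N N_pos N_p g_inf g_sig g_phi g_pl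
  let Λ' : Lad p ζ L :=
    { s := algebraMap K L Λ.s
      D := A.D
      sig := A.sig
      phi := A.phi
      inf := A.inf
      gam := p * Λ.gam + (p - 1) * (N - 1)
      ginv := Module.finrank k (regSp A.D ⊓ wtSp A.sig ζ⁻¹ : Submodule k L)
      pb := A.gf.pb
      disc := A.disc
      inf_s := (A.eq_inf_iff A.inf).mp rfl
      inf_diff := A.inf_diff
      fin_s := fun Q hQ => by
        obtain ⟨P, hP, hg, hQP⟩ := A.StepA_under hreg Q hQ
        exact (hQP.ge_iff 0 _).mpr (Λ.fin_s P hP)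
      fin_diff := A.fin_diff hreg
      fsupp := A.fsupp
      ff := A.ff
      sig_s := by
        rw [A.sig_alg, Λ.sig_s, Algebra.smul_def, Algebra.smul_def, map_mul,
          ← IsScalarTower.algebraMap_apply k K L]
      sig_D := A.sig_D hζ
      sig_iter := A.sig_iter hζ
      sig_inf := A.sig_inf hζ
      phi_const := A.phi_const
      phi_s := by rw [A.phi_alg, Λ.phi_s]
      phi_sig := A.phi_sig hζ
      phi_iter := A.phi_iter
      gam_mod := by
        obtain ⟨c, hc⟩ := Λ.gam_mod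
        exact ⟨p * c + (N - 1), by rw [hc]; ring⟩
      pol := fun n hn => A.pol hreg n hn hζ
      nopol := A.nopol hreg
      nolog := A.nolog hreg
      poles := A.poles hreg
      fd := A.finrank_regSp.1
      dim := by
        rw [A.finrank_regSp.2]
        exact Λ.dim_total g N N_pos N_p g_inf hreg
      dimInv := rfl }
  have hginv : Λ'.ginv = ∑ d ∈ Finset.range p, Module.finrank k
      (Λ.Mg g d ⊓ wtSp Λ.sig (ζ ^ (-1 - d * N : ℤ)) : Submodule k K) := by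
    have h1 := A.finrank_regSp_wt hζ (-1)
    rw [zpow_neg_one] at h1
    exact h1
  refine ⟨L, iF, ikL, iKL, iST, z, Λ', A.as, rfl, A.inf_over, ?_, ?_, A.sig_alg, A.sig_z,
    A.phi_alg, A.phi_z, rfl, ?_, ?_⟩
  · intro Q hQ
    obtain ⟨P, hP, -, hQP⟩ := A.StepA_under hreg Q hQ
    exact ⟨P, hP, hQP⟩
  · intro P hP Q hQP hQ
    have h1 := (A.eq_inf_iff Q).mp hQ
    rw [hQP] at h1
    rcases Λ.fin_s P hP with h0 | h0
    · rw [h0, Plc.ord_zero] at h1; omega
    · omega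
  · intro hc
    rw [hginv]
    have h1 := Λ.dim_unit hζ hp2 g N N_pos N_p hc g_inf g_sig g_pl ∅ (by
      intro P
      simp only [Finset.notMem_empty, false_iff, not_and, not_lt]
      intro hP
      rcases hreg P hP with h0 | h0
      · rw [h0, Plc.ord_zero]
      · exact h0) (by intro P hP; simp at hP)
    simpa using h1
  · intro hd
    rw [hginv]
    exact Λ.dim_zero hζ hp2 g N N_pos N_p hd g_inf hreg

end Pool.Agent.PRB
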