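import Pool.Agent.LibPRB.TowerD
import Pool.Agent.LibPRB.Base
import Pool.Agent.LibPRB.Step2

/-! # The tower: existence -/

set_option autoImplicit false

namespace Pool.Agent.PRB

theorem Tower_wp_map {p : ℕ} {R S : Type} [CommRing R] [CommRing S] (f : R →+* S) (n : ℕ) (x : R) :
    f ((wp p)^[n] x) = (wp p)^[n] (f x) := by
  induction n generalizing x with
  | zero => rfl
  | succ n ih =>
    rw [Function.iterate_succ_apply, Function.iterate_succ_apply, ih]
    congr 1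
    unfold wp
    rw [map_sub, map_pow]

theorem Tower_wp_eq {p : ℕ} {K L : Type} [Field K] [Field L] [Algebra K L] {g : K} {z : L}
    (h : IsAS p g z) : wp p z = algebraMap K L g := by
  unfold wp
  rw [h.eq]
  ring

theorem Tower_geom (q m : ℕ) : ∃ w, (q + 3) ^ m = (q + 2) * w + 1 := by
  induction m with
  | zero => exact ⟨0, by simp⟩
  | succ m ih =>
    obtain ⟨w, hw⟩ := ih
    refine ⟨(q + 3) * w + 1, ?_⟩
    rw [pow_succ, hw]
    ring

theorem Tower_geom_div (q m w : ℕ) (hw : (q + 3) ^ m = (q + 2) * w + 1) :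
    ((q + 3) ^ m - 1) / (q + 3 - 1) = w := by
  rw [hw, Nat.add_sub_cancel]
  exact Nat.mul_div_cancel_left w (by omega)

theorem Tower_three_le {p : ℕ} [Fact p.Prime] (hp2 : p ≠ 2) : 3 ≤ p := by
  have := (Fact.out : p.Prime).two_le
  omega

theorem Tower_zero {p : ℕ} [Fact p.Prime] {k : Type} [Field k] [IsAlgClosed k] [CharP k p]
    [Algebra (ZMod p) k] [Algebra.IsAlgebraic (ZMod p) k] (hp2 : p ≠ 2) (ζ : k)
    (hζ : IsPrimitiveRoot ζ (p - 1)) : Nonempty (Tower p ζ 0 0 (RatFunc k)) := by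
  obtain ⟨Λ, h1, h2, h3, h4, h5⟩ := exists_base hp2 ζ hζ
  have hp3 := Tower_three_le (p := p) hp2
  refine ⟨{ Λ := Λ
            v := Λ.s ^ (p - 2)
            t := (Λ.s ^ (p - 2)) ^ (p - 1)
            reg_v := fun P hP => by simpa using P.ge_pow (Λ.fin_s P hP) (p - 2)
            reg_t := fun P hP => by
              have := P.ge_pow (Λ.fin_s P hP) (p - 2)
              rw [mul_zero] at this
              simpa using P.ge_pow this (p - 1)
            eq_v := rfl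
            eq_t := rfl
            ord_s := by simpa using h3
            ord_v := by
              rw [Plc.ord_pow, h3]
              push_cast
              ring
            ord_t := by
              rw [Plc.ord_pow, Plc.ord_pow, h3]
              push_cast
              ring
            sig_v := by
              rw [map_pow, Λ.sig_s, smul_pow]
            sig_t := by
              rw [map_pow, map_pow, Λ.sig_s, smul_pow, smul_pow, ← pow_mul, mul_comm, pow_mul,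
                hζ.pow_eq_one, one_pow, one_smul]
            phi_v := by rw [map_pow, Λ.phi_s]
            phi_t := by rw [map_pow, map_pow, Λ.phi_s]
            unique := fun P Q hP hQ hs _ _ => h4 P Q hP hQ hs
            exists_plc := fun a b c hb hc => by
              obtain ⟨P, hP, hPs⟩ := h5 a
              have e1 := P.val_pow (Λ.fin_s P hP) (p - 2)
              have e2 : P.ge 0 (Λ.s ^ (p - 2)) := by simpa using P.ge_pow (Λ.fin_s P hP) (p - 2)
              have e3 := P.val_pow e2 (p - 1)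
              refine ⟨P, hP, hPs, ?_, ?_⟩
              · rw [e1, hPs]
                exact hb.symm
              · rw [e3, e1, hPs]
                rw [Function.iterate_zero, id] at hb hc
                rw [hc, hb]
            gam_eq := by
              rw [h1]
              simp
            ginv_eq := by
              rw [h2]
              simp }⟩

section steps

variable {p : ℕ} [Fact p.Prime] {k : Type} [Field k] [IsAlgClosed k] [CharP k p] {ζ : k}
  {K : Type} [Field K] [Algebra k K]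

theorem Tower_stepV (hζ : IsPrimitiveRoot ζ (p - 1)) (hp2 : p ≠ 2) {m : ℕ}
    (T : Tower p ζ m 0 K) :
    ∃ (L : Type) (_ : Field L) (_ : Algebra k L), Nonempty (Tower p ζ (m + 1) 0 L) := by
  have hp3 := Tower_three_le (p := p) hp2
  have hcast : ((p - 2 : ℕ) : ℤ) = (p : ℤ) - 2 := by push_cast [show 2 ≤ p by omega]; ring
  have hcast1 : ((p - 1 : ℕ) : ℤ) = (p : ℤ) - 1 := by push_cast [show 1 ≤ p by omega]; ring
  obtain ⟨L, iL, ikL, iKL, isT, z, Λ', hAS, hs, hram, hover, hne, hsig, hsigz, hphi, hphiz, hgam,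
    hginv, -⟩ := T.Λ.step hζ hp2 T.v (p - 2) (by omega)
      (fun h => absurd (Nat.le_of_dvd (by omega) h) (by omega))
      (by rw [T.ord_v]; simp) T.sig_v T.phi_v T.reg_v
  have hregz : ∀ Q, Q ≠ Λ'.inf → Q.ge 0 z := by
    intro Q hQ
    obtain ⟨P, hP, hQP⟩ := hover Q hQ
    exact et_ge_z hAS P (T.reg_v P hP) Q hQP
  refine ⟨L, iL, ikL, ⟨{
    Λ := Λ'
    v := z
    t := z ^ (p - 1)
    reg_v := hregz
    reg_t := fun Q hQ => by simpa using Q.ge_pow (hregz Q hQ) (p - 1)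
    eq_v := by
      rw [Function.iterate_succ_apply, Tower_wp_eq hAS, ← Tower_wp_map, T.eq_v, hs, map_pow]
    eq_t := rfl
    ord_s := by
      rw [hs, hram.1, T.ord_s]
      push_cast
      ring
    ord_v := by
      rw [hram.2, T.ord_v]
    ord_t := by
      rw [Plc.ord_pow, hram.2, T.ord_v]
      push_cast
      ring
    sig_v := hsigz
    sig_t := by
      rw [map_pow, hsigz, smul_pow, ← pow_mul, mul_comm, pow_mul, hζ.pow_eq_one, one_pow, one_smul]
    phi_v := hphiz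
    phi_t := by rw [map_pow, hphiz]
    unique := ?_
    exists_plc := ?_
    gam_eq := ?_
    ginv_eq := ?_ }⟩⟩
  · intro P Q hP hQ h1 h2 h3
    obtain ⟨P₀, hP₀, hPP⟩ := hover P hP
    obtain ⟨Q₀, hQ₀, hQQ⟩ := hover Q hQ
    have e1 : P₀.val T.Λ.s = Q₀.val T.Λ.s := by
      rw [← hPP.val (T.Λ.fin_s P₀ hP₀), ← hQQ.val (T.Λ.fin_s Q₀ hQ₀), ← hs, h1]
    have e2 : P₀.val T.v = Q₀.val T.v := by
      rw [← et_val_eq hAS P₀ (T.reg_v P₀ hP₀) P hPP, ← et_val_eq hAS Q₀ (T.reg_v Q₀ hQ₀) Q hQQ, h2]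
    have e3 : P₀.val T.t = Q₀.val T.t := by
      have e4 : T.t = T.v ^ (p - 1) := T.eq_t
      rw [e4, P₀.val_pow (T.reg_v P₀ hP₀), Q₀.val_pow (T.reg_v Q₀ hQ₀), e2]
    have e5 := T.unique P₀ Q₀ hP₀ hQ₀ e1 e2 e3
    subst e5
    exact et_unique hAS P₀ (T.reg_v P₀ hP₀) P Q hPP hQQ h2
  · intro a b c hb hc
    obtain ⟨P₀, hP₀, e1, e2, e3⟩ := T.exists_plc a (wp p b) ((wp p b) ^ (p - 1)) hb rfl
    obtain ⟨Q, hQ, hQz⟩ := et_exists_val hAS P₀ (T.reg_v P₀ hP₀) b (by rw [e2]; rfl)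
    have hQi := hne P₀ hP₀ Q hQ
    refine ⟨Q, hQi, ?_, hQz, ?_⟩
    · rw [hs, hQ.val (T.Λ.fin_s P₀ hP₀), e1]
    · rw [Q.val_pow (hregz Q hQi), hQz]
      exact hc.symm
  · rw [hgam, T.gam_eq]
    obtain ⟨q, rfl⟩ : ∃ q, p = q + 3 := ⟨p - 3, by omega⟩
    obtain ⟨u, hu⟩ : ∃ u, (q + 3) ^ m = u + 1 :=
      ⟨(q + 3) ^ m - 1, by have := Nat.pow_pos (n := m) (show 0 < q + 3 by omega); omega⟩
    rw [pow_succ, hu]
    simp only [pow_zero, one_mul, Nat.sub_self, zero_mul, add_zero, Nat.add_sub_cancel]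
    have e1 : q + 3 - 1 = q + 2 := rfl
    have e2 : q + 3 - 2 - 1 = q := rfl
    have e3 : (u + 1) * (q + 3) - 1 = u * (q + 3) + (q + 2) := by
      rw [Nat.sub_eq_iff_eq_add (by nlinarith)]
      ring
    rw [e1, e2, e3]
    ring
  · have hcop : Nat.Coprime (p - 2) (p - 1) := by
      have e1 : p - 1 = (p - 2) + 1 := by omega
      rw [e1]
      exact Nat.coprime_self_add_right.2 (Nat.coprime_one_right _)
    rw [hginv hcop, T.ginv_eq, T.gam_eq]
    obtain ⟨q, rfl⟩ : ∃ q, p = q + 3 := ⟨p - 3, by omega⟩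
    obtain ⟨w, hw⟩ := Tower_geom q m
    have hw' : (q + 3) ^ (m + 1) = (q + 2) * ((q + 3) * w + 1) + 1 := by
      rw [pow_succ, hw]
      ring
    rw [Tower_geom_div q m w hw, Tower_geom_div q (m + 1) _ hw', hw]
    simp only [pow_zero, one_mul, Nat.sub_self, zero_mul, add_zero, Nat.add_sub_cancel]
    have e2 : q + 3 - 2 - 1 = q := rfl
    rw [e2]
    ring

theorem Tower_stepT (hζ : IsPrimitiveRoot ζ (p - 1)) (hp2 : p ≠ 2) {m r : ℕ}
    (T : Tower p ζ m r K) :
    ∃ (L : Type) (_ : Field L) (_ : Algebra k L), Nonempty (Tower p ζ m (r + 1) L) := by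
  have hp3 := Tower_three_le (p := p) hp2
  have hcast : ((p - 2 : ℕ) : ℤ) = (p : ℤ) - 2 := by push_cast [show 2 ≤ p by omega]; ring
  have hcast1 : ((p - 1 : ℕ) : ℤ) = (p : ℤ) - 1 := by push_cast [show 1 ≤ p by omega]; ring
  have hzN : ζ ^ ((p - 1) * (p - 2)) = 1 := by rw [pow_mul, hζ.pow_eq_one, one_pow]
  obtain ⟨L, iL, ikL, iKL, isT, z, Λ', hAS, hs, hram, hover, hne, hsig, hsigz, hphi, hphiz, hgam,
    -, hginv⟩ := T.Λ.step hζ hp2 T.t ((p - 1) * (p - 2)) (Nat.mul_pos (by omega) (by omega))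
      (fun h => by
        rcases (Fact.out : p.Prime).dvd_mul.1 h with h | h
        · exact absurd (Nat.le_of_dvd (by omega) h) (by omega)
        · exact absurd (Nat.le_of_dvd (by omega) h) (by omega))
      T.ord_t (by rw [hzN, one_smul, T.sig_t]) T.phi_t T.reg_t
  have hregz : ∀ Q, Q ≠ Λ'.inf → Q.ge 0 z := by
    intro Q hQ
    obtain ⟨P, hP, hQP⟩ := hover Q hQ
    exact et_ge_z hAS P (T.reg_t P hP) Q hQP
  refine ⟨L, iL, ikL, ⟨{
    Λ := Λ'
    v := algebraMap K L T.v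
    t := z
    reg_v := fun Q hQ => by
      obtain ⟨P, hP, hQP⟩ := hover Q hQ
      exact (hQP.ge_iff 0 T.v).2 (T.reg_v P hP)
    reg_t := hregz
    eq_v := by
      rw [← Tower_wp_map, T.eq_v, hs, map_pow]
    eq_t := by
      rw [Function.iterate_succ_apply, Tower_wp_eq hAS, ← Tower_wp_map, T.eq_t, map_pow]
    ord_s := by
      rw [hs, hram.1, T.ord_s]
      push_cast
      ring
    ord_v := by
      rw [hram.1, T.ord_v]
      push_cast
      ring
    ord_t := by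
      rw [hram.2, T.ord_t]
    sig_v := by
      rw [hsig, T.sig_v, Algebra.smul_def, map_mul, ← IsScalarTower.algebraMap_apply,
        ← Algebra.smul_def]
    sig_t := by
      rw [hsigz, hzN, one_smul]
    phi_v := by rw [hphi, T.phi_v]
    phi_t := hphiz
    unique := ?_
    exists_plc := ?_
    gam_eq := ?_
    ginv_eq := ?_ }⟩⟩
  · intro P Q hP hQ h1 h2 h3
    obtain ⟨P₀, hP₀, hPP⟩ := hover P hP
    obtain ⟨Q₀, hQ₀, hQQ⟩ := hover Q hQ
    have e1 : P₀.val T.Λ.s = Q₀.val T.Λ.s := by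
      rw [← hPP.val (T.Λ.fin_s P₀ hP₀), ← hQQ.val (T.Λ.fin_s Q₀ hQ₀), ← hs, h1]
    have e2 : P₀.val T.v = Q₀.val T.v := by
      rw [← hPP.val (T.reg_v P₀ hP₀), ← hQQ.val (T.reg_v Q₀ hQ₀), h2]
    have e3 : P₀.val T.t = Q₀.val T.t := by
      rw [← et_val_eq hAS P₀ (T.reg_t P₀ hP₀) P hPP, ← et_val_eq hAS Q₀ (T.reg_t Q₀ hQ₀) Q hQQ, h3]
    have e5 := T.unique P₀ Q₀ hP₀ hQ₀ e1 e2 e3
    subst e5
    exact et_unique hAS P₀ (T.reg_t P₀ hP₀) P Q hPP hQQ h3
  · intro a b c hb hc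
    obtain ⟨P₀, hP₀, e1, e2, e3⟩ := T.exists_plc a b (wp p c) hb hc
    obtain ⟨Q, hQ, hQz⟩ := et_exists_val hAS P₀ (T.reg_t P₀ hP₀) c (by rw [e3]; rfl)
    have hQi := hne P₀ hP₀ Q hQ
    refine ⟨Q, hQi, ?_, ?_, hQz⟩
    · rw [hs, hQ.val (T.Λ.fin_s P₀ hP₀), e1]
    · rw [hQ.val (T.reg_v P₀ hP₀), e2]
  · rw [hgam, T.gam_eq]
    obtain ⟨q, rfl⟩ : ∃ q, p = q + 3 := ⟨p - 3, by omega⟩
    obtain ⟨u, hu⟩ : ∃ u, (q + 3) ^ r = u + 1 :=
      ⟨(q + 3) ^ r - 1, by have := Nat.pow_pos (n := r) (show 0 < q + 3 by omega); omega⟩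
    obtain ⟨M, hM⟩ : ∃ M, (q + 3) ^ m - 1 = M := ⟨_, rfl⟩
    rw [pow_succ, hu, hM]
    simp only [Nat.add_sub_cancel]
    have e1 : q + 3 - 1 = q + 2 := rfl
    have e2 : q + 3 - 2 = q + 1 := rfl
    have e3 : (u + 1) * (q + 3) - 1 = u * (q + 3) + (q + 2) := by
      rw [Nat.sub_eq_iff_eq_add (by nlinarith)]
      ring
    have e4 : (q + 2) * (q + 1) - 1 = q * q + 3 * q + 1 := by
      rw [Nat.sub_eq_iff_eq_add (by nlinarith)]
      ring
    rw [e1, e2, e3, e4]
    ring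
  · have hdvd : p - 1 ∣ (p - 1) * (p - 2) := Dvd.intro _ rfl
    have e0 : 2 * p * T.Λ.ginv = p * (2 * T.Λ.ginv) := by ring
    rw [hginv hdvd, e0, T.ginv_eq]
    obtain ⟨q, rfl⟩ : ∃ q, p = q + 3 := ⟨p - 3, by omega⟩
    obtain ⟨u, hu⟩ : ∃ u, (q + 3) ^ r = u + 1 :=
      ⟨(q + 3) ^ r - 1, by have := Nat.pow_pos (n := r) (show 0 < q + 3 by omega); omega⟩
    obtain ⟨M, hM⟩ : ∃ M, ((q + 3) ^ m - 1) / (q + 3 - 1) = M := ⟨_, rfl⟩
    rw [pow_succ, hu, hM]
    have e1 : q + 3 - 1 = q + 2 := rfl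
    have e2 : q + 3 - 2 = q + 1 := rfl
    have e3 : (u + 1) * (q + 3) - 1 = u * (q + 3) + (q + 2) := by
      rw [Nat.sub_eq_iff_eq_add (by nlinarith)]
      ring
    have e4 : (q + 2) * (q + 1) / (q + 2) = q + 1 := Nat.mul_div_cancel_left _ (by omega)
    rw [e1, e2, e3, e4]
    simp only [Nat.add_sub_cancel]
    ring

end steps

theorem exists_tower {p : ℕ} [Fact p.Prime] {k : Type} [Field k] [IsAlgClosed k] [CharP k p]
    [Algebra (ZMod p) k] [Algebra.IsAlgebraic (ZMod p) k] (hp2 : p ≠ 2) (ζ : k)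
    (hζ : IsPrimitiveRoot ζ (p - 1)) (m r : ℕ) :
    ∃ (K : Type) (_ : Field K) (_ : Algebra k K), Nonempty (Tower p ζ m r K) := by
  induction r with
  | zero =>
    induction m with
    | zero => exact ⟨RatFunc k, inferInstance, inferInstance, Tower_zero hp2 ζ hζ⟩
    | succ m ih =>
      obtain ⟨K, iK, ikK, ⟨T⟩⟩ := ih
      exact Tower_stepV hζ hp2 T
  | succ r ih =>
    obtain ⟨K, iK, ikK, ⟨T⟩⟩ := ih
    exact Tower_stepT hζ hp2 T

end Pool.Agent.PRB
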