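import Pool.Agent.LibPRB.PlG
import Pool.Agent.LibPRB.Tower
import Pool.Agent.LibPRB.Quot

/-! # The function `g = v^(p-2) / B(t) + u` and its poles -/

set_option autoImplicit false

open Polynomial

namespace Pool.Agent.PRB

section FinG_aux

variable {k K : Type} [Field k] [Field K] [Algebra k K] (P : Plc k K)

theorem FinG_ord_prod {ι : Type} (s : Finset ι) (f : ι → K) (h : ∀ i ∈ s, f i ≠ 0) :
    ∏ i ∈ s, f i ≠ 0 ∧ P.ord (∏ i ∈ s, f i) = ∑ i ∈ s, P.ord (f i) := by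
  classical
  induction s using Finset.induction_on with
  | empty => simp [P.ord_one]
  | insert a s ha ih =>
    have h1 := ih fun i hi => h i (Finset.mem_insert_of_mem hi)
    have h2 := h a (Finset.mem_insert_self _ _)
    rw [Finset.prod_insert ha, Finset.sum_insert ha, P.ord_mul h2 h1.1, h1.2]
    exact ⟨mul_ne_zero h2 h1.1, rfl⟩

theorem FinG_inf {t : K} (ht : P.ord t < 0) (τ : k) :
    t - algebraMap k K τ ≠ 0 ∧ P.ord (t - algebraMap k K τ) = P.ord t := by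
  have ht0 : t ≠ 0 := by
    rintro rfl
    rw [P.ord_zero] at ht
    exact absurd ht (lt_irrefl _)
  rw [sub_eq_add_neg]
  exact P.ord_add_eq ht0 (P.ge_neg ((P.ge_const τ).mono (by omega)))

theorem FinG_val {t : K} (ht : P.ge 0 t) (τ : k) (h : P.val t ≠ τ)
    (h0 : t - algebraMap k K τ ≠ 0) : P.ord (t - algebraMap k K τ) = 0 := by
  have h1 : P.ge 0 (t - algebraMap k K τ) := P.ge_sub ht (P.ge_const τ)
  rw [P.ge_iff h0] at h1
  by_contra h2
  apply h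
  rw [P.val_eq_iff ht, P.ge_iff h0]
  omega

/-- the product `∏ (t - τ)` over a finite set -/
theorem FinG_prod {t : K} (h0 : ∀ τ : k, t - algebraMap k K τ ≠ 0) (ht : P.ge 0 t)
    [DecidableEq k] (A : Finset k) (n : ℤ)
    (hn : P.val t ∈ A → P.ord (t - algebraMap k K (P.val t)) = n) :
    ∏ τ ∈ A, (t - algebraMap k K τ) ≠ 0 ∧
      P.ord (∏ τ ∈ A, (t - algebraMap k K τ)) = if P.val t ∈ A then n else 0 := by
  obtain ⟨h1, h2⟩ := FinG_ord_prod P A (fun τ => t - algebraMap k K τ) fun i _ => h0 i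
  refine ⟨h1, ?_⟩
  rw [h2]
  split_ifs with h
  · rw [Finset.sum_eq_single (P.val t), hn h]
    · intro τ _ hτ
      exact FinG_val P ht τ hτ.symm (h0 τ)
    · intro h'; exact absurd h h'
  · apply Finset.sum_eq_zero
    intro τ hτ
    exact FinG_val P ht τ (fun h' => h (h' ▸ hτ)) (h0 τ)

theorem FinG_arith1 (p : ℕ) (hp : 3 ≤ p) :
    (((p - 2 : ℕ) : ℤ) * ((p - 2 : ℕ) : ℤ) - ((p - 1) * (p - 2) : ℕ) = -((p - 2 : ℕ) : ℤ)) := by
  obtain ⟨q, rfl⟩ := Nat.exists_eq_add_of_le hp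
  have h1 : 3 + q - 2 = q + 1 := by omega
  have h2 : 3 + q - 1 = q + 2 := by omega
  rw [h1, h2]; push_cast; ring

theorem FinG_arith3 (p : ℕ) (hp : 3 ≤ p) :
    (((p - 2 : ℕ) : ℤ) * ((p - 2 : ℕ) : ℤ) - 3 * ((p - 1) * (p - 2) : ℕ) =
      -(((p - 2) * (2 * p - 1) : ℕ) : ℤ)) := by
  obtain ⟨q, rfl⟩ := Nat.exists_eq_add_of_le hp
  have h1 : 3 + q - 2 = q + 1 := by omega
  have h2 : 3 + q - 1 = q + 2 := by omega
  have h3 : 2 * (3 + q) - 1 = 2 * q + 5 := by omega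
  rw [h1, h2, h3]; push_cast; ring

end FinG_aux

variable {p : ℕ} [Fact p.Prime]

theorem FinG_exists_root (p : ℕ) [Fact p.Prime] :
    ∃ ζ : AlgebraicClosure (ZMod p), IsPrimitiveRoot ζ (p - 1) := by
  have hp : p.Prime := Fact.out
  have h1 : ((p - 1 : ℕ) : AlgebraicClosure (ZMod p)) ≠ 0 := by
    haveI : CharP (AlgebraicClosure (ZMod p)) p := inferInstance
    intro h
    rw [CharP.cast_eq_zero_iff (AlgebraicClosure (ZMod p)) p] at h
    exact absurd (Nat.le_of_dvd (by have := hp.two_le; omega) h) (by have := hp.two_le; omega)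
  haveI : NeZero ((p - 1 : ℕ) : AlgebraicClosure (ZMod p)) := ⟨h1⟩
  exact HasEnoughRootsOfUnity.exists_primitiveRoot (AlgebraicClosure (ZMod p)) (p - 1)

/-- The main construction in terms of a polynomial `B` over `F_p`. -/
theorem hasCurve_of_poly (hp2 : p ≠ 2) (m r : ℕ) (W₁ W₃ G : Finset (AlgebraicClosure (ZMod p)))
    (hW₁ : ∀ τ ∈ W₁, (wp p)^[r] τ = 0) (hW₃ : ∀ τ ∈ W₃, (wp p)^[r] τ = 0)
    (hW : Disjoint W₁ W₃) (hG : ∀ τ ∈ G, Good p m r τ) (B : (ZMod p)[X])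
    (hB : B.map (algebraMap (ZMod p) (AlgebraicClosure (ZMod p))) =
      (∏ τ ∈ W₁, (X - C τ)) * (∏ τ ∈ W₃, (X - C τ) ^ 3) * ∏ τ ∈ G, (X - C τ))
    (N : ℕ) (hN1 : N ≡ 1 [MOD p - 1]) (hNp : ¬ p ∣ N)
    (hN2 : p ^ r * (p ^ m - 1) * (p - 3) + (p ^ r - 1) * ((p - 1) * (p - 2) - 1) ≤ N)
    (hN3 : (p - 2) ^ 2 * p ^ r < N) (g : ℕ)
    (hg : 2 * g = (p - 3) * (p ^ r * ((p ^ m - 1) / (p - 1)) + (p ^ r - 1)) +
      (p ^ r * (p ^ m - 1) * (p - 3) + (p ^ r - 1) * ((p - 1) * (p - 2) - 1)) +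
      2 * (W₁.card + W₃.card + (p - 1) * (p - 2) * G.card) + (N - 1) +
      W₁.card * (p - 3) + W₃.card * ((p - 2) * (2 * p - 1) - 1)) :
    HasCurve p g (W₁.card + W₃.card + (p - 1) * (p - 2) * G.card) := by
  classical
  have hp : p.Prime := Fact.out
  have hp3 : 3 ≤ p := by have := hp.two_le; omega
  obtain ⟨ζ, hζ⟩ := FinG_exists_root p
  obtain ⟨K, _, _, ⟨T⟩⟩ := exists_tower hp2 ζ hζ m r
  have hζ0 : ζ ≠ 0 := hζ.ne_zero (by omega)
  set t := T.t with ht_def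
  -- the denominator
  set b1 : K := ∏ τ ∈ W₁, (t - algebraMap (AlgebraicClosure (ZMod p)) K τ) with hb1
  set b3 : K := ∏ τ ∈ W₃, (t - algebraMap (AlgebraicClosure (ZMod p)) K τ) with hb3
  set bG : K := ∏ τ ∈ G, (t - algebraMap (AlgebraicClosure (ZMod p)) K τ) with hbG
  have hinf_t : T.Λ.inf.ord t < 0 := by
    rw [T.ord_t]
    have h1 : 0 < (p - 1) * (p - 2) := Nat.mul_pos (by omega) (by omega)
    have h2 : (0 : ℤ) < ((p - 1) * (p - 2) : ℕ) := by exact_mod_cast h1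
    omega
  have hne : ∀ τ : AlgebraicClosure (ZMod p), t - algebraMap (AlgebraicClosure (ZMod p)) K τ ≠ 0 := fun τ => (FinG_inf T.Λ.inf hinf_t τ).1
  have hb1n : b1 ≠ 0 := Finset.prod_ne_zero_iff.2 fun τ _ => hne τ
  have hb3n : b3 ≠ 0 := Finset.prod_ne_zero_iff.2 fun τ _ => hne τ
  have hbGn : bG ≠ 0 := Finset.prod_ne_zero_iff.2 fun τ _ => hne τ
  set Bt : K := b1 * b3 ^ 3 * bG with hBt
  have hBtn : Bt ≠ 0 := mul_ne_zero (mul_ne_zero hb1n (pow_ne_zero _ hb3n)) hbGn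
  have hBt_eval : Bt = eval₂ ((algebraMap (AlgebraicClosure (ZMod p)) K).comp (algebraMap (ZMod p) (AlgebraicClosure (ZMod p)))) t B := by
    rw [← eval₂_map, hB]
    simp only [eval₂_mul, eval₂_finsetProd, eval₂_pow, eval₂_sub, eval₂_X, eval₂_C]
    rw [hBt, hb1, hb3, hbG, Finset.prod_pow]
  -- `v`
  have hv_ord := T.ord_v
  have hv0 : T.v ≠ 0 := by
    intro h
    have h1 := T.ord_v
    rw [h, T.Λ.inf.ord_zero] at h1
    have h2 : 0 < (p - 2) * p ^ r := Nat.mul_pos (by omega) (pow_pos hp.pos _)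
    have h3 : (0 : ℤ) < ((p - 2) * p ^ r : ℕ) := by exact_mod_cast h2
    omega
  obtain ⟨u, hu0, hureg, huord, husig, huphi⟩ := T.Λ.pol N (by rw [T.gam_eq]; exact hN2)
  set w : K := T.v ^ (p - 2) / Bt with hw
  have hw0 : w ≠ 0 := div_ne_zero (pow_ne_zero _ hv0) hBtn
  -- order at infinity
  have hw_inf : T.Λ.inf.ge (-(((p - 2) ^ 2 * p ^ r : ℕ) : ℤ)) w := by
    rw [T.Λ.inf.ge_iff hw0, hw, T.Λ.inf.ord_div (pow_ne_zero _ hv0) hBtn, T.Λ.inf.ord_pow, T.ord_v]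
    have hle : ∀ A : Finset (AlgebraicClosure (ZMod p)), T.Λ.inf.ord (∏ τ ∈ A, (t - algebraMap (AlgebraicClosure (ZMod p)) K τ)) ≤ 0 := by
      intro A
      rw [(FinG_ord_prod T.Λ.inf A _ fun i _ => hne i).2]
      apply Finset.sum_nonpos
      intro τ _
      rw [(FinG_inf T.Λ.inf hinf_t τ).2]
      omega
    have h1 : T.Λ.inf.ord Bt ≤ 0 := by
      rw [hBt, T.Λ.inf.ord_mul (mul_ne_zero hb1n (pow_ne_zero _ hb3n)) hbGn,
        T.Λ.inf.ord_mul hb1n (pow_ne_zero _ hb3n), T.Λ.inf.ord_pow]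
      have e1 : T.Λ.inf.ord b1 ≤ 0 := hle W₁
      have e3 : T.Λ.inf.ord b3 ≤ 0 := hle W₃
      have eG : T.Λ.inf.ord bG ≤ 0 := hle G
      push_cast
      omega
    have h2 : (((p - 2) ^ 2 * p ^ r : ℕ) : ℤ) = ((p - 2 : ℕ) : ℤ) * (((p - 2) * p ^ r : ℕ) : ℤ) := by
      push_cast; ring
    rw [h2]
    have h3 : ((p - 2 : ℕ) : ℤ) * (-(((p - 2) * p ^ r : ℕ) : ℤ)) =
      -(((p - 2 : ℕ) : ℤ) * (((p - 2) * p ^ r : ℕ) : ℤ)) := by ring
    rw [h3]
    omega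
  have hN3' : (((p - 2) ^ 2 * p ^ r : ℕ) : ℤ) < (N : ℤ) := by exact_mod_cast hN3
  have hg_inf' : u + w ≠ 0 ∧ T.Λ.inf.ord (u + w) = -N := by
    have h := T.Λ.inf.ord_add_eq hu0 (b := w) (hw_inf.mono (by rw [huord]; omega))
    exact ⟨h.1, h.2.trans huord⟩
  have hg_inf : T.Λ.inf.ord (w + u) = -N := by rw [add_comm]; exact hg_inf'.2
  -- `sig`
  have hNζ : ζ ^ N = ζ := by
    obtain ⟨q, hq⟩ := (Nat.modEq_iff_dvd' (by omega)).1 hN1.symm
    have hNq : N = (p - 1) * q + 1 := by omega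
    rw [hNq, pow_succ, pow_mul, hζ.pow_eq_one, one_pow, one_mul]
  have hsigt : T.Λ.sig t = t := T.sig_t
  have hsigprod : ∀ A : Finset (AlgebraicClosure (ZMod p)), T.Λ.sig (∏ τ ∈ A, (t - algebraMap (AlgebraicClosure (ZMod p)) K τ)) =
      ∏ τ ∈ A, (t - algebraMap (AlgebraicClosure (ZMod p)) K τ) := by
    intro A
    rw [map_prod]
    refine Finset.prod_congr rfl fun τ _ => ?_
    rw [map_sub, hsigt, AlgHom.commutes]
  have hsigB : T.Λ.sig Bt = Bt := by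
    rw [hBt, map_mul, map_mul, map_pow, hb1, hb3, hbG, hsigprod, hsigprod, hsigprod]
  have hζp : (ζ ^ (p - 2)) ^ (p - 2) = ζ := by
    have h1 : (p - 2) * (p - 2) = (p - 1) * (p - 3) + 1 := by
      obtain ⟨q, rfl⟩ := Nat.exists_eq_add_of_le hp3
      have h1 : 3 + q - 2 = q + 1 := by omega
      have h2 : 3 + q - 1 = q + 2 := by omega
      have h3 : 3 + q - 3 = q := by omega
      rw [h1, h2, h3]; ring
    rw [← pow_mul, h1, pow_succ, pow_mul, hζ.pow_eq_one, one_pow, one_mul]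
  have hg_sig : T.Λ.sig (w + u) = ζ ^ N • (w + u) := by
    rw [map_add, husig, smul_add, hNζ]
    congr 1
    rw [hw, map_div₀, map_pow, T.sig_v, hsigB, _root_.smul_pow, hζp, smul_div_assoc]
  -- `phi`
  have hphiB : T.Λ.phi Bt = Bt := by
    have h1 : T.Λ.phi.comp ((algebraMap (AlgebraicClosure (ZMod p)) K).comp (algebraMap (ZMod p) (AlgebraicClosure (ZMod p)))) =
        ((algebraMap (AlgebraicClosure (ZMod p)) K).comp (algebraMap (ZMod p) (AlgebraicClosure (ZMod p)))) := Subsingleton.elim _ _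
    have h2 : T.Λ.phi t = t := T.phi_t
    calc T.Λ.phi Bt = T.Λ.phi (eval₂ ((algebraMap (AlgebraicClosure (ZMod p)) K).comp (algebraMap (ZMod p) (AlgebraicClosure (ZMod p)))) t B) :=
          congrArg _ hBt_eval
      _ = eval₂ (T.Λ.phi.comp ((algebraMap (AlgebraicClosure (ZMod p)) K).comp (algebraMap (ZMod p) (AlgebraicClosure (ZMod p))))) (T.Λ.phi t) B :=
          hom_eval₂ _ _ _ _
      _ = Bt := by rw [h1, h2, ← hBt_eval]
  have hg_phi : T.Λ.phi (w + u) = w + u := by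
    rw [map_add, huphi, hw, map_div₀, map_pow, T.phi_v, hphiB]
  -- orders at the finite places
  have hureg' : ∀ P, P ≠ T.Λ.inf → P.ge 0 u := hureg
  have hord_w : ∀ P, P ≠ T.Λ.inf → ∀ a1 a3 aG : ℤ,
      (P.val t ∈ W₁ → P.ord (t - algebraMap (AlgebraicClosure (ZMod p)) K (P.val t)) = a1) →
      (P.val t ∈ W₃ → P.ord (t - algebraMap (AlgebraicClosure (ZMod p)) K (P.val t)) = a3) →
      (P.val t ∈ G → P.ord (t - algebraMap (AlgebraicClosure (ZMod p)) K (P.val t)) = aG) →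
      P.ord w = ((p - 2 : ℕ) : ℤ) * P.ord T.v - ((if P.val t ∈ W₁ then a1 else 0) +
        3 * (if P.val t ∈ W₃ then a3 else 0) + (if P.val t ∈ G then aG else 0)) := by
    intro P hP a1 a3 aG h1 h3 hG'
    have hreg : P.ge 0 t := T.reg_t P hP
    rw [hw, P.ord_div (pow_ne_zero _ hv0) hBtn, P.ord_pow, hBt,
      P.ord_mul (mul_ne_zero hb1n (pow_ne_zero _ hb3n)) hbGn,
      P.ord_mul hb1n (pow_ne_zero _ hb3n), P.ord_pow, hb1, hb3, hbG,
      (FinG_prod P hne hreg W₁ a1 h1).2, (FinG_prod P hne hreg W₃ a3 h3).2,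
      (FinG_prod P hne hreg G aG hG').2]
    push_cast
    ring
  have hGW : ∀ τ ∈ G, (wp p)^[r] τ ≠ 0 := fun τ hτ => (hG τ hτ).1
  have hord1 : ∀ P, P ≠ T.Λ.inf → P.val t ∈ W₁ → P.ord w = -((p - 2 : ℕ) : ℤ) ∧
      P.ge 1 T.Λ.s ∧ ∀ a, P.ord (T.Λ.sig a) = P.ord a := by
    intro P hP hPW
    obtain ⟨hs, hv, hs1, hv1, hv0', ht0, ht1, hfix⟩ := T.ord_fix hp2 P hP (P.val t) rfl (hW₁ _ hPW)
    have h3 : P.val t ∉ W₃ := Finset.disjoint_left.1 hW hPW
    have h4 : P.val t ∉ G := fun h => hGW _ h (hW₁ _ hPW)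
    refine ⟨?_, Or.inr (by rw [hs1]), hfix⟩
    rw [hord_w P hP (((p - 1) * (p - 2) : ℕ) : ℤ) 0 0 (fun _ => ht1) (fun h => absurd h h3)
      (fun h => absurd h h4), if_pos hPW, if_neg h3, if_neg h4, hv1]
    have := FinG_arith1 p hp3
    linarith
  have hord3 : ∀ P, P ≠ T.Λ.inf → P.val t ∈ W₃ → P.ord w = -(((p - 2) * (2 * p - 1) : ℕ) : ℤ) ∧
      P.ge 1 T.Λ.s ∧ ∀ a, P.ord (T.Λ.sig a) = P.ord a := by
    intro P hP hPW
    obtain ⟨hs, hv, hs1, hv1, hv0', ht0, ht1, hfix⟩ := T.ord_fix hp2 P hP (P.val t) rfl (hW₃ _ hPW)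
    have h3 : P.val t ∉ W₁ := Finset.disjoint_right.1 hW hPW
    have h4 : P.val t ∉ G := fun h => hGW _ h (hW₃ _ hPW)
    refine ⟨?_, Or.inr (by rw [hs1]), hfix⟩
    rw [hord_w P hP 0 (((p - 1) * (p - 2) : ℕ) : ℤ) 0 (fun h => absurd h h3) (fun _ => ht1)
      (fun h => absurd h h4), if_pos hPW, if_neg h3, if_neg h4, hv1]
    have := FinG_arith3 p hp3
    linarith
  have hordG : ∀ P, P ≠ T.Λ.inf → P.val t ∈ G → P.ord w = -1 := by
    intro P hP hPW
    obtain ⟨hv, hs, hv1, ht0, ht1⟩ := T.ord_good hp2 P hP (P.val t) rfl (hG _ hPW)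
    have h1 : P.val t ∉ W₁ := fun h => hGW _ hPW (hW₁ _ h)
    have h3 : P.val t ∉ W₃ := fun h => hGW _ hPW (hW₃ _ h)
    rw [hord_w P hP 0 0 1 (fun h => absurd h h1) (fun h => absurd h h3)
      (fun _ => ht1), if_pos hPW, if_neg h1, if_neg h3, hv1]
    ring
  have hord0 : ∀ P, P ≠ T.Λ.inf → P.val t ∉ W₁ → P.val t ∉ W₃ → P.val t ∉ G → P.ge 0 w := by
    intro P hP h1 h3 h4
    rw [P.ge_iff hw0, hord_w P hP 0 0 0 (fun h => absurd h h1) (fun h => absurd h h3)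
      (fun h => absurd h h4), if_neg h1, if_neg h3, if_neg h4]
    have h5 := T.reg_v P hP
    rw [P.ge_iff hv0] at h5
    have : 0 ≤ ((p - 2 : ℕ) : ℤ) * P.ord T.v := mul_nonneg (by positivity) h5
    linarith
  have hord_g : ∀ P, P ≠ T.Λ.inf → P.ord w < 0 → P.ord (w + u) = P.ord w := by
    intro P hP h
    exact (P.ord_add_eq hw0 ((hureg' P hP).mono (by omega))).2
  have hpos3 : 0 < (p - 2) * (2 * p - 1) := Nat.mul_pos (by omega) (by omega)
  have hordg1 : ∀ P, P ≠ T.Λ.inf → P.val t ∈ W₁ → P.ord (w + u) = -((p - 2 : ℕ) : ℤ) := by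
    intro P hP h
    have h1 := (hord1 P hP h).1
    rw [hord_g P hP (by rw [h1]; omega), h1]
  have hordg3 : ∀ P, P ≠ T.Λ.inf → P.val t ∈ W₃ →
      P.ord (w + u) = -(((p - 2) * (2 * p - 1) : ℕ) : ℤ) := by
    intro P hP h
    have h1 := (hord3 P hP h).1
    rw [hord_g P hP (by rw [h1]; omega), h1]
  have hordgG : ∀ P, P ≠ T.Λ.inf → P.val t ∈ G → P.ord (w + u) = -1 := by
    intro P hP h
    have h1 := hordG P hP h
    rw [hord_g P hP (by rw [h1]; omega), h1]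
  have hordg0 : ∀ P, P ≠ T.Λ.inf → P.val t ∉ W₁ → P.val t ∉ W₃ → P.val t ∉ G →
      P.ge 0 (w + u) := fun P hP h1 h3 h4 => P.ge_add (hord0 P hP h1 h3 h4) (hureg' P hP)
  have hdvd1 : ¬ (p : ℤ) ∣ -((p - 2 : ℕ) : ℤ) := by
    rw [dvd_neg]
    intro h
    have h1 : p ∣ p - 2 := by exact_mod_cast h
    exact absurd (Nat.le_of_dvd (by omega) h1) (by omega)
  have hdvd3 : ¬ (p : ℤ) ∣ -(((p - 2) * (2 * p - 1) : ℕ) : ℤ) := by
    rw [dvd_neg]
    intro h
    have h1 : p ∣ (p - 2) * (2 * p - 1) := by exact_mod_cast h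
    rcases hp.dvd_mul.1 h1 with h1 | h1
    · exact absurd (Nat.le_of_dvd (by omega) h1) (by omega)
    · have h2 : p ∣ 1 := by
        have h3 : p ∣ 2 * p := Dvd.intro_left 2 rfl
        have h4 := Nat.dvd_sub h3 h1
        have h5 : 2 * p - (2 * p - 1) = 1 := by omega
        rwa [h5] at h4
      exact hp.one_lt.ne' (Nat.dvd_one.1 h2)
  -- places
  obtain ⟨S1, S2, hS1, hS2, hc1, hc2⟩ := T.exists_places hp2 W₁ G hW₁ hG
  obtain ⟨S3, S4, hS3, hS4, hc3, hc4⟩ := T.exists_places hp2 W₃ ∅ hW₃ (by simp)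
  have hd13 : Disjoint S1 S3 := by
    rw [Finset.disjoint_left]
    intro P h1 h3
    exact Finset.disjoint_left.1 hW ((hS1 P).1 h1).2 ((hS3 P).1 h3).2
  have hd2 : Disjoint (S1 ∪ S3) S2 := by
    rw [Finset.disjoint_left]
    intro P h1 h2
    have h4 := hGW _ ((hS2 P).1 h2).2
    rcases Finset.mem_union.1 h1 with h1 | h1
    · exact h4 (hW₁ _ ((hS1 P).1 h1).2)
    · exact h4 (hW₃ _ ((hS3 P).1 h1).2)
  have hScard : (S1 ∪ S3 ∪ S2).card = W₁.card + W₃.card + (p - 1) * (p - 2) * G.card := by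
    rw [Finset.card_union_of_disjoint hd2, Finset.card_union_of_disjoint hd13, hc1, hc2, hc3]
  have hSsum : ∑ P ∈ S1 ∪ S3 ∪ S2, (pole (w + u) P - 1) =
      W₁.card * (p - 3) + W₃.card * ((p - 2) * (2 * p - 1) - 1) := by
    rw [Finset.sum_union hd2, Finset.sum_union hd13]
    have h1 : ∀ P ∈ S1, pole (w + u) P - 1 = p - 3 := by
      intro P hP
      unfold pole
      rw [hordg1 P ((hS1 P).1 hP).1 ((hS1 P).1 hP).2]
      omega
    have h3 : ∀ P ∈ S3, pole (w + u) P - 1 = (p - 2) * (2 * p - 1) - 1 := by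
      intro P hP
      unfold pole
      rw [hordg3 P ((hS3 P).1 hP).1 ((hS3 P).1 hP).2, neg_neg, Int.toNat_natCast]
    have h2 : ∀ P ∈ S2, pole (w + u) P - 1 = 0 := by
      intro P hP
      unfold pole
      rw [hordgG P ((hS2 P).1 hP).1 ((hS2 P).1 hP).2]
      simp
    rw [Finset.sum_congr rfl h1, Finset.sum_congr rfl h2, Finset.sum_congr rfl h3]
    simp [hc1, hc3]
  rw [← hScard]
  refine hasCurve_of_ladder p hp2 ζ hζ T.Λ (w + u) N (by omega) hNp ?_ hg_inf hg_sig hg_phi ?_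
    (S1 ∪ S3 ∪ S2) ?_ ?_ g ?_
  · have h := hN1.gcd_eq
    rw [Nat.gcd_one_left] at h
    exact h
  · intro P
    by_cases hP : P = T.Λ.inf
    · right
      rw [hP, hg_inf]
      refine ⟨by omega, ?_⟩
      rw [dvd_neg]
      exact_mod_cast hNp
    · by_cases h1 : P.val t ∈ W₁
      · right
        rw [hordg1 P hP h1]
        exact ⟨by omega, hdvd1⟩
      by_cases h3 : P.val t ∈ W₃
      · right
        rw [hordg3 P hP h3]
        exact ⟨by omega, hdvd3⟩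
      by_cases h4 : P.val t ∈ G
      · right
        rw [hordgG P hP h4]
        refine ⟨by omega, ?_⟩
        rw [dvd_neg]
        intro h
        have h5 : p ∣ 1 := by exact_mod_cast h
        exact hp.one_lt.ne' (Nat.dvd_one.1 h5)
      · left
        exact hordg0 P hP h1 h3 h4
  · intro P
    rw [Finset.mem_union, Finset.mem_union, hS1, hS2, hS3]
    constructor
    · rintro ((⟨hP, h⟩ | ⟨hP, h⟩) | ⟨hP, h⟩)
      · exact ⟨hP, by rw [hordg1 P hP h]; omega⟩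
      · exact ⟨hP, by rw [hordg3 P hP h]; omega⟩
      · exact ⟨hP, by rw [hordgG P hP h]; omega⟩
    · rintro ⟨hP, h⟩
      by_contra hc
      push Not at hc
      have h5 := hordg0 P hP (fun h' => hc.1.1 hP h') (fun h' => hc.1.2 hP h')
        (fun h' => hc.2 hP h')
      rcases h5 with h5 | h5
      · rw [h5, P.ord_zero] at h; omega
      · omega
  · intro P hP
    rw [Finset.mem_union, Finset.mem_union, hS1, hS2, hS3] at hP
    rcases hP with (⟨hP, h⟩ | ⟨hP, h⟩) | ⟨hP, h⟩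
    · exact Or.inr ⟨(hord1 P hP h).2.2, (hord1 P hP h).2.1⟩
    · exact Or.inr ⟨(hord3 P hP h).2.2, (hord3 P hP h).2.1⟩
    · exact Or.inl (hordgG P hP h)
  · rw [hg, hScard, hSsum, T.ginv_eq, T.gam_eq]
    ring

end Pool.Agent.PRB
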