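import Pool.Agent.LibPRB.FinP

/-!
# The trace of an element which is integral at all places over `P`

PLAN. Let `R : Subring L` be the integral closure in `L` of the image of `P.ring` (the set of the
`x : L` integral over the subring `(algebraMap K L).range`-image of `P.ring`).  If `a ∉ R` then, by
`Subring.exists_le_valuationSubring_of_isIntegrallyClosedIn` (used in Cls1.lean, `const_of_ord`),
there is a valuation subring `V ≥ R` of `L`, `a ∉ V`.  `V` contains the image of `P.ring`.  If it
contained the image of `K` then `V = ⊤` (see the proof of `comap_isPl`, OverEx.lean).  So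
`V.comap (algebraMap K L) ≠ ⊤` contains `P.ring`, and hence equals it (`x ∈ V`, `P.ord x < 0`:
every `y : K` is `y = (y x ^ (-N)) x ^ N` with `y x ^ (-N) ∈ P.ring` for large `N`, so `K ≤ V`).
By `plc_exists` `V = Q.ring` with `OverE e Q P`, contradiction.  So `a` is integral over `P.ring`,
then `Algebra.isIntegral_trace` and `P.ring` is integrally closed.
(Algebra structures: `P.ring` is a `ValuationSubring K`; one can use
`letI : Algebra P.ring L := ((algebraMap K L).comp P.ring.subtype).toAlgebra`.)
-/

set_option autoImplicit false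

namespace Pool.Agent.PRB

variable {k K L : Type} [Field k] [Field K] [Field L]
  [Algebra k K] [Algebra k L] [Algebra K L] [IsScalarTower k K L]

/-- the valuation ring of a discrete place is maximal -/
private theorem FinI_max {k K : Type} [Field k] [Field K] [Algebra k K] (P : Plc k K)
    (W : ValuationSubring K) (hW : ∀ x, P.ge 0 x → x ∈ W) (hne : W ≠ ⊤) (x : K) :
    x ∈ W ↔ P.ge 0 x := by
  refine ⟨fun hx => ?_, hW x⟩
  by_contra hcon
  apply hne
  rw [eq_top_iff]
  intro y _
  have hx0 : x ≠ 0 := by
    rintro rfl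
    exact hcon (P.ge_zero 0)
  rw [P.ge_iff hx0] at hcon
  by_cases hy : y = 0
  · rw [hy]
    exact W.zero_mem
  have hN : P.ge 0 (y * (x ^ (P.ord y).natAbs)⁻¹) := by
    right
    rw [P.ord_mul hy (inv_ne_zero (pow_ne_zero _ hx0)), P.ord_inv, P.ord_pow]
    have h1 : P.ord x ≤ -1 := by omega
    have h2 : (0 : ℤ) ≤ ((P.ord y).natAbs : ℤ) := by positivity
    have h3 : -P.ord y ≤ ((P.ord y).natAbs : ℤ) := by omega
    nlinarith
  have h1 := W.mul_mem _ _ (hW _ hN) (W.pow_mem hx (P.ord y).natAbs)
  rwa [inv_mul_cancel_right₀ (pow_ne_zero _ hx0)] at h1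

theorem trace_ge [IsAlgClosed k] (hfin : Module.Finite K L) (P : Plc k K) (a : L)
    (ha : ∀ (Q : Plc k L) (e : ℕ), OverE e Q P → Q.ge 0 a) : P.ge 0 (Algebra.trace K L a) := by
  letI : Algebra P.ring L := ((algebraMap K L).comp P.ring.subtype).toAlgebra
  haveI : IsScalarTower P.ring K L := IsScalarTower.of_algebraMap_eq fun r => rfl
  have hint : IsIntegral P.ring a := by
    by_contra hcon
    have haR : a ∉ (integralClosure P.ring L).toSubring := hcon
    obtain ⟨V, hV, haV⟩ := Subring.exists_le_valuationSubring_of_isIntegrallyClosedIn haR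
    have h1 : ∀ x : K, P.ge 0 x → algebraMap K L x ∈ V := by
      intro x hx
      apply hV
      have h2 : IsIntegral P.ring (algebraMap P.ring L ⟨x, hx⟩) := isIntegral_algebraMap
      exact h2
    have hpl : IsPl k V := by
      refine ⟨fun c => ?_, ?_⟩
      · rw [IsScalarTower.algebraMap_apply k K L]
        exact h1 _ (P.ge_const c)
      · rintro rfl
        exact haV trivial
    have hpl2 := comap_isPl (K := K) V hpl
    have hO : ∀ x : K, algebraMap K L x ∈ V ↔ P.ge 0 x := fun x =>
      FinI_max P (V.comap (algebraMap K L)) h1 hpl2.2 x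
    obtain ⟨Q, e, hQ, hov⟩ := plc_exists hfin P V hO
    apply haV
    rw [← hQ, Q.mem_ring]
    exact ha Q e hov
  have htr : IsIntegral P.ring (Algebra.trace K L a) := Algebra.isIntegral_trace hint
  obtain ⟨y, hy⟩ := IsIntegrallyClosed.isIntegral_iff.1 htr
  rw [← hy]
  exact y.2

end Pool.Agent.PRB
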