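import Pool.Agent.LibPRB.Appr

/-!
# Finitely many places over a given place

PLAN. Otherwise there are `n + 1` different places `Q_0, ..., Q_n` over `P`, `n = finrank K L`
(`Set.Infinite.exists_subset_card_eq`).  By `exists_appr` there are `f_i` with `Q_i.ord f_i = 0`,
`1 ≤ Q_j.ord f_i` for `j ≠ i`.  They are linearly independent over `K`: in a relation
`∑ c_i f_i = 0` with some `c_i ≠ 0` let `i` be such that `P.ord c_i` is minimal among the nonzero
`c_j`; then `Q_i.ord (c_i f_i) = e_i * P.ord c_i` and the other terms satisfy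
`Q_i.ge (e_i * P.ord c_i + 1)`, contradiction with `Plc.ord_add_eq`.
-/

set_option autoImplicit false

namespace Pool.Agent.PRB

variable {k K L : Type} [Field k] [Field K] [Field L]
  [Algebra k K] [Algebra k L] [Algebra K L] [IsScalarTower k K L]

omit [IsScalarTower k K L] in
private theorem FinN_li (P : Plc k K) (t : Finset (Plc k L)) (ht : ∀ Q ∈ t, ∃ e, OverE e Q P)
    (f : Plc k L → L) (hf0 : ∀ Q ∈ t, f Q ≠ 0) (hf1 : ∀ Q ∈ t, Q.ord (f Q) = 0)
    (hf2 : ∀ Q ∈ t, ∀ Q' ∈ t, Q' ≠ Q → 1 ≤ Q'.ord (f Q)) :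
    LinearIndependent K (fun Q : t => f Q) := by
  classical
  rw [Fintype.linearIndependent_iff]
  intro g hg
  by_contra hcon
  push Not at hcon
  obtain ⟨i0, hi0⟩ := hcon
  obtain ⟨i, hi, hmin⟩ := Finset.exists_min_image (Finset.univ.filter fun i : t => g i ≠ 0)
    (fun i => P.ord (g i)) ⟨i0, Finset.mem_filter.2 ⟨Finset.mem_univ _, hi0⟩⟩
  have hgi : g i ≠ 0 := (Finset.mem_filter.1 hi).2
  obtain ⟨e, he, hov⟩ := ht i i.2
  have hne : g i • f i ≠ 0 := smul_ne_zero hgi (hf0 i i.2)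
  have hord : (i : Plc k L).ord (g i • f i) = e * P.ord (g i) := by
    rw [Algebra.smul_def, (i : Plc k L).ord_mul ((map_ne_zero _).2 hgi) (hf0 i i.2), hov,
      hf1 i i.2, add_zero]
  have hrest : (i : Plc k L).ge ((i : Plc k L).ord (g i • f i) + 1)
      (∑ j ∈ Finset.univ.erase i, g j • f j) := by
    refine Plc.ge_sum _ _ _ fun j hj => ?_
    have hji : j ≠ i := (Finset.mem_erase.1 hj).1
    by_cases hgj : g j = 0
    · rw [hgj, zero_smul]
      exact Plc.ge_zero _ _
    · right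
      have h1 := hmin j (Finset.mem_filter.2 ⟨Finset.mem_univ _, hgj⟩)
      have h2 : 1 ≤ (i : Plc k L).ord (f j) :=
        hf2 j j.2 i i.2 (fun h => hji (Subtype.ext h.symm))
      rw [hord, Algebra.smul_def, (i : Plc k L).ord_mul ((map_ne_zero _).2 hgj) (hf0 j j.2), hov]
      have h3 : (e : ℤ) * P.ord (g i) ≤ e * P.ord (g j) :=
        mul_le_mul_of_nonneg_left h1 (by positivity)
      linarith
  have h4 := ((i : Plc k L).ord_add_eq hne hrest).1
  rw [Finset.add_sum_erase Finset.univ (fun j : t => g j • f j) (Finset.mem_univ i)] at h4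
  exact h4 hg

theorem over_finite (hfin : Module.Finite K L) (P : Plc k K) :
    {Q : Plc k L | ∃ e, OverE e Q P}.Finite := by
  classical
  by_contra hinf
  obtain ⟨t, hts, htc⟩ := Set.Infinite.exists_subset_card_eq hinf (Module.finrank K L + 1)
  have h1 : ∀ Q : Plc k L, ∃ s : L, s ≠ 0 ∧ Q.ord s = 0 ∧ ∀ Q' ∈ t.erase Q, ((1 : ℕ) : ℤ) ≤ Q'.ord s :=
    fun Q => exists_appr (t.erase Q) Q (Finset.notMem_erase Q t) 1
  choose f hf0 hf1 hf2 using h1
  have h2 := (FinN_li P t (fun Q hQ => hts hQ) f (fun Q _ => hf0 Q) (fun Q _ => hf1 Q)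
    (fun Q _ Q' hQ' hne => by
      have := hf2 Q Q' (Finset.mem_erase.2 ⟨hne, hQ'⟩)
      exact_mod_cast this)).fintype_card_le_finrank
  rw [Fintype.card_coe, htc] at h2
  omega

end Pool.Agent.PRB
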