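import Pool.Agent.LibPRB.TwD
import Pool.Agent.LibPRB.ValF

/-!
# Places of a finite extension

PLAN for `plc_exists`.  Let `n = finrank K L`.  (1) Strengthen `exists_pow_unit` (ValF.lean): there
`m = i - j` with `i, j ≤ natDegree (minpoly)`, so `m ≤ n` can be obtained; hence
`∃ c ≠ 0, a ^ (n !) / c ∈ O ∧ c / a ^ (n !) ∈ O` for every `a ≠ 0` (raise to the power `n! / m`).
(2) `j a := P.ord c` is well defined (if `c, c'` are both good then `c / c'` and `c' / c` are in
`O`, so `P.ord c = P.ord c'` by `hO`), and `j (a b) = j a + j b`, `a ∈ O ↔ 0 ≤ j a`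
(`O` is integrally closed, or: if `j a ≥ 0` then `a ^ (n!) ∈ O`, and if `a ∉ O` then `a⁻¹ ∈ O` and
`a = a ^ (n!) * (a⁻¹) ^ (n! - 1) ∈ O`), `j (algebraMap x) = n! * P.ord x`.
(3) Let `c0 > 0` be the least positive value of `j`; `c0 ∣ j a` for all `a ≠ 0` (division with
remainder), `Q.ord a := j a / c0`, `e = n! / c0`.
`exists_const`: `exists_residue` (ValF.lean).
`OverE.under_unique`: apply both formulas for `Q.ord (algebraMap a)` to uniformizers of `P` and `P'`:
`e = e'`, then the orders agree (`Plc.ext`).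
-/

set_option autoImplicit false

namespace Pool.Agent.PRB

variable {k K L : Type} [Field k] [Field K] [Field L]
  [Algebra k K] [Algebra k L] [Algebra K L] [IsScalarTower k K L]

/-- the values of `a ^ (n !)` are values of `K` -/
theorem FinP_pow {k K L : Type} [Field k] [Field K] [Field L] [Algebra k K] [Algebra K L]
    (hfin : Module.Finite K L) (O : ValuationSubring L) (a : L) (ha : a ≠ 0) :
    ∃ c : K, c ≠ 0 ∧ O.valuation a ^ (Module.finrank K L).factorial =
      O.valuation (algebraMap K L c) := by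
  set f := minpoly K a with hfdef
  have hint : IsIntegral K a := Algebra.IsIntegral.isIntegral a
  have hf0 : f ≠ 0 := (minpoly.monic hint).ne_zero
  have hsum : ∑ i ∈ f.support, algebraMap K L (f.coeff i) * a ^ i = 0 := by
    have h := minpoly.aeval K a
    rw [Polynomial.aeval_def, Polynomial.eval₂_eq_sum, Polynomial.sum_def] at h
    exact h
  have hterm : ∀ i ∈ f.support, algebraMap K L (f.coeff i) * a ^ i ≠ 0 := by
    intro i hi
    refine mul_ne_zero ?_ (pow_ne_zero _ ha)
    rw [Ne, map_eq_zero]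
    exact Polynomial.mem_support_iff.1 hi
  obtain ⟨i0, hi0⟩ := Polynomial.support_nonempty.2 hf0
  obtain ⟨i, hi, j, hj, hji, _, _, hv⟩ := ValF_two O f.support
    (fun i => algebraMap K L (f.coeff i) * a ^ i) ⟨i0, hi0, hterm i0 hi0⟩ hsum
  have hci := Polynomial.mem_support_iff.1 hi
  have hcj := Polynomial.mem_support_iff.1 hj
  have hc : f.coeff j / f.coeff i ≠ 0 := div_ne_zero hcj hci
  have hci' : algebraMap K L (f.coeff i) ≠ 0 := by rw [Ne, map_eq_zero]; exact hci
  have hkey : O.valuation (a ^ (i - j)) = O.valuation (algebraMap K L (f.coeff j / f.coeff i)) := by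
    have h1 : a ^ i = a ^ (i - j) * a ^ j := by rw [← pow_add]; congr 1; omega
    have hv' : O.valuation (algebraMap K L (f.coeff i)) * (O.valuation (a ^ (i - j)) *
        O.valuation (a ^ j)) = O.valuation (algebraMap K L (f.coeff j)) * O.valuation (a ^ j) := by
      rw [← map_mul, ← h1, ← map_mul, ← map_mul]
      exact hv
    have hvj : O.valuation (a ^ j) ≠ 0 := (Valuation.ne_zero_iff _).2 (pow_ne_zero _ ha)
    have hvi : O.valuation (algebraMap K L (f.coeff i)) ≠ 0 := (Valuation.ne_zero_iff _).2 hci'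
    have h2 : O.valuation (algebraMap K L (f.coeff i)) * O.valuation (a ^ (i - j)) =
        O.valuation (algebraMap K L (f.coeff j)) := by
      apply mul_right_cancel₀ hvj
      rw [mul_assoc]; exact hv'
    rw [map_div₀, map_div₀, eq_div_iff hvi, mul_comm]
    exact h2
  have hle : i - j ≤ Module.finrank K L :=
    (Nat.sub_le _ _).trans ((Polynomial.le_natDegree_of_mem_supp _ hi).trans (minpoly.natDegree_le a))
  obtain ⟨r, hr⟩ := Nat.dvd_factorial (by omega : 0 < i - j) hle
  refine ⟨(f.coeff j / f.coeff i) ^ r, pow_ne_zero _ hc, ?_⟩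
  rw [hr, pow_mul, ← map_pow, hkey, map_pow, map_pow]

theorem FinP_le (P : Plc k K) (O : ValuationSubring L)
    (hO : ∀ a : K, algebraMap K L a ∈ O ↔ P.ge 0 a) {c c' : K} (hc : c ≠ 0) (hc' : c' ≠ 0) :
    O.valuation (algebraMap K L c) ≤ O.valuation (algebraMap K L c') ↔ P.ord c' ≤ P.ord c := by
  have hv : O.valuation (algebraMap K L c') ≠ 0 :=
    (Valuation.ne_zero_iff _).2 (by rw [Ne, map_eq_zero]; exact hc')
  rw [← div_le_one₀ (zero_lt_iff.2 hv), ← map_div₀, ← map_div₀,
    ValuationSubring.valuation_le_one_iff, hO, P.ge_iff (div_ne_zero hc hc'), P.ord_div hc hc']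
  omega

theorem FinP_eq (P : Plc k K) (O : ValuationSubring L)
    (hO : ∀ a : K, algebraMap K L a ∈ O ↔ P.ge 0 a) {c c' : K} (hc : c ≠ 0) (hc' : c' ≠ 0) :
    O.valuation (algebraMap K L c) = O.valuation (algebraMap K L c') ↔ P.ord c' = P.ord c := by
  rw [le_antisymm_iff, FinP_le P O hO hc hc', FinP_le P O hO hc' hc]
  omega

/-- the unnormalised order -/
theorem FinP_j (hfin : Module.Finite K L) (P : Plc k K) (O : ValuationSubring L)
    (hO : ∀ a : K, algebraMap K L a ∈ O ↔ P.ge 0 a) :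
    ∃ (N : ℕ) (j : L → ℤ), 0 < N ∧ j 0 = 0 ∧ (∀ a b, a ≠ 0 → b ≠ 0 → j (a * b) = j a + j b) ∧
      (∀ a b, a ≠ 0 → b ≠ 0 → (O.valuation a ≤ O.valuation b ↔ j b ≤ j a)) ∧
      ∀ x : K, j (algebraMap K L x) = N * P.ord x := by
  classical
  set N := (Module.finrank K L).factorial with hN
  have hN0 : N ≠ 0 := Nat.factorial_ne_zero _
  have hex : ∀ a : L, a ≠ 0 → ∃ c : K, c ≠ 0 ∧ O.valuation a ^ N =
      O.valuation (algebraMap K L c) := fun a ha => FinP_pow (k := k) hfin O a ha
  let j : L → ℤ := fun a => if h : a = 0 then 0 else P.ord (hex a h).choose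
  have hj : ∀ a, a ≠ 0 → ∀ c, c ≠ 0 → O.valuation a ^ N = O.valuation (algebraMap K L c) →
      j a = P.ord c := by
    intro a ha c hc h
    have h1 := (hex a ha).choose_spec
    have h2 : j a = P.ord (hex a ha).choose := dif_neg ha
    rw [h2]
    exact (FinP_eq P O hO hc h1.1).1 (h.symm.trans h1.2)
  refine ⟨N, j, Nat.pos_of_ne_zero hN0, dif_pos rfl, ?_, ?_, ?_⟩
  · intro a b ha hb
    obtain ⟨c, hc, hac⟩ := hex a ha
    obtain ⟨d, hd, hbd⟩ := hex b hb
    rw [hj a ha c hc hac, hj b hb d hd hbd, hj (a * b) (mul_ne_zero ha hb) (c * d)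
      (mul_ne_zero hc hd) (by rw [map_mul, mul_pow, hac, hbd, ← map_mul, ← map_mul]),
      P.ord_mul hc hd]
  · intro a b ha hb
    obtain ⟨c, hc, hac⟩ := hex a ha
    obtain ⟨d, hd, hbd⟩ := hex b hb
    rw [hj a ha c hc hac, hj b hb d hd hbd, ← FinP_le P O hO hc hd, ← hac, ← hbd]
    exact (pow_le_pow_iff_left₀ zero_le zero_le hN0).symm
  · intro x
    by_cases hx : x = 0
    · rw [hx, map_zero, P.ord_zero, mul_zero]; exact dif_pos rfl
    · have hx' : algebraMap K L x ≠ 0 := by rw [Ne, map_eq_zero]; exact hx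
      rw [hj _ hx' (x ^ N) (pow_ne_zero _ hx) (by rw [map_pow, map_pow]), P.ord_pow]

theorem plc_exists [IsAlgClosed k] (hfin : Module.Finite K L) (P : Plc k K)
    (O : ValuationSubring L) (hO : ∀ a : K, algebraMap K L a ∈ O ↔ P.ge 0 a) :
    ∃ (Q : Plc k L) (e : ℕ), Q.ring = O ∧ OverE e Q P := by
  classical
  obtain ⟨N, j, hN, hj0, hmul, hle, hK⟩ := FinP_j hfin P O hO
  have hone : j 1 = 0 := by
    have h := hmul 1 1 one_ne_zero one_ne_zero
    rw [mul_one] at h
    omega
  have hinv : ∀ a, a ≠ 0 → j a⁻¹ = - j a := by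
    intro a ha
    have h := hmul a a⁻¹ ha (inv_ne_zero ha)
    rw [mul_inv_cancel₀ ha, hone] at h
    omega
  have hpow : ∀ a, a ≠ 0 → ∀ n : ℕ, j (a ^ n) = n * j a := by
    intro a ha n
    induction n with
    | zero => rw [pow_zero, hone]; simp
    | succ n ih => rw [pow_succ, hmul _ _ (pow_ne_zero _ ha) ha, ih]; push_cast; ring
  have hzpow : ∀ a, a ≠ 0 → ∀ n : ℤ, j (a ^ n) = n * j a := by
    intro a ha n
    obtain ⟨m, rfl | rfl⟩ := n.eq_nat_or_neg
    · rw [zpow_natCast, hpow a ha]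
    · rw [zpow_neg, zpow_natCast, hinv _ (pow_ne_zero _ ha), hpow a ha]; ring
  have hmem : ∀ a, a ≠ 0 → (a ∈ O ↔ 0 ≤ j a) := by
    intro a ha
    rw [← ValuationSubring.valuation_le_one_iff, ← map_one O.valuation,
      hle a 1 ha one_ne_zero, hone]
  -- the least positive value
  obtain ⟨π, hπ0, hπ⟩ := P.exists_unif
  have hπ' : algebraMap K L π ≠ 0 := by rw [Ne, map_eq_zero]; exact hπ0
  have hex : ∃ m : ℕ, 0 < m ∧ ∃ b, b ≠ 0 ∧ j b = m :=
    ⟨N, hN, algebraMap K L π, hπ', by rw [hK, hπ, mul_one]⟩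
  obtain ⟨hc0, b, hb0, hb⟩ := Nat.find_spec hex
  set c0 := Nat.find hex with hc0def
  have hmin : ∀ m : ℕ, 0 < m → (∃ b, b ≠ 0 ∧ j b = m) → c0 ≤ m := fun m hm h =>
    Nat.find_min' hex ⟨hm, h⟩
  have hc0' : (0 : ℤ) < c0 := by exact_mod_cast hc0
  have hdvd : ∀ a, (c0 : ℤ) ∣ j a := by
    intro a
    by_cases ha : a = 0
    · rw [ha, hj0]; exact dvd_zero _
    · have h1 : j (a * b ^ (-(j a / c0))) = j a % c0 := by
        rw [hmul _ _ ha (zpow_ne_zero _ hb0), hzpow b hb0, hb]
        have := Int.emod_add_mul_ediv (j a) c0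
        linarith
      have h2 : 0 ≤ j a % c0 := Int.emod_nonneg _ hc0'.ne'
      have h3 : j a % c0 < c0 := Int.emod_lt_of_pos _ hc0'
      by_contra hnd
      have h4 : j a % c0 ≠ 0 := fun h => hnd (Int.dvd_of_emod_eq_zero h)
      obtain ⟨m, hm⟩ := Int.eq_ofNat_of_zero_le h2
      have h5 := hmin m (by omega) ⟨_, mul_ne_zero ha (zpow_ne_zero _ hb0), h1.trans hm⟩
      omega
  have hdiv : ∀ a, (c0 : ℤ) * (j a / c0) = j a := fun a => Int.mul_ediv_cancel' (hdvd a)
  have hnonneg : ∀ a, 0 ≤ j a / c0 ↔ 0 ≤ j a := by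
    intro a
    constructor
    · intro h; rw [← hdiv a]; exact mul_nonneg hc0'.le h
    · intro h; exact Int.ediv_nonneg h hc0'.le
  let Q : Plc k L :=
    { ord := fun a => j a / c0
      ord_zero := by show j 0 / (c0 : ℤ) = 0; rw [hj0, Int.zero_ediv]
      ord_mul' := by
        intro a b ha hb
        show j (a * b) / (c0 : ℤ) = j a / c0 + j b / c0
        rw [hmul a b ha hb]
        exact Int.add_ediv_of_dvd_left (hdvd a)
      ord_add' := by
        intro a b ha hb hab
        show min (j a / (c0 : ℤ)) (j b / c0) ≤ j (a + b) / c0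
        have h1 : min (j a) (j b) ≤ j (a + b) := by
          rcases (le_max_iff.1 (O.valuation.map_add a b)) with h | h
          · exact (min_le_left _ _).trans ((hle _ _ hab ha).1 h)
          · exact (min_le_right _ _).trans ((hle _ _ hab hb).1 h)
        rcases min_le_iff.1 h1 with h | h
        · exact (min_le_left _ _).trans (Int.ediv_le_ediv hc0' h)
        · exact (min_le_right _ _).trans (Int.ediv_le_ediv hc0' h)
      exists_unif := ⟨b, hb0, by show j b / (c0 : ℤ) = 1; rw [hb]; exact Int.ediv_self hc0'.ne'⟩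
      ord_const := by
        intro c
        show j (algebraMap k L c) / (c0 : ℤ) = 0
        rw [IsScalarTower.algebraMap_apply k K L, hK, P.ord_const, mul_zero, Int.zero_ediv]
      exists_const := by
        intro a ha h
        have h' : j a / (c0 : ℤ) = 0 := h
        have hja : j a = 0 := by rw [← hdiv a, h', mul_zero]
        have haO : a ∈ O := (hmem a ha).2 hja.ge
        obtain ⟨c, hc⟩ := exists_residue hfin P O hO a haO
        refine ⟨c, ?_⟩
        by_cases h0 : a - algebraMap k L c = 0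
        · exact Or.inl h0
        · right
          have hc' := hc.resolve_left h0
          rw [hmem _ (inv_ne_zero h0), hinv _ h0] at hc'
          show 0 < j (a - algebraMap k L c) / (c0 : ℤ)
          have h2 := hdiv (a - algebraMap k L c)
          have h3 : 0 < j (a - algebraMap k L c) := by omega
          by_contra hcon
          push Not at hcon
          rw [← h2] at h3
          exact absurd h3 (not_lt.2 (mul_nonpos_of_nonneg_of_nonpos hc0'.le hcon)) }
  have hNd : (c0 : ℤ) ∣ N := by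
    have h := hdvd (algebraMap K L π)
    rwa [hK, hπ, mul_one] at h
  obtain ⟨e, he⟩ := Int.natCast_dvd_natCast.1 hNd
  refine ⟨Q, e, ?_, ?_, ?_⟩
  · ext a
    rw [Q.mem_ring]
    by_cases ha : a = 0
    · rw [ha]; exact ⟨fun _ => O.zero_mem, fun _ => Q.ge_zero 0⟩
    · rw [Q.ge_iff ha, hmem a ha]
      exact hnonneg a
  · rcases Nat.eq_zero_or_pos e with h | h
    · rw [h, mul_zero] at he; omega
    · exact h
  · intro a
    show j (algebraMap K L a) / (c0 : ℤ) = e * P.ord a
    rw [hK, he]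
    push_cast
    rw [mul_assoc]
    exact Int.mul_ediv_cancel_left _ hc0'.ne'

theorem OverE.mem_ring {e : ℕ} {Q : Plc k L} {P : Plc k K} (h : OverE e Q P) (a : K) :
    algebraMap K L a ∈ Q.ring ↔ P.ge 0 a := by
  rw [Q.mem_ring]
  by_cases ha : a = 0
  · rw [ha, map_zero]; exact ⟨fun _ => P.ge_zero 0, fun _ => Q.ge_zero 0⟩
  · have ha' : algebraMap K L a ≠ 0 := by rw [Ne, map_eq_zero]; exact ha
    have he : (0 : ℤ) < e := by exact_mod_cast h.1
    rw [Q.ge_iff ha', P.ge_iff ha, h.2 a]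
    exact mul_nonneg_iff_of_pos_left he

theorem OverE.ge_iff {e : ℕ} {Q : Plc k L} {P : Plc k K} (h : OverE e Q P) (n : ℤ) (a : K) :
    Q.ge (e * n) (algebraMap K L a) ↔ P.ge n a := by
  by_cases ha : a = 0
  · rw [ha, map_zero]; exact ⟨fun _ => P.ge_zero n, fun _ => Q.ge_zero _⟩
  · have ha' : algebraMap K L a ≠ 0 := by rw [Ne, map_eq_zero]; exact ha
    have he : (0 : ℤ) < e := by exact_mod_cast h.1
    rw [Q.ge_iff ha', P.ge_iff ha, h.2 a]
    exact mul_le_mul_iff_right₀ he

/-- The place below is unique. -/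
theorem OverE.under_unique {e e' : ℕ} {Q : Plc k L} {P P' : Plc k K} (h : OverE e Q P)
    (h' : OverE e' Q P') : P = P' ∧ e = e' := by
  have hkey : ∀ a : K, (e : ℤ) * P.ord a = e' * P'.ord a := fun a => by
    rw [← h.2 a, ← h'.2 a]
  obtain ⟨x, hx0, hx⟩ := P.exists_unif
  obtain ⟨y, hy0, hy⟩ := P'.exists_unif
  have h1 := hkey x
  have h2 := hkey y
  rw [hx, mul_one] at h1
  rw [hy, mul_one] at h2
  have he : (0 : ℤ) < e := by exact_mod_cast h.1
  have he' : (0 : ℤ) < e' := by exact_mod_cast h'.1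
  have hd1 : (e' : ℤ) ∣ e := ⟨_, h1⟩
  have hd2 : (e : ℤ) ∣ e' := ⟨_, h2.symm⟩
  have hee : e = e' := Nat.dvd_antisymm (Int.natCast_dvd_natCast.1 hd2)
    (Int.natCast_dvd_natCast.1 hd1)
  refine ⟨?_, hee⟩
  apply Plc.ext
  funext a
  have h3 := hkey a
  rw [hee] at h3
  exact mul_left_cancel₀ he'.ne' h3

end Pool.Agent.PRB
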