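import Pool.Agent.LibPRB.FinP
import Pool.Agent.LibPRB.OverEx

/-!
# Places of a finite extension: existence

PLAN.
`exists_over_plc`: `exists_over` (OverEx.lean) and `plc_exists` (FinP.lean).
`exists_under_plc`, `disc_fin`: `comap_isPl` (OverEx.lean; `L` is algebraic over `K`), `hdisc`,
`plc_exists`, `Plc.ext_ring'`.
-/

set_option autoImplicit false

namespace Pool.Agent.PRB

variable {k K L : Type} [Field k] [Field K] [Field L]
  [Algebra k K] [Algebra k L] [Algebra K L] [IsScalarTower k K L]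

private theorem FinQ_aux [IsAlgClosed k] (hfin : Module.Finite K L)
    (hdisc : ∀ O : ValuationSubring K, IsPl k O → ∃ P : Plc k K, P.ring = O)
    (O : ValuationSubring L) (hO : IsPl k O) :
    ∃ (P : Plc k K) (Q : Plc k L) (e : ℕ), Q.ring = O ∧ OverE e Q P := by
  have : Algebra.IsAlgebraic K L := Algebra.IsAlgebraic.of_finite K L
  obtain ⟨P, hP⟩ := hdisc _ (comap_isPl (K := K) O hO)
  obtain ⟨Q, e, hQ, he⟩ := plc_exists hfin P O (fun a => by
    rw [← P.mem_ring, hP, ValuationSubring.mem_comap])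
  exact ⟨P, Q, e, hQ, he⟩

theorem exists_over_plc [IsAlgClosed k] (hfin : Module.Finite K L) (P : Plc k K) :
    ∃ (Q : Plc k L) (e : ℕ), OverE e Q P := by
  obtain ⟨O, hO⟩ := exists_over (L := L) P
  obtain ⟨Q, e, _, h⟩ := plc_exists hfin P O hO
  exact ⟨Q, e, h⟩

theorem exists_under_plc [IsAlgClosed k] (hfin : Module.Finite K L)
    (hdisc : ∀ O : ValuationSubring K, IsPl k O → ∃ P : Plc k K, P.ring = O) (Q : Plc k L) :
    ∃ (P : Plc k K) (e : ℕ), OverE e Q P := by
  obtain ⟨P, Q', e, hQ, h⟩ := FinQ_aux hfin hdisc Q.ring Q.isPl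
  rw [Plc.ext_ring' hQ] at h
  exact ⟨P, e, h⟩

theorem disc_fin [IsAlgClosed k] (hfin : Module.Finite K L)
    (hdisc : ∀ O : ValuationSubring K, IsPl k O → ∃ P : Plc k K, P.ring = O)
    (O : ValuationSubring L) (hO : IsPl k O) : ∃ Q : Plc k L, Q.ring = O := by
  obtain ⟨_, Q, _, hQ, _⟩ := FinQ_aux hfin hdisc O hO
  exact ⟨Q, hQ⟩

end Pool.Agent.PRB
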