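import Pool.Agent.LibPRB.FinQ
import Pool.Agent.LibPRB.FinN

/-!
# Finite support in a finite extension

PLAN. Let `f` be the minimal polynomial of `a ≠ 0` over `K`; `f` is monic with `f.coeff 0 ≠ 0`.  The
set `B` of the places `P` of `K` with `P.ord (f.coeff i) ≠ 0` for some `i` with `f.coeff i ≠ 0` is
finite.  If `Q` lies over `P ∉ B` then all coefficients are `P`-integral, so `Q.ge 0 a` (compare
`ASDs_ge`, ASDs.lean: if `Q.ord a < 0` then `a ^ n` dominates), and the reversed polynomial divided
by the unit `f.coeff 0` gives `Q.ge 0 a⁻¹`.  So the set is contained in the union over `P ∈ B` of the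
finite sets of `over_finite` (`exists_under_plc` gives `P`).
-/

set_option autoImplicit false

namespace Pool.Agent.PRB

variable {k K L : Type} [Field k] [Field K] [Field L]
  [Algebra k K] [Algebra k L] [Algebra K L] [IsScalarTower k K L]

/-- A root of a monic polynomial with coefficients without poles has no pole. -/
private theorem FinS_ge {k K L : Type} [Field k] [Field K] [Field L] [Algebra k L] [Algebra K L]
    (Q : Plc k L) (f : Polynomial K) (hf : f.Monic) (a : L) (hfa : Polynomial.aeval a f = 0)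
    (hc : ∀ i, Q.ge 0 (algebraMap K L (f.coeff i))) : Q.ge 0 a := by
  by_contra hcon
  have ha : a ≠ 0 := fun h => hcon (by rw [h]; exact Q.ge_zero _)
  rw [Q.ge_iff ha, not_le] at hcon
  have hn : f.natDegree ≠ 0 := by
    intro h
    rw [hf.natDegree_eq_zero.1 h] at hfa
    simp at hfa
  have h1 : a ^ f.natDegree =
      - ∑ i ∈ Finset.range f.natDegree, algebraMap K L (f.coeff i) * a ^ i := by
    have h2 : Polynomial.aeval a f = ∑ i ∈ Finset.range (f.natDegree + 1),
        algebraMap K L (f.coeff i) * a ^ i := by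
      rw [Polynomial.aeval_eq_sum_range]
      exact Finset.sum_congr rfl fun i _ => Algebra.smul_def _ _
    rw [hfa, Finset.sum_range_succ, hf.coeff_natDegree, map_one, one_mul] at h2
    linear_combination h2.symm
  have h3 : Q.ge ((f.natDegree - 1 : ℤ) * Q.ord a) (a ^ f.natDegree) := by
    rw [h1]
    apply Q.ge_neg
    apply Q.ge_sum
    intro i hi
    rw [Finset.mem_range] at hi
    have h4 := Q.ge_mul (hc i) (Q.ge_pow (Or.inr le_rfl : Q.ge (Q.ord a) a) i)
    refine h4.mono ?_
    have h5 : (i : ℤ) ≤ f.natDegree - 1 := by omega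
    rw [zero_add]
    exact mul_le_mul_of_nonpos_right h5 hcon.le
  rw [Q.ge_iff (pow_ne_zero _ ha), Q.ord_pow] at h3
  linarith

theorem fsupp_fin [IsAlgClosed k] (hfin : Module.Finite K L)
    (hdisc : ∀ O : ValuationSubring K, IsPl k O → ∃ P : Plc k K, P.ring = O)
    (hfs : ∀ a : K, a ≠ 0 → {P : Plc k K | P.ord a ≠ 0}.Finite) (a : L) (ha : a ≠ 0) :
    {Q : Plc k L | Q.ord a ≠ 0}.Finite := by
  have hint : ∀ b : L, IsIntegral K b := fun b => Algebra.IsIntegral.isIntegral b
  -- the bad places below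
  have hbad : ∀ b : L, {P : Plc k K | ∃ i, ¬ P.ge 0 ((minpoly K b).coeff i)}.Finite := by
    intro b
    have h1 : {P : Plc k K | ∃ i, ¬ P.ge 0 ((minpoly K b).coeff i)} ⊆
        ⋃ i ∈ (minpoly K b).support, {P : Plc k K | P.ord ((minpoly K b).coeff i) ≠ 0} := by
      rintro P ⟨i, hi⟩
      have h0 : (minpoly K b).coeff i ≠ 0 := fun h => hi (by rw [h]; exact P.ge_zero _)
      simp only [Set.mem_iUnion]
      refine ⟨i, Polynomial.mem_support_iff.2 h0, fun h => hi ?_⟩
      right
      rw [h]
    refine Set.Finite.subset (Set.Finite.biUnion (Finset.finite_toSet _) fun i hi => ?_) h1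
    exact hfs _ (Polynomial.mem_support_iff.1 hi)
  have hB := (hbad a).union (hbad a⁻¹)
  refine Set.Finite.subset (hB.biUnion fun P _ => over_finite (k := k) hfin P) fun Q hQ => ?_
  obtain ⟨P, e, hP⟩ := exists_under_plc hfin hdisc Q
  simp only [Set.mem_iUnion]
  refine ⟨P, ?_, ⟨e, hP⟩⟩
  by_contra hcon
  apply hQ
  have hge : ∀ r : K, P.ge 0 r → Q.ge 0 (algebraMap K L r) := by
    intro r hr
    by_cases hr0 : r = 0
    · rw [hr0, map_zero]
      exact Q.ge_zero _
    · rw [P.ge_iff hr0] at hr
      right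
      rw [hP.2 r]
      exact mul_nonneg (by positivity) hr
  have hnot : ∀ b : L, P ∉ {P : Plc k K | ∃ i, ¬ P.ge 0 ((minpoly K b).coeff i)} →
      Q.ge 0 b := by
    intro b hb
    have hb' : ∀ i, P.ge 0 ((minpoly K b).coeff i) := by
      intro i
      by_contra h
      exact hb ⟨i, h⟩
    exact FinS_ge Q (minpoly K b) (minpoly.monic (hint b)) b (minpoly.aeval K b)
      fun i => hge _ (hb' i)
  have h1 := hnot a fun h => hcon (Or.inl h)
  have h2 := hnot a⁻¹ fun h => hcon (Or.inr h)
  rw [Q.ge_iff ha] at h1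
  rw [Q.ge_iff (inv_ne_zero ha), Q.ord_inv] at h2
  linarith

end Pool.Agent.PRB
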