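import Pool.Agent.LibPRB.TwD
import Pool.Agent.LibPRB.RamG

/-!
# Ramification index and degree

PLAN. Let `t` with `Q.ord t = 1`, `e` the ramification index.
`le_finrank`: `t ^ i`, `i < e`, are linearly independent over `K`: in `∑ c_i t ^ i` the orders
`e * P.ord c_i + i` of the nonzero terms are distinct (`RamG_min`, file RamG.lean: the sum is
nonzero); `LinearIndependent.fintype_card_le_finrank`.
`unique_of_eq`: if `e = finrank K L` the `t ^ i`, `i < e`, form a basis and for `x = ∑ c_i t ^ i ≠ 0`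
`Q.ord x = min (e * P.ord c_i + i)`.  Let `Q'` be another place over `P`.  Writing
`t ^ e = ∑ i < e, c_i t ^ i` all `c_i` have `P.ge 1 c_i` (as `e * P.ord c_i + i ≥ e`, `i < e`), hence
`Q'.ge 0 t` (otherwise `Q'.ord (t ^ e) = e * τ`, `τ < 0`, is smaller than the order of all terms of
the right side, which is `≥ i τ`).  If `Q.ge 0 x` then all `P.ge 0 c_i`, so `Q'.ge 0 x`.  So
`Q.ring ≤ Q'.ring`; and then they are equal: if `Q'.ge 0 x` and `Q.ord x < 0` then
`y = x⁻¹` has `Q.ord y > 0`, `Q'.ord y ≤ 0`, so `Q'.ord y = 0` (as `Q.ring ≤ Q'.ring`), and with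
`π ∈ K`, `P.ord π = 1`, `z = y ^ e' / π` ... choose `N` with `N * Q.ord y ≥ e`: `y ^ N / π ∈ Q.ring`
but `Q'.ord (y ^ N / π) < 0`, a contradiction.  Finally `Plc.ext_ring`.
-/

set_option autoImplicit false

namespace Pool.Agent.PRB

variable {k K L : Type} [Field k] [Field K] [Field L]
  [Algebra k K] [Algebra k L] [Algebra K L] [IsScalarTower k K L]

omit [IsScalarTower k K L] in
private theorem FinU_term {e : ℕ} {Q : Plc k L} {P : Plc k K} (h : OverE e Q P) {t : L}
    (ht : t ≠ 0) {c : K} (hc : c ≠ 0) (i : ℕ) :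
    algebraMap K L c * t ^ i ≠ 0 ∧
      Q.ord (algebraMap K L c * t ^ i) = e * P.ord c + i * Q.ord t := by
  have hc' : algebraMap K L c ≠ 0 := by simpa using hc
  refine ⟨mul_ne_zero hc' (pow_ne_zero _ ht), ?_⟩
  rw [Q.ord_mul hc' (pow_ne_zero _ ht), Q.ord_pow, h.2]

omit [IsScalarTower k K L] in
private theorem FinU_min {e : ℕ} {Q : Plc k L} {P : Plc k K} (h : OverE e Q P) {t : L}
    (ht : t ≠ 0) (ht1 : Q.ord t = 1) (c : Fin e → K) (hc : ∃ i, c i ≠ 0) :
    ∑ i, algebraMap K L (c i) * t ^ (i : ℕ) ≠ 0 ∧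
      ∀ j, c j ≠ 0 → Q.ord (∑ i, algebraMap K L (c i) * t ^ (i : ℕ)) ≤ e * P.ord (c j) + (j : ℕ) := by
  have hne : ∀ i : Fin e, algebraMap K L (c i) * t ^ (i : ℕ) ≠ 0 → c i ≠ 0 := by
    intro i hi h0
    apply hi
    rw [h0, map_zero, zero_mul]
  have hord : ∀ i : Fin e, c i ≠ 0 →
      Q.ord (algebraMap K L (c i) * t ^ (i : ℕ)) = e * P.ord (c i) + (i : ℕ) := by
    intro i hi
    rw [(FinU_term h ht hi _).2, ht1, mul_one]
  have hd : ∀ i ∈ (Finset.univ : Finset (Fin e)), ∀ j ∈ (Finset.univ : Finset (Fin e)),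
      algebraMap K L (c i) * t ^ (i : ℕ) ≠ 0 → algebraMap K L (c j) * t ^ (j : ℕ) ≠ 0 →
      Q.ord (algebraMap K L (c i) * t ^ (i : ℕ)) = Q.ord (algebraMap K L (c j) * t ^ (j : ℕ)) →
      i = j := by
    intro i _ j _ hi hj hij
    rw [hord i (hne i hi), hord j (hne j hj)] at hij
    have h1 : (e : ℤ) ∣ ((i : ℕ) : ℤ) - ((j : ℕ) : ℤ) :=
      ⟨P.ord (c j) - P.ord (c i), by linear_combination hij⟩
    have h2 : ((i : ℕ) : ℤ) - ((j : ℕ) : ℤ) = 0 := by
      apply Int.eq_zero_of_abs_lt_dvd h1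
      have hi' := i.2
      have hj' := j.2
      rw [abs_lt]
      constructor <;> omega
    apply Fin.ext
    omega
  obtain ⟨i0, hi0⟩ := hc
  obtain ⟨i, _, hfi, hmin, hs, hs0⟩ := RamG_min Q Finset.univ
    (fun i : Fin e => algebraMap K L (c i) * t ^ (i : ℕ)) hd
    ⟨i0, Finset.mem_univ _, (FinU_term h ht hi0 _).1⟩
  refine ⟨hs0, fun j hj => ?_⟩
  rw [hs, ← hord j hj]
  exact hmin j (Finset.mem_univ _) (FinU_term h ht hj _).1

omit [IsScalarTower k K L] in
private theorem FinU_indep {e : ℕ} {Q : Plc k L} {P : Plc k K} (h : OverE e Q P) {t : L}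
    (ht : t ≠ 0) (ht1 : Q.ord t = 1) : LinearIndependent K fun i : Fin e => t ^ (i : ℕ) := by
  rw [Fintype.linearIndependent_iff]
  intro g hg
  by_contra hc
  push Not at hc
  have h1 := (FinU_min h ht ht1 g hc).1
  apply h1
  rw [← hg]
  exact Finset.sum_congr rfl fun i _ => (Algebra.smul_def _ _).symm

theorem OverE.le_finrank (hfin : Module.Finite K L) {e : ℕ} {Q : Plc k L} {P : Plc k K}
    (h : OverE e Q P) : e ≤ Module.finrank K L := by
  obtain ⟨t, ht, ht1⟩ := Q.exists_unif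
  have h1 := (FinU_indep h ht ht1).fintype_card_le_finrank
  rwa [Fintype.card_fin] at h1

theorem OverE.unique_of_eq (hfin : Module.Finite K L) {e : ℕ} {Q : Plc k L} {P : Plc k K}
    (h : OverE e Q P) (he : e = Module.finrank K L) {e' : ℕ} {Q' : Plc k L}
    (h' : OverE e' Q' P) : Q' = Q := by
  obtain ⟨t, ht, ht1⟩ := Q.exists_unif
  have he0 := h.1
  have he0' := h'.1
  have : Nonempty (Fin e) := ⟨⟨0, he0⟩⟩
  have hspan : ∀ x : L, ∃ c : Fin e → K, x = ∑ i, algebraMap K L (c i) * t ^ (i : ℕ) := by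
    intro x
    obtain ⟨b, hb⟩ : ∃ b : Module.Basis (Fin e) K L, ∀ i, b i = t ^ (i : ℕ) :=
      ⟨basisOfLinearIndependentOfCardEqFinrank (FinU_indep h ht ht1)
        (by rw [Fintype.card_fin]; exact he), fun i => by simp⟩
    refine ⟨b.repr x, ?_⟩
    conv_lhs => rw [← b.sum_repr x]
    exact Finset.sum_congr rfl fun i _ => by rw [hb, Algebra.smul_def]
  -- `t` is integral at `Q'`
  have ht' : 0 ≤ Q'.ord t := by
    by_contra hneg
    push Not at hneg
    obtain ⟨c, hc⟩ := hspan (t ^ e)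
    have hte : t ^ e ≠ 0 := pow_ne_zero _ ht
    have hex : ∃ i, c i ≠ 0 := by
      by_contra hc0
      push Not at hc0
      apply hte
      rw [hc]
      exact Finset.sum_eq_zero fun i _ => by rw [hc0 i, map_zero, zero_mul]
    have hmin := (FinU_min h ht ht1 c hex).2
    rw [← hc, Q.ord_pow, ht1, mul_one] at hmin
    have hge : Q'.ge (e * Q'.ord t + 1) (t ^ e) := by
      rw [hc]
      refine Q'.ge_sum _ _ fun i _ => ?_
      by_cases hci : c i = 0
      · left
        rw [hci, map_zero, zero_mul]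
      · right
        rw [(FinU_term h' ht hci _).2]
        have h1 := hmin i hci
        have hi := i.2
        have h2 : 0 < P.ord (c i) := by
          by_contra h3
          push Not at h3
          have h4 : (e : ℤ) * P.ord (c i) ≤ 0 :=
            mul_nonpos_of_nonneg_of_nonpos (by positivity) h3
          omega
        have h3 : 0 < (e' : ℤ) * P.ord (c i) := mul_pos (by exact_mod_cast he0') h2
        have h4 : (e : ℤ) * Q'.ord t ≤ ((i : ℕ) : ℤ) * Q'.ord t :=
          mul_le_mul_of_nonpos_right (by exact_mod_cast hi.le) hneg.le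
        linarith
    rw [Q'.ge_iff hte, Q'.ord_pow] at hge
    omega
  -- `Q.ring ≤ Q'.ring`
  have hle : ∀ x, Q.ge 0 x → Q'.ge 0 x := by
    intro x hx
    obtain ⟨c, hc⟩ := hspan x
    by_cases hx0 : x = 0
    · exact Or.inl hx0
    have hex : ∃ i, c i ≠ 0 := by
      by_contra hc0
      push Not at hc0
      apply hx0
      rw [hc]
      exact Finset.sum_eq_zero fun i _ => by rw [hc0 i, map_zero, zero_mul]
    have hmin := (FinU_min h ht ht1 c hex).2
    rw [← hc] at hmin
    rw [Q.ge_iff hx0] at hx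
    rw [hc]
    refine Q'.ge_sum _ _ fun i _ => ?_
    by_cases hci : c i = 0
    · left
      rw [hci, map_zero, zero_mul]
    · right
      rw [(FinU_term h' ht hci _).2]
      have h1 := hmin i hci
      have hi := i.2
      have h2 : 0 ≤ P.ord (c i) := by
        by_contra h3
        push Not at h3
        have h4 : (e : ℤ) * P.ord (c i) ≤ e * (-1) :=
          mul_le_mul_of_nonneg_left (by omega) (by positivity)
        omega
      positivity
  symm
  apply Plc.ext_ring
  intro x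
  refine ⟨hle x, fun hx => ?_⟩
  by_cases hx0 : x = 0
  · exact Or.inl hx0
  rw [Q'.ge_iff hx0] at hx
  rw [Q.ge_iff hx0]
  by_contra hneg
  push Not at hneg
  obtain ⟨π, hπ, hπ1⟩ := P.exists_unif
  have hπ' : algebraMap K L π ≠ 0 := by simpa using hπ
  have hy : x⁻¹ ^ e ≠ 0 := pow_ne_zero _ (inv_ne_zero hx0)
  have hz : x⁻¹ ^ e / algebraMap K L π ≠ 0 := div_ne_zero hy hπ'
  have h1 : Q.ge 0 (x⁻¹ ^ e / algebraMap K L π) := by
    rw [Q.ge_iff hz, Q.ord_div hy hπ', Q.ord_pow, Q.ord_inv, h.2, hπ1, mul_one]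
    have h2 : (e : ℤ) * 1 ≤ e * -Q.ord x := mul_le_mul_of_nonneg_left (by omega) (by positivity)
    linarith
  have h2 := hle _ h1
  rw [Q'.ge_iff hz, Q'.ord_div hy hπ', Q'.ord_pow, Q'.ord_inv, h'.2, hπ1, mul_one] at h2
  have h3 : 0 ≤ (e : ℤ) * Q'.ord x := mul_nonneg (by positivity) hx
  have h4 : (0 : ℤ) < e' := by exact_mod_cast he0'
  linarith

end Pool.Agent.PRB
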