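import Pool.Agent.LibPRB.FixE

/-!
# Fixed points for triangular matrices

PLAN. Let `M i j = W.coeff (p * i + (p - 1) - j)` for `i, j < N` (`N ≤ p`, so no truncation: `j ≤ p - 1`).  For `B` of degree `< N`
`(B * W).coeff (p * i + (p - 1)) = ∑_{j < N} M i j * B.coeff j` for all `i`, and it vanishes for `i ≥ N` by `hW` (degree
`≤ N - 1 + (p-1)(N+1) < p N + p - 1`).  So the set is in bijection with `{b : Fin N → k | ∀ i, b i ^ p = ∑ j, M i j * b j}`.
General lemma (for an arbitrary finite type `ι` instead of `Fin N`, induction on its cardinality, or on a `Finset` of indices):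
if `ρ : ι → ℕ` is injective and `M i j = 0` for `i ≠ j`, `ρ i ≤ ρ j`, then the number of solutions is `p ^ #{i | M i i ≠ 0}`: remove
the index `m` with the largest `ρ`; it does not occur in the other equations, and the equation `b_m ^ p - M m m b_m = u` has
`p` solutions if `M m m ≠ 0` (separable polynomial over an algebraically closed field) and `1` otherwise.
-/

set_option autoImplicit false

namespace Pool.Agent.PRB

open Polynomial in
private theorem HypT_card {p : ℕ} [Fact p.Prime] {k : Type} [Field k] [IsAlgClosed k] [CharP k p]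
    (a u : k) [Decidable (a = 0)] :
    Nat.card {t : k // t ^ p = a * t + u} = if a = 0 then 1 else p := by
  have hp2 : 2 ≤ p := (Fact.out : p.Prime).two_le
  split_ifs with ha
  · subst ha
    obtain ⟨t, ht⟩ := IsAlgClosed.exists_pow_nat_eq u (by omega : 0 < p)
    rw [Nat.card_eq_one_iff_unique]
    constructor
    · refine ⟨fun x y => Subtype.ext ?_⟩
      have h1 : x.1 ^ p = y.1 ^ p := by rw [x.2, y.2]; ring
      exact frobenius_inj k p h1
    · exact ⟨⟨t, by rw [ht]; ring⟩⟩
  · have hdeg : (X ^ p - (C a * X + C u) : k[X]).natDegree = p := by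
      rw [natDegree_sub_eq_left_of_natDegree_lt]
      · exact natDegree_X_pow p
      · rw [natDegree_X_pow]
        exact lt_of_le_of_lt natDegree_linear_le (by omega)
    have hne : (X ^ p - (C a * X + C u) : k[X]) ≠ 0 := by
      intro h
      rw [h, natDegree_zero] at hdeg
      omega
    have hsep : (X ^ p - (C a * X + C u) : k[X]).Separable := by
      rw [separable_def]
      have h1 : derivative (X ^ p - (C a * X + C u) : k[X]) = C (-a) := by
        rw [derivative_sub, derivative_X_pow, CharP.cast_eq_zero, C_0, zero_mul, derivative_add,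
          derivative_mul, derivative_C, zero_mul, derivative_X, mul_one, zero_add, derivative_C,
          add_zero, zero_sub, C_neg]
      rw [h1]
      refine ⟨0, C (-a)⁻¹, ?_⟩
      rw [zero_mul, zero_add, ← C_mul, inv_mul_cancel₀ (neg_ne_zero.mpr ha), C_1]
    have h2 := card_rootSet_eq_natDegree (K := k) hsep (IsAlgClosed.splits _)
    rw [hdeg] at h2
    refine Eq.trans ?_ h2
    rw [← Nat.card_eq_fintype_card]
    apply Nat.card_congr
    apply Equiv.subtypeEquivRight
    intro y
    rw [mem_rootSet]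
    have h3 : (aeval y) (X ^ p - (C a * X + C u) : k[X]) = y ^ p - (a * y + u) := by
      simp
    rw [h3, sub_eq_zero]
    constructor
    · intro h
      exact ⟨hne, h⟩
    · intro h
      exact h.2

/-- the solutions of the system -/
private def HypT_P {k : Type} [Field k] (p : ℕ) (M : ℕ → ℕ → k) (S : Finset ℕ) (b : ℕ → k) :
    Prop := (∀ i, i ∉ S → b i = 0) ∧ ∀ i ∈ S, b i ^ p = ∑ j ∈ S, M i j * b j

private theorem HypT_upd {k : Type} [Field k] (M : ℕ → ℕ → k) {S : Finset ℕ} {m : ℕ}
    (hm : m ∉ S) (b : ℕ → k) (t : k) (i : ℕ) :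
    ∑ j ∈ S, M i j * Function.update b m t j = ∑ j ∈ S, M i j * b j :=
  Finset.sum_congr rfl fun j hj => by
    have h1 : j ≠ m := fun h => hm (h ▸ hj)
    rw [Function.update_of_ne h1]

private theorem HypT_fwd {k : Type} [Field k] {p : ℕ} {M : ℕ → ℕ → k} {S : Finset ℕ} {m : ℕ}
    (hm : m ∉ S) (h0 : ∀ i ∈ S, M i m = 0) {b : ℕ → k} (h : HypT_P p M (insert m S) b) :
    HypT_P p M S (Function.update b m 0) ∧
      b m ^ p = M m m * b m + ∑ j ∈ S, M m j * Function.update b m 0 j := by
  refine ⟨⟨fun i hi => ?_, fun i hi => ?_⟩, ?_⟩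
  · by_cases him : i = m
    · rw [him, Function.update_self]
    · rw [Function.update_of_ne him]
      exact h.1 i fun h' => (Finset.mem_insert.1 h').elim him hi
  · have him : i ≠ m := fun h' => hm (h' ▸ hi)
    rw [Function.update_of_ne him, HypT_upd M hm, h.2 i (Finset.mem_insert_of_mem hi),
      Finset.sum_insert hm, h0 i hi, zero_mul, zero_add]
  · rw [HypT_upd M hm, h.2 m (Finset.mem_insert_self m S), Finset.sum_insert hm]

private theorem HypT_bwd {k : Type} [Field k] {p : ℕ} {M : ℕ → ℕ → k} {S : Finset ℕ} {m : ℕ}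
    (hm : m ∉ S) (h0 : ∀ i ∈ S, M i m = 0) {b : ℕ → k} (h : HypT_P p M S b) {t : k}
    (ht : t ^ p = M m m * t + ∑ j ∈ S, M m j * b j) :
    HypT_P p M (insert m S) (Function.update b m t) := by
  refine ⟨fun i hi => ?_, fun i hi => ?_⟩
  · have him : i ≠ m := fun h' => hi (h' ▸ Finset.mem_insert_self m S)
    rw [Function.update_of_ne him]
    exact h.1 i fun h' => hi (Finset.mem_insert_of_mem h')
  · rw [Finset.sum_insert hm, HypT_upd M hm, Function.update_self]
    rcases Finset.mem_insert.1 hi with him | hiS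
    · rw [him, Function.update_self]
      exact ht
    · have him : i ≠ m := fun h' => hm (h' ▸ hiS)
      rw [Function.update_of_ne him, h0 i hiS, zero_mul, zero_add]
      exact h.2 i hiS

private def HypT_E {k : Type} [Field k] (p : ℕ) (M : ℕ → ℕ → k) (S : Finset ℕ) (m : ℕ)
    (hm : m ∉ S) (h0 : ∀ i ∈ S, M i m = 0) : {b // HypT_P p M (insert m S) b} ≃
      {x : {b // HypT_P p M S b} × k //
        x.2 ^ p = M m m * x.2 + ∑ j ∈ S, M m j * x.1.1 j} where
  toFun b := ⟨(⟨Function.update b.1 m 0, (HypT_fwd hm h0 b.2).1⟩, b.1 m), (HypT_fwd hm h0 b.2).2⟩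
  invFun x := ⟨Function.update x.1.1.1 m x.1.2, HypT_bwd hm h0 x.1.1.2 x.2⟩
  left_inv b := by
    apply Subtype.ext
    show Function.update (Function.update b.1 m 0) m (b.1 m) = b.1
    rw [Function.update_idem, Function.update_eq_self]
  right_inv x := by
    obtain ⟨⟨⟨b, hb⟩, t⟩, hx⟩ := x
    have h1 : Function.update (Function.update b m t) m 0 = b := by
      rw [Function.update_idem, Function.update_eq_self_iff]
      exact (hb.1 m hm).symm
    apply Subtype.ext
    refine Prod.ext ?_ ?_
    · exact Subtype.ext h1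
    · exact Function.update_self m t b

open Classical in
private theorem HypT_tri {p : ℕ} [Fact p.Prime] {k : Type} [Field k] [IsAlgClosed k] [CharP k p]
    (M : ℕ → ℕ → k) (ρ : ℕ → ℕ) (S : Finset ℕ) :
    (∀ i ∈ S, ∀ j ∈ S, i ≠ j → ρ i ≤ ρ j → M i j = 0) →
    Nat.card {b // HypT_P p M S b} = p ^ (S.filter fun i => M i i ≠ 0).card := by
  have hp2 : 2 ≤ p := (Fact.out : p.Prime).two_le
  induction S using Finset.induction_on_max_value ρ with
  | empty =>
    intro _
    rw [Finset.filter_empty, Finset.card_empty, pow_zero, Nat.card_eq_one_iff_unique]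
    refine ⟨⟨fun x y => Subtype.ext (funext fun i => ?_)⟩, ⟨⟨0, ?_, ?_⟩⟩⟩
    · rw [x.2.1 i (by simp), y.2.1 i (by simp)]
    · intro i _
      rfl
    · intro i hi
      simp at hi
  | insert m S hm hmax ih =>
    intro htri
    have h0 : ∀ i ∈ S, M i m = 0 := fun i hi => htri i (Finset.mem_insert_of_mem hi) m
      (Finset.mem_insert_self m S) (fun h => hm (h ▸ hi)) (hmax i hi)
    have hS := ih fun i hi j hj => htri i (Finset.mem_insert_of_mem hi) j
      (Finset.mem_insert_of_mem hj)
    have hq : ∀ b : {b // HypT_P p M S b}, Nat.card {t : k // t ^ p = M m m * t + ∑ j ∈ S, M m j * b.1 j} =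
        if M m m = 0 then 1 else p := fun b => HypT_card _ _
    have hq0 : (if M m m = 0 then 1 else p) ≠ 0 := by
      split_ifs
      · exact one_ne_zero
      · omega
    have e2 : (Σ b : {b // HypT_P p M S b}, {t : k // t ^ p = M m m * t + ∑ j ∈ S, M m j * b.1 j}) ≃
        {b // HypT_P p M S b} × Fin (if M m m = 0 then 1 else p) :=
      (Equiv.sigmaCongrRight fun b => (Nat.equivFinOfCardPos (by rw [hq b]; exact hq0)).trans
        (finCongr (hq b))).trans (Equiv.sigmaEquivProd _ _)
    rw [Nat.card_congr (HypT_E p M S m hm h0), Nat.card_congr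
      (Equiv.subtypeProdEquivSigmaSubtype fun (b : {b // HypT_P p M S b}) (t : k) =>
        t ^ p = M m m * t + ∑ j ∈ S, M m j * b.1 j), Nat.card_congr e2, Nat.card_prod, hS,
      Nat.card_eq_fintype_card, Fintype.card_fin, Finset.filter_insert]
    by_cases hM : M m m = 0
    · rw [if_pos hM, mul_one, if_neg (not_not.2 hM)]
    · rw [if_neg hM, if_pos hM, Finset.card_insert_of_notMem (fun h => hm (Finset.mem_filter.1 h).1),
        pow_succ]

private theorem HypT_coeff' {k : Type} [Field k] (b : ℕ → k) (N : ℕ) (i : ℕ) :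
    (∑ i ∈ Finset.range N, Polynomial.monomial i (b i)).coeff i = if i < N then b i else 0 := by
  rw [Polynomial.finsetSum_coeff]
  simp only [Polynomial.coeff_monomial]
  rw [Finset.sum_ite_eq']
  simp only [Finset.mem_range]

private theorem HypT_deg {k : Type} [Field k] (b : ℕ → k) (N : ℕ) :
    (∑ i ∈ Finset.range N, Polynomial.monomial i (b i)).degree < (N : ℕ) := by
  rw [Polynomial.degree_lt_iff_coeff_zero]
  intro i hi
  rw [HypT_coeff', if_neg (not_lt.2 hi)]

private theorem HypT_coeff {k : Type} [Field k] (b : ℕ → k) (N : ℕ)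
    (hb : ∀ i, i ∉ Finset.range N → b i = 0) (i : ℕ) :
    (∑ i ∈ Finset.range N, Polynomial.monomial i (b i)).coeff i = b i := by
  rw [HypT_coeff']
  split_ifs with h
  · rfl
  · exact (hb i (by rw [Finset.mem_range]; exact h)).symm

open Classical in
theorem fixP_perm {p : ℕ} [Fact p.Prime] {k : Type} [Field k] [IsAlgClosed k] [CharP k p]
    (W : Polynomial k) (N : ℕ) (hN : N ≤ p) (hW : W.natDegree ≤ (p - 1) * (N + 1)) (ρ : ℕ → ℕ)
    (hρ : ∀ i < N, ∀ j < N, ρ i = ρ j → i = j)
    (htri : ∀ i < N, ∀ j < N, i ≠ j → ρ i ≤ ρ j → W.coeff (p * i + (p - 1) - j) = 0) :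
    FixP p W N ((Finset.range N).filter
      fun i => W.coeff (p * i + (p - 1) - i) ≠ 0).card := by
  have hp2 : 2 ≤ p := (Fact.out : p.Prime).two_le
  have hcoef : ∀ B : Polynomial k, B.degree < (N : ℕ) → ∀ i, (B * W).coeff (p * i + (p - 1)) =
      ∑ j ∈ Finset.range N, W.coeff (p * i + (p - 1) - j) * B.coeff j := by
    intro B hB i
    rw [Polynomial.coeff_mul, Finset.Nat.sum_antidiagonal_eq_sum_range_succ_mk]
    symm
    refine Finset.sum_subset_zero_on_sdiff (fun j hj => ?_) (fun j hj => ?_) (fun j _ => ?_)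
    · rw [Finset.mem_range] at hj ⊢
      have h1 : 0 ≤ p * i := Nat.zero_le _
      omega
    · rw [Finset.mem_sdiff, Finset.mem_range, Finset.mem_range] at hj
      have h1 : B.coeff j = 0 := Polynomial.coeff_eq_zero_of_degree_lt
        (hB.trans_le (by exact_mod_cast not_lt.1 hj.2))
      rw [h1, zero_mul]
    · rw [mul_comm]
  have hbig : ∀ i, N ≤ i → ∀ j, j < N → W.coeff (p * i + (p - 1) - j) = 0 := by
    intro i hi j hj
    apply Polynomial.coeff_eq_zero_of_natDegree_lt
    refine lt_of_le_of_lt hW ?_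
    have h1 : p * N ≤ p * i := Nat.mul_le_mul_left p hi
    have h2 : (p - 1) * (N + 1) + (N + 1) = p * N + p := by
      obtain ⟨q, rfl⟩ : ∃ q, p = q + 1 := ⟨p - 1, by omega⟩
      rw [Nat.add_sub_cancel]
      ring
    omega
  have h1 := HypT_tri (p := p) (fun i j => W.coeff (p * i + (p - 1) - j)) ρ (Finset.range N)
    (fun i hi j hj => htri i (Finset.mem_range.1 hi) j (Finset.mem_range.1 hj))
  unfold FixP
  rw [← h1]
  refine Nat.card_congr ⟨fun B => ⟨fun i => B.1.coeff i, fun i hi => ?_, fun i hi => ?_⟩,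
    fun b => ⟨∑ i ∈ Finset.range N, Polynomial.monomial i (b.1 i), ?_, fun i => ?_⟩, fun B => ?_,
    fun b => ?_⟩
  · rw [Finset.mem_range, not_lt] at hi
    exact Polynomial.coeff_eq_zero_of_degree_lt (B.2.1.trans_le (by exact_mod_cast hi))
  · rw [B.2.2 i, hcoef B.1 B.2.1 i]
  · exact HypT_deg b.1 N
  · have hc := HypT_coeff b.1 N b.2.1
    rw [hcoef _ (HypT_deg b.1 N) i, hc i]
    simp only [hc]
    by_cases hi : i < N
    · exact b.2.2 i (Finset.mem_range.2 hi)
    · rw [b.2.1 i (by rw [Finset.mem_range]; exact hi), zero_pow (by omega)]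
      symm
      exact Finset.sum_eq_zero fun j hj => by
        rw [hbig i (not_lt.1 hi) j (Finset.mem_range.1 hj), zero_mul]
  · apply Subtype.ext
    ext i
    rw [HypT_coeff (fun i => B.1.coeff i) N (fun i hi => ?_) i]
    rw [Finset.mem_range, not_lt] at hi
    exact Polynomial.coeff_eq_zero_of_degree_lt (B.2.1.trans_le (by exact_mod_cast hi))
  · apply Subtype.ext
    funext i
    exact HypT_coeff b.1 N b.2.1 i

end Pool.Agent.PRB
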