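import Pool.Agent.LibPRB.HypH
import Pool.Agent.LibPRB.HypT

/-!
# Six hyperelliptic curves

PLAN. `hasCurve_hyp` with the following polynomials `F`, `fixP_perm` for `W = F' ^ ((p-1)/2)` (over `k`), expanded with
`ring`-like computations (in characteristic `p`; e.g. prove an identity in `(ZMod p)[X]` and map it, or use `lprod`-like lists);
the matrix `M i j = W.coeff (p i + p - 1 - j)`:
`p = 5`, `g = 3`, `s = 1`: `F = X^8 + 1`, `W = X^16 + 2 X^8 + 1`, only `M 1 1 = 2` is nonzero;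
`p = 5`, `g = 3`, `s = 2`: `F = X^8 + X^4 + 2`, `W = F^2`, `M = diag(4, 0, 2)`;
`p = 7`, `g = 4`, `s = 1`: `F = X^9 + 1`, `W = F^3`, nonzero `M 2 2 = 3`, `M 3 0 = 1`;
`p = 7`, `g = 4`, `s = 3`: `F = X^9 + X^6 + 2`, `W = F^3`, nonzero `M 0 0 = 5`, `M 1 1 = 6`, `M 3 0 = 1`, `M 3 3 = 3`;
`p = 7`, `g = 5`, `s = 1`: `F = X^11 + 2 X^6 + 3 X`, `W = F^3`, nonzero `M 0 3 = 6`, `M 2 2 = 2`, `M 4 1 = 1`
(`ρ` = the order `1, 3, 2, 0, 4`);
`p = 7`, `g = 5`, `s = 3`: `F = X^12 + 2 X^6 + 3`, `W = F^3`, `M = diag(5, 0, 2, 0, 6)`.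
Separability: explicit Bezout identity with the derivative (find it with a small program), or
`Polynomial.separable_X_pow_sub_C`-like lemmas for `X^n + a`; `isCoprime` by an explicit combination `u F + v F' = 1` checked by
`ring`/coefficients modulo `p`.
-/

set_option autoImplicit false

namespace Pool.Agent.PRB

/-! ### polynomials given by lists of coefficients -/

/-- sum of two lists of coefficients -/
def HypC_add {p : ℕ} : List (ZMod p) → List (ZMod p) → List (ZMod p)
  | [], m => m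
  | a :: l, [] => a :: l
  | a :: l, b :: m => (a + b) :: HypC_add l m

/-- product of two lists of coefficients -/
def HypC_mul {p : ℕ} : List (ZMod p) → List (ZMod p) → List (ZMod p)
  | [], _ => []
  | a :: l, m => HypC_add (m.map fun b => a * b) (0 :: HypC_mul l m)

/-- powers -/
def HypC_pw {p : ℕ} (l : List (ZMod p)) : ℕ → List (ZMod p)
  | 0 => [1]
  | n + 1 => HypC_mul l (HypC_pw l n)

/-- derivative -/
def HypC_der {p : ℕ} : List (ZMod p) → List (ZMod p)
  | [] => []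
  | _ :: l => HypC_add l (0 :: HypC_der l)

open Polynomial in
/-- the polynomial with the given coefficients -/
noncomputable def HypC_P {p : ℕ} : List (ZMod p) → (ZMod p)[X]
  | [] => 0
  | a :: l => C a + X * HypC_P l

theorem HypC_coeff {p : ℕ} (l : List (ZMod p)) : ∀ n, (HypC_P l).coeff n = l.getD n 0 := by
  induction l with
  | nil =>
    intro n
    simp [HypC_P]
  | cons a l ih =>
    intro n
    cases n with
    | zero => simp [HypC_P]
    | succ n => simp [HypC_P, Polynomial.coeff_X_mul, ih]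

theorem HypC_P_add {p : ℕ} (l : List (ZMod p)) : ∀ m, HypC_P (HypC_add l m) = HypC_P l + HypC_P m := by
  induction l with
  | nil =>
    intro m
    simp [HypC_add, HypC_P]
  | cons a l ih =>
    intro m
    cases m with
    | nil => simp [HypC_add, HypC_P]
    | cons b m =>
      simp only [HypC_add, HypC_P, ih, map_add]
      ring

open Polynomial in
theorem HypC_P_map {p : ℕ} (a : ZMod p) (l : List (ZMod p)) :
    HypC_P (l.map fun b => a * b) = C a * HypC_P l := by
  induction l with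
  | nil => simp [HypC_P]
  | cons b l ih =>
    simp only [List.map_cons, HypC_P, ih, map_mul]
    ring

theorem HypC_P_mul {p : ℕ} (l m : List (ZMod p)) : HypC_P (HypC_mul l m) = HypC_P l * HypC_P m := by
  induction l with
  | nil => simp [HypC_mul, HypC_P]
  | cons a l ih =>
    simp only [HypC_mul, HypC_P, HypC_P_add, HypC_P_map, ih, map_zero]
    ring

theorem HypC_P_pw {p : ℕ} (l : List (ZMod p)) (n : ℕ) : HypC_P (HypC_pw l n) = HypC_P l ^ n := by
  induction n with
  | zero => simp [HypC_pw, HypC_P]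
  | succ n ih =>
    simp only [HypC_pw, HypC_P_mul, ih]
    ring

theorem HypC_P_der {p : ℕ} (l : List (ZMod p)) :
    HypC_P (HypC_der l) = Polynomial.derivative (HypC_P l) := by
  induction l with
  | nil => simp [HypC_der, HypC_P]
  | cons a l ih =>
    simp only [HypC_der, HypC_P, HypC_P_add, ih, map_zero, Polynomial.derivative_add,
      Polynomial.derivative_C, Polynomial.derivative_mul, Polynomial.derivative_X]
    ring

/-- the computations to be made -/
def HypC_ok (p : ℕ) (l u v : List (ZMod p)) (r : List ℕ) (g s n : ℕ) : Prop :=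
  l.length = n + 1 ∧ l.getD n 0 = 1 ∧ (n = 2 * g + 1 ∨ n = 2 * g + 2) ∧
  (∀ i < 40, (HypC_add (HypC_mul u l) (HypC_mul v (HypC_der l))).getD i 0 =
      if i = 0 then 1 else 0) ∧
  (HypC_add (HypC_mul u l) (HypC_mul v (HypC_der l))).length ≤ 40 ∧ g ≤ p ∧
  (HypC_pw l ((p - 1) / 2)).length ≤ (p - 1) * (g + 1) + 1 ∧
  (∀ i < g, ∀ j < g, r.getD i 0 = r.getD j 0 → i = j) ∧
  (∀ i < g, ∀ j < g, i ≠ j → r.getD i 0 ≤ r.getD j 0 →
      (HypC_pw l ((p - 1) / 2)).getD (p * i + (p - 1) - j) 0 = 0) ∧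
  ((Finset.range g).filter
      fun i => (HypC_pw l ((p - 1) / 2)).getD (p * i + (p - 1) - i) 0 ≠ 0).card = s

instance (p : ℕ) (l u v : List (ZMod p)) (r : List ℕ) (g s n : ℕ) :
    Decidable (HypC_ok p l u v r g s n) := by
  unfold HypC_ok
  infer_instance

/-- The curve `y ^ 2 = F(x)`, `F` given by its list of coefficients `l`; everything is checked by
computations with lists. -/
theorem HypC_main (p : ℕ) [Fact p.Prime] (hp2 : p ≠ 2) (l u v : List (ZMod p)) (r : List ℕ)
    (g s n : ℕ) (hok : HypC_ok p l u v r g s n) : HasCurve p g s := by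
  classical
  obtain ⟨h0, h1, hn, hb, hb', hg, hw, hr, ht, hs⟩ := hok
  have hdeg : (HypC_P l).natDegree ≤ n := by
    rw [Polynomial.natDegree_le_iff_coeff_eq_zero]
    intro N hN
    rw [HypC_coeff, List.getD_eq_default]
    omega
  have hlead : (HypC_P l).coeff n = 1 := by rw [HypC_coeff, h1]
  have hmonic : (HypC_P l).Monic := Polynomial.monic_of_natDegree_le_of_coeff_eq_one n hdeg hlead
  have hnat : (HypC_P l).natDegree = n := by
    apply Polynomial.natDegree_eq_of_le_of_coeff_ne_zero hdeg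
    rw [hlead]
    exact one_ne_zero
  have hsep : (HypC_P l).Separable := by
    refine ⟨HypC_P u, HypC_P v, ?_⟩
    rw [← HypC_P_der, ← HypC_P_mul, ← HypC_P_mul, ← HypC_P_add]
    ext i
    rw [HypC_coeff, Polynomial.coeff_one]
    by_cases hi : i < 40
    · exact hb i hi
    · rw [List.getD_eq_default _ _ (by omega), if_neg (by omega)]
  refine hasCurve_hyp p hp2 (HypC_P l) hmonic hsep g s (by rwa [hnat]) ?_
  rw [← Polynomial.map_pow, ← HypC_P_pw]
  have hinj : Function.Injective (algebraMap (ZMod p) (AlgebraicClosure (ZMod p))) :=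
    (algebraMap (ZMod p) (AlgebraicClosure (ZMod p))).injective
  have hc : ∀ N, ((HypC_P (HypC_pw l ((p - 1) / 2))).map
      (algebraMap (ZMod p) (AlgebraicClosure (ZMod p)))).coeff N = 0 ↔
      (HypC_pw l ((p - 1) / 2)).getD N 0 = 0 := by
    intro N
    rw [Polynomial.coeff_map, map_eq_zero_iff _ hinj, HypC_coeff]
  have hfix := fixP_perm ((HypC_P (HypC_pw l ((p - 1) / 2))).map
      (algebraMap (ZMod p) (AlgebraicClosure (ZMod p)))) g hg (by
        rw [Polynomial.natDegree_map_eq_of_injective hinj,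
          Polynomial.natDegree_le_iff_coeff_eq_zero]
        intro N hN
        rw [HypC_coeff, List.getD_eq_default]
        omega) (fun i => r.getD i 0) hr (by
        intro i hi j hj hij hle
        rw [hc]
        exact ht i hi j hj hij hle)
  have hcard : ((Finset.range g).filter fun i => ((HypC_P (HypC_pw l ((p - 1) / 2))).map
      (algebraMap (ZMod p) (AlgebraicClosure (ZMod p)))).coeff (p * i + (p - 1) - i) ≠ 0).card =
      s := by
    rw [← hs]
    congr 1
    apply Finset.ext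
    intro i
    simp only [Finset.mem_filter, ne_eq, hc]
  rw [← hcard]
  convert hfix using 2

theorem HypC_5_3_1 : HypC_ok 5 [1, 0, 0, 0, 0, 0, 0, 0, 1]
    [1] [0, 3] [0, 1, 2] 3 1 8 := by
  decide +kernel

theorem hyp_5_3_1 [Fact (Nat.Prime 5)] : HasCurve 5 3 1 := by
  exact HypC_main 5 (by norm_num) _ _ _ _ _ _ _ HypC_5_3_1

theorem HypC_5_3_2 : HypC_ok 5 [2, 0, 0, 0, 1, 0, 0, 0, 1]
    [3, 0, 0, 0, 2] [0, 2, 0, 0, 0, 1] [0, 1, 2] 3 2 8 := by
  decide +kernel

theorem hyp_5_3_2 [Fact (Nat.Prime 5)] : HasCurve 5 3 2 := by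
  exact HypC_main 5 (by norm_num) _ _ _ _ _ _ _ HypC_5_3_2

theorem HypC_7_4_1 : HypC_ok 7 [1, 0, 0, 0, 0, 0, 0, 0, 0, 1]
    [1] [0, 3] [0, 1, 2, 3] 4 1 9 := by
  decide +kernel

theorem hyp_7_4_1 [Fact (Nat.Prime 7)] : HasCurve 7 4 1 := by
  exact HypC_main 7 (by norm_num) _ _ _ _ _ _ _ HypC_7_4_1

theorem HypC_7_4_3 : HypC_ok 7 [2, 0, 0, 0, 0, 0, 1, 0, 0, 1]
    [4, 0, 0, 0, 0, 0, 3] [0, 3, 0, 0, 3, 0, 0, 2] [0, 1, 2, 3] 4 3 9 := by
  decide +kernel

theorem hyp_7_4_3 [Fact (Nat.Prime 7)] : HasCurve 7 4 3 := by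
  exact HypC_main 7 (by norm_num) _ _ _ _ _ _ _ HypC_7_4_3

theorem HypC_7_5_1 : HypC_ok 7 [0, 3, 0, 0, 0, 0, 2, 0, 0, 0, 0, 1]
    [0, 0, 0, 0, 6] [5, 0, 0, 0, 0, 2] [3, 0, 2, 1, 4] 5 1 11 := by
  decide +kernel

theorem hyp_7_5_1 [Fact (Nat.Prime 7)] : HasCurve 7 5 1 := by
  exact HypC_main 7 (by norm_num) _ _ _ _ _ _ _ HypC_7_5_1

theorem HypC_7_5_3 : HypC_ok 7 [3, 0, 0, 0, 0, 0, 2, 0, 0, 0, 0, 0, 1]
    [5, 0, 0, 0, 0, 0, 1] [0, 3, 0, 0, 0, 0, 0, 4] [0, 1, 2, 3, 4] 5 3 12 := by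
  decide +kernel

theorem hyp_7_5_3 [Fact (Nat.Prime 7)] : HasCurve 7 5 3 := by
  exact HypC_main 7 (by norm_num) _ _ _ _ _ _ _ HypC_7_5_3

end Pool.Agent.PRB
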