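import Pool.Agent.LibPRB.LinT

/-! # Table of curves for p = 3 -/

set_option autoImplicit false
set_option maxRecDepth 10000

namespace Pool.Agent.PRB

namespace Tab3

instance fp : Fact (Nat.Prime 3) := ⟨by norm_num⟩

def t1 : TLine 3 where
  r := 1
  c := ![0]
  m := ![1]
  D := ![0]
  DI := 1
  j0 := 0
  v := none
  Nb := fun d => [0, 0].getD d 0
  sb := fun d => [0, 0].getD d 0

theorem t1_ok : t1.Ok 0 0 0 := by decide +kernel

theorem c1 (f a : ℕ) (h : 0 ≤ f ∧ (f - 0) % 2 = 0 ∧ 0 ≤ a ∧ (1 + 2 * (a - 0)) % 3 ≠ 0 ∧ 0 ≤ 2 * (a - 0 + (f - 0) / 2)) :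
    HasCurve 3 (f + a) f := by
  have h1 := t1.hasCurve 0 0 0 t1_ok (a - 0) ((f - 0) / 2)
    (by
      have h2 : t1.Dv = 1 := rfl
      rw [h2]
      omega) (by omega) (Or.inl (show 1 < 3 by norm_num))
  have h3 : 0 + (3 - 1) / 2 * (a - 0) + (3 - 1) * ((f - 0) / 2) = f + a := by omega
  have h4 : 0 + (3 - 1) * ((f - 0) / 2) = f := by omega
  rw [h3, h4] at h1
  exact h1

def t2 : TLine 3 where
  r := 2
  c := ![0, 1]
  m := ![1, 0]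
  D := ![0, 4]
  DI := 1
  j0 := 0
  v := none
  Nb := fun d => [0, 0].getD d 0
  sb := fun d => [0, 0].getD d 0

theorem t2_ok : t2.Ok 3 2 0 := by decide +kernel

theorem c2 (f a : ℕ) (h : 2 ≤ f ∧ (f - 2) % 2 = 0 ∧ 1 ≤ a ∧ (1 + 2 * (a - 1)) % 3 ≠ 0 ∧ 0 ≤ 2 * (a - 1 + (f - 2) / 2)) :
    HasCurve 3 (f + a) f := by
  have h1 := t2.hasCurve 3 2 0 t2_ok (a - 1) ((f - 2) / 2)
    (by
      have h2 : t2.Dv = 1 := rfl
      rw [h2]
      omega) (by omega) (Or.inl (show 2 < 3 by norm_num))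
  have h3 : 3 + (3 - 1) / 2 * (a - 1) + (3 - 1) * ((f - 2) / 2) = f + a := by omega
  have h4 : 2 + (3 - 1) * ((f - 2) / 2) = f := by omega
  rw [h3, h4] at h1
  exact h1

def t3 : TLine 3 where
  r := 3
  c := ![0, 1, 2]
  m := ![1, 1, 1]
  D := ![0, 0, 0]
  DI := 1
  j0 := 0
  v := none
  Nb := fun d => [0, 1].getD d 0
  sb := fun d => [0, 0].getD d 0

theorem t3_ok : t3.Ok 1 0 2 := by decide +kernel

theorem c3 (f a : ℕ) (h : 0 ≤ f ∧ (f - 0) % 2 = 0 ∧ 1 ≤ a ∧ (1 + 2 * (a - 1)) % 3 ≠ 0 ∧ 2 ≤ 2 * (a - 1 + (f - 0) / 2) ∧ (f - 0) / 2 ≠ 1) :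
    HasCurve 3 (f + a) f := by
  have h1 := t3.hasCurve 1 0 2 t3_ok (a - 1) ((f - 0) / 2)
    (by
      have h2 : t3.Dv = 1 := rfl
      rw [h2]
      omega) (by omega) (Or.inr (by omega))
  have h3 : 1 + (3 - 1) / 2 * (a - 1) + (3 - 1) * ((f - 0) / 2) = f + a := by omega
  have h4 : 0 + (3 - 1) * ((f - 0) / 2) = f := by omega
  rw [h3, h4] at h1
  exact h1

def t4 : TLine 3 where
  r := 2
  c := ![0, 1]
  m := ![1, 0]
  D := ![1, 0]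
  DI := 1
  j0 := 1
  v := none
  Nb := fun d => [0, 0].getD d 0
  sb := fun d => [0, 0].getD d 0

theorem t4_ok : t4.Ok 1 1 0 := by decide +kernel

theorem c4 (f a : ℕ) (h : 1 ≤ f ∧ (f - 1) % 2 = 0 ∧ 0 ≤ a ∧ (1 + 2 * (a - 0)) % 3 ≠ 0 ∧ 0 ≤ 2 * (a - 0 + (f - 1) / 2)) :
    HasCurve 3 (f + a) f := by
  have h1 := t4.hasCurve 1 1 0 t4_ok (a - 0) ((f - 1) / 2)
    (by
      have h2 : t4.Dv = 1 := rfl
      rw [h2]
      omega) (by omega) (Or.inl (show 2 < 3 by norm_num))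
  have h3 : 1 + (3 - 1) / 2 * (a - 0) + (3 - 1) * ((f - 1) / 2) = f + a := by omega
  have h4 : 1 + (3 - 1) * ((f - 1) / 2) = f := by omega
  rw [h3, h4] at h1
  exact h1

def t5 : TLine 3 where
  r := 2
  c := ![0, 1]
  m := ![1, 0]
  D := ![5, 0]
  DI := 1
  j0 := 1
  v := none
  Nb := fun d => [0, 0].getD d 0
  sb := fun d => [0, 0].getD d 0

theorem t5_ok : t5.Ok 3 1 0 := by decide +kernel

theorem c5 (f a : ℕ) (h : 1 ≤ f ∧ (f - 1) % 2 = 0 ∧ 2 ≤ a ∧ (1 + 2 * (a - 2)) % 3 ≠ 0 ∧ 0 ≤ 2 * (a - 2 + (f - 1) / 2)) :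
    HasCurve 3 (f + a) f := by
  have h1 := t5.hasCurve 3 1 0 t5_ok (a - 2) ((f - 1) / 2)
    (by
      have h2 : t5.Dv = 1 := rfl
      rw [h2]
      omega) (by omega) (Or.inl (show 2 < 3 by norm_num))
  have h3 : 3 + (3 - 1) / 2 * (a - 2) + (3 - 1) * ((f - 1) / 2) = f + a := by omega
  have h4 : 1 + (3 - 1) * ((f - 1) / 2) = f := by omega
  rw [h3, h4] at h1
  exact h1

def t6 : TLine 3 where
  r := 3
  c := ![0, 1, 2]
  m := ![1, 0, 0]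
  D := ![1, 4, 0]
  DI := 1
  j0 := 2
  v := none
  Nb := fun d => [0, 0].getD d 0
  sb := fun d => [0, 0].getD d 0

theorem t6_ok : t6.Ok 4 3 0 := by decide +kernel

theorem c6 (f a : ℕ) (h : 3 ≤ f ∧ (f - 3) % 2 = 0 ∧ 1 ≤ a ∧ (1 + 2 * (a - 1)) % 3 ≠ 0 ∧ 0 ≤ 2 * (a - 1 + (f - 3) / 2) ∧ (f - 3) / 2 ≠ 1) :
    HasCurve 3 (f + a) f := by
  have h1 := t6.hasCurve 4 3 0 t6_ok (a - 1) ((f - 3) / 2)
    (by
      have h2 : t6.Dv = 1 := rfl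
      rw [h2]
      omega) (by omega) (Or.inr (by omega))
  have h3 : 4 + (3 - 1) / 2 * (a - 1) + (3 - 1) * ((f - 3) / 2) = f + a := by omega
  have h4 : 3 + (3 - 1) * ((f - 3) / 2) = f := by omega
  rw [h3, h4] at h1
  exact h1

def t7 : TLine 3 where
  r := 3
  c := ![0, 1, 2]
  m := ![1, 1, 1]
  D := ![1, 0, 0]
  DI := 1
  j0 := 1
  v := none
  Nb := fun d => [0, 1].getD d 0
  sb := fun d => [0, 0].getD d 0

theorem t7_ok : t7.Ok 2 1 0 := by decide +kernel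

theorem c7 (f a : ℕ) (h : 1 ≤ f ∧ (f - 1) % 2 = 0 ∧ 1 ≤ a ∧ (1 + 2 * (a - 1)) % 3 ≠ 0 ∧ 0 ≤ 2 * (a - 1 + (f - 1) / 2) ∧ (f - 1) / 2 ≠ 1) :
    HasCurve 3 (f + a) f := by
  have h1 := t7.hasCurve 2 1 0 t7_ok (a - 1) ((f - 1) / 2)
    (by
      have h2 : t7.Dv = 1 := rfl
      rw [h2]
      omega) (by omega) (Or.inr (by omega))
  have h3 : 2 + (3 - 1) / 2 * (a - 1) + (3 - 1) * ((f - 1) / 2) = f + a := by omega
  have h4 : 1 + (3 - 1) * ((f - 1) / 2) = f := by omega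
  rw [h3, h4] at h1
  exact h1

theorem cover (f a : ℕ) (ha : 1 ≤ a) (h0 : ¬ (f = 0 ∧ a = 1)) : HasCurve 3 (f + a) f := by
  rcases Nat.even_or_odd' f with ⟨i, hi | hi⟩
  · by_cases h1 : a % 3 = 1
    · by_cases h2 : f = 0
      · exact c3 f a (by omega)
      · exact c2 f a (by omega)
    · exact c1 f a (by omega)
  · by_cases h1 : a % 3 = 1
    · by_cases h2 : a = 1
      · by_cases h3 : f = 3
        · exact c6 f a (by omega)
        · exact c7 f a (by omega)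
      · exact c5 f a (by omega)
    · exact c4 f a (by omega)

end Tab3

end Pool.Agent.PRB
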