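import Pool.Agent.LibPRB.LinT

/-! # Table of curves for p = 5 -/

set_option autoImplicit false
set_option maxRecDepth 10000

namespace Pool.Agent.PRB

namespace Tab5

instance fp : Fact (Nat.Prime 5) := ⟨by norm_num⟩

def t1 : TLine 5 where
  r := 2
  c := ![0, 1]
  m := ![1, 0]
  D := ![1, 0]
  DI := 0
  j0 := 1
  v := some 0
  Nb := fun d => [0, 0, 0, 0].getD d 0
  sb := fun d => [0, 0, 0, 0].getD d 0

theorem t1_ok : t1.Ok 0 0 0 := by decide +kernel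

theorem c1 (f a : ℕ) (h : 0 ≤ f ∧ (f - 0) % 4 = 0 ∧ 0 ≤ a ∧ (a - 0) % 2 = 0 ∧
      (1 + 4 * ((a - 0) / 2)) % 5 ≠ 0 ∧ 0 ≤ 4 * ((a - 0) / 2 + (f - 0) / 4)) :
    HasCurve 5 (f + a) f := by
  have h1 := t1.hasCurve 0 0 0 t1_ok ((a - 0) / 2) ((f - 0) / 4)
    (by
      have h2 : t1.Dv = 1 := rfl
      rw [h2]
      omega) (by omega) (Or.inl (show 2 < 5 by norm_num))
  have h3 : 0 + (5 - 1) / 2 * ((a - 0) / 2) + (5 - 1) * ((f - 0) / 4) = f + a := by omega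
  have h4 : 0 + (5 - 1) * ((f - 0) / 4) = f := by omega
  rw [h3, h4] at h1
  exact h1

def t2 : TLine 5 where
  r := 2
  c := ![0, 1]
  m := ![2, 0]
  D := ![2, 0]
  DI := 0
  j0 := 1
  v := some 0
  Nb := fun d => [0, 0, 0, 0].getD d 0
  sb := fun d => [0, 0, 0, 0].getD d 0

theorem t2_ok : t2.Ok 0 0 0 := by decide +kernel

theorem c2 (f a : ℕ) (h : 0 ≤ f ∧ (f - 0) % 4 = 0 ∧ 0 ≤ a ∧ (a - 0) % 2 = 0 ∧
      (2 + 4 * ((a - 0) / 2)) % 5 ≠ 0 ∧ 0 ≤ 4 * ((a - 0) / 2 + (f - 0) / 4)) :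
    HasCurve 5 (f + a) f := by
  have h1 := t2.hasCurve 0 0 0 t2_ok ((a - 0) / 2) ((f - 0) / 4)
    (by
      have h2 : t2.Dv = 2 := rfl
      rw [h2]
      omega) (by omega) (Or.inl (show 2 < 5 by norm_num))
  have h3 : 0 + (5 - 1) / 2 * ((a - 0) / 2) + (5 - 1) * ((f - 0) / 4) = f + a := by omega
  have h4 : 0 + (5 - 1) * ((f - 0) / 4) = f := by omega
  rw [h3, h4] at h1
  exact h1

def t3 : TLine 5 where
  r := 2
  c := ![0, 1]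
  m := ![1, 0]
  D := ![0, 0]
  DI := 3
  j0 := 1
  v := none
  Nb := fun d => [0, 0, 0, 0].getD d 0
  sb := fun d => [0, 0, 0, 0].getD d 0

theorem t3_ok : t3.Ok 1 0 0 := by decide +kernel

theorem c3 (f a : ℕ) (h : 0 ≤ f ∧ (f - 0) % 4 = 0 ∧ 1 ≤ a ∧ (a - 1) % 2 = 0 ∧
      (3 + 4 * ((a - 1) / 2)) % 5 ≠ 0 ∧ 0 ≤ 4 * ((a - 1) / 2 + (f - 0) / 4)) :
    HasCurve 5 (f + a) f := by
  have h1 := t3.hasCurve 1 0 0 t3_ok ((a - 1) / 2) ((f - 0) / 4)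
    (by
      have h2 : t3.Dv = 3 := rfl
      rw [h2]
      omega) (by omega) (Or.inl (show 2 < 5 by norm_num))
  have h3 : 1 + (5 - 1) / 2 * ((a - 1) / 2) + (5 - 1) * ((f - 0) / 4) = f + a := by omega
  have h4 : 0 + (5 - 1) * ((f - 0) / 4) = f := by omega
  rw [h3, h4] at h1
  exact h1

def t4 : TLine 5 where
  r := 4
  c := ![0, 1, 2, 3]
  m := ![1, 2, 3, 0]
  D := ![0, 0, 3, 0]
  DI := 0
  j0 := 3
  v := some 2
  Nb := fun d => [0, 1, 0, 1].getD d 0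
  sb := fun d => [0, 0, 0, 0].getD d 0

theorem t4_ok : t4.Ok 3 0 4 := by decide +kernel

theorem c4 (f a : ℕ) (h : 0 ≤ f ∧ (f - 0) % 4 = 0 ∧ 3 ≤ a ∧ (a - 3) % 2 = 0 ∧
      (3 + 4 * ((a - 3) / 2)) % 5 ≠ 0 ∧ 4 ≤ 4 * ((a - 3) / 2 + (f - 0) / 4)) :
    HasCurve 5 (f + a) f := by
  have h1 := t4.hasCurve 3 0 4 t4_ok ((a - 3) / 2) ((f - 0) / 4)
    (by
      have h2 : t4.Dv = 3 := rfl
      rw [h2]
      omega) (by omega) (Or.inl (show 4 < 5 by norm_num))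
  have h3 : 3 + (5 - 1) / 2 * ((a - 3) / 2) + (5 - 1) * ((f - 0) / 4) = f + a := by omega
  have h4 : 0 + (5 - 1) * ((f - 0) / 4) = f := by omega
  rw [h3, h4] at h1
  exact h1

def t5 : TLine 5 where
  r := 3
  c := ![0, 1, 2]
  m := ![1, 1, 0]
  D := ![1, 0, 0]
  DI := 0
  j0 := 2
  v := some 0
  Nb := fun d => [0, 1, 0, 0].getD d 0
  sb := fun d => [0, 1, 0, 0].getD d 0

theorem t5_ok : t5.Ok 1 1 4 := by decide +kernel

theorem c5 (f a : ℕ) (h : 1 ≤ f ∧ (f - 1) % 4 = 0 ∧ 0 ≤ a ∧ (a - 0) % 2 = 0 ∧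
      (1 + 4 * ((a - 0) / 2)) % 5 ≠ 0 ∧ 4 ≤ 4 * ((a - 0) / 2 + (f - 1) / 4)) :
    HasCurve 5 (f + a) f := by
  have h1 := t5.hasCurve 1 1 4 t5_ok ((a - 0) / 2) ((f - 1) / 4)
    (by
      have h2 : t5.Dv = 1 := rfl
      rw [h2]
      omega) (by omega) (Or.inl (show 3 < 5 by norm_num))
  have h3 : 1 + (5 - 1) / 2 * ((a - 0) / 2) + (5 - 1) * ((f - 1) / 4) = f + a := by omega
  have h4 : 1 + (5 - 1) * ((f - 1) / 4) = f := by omega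
  rw [h3, h4] at h1
  exact h1

def t6 : TLine 5 where
  r := 4
  c := ![0, 1, 2, 3]
  m := ![1, 2, 3, 0]
  D := ![0, 2, 0, 0]
  DI := 0
  j0 := 3
  v := some 1
  Nb := fun d => [0, 1, 0, 1].getD d 0
  sb := fun d => [0, 0, 0, 0].getD d 0

theorem t6_ok : t6.Ok 3 1 4 := by decide +kernel

theorem c6 (f a : ℕ) (h : 1 ≤ f ∧ (f - 1) % 4 = 0 ∧ 2 ≤ a ∧ (a - 2) % 2 = 0 ∧
      (2 + 4 * ((a - 2) / 2)) % 5 ≠ 0 ∧ 4 ≤ 4 * ((a - 2) / 2 + (f - 1) / 4)) :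
    HasCurve 5 (f + a) f := by
  have h1 := t6.hasCurve 3 1 4 t6_ok ((a - 2) / 2) ((f - 1) / 4)
    (by
      have h2 : t6.Dv = 2 := rfl
      rw [h2]
      omega) (by omega) (Or.inl (show 4 < 5 by norm_num))
  have h3 : 3 + (5 - 1) / 2 * ((a - 2) / 2) + (5 - 1) * ((f - 1) / 4) = f + a := by omega
  have h4 : 1 + (5 - 1) * ((f - 1) / 4) = f := by omega
  rw [h3, h4] at h1
  exact h1

def t7 : TLine 5 where
  r := 2
  c := ![0, 1]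
  m := ![1, 0]
  D := ![1, 0]
  DI := 3
  j0 := 1
  v := some 0
  Nb := fun d => [0, 0, 0, 0].getD d 0
  sb := fun d => [0, 0, 0, 0].getD d 0

theorem t7_ok : t7.Ok 2 1 0 := by decide +kernel

theorem c7 (f a : ℕ) (h : 1 ≤ f ∧ (f - 1) % 4 = 0 ∧ 1 ≤ a ∧ (a - 1) % 2 = 0 ∧
      (1 + 4 * ((a - 1) / 2)) % 5 ≠ 0 ∧ 0 ≤ 4 * ((a - 1) / 2 + (f - 1) / 4)) :
    HasCurve 5 (f + a) f := by
  have h1 := t7.hasCurve 2 1 0 t7_ok ((a - 1) / 2) ((f - 1) / 4)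
    (by
      have h2 : t7.Dv = 1 := rfl
      rw [h2]
      omega) (by omega) (Or.inl (show 2 < 5 by norm_num))
  have h3 : 2 + (5 - 1) / 2 * ((a - 1) / 2) + (5 - 1) * ((f - 1) / 4) = f + a := by omega
  have h4 : 1 + (5 - 1) * ((f - 1) / 4) = f := by omega
  rw [h3, h4] at h1
  exact h1

def t8 : TLine 5 where
  r := 2
  c := ![0, 1]
  m := ![1, 0]
  D := ![1, 0]
  DI := 3
  j0 := 1
  v := none
  Nb := fun d => [0, 0, 0, 0].getD d 0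
  sb := fun d => [0, 0, 0, 0].getD d 0

theorem t8_ok : t8.Ok 2 1 0 := by decide +kernel

theorem c8 (f a : ℕ) (h : 1 ≤ f ∧ (f - 1) % 4 = 0 ∧ 1 ≤ a ∧ (a - 1) % 2 = 0 ∧
      (3 + 4 * ((a - 1) / 2)) % 5 ≠ 0 ∧ 0 ≤ 4 * ((a - 1) / 2 + (f - 1) / 4)) :
    HasCurve 5 (f + a) f := by
  have h1 := t8.hasCurve 2 1 0 t8_ok ((a - 1) / 2) ((f - 1) / 4)
    (by
      have h2 : t8.Dv = 3 := rfl
      rw [h2]
      omega) (by omega) (Or.inl (show 2 < 5 by norm_num))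
  have h3 : 2 + (5 - 1) / 2 * ((a - 1) / 2) + (5 - 1) * ((f - 1) / 4) = f + a := by omega
  have h4 : 1 + (5 - 1) * ((f - 1) / 4) = f := by omega
  rw [h3, h4] at h1
  exact h1

def t9 : TLine 5 where
  r := 3
  c := ![0, 1, 2]
  m := ![2, 0, 0]
  D := ![0, 0, 4]
  DI := 0
  j0 := 1
  v := some 2
  Nb := fun d => [0, 0, 0, 0].getD d 0
  sb := fun d => [0, 0, 0, 0].getD d 0

theorem t9_ok : t9.Ok 2 2 0 := by decide +kernel

theorem c9 (f a : ℕ) (h : 2 ≤ f ∧ (f - 2) % 4 = 0 ∧ 0 ≤ a ∧ (a - 0) % 2 = 0 ∧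
      (4 + 4 * ((a - 0) / 2)) % 5 ≠ 0 ∧ 0 ≤ 4 * ((a - 0) / 2 + (f - 2) / 4)) :
    HasCurve 5 (f + a) f := by
  have h1 := t9.hasCurve 2 2 0 t9_ok ((a - 0) / 2) ((f - 2) / 4)
    (by
      have h2 : t9.Dv = 4 := rfl
      rw [h2]
      omega) (by omega) (Or.inl (show 3 < 5 by norm_num))
  have h3 : 2 + (5 - 1) / 2 * ((a - 0) / 2) + (5 - 1) * ((f - 2) / 4) = f + a := by omega
  have h4 : 2 + (5 - 1) * ((f - 2) / 4) = f := by omega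
  rw [h3, h4] at h1
  exact h1

def t10 : TLine 5 where
  r := 2
  c := ![0, 1]
  m := ![2, 0]
  D := ![2, 0]
  DI := 2
  j0 := 1
  v := some 0
  Nb := fun d => [0, 0, 0, 0].getD d 0
  sb := fun d => [0, 0, 0, 0].getD d 0

theorem t10_ok : t10.Ok 2 2 0 := by decide +kernel

theorem c10 (f a : ℕ) (h : 2 ≤ f ∧ (f - 2) % 4 = 0 ∧ 0 ≤ a ∧ (a - 0) % 2 = 0 ∧
      (2 + 4 * ((a - 0) / 2)) % 5 ≠ 0 ∧ 0 ≤ 4 * ((a - 0) / 2 + (f - 2) / 4)) :
    HasCurve 5 (f + a) f := by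
  have h1 := t10.hasCurve 2 2 0 t10_ok ((a - 0) / 2) ((f - 2) / 4)
    (by
      have h2 : t10.Dv = 2 := rfl
      rw [h2]
      omega) (by omega) (Or.inl (show 2 < 5 by norm_num))
  have h3 : 2 + (5 - 1) / 2 * ((a - 0) / 2) + (5 - 1) * ((f - 2) / 4) = f + a := by omega
  have h4 : 2 + (5 - 1) * ((f - 2) / 4) = f := by omega
  rw [h3, h4] at h1
  exact h1

def t11 : TLine 5 where
  r := 4
  c := ![0, 1, 2, 3]
  m := ![1, 2, 2, 0]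
  D := ![0, 0, 0, 0]
  DI := 3
  j0 := 3
  v := none
  Nb := fun d => [0, 1, 0, 1].getD d 0
  sb := fun d => [0, 1, 0, 1].getD d 0

theorem t11_ok : t11.Ok 3 2 4 := by decide +kernel

theorem c11 (f a : ℕ) (h : 2 ≤ f ∧ (f - 2) % 4 = 0 ∧ 1 ≤ a ∧ (a - 1) % 2 = 0 ∧
      (3 + 4 * ((a - 1) / 2)) % 5 ≠ 0 ∧ 4 ≤ 4 * ((a - 1) / 2 + (f - 2) / 4)) :
    HasCurve 5 (f + a) f := by
  have h1 := t11.hasCurve 3 2 4 t11_ok ((a - 1) / 2) ((f - 2) / 4)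
    (by
      have h2 : t11.Dv = 3 := rfl
      rw [h2]
      omega) (by omega) (Or.inl (show 4 < 5 by norm_num))
  have h3 : 3 + (5 - 1) / 2 * ((a - 1) / 2) + (5 - 1) * ((f - 2) / 4) = f + a := by omega
  have h4 : 2 + (5 - 1) * ((f - 2) / 4) = f := by omega
  rw [h3, h4] at h1
  exact h1

def t12 : TLine 5 where
  r := 4
  c := ![0, 1, 2, 3]
  m := ![1, 2, 3, 0]
  D := ![0, 2, 3, 0]
  DI := 0
  j0 := 3
  v := some 2
  Nb := fun d => [0, 1, 0, 1].getD d 0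
  sb := fun d => [0, 0, 0, 0].getD d 0

theorem t12_ok : t12.Ok 5 2 0 := by decide +kernel

theorem c12 (f a : ℕ) (h : 2 ≤ f ∧ (f - 2) % 4 = 0 ∧ 3 ≤ a ∧ (a - 3) % 2 = 0 ∧
      (3 + 4 * ((a - 3) / 2)) % 5 ≠ 0 ∧ 0 ≤ 4 * ((a - 3) / 2 + (f - 2) / 4)) :
    HasCurve 5 (f + a) f := by
  have h1 := t12.hasCurve 5 2 0 t12_ok ((a - 3) / 2) ((f - 2) / 4)
    (by
      have h2 : t12.Dv = 3 := rfl
      rw [h2]
      omega) (by omega) (Or.inl (show 4 < 5 by norm_num))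
  have h3 : 5 + (5 - 1) / 2 * ((a - 3) / 2) + (5 - 1) * ((f - 2) / 4) = f + a := by omega
  have h4 : 2 + (5 - 1) * ((f - 2) / 4) = f := by omega
  rw [h3, h4] at h1
  exact h1

def t13 : TLine 5 where
  r := 3
  c := ![0, 1, 2]
  m := ![1, 0, 0]
  D := ![0, 0, 4]
  DI := 0
  j0 := 1
  v := some 2
  Nb := fun d => [0, 0, 0, 0].getD d 0
  sb := fun d => [0, 0, 0, 0].getD d 0

theorem t13_ok : t13.Ok 3 3 0 := by decide +kernel

theorem c13 (f a : ℕ) (h : 3 ≤ f ∧ (f - 3) % 4 = 0 ∧ 0 ≤ a ∧ (a - 0) % 2 = 0 ∧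
      (4 + 4 * ((a - 0) / 2)) % 5 ≠ 0 ∧ 0 ≤ 4 * ((a - 0) / 2 + (f - 3) / 4)) :
    HasCurve 5 (f + a) f := by
  have h1 := t13.hasCurve 3 3 0 t13_ok ((a - 0) / 2) ((f - 3) / 4)
    (by
      have h2 : t13.Dv = 4 := rfl
      rw [h2]
      omega) (by omega) (Or.inl (show 3 < 5 by norm_num))
  have h3 : 3 + (5 - 1) / 2 * ((a - 0) / 2) + (5 - 1) * ((f - 3) / 4) = f + a := by omega
  have h4 : 3 + (5 - 1) * ((f - 3) / 4) = f := by omega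
  rw [h3, h4] at h1
  exact h1

def t14 : TLine 5 where
  r := 4
  c := ![0, 1, 2, 3]
  m := ![1, 2, 2, 0]
  D := ![0, 2, 0, 0]
  DI := 0
  j0 := 3
  v := some 1
  Nb := fun d => [0, 1, 0, 1].getD d 0
  sb := fun d => [0, 1, 0, 1].getD d 0

theorem t14_ok : t14.Ok 3 3 4 := by decide +kernel

theorem c14 (f a : ℕ) (h : 3 ≤ f ∧ (f - 3) % 4 = 0 ∧ 0 ≤ a ∧ (a - 0) % 2 = 0 ∧
      (2 + 4 * ((a - 0) / 2)) % 5 ≠ 0 ∧ 4 ≤ 4 * ((a - 0) / 2 + (f - 3) / 4)) :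
    HasCurve 5 (f + a) f := by
  have h1 := t14.hasCurve 3 3 4 t14_ok ((a - 0) / 2) ((f - 3) / 4)
    (by
      have h2 : t14.Dv = 2 := rfl
      rw [h2]
      omega) (by omega) (Or.inl (show 4 < 5 by norm_num))
  have h3 : 3 + (5 - 1) / 2 * ((a - 0) / 2) + (5 - 1) * ((f - 3) / 4) = f + a := by omega
  have h4 : 3 + (5 - 1) * ((f - 3) / 4) = f := by omega
  rw [h3, h4] at h1
  exact h1

def t15 : TLine 5 where
  r := 4
  c := ![0, 1, 2, 3]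
  m := ![1, 2, 2, 0]
  D := ![1, 0, 0, 0]
  DI := 3
  j0 := 3
  v := some 0
  Nb := fun d => [0, 1, 0, 1].getD d 0
  sb := fun d => [0, 1, 0, 1].getD d 0

theorem t15_ok : t15.Ok 4 3 0 := by decide +kernel

theorem c15 (f a : ℕ) (h : 3 ≤ f ∧ (f - 3) % 4 = 0 ∧ 1 ≤ a ∧ (a - 1) % 2 = 0 ∧
      (1 + 4 * ((a - 1) / 2)) % 5 ≠ 0 ∧ 0 ≤ 4 * ((a - 1) / 2 + (f - 3) / 4)) :
    HasCurve 5 (f + a) f := by
  have h1 := t15.hasCurve 4 3 0 t15_ok ((a - 1) / 2) ((f - 3) / 4)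
    (by
      have h2 : t15.Dv = 1 := rfl
      rw [h2]
      omega) (by omega) (Or.inl (show 4 < 5 by norm_num))
  have h3 : 4 + (5 - 1) / 2 * ((a - 1) / 2) + (5 - 1) * ((f - 3) / 4) = f + a := by omega
  have h4 : 3 + (5 - 1) * ((f - 3) / 4) = f := by omega
  rw [h3, h4] at h1
  exact h1

def t16 : TLine 5 where
  r := 4
  c := ![0, 1, 2, 3]
  m := ![1, 2, 2, 0]
  D := ![1, 0, 0, 0]
  DI := 3
  j0 := 3
  v := none
  Nb := fun d => [0, 1, 0, 1].getD d 0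
  sb := fun d => [0, 1, 0, 1].getD d 0

theorem t16_ok : t16.Ok 4 3 0 := by decide +kernel

theorem c16 (f a : ℕ) (h : 3 ≤ f ∧ (f - 3) % 4 = 0 ∧ 1 ≤ a ∧ (a - 1) % 2 = 0 ∧
      (3 + 4 * ((a - 1) / 2)) % 5 ≠ 0 ∧ 0 ≤ 4 * ((a - 1) / 2 + (f - 3) / 4)) :
    HasCurve 5 (f + a) f := by
  have h1 := t16.hasCurve 4 3 0 t16_ok ((a - 1) / 2) ((f - 3) / 4)
    (by
      have h2 : t16.Dv = 3 := rfl
      rw [h2]
      omega) (by omega) (Or.inl (show 4 < 5 by norm_num))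
  have h3 : 4 + (5 - 1) / 2 * ((a - 1) / 2) + (5 - 1) * ((f - 3) / 4) = f + a := by omega
  have h4 : 3 + (5 - 1) * ((f - 3) / 4) = f := by omega
  rw [h3, h4] at h1
  exact h1

theorem cover (f a : ℕ) (ha : 1 ≤ a) (h0 : ¬ (f = 1 ∧ a = 2)) (h1 : ¬ (f = 2 ∧ a = 1)) : HasCurve 5 (f + a) f := by
  have hf : f % 4 < 4 := Nat.mod_lt _ (by norm_num)
  have ha' : a % 10 < 10 := Nat.mod_lt _ (by norm_num)
  generalize hi : f % 4 = i at hf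
  generalize hj : a % 10 = j at ha'
  interval_cases i <;> interval_cases j
  · exact c1 f a (by omega)
  · exact c3 f a (by omega)
  · exact c2 f a (by omega)
  · exact c3 f a (by omega)
  · exact c1 f a (by omega)
  · exact c3 f a (by omega)
  · exact c1 f a (by omega)
  · exact c4 f a (by omega)
  · exact c1 f a (by omega)
  · exact c3 f a (by omega)
  · exact c5 f a (by omega)
  · exact c7 f a (by omega)
  · exact c6 f a (by omega)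
  · exact c8 f a (by omega)
  · exact c5 f a (by omega)
  · exact c7 f a (by omega)
  · exact c5 f a (by omega)
  · exact c7 f a (by omega)
  · exact c5 f a (by omega)
  · exact c7 f a (by omega)
  · exact c9 f a (by omega)
  · exact c11 f a (by omega)
  · exact c9 f a (by omega)
  · exact c11 f a (by omega)
  · exact c9 f a (by omega)
  · exact c11 f a (by omega)
  · exact c9 f a (by omega)
  · exact c12 f a (by omega)
  · exact c10 f a (by omega)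
  · exact c11 f a (by omega)
  · exact c13 f a (by omega)
  · exact c15 f a (by omega)
  · exact c13 f a (by omega)
  · exact c16 f a (by omega)
  · exact c13 f a (by omega)
  · exact c15 f a (by omega)
  · exact c13 f a (by omega)
  · exact c15 f a (by omega)
  · exact c14 f a (by omega)
  · exact c15 f a (by omega)

end Tab5

end Pool.Agent.PRB
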