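import Pool.Agent.LibPRB.LinT

/-! # Table of curves for p = 7 -/

set_option autoImplicit false
set_option maxRecDepth 10000

namespace Pool.Agent.PRB

namespace Tab7

instance fp : Fact (Nat.Prime 7) := ⟨by norm_num⟩

def t1 : TLine 7 where
  r := 2
  c := ![0, 1]
  m := ![1, 0]
  D := ![1, 0]
  DI := 0
  j0 := 1
  v := some 0
  Nb := fun d => [0, 0, 0, 0, 0, 0].getD d 0
  sb := fun d => [0, 0, 0, 0, 0, 0].getD d 0

theorem t1_ok : t1.Ok 0 0 0 := by decide +kernel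

theorem c1 (f a : ℕ) (h : 0 ≤ f ∧ (f - 0) % 6 = 0 ∧ 0 ≤ a ∧ (a - 0) % 3 = 0 ∧
      (1 + 6 * ((a - 0) / 3)) % 7 ≠ 0 ∧ 0 ≤ 6 * ((a - 0) / 3 + (f - 0) / 6)) :
    HasCurve 7 (f + a) f := by
  have h1 := t1.hasCurve 0 0 0 t1_ok ((a - 0) / 3) ((f - 0) / 6)
    (by
      have h2 : t1.Dv = 1 := rfl
      rw [h2]
      omega) (by omega) (Or.inl (show 2 < 7 by norm_num))
  have h3 : 0 + (7 - 1) / 2 * ((a - 0) / 3) + (7 - 1) * ((f - 0) / 6) = f + a := by omega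
  have h4 : 0 + (7 - 1) * ((f - 0) / 6) = f := by omega
  rw [h3, h4] at h1
  exact h1

def t2 : TLine 7 where
  r := 2
  c := ![0, 1]
  m := ![2, 0]
  D := ![2, 0]
  DI := 0
  j0 := 1
  v := some 0
  Nb := fun d => [0, 0, 0, 0, 0, 0].getD d 0
  sb := fun d => [0, 0, 0, 0, 0, 0].getD d 0

theorem t2_ok : t2.Ok 0 0 0 := by decide +kernel

theorem c2 (f a : ℕ) (h : 0 ≤ f ∧ (f - 0) % 6 = 0 ∧ 0 ≤ a ∧ (a - 0) % 3 = 0 ∧
      (2 + 6 * ((a - 0) / 3)) % 7 ≠ 0 ∧ 0 ≤ 6 * ((a - 0) / 3 + (f - 0) / 6)) :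
    HasCurve 7 (f + a) f := by
  have h1 := t2.hasCurve 0 0 0 t2_ok ((a - 0) / 3) ((f - 0) / 6)
    (by
      have h2 : t2.Dv = 2 := rfl
      rw [h2]
      omega) (by omega) (Or.inl (show 2 < 7 by norm_num))
  have h3 : 0 + (7 - 1) / 2 * ((a - 0) / 3) + (7 - 1) * ((f - 0) / 6) = f + a := by omega
  have h4 : 0 + (7 - 1) * ((f - 0) / 6) = f := by omega
  rw [h3, h4] at h1
  exact h1

def t3 : TLine 7 where
  r := 2
  c := ![0, 1]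
  m := ![2, 0]
  D := ![0, 0]
  DI := 4
  j0 := 1
  v := none
  Nb := fun d => [0, 0, 0, 0, 0, 0].getD d 0
  sb := fun d => [0, 0, 0, 0, 0, 0].getD d 0

theorem t3_ok : t3.Ok 1 0 0 := by decide +kernel

theorem c3 (f a : ℕ) (h : 0 ≤ f ∧ (f - 0) % 6 = 0 ∧ 1 ≤ a ∧ (a - 1) % 3 = 0 ∧
      (4 + 6 * ((a - 1) / 3)) % 7 ≠ 0 ∧ 0 ≤ 6 * ((a - 1) / 3 + (f - 0) / 6)) :
    HasCurve 7 (f + a) f := by
  have h1 := t3.hasCurve 1 0 0 t3_ok ((a - 1) / 3) ((f - 0) / 6)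
    (by
      have h2 : t3.Dv = 4 := rfl
      rw [h2]
      omega) (by omega) (Or.inl (show 2 < 7 by norm_num))
  have h3 : 1 + (7 - 1) / 2 * ((a - 1) / 3) + (7 - 1) * ((f - 0) / 6) = f + a := by omega
  have h4 : 0 + (7 - 1) * ((f - 0) / 6) = f := by omega
  rw [h3, h4] at h1
  exact h1

def t4 : TLine 7 where
  r := 5
  c := ![0, 1, 2, 3, 4]
  m := ![2, 2, 4, 2, 0]
  D := ![0, 0, 4, 0, 0]
  DI := 0
  j0 := 4
  v := some 2
  Nb := fun d => [0, 2, 1, 0, 2, 1].getD d 0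
  sb := fun d => [0, 0, 0, 0, 0, 0].getD d 0

theorem t4_ok : t4.Ok 7 0 12 := by decide +kernel

theorem c4 (f a : ℕ) (h : 0 ≤ f ∧ (f - 0) % 6 = 0 ∧ 7 ≤ a ∧ (a - 7) % 3 = 0 ∧
      (4 + 6 * ((a - 7) / 3)) % 7 ≠ 0 ∧ 12 ≤ 6 * ((a - 7) / 3 + (f - 0) / 6)) :
    HasCurve 7 (f + a) f := by
  have h1 := t4.hasCurve 7 0 12 t4_ok ((a - 7) / 3) ((f - 0) / 6)
    (by
      have h2 : t4.Dv = 4 := rfl
      rw [h2]
      omega) (by omega) (Or.inl (show 5 < 7 by norm_num))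
  have h3 : 7 + (7 - 1) / 2 * ((a - 7) / 3) + (7 - 1) * ((f - 0) / 6) = f + a := by omega
  have h4 : 0 + (7 - 1) * ((f - 0) / 6) = f := by omega
  rw [h3, h4] at h1
  exact h1

def t5 : TLine 7 where
  r := 2
  c := ![0, 1]
  m := ![1, 0]
  D := ![0, 0]
  DI := 5
  j0 := 1
  v := none
  Nb := fun d => [0, 0, 0, 0, 0, 0].getD d 0
  sb := fun d => [0, 0, 0, 0, 0, 0].getD d 0

theorem t5_ok : t5.Ok 2 0 0 := by decide +kernel

theorem c5 (f a : ℕ) (h : 0 ≤ f ∧ (f - 0) % 6 = 0 ∧ 2 ≤ a ∧ (a - 2) % 3 = 0 ∧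
      (5 + 6 * ((a - 2) / 3)) % 7 ≠ 0 ∧ 0 ≤ 6 * ((a - 2) / 3 + (f - 0) / 6)) :
    HasCurve 7 (f + a) f := by
  have h1 := t5.hasCurve 2 0 0 t5_ok ((a - 2) / 3) ((f - 0) / 6)
    (by
      have h2 : t5.Dv = 5 := rfl
      rw [h2]
      omega) (by omega) (Or.inl (show 2 < 7 by norm_num))
  have h3 : 2 + (7 - 1) / 2 * ((a - 2) / 3) + (7 - 1) * ((f - 0) / 6) = f + a := by omega
  have h4 : 0 + (7 - 1) * ((f - 0) / 6) = f := by omega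
  rw [h3, h4] at h1
  exact h1

def t6 : TLine 7 where
  r := 4
  c := ![0, 1, 2, 3]
  m := ![1, 3, 5, 0]
  D := ![0, 0, 5, 0]
  DI := 0
  j0 := 3
  v := some 2
  Nb := fun d => [0, 1, 0, 1, 0, 1].getD d 0
  sb := fun d => [0, 0, 0, 0, 0, 0].getD d 0

theorem t6_ok : t6.Ok 5 0 6 := by decide +kernel

theorem c6 (f a : ℕ) (h : 0 ≤ f ∧ (f - 0) % 6 = 0 ∧ 5 ≤ a ∧ (a - 5) % 3 = 0 ∧
      (5 + 6 * ((a - 5) / 3)) % 7 ≠ 0 ∧ 6 ≤ 6 * ((a - 5) / 3 + (f - 0) / 6)) :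
    HasCurve 7 (f + a) f := by
  have h1 := t6.hasCurve 5 0 6 t6_ok ((a - 5) / 3) ((f - 0) / 6)
    (by
      have h2 : t6.Dv = 5 := rfl
      rw [h2]
      omega) (by omega) (Or.inl (show 4 < 7 by norm_num))
  have h3 : 5 + (7 - 1) / 2 * ((a - 5) / 3) + (7 - 1) * ((f - 0) / 6) = f + a := by omega
  have h4 : 0 + (7 - 1) * ((f - 0) / 6) = f := by omega
  rw [h3, h4] at h1
  exact h1

def t7 : TLine 7 where
  r := 3
  c := ![0, 1, 2]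
  m := ![1, 2, 0]
  D := ![1, 0, 0]
  DI := 0
  j0 := 2
  v := some 0
  Nb := fun d => [0, 1, 0, 0, 0, 0].getD d 0
  sb := fun d => [0, 1, 0, 0, 0, 0].getD d 0

theorem t7_ok : t7.Ok 1 1 6 := by decide +kernel

theorem c7 (f a : ℕ) (h : 1 ≤ f ∧ (f - 1) % 6 = 0 ∧ 0 ≤ a ∧ (a - 0) % 3 = 0 ∧
      (1 + 6 * ((a - 0) / 3)) % 7 ≠ 0 ∧ 6 ≤ 6 * ((a - 0) / 3 + (f - 1) / 6)) :
    HasCurve 7 (f + a) f := by
  have h1 := t7.hasCurve 1 1 6 t7_ok ((a - 0) / 3) ((f - 1) / 6)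
    (by
      have h2 : t7.Dv = 1 := rfl
      rw [h2]
      omega) (by omega) (Or.inl (show 3 < 7 by norm_num))
  have h3 : 1 + (7 - 1) / 2 * ((a - 0) / 3) + (7 - 1) * ((f - 1) / 6) = f + a := by omega
  have h4 : 1 + (7 - 1) * ((f - 1) / 6) = f := by omega
  rw [h3, h4] at h1
  exact h1

def t8 : TLine 7 where
  r := 5
  c := ![0, 1, 2, 3, 4]
  m := ![3, 1, 2, 3, 0]
  D := ![0, 1, 0, 0, 0]
  DI := 0
  j0 := 4
  v := some 1
  Nb := fun d => [0, 2, 0, 1, 0, 1].getD d 0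
  sb := fun d => [0, 0, 0, 1, 0, 0].getD d 0

theorem t8_ok : t8.Ok 4 1 12 := by decide +kernel

theorem c8 (f a : ℕ) (h : 1 ≤ f ∧ (f - 1) % 6 = 0 ∧ 3 ≤ a ∧ (a - 3) % 3 = 0 ∧
      (1 + 6 * ((a - 3) / 3)) % 7 ≠ 0 ∧ 12 ≤ 6 * ((a - 3) / 3 + (f - 1) / 6)) :
    HasCurve 7 (f + a) f := by
  have h1 := t8.hasCurve 4 1 12 t8_ok ((a - 3) / 3) ((f - 1) / 6)
    (by
      have h2 : t8.Dv = 1 := rfl
      rw [h2]
      omega) (by omega) (Or.inl (show 5 < 7 by norm_num))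
  have h3 : 4 + (7 - 1) / 2 * ((a - 3) / 3) + (7 - 1) * ((f - 1) / 6) = f + a := by omega
  have h4 : 1 + (7 - 1) * ((f - 1) / 6) = f := by omega
  rw [h3, h4] at h1
  exact h1

def t9 : TLine 7 where
  r := 4
  c := ![0, 1, 2, 3]
  m := ![2, 3, 2, 0]
  D := ![0, 0, 0, 0]
  DI := 5
  j0 := 3
  v := none
  Nb := fun d => [0, 1, 0, 0, 1, 1].getD d 0
  sb := fun d => [0, 0, 0, 0, 1, 0].getD d 0

theorem t9_ok : t9.Ok 5 1 6 := by decide +kernel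

theorem c9 (f a : ℕ) (h : 1 ≤ f ∧ (f - 1) % 6 = 0 ∧ 4 ≤ a ∧ (a - 4) % 3 = 0 ∧
      (5 + 6 * ((a - 4) / 3)) % 7 ≠ 0 ∧ 6 ≤ 6 * ((a - 4) / 3 + (f - 1) / 6)) :
    HasCurve 7 (f + a) f := by
  have h1 := t9.hasCurve 5 1 6 t9_ok ((a - 4) / 3) ((f - 1) / 6)
    (by
      have h2 : t9.Dv = 5 := rfl
      rw [h2]
      omega) (by omega) (Or.inl (show 4 < 7 by norm_num))
  have h3 : 5 + (7 - 1) / 2 * ((a - 4) / 3) + (7 - 1) * ((f - 1) / 6) = f + a := by omega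
  have h4 : 1 + (7 - 1) * ((f - 1) / 6) = f := by omega
  rw [h3, h4] at h1
  exact h1

def t10 : TLine 7 where
  r := 6
  c := ![0, 1, 2, 3, 4, 5]
  m := ![2, 3, 3, 3, 2, 0]
  D := ![0, 0, 0, 0, 0, 0]
  DI := 5
  j0 := 5
  v := none
  Nb := fun d => [0, 2, 0, 1, 1, 2].getD d 0
  sb := fun d => [0, 0, 0, 0, 1, 0].getD d 0

theorem t10_ok : t10.Ok 8 1 12 := by decide +kernel

theorem c10 (f a : ℕ) (h : 1 ≤ f ∧ (f - 1) % 6 = 0 ∧ 7 ≤ a ∧ (a - 7) % 3 = 0 ∧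
      (5 + 6 * ((a - 7) / 3)) % 7 ≠ 0 ∧ 12 ≤ 6 * ((a - 7) / 3 + (f - 1) / 6)) :
    HasCurve 7 (f + a) f := by
  have h1 := t10.hasCurve 8 1 12 t10_ok ((a - 7) / 3) ((f - 1) / 6)
    (by
      have h2 : t10.Dv = 5 := rfl
      rw [h2]
      omega) (by omega) (Or.inl (show 6 < 7 by norm_num))
  have h3 : 8 + (7 - 1) / 2 * ((a - 7) / 3) + (7 - 1) * ((f - 1) / 6) = f + a := by omega
  have h4 : 1 + (7 - 1) * ((f - 1) / 6) = f := by omega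
  rw [h3, h4] at h1
  exact h1

def t11 : TLine 7 where
  r := 2
  c := ![0, 1]
  m := ![1, 0]
  D := ![1, 0]
  DI := 5
  j0 := 1
  v := some 0
  Nb := fun d => [0, 0, 0, 0, 0, 0].getD d 0
  sb := fun d => [0, 0, 0, 0, 0, 0].getD d 0

theorem t11_ok : t11.Ok 3 1 0 := by decide +kernel

theorem c11 (f a : ℕ) (h : 1 ≤ f ∧ (f - 1) % 6 = 0 ∧ 2 ≤ a ∧ (a - 2) % 3 = 0 ∧
      (1 + 6 * ((a - 2) / 3)) % 7 ≠ 0 ∧ 0 ≤ 6 * ((a - 2) / 3 + (f - 1) / 6)) :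
    HasCurve 7 (f + a) f := by
  have h1 := t11.hasCurve 3 1 0 t11_ok ((a - 2) / 3) ((f - 1) / 6)
    (by
      have h2 : t11.Dv = 1 := rfl
      rw [h2]
      omega) (by omega) (Or.inl (show 2 < 7 by norm_num))
  have h3 : 3 + (7 - 1) / 2 * ((a - 2) / 3) + (7 - 1) * ((f - 1) / 6) = f + a := by omega
  have h4 : 1 + (7 - 1) * ((f - 1) / 6) = f := by omega
  rw [h3, h4] at h1
  exact h1

def t12 : TLine 7 where
  r := 2
  c := ![0, 1]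
  m := ![1, 0]
  D := ![1, 0]
  DI := 5
  j0 := 1
  v := none
  Nb := fun d => [0, 0, 0, 0, 0, 0].getD d 0
  sb := fun d => [0, 0, 0, 0, 0, 0].getD d 0

theorem t12_ok : t12.Ok 3 1 0 := by decide +kernel

theorem c12 (f a : ℕ) (h : 1 ≤ f ∧ (f - 1) % 6 = 0 ∧ 2 ≤ a ∧ (a - 2) % 3 = 0 ∧
      (5 + 6 * ((a - 2) / 3)) % 7 ≠ 0 ∧ 0 ≤ 6 * ((a - 2) / 3 + (f - 1) / 6)) :
    HasCurve 7 (f + a) f := by
  have h1 := t12.hasCurve 3 1 0 t12_ok ((a - 2) / 3) ((f - 1) / 6)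
    (by
      have h2 : t12.Dv = 5 := rfl
      rw [h2]
      omega) (by omega) (Or.inl (show 2 < 7 by norm_num))
  have h3 : 3 + (7 - 1) / 2 * ((a - 2) / 3) + (7 - 1) * ((f - 1) / 6) = f + a := by omega
  have h4 : 1 + (7 - 1) * ((f - 1) / 6) = f := by omega
  rw [h3, h4] at h1
  exact h1

def t13 : TLine 7 where
  r := 4
  c := ![0, 1, 2, 3]
  m := ![2, 5, 0, 0]
  D := ![0, 0, 0, 6]
  DI := 0
  j0 := 2
  v := some 3
  Nb := fun d => [0, 0, 0, 0, 1, 1].getD d 0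
  sb := fun d => [0, 0, 0, 0, 1, 1].getD d 0

theorem t13_ok : t13.Ok 7 7 0 := by decide +kernel

theorem c13 (f a : ℕ) (h : 7 ≤ f ∧ (f - 7) % 6 = 0 ∧ 0 ≤ a ∧ (a - 0) % 3 = 0 ∧
      (6 + 6 * ((a - 0) / 3)) % 7 ≠ 0 ∧ 0 ≤ 6 * ((a - 0) / 3 + (f - 7) / 6)) :
    HasCurve 7 (f + a) f := by
  have h1 := t13.hasCurve 7 7 0 t13_ok ((a - 0) / 3) ((f - 7) / 6)
    (by
      have h2 : t13.Dv = 6 := rfl
      rw [h2]
      omega) (by omega) (Or.inl (show 4 < 7 by norm_num))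
  have h3 : 7 + (7 - 1) / 2 * ((a - 0) / 3) + (7 - 1) * ((f - 7) / 6) = f + a := by omega
  have h4 : 7 + (7 - 1) * ((f - 7) / 6) = f := by omega
  rw [h3, h4] at h1
  exact h1

def t14 : TLine 7 where
  r := 4
  c := ![0, 1, 2, 3]
  m := ![1, 3, 4, 0]
  D := ![0, 3, 4, 0]
  DI := 0
  j0 := 3
  v := some 1
  Nb := fun d => [0, 1, 1, 0, 0, 1].getD d 0
  sb := fun d => [0, 1, 1, 0, 0, 1].getD d 0

theorem t14_ok : t14.Ok 8 7 0 := by decide +kernel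

theorem c14 (f a : ℕ) (h : 7 ≤ f ∧ (f - 7) % 6 = 0 ∧ 1 ≤ a ∧ (a - 1) % 3 = 0 ∧
      (3 + 6 * ((a - 1) / 3)) % 7 ≠ 0 ∧ 0 ≤ 6 * ((a - 1) / 3 + (f - 7) / 6)) :
    HasCurve 7 (f + a) f := by
  have h1 := t14.hasCurve 8 7 0 t14_ok ((a - 1) / 3) ((f - 7) / 6)
    (by
      have h2 : t14.Dv = 3 := rfl
      rw [h2]
      omega) (by omega) (Or.inl (show 4 < 7 by norm_num))
  have h3 : 8 + (7 - 1) / 2 * ((a - 1) / 3) + (7 - 1) * ((f - 7) / 6) = f + a := by omega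
  have h4 : 7 + (7 - 1) * ((f - 7) / 6) = f := by omega
  rw [h3, h4] at h1
  exact h1

def t15 : TLine 7 where
  r := 3
  c := ![0, 1, 2]
  m := ![1, 2, 0]
  D := ![0, 2, 0]
  DI := 0
  j0 := 2
  v := some 1
  Nb := fun d => [0, 1, 0, 0, 0, 0].getD d 0
  sb := fun d => [0, 1, 0, 0, 0, 0].getD d 0

theorem t15_ok : t15.Ok 2 2 6 := by decide +kernel

theorem c15 (f a : ℕ) (h : 2 ≤ f ∧ (f - 2) % 6 = 0 ∧ 0 ≤ a ∧ (a - 0) % 3 = 0 ∧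
      (2 + 6 * ((a - 0) / 3)) % 7 ≠ 0 ∧ 6 ≤ 6 * ((a - 0) / 3 + (f - 2) / 6)) :
    HasCurve 7 (f + a) f := by
  have h1 := t15.hasCurve 2 2 6 t15_ok ((a - 0) / 3) ((f - 2) / 6)
    (by
      have h2 : t15.Dv = 2 := rfl
      rw [h2]
      omega) (by omega) (Or.inl (show 3 < 7 by norm_num))
  have h3 : 2 + (7 - 1) / 2 * ((a - 0) / 3) + (7 - 1) * ((f - 2) / 6) = f + a := by omega
  have h4 : 2 + (7 - 1) * ((f - 2) / 6) = f := by omega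
  rw [h3, h4] at h1
  exact h1

def t16 : TLine 7 where
  r := 4
  c := ![0, 1, 2, 3]
  m := ![1, 3, 5, 0]
  D := ![0, 3, 0, 0]
  DI := 0
  j0 := 3
  v := some 1
  Nb := fun d => [0, 1, 0, 1, 0, 1].getD d 0
  sb := fun d => [0, 0, 0, 0, 0, 0].getD d 0

theorem t16_ok : t16.Ok 5 2 6 := by decide +kernel

theorem c16 (f a : ℕ) (h : 2 ≤ f ∧ (f - 2) % 6 = 0 ∧ 3 ≤ a ∧ (a - 3) % 3 = 0 ∧
      (3 + 6 * ((a - 3) / 3)) % 7 ≠ 0 ∧ 6 ≤ 6 * ((a - 3) / 3 + (f - 2) / 6)) :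
    HasCurve 7 (f + a) f := by
  have h1 := t16.hasCurve 5 2 6 t16_ok ((a - 3) / 3) ((f - 2) / 6)
    (by
      have h2 : t16.Dv = 3 := rfl
      rw [h2]
      omega) (by omega) (Or.inl (show 4 < 7 by norm_num))
  have h3 : 5 + (7 - 1) / 2 * ((a - 3) / 3) + (7 - 1) * ((f - 2) / 6) = f + a := by omega
  have h4 : 2 + (7 - 1) * ((f - 2) / 6) = f := by omega
  rw [h3, h4] at h1
  exact h1

def t17 : TLine 7 where
  r := 2
  c := ![0, 1]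
  m := ![2, 0]
  D := ![2, 0]
  DI := 4
  j0 := 1
  v := some 0
  Nb := fun d => [0, 0, 0, 0, 0, 0].getD d 0
  sb := fun d => [0, 0, 0, 0, 0, 0].getD d 0

theorem t17_ok : t17.Ok 3 2 0 := by decide +kernel

theorem c17 (f a : ℕ) (h : 2 ≤ f ∧ (f - 2) % 6 = 0 ∧ 1 ≤ a ∧ (a - 1) % 3 = 0 ∧
      (2 + 6 * ((a - 1) / 3)) % 7 ≠ 0 ∧ 0 ≤ 6 * ((a - 1) / 3 + (f - 2) / 6)) :
    HasCurve 7 (f + a) f := by
  have h1 := t17.hasCurve 3 2 0 t17_ok ((a - 1) / 3) ((f - 2) / 6)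
    (by
      have h2 : t17.Dv = 2 := rfl
      rw [h2]
      omega) (by omega) (Or.inl (show 2 < 7 by norm_num))
  have h3 : 3 + (7 - 1) / 2 * ((a - 1) / 3) + (7 - 1) * ((f - 2) / 6) = f + a := by omega
  have h4 : 2 + (7 - 1) * ((f - 2) / 6) = f := by omega
  rw [h3, h4] at h1
  exact h1

def t18 : TLine 7 where
  r := 2
  c := ![0, 1]
  m := ![2, 0]
  D := ![2, 0]
  DI := 4
  j0 := 1
  v := none
  Nb := fun d => [0, 0, 0, 0, 0, 0].getD d 0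
  sb := fun d => [0, 0, 0, 0, 0, 0].getD d 0

theorem t18_ok : t18.Ok 3 2 0 := by decide +kernel

theorem c18 (f a : ℕ) (h : 2 ≤ f ∧ (f - 2) % 6 = 0 ∧ 1 ≤ a ∧ (a - 1) % 3 = 0 ∧
      (4 + 6 * ((a - 1) / 3)) % 7 ≠ 0 ∧ 0 ≤ 6 * ((a - 1) / 3 + (f - 2) / 6)) :
    HasCurve 7 (f + a) f := by
  have h1 := t18.hasCurve 3 2 0 t18_ok ((a - 1) / 3) ((f - 2) / 6)
    (by
      have h2 : t18.Dv = 4 := rfl
      rw [h2]
      omega) (by omega) (Or.inl (show 2 < 7 by norm_num))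
  have h3 : 3 + (7 - 1) / 2 * ((a - 1) / 3) + (7 - 1) * ((f - 2) / 6) = f + a := by omega
  have h4 : 2 + (7 - 1) * ((f - 2) / 6) = f := by omega
  rw [h3, h4] at h1
  exact h1

def t19 : TLine 7 where
  r := 4
  c := ![0, 1, 2, 3]
  m := ![2, 3, 2, 0]
  D := ![2, 0, 0, 0]
  DI := 0
  j0 := 3
  v := some 0
  Nb := fun d => [0, 1, 0, 0, 1, 1].getD d 0
  sb := fun d => [0, 0, 0, 0, 1, 0].getD d 0

theorem t19_ok : t19.Ok 4 2 6 := by decide +kernel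

theorem c19 (f a : ℕ) (h : 2 ≤ f ∧ (f - 2) % 6 = 0 ∧ 2 ≤ a ∧ (a - 2) % 3 = 0 ∧
      (2 + 6 * ((a - 2) / 3)) % 7 ≠ 0 ∧ 6 ≤ 6 * ((a - 2) / 3 + (f - 2) / 6)) :
    HasCurve 7 (f + a) f := by
  have h1 := t19.hasCurve 4 2 6 t19_ok ((a - 2) / 3) ((f - 2) / 6)
    (by
      have h2 : t19.Dv = 2 := rfl
      rw [h2]
      omega) (by omega) (Or.inl (show 4 < 7 by norm_num))
  have h3 : 4 + (7 - 1) / 2 * ((a - 2) / 3) + (7 - 1) * ((f - 2) / 6) = f + a := by omega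
  have h4 : 2 + (7 - 1) * ((f - 2) / 6) = f := by omega
  rw [h3, h4] at h1
  exact h1

def t20 : TLine 7 where
  r := 3
  c := ![0, 1, 2]
  m := ![2, 5, 0]
  D := ![0, 5, 0]
  DI := 0
  j0 := 2
  v := some 1
  Nb := fun d => [0, 0, 0, 0, 1, 1].getD d 0
  sb := fun d => [0, 0, 0, 0, 1, 1].getD d 0

theorem t20_ok : t20.Ok 4 2 0 := by decide +kernel

theorem c20 (f a : ℕ) (h : 2 ≤ f ∧ (f - 2) % 6 = 0 ∧ 2 ≤ a ∧ (a - 2) % 3 = 0 ∧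
      (5 + 6 * ((a - 2) / 3)) % 7 ≠ 0 ∧ 0 ≤ 6 * ((a - 2) / 3 + (f - 2) / 6)) :
    HasCurve 7 (f + a) f := by
  have h1 := t20.hasCurve 4 2 0 t20_ok ((a - 2) / 3) ((f - 2) / 6)
    (by
      have h2 : t20.Dv = 5 := rfl
      rw [h2]
      omega) (by omega) (Or.inl (show 3 < 7 by norm_num))
  have h3 : 4 + (7 - 1) / 2 * ((a - 2) / 3) + (7 - 1) * ((f - 2) / 6) = f + a := by omega
  have h4 : 2 + (7 - 1) * ((f - 2) / 6) = f := by omega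
  rw [h3, h4] at h1
  exact h1

def t21 : TLine 7 where
  r := 4
  c := ![0, 1, 2, 3]
  m := ![1, 3, 4, 0]
  D := ![1, 0, 0, 0]
  DI := 0
  j0 := 3
  v := some 0
  Nb := fun d => [0, 1, 1, 0, 0, 1].getD d 0
  sb := fun d => [0, 1, 1, 0, 0, 1].getD d 0

theorem t21_ok : t21.Ok 3 3 6 := by decide +kernel

theorem c21 (f a : ℕ) (h : 3 ≤ f ∧ (f - 3) % 6 = 0 ∧ 0 ≤ a ∧ (a - 0) % 3 = 0 ∧
      (1 + 6 * ((a - 0) / 3)) % 7 ≠ 0 ∧ 6 ≤ 6 * ((a - 0) / 3 + (f - 3) / 6)) :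
    HasCurve 7 (f + a) f := by
  have h1 := t21.hasCurve 3 3 6 t21_ok ((a - 0) / 3) ((f - 3) / 6)
    (by
      have h2 : t21.Dv = 1 := rfl
      rw [h2]
      omega) (by omega) (Or.inl (show 4 < 7 by norm_num))
  have h3 : 3 + (7 - 1) / 2 * ((a - 0) / 3) + (7 - 1) * ((f - 3) / 6) = f + a := by omega
  have h4 : 3 + (7 - 1) * ((f - 3) / 6) = f := by omega
  rw [h3, h4] at h1
  exact h1

def t22 : TLine 7 where
  r := 4
  c := ![0, 1, 2, 3]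
  m := ![1, 3, 5, 0]
  D := ![1, 3, 0, 0]
  DI := 0
  j0 := 3
  v := some 1
  Nb := fun d => [0, 1, 0, 1, 0, 1].getD d 0
  sb := fun d => [0, 0, 0, 0, 0, 0].getD d 0

theorem t22_ok : t22.Ok 6 3 0 := by decide +kernel

theorem c22 (f a : ℕ) (h : 3 ≤ f ∧ (f - 3) % 6 = 0 ∧ 3 ≤ a ∧ (a - 3) % 3 = 0 ∧
      (3 + 6 * ((a - 3) / 3)) % 7 ≠ 0 ∧ 0 ≤ 6 * ((a - 3) / 3 + (f - 3) / 6)) :
    HasCurve 7 (f + a) f := by
  have h1 := t22.hasCurve 6 3 0 t22_ok ((a - 3) / 3) ((f - 3) / 6)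
    (by
      have h2 : t22.Dv = 3 := rfl
      rw [h2]
      omega) (by omega) (Or.inl (show 4 < 7 by norm_num))
  have h3 : 6 + (7 - 1) / 2 * ((a - 3) / 3) + (7 - 1) * ((f - 3) / 6) = f + a := by omega
  have h4 : 3 + (7 - 1) * ((f - 3) / 6) = f := by omega
  rw [h3, h4] at h1
  exact h1

def t23 : TLine 7 where
  r := 4
  c := ![0, 1, 2, 3]
  m := ![2, 3, 2, 0]
  D := ![2, 0, 0, 0]
  DI := 5
  j0 := 3
  v := none
  Nb := fun d => [0, 1, 0, 0, 1, 1].getD d 0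
  sb := fun d => [0, 0, 0, 0, 1, 0].getD d 0

theorem t23_ok : t23.Ok 7 3 0 := by decide +kernel

theorem c23 (f a : ℕ) (h : 3 ≤ f ∧ (f - 3) % 6 = 0 ∧ 4 ≤ a ∧ (a - 4) % 3 = 0 ∧
      (5 + 6 * ((a - 4) / 3)) % 7 ≠ 0 ∧ 0 ≤ 6 * ((a - 4) / 3 + (f - 3) / 6)) :
    HasCurve 7 (f + a) f := by
  have h1 := t23.hasCurve 7 3 0 t23_ok ((a - 4) / 3) ((f - 3) / 6)
    (by
      have h2 : t23.Dv = 5 := rfl
      rw [h2]
      omega) (by omega) (Or.inl (show 4 < 7 by norm_num))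
  have h3 : 7 + (7 - 1) / 2 * ((a - 4) / 3) + (7 - 1) * ((f - 3) / 6) = f + a := by omega
  have h4 : 3 + (7 - 1) * ((f - 3) / 6) = f := by omega
  rw [h3, h4] at h1
  exact h1

def t24 : TLine 7 where
  r := 4
  c := ![0, 1, 2, 3]
  m := ![2, 3, 2, 0]
  D := ![2, 0, 0, 0]
  DI := 5
  j0 := 3
  v := some 0
  Nb := fun d => [0, 1, 0, 0, 1, 1].getD d 0
  sb := fun d => [0, 0, 0, 0, 1, 0].getD d 0

theorem t24_ok : t24.Ok 7 3 0 := by decide +kernel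

theorem c24 (f a : ℕ) (h : 3 ≤ f ∧ (f - 3) % 6 = 0 ∧ 4 ≤ a ∧ (a - 4) % 3 = 0 ∧
      (2 + 6 * ((a - 4) / 3)) % 7 ≠ 0 ∧ 0 ≤ 6 * ((a - 4) / 3 + (f - 3) / 6)) :
    HasCurve 7 (f + a) f := by
  have h1 := t24.hasCurve 7 3 0 t24_ok ((a - 4) / 3) ((f - 3) / 6)
    (by
      have h2 : t24.Dv = 2 := rfl
      rw [h2]
      omega) (by omega) (Or.inl (show 4 < 7 by norm_num))
  have h3 : 7 + (7 - 1) / 2 * ((a - 4) / 3) + (7 - 1) * ((f - 3) / 6) = f + a := by omega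
  have h4 : 3 + (7 - 1) * ((f - 3) / 6) = f := by omega
  rw [h3, h4] at h1
  exact h1

def t25 : TLine 7 where
  r := 4
  c := ![0, 1, 2, 3]
  m := ![2, 3, 2, 0]
  D := ![0, 3, 0, 0]
  DI := 0
  j0 := 3
  v := some 1
  Nb := fun d => [0, 1, 0, 0, 1, 1].getD d 0
  sb := fun d => [0, 0, 0, 0, 1, 0].getD d 0

theorem t25_ok : t25.Ok 5 3 6 := by decide +kernel

theorem c25 (f a : ℕ) (h : 3 ≤ f ∧ (f - 3) % 6 = 0 ∧ 2 ≤ a ∧ (a - 2) % 3 = 0 ∧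
      (3 + 6 * ((a - 2) / 3)) % 7 ≠ 0 ∧ 6 ≤ 6 * ((a - 2) / 3 + (f - 3) / 6)) :
    HasCurve 7 (f + a) f := by
  have h1 := t25.hasCurve 5 3 6 t25_ok ((a - 2) / 3) ((f - 3) / 6)
    (by
      have h2 : t25.Dv = 3 := rfl
      rw [h2]
      omega) (by omega) (Or.inl (show 4 < 7 by norm_num))
  have h3 : 5 + (7 - 1) / 2 * ((a - 2) / 3) + (7 - 1) * ((f - 3) / 6) = f + a := by omega
  have h4 : 3 + (7 - 1) * ((f - 3) / 6) = f := by omega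
  rw [h3, h4] at h1
  exact h1

def t26 : TLine 7 where
  r := 4
  c := ![0, 1, 2, 3]
  m := ![1, 3, 5, 0]
  D := ![0, 3, 5, 0]
  DI := 0
  j0 := 3
  v := some 1
  Nb := fun d => [0, 1, 0, 1, 0, 1].getD d 0
  sb := fun d => [0, 0, 0, 0, 0, 0].getD d 0

theorem t26_ok : t26.Ok 8 3 0 := by decide +kernel

theorem c26 (f a : ℕ) (h : 3 ≤ f ∧ (f - 3) % 6 = 0 ∧ 5 ≤ a ∧ (a - 5) % 3 = 0 ∧
      (3 + 6 * ((a - 5) / 3)) % 7 ≠ 0 ∧ 0 ≤ 6 * ((a - 5) / 3 + (f - 3) / 6)) :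
    HasCurve 7 (f + a) f := by
  have h1 := t26.hasCurve 8 3 0 t26_ok ((a - 5) / 3) ((f - 3) / 6)
    (by
      have h2 : t26.Dv = 3 := rfl
      rw [h2]
      omega) (by omega) (Or.inl (show 4 < 7 by norm_num))
  have h3 : 8 + (7 - 1) / 2 * ((a - 5) / 3) + (7 - 1) * ((f - 3) / 6) = f + a := by omega
  have h4 : 3 + (7 - 1) * ((f - 3) / 6) = f := by omega
  rw [h3, h4] at h1
  exact h1

def t27 : TLine 7 where
  r := 4
  c := ![0, 1, 2, 3]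
  m := ![1, 1, 0, 0]
  D := ![0, 0, 0, 6]
  DI := 4
  j0 := 2
  v := some 3
  Nb := fun d => [0, 1, 1, 0, 0, 0].getD d 0
  sb := fun d => [0, 1, 1, 0, 0, 0].getD d 0

theorem t27_ok : t27.Ok 10 9 0 := by decide +kernel

theorem c27 (f a : ℕ) (h : 9 ≤ f ∧ (f - 9) % 6 = 0 ∧ 1 ≤ a ∧ (a - 1) % 3 = 0 ∧
      (6 + 6 * ((a - 1) / 3)) % 7 ≠ 0 ∧ 0 ≤ 6 * ((a - 1) / 3 + (f - 9) / 6)) :
    HasCurve 7 (f + a) f := by
  have h1 := t27.hasCurve 10 9 0 t27_ok ((a - 1) / 3) ((f - 9) / 6)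
    (by
      have h2 : t27.Dv = 6 := rfl
      rw [h2]
      omega) (by omega) (Or.inl (show 4 < 7 by norm_num))
  have h3 : 10 + (7 - 1) / 2 * ((a - 1) / 3) + (7 - 1) * ((f - 9) / 6) = f + a := by omega
  have h4 : 9 + (7 - 1) * ((f - 9) / 6) = f := by omega
  rw [h3, h4] at h1
  exact h1

def t28 : TLine 7 where
  r := 3
  c := ![0, 1, 2]
  m := ![2, 0, 0]
  D := ![0, 0, 6]
  DI := 0
  j0 := 1
  v := some 2
  Nb := fun d => [0, 0, 0, 0, 0, 0].getD d 0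
  sb := fun d => [0, 0, 0, 0, 0, 0].getD d 0

theorem t28_ok : t28.Ok 4 4 0 := by decide +kernel

theorem c28 (f a : ℕ) (h : 4 ≤ f ∧ (f - 4) % 6 = 0 ∧ 0 ≤ a ∧ (a - 0) % 3 = 0 ∧
      (6 + 6 * ((a - 0) / 3)) % 7 ≠ 0 ∧ 0 ≤ 6 * ((a - 0) / 3 + (f - 4) / 6)) :
    HasCurve 7 (f + a) f := by
  have h1 := t28.hasCurve 4 4 0 t28_ok ((a - 0) / 3) ((f - 4) / 6)
    (by
      have h2 : t28.Dv = 6 := rfl
      rw [h2]
      omega) (by omega) (Or.inl (show 3 < 7 by norm_num))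
  have h3 : 4 + (7 - 1) / 2 * ((a - 0) / 3) + (7 - 1) * ((f - 4) / 6) = f + a := by omega
  have h4 : 4 + (7 - 1) * ((f - 4) / 6) = f := by omega
  rw [h3, h4] at h1
  exact h1

def t29 : TLine 7 where
  r := 3
  c := ![0, 1, 2]
  m := ![1, 2, 0]
  D := ![1, 0, 0]
  DI := 3
  j0 := 2
  v := none
  Nb := fun d => [0, 1, 0, 0, 0, 0].getD d 0
  sb := fun d => [0, 1, 0, 0, 0, 0].getD d 0

theorem t29_ok : t29.Ok 4 4 0 := by decide +kernel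

theorem c29 (f a : ℕ) (h : 4 ≤ f ∧ (f - 4) % 6 = 0 ∧ 0 ≤ a ∧ (a - 0) % 3 = 0 ∧
      (3 + 6 * ((a - 0) / 3)) % 7 ≠ 0 ∧ 0 ≤ 6 * ((a - 0) / 3 + (f - 4) / 6)) :
    HasCurve 7 (f + a) f := by
  have h1 := t29.hasCurve 4 4 0 t29_ok ((a - 0) / 3) ((f - 4) / 6)
    (by
      have h2 : t29.Dv = 3 := rfl
      rw [h2]
      omega) (by omega) (Or.inl (show 3 < 7 by norm_num))
  have h3 : 4 + (7 - 1) / 2 * ((a - 0) / 3) + (7 - 1) * ((f - 4) / 6) = f + a := by omega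
  have h4 : 4 + (7 - 1) * ((f - 4) / 6) = f := by omega
  rw [h3, h4] at h1
  exact h1

def t30 : TLine 7 where
  r := 3
  c := ![0, 1, 2]
  m := ![1, 1, 0]
  D := ![1, 0, 0]
  DI := 4
  j0 := 2
  v := none
  Nb := fun d => [0, 1, 1, 0, 0, 0].getD d 0
  sb := fun d => [0, 1, 1, 0, 0, 0].getD d 0

theorem t30_ok : t30.Ok 5 4 0 := by decide +kernel

theorem c30 (f a : ℕ) (h : 4 ≤ f ∧ (f - 4) % 6 = 0 ∧ 1 ≤ a ∧ (a - 1) % 3 = 0 ∧
      (4 + 6 * ((a - 1) / 3)) % 7 ≠ 0 ∧ 0 ≤ 6 * ((a - 1) / 3 + (f - 4) / 6)) :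
    HasCurve 7 (f + a) f := by
  have h1 := t30.hasCurve 5 4 0 t30_ok ((a - 1) / 3) ((f - 4) / 6)
    (by
      have h2 : t30.Dv = 4 := rfl
      rw [h2]
      omega) (by omega) (Or.inl (show 3 < 7 by norm_num))
  have h3 : 5 + (7 - 1) / 2 * ((a - 1) / 3) + (7 - 1) * ((f - 4) / 6) = f + a := by omega
  have h4 : 4 + (7 - 1) * ((f - 4) / 6) = f := by omega
  rw [h3, h4] at h1
  exact h1

def t31 : TLine 7 where
  r := 3
  c := ![0, 1, 2]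
  m := ![1, 1, 0]
  D := ![1, 0, 0]
  DI := 4
  j0 := 2
  v := some 0
  Nb := fun d => [0, 1, 1, 0, 0, 0].getD d 0
  sb := fun d => [0, 1, 1, 0, 0, 0].getD d 0

theorem t31_ok : t31.Ok 5 4 0 := by decide +kernel

theorem c31 (f a : ℕ) (h : 4 ≤ f ∧ (f - 4) % 6 = 0 ∧ 1 ≤ a ∧ (a - 1) % 3 = 0 ∧
      (1 + 6 * ((a - 1) / 3)) % 7 ≠ 0 ∧ 0 ≤ 6 * ((a - 1) / 3 + (f - 4) / 6)) :
    HasCurve 7 (f + a) f := by
  have h1 := t31.hasCurve 5 4 0 t31_ok ((a - 1) / 3) ((f - 4) / 6)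
    (by
      have h2 : t31.Dv = 1 := rfl
      rw [h2]
      omega) (by omega) (Or.inl (show 3 < 7 by norm_num))
  have h3 : 5 + (7 - 1) / 2 * ((a - 1) / 3) + (7 - 1) * ((f - 4) / 6) = f + a := by omega
  have h4 : 4 + (7 - 1) * ((f - 4) / 6) = f := by omega
  rw [h3, h4] at h1
  exact h1

def t32 : TLine 7 where
  r := 4
  c := ![0, 1, 2, 3]
  m := ![2, 3, 2, 0]
  D := ![2, 0, 2, 0]
  DI := 0
  j0 := 3
  v := some 0
  Nb := fun d => [0, 1, 0, 0, 1, 1].getD d 0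
  sb := fun d => [0, 0, 0, 0, 1, 0].getD d 0

theorem t32_ok : t32.Ok 6 4 0 := by decide +kernel

theorem c32 (f a : ℕ) (h : 4 ≤ f ∧ (f - 4) % 6 = 0 ∧ 2 ≤ a ∧ (a - 2) % 3 = 0 ∧
      (2 + 6 * ((a - 2) / 3)) % 7 ≠ 0 ∧ 0 ≤ 6 * ((a - 2) / 3 + (f - 4) / 6)) :
    HasCurve 7 (f + a) f := by
  have h1 := t32.hasCurve 6 4 0 t32_ok ((a - 2) / 3) ((f - 4) / 6)
    (by
      have h2 : t32.Dv = 2 := rfl
      rw [h2]
      omega) (by omega) (Or.inl (show 4 < 7 by norm_num))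
  have h3 : 6 + (7 - 1) / 2 * ((a - 2) / 3) + (7 - 1) * ((f - 4) / 6) = f + a := by omega
  have h4 : 4 + (7 - 1) * ((f - 4) / 6) = f := by omega
  rw [h3, h4] at h1
  exact h1

def t33 : TLine 7 where
  r := 4
  c := ![0, 1, 2, 3]
  m := ![1, 3, 5, 0]
  D := ![1, 3, 5, 0]
  DI := 0
  j0 := 3
  v := some 2
  Nb := fun d => [0, 1, 0, 1, 0, 1].getD d 0
  sb := fun d => [0, 0, 0, 0, 0, 0].getD d 0

theorem t33_ok : t33.Ok 9 4 0 := by decide +kernel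

theorem c33 (f a : ℕ) (h : 4 ≤ f ∧ (f - 4) % 6 = 0 ∧ 5 ≤ a ∧ (a - 5) % 3 = 0 ∧
      (5 + 6 * ((a - 5) / 3)) % 7 ≠ 0 ∧ 0 ≤ 6 * ((a - 5) / 3 + (f - 4) / 6)) :
    HasCurve 7 (f + a) f := by
  have h1 := t33.hasCurve 9 4 0 t33_ok ((a - 5) / 3) ((f - 4) / 6)
    (by
      have h2 : t33.Dv = 5 := rfl
      rw [h2]
      omega) (by omega) (Or.inl (show 4 < 7 by norm_num))
  have h3 : 9 + (7 - 1) / 2 * ((a - 5) / 3) + (7 - 1) * ((f - 4) / 6) = f + a := by omega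
  have h4 : 4 + (7 - 1) * ((f - 4) / 6) = f := by omega
  rw [h3, h4] at h1
  exact h1

def t34 : TLine 7 where
  r := 4
  c := ![0, 1, 2, 3]
  m := ![1, 3, 4, 0]
  D := ![0, 3, 0, 0]
  DI := 0
  j0 := 3
  v := some 1
  Nb := fun d => [0, 1, 1, 0, 0, 1].getD d 0
  sb := fun d => [0, 1, 1, 0, 0, 1].getD d 0

theorem t34_ok : t34.Ok 5 5 6 := by decide +kernel

theorem c34 (f a : ℕ) (h : 5 ≤ f ∧ (f - 5) % 6 = 0 ∧ 0 ≤ a ∧ (a - 0) % 3 = 0 ∧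
      (3 + 6 * ((a - 0) / 3)) % 7 ≠ 0 ∧ 6 ≤ 6 * ((a - 0) / 3 + (f - 5) / 6)) :
    HasCurve 7 (f + a) f := by
  have h1 := t34.hasCurve 5 5 6 t34_ok ((a - 0) / 3) ((f - 5) / 6)
    (by
      have h2 : t34.Dv = 3 := rfl
      rw [h2]
      omega) (by omega) (Or.inl (show 4 < 7 by norm_num))
  have h3 : 5 + (7 - 1) / 2 * ((a - 0) / 3) + (7 - 1) * ((f - 5) / 6) = f + a := by omega
  have h4 : 5 + (7 - 1) * ((f - 5) / 6) = f := by omega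
  rw [h3, h4] at h1
  exact h1

def t35 : TLine 7 where
  r := 4
  c := ![0, 1, 2, 3]
  m := ![1, 3, 5, 0]
  D := ![0, 3, 0, 0]
  DI := 3
  j0 := 3
  v := some 1
  Nb := fun d => [0, 1, 0, 1, 0, 1].getD d 0
  sb := fun d => [0, 0, 0, 0, 0, 0].getD d 0

theorem t35_ok : t35.Ok 8 5 0 := by decide +kernel

theorem c35 (f a : ℕ) (h : 5 ≤ f ∧ (f - 5) % 6 = 0 ∧ 3 ≤ a ∧ (a - 3) % 3 = 0 ∧
      (3 + 6 * ((a - 3) / 3)) % 7 ≠ 0 ∧ 0 ≤ 6 * ((a - 3) / 3 + (f - 5) / 6)) :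
    HasCurve 7 (f + a) f := by
  have h1 := t35.hasCurve 8 5 0 t35_ok ((a - 3) / 3) ((f - 5) / 6)
    (by
      have h2 : t35.Dv = 3 := rfl
      rw [h2]
      omega) (by omega) (Or.inl (show 4 < 7 by norm_num))
  have h3 : 8 + (7 - 1) / 2 * ((a - 3) / 3) + (7 - 1) * ((f - 5) / 6) = f + a := by omega
  have h4 : 5 + (7 - 1) * ((f - 5) / 6) = f := by omega
  rw [h3, h4] at h1
  exact h1

def t36 : TLine 7 where
  r := 4
  c := ![0, 1, 2, 3]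
  m := ![1, 3, 4, 0]
  D := ![1, 0, 4, 0]
  DI := 0
  j0 := 3
  v := some 2
  Nb := fun d => [0, 1, 1, 0, 0, 1].getD d 0
  sb := fun d => [0, 1, 1, 0, 0, 1].getD d 0

theorem t36_ok : t36.Ok 6 5 0 := by decide +kernel

theorem c36 (f a : ℕ) (h : 5 ≤ f ∧ (f - 5) % 6 = 0 ∧ 1 ≤ a ∧ (a - 1) % 3 = 0 ∧
      (4 + 6 * ((a - 1) / 3)) % 7 ≠ 0 ∧ 0 ≤ 6 * ((a - 1) / 3 + (f - 5) / 6)) :
    HasCurve 7 (f + a) f := by
  have h1 := t36.hasCurve 6 5 0 t36_ok ((a - 1) / 3) ((f - 5) / 6)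
    (by
      have h2 : t36.Dv = 4 := rfl
      rw [h2]
      omega) (by omega) (Or.inl (show 4 < 7 by norm_num))
  have h3 : 6 + (7 - 1) / 2 * ((a - 1) / 3) + (7 - 1) * ((f - 5) / 6) = f + a := by omega
  have h4 : 5 + (7 - 1) * ((f - 5) / 6) = f := by omega
  rw [h3, h4] at h1
  exact h1

def t37 : TLine 7 where
  r := 4
  c := ![0, 1, 2, 3]
  m := ![2, 3, 2, 0]
  D := ![2, 0, 2, 0]
  DI := 5
  j0 := 3
  v := none
  Nb := fun d => [0, 1, 0, 0, 1, 1].getD d 0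
  sb := fun d => [0, 0, 0, 0, 1, 0].getD d 0

theorem t37_ok : t37.Ok 9 5 0 := by decide +kernel

theorem c37 (f a : ℕ) (h : 5 ≤ f ∧ (f - 5) % 6 = 0 ∧ 4 ≤ a ∧ (a - 4) % 3 = 0 ∧
      (5 + 6 * ((a - 4) / 3)) % 7 ≠ 0 ∧ 0 ≤ 6 * ((a - 4) / 3 + (f - 5) / 6)) :
    HasCurve 7 (f + a) f := by
  have h1 := t37.hasCurve 9 5 0 t37_ok ((a - 4) / 3) ((f - 5) / 6)
    (by
      have h2 : t37.Dv = 5 := rfl
      rw [h2]
      omega) (by omega) (Or.inl (show 4 < 7 by norm_num))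
  have h3 : 9 + (7 - 1) / 2 * ((a - 4) / 3) + (7 - 1) * ((f - 5) / 6) = f + a := by omega
  have h4 : 5 + (7 - 1) * ((f - 5) / 6) = f := by omega
  rw [h3, h4] at h1
  exact h1

def t38 : TLine 7 where
  r := 4
  c := ![0, 1, 2, 3]
  m := ![2, 3, 2, 0]
  D := ![2, 3, 0, 0]
  DI := 0
  j0 := 3
  v := some 1
  Nb := fun d => [0, 1, 0, 0, 1, 1].getD d 0
  sb := fun d => [0, 0, 0, 0, 1, 0].getD d 0

theorem t38_ok : t38.Ok 7 5 0 := by decide +kernel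

theorem c38 (f a : ℕ) (h : 5 ≤ f ∧ (f - 5) % 6 = 0 ∧ 2 ≤ a ∧ (a - 2) % 3 = 0 ∧
      (3 + 6 * ((a - 2) / 3)) % 7 ≠ 0 ∧ 0 ≤ 6 * ((a - 2) / 3 + (f - 5) / 6)) :
    HasCurve 7 (f + a) f := by
  have h1 := t38.hasCurve 7 5 0 t38_ok ((a - 2) / 3) ((f - 5) / 6)
    (by
      have h2 : t38.Dv = 3 := rfl
      rw [h2]
      omega) (by omega) (Or.inl (show 4 < 7 by norm_num))
  have h3 : 7 + (7 - 1) / 2 * ((a - 2) / 3) + (7 - 1) * ((f - 5) / 6) = f + a := by omega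
  have h4 : 5 + (7 - 1) * ((f - 5) / 6) = f := by omega
  rw [h3, h4] at h1
  exact h1

def t39 : TLine 7 where
  r := 4
  c := ![0, 1, 2, 3]
  m := ![2, 3, 2, 0]
  D := ![2, 3, 0, 0]
  DI := 0
  j0 := 3
  v := some 0
  Nb := fun d => [0, 1, 0, 0, 1, 1].getD d 0
  sb := fun d => [0, 0, 0, 0, 1, 0].getD d 0

theorem t39_ok : t39.Ok 7 5 0 := by decide +kernel

theorem c39 (f a : ℕ) (h : 5 ≤ f ∧ (f - 5) % 6 = 0 ∧ 2 ≤ a ∧ (a - 2) % 3 = 0 ∧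
      (2 + 6 * ((a - 2) / 3)) % 7 ≠ 0 ∧ 0 ≤ 6 * ((a - 2) / 3 + (f - 5) / 6)) :
    HasCurve 7 (f + a) f := by
  have h1 := t39.hasCurve 7 5 0 t39_ok ((a - 2) / 3) ((f - 5) / 6)
    (by
      have h2 : t39.Dv = 2 := rfl
      rw [h2]
      omega) (by omega) (Or.inl (show 4 < 7 by norm_num))
  have h3 : 7 + (7 - 1) / 2 * ((a - 2) / 3) + (7 - 1) * ((f - 5) / 6) = f + a := by omega
  have h4 : 5 + (7 - 1) * ((f - 5) / 6) = f := by omega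
  rw [h3, h4] at h1
  exact h1

theorem cover (f a : ℕ) (ha : 1 ≤ a) (h0 : ¬ (f = 1 ∧ a = 1)) (h1 : ¬ (f = 1 ∧ a = 3)) (h2 : ¬ (f = 1 ∧ a = 4)) (h3 : ¬ (f = 3 ∧ a = 1)) (h4 : ¬ (f = 3 ∧ a = 2)) : HasCurve 7 (f + a) f := by
  have hf : f % 6 < 6 := Nat.mod_lt _ (by norm_num)
  have ha' : a % 21 < 21 := Nat.mod_lt _ (by norm_num)
  generalize hi : f % 6 = i at hf
  generalize hj : a % 21 = j at ha'
  interval_cases i <;> interval_cases j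
  · exact c1 f a (by omega)
  · exact c3 f a (by omega)
  · exact c5 f a (by omega)
  · exact c2 f a (by omega)
  · exact c3 f a (by omega)
  · exact c5 f a (by omega)
  · exact c1 f a (by omega)
  · exact c3 f a (by omega)
  · exact c5 f a (by omega)
  · exact c1 f a (by omega)
  · exact c3 f a (by omega)
  · exact c5 f a (by omega)
  · exact c1 f a (by omega)
  · exact c4 f a (by omega)
  · exact c5 f a (by omega)
  · exact c1 f a (by omega)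
  · exact c3 f a (by omega)
  · exact c6 f a (by omega)
  · exact c1 f a (by omega)
  · exact c3 f a (by omega)
  · exact c5 f a (by omega)
  · exact c7 f a (by omega)
  · by_cases g1 : 1 ≤ f ∧ (f - 1) % 6 = 0 ∧ 4 ≤ a ∧ (a - 4) % 3 = 0 ∧ (5 + 6 * ((a - 4) / 3)) % 7 ≠ 0 ∧ 6 ≤ 6 * ((a - 4) / 3 + (f - 1) / 6)
    · exact c9 f a g1
    · exact c14 f a (by omega)
  · exact c11 f a (by omega)
  · by_cases g1 : 1 ≤ f ∧ (f - 1) % 6 = 0 ∧ 3 ≤ a ∧ (a - 3) % 3 = 0 ∧ (1 + 6 * ((a - 3) / 3)) % 7 ≠ 0 ∧ 12 ≤ 6 * ((a - 3) / 3 + (f - 1) / 6)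
    · exact c8 f a g1
    · exact c13 f a (by omega)
  · exact c9 f a (by omega)
  · exact c12 f a (by omega)
  · exact c7 f a (by omega)
  · exact c9 f a (by omega)
  · exact c11 f a (by omega)
  · exact c7 f a (by omega)
  · exact c9 f a (by omega)
  · exact c11 f a (by omega)
  · exact c7 f a (by omega)
  · exact c9 f a (by omega)
  · exact c11 f a (by omega)
  · exact c7 f a (by omega)
  · exact c9 f a (by omega)
  · exact c11 f a (by omega)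
  · exact c7 f a (by omega)
  · exact c10 f a (by omega)
  · exact c11 f a (by omega)
  · exact c15 f a (by omega)
  · exact c17 f a (by omega)
  · exact c20 f a (by omega)
  · exact c15 f a (by omega)
  · exact c17 f a (by omega)
  · exact c19 f a (by omega)
  · exact c16 f a (by omega)
  · exact c18 f a (by omega)
  · exact c20 f a (by omega)
  · exact c15 f a (by omega)
  · exact c17 f a (by omega)
  · exact c19 f a (by omega)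
  · exact c15 f a (by omega)
  · exact c17 f a (by omega)
  · exact c19 f a (by omega)
  · exact c15 f a (by omega)
  · exact c17 f a (by omega)
  · exact c19 f a (by omega)
  · exact c15 f a (by omega)
  · exact c17 f a (by omega)
  · exact c19 f a (by omega)
  · exact c21 f a (by omega)
  · by_cases g1 : 3 ≤ f ∧ (f - 3) % 6 = 0 ∧ 4 ≤ a ∧ (a - 4) % 3 = 0 ∧ (5 + 6 * ((a - 4) / 3)) % 7 ≠ 0 ∧ 0 ≤ 6 * ((a - 4) / 3 + (f - 3) / 6)
    · exact c23 f a g1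
    · exact c27 f a (by omega)
  · exact c25 f a (by omega)
  · exact c22 f a (by omega)
  · exact c23 f a (by omega)
  · exact c25 f a (by omega)
  · exact c21 f a (by omega)
  · exact c23 f a (by omega)
  · exact c25 f a (by omega)
  · exact c21 f a (by omega)
  · exact c23 f a (by omega)
  · exact c26 f a (by omega)
  · exact c21 f a (by omega)
  · exact c23 f a (by omega)
  · exact c25 f a (by omega)
  · exact c21 f a (by omega)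
  · exact c23 f a (by omega)
  · exact c25 f a (by omega)
  · exact c21 f a (by omega)
  · exact c24 f a (by omega)
  · exact c25 f a (by omega)
  · exact c28 f a (by omega)
  · exact c30 f a (by omega)
  · exact c32 f a (by omega)
  · exact c28 f a (by omega)
  · exact c30 f a (by omega)
  · exact c32 f a (by omega)
  · exact c28 f a (by omega)
  · exact c30 f a (by omega)
  · exact c33 f a (by omega)
  · exact c28 f a (by omega)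
  · exact c30 f a (by omega)
  · exact c32 f a (by omega)
  · exact c28 f a (by omega)
  · exact c31 f a (by omega)
  · exact c32 f a (by omega)
  · exact c28 f a (by omega)
  · exact c30 f a (by omega)
  · exact c32 f a (by omega)
  · exact c29 f a (by omega)
  · exact c30 f a (by omega)
  · exact c32 f a (by omega)
  · exact c34 f a (by omega)
  · exact c36 f a (by omega)
  · exact c38 f a (by omega)
  · exact c34 f a (by omega)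
  · exact c36 f a (by omega)
  · exact c38 f a (by omega)
  · exact c34 f a (by omega)
  · exact c36 f a (by omega)
  · exact c38 f a (by omega)
  · exact c35 f a (by omega)
  · exact c36 f a (by omega)
  · exact c39 f a (by omega)
  · exact c34 f a (by omega)
  · exact c37 f a (by omega)
  · exact c38 f a (by omega)
  · exact c34 f a (by omega)
  · exact c36 f a (by omega)
  · exact c38 f a (by omega)
  · exact c34 f a (by omega)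
  · exact c36 f a (by omega)
  · exact c38 f a (by omega)

end Tab7

end Pool.Agent.PRB
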