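import Pool.Agent.LibPRB.Main
import Pool.Agent.LibPRB.Box
import Pool.Agent.LibPRB.HypC
import Pool.Agent.LibPRB.Tab3
import Pool.Agent.LibPRB.Tab5
import Pool.Agent.LibPRB.Tab7

/-! # Curves over `F_p` with prescribed genus and `p`-rank: the final statement -/

set_option autoImplicit false

namespace Pool.Agent.PRB

theorem complete3 [Fact (Nat.Prime 3)] (g f : ℕ) (hg : 3 ≤ g) (hf : f < g) : HasCurve 3 g f := by
  obtain ⟨a, rfl⟩ : ∃ a, g = f + a := ⟨g - f, by omega⟩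
  exact Tab3.cover f a (by omega) (by omega)

theorem complete5 [Fact (Nat.Prime 5)] (g f : ℕ) (hg : 3 ≤ g) (hf : f < g) : HasCurve 5 g f := by
  obtain ⟨a, rfl⟩ : ∃ a, g = f + a := ⟨g - f, by omega⟩
  by_cases h1 : f = 1 ∧ a = 2
  · obtain ⟨rfl, rfl⟩ := h1
    exact hyp_5_3_1
  by_cases h2 : f = 2 ∧ a = 1
  · obtain ⟨rfl, rfl⟩ := h2
    exact hyp_5_3_2
  exact Tab5.cover f a (by omega) h1 h2

theorem complete7 [Fact (Nat.Prime 7)] (g f : ℕ) (hg : 3 ≤ g) (hf : f < g) : HasCurve 7 g f := by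
  obtain ⟨a, rfl⟩ : ∃ a, g = f + a := ⟨g - f, by omega⟩
  by_cases h1 : f = 1 ∧ a = 3
  · obtain ⟨rfl, rfl⟩ := h1
    exact hyp_7_4_1
  by_cases h2 : f = 1 ∧ a = 4
  · obtain ⟨rfl, rfl⟩ := h2
    exact hyp_7_5_1
  by_cases h3 : f = 3 ∧ a = 1
  · obtain ⟨rfl, rfl⟩ := h3
    exact hyp_7_4_3
  by_cases h4 : f = 3 ∧ a = 2
  · obtain ⟨rfl, rfl⟩ := h4
    exact hyp_7_5_3
  exact Tab7.cover f a (by omega) (by omega) h1 h2 h3 h4

/-- All `g`, `f` with `3 ≤ g` and `f < g`, except for `p > 7` a finite box (and for `12 ∣ p - 1` the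
strip `g - f < (p - 1) ^ 2 / 4`). -/
theorem finite_box (p : ℕ) [Fact p.Prime] (hp : 3 ≤ p) (g f : ℕ) (hg : 3 ≤ g) (hf : f < g)
    (h : p ≤ 7 ∨ f + p ^ ((p + 9) / 2) ≤ g ∨
      (4 * p ^ 3 ≤ f ∧ (¬ 12 ∣ p - 1 ∨ (p - 1) ^ 2 ≤ 4 * (g - f)))) : HasCurve p g f := by
  have hpr : p.Prime := Fact.out
  by_cases h7 : p ≤ 7
  · have h1 : p = 3 ∨ p = 5 ∨ p = 7 := by
      interval_cases p
      · exact Or.inl rfl
      · exact absurd hpr (by norm_num)
      · exact Or.inr (Or.inl rfl)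
      · exact absurd hpr (by norm_num)
      · exact Or.inr (Or.inr rfl)
    rcases h1 with rfl | rfl | rfl
    · exact complete3 g f hg hf
    · exact complete5 g f hg hf
    · exact complete7 g f hg hf
  · rcases h with h | h | ⟨h1, h2⟩
    · exact absurd h h7
    · exact main p (by omega) g f h
    · have h3 : f + (g - f) = g := by omega
      have h4 := box_main p (by omega) f (g - f) h1 (by omega) h2
      rwa [h3] at h4

end Pool.Agent.PRB
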