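import Pool.Agent.LibPRB.FixE
import Pool.Agent.LibPRB.Lang

/-!
# Fixed points: adding logarithmic poles

PLAN. Let `n = p - 1`, `W' = W * (X - C c) ^ n`.  For `B` with `degree B < N + 1` satisfying
`(B_i)^p = (B W')_(p i + p - 1)`, i.e. (`pow_eq_deriv_pred_iff`) `B ^ p = -derivative^[p-1] (B W')`, evaluation at `c` gives
`(B.eval c)^p = W.eval c * B.eval c` (the `(p-1)`-th derivative of `G (X - C c)^(p-1)` at `c` is
`(p-1)! G.eval c = -G.eval c`).  This is an additive map `ev` from the fixed points to
`{y : k | y^p = W.eval c * y}`, which has `p` elements (`W.eval c ≠ 0`: the polynomial `X^p - C (W.eval c) * X` is separable,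
`k` algebraically closed).  Kernel: `B = (X - C c) B'`, `degree B' < N`, and
`B W' = (X - C c)^p (B' W)`, so `B'` runs through the fixed points for `W`, `N`: `p ^ s` elements.
Surjectivity of `ev`: given `y`, let `B0 = C y * q` with any `B0` of degree `< N + 1` and `B0.eval c = y` (e.g. `C y`),
let `T G` be the polynomial with coefficients the `p`-th roots of `(G W')_(p i + p - 1)` (`T` is additive,
`T (a^p • G) = a • T G`, it preserves degree `< N + 1` by `hW`: `p i + p - 1 ≤ N + (p-1)(N+2)` gives
`p i ≤ p N + p - 1`, `i ≤ N`; and `(T G).eval c ^ p = W.eval c * G.eval c`); `T B0 - B0` vanishes at `c`, so it lies in the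
`T`-stable space `V = {G | degree G < N + 1, G.eval c = 0}`; by `lang_surjective_sub` (Lang.lean) there is `G ∈ V` with
`G - T G = T B0 - B0`, so `B0 + G` is fixed and `(B0 + G).eval c = y`.
Then `card = p * p ^ s` (`AddSubgroup.card_eq_card_quotient_mul_card_addSubgroup`, see the end of
`card_Fil_succ` in LogL.lean for the same computation).
`fixP_mul_prod`: induction on `C`, with `W.natDegree` increasing by `p - 1` and `N` by `1` at each step.
-/

set_option autoImplicit false

namespace Pool.Agent.PRB

variable {p : ℕ} [Fact p.Prime] {k : Type} [Field k] [IsAlgClosed k] [CharP k p]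

open Polynomial in
private theorem FixC_wilson : (((p - 1).factorial : ℕ) : k) = -1 := by
  have h := congrArg (ZMod.castHom (dvd_refl p) k) (ZMod.wilsons_lemma p)
  rw [map_natCast, map_neg, map_one] at h
  exact h

open Polynomial in
private theorem FixC_eval (G : k[X]) (c : k) :
    (derivative^[p - 1] (G * (X - C c) ^ (p - 1))).eval c = -G.eval c := by
  have h := aeval_iterate_derivative_self (A := k) (G * (X - C c) ^ (p - 1)) (p - 1) c (p' := G)
    (by rw [Algebra.algebraMap_self, Polynomial.map_id, mul_comm])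
  rw [coe_aeval_eq_eval, nsmul_eq_mul, FixC_wilson (p := p)] at h
  rw [h]
  ring

open Polynomial in
/-- the value at `c` of the solution of `B ^ p = - D^(p-1) (G W')` -/
private theorem FixC_val (W : k[X]) (c : k) (B G : k[X])
    (h : ∀ i, B.coeff i ^ p = (G * (W * (X - C c) ^ (p - 1))).coeff (p * i + (p - 1))) :
    B.eval c ^ p = W.eval c * G.eval c := by
  have h1 := (pow_eq_deriv_pred_iff B (G * (W * (X - C c) ^ (p - 1)))).mpr h
  have h2 := congrArg (Polynomial.eval c) h1
  rw [← mul_assoc, eval_neg, FixC_eval, eval_pow, eval_mul] at h2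
  rw [h2]
  ring

open Polynomial in
private theorem FixC_deriv_pow (g H : k[X]) (n : ℕ) :
    derivative^[n] (g ^ p * H) = g ^ p * derivative^[n] H := by
  induction n with
  | zero => rfl
  | succ n ih =>
    rw [Function.iterate_succ_apply', Function.iterate_succ_apply', ih, derivative_mul,
      derivative_pow, CharP.cast_eq_zero, C_0, zero_mul, zero_mul, zero_mul, zero_add]

open Polynomial in
private theorem FixC_ker (W : k[X]) (c : k) (B : k[X]) :
    (∀ i, ((X - C c) * B).coeff i ^ p =
      (((X - C c) * B) * (W * (X - C c) ^ (p - 1))).coeff (p * i + (p - 1))) ↔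
    ∀ i, B.coeff i ^ p = (B * W).coeff (p * i + (p - 1)) := by
  have hp : 1 ≤ p := (Fact.out : p.Prime).one_lt.le
  rw [← pow_eq_deriv_pred_iff, ← pow_eq_deriv_pred_iff]
  have e1 : ((X - C c) * B) * (W * (X - C c) ^ (p - 1)) = (X - C c) ^ p * (B * W) := by
    have e2 : (X - C c : k[X]) ^ p = (X - C c) ^ (p - 1) * (X - C c) := by
      rw [← pow_succ, Nat.sub_add_cancel hp]
    rw [e2]
    ring
  rw [e1, FixC_deriv_pow, mul_pow, ← mul_neg]
  constructor
  · intro h
    exact mul_left_cancel₀ (pow_ne_zero p (X_sub_C_ne_zero c)) h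
  · intro h
    rw [h]

open Polynomial in
private theorem FixC_exists (W G : k[X]) :
    ∃ B : k[X], ∀ i, B.coeff i ^ p = (G * W).coeff (p * i + (p - 1)) := by
  have hp : 0 < p := (Fact.out : p.Prime).pos
  have h : ∀ i : ℕ, ∃ z : k, z ^ p = (G * W).coeff (p * i + (p - 1)) := fun i =>
    IsAlgClosed.exists_pow_nat_eq _ hp
  choose z hz using h
  refine ⟨∑ i ∈ Finset.range ((G * W).natDegree + 1), C (z i) * X ^ i, ?_⟩
  intro i
  rw [finset_sum_coeff]
  by_cases hi : i ∈ Finset.range ((G * W).natDegree + 1)
  · rw [Finset.sum_eq_single i]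
    · rw [coeff_C_mul_X_pow, if_pos rfl, hz]
    · intro j _ hj
      rw [coeff_C_mul_X_pow, if_neg hj.symm]
    · intro h
      exact absurd hi h
  · rw [Finset.sum_eq_zero, zero_pow hp.ne']
    · symm
      apply coeff_eq_zero_of_natDegree_lt
      rw [Finset.mem_range] at hi
      have h1 : i ≤ p * i := Nat.le_mul_of_pos_left i hp
      omega
    · intro j hj
      rw [coeff_C_mul_X_pow, if_neg]
      intro h
      rw [h] at hi
      exact hi hj

open Polynomial in
private noncomputable def FixC_T (p : ℕ) [Fact p.Prime] {k : Type} [Field k] [IsAlgClosed k]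
    [CharP k p] (W G : k[X]) : k[X] := Classical.choose (FixC_exists (p := p) W G)

open Polynomial in
private theorem FixC_T_spec (W G : k[X]) (i : ℕ) :
    (FixC_T p W G).coeff i ^ p = (G * W).coeff (p * i + (p - 1)) :=
  Classical.choose_spec (FixC_exists (p := p) W G) i

omit [IsAlgClosed k] in
private theorem FixC_inj {a b : k} (h : a ^ p = b ^ p) : a = b := by
  have h1 : frobenius k p a = frobenius k p b := h
  exact frobenius_inj k p h1

open Polynomial in
private theorem FixC_T_unique (W G B : k[X])
    (h : ∀ i, B.coeff i ^ p = (G * W).coeff (p * i + (p - 1))) : FixC_T p W G = B := by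
  ext i
  apply FixC_inj (p := p)
  rw [FixC_T_spec, h]

open Polynomial in
private theorem FixC_T_add (W G H : k[X]) : FixC_T p W (G + H) = FixC_T p W G + FixC_T p W H := by
  apply FixC_T_unique
  intro i
  rw [coeff_add, add_pow_char, FixC_T_spec, FixC_T_spec, add_mul, coeff_add]

open Polynomial in
private theorem FixC_T_smul (W : k[X]) (a : k) (G : k[X]) :
    FixC_T p W (a ^ p • G) = a • FixC_T p W G := by
  apply FixC_T_unique
  intro i
  rw [coeff_smul, smul_eq_mul, mul_pow, FixC_T_spec, smul_mul_assoc, coeff_smul, smul_eq_mul]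

open Polynomial in
private theorem FixC_T_deg (W G : k[X]) (M : ℕ) (hW : W.natDegree + 1 ≤ (p - 1) * (M + 1) + 1)
    (hG : G.degree < (M : ℕ)) : (FixC_T p W G).degree < (M : ℕ) := by
  have hp : 2 ≤ p := (Fact.out : p.Prime).two_le
  rw [degree_lt_iff_coeff_zero]
  intro i hi
  have h1 : (FixC_T p W G).coeff i ^ p = 0 := by
    rw [FixC_T_spec]
    by_cases hG0 : G = 0
    · rw [hG0, zero_mul, coeff_zero]
    · apply coeff_eq_zero_of_natDegree_lt
      have h2 : G.natDegree < M := by
        rw [degree_eq_natDegree hG0] at hG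
        exact_mod_cast hG
      have h3 : (G * W).natDegree ≤ G.natDegree + W.natDegree := natDegree_mul_le
      obtain ⟨n, rfl⟩ : ∃ n, p = n + 1 := ⟨p - 1, by omega⟩
      simp only [Nat.add_sub_cancel] at hW ⊢
      have h4 : (n + 1) * M ≤ (n + 1) * i := Nat.mul_le_mul_left _ hi
      have h5 : (n + 1) * M = n * M + M := by ring
      have h6 : n * (M + 1) = n * M + n := by ring
      omega
  exact pow_eq_zero_iff (by omega : p ≠ 0) |>.mp h1

/-- the group of the fixed points -/
private def FixC_F (p : ℕ) [Fact p.Prime] {k : Type} [Field k] [CharP k p] (W : Polynomial k)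
    (N : ℕ) : AddSubgroup (Polynomial k) where
  carrier := {B | B.degree < (N : ℕ) ∧ ∀ i, B.coeff i ^ p = (B * W).coeff (p * i + (p - 1))}
  zero_mem' := by
    refine ⟨?_, fun i => ?_⟩
    · rw [Polynomial.degree_zero]
      exact WithBot.bot_lt_coe _
    · rw [zero_mul, Polynomial.coeff_zero, Polynomial.coeff_zero,
        zero_pow (Fact.out : p.Prime).ne_zero]
  add_mem' := by
    intro a b ha hb
    refine ⟨lt_of_le_of_lt (Polynomial.degree_add_le _ _) (max_lt ha.1 hb.1), fun i => ?_⟩
    rw [Polynomial.coeff_add, add_pow_char, ha.2, hb.2, add_mul, Polynomial.coeff_add]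
  neg_mem' := by
    intro a ha
    refine ⟨by rw [Polynomial.degree_neg]; exact ha.1, fun i => ?_⟩
    have h1 : (-(a.coeff i)) ^ p = -(a.coeff i ^ p) := by
      have := map_neg (frobenius k p) (a.coeff i)
      exact this
    rw [Polynomial.coeff_neg, h1, ha.2, neg_mul, Polynomial.coeff_neg]

/-- the group of the values -/
private def FixC_Y (p : ℕ) [Fact p.Prime] {k : Type} [Field k] [CharP k p] (a : k) :
    AddSubgroup k where
  carrier := {y | y ^ p = a * y}
  zero_mem' := by
    change (0 : k) ^ p = a * 0
    rw [zero_pow (Fact.out : p.Prime).ne_zero, mul_zero]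
  add_mem' := by
    intro x y hx hy
    change (x + y) ^ p = a * (x + y)
    rw [add_pow_char, show x ^ p = a * x from hx, show y ^ p = a * y from hy]
    ring
  neg_mem' := by
    intro x hx
    change (-x) ^ p = a * -x
    have h1 : (-x) ^ p = -(x ^ p) := by
      have := map_neg (frobenius k p) x
      exact this
    rw [h1, show x ^ p = a * x from hx]
    ring

open Polynomial in
private theorem FixC_card_Y {a : k} (ha : a ≠ 0) : Nat.card (FixC_Y p a) = p := by
  have hp2 : 2 ≤ p := (Fact.out : p.Prime).two_le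
  have hdeg : (X ^ p - C a * X : k[X]).natDegree = p := by
    rw [natDegree_sub_eq_left_of_natDegree_lt]
    · exact natDegree_X_pow p
    · rw [natDegree_X_pow]
      exact lt_of_le_of_lt ((natDegree_C_mul_le _ _).trans natDegree_X_le) (by omega)
  have hne : (X ^ p - C a * X : k[X]) ≠ 0 := by
    intro h
    rw [h, natDegree_zero] at hdeg
    omega
  have hsep : (X ^ p - C a * X : k[X]).Separable := by
    rw [separable_def]
    have h1 : derivative (X ^ p - C a * X : k[X]) = C (-a) := by
      rw [derivative_sub, derivative_X_pow, CharP.cast_eq_zero, C_0, zero_mul, derivative_mul,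
        derivative_C, zero_mul, derivative_X, mul_one, zero_add, zero_sub, C_neg]
    rw [h1]
    refine ⟨0, C (-a)⁻¹, ?_⟩
    rw [zero_mul, zero_add, ← C_mul, inv_mul_cancel₀ (neg_ne_zero.mpr ha), C_1]
  have h2 := card_rootSet_eq_natDegree (K := k) hsep (IsAlgClosed.splits _)
  rw [hdeg] at h2
  refine Eq.trans ?_ h2
  rw [← Nat.card_eq_fintype_card]
  apply Nat.card_congr
  apply Equiv.subtypeEquivRight
  intro y
  rw [mem_rootSet]
  have h3 : (aeval y) (X ^ p - C a * X : k[X]) = y ^ p - a * y := by
    simp
  rw [h3, sub_eq_zero]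
  constructor
  · intro h
    exact ⟨hne, h⟩
  · intro h
    exact h.2

theorem fixP_mul_one (W : Polynomial k) (N s : ℕ) (h : FixP p W N s)
    (hW : W.natDegree ≤ (p - 1) * (N + 1)) (c : k) (hc : W.eval c ≠ 0) :
    FixP p (W * (Polynomial.X - Polynomial.C c) ^ (p - 1)) (N + 1) (s + 1) := by
  classical
  have hp2 : 2 ≤ p := (Fact.out : p.Prime).two_le
  set W' : Polynomial k := W * (Polynomial.X - Polynomial.C c) ^ (p - 1) with hW'
  have hdegW' : W'.natDegree + 1 ≤ (p - 1) * (N + 1 + 1) + 1 := by
    have h1 : W'.natDegree ≤ W.natDegree + (p - 1) := by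
      refine Polynomial.natDegree_mul_le.trans ?_
      refine Nat.add_le_add_left ?_ _
      refine Polynomial.natDegree_pow_le.trans ?_
      rw [Polynomial.natDegree_X_sub_C, mul_one]
    have h2 : (p - 1) * (N + 1 + 1) = (p - 1) * (N + 1) + (p - 1) := by ring
    omega
  -- the map to the value at `c`
  let φ : FixC_F p W' (N + 1) →+ FixC_Y p (W.eval c) :=
    { toFun := fun B => ⟨B.1.eval c, FixC_val W c B.1 B.1 B.2.2⟩
      map_zero' := by
        apply Subtype.ext
        exact Polynomial.eval_zero
      map_add' := fun a b => by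
        apply Subtype.ext
        exact Polynomial.eval_add }
  have hφ : ∀ a, (φ a).1 = a.1.eval c := fun _ => rfl
  have hsurj : Function.Surjective φ := by
    rintro ⟨y, hy⟩
    have hy' : y ^ p = W.eval c * y := hy
    let V : Submodule k (Polynomial k) :=
      { carrier := {G | G.degree < ((N + 1 : ℕ) : WithBot ℕ) ∧ G.eval c = 0}
        zero_mem' := ⟨by rw [Polynomial.degree_zero]; exact WithBot.bot_lt_coe _,
          Polynomial.eval_zero⟩
        add_mem' := by
          intro a b ha hb
          refine ⟨lt_of_le_of_lt (Polynomial.degree_add_le _ _) (max_lt ha.1 hb.1), ?_⟩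
          rw [Polynomial.eval_add, ha.2, hb.2, add_zero]
        smul_mem' := by
          intro a b hb
          refine ⟨lt_of_le_of_lt (Polynomial.degree_smul_le _ _) hb.1, ?_⟩
          rw [Polynomial.eval_smul, hb.2, smul_zero] }
    have hVmem : ∀ G, G ∈ V ↔ G.degree < ((N + 1 : ℕ) : WithBot ℕ) ∧ G.eval c = 0 :=
      fun _ => Iff.rfl
    haveI : Module.Finite k V := by
      have hle : V ≤ Polynomial.degreeLT k (N + 1) := by
        intro G hG
        rw [Polynomial.mem_degreeLT]
        exact hG.1
      haveI : Module.Finite k (Polynomial.degreeLT k (N + 1)) :=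
        Module.Finite.equiv (Polynomial.degreeLTEquiv k (N + 1)).symm
      exact Submodule.finiteDimensional_of_le hle
    have hB0deg : (Polynomial.C y).degree < ((N + 1 : ℕ) : WithBot ℕ) :=
      lt_of_le_of_lt Polynomial.degree_C_le (by exact_mod_cast Nat.succ_pos N)
    have hTv : ∀ G : Polynomial k, (FixC_T p W' G).eval c ^ p = W.eval c * G.eval c := fun G =>
      FixC_val W c _ G (FixC_T_spec W' G)
    have hu : FixC_T p W' (Polynomial.C y) - Polynomial.C y ∈ V := by
      rw [hVmem]
      refine ⟨lt_of_le_of_lt (Polynomial.degree_sub_le _ _)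
        (max_lt (FixC_T_deg W' _ (N + 1) hdegW' hB0deg) hB0deg), ?_⟩
      rw [Polynomial.eval_sub, Polynomial.eval_C, sub_eq_zero]
      apply FixC_inj (p := p)
      rw [hTv, Polynomial.eval_C, hy']
    obtain ⟨v, hv, hv2⟩ := lang_surjective_sub (p := p) V (FixC_T p W') (FixC_T_add W')
      (FixC_T_smul W') (fun G hG => by
        rw [hVmem] at hG ⊢
        refine ⟨FixC_T_deg W' _ (N + 1) hdegW' hG.1, ?_⟩
        apply FixC_inj (p := p)
        rw [hTv, hG.2, mul_zero, zero_pow (by omega)]) _ hu
    have hfix : FixC_T p W' (Polynomial.C y + v) = Polynomial.C y + v := by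
      rw [FixC_T_add]
      linear_combination -hv2
    refine ⟨⟨Polynomial.C y + v, ?_, ?_⟩, ?_⟩
    · exact lt_of_le_of_lt (Polynomial.degree_add_le _ _) (max_lt hB0deg hv.1)
    · intro i
      rw [← FixC_T_spec W' (Polynomial.C y + v) i, hfix]
    · apply Subtype.ext
      rw [hφ]
      change (Polynomial.C y + v).eval c = y
      rw [Polynomial.eval_add, Polynomial.eval_C, hv.2, add_zero]
  have hker : Nat.card φ.ker = Nat.card (FixC_F p W N) := by
    symm
    apply Nat.card_congr
    have hmem : ∀ B : FixC_F p W N,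
        (Polynomial.X - Polynomial.C c) * B.1 ∈ FixC_F p W' (N + 1) := by
      intro B
      refine ⟨?_, (FixC_ker W c B.1).mpr B.2.2⟩
      rw [Polynomial.degree_mul, Polynomial.degree_X_sub_C]
      have h1 : B.1.degree < (N : WithBot ℕ) := B.2.1
      by_cases h0 : B.1 = 0
      · rw [h0, Polynomial.degree_zero, WithBot.add_bot]
        exact WithBot.bot_lt_coe _
      · rw [Polynomial.degree_eq_natDegree h0] at h1 ⊢
        have h2 : B.1.natDegree < N := by exact_mod_cast h1
        have h3 : 1 + B.1.natDegree < N + 1 := by omega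
        exact_mod_cast h3
    let ψ : FixC_F p W N → φ.ker := fun B => ⟨⟨(Polynomial.X - Polynomial.C c) * B.1, hmem B⟩, by
      rw [AddMonoidHom.mem_ker]
      apply Subtype.ext
      rw [hφ]
      change ((Polynomial.X - Polynomial.C c) * B.1).eval c = 0
      rw [Polynomial.eval_mul, Polynomial.eval_sub, Polynomial.eval_X, Polynomial.eval_C,
        sub_self, zero_mul]⟩
    refine Equiv.ofBijective ψ ⟨?_, ?_⟩
    · intro a b hab
      have h1 : (Polynomial.X - Polynomial.C c) * a.1 = (Polynomial.X - Polynomial.C c) * b.1 :=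
        congrArg (fun z => z.1.1) hab
      exact Subtype.ext (mul_left_cancel₀ (Polynomial.X_sub_C_ne_zero c) h1)
    · rintro ⟨⟨B, hB⟩, hker⟩
      rw [AddMonoidHom.mem_ker] at hker
      have h0 : B.eval c = 0 := congrArg Subtype.val hker
      obtain ⟨B', rfl⟩ := Polynomial.dvd_iff_isRoot.mpr h0
      have hB'2 := (FixC_ker W c B').mp hB.2
      have hB'1 : B'.degree < (N : WithBot ℕ) := by
        have h1 : ((Polynomial.X - Polynomial.C c) * B').degree < ((N + 1 : ℕ) : WithBot ℕ) := hB.1
        rw [Polynomial.degree_mul, Polynomial.degree_X_sub_C] at h1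
        by_cases h0 : B' = 0
        · rw [h0, Polynomial.degree_zero]
          exact WithBot.bot_lt_coe _
        · rw [Polynomial.degree_eq_natDegree h0] at h1 ⊢
          have h2 : 1 + B'.natDegree < N + 1 := by exact_mod_cast h1
          have h3 : B'.natDegree < N := by omega
          exact_mod_cast h3
      exact ⟨⟨B', hB'1, hB'2⟩, rfl⟩
  have h1 : Nat.card (FixC_F p W' (N + 1)) = Nat.card (FixC_F p W' (N + 1) ⧸ φ.ker) *
      Nat.card φ.ker := AddSubgroup.card_eq_card_quotient_mul_card_addSubgroup φ.ker
  have h2 : Nat.card (FixC_F p W' (N + 1) ⧸ φ.ker) = Nat.card (FixC_Y p (W.eval c)) :=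
    Nat.card_congr (QuotientAddGroup.quotientKerEquivOfSurjective φ hsurj).toEquiv
  rw [h2, hker, FixC_card_Y hc] at h1
  have h3 : Nat.card (FixC_F p W N) = p ^ s := h
  rw [h3] at h1
  have h4 : Nat.card (FixC_F p W' (N + 1)) = p ^ (s + 1) := by
    rw [h1, pow_succ, mul_comm]
  exact h4

theorem fixP_mul_prod (W : Polynomial k) (N s : ℕ) (h : FixP p W N s)
    (hW : W.natDegree ≤ (p - 1) * (N + 1)) (C : Finset k) (hC : ∀ c ∈ C, W.eval c ≠ 0) :
    FixP p (W * ∏ c ∈ C, (Polynomial.X - Polynomial.C c) ^ (p - 1)) (N + C.card)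
      (s + C.card) := by
  classical
  induction C using Finset.induction_on with
  | empty => simpa using h
  | insert c C hcC ih =>
    have ih' := ih (fun x hx => hC x (Finset.mem_insert_of_mem hx))
    have hdeg : (W * ∏ c ∈ C, (Polynomial.X - Polynomial.C c) ^ (p - 1)).natDegree ≤
        (p - 1) * (N + C.card + 1) := by
      refine Polynomial.natDegree_mul_le.trans ?_
      have h1 : (∏ c ∈ C, (Polynomial.X - Polynomial.C c) ^ (p - 1)).natDegree ≤
          C.card * (p - 1) := by
        refine (Polynomial.natDegree_prod_le _ _).trans ?_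
        refine (Finset.sum_le_card_nsmul C _ (p - 1) fun x _ => ?_).trans (le_of_eq ?_)
        · refine Polynomial.natDegree_pow_le.trans ?_
          rw [Polynomial.natDegree_X_sub_C, mul_one]
        · rw [smul_eq_mul]
      have h2 : (p - 1) * (N + C.card + 1) = (p - 1) * (N + 1) + C.card * (p - 1) := by ring
      omega
    have hne : (W * ∏ c ∈ C, (Polynomial.X - Polynomial.C c) ^ (p - 1)).eval c ≠ 0 := by
      rw [Polynomial.eval_mul, Polynomial.eval_prod]
      refine mul_ne_zero (hC c (Finset.mem_insert_self c C)) ?_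
      rw [Finset.prod_ne_zero_iff]
      intro x hx
      rw [Polynomial.eval_pow, Polynomial.eval_sub, Polynomial.eval_X, Polynomial.eval_C]
      refine pow_ne_zero _ (sub_ne_zero.mpr ?_)
      intro h1
      rw [h1] at hcC
      exact hcC hx
    have h3 := fixP_mul_one _ _ _ ih' hdeg c hne
    rw [Finset.prod_insert hcC, Finset.card_insert_of_notMem hcC]
    have e1 : W * ((Polynomial.X - Polynomial.C c) ^ (p - 1) *
        ∏ x ∈ C, (Polynomial.X - Polynomial.C x) ^ (p - 1)) =
        W * (∏ x ∈ C, (Polynomial.X - Polynomial.C x) ^ (p - 1)) *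
          (Polynomial.X - Polynomial.C c) ^ (p - 1) := by ring
    rw [e1]
    exact h3

end Pool.Agent.PRB
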