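import Mathlib

/-!
# Polynomial form of the Cartier operators: definitions

For a polynomial `G` in characteristic `p` the `(p-1)`-th derivative is
`- ∑ i, G.coeff (p i + p - 1) X ^ (p i)`.
-/

set_option autoImplicit false

namespace Pool.Agent.PRB

variable {k : Type} [Field k]

/-- There are `p ^ s` polynomials `B` of degree `< N` with `(B_i) ^ p = (B W)_(p i + p - 1)` for all
`i`. -/
def FixP (p : ℕ) (W : Polynomial k) (N s : ℕ) : Prop :=
  Nat.card {B : Polynomial k // B.degree < (N : ℕ) ∧
    ∀ i, B.coeff i ^ p = (B * W).coeff (p * i + (p - 1))} = p ^ s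

/-- The only polynomial `B` of degree `< N` with `(B W)_(p i + p - 1) = 0` for all `i` is `0`. -/
def OrdP (p : ℕ) (W : Polynomial k) (N : ℕ) : Prop :=
  ∀ B : Polynomial k, B.degree < (N : ℕ) → (∀ i, (B * W).coeff (p * i + (p - 1)) = 0) → B = 0

theorem fixP_zero (p : ℕ) (hp : 0 < p) (W : Polynomial k) : FixP p W 0 0 := by
  unfold FixP
  rw [pow_zero, Nat.card_eq_one_iff_unique]
  have h0 : ∀ B : Polynomial k, B.degree < ((0 : ℕ) : WithBot ℕ) → B = 0 := by
    intro B hB
    by_contra h
    rw [Polynomial.degree_eq_natDegree h] at hB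
    have : B.natDegree < 0 := by exact_mod_cast hB
    omega
  refine ⟨⟨fun a b => Subtype.ext ((h0 _ a.2.1).trans (h0 _ b.2.1).symm)⟩, ⟨⟨0, ?_, ?_⟩⟩⟩
  · rw [Polynomial.degree_zero]
    exact WithBot.bot_lt_coe _
  · intro i
    rw [zero_mul, Polynomial.coeff_zero, Polynomial.coeff_zero, zero_pow hp.ne']

theorem ordP_zero (p : ℕ) (W : Polynomial k) : OrdP p W 0 := by
  intro B hB _
  by_contra h
  rw [Polynomial.degree_eq_natDegree h] at hB
  have : B.natDegree < 0 := by exact_mod_cast hB
  omega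

end Pool.Agent.PRB
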