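import Pool.Agent.LibPRB.FixD

/-!
# The `(p-1)`-th derivative of a polynomial in characteristic `p`

PLAN. `Polynomial.coeff_iterate_derivative` (`(derivative^[k] G).coeff m = (m + k).descFactorial k • G.coeff (m + k)`).
`(m + p - 1).descFactorial (p - 1)` is the product of the `p - 1` consecutive integers
`m + 1, ..., m + p - 1`: if `p ∤ m` one of them is divisible by `p`; if `p ∣ m` it is
`(p - 1)! = -1` modulo `p` (`ZMod.wilsons_lemma`, `CharP.cast_eq_zero_iff`).
`ordP_iff_deriv`: for `G = B * W`; `derivative^[p-1] G = 0` iff all coefficients vanish; the coefficient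
at `p i` is `-G.coeff (p i + (p - 1))`.
-/

set_option autoImplicit false

namespace Pool.Agent.PRB

variable {p : ℕ} [Fact p.Prime] {k : Type} [Field k] [CharP k p]

theorem coeff_deriv_pred (G : Polynomial k) (m : ℕ) :
    (Polynomial.derivative^[p - 1] G).coeff m =
      if p ∣ m then -G.coeff (m + (p - 1)) else 0 := by
  have hp : p.Prime := Fact.out
  have hp1 := hp.two_le
  rw [Polynomial.coeff_iterate_derivative, nsmul_eq_mul, Nat.descFactorial_eq_prod_range,
    Nat.cast_prod]
  split_ifs with h
  · have h1 : ∏ i ∈ Finset.range (p - 1), ((m + (p - 1) - i : ℕ) : k) = -1 := by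
      have h2 : ∀ i ∈ Finset.range (p - 1), ((m + (p - 1) - i : ℕ) : k) = ((p - 1 - i : ℕ) : k) := by
        intro i hi
        rw [Finset.mem_range] at hi
        have h3 : m + (p - 1) - i = m + (p - 1 - i) := by omega
        rw [h3, Nat.cast_add, (CharP.cast_eq_zero_iff k p m).2 h, zero_add]
      rw [Finset.prod_congr rfl h2, ← Nat.cast_prod, ← Nat.descFactorial_eq_prod_range,
        Nat.descFactorial_self]
      have h3 := congrArg (ZMod.castHom (dvd_refl p) k) (ZMod.wilsons_lemma p)
      rwa [map_natCast, map_neg, map_one] at h3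
    rw [h1, neg_one_mul]
  · have h1 : ∏ i ∈ Finset.range (p - 1), ((m + (p - 1) - i : ℕ) : k) = 0 := by
      have h2 : 0 < m % p := Nat.pos_of_ne_zero fun h0 => h (Nat.dvd_of_mod_eq_zero h0)
      have h3 : m % p < p := Nat.mod_lt _ hp.pos
      refine Finset.prod_eq_zero (i := m % p - 1) (Finset.mem_range.2 (by omega)) ?_
      rw [CharP.cast_eq_zero_iff k p]
      have h4 := Nat.div_add_mod m p
      have h5 : m + (p - 1) - (m % p - 1) = p * (m / p) + p := by omega
      rw [h5]
      exact ⟨m / p + 1, by ring⟩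
    rw [h1, zero_mul]

theorem deriv_pred_eq_zero_iff (G : Polynomial k) :
    Polynomial.derivative^[p - 1] G = 0 ↔ ∀ i, G.coeff (p * i + (p - 1)) = 0 := by
  constructor
  · intro h i
    have h1 := coeff_deriv_pred (p := p) G (p * i)
    rw [h, Polynomial.coeff_zero, if_pos (dvd_mul_right p i)] at h1
    rw [← neg_eq_zero]
    exact h1.symm
  · intro h
    ext m
    rw [coeff_deriv_pred, Polynomial.coeff_zero]
    split_ifs with hm
    · obtain ⟨i, rfl⟩ := hm
      rw [h i, neg_zero]
    · rfl

/-- `B ^ p = - D^(p-1) G` in terms of coefficients. -/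
theorem pow_eq_deriv_pred_iff (B G : Polynomial k) :
    B ^ p = -(Polynomial.derivative^[p - 1] G) ↔
      ∀ i, B.coeff i ^ p = G.coeff (p * i + (p - 1)) := by
  have hp : p.Prime := Fact.out
  have h0 : B ^ p = Polynomial.expand k p (B.map (frobenius k p)) := by
    rw [← Polynomial.map_expand, Polynomial.map_frobenius_expand]
  have h1 : ∀ m, (B ^ p).coeff m = if p ∣ m then B.coeff (m / p) ^ p else 0 := by
    intro m
    rw [h0, Polynomial.coeff_expand hp.pos]
    split_ifs
    · rw [Polynomial.coeff_map, frobenius_def]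
    · rfl
  constructor
  · intro h i
    have h2 := congrArg (fun q => Polynomial.coeff q (p * i)) h
    simp only [Polynomial.coeff_neg] at h2
    rw [h1, coeff_deriv_pred, if_pos (dvd_mul_right p i), if_pos (dvd_mul_right p i), neg_neg,
      Nat.mul_div_cancel_left _ hp.pos] at h2
    exact h2
  · intro h
    ext m
    rw [Polynomial.coeff_neg, h1, coeff_deriv_pred]
    split_ifs with hm
    · obtain ⟨i, rfl⟩ := hm
      rw [Nat.mul_div_cancel_left _ hp.pos, h i, neg_neg]
    · rw [neg_zero]

end Pool.Agent.PRB
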