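import Pool.Agent.LibPRB.LangF

/-!
# The number of fixed vectors of an injective `p⁻¹`-linear operator is `p ^ dim`

PLAN. Let `F = {v ∈ W | C v = v}` and `U = span k F ≤ W`.  (1) `U = W`: `C` is surjective on `W`
(`C` restricted to `W` is additive with `C (c ^ p • v) = c • C v`: for a basis `b` of `W` the `C (b_i)` are
linearly independent: `∑ c_i C (b_i) = C (∑ c_i ^ p b_i)`, injectivity), and it maps `U` onto `U`.  If
`u ∈ W`, `u ∉ U`: let `m > 0` be minimal with `C^[m] u ∈ U + span (u, C u, ..., C^[m-1] u)`; modulo `U`: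
`C^[m] u = ∑_{i<m} a_i C^[i] u`, and `a_0 ≠ 0` (otherwise, `C` being bijective on `W` and on `U`, `m - 1`
would do, or `u ∈ U` for `m = 1`... if all `a_i = 0` then `C^[m] u ∈ U` so `u ∈ U`).  Look for
`v = ∑_{i<m} x_i ^ p C^[i] u` with `C v ≡ v` modulo `U`: `C v = ∑ x_i C^[i+1] u`; with `t = x_(m-1)`:
`x_0 ^ p = a_0 t`, `x_i ^ p = x_(i-1) + a_i t`.  Eliminating (`x_(i-1) = x_i ^ p - a_i t`, downwards from
`x_(m-1) = t`) gives the polynomial equation `Q(t) = 0`,
`Q(t) = t ^ (p^m) - a_(m-1) ^ (p^(m-1)) t ^ (p^(m-1)) - ... - a_0 t` with `a_0 ≠ 0` and degree `> 1`, whose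
root `t = 0` is simple, so there is a root `t ≠ 0` (compare `Lang_N`, `lang_surjective` in Lang.lean, the
polynomials `N_j` there satisfy exactly this recursion).  Then `C v - v ∈ U`, `v ∉ U`, and by
`lang_surjective_sub` applied to `U` there is `v' ∈ U` with `v' - C v' = C v - v`, so `v + v' ∈ F`, a
contradiction.
(2) Elements of `F` which are linearly independent over `F_p` (= `{x : k | x ^ p = x}`) are linearly
independent over `k`; with (1) a maximal `k`-independent subset `b ⊆ F` is a basis of `W`, and the fixed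
vectors are exactly the combinations of `b` with coefficients in `{x | x ^ p = x}` (see the proof of
`lang_finite`, LangF.lean); this set has `p` elements (`X ^ p - X` is separable and splits;
`FiniteField`/`card_rootSet_eq_natDegree`).  So `card = p ^ finrank`.
-/

set_option autoImplicit false

namespace Pool.Agent.PRB

variable {p : ℕ} [Fact p.Prime] {k V : Type} [Field k] [IsAlgClosed k] [CharP k p]
  [AddCommGroup V] [Module k V]

theorem LangC_rel [Module.Finite k V] (C : V → V) (u : V) : ∃ (n : ℕ) (a : ℕ → k),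
    C^[n] u = ∑ i ∈ Finset.range n, a i • C^[i] u := by
  have hdep : ¬ LinearIndependent k (fun i : Fin (Module.finrank k V + 1) => C^[(i : ℕ)] u) := by
    intro h
    have := h.fintype_card_le_finrank
    simp at this
  rw [Fintype.not_linearIndependent_iff] at hdep
  obtain ⟨g, hg, i₀, hi₀⟩ := hdep
  -- the largest index with nonzero coefficient
  let b : ℕ → k := fun i => if h : i < Module.finrank k V + 1 then g ⟨i, h⟩ else 0
  have hb : ∑ i ∈ Finset.range (Module.finrank k V + 1), b i • C^[i] u = 0 := by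
    rw [← hg, ← Fin.sum_univ_eq_sum_range (fun i => b i • C^[i] u)]
    refine Finset.sum_congr rfl fun i _ => ?_
    simp only [b, i.2, dif_pos]
  have hex : ∃ m, m < Module.finrank k V + 1 ∧ b m ≠ 0 :=
    ⟨i₀, i₀.2, by simp only [b, i₀.2, dif_pos]; exact hi₀⟩
  classical
  let n := Nat.findGreatest (fun m => b m ≠ 0) (Module.finrank k V)
  have hn0 : b n ≠ 0 := by
    obtain ⟨m, hm, hbm⟩ := hex
    exact Nat.findGreatest_spec (P := fun m => b m ≠ 0) (Nat.lt_succ_iff.mp hm) hbm
  have hnle : n ≤ Module.finrank k V := Nat.findGreatest_le _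
  have hgt : ∀ m, n < m → m ≤ Module.finrank k V → b m = 0 := by
    intro m h1 h2
    by_contra h
    exact Nat.findGreatest_is_greatest (P := fun m => b m ≠ 0) h1 h2 h
  have hb2 : ∑ i ∈ Finset.range (n + 1), b i • C^[i] u = 0 := by
    rw [← hb]
    refine Finset.sum_subset (Finset.range_subset_range.mpr (by omega)) ?_
    intro m hm hm'
    rw [Finset.mem_range] at hm hm'
    rw [hgt m (by omega) (by omega), zero_smul]
  rw [Finset.sum_range_succ] at hb2
  refine ⟨n, fun i => -(b i / b n), ?_⟩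
  have h1 : b n • C^[n] u = -∑ i ∈ Finset.range n, b i • C^[i] u :=
    eq_neg_of_add_eq_zero_right hb2
  have h2 : C^[n] u = (b n)⁻¹ • (b n • C^[n] u) := by
    rw [smul_smul, inv_mul_cancel₀ hn0, one_smul]
  rw [h2, h1, smul_neg, Finset.smul_sum, ← Finset.sum_neg_distrib]
  refine Finset.sum_congr rfl fun i _ => ?_
  rw [smul_smul, neg_smul]
  congr 2
  ring

theorem LangC_eval {k : Type} [Field k] {p : ℕ} (hp : 1 < p) (n : ℕ) (a : ℕ → k) (j : ℕ) :
    (Lang_N p n a j).eval 0 = 0 := by
  induction j with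
  | zero => simp [Lang_N]
  | succ j ih =>
    rw [Lang_N, Polynomial.eval_sub, Polynomial.eval_pow, ih, zero_pow (by omega)]
    simp

open Polynomial in
theorem LangC_root {n : ℕ} (hn : 0 < n) (a : ℕ → k) (ha : a 0 ≠ 0) :
    ∃ t : k, t ≠ 0 ∧ (Lang_N p n a n).eval t = 0 := by
  have hp : 1 < p := (Fact.out : p.Prime).one_lt
  obtain ⟨hm, hdeg⟩ := Lang_N_monic hp n a n
  obtain ⟨Q, hQ⟩ : X ∣ Lang_N p n a n := by
    rw [X_dvd_iff, coeff_zero_eq_eval_zero]
    exact LangC_eval hp n a n
  have hQ0 : Q ≠ 0 := by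
    rintro rfl
    rw [mul_zero] at hQ
    exact hm.ne_zero hQ
  have hQd : Q.natDegree + 1 = p ^ n := by
    rw [← hdeg, hQ, natDegree_X_mul hQ0]
  have hpn : 1 < p ^ n := Nat.one_lt_pow (by omega) hp
  have hQe : Q.eval 0 = -a 0 := by
    have h1 : derivative (Lang_N p n a n) = -Polynomial.C (a 0) := by
      obtain ⟨m, rfl⟩ : ∃ m, n = m + 1 := ⟨n - 1, by omega⟩
      have h2 : m + 1 - 1 - m = 0 := by omega
      rw [Lang_N, h2, derivative_sub, derivative_pow, derivative_C_mul, derivative_X, mul_one]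
      simp
    rw [hQ, derivative_mul, derivative_X, one_mul] at h1
    have h4 := congrArg (Polynomial.eval 0) h1
    simpa using h4
  obtain ⟨t, ht⟩ : ∃ t : k, Q.IsRoot t := by
    apply IsAlgClosed.exists_root
    rw [degree_eq_natDegree hQ0]
    have : Q.natDegree ≠ 0 := by omega
    exact_mod_cast this
  refine ⟨t, ?_, ?_⟩
  · rintro rfl
    rw [IsRoot, hQe] at ht
    exact ha (neg_eq_zero.1 ht)
  · rw [hQ, eval_mul, show Q.eval t = 0 from ht, mul_zero]

/-- a fixed vector which is not zero -/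
theorem LangC_fixed [Module.Finite k V] (C : V →+ V)
    (hC : ∀ (c : k) (v : V), C (c ^ p • v) = c • C v) (hinj : ∀ v, C v = 0 → v = 0)
    (u : V) (hu : u ≠ 0) : ∃ v : V, v ≠ 0 ∧ C v = v := by
  classical
  have hp : 1 < p := (Fact.out : p.Prime).one_lt
  have hex := LangC_rel (k := k) C u
  obtain ⟨n, a, hrel, hmin⟩ : ∃ (n : ℕ) (a : ℕ → k),
      C^[n] u = ∑ i ∈ Finset.range n, a i • C^[i] u ∧
      ∀ m < n, ∀ a' : ℕ → k, C^[m] u ≠ ∑ i ∈ Finset.range m, a' i • C^[i] u := by
    obtain ⟨a, ha⟩ := Nat.find_spec hex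
    exact ⟨Nat.find hex, a, ha, fun m hm a' h => Nat.find_min hex hm ⟨a', h⟩⟩
  obtain ⟨m, rfl⟩ : ∃ m, n = m + 1 := by
    rcases Nat.eq_zero_or_pos n with h | h
    · subst h
      simp only [Function.iterate_zero, id_eq, Finset.range_zero, Finset.sum_empty] at hrel
      exact absurd hrel hu
    · exact ⟨n - 1, by omega⟩
  have ha0 : a 0 ≠ 0 := by
    intro h0
    apply hmin m (by omega) (fun i => a (i + 1) ^ p)
    rw [← sub_eq_zero]
    apply hinj
    rw [map_sub, map_sum, ← Function.iterate_succ_apply' C m u, hrel, Finset.sum_range_succ', h0,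
      zero_smul, add_zero, ← Finset.sum_sub_distrib]
    refine Finset.sum_eq_zero fun i _ => ?_
    rw [hC, Function.iterate_succ_apply', sub_self]
  obtain ⟨t, ht0, ht⟩ := LangC_root (p := p) (Nat.succ_pos m) a ha0
  let ν : ℕ → k := fun j => (Lang_N p (m + 1) a j).eval t
  have hν0 : ν 0 = t := by simp [ν, Lang_N]
  have hνs : ∀ j, ν (j + 1) = ν j ^ p - a (m + 1 - 1 - j) * t := by
    intro j
    simp [ν, Lang_N]
  have hνn : ν (m + 1) = 0 := ht
  refine ⟨∑ i ∈ Finset.range (m + 1), ν (m + 1 - 1 - i) ^ p • C^[i] u, ?_, ?_⟩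
  · intro h0
    rw [Finset.sum_range_succ] at h0
    have h1 : m + 1 - 1 - m = 0 := by omega
    rw [h1, hν0] at h0
    have h2 : t ^ p • C^[m] u = -∑ i ∈ Finset.range m, ν (m + 1 - 1 - i) ^ p • C^[i] u :=
      eq_neg_of_add_eq_zero_right h0
    have htp : t ^ p ≠ 0 := pow_ne_zero _ ht0
    refine hmin m (by omega) (fun i => -((t ^ p)⁻¹ * ν (m + 1 - 1 - i) ^ p)) ?_
    have h3 : C^[m] u = (t ^ p)⁻¹ • (t ^ p • C^[m] u) := by
      rw [smul_smul, inv_mul_cancel₀ htp, one_smul]
    rw [h3, h2, smul_neg, Finset.smul_sum, ← Finset.sum_neg_distrib]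
    refine Finset.sum_congr rfl fun i _ => ?_
    rw [smul_smul, neg_smul]
  · have hCv : C (∑ i ∈ Finset.range (m + 1), ν (m + 1 - 1 - i) ^ p • C^[i] u)
        = ∑ i ∈ Finset.range (m + 1), ν (m + 1 - (i + 1)) • C^[i + 1] u := by
      rw [map_sum]
      refine Finset.sum_congr rfl fun i hi => ?_
      rw [hC, Function.iterate_succ_apply']
      congr 2
      omega
    have hv : ∑ i ∈ Finset.range (m + 1), ν (m + 1 - 1 - i) ^ p • C^[i] u
        = ∑ i ∈ Finset.range (m + 1), ν (m + 1 - i) • C^[i] u + t • C^[m + 1] u := by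
      rw [hrel, Finset.smul_sum, ← Finset.sum_add_distrib]
      refine Finset.sum_congr rfl fun i hi => ?_
      rw [Finset.mem_range] at hi
      have h1 := hνs (m + 1 - 1 - i)
      have h2 : m + 1 - 1 - i + 1 = m + 1 - i := by omega
      have h3 : m + 1 - 1 - (m + 1 - 1 - i) = i := by omega
      rw [h2, h3] at h1
      rw [smul_smul, ← add_smul, h1]
      congr 1
      ring
    rw [hCv, hv]
    have htel := Finset.sum_range_sub' (fun i => ν (m + 1 - i) • C^[i] u) (m + 1)
    rw [Finset.sum_sub_distrib] at htel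
    simp only [Nat.sub_zero, Nat.sub_self, hνn, hν0, zero_smul, zero_sub] at htel
    rw [sub_eq_iff_eq_add] at htel
    rw [htel]
    abel

theorem LangC_root_p (c : k) : ∃ d : k, d ^ p = c :=
  IsAlgClosed.exists_pow_nat_eq c (Fact.out : p.Prime).pos

/-- the fixed vectors span -/
theorem LangC_span [Module.Finite k V] (C : V →+ V)
    (hC : ∀ (c : k) (v : V), C (c ^ p • v) = c • C v) (hinj : ∀ v, C v = 0 → v = 0) :
    Submodule.span k {v : V | C v = v} = ⊤ := by
  set U : Submodule k V := Submodule.span k {v : V | C v = v} with hU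
  have hCU : ∀ v ∈ U, C v ∈ U := by
    intro v hv
    rw [hU] at hv
    induction hv using Submodule.span_induction with
    | mem x hx =>
      have hx' : C x = x := hx
      rw [hx']
      exact Submodule.subset_span hx
    | zero =>
      rw [map_zero]
      exact U.zero_mem
    | add x y _ _ h1 h2 =>
      rw [map_add]
      exact U.add_mem h1 h2
    | smul c x _ h =>
      obtain ⟨d, rfl⟩ := LangC_root_p (p := p) c
      rw [hC]
      exact U.smul_mem d h
  have hsurj : ∀ v ∈ U, ∃ w ∈ U, C w = v := by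
    intro v hv
    rw [hU] at hv
    induction hv using Submodule.span_induction with
    | mem x hx => exact ⟨x, Submodule.subset_span hx, hx⟩
    | zero => exact ⟨0, U.zero_mem, map_zero C⟩
    | add x y _ _ h1 h2 =>
      obtain ⟨w, hw, rfl⟩ := h1
      obtain ⟨w', hw', rfl⟩ := h2
      exact ⟨w + w', U.add_mem hw hw', map_add C w w'⟩
    | smul c x _ h =>
      obtain ⟨w, hw, rfl⟩ := h
      exact ⟨c ^ p • w, U.smul_mem _ hw, hC c w⟩
  have hCU' : ∀ v, C v ∈ U → v ∈ U := by
    intro v hv
    obtain ⟨w, hw, h⟩ := hsurj _ hv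
    have h1 : v - w = 0 := hinj _ (by rw [map_sub, h, sub_self])
    rw [sub_eq_zero.1 h1]
    exact hw
  rw [eq_top_iff]
  intro u _
  by_contra hu
  let Cq : (V ⧸ U) →+ (V ⧸ U) := QuotientAddGroup.map U.toAddSubgroup U.toAddSubgroup C hCU
  have hq : ∀ v : V, Cq (Submodule.Quotient.mk v) = Submodule.Quotient.mk (C v) := fun v => rfl
  obtain ⟨vq, hvq0, hvq⟩ := LangC_fixed (p := p) (k := k) Cq (by
    intro c x
    obtain ⟨x, rfl⟩ := Submodule.Quotient.mk_surjective U x
    rw [← Submodule.Quotient.mk_smul, hq, hC, Submodule.Quotient.mk_smul, hq]) (by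
    intro x hx
    obtain ⟨x, rfl⟩ := Submodule.Quotient.mk_surjective U x
    rw [hq, Submodule.Quotient.mk_eq_zero] at hx
    exact (Submodule.Quotient.mk_eq_zero U).2 (hCU' x hx)) (Submodule.Quotient.mk u) (by
    rw [Ne, Submodule.Quotient.mk_eq_zero]
    exact hu)
  obtain ⟨v, rfl⟩ := Submodule.Quotient.mk_surjective U vq
  rw [hq, ← sub_eq_zero, ← Submodule.Quotient.mk_sub, Submodule.Quotient.mk_eq_zero] at hvq
  rw [Ne, Submodule.Quotient.mk_eq_zero] at hvq0
  obtain ⟨w, hwU, hw⟩ := lang_surjective_sub (p := p) U C (map_add C) hC hCU _ hvq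
  have hfix : C (v + w) = v + w := by
    rw [map_add]
    have h1 : C w = w - (C v - v) := by
      rw [← hw]
      abel
    rw [h1]
    abel
  have hmem : v + w ∈ U := Submodule.subset_span hfix
  exact hvq0 ((U.add_mem_iff_left hwU).1 hmem)

theorem LangC_scalars : Nat.card {x : k // x ^ p = x} = p := by
  classical
  have hp : 1 < p := (Fact.out : p.Prime).one_lt
  have hne : (Polynomial.X ^ p - Polynomial.X : Polynomial k) ≠ 0 :=
    FiniteField.X_pow_card_sub_X_ne_zero k hp
  have hsep : (Polynomial.X ^ p - Polynomial.X : Polynomial k).Separable :=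
    galois_poly_separable p p dvd_rfl
  have h1 := Polynomial.card_rootSet_eq_natDegree (K := k) hsep (IsAlgClosed.splits _)
  rw [FiniteField.X_pow_card_sub_X_natDegree_eq k hp] at h1
  rw [← Nat.card_eq_fintype_card] at h1
  refine Eq.trans (Nat.card_congr (Equiv.subtypeEquivRight fun x => ?_)) h1
  rw [Polynomial.mem_rootSet]
  simp only [map_sub, map_pow, Polynomial.aeval_X]
  rw [sub_eq_zero]
  exact ⟨fun h => ⟨hne, h⟩, fun h => h.2⟩

theorem LangC_card [Module.Finite k V] (C : V →+ V)
    (hC : ∀ (c : k) (v : V), C (c ^ p • v) = c • C v) (hinj : ∀ v, C v = 0 → v = 0) :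
    Nat.card {v : V // C v = v} = p ^ Module.finrank k V := by
  classical
  obtain ⟨b, hbF, hspan, hli⟩ := exists_linearIndependent k {v : V | C v = v}
  have htop : ⊤ ≤ Submodule.span k (Set.range ((↑) : b → V)) := by
    rw [Subtype.range_coe, hspan, LangC_span C hC hinj]
  let B : Module.Basis b k V := Module.Basis.mk hli htop
  have hBC : ∀ i, C (B i) = B i := by
    intro i
    have h1 : B i = (i : V) := Module.Basis.mk_apply hli htop i
    rw [h1]
    exact hbF i.2
  have : Fintype b := FiniteDimensional.fintypeBasisIndex B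
  have key : ∀ v : V, C v = v ↔ ∀ i, B.equivFun v i ^ p = B.equivFun v i := by
    intro v
    set c := B.equivFun v with hc
    have hv : v = ∑ i, c i • B i := (B.sum_equivFun v).symm
    choose d hd using fun i => LangC_root_p (p := p) (c i)
    have h1 : C v = ∑ i, d i • B i := by
      rw [hv, map_sum]
      refine Finset.sum_congr rfl fun i _ => ?_
      rw [← hd i, hC, hBC]
    constructor
    · intro h i
      have h2 : B.equivFun (C v) = d := by
        rw [h1, ← B.equivFun_symm_apply, LinearEquiv.apply_symm_apply]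
      rw [h] at h2
      have h3 : c i = d i := by rw [hc, h2]
      have h4 := hd i
      rw [← h3] at h4
      exact h4
    · intro h
      rw [h1]
      conv_rhs => rw [hv]
      refine Finset.sum_congr rfl fun i _ => ?_
      have h2 : d i = c i := by
        apply frobenius_inj k p
        rw [frobenius_def, frobenius_def, hd, h]
      rw [h2]
  let e : {v : V // C v = v} ≃ (b → {x : k // x ^ p = x}) :=
    (B.equivFun.toEquiv.subtypeEquiv (q := fun c : b → k => ∀ i, c i ^ p = c i) key).trans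
      { toFun := fun c i => ⟨c.1 i, c.2 i⟩
        invFun := fun f => ⟨fun i => (f i).1, fun i => (f i).2⟩
        left_inv := fun _ => rfl
        right_inv := fun _ => rfl }
  rw [Nat.card_congr e, Nat.card_fun, LangC_scalars, Module.finrank_eq_nat_card_basis B]

theorem lang_card (W : Submodule k V) [Module.Finite k W] (C : V → V)
    (hadd : ∀ v w, C (v + w) = C v + C w)
    (hC : ∀ (c : k) (v : V), C (c ^ p • v) = c • C v) (hW : ∀ v ∈ W, C v ∈ W)
    (hinj : ∀ v ∈ W, C v = 0 → v = 0) :
    Nat.card {v : V // v ∈ W ∧ C v = v} = p ^ Module.finrank k W := by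
  let CW : W →+ W := AddMonoidHom.mk' (fun w => ⟨C w, hW w w.2⟩) (by
    intro v w
    exact Subtype.ext (hadd v w))
  have h := LangC_card (p := p) CW (by
    intro c v
    exact Subtype.ext (hC c v)) (by
    intro v hv
    exact Subtype.ext (hinj v v.2 (congrArg Subtype.val hv)))
  rw [← h]
  refine Nat.card_congr ?_
  exact
    { toFun := fun v => ⟨⟨v.1, v.2.1⟩, Subtype.ext v.2.2⟩
      invFun := fun w => ⟨w.1.1, w.1.2, congrArg Subtype.val w.2⟩
      left_inv := fun _ => rfl
      right_inv := fun _ => rfl }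

end Pool.Agent.PRB
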