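import Pool.Agent.LibPRB.FixD
import Pool.Agent.LibPRB.LangC

/-!
# Ordinary case: the number of fixed points

PLAN. Let `C : Polynomial k → Polynomial k`, `(C G)_i = ` the `p`-th root of `(G W)_(p i + p - 1)` (`k` is
algebraically closed; finite sum over `i ≤ natDegree (G W)`; uniqueness of `p`-th roots in
characteristic `p`).  It is additive with `C (c ^ p • G) = c • C G`, and maps
`Polynomial.degreeLT k N` to itself: if `(G W)_(p i + p - 1) ≠ 0` then
`p i + p - 1 ≤ N - 1 + (p - 1) (N + 1)`, i.e. `p i ≤ p N - 1`, `i < N`.  `OrdP` says that it is injective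
there.  `lang_card`, `Polynomial.degreeLTEquiv` (`finrank = N`).
-/

set_option autoImplicit false

namespace Pool.Agent.PRB

variable {p : ℕ} [Fact p.Prime] {k : Type} [Field k] [IsAlgClosed k] [CharP k p]

omit [Fact p.Prime] [IsAlgClosed k] [CharP k p] in
private theorem FixO_deg {W : Polynomial k} {N : ℕ} (hp : 0 < p)
    (hW : W.natDegree ≤ (p - 1) * (N + 1)) {B : Polynomial k} (hB : B.degree < (N : ℕ)) {i : ℕ}
    (hi : N ≤ i) : (B * W).coeff (p * i + (p - 1)) = 0 := by
  by_cases hB0 : B = 0
  · rw [hB0, zero_mul, Polynomial.coeff_zero]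
  apply Polynomial.coeff_eq_zero_of_natDegree_lt
  have h1 : B.natDegree < N := by
    rw [Polynomial.degree_eq_natDegree hB0] at hB
    exact_mod_cast hB
  have h2 := Polynomial.natDegree_mul_le (p := B) (q := W)
  obtain ⟨m, rfl⟩ : ∃ m, p = m + 1 := ⟨p - 1, by omega⟩
  rw [Nat.add_sub_cancel] at hW ⊢
  have h3 : m * N ≤ m * i := Nat.mul_le_mul_left m hi
  have h4 : m * (N + 1) = m * N + m := by ring
  have h5 : (m + 1) * i = m * i + i := by ring
  omega

private theorem FixO_root : ∃ R : k →+ k, (∀ x, R x ^ p = x) ∧ (∀ x, R (x ^ p) = x) ∧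
    ∀ x y, R (x * y) = R x * R y := by
  have : ExpChar k p := ExpChar.prime Fact.out
  have : PerfectRing k p := inferInstance
  refine ⟨((frobeniusEquiv k p).symm : k ≃+* k).toAddEquiv.toAddMonoidHom, ?_, ?_, ?_⟩
  · intro x
    exact frobeniusEquiv_symm_pow_p k p x
  · intro x
    exact (frobeniusEquiv k p).symm_apply_apply x
  · intro x y
    exact map_mul (frobeniusEquiv k p).symm x y

theorem fixP_of_ordP (W : Polynomial k) (N : ℕ) (hW : W.natDegree ≤ (p - 1) * (N + 1))
    (h : OrdP p W N) : FixP p W N N := by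
  have hp : p.Prime := Fact.out
  obtain ⟨R, hR1, hR2, hR3⟩ := FixO_root (p := p) (k := k)
  obtain ⟨C, hC⟩ : ∃ C : Polynomial k → Polynomial k, C = fun G => ∑ i ∈ Finset.range N,
    Polynomial.monomial i (R ((G * W).coeff (p * i + (p - 1)))) := ⟨_, rfl⟩
  have hcoeff : ∀ G i, (C G).coeff i = if i < N then R ((G * W).coeff (p * i + (p - 1))) else 0 := by
    intro G i
    rw [hC, Polynomial.finsetSum_coeff]
    simp only [Polynomial.coeff_monomial]
    rw [Finset.sum_ite_eq']
    simp only [Finset.mem_range]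
  have hfin : Module.Finite k (Polynomial.degreeLT k N) :=
    Module.Finite.equiv (Polynomial.degreeLTEquiv k N).symm
  have hrank : Module.finrank k (Polynomial.degreeLT k N) = N := by
    rw [(Polynomial.degreeLTEquiv k N).finrank_eq, Module.finrank_fin_fun]
  have key := lang_card (p := p) (Polynomial.degreeLT k N) C ?_ ?_ ?_ ?_
  · rw [hrank] at key
    unfold FixP
    rw [← key]
    refine Nat.card_congr (Equiv.subtypeEquivRight fun B => ?_)
    rw [Polynomial.mem_degreeLT]
    refine and_congr_right fun hB => ?_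
    constructor
    · intro h1
      ext i
      rw [hcoeff]
      by_cases hi : i < N
      · rw [if_pos hi, ← h1 i, hR2]
      · rw [if_neg hi, eq_comm]
        exact Polynomial.coeff_eq_zero_of_degree_lt (hB.trans_le (by exact_mod_cast not_lt.1 hi))
    · intro h1 i
      by_cases hi : i < N
      · conv_lhs => rw [← h1]
        rw [hcoeff, if_pos hi, hR1]
      · rw [FixO_deg hp.pos hW hB (not_lt.1 hi), Polynomial.coeff_eq_zero_of_degree_lt
          (hB.trans_le (by exact_mod_cast not_lt.1 hi)), zero_pow hp.ne_zero]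
  · intro v w
    ext i
    rw [Polynomial.coeff_add, hcoeff, hcoeff, hcoeff]
    by_cases hi : i < N
    · rw [if_pos hi, if_pos hi, if_pos hi, add_mul, Polynomial.coeff_add, map_add]
    · rw [if_neg hi, if_neg hi, if_neg hi, add_zero]
  · intro c v
    ext i
    rw [Polynomial.coeff_smul, hcoeff, hcoeff]
    by_cases hi : i < N
    · rw [if_pos hi, if_pos hi, Polynomial.smul_eq_C_mul, mul_assoc, Polynomial.coeff_C_mul, hR3,
        hR2, smul_eq_mul]
    · rw [if_neg hi, if_neg hi, smul_zero]
  · intro v _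
    rw [Polynomial.mem_degreeLT, Polynomial.degree_lt_iff_coeff_zero]
    intro m hm
    rw [hcoeff, if_neg (not_lt.2 hm)]
  · intro v hv hv0
    rw [Polynomial.mem_degreeLT] at hv
    apply h v hv
    intro i
    by_cases hi : i < N
    · have h1 := hcoeff v i
      rw [hv0, Polynomial.coeff_zero, if_pos hi] at h1
      have h2 := hR1 ((v * W).coeff (p * i + (p - 1)))
      rw [← h1, zero_pow hp.ne_zero] at h2
      exact h2.symm
    · exact FixO_deg hp.pos hW hv (not_lt.1 hi)

end Pool.Agent.PRB
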