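import Pool.Agent.LibPRB.Desc
import Pool.Agent.LibPRB.DescF

/-! # The fixed field and its descent -/

set_option autoImplicit false

namespace Pool.Agent.PRB

/-- The fixed field of an endomorphism. -/
def Fixed_X {k L : Type} [Field k] [Field L] [Algebra k L] (σ : L →ₐ[k] L) :
    IntermediateField k L where
  carrier := {a | σ a = a}
  mul_mem' := by
    intro a b (ha : σ a = a) (hb : σ b = b)
    change σ (a * b) = a * b
    rw [map_mul, ha, hb]
  add_mem' := by
    intro a b (ha : σ a = a) (hb : σ b = b)
    change σ (a + b) = a + b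
    rw [map_add, ha, hb]
  algebraMap_mem' := fun c => σ.commutes c
  inv_mem' := by
    intro a (ha : σ a = a)
    change σ a⁻¹ = a⁻¹
    rw [map_inv₀, ha]

theorem Fixed_mem {k L : Type} [Field k] [Field L] [Algebra k L] (σ : L →ₐ[k] L) (a : L) :
    a ∈ Fixed_X σ ↔ σ a = a := Iff.rfl

/-- Finiteness over the subfield generated by a power. -/
theorem Fixed_finite_pow {k L : Type} [Field k] [Field L] [Algebra k L] (s : L)
    (hfin : Module.Finite (IntermediateField.adjoin k {s}) L) (n : ℕ) (hn : 0 < n) :
    Module.Finite (IntermediateField.adjoin k {s ^ n}) L := by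
  set K2 := IntermediateField.adjoin k {s ^ n} with hK2
  have hint : IsIntegral K2 s := by
    refine ⟨Polynomial.X ^ n - Polynomial.C ⟨s ^ n, IntermediateField.mem_adjoin_simple_self k _⟩,
      Polynomial.monic_X_pow_sub_C _ hn.ne', ?_⟩
    simp only [Polynomial.eval₂_sub, Polynomial.eval₂_X_pow, Polynomial.eval₂_C]
    exact sub_self _
  have h1 : Module.Finite K2 (IntermediateField.adjoin K2 {s}) :=
    IntermediateField.adjoin.finiteDimensional hint
  have hle : IntermediateField.adjoin k {s} ≤
      (IntermediateField.adjoin K2 {s}).restrictScalars k := by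
    rw [IntermediateField.adjoin_simple_le_iff]
    exact IntermediateField.mem_adjoin_simple_self K2 s
  have h2 : Module.Finite (IntermediateField.adjoin K2 {s}) L := by
    obtain ⟨S, hS⟩ := hfin
    refine ⟨S, ?_⟩
    rw [eq_top_iff]
    intro a _
    have ha : a ∈ Submodule.span (IntermediateField.adjoin k {s}) (S : Set L) := by
      rw [hS]; trivial
    refine Submodule.span_induction (p := fun a _ =>
      a ∈ Submodule.span (IntermediateField.adjoin K2 {s}) (S : Set L)) ?_ ?_ ?_ ?_ ha
    · intro x hx
      exact Submodule.subset_span hx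
    · exact Submodule.zero_mem _
    · intro x y _ _ hx hy
      exact Submodule.add_mem _ hx hy
    · intro c x _ hx
      have hc : (c : L) ∈ IntermediateField.adjoin K2 {s} := hle c.2
      have := Submodule.smul_mem _ (⟨(c : L), hc⟩ : IntermediateField.adjoin K2 {s}) hx
      exact this
  exact Module.Finite.trans (IntermediateField.adjoin K2 {s}) L

theorem Fixed_sub_finite {k L : Type} [Field k] [Field L] [Algebra k L]
    (X : IntermediateField k L) (x : X)
    (hfin : Module.Finite (IntermediateField.adjoin k {(x : L)}) L) :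
    Module.Finite (IntermediateField.adjoin k {x}) X := by
  set K1 := IntermediateField.adjoin k {x} with hK1
  have hmap : K1.map X.val = IntermediateField.adjoin k {(x : L)} := by
    rw [hK1, IntermediateField.adjoin_map, Set.image_singleton]
    rfl
  -- `L` is finite over `K1`
  have hL : (algebraMap K1 L).Finite := by
    have hfin' : Module.Finite (K1.map X.val) L := by rw [hmap]; exact hfin
    let e := IntermediateField.equivMap K1 X.val
    have h1 : (algebraMap (K1.map X.val) L).Finite := hfin'
    have h2 : (e : K1 →+* K1.map X.val).Finite := RingHom.Finite.of_surjective _ e.surjective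
    have h3 := h1.comp h2
    have h4 : (algebraMap K1 L) = (algebraMap (K1.map X.val) L).comp (e : K1 →+* K1.map X.val) := by
      ext a
      rfl
    rw [h4]
    exact h3
  have hL' : Module.Finite K1 L := hL
  have : IsNoetherian K1 L := inferInstance
  let f : X →ₗ[K1] L :=
    { toFun := fun a => (a : L)
      map_add' := fun a b => rfl
      map_smul' := fun c a => rfl }
  exact Module.Finite.of_injective f (fun a b h => Subtype.ext h)

/-- The fixed field of an endomorphism of finite order, and the descent to `F_p` of a function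
field with a semilinear Frobenius commuting with it. -/
theorem exists_fixed (p : ℕ) [Fact p.Prime] (k : Type) [Field k] [Algebra (ZMod p) k]
    [Algebra.IsAlgebraic (ZMod p) k] [IsAlgClosed k] (L : Type) [Field L] [Algebra k L]
    (s : L) (hs : Transcendental k s) (hfin : Module.Finite (IntermediateField.adjoin k {s}) L)
    (n : ℕ) (hn : 0 < n) (σ : L →ₐ[k] L) (hσ : ∀ a, σ^[n] a = a) (hσs : σ (s ^ n) = s ^ n)
    (φ : L →+* L) (hφ : ∀ c : k, φ (algebraMap k L c) = algebraMap k L (c ^ p))
    (hφs : φ s = s) (hφσ : ∀ a, φ (σ a) = σ (φ a)) (hφn : ∀ a, ∃ m > 0, φ^[m] a = a) :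
    ∃ (X : Type) (_ : Field X) (_ : Algebra k X) (_ : Algebra X L) (_ : IsScalarTower k X L),
      (∀ a : L, (∃ b : X, algebraMap X L b = a) ↔ σ a = a) ∧ IsFunctionField k X ∧
      ∃ (F₀ : Type) (_ : Field F₀) (_ : Algebra (ZMod p) F₀), IsFunctionField (ZMod p) F₀ ∧
        Nonempty (TensorProduct (ZMod p) k F₀ ≃ₐ[k] X) := by
  have hmem : s ^ n ∈ Fixed_X σ := hσs
  set x : Fixed_X σ := ⟨s ^ n, hmem⟩ with hx
  have htr : Transcendental k x := by
    intro halg
    have h1 : IsAlgebraic k (s ^ n) := by
      have := halg.algHom (Fixed_X σ).val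
      exact this
    exact hs (h1.of_pow hn)
  have hfinX : Module.Finite (IntermediateField.adjoin k {x}) (Fixed_X σ) :=
    Fixed_sub_finite (Fixed_X σ) x (Fixed_finite_pow s hfin n hn)
  let φX : Fixed_X σ →+* Fixed_X σ :=
    { toFun := fun a => ⟨φ a, by
        have ha : σ (a : L) = a := a.2
        change σ (φ a) = φ a
        rw [← hφσ, ha]⟩
      map_one' := Subtype.ext (map_one φ)
      map_mul' := fun a b => Subtype.ext (map_mul φ _ _)
      map_zero' := Subtype.ext (map_zero φ)
      map_add' := fun a b => Subtype.ext (map_add φ _ _) }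
  have hφX : ∀ c : k, φX (algebraMap k (Fixed_X σ) c) = algebraMap k (Fixed_X σ) (c ^ p) :=
    fun c => Subtype.ext (hφ c)
  have hit : ∀ (m : ℕ) (a : Fixed_X σ), ((φX^[m] a : Fixed_X σ) : L) = φ^[m] (a : L) := by
    intro m
    induction m with
    | zero => intro a; rfl
    | succ m ih =>
      intro a
      rw [Function.iterate_succ_apply, Function.iterate_succ_apply, ih]
      rfl
  have hφXn : ∀ a : Fixed_X σ, ∃ m > 0, φX^[m] a = a := by
    intro a
    obtain ⟨m, hm, h⟩ := hφn a
    exact ⟨m, hm, Subtype.ext (by rw [hit, h])⟩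
  obtain ⟨F₀, i1, i2, ι, hι, e, he⟩ := exists_descent p k (Fixed_X σ) φX hφX hφXn
  refine ⟨Fixed_X σ, inferInstance, inferInstance, inferInstance, inferInstance, ?_,
    ⟨x, htr, hfinX⟩, F₀, i1, i2, ?_, ⟨e⟩⟩
  · intro a
    constructor
    · rintro ⟨b, rfl⟩
      exact b.2
    · intro ha
      exact ⟨⟨a, ha⟩, rfl⟩
  · have hx' : φX x = x := Subtype.ext (by
      change φ (s ^ n) = s ^ n
      rw [map_pow, hφs])
    obtain ⟨b, hb⟩ := (hι x).2 hx'
    have hb' : e (TensorProduct.tmul (ZMod p) 1 b) = x := by rw [he, hb]
    exact functionField_descent p k (Fixed_X σ) F₀ e b (by rw [hb']; exact htr)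
      (by rw [hb']; exact hfinX)

end Pool.Agent.PRB
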