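import Pool.Agent.LibPRB.PBa
import Pool.Agent.LibPRB.Diff

/-! # Function fields with their places; regular and logarithmic differentials -/

set_option autoImplicit false

namespace Pool.Agent.PRB

/-- `K/k` is a field with `p`-basis `s`, `D = d/ds`, such that all places are discrete with residue
field `k`, `ds` has a well-defined order at each place, and functions have finitely many zeros and
poles. -/
structure GF (p : ℕ) {k K : Type} [Field k] [Field K] [Algebra k K] (s : K)
    (D : Derivation k K K) : Prop where
  pb : PB p s D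
  disc : ∀ O : ValuationSubring K, IsPl k O → ∃ P : Plc k K, P.ring = O
  diff : ∀ P : Plc k K, ∃ δ, IsDiff P D δ
  fsupp : ∀ a : K, a ≠ 0 → {P : Plc k K | P.ord a ≠ 0}.Finite

/-- The space of the `a` such that `a ds` is regular everywhere. -/
def regSp {k K : Type} [Field k] [Field K] [Algebra k K] (D : Derivation k K K) :
    Submodule k K where
  carrier := {a | ∀ (P : Plc k K) (δ : ℤ), IsDiff P D δ → P.ge (-δ) a}
  add_mem' := fun ha hb P δ h => P.ge_add (ha P δ h) (hb P δ h)
  zero_mem' := fun P _ _ => P.ge_zero _
  smul_mem' := fun c _ ha P δ h => P.ge_smul c (ha P δ h)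

/-- The space of the `a` with `σ a = c a`. -/
def wtSp {k Y : Type} [Field k] [Field Y] [Algebra k Y] (σ : Y →ₐ[k] Y) (c : k) :
    Submodule k Y where
  carrier := {a | σ a = c • a}
  add_mem' := fun {a b} (ha : σ a = c • a) (hb : σ b = c • b) => by
    change σ (a + b) = c • (a + b)
    rw [map_add, ha, hb, smul_add]
  zero_mem' := by
    change σ 0 = c • (0 : Y)
    simp
  smul_mem' := fun r a (ha : σ a = c • a) => by
    change σ (r • a) = c • (r • a)
    rw [map_smul, ha, smul_comm]

theorem mem_wtSp {k Y : Type} [Field k] [Field Y] [Algebra k Y] {σ : Y →ₐ[k] Y} {c : k} {a : Y} :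
    a ∈ wtSp σ c ↔ σ a = c • a := Iff.rfl

theorem mem_regSp {k K : Type} [Field k] [Field K] [Algebra k K] {D : Derivation k K K} {a : K} :
    a ∈ regSp D ↔ ∀ (P : Plc k K) (δ : ℤ), IsDiff P D δ → P.ge (-δ) a := Iff.rfl

end Pool.Agent.PRB
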