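import Pool.Agent.LibPRB.RatN
import Pool.Agent.LibPRB.FixE

/-!
# The rational function field: fixed points of the twisted Cartier operators

PLAN. Bijection `B ↦ a = algebraMap B * ratProd R (-E)` (`rat_polSp`; injective as `ratProd ≠ 0`).  Let
`N` be the bound and `u = ratProd R (fun c => E (plC c))`, so `a = algebraMap B / u` (`ratProd R (-E) = u⁻¹`).
`car p D (a / h ^ d) = a ↔ a ^ p = -D^[p-1] (a / h ^ d)` (`PB.car_pow`, `PBa_car_eq_of`, injectivity of
`x ↦ x ^ p`).  Multiply by `u ^ p` (`iter_D_pow_mul`): `(algebraMap B) ^ p = -D^[p-1] (algebraMap B * (u ^ (p - 1) / h ^ d))`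
and `u ^ (p-1) / h ^ d = algebraMap (∏ c ∈ R, (X - C c) ^ (e c))` (`he`, zpow laws in the product).  Finally
`D^[n] (algebraMap G) = algebraMap (derivative^[n] G)` (`ratD_alg`), injectivity of `algebraMap` and
`pow_eq_deriv_pred_iff` (FixE.lean).
-/

set_option autoImplicit false

namespace Pool.Agent.PRB

variable {p : ℕ} [Fact p.Prime] {k : Type} [Field k] [IsAlgClosed k] [CharP k p]

private theorem RatF_X_sub_ne (c : k) :
    algebraMap (Polynomial k) (RatFunc k) (Polynomial.X - Polynomial.C c) ≠ 0 :=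
  RatFunc.algebraMap_ne_zero (Polynomial.X_sub_C_ne_zero c)

private theorem RatF_iter (G : Polynomial k) (n : ℕ) :
    (ratD p k)^[n] (algebraMap _ (RatFunc k) G) =
      algebraMap _ (RatFunc k) (Polynomial.derivative^[n] G) := by
  induction n generalizing G with
  | zero => rfl
  | succ n ih => rw [Function.iterate_succ_apply, ratD_alg, ih, Function.iterate_succ_apply]

theorem rat_card_fix (R : Finset k) (m : k → ℤ) (d : ℕ) (E : Plc k (RatFunc k) → ℤ)
    (hE : ∀ c ∉ R, E (plC c) = 0) (e : k → ℕ)
    (he : ∀ c ∈ R, (e c : ℤ) = (p - 1) * E (plC c) - d * m c) :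
    Nat.card {a : RatFunc k // a ∈ polSp (ratD p k) E ∧
        car p (ratD p k) (a / ratProd R m ^ d) = a} =
      Nat.card {B : Polynomial k //
        B.degree < (((∑ c ∈ R, E (plC c)) + E (plI k) - 1).toNat : ℕ) ∧
        ∀ i, B.coeff i ^ p = (B * ∏ c ∈ R, (Polynomial.X - Polynomial.C c) ^ (e c)).coeff
          (p * i + (p - 1))} := by
  have hp2 := (Fact.out : p.Prime).two_le
  have hpb := ratD_pb (p := p) (k := k)
  have hAinj : Function.Injective (algebraMap (Polynomial k) (RatFunc k)) :=
    RatFunc.algebraMap_injective k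
  have hu0 : ratProd R (fun c => E (plC c)) ≠ 0 := ratProd_ne R _
  have hui : ratProd R (fun c => -E (plC c)) * ratProd R (fun c => E (plC c)) = 1 := by
    unfold ratProd
    rw [← Finset.prod_mul_distrib]
    apply Finset.prod_eq_one
    intro c _
    rw [← zpow_add₀ (RatF_X_sub_ne c), neg_add_cancel, zpow_zero]
  have hui0 : ratProd R (fun c => -E (plC c)) ≠ 0 := ratProd_ne R _
  set W : Polynomial k := ∏ c ∈ R, (Polynomial.X - Polynomial.C c) ^ (e c) with hW
  have hAW : ratProd R (fun c => E (plC c)) ^ (p - 1) / ratProd R m ^ d =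
      algebraMap (Polynomial k) (RatFunc k) W := by
    unfold ratProd
    rw [← Finset.prod_pow, ← Finset.prod_pow, ← Finset.prod_div_distrib, hW, map_prod]
    apply Finset.prod_congr rfl
    intro c hc
    have hx := RatF_X_sub_ne c
    rw [map_pow, ← zpow_natCast, ← zpow_mul, ← zpow_natCast, ← zpow_mul, ← zpow_sub₀ hx,
      ← zpow_natCast (algebraMap (Polynomial k) (RatFunc k) (Polynomial.X - Polynomial.C c)) (e c),
      he c hc]
    congr 1
    rw [Nat.cast_sub (by omega)]
    push_cast
    ring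
  have key : ∀ B : Polynomial k,
      car p (ratD p k) (algebraMap _ (RatFunc k) B * ratProd R (fun c => -E (plC c)) /
        ratProd R m ^ d) = algebraMap _ (RatFunc k) B * ratProd R (fun c => -E (plC c)) ↔
      ∀ i, B.coeff i ^ p = (B * W).coeff (p * i + (p - 1)) := by
    intro B
    rw [← pow_eq_deriv_pred_iff B (B * W)]
    set u : RatFunc k := ratProd R (fun c => E (plC c)) with hu
    set ui : RatFunc k := ratProd R (fun c => -E (plC c)) with huidef
    set h : RatFunc k := ratProd R m with hh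
    have e1 : u ^ p * (algebraMap _ (RatFunc k) B * ui / h ^ d) =
        algebraMap _ (RatFunc k) (B * W) := by
      rw [map_mul, ← hAW]
      have e2 : u ^ p = u ^ (p - 1) * u := by
        rw [← pow_succ]
        congr 1
        omega
      rw [e2]
      calc u ^ (p - 1) * u * (algebraMap _ (RatFunc k) B * ui / h ^ d) =
            algebraMap _ (RatFunc k) B * (u ^ (p - 1) / h ^ d) * (ui * u) := by ring
        _ = _ := by rw [hui, mul_one]
    have e3 : u ^ p * (algebraMap _ (RatFunc k) B * ui) ^ p =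
        algebraMap _ (RatFunc k) (B ^ p) := by
      rw [map_pow, ← mul_pow]
      congr 1
      calc u * (algebraMap _ (RatFunc k) B * ui) = algebraMap _ (RatFunc k) B * (ui * u) := by ring
        _ = _ := by rw [hui, mul_one]
    have e4 : u ^ p * (ratD p k)^[p - 1] (algebraMap _ (RatFunc k) B * ui / h ^ d) =
        algebraMap _ (RatFunc k) (Polynomial.derivative^[p - 1] (B * W)) := by
      rw [← iter_D_pow_mul, e1, RatF_iter]
    constructor
    · intro h1
      have h2 := hpb.car_pow (algebraMap _ (RatFunc k) B * ui / h ^ d)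
      rw [h1] at h2
      have h3 := congrArg (fun x => u ^ p * x) h2
      have h3' : u ^ p * (algebraMap _ (RatFunc k) B * ui) ^ p = u ^ p *
        -(ratD p k)^[p - 1] (algebraMap _ (RatFunc k) B * ui / h ^ d) := h3
      rw [mul_neg, e3, e4, ← map_neg] at h3'
      exact hAinj h3'
    · intro h1
      apply PB.PBa_car_eq_of
      apply mul_left_cancel₀ (pow_ne_zero p hu0)
      rw [mul_neg, e3, e4, ← map_neg, h1]
  refine (Nat.card_eq_of_bijective (fun B : {B : Polynomial k //
        B.degree < (((∑ c ∈ R, E (plC c)) + E (plI k) - 1).toNat : ℕ) ∧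
        ∀ i, B.coeff i ^ p = (B * W).coeff (p * i + (p - 1))} =>
      (⟨algebraMap _ (RatFunc k) B.1 * ratProd R (fun c => -E (plC c)),
        (rat_polSp R E hE _).2 ⟨B.1, B.2.1, rfl⟩, (key B.1).2 B.2.2⟩ :
        {a : RatFunc k // a ∈ polSp (ratD p k) E ∧
          car p (ratD p k) (a / ratProd R m ^ d) = a})) ⟨?_, ?_⟩).symm
  · intro B B' hBB
    have h1 : algebraMap _ (RatFunc k) B.1 * ratProd R (fun c => -E (plC c)) =
        algebraMap _ (RatFunc k) B'.1 * ratProd R (fun c => -E (plC c)) := congrArg Subtype.val hBB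
    exact Subtype.ext (hAinj (mul_right_cancel₀ hui0 h1))
  · rintro ⟨a, ha1, ha2⟩
    obtain ⟨B, hB1, rfl⟩ := (rat_polSp R E hE a).1 ha1
    exact ⟨⟨B, hB1, (key B).1 ha2⟩, rfl⟩

end Pool.Agent.PRB
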