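import Pool.Agent.LibPRB.TwCnt
import Pool.Agent.LibPRB.Lang
import Pool.Agent.LibPRB.CarPl

/-!
# The cover `w ^ p = h w + v`: fixed points of the Cartier operator

PLAN. Copy LogL.lean (`Fil`, `car_mem_Fil`, `LogL_co_car`, `card_Fil_succ`) without the conditions on
`sig` / `ζ`: `Fil m` = the `a ∈ regSp D'` with `A.tw.co a d = 0` for all `d ≥ m`.  It is stable under
`car p D'` (`car_ge` as in `car_mem_Fil`; `co_car_tw`), and for `a ∈ Fil (m + 1)`
`A.tw.co (car p D' a) m = car p D (A.tw.co a m / h ^ m)` (`co_car_tw`, only `d = m` contributes).  By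
`lang_surjective_sub` (Lang.lean) the fixed points of `Fil (m + 1)` map onto the fixed points of
`c ↦ car p D (c / h ^ m)` in `polSp D (twc p h v m)` with kernel the fixed points of `Fil m`.  `Fil 0 = 0`,
`Fil p = regSp D'`.  Use `PB.of_Tw` for the `p`-basis of `L`, `TwS.mem_regSp`, `TwS.finrank`.
-/

set_option autoImplicit false

namespace Pool.Agent.PRB

variable {p : ℕ} [Fact p.Prime] {k K L : Type} [Field k] [IsAlgClosed k] [CharP k p] [Field K]
  [Field L] [Algebra k K] [Algebra k L] [Algebra K L] [IsScalarTower k K L] {s : K}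
  {D : Derivation k K K} {h v : K} {w : L} {D' : Derivation k L L}

/-- The regular differentials whose coefficients of `w ^ d`, `d ≥ m`, vanish. -/
def TwCrd_Fil (A : TwS p s D h v w D') (m : ℕ) : Submodule k L where
  carrier := {a | a ∈ regSp D' ∧ ∀ d, m ≤ d → A.tw.co a d = 0}
  add_mem' := fun ha hb => ⟨add_mem ha.1 hb.1,
    fun d hd => by rw [A.tw.co_add, ha.2 d hd, hb.2 d hd, add_zero]⟩
  zero_mem' := ⟨zero_mem _, fun d _ => A.tw.co_zero d⟩
  smul_mem' := fun r a ha => ⟨Submodule.smul_mem _ r ha.1, fun d hd => by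
      rw [Algebra.smul_def, IsScalarTower.algebraMap_apply k K L, A.tw.co_mul, ha.2 d hd,
        mul_zero]⟩

theorem TwCrd_mem {A : TwS p s D h v w D'} {m : ℕ} {a : L} :
    a ∈ TwCrd_Fil A m ↔ a ∈ regSp D' ∧ ∀ d, m ≤ d → A.tw.co a d = 0 := Iff.rfl

theorem TwCrd_pb (A : TwS p s D h v w D') : PB p (algebraMap K L s) D' := by
  haveI : CharP K p := charP_of_injective_algebraMap (algebraMap k K).injective p
  exact PB.of_Tw A.tw A.h0 A.gf.pb D' A.D_alg

theorem TwCrd_co_car [CharP K p] (A : TwS p s D h v w D') (m : ℕ) (hm : m < p) (a : L)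
    (ha : a ∈ TwCrd_Fil A (m + 1)) :
    A.tw.co (car p D' a) m = car p D (A.tw.co a m / h ^ m) := by
  rw [co_car_tw A.tw A.h0 A.gf.pb D' A.D_alg a m, Finset.sum_eq_single m]
  · simp
  · intro d hd hdm
    rw [Finset.mem_Ico] at hd
    rw [ha.2 d (by omega), zero_mul, zero_div, A.gf.pb.car_zero, mul_zero]
  · intro h
    exact absurd (Finset.mem_Ico.mpr ⟨le_rfl, hm⟩) h

theorem TwCrd_car_mem (A : TwS p s D h v w D') (m : ℕ) (a : L)
    (ha : a ∈ TwCrd_Fil A m) : car p D' a ∈ TwCrd_Fil A m := by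
  haveI : CharP K p := charP_of_injective_algebraMap (algebraMap k K).injective p
  haveI : CharP L p := charP_of_injective_algebraMap (algebraMap k L).injective p
  have hp : p.Prime := Fact.out
  rw [TwCrd_mem] at ha ⊢
  obtain ⟨h1, h3⟩ := ha
  refine ⟨?_, ?_⟩
  · rw [mem_regSp] at h1 ⊢
    intro P δ hP
    have h4 := h1 P δ hP
    have h5 := car_ge (TwCrd_pb A) hP 0 (a := a) (by simpa using h4)
    have h6 : (0 + p - 1) / p = 0 := Nat.div_eq_of_lt (by have := hp.pos; omega)
    rw [h6] at h5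
    simpa using h5
  · intro l hl
    rw [co_car_tw A.tw A.h0 A.gf.pb D' A.D_alg a l]
    apply Finset.sum_eq_zero
    intro d hd
    rw [Finset.mem_Ico] at hd
    rw [h3 d (by omega), zero_mul, zero_div, A.gf.pb.car_zero, mul_zero]

/-- The fixed vectors of the Cartier operator in the filtration. -/
def TwCrd_fix [CharP L p] (A : TwS p s D h v w D') (m : ℕ) : AddSubgroup L where
  carrier := {a | a ∈ TwCrd_Fil A m ∧ car p D' a = a}
  add_mem' := fun ha hb => ⟨add_mem ha.1 hb.1, by rw [(TwCrd_pb A).car_add, ha.2, hb.2]⟩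
  zero_mem' := ⟨zero_mem _, (TwCrd_pb A).car_zero⟩
  neg_mem' := fun ha => ⟨neg_mem ha.1, by rw [(TwCrd_pb A).car_neg, ha.2]⟩

/-- The target. -/
def TwCrd_tgt [CharP K p] (A : TwS p s D h v w D') (m : ℕ) : AddSubgroup K where
  carrier := {c | c ∈ polSp D (twc p h v m) ∧ car p D (c / h ^ m) = c}
  add_mem' := fun ha hb => ⟨add_mem ha.1 hb.1, by rw [add_div, A.gf.pb.car_add, ha.2, hb.2]⟩
  zero_mem' := ⟨zero_mem _, by rw [zero_div, A.gf.pb.car_zero]⟩
  neg_mem' := fun ha => ⟨neg_mem ha.1, by rw [neg_div, A.gf.pb.car_neg, ha.2]⟩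

theorem TwCrd_succ (A : TwS p s D h v w D')
    (hfin : ∀ d < p, Module.Finite k (polSp D (twc p h v d))) (m : ℕ) (hm : m < p) :
    Nat.card {a : L // a ∈ TwCrd_Fil A (m + 1) ∧ car p D' a = a} =
      Nat.card {a : L // a ∈ TwCrd_Fil A m ∧ car p D' a = a} *
      Nat.card {c : K // c ∈ polSp D (twc p h v m) ∧ car p D (c / h ^ m) = c} := by
  haveI : CharP K p := charP_of_injective_algebraMap (algebraMap k K).injective p
  haveI : CharP L p := charP_of_injective_algebraMap (algebraMap k L).injective p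
  have hp : p.Prime := Fact.out
  -- the map to the top coefficient
  let φ : TwCrd_fix A (m + 1) →+ TwCrd_tgt A m :=
    { toFun := fun a => ⟨A.tw.co a.1 m, by
        obtain ⟨ha, hca⟩ := a.2
        refine ⟨(A.mem_regSp a.1).mp ha.1 m hm, ?_⟩
        rw [← TwCrd_co_car A m hm a.1 ha, hca]⟩
      map_zero' := by
        apply Subtype.ext
        exact A.tw.co_zero m
      map_add' := fun a b => by
        apply Subtype.ext
        exact A.tw.co_add a.1 b.1 m }
  have hφ : ∀ a, (φ a).1 = A.tw.co a.1 m := fun _ => rfl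
  -- surjectivity
  have hsurj : Function.Surjective φ := by
    rintro ⟨c, hc1, hc3⟩
    obtain ⟨a0, ha0⟩ : ∃ a0 : L, a0 = algebraMap K L c * w ^ m := ⟨_, rfl⟩
    have hco : ∀ i, A.tw.co a0 i = if i = m then c else 0 := fun i => by
      rw [ha0]
      exact A.tw.co_mul_w_pow c hm i
    have ha0F : a0 ∈ TwCrd_Fil A (m + 1) := by
      rw [TwCrd_mem]
      refine ⟨?_, ?_⟩
      · rw [A.mem_regSp]
        intro d hd
        rw [hco]
        split_ifs with h
        · rw [h]; exact hc1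
        · exact zero_mem _
      · intro d hd
        rw [hco, if_neg (by omega)]
    have hu : car p D' a0 - a0 ∈ TwCrd_Fil A m := by
      have h1 : car p D' a0 - a0 ∈ TwCrd_Fil A (m + 1) :=
        sub_mem (TwCrd_car_mem A _ _ ha0F) ha0F
      rw [TwCrd_mem] at h1 ⊢
      refine ⟨h1.1, ?_⟩
      intro d hd
      rcases Nat.eq_or_lt_of_le hd with h | h
      · rw [← h, A.tw.co_sub, TwCrd_co_car A m hm a0 ha0F, hco, if_pos rfl, hc3, sub_self]
      · exact h1.2 d h
    have hfin : Module.Finite k (TwCrd_Fil A m) := by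
      haveI := (A.finrank hfin).1
      exact Submodule.finiteDimensional_of_le (S₂ := regSp D') (fun a ha => ha.1)
    obtain ⟨v', hv, hv2⟩ := lang_surjective_sub (p := p) (TwCrd_Fil A m) (car p D')
      (TwCrd_pb A).car_add (TwCrd_pb A).car_smul (fun v hv => TwCrd_car_mem A m v hv) _ hu
    have hvF : v' ∈ TwCrd_Fil A (m + 1) := ⟨hv.1, fun d hd => hv.2 d (by omega)⟩
    refine ⟨⟨a0 + v', add_mem ha0F hvF, ?_⟩, ?_⟩
    · rw [(TwCrd_pb A).car_add]
      linear_combination -hv2
    · apply Subtype.ext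
      rw [hφ]
      change A.tw.co (a0 + v') m = c
      rw [A.tw.co_add, hco, if_pos rfl, hv.2 m le_rfl, add_zero]
  -- kernel
  have hker : Nat.card φ.ker = Nat.card {a : L // a ∈ TwCrd_Fil A m ∧ car p D' a = a} := by
    apply Nat.card_congr
    refine ⟨fun a => ⟨a.1.1, ?_, a.1.2.2⟩, fun a => ⟨⟨a.1, ⟨a.2.1.1,
      fun d hd => a.2.1.2 d (by omega)⟩, a.2.2⟩, ?_⟩, fun a => rfl, fun a => rfl⟩
    · have h1 := a.1.2.1
      have h2 : A.tw.co a.1.1 m = 0 := by
        have := a.2
        rw [AddMonoidHom.mem_ker] at this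
        rw [← hφ, this]
        rfl
      refine ⟨h1.1, fun d hd => ?_⟩
      rcases Nat.eq_or_lt_of_le hd with h | h
      · rw [← h, h2]
      · exact h1.2 d h
    · rw [AddMonoidHom.mem_ker]
      apply Subtype.ext
      rw [hφ]
      exact a.2.1.2 m le_rfl
  have h1 : Nat.card (TwCrd_fix A (m + 1)) = Nat.card (TwCrd_fix A (m + 1) ⧸ φ.ker) *
      Nat.card φ.ker := AddSubgroup.card_eq_card_quotient_mul_card_addSubgroup φ.ker
  have h2 : Nat.card (TwCrd_fix A (m + 1) ⧸ φ.ker) = Nat.card (TwCrd_tgt A m) :=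
    Nat.card_congr (QuotientAddGroup.quotientKerEquivOfSurjective φ hsurj).toEquiv
  rw [h2, hker, mul_comm] at h1
  exact h1

theorem TwS.card (A : TwS p s D h v w D')
    (hfin : ∀ d < p, Module.Finite k (polSp D (twc p h v d))) :
    Nat.card {a : L // a ∈ regSp D' ∧ car p D' a = a} =
      ∏ d ∈ Finset.range p,
        Nat.card {c : K // c ∈ polSp D (twc p h v d) ∧ car p D (c / h ^ d) = c} := by
  haveI : CharP L p := charP_of_injective_algebraMap (algebraMap k L).injective p
  have hstep : ∀ m ≤ p, Nat.card {a : L // a ∈ TwCrd_Fil A m ∧ car p D' a = a} =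
      ∏ d ∈ Finset.range m,
        Nat.card {c : K // c ∈ polSp D (twc p h v d) ∧ car p D (c / h ^ d) = c} := by
    intro m
    induction m with
    | zero =>
      intro _
      rw [Finset.range_zero, Finset.prod_empty, Nat.card_eq_one_iff_unique]
      refine ⟨⟨fun a b => ?_⟩, ⟨⟨0, zero_mem _, (TwCrd_pb A).car_zero⟩⟩⟩
      have h1 : ∀ a : {a : L // a ∈ TwCrd_Fil A 0 ∧ car p D' a = a}, a.1 = 0 := fun a =>
        A.tw.eq_zero_iff.2 fun i _ => a.2.1.2 i (Nat.zero_le i)
      apply Subtype.ext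
      rw [h1 a, h1 b]
    | succ m ih =>
      intro hm
      rw [TwCrd_succ A hfin m (by omega), ih (by omega), Finset.prod_range_succ]
  rw [← hstep p le_rfl]
  apply Nat.card_congr
  refine Equiv.subtypeEquivRight fun a => ?_
  rw [TwCrd_mem]
  constructor
  · rintro ⟨h1, h2⟩
    exact ⟨⟨h1, fun d hd => A.tw.co_of_le a hd⟩, h2⟩
  · rintro ⟨h1, h2⟩
    exact ⟨h1.1, h2⟩

end Pool.Agent.PRB
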