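import Pool.Agent.LibPRB.TwL

/-!
# The cover `w ^ p = h w + v`: Frobenius

PLAN. `Φ` by `IsTw.lift` with `θ = (algebraMap K L).comp φ`, `x = w`.  For the last statement:
`a = ∑ i < p, algebraMap (c i) * w ^ i`; each `c i` is fixed by some `φ^[n_i]`, take
`n = ∏ n_i` (compare `ASD.phi_iter`, file ASDw.lean, and `ASDw_ind`).
-/

set_option autoImplicit false

namespace Pool.Agent.PRB

variable {p : ℕ} [Fact p.Prime] {k K L : Type} [Field k] [Field K] [Field L]
  [Algebra k K] [Algebra k L] [Algebra K L] [IsScalarTower k K L] {h v : K} {w : L}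

private theorem TwPhi_ind {K L : Type} [Field K] [Field L] [Algebra K L] {h v : K} {w : L}
    (T : IsTw p h v w) (P : L → Prop) (halg : ∀ c, P (algebraMap K L c)) (hz : P w)
    (hadd : ∀ a b, P a → P b → P (a + b)) (hmul : ∀ a b, P a → P b → P (a * b)) (a : L) : P a := by
  have hpow : ∀ i, P (w ^ i) := by
    intro i
    induction i with
    | zero => simpa using halg 1
    | succ i ih => rw [pow_succ]; exact hmul _ _ ih hz
  have hsum : ∀ (s : Finset ℕ) (c : ℕ → K), P (∑ i ∈ s, algebraMap K L (c i) * w ^ i) := by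
    intro s c
    classical
    induction s using Finset.induction_on with
    | empty => simpa using halg 0
    | insert i s hi ih =>
      rw [Finset.sum_insert hi]
      exact hadd _ _ (hmul _ _ (halg _) (hpow i)) ih
  obtain ⟨c, hc⟩ := T.repr a
  rw [hc]
  exact hsum _ c

theorem exists_phi_tw (T : IsTw p h v w) (φ : K →+* K)
    (hφc : ∀ c : k, φ (algebraMap k K c) = algebraMap k K (c ^ p))
    (hφh : φ h = h) (hφv : φ v = v) (hφn : ∀ a, ∃ n > 0, φ^[n] a = a) :
    ∃ Φ : L →+* L, (∀ a : K, Φ (algebraMap K L a) = algebraMap K L (φ a)) ∧ Φ w = w ∧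
      (∀ c : k, Φ (algebraMap k L c) = algebraMap k L (c ^ p)) ∧
      ∀ a, ∃ n > 0, Φ^[n] a = a := by
  obtain ⟨Φ, hΦ, hw⟩ := T.lift ((algebraMap K L).comp φ) w (by
    rw [RingHom.comp_apply, RingHom.comp_apply, hφh, hφv, T.eq])
  have hΦ' : ∀ a : K, Φ (algebraMap K L a) = algebraMap K L (φ a) := hΦ
  refine ⟨Φ, hΦ', hw, ?_, ?_⟩
  · intro c
    rw [IsScalarTower.algebraMap_apply k K L, hΦ', hφc, ← IsScalarTower.algebraMap_apply k K L]
  have halg : ∀ (n : ℕ) (c : K), Φ^[n] (algebraMap K L c) = algebraMap K L (φ^[n] c) := by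
    intro n c
    induction n with
    | zero => rfl
    | succ n ih => rw [Function.iterate_succ_apply', ih, hΦ', Function.iterate_succ_apply']
  intro a
  refine TwPhi_ind T (fun a => ∃ n > 0, Φ^[n] a = a) ?_ ?_ ?_ ?_ a
  · intro c
    obtain ⟨n, hn, h⟩ := hφn c
    exact ⟨n, hn, by rw [halg, h]⟩
  · exact ⟨1, one_pos, hw⟩
  · rintro a b ⟨n, hn, ha⟩ ⟨m, hm, hb⟩
    have h1 : Φ^[n * m] a = a := Function.IsPeriodicPt.mul_const ha m
    have h2 : Φ^[n * m] b = b := Function.IsPeriodicPt.const_mul hb n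
    exact ⟨n * m, Nat.mul_pos hn hm, by rw [iterate_map_add, h1, h2]⟩
  · rintro a b ⟨n, hn, ha⟩ ⟨m, hm, hb⟩
    have h1 : Φ^[n * m] a = a := Function.IsPeriodicPt.mul_const ha m
    have h2 : Φ^[n * m] b = b := Function.IsPeriodicPt.const_mul hb n
    exact ⟨n * m, Nat.mul_pos hn hm, by rw [iterate_map_mul, h1, h2]⟩

end Pool.Agent.PRB
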