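import Pool.Agent.LibPRB.TwReg
import Pool.Agent.LibPRB.TwPhi
import Pool.Agent.LibPRB.Fixed
import Pool.Agent.LibPRB.Kah
import Pool.Agent.LibPRB.Cls

/-!
# The cover `w ^ p = h w + v` as a curve over `F_p`

PLAN. `exists_phi_tw` gives `Φ : L →+* L`; `exists_descent p k L Φ` (Desc.lean) gives `F₀`, `e`; `IsFunctionField
k L` with the element `x = algebraMap K L s`: transcendental (`hs`, `algebraMap` injective) and
`Module.Finite (IntermediateField.adjoin k {x}) L` (tower: `L/K` is finite by `A.tw.finite`, `K/k(s)` by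
`hfin`; see `Fixed_sub_finite` or `ASD.ff` for the handling of the intermediate fields);
`functionField_descent` gives `IsFunctionField (ZMod p) F₀` (as at the end of Fixed.lean, with `Φ x = x`).
`genus_eq A.gf'` (Kah.lean), `card_torsion A.gf'` (Cls.lean).
-/

set_option autoImplicit false

namespace Pool.Agent.PRB

theorem TwCur_fin {k K L : Type} [Field k] [Field K] [Field L] [Algebra k K] [Algebra k L]
    [Algebra K L] [IsScalarTower k K L] (s : K) (hKL : Module.Finite K L)
    (hfin : Module.Finite (IntermediateField.adjoin k {s}) K) :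
    Module.Finite (IntermediateField.adjoin k {algebraMap K L s}) L := by
  set f : K →ₐ[k] L := IsScalarTower.toAlgHom k K L with hf
  set K1 := IntermediateField.adjoin k {s} with hK1
  have hmap : K1.map f = IntermediateField.adjoin k {algebraMap K L s} := by
    rw [hK1, IntermediateField.adjoin_map, Set.image_singleton]
    rfl
  have h0 : (algebraMap K1 K).Finite := hfin
  have h0' : (algebraMap K L).Finite := RingHom.finite_algebraMap.2 hKL
  have hL : ((algebraMap K L).comp (algebraMap K1 K)).Finite := h0'.comp h0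
  let e := IntermediateField.equivMap K1 f
  have h1 : (algebraMap (K1.map f) L).comp (e : K1 →+* K1.map f) =
      (algebraMap K L).comp (algebraMap K1 K) := by
    ext a
    rfl
  have h2 : (algebraMap (K1.map f) L).Finite := by
    refine RingHom.Finite.of_comp_finite (f := (e : K1 →+* K1.map f)) ?_
    rw [h1]
    exact hL
  rw [← hmap]
  exact h2

theorem hasCurve_of_TwS (p : ℕ) [Fact p.Prime] {K L : Type} [Field K] [Field L]
    [Algebra (AlgebraicClosure (ZMod p)) K] [Algebra (AlgebraicClosure (ZMod p)) L] [Algebra K L]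
    [IsScalarTower (AlgebraicClosure (ZMod p)) K L] {s : K}
    {D : Derivation (AlgebraicClosure (ZMod p)) K K} {h v : K} {w : L}
    {D' : Derivation (AlgebraicClosure (ZMod p)) L L} (A : TwS p s D h v w D')
    (hs : Transcendental (AlgebraicClosure (ZMod p)) s)
    (hfin : Module.Finite (IntermediateField.adjoin (AlgebraicClosure (ZMod p)) {s}) K)
    (φ : K →+* K) (hφc : ∀ c : AlgebraicClosure (ZMod p),
      φ (algebraMap _ K c) = algebraMap _ K (c ^ p))
    (hφs : φ s = s) (hφh : φ h = h) (hφv : φ v = v) (hφn : ∀ a, ∃ n > 0, φ^[n] a = a) (g f : ℕ)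
    (hg : Module.finrank (AlgebraicClosure (ZMod p)) (regSp D') = g)
    (hf : Nat.card {a : L // a ∈ regSp D' ∧ car p D' a = a} = p ^ f) : HasCurve p g f := by
  obtain ⟨Φ, hΦa, hΦw, hΦc, hΦn⟩ := exists_phi_tw A.tw φ hφc hφh hφv hφn
  obtain ⟨F₀, i1, i2, ι, hι, e, he⟩ :=
    exists_descent p (AlgebraicClosure (ZMod p)) L Φ hΦc hΦn
  have hKL : Module.Finite K L := A.tw.finite
  have htr : Transcendental (AlgebraicClosure (ZMod p)) (algebraMap K L s) := by
    rw [transcendental_algebraMap_iff (algebraMap K L).injective]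
    exact hs
  have hfinL : Module.Finite
      (IntermediateField.adjoin (AlgebraicClosure (ZMod p)) {algebraMap K L s}) L :=
    TwCur_fin s hKL hfin
  have hx : Φ (algebraMap K L s) = algebraMap K L s := by rw [hΦa, hφs]
  obtain ⟨b, hb⟩ := (hι _).2 hx
  have hb' : e (TensorProduct.tmul (ZMod p) 1 b) = algebraMap K L s := by rw [he, hb]
  refine ⟨F₀, L, i1, inferInstance, i2, inferInstance, ?_, ⟨e⟩, ⟨_, htr, hfinL⟩, ?_, ?_⟩
  · exact functionField_descent p (AlgebraicClosure (ZMod p)) L F₀ e b (by rw [hb']; exact htr)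
      (by rw [hb']; exact hfinL)
  · rw [genus_eq A.gf', hg]
  · rw [card_torsion A.gf', hf]

end Pool.Agent.PRB
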