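import Pool.Agent.LibPRB.TwB
import Pool.Agent.LibPRB.OverEx

/-!
# Existence of the covers `w ^ p = h w + v`

PLAN. Let `f = X ^ p - C h * X - C v` over `K` and `M = AlgebraicClosure K`; let `O` be a valuation
subring of `M` over `P` (`exists_over P`, with `L := M`), `N = O.valuation`.
(1) every root `r` of `f` in `M` satisfies `N (r ^ p) = N (algebraMap v)`: otherwise
`N (algebraMap v) ≤ N (algebraMap h * r)`, then `N r ^ p ≤ N h * N r`, so `N r ^ (p-1) ≤ N h` and
`N v ^ (p-1) ≤ N h ^ (p-1) * N r ^ (p-1) ≤ N h ^ p`, i.e. `v ^ (p-1) / h ^ p ∈ O`, so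
`0 ≤ (p-1) ord v - p ord h = - twD`, a contradiction.
(2) If `q` is a monic factor of `f` over `K` of degree `j` with constant term `c` then
`N c ^ p = N v ^ j` (product of the roots), so `p * ord c = j * ord v`; `p ∤ ord v` because
`twD ≡ ord v mod p`; hence `p ∣ j`, so `j = 0` or `j = p`: take `q = minpoly K r` of a root `r` as
in `ASex_irreducible` (file ASex.lean): `q = f` is irreducible.
(3) `L = AdjoinRoot f`, copy `exists_AS` of ASex.lean.
-/

set_option autoImplicit false

namespace Pool.Agent.PRB

variable {p : ℕ} [Fact p.Prime] {k K : Type} [Field k] [Field K] [Algebra k K]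

open Polynomial

/-- The polynomial `X ^ p - h X - v`. -/
noncomputable def TwEx_f (p : ℕ) {K : Type} [Field K] (h v : K) : K[X] := X ^ p - C h * X - C v

theorem TwEx_f_eq (h v : K) : TwEx_f p h v = X ^ p + (C (-h) * X + C (-v)) := by
  unfold TwEx_f
  rw [C_neg, C_neg]
  ring

theorem TwEx_deg (h v : K) : (C (-h) * X + C (-v) : K[X]).degree < p := by
  have h2 := (Fact.out : p.Prime).two_le
  have h1 : (C (-h) * X + C (-v) : K[X]).degree ≤ 1 := degree_linear_le
  refine h1.trans_lt ?_
  exact_mod_cast (show 1 < p by omega)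

theorem TwEx_monic (h v : K) : (TwEx_f p h v).Monic := by
  rw [TwEx_f_eq]
  exact monic_X_pow_add (TwEx_deg h v)

theorem TwEx_natDegree (h v : K) : (TwEx_f p h v).natDegree = p := by
  rw [TwEx_f_eq]
  exact natDegree_eq_of_degree_eq_some ((degree_add_eq_left_of_degree_lt
    (by rw [degree_X_pow]; exact TwEx_deg h v)).trans (degree_X_pow p))

theorem TwEx_root {M : Type} [Field M] [Algebra k M] [Algebra K M] (P : Plc k K) (h v : K)
    (hh : h ≠ 0) (hv : v ≠ 0) (hD : 0 < twD p h v P) (O : ValuationSubring M)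
    (hO : ∀ a : K, algebraMap K M a ∈ O ↔ P.ge 0 a) (r : M)
    (hr : r ^ p = algebraMap K M h * r + algebraMap K M v) :
    O.valuation r ^ p = O.valuation (algebraMap K M v) := by
  have hah : algebraMap K M h ≠ 0 := by
    rw [Ne, map_eq_zero]; exact hh
  have hav : algebraMap K M v ≠ 0 := by
    rw [Ne, map_eq_zero]; exact hv
  have hp2 := (Fact.out : p.Prime).two_le
  by_cases hlt : O.valuation (algebraMap K M h * r) < O.valuation (algebraMap K M v)
  · rw [← map_pow, hr]
    exact Valuation.map_add_eq_of_lt_right _ hlt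
  · exfalso
    push Not at hlt
    have hr0 : r ≠ 0 := by
      rintro rfl
      rw [zero_pow (Fact.out : p.Prime).ne_zero, mul_zero, zero_add] at hr
      exact hav hr.symm
    have hNr : O.valuation r ≠ 0 := (Valuation.ne_zero_iff _).2 hr0
    have hNh : O.valuation (algebraMap K M h) ≠ 0 := (Valuation.ne_zero_iff _).2 hah
    have h1 : O.valuation r ^ p ≤ O.valuation (algebraMap K M h) * O.valuation r := by
      rw [← map_pow, hr, ← map_mul]
      exact (Valuation.map_add _ _ _).trans (max_le le_rfl hlt)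
    have h2 : O.valuation r ^ (p - 1) ≤ O.valuation (algebraMap K M h) := by
      have h3 : O.valuation r ^ (p - 1) * O.valuation r ≤
          O.valuation (algebraMap K M h) * O.valuation r := by
        rw [← pow_succ, Nat.sub_add_cancel (by omega)]
        exact h1
      exact le_of_mul_le_mul_right h3 (zero_lt_iff.2 hNr)
    have h4 : O.valuation (algebraMap K M v) ^ (p - 1) ≤
        O.valuation (algebraMap K M h) ^ p := by
      calc O.valuation (algebraMap K M v) ^ (p - 1)
          ≤ (O.valuation (algebraMap K M h * r)) ^ (p - 1) := pow_le_pow_left₀ zero_le' hlt _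
        _ = O.valuation (algebraMap K M h) ^ (p - 1) * O.valuation r ^ (p - 1) := by
            rw [map_mul, mul_pow]
        _ ≤ O.valuation (algebraMap K M h) ^ (p - 1) * O.valuation (algebraMap K M h) :=
            mul_le_mul_right h2 _
        _ = O.valuation (algebraMap K M h) ^ p := by
            rw [← pow_succ, Nat.sub_add_cancel (by omega)]
    have h5 : algebraMap K M (v ^ (p - 1) / h ^ p) ∈ O := by
      rw [← ValuationSubring.valuation_le_one_iff, map_div₀, map_pow, map_pow, map_div₀, map_pow,
        map_pow]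
      exact (div_le_one₀ (zero_lt_iff.2 (pow_ne_zero _ hNh))).2 h4
    rw [hO, P.ge_iff (div_ne_zero (pow_ne_zero _ hv) (pow_ne_zero _ hh)),
      P.ord_div (pow_ne_zero _ hv) (pow_ne_zero _ hh), P.ord_pow, P.ord_pow] at h5
    unfold twD at hD
    have h6 : ((p - 1 : ℕ) : ℤ) = (p : ℤ) - 1 := by
      push_cast [Nat.cast_sub (show 1 ≤ p by omega)]
      ring
    rw [h6] at h5
    linarith

theorem TwEx_irreducible (P : Plc k K) (h v : K) (hh : h ≠ 0) (hv : v ≠ 0)
    (hD : 0 < twD p h v P) (hp : ¬ (p : ℤ) ∣ twD p h v P) : Irreducible (TwEx_f p h v) := by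
  have hdeg : (TwEx_f p h v).degree ≠ 0 := by
    rw [degree_eq_natDegree (TwEx_monic h v).ne_zero, TwEx_natDegree]
    exact_mod_cast (Fact.out : p.Prime).ne_zero
  letI : Algebra k (AlgebraicClosure K) :=
    ((algebraMap K (AlgebraicClosure K)).comp (algebraMap k K)).toAlgebra
  obtain ⟨O, hO⟩ := exists_over (L := AlgebraicClosure K) P
  obtain ⟨z, hz⟩ := IsAlgClosed.exists_aeval_eq_zero (AlgebraicClosure K) (TwEx_f p h v) hdeg
  have hint : IsIntegral K z := ⟨TwEx_f p h v, TwEx_monic h v, by rwa [← aeval_def]⟩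
  set q := minpoly K z with hq
  have hqm : q.Monic := minpoly.monic hint
  have hdvd : q ∣ TwEx_f p h v := minpoly.dvd K z hz
  have hle : q.natDegree ≤ p := by
    have := natDegree_le_of_dvd hdvd (TwEx_monic h v).ne_zero
    rwa [TwEx_natDegree] at this
  have hroot : ∀ r : AlgebraicClosure K, aeval r (TwEx_f p h v) = 0 →
      r ^ p = algebraMap K _ h * r + algebraMap K _ v := by
    intro r hr
    unfold TwEx_f at hr
    simp only [map_sub, map_pow, aeval_X, aeval_C, map_mul] at hr
    linear_combination hr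
  have hge : p ≤ q.natDegree := by
    by_contra hlt
    push Not at hlt
    have hpos : 0 < q.natDegree := minpoly.natDegree_pos hint
    set Q := q.map (algebraMap K (AlgebraicClosure K)) with hQ
    have hsplit : Q.Splits := IsAlgClosed.splits Q
    have hQm : Q.Monic := hqm.map _
    have hcard : Q.roots.card = q.natDegree := by
      rw [← hsplit.natDegree_eq_card_roots, hQ, natDegree_map]
    have hc := hsplit.coeff_zero_eq_prod_roots_of_monic hQm
    have hfr : ∀ s : Multiset (AlgebraicClosure K),
        (∀ r ∈ s, r ^ p = algebraMap K _ h * r + algebraMap K _ v) →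
        O.valuation s.prod ^ p = O.valuation (algebraMap K (AlgebraicClosure K) v) ^ s.card := by
      intro s
      induction s using Multiset.induction_on with
      | empty =>
        intro _
        simp
      | cons a s ih =>
        intro h'
        rw [Multiset.prod_cons, map_mul, mul_pow,
          ih fun r hr => h' r (Multiset.mem_cons_of_mem hr),
          TwEx_root P h v hh hv hD O hO a (h' a (Multiset.mem_cons_self a s)),
          Multiset.card_cons, pow_succ, mul_comm]
    have h1 := hfr Q.roots (fun r hr => by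
      apply hroot
      have h2 : aeval r q = 0 := by
        have := (mem_roots'.1 hr).2
        rw [IsRoot.def, hQ, eval_map, ← aeval_def] at this
        exact this
      obtain ⟨t, ht⟩ := hdvd
      rw [ht, map_mul, h2, zero_mul])
    have h3 : O.valuation (algebraMap K (AlgebraicClosure K) (q.coeff 0)) =
        O.valuation Q.roots.prod := by
      rw [← coeff_map, ← hQ, hc, map_mul, map_pow, Valuation.map_neg, map_one, one_pow, one_mul]
    rw [← h3, hcard] at h1
    have hav : algebraMap K (AlgebraicClosure K) v ≠ 0 := by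
      rw [Ne, map_eq_zero]; exact hv
    have hNv : O.valuation (algebraMap K (AlgebraicClosure K) v) ≠ 0 :=
      (Valuation.ne_zero_iff _).2 hav
    have hc0 : q.coeff 0 ≠ 0 := by
      intro h0
      rw [h0, map_zero, map_zero, zero_pow (Fact.out : p.Prime).ne_zero] at h1
      exact (pow_ne_zero _ hNv) h1.symm
    have hac : algebraMap K (AlgebraicClosure K) (q.coeff 0) ≠ 0 := by
      rw [Ne, map_eq_zero]; exact hc0
    have hNc : O.valuation (algebraMap K (AlgebraicClosure K) (q.coeff 0)) ≠ 0 :=
      (Valuation.ne_zero_iff _).2 hac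
    have hcp : q.coeff 0 ^ p ≠ 0 := pow_ne_zero _ hc0
    have hvj : v ^ q.natDegree ≠ 0 := pow_ne_zero _ hv
    have h4 : algebraMap K (AlgebraicClosure K) (q.coeff 0 ^ p / v ^ q.natDegree) ∈ O := by
      rw [← ValuationSubring.valuation_le_one_iff, map_div₀, map_pow, map_pow, map_div₀, map_pow,
        map_pow, h1, div_self (pow_ne_zero _ hNv)]
    have h5 : algebraMap K (AlgebraicClosure K) (v ^ q.natDegree / q.coeff 0 ^ p) ∈ O := by
      rw [← ValuationSubring.valuation_le_one_iff, map_div₀, map_pow, map_pow, map_div₀, map_pow,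
        map_pow, h1, div_self (pow_ne_zero _ hNv)]
    rw [hO, P.ge_iff (div_ne_zero hcp hvj), P.ord_div hcp hvj, P.ord_pow, P.ord_pow] at h4
    rw [hO, P.ge_iff (div_ne_zero hvj hcp), P.ord_div hvj hcp, P.ord_pow, P.ord_pow] at h5
    have h6 : (p : ℤ) * P.ord (q.coeff 0) = q.natDegree * P.ord v := by linarith
    have h7 : (p : ℤ) ∣ q.natDegree * P.ord v := ⟨_, h6.symm⟩
    have hpp : Prime (p : ℤ) := Nat.prime_iff_prime_int.1 (Fact.out : p.Prime)
    rcases hpp.dvd_or_dvd h7 with h8 | h8
    · have h9 : p ∣ q.natDegree := by exact_mod_cast h8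
      have := Nat.le_of_dvd hpos h9
      omega
    · apply hp
      unfold twD
      have h10 : (p : ℤ) * P.ord h - ((p : ℤ) - 1) * P.ord v =
          p * (P.ord h - P.ord v) + P.ord v := by ring
      rw [h10]
      exact dvd_add (dvd_mul_right _ _) h8
  have heq : q = TwEx_f p h v :=
    (eq_of_monic_of_dvd_of_natDegree_le hqm (TwEx_monic h v) hdvd
      (by rw [TwEx_natDegree]; exact hge)).symm
  rw [← heq]
  exact minpoly.irreducible hint

theorem exists_Tw (P : Plc k K) (h v : K) (hh : h ≠ 0) (hv : v ≠ 0) (hD : 0 < twD p h v P)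
    (hp : ¬ (p : ℤ) ∣ twD p h v P) :
    ∃ (L : Type) (_ : Field L) (_ : Algebra k L) (_ : Algebra K L) (_ : IsScalarTower k K L)
      (w : L), IsTw p h v w := by
  haveI : Fact (Irreducible (TwEx_f p h v)) := ⟨TwEx_irreducible P h v hh hv hD hp⟩
  have hf0 := (TwEx_monic (p := p) h v).ne_zero
  refine ⟨AdjoinRoot (TwEx_f p h v), inferInstance,
    ((algebraMap K (AdjoinRoot (TwEx_f p h v))).comp (algebraMap k K)).toAlgebra, inferInstance,
    @IsScalarTower.of_algebraMap_eq _ _ _ _ _ _ _ _
      ((algebraMap K (AdjoinRoot (TwEx_f p h v))).comp (algebraMap k K)).toAlgebra (fun _ => rfl),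
    AdjoinRoot.root (TwEx_f p h v), ?_, ?_, ?_⟩
  · have h' := AdjoinRoot.mk_self (f := TwEx_f p h v)
    have h1 : AdjoinRoot.mk (TwEx_f p h v) (X ^ p - C h * X - C v) = 0 := h'
    rw [map_sub, map_sub, map_pow, map_mul, AdjoinRoot.mk_X, AdjoinRoot.mk_C,
      AdjoinRoot.mk_C] at h1
    rw [AdjoinRoot.algebraMap_eq]
    linear_combination h1
  · intro a
    obtain ⟨r, rfl⟩ := AdjoinRoot.mk_surjective a
    refine ⟨(r %ₘ TwEx_f p h v).coeff, ?_⟩
    have h1 : AdjoinRoot.mk (TwEx_f p h v) r =
        AdjoinRoot.mk (TwEx_f p h v) (r %ₘ TwEx_f p h v) := by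
      rw [AdjoinRoot.mk_eq_mk]
      have := modByMonic_add_div r (TwEx_f p h v)
      exact ⟨r /ₘ TwEx_f p h v, by linear_combination -this⟩
    have hlt : (r %ₘ TwEx_f p h v).natDegree < p := by
      have := natDegree_modByMonic_lt r (TwEx_monic (p := p) h v) (by
        intro h'
        have h2 := TwEx_natDegree (p := p) h v
        rw [h', natDegree_one] at h2
        exact (Fact.out : p.Prime).ne_zero h2.symm)
      rwa [TwEx_natDegree] at this
    rw [h1]
    conv_lhs => rw [as_sum_range' (r %ₘ TwEx_f p h v) p hlt]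
    rw [map_sum]
    refine Finset.sum_congr rfl fun i _ => ?_
    rw [← C_mul_X_pow_eq_monomial, map_mul, map_pow, AdjoinRoot.mk_X, AdjoinRoot.mk_C,
      AdjoinRoot.algebraMap_eq]
  · intro c hc i hi
    have h1 : AdjoinRoot.mk (TwEx_f p h v) (∑ i ∈ Finset.range p, C (c i) * X ^ i) = 0 := by
      rw [map_sum, ← hc]
      refine Finset.sum_congr rfl fun i _ => ?_
      rw [map_mul, map_pow, AdjoinRoot.mk_X, AdjoinRoot.mk_C, AdjoinRoot.algebraMap_eq]
    rw [AdjoinRoot.mk_eq_zero] at h1
    have h2 : (∑ i ∈ Finset.range p, C (c i) * X ^ i : K[X]) = 0 := by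
      refine eq_zero_of_dvd_of_degree_lt h1 ?_
      rw [degree_eq_natDegree hf0, TwEx_natDegree]
      refine (degree_sum_le _ _).trans_lt ?_
      rw [Finset.sup_lt_iff (by exact_mod_cast WithBot.bot_lt_coe _)]
      intro j hj
      exact (degree_C_mul_X_pow_le _ _).trans_lt (by exact_mod_cast Finset.mem_range.1 hj)
    have h3 := congrArg (fun r => coeff r i) h2
    simp only [finsetSum_coeff, coeff_C_mul, coeff_X_pow, coeff_zero] at h3
    simpa [hi] using h3

end Pool.Agent.PRB
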