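import Pool.Agent.LibPRB.DatA
import Pool.Agent.LibPRB.RatF
import Pool.Agent.LibPRB.TwCrd
import Pool.Agent.LibPRB.TwCur
import Pool.Agent.LibPRB.TwEx

/-! # Curves over `F_p` from branch data -/

set_option autoImplicit false

namespace Pool.Agent.PRB

/-- The polynomial `W_d`. -/
noncomputable def datW (p : ℕ) {k : Type} [Field k] (R : Finset k) (m ν : k → ℤ) (d : ℕ) :
    Polynomial k :=
  ∏ c ∈ R, (Polynomial.X - Polynomial.C c) ^ (datE p (m c) (ν c) d)

/-- The number `N_d`. -/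
def datN (p : ℕ) {k : Type} (R : Finset k) (m ν : k → ℤ) (d : ℕ) : ℕ :=
  (∑ c ∈ R, datE p (m c) (ν c) d + datE p (-∑ c ∈ R, m c) (-∑ c ∈ R, ν c) d) / (p - 1) - 1

section

variable {p : ℕ} [Fact p.Prime] {k : Type} [Field k] [IsAlgClosed k] [CharP k p]

theorem HasD_E0 (P : Plc k (RatFunc k)) {h v : RatFunc k} (hm : P.ord h = 0) (hν : P.ord v = 0)
    (d : ℕ) : twl p h v d P = 0 ∧ twc p h v d P = 0 := by
  have h1 : ¬ 0 < twD p h v P := by
    unfold twD
    rw [hm, hν]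
    simp
  unfold twl twc cdiv
  rw [if_neg h1, if_neg h1, hm]
  simp

/-- `N_d` as an integer. -/
theorem HasD_N (R : Finset k) (m ν : k → ℤ) (hm0 : ∀ c ∉ R, m c = 0) (hν0 : ∀ c ∉ R, ν c = 0)
    (d : ℕ) :
    ((∑ c ∈ R, twl p (ratProd R m) (ratProd R ν) d (plC c)) +
      twl p (ratProd R m) (ratProd R ν) d (plI k) - 1).toNat = datN p R m ν d := by
  have hn := DatA_n (p := p)
  have hp : 1 ≤ p := (Fact.out : p.Prime).one_lt.le
  have hc : ((p - 1 : ℕ) : ℤ) = (p : ℤ) - 1 := by push_cast [hp]; ring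
  set S : ℤ := (∑ c ∈ R, twl p (ratProd R m) (ratProd R ν) d (plC c)) +
      twl p (ratProd R m) (ratProd R ν) d (plI k) with hS
  have h1 : ((∑ c ∈ R, datE p (m c) (ν c) d +
      datE p (-∑ c ∈ R, m c) (-∑ c ∈ R, ν c) d : ℕ) : ℤ) = (p - 1) * S := by
    push_cast
    rw [hS, mul_add, Finset.mul_sum,
      DatA_twl (ratProd_ordI R m) (ratProd_ordI R ν) d,
      Finset.sum_congr rfl fun c _ => DatA_twl (p := p) (ratProd_ordC R m hm0 c)
        (ratProd_ordC R ν hν0 c) d, Finset.sum_sub_distrib, ← Finset.mul_sum,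
      ← Finset.mul_sum]
    ring
  have h2 : 0 ≤ S := by
    by_contra h
    have h3 : (0 : ℤ) ≤ ((∑ c ∈ R, datE p (m c) (ν c) d +
      datE p (-∑ c ∈ R, m c) (-∑ c ∈ R, ν c) d : ℕ) : ℤ) := by positivity
    rw [h1] at h3
    nlinarith
  obtain ⟨T, hT⟩ := Int.eq_ofNat_of_zero_le h2
  have h4 : ∑ c ∈ R, datE p (m c) (ν c) d +
      datE p (-∑ c ∈ R, m c) (-∑ c ∈ R, ν c) d = (p - 1) * T := by
    have h5 : ((∑ c ∈ R, datE p (m c) (ν c) d +
      datE p (-∑ c ∈ R, m c) (-∑ c ∈ R, ν c) d : ℕ) : ℤ) = (((p - 1) * T : ℕ) : ℤ) := by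
      rw [h1, hT]
      push_cast
      rw [hc]
    exact_mod_cast h5
  unfold datN
  have hp1 : 0 < p - 1 := by
    have := (Fact.out : p.Prime).two_le
    omega
  rw [h4, Nat.mul_div_cancel_left _ hp1, hT]
  omega

end

theorem hasCurve_of_data (p : ℕ) [Fact p.Prime] (R : Finset (AlgebraicClosure (ZMod p)))
    (m ν : AlgebraicClosure (ZMod p) → ℤ) (hm0 : ∀ c ∉ R, m c = 0) (hν0 : ∀ c ∉ R, ν c = 0)
    (hR : ∀ c ∈ R, c ^ p ∈ R) (hm : ∀ c ∈ R, m (c ^ p) = m c) (hν : ∀ c ∈ R, ν (c ^ p) = ν c)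
    (hD : ∀ c ∈ R, 0 < datD p (m c) (ν c) → ¬ (p : ℤ) ∣ datD p (m c) (ν c))
    (hDI : 0 < datD p (-∑ c ∈ R, m c) (-∑ c ∈ R, ν c) →
      ¬ (p : ℤ) ∣ datD p (-∑ c ∈ R, m c) (-∑ c ∈ R, ν c))
    (hex : (∃ c ∈ R, 0 < datD p (m c) (ν c)) ∨ 0 < datD p (-∑ c ∈ R, m c) (-∑ c ∈ R, ν c))
    (s : ℕ → ℕ) (hs : ∀ d < p - 1, FixP p (datW p R m ν d) (datN p R m ν d) (s d))
    (g : ℕ) (hg : 2 * (g : ℤ) + 2 * (p - 1) =
      ∑ c ∈ R, datG p (m c) (ν c) + datG p (-∑ c ∈ R, m c) (-∑ c ∈ R, ν c)) :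
    HasCurve p g (∑ d ∈ Finset.range (p - 1), s d) := by
  classical
  haveI hch : CharP (AlgebraicClosure (ZMod p)) p :=
    charP_of_injective_algebraMap (algebraMap (ZMod p) (AlgebraicClosure (ZMod p))).injective p
  haveI : CharP (RatFunc (AlgebraicClosure (ZMod p))) p :=
    charP_of_injective_algebraMap (algebraMap (AlgebraicClosure (ZMod p)) (RatFunc (AlgebraicClosure (ZMod p)))).injective p
  have hn := DatA_n (p := p)
  have hp2 := (Fact.out : p.Prime).two_le
  have hp1 : 0 < p - 1 := by omega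
  have hc1 : ((p - 1 : ℕ) : ℤ) = (p : ℤ) - 1 := by push_cast [show 1 ≤ p by omega]; ring
  set h : RatFunc (AlgebraicClosure (ZMod p)) := ratProd R m with hh
  set v : RatFunc (AlgebraicClosure (ZMod p)) := ratProd R ν with hv
  have hh0 : h ≠ 0 := ratProd_ne R m
  have hv0 : v ≠ 0 := ratProd_ne R ν
  have hmC : ∀ c, (plC c).ord h = m c := ratProd_ordC R m hm0
  have hνC : ∀ c, (plC c).ord v = ν c := ratProd_ordC R ν hν0
  have hmI : (plI (AlgebraicClosure (ZMod p))).ord h = -∑ c ∈ R, m c := ratProd_ordI R m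
  have hνI : (plI (AlgebraicClosure (ZMod p))).ord v = -∑ c ∈ R, ν c := ratProd_ordI R ν
  have hDC : ∀ c, twD p h v (plC c) = datD p (m c) (ν c) := fun c => DatA_twD (hmC c) (hνC c)
  have hDInf : twD p h v (plI (AlgebraicClosure (ZMod p))) = datD p (-∑ c ∈ R, m c) (-∑ c ∈ R, ν c) := DatA_twD hmI hνI
  have hDall : ∀ P : Plc (AlgebraicClosure (ZMod p)) (RatFunc (AlgebraicClosure (ZMod p))), 0 < twD p h v P → ¬ (p : ℤ) ∣ twD p h v P := by
    intro P hP
    rcases pl_class P with ⟨c, rfl⟩ | rfl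
    · rw [hDC] at hP ⊢
      by_cases hc : c ∈ R
      · exact hD c hc hP
      · rw [hm0 c hc, hν0 c hc] at hP
        unfold datD at hP
        simp at hP
    · rw [hDInf] at hP ⊢
      exact hDI hP
  -- a wild place
  obtain ⟨P0, hP0⟩ : ∃ P : Plc (AlgebraicClosure (ZMod p)) (RatFunc (AlgebraicClosure (ZMod p))), 0 < twD p h v P := by
    rcases hex with ⟨c, _, hc⟩ | hc
    · exact ⟨plC c, by rw [hDC]; exact hc⟩
    · exact ⟨plI (AlgebraicClosure (ZMod p)), by rw [hDInf]; exact hc⟩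
  obtain ⟨L, iL, ikL, iKL, iST, w, T⟩ := exists_Tw P0 h v hh0 hv0 hP0 (hDall P0 hP0)
  obtain ⟨D', hD'⟩ := exists_deriv_tw T hh0 (ratD p (AlgebraicClosure (ZMod p)))
  have A : TwS p (RatFunc.X : RatFunc (AlgebraicClosure (ZMod p))) (ratD p (AlgebraicClosure (ZMod p))) h v w D' :=
    ⟨rat_gf, T, hh0, hv0, hDall, hD'⟩
  obtain ⟨φ, hφX, hφc, hφn⟩ := ratFunc_phi (p := p) (k := AlgebraicClosure (ZMod p))
  have hE0 : ∀ (d : ℕ) (c : (AlgebraicClosure (ZMod p))), c ∉ R → twl p h v d (plC c) = 0 ∧ twc p h v d (plC c) = 0 := by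
    intro d c hc
    exact HasD_E0 _ (by rw [hmC, hm0 c hc]) (by rw [hνC, hν0 c hc]) d
  have hfin : ∀ d < p, Module.Finite (AlgebraicClosure (ZMod p)) (polSp (ratD p (AlgebraicClosure (ZMod p))) (twc p h v d)) := fun d _ =>
    (rat_finrank R (twc p h v d) (fun c hc => (hE0 d c hc).2)).1
  -- positivity of the total number of poles
  have hpos : ∀ d < p - 1, 1 ≤ (∑ c ∈ R, twc p h v d (plC c)) + twc p h v d (plI (AlgebraicClosure (ZMod p))) := by
    intro d hd
    have h1 : (1 : ℤ) ≤ (p - 1) * ((∑ c ∈ R, twc p h v d (plC c)) + twc p h v d (plI (AlgebraicClosure (ZMod p)))) := by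
      rw [mul_add, Finset.mul_sum]
      rcases hex with ⟨c, hcR, hc⟩ | hc
      · have h2 : ∑ c ∈ R, ((d : ℤ) * m c) + 1 ≤ ∑ c ∈ R, (p - 1) * twc p h v d (plC c) := by
          rw [← Finset.add_sum_erase _ _ hcR, ← Finset.add_sum_erase _ _ hcR]
          have h3 := DatA_twc_pos' (p := p) (hmC c) (hνC c) hc hd
          have h4 : ∑ x ∈ R.erase c, ((d : ℤ) * m x) ≤
              ∑ x ∈ R.erase c, (p - 1) * twc p h v d (plC x) :=
            Finset.sum_le_sum fun x _ => DatA_twc_pos (p := p) (hmC x) (hνC x) hd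
          linarith
        have h5 := DatA_twc_pos (p := p) hmI hνI hd
        rw [← Finset.mul_sum] at h2
        linarith
      · have h2 : ∑ c ∈ R, ((d : ℤ) * m c) ≤ ∑ c ∈ R, (p - 1) * twc p h v d (plC c) :=
          Finset.sum_le_sum fun x _ => DatA_twc_pos (p := p) (hmC x) (hνC x) hd
        have h5 := DatA_twc_pos' (p := p) hmI hνI hc hd
        rw [← Finset.mul_sum] at h2
        linarith
    nlinarith
  have hlast : (∑ c ∈ R, twc p h v (p - 1) (plC c)) + twc p h v (p - 1) (plI (AlgebraicClosure (ZMod p))) = 0 := by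
    rw [Finset.sum_congr rfl fun c _ => DatA_twc_last (p := p) (hmC c), DatA_twc_last hmI]
    ring
  have hpr : Finset.range p = insert (p - 1) (Finset.range (p - 1)) := by
    conv_lhs => rw [show p = (p - 1) + 1 by omega]
    rw [Finset.range_add_one]
  -- the genus
  have hgen : Module.finrank (AlgebraicClosure (ZMod p)) (regSp D') = g := by
    rw [(A.finrank hfin).2]
    have h1 : ∀ d, Module.finrank (AlgebraicClosure (ZMod p)) (polSp (ratD p (AlgebraicClosure (ZMod p))) (twc p h v d)) =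
        ((∑ c ∈ R, twc p h v d (plC c)) + twc p h v d (plI (AlgebraicClosure (ZMod p))) - 1).toNat := fun d =>
      (rat_finrank R (twc p h v d) (fun c hc => (hE0 d c hc).2)).2
    rw [Finset.sum_congr rfl fun d _ => h1 d, hpr, Finset.sum_insert (by simp), hlast]
    have h2 : ((∑ d ∈ Finset.range (p - 1),
        ((∑ c ∈ R, twc p h v d (plC c)) + twc p h v d (plI (AlgebraicClosure (ZMod p))) - 1).toNat : ℕ) : ℤ) =
        ∑ d ∈ Finset.range (p - 1),
          ((∑ c ∈ R, twc p h v d (plC c)) + twc p h v d (plI (AlgebraicClosure (ZMod p))) - 1) := by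
      push_cast
      refine Finset.sum_congr rfl fun d hd => ?_
      have := hpos d (Finset.mem_range.1 hd)
      exact Int.toNat_of_nonneg (by linarith)
    have h3 : 2 * ∑ d ∈ Finset.range (p - 1),
          ((∑ c ∈ R, twc p h v d (plC c)) + twc p h v d (plI (AlgebraicClosure (ZMod p))) - 1) =
        (∑ c ∈ R, datG p (m c) (ν c) + datG p (-∑ c ∈ R, m c) (-∑ c ∈ R, ν c)) - 2 * (p - 1) := by
      rw [Finset.sum_sub_distrib, Finset.sum_add_distrib, Finset.sum_comm, mul_sub, mul_add,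
        Finset.mul_sum,
        Finset.sum_congr rfl fun c hc => DatA_sum_twc (p := p) (hmC c) (hνC c) (hD c hc),
        DatA_sum_twc hmI hνI hDI, Finset.sum_add_distrib, ← Finset.sum_mul]
      simp only [Finset.sum_const, Finset.card_range, nsmul_eq_mul, mul_one]
      rw [hc1]
      ring
    have h4 : 2 * ((∑ d ∈ Finset.range (p - 1),
        ((∑ c ∈ R, twc p h v d (plC c)) + twc p h v d (plI (AlgebraicClosure (ZMod p))) - 1).toNat : ℕ) : ℤ) =
        2 * (g : ℤ) := by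
      rw [h2, h3, ← hg]
      ring
    have h5 : (0 - 1 : ℤ).toNat = 0 := rfl
    rw [h5, zero_add]
    have h6 := Int.eq_of_mul_eq_mul_left (by norm_num) h4
    exact_mod_cast h6
  -- the `p`-rank
  have hcard : Nat.card {a : L // a ∈ regSp D' ∧ car p D' a = a} =
      p ^ (∑ d ∈ Finset.range (p - 1), s d) := by
    rw [A.card hfin, hpr, Finset.prod_insert (by simp), ← Finset.prod_pow_eq_pow_sum]
    have h1 : Nat.card {c : RatFunc (AlgebraicClosure (ZMod p)) // c ∈ polSp (ratD p (AlgebraicClosure (ZMod p))) (twc p h v (p - 1)) ∧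
        car p (ratD p (AlgebraicClosure (ZMod p))) (c / h ^ (p - 1)) = c} = 1 := by
      rw [Nat.card_eq_one_iff_unique]
      have h2 : ∀ c : RatFunc (AlgebraicClosure (ZMod p)), c ∈ polSp (ratD p (AlgebraicClosure (ZMod p))) (twc p h v (p - 1)) → c = 0 := by
        intro c hc
        rw [rat_polSp R (twc p h v (p - 1)) (fun c hc => (hE0 _ c hc).2), hlast] at hc
        obtain ⟨B, hB, rfl⟩ := hc
        have h3 : B = 0 := by
          by_contra hB0
          rw [Polynomial.degree_eq_natDegree hB0] at hB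
          norm_num at hB
        rw [h3, map_zero, zero_mul]
      refine ⟨⟨fun a b => Subtype.ext ((h2 _ a.2.1).trans (h2 _ b.2.1).symm)⟩, ⟨⟨0, ?_, ?_⟩⟩⟩
      · exact Submodule.zero_mem _
      · rw [zero_div, ratD_pb.car_zero]
    rw [h1, one_mul]
    refine Finset.prod_congr rfl fun d hd => ?_
    have hd' := Finset.mem_range.1 hd
    rw [card_twl ratD_pb hh0 hd', rat_card_fix R m d (twl p h v d) (fun c hc => (hE0 d c hc).1)
      (fun c => datE p (m c) (ν c) d) (fun c _ => DatA_twl (p := p) (hmC c) (hνC c) d)]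
    have h3 := hs d hd'
    unfold FixP datW at h3
    rw [HasD_N R m ν hm0 hν0 d]
    exact h3
  exact hasCurve_of_TwS p A rat_transc rat_fin φ hφc hφX (ratProd_phi p R m hR hm φ hφX hφc)
    (ratProd_phi p R ν hR hν φ hφX hφc) hφn g _ hgen hcard

end Pool.Agent.PRB
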