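import Pool.Agent.LibPRB.HasP
import Pool.Agent.LibPRB.PieL
import Pool.Agent.LibPRB.FixC
import Pool.Agent.LibPRB.FixI

/-!
# Curves over `F_p` from branch data with known Cartier operators of the base cover

PLAN. Apply `hasCurve_pieces` (HasP.lean) with `s d` = the summand of the conclusion.  For `d < p - 1` let
`X' = logSet p S m ν d`, `P = ∏ i, (∏ c ∈ S i, (X - C c)) ^ datQ p (m i) d` (monic of degree
`∑ i, (S i).card * datQ p (m i) d`); by `pie_prod`, `pie_card` (PieL.lean) the polynomial is `P * ∏ c ∈ X', (X - C c)^(p-1)` and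
the sum is `∑ i, (S i).card * datQ + (p-1) * X'.card + datE p mI νI d`; `datE_split` for infinity; `X'.card + (0 or 1) = L d`
(`Finset.card_biUnion`, `Finset.sum_filter`).
`P.eval c ≠ 0` for `c ∈ X'`: `c ∈ S i` with `datQ p (m i) d = 0` (`datQ_eq_zero_iff`), and `c ∉ S j` for `j ≠ i`.
Non-trivial case: `fixP_mul_prod` (FixC.lean) from `hb`, then, if `0 < datD p mI νI` and `(p-1) ∣ d * mI`, `fixP_inf` (FixI.lean; then
`datQ p mI d = 0`, so `P` has degree `(p-1) (Nb d + 1)`).  The number: `((p-1) (Nb d + 1) + (p-1) L d) / (p-1) - 1 = Nb d + L d`.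
Trivial case (`(p-1) ∣ d * m i` whenever `S i` is not empty, hence also `(p-1) ∣ d * mI` by `hmI`): `P = 1`; all wild points are
logarithmic, so `L d ≥ 1` by `hex`, and the number is `L d - 1`.  If infinity is wild: `fixP_zero` for `W = 1` and
`fixP_mul_prod`.  Otherwise take `x ∈ X'`, `fixP_zero` for `W = (X - C x)^(p-1)`, and `fixP_mul_prod` for `X'.erase x`.
-/

set_option autoImplicit false

namespace Pool.Agent.PRB

private theorem HasF_card_log {p : ℕ} {K : Type} {r : ℕ} (S : Fin r → Finset K)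
    (hdj : ∀ i j, i ≠ j → Disjoint (S i) (S j)) (m ν : Fin r → ℤ) (d : ℕ)
    [DecidablePred fun i => 0 < datD p (m i) (ν i) ∧ ((p : ℤ) - 1) ∣ d * m i] :
    (logSet p S m ν d).card =
      ∑ i, if 0 < datD p (m i) (ν i) ∧ ((p : ℤ) - 1) ∣ d * m i then (S i).card else 0 := by
  classical
  have h1 : logSet p S m ν d =
      (Finset.univ.filter fun i => 0 < datD p (m i) (ν i) ∧ ((p : ℤ) - 1) ∣ d * m i).biUnion S := by
    ext c
    simp only [logSet, Finset.mem_biUnion, Finset.mem_filter]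
  rw [h1, Finset.card_biUnion, Finset.sum_filter]
  intro i _ j _ hij
  exact hdj i j hij

open Polynomial in
private theorem HasF_monic {K : Type} [Field K] {r : ℕ} (S : Fin r → Finset K) (e : Fin r → ℕ) :
    (∏ i, (∏ c ∈ S i, (X - C c : K[X])) ^ e i).Monic ∧
      (∏ i, (∏ c ∈ S i, (X - C c : K[X])) ^ e i).natDegree = ∑ i, (S i).card * e i := by
  have hm : ∀ i, (∏ c ∈ S i, (X - C c : K[X])).Monic := fun i =>
    monic_prod_of_monic _ _ fun c _ => monic_X_sub_C c
  have hm2 : ∀ i ∈ (Finset.univ : Finset (Fin r)),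
      ((∏ c ∈ S i, (X - C c : K[X])) ^ e i).Monic := fun i _ => (hm i).pow _
  refine ⟨monic_prod_of_monic _ _ hm2, ?_⟩
  rw [natDegree_prod_of_monic _ _ hm2]
  refine Finset.sum_congr rfl fun i _ => ?_
  rw [(hm i).natDegree_pow, natDegree_prod_of_monic _ _ fun c _ => monic_X_sub_C c]
  simp only [natDegree_X_sub_C, Finset.sum_const, smul_eq_mul, mul_one]
  exact mul_comm _ _

open Polynomial in
private theorem HasF_eval {p : ℕ} [Fact p.Prime] {K : Type} [Field K] {r : ℕ}
    (S : Fin r → Finset K) (hdj : ∀ i j, i ≠ j → Disjoint (S i) (S j)) (m ν : Fin r → ℤ) (d : ℕ)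
    (c : K) (hc : c ∈ logSet p S m ν d) :
    (∏ i, (∏ c ∈ S i, (X - C c : K[X])) ^ datQ p (m i) d).eval c ≠ 0 := by
  rw [pie_mem] at hc
  obtain ⟨i, -, hdv, hci⟩ := hc
  rw [eval_prod, Finset.prod_ne_zero_iff]
  intro j _
  rw [eval_pow]
  by_cases hij : j = i
  · rw [hij, (datQ_eq_zero_iff (m i) d).2 hdv, pow_zero]
    exact one_ne_zero
  · refine pow_ne_zero _ ?_
    rw [eval_prod, Finset.prod_ne_zero_iff]
    intro x hx
    rw [eval_sub, eval_X, eval_C]
    intro h
    have h1 : c = x := sub_eq_zero.1 h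
    rw [← h1] at hx
    exact Finset.disjoint_left.mp (hdj j i hij) hx hci

private theorem HasF_num {n A Q N x : ℕ} {c : Prop} [Decidable c] (hn : 0 < n)
    (h : n * (N + 1) = A + Q) :
    (A + n * x + (Q + if c then n else 0)) / n - 1 = N + x + if c then 1 else 0 := by
  have h1 : A + n * x + (Q + if c then n else 0) = n * (N + 1 + x + if c then 1 else 0) := by
    split_ifs
    · have e : n * (N + 1 + x + 1) = n * (N + 1) + n * x + n := by ring
      rw [e, h]; ring
    · have e : n * (N + 1 + x + 0) = n * (N + 1) + n * x := by ring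
      rw [e, h]; ring
  rw [h1, Nat.mul_div_cancel_left _ hn]
  split_ifs <;> omega

open Polynomial in
private theorem HasF_nontriv {p : ℕ} [Fact p.Prime] {K : Type} [Field K] [IsAlgClosed K]
    [CharP K p] {r : ℕ} (S : Fin r → Finset K) (hdj : ∀ i j, i ≠ j → Disjoint (S i) (S j))
    (m ν : Fin r → ℤ) (mI : ℤ) (d N s : ℕ) {c : Prop} [Decidable c]
    (hcd : c → ((p : ℤ) - 1) ∣ d * mI)
    (h1 : FixP p (∏ i, (∏ c ∈ S i, (X - C c : K[X])) ^ datQ p (m i) d) N s)
    (h2 : (p - 1) * (N + 1) = ∑ i, (S i).card * datQ p (m i) d + datQ p mI d) :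
    FixP p ((∏ i, (∏ c ∈ S i, (X - C c : K[X])) ^ datQ p (m i) d) *
        ∏ c ∈ logSet p S m ν d, (X - C c) ^ (p - 1))
      (N + (logSet p S m ν d).card + if c then 1 else 0)
      (s + ((logSet p S m ν d).card + if c then 1 else 0)) := by
  obtain ⟨hmon, hdeg⟩ := HasF_monic S (fun i => datQ p (m i) d)
  have hev := HasF_eval (p := p) S hdj m ν d
  by_cases hc : c
  · have hq : datQ p mI d = 0 := (datQ_eq_zero_iff mI d).2 (hcd hc)
    rw [hq, add_zero] at h2
    have h3 := fixP_inf _ N s h1 hmon (hdeg.trans h2.symm)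
    have h4 := fixP_mul_prod _ (N + 1) (s + 1) h3 (by
      rw [hdeg, ← h2]
      exact Nat.mul_le_mul_left _ (by omega)) (logSet p S m ν d) hev
    rw [if_pos hc]
    have e1 : N + 1 + (logSet p S m ν d).card = N + (logSet p S m ν d).card + 1 := by ring
    have e2 : s + 1 + (logSet p S m ν d).card = s + ((logSet p S m ν d).card + 1) := by ring
    rw [← e1, ← e2]
    exact h4
  · rw [if_neg hc, add_zero, add_zero]
    refine fixP_mul_prod _ N s h1 ?_ (logSet p S m ν d) hev
    rw [hdeg, h2]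
    exact Nat.le_add_right _ _

open Polynomial in
private theorem HasF_triv {p : ℕ} [Fact p.Prime] {K : Type} [Field K] [IsAlgClosed K]
    [CharP K p] (Y : Finset K) {c : Prop} [Decidable c] (h : 1 ≤ Y.card + if c then 1 else 0) :
    FixP p ((1 : K[X]) * ∏ c ∈ Y, (X - C c) ^ (p - 1))
      (Y.card + (if c then 1 else 0) - 1) (Y.card + (if c then 1 else 0) - 1) := by
  classical
  have hp : 0 < p := (Fact.out : p.Prime).pos
  by_cases hc : c
  · rw [if_pos hc, Nat.add_sub_cancel]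
    have h1 := fixP_mul_prod (1 : K[X]) 0 0 (fixP_zero p hp 1) (by
      rw [natDegree_one]; exact Nat.zero_le _) Y (fun c _ => by
      rw [eval_one]; exact one_ne_zero)
    rw [zero_add] at h1
    exact h1
  · rw [if_neg hc, add_zero] at h ⊢
    obtain ⟨x, hx⟩ : Y.Nonempty := Finset.card_pos.1 h
    have h1 := fixP_mul_prod ((X - C x : K[X]) ^ (p - 1)) 0 0 (fixP_zero p hp _) (by
      rw [natDegree_pow, natDegree_X_sub_C, mul_one, zero_add, mul_one]) (Y.erase x) (fun c hc => by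
      rw [eval_pow, eval_sub, eval_X, eval_C]
      exact pow_ne_zero _ (sub_ne_zero.2 (Finset.ne_of_mem_erase hc)))
    rw [Finset.mul_prod_erase Y (fun c => (X - C c : K[X]) ^ (p - 1)) hx, zero_add,
      Finset.card_erase_of_mem hx] at h1
    rw [one_mul]
    exact h1

open Polynomial in
open Classical in
theorem hasCurve_piecesF (p : ℕ) [Fact p.Prime] (r : ℕ)
    (S : Fin r → Finset (AlgebraicClosure (ZMod p))) (hdj : ∀ i j, i ≠ j → Disjoint (S i) (S j))
    (hS : ∀ i, ∀ c ∈ S i, c ^ p ∈ S i) (m ν : Fin r → ℤ) (mI νI : ℤ)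
    (hmI : mI = -∑ i, ((S i).card : ℤ) * m i) (hνI : νI = -∑ i, ((S i).card : ℤ) * ν i)
    (hD : ∀ i, (S i).Nonempty → 0 < datD p (m i) (ν i) → ¬ (p : ℤ) ∣ datD p (m i) (ν i))
    (hDI : 0 < datD p mI νI → ¬ (p : ℤ) ∣ datD p mI νI)
    (hex : (∃ i, (S i).Nonempty ∧ 0 < datD p (m i) (ν i)) ∨ 0 < datD p mI νI)
    (Nb sb : ℕ → ℕ)
    (hb : ∀ d < p - 1, (¬ ∀ i, (S i).Nonempty → ((p : ℤ) - 1) ∣ d * m i) → FixP p
      (∏ i, (∏ c ∈ S i, (X - C c : (AlgebraicClosure (ZMod p))[X])) ^ datQ p (m i) d)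
      (Nb d) (sb d) ∧
      (p - 1) * (Nb d + 1) = ∑ i, (S i).card * datQ p (m i) d + datQ p mI d)
    (L : ℕ → ℕ) (hL : ∀ d < p - 1, L d =
      (∑ i, if 0 < datD p (m i) (ν i) ∧ ((p : ℤ) - 1) ∣ d * m i then (S i).card else 0) +
        if 0 < datD p mI νI ∧ ((p : ℤ) - 1) ∣ d * mI then 1 else 0)
    (g : ℕ) (hg : 2 * (g : ℤ) + 2 * (p - 1) =
      ∑ i, ((S i).card : ℤ) * datG p (m i) (ν i) + datG p mI νI) :
    HasCurve p g (∑ d ∈ Finset.range (p - 1),
      if ∀ i, (S i).Nonempty → ((p : ℤ) - 1) ∣ d * m i then L d - 1 else sb d + L d) := by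
  haveI : CharP (AlgebraicClosure (ZMod p)) p := charP_of_injective_algebraMap
    (algebraMap (ZMod p) (AlgebraicClosure (ZMod p))).injective p
  have hp2 : 2 ≤ p := (Fact.out : p.Prime).two_le
  have hn : 0 < p - 1 := by omega
  refine hasCurve_pieces p r S hdj hS m ν mI νI hmI hνI hD hDI hex
    (fun d => if ∀ i, (S i).Nonempty → ((p : ℤ) - 1) ∣ d * m i then L d - 1 else sb d + L d)
    ?_ g hg
  intro d hd
  have hLd := hL d hd
  have hcard := HasF_card_log (p := p) S hdj m ν d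
  rw [← hcard] at hLd
  rw [pie_prod S hdj m ν d, pie_card S hdj m ν d, datE_split mI νI d]
  by_cases ht : ∀ i, (S i).Nonempty → ((p : ℤ) - 1) ∣ d * m i
  · show FixP p _ _ (if ∀ i, (S i).Nonempty → ((p : ℤ) - 1) ∣ d * m i then L d - 1
      else sb d + L d)
    rw [if_pos ht]
    have hterm : ∀ i, (S i).card * datQ p (m i) d = 0 := by
      intro i
      rcases (S i).eq_empty_or_nonempty with h | h
      · rw [h, Finset.card_empty, zero_mul]
      · rw [(datQ_eq_zero_iff (m i) d).2 (ht i h), mul_zero]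
    have hsum : ∑ i, (S i).card * datQ p (m i) d = 0 := Finset.sum_eq_zero fun i _ => hterm i
    have hP : ∏ i, (∏ c ∈ S i, (X - C c : (AlgebraicClosure (ZMod p))[X])) ^ datQ p (m i) d =
        1 := by
      refine Finset.prod_eq_one fun i _ => ?_
      rcases (S i).eq_empty_or_nonempty with h | h
      · rw [h, Finset.prod_empty, one_pow]
      · rw [(datQ_eq_zero_iff (m i) d).2 (ht i h), pow_zero]
    have hdI : ((p : ℤ) - 1) ∣ d * mI := by
      rw [hmI, mul_neg, dvd_neg, Finset.mul_sum]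
      refine Finset.dvd_sum fun i _ => ?_
      rcases (S i).eq_empty_or_nonempty with h | h
      · rw [h, Finset.card_empty, Nat.cast_zero, zero_mul, mul_zero]
        exact dvd_zero _
      · have e : (d : ℤ) * (((S i).card : ℤ) * m i) = ((S i).card : ℤ) * (d * m i) := by ring
        rw [e]
        exact Dvd.dvd.mul_left (ht i h) _
    have hqI : datQ p mI d = 0 := (datQ_eq_zero_iff mI d).2 hdI
    have hL1 : 1 ≤ (logSet p S m ν d).card +
        if 0 < datD p mI νI ∧ ((p : ℤ) - 1) ∣ d * mI then 1 else 0 := by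
      rcases hex with ⟨i, ⟨c, hc⟩, h⟩ | h
      · have : 0 < (logSet p S m ν d).card :=
          Finset.card_pos.2 ⟨c, pie_mem.2 ⟨i, h, ht i ⟨c, hc⟩, hc⟩⟩
        omega
      · rw [if_pos ⟨h, hdI⟩]
        omega
    have hnum : (∑ i, (S i).card * datQ p (m i) d + (p - 1) * (logSet p S m ν d).card +
        (datQ p mI d + if 0 < datD p mI νI ∧ ((p : ℤ) - 1) ∣ d * mI then p - 1 else 0)) /
        (p - 1) - 1 = L d - 1 := by
      rw [hsum, hqI, zero_add, zero_add, hLd]
      have e : (p - 1) * (logSet p S m ν d).card +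
          (if 0 < datD p mI νI ∧ ((p : ℤ) - 1) ∣ d * mI then p - 1 else 0) =
          (p - 1) * ((logSet p S m ν d).card +
            if 0 < datD p mI νI ∧ ((p : ℤ) - 1) ∣ d * mI then 1 else 0) := by
        split_ifs
        · ring
        · ring
      rw [e, Nat.mul_div_cancel_left _ hn]
    rw [hnum, hP, hLd]
    exact HasF_triv (p := p) (logSet p S m ν d) hL1
  · show FixP p _ _ (if ∀ i, (S i).Nonempty → ((p : ℤ) - 1) ∣ d * m i then L d - 1
      else sb d + L d)
    rw [if_neg ht]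
    obtain ⟨h1, h2⟩ := hb d hd ht
    rw [HasF_num hn h2, hLd]
    exact HasF_nontriv S hdj m ν mI d (Nb d) (sb d) (fun h => h.2) h1 h2

end Pool.Agent.PRB
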