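import Pool.Agent.LibPRB.HasD
import Pool.Agent.LibPRB.FixO

/-! # Curves over `F_p` from ordinary branch data -/

set_option autoImplicit false

namespace Pool.Agent.PRB

/-- The contribution of a point with data `(m, ν)` to `2 f + 2 (p - 1)`. -/
def datF (p : ℕ) (m ν : ℤ) : ℤ :=
  if 0 < datD p m ν then (p - 1) + Int.gcd m (p - 1) else (p - 1) - Int.gcd m (p - 1)

section

variable {p : ℕ} [Fact p.Prime] {k : Type} [Field k] [IsAlgClosed k] [CharP k p]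

theorem HasO_sum_twl {K : Type} [Field K] [Algebra k K] {h v : K} {P : Plc k K} {m ν : ℤ}
    (hm : P.ord h = m) (hν : P.ord v = ν) :
    2 * ∑ d ∈ Finset.range (p - 1), twl p h v d P = datF p m ν + m * (p - 2) := by
  have hn := DatA_n (p := p)
  have hp2 := (Fact.out : p.Prime).two_le
  have hc : ((p - 1 : ℕ) : ℤ) = (p : ℤ) - 1 := by push_cast [show 1 ≤ p by omega]; ring
  unfold twl datF cdiv
  rw [DatA_twD hm hν, hm]
  split_ifs with h
  · have h1 := sum_log (p - 1) (by omega) m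
    rw [hc] at h1
    rw [h1]
    ring
  · have h1 := sum_tame (p - 1) (by omega) m
    rw [hc] at h1
    rw [h1]
    ring

theorem HasO_T (R : Finset k) (m ν : k → ℤ) (hm0 : ∀ c ∉ R, m c = 0) (hν0 : ∀ c ∉ R, ν c = 0)
    (d : ℕ) :
    ((∑ c ∈ R, datE p (m c) (ν c) d +
      datE p (-∑ c ∈ R, m c) (-∑ c ∈ R, ν c) d : ℕ) : ℤ) =
      (p - 1) * ((∑ c ∈ R, twl p (ratProd R m) (ratProd R ν) d (plC c)) +
      twl p (ratProd R m) (ratProd R ν) d (plI k)) := by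
  push_cast
  rw [mul_add, Finset.mul_sum,
    DatA_twl (ratProd_ordI R m) (ratProd_ordI R ν) d,
    Finset.sum_congr rfl fun c _ => DatA_twl (p := p) (ratProd_ordC R m hm0 c)
      (ratProd_ordC R ν hν0 c) d, Finset.sum_sub_distrib, ← Finset.mul_sum,
    ← Finset.mul_sum]
  ring

theorem HasO_deg (R : Finset k) (m ν : k → ℤ) (hm0 : ∀ c ∉ R, m c = 0)
    (hν0 : ∀ c ∉ R, ν c = 0) (d : ℕ) :
    (datW p R m ν d).natDegree ≤ (p - 1) * (datN p R m ν d + 1) := by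
  have hn := DatA_n (p := p)
  have hp2 := (Fact.out : p.Prime).two_le
  have hc : ((p - 1 : ℕ) : ℤ) = (p : ℤ) - 1 := by push_cast [show 1 ≤ p by omega]; ring
  have h1 : (datW p R m ν d).natDegree = ∑ c ∈ R, datE p (m c) (ν c) d := by
    unfold datW
    rw [Polynomial.natDegree_prod_of_monic _ _
      (fun c _ => (Polynomial.monic_X_sub_C c).pow _)]
    refine Finset.sum_congr rfl fun c _ => ?_
    rw [(Polynomial.monic_X_sub_C c).natDegree_pow, Polynomial.natDegree_X_sub_C, mul_one]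
  have h2 := HasO_T (p := p) R m ν hm0 hν0 d
  set S : ℤ := (∑ c ∈ R, twl p (ratProd R m) (ratProd R ν) d (plC c)) +
      twl p (ratProd R m) (ratProd R ν) d (plI k) with hS
  have h3 : 0 ≤ S := by
    by_contra h
    have h3 : (0 : ℤ) ≤ ((∑ c ∈ R, datE p (m c) (ν c) d +
      datE p (-∑ c ∈ R, m c) (-∑ c ∈ R, ν c) d : ℕ) : ℤ) := by positivity
    rw [h2] at h3
    nlinarith
  obtain ⟨T, hT⟩ := Int.eq_ofNat_of_zero_le h3
  have h4 : ∑ c ∈ R, datE p (m c) (ν c) d +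
      datE p (-∑ c ∈ R, m c) (-∑ c ∈ R, ν c) d = (p - 1) * T := by
    have h5 : ((∑ c ∈ R, datE p (m c) (ν c) d +
      datE p (-∑ c ∈ R, m c) (-∑ c ∈ R, ν c) d : ℕ) : ℤ) = (((p - 1) * T : ℕ) : ℤ) := by
      rw [h2, hT]
      push_cast
      rw [hc]
    exact_mod_cast h5
  have hp1 : 0 < p - 1 := by omega
  rw [h1]
  unfold datN
  rw [h4, Nat.mul_div_cancel_left _ hp1]
  calc ∑ c ∈ R, datE p (m c) (ν c) d ≤ (p - 1) * T := by omega
    _ ≤ (p - 1) * (T - 1 + 1) := Nat.mul_le_mul_left _ (by omega)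

theorem HasO_sumN (R : Finset k) (m ν : k → ℤ) (hm0 : ∀ c ∉ R, m c = 0)
    (hν0 : ∀ c ∉ R, ν c = 0)
    (hex : (∃ c ∈ R, 0 < datD p (m c) (ν c)) ∨ 0 < datD p (-∑ c ∈ R, m c) (-∑ c ∈ R, ν c)) :
    2 * ((∑ d ∈ Finset.range (p - 1), datN p R m ν d : ℕ) : ℤ) + 2 * (p - 1) =
      ∑ c ∈ R, datF p (m c) (ν c) + datF p (-∑ c ∈ R, m c) (-∑ c ∈ R, ν c) := by
  have hn := DatA_n (p := p)
  have hp2 := (Fact.out : p.Prime).two_le
  have hc : ((p - 1 : ℕ) : ℤ) = (p : ℤ) - 1 := by push_cast [show 1 ≤ p by omega]; ring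
  have hp1 : 0 < p - 1 := by omega
  set h : RatFunc k := ratProd R m with hh
  set v : RatFunc k := ratProd R ν with hv
  have hmC : ∀ c, (plC c).ord h = m c := ratProd_ordC R m hm0
  have hνC : ∀ c, (plC c).ord v = ν c := ratProd_ordC R ν hν0
  have hmI : (plI k).ord h = -∑ c ∈ R, m c := ratProd_ordI R m
  have hνI : (plI k).ord v = -∑ c ∈ R, ν c := ratProd_ordI R ν
  have hkey : ∀ d ∈ Finset.range (p - 1), ((datN p R m ν d : ℕ) : ℤ) =
      (∑ c ∈ R, twl p h v d (plC c)) + twl p h v d (plI k) - 1 := by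
    intro d _
    rw [← HasD_N R m ν hm0 hν0 d]
    apply Int.toNat_of_nonneg
    have h1 := HasO_T (p := p) R m ν hm0 hν0 d
    have h2 : (1 : ℤ) ≤ ((∑ c ∈ R, datE p (m c) (ν c) d +
      datE p (-∑ c ∈ R, m c) (-∑ c ∈ R, ν c) d : ℕ) : ℤ) := by
      have h3 : ∀ a b : ℤ, 0 < datD p a b → 1 ≤ datE p a b d := by
        intro a b hab
        unfold datE
        rw [if_pos hab]
        have h4 := Int.emod_lt_of_pos (d * a) hn
        omega
      rcases hex with ⟨c, hcR, hc⟩ | hc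
      · have h5 : datE p (m c) (ν c) d ≤ ∑ c ∈ R, datE p (m c) (ν c) d :=
          Finset.single_le_sum (f := fun c => datE p (m c) (ν c) d) (fun _ _ => Nat.zero_le _) hcR
        have h6 := h3 _ _ hc
        exact_mod_cast (by omega : 1 ≤ ∑ c ∈ R, datE p (m c) (ν c) d +
          datE p (-∑ c ∈ R, m c) (-∑ c ∈ R, ν c) d)
      · have h6 := h3 _ _ hc
        exact_mod_cast (by omega : 1 ≤ ∑ c ∈ R, datE p (m c) (ν c) d +
          datE p (-∑ c ∈ R, m c) (-∑ c ∈ R, ν c) d)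
    rw [h1] at h2
    nlinarith
  have h2 : ((∑ d ∈ Finset.range (p - 1), datN p R m ν d : ℕ) : ℤ) =
      ∑ d ∈ Finset.range (p - 1), ((∑ c ∈ R, twl p h v d (plC c)) + twl p h v d (plI k) - 1) := by
    push_cast
    exact Finset.sum_congr rfl hkey
  rw [h2, Finset.sum_sub_distrib, Finset.sum_add_distrib, Finset.sum_comm, mul_sub, mul_add,
    Finset.mul_sum,
    Finset.sum_congr rfl fun c _ => HasO_sum_twl (p := p) (hmC c) (hνC c),
    HasO_sum_twl hmI hνI, Finset.sum_add_distrib, ← Finset.sum_mul]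
  simp only [Finset.sum_const, Finset.card_range, nsmul_eq_mul, mul_one]
  rw [hc]
  ring

end

theorem hasCurve_of_ordData (p : ℕ) [Fact p.Prime] (R : Finset (AlgebraicClosure (ZMod p)))
    (m ν : AlgebraicClosure (ZMod p) → ℤ) (hm0 : ∀ c ∉ R, m c = 0) (hν0 : ∀ c ∉ R, ν c = 0)
    (hR : ∀ c ∈ R, c ^ p ∈ R) (hm : ∀ c ∈ R, m (c ^ p) = m c) (hν : ∀ c ∈ R, ν (c ^ p) = ν c)
    (hD : ∀ c ∈ R, 0 < datD p (m c) (ν c) → ¬ (p : ℤ) ∣ datD p (m c) (ν c))
    (hDI : 0 < datD p (-∑ c ∈ R, m c) (-∑ c ∈ R, ν c) →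
      ¬ (p : ℤ) ∣ datD p (-∑ c ∈ R, m c) (-∑ c ∈ R, ν c))
    (hex : (∃ c ∈ R, 0 < datD p (m c) (ν c)) ∨ 0 < datD p (-∑ c ∈ R, m c) (-∑ c ∈ R, ν c))
    (hs : ∀ d < p - 1, OrdP p (datW p R m ν d) (datN p R m ν d))
    (g f : ℕ) (hg : 2 * (g : ℤ) + 2 * (p - 1) =
      ∑ c ∈ R, datG p (m c) (ν c) + datG p (-∑ c ∈ R, m c) (-∑ c ∈ R, ν c))
    (hf : 2 * (f : ℤ) + 2 * (p - 1) =
      ∑ c ∈ R, datF p (m c) (ν c) + datF p (-∑ c ∈ R, m c) (-∑ c ∈ R, ν c)) :
    HasCurve p g f := by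
  haveI hch : CharP (AlgebraicClosure (ZMod p)) p :=
    charP_of_injective_algebraMap (algebraMap (ZMod p) (AlgebraicClosure (ZMod p))).injective p
  have h1 := hasCurve_of_data p R m ν hm0 hν0 hR hm hν hD hDI hex (fun d => datN p R m ν d)
    (fun d hd => fixP_of_ordP _ _ (HasO_deg R m ν hm0 hν0 d) (hs d hd)) g hg
  have h2 := HasO_sumN (p := p) R m ν hm0 hν0 hex
  have h3 : f = ∑ d ∈ Finset.range (p - 1), datN p R m ν d := by
    have h4 : 2 * (f : ℤ) = 2 * ((∑ d ∈ Finset.range (p - 1), datN p R m ν d : ℕ) : ℤ) := by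
      linarith
    have h5 := Int.eq_of_mul_eq_mul_left (by norm_num) h4
    exact_mod_cast h5
  rw [h3]
  exact h1

end Pool.Agent.PRB
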