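import Pool.Agent.LibPRB.HasO

/-!
# Curves over `F_p` from branch data which are constant on pieces

PLAN. `R = Finset.univ.biUnion S`, `mf c = ∑ i, if c ∈ S i then m i else 0` (only one term is nonzero),
`νf` similarly.  `c ∈ S i → mf c = m i`.  For every `G : ℤ → ℤ → M` (`M` a commutative monoid; `Finset.sum_biUnion`,
`Finset.prod_biUnion` with the pairwise disjointness): `∑ c ∈ R, G (mf c) (νf c) = ∑ i, (S i).card • G (m i) (ν i)`;
`datW = ∏ i, (∏ c ∈ S i, (X - C c)) ^ datE ...` (`Finset.prod_pow`), `datN` as stated (`mI`, `νI`).  The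
Frobenius conditions: `c ∈ S i → c ^ p ∈ S i`.  Then `hasCurve_of_data` (HasD.lean), `hasCurve_of_ordData` (HasO.lean).
-/

set_option autoImplicit false

namespace Pool.Agent.PRB

open Classical in
private noncomputable def HasP_f {r : ℕ} {K : Type} (S : Fin r → Finset K) (m : Fin r → ℤ)
    (c : K) : ℤ :=
  ∑ i, if c ∈ S i then m i else 0

open Classical in
private noncomputable def HasP_R {r : ℕ} {K : Type} (S : Fin r → Finset K) : Finset K :=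
  Finset.univ.biUnion S

private theorem HasP_mem {r : ℕ} {K : Type} {S : Fin r → Finset K} {c : K} :
    c ∈ HasP_R S ↔ ∃ i, c ∈ S i := by
  classical
  unfold HasP_R
  simp

private theorem HasP_f_eq {r : ℕ} {K : Type} {S : Fin r → Finset K}
    (hdj : ∀ i j, i ≠ j → Disjoint (S i) (S j)) (m : Fin r → ℤ) {i : Fin r} {c : K}
    (hc : c ∈ S i) : HasP_f S m c = m i := by
  classical
  unfold HasP_f
  rw [Finset.sum_eq_single i]
  · rw [if_pos hc]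
  · intro j _ hj
    rw [if_neg]
    intro h
    exact Finset.disjoint_left.mp (hdj j i hj) h hc
  · intro h
    exact absurd (Finset.mem_univ i) h

private theorem HasP_f_zero {r : ℕ} {K : Type} {S : Fin r → Finset K} (m : Fin r → ℤ) {c : K}
    (hc : c ∉ HasP_R S) : HasP_f S m c = 0 := by
  classical
  unfold HasP_f
  apply Finset.sum_eq_zero
  intro i _
  rw [if_neg]
  intro h
  exact hc (HasP_mem.mpr ⟨i, h⟩)

private theorem HasP_prod {r : ℕ} {K M : Type} [CommMonoid M] {S : Fin r → Finset K}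
    (hdj : ∀ i j, i ≠ j → Disjoint (S i) (S j)) (F : K → M) :
    ∏ c ∈ HasP_R S, F c = ∏ i, ∏ c ∈ S i, F c := by
  classical
  unfold HasP_R
  rw [Finset.prod_biUnion]
  intro i _ j _ hij
  exact hdj i j hij

private theorem HasP_sum {r : ℕ} {K M : Type} [AddCommMonoid M] {S : Fin r → Finset K}
    (hdj : ∀ i j, i ≠ j → Disjoint (S i) (S j)) (F : K → M) :
    ∑ c ∈ HasP_R S, F c = ∑ i, ∑ c ∈ S i, F c := by
  classical
  unfold HasP_R
  rw [Finset.sum_biUnion]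
  intro i _ j _ hij
  exact hdj i j hij

private theorem HasP_sumG {r : ℕ} {K M : Type} [AddCommMonoid M] {S : Fin r → Finset K}
    (hdj : ∀ i j, i ≠ j → Disjoint (S i) (S j)) (m ν : Fin r → ℤ) (G : ℤ → ℤ → M) :
    ∑ c ∈ HasP_R S, G (HasP_f S m c) (HasP_f S ν c) = ∑ i, (S i).card • G (m i) (ν i) := by
  rw [HasP_sum hdj]
  refine Finset.sum_congr rfl fun i _ => ?_
  rw [← Finset.sum_const]
  refine Finset.sum_congr rfl fun c hc => ?_
  rw [HasP_f_eq hdj m hc, HasP_f_eq hdj ν hc]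

private theorem HasP_sumZ {r : ℕ} {K : Type} {S : Fin r → Finset K}
    (hdj : ∀ i j, i ≠ j → Disjoint (S i) (S j)) (m ν : Fin r → ℤ) (G : ℤ → ℤ → ℤ) :
    ∑ c ∈ HasP_R S, G (HasP_f S m c) (HasP_f S ν c) = ∑ i, ((S i).card : ℤ) * G (m i) (ν i) := by
  rw [HasP_sumG hdj]
  refine Finset.sum_congr rfl fun i _ => ?_
  rw [nsmul_eq_mul]

private theorem HasP_W {r : ℕ} {p : ℕ} {K : Type} [Field K] {S : Fin r → Finset K}
    (hdj : ∀ i j, i ≠ j → Disjoint (S i) (S j)) (m ν : Fin r → ℤ) (d : ℕ) :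
    datW p (HasP_R S) (HasP_f S m) (HasP_f S ν) d =
      ∏ i, (∏ c ∈ S i, (Polynomial.X - Polynomial.C c)) ^ datE p (m i) (ν i) d := by
  unfold datW
  rw [HasP_prod hdj]
  refine Finset.prod_congr rfl fun i _ => ?_
  rw [← Finset.prod_pow]
  refine Finset.prod_congr rfl fun c hc => ?_
  rw [HasP_f_eq hdj m hc, HasP_f_eq hdj ν hc]

private theorem HasP_N {r : ℕ} {p : ℕ} {K : Type} {S : Fin r → Finset K}
    (hdj : ∀ i j, i ≠ j → Disjoint (S i) (S j)) (m ν : Fin r → ℤ) {mI νI : ℤ}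
    (h1 : -∑ c ∈ HasP_R S, HasP_f S m c = mI) (h2 : -∑ c ∈ HasP_R S, HasP_f S ν c = νI) (d : ℕ) :
    datN p (HasP_R S) (HasP_f S m) (HasP_f S ν) d =
      (∑ i, (S i).card * datE p (m i) (ν i) d + datE p mI νI d) / (p - 1) - 1 := by
  unfold datN
  rw [h1, h2, HasP_sumG hdj m ν (fun a b => datE p a b d)]
  simp only [smul_eq_mul]

private theorem HasP_I {r : ℕ} {K : Type} {S : Fin r → Finset K}
    (hdj : ∀ i j, i ≠ j → Disjoint (S i) (S j)) (m : Fin r → ℤ) {mI : ℤ}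
    (hmI : mI = -∑ i, ((S i).card : ℤ) * m i) : -∑ c ∈ HasP_R S, HasP_f S m c = mI := by
  rw [hmI, HasP_sumZ hdj m m (fun a _ => a)]

open Polynomial in
theorem hasCurve_pieces (p : ℕ) [Fact p.Prime] (r : ℕ)
    (S : Fin r → Finset (AlgebraicClosure (ZMod p))) (hdj : ∀ i j, i ≠ j → Disjoint (S i) (S j))
    (hS : ∀ i, ∀ c ∈ S i, c ^ p ∈ S i) (m ν : Fin r → ℤ) (mI νI : ℤ)
    (hmI : mI = -∑ i, ((S i).card : ℤ) * m i) (hνI : νI = -∑ i, ((S i).card : ℤ) * ν i)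
    (hD : ∀ i, (S i).Nonempty → 0 < datD p (m i) (ν i) → ¬ (p : ℤ) ∣ datD p (m i) (ν i))
    (hDI : 0 < datD p mI νI → ¬ (p : ℤ) ∣ datD p mI νI)
    (hex : (∃ i, (S i).Nonempty ∧ 0 < datD p (m i) (ν i)) ∨ 0 < datD p mI νI)
    (s : ℕ → ℕ)
    (hs : ∀ d < p - 1, FixP p
      (∏ i, (∏ c ∈ S i, (X - C c : (AlgebraicClosure (ZMod p))[X])) ^ datE p (m i) (ν i) d)
      ((∑ i, (S i).card * datE p (m i) (ν i) d + datE p mI νI d) / (p - 1) - 1) (s d))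
    (g : ℕ) (hg : 2 * (g : ℤ) + 2 * (p - 1) =
      ∑ i, ((S i).card : ℤ) * datG p (m i) (ν i) + datG p mI νI) :
    HasCurve p g (∑ d ∈ Finset.range (p - 1), s d) := by
  have eI := HasP_I hdj m hmI
  have eJ := HasP_I hdj ν hνI
  refine hasCurve_of_data p (HasP_R S) (HasP_f S m) (HasP_f S ν) (fun c hc => HasP_f_zero m hc)
    (fun c hc => HasP_f_zero ν hc) ?_ ?_ ?_ ?_ ?_ ?_ s ?_ g ?_
  · intro c hc
    obtain ⟨i, hi⟩ := HasP_mem.mp hc
    exact HasP_mem.mpr ⟨i, hS i c hi⟩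
  · intro c hc
    obtain ⟨i, hi⟩ := HasP_mem.mp hc
    rw [HasP_f_eq hdj m hi, HasP_f_eq hdj m (hS i c hi)]
  · intro c hc
    obtain ⟨i, hi⟩ := HasP_mem.mp hc
    rw [HasP_f_eq hdj ν hi, HasP_f_eq hdj ν (hS i c hi)]
  · intro c hc
    obtain ⟨i, hi⟩ := HasP_mem.mp hc
    rw [HasP_f_eq hdj m hi, HasP_f_eq hdj ν hi]
    exact hD i ⟨c, hi⟩
  · rw [eI, eJ]
    exact hDI
  · rw [eI, eJ]
    rcases hex with ⟨i, ⟨c, hc⟩, h⟩ | h
    · refine Or.inl ⟨c, HasP_mem.mpr ⟨i, hc⟩, ?_⟩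
      rw [HasP_f_eq hdj m hc, HasP_f_eq hdj ν hc]
      exact h
    · exact Or.inr h
  · intro d hd
    rw [HasP_W hdj, HasP_N hdj m ν eI eJ]
    exact hs d hd
  · rw [eI, eJ, HasP_sumZ hdj m ν (fun a b => datG p a b)]
    exact hg

open Polynomial in
theorem hasCurve_piecesO (p : ℕ) [Fact p.Prime] (r : ℕ)
    (S : Fin r → Finset (AlgebraicClosure (ZMod p))) (hdj : ∀ i j, i ≠ j → Disjoint (S i) (S j))
    (hS : ∀ i, ∀ c ∈ S i, c ^ p ∈ S i) (m ν : Fin r → ℤ) (mI νI : ℤ)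
    (hmI : mI = -∑ i, ((S i).card : ℤ) * m i) (hνI : νI = -∑ i, ((S i).card : ℤ) * ν i)
    (hD : ∀ i, (S i).Nonempty → 0 < datD p (m i) (ν i) → ¬ (p : ℤ) ∣ datD p (m i) (ν i))
    (hDI : 0 < datD p mI νI → ¬ (p : ℤ) ∣ datD p mI νI)
    (hex : (∃ i, (S i).Nonempty ∧ 0 < datD p (m i) (ν i)) ∨ 0 < datD p mI νI)
    (hs : ∀ d < p - 1, OrdP p
      (∏ i, (∏ c ∈ S i, (X - C c : (AlgebraicClosure (ZMod p))[X])) ^ datE p (m i) (ν i) d)
      ((∑ i, (S i).card * datE p (m i) (ν i) d + datE p mI νI d) / (p - 1) - 1))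
    (g f : ℕ) (hg : 2 * (g : ℤ) + 2 * (p - 1) =
      ∑ i, ((S i).card : ℤ) * datG p (m i) (ν i) + datG p mI νI)
    (hf : 2 * (f : ℤ) + 2 * (p - 1) =
      ∑ i, ((S i).card : ℤ) * datF p (m i) (ν i) + datF p mI νI) :
    HasCurve p g f := by
  have eI := HasP_I hdj m hmI
  have eJ := HasP_I hdj ν hνI
  refine hasCurve_of_ordData p (HasP_R S) (HasP_f S m) (HasP_f S ν) (fun c hc => HasP_f_zero m hc)
    (fun c hc => HasP_f_zero ν hc) ?_ ?_ ?_ ?_ ?_ ?_ ?_ g f ?_ ?_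
  · intro c hc
    obtain ⟨i, hi⟩ := HasP_mem.mp hc
    exact HasP_mem.mpr ⟨i, hS i c hi⟩
  · intro c hc
    obtain ⟨i, hi⟩ := HasP_mem.mp hc
    rw [HasP_f_eq hdj m hi, HasP_f_eq hdj m (hS i c hi)]
  · intro c hc
    obtain ⟨i, hi⟩ := HasP_mem.mp hc
    rw [HasP_f_eq hdj ν hi, HasP_f_eq hdj ν (hS i c hi)]
  · intro c hc
    obtain ⟨i, hi⟩ := HasP_mem.mp hc
    rw [HasP_f_eq hdj m hi, HasP_f_eq hdj ν hi]
    exact hD i ⟨c, hi⟩
  · rw [eI, eJ]
    exact hDI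
  · rw [eI, eJ]
    rcases hex with ⟨i, ⟨c, hc⟩, h⟩ | h
    · refine Or.inl ⟨c, HasP_mem.mpr ⟨i, hc⟩, ?_⟩
      rw [HasP_f_eq hdj m hc, HasP_f_eq hdj ν hc]
      exact h
    · exact Or.inr h
  · intro d hd
    rw [HasP_W hdj, HasP_N hdj m ν eI eJ]
    exact hs d hd
  · rw [eI, eJ, HasP_sumZ hdj m ν (fun a b => datG p a b)]
    exact hg
  · rw [eI, eJ, HasP_sumZ hdj m ν (fun a b => datF p a b)]
    exact hf

end Pool.Agent.PRB
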