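import Pool.Agent.LibPRB.HasF
import Pool.Agent.LibPRB.BoxC

/-!
# Curves over `F_p` from rational branch points with prescribed invariants

PLAN. `hasCurve_tab`: let `n = p - 1`, `mI = -∑ m i`.  Choose `ν : Fin r → ℤ`, for `D i ≠ 0`: `n ν_i = p m_i - D_i`; for
`D i = 0`, `i ≠ j0`: `n ν_i = p m_i + (-m_i) % n`; `n ν_(j0) = p m_(j0) + (-m_(j0)) % n + n t`, where `t ≥ 0` is the integer with
`n t = ∑ D_i + DI + n |C| - ∑_{D i = 0} (-m_i) % n - (if DI = 0 then (∑ m) % n else 0)` (divisible by `n`: modulo `n`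
`D_i ≡ m_i`, `-((-m_i) % n) ≡ m_i`, `DI ≡ mI`, total `∑ m_i + mI = 0`; nonnegative by `hcl`).  Then `datD p (m i) (ν i) = D_i` for
`D i ≠ 0`, and `≤ 0` for `D i = 0`.  Use `hasCurve_piecesF` (HasF.lean) with `r + 1` pieces (`Fin.snoc`/`Fin.cons`): `C` with
`m = 0`, `ν = -1` (`datD p 0 (-1) = p - 1`), and `{algebraMap (c i)}` with `(m i, ν i)`; `νI = -(∑ ν_i - |C|)` gives
`datD p mI νI = DI` if `DI ≠ 0` and `-((∑ m) % n) ≤ 0` if `DI = 0` (the sum of all `datD` is `0`).  `datQ p 0 d = 0`.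
`Fin.sum_univ_succ`, `Fin.prod_univ_succ` (`Fin.cons`).  If `C` is empty the piece `C` contributes nothing.
`exists_unram`: `δ = 0`: empty; `δ = 1`: a point of `ZMod p` not among the `c i` (`r < p`, `Finset.exists_mem_notMem_of_card_lt_card`);
`δ ≥ 2`: `exists_orbit` (BoxC.lean), `x ^ p ≠ x` for its elements (`j = 1`), so they are not in the image of `ZMod p`.
-/

set_option autoImplicit false

namespace Pool.Agent.PRB

private theorem HasT_nu (p : ℕ) (m δ : ℤ) (h : ((p : ℤ) - 1) ∣ δ - m) :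
    ∃ ν : ℤ, datD p m ν = δ := by
  obtain ⟨k, hk⟩ := h
  refine ⟨m - k, ?_⟩
  unfold datD
  linear_combination -hk

private theorem HasT_emod (n m : ℤ) : n ∣ -((-m) % n) - m := by
  rw [Int.emod_def]
  exact ⟨(-m) / n, by ring⟩

private theorem HasT_datQ0 (p d : ℕ) : datQ p 0 d = 0 := by
  unfold datQ
  simp

/-- existence of the integers `ν i` -/
private theorem HasT_exists (p : ℕ) [Fact p.Prime] (r : ℕ) (m : Fin r → ℤ) (D : Fin r → ℕ)
    (DI : ℕ) (j0 : Fin r) (hj0 : D j0 = 0) (n0 : ℕ)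
    (hD : ∀ i, D i ≠ 0 → ((p : ℤ) - 1) ∣ D i - m i ∧ ¬ p ∣ D i)
    (hDI : DI ≠ 0 → ((p : ℤ) - 1) ∣ DI + ∑ i, m i ∧ ¬ p ∣ DI)
    (hcl : (∑ i, if D i = 0 then (-m i) % ((p : ℤ) - 1) else 0) +
      (if DI = 0 then (∑ i, m i) % ((p : ℤ) - 1) else 0) ≤
        ∑ i, (D i : ℤ) + DI + ((p : ℤ) - 1) * n0) :
    ∃ ν : Fin r → ℤ, (∀ i, D i ≠ 0 → datD p (m i) (ν i) = D i) ∧
      (∀ i, D i = 0 → datD p (m i) (ν i) ≤ 0) ∧
      (DI ≠ 0 → datD p (-∑ i, m i) (-(∑ i, ν i - n0)) = DI) ∧
      (DI = 0 → datD p (-∑ i, m i) (-(∑ i, ν i - n0)) ≤ 0) := by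
  classical
  obtain ⟨n, hn⟩ : ∃ n : ℤ, n = (p : ℤ) - 1 := ⟨_, rfl⟩
  have hn0 : 0 < n := by
    have := (Fact.out : p.Prime).two_le
    omega
  rw [← hn] at hD hDI hcl
  let Del : Fin r → ℤ := fun i => if D i = 0 then -((-m i) % n) else (D i : ℤ)
  let DelI : ℤ := if DI = 0 then -((∑ i, m i) % n) else (DI : ℤ)
  have hDel : ∀ i, n ∣ Del i - m i := by
    intro i
    by_cases h : D i = 0
    · simp only [Del, if_pos h]
      exact HasT_emod n (m i)
    · simp only [Del, if_neg h]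
      exact (hD i h).1
  have hDelI : n ∣ DelI + ∑ i, m i := by
    by_cases h : DI = 0
    · simp only [DelI, if_pos h]
      rw [Int.emod_def]
      exact ⟨(∑ i, m i) / n, by ring⟩
    · simp only [DelI, if_neg h]
      exact (hDI h).1
  have hsum : n ∣ ∑ i, Del i - ∑ i, m i := by
    rw [← Finset.sum_sub_distrib]
    exact Finset.dvd_sum fun i _ => hDel i
  obtain ⟨t, ht⟩ : n ∣ ∑ i, Del i + DelI + n * n0 := by
    obtain ⟨a, ha⟩ := hsum
    obtain ⟨b, hb⟩ := hDelI
    exact ⟨a + b + n0, by linear_combination ha + hb⟩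
  have hDels : ∑ i, Del i = ∑ i, (D i : ℤ) - ∑ i, (if D i = 0 then (-m i) % n else 0) := by
    rw [← Finset.sum_sub_distrib]
    refine Finset.sum_congr rfl fun i _ => ?_
    by_cases h : D i = 0
    · simp only [Del, if_pos h]
      rw [h]
      push_cast
      ring
    · simp only [Del, if_neg h]
      ring
  have hDelIs : DelI = (DI : ℤ) - (if DI = 0 then (∑ i, m i) % n else 0) := by
    by_cases h : DI = 0
    · simp only [DelI, if_pos h]
      rw [h]
      push_cast
      ring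
    · simp only [DelI, if_neg h]
      ring
  have ht0 : 0 ≤ t := by
    have h1 : 0 ≤ n * t := by
      rw [← ht, hDels, hDelIs]
      linarith
    exact nonneg_of_mul_nonneg_right h1 hn0
  have hex : ∀ i, ∃ ν : ℤ, datD p (m i) ν = Del i - (if i = j0 then n * t else 0) := by
    intro i
    apply HasT_nu
    rw [← hn]
    have h1 : Del i - (if i = j0 then n * t else 0) - m i =
        (Del i - m i) - (if i = j0 then n * t else 0) := by ring
    rw [h1]
    refine dvd_sub (hDel i) ?_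
    split_ifs
    · exact dvd_mul_right _ _
    · exact dvd_zero _
  choose ν hν using hex
  have htot : datD p (-∑ i, m i) (-(∑ i, ν i - n0)) = DelI := by
    have h1 : ∑ i, datD p (m i) (ν i) = ∑ i, Del i - n * t := by
      rw [Finset.sum_congr rfl fun i _ => hν i, Finset.sum_sub_distrib,
        Finset.sum_ite_eq' Finset.univ j0 (fun _ => n * t), if_pos (Finset.mem_univ j0)]
    have h2 : ∑ i, datD p (m i) (ν i) = p * ∑ i, m i - n * ∑ i, ν i := by
      unfold datD
      rw [Finset.sum_sub_distrib, ← Finset.mul_sum, ← Finset.mul_sum, hn]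
    unfold datD
    rw [← hn]
    linear_combination h2 - h1 - ht
  refine ⟨ν, ?_, ?_, ?_, ?_⟩
  · intro i hi
    rw [hν i, if_neg, sub_zero]
    · simp only [Del, if_neg hi]
    · rintro rfl
      exact hi hj0
  · intro i hi
    rw [hν i]
    have h1 : Del i ≤ 0 := by
      simp only [Del, if_pos hi]
      have := Int.emod_nonneg (-m i) hn0.ne'
      linarith
    have h2 : 0 ≤ if i = j0 then n * t else 0 := by
      split_ifs
      · exact mul_nonneg hn0.le ht0
      · exact le_rfl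
    linarith
  · intro h
    rw [htot]
    simp only [DelI, if_neg h]
  · intro h
    rw [htot]
    simp only [DelI, if_pos h]
    have := Int.emod_nonneg (∑ i, m i) hn0.ne'
    linarith

open Polynomial in
open Classical in
theorem hasCurve_tab (p : ℕ) [Fact p.Prime] (r : ℕ) (c : Fin r → ZMod p)
    (hc : Function.Injective c) (m : Fin r → ℤ) (D : Fin r → ℕ) (DI : ℕ) (j0 : Fin r)
    (hj0 : D j0 = 0) (C' : Finset (AlgebraicClosure (ZMod p))) (hCφ : ∀ x ∈ C', x ^ p ∈ C')
    (hCd : ∀ i, algebraMap (ZMod p) (AlgebraicClosure (ZMod p)) (c i) ∉ C')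
    (hD : ∀ i, D i ≠ 0 → ((p : ℤ) - 1) ∣ D i - m i ∧ ¬ p ∣ D i)
    (hDI : DI ≠ 0 → ((p : ℤ) - 1) ∣ DI + ∑ i, m i ∧ ¬ p ∣ DI)
    (hcl : (∑ i, if D i = 0 then (-m i) % ((p : ℤ) - 1) else 0) +
      (if DI = 0 then (∑ i, m i) % ((p : ℤ) - 1) else 0) ≤
        ∑ i, (D i : ℤ) + DI + ((p : ℤ) - 1) * C'.card)
    (hex : 0 < ∑ i, D i + DI + C'.card)
    (Nb sb : ℕ → ℕ)
    (hb : ∀ d < p - 1, (¬ ∀ i, ((p : ℤ) - 1) ∣ d * m i) → FixP p
      (∏ i, (X - C (algebraMap (ZMod p) (AlgebraicClosure (ZMod p)) (c i))) ^ datQ p (m i) d)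
      (Nb d) (sb d) ∧ (p - 1) * (Nb d + 1) = ∑ i, datQ p (m i) d + datQ p (-∑ i, m i) d)
    (L : ℕ → ℕ) (hL : ∀ d < p - 1, L d =
      (∑ i, if D i ≠ 0 ∧ ((p : ℤ) - 1) ∣ d * m i then 1 else 0) +
        (if DI ≠ 0 ∧ ((p : ℤ) - 1) ∣ d * ∑ i, m i then 1 else 0) + C'.card)
    (g f : ℕ) (hg : 2 * (g : ℤ) + 2 * (p - 1) =
      (∑ i, if D i = 0 then ((p : ℤ) - 1) - Int.gcd (m i) (p - 1) else (p - 1) + D i) +
        (if DI = 0 then ((p : ℤ) - 1) - Int.gcd (∑ i, m i) (p - 1) else (p - 1) + DI) +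
        2 * (p - 1) * C'.card)
    (hf : f = ∑ d ∈ Finset.range (p - 1),
      if ∀ i, ((p : ℤ) - 1) ∣ d * m i then L d - 1 else sb d + L d) : HasCurve p g f := by
  obtain ⟨ν, hν1, hν2, hν3, hν4⟩ := HasT_exists p r m D DI j0 hj0 C'.card hD hDI hcl
  have hp2 := (Fact.out : p.Prime).two_le
  have hn0 : (0 : ℤ) < (p : ℤ) - 1 := by omega
  have hpos : ∀ i, 0 < datD p (m i) (ν i) ↔ D i ≠ 0 := by
    intro i
    constructor
    · intro h h0
      exact absurd (hν2 i h0) (not_le.2 h)
    · intro h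
      rw [hν1 i h]
      exact_mod_cast Nat.pos_of_ne_zero h
  have hposI : 0 < datD p (-∑ i, m i) (-(∑ i, ν i - C'.card)) ↔ DI ≠ 0 := by
    constructor
    · intro h h0
      exact absurd (hν4 h0) (not_le.2 h)
    · intro h
      rw [hν3 h]
      exact_mod_cast Nat.pos_of_ne_zero h
  have hd0 : datD p 0 (-1) = (p : ℤ) - 1 := by
    unfold datD
    ring
  let S : Fin (r + 1) → Finset (AlgebraicClosure (ZMod p)) :=
    Fin.cons C' (fun i => {algebraMap (ZMod p) (AlgebraicClosure (ZMod p)) (c i)})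
  let m' : Fin (r + 1) → ℤ := Fin.cons 0 m
  let ν' : Fin (r + 1) → ℤ := Fin.cons (-1) ν
  have hS0 : S 0 = C' := rfl
  have hSs : ∀ i : Fin r, S i.succ = {algebraMap (ZMod p) (AlgebraicClosure (ZMod p)) (c i)} :=
    fun i => rfl
  have hm0 : m' 0 = 0 := rfl
  have hms : ∀ i : Fin r, m' i.succ = m i := fun i => rfl
  have hn0' : ν' 0 = -1 := rfl
  have hns : ∀ i : Fin r, ν' i.succ = ν i := fun i => rfl
  have hall : ∀ d : ℕ, (∀ i, (S i).Nonempty → ((p : ℤ) - 1) ∣ d * m' i) ↔
      ∀ i, ((p : ℤ) - 1) ∣ d * m i := by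
    intro d
    constructor
    · intro h i
      have := h i.succ (by rw [hSs]; exact Finset.singleton_nonempty _)
      rwa [hms] at this
    · intro h i
      refine Fin.cases ?_ (fun i => ?_) i
      · intro _
        rw [hm0, mul_zero]
        exact dvd_zero _
      · intro _
        rw [hms]
        exact h i
  have hmain := hasCurve_piecesF p (r + 1) S ?_ ?_ m' ν' (-∑ i, m i) (-(∑ i, ν i - C'.card))
    ?_ ?_ ?_ ?_ ?_ Nb sb ?_ L ?_ g ?_
  · rw [hf]
    have h1 : (∑ d ∈ Finset.range (p - 1),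
        if ∀ i, ((p : ℤ) - 1) ∣ d * m i then L d - 1 else sb d + L d) =
        ∑ d ∈ Finset.range (p - 1),
          if ∀ i, (S i).Nonempty → ((p : ℤ) - 1) ∣ d * m' i then L d - 1 else sb d + L d := by
      refine Finset.sum_congr rfl fun d _ => ?_
      by_cases h : ∀ i, ((p : ℤ) - 1) ∣ d * m i
      · rw [if_pos h, if_pos ((hall d).2 h)]
      · rw [if_neg h, if_neg (fun h' => h ((hall d).1 h'))]
    rw [h1]
    exact hmain
  · -- disjointness
    intro i j
    refine Fin.cases ?_ (fun i => ?_) i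
    · refine Fin.cases ?_ (fun j => ?_) j
      · intro h
        exact absurd rfl h
      · intro _
        rw [hS0, hSs, Finset.disjoint_singleton_right]
        exact hCd j
    · refine Fin.cases ?_ (fun j => ?_) j
      · intro _
        rw [hS0, hSs, Finset.disjoint_singleton_left]
        exact hCd i
      · intro h
        rw [hSs, hSs, Finset.disjoint_singleton]
        intro h1
        exact h (congrArg Fin.succ (hc ((algebraMap (ZMod p) _).injective h1)))
  · -- Frobenius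
    intro i
    refine Fin.cases ?_ (fun i => ?_) i
    · intro x hx
      rw [hS0] at hx ⊢
      exact hCφ x hx
    · intro x hx
      rw [hSs, Finset.mem_singleton] at hx ⊢
      rw [hx, ← map_pow, ZMod.pow_card]
  · -- mI
    rw [Fin.sum_univ_succ, hm0, mul_zero, zero_add]
    congr 1
    refine Finset.sum_congr rfl fun i _ => ?_
    rw [hSs, hms, Finset.card_singleton, Nat.cast_one, one_mul]
  · -- νI
    rw [Fin.sum_univ_succ, hn0', hS0]
    have h1 : ∑ i : Fin r, ((S i.succ).card : ℤ) * ν' i.succ = ∑ i, ν i := by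
      refine Finset.sum_congr rfl fun i _ => ?_
      rw [hSs, hns, Finset.card_singleton, Nat.cast_one, one_mul]
    rw [h1]
    ring
  · -- hD
    intro i
    refine Fin.cases ?_ (fun i => ?_) i
    · intro _ _
      rw [hm0, hn0', hd0]
      intro h1
      have h2 : (p : ℤ) ∣ 1 := by
        have := dvd_sub (dvd_refl (p : ℤ)) h1
        have h3 : (p : ℤ) - ((p : ℤ) - 1) = 1 := by ring
        rwa [h3] at this
      have h4 := Int.le_of_dvd one_pos h2
      omega
    · intro _ h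
      rw [hms, hns] at h ⊢
      have h1 := (hpos i).1 h
      rw [hν1 i h1]
      intro h2
      exact (hD i h1).2 (Int.natCast_dvd_natCast.1 h2)
  · -- hDI
    intro h
    have h1 := hposI.1 h
    rw [hν3 h1]
    intro h2
    exact (hDI h1).2 (Int.natCast_dvd_natCast.1 h2)
  · -- hex
    by_cases h1 : DI = 0
    · left
      by_cases h2 : C'.card = 0
      · rw [h1, h2, add_zero, add_zero] at hex
        obtain ⟨i, _, hi⟩ := Finset.exists_ne_zero_of_sum_ne_zero hex.ne'
        refine ⟨i.succ, ?_, ?_⟩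
        · rw [hSs]; exact Finset.singleton_nonempty _
        · rw [hms, hns]
          exact (hpos i).2 hi
      · refine ⟨0, ?_, ?_⟩
        · rw [hS0]
          exact Finset.card_pos.1 (Nat.pos_of_ne_zero h2)
        · rw [hm0, hn0', hd0]
          exact hn0
    · right
      exact hposI.2 h1
  · -- hb
    intro d hd h
    obtain ⟨h1, h2⟩ := hb d hd (fun h' => h ((hall d).2 h'))
    constructor
    · rw [Fin.prod_univ_succ, hm0, HasT_datQ0, pow_zero, one_mul]
      have h3 : (∏ i : Fin r, (∏ x ∈ S i.succ, (X - C x)) ^ datQ p (m' i.succ) d) =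
          ∏ i, (X - C (algebraMap (ZMod p) (AlgebraicClosure (ZMod p)) (c i))) ^
            datQ p (m i) d := by
        refine Finset.prod_congr rfl fun i _ => ?_
        rw [hSs, hms, Finset.prod_singleton]
      rw [h3]
      exact h1
    · rw [h2, Fin.sum_univ_succ, hm0, HasT_datQ0, mul_zero, zero_add]
      congr 1
      refine Finset.sum_congr rfl fun i _ => ?_
      rw [hSs, hms, Finset.card_singleton, one_mul]
  · -- hL
    intro d hd
    rw [hL d hd, Fin.sum_univ_succ, hm0, hn0', hd0, hS0]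
    have h1 : (if (0 : ℤ) < (p : ℤ) - 1 ∧ ((p : ℤ) - 1) ∣ d * 0 then C'.card else 0) = C'.card := by
      rw [if_pos]
      refine ⟨hn0, ?_⟩
      rw [mul_zero]
      exact dvd_zero _
    have h2 : (∑ i : Fin r, if 0 < datD p (m' i.succ) (ν' i.succ) ∧
        ((p : ℤ) - 1) ∣ d * m' i.succ then (S i.succ).card else 0) =
        ∑ i, if D i ≠ 0 ∧ ((p : ℤ) - 1) ∣ d * m i then 1 else 0 := by
      refine Finset.sum_congr rfl fun i _ => ?_
      rw [hms, hns, hSs, Finset.card_singleton]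
      exact if_congr (and_congr (hpos i) Iff.rfl) rfl rfl
    have h3 : (if 0 < datD p (-∑ i, m i) (-(∑ i, ν i - C'.card)) ∧
        ((p : ℤ) - 1) ∣ d * -∑ i, m i then 1 else 0) =
        (if DI ≠ 0 ∧ ((p : ℤ) - 1) ∣ d * ∑ i, m i then 1 else 0) := by
      refine if_congr (and_congr hposI ?_) rfl rfl
      rw [mul_neg, dvd_neg]
    rw [h1, h2, h3]
    ring
  · -- hg
    rw [hg, Fin.sum_univ_succ, hm0, hn0', hS0]
    have h1 : datG p 0 (-1) = 2 * ((p : ℤ) - 1) := by
      unfold datG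
      rw [hd0, if_pos hn0]
      ring
    have h2 : (∑ i : Fin r, ((S i.succ).card : ℤ) * datG p (m' i.succ) (ν' i.succ)) =
        ∑ i, if D i = 0 then ((p : ℤ) - 1) - Int.gcd (m i) (p - 1) else (p - 1) + D i := by
      refine Finset.sum_congr rfl fun i _ => ?_
      rw [hms, hns, hSs, Finset.card_singleton, Nat.cast_one, one_mul]
      unfold datG
      by_cases h : D i = 0
      · rw [if_neg (fun h' => (hpos i).1 h' h), if_pos h]
      · rw [if_pos ((hpos i).2 h), if_neg h, hν1 i h]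
    have h3 : datG p (-∑ i, m i) (-(∑ i, ν i - C'.card)) =
        if DI = 0 then ((p : ℤ) - 1) - Int.gcd (∑ i, m i) (p - 1) else (p - 1) + DI := by
      unfold datG
      by_cases h : DI = 0
      · rw [if_neg (fun h' => hposI.1 h' h), if_pos h, Int.neg_gcd]
      · rw [if_pos (hposI.2 h), if_neg h, hν3 h]
    rw [h1, h2, h3]
    ring

theorem exists_unram (p : ℕ) [Fact p.Prime] (r : ℕ) (c : Fin r → ZMod p) (δ : ℕ)
    (hr : r < p ∨ δ ≠ 1) :
    ∃ C' : Finset (AlgebraicClosure (ZMod p)), C'.card = δ ∧ (∀ x ∈ C', x ^ p ∈ C') ∧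
      ∀ i, algebraMap (ZMod p) (AlgebraicClosure (ZMod p)) (c i) ∉ C' := by
  classical
  have hfix : ∀ y : ZMod p, (algebraMap (ZMod p) (AlgebraicClosure (ZMod p)) y) ^ p =
      algebraMap (ZMod p) (AlgebraicClosure (ZMod p)) y := by
    intro y
    rw [← map_pow, ZMod.pow_card]
  rcases Nat.eq_zero_or_pos δ with h0 | h0
  · subst h0
    exact ⟨∅, by simp, by simp, by simp⟩
  by_cases h1 : δ = 1
  · subst h1
    have hr' : r < p := by
      rcases hr with h | h
      · exact h
      · exact absurd rfl h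
    have hcard : (Finset.univ.image c).card < (Finset.univ : Finset (ZMod p)).card := by
      refine lt_of_le_of_lt Finset.card_image_le ?_
      rw [Finset.card_univ, Finset.card_univ, Fintype.card_fin, ZMod.card]
      exact hr'
    obtain ⟨y, _, hy⟩ := Finset.exists_mem_notMem_of_card_lt_card hcard
    refine ⟨{algebraMap (ZMod p) (AlgebraicClosure (ZMod p)) y}, Finset.card_singleton _, ?_, ?_⟩
    · intro x hx
      rw [Finset.mem_singleton] at hx ⊢
      rw [hx, hfix]
    · intro i hi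
      rw [Finset.mem_singleton] at hi
      have h2 : c i = y := (algebraMap (ZMod p) _).injective hi
      exact hy (Finset.mem_image.2 ⟨i, Finset.mem_univ i, h2⟩)
  · have : CharP (AlgebraicClosure (ZMod p)) p :=
      charP_of_injective_algebraMap (algebraMap (ZMod p) (AlgebraicClosure (ZMod p))).injective p
    obtain ⟨C, hC1, hC2, hC3⟩ := exists_orbit (p := p) (k := AlgebraicClosure (ZMod p)) δ h0
    refine ⟨C, hC1, hC2, fun i hi => ?_⟩
    have h2 := (hC3 _ hi 1).1 (by rw [pow_one]; exact hfix (c i))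
    exact h1 (Nat.dvd_one.1 h2)

end Pool.Agent.PRB
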