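import Pool.Agent.LibPRB.QdCur
import Pool.Agent.LibPRB.RatF

/-!
# Hyperelliptic curves
-/

set_option autoImplicit false

namespace Pool.Agent.PRB

open Polynomial in
/-- The hyperelliptic curve `y ^ 2 = F(x)`. -/
theorem hasCurve_hyp (p : ℕ) [Fact p.Prime] (hp2 : p ≠ 2) (F : (ZMod p)[X]) (hF : F.Monic)
    (hsq : F.Separable) (g s : ℕ) (hg : F.natDegree = 2 * g + 1 ∨ F.natDegree = 2 * g + 2)
    (hs : FixP p ((F.map (algebraMap (ZMod p) (AlgebraicClosure (ZMod p)))) ^ ((p - 1) / 2)) g s) :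
    HasCurve p g s := by
  classical
  haveI hch : CharP (AlgebraicClosure (ZMod p)) p :=
    charP_of_injective_algebraMap (algebraMap (ZMod p) (AlgebraicClosure (ZMod p))).injective p
  haveI : CharP (RatFunc (AlgebraicClosure (ZMod p))) p :=
    charP_of_injective_algebraMap
      (algebraMap (AlgebraicClosure (ZMod p)) (RatFunc (AlgebraicClosure (ZMod p)))).injective p
  have hpodd : ∃ n, p = 2 * n + 1 := by
    rcases (Fact.out : p.Prime).eq_two_or_odd' with h1 | h1
    · exact absurd h1 hp2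
    · exact h1
  obtain ⟨n, hn⟩ := hpodd
  have hn2 : (p - 1) / 2 = n := by omega
  set F' : (AlgebraicClosure (ZMod p))[X] :=
    F.map (algebraMap (ZMod p) (AlgebraicClosure (ZMod p))) with hF'
  have hF'm : F'.Monic := hF.map _
  have hF's : F'.Separable := hsq.map
  have hF'0 : F' ≠ 0 := hF'm.ne_zero
  have hnd : F'.natDegree = F.natDegree := natDegree_map _
  have hsplit : F'.Splits := IsAlgClosed.splits F'
  have hnodup : F'.roots.Nodup := nodup_roots hF's
  set R : Finset (AlgebraicClosure (ZMod p)) := F'.roots.toFinset with hRdef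
  have hRcard : R.card = F.natDegree := by
    rw [hRdef, Multiset.toFinset_card_of_nodup hnodup, ← hsplit.natDegree_eq_card_roots, hnd]
  have hprod : F' = ∏ c ∈ R, (X - C c) := by
    have h1 := hsplit.eq_prod_roots_of_monic hF'm
    rw [Finset.prod_eq_multiset_prod, hRdef, Multiset.toFinset_val, hnodup.dedup]
    exact h1
  have hRp : ∀ c ∈ R, c ^ p ∈ R := by
    intro c hc
    rw [hRdef, Multiset.mem_toFinset, mem_roots hF'0, IsRoot.def, hF', eval_map_algebraMap] at hc ⊢
    have h1 : aeval (c ^ p) F = (aeval c F) ^ p := by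
      rw [← expand_aeval, ZMod.expand_card, map_pow]
    rw [h1, hc, zero_pow (Fact.out : p.Prime).ne_zero]
  set m : AlgebraicClosure (ZMod p) → ℤ := fun c => if c ∈ R then 1 else 0 with hm
  have hm1 : ∀ c ∈ R, m c = 1 := fun c hc => by simp [hm, hc]
  have hm0 : ∀ c ∉ R, m c = 0 := fun c hc => by simp [hm, hc]
  set h : RatFunc (AlgebraicClosure (ZMod p)) := ratProd R m with hh
  have hh0 : h ≠ 0 := ratProd_ne R m
  have hmC : ∀ c, (plC c).ord h = m c := ratProd_ordC R m hm0
  have hsm : ∑ c ∈ R, m c = F.natDegree := by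
    rw [Finset.sum_congr rfl hm1, Finset.sum_const, hRcard]
    simp
  have hmI : (plI (AlgebraicClosure (ZMod p))).ord h = -(F.natDegree : ℤ) := by
    rw [← hsm]
    exact ratProd_ordI R m
  have hRne : R.Nonempty := by
    rw [← Finset.card_pos, hRcard]
    omega
  obtain ⟨c0, hc0⟩ := hRne
  obtain ⟨L, iL, ikL, iKL, iST, y, T⟩ := exists_Qd (plC c0) h hh0 (by
    rw [hmC, hm1 c0 hc0]
    norm_num)
  have h2 : (2 : RatFunc (AlgebraicClosure (ZMod p))) ≠ 0 := by
    intro h0
    have h1 : ((2 : ℕ) : RatFunc (AlgebraicClosure (ZMod p))) = 0 := by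
      push_cast
      exact h0
    have h3 := (CharP.cast_eq_zero_iff _ p 2).1 h1
    exact hp2 ((Nat.prime_dvd_prime_iff_eq Fact.out Nat.prime_two).1 h3)
  obtain ⟨D', hD'⟩ := exists_deriv_qd T hh0 h2 (ratD p (AlgebraicClosure (ZMod p)))
  have A : QdS p (RatFunc.X : RatFunc (AlgebraicClosure (ZMod p)))
      (ratD p (AlgebraicClosure (ZMod p))) h y D' :=
    ⟨rat_gf, T, hh0, hp2, hD'⟩
  obtain ⟨φ, hφX, hφc, hφn⟩ := ratFunc_phi (p := p) (k := AlgebraicClosure (ZMod p))
  have hq0 : ∀ P : Plc (AlgebraicClosure (ZMod p)) (RatFunc (AlgebraicClosure (ZMod p))),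
      qdc h 0 P = 0 := by
    intro P
    simp [qdc, cdiv]
  have hq1C : ∀ c ∈ R, qdc h 1 (plC c) = 1 := by
    intro c hc
    simp only [qdc, cdiv, hmC, hm1 c hc]
    norm_num
  have hq1C0 : ∀ c ∉ R, qdc h 1 (plC c) = 0 := by
    intro c hc
    simp only [qdc, cdiv, hmC, hm0 c hc]
    norm_num
  have hq1I : qdc h 1 (plI (AlgebraicClosure (ZMod p))) = -((F.natDegree / 2 : ℕ) : ℤ) := by
    simp only [qdc, cdiv, hmI]
    push_cast
    simp
  have hN0 : ((∑ c ∈ R, qdc h 0 (plC c)) + qdc h 0 (plI (AlgebraicClosure (ZMod p))) - 1).toNat =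
      0 := by
    rw [hq0, Finset.sum_congr rfl fun c _ => hq0 (plC c)]
    simp
  have hN1 : ((∑ c ∈ R, qdc h 1 (plC c)) + qdc h 1 (plI (AlgebraicClosure (ZMod p))) - 1).toNat =
      g := by
    rw [hq1I, Finset.sum_congr rfl hq1C, Finset.sum_const, hRcard]
    simp only [nsmul_eq_mul, mul_one]
    omega
  have hr0 := rat_finrank (p := p) R (qdc h 0) (fun c _ => hq0 (plC c))
  have hr1 := rat_finrank (p := p) R (qdc h 1) hq1C0
  have hfin : ∀ d < 2, Module.Finite (AlgebraicClosure (ZMod p))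
      (polSp (ratD p (AlgebraicClosure (ZMod p))) (qdc h d)) := by
    intro d hd
    rcases (show d = 0 ∨ d = 1 by omega) with rfl | rfl
    · exact hr0.1
    · exact hr1.1
  have hgen : Module.finrank (AlgebraicClosure (ZMod p)) (regSp D') = g := by
    rw [A.finrank hfin, hr0.2, hr1.2, hN0, hN1, zero_add]
  have hcard : Nat.card {a : L // a ∈ regSp D' ∧ car p D' a = a} = p ^ s := by
    rw [A.card]
    have e0 : Nat.card {c : RatFunc (AlgebraicClosure (ZMod p)) //
        c ∈ polSp (ratD p (AlgebraicClosure (ZMod p))) (qdc h 0) ∧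
        car p (ratD p (AlgebraicClosure (ZMod p))) c = c} = 1 := by
      rw [Nat.card_eq_one_iff_unique]
      have h3 : ∀ c : RatFunc (AlgebraicClosure (ZMod p)),
          c ∈ polSp (ratD p (AlgebraicClosure (ZMod p))) (qdc h 0) → c = 0 := by
        intro c hc
        rw [rat_polSp R (qdc h 0) (fun c _ => hq0 (plC c)), hN0] at hc
        obtain ⟨B, hB, rfl⟩ := hc
        have h4 : B = 0 := by
          by_contra hB0
          rw [degree_eq_natDegree hB0] at hB
          norm_num at hB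
        rw [h4, map_zero, zero_mul]
      refine ⟨⟨fun a b => Subtype.ext ((h3 _ a.2.1).trans (h3 _ b.2.1).symm)⟩, ⟨⟨0, ?_, ?_⟩⟩⟩
      · exact Submodule.zero_mem _
      · rw [ratD_pb.car_zero]
    rw [e0, one_mul, hn2, rat_card_fix R m n (qdc h 1) hq1C0 (fun _ => n) (fun c hc => by
      rw [hq1C c hc, hm1 c hc]
      have : (p : ℤ) = 2 * n + 1 := by exact_mod_cast hn
      rw [this]
      ring)]
    rw [hN1, Finset.prod_pow, ← hprod]
    rw [hn2] at hs
    exact hs
  exact hasCurve_of_QdS p A rat_transc rat_fin φ hφc hφX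
    (ratProd_phi p R m hRp (fun c hc => by rw [hm1 c hc, hm1 _ (hRp c hc)]) φ hφX hφc) hφn g s
    hgen hcard

end Pool.Agent.PRB
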