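import Pool.Agent.LibPRB.LadR
import Pool.Agent.LibPRB.LadM

/-! # Ladder curves: poles at fixed places -/

set_option autoImplicit false

namespace Pool.Agent.PRB

namespace Lad

variable {p : ℕ} [Fact p.Prime] {k : Type} [Field k] [IsAlgClosed k] [CharP k p] {ζ : k}
  {K : Type} [Field K] [Algebra k K]

open Classical in
/-- One more pole at a fixed place. -/
theorem finrank_fix (Λ : Lad p ζ K) (hζ : IsPrimitiveRoot ζ (p - 1)) (b : Plc k K → ℕ)
    (hb : {P | b P ≠ 0}.Finite) (B : ℤ) (hB : Λ.gam ≤ B + 1) (P : Plc k K)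
    (hP : P ≠ Λ.inf) (hfix : ∀ a, P.ord (Λ.sig a) = P.ord a) (hs0 : P.ge 1 Λ.s) (e : ℤ) :
    Module.finrank k (Λ.Msp (Function.update b P (b P + 1)) B ⊓ wtSp Λ.sig (ζ ^ e) :
        Submodule k K) =
      Module.finrank k (Λ.Msp b B ⊓ wtSp Λ.sig (ζ ^ e) : Submodule k K) +
        (if ((p - 1 : ℕ) : ℤ) ∣ (b P + 1 : ℕ) + e then 1 else 0) := by
  have hle : (Λ.Msp b B ⊓ wtSp Λ.sig (ζ ^ e) : Submodule k K) ≤
      Λ.Msp (Function.update b P (b P + 1)) B ⊓ wtSp Λ.sig (ζ ^ e) := by
    refine inf_le_inf_right _ fun c hc => ⟨fun P' hP' => ?_, hc.2⟩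
    refine (hc.1 P' hP').mono ?_
    by_cases h : P' = P
    · subst h
      rw [Function.update_self]
      push_cast
      linarith
    · rw [Function.update_of_ne h]
  have hback : ∀ c ∈ (Λ.Msp (Function.update b P (b P + 1)) B ⊓ wtSp Λ.sig (ζ ^ e) :
      Submodule k K), P.ge (-(b P)) c → c ∈ (Λ.Msp b B ⊓ wtSp Λ.sig (ζ ^ e) : Submodule k K) := by
    intro c hc hcP
    refine ⟨⟨fun P' hP' => ?_, hc.1.2⟩, hc.2⟩
    by_cases h : P' = P
    · subst h
      exact hcP
    · have := hc.1.1 P' hP'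
      rwa [Function.update_of_ne h] at this
  split_ifs with hd
  · obtain ⟨u, hu0, huP, huo, hui, hus⟩ := Λ.exists_pole_fix hζ P hP hfix hs0 (b P + 1)
      (Nat.succ_pos _) e hd
    have hfin : Module.Finite k (Λ.Msp b B ⊓ wtSp Λ.sig (ζ ^ e) : Submodule k K) := by
      haveI := Λ.finite_Msp b hb B
      exact Submodule.finiteDimensional_inf_left _ _
    have huB : u ∈ (Λ.Msp (Function.update b P (b P + 1)) B ⊓ wtSp Λ.sig (ζ ^ e) :
        Submodule k K) := by
      refine ⟨⟨fun P' hP' => ?_, hui.mono (by linarith)⟩, hus⟩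
      by_cases h : P' = P
      · subst h
        rw [Function.update_self]
        exact Or.inr huP.ge
      · rw [Function.update_of_ne h]
        exact (huo P' hP' h).mono (by omega)
    refine (finrank_succ _ _ hle hfin u huB ?_ ?_).2
    · intro hu
      have h1 := hu.1.1 P hP
      rw [P.ge_iff hu0, huP] at h1
      push_cast at h1
      omega
    · intro c hc
      have h1 : P.ge (P.ord u) c := by
        have := hc.1.1 P hP
        rwa [Function.update_self, ← huP] at this
      obtain ⟨r, hr⟩ := P.exists_sub_smul hu0 h1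
      refine ⟨r, hback _ (Submodule.sub_mem _ hc (Submodule.smul_mem _ r huB)) ?_⟩
      refine hr.mono ?_
      rw [huP]
      push_cast
      linarith
  · suffices heq : (Λ.Msp (Function.update b P (b P + 1)) B ⊓ wtSp Λ.sig (ζ ^ e) :
        Submodule k K) = Λ.Msp b B ⊓ wtSp Λ.sig (ζ ^ e) by
      rw [add_zero, heq]
    refine le_antisymm (fun c hc => hback c hc ?_) hle
    by_cases hc0 : c = 0
    · exact Or.inl hc0
    · have h1 := hc.1.1 P hP
      rw [Function.update_self, P.ge_iff hc0] at h1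
      have h2 := Λ.weight_fix hζ P hP hfix hs0 hc0 hc.2
      right
      by_contra h3
      have h4 : P.ord c = -((b P + 1 : ℕ) : ℤ) := by
        push_cast at h1 ⊢
        omega
      apply hd
      rw [h4] at h2
      have h5 : e - -((b P + 1 : ℕ) : ℤ) = ((b P + 1 : ℕ) : ℤ) + e := by ring
      rwa [h5] at h2

end Lad

end Pool.Agent.PRB
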