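import Pool.Agent.LibPRB.LadF
import Pool.Agent.LibPRB.LadI

/-! # Ladder curves: poles of higher order -/

set_option autoImplicit false

namespace Pool.Agent.PRB

namespace Lad

open Finset

variable {p : ℕ} [Fact p.Prime] {k : Type} [Field k] [IsAlgClosed k] [CharP k p] {ζ : k}
  {K : Type} [Field K] [Algebra k K]

omit [Fact p.Prime] [Field k] [IsAlgClosed k] [CharP k p] [Field K] [Algebra k K] in
theorem LadP_count (q : ℤ → Prop) [DecidablePred q] (a n : ℤ) (h : a ≤ n + 1) :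
    #{y ∈ Icc a (n + 1) | q y} = #{y ∈ Icc a n | q y} + if q (n + 1) then 1 else 0 := by
  have e : Icc a (n + 1) = insert (n + 1) (Icc a n) := by
    ext y
    simp only [mem_Icc, mem_insert]
    omega
  rw [e, filter_insert]
  split_ifs with h1
  · rw [card_insert_of_notMem]
    simp
  · simp

open Classical in
theorem LadP_S (Λ : Lad p ζ K) (hζ : IsPrimitiveRoot ζ (p - 1))
    (S : Finset (Plc k K)) (hS : Λ.inf ∉ S) (e : ℤ) (N : ℕ) :
    ∀ b : Plc k K → ℕ, (∀ P ∉ S, P ≠ Λ.inf → b P = 0) → (∀ P ∈ S, 1 ≤ b P) →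
    (∀ P ∈ S, b P = 1 ∨ ((∀ a, P.ord (Λ.sig a) = P.ord a) ∧ P.ge 1 Λ.s)) →
    ∑ P ∈ S, (b P - 1) = N →
    Module.finrank k (Λ.Msp b (Λ.gam - 1) ⊓ wtSp Λ.sig (ζ ^ e) : Submodule k K) =
      Module.finrank k (Λ.Msp (ind S) (Λ.gam - 1) ⊓
        wtSp Λ.sig (ζ ^ e) : Submodule k K) +
      ∑ P ∈ S, #{y ∈ Icc 2 (b P) | ((p - 1 : ℕ) : ℤ) ∣ y + e} := by
  induction N with
  | zero =>
    intro b hb0 hb1 _ hN
    have hb : ∀ P ∈ S, b P = 1 := by
      intro P hP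
      have h1 := (sum_eq_zero_iff.1 hN) P hP
      have h2 := hb1 P hP
      omega
    have hM : Λ.Msp b (Λ.gam - 1) = Λ.Msp (ind S) (Λ.gam - 1) := by
      ext c
      rw [mem_Msp, mem_Msp]
      have h : ∀ P, P ≠ Λ.inf → b P = ind S P := by
        intro P hP
        unfold ind
        by_cases hPS : P ∈ S
        · rw [if_pos hPS, hb P hPS]
        · rw [if_neg hPS, hb0 P hPS hP]
      constructor
      · rintro ⟨h1, h2⟩
        exact ⟨fun P hP => by rw [← h P hP]; exact h1 P hP, h2⟩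
      · rintro ⟨h1, h2⟩
        exact ⟨fun P hP => by rw [h P hP]; exact h1 P hP, h2⟩
    rw [hM, sum_eq_zero, add_zero]
    intro P hP
    rw [hb P hP]
    simp
  | succ N ih =>
    intro b hb0 hb1 hfix hN
    obtain ⟨P₀, hP₀, hne⟩ := exists_ne_zero_of_sum_ne_zero
      (show ∑ P ∈ S, (b P - 1) ≠ 0 by omega)
    have hge : 2 ≤ b P₀ := by omega
    have hP₀inf : P₀ ≠ Λ.inf := fun h => hS (h ▸ hP₀)
    obtain ⟨hfix1, hfix2⟩ := (hfix P₀ hP₀).resolve_left (by omega)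
    set b' : Plc k K → ℕ := Function.update b P₀ (b P₀ - 1) with hb'
    have hbs : b' P₀ = b P₀ - 1 := by rw [hb', Function.update_self]
    have hbo : ∀ P, P ≠ P₀ → b' P = b P := fun P hP => by
      rw [hb', Function.update_of_ne hP]
    have hupd : Function.update b' P₀ (b' P₀ + 1) = b := by
      funext P
      by_cases h : P = P₀
      · subst h
        rw [Function.update_self, hbs]; omega
      · rw [Function.update_of_ne h, hbo P h]
    have hb0' : ∀ P ∉ S, P ≠ Λ.inf → b' P = 0 := by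
      intro P hP hPi
      rw [hbo P (fun h => hP (h ▸ hP₀))]
      exact hb0 P hP hPi
    have hb1' : ∀ P ∈ S, 1 ≤ b' P := by
      intro P hP
      by_cases h : P = P₀
      · subst h; rw [hbs]; omega
      · rw [hbo P h]; exact hb1 P hP
    have hfix' : ∀ P ∈ S, b' P = 1 ∨ ((∀ a, P.ord (Λ.sig a) = P.ord a) ∧ P.ge 1 Λ.s) := by
      intro P hP
      by_cases h : P = P₀
      · subst h; exact Or.inr ⟨hfix1, hfix2⟩
      · rw [hbo P h]; exact hfix P hP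
    have hsum : ∀ f : Plc k K → ℕ → ℕ, ∑ P ∈ S.erase P₀, f P (b' P) =
        ∑ P ∈ S.erase P₀, f P (b P) := by
      intro f
      refine sum_congr rfl fun P hP => ?_
      rw [hbo P (ne_of_mem_erase hP)]
    have hN' : ∑ P ∈ S, (b' P - 1) = N := by
      rw [← add_sum_erase S _ hP₀] at hN ⊢
      rw [hsum (fun _ n => n - 1), hbs]
      omega
    have hfin : {P | b' P ≠ 0}.Finite := by
      refine ((S : Set (Plc k K)).toFinite.union (Set.finite_singleton Λ.inf)).subset ?_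
      intro P hP
      by_contra hcon
      simp only [Set.mem_union, mem_coe, Set.mem_singleton_iff, not_or] at hcon
      exact hP (hb0' P hcon.1 hcon.2)
    have h1 := ih b' hb0' hb1' hfix' hN'
    have h2 := Λ.finrank_fix hζ b' hfin (Λ.gam - 1) (by linarith) P₀ hP₀inf hfix1 hfix2 e
    rw [hupd] at h2
    rw [h2, h1, ← add_sum_erase S _ hP₀, ← add_sum_erase S (fun P =>
      #{y ∈ Icc 2 ((b P : ℕ) : ℤ) | ((p - 1 : ℕ) : ℤ) ∣ y + e}) hP₀,
      hsum (fun _ n => #{y ∈ Icc 2 ((n : ℕ) : ℤ) | ((p - 1 : ℕ) : ℤ) ∣ y + e}), hbs]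
    have h3 := LadP_count (fun y : ℤ => ((p - 1 : ℕ) : ℤ) ∣ y + e) 2 ((b P₀ - 1 : ℕ) : ℤ)
      (by omega)
    rw [show (((b P₀ - 1 : ℕ) : ℤ)) + 1 = ((b P₀ : ℕ) : ℤ) by omega] at h3
    rw [show b P₀ - 1 + 1 = b P₀ by omega, h3]
    ring

/-- Poles of higher order at fixed places and at infinity. -/
theorem finrank_fixed_poles (Λ : Lad p ζ K) (hζ : IsPrimitiveRoot ζ (p - 1))
    (S : Finset (Plc k K)) (hS : Λ.inf ∉ S) (b : Plc k K → ℕ) (hb0 : ∀ P ∉ S, P ≠ Λ.inf → b P = 0)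
    (hb1 : ∀ P ∈ S, 1 ≤ b P)
    (hfix : ∀ P ∈ S, b P = 1 ∨ ((∀ a, P.ord (Λ.sig a) = P.ord a) ∧ P.ge 1 Λ.s))
    (β : ℕ) (hβ : 1 ≤ β) (e : ℤ) :
    Module.finrank k (Λ.Msp b (Λ.gam - 2 + β) ⊓ wtSp Λ.sig (ζ ^ e) : Submodule k K) =
      Module.finrank k (Λ.Msp (ind S) (Λ.gam - 1) ⊓
        wtSp Λ.sig (ζ ^ e) : Submodule k K) +
      ∑ P ∈ S, #{y ∈ Icc 2 (b P) | ((p - 1 : ℕ) : ℤ) ∣ y + e} +
      #{y ∈ Icc 1 (β - 1) | ((p - 1 : ℕ) : ℤ) ∣ (Λ.gam : ℤ) - 1 + y - e} := by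
  have hfin : {P | b P ≠ 0}.Finite := by
    refine ((S : Set (Plc k K)).toFinite.union (Set.finite_singleton Λ.inf)).subset ?_
    intro P hP
    by_contra hcon
    simp only [Set.mem_union, mem_coe, Set.mem_singleton_iff, not_or] at hcon
    exact hP (hb0 P hcon.1 hcon.2)
  induction β, hβ using Nat.le_induction with
  | base =>
    have h1 := LadP_S Λ hζ S hS e _ b hb0 hb1 hfix rfl
    have e1 : (Λ.gam : ℤ) - 2 + ((1 : ℕ) : ℤ) = Λ.gam - 1 := by push_cast; ring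
    rw [e1, h1]
    simp
  | succ β hβ ih =>
    have e1 : (Λ.gam : ℤ) - 2 + ((β + 1 : ℕ) : ℤ) = (Λ.gam - 2 + β) + 1 := by push_cast; ring
    have hβ' : (1 : ℤ) ≤ β := by exact_mod_cast hβ
    rw [e1, Λ.finrank_inf hζ b hfin _ (by linarith) e, ih]
    have h3 := LadP_count
      (fun y : ℤ => ((p - 1 : ℕ) : ℤ) ∣ (Λ.gam : ℤ) - 1 + y - e) 1 ((β : ℤ) - 1) (by omega)
    rw [show (β : ℤ) - 1 + 1 = β by ring] at h3
    rw [show ((β + 1 : ℕ) : ℤ) - 1 = β by push_cast; ring, h3,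
      show (Λ.gam : ℤ) - 2 + β + 1 - e = Λ.gam - 1 + β - e by ring]
    ring

end Lad

end Pool.Agent.PRB
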