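import Pool.Agent.LibPRB.LadE
import Pool.Agent.LibPRB.LadW
import Pool.Agent.LibPRB.LinA

/-! # Ladder curves: functions with given poles -/

set_option autoImplicit false

namespace Pool.Agent.PRB

namespace Lad

variable {p : ℕ} [Fact p.Prime] {k : Type} [Field k] [IsAlgClosed k] [CharP k p] {ζ : k}
  {K : Type} [Field K] [Algebra k K]

omit [IsAlgClosed k] [CharP k p] in
/-- Reduction of the pole at infinity within a subspace. -/
theorem LadR_aux (Λ : Lad p ζ K) (S : Submodule k K)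
    (hS : ∀ c ∈ S, c ≠ 0 → ∀ n : ℕ, Λ.gam ≤ n → Λ.inf.ord c = -n →
      ∃ u ∈ S, u ≠ 0 ∧ (∀ P, P ≠ Λ.inf → P.ge 0 u) ∧ Λ.inf.ord u = -n) (m : ℕ) :
    ∀ c ∈ S, Λ.inf.ge (1 - Λ.gam - m) c →
      ∃ r ∈ S, (∀ P, P ≠ Λ.inf → P.ge 0 r) ∧ Λ.inf.ge (1 - Λ.gam) (c - r) := by
  induction m with
  | zero =>
    intro c _ hm
    refine ⟨0, S.zero_mem, fun P _ => P.ge_zero _, ?_⟩
    simpa using hm
  | succ m ih =>
    intro c hc hm
    by_cases h1 : Λ.inf.ge (1 - Λ.gam - m) c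
    · exact ih c hc h1
    have hc0 : c ≠ 0 := fun h => h1 (Or.inl h)
    rw [Λ.inf.ge_iff hc0] at h1 hm
    push_cast at hm
    have hord : Λ.inf.ord c = -((Λ.gam + m : ℕ) : ℤ) := by
      push_cast
      omega
    obtain ⟨u, huS, hu0, hureg, huord⟩ := hS c hc hc0 (Λ.gam + m) (by omega) hord
    obtain ⟨r0, hr0⟩ := Plc.exists_sub_smul Λ.inf hu0
      (c := c) (Or.inr (by rw [huord, hord]))
    obtain ⟨r, hrS, hrreg, hrge⟩ := ih (c - r0 • u) (S.sub_mem hc (S.smul_mem _ huS)) (by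
      refine hr0.mono ?_
      rw [huord]
      push_cast
      linarith)
    refine ⟨r0 • u + r, S.add_mem (S.smul_mem _ huS) hrS,
      fun P hP => P.ge_add (P.ge_smul _ (hureg P hP)) (hrreg P hP), ?_⟩
    rw [← sub_sub]
    exact hrge

omit [IsAlgClosed k] [CharP k p] in
theorem LadR_aux' (Λ : Lad p ζ K) (S : Submodule k K)
    (hS : ∀ c ∈ S, c ≠ 0 → ∀ n : ℕ, Λ.gam ≤ n → Λ.inf.ord c = -n →
      ∃ u ∈ S, u ≠ 0 ∧ (∀ P, P ≠ Λ.inf → P.ge 0 u) ∧ Λ.inf.ord u = -n) (c : K) (hc : c ∈ S) :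
    ∃ r ∈ S, (∀ P, P ≠ Λ.inf → P.ge 0 r) ∧ Λ.inf.ge (1 - Λ.gam) (c - r) := by
  refine Λ.LadR_aux S hS ((Λ.inf.ord c).natAbs + 1) c hc (Or.inr ?_)
  push_cast
  have := neg_abs_le (Λ.inf.ord c)
  omega

omit [Fact p.Prime] [IsAlgClosed k] [CharP k p] in
theorem LadR_zpow (hζ : IsPrimitiveRoot ζ (p - 1)) {a b : ℤ} (h : ((p - 1 : ℕ) : ℤ) ∣ a - b) :
    ζ ^ a = ζ ^ b := by
  by_cases h0 : ζ = 0
  · -- impossible unless `p - 1 = 0`
    have h1 := hζ.pow_eq_one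
    rw [h0] at h1
    have h2 : p - 1 = 0 := by
      by_contra h3
      rw [zero_pow h3] at h1
      exact zero_ne_one h1
    rw [h2] at h
    have h3 : a - b = 0 := by simpa using h
    rw [sub_eq_zero.1 h3]
  obtain ⟨d, hd⟩ := h
  have h1 : a = b + ((p - 1 : ℕ) : ℤ) * d := by linarith
  rw [h1, zpow_add₀ h0, zpow_mul, zpow_natCast, hζ.pow_eq_one, one_zpow, mul_one]

/-- Reduction of the pole at infinity. -/
theorem exists_reduce (Λ : Lad p ζ K) (hζ : IsPrimitiveRoot ζ (p - 1)) (c : K) (e : ℤ)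
    (hc : Λ.sig c = ζ ^ e • c) :
    ∃ r : K, (∀ P, P ≠ Λ.inf → P.ge 0 r) ∧ Λ.sig r = ζ ^ e • r ∧
      Λ.inf.ge (1 - Λ.gam) (c - r) := by
  obtain ⟨r, hr, h1, h2⟩ := Λ.LadR_aux' (wtSp Λ.sig (ζ ^ e)) (by
    intro c hc hc0 n hn hord
    obtain ⟨u, hu0, hureg, huord, husig, _⟩ := Λ.pol n hn
    refine ⟨u, ?_, hu0, hureg, huord⟩
    have h3 := Λ.weight_inf hζ hc0 (mem_wtSp.1 hc)
    rw [hord] at h3
    rw [mem_wtSp, husig, ← zpow_natCast, LadR_zpow (p := p) hζ (a := (n : ℤ)) (b := e) ?_]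
    have h4 : (n : ℤ) - e = -(e + -n) := by ring
    rw [h4]
    exact (dvd_neg).2 h3) c (mem_wtSp.2 hc)
  exact ⟨r, h1, mem_wtSp.1 hr, h2⟩

theorem exists_reduce' (Λ : Lad p ζ K) (c : K) :
    ∃ r : K, (∀ P, P ≠ Λ.inf → P.ge 0 r) ∧ Λ.inf.ge (1 - Λ.gam) (c - r) := by
  obtain ⟨r, _, h1, h2⟩ := Λ.LadR_aux' ⊤ (by
    intro c _ _ n hn _
    obtain ⟨u, hu0, hureg, huord, _⟩ := Λ.pol n hn
    exact ⟨u, trivial, hu0, hureg, huord⟩) c trivial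
  exact ⟨r, h1, h2⟩

omit [Fact p.Prime] [IsAlgClosed k] [CharP k p] in
theorem LadR_ord (P : Plc k K) {c r : K} {y : ℕ} (hc : c ≠ 0) (hy : 0 < y) (hc' : P.ord c = -y)
    (hr : P.ge 0 r) : c - r ≠ 0 ∧ P.ord (c - r) = -y := by
  have h1 := P.ord_add_eq hc (b := -r) ((P.ge_neg hr).mono (by rw [hc']; omega))
  rw [← sub_eq_add_neg, hc'] at h1
  exact h1

/-- Functions with a pole of given order at one finite place. -/
theorem exists_pole (Λ : Lad p ζ K) (P : Plc k K) (hP : P ≠ Λ.inf) (y : ℕ) (hy : 0 < y) :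
    ∃ u : K, u ≠ 0 ∧ P.ord u = -y ∧ (∀ P', P' ≠ Λ.inf → P' ≠ P → P'.ge 0 u) ∧
      Λ.inf.ge (1 - Λ.gam) u := by
  obtain ⟨c, hc0, hc1, hc2⟩ := Λ.poles P hP y
  obtain ⟨r, hr1, hr2⟩ := Λ.exists_reduce' c
  obtain ⟨h1, h2⟩ := LadR_ord P hc0 hy hc1 (hr1 P hP)
  exact ⟨c - r, h1, h2, fun P' hP' hne => P'.ge_sub (hc2 P' hP' hne) (hr1 P' hP'), hr2⟩

omit [IsAlgClosed k] [CharP k p] in
theorem LadR_surj (Λ : Lad p ζ K) (a : K) : ∃ b, Λ.sig b = a := by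
  have hp : 2 ≤ p := (Fact.out : p.Prime).two_le
  refine ⟨Λ.sig^[p - 2] a, ?_⟩
  rw [← Function.iterate_succ_apply' Λ.sig]
  have h1 : (p - 2).succ = p - 1 := by omega
  rw [h1]
  exact Λ.sig_iter a

/-- The place `P ∘ sig`. -/
def LadR_comp (Λ : Lad p ζ K) (P : Plc k K) : Plc k K where
  ord a := P.ord (Λ.sig a)
  ord_zero := by rw [map_zero, P.ord_zero]
  ord_mul' := fun a b ha hb => by
    rw [map_mul, P.ord_mul ((map_ne_zero _).2 ha) ((map_ne_zero _).2 hb)]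
  ord_add' := fun a b ha hb hab => by
    rw [map_add]
    exact P.ord_add' _ _ ((map_ne_zero _).2 ha) ((map_ne_zero _).2 hb)
      (by rw [← map_add]; exact (map_ne_zero _).2 hab)
  exists_unif := by
    obtain ⟨a, ha, h1⟩ := P.exists_unif
    obtain ⟨b, rfl⟩ := Λ.LadR_surj a
    exact ⟨b, (map_ne_zero _).1 ha, h1⟩
  ord_const := fun c => by rw [AlgHom.commutes, P.ord_const]
  exists_const := fun a ha h0 => by
    obtain ⟨c, hc⟩ := P.exists_const (Λ.sig a) ((map_ne_zero _).2 ha) h0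
    have h1 : Λ.sig (a - algebraMap k K c) = Λ.sig a - algebraMap k K c := by
      rw [map_sub, AlgHom.commutes]
    refine ⟨c, ?_⟩
    rcases hc with hc | hc
    · left
      rw [← h1] at hc
      exact (map_eq_zero _).1 hc
    · right
      rw [h1]
      exact hc

omit [IsAlgClosed k] [CharP k p] in
theorem LadR_comp_ge (Λ : Lad p ζ K) (P : Plc k K) (n : ℤ) (a : K) :
    (Λ.LadR_comp P).ge n a ↔ P.ge n (Λ.sig a) := by
  unfold Plc.ge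
  rw [map_eq_zero]
  rfl

omit [IsAlgClosed k] [CharP k p] in
theorem LadR_comp_ne (Λ : Lad p ζ K) (P P' : Plc k K) (hP : ∀ a, P.ord (Λ.sig a) = P.ord a)
    (h : P' ≠ P) : Λ.LadR_comp P' ≠ P := by
  intro h1
  apply h
  ext a
  obtain ⟨b, rfl⟩ := Λ.LadR_surj a
  rw [hP]
  exact congrArg (fun Q : Plc k K => Q.ord b) h1

omit [IsAlgClosed k] [CharP k p] in
theorem LadR_iter_ge (Λ : Lad p ζ K) (P : Plc k K) (hfix : ∀ a, P.ord (Λ.sig a) = P.ord a)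
    {c : K} (hc : ∀ P', P' ≠ Λ.inf → P' ≠ P → P'.ge 0 c) (i : ℕ) :
    ∀ P', P' ≠ Λ.inf → P' ≠ P → P'.ge 0 (Λ.sig^[i] c) := by
  induction i with
  | zero => exact hc
  | succ i ih =>
    intro P' h1 h2
    rw [Function.iterate_succ_apply', ← Λ.LadR_comp_ge]
    exact ih _ (Λ.LadR_comp_ne Λ.inf P' Λ.sig_inf h1) (Λ.LadR_comp_ne P P' hfix h2)

omit [IsAlgClosed k] [CharP k p] [Fact p.Prime] in
theorem LadR_iter_ord (Λ : Lad p ζ K) (P : Plc k K) (hfix : ∀ a, P.ord (Λ.sig a) = P.ord a)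
    (c : K) (i : ℕ) : P.ord (Λ.sig^[i] c) = P.ord c := by
  induction i with
  | zero => rfl
  | succ i ih => rw [Function.iterate_succ_apply', hfix, ih]

/-- The same with weights at a fixed place. -/
theorem exists_pole_fix (Λ : Lad p ζ K) (hζ : IsPrimitiveRoot ζ (p - 1)) (P : Plc k K)
    (hP : P ≠ Λ.inf) (hfix : ∀ a, P.ord (Λ.sig a) = P.ord a) (hs0 : P.ge 1 Λ.s) (y : ℕ)
    (hy : 0 < y) (e : ℤ) (he : ((p - 1 : ℕ) : ℤ) ∣ y + e) :
    ∃ u : K, u ≠ 0 ∧ P.ord u = -y ∧ (∀ P', P' ≠ Λ.inf → P' ≠ P → P'.ge 0 u) ∧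
      Λ.inf.ge (1 - Λ.gam) u ∧ Λ.sig u = ζ ^ e • u := by
  obtain ⟨c, hc0, hc1, hc2⟩ := Λ.poles P hP y
  obtain ⟨w, hw1, hw2, hw3⟩ := Λ.exists_weights hζ c
  -- all components have the right poles
  have hwP : ∀ e', P.ge (-(y : ℤ)) (w e') := by
    intro e'
    obtain ⟨r, hr⟩ := hw3 e'
    rw [hr]
    refine P.ge_sum _ _ fun i _ => P.ge_smul _ (Or.inr ?_)
    rw [Λ.LadR_iter_ord P hfix, hc1]
  have hwP' : ∀ e' P', P' ≠ Λ.inf → P' ≠ P → P'.ge 0 (w e') := by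
    intro e' P' h1 h2
    obtain ⟨r, hr⟩ := hw3 e'
    rw [hr]
    exact P'.ge_sum _ _ fun i _ => P'.ge_smul _ (Λ.LadR_iter_ge P hfix hc2 i P' h1 h2)
  -- one of them has a pole of the exact order
  obtain ⟨e', he'⟩ : ∃ e', ¬ P.ge (-(y : ℤ) + 1) (w e') := by
    by_contra hcon
    push Not at hcon
    have h1 : P.ge (-(y : ℤ) + 1) c := by
      rw [← hw2]
      exact P.ge_sum _ _ fun i _ => hcon i
    rw [P.ge_iff hc0, hc1] at h1
    omega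
  have hw0 : w e' ≠ 0 := fun h => he' (Or.inl h)
  have hword : P.ord (w e') = -y := by
    have h1 := hwP e'
    rw [P.ge_iff hw0] at h1 he'
    omega
  have hwsig : Λ.sig (w e') = ζ ^ ((e' : ℕ) : ℤ) • w e' := by
    rw [zpow_natCast]; exact hw1 e'
  have h2 := Λ.weight_fix hζ P hP hfix hs0 hw0 hwsig
  rw [hword] at h2
  have h3 : ζ ^ ((e' : ℕ) : ℤ) = ζ ^ e := by
    apply LadR_zpow (p := p) hζ
    have h4 : ((e' : ℕ) : ℤ) - e = ((e' : ℤ) - -y) - (y + e) := by ring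
    rw [h4]
    exact dvd_sub h2 he
  rw [h3] at hwsig
  obtain ⟨r, hr1, hr2, hr3⟩ := Λ.exists_reduce hζ (w e') e hwsig
  obtain ⟨h5, h6⟩ := LadR_ord P hw0 hy hword (hr1 P hP)
  refine ⟨w e' - r, h5, h6, fun P' h7 h8 => P'.ge_sub (hwP' e' P' h7 h8) (hr1 P' h7), hr3, ?_⟩
  rw [map_sub, hwsig, hr2, smul_sub]

end Lad

end Pool.Agent.PRB
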