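import Pool.Agent.LibPRB.Lang

/-! # Fixed vectors of a `p⁻¹`-linear operator -/

set_option autoImplicit false

namespace Pool.Agent.PRB

variable {p : ℕ} [Fact p.Prime] {k V : Type} [Field k] [IsAlgClosed k] [CharP k p]
  [AddCommGroup V] [Module k V]

/-- The fixed vectors of `C` in a finite-dimensional space form a finite set. -/
theorem lang_finite (W : Submodule k V) [Module.Finite k W] (C : V → V)
    (hadd : ∀ v w, C (v + w) = C v + C w)
    (hC : ∀ (c : k) (v : V), C (c ^ p • v) = c • C v) (hW : ∀ v ∈ W, C v ∈ W) :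
    {v : V | v ∈ W ∧ C v = v}.Finite := by
  classical
  have hp : 1 < p := (Fact.out : p.Prime).one_lt
  obtain ⟨b, hbS, hspan, hli⟩ := exists_linearIndependent k {v : V | v ∈ W ∧ C v = v}
  have hbfin : b.Finite := by
    have h1 : LinearIndependent k (fun x : b => (⟨x.1, (hbS x.2).1⟩ : W)) := by
      apply LinearIndependent.of_comp W.subtype
      exact hli
    have := h1.finite
    exact Set.toFinite b
  have hsum : ∀ (s : Finset V) (f : V → V), C (∑ x ∈ s, f x) = ∑ x ∈ s, C (f x) := by
    intro s f
    exact map_sum (AddMonoidHom.mk' C hadd) f s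
  -- the finite set of scalars
  have hR : {x : k | x ^ p = x}.Finite := by
    have hne : (Polynomial.X ^ p - Polynomial.X : Polynomial k) ≠ 0 :=
      FiniteField.X_pow_card_sub_X_ne_zero k hp
    refine Set.Finite.subset (Polynomial.rootSet_finite
      (Polynomial.X ^ p - Polynomial.X : Polynomial k) k) ?_
    intro x hx
    rw [Polynomial.mem_rootSet]
    refine ⟨hne, ?_⟩
    simp only [map_sub, map_pow, Polynomial.aeval_X]
    exact sub_eq_zero.mpr hx
  haveI : Finite {x : k | x ^ p = x} := hR
  haveI : Finite b := hbfin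
  haveI : Fintype b := Fintype.ofFinite b
  have hkey : {v : V | v ∈ W ∧ C v = v} ⊆
      Set.range (fun c : b → {x : k | x ^ p = x} => ∑ x : b, (c x).1 • x.1) := by
    rintro v ⟨hvW, hv⟩
    have hmem : v ∈ Submodule.span k (hbfin.toFinset : Set V) := by
      rw [Set.Finite.coe_toFinset, hspan]
      exact Submodule.subset_span ⟨hvW, hv⟩
    rw [Submodule.mem_span_finset] at hmem
    obtain ⟨c, -, hc⟩ := hmem
    choose d hd using fun x : V => IsAlgClosed.exists_pow_nat_eq (c x) (by omega : 0 < p)
    have hCv : C v = ∑ x ∈ hbfin.toFinset, d x • x := by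
      rw [← hc, hsum]
      refine Finset.sum_congr rfl fun x hx => ?_
      rw [← hd x, hC, (hbS (hbfin.mem_toFinset.mp hx)).2]
    have hdiff : ∑ x ∈ hbfin.toFinset, (c x - d x) • x = 0 := by
      simp only [sub_smul, Finset.sum_sub_distrib]
      rw [hc, ← hCv, hv, sub_self]
    have hdiff2 : ∑ x : b, (c x - d x) • (x : V) = 0 := by
      rw [← hdiff]
      exact (Finset.sum_subtype hbfin.toFinset (fun x => hbfin.mem_toFinset)
        (fun x => (c x - d x) • x)).symm
    have hcd := Fintype.linearIndependent_iff.mp hli (fun x : b => c x - d x) hdiff2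
    refine ⟨fun x => ⟨c x, ?_⟩, ?_⟩
    · have h1 := hcd x
      have h2 := hd x
      have h3 : c x = d x := sub_eq_zero.mp h1
      change c x ^ p = c x
      conv_lhs => rw [h3]
      exact h2
    · change ∑ x : b, c x • (x : V) = v
      rw [← hc]
      exact (Finset.sum_subtype hbfin.toFinset (fun x => hbfin.mem_toFinset)
        (fun x => c x • x)).symm
  exact (Set.finite_range _).subset hkey

end Pool.Agent.PRB
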