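import Pool.Agent.LibPRB.HasT
import Pool.Agent.LibPRB.BasT

/-! # Families of curves over `F_p` given by a decidable table entry -/

set_option autoImplicit false

namespace Pool.Agent.PRB

/-- A table entry: branch points `c i` (elements of `F_p`) with exponents `m i`; the wild points with
their smallest invariants `D i` (`0`: not wild), the same for infinity, a point `j0` which is not
wild, and the point `v` whose invariant varies (`none`: infinity); `Nb`, `sb`: dimensions and stable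
ranks of the eigenspaces of the base cover. -/
structure TLine (p : ℕ) where
  r : ℕ
  c : Fin r → ZMod p
  m : Fin r → ℤ
  D : Fin r → ℕ
  DI : ℕ
  j0 : Fin r
  v : Option (Fin r)
  Nb : ℕ → ℕ
  sb : ℕ → ℕ

namespace TLine

variable {p : ℕ}

/-- The smallest invariant at the varying point. -/
def Dv (t : TLine p) : ℕ := match t.v with
  | none => t.DI
  | some i => t.D i

/-- The number of logarithmic poles in degree `d`, without the additional points. -/
def L (t : TLine p) (d : ℕ) : ℕ :=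
  (∑ i, if t.D i ≠ 0 ∧ ((p : ℤ) - 1) ∣ d * t.m i then 1 else 0) +
    (if t.DI ≠ 0 ∧ ((p : ℤ) - 1) ∣ d * ∑ i, t.m i then 1 else 0)

/-- The conditions. -/
def Ok (t : TLine p) (g0 f0 need : ℕ) : Prop :=
  (∀ i j, t.c i = t.c j → i = j) ∧ t.D t.j0 = 0 ∧
  (∀ i, t.D i ≠ 0 → ((p : ℤ) - 1) ∣ t.D i - t.m i ∧ ¬ p ∣ t.D i) ∧
  (t.DI ≠ 0 → ((p : ℤ) - 1) ∣ t.DI + ∑ i, t.m i ∧ ¬ p ∣ t.DI) ∧
  (∑ i, if t.D i = 0 then (-t.m i) % ((p : ℤ) - 1) else 0) +
    (if t.DI = 0 then (∑ i, t.m i) % ((p : ℤ) - 1) else 0) ≤ ∑ i, (t.D i : ℤ) + t.DI + need ∧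
  (∀ d < p - 1, (¬ ∀ i, ((p : ℤ) - 1) ∣ d * t.m i) →
    okB p (List.ofFn fun i => ((t.c i).val, datQ p (t.m i) d)) (t.Nb d) (t.sb d) = true ∧
      (p - 1) * (t.Nb d + 1) = ∑ i, datQ p (t.m i) d + datQ p (-∑ i, t.m i) d) ∧
  (2 * (g0 : ℤ) + 2 * (p - 1) =
    (∑ i, if t.D i = 0 then ((p : ℤ) - 1) - Int.gcd (t.m i) (p - 1) else (p - 1) + t.D i) +
      (if t.DI = 0 then ((p : ℤ) - 1) - Int.gcd (∑ i, t.m i) (p - 1) else (p - 1) + t.DI)) ∧
  f0 = (∑ d ∈ Finset.range (p - 1),
    if ∀ i, ((p : ℤ) - 1) ∣ d * t.m i then t.L d - 1 else t.sb d + t.L d) ∧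
  (∀ d < p - 1, (∀ i, ((p : ℤ) - 1) ∣ d * t.m i) → 1 ≤ t.L d) ∧ t.Dv ≠ 0 ∧ 2 ∣ p - 1

instance (t : TLine p) (g0 f0 need : ℕ) : Decidable (t.Ok g0 f0 need) := by
  unfold Ok
  infer_instance

/-- The family of curves of a table entry: `l` changes the invariant at the varying point,
`δ` is the number of additional unramified wild points. -/
theorem hasCurve [Fact p.Prime] (t : TLine p) (g0 f0 need : ℕ) (h : t.Ok g0 f0 need) (l δ : ℕ)
    (hp : ¬ p ∣ t.Dv + (p - 1) * l) (hn : need ≤ (p - 1) * (l + δ)) (hr : t.r < p ∨ δ ≠ 1) :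
    HasCurve p (g0 + (p - 1) / 2 * l + (p - 1) * δ) (f0 + (p - 1) * δ) := by
  classical
  obtain ⟨h1, h3, h4, h5, h6, h7, h8, h9, h10, h11, h12⟩ := h
  obtain ⟨C', hC1, hC2, hC3⟩ := exists_unram p t.r t.c δ hr
  have hprime : p.Prime := Fact.out
  have hp1 : 1 ≤ p := hprime.one_lt.le
  have hc1 : ((p - 1 : ℕ) : ℤ) = (p : ℤ) - 1 := by push_cast [hp1]; ring
  have : CharP (AlgebraicClosure (ZMod p)) p :=
    charP_of_injective_algebraMap (algebraMap (ZMod p) (AlgebraicClosure (ZMod p))).injective p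
  obtain ⟨q, hq⟩ := h12
  have hq2 : (p - 1) / 2 = q := by omega
  have hqz : ((p : ℤ) - 1) = 2 * q := by rw [← hc1, hq]; push_cast; ring
  -- the new invariants
  set D' : Fin t.r → ℕ := fun i => t.D i + if t.v = some i then (p - 1) * l else 0 with hD'
  set DI' : ℕ := t.DI + if t.v = none then (p - 1) * l else 0 with hDI'
  have hz : ∀ i, D' i = 0 ↔ t.D i = 0 := by
    intro i
    simp only [hD']
    split_ifs with hv
    · have : t.D i ≠ 0 := by
        unfold Dv at h11
        rw [hv] at h11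
        exact h11
      omega
    · simp
  have hzI : DI' = 0 ↔ t.DI = 0 := by
    rw [hDI']
    split_ifs with hv
    · have : t.DI ≠ 0 := by
        unfold Dv at h11
        rw [hv] at h11
        exact h11
      omega
    · simp
  have hsum : (∑ i, D' i) + DI' = (∑ i, t.D i) + t.DI + (p - 1) * l := by
    simp only [hD', hDI', Finset.sum_add_distrib]
    cases hv : t.v with
    | none => simp; ring
    | some i0 =>
      have : ∑ i, (if some i0 = some i then (p - 1) * l else 0) = (p - 1) * l := by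
        rw [Finset.sum_eq_single i0]
        · simp
        · intro b _ hb
          rw [if_neg (by simpa using Ne.symm hb)]
        · simp
      rw [this]
      simp
      ring
  have hsumz : (∑ i, (D' i : ℤ)) + DI' = (∑ i, (t.D i : ℤ)) + t.DI + (p - 1) * l := by
    have := congrArg (Nat.cast (R := ℤ)) hsum
    push_cast at this
    rw [hc1] at this
    exact this
  have hex0 : 0 < (∑ i, t.D i) + t.DI := by
    unfold Dv at h11
    cases hv : t.v with
    | none =>
      rw [hv] at h11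
      have : 0 < t.DI := Nat.pos_of_ne_zero h11
      omega
    | some i0 =>
      rw [hv] at h11
      have h13 : t.D i0 ≤ ∑ i, t.D i :=
        Finset.single_le_sum (f := t.D) (fun _ _ => Nat.zero_le _) (Finset.mem_univ i0)
      have : 0 < t.D i0 := Nat.pos_of_ne_zero h11
      omega
  have hG : (∑ i, if D' i = 0 then ((p : ℤ) - 1) - Int.gcd (t.m i) (p - 1) else (p - 1) + D' i) +
        (if DI' = 0 then ((p : ℤ) - 1) - Int.gcd (∑ i, t.m i) (p - 1) else (p - 1) + DI') =
      (∑ i, if t.D i = 0 then ((p : ℤ) - 1) - Int.gcd (t.m i) (p - 1) else (p - 1) + t.D i) +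
        (if t.DI = 0 then ((p : ℤ) - 1) - Int.gcd (∑ i, t.m i) (p - 1) else (p - 1) + t.DI) +
        (p - 1) * l := by
    have e1 : ∀ i, (if D' i = 0 then ((p : ℤ) - 1) - Int.gcd (t.m i) (p - 1)
        else (p - 1) + D' i) = (if t.D i = 0 then ((p : ℤ) - 1) - Int.gcd (t.m i) (p - 1)
        else (p - 1) + t.D i) + ((D' i : ℤ) - t.D i) := by
      intro i
      by_cases hi : t.D i = 0
      · rw [if_pos hi, if_pos ((hz i).2 hi), (hz i).2 hi, hi]
        simp
      · rw [if_neg hi, if_neg (mt (hz i).1 hi)]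
        ring
    have e2 : (if DI' = 0 then ((p : ℤ) - 1) - Int.gcd (∑ i, t.m i) (p - 1) else (p - 1) + DI') =
        (if t.DI = 0 then ((p : ℤ) - 1) - Int.gcd (∑ i, t.m i) (p - 1) else (p - 1) + t.DI) +
          ((DI' : ℤ) - t.DI) := by
      by_cases hi : t.DI = 0
      · rw [if_pos hi, if_pos (hzI.2 hi), hzI.2 hi, hi]
        simp
      · rw [if_neg hi, if_neg (mt hzI.1 hi)]
        ring
    rw [Finset.sum_congr rfl fun i _ => e1 i, e2, Finset.sum_add_distrib, Finset.sum_sub_distrib]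
    linear_combination hsumz
  refine hasCurve_tab p t.r t.c (fun i j hij => h1 i j hij) t.m D' DI' t.j0 ((hz _).2 h3) C' hC2
    hC3 ?_ ?_ ?_ ?_ t.Nb t.sb ?_ (fun d => t.L d + δ) ?_ _ _ ?_ ?_
  · intro i hi
    have hi' := mt (hz i).2 hi
    obtain ⟨a1, a2⟩ := h4 i hi'
    simp only [hD']
    split_ifs with hv
    · have hDv : t.Dv = t.D i := by
        unfold Dv
        rw [hv]
      refine ⟨?_, by rw [← hDv]; exact hp⟩
      obtain ⟨b, hb⟩ := a1
      refine ⟨b + l, ?_⟩
      push_cast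
      rw [hc1]
      linear_combination hb
    · exact ⟨a1, a2⟩
  · intro hi
    have hi' := mt hzI.2 hi
    obtain ⟨a1, a2⟩ := h5 hi'
    rw [hDI']
    split_ifs with hv
    · have hDv : t.Dv = t.DI := by
        unfold Dv
        rw [hv]
      refine ⟨?_, by rw [← hDv]; exact hp⟩
      obtain ⟨b, hb⟩ := a1
      refine ⟨b + l, ?_⟩
      push_cast
      rw [hc1]
      linear_combination hb
    · exact ⟨a1, a2⟩
  · have e1 : ∀ i, (if D' i = 0 then (-t.m i) % ((p : ℤ) - 1) else 0) =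
        if t.D i = 0 then (-t.m i) % ((p : ℤ) - 1) else 0 := by
      intro i
      by_cases hi : t.D i = 0
      · rw [if_pos hi, if_pos ((hz i).2 hi)]
      · rw [if_neg hi, if_neg (mt (hz i).1 hi)]
    have e2 : (if DI' = 0 then (∑ i, t.m i) % ((p : ℤ) - 1) else 0) =
        if t.DI = 0 then (∑ i, t.m i) % ((p : ℤ) - 1) else 0 := by
      by_cases hi : t.DI = 0
      · rw [if_pos hi, if_pos (hzI.2 hi)]
      · rw [if_neg hi, if_neg (mt hzI.1 hi)]
    rw [Finset.sum_congr rfl fun i _ => e1 i, e2, hC1]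
    have hnz : (need : ℤ) ≤ ((p : ℤ) - 1) * (l + δ) := by
      rw [← hc1]
      exact_mod_cast hn
    linarith
  · rw [hC1]
    omega
  · intro d hd hnt
    obtain ⟨a1, a2⟩ := h7 d hd hnt
    exact ⟨base_fin t.c (fun i => datQ p (t.m i) d) _ _ a1, a2⟩
  · intro d _
    unfold L
    rw [hC1]
    congr 1
    congr 1
    · refine Finset.sum_congr rfl fun i _ => ?_
      have : (D' i ≠ 0 ∧ ((p : ℤ) - 1) ∣ d * t.m i) ↔ (t.D i ≠ 0 ∧ ((p : ℤ) - 1) ∣ d * t.m i) := by
        rw [ne_eq, ne_eq, hz]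
      simp only [this]
    · have : (DI' ≠ 0 ∧ ((p : ℤ) - 1) ∣ d * ∑ i, t.m i) ↔
          (t.DI ≠ 0 ∧ ((p : ℤ) - 1) ∣ d * ∑ i, t.m i) := by
        rw [ne_eq, ne_eq, hzI]
      simp only [this]
  · rw [hG, hC1, ← h8, hq2]
    push_cast
    rw [hc1, hqz]
    ring
  · rw [h9]
    have e1 : ∀ d ∈ Finset.range (p - 1),
        (if ∀ i, ((p : ℤ) - 1) ∣ d * t.m i then t.L d + δ - 1 else t.sb d + (t.L d + δ)) =
        (if ∀ i, ((p : ℤ) - 1) ∣ d * t.m i then t.L d - 1 else t.sb d + t.L d) + δ := by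
      intro d hd
      have h13 := h10 d (Finset.mem_range.1 hd)
      split_ifs with hi
      · have := h13 hi
        omega
      · omega
    rw [Finset.sum_congr rfl e1, Finset.sum_add_distrib, Finset.sum_const, Finset.card_range,
      smul_eq_mul]

end TLine

end Pool.Agent.PRB
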