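import Pool.Agent.LibPRB.LogR
import Pool.Agent.LibPRB.LadR
import Pool.Agent.LibPRB.LadM
import Pool.Agent.LibPRB.LangF

/-! # Ladder curves: logarithmic differentials with simple poles -/

set_option autoImplicit false

namespace Pool.Agent.PRB

open Polynomial in
theorem LogC_card_fixed {p : ℕ} [Fact p.Prime] (k : Type) [Field k] [CharP k p] :
    Nat.card {r : k // r ^ p = r} = p := by
  classical
  have hp : 1 < p := (Fact.out : p.Prime).one_lt
  letI : Algebra (ZMod p) k := ZMod.algebra k p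
  have hinj : Function.Injective (algebraMap (ZMod p) k) := (algebraMap (ZMod p) k).injective
  have hne : (X ^ p - X : k[X]) ≠ 0 := FiniteField.X_pow_card_sub_X_ne_zero k hp
  have hroot : ∀ r : k, r ∈ (X ^ p - X : k[X]).roots.toFinset ↔ r ^ p = r := by
    intro r
    rw [Multiset.mem_toFinset, mem_roots hne, IsRoot.def, eval_sub, eval_pow, eval_X, sub_eq_zero]
  have hle : (X ^ p - X : k[X]).roots.toFinset.card ≤ p := by
    refine (Multiset.toFinset_card_le _).trans ((card_roots' _).trans ?_)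
    rw [FiniteField.X_pow_card_sub_X_natDegree_eq k hp]
  have hge : p ≤ (X ^ p - X : k[X]).roots.toFinset.card := by
    have h1 : (Finset.univ.image (algebraMap (ZMod p) k)) ⊆ (X ^ p - X : k[X]).roots.toFinset := by
      intro r hr
      obtain ⟨n, -, rfl⟩ := Finset.mem_image.1 hr
      rw [hroot, ← map_pow, ZMod.pow_card]
    have h2 := Finset.card_le_card h1
    rwa [Finset.card_image_of_injective _ hinj, Finset.card_univ, ZMod.card] at h2
  have hcard := le_antisymm hle hge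
  have e : {r : k // r ^ p = r} ≃ ((X ^ p - X : k[X]).roots.toFinset : Set k) :=
    Equiv.subtypeEquivRight fun r => by
      rw [Finset.mem_coe, hroot]
  rw [Nat.card_congr e, Nat.card_coe_set_eq, Set.ncard_coe_finset, hcard]

namespace Lad

variable {p : ℕ} [Fact p.Prime] {k : Type} [Field k] [IsAlgClosed k] [CharP k p] {ζ : k}
  {K : Type} [Field K] [Algebra k K]

theorem LogC_ge0 (Λ : Lad p ζ K) {P : Plc k K} (hP : P ≠ Λ.inf) {a : K} (ha : P.ge (-1) a) :
    P.ge 0 (a * (Λ.s - algebraMap k K (P.val Λ.s))) := by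
  have h := Λ.ord_s P hP _ rfl
  have h1 : P.ge 1 (Λ.s - algebraMap k K (P.val Λ.s)) := Or.inr (by rw [h.2])
  simpa using P.ge_mul ha h1

theorem LogC_residue_add (Λ : Lad p ζ K) {P : Plc k K} (hP : P ≠ Λ.inf) {a b : K}
    (ha : P.ge (-1) a) (hb : P.ge (-1) b) :
    Λ.residue P (a + b) = Λ.residue P a + Λ.residue P b := by
  unfold residue
  rw [add_mul, P.val_add (Λ.LogC_ge0 hP ha) (Λ.LogC_ge0 hP hb)]

theorem LogC_residue_sub (Λ : Lad p ζ K) {P : Plc k K} (hP : P ≠ Λ.inf) {a b : K}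
    (ha : P.ge (-1) a) (hb : P.ge (-1) b) :
    Λ.residue P (a - b) = Λ.residue P a - Λ.residue P b := by
  unfold residue
  rw [sub_mul, P.val_sub (Λ.LogC_ge0 hP ha) (Λ.LogC_ge0 hP hb)]

theorem LogC_residue_smul (Λ : Lad p ζ K) {P : Plc k K} (hP : P ≠ Λ.inf) (c : k) {a : K}
    (ha : P.ge (-1) a) :
    Λ.residue P (c • a) = c * Λ.residue P a := by
  unfold residue
  rw [smul_mul_assoc, Algebra.smul_def, P.val_mul (P.ge_const c) (Λ.LogC_ge0 hP ha), P.val_const]

theorem LogC_ge_neg_one (Λ : Lad p ζ K) {S : Finset (Plc k K)} {B : ℤ} {a : K}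
    (ha : a ∈ Λ.Msp (ind S) B) {P : Plc k K} (hP : P ≠ Λ.inf) : P.ge (-1) a := by
  refine (ha.1 P hP).mono ?_
  by_cases h : P ∈ S <;> simp [ind, h]

theorem LogC_mem_zero (Λ : Lad p ζ K) {S : Finset (Plc k K)} (hS : Λ.inf ∉ S) {B : ℤ} {a : K}
    (ha : a ∈ Λ.Msp (ind S) B) (h0 : ∀ P ∈ S, Λ.residue P a = 0) :
    a ∈ Λ.Msp (fun _ => 0) B := by
  refine ⟨fun P hP => ?_, ha.2⟩
  simp only [Nat.cast_zero, neg_zero]
  by_cases h : P ∈ S
  · exact (Λ.residue_eq_zero_iff P hP a (Λ.LogC_ge_neg_one ha hP)).1 (h0 P h)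
  · have := ha.1 P hP
    simpa [ind, h] using this

theorem LogC_ind_empty : (ind (∅ : Finset (Plc k K))) = fun _ => 0 := by
  funext P
  simp [ind]

theorem LogC_exists (Λ : Lad p ζ K) (S : Finset (Plc k K)) (hS : Λ.inf ∉ S)
    (r : Plc k K → k) :
    ∃ a ∈ Λ.Msp (ind S) (Λ.gam - 1), ∀ P ∈ S, Λ.residue P a = r P := by
  classical
  have hex : ∀ P : Plc k K, ∃ u : K, P ∈ S → (u ≠ 0 ∧ P.ord u = -1 ∧
      (∀ P', P' ≠ Λ.inf → P' ≠ P → P'.ge 0 u) ∧ Λ.inf.ge (1 - Λ.gam) u) := by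
    intro P
    by_cases h : P ∈ S
    · obtain ⟨u, h1, h2, h3, h4⟩ := Λ.exists_pole P (fun h' => hS (h' ▸ h)) 1 one_pos
      exact ⟨u, fun _ => ⟨h1, by simpa using h2, h3, h4⟩⟩
    · exact ⟨0, fun h' => absurd h' h⟩
  choose u hu using hex
  have hne : ∀ P ∈ S, P ≠ Λ.inf := fun P h h' => hS (h' ▸ h)
  have hum : ∀ P ∈ S, u P ∈ Λ.Msp (ind S) (Λ.gam - 1) := by
    intro P hP
    obtain ⟨h1, h2, h3, h4⟩ := hu P hP
    refine ⟨fun P' hP' => ?_, ?_⟩
    · by_cases h : P' = P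
      · subst h
        right
        simp [ind, hP, h2]
      · exact (h3 P' hP' h).mono (by simp)
    · have e : -((Λ.gam : ℤ) - 1) = 1 - Λ.gam := by ring
      rw [e]
      exact h4
  have hres : ∀ P ∈ S, Λ.residue P (u P) ≠ 0 := by
    intro P hP h
    obtain ⟨h1, h2, h3, h4⟩ := hu P hP
    rw [Λ.residue_eq_zero_iff P (hne P hP) _ (Or.inr (by rw [h2])), P.ge_iff h1, h2] at h
    norm_num at h
  refine ⟨∑ P ∈ S, (r P / Λ.residue P (u P)) • u P,
    Submodule.sum_mem _ fun P hP => Submodule.smul_mem _ _ (hum P hP), ?_⟩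
  intro P hP
  rw [← Finset.add_sum_erase S _ hP]
  have hrest : P.ge 0 (∑ x ∈ S.erase P, (r x / Λ.residue x (u x)) • u x) := by
    apply P.ge_sum
    intro x hx
    apply P.ge_smul
    have hx' := Finset.mem_erase.1 hx
    exact (hu x hx'.2).2.2.1 P (hne P hP) (Ne.symm hx'.1)
  have h1 : P.ge (-1) (u P) := Λ.LogC_ge_neg_one (hum P hP) (hne P hP)
  rw [Λ.LogC_residue_add (hne P hP) (P.ge_smul _ h1) (hrest.mono (by norm_num)),
    Λ.LogC_residue_smul (hne P hP) _ h1,
    (Λ.residue_eq_zero_iff P (hne P hP) _ (hrest.mono (by norm_num))).2 hrest, add_zero,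
    div_mul_cancel₀ _ (hres P hP)]

theorem log_card (Λ : Lad p ζ K) (S : Finset (Plc k K)) (hS : Λ.inf ∉ S) :
    Nat.card {a : K // a ∈ Λ.Msp (ind S) (Λ.gam - 1) ∧ car p Λ.D a = a} = p ^ S.card := by
  classical
  haveI : CharP K p := charP_of_injective_algebraMap (algebraMap k K).injective p
  have hp0 : p ≠ 0 := (Fact.out : p.Prime).ne_zero
  have hne : ∀ P ∈ S, P ≠ Λ.inf := fun P h h' => hS (h' ▸ h)
  have hfix : ∀ a : K, a ∈ Λ.Msp (ind S) (Λ.gam - 1) → car p Λ.D a = a → ∀ P ∈ S,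
      Λ.residue P a ^ p = Λ.residue P a := by
    intro a ha hc P hP
    have h := Λ.residue_car P (hne P hP) a (Λ.LogC_ge_neg_one ha (hne P hP))
    rwa [hc] at h
  let f : {a : K // a ∈ Λ.Msp (ind S) (Λ.gam - 1) ∧ car p Λ.D a = a} →
      (S → {r : k // r ^ p = r}) :=
    fun a P => ⟨Λ.residue P.1 a.1, hfix a.1 a.2.1 a.2.2 P.1 P.2⟩
  have hinj : Function.Injective f := by
    rintro ⟨a, ha, hca⟩ ⟨b, hb, hcb⟩ hab
    have hab' : ∀ P ∈ S, Λ.residue P a = Λ.residue P b := by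
      intro P hP
      have := congrFun hab ⟨P, hP⟩
      simpa [f] using this
    have hmem : a - b ∈ Λ.Msp (fun _ => 0) (Λ.gam - 1) := by
      refine Λ.LogC_mem_zero hS (Submodule.sub_mem _ ha hb) fun P hP => ?_
      rw [Λ.LogC_residue_sub (hne P hP) (Λ.LogC_ge_neg_one ha (hne P hP))
        (Λ.LogC_ge_neg_one hb (hne P hP)), hab' P hP, sub_self]
    rw [Λ.Msp_zero_eq] at hmem
    have h0 : a - b = 0 := by
      apply Λ.nolog
      · rw [Λ.pb.car_sub, hca, hcb]
      · intro P hP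
        simpa using hmem.1 P hP
      · have e : -((Λ.gam : ℤ) - 2) = 2 - Λ.gam := by ring
        rw [← e]
        exact hmem.2
    exact Subtype.ext (sub_eq_zero.mp h0)
  have hsurj : Function.Surjective f := by
    intro r
    obtain ⟨a, ha, hres⟩ := Λ.LogC_exists S hS
      (fun P => if h : P ∈ S then (r ⟨P, h⟩).1 else 0)
    have hres' : ∀ P (h : P ∈ S), Λ.residue P a = (r ⟨P, h⟩).1 := by
      intro P h
      rw [hres P h, dif_pos h]
    have hca := Λ.car_mem_simple S a ha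
    have hdiff : a - car p Λ.D a ∈ Λ.Msp (fun _ => 0) (Λ.gam - 1) := by
      refine Λ.LogC_mem_zero hS (Submodule.sub_mem _ ha hca) fun P hP => ?_
      rw [Λ.LogC_residue_sub (hne P hP) (Λ.LogC_ge_neg_one ha (hne P hP))
        (Λ.LogC_ge_neg_one hca (hne P hP)), sub_eq_zero]
      have h1 := Λ.residue_car P (hne P hP) a (Λ.LogC_ge_neg_one ha (hne P hP))
      have h2 : Λ.residue P a ^ p = Λ.residue P a := by
        rw [hres' P hP]
        exact (r ⟨P, hP⟩).2
      have h3 : Λ.residue P (car p Λ.D a) ^ p = Λ.residue P a ^ p := by rw [h1, h2]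
      exact (frobenius_inj k p h3).symm
    haveI hfin : Module.Finite k (Λ.Msp (fun _ => 0) (Λ.gam - 1)) :=
      Λ.finite_Msp (fun _ => 0) (by simp) _
    obtain ⟨v, hv, hvC⟩ := lang_surjective_sub (p := p) (Λ.Msp (fun _ => 0) (Λ.gam - 1))
      (car p Λ.D) Λ.pb.car_add Λ.pb.car_smul (fun w hw => by
        have := Λ.car_mem_simple ∅ w (by rwa [LogC_ind_empty])
        rwa [LogC_ind_empty] at this) _ hdiff
    have hvS : v ∈ Λ.Msp (ind S) (Λ.gam - 1) := by
      refine ⟨fun P hP => (hv.1 P hP).mono (by simp), hv.2⟩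
    refine ⟨⟨a - v, Submodule.sub_mem _ ha hvS, ?_⟩, ?_⟩
    · rw [Λ.pb.car_sub]
      linear_combination hvC
    · funext P
      apply Subtype.ext
      change Λ.residue P.1 (a - v) = (r P).1
      have hPi := hne P.1 P.2
      have hv0 : P.1.ge 0 v := by simpa using hv.1 P.1 hPi
      rw [Λ.LogC_residue_sub hPi (Λ.LogC_ge_neg_one ha hPi) (hv0.mono (by norm_num)),
        hres' P.1 P.2, (Λ.residue_eq_zero_iff P.1 hPi v (hv0.mono (by norm_num))).2 hv0, sub_zero]
  rw [Nat.card_congr (Equiv.ofBijective f ⟨hinj, hsurj⟩), Nat.card_fun, LogC_card_fixed,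
    Nat.card_eq_fintype_card, Fintype.card_coe]

end Lad

end Pool.Agent.PRB
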