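import Pool.Agent.LibPRB.LogW
import Pool.Agent.LibPRB.ASDf
import Pool.Agent.LibPRB.Lang

/-! # Logarithmic differentials on the Artin–Schreier extension: filtration -/

set_option autoImplicit false

namespace Pool.Agent.PRB

namespace ASD

variable {p : ℕ} [Fact p.Prime] {k : Type} [Field k] [IsAlgClosed k] [CharP k p] {ζ : k}
  {K : Type} [Field K] [Algebra k K] {Λ : Lad p ζ K} {g : K} {N : ℕ}
  {L : Type} [Field L] [Algebra k L] [Algebra K L] [IsScalarTower k K L] {z : L}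

/-- The regular differentials of weight `-1` whose coefficients of `z ^ d`, `d ≥ m`, vanish. -/
def Fil (A : ASD Λ g N L z) (m : ℕ) : Submodule k L where
  carrier := {a | a ∈ regSp A.D ∧ A.sig a = ζ⁻¹ • a ∧ ∀ d, m ≤ d → A.as.co a d = 0}
  add_mem' := fun ha hb => ⟨add_mem ha.1 hb.1, by rw [map_add, ha.2.1, hb.2.1, smul_add],
    fun d hd => by rw [A.as.co_add, ha.2.2 d hd, hb.2.2 d hd, add_zero]⟩
  zero_mem' := ⟨zero_mem _, by simp, fun d _ => A.as.co_zero d⟩
  smul_mem' := fun r a ha => ⟨Submodule.smul_mem _ r ha.1, by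
    rw [map_smul, ha.2.1, smul_comm], fun d hd => by
      rw [Algebra.smul_def, IsScalarTower.algebraMap_apply k K L, A.as.co_mul, ha.2.2 d hd,
        mul_zero]⟩

theorem mem_Fil {A : ASD Λ g N L z} {m : ℕ} {a : L} :
    a ∈ A.Fil m ↔ a ∈ regSp A.D ∧ A.sig a = ζ⁻¹ • a ∧ ∀ d, m ≤ d → A.as.co a d = 0 := Iff.rfl

theorem LogL_pb (A : ASD Λ g N L z) : PB p (algebraMap K L Λ.s) A.D := by
  haveI : CharP K p := charP_of_injective_algebraMap (algebraMap k K).injective p
  exact PB.of_AS A.as Λ.pb A.D A.D_alg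

theorem LogL_iter_sig (A : ASD Λ g N L z) (hζ : IsPrimitiveRoot ζ (p - 1)) (n : ℕ) (a : L) :
    A.D^[n] (A.sig a) = ζ ^ n • A.sig (A.D^[n] a) := by
  induction n with
  | zero => simp
  | succ n ih =>
    rw [Function.iterate_succ_apply', Function.iterate_succ_apply', ih, Derivation.map_smul,
      A.sig_D hζ, smul_smul, pow_succ]

theorem LogL_car_sig [CharP L p] (A : ASD Λ g N L z) (hζ : IsPrimitiveRoot ζ (p - 1)) (a : L) :
    car p A.D (A.sig a) = A.sig (car p A.D a) := by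
  have h1 := A.LogL_pb.car_pow (A.sig a)
  have h2 := congrArg A.sig (A.LogL_pb.car_pow a)
  rw [A.LogL_iter_sig hζ, hζ.pow_eq_one, one_smul] at h1
  rw [map_pow, map_neg, ← h1] at h2
  exact (frobenius_inj L p) h2.symm

theorem car_mem_Fil (A : ASD Λ g N L z) (hζ : IsPrimitiveRoot ζ (p - 1)) (m : ℕ) (a : L)
    (ha : a ∈ A.Fil m) : car p A.D a ∈ A.Fil m := by
  haveI : CharP K p := charP_of_injective_algebraMap (algebraMap k K).injective p
  haveI : CharP L p := charP_of_injective_algebraMap (algebraMap k L).injective p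
  have hp : p.Prime := Fact.out
  rw [mem_Fil] at ha ⊢
  obtain ⟨h1, h2, h3⟩ := ha
  refine ⟨?_, ?_, ?_⟩
  · rw [mem_regSp] at h1 ⊢
    intro P δ hP
    have h4 := h1 P δ hP
    have h5 := car_ge A.LogL_pb hP 0 (a := a) (by simpa using h4)
    have h6 : (0 + p - 1) / p = 0 := Nat.div_eq_of_lt (by have := hp.pos; omega)
    rw [h6] at h5
    simpa using h5
  · have h4 : ζ⁻¹ • a = (ζ⁻¹) ^ p • a := by
      congr 1
      have h5 : ζ ^ p = ζ := by
        have h6 : p = (p - 1) + 1 := (Nat.sub_add_cancel hp.one_lt.le).symm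
        rw [h6, pow_succ, hζ.pow_eq_one, one_mul]
      rw [inv_pow, h5]
    rw [← A.LogL_car_sig hζ, h2, h4, A.LogL_pb.car_smul]
  · intro l hl
    rw [co_car A.as Λ.pb A.D A.D_alg a l]
    apply Finset.sum_eq_zero
    intro d hd
    rw [Finset.mem_Ico] at hd
    rw [h3 d (by omega), zero_mul, Λ.pb.car_zero, mul_zero]

theorem LogL_co_car [CharP K p] (A : ASD Λ g N L z) (m : ℕ) (hm : m < p) (a : L)
    (ha : a ∈ A.Fil (m + 1)) : A.as.co (car p A.D a) m = car p Λ.D (A.as.co a m) := by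
  rw [co_car A.as Λ.pb A.D A.D_alg a m, Finset.sum_eq_single m]
  · simp
  · intro d hd hdm
    rw [Finset.mem_Ico] at hd
    rw [ha.2.2 d (by omega), zero_mul, Λ.pb.car_zero, mul_zero]
  · intro h
    exact absurd (Finset.mem_Ico.mpr ⟨le_rfl, hm⟩) h

/-- The fixed vectors of the Cartier operator in `Fil m`. -/
def LogL_fix [CharP L p] (A : ASD Λ g N L z) (m : ℕ) : AddSubgroup L where
  carrier := {a | a ∈ A.Fil m ∧ car p A.D a = a}
  add_mem' := fun ha hb => ⟨add_mem ha.1 hb.1, by rw [A.LogL_pb.car_add, ha.2, hb.2]⟩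
  zero_mem' := ⟨zero_mem _, A.LogL_pb.car_zero⟩
  neg_mem' := fun ha => ⟨neg_mem ha.1, by rw [A.LogL_pb.car_neg, ha.2]⟩

/-- The target. -/
def LogL_tgt [CharP K p] (A : ASD Λ g N L z) (m : ℕ) : AddSubgroup K where
  carrier := {c | c ∈ Λ.Mg g m ∧ Λ.sig c = ζ ^ (-1 - m * N : ℤ) • c ∧ car p Λ.D c = c}
  add_mem' := fun ha hb => ⟨add_mem ha.1 hb.1, by rw [map_add, ha.2.1, hb.2.1, smul_add],
    by rw [Λ.pb.car_add, ha.2.2, hb.2.2]⟩
  zero_mem' := ⟨zero_mem _, by simp, Λ.pb.car_zero⟩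
  neg_mem' := fun ha => ⟨neg_mem ha.1, by rw [map_neg, ha.2.1, smul_neg],
    by rw [Λ.pb.car_neg, ha.2.2]⟩

theorem card_Fil_succ (A : ASD Λ g N L z) (hζ : IsPrimitiveRoot ζ (p - 1)) (m : ℕ) (hm : m < p) :
    Nat.card {a : L // a ∈ A.Fil (m + 1) ∧ car p A.D a = a} =
      Nat.card {a : L // a ∈ A.Fil m ∧ car p A.D a = a} *
      Nat.card {c : K // c ∈ Λ.Mg g m ∧ Λ.sig c = ζ ^ (-1 - m * N : ℤ) • c ∧
        car p Λ.D c = c} := by
  haveI : CharP K p := charP_of_injective_algebraMap (algebraMap k K).injective p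
  haveI : CharP L p := charP_of_injective_algebraMap (algebraMap k L).injective p
  have hp : p.Prime := Fact.out
  -- the map to the top coefficient
  let φ : A.LogL_fix (m + 1) →+ A.LogL_tgt m :=
    { toFun := fun a => ⟨A.as.co a.1 m, by
        obtain ⟨ha, hca⟩ := a.2
        refine ⟨(A.mem_regSp_iff a.1).mp ha.1 m hm, ?_, ?_⟩
        · have h1 : A.sig a.1 = ζ ^ (-1 : ℤ) • a.1 := by rw [zpow_neg_one]; exact ha.2.1
          exact (A.sig_iff hζ (-1) a.1).mp h1 m hm
        · rw [← A.LogL_co_car m hm a.1 ha, hca]⟩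
      map_zero' := by
        apply Subtype.ext
        exact A.as.co_zero m
      map_add' := fun a b => by
        apply Subtype.ext
        exact A.as.co_add a.1 b.1 m }
  have hφ : ∀ a, (φ a).1 = A.as.co a.1 m := fun _ => rfl
  -- surjectivity
  have hsurj : Function.Surjective φ := by
    rintro ⟨c, hc1, hc2, hc3⟩
    set a0 : L := algebraMap K L c * z ^ m with ha0
    have hco : ∀ i, A.as.co a0 i = if i = m then c else 0 := fun i => A.as.co_mul_z_pow c hm i
    have ha0F : a0 ∈ A.Fil (m + 1) := by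
      rw [mem_Fil]
      refine ⟨?_, ?_, ?_⟩
      · rw [A.mem_regSp_iff]
        intro d hd
        rw [hco]
        split_ifs with h
        · rw [h]; exact hc1
        · exact zero_mem _
      · rw [← zpow_neg_one, A.sig_iff hζ]
        intro d hd
        rw [hco]
        split_ifs with h
        · rw [h]; exact hc2
        · simp
      · intro d hd
        rw [hco, if_neg (by omega)]
    have hu : car p A.D a0 - a0 ∈ A.Fil m := by
      have h1 : car p A.D a0 - a0 ∈ A.Fil (m + 1) := sub_mem (A.car_mem_Fil hζ _ _ ha0F) ha0F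
      rw [mem_Fil] at h1 ⊢
      refine ⟨h1.1, h1.2.1, ?_⟩
      intro d hd
      rcases Nat.eq_or_lt_of_le hd with h | h
      · rw [← h, A.as.co_sub, A.LogL_co_car m hm a0 ha0F, hco, if_pos rfl, hc3, sub_self]
      · exact h1.2.2 d h
    have hfin : Module.Finite k (A.Fil m) := by
      haveI := A.finrank_regSp.1
      exact Submodule.finiteDimensional_of_le (S₂ := regSp A.D) (fun a ha => ha.1)
    obtain ⟨v, hv, hv2⟩ := lang_surjective_sub (p := p) (A.Fil m) (car p A.D) A.LogL_pb.car_add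
      A.LogL_pb.car_smul (fun v hv => A.car_mem_Fil hζ m v hv) _ hu
    have hvF : v ∈ A.Fil (m + 1) := ⟨hv.1, hv.2.1, fun d hd => hv.2.2 d (by omega)⟩
    refine ⟨⟨a0 + v, add_mem ha0F hvF, ?_⟩, ?_⟩
    · rw [A.LogL_pb.car_add]
      linear_combination -hv2
    · apply Subtype.ext
      rw [hφ]
      change A.as.co (a0 + v) m = c
      rw [A.as.co_add, hco, if_pos rfl, hv.2.2 m le_rfl, add_zero]
  -- kernel
  have hker : Nat.card φ.ker = Nat.card {a : L // a ∈ A.Fil m ∧ car p A.D a = a} := by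
    apply Nat.card_congr
    refine ⟨fun a => ⟨a.1.1, ?_, a.1.2.2⟩, fun a => ⟨⟨a.1, ⟨a.2.1.1, a.2.1.2.1,
      fun d hd => a.2.1.2.2 d (by omega)⟩, a.2.2⟩, ?_⟩, fun a => rfl, fun a => rfl⟩
    · have h1 := a.1.2.1
      have h2 : A.as.co a.1.1 m = 0 := by
        have := a.2
        rw [AddMonoidHom.mem_ker] at this
        rw [← hφ, this]
        rfl
      refine ⟨h1.1, h1.2.1, fun d hd => ?_⟩
      rcases Nat.eq_or_lt_of_le hd with h | h
      · rw [← h, h2]
      · exact h1.2.2 d h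
    · rw [AddMonoidHom.mem_ker]
      apply Subtype.ext
      rw [hφ]
      exact a.2.1.2.2 m le_rfl
  have h1 : Nat.card (A.LogL_fix (m + 1)) = Nat.card (A.LogL_fix (m + 1) ⧸ φ.ker) *
      Nat.card φ.ker := AddSubgroup.card_eq_card_quotient_mul_card_addSubgroup φ.ker
  have h2 : Nat.card (A.LogL_fix (m + 1) ⧸ φ.ker) = Nat.card (A.LogL_tgt m) :=
    Nat.card_congr (QuotientAddGroup.quotientKerEquivOfSurjective φ hsurj).toEquiv
  rw [h2, hker, mul_comm] at h1
  exact h1

end ASD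

end Pool.Agent.PRB
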