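import Pool.Agent.LibPRB.LadW
import Pool.Agent.LibPRB.CarPl

/-! # Ladder curves: residues and the Cartier operator -/

set_option autoImplicit false

namespace Pool.Agent.PRB

namespace Lad

variable {p : ℕ} [Fact p.Prime] {k : Type} [Field k] [IsAlgClosed k] [CharP k p] {ζ : k}
  {K : Type} [Field K] [Algebra k K]

/-- The residue of `a ds` at a finite place. -/
noncomputable def residue (Λ : Lad p ζ K) (P : Plc k K) (a : K) : k :=
  P.val (a * (Λ.s - algebraMap k K (P.val Λ.s)))

theorem residue_eq_zero_iff (Λ : Lad p ζ K) (P : Plc k K) (hP : P ≠ Λ.inf) (a : K)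
    (ha : P.ge (-1) a) : Λ.residue P a = 0 ↔ P.ge 0 a := by
  obtain ⟨ht0, ht1⟩ := Λ.ord_s P hP (P.val Λ.s) rfl
  unfold residue
  set t := Λ.s - algebraMap k K (P.val Λ.s) with ht
  have h0 : P.ge 0 (a * t) := by
    have := P.ge_mul ha ((P.ge_iff ht0).mpr ht1.ge)
    simpa using this
  rw [P.val_eq_zero_iff h0, mul_comm, P.ge_mul_iff ht0, ht1]
  norm_num

theorem residue_car (Λ : Lad p ζ K) (P : Plc k K) (hP : P ≠ Λ.inf) (a : K)
    (ha : P.ge (-1) a) : Λ.residue P (car p Λ.D a) ^ p = Λ.residue P a := by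
  have hp : p.Prime := Fact.out
  have : CharP K p := charP_of_injective_algebraMap (algebraMap k K).injective p
  obtain ⟨ht0, ht1⟩ := Λ.ord_s P hP (P.val Λ.s) rfl
  have hpb := Λ.pb
  unfold residue
  set t := Λ.s - algebraMap k K (P.val Λ.s) with ht
  have h0 : P.ge 0 (a * t) := by
    have := P.ge_mul ha ((P.ge_iff ht0).mpr ht1.ge)
    simpa using this
  set r := P.val (a * t) with hr
  have h1 := P.val_spec h0
  rw [← hr] at h1
  -- a = r / t + a'
  set a' := a - r • t⁻¹ with ha'
  have ha'0 : P.ge 0 a' := by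
    have e : a * t - algebraMap k K r = t * a' := by
      have e1 : t * (algebraMap k K r * t⁻¹) = algebraMap k K r := by field_simp
      rw [ha', Algebra.smul_def, mul_sub t a, e1]; ring
    rw [e, P.ge_mul_iff ht0, ht1] at h1
    simpa using h1
  obtain ⟨ρ, hρ⟩ := IsAlgClosed.exists_pow_nat_eq r hp.pos
  have hDt : Λ.D t = 1 := by
    rw [ht, map_sub, hpb.D_s, Derivation.map_algebraMap, sub_zero]
  have hct : car p Λ.D t⁻¹ = t⁻¹ := by
    rw [← hpb.log_iff]
    exact ⟨t, ht0, by rw [hDt, inv_mul_cancel₀ ht0]⟩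
  have hcar : car p Λ.D a = ρ • t⁻¹ + car p Λ.D a' := by
    have e : a = ρ ^ p • t⁻¹ + a' := by rw [ha', hρ]; ring
    conv_lhs => rw [e]
    rw [hpb.car_add, hpb.car_smul, hct]
  have hca' : P.ge 0 (car p Λ.D a') := by
    have h2 := car_ge hpb (Λ.fin_diff P hP) 0 (a := a') (by simpa using ha'0)
    have h3 : (0 + p - 1) / p = 0 := Nat.div_eq_of_lt (by have := hp.pos; omega)
    rw [h3] at h2
    simpa using h2
  have hval : P.val (car p Λ.D a * t) = ρ := by
    apply P.val_eq
    have e : car p Λ.D a * t - algebraMap k K ρ = car p Λ.D a' * t := by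
      rw [hcar, Algebra.smul_def, add_mul, mul_assoc, inv_mul_cancel₀ ht0]; ring
    rw [e]
    have := P.ge_mul hca' ((P.ge_iff ht0).mpr ht1.ge)
    simpa using this
  rw [hval, hρ]

theorem car_mem_simple (Λ : Lad p ζ K) (S : Finset (Plc k K)) (a : K)
    (ha : a ∈ Λ.Msp (ind S) (Λ.gam - 1)) : car p Λ.D a ∈ Λ.Msp (ind S) (Λ.gam - 1) := by
  have hp : p.Prime := Fact.out
  have : CharP K p := charP_of_injective_algebraMap (algebraMap k K).injective p
  have hpb := Λ.pb
  rw [mem_Msp] at ha ⊢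
  have h1 : (1 + p - 1) / p = 1 := by
    rw [Nat.add_sub_cancel_left]; exact Nat.div_self hp.pos
  refine ⟨fun P hP => ?_, ?_⟩
  · have h2 := ha.1 P hP
    by_cases hS : P ∈ S
    · simp only [ind, if_pos hS] at h2 ⊢
      have h3 := car_ge hpb (Λ.fin_diff P hP) 1 (a := a) (by simpa using h2)
      rw [h1] at h3
      simpa using h3
    · simp only [ind, if_neg hS] at h2 ⊢
      have h3 := car_ge hpb (Λ.fin_diff P hP) 0 (a := a) (by simpa using h2)
      have h4 : (0 + p - 1) / p = 0 := Nat.div_eq_of_lt (by have := hp.pos; omega)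
      rw [h4] at h3
      simpa using h3
  · have h3 := car_ge hpb Λ.inf_diff 1 (a := a) (by
      refine ha.2.mono (le_of_eq ?_); push_cast; ring)
    rw [h1] at h3
    refine h3.mono (le_of_eq ?_); push_cast; ring

theorem car_sig (Λ : Lad p ζ K) (hζ : IsPrimitiveRoot ζ (p - 1)) (a : K) :
    car p Λ.D (Λ.sig a) = Λ.sig (car p Λ.D a) := by
  have hp : p.Prime := Fact.out
  have : CharP K p := charP_of_injective_algebraMap (algebraMap k K).injective p
  have hpb := Λ.pb
  have hit : ∀ n : ℕ, Λ.D^[n] (Λ.sig a) = ζ ^ n • Λ.sig (Λ.D^[n] a) := by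
    intro n
    induction n with
    | zero => simp
    | succ n ih =>
      rw [Function.iterate_succ_apply', ih, Derivation.map_smul, Λ.sig_D,
        Function.iterate_succ_apply', smul_smul, pow_succ]
  have h1 := hpb.car_pow (Λ.sig a)
  rw [hit, hζ.pow_eq_one, one_smul] at h1
  have h2 : Λ.sig (car p Λ.D a) ^ p = - Λ.sig (Λ.D^[p - 1] a) := by
    rw [← map_pow, hpb.car_pow, map_neg]
  have h3 : frobenius K p (car p Λ.D (Λ.sig a)) = frobenius K p (Λ.sig (car p Λ.D a)) := by
    rw [frobenius_def, frobenius_def, h1, h2]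
  exact frobenius_inj K p h3

end Lad

end Pool.Agent.PRB
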