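import Pool.Agent.LibPRB.LogC
import Pool.Agent.LibPRB.LadE

/-! # Ladder curves: logarithmic differentials and weights -/

set_option autoImplicit false

namespace Pool.Agent.PRB

namespace Lad

variable {p : ℕ} [Fact p.Prime] {k : Type} [Field k] [IsAlgClosed k] [CharP k p] {ζ : k}
  {K : Type} [Field K] [Algebra k K]

omit [Fact p.Prime] [IsAlgClosed k] [CharP k p] in
theorem LogW_indep (σ : K →ₐ[k] K) (T : Finset ℕ) :
    (∀ i ∈ T, ∀ j ∈ T, ζ ^ i = ζ ^ j → i = j) → ∀ x : ℕ → K, (∀ e ∈ T, σ (x e) = ζ ^ e • x e) →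
      ∑ e ∈ T, x e = 0 → ∀ e ∈ T, x e = 0 := by
  classical
  induction T using Finset.induction_on with
  | empty => intro _ x _ _ e he; simp at he
  | insert f T hf ih =>
    intro hinj x hx hs
    have hT : ∀ e ∈ T, x e = 0 := by
      have h1 := ih (fun i hi j hj => hinj i (Finset.mem_insert_of_mem hi) j
        (Finset.mem_insert_of_mem hj)) (fun e => (ζ ^ e - ζ ^ f) • x e)
        (fun e he => by
          rw [map_smul, hx e (Finset.mem_insert_of_mem he), smul_comm]) ?_
      · intro e he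
        have h2 := h1 e he
        rcases smul_eq_zero.mp h2 with h3 | h3
        · exfalso
          have h4 := hinj e (Finset.mem_insert_of_mem he) f (Finset.mem_insert_self _ _)
            (sub_eq_zero.mp h3)
          rw [h4] at he
          exact hf he
        · exact h3
      · have h2 : σ (∑ e ∈ insert f T, x e) - ζ ^ f • ∑ e ∈ insert f T, x e = 0 := by
          rw [hs, map_zero, smul_zero, sub_zero]
        rw [map_sum, Finset.smul_sum, ← Finset.sum_sub_distrib, Finset.sum_insert hf,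
          hx f (Finset.mem_insert_self _ _), sub_self, zero_add] at h2
        rw [← h2]
        refine Finset.sum_congr rfl fun e he => ?_
        rw [hx e (Finset.mem_insert_of_mem he), sub_smul]
    intro e he
    rcases Finset.mem_insert.mp he with rfl | he
    · rw [Finset.sum_insert hf, Finset.sum_eq_zero hT, add_zero] at hs
      exact hs
    · exact hT e he

/-- Weight decomposition of the logarithmic differentials. -/
theorem log_card_weights (Λ : Lad p ζ K) (hζ : IsPrimitiveRoot ζ (p - 1))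
    (S : Finset (Plc k K)) (hS : Λ.inf ∉ S)
    (hσ : ∀ a ∈ Λ.Msp (ind S) (Λ.gam - 1), Λ.sig a ∈ Λ.Msp (ind S) (Λ.gam - 1)) :
    ∏ e ∈ Finset.range (p - 1), Nat.card {a : K // a ∈ Λ.Msp (ind S) (Λ.gam - 1) ∧
      Λ.sig a = ζ ^ (e : ℤ) • a ∧ car p Λ.D a = a} = p ^ S.card := by
  have hK : CharP K p := charP_of_injective_algebraMap (algebraMap k K).injective p
  rw [← Λ.log_card S hS, Finset.prod_range, ← Nat.card_pi]
  have hζp : ζ ^ p = ζ := by
    have h3 : p - 1 + 1 = p := Nat.sub_add_cancel (Fact.out : p.Prime).one_le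
    rw [← h3, pow_succ, hζ.pow_eq_one, one_mul]
  have hinj : ∀ i ∈ Finset.range (p - 1), ∀ j ∈ Finset.range (p - 1), ζ ^ i = ζ ^ j → i = j := by
    intro i hi j hj hij
    exact hζ.pow_inj (Finset.mem_range.mp hi) (Finset.mem_range.mp hj) hij
  have hcar : ∀ (e : ℕ) (c : K), car p Λ.D (ζ ^ e • c) = ζ ^ e • car p Λ.D c := by
    intro e c
    have h1 : (ζ ^ e) ^ p = ζ ^ e := by rw [← pow_mul, mul_comm, pow_mul, hζp]
    have h2 := Λ.pb.car_smul (ζ ^ e) c
    rwa [h1] at h2
  refine Nat.card_congr (Equiv.ofBijective (fun x => ⟨∑ e : Fin (p - 1), (x e).1, ?_, ?_⟩) ⟨?_, ?_⟩)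
  · exact Submodule.sum_mem _ fun e _ => (x e).2.1
  · rw [Λ.pb.car_finset_sum]
    exact Finset.sum_congr rfl fun e _ => (x e).2.2.2
  · intro x y hxy
    have h1 : ∑ e : Fin (p - 1), (x e).1 = ∑ e : Fin (p - 1), (y e).1 := congrArg Subtype.val hxy
    set w : ℕ → K := fun e => if h : e < p - 1 then (x ⟨e, h⟩).1 - (y ⟨e, h⟩).1 else 0 with hw
    have hwe : ∀ e : Fin (p - 1), w e = (x e).1 - (y e).1 := by
      intro e
      simp only [hw, e.2, dif_pos]
    have h2 : ∑ e ∈ Finset.range (p - 1), w e = 0 := by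
      rw [Finset.sum_range]
      simp only [hwe]
      rw [Finset.sum_sub_distrib, h1, sub_self]
    have h3 := LogW_indep (ζ := ζ) Λ.sig (Finset.range (p - 1)) hinj w ?_ h2
    · funext e
      apply Subtype.ext
      have h4 := h3 e (Finset.mem_range.mpr e.2)
      rw [hwe] at h4
      exact sub_eq_zero.mp h4
    · intro e he
      have he' := Finset.mem_range.mp he
      have h5 := hwe ⟨e, he'⟩
      simp only at h5
      rw [h5, map_sub, (x ⟨e, he'⟩).2.2.1, (y ⟨e, he'⟩).2.2.1, smul_sub]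
      simp only [zpow_natCast]
  · rintro ⟨a, ha1, ha2⟩
    obtain ⟨c, hc1, hc2, hc3⟩ := Λ.exists_weights hζ a
    have hiter : ∀ i, Λ.sig^[i] a ∈ Λ.Msp (ind S) (Λ.gam - 1) := by
      intro i
      induction i with
      | zero => exact ha1
      | succ i ih => rw [Function.iterate_succ_apply']; exact hσ _ ih
    have hmem : ∀ e, c e ∈ Λ.Msp (ind S) (Λ.gam - 1) := by
      intro e
      obtain ⟨r, hr⟩ := hc3 e
      rw [hr]
      exact Submodule.sum_mem _ fun i _ => Submodule.smul_mem _ _ (hiter i)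
    have hfix : ∀ e ∈ Finset.range (p - 1), car p Λ.D (c e) - c e = 0 := by
      refine LogW_indep (ζ := ζ) Λ.sig (Finset.range (p - 1)) hinj
        (fun e => car p Λ.D (c e) - c e) ?_ ?_
      · intro e _
        rw [map_sub, ← Λ.car_sig hζ, hc1, hcar, smul_sub]
      · rw [Finset.sum_sub_distrib, ← Λ.pb.car_finset_sum, hc2, ha2, sub_self]
    refine ⟨fun e => ⟨c e, hmem e, by rw [hc1, zpow_natCast],
      sub_eq_zero.mp (hfix e (Finset.mem_range.mpr e.2))⟩, ?_⟩
    apply Subtype.ext
    simp only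
    rw [← hc2, Finset.sum_range]

end Lad

end Pool.Agent.PRB
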