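import Mathlib

/-! # Choice of the parameters -/

set_option autoImplicit false

namespace Pool.Agent.PRB

/-- `gam` of the tower. -/
def gamT (p m r : ℕ) : ℕ :=
  p ^ r * (p ^ m - 1) * (p - 3) + (p ^ r - 1) * ((p - 1) * (p - 2) - 1)

/-- `2 * ginv` of the tower. -/
def ginvT (p m r : ℕ) : ℕ := (p - 3) * (p ^ r * ((p ^ m - 1) / (p - 1)) + (p ^ r - 1))

theorem Param_geom (p m : ℕ) (h5 : 5 ≤ p) :
    ∃ S : ℕ, (p - 1) * S + 1 = p ^ m ∧ (p ^ m - 1) / (p - 1) = S ∧ S ≡ m [MOD p - 1] := by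
  refine ⟨∑ k ∈ Finset.range m, p ^ k, ?_, ?_, ?_⟩
  · have h := Nat.geomSum_eq (m := p) (by omega) m
    have hd : (p - 1) ∣ p ^ m - 1 := by
      simpa using Nat.sub_dvd_pow_sub_pow p 1 m
    rw [h, Nat.mul_div_cancel' hd]
    have : 1 ≤ p ^ m := Nat.one_le_pow _ _ (by omega)
    omega
  · exact (Nat.geomSum_eq (m := p) (by omega) m).symm
  · have h1 : p ≡ 1 [MOD p - 1] := by
      have h2 : p = (p - 1) + 1 := by omega
      conv_lhs => rw [h2]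
      exact Nat.add_modEq_left
    have h3 : ∀ k ∈ Finset.range m, p ^ k ≡ 1 [MOD p - 1] := fun k _ => by
      simpa using h1.pow k
    have h4 : ∀ n : ℕ, ∑ k ∈ Finset.range n, p ^ k ≡ n [MOD p - 1] := by
      intro n
      induction n with
      | zero => rfl
      | succ n ih =>
        rw [Finset.sum_range_succ]
        exact ih.add (by simpa using h1.pow n)
    exact h4 m

/-- the sum `ginvT + gamT` and `gamT` for `r = 3`, in `ℤ`. -/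
theorem Param_gam3 (p m S : ℕ) (h5 : 5 ≤ p) (hS : (p - 1) * S + 1 = p ^ m) :
    (gamT p m 3 : ℤ) = (p : ℤ) ^ 3 * ((p - 1) * (p - 3)) * S +
      ((p : ℤ) ^ 3 - 1) * (p ^ 2 - 3 * p + 1) := by
  obtain ⟨a, rfl⟩ : ∃ a, p = a + 5 := ⟨p - 5, by omega⟩
  have h1 : (a + 5) ^ m - 1 = (a + 4) * S := by
    have : a + 5 - 1 = a + 4 := rfl
    rw [this] at hS
    omega
  have h2 : (a + 5) ^ 3 - 1 = a ^ 3 + 15 * a ^ 2 + 75 * a + 124 := by
    have : (a + 5) ^ 3 = (a ^ 3 + 15 * a ^ 2 + 75 * a + 124) + 1 := by ring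
    rw [this]; rfl
  have h3 : (a + 5 - 1) * (a + 5 - 2) - 1 = a ^ 2 + 7 * a + 11 := by
    have h3a : a + 5 - 1 = a + 4 := rfl
    have h3b : a + 5 - 2 = a + 3 := rfl
    rw [h3a, h3b]
    have : (a + 4) * (a + 3) = (a ^ 2 + 7 * a + 11) + 1 := by ring
    rw [this]; rfl
  have h4 : a + 5 - 3 = a + 2 := rfl
  rw [gamT, h1, h2, h3, h4]
  push_cast
  ring

theorem Param_ginv3 (p m S : ℕ) (h5 : 5 ≤ p) (hS : (p ^ m - 1) / (p - 1) = S) :
    (ginvT p m 3 : ℤ) = ((p : ℤ) - 3) * ((p : ℤ) ^ 3 * S + (p ^ 3 - 1)) := by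
  obtain ⟨a, rfl⟩ : ∃ a, p = a + 5 := ⟨p - 5, by omega⟩
  have h2 : (a + 5) ^ 3 - 1 = a ^ 3 + 15 * a ^ 2 + 75 * a + 124 := by
    have : (a + 5) ^ 3 = (a ^ 3 + 15 * a ^ 2 + 75 * a + 124) + 1 := by ring
    rw [this]; rfl
  have h4 : a + 5 - 3 = a + 2 := rfl
  rw [ginvT, hS, h2, h4]
  push_cast
  ring

theorem Param_T0 (p m S : ℕ) (h5 : 5 ≤ p) (hS : (p - 1) * S + 1 = p ^ m)
    (hS' : (p ^ m - 1) / (p - 1) = S) :
    ((gamT p m 0 : ℤ) = ((p : ℤ) - 1) * (p - 3) * S) ∧ (ginvT p m 0 : ℤ) = ((p : ℤ) - 3) * S := by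
  obtain ⟨a, rfl⟩ : ∃ a, p = a + 5 := ⟨p - 5, by omega⟩
  have h1 : (a + 5) ^ m - 1 = (a + 4) * S := by
    have : a + 5 - 1 = a + 4 := rfl
    rw [this] at hS
    omega
  have h4 : a + 5 - 3 = a + 2 := rfl
  constructor
  · rw [gamT, h1, h4]
    simp only [pow_zero, Nat.sub_self, Nat.zero_mul, Nat.add_zero, Nat.one_mul]
    push_cast
    ring
  · rw [ginvT, hS', h4]
    simp only [pow_zero, Nat.sub_self, Nat.add_zero, Nat.one_mul]
    push_cast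
    ring

/-- choice of `m`. -/
theorem Param_m (q c : ℕ) (hq : 1 ≤ q) : ∃ m, 1 ≤ m ∧ m ≤ q ∧ q ∣ c + m := by
  refine ⟨q - c % q, ?_, Nat.sub_le _ _, ?_⟩
  · have := Nat.mod_lt c hq
    omega
  · have h1 := Nat.mod_lt c hq
    have h2 : c + (q - c % q) = q * (c / q) + q := by
      have := Nat.div_add_mod c q
      omega
    rw [h2]
    exact Dvd.dvd.add (Dvd.intro _ rfl) dvd_rfl

/-- sizes -/
theorem Param_size (p q m S : ℕ) (h5 : 5 ≤ p) (hq : 2 ≤ q) (hm : m ≤ q)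
    (hS : (p - 1) * S + 1 = p ^ m) :
    (p : ℤ) ^ 3 * ((p - 1) * (p - 3)) * S + ((p : ℤ) ^ 3 - 1) * (p ^ 2 - 3 * p + 1) +
      ((p : ℤ) ^ 4 * (p - 3) * S + (p ^ 3 - 1) * (p ^ 2 - 2 * p - 2)) + p ^ 3 * (p - 3) +
      2 * ((p - 1) * (p - 2)) ≤ 2 * (p : ℤ) ^ (q + 5) ∧
    ((p : ℤ) - 2) ^ 2 * p ^ 3 +
      ((p : ℤ) ^ 4 * (p - 3) * S + (p ^ 3 - 1) * (p ^ 2 - 2 * p - 2)) + p ^ 3 * (p - 3) +
      2 * ((p - 1) * (p - 2)) ≤ 2 * (p : ℤ) ^ (q + 5) := by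
  obtain ⟨a, rfl⟩ : ∃ a, p = a + 5 := ⟨p - 5, by omega⟩
  have hS1 : ((a : ℤ) + 4) * S + 1 = ((a : ℤ) + 5) ^ m := by
    have : a + 5 - 1 = a + 4 := rfl
    rw [this] at hS
    exact_mod_cast hS
  set Y : ℤ := ((a : ℤ) + 5) ^ q with hY
  have ha : (0 : ℤ) ≤ a := Int.natCast_nonneg a
  have h1 : ((a : ℤ) + 5) ^ m ≤ Y := pow_le_pow_right₀ (by linarith) hm
  have h2 : ((a : ℤ) + 5) ^ 2 ≤ Y := pow_le_pow_right₀ (by linarith) hq
  have hSY : ((a : ℤ) + 4) * S ≤ Y - 1 := by linarith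
  have hS0 : (0 : ℤ) ≤ S := Int.natCast_nonneg S
  have hSY2 : ((a : ℤ) + 2) * S ≤ Y := by nlinarith
  have e1 : (((a + 5 : ℕ) : ℤ)) = (a : ℤ) + 5 := by push_cast; ring
  have e2 : ((a : ℤ) + 5) ^ (q + 5) = ((a : ℤ) + 5) ^ 5 * Y := by rw [hY]; ring
  rw [e1, e2]
  set b : ℤ := (a : ℤ) + 5 with hb
  have hb5 : 5 ≤ b := by rw [hb]; linarith
  have e3 : (a : ℤ) + 4 = b - 1 := by rw [hb]; ring
  have e4 : (a : ℤ) + 2 = b - 3 := by rw [hb]; ring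
  rw [e3] at hSY hS1
  rw [e4] at hSY2
  have hb0 : (0 : ℤ) ≤ b := by linarith
  have hY0 : 0 ≤ Y := by nlinarith
  -- main pieces
  have p1 : b ^ 3 * ((b - 1) * (b - 3)) * S ≤ b ^ 4 * Y := by
    have : b ^ 3 * ((b - 1) * (b - 3)) * S = b ^ 3 * (b - 1) * ((b - 3) * S) := by ring
    rw [this]
    have h3 : b ^ 3 * (b - 1) ≤ b ^ 4 := by nlinarith [pow_nonneg hb0 3]
    calc b ^ 3 * (b - 1) * ((b - 3) * S) ≤ b ^ 3 * (b - 1) * Y :=
          mul_le_mul_of_nonneg_left hSY2 (mul_nonneg (pow_nonneg hb0 3) (by linarith))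
      _ ≤ b ^ 4 * Y := mul_le_mul_of_nonneg_right h3 hY0
  have p2 : b ^ 4 * (b - 3) * S ≤ b ^ 4 * Y := by
    have : b ^ 4 * (b - 3) * S = b ^ 4 * ((b - 3) * S) := by ring
    rw [this]
    exact mul_le_mul_of_nonneg_left hSY2 (pow_nonneg hb0 4)
  have p3 : (b ^ 3 - 1) * (b ^ 2 - 3 * b + 1) ≤ b ^ 5 := by nlinarith [pow_nonneg hb0 3, pow_nonneg hb0 4, pow_nonneg hb0 2]
  have p4 : (b ^ 3 - 1) * (b ^ 2 - 2 * b - 2) ≤ b ^ 5 := by nlinarith [pow_nonneg hb0 3, pow_nonneg hb0 4, pow_nonneg hb0 2]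
  have p5 : b ^ 3 * (b - 3) ≤ b ^ 4 := by nlinarith [pow_nonneg hb0 3]
  have p6 : 2 * ((b - 1) * (b - 2)) ≤ 2 * b ^ 2 := by nlinarith
  have p7 : (b - 2) ^ 2 * b ^ 3 ≤ b ^ 5 := by
    have : b ^ 5 = b ^ 2 * b ^ 3 := by ring
    rw [this]
    exact mul_le_mul_of_nonneg_right (by nlinarith) (pow_nonneg hb0 3)
  -- everything in terms of b^3 * Y
  have q1 : b ^ 5 ≤ b ^ 3 * Y := by
    have : b ^ 5 = b ^ 3 * b ^ 2 := by ring
    rw [this]
    exact mul_le_mul_of_nonneg_left h2 (pow_nonneg hb0 3)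
  have q2 : b ^ 4 ≤ b ^ 3 * Y := le_trans (pow_le_pow_right₀ (by linarith) (by norm_num)) q1
  have q3 : b ^ 2 ≤ b ^ 3 * Y := le_trans (pow_le_pow_right₀ (by linarith) (by norm_num)) q1
  have q4 : 5 * (b ^ 3 * Y) ≤ b ^ 4 * Y := by
    have : b ^ 4 * Y = b * (b ^ 3 * Y) := by ring
    rw [this]
    exact mul_le_mul_of_nonneg_right hb5 (mul_nonneg (pow_nonneg hb0 3) hY0)
  have q5 : 5 * (b ^ 4 * Y) ≤ b ^ 5 * Y := by
    have : b ^ 5 * Y = b * (b ^ 4 * Y) := by ring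
    rw [this]
    exact mul_le_mul_of_nonneg_right hb5 (mul_nonneg (pow_nonneg hb0 4) hY0)
  have q0 : 0 ≤ b ^ 3 * Y := mul_nonneg (pow_nonneg hb0 3) hY0
  constructor <;> linarith

/-- From integers to naturals. -/
theorem Param_toNat (p : ℕ) (h5 : 5 ≤ p) (N : ℤ) (h0 : 0 ≤ N) (h1 : ((p : ℤ) - 1) ∣ N - 1)
    (h2 : ¬ (p : ℤ) ∣ N) : N.toNat ≡ 1 [MOD p - 1] ∧ ¬ p ∣ N.toNat := by
  have hN : (N.toNat : ℤ) = N := Int.toNat_of_nonneg h0
  constructor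
  · apply Nat.ModEq.symm
    rw [Nat.modEq_iff_dvd]
    push_cast [Nat.cast_sub (show 1 ≤ p by omega)]
    rw [Int.toNat_of_nonneg h0]
    exact h1
  · intro h
    apply h2
    rw [← hN]
    exact_mod_cast h

/-- The main choice for `r = 3`. -/
theorem Param_main (p q : ℕ) (h5 : 5 ≤ p) (hpq : p = 2 * q + 1) (G j : ℕ) (hj : j ≤ p ^ 3)
    (hG : p ^ (q + 5) ≤ G) :
    ∃ m S : ℕ, 1 ≤ m ∧ m ≤ q ∧ (p - 1) * S + 1 = p ^ m ∧ (p ^ m - 1) / (p - 1) = S ∧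
      ∃ N : ℤ, N = 2 * G + 1 - ((p : ℤ) ^ 4 * (p - 3) * S + (p ^ 3 - 1) * (p ^ 2 - 2 * p - 2))
          - j * (p - 3) ∧
        (gamT p m 3 : ℤ) + 2 * ((p - 1) * (p - 2)) ≤ N ∧
        ((p : ℤ) - 2) ^ 2 * p ^ 3 + 2 * ((p - 1) * (p - 2)) < N ∧
        ((p : ℤ) - 1) ∣ N - 1 := by
  have hq : 2 ≤ q := by omega
  obtain ⟨m, hm1, hmq, c, hc⟩ := Param_m q (G + j) (by omega)
  obtain ⟨S, hS, hS', hSm⟩ := Param_geom p m h5
  refine ⟨m, S, hm1, hmq, hS, hS', _, rfl, ?_, ?_, ?_⟩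
  · obtain ⟨h1, -⟩ := Param_size p q m S h5 hq hmq hS
    rw [Param_gam3 p m S h5 hS]
    have h2 : ((p ^ (q + 5) : ℕ) : ℤ) ≤ G := by exact_mod_cast hG
    push_cast at h2
    have h3 : (j : ℤ) * (p - 3) ≤ (p : ℤ) ^ 3 * (p - 3) := by
      apply mul_le_mul_of_nonneg_right (by exact_mod_cast hj)
      have : (5 : ℤ) ≤ p := by exact_mod_cast h5
      linarith
    linarith
  · obtain ⟨-, h1⟩ := Param_size p q m S h5 hq hmq hS
    have h2 : ((p ^ (q + 5) : ℕ) : ℤ) ≤ G := by exact_mod_cast hG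
    push_cast at h2
    have h3 : (j : ℤ) * (p - 3) ≤ (p : ℤ) ^ 3 * (p - 3) := by
      apply mul_le_mul_of_nonneg_right (by exact_mod_cast hj)
      have : (5 : ℤ) ≤ p := by exact_mod_cast h5
      linarith
    linarith
  · have h1 : ((p : ℤ) - 1) ∣ (S : ℤ) - m := by
      have := (Nat.modEq_iff_dvd.mp hSm.symm)
      push_cast [Nat.cast_sub (show 1 ≤ p by omega)] at this
      exact this
    obtain ⟨t, ht⟩ := h1
    have h2 : (p : ℤ) - 1 = 2 * q := by rw [hpq]; push_cast; ring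
    have h3 : (G : ℤ) + j + m = q * c := by exact_mod_cast hc
    have h4 : (S : ℤ) = m + (p - 1) * t := by linarith
    refine ⟨c - (p : ℤ) ^ 4 * (p - 3) * t - m * (p ^ 4 - 2 * p ^ 3 - 2 * p ^ 2 - 2 * p - 2)
      - (p ^ 2 + p + 1) * (p ^ 2 - 2 * p - 2) - j, ?_⟩
    have h5' : 2 * (G : ℤ) = (p - 1) * c - 2 * j - 2 * m := by
      rw [h2]; linarith
    rw [h4]
    linear_combination h5'

theorem exists_params_zero (p : ℕ) (hp : p.Prime) (h5 : 5 ≤ p) (g : ℕ) (h : p ^ ((p + 9) / 2) ≤ g) :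
    ∃ m r N : ℕ, 1 ≤ m ∧ m < p ∧ (r = 0 ∨ r = 3) ∧ N ≡ 1 [MOD p - 1] ∧ ¬ p ∣ N ∧
      gamT p m r ≤ N ∧ (p - 2) ^ 2 * p ^ r < N ∧
      2 * g = ginvT p m r + gamT p m r + (N - 1) := by
  obtain ⟨q, hpq⟩ : ∃ q, p = 2 * q + 1 := (hp.eq_two_or_odd').resolve_left (by omega)
  have hq5 : (p + 9) / 2 = q + 5 := by omega
  rw [hq5] at h
  obtain ⟨m, S, hm1, hmq, hS, hS', N, hN, hN1, hN2, hN3⟩ :=
    Param_main p q h5 hpq g 0 (Nat.zero_le _) h
  have h5z : (5 : ℤ) ≤ p := by exact_mod_cast h5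
  have hE : (0 : ℤ) ≤ 2 * ((p - 1) * (p - 2)) := by nlinarith
  by_cases hd : (p : ℤ) ∣ N
  · -- r = 0
    obtain ⟨hg0, hgi0⟩ := Param_T0 p m S h5 hS hS'
    have hS0 : (0 : ℤ) ≤ S := Int.natCast_nonneg S
    set N' : ℤ := 2 * g + 1 - (p : ℤ) * (p - 3) * S with hN'
    have hNN : N ≤ N' := by
      rw [hN, hN']
      have e1 : (p : ℤ) * (p - 3) * S ≤ (p : ℤ) ^ 4 * (p - 3) * S := by
        have : (p : ℤ) ^ 4 * (p - 3) * S - (p : ℤ) * (p - 3) * S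
            = p * (p - 3) * S * ((p : ℤ) ^ 3 - 1) := by ring
        have h3 : (1 : ℤ) ≤ (p : ℤ) ^ 3 := one_le_pow₀ (by linarith)
        have : 0 ≤ (p : ℤ) * (p - 3) * S * ((p : ℤ) ^ 3 - 1) :=
          mul_nonneg (mul_nonneg (mul_nonneg (by linarith) (by linarith)) hS0) (by linarith)
        linarith
      have e2 : (0 : ℤ) ≤ (p ^ 3 - 1) * (p ^ 2 - 2 * p - 2) :=
        mul_nonneg (by
          have h3 : (1 : ℤ) ≤ (p : ℤ) ^ 3 := one_le_pow₀ (by linarith)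
          linarith) (by nlinarith)
      push_cast
      linarith
    have hgg : (gamT p m 0 : ℤ) ≤ (gamT p m 3 : ℤ) := by
      rw [hg0, Param_gam3 p m S h5 hS]
      have h3 : (1 : ℤ) ≤ (p : ℤ) ^ 3 := one_le_pow₀ (by linarith)
      have e1 : 0 ≤ ((p : ℤ) ^ 3 - 1) * (((p : ℤ) - 1) * (p - 3) * S) :=
        mul_nonneg (by linarith) (mul_nonneg (mul_nonneg (by linarith) (by linarith)) hS0)
      have e2 : 0 ≤ ((p : ℤ) ^ 3 - 1) * (p ^ 2 - 3 * p + 1) :=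
        mul_nonneg (by linarith) (by nlinarith)
      nlinarith
    have hN'0 : 0 ≤ N' := by
      have : (0 : ℤ) ≤ gamT p m 3 := Int.natCast_nonneg _
      linarith
    have hN'd : ((p : ℤ) - 1) ∣ N' - 1 := by
      have e : N' - 1 = (N - 1) + (((p : ℤ) ^ 4 * (p - 3) * S
          + (p ^ 3 - 1) * (p ^ 2 - 2 * p - 2)) - p * (p - 3) * S) := by
        rw [hN', hN]; push_cast; ring
      rw [e]
      refine dvd_add hN3 ⟨((p : ℤ) ^ 2 + p + 1) * (p * (p - 3) * S)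
        + (p ^ 2 + p + 1) * (p ^ 2 - 2 * p - 2), by ring⟩
    have hN'p : ¬ (p : ℤ) ∣ N' := by
      intro hd'
      have h1 : (p : ℤ) ∣ N' - N := dvd_sub hd' hd
      have h2 : N' - N = p * ((p : ℤ) ^ 3 * (p - 3) * S - (p - 3) * S
          + (p ^ 4 - 2 * p ^ 3 - 2 * p ^ 2 - p + 2)) + 2 := by
        rw [hN', hN]; push_cast; ring
      have h3 : (p : ℤ) ∣ 2 := by
        have := (Int.dvd_add_right (Dvd.intro _ rfl)).mp (h2 ▸ h1)
        exact this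
      have h4 := Int.le_of_dvd (by norm_num) h3
      linarith
    obtain ⟨k1, k2⟩ := Param_toNat p h5 N' hN'0 hN'd hN'p
    have hNt : (N'.toNat : ℤ) = N' := Int.toNat_of_nonneg hN'0
    refine ⟨m, 0, N'.toNat, hm1, by omega, Or.inl rfl, k1, k2, ?_, ?_, ?_⟩
    · zify
      rw [hNt]
      linarith
    · zify [show 2 ≤ p by omega]
      rw [hNt]
      have h3 : (1 : ℤ) ≤ (p : ℤ) ^ 3 := one_le_pow₀ (by linarith)
      have : ((p : ℤ) - 2) ^ 2 * p ^ 0 ≤ ((p : ℤ) - 2) ^ 2 * p ^ 3 := by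
        rw [pow_zero]
        exact mul_le_mul_of_nonneg_left h3 (sq_nonneg _)
      linarith
    · have hN1' : 1 ≤ N'.toNat := by
        zify
        rw [hNt]
        have : (0 : ℤ) ≤ ((p : ℤ) - 2) ^ 2 * p ^ 3 :=
          mul_nonneg (sq_nonneg _) (pow_nonneg (by linarith) 3)
        linarith
      zify [hN1']
      rw [hNt, hg0, hgi0, hN']
      ring
  · -- r = 3
    have hN0 : 0 ≤ N := by
      have : (0 : ℤ) ≤ gamT p m 3 := Int.natCast_nonneg _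
      linarith
    obtain ⟨k1, k2⟩ := Param_toNat p h5 N hN0 hN3 hd
    have hNt : (N.toNat : ℤ) = N := Int.toNat_of_nonneg hN0
    refine ⟨m, 3, N.toNat, hm1, by omega, Or.inr rfl, k1, k2, ?_, ?_, ?_⟩
    · zify
      rw [hNt]
      linarith
    · zify [show 2 ≤ p by omega]
      rw [hNt]
      linarith
    · have hN1' : 1 ≤ N.toNat := by
        zify
        rw [hNt]
        have : (0 : ℤ) ≤ ((p : ℤ) - 2) ^ 2 * p ^ 3 :=
          mul_nonneg (sq_nonneg _) (pow_nonneg (by linarith) 3)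
        linarith
      zify [hN1']
      rw [hNt, Param_gam3 p m S h5 hS, Param_ginv3 p m S h5 hS', hN]
      push_cast
      ring

theorem exists_params_pos (p : ℕ) (hp : p.Prime) (h5 : 5 ≤ p) (f g : ℕ) (hf : 1 ≤ f)
    (h : f + p ^ ((p + 9) / 2) ≤ g) :
    ∃ m j P w N : ℕ, 1 ≤ m ∧ m < p ∧ 1 ≤ j ∧ j ≤ p ^ 3 ∧ P ≠ 1 ∧ w ≤ 1 ∧
      f = j + (p - 1) * (p - 2) * P ∧ N ≡ 1 [MOD p - 1] ∧ ¬ p ∣ N ∧
      gamT p m 3 ≤ N ∧ (p - 2) ^ 2 * p ^ 3 < N ∧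
      2 * g = ginvT p m 3 + gamT p m 3 + 2 * f + (N - 1) + (j - w) * (p - 3) +
        w * ((p - 2) * (2 * p - 1) - 1) := by
  obtain ⟨q, hpq⟩ : ∃ q, p = 2 * q + 1 := (hp.eq_two_or_odd').resolve_left (by omega)
  have hq5 : (p + 9) / 2 = q + 5 := by omega
  rw [hq5] at h
  have h5z : (5 : ℤ) ≤ p := by exact_mod_cast h5
  -- the choice of `j` and `P`
  obtain ⟨j, P, hj1, hjp, hP, hfe⟩ : ∃ j P : ℕ, 1 ≤ j ∧ j ≤ p ^ 3 ∧ P ≠ 1 ∧
      f = j + (p - 1) * (p - 2) * P := by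
    set E := (p - 1) * (p - 2) with hE
    have hE1 : 1 ≤ E := Nat.mul_pos (by omega) (by omega)
    have hE2 : 2 * E ≤ p ^ 3 := by
      have h1 : E ≤ p * p := Nat.mul_le_mul (by omega) (by omega)
      have h2 : p ^ 3 = p * (p * p) := by ring
      rw [h2]
      calc 2 * E ≤ 2 * (p * p) := by omega
        _ ≤ p * (p * p) := Nat.mul_le_mul_right _ (by omega)
    rcases Nat.lt_or_ge (2 * E) f with hlt | hle
    · refine ⟨(f - 1) % E + 1, (f - 1) / E, by omega, ?_, ?_, ?_⟩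
      · have := Nat.mod_lt (f - 1) hE1
        omega
      · have h2 : 2 ≤ (f - 1) / E := (Nat.le_div_iff_mul_le hE1).mpr (by omega)
        omega
      · have := Nat.mod_add_div (f - 1) E
        omega
    · exact ⟨f, 0, hf, le_trans hle hE2, by omega, by omega⟩
  obtain ⟨m, S, hm1, hmq, hS, hS', N, hN, hN1, hN2, hN3⟩ :=
    Param_main p q h5 hpq (g - f) j hjp (by omega)
  have hgf : ((g - f : ℕ) : ℤ) = g - f := by
    have : f ≤ g := le_trans (Nat.le_add_right _ _) h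
    push_cast [this]; ring
  rw [hgf] at hN
  have hE : (0 : ℤ) ≤ 2 * ((p - 1) * (p - 2)) := by nlinarith
  have hE0 : (0 : ℤ) ≤ ((p : ℤ) - 2) ^ 2 * p ^ 3 :=
    mul_nonneg (sq_nonneg _) (pow_nonneg (by linarith) 3)
  have hcast : (((p - 2) * (2 * p - 1) - 1 : ℕ) : ℤ) = ((p : ℤ) - 2) * (2 * p - 1) - 1 := by
    obtain ⟨a, rfl⟩ : ∃ a, p = a + 5 := ⟨p - 5, by omega⟩
    have h3a : a + 5 - 2 = a + 3 := rfl
    have h3b : 2 * (a + 5) - 1 = 2 * a + 9 := rfl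
    rw [h3a, h3b]
    have : (a + 3) * (2 * a + 9) = (2 * a ^ 2 + 15 * a + 26) + 1 := by ring
    rw [this, Nat.add_sub_cancel]
    push_cast
    ring
  by_cases hd : (p : ℤ) ∣ N
  · -- w = 1
    set N' : ℤ := N - 2 * ((p - 1) * (p - 2)) with hN'
    have hN'0 : 0 ≤ N' := by
      have : (0 : ℤ) ≤ gamT p m 3 := Int.natCast_nonneg _
      linarith
    have hN'd : ((p : ℤ) - 1) ∣ N' - 1 := by
      have e : N' - 1 = (N - 1) - (p - 1) * (2 * (p - 2)) := by rw [hN']; ring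
      rw [e]
      exact dvd_sub hN3 (Dvd.intro _ rfl)
    have hN'p : ¬ (p : ℤ) ∣ N' := by
      intro hd'
      have h1 : (p : ℤ) ∣ N - N' := dvd_sub hd hd'
      have h2 : N - N' = p * (2 * p - 6) + 4 := by rw [hN']; ring
      have h3 : (p : ℤ) ∣ 4 := (Int.dvd_add_right (Dvd.intro _ rfl)).mp (h2 ▸ h1)
      have h4 := Int.le_of_dvd (by norm_num) h3
      linarith
    obtain ⟨k1, k2⟩ := Param_toNat p h5 N' hN'0 hN'd hN'p
    have hNt : (N'.toNat : ℤ) = N' := Int.toNat_of_nonneg hN'0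
    refine ⟨m, j, P, 1, N'.toNat, hm1, by omega, hj1, hjp, hP, le_rfl, hfe, k1, k2, ?_, ?_, ?_⟩
    · zify
      rw [hNt]
      linarith
    · zify [show 2 ≤ p by omega]
      rw [hNt]
      linarith
    · have hN1' : 1 ≤ N'.toNat := by
        zify
        rw [hNt]
        linarith
      zify [hN1', hj1, show 3 ≤ p by omega]
      rw [hNt, Param_gam3 p m S h5 hS, Param_ginv3 p m S h5 hS', hcast, hN', hN]
      push_cast
      ring
  · have hN0 : 0 ≤ N := by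
      have : (0 : ℤ) ≤ gamT p m 3 := Int.natCast_nonneg _
      linarith
    obtain ⟨k1, k2⟩ := Param_toNat p h5 N hN0 hN3 hd
    have hNt : (N.toNat : ℤ) = N := Int.toNat_of_nonneg hN0
    refine ⟨m, j, P, 0, N.toNat, hm1, by omega, hj1, hjp, hP, Nat.zero_le _, hfe, k1, k2,
      ?_, ?_, ?_⟩
    · zify
      rw [hNt]
      linarith
    · zify [show 2 ≤ p by omega]
      rw [hNt]
      linarith
    · have hN1' : 1 ≤ N.toNat := by
        zify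
        rw [hNt]
        linarith
      rw [Nat.sub_zero, Nat.zero_mul, Nat.add_zero]
      zify [hN1', show 3 ≤ p by omega]
      rw [hNt, Param_gam3 p m S h5 hS, Param_ginv3 p m S h5 hS', hN]
      push_cast
      ring

end Pool.Agent.PRB
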