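import Pool.Agent.LibPRB.PolyG

/-! # Frobenius-stable sets of good values -/

set_option autoImplicit false

open Polynomial

namespace Pool.Agent.PRB

variable {p : ℕ} [Fact p.Prime]

/-- The roots of an irreducible polynomial. -/
theorem PolyP_irr (h5 : 5 ≤ p) (m : ℕ) (hm : m < p) (d : ℕ) (hd : ¬ d ∣ p ^ 2) (hd0 : d ≠ 0) :
    ∃ (Q : (ZMod p)[X]) (G : Finset (AlgebraicClosure (ZMod p))),
      Q.map (algebraMap (ZMod p) (AlgebraicClosure (ZMod p))) = ∏ τ ∈ G, (X - C τ) ∧
      G.card = d ∧ (∀ τ ∈ G, (minpoly (ZMod p) τ).natDegree = d) ∧ ∀ τ ∈ G, Good p m 3 τ := by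
  classical
  -- an irreducible polynomial of degree d
  obtain ⟨Q, hQm, hQi, hQd⟩ : ∃ Q : (ZMod p)[X], Q.Monic ∧ Irreducible Q ∧ Q.natDegree = d := by
    obtain ⟨α, hα⟩ := Field.exists_primitive_element (ZMod p) (GaloisField p d)
    have hint : IsIntegral (ZMod p) α := Algebra.IsIntegral.isIntegral α
    refine ⟨minpoly (ZMod p) α, minpoly.monic hint, minpoly.irreducible hint, ?_⟩
    have h1 := IntermediateField.adjoin.finrank hint
    rw [hα, IntermediateField.finrank_top', GaloisField.finrank p hd0] at h1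
    exact h1.symm
  have hQs : Q.Separable := PerfectField.separable_of_irreducible hQi
  have hBm : (Q.map (algebraMap (ZMod p) (AlgebraicClosure (ZMod p)))).Monic := hQm.map _
  have hBnd : (Q.map (algebraMap (ZMod p) (AlgebraicClosure (ZMod p)))).roots.Nodup :=
    nodup_roots hQs.map
  have hBc : (Q.map (algebraMap (ZMod p) (AlgebraicClosure (ZMod p)))).roots.card =
      (Q.map (algebraMap (ZMod p) (AlgebraicClosure (ZMod p)))).natDegree :=
    splits_iff_card_roots.1 (IsAlgClosed.splits _)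
  have hmem : ∀ τ ∈ (Q.map (algebraMap (ZMod p) (AlgebraicClosure (ZMod p)))).roots.toFinset,
      minpoly (ZMod p) τ = Q := by
    intro τ hτ
    rw [Multiset.mem_toFinset, mem_roots hBm.ne_zero, IsRoot.def, eval_map_algebraMap] at hτ
    exact (minpoly.eq_of_irreducible_of_monic hQi hτ hQm).symm
  refine ⟨Q, (Q.map (algebraMap (ZMod p) (AlgebraicClosure (ZMod p)))).roots.toFinset,
    ?_, ?_, ?_, ?_⟩
  · have h2 := prod_multiset_X_sub_C_of_monic_of_roots_card_eq hBm hBc
    refine h2.symm.trans ?_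
    rw [Finset.prod, Multiset.toFinset_val, Multiset.dedup_eq_self.2 hBnd]
  · rw [Multiset.toFinset_card_of_nodup hBnd, hBc, hQm.natDegree_map, hQd]
  · intro τ hτ
    rw [hmem τ hτ, hQd]
  · intro τ hτ
    by_contra hg
    have h1 := pow_eq_of_not_good h5 m hm τ hg
    apply hd
    rw [← hQd]
    refine hQi.natDegree_dvd_of_dvd_X_pow_card_pow_sub_X ?_
    rw [Nat.card_zmod, ← hmem τ hτ]
    refine minpoly.dvd _ _ ?_
    rw [map_sub, map_pow, aeval_X, h1, sub_self]

/-- Sets of good values of any size `≠ 1`, stable under Frobenius. -/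
theorem exists_polyPi (h5 : 5 ≤ p) (m : ℕ) (hm : m < p) (P : ℕ) (hP : P ≠ 1) :
    ∃ (Q : (ZMod p)[X]) (G : Finset (AlgebraicClosure (ZMod p))),
      Q.map (algebraMap (ZMod p) (AlgebraicClosure (ZMod p))) = ∏ τ ∈ G, (X - C τ) ∧
      G.card = P ∧ ∀ τ ∈ G, Good p m 3 τ := by
  classical
  have hpp : p.Prime := Fact.out
  rcases Nat.eq_zero_or_pos P with rfl | hP0
  · exact ⟨1, ∅, by simp, rfl, fun τ h => by simp at h⟩
  by_cases hd : P ∣ p ^ 2
  · -- P = p or p ^ 2
    obtain ⟨i, hi, rfl⟩ := (Nat.dvd_prime_pow hpp).1 hd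
    have hi0 : i ≠ 0 := by rintro rfl; exact hP (pow_zero p)
    have hodd : ¬ 2 ∣ p ^ 2 := by
      intro h
      have := (Nat.prime_dvd_prime_iff_eq Nat.prime_two hpp).1 (Nat.prime_two.dvd_of_dvd_pow h)
      omega
    have hlt : ¬ (p ^ i - 2) ∣ p ^ 2 := by
      intro h
      obtain ⟨j, hj, he⟩ := (Nat.dvd_prime_pow hpp).1 h
      have h1 : 5 ≤ p ^ i := h5.trans (Nat.le_self_pow hi0 p)
      have hji : j < i := by
        by_contra hc
        push Not at hc
        have := Nat.pow_le_pow_right (by omega : 0 < p) hc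
        omega
      have h2 : p ^ j * p ≤ p ^ i := by
        rw [← pow_succ]
        exact Nat.pow_le_pow_right (by omega) hji
      have h3 : p ^ j * 5 ≤ p ^ j * p := Nat.mul_le_mul_left _ h5
      have h4 : 0 < p ^ j := Nat.pow_pos (by omega)
      omega
    have h1 : 5 ≤ p ^ i := h5.trans (Nat.le_self_pow hi0 p)
    obtain ⟨Q1, G1, a1, b1, c1, d1⟩ := PolyP_irr h5 m hm 2 hodd (by norm_num)
    obtain ⟨Q2, G2, a2, b2, c2, d2⟩ := PolyP_irr h5 m hm (p ^ i - 2) hlt (by omega)
    have hne : p ^ i - 2 ≠ 2 := by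
      intro h
      have h4 : p ^ i = 4 := by omega
      have : 5 ≤ 4 := h4 ▸ h1
      omega
    have hdis : Disjoint G1 G2 := by
      rw [Finset.disjoint_left]
      intro τ h1 h2
      exact hne ((c2 τ h2).symm.trans (c1 τ h1))
    refine ⟨Q1 * Q2, G1 ∪ G2, ?_, ?_, ?_⟩
    · rw [Polynomial.map_mul, a1, a2, Finset.prod_union hdis]
    · rw [Finset.card_union_of_disjoint hdis, b1, b2]
      omega
    · intro τ hτ
      rcases Finset.mem_union.1 hτ with h | h
      · exact d1 τ h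
      · exact d2 τ h
  · obtain ⟨Q, G, a, b, -, d⟩ := PolyP_irr h5 m hm P hd (by omega)
    exact ⟨Q, G, a, b, d⟩

end Pool.Agent.PRB
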