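import Pool.Agent.LibPRB.PolyA
import Pool.Agent.LibPRB.PolyP
import Pool.Agent.LibPRB.FinG
import Pool.Agent.LibPRB.Param

/-! # The main theorem -/

set_option autoImplicit false

open Polynomial

namespace Pool.Agent.PRB

theorem main (p : ℕ) [hp : Fact p.Prime] (h5 : 5 ≤ p) (g f : ℕ) (h : f + p ^ ((p + 9) / 2) ≤ g) :
    HasCurve p g f := by
  have hp2 : p ≠ 2 := by omega
  rcases Nat.eq_zero_or_pos f with rfl | hf
  · obtain ⟨m, r, N, hm1, hmp, hr, hN1, hNp, hN2, hN3, hg⟩ :=
      exists_params_zero p hp.out h5 g (by simpa using h)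
    have h1 := hasCurve_of_poly (p := p) hp2 m r ∅ ∅ ∅ (by simp) (by simp) (by simp) (by simp)
      1 (by simp) N hN1 hNp (by simpa [gamT] using hN2) hN3 g (by
        simp only [Finset.card_empty, Nat.zero_add, Nat.mul_zero, Nat.zero_mul, Nat.add_zero]
        simpa [gamT, ginvT] using hg)
    simpa using h1
  · obtain ⟨m, j, P, w, N, hm1, hmp, hj1, hj3, hP, hw, hfe, hN1, hNp, hN2, hN3, hg⟩ :=
      exists_params_pos p hp.out h5 f g hf h
    obtain ⟨A, W, hA, hWc, h0, hW⟩ := exists_polyA (p := p) j hj1 hj3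
    obtain ⟨Q, G, hQ, hGc, hG⟩ := exists_polyPi (p := p) h5 m hmp P hP
    rcases Nat.lt_or_ge w 1 with hw0 | hw1
    · have hw0 : w = 0 := by omega
      subst hw0
      have h1 := hasCurve_of_poly (p := p) hp2 m 3 W ∅ G hW (by simp) (by simp) hG
        (A * Q) (by rw [Polynomial.map_mul, hA, hQ]; simp) N hN1 hNp
        (by simpa [gamT] using hN2) hN3 g (by
          rw [hWc, hGc, Finset.card_empty, Nat.add_zero, ← hfe]
          simpa [gamT, ginvT] using hg)
      rw [hWc, hGc, Finset.card_empty, Nat.add_zero, ← hfe] at h1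
      exact h1
    · have hw1 : w = 1 := by omega
      subst hw1
      classical
      have hW' : ∏ τ ∈ W, (X - C τ) = X * ∏ τ ∈ W.erase 0, (X - C τ) := by
        rw [← Finset.mul_prod_erase W _ h0]; simp
      have hc : (W.erase 0).card = j - 1 := by rw [Finset.card_erase_of_mem h0, hWc]
      have hc' : (W.erase 0).card + ({0} : Finset (AlgebraicClosure (ZMod p))).card = j := by
        rw [hc, Finset.card_singleton]; omega
      have h1 := hasCurve_of_poly (p := p) hp2 m 3 (W.erase 0) {0} G
        (fun τ hτ => hW τ (Finset.mem_of_mem_erase hτ)) (by simpa using hW 0 h0) (by simp) hG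
        (A * X ^ 2 * Q) (by
          rw [Polynomial.map_mul, Polynomial.map_mul, hA, hQ, hW']
          simp only [Polynomial.map_pow, map_X, Finset.prod_singleton, map_zero, sub_zero]
          ring) N hN1 hNp
        (by simpa [gamT] using hN2) hN3 g (by
          rw [hc', hGc, ← hfe, hc, Finset.card_singleton]
          simpa [gamT, ginvT] using hg)
      rw [hc', hGc, ← hfe] at h1
      exact h1

end Pool.Agent.PRB
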