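import Pool.Agent.LibPRB.FixD

/-!
# Ordinarity of the three-point covers

PLAN. `ordP_one`: `B = C b`, the coefficient at `p - 1 = natDegree W` is `b`.
`ordP_two`: `n = p - 1`, `W = X ^ (n - r0) * (X - 1) ^ (n - r1) * (X + 1) ^ (n - r2)` is monic of degree `2 n`
(because `r0 + r1 + r2 = n`).  `B = C b0 + C b1 * X`.  The coefficient of `B W` at `2 p - 1 = 2 n + 1` is `b1`,
so `b1 = 0`; the coefficient at `p - 1 = n` is `b0` times the coefficient at `r0` of
`(X - 1) ^ (n - r1) * (X + 1) ^ (n - r2)`, which is `(-1) ^ (n - r1)` times the coefficient at `r0` of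
`(1 - X) ^ a * (1 + X) ^ b`, `a = n - r1`, `b = n - r2`, `a + b = n + r0`.
`OrdB_coeff`: this coefficient is `2 ^ r0 * b.choose r0` in characteristic `p`:
`(1 + X) ^ b = ((1 - X) + 2 X) ^ b = ∑ i, b.choose i * (2 X) ^ i * (1 - X) ^ (b - i)`, so the coefficient is
`∑_{i ≤ r0} b.choose i * 2 ^ i * (-1) ^ (r0 - i) * (a + b - i).choose (r0 - i)`, and with `j = r0 - i`:
`(a + b - i).choose j = (p - 1 + j).choose j ≡ 0` mod `p` for `1 ≤ j < p`
(`j * (p - 1 + j).choose j = p * (p - 1 + j).choose (j - 1)`, or `Nat.Prime.dvd_choose`...); only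
`j = 0` remains.  `b.choose r0 ≠ 0` mod `p` as `r0 ≤ b < p`; `2 ≠ 0` as `p` is odd.
-/

set_option autoImplicit false

namespace Pool.Agent.PRB

variable {p : ℕ} [Fact p.Prime] {k : Type} [Field k] [CharP k p]

theorem ordP_one (W : Polynomial k) (hW : W.Monic) (hd : W.natDegree = p - 1) : OrdP p W 1 := by
  intro B hB hi
  have h1 : B = Polynomial.C (B.coeff 0) := by
    apply Polynomial.eq_C_of_natDegree_le_zero
    by_cases hB0 : B = 0
    · rw [hB0]; simp
    · rw [Polynomial.degree_eq_natDegree hB0] at hB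
      have : B.natDegree < 1 := by exact_mod_cast hB
      omega
  rw [h1]
  have h2 := hi 0
  rw [h1, mul_zero, zero_add, Polynomial.coeff_C_mul, ← hd, hW.coeff_natDegree, mul_one] at h2
  rw [h2, Polynomial.C_0]

/-- the coefficients of a power of `1 - X` -/
theorem OrdB_one_sub (m j : ℕ) (hj : 1 ≤ j) (hjp : j < p) (hm : m = p - 1 + j) :
    ((1 - Polynomial.X : Polynomial k) ^ m).coeff j = 0 := by
  have hp : p.Prime := Fact.out
  have hp0 := hp.pos
  have h1 : (1 - Polynomial.X : Polynomial k) ^ m =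
      Polynomial.C ((-1) ^ m) * (Polynomial.X + Polynomial.C (-1)) ^ m := by
    rw [map_neg, Polynomial.C_1, show (1 - Polynomial.X : Polynomial k) =
      (-1) * (Polynomial.X + -1) by ring, mul_pow]
    congr 1
    simp
  have h2 : ((m.choose j : ℕ) : k) = 0 := by
    rw [CharP.cast_eq_zero_iff k p]
    have h3 : j * m.choose j = p * m.choose (j - 1) := by
      obtain ⟨i, rfl⟩ : ∃ i, j = i + 1 := ⟨j - 1, by omega⟩
      have h4 := Nat.choose_succ_right_eq m i
      have h5 : m - i = p := by omega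
      rw [h5] at h4
      rw [Nat.add_sub_cancel, mul_comm, h4, mul_comm]
    have h6 : p ∣ j * m.choose j := ⟨_, h3⟩
    rcases hp.dvd_mul.1 h6 with h7 | h7
    · have := Nat.le_of_dvd (by omega) h7
      omega
    · exact h7
  rw [h1, Polynomial.coeff_C_mul, Polynomial.coeff_X_add_C_pow, h2, mul_zero, mul_zero]

theorem OrdB_coeff (a b r : ℕ) (hab : a + b = p - 1 + r) (hr : r < p) :
    ((1 - Polynomial.X : Polynomial k) ^ a * (1 + Polynomial.X) ^ b).coeff r =
      2 ^ r * (b.choose r : k) := by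
  have h1 : (1 - Polynomial.X : Polynomial k) ^ a * (1 + Polynomial.X) ^ b =
      ∑ i ∈ Finset.range (b + 1), Polynomial.C (2 ^ i * (b.choose i : k)) *
        (Polynomial.X ^ i * (1 - Polynomial.X) ^ (a + (b - i))) := by
    have h2 : (1 + Polynomial.X : Polynomial k) =
        Polynomial.C 2 * Polynomial.X + (1 - Polynomial.X) := by
      rw [show (Polynomial.C (2 : k)) = 2 from Polynomial.C_ofNat 2]
      ring
    rw [h2, add_pow, Finset.mul_sum]
    refine Finset.sum_congr rfl fun i _ => ?_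
    rw [mul_pow, Polynomial.C_mul, Polynomial.C_pow, pow_add]
    simp only [map_natCast]
    ring
  rw [h1, Polynomial.finsetSum_coeff]
  have h3 : ∀ i ∈ Finset.range (b + 1), i ≠ r → (Polynomial.C (2 ^ i * (b.choose i : k)) *
        (Polynomial.X ^ i * (1 - Polynomial.X) ^ (a + (b - i)))).coeff r = 0 := by
    intro i hi hir
    have hib : i ≤ b := Nat.lt_succ_iff.1 (Finset.mem_range.1 hi)
    rw [Polynomial.coeff_C_mul, Polynomial.coeff_X_pow_mul']
    split_ifs with hir'
    · rw [OrdB_one_sub (p := p) (a + (b - i)) (r - i) (by omega) (by omega) (by omega), mul_zero]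
    · rw [mul_zero]
  by_cases hrb : r ≤ b
  · rw [Finset.sum_eq_single_of_mem r (Finset.mem_range.2 (by omega)) h3,
      Polynomial.coeff_C_mul, Polynomial.coeff_X_pow_mul', if_pos le_rfl, Nat.sub_self,
      Polynomial.coeff_zero_eq_eval_zero]
    simp
  · rw [Finset.sum_eq_zero fun i hi => h3 i hi (by
      have := Finset.mem_range.1 hi
      omega), Nat.choose_eq_zero_of_lt (by omega)]
    simp

theorem ordP_two (hp2 : p ≠ 2) (r0 r1 r2 : ℕ) (h : r0 + r1 + r2 = p - 1) :
    OrdP p ((Polynomial.X : Polynomial k) ^ (p - 1 - r0) * (Polynomial.X - 1) ^ (p - 1 - r1) *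
      (Polynomial.X + 1) ^ (p - 1 - r2)) 2 := by
  have hp : p.Prime := Fact.out
  have hp1 := hp.one_lt
  set W : Polynomial k := (Polynomial.X : Polynomial k) ^ (p - 1 - r0) *
    (Polynomial.X - 1) ^ (p - 1 - r1) * (Polynomial.X + 1) ^ (p - 1 - r2) with hW
  have m1 : (Polynomial.X - 1 : Polynomial k).Monic := by
    simpa using Polynomial.monic_X_sub_C (1 : k)
  have m2 : (Polynomial.X + 1 : Polynomial k).Monic := by
    simpa using Polynomial.monic_X_add_C (1 : k)
  have d1 : (Polynomial.X - 1 : Polynomial k).natDegree = 1 := by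
    simpa using Polynomial.natDegree_X_sub_C (1 : k)
  have d2 : (Polynomial.X + 1 : Polynomial k).natDegree = 1 := by
    simpa using Polynomial.natDegree_X_add_C (1 : k)
  have hmon : W.Monic := ((Polynomial.monic_X_pow _).mul (m1.pow _)).mul (m2.pow _)
  have hdeg : W.natDegree = 2 * (p - 1) := by
    rw [hW, Polynomial.Monic.natDegree_mul ((Polynomial.monic_X_pow _).mul (m1.pow _)) (m2.pow _),
      Polynomial.Monic.natDegree_mul (Polynomial.monic_X_pow _) (m1.pow _),
      Polynomial.natDegree_X_pow, m1.natDegree_pow, m2.natDegree_pow, d1, d2]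
    omega
  have hWn : W.coeff (p - 1) = (-1) ^ (p - 1 - r1) * (2 ^ r0 * ((p - 1 - r2).choose r0 : k)) := by
    have e1 : W = Polynomial.C ((-1) ^ (p - 1 - r1)) * (Polynomial.X ^ (p - 1 - r0) *
        ((1 - Polynomial.X) ^ (p - 1 - r1) * (1 + Polynomial.X) ^ (p - 1 - r2))) := by
      rw [hW, show (Polynomial.X - 1 : Polynomial k) = (-1) * (1 - Polynomial.X) by ring, mul_pow]
      simp only [map_pow, map_neg, map_one]
      ring
    rw [e1, Polynomial.coeff_C_mul, Polynomial.coeff_X_pow_mul', if_pos (Nat.sub_le _ _),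
      show p - 1 - (p - 1 - r0) = r0 by omega,
      OrdB_coeff (p := p) (p - 1 - r1) (p - 1 - r2) r0 (by omega) (by omega)]
  have h2 : (2 : k) ≠ 0 := by
    intro h0
    have h1 : ((2 : ℕ) : k) = 0 := by exact_mod_cast h0
    rw [CharP.cast_eq_zero_iff k p] at h1
    exact hp2 ((Nat.prime_dvd_prime_iff_eq hp Nat.prime_two).1 h1)
  have hch : (((p - 1 - r2).choose r0 : ℕ) : k) ≠ 0 := by
    intro h0
    rw [CharP.cast_eq_zero_iff k p] at h0
    have h1 := Nat.choose_mul_factorial_mul_factorial (n := p - 1 - r2) (k := r0) (by omega)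
    have h3 : p ∣ (p - 1 - r2).factorial := by
      rw [← h1, mul_assoc]
      exact h0.mul_right _
    rw [hp.dvd_factorial] at h3
    omega
  have hWn0 : W.coeff (p - 1) ≠ 0 := by
    rw [hWn]
    exact mul_ne_zero (pow_ne_zero _ (neg_ne_zero.2 one_ne_zero))
      (mul_ne_zero (pow_ne_zero _ h2) hch)
  intro B hB hi
  have hB1 : B = Polynomial.C (B.coeff 1) * Polynomial.X + Polynomial.C (B.coeff 0) := by
    apply Polynomial.eq_X_add_C_of_natDegree_le_one
    by_cases hB0 : B = 0
    · rw [hB0]; simp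
    · rw [Polynomial.degree_eq_natDegree hB0] at hB
      have : B.natDegree < 2 := by exact_mod_cast hB
      omega
  generalize B.coeff 1 = b1 at hB1
  generalize B.coeff 0 = b0 at hB1
  subst hB1
  have hb1 : b1 = 0 := by
    have h3 := hi 1
    rw [mul_one, show p + (p - 1) = 2 * (p - 1) + 1 by omega, add_mul, Polynomial.coeff_add,
      mul_assoc, Polynomial.coeff_C_mul, Polynomial.coeff_X_mul, Polynomial.coeff_C_mul,
      Polynomial.coeff_eq_zero_of_natDegree_lt (show W.natDegree < 2 * (p - 1) + 1 by omega),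
      mul_zero, add_zero, ← hdeg, hmon.coeff_natDegree, mul_one] at h3
    exact h3
  subst hb1
  have hb0 : b0 = 0 := by
    have h3 := hi 0
    rw [mul_zero, zero_add, Polynomial.C_0, zero_mul, zero_add, Polynomial.coeff_C_mul] at h3
    exact (mul_eq_zero.1 h3).resolve_right hWn0
  rw [hb0]
  simp

end Pool.Agent.PRB
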