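import Pool.Agent.LibPRB.TowerD
import Pool.Agent.LibPRB.LadW

/-! # Orders at the fixed places of the tower -/

set_option autoImplicit false

namespace Pool.Agent.PRB

variable {p : ℕ} [Fact p.Prime]

theorem OrdF_wp_iter_succ {R : Type} [CommRing R] (n : ℕ) (x : R) :
    (wp p)^[n + 1] x = ((wp p)^[n] x) ^ p - (wp p)^[n] x := by
  rw [Function.iterate_succ_apply']; rfl

theorem OrdF_wp_iter_map {R S : Type} [CommRing R] [CommRing S] (f : R →+* S) (n : ℕ) (x : R) :
    f ((wp p)^[n] x) = (wp p)^[n] (f x) := by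
  induction n with
  | zero => rfl
  | succ n ih => rw [OrdF_wp_iter_succ, OrdF_wp_iter_succ, map_sub, map_pow, ih]

theorem OrdF_wp_iter_sub {R : Type} [CommRing R] [CharP R p] (n : ℕ) (x y : R) :
    (wp p)^[n] (x - y) = (wp p)^[n] x - (wp p)^[n] y := by
  induction n with
  | zero => rfl
  | succ n ih =>
    rw [OrdF_wp_iter_succ, OrdF_wp_iter_succ, OrdF_wp_iter_succ, ih, sub_pow_char]
    ring

theorem OrdF_wp_iter_zero {R : Type} [CommRing R] (n : ℕ) : (wp p)^[n] (0 : R) = 0 := by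
  have hp := (Fact.out : p.Prime)
  induction n with
  | zero => rfl
  | succ n ih => rw [OrdF_wp_iter_succ, ih, zero_pow hp.ne_zero, sub_zero]

section plc

variable {k K : Type} [Field k] [Field K] [Algebra k K]

theorem OrdF_ge_wp (P : Plc k K) (n : ℕ) {x : K} (hx : P.ge 0 x) : P.ge 0 ((wp p)^[n] x) := by
  induction n with
  | zero => exact hx
  | succ n ih =>
    rw [OrdF_wp_iter_succ]
    exact P.ge_sub (by simpa using P.ge_pow ih p) ih

theorem OrdF_val_wp (P : Plc k K) (n : ℕ) {x : K} (hx : P.ge 0 x) :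
    P.val ((wp p)^[n] x) = (wp p)^[n] (P.val x) := by
  induction n with
  | zero => rfl
  | succ n ih =>
    have h := OrdF_ge_wp (p := p) P n hx
    rw [OrdF_wp_iter_succ, OrdF_wp_iter_succ, P.val_sub (by simpa using P.ge_pow h p) h,
      P.val_pow h, ih]

theorem OrdF_ord_wp (P : Plc k K) (n : ℕ) {x : K} (hx : P.ge 1 x) (hx0 : x ≠ 0) :
    (wp p)^[n] x ≠ 0 ∧ P.ord ((wp p)^[n] x) = P.ord x := by
  have hp := (Fact.out : p.Prime)
  induction n with
  | zero => exact ⟨hx0, rfl⟩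
  | succ n ih =>
    obtain ⟨h1, h2⟩ := ih
    rw [OrdF_wp_iter_succ]
    have hx1 : 1 ≤ P.ord x := (P.ge_iff hx0).mp hx
    have h3 : P.ge (P.ord (-(wp p)^[n] x) + 1) (((wp p)^[n] x) ^ p) := by
      rw [P.ge_iff (pow_ne_zero _ h1), P.ord_pow, P.ord_neg, h2]
      have : (2 : ℤ) ≤ p := by exact_mod_cast hp.two_le
      nlinarith
    have h4 := P.ord_add_eq (neg_ne_zero.mpr h1) h3
    rw [P.ord_neg, h2] at h4
    have h5 : -(wp p)^[n] x + ((wp p)^[n] x) ^ p = ((wp p)^[n] x) ^ p - (wp p)^[n] x := by ring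
    rw [h5] at h4
    exact h4

/-- The place `P ∘ σ`. -/
def OrdF_comap (P : Plc k K) (σ : K →ₐ[k] K) (hσ : Function.Surjective σ) : Plc k K where
  ord := fun a => P.ord (σ a)
  ord_zero := by rw [map_zero]; exact P.ord_zero
  ord_mul' := fun a b ha hb => by
    rw [map_mul]
    exact P.ord_mul (by simpa using ha) (by simpa using hb)
  ord_add' := fun a b ha hb hab => by
    rw [map_add]
    refine P.ord_add' _ _ (by simpa using ha) (by simpa using hb) ?_
    rw [← map_add]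
    exact (map_ne_zero_iff σ σ.injective).mpr hab
  exists_unif := by
    obtain ⟨a, ha, h1⟩ := P.exists_unif
    obtain ⟨b, rfl⟩ := hσ a
    exact ⟨b, by rintro rfl; simp at ha, h1⟩
  ord_const := fun c => by rw [AlgHom.commutes]; exact P.ord_const c
  exists_const := fun a ha h0 => by
    obtain ⟨c, hc⟩ := P.exists_const (σ a) (by simpa using ha) h0
    refine ⟨c, ?_⟩
    have h1 : σ (a - algebraMap k K c) = σ a - algebraMap k K c := by
      rw [map_sub, AlgHom.commutes]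
    rcases hc with hc | hc
    · left
      rw [← h1] at hc
      exact (map_eq_zero_iff σ σ.injective).mp hc
    · right
      rw [h1]; exact hc

theorem OrdF_comap_ge (P : Plc k K) (σ : K →ₐ[k] K) (hσ : Function.Surjective σ) (n : ℤ) (a : K) :
    (OrdF_comap P σ hσ).ge n a ↔ P.ge n (σ a) := by
  unfold Plc.ge
  constructor
  · rintro (h | h)
    · left; rw [h, map_zero]
    · right; exact h
  · rintro (h | h)
    · left; simpa using h
    · right; exact h

theorem OrdF_comap_val (P : Plc k K) (σ : K →ₐ[k] K) (hσ : Function.Surjective σ) {a : K}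
    (ha : P.ge 0 (σ a)) : (OrdF_comap P σ hσ).val a = P.val (σ a) := by
  apply Plc.val_eq
  rw [OrdF_comap_ge, map_sub, AlgHom.commutes]
  exact P.val_spec ha

end plc

variable {k : Type} [Field k] [IsAlgClosed k] [CharP k p] {ζ : k} {K : Type} [Field K]
  [Algebra k K] {m r : ℕ}

/-- Orders at the places where `t` is a root of `wp^r`. -/
theorem Tower.ord_fix (T : Tower p ζ m r K) (hp2 : p ≠ 2) (P : Plc k K) (hP : P ≠ T.Λ.inf) (τ : k)
    (hτ : P.val T.t = τ) (h0 : (wp p)^[r] τ = 0) :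
    P.val T.Λ.s = 0 ∧ P.val T.v = 0 ∧ P.ord T.Λ.s = 1 ∧ P.ord T.v = (p - 2 : ℕ) ∧
      T.v ≠ 0 ∧ T.t - algebraMap k K τ ≠ 0 ∧
      P.ord (T.t - algebraMap k K τ) = ((p - 1) * (p - 2) : ℕ) ∧
      ∀ a, P.ord (T.Λ.sig a) = P.ord a := by
  have hp := (Fact.out : p.Prime)
  have hp3 : 3 ≤ p := by
    have := hp.two_le
    omega
  have : CharP K p := charP_of_injective_algebraMap (algebraMap k K).injective p
  have gv := T.reg_v P hP
  have gt := T.reg_t P hP
  have gs := T.Λ.fin_s P hP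
  -- values
  have hv0 : P.val T.v = 0 := by
    have h1 : P.val ((wp p)^[r] T.t) = P.val (T.v ^ (p - 1)) := by rw [T.eq_t]
    rw [OrdF_val_wp P r gt, P.val_pow gv, hτ, h0] at h1
    exact pow_eq_zero_iff (by omega) |>.mp h1.symm
  have hs0 : P.val T.Λ.s = 0 := by
    have h1 : P.val ((wp p)^[m] T.v) = P.val (T.Λ.s ^ (p - 2)) := by rw [T.eq_v]
    rw [OrdF_val_wp P m gv, P.val_pow gs, hv0, OrdF_wp_iter_zero] at h1
    exact pow_eq_zero_iff (by omega) |>.mp h1.symm
  obtain ⟨hs1, hs2⟩ := T.Λ.ord_s P hP 0 hs0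
  rw [map_zero, sub_zero] at hs1 hs2
  have hvne : T.v ≠ 0 := by
    intro h
    have h1 := T.eq_v
    rw [h, OrdF_wp_iter_zero] at h1
    exact pow_ne_zero _ hs1 h1.symm
  have gv1 : P.ge 1 T.v := (P.val_eq_zero_iff gv).mp hv0
  have hordv : P.ord T.v = (p - 2 : ℕ) := by
    have h1 := (OrdF_ord_wp (p := p) P m gv1 hvne).2
    rw [T.eq_v, P.ord_pow, hs2, mul_one] at h1
    exact h1.symm
  have hwt : (wp p)^[r] (T.t - algebraMap k K τ) = T.v ^ (p - 1) := by
    rw [OrdF_wp_iter_sub, T.eq_t, ← OrdF_wp_iter_map, h0, map_zero, sub_zero]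
  have htne : T.t - algebraMap k K τ ≠ 0 := by
    intro h
    rw [h, OrdF_wp_iter_zero] at hwt
    exact pow_ne_zero _ hvne hwt.symm
  have gt1 : P.ge 1 (T.t - algebraMap k K τ) := by
    rw [← hτ]; exact P.val_spec gt
  have hordt : P.ord (T.t - algebraMap k K τ) = ((p - 1) * (p - 2) : ℕ) := by
    have h1 := (OrdF_ord_wp (p := p) P r gt1 htne).2
    rw [hwt, P.ord_pow, hordv] at h1
    rw [← h1]
    push_cast
    ring
  -- sigma
  have hsurj : Function.Surjective T.Λ.sig := by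
    intro a
    refine ⟨T.Λ.sig^[p - 2] a, ?_⟩
    have h1 := T.Λ.sig_iter a
    rw [← Function.iterate_succ_apply' (f := T.Λ.sig)]
    have h2 : (p - 2).succ = p - 1 := by omega
    rw [h2]; exact h1
  have hQ : OrdF_comap P T.Λ.sig hsurj = P := by
    have g1 : P.ge 0 (T.Λ.sig T.Λ.s) := by
      rw [T.Λ.sig_s]; exact P.ge_smul _ gs
    have g2 : P.ge 0 (T.Λ.sig T.v) := by
      rw [T.sig_v]; exact P.ge_smul _ gv
    have g3 : P.ge 0 (T.Λ.sig T.t) := by
      rw [T.sig_t]; exact gt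
    refine T.unique _ _ ?_ hP ?_ ?_ ?_
    · intro h
      have h1 : T.Λ.inf.ge 0 T.Λ.s := by
        rw [← h, OrdF_comap_ge]; exact g1
      rw [T.Λ.inf.ge_iff hs1] at h1
      have := T.Λ.inf_s
      omega
    · rw [OrdF_comap_val P _ hsurj g1, hs0, P.val_eq_zero_iff g1, T.Λ.sig_s]
      exact P.ge_smul _ ((P.val_eq_zero_iff gs).mp hs0)
    · rw [OrdF_comap_val P _ hsurj g2, hv0, P.val_eq_zero_iff g2, T.sig_v]
      exact P.ge_smul _ gv1
    · rw [OrdF_comap_val P _ hsurj g3, T.sig_t]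
  refine ⟨hs0, hv0, hs2, hordv, hvne, htne, hordt, fun a => ?_⟩
  have h1 : (OrdF_comap P T.Λ.sig hsurj).ord a = P.ord a := by rw [hQ]
  exact h1

end Pool.Agent.PRB
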