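import Pool.Agent.LibPRB.TowerD
import Pool.Agent.LibPRB.LadW
import Pool.Agent.LibPRB.OrdF

/-! # Orders at the good places of the tower -/

set_option autoImplicit false

namespace Pool.Agent.PRB

variable {p : ℕ} [Fact p.Prime]

section plc

variable {k K : Type} [Field k] [Field K] [Algebra k K]

/-- If `x - c` has order `1` then so has `x ^ n - c ^ n` when `n c ≠ 0`. -/
theorem OrdG_pow (P : Plc k K) {x : K} {c : k} (n : ℕ) (hn : (n : k) ≠ 0) (hc : c ≠ 0)
    (h0 : x - algebraMap k K c ≠ 0) (h1 : P.ord (x - algebraMap k K c) = 1) :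
    x ^ n - algebraMap k K (c ^ n) ≠ 0 ∧ P.ord (x ^ n - algebraMap k K (c ^ n)) = 1 := by
  have g1 : P.ge 1 (x - algebraMap k K c) := (P.ge_iff h0).mpr h1.ge
  have hv : P.val x = c := P.val_eq g1
  have gx : P.ge 0 x := by
    have := P.ge_add (g1.mono (by norm_num)) (P.ge_const c)
    simpa using this
  set y : K := ∑ i ∈ Finset.range n, x ^ i * (algebraMap k K c) ^ (n - 1 - i) with hy
  have hfac : x ^ n - algebraMap k K (c ^ n) = y * (x - algebraMap k K c) := by
    rw [map_pow, hy, (Commute.all x (algebraMap k K c)).geom_sum₂_mul]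
  have gterm : ∀ i, P.ge 0 (x ^ i * (algebraMap k K c) ^ (n - 1 - i)) := by
    intro i
    have h1 := P.ge_pow gx i
    have h2 := P.ge_pow (P.ge_const c) (n - 1 - i)
    simpa using P.ge_mul h1 h2
  have hval : ∀ s : Finset ℕ, P.val (∑ i ∈ s, x ^ i * (algebraMap k K c) ^ (n - 1 - i)) =
      ∑ i ∈ s, c ^ i * c ^ (n - 1 - i) := by
    classical
    intro s
    induction s using Finset.induction_on with
    | empty => 
      rw [Finset.sum_empty, Finset.sum_empty]
      simpa using P.val_const 0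
    | insert a s ha ih =>
      rw [Finset.sum_insert ha, Finset.sum_insert ha,
        P.val_add (gterm a) (P.ge_sum s _ fun i _ => gterm i), ih]
      congr 1
      have h1 := P.ge_pow gx a
      have h2 := P.ge_pow (P.ge_const c) (n - 1 - a)
      rw [P.val_mul (by simpa using h1) (by simpa using h2), P.val_pow gx,
        P.val_pow (P.ge_const c), hv, P.val_const]
  have hyval : P.val y = n * c ^ (n - 1) := by
    rw [hy, hval]
    have : ∀ i ∈ Finset.range n, c ^ i * c ^ (n - 1 - i) = c ^ (n - 1) := by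
      intro i hi
      rw [Finset.mem_range] at hi
      rw [← pow_add]
      congr 1
      omega
    rw [Finset.sum_congr rfl this, Finset.sum_const, Finset.card_range, nsmul_eq_mul]
  have gy : P.ge 0 y := P.ge_sum _ _ fun i _ => gterm i
  have hyv : P.val y ≠ 0 := by
    rw [hyval]; exact mul_ne_zero hn (pow_ne_zero _ hc)
  have hy0 : y ≠ 0 := by
    intro h
    apply hyv
    rw [h]
    simpa using P.val_const 0
  have hyo : P.ord y = 0 := by
    have h2 := (P.ge_iff hy0).mp gy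
    by_contra h
    apply hyv
    rw [P.val_eq_zero_iff gy, P.ge_iff hy0]
    omega
  rw [hfac]
  refine ⟨mul_ne_zero hy0 h0, ?_⟩
  rw [P.ord_mul hy0 h0, hyo, h1]
  norm_num

/-- `wp` in the converse direction. -/
theorem OrdG_wp (P : Plc k K) (n : ℕ) {x : K} (hx : P.ge 1 x)
    (h0 : (wp p)^[n] x ≠ 0) (h1 : P.ord ((wp p)^[n] x) = 1) : x ≠ 0 ∧ P.ord x = 1 := by
  have hx0 : x ≠ 0 := by
    rintro rfl
    exact h0 (OrdF_wp_iter_zero n)
  refine ⟨hx0, ?_⟩
  rw [← (OrdF_ord_wp (p := p) P n hx hx0).2]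
  exact h1

end plc

variable {k : Type} [Field k] [IsAlgClosed k] [CharP k p] {ζ : k} {K : Type} [Field K]
  [Algebra k K] {m r : ℕ}

/-- Orders at the places where `t` has a good value. -/
theorem Tower.ord_good (T : Tower p ζ m r K) (hp2 : p ≠ 2) (P : Plc k K) (hP : P ≠ T.Λ.inf) (τ : k)
    (hτ : P.val T.t = τ) (h0 : Good p m r τ) :
    P.val T.v ≠ 0 ∧ P.val T.Λ.s ≠ 0 ∧ P.ord T.v = 0 ∧ T.t - algebraMap k K τ ≠ 0 ∧
      P.ord (T.t - algebraMap k K τ) = 1 := by
  have hp := (Fact.out : p.Prime)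
  have hp3 : 3 ≤ p := by
    have := hp.two_le
    omega
  have : CharP K p := charP_of_injective_algebraMap (algebraMap k K).injective p
  have gv := T.reg_v P hP
  have gt := T.reg_t P hP
  have gs := T.Λ.fin_s P hP
  have e1 : (P.val T.v) ^ (p - 1) = (wp p)^[r] τ := by
    have h1 : P.val ((wp p)^[r] T.t) = P.val (T.v ^ (p - 1)) := by rw [T.eq_t]
    rw [OrdF_val_wp P r gt, P.val_pow gv, hτ] at h1
    exact h1.symm
  have e2 : (P.val T.Λ.s) ^ (p - 2) = (wp p)^[m] (P.val T.v) := by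
    have h1 : P.val ((wp p)^[m] T.v) = P.val (T.Λ.s ^ (p - 2)) := by rw [T.eq_v]
    rw [OrdF_val_wp P m gv, P.val_pow gs] at h1
    exact h1.symm
  have hv : P.val T.v ≠ 0 := by
    intro h
    rw [h, zero_pow (by omega)] at e1
    exact h0.1 e1.symm
  have hs : P.val T.Λ.s ≠ 0 := by
    intro h
    rw [h, zero_pow (by omega)] at e2
    exact h0.2 _ e1 e2.symm
  have hv0 : T.v ≠ 0 := by
    intro h
    apply hv
    rw [h]
    simpa using P.val_const 0
  have hov : P.ord T.v = 0 := by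
    have h2 := (P.ge_iff hv0).mp gv
    by_contra h
    apply hv
    rw [P.val_eq_zero_iff gv, P.ge_iff hv0]
    omega
  have c1 : ((p - 2 : ℕ) : k) ≠ 0 := by
    intro h
    rw [CharP.cast_eq_zero_iff k p] at h
    have := Nat.le_of_dvd (by omega) h
    omega
  have c2 : ((p - 1 : ℕ) : k) ≠ 0 := by
    intro h
    rw [CharP.cast_eq_zero_iff k p] at h
    have := Nat.le_of_dvd (by omega) h
    omega
  obtain ⟨hs1, hs2⟩ := T.Λ.ord_s P hP _ rfl
  obtain ⟨a1, a2⟩ := OrdG_pow P (p - 2) c1 hs hs1 hs2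
  have w1 : (wp p)^[m] (T.v - algebraMap k K (P.val T.v)) =
      T.Λ.s ^ (p - 2) - algebraMap k K ((P.val T.Λ.s) ^ (p - 2)) := by
    rw [OrdF_wp_iter_sub, T.eq_v, ← OrdF_wp_iter_map, e2]
  obtain ⟨b1, b2⟩ := OrdG_wp (p := p) P m (P.val_spec gv) (by rw [w1]; exact a1)
    (by rw [w1]; exact a2)
  obtain ⟨a3, a4⟩ := OrdG_pow P (p - 1) c2 hv b1 b2
  have w2 : (wp p)^[r] (T.t - algebraMap k K τ) =
      T.v ^ (p - 1) - algebraMap k K ((P.val T.v) ^ (p - 1)) := by
    rw [OrdF_wp_iter_sub, T.eq_t, ← OrdF_wp_iter_map, e1]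
  obtain ⟨b3, b4⟩ := OrdG_wp (p := p) P r (x := T.t - algebraMap k K τ)
    (by rw [← hτ]; exact P.val_spec gt) (by rw [w2]; exact a3) (by rw [w2]; exact a4)
  exact ⟨hv, hs, hov, b3, b4⟩

end Pool.Agent.PRB
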