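import Pool.Agent.LibPRB.Defs

/-! # Fields with a `p`-basis of one element; the Cartier operator -/

set_option autoImplicit false

namespace Pool.Agent.PRB

variable {p : ℕ} [Fact p.Prime] {k K : Type} [Field k] [Field K] [Algebra k K] [CharP K p]

omit [Fact p.Prime] in
theorem PBa_D_pow (D : Derivation k K K) (c : K) : D (c ^ p) = 0 := by
  rw [Derivation.leibniz_pow, nsmul_eq_mul, CharP.cast_eq_zero, zero_mul]

/-- `D` is linear over `p`-th powers. -/
theorem D_pow_mul (D : Derivation k K K) (c a : K) : D (c ^ p * a) = c ^ p * D a := by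
  rw [Derivation.leibniz, PBa_D_pow, smul_zero, add_zero, smul_eq_mul]

theorem iter_D_pow_mul (D : Derivation k K K) (c a : K) (n : ℕ) :
    D^[n] (c ^ p * a) = c ^ p * D^[n] a := by
  induction n with
  | zero => rfl
  | succ n ih => rw [Function.iterate_succ_apply', ih, D_pow_mul, Function.iterate_succ_apply']

omit [Fact p.Prime] [CharP K p] in
theorem PBa_iter_sum (D : Derivation k K K) {ι : Type*} (S : Finset ι) (f : ι → K) (n : ℕ) :
    D^[n] (∑ i ∈ S, f i) = ∑ i ∈ S, D^[n] (f i) := by
  induction n with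
  | zero => rfl
  | succ n ih =>
    rw [Function.iterate_succ_apply', ih, map_sum]
    exact Finset.sum_congr rfl fun i _ => (Function.iterate_succ_apply' _ _ _).symm

omit [Fact p.Prime] [CharP K p] in
theorem PBa_iter_add (D : Derivation k K K) (a b : K) (n : ℕ) :
    D^[n] (a + b) = D^[n] a + D^[n] b := by
  induction n with
  | zero => rfl
  | succ n ih => simp only [Function.iterate_succ_apply', ih, map_add]

omit [Fact p.Prime] [CharP K p] in
theorem PBa_iter_neg (D : Derivation k K K) (a : K) (n : ℕ) :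
    D^[n] (-a) = - D^[n] a := by
  induction n with
  | zero => rfl
  | succ n ih => simp only [Function.iterate_succ_apply', ih, map_neg]

omit [Fact p.Prime] [CharP K p] in
theorem PBa_iter_zero (D : Derivation k K K) (n : ℕ) : D^[n] (0 : K) = 0 := by
  induction n with
  | zero => rfl
  | succ n ih => rw [Function.iterate_succ_apply', ih, map_zero]

omit [Fact p.Prime] [CharP K p] in
theorem PBa_iter_s {s : K} {D : Derivation k K K} (hs : D s = 1) (i n : ℕ) :
    D^[n] (s ^ i) = (i.descFactorial n : K) * s ^ (i - n) := by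
  induction n with
  | zero => simp
  | succ n ih =>
    rw [Function.iterate_succ_apply', ih, Derivation.leibniz, Derivation.leibniz_pow, hs,
      Derivation.map_natCast, smul_zero, add_zero, Nat.descFactorial_succ]
    simp only [smul_eq_mul, nsmul_eq_mul, mul_one]
    push_cast
    rw [Nat.sub_sub]
    ring

namespace PB

variable {s : K} {D : Derivation k K K}

theorem iter_D_sum (h : PB p s D) (c : ℕ → K) (n : ℕ) :
    D^[n] (∑ i ∈ Finset.range p, c i ^ p * s ^ i) =
      ∑ i ∈ Finset.range p, c i ^ p * ((i.descFactorial n : K) * s ^ (i - n)) := by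
  rw [PBa_iter_sum]
  exact Finset.sum_congr rfl fun i _ => by rw [iter_D_pow_mul, PBa_iter_s h.D_s]

theorem PBa_zero (h : PB p s D) (c : ℕ → K) (n0 : ℕ)
    (h0 : ∀ n, n0 ≤ n → n < p → D^[n] (∑ i ∈ Finset.range p, c i ^ p * s ^ i) = 0) :
    ∀ m i : ℕ, n0 ≤ i → i < p → p ≤ i + m → c i = 0 := by
  intro m
  induction m with
  | zero => intro i _ hi hp; omega
  | succ m ih =>
    intro i hn hi hp
    have h1 := h0 i hn hi
    rw [h.iter_D_sum, Finset.sum_eq_single i] at h1
    · rw [Nat.descFactorial_self, Nat.sub_self, pow_zero, mul_one] at h1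
      have hf : ((i.factorial : ℕ) : K) ≠ 0 := by
        intro h2
        have h3 := (CharP.cast_eq_zero_iff K p _).1 h2
        have h4 := ((Fact.out : p.Prime).dvd_factorial).1 h3
        omega
      have h5 : c i ^ p = 0 := by
        rcases mul_eq_zero.1 h1 with h6 | h6
        · exact h6
        · exact absurd h6 hf
      exact pow_eq_zero_iff (Fact.out : p.Prime).ne_zero |>.1 h5
    · intro j hj hji
      rcases lt_or_gt_of_ne hji with hlt | hgt
      · rw [Nat.descFactorial_eq_zero_iff_lt.2 hlt]; simp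
      · rw [ih j (by omega) (Finset.mem_range.1 hj) (by omega),
          zero_pow (Fact.out : p.Prime).ne_zero, zero_mul]
    · intro hi2; exact absurd (Finset.mem_range.2 hi) hi2

/-- `1, s, …, s ^ (p-1)` are linearly independent over the field of `p`-th powers. -/
theorem unique (h : PB p s D) (c d : ℕ → K)
    (hcd : ∑ i ∈ Finset.range p, c i ^ p * s ^ i = ∑ i ∈ Finset.range p, d i ^ p * s ^ i) :
    ∀ i < p, c i = d i := by
  intro i hi
  have h1 : ∑ i ∈ Finset.range p, (c i - d i) ^ p * s ^ i = 0 := by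
    have : ∀ i, (c i - d i) ^ p * s ^ i = c i ^ p * s ^ i - d i ^ p * s ^ i := by
      intro i; rw [sub_pow_char]; ring
    simp only [this, Finset.sum_sub_distrib, hcd, sub_self]
  have h2 := h.PBa_zero (fun i => c i - d i) 0
    (by intro n _ _; rw [h1]; exact PBa_iter_zero D n) p i (Nat.zero_le _) hi (by omega)
  exact sub_eq_zero.1 h2

theorem iter_p (h : PB p s D) (a : K) : D^[p] a = 0 := by
  obtain ⟨c, rfl⟩ := h.span a
  rw [h.iter_D_sum]
  refine Finset.sum_eq_zero fun i hi => ?_
  rw [Nat.descFactorial_eq_zero_iff_lt.2 (Finset.mem_range.1 hi)]; simp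

theorem ker (h : PB p s D) {a : K} (ha : D a = 0) : ∃ b : K, b ^ p = a := by
  obtain ⟨c, rfl⟩ := h.span a
  have hp := (Fact.out : p.Prime)
  have h1 : ∀ i : ℕ, 1 ≤ i → i < p → c i = 0 := by
    intro i hi hip
    refine h.PBa_zero c 1 ?_ p i hi hip (by omega)
    intro n hn _
    obtain ⟨m, rfl⟩ : ∃ m, n = m + 1 := ⟨n - 1, by omega⟩
    rw [Function.iterate_succ_apply, ha]
    exact PBa_iter_zero D m
  refine ⟨c 0, ?_⟩
  rw [Finset.sum_eq_single 0]
  · simp
  · intro j hj hj0
    rw [h1 j (Nat.one_le_iff_ne_zero.2 hj0) (Finset.mem_range.1 hj), zero_pow hp.ne_zero, zero_mul]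
  · intro h0; exact absurd (Finset.mem_range.2 hp.pos) h0

/-- `D^(p-1) (∑ c_i ^ p s ^ i) = - c_(p-1) ^ p`. -/
theorem iter_pred (h : PB p s D) (c : ℕ → K) :
    D^[p - 1] (∑ i ∈ Finset.range p, c i ^ p * s ^ i) = - c (p - 1) ^ p := by
  have hp := (Fact.out : p.Prime)
  have hw : (((p - 1).factorial : ℕ) : K) = -1 := by
    have h1 := congrArg (ZMod.castHom (dvd_refl p) K) (ZMod.wilsons_lemma p)
    rw [map_natCast, map_neg, map_one] at h1
    exact h1
  rw [h.iter_D_sum, Finset.sum_eq_single (p - 1)]
  · rw [Nat.descFactorial_self, Nat.sub_self, pow_zero, mul_one, hw]; ring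
  · intro j hj hj1
    have : j < p - 1 := by have := Finset.mem_range.1 hj; omega
    rw [Nat.descFactorial_eq_zero_iff_lt.2 this]; simp
  · intro h0; exact absurd (Finset.mem_range.2 (by have := hp.pos; omega)) h0

theorem PBa_car_eq_of {a c : K} (hc : c ^ p = - (D^[p - 1] a)) : car p D a = c := by
  have hex : ∃ c : K, c ^ p = - (D^[p - 1] a) := ⟨c, hc⟩
  unfold car
  rw [dif_pos hex]
  have h1 := hex.choose_spec
  have h2 : hex.choose ^ p = c ^ p := h1.trans hc.symm
  exact frobenius_inj K p (by simpa [frobenius_def] using h2)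

theorem car_sum (h : PB p s D) (c : ℕ → K) :
    car p D (∑ i ∈ Finset.range p, c i ^ p * s ^ i) = c (p - 1) := by
  apply PBa_car_eq_of
  rw [h.iter_pred, neg_neg]

theorem car_pow (h : PB p s D) (a : K) : car p D a ^ p = - (D^[p - 1] a) := by
  obtain ⟨c, rfl⟩ := h.span a
  rw [h.car_sum, h.iter_pred, neg_neg]

theorem car_add (h : PB p s D) (a b : K) : car p D (a + b) = car p D a + car p D b := by
  apply PBa_car_eq_of
  rw [add_pow_char, h.car_pow, h.car_pow, PBa_iter_add]
  ring

theorem car_zero (h : PB p s D) : car p D 0 = 0 := by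
  have h1 := h.car_add 0 0
  rw [add_zero] at h1
  exact left_eq_add.1 h1

theorem car_neg (h : PB p s D) (a : K) : car p D (-a) = - car p D a := by
  have h1 := h.car_add (-a) a
  rw [neg_add_cancel, h.car_zero] at h1
  exact eq_neg_of_add_eq_zero_left h1.symm

theorem car_sub (h : PB p s D) (a b : K) : car p D (a - b) = car p D a - car p D b := by
  rw [sub_eq_add_neg, h.car_add, h.car_neg, ← sub_eq_add_neg]

theorem car_finset_sum (h : PB p s D) {ι : Type*} (S : Finset ι) (f : ι → K) :
    car p D (∑ j ∈ S, f j) = ∑ j ∈ S, car p D (f j) := by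
  classical
  induction S using Finset.induction_on with
  | empty => simpa using h.car_zero
  | insert a S ha ih => rw [Finset.sum_insert ha, Finset.sum_insert ha, h.car_add, ih]

theorem car_pow_mul (h : PB p s D) (c a : K) : car p D (c ^ p * a) = c * car p D a := by
  apply PBa_car_eq_of
  rw [mul_pow, h.car_pow, iter_D_pow_mul]
  ring

theorem car_smul (h : PB p s D) (c : k) (a : K) : car p D (c ^ p • a) = c • car p D a := by
  rw [Algebra.smul_def, map_pow, h.car_pow_mul, Algebra.smul_def]

theorem car_D (h : PB p s D) (a : K) : car p D (D a) = 0 := by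
  have hp := (Fact.out : p.Prime)
  apply PBa_car_eq_of
  rw [← Function.iterate_succ_apply, show (p - 1).succ = p by have := hp.pos; omega, h.iter_p,
    neg_zero, zero_pow hp.ne_zero]

theorem car_eq_iff (h : PB p s D) (a : K) : car p D a = a ↔ a ^ p + D^[p - 1] a = 0 := by
  constructor
  · intro h1
    have h2 := h.car_pow a
    rw [h1] at h2
    rw [h2, neg_add_cancel]
  · intro h1
    exact PBa_car_eq_of (eq_neg_of_add_eq_zero_left h1)

end PB

/-- Criterion for `p`-bases. -/
theorem PB.not_pow {s : K} {D : Derivation k K K} (h : PB p s D) (y : K) : y ^ p ≠ s := by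
  intro hy
  have h1 := h.D_s
  rw [← hy, PBa_D_pow] at h1
  exact zero_ne_one h1

end Pool.Agent.PRB
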