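import Pool.Agent.LibPRB.OrdF
import Pool.Agent.LibPRB.OrdG

/-! # Counting places of the tower -/

set_option autoImplicit false

namespace Pool.Agent.PRB

variable {p : ℕ} [Fact p.Prime]

variable {k : Type} [Field k] [IsAlgClosed k] [CharP k p] {ζ : k} {K : Type} [Field K]
  [Algebra k K] {m r : ℕ}

open Classical in
/-- The set of the `n`-th roots of `c`. -/
noncomputable def PlG_R {k : Type} [Field k] (n : ℕ) (c : k) : Finset k :=
  (Polynomial.nthRoots n c).toFinset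

theorem PlG_mem {k : Type} [Field k] {n : ℕ} (hn : 0 < n) (c x : k) :
    x ∈ PlG_R n c ↔ x ^ n = c := by
  classical
  unfold PlG_R
  rw [Multiset.mem_toFinset, Polynomial.mem_nthRoots hn]

omit [Fact p.Prime] in
theorem PlG_card {n : ℕ} (hn : 0 < n) (hpn : ¬ p ∣ n) {c : k} (hc : c ≠ 0) :
    (PlG_R n c).card = n := by
  classical
  unfold PlG_R
  have hsep : (Polynomial.X ^ n - Polynomial.C c : Polynomial k).Separable :=
    Polynomial.separable_X_pow_sub_C' p n c hpn hc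
  have hnd : (Polynomial.nthRoots n c).Nodup := Polynomial.nodup_roots hsep
  rw [Multiset.toFinset_card_of_nodup hnd]
  unfold Polynomial.nthRoots
  rw [IsAlgClosed.card_roots_eq_natDegree, Polynomial.natDegree_X_pow_sub_C]

theorem PlG_card_zero {k : Type} [Field k] {n : ℕ} (hn : 0 < n) :
    PlG_R n (0 : k) = {0} := by
  ext x
  rw [PlG_mem hn, Finset.mem_singleton]
  exact pow_eq_zero_iff hn.ne'

omit [Fact p.Prime] [IsAlgClosed k] [CharP k p] in
theorem PlG_wp_iter (P : Plc k K) (x : K) (hx : P.ge 0 x) (n : ℕ) :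
    P.ge 0 ((wp p)^[n] x) ∧ P.val ((wp p)^[n] x) = (wp p)^[n] (P.val x) := by
  induction n with
  | zero => exact ⟨hx, rfl⟩
  | succ n ih =>
    rw [Function.iterate_succ_apply', Function.iterate_succ_apply']
    obtain ⟨h1, h2⟩ := ih
    have h3 : P.ge 0 (((wp p)^[n] x) ^ p) := by simpa using P.ge_pow h1 p
    refine ⟨P.ge_sub h3 h1, ?_⟩
    unfold wp at h2 h1 h3 ⊢
    rw [P.val_sub h3 h1, P.val_pow h1, h2]

omit [Fact p.Prime] in
theorem PlG_zero_iter {k : Type} [Field k] (hp : p ≠ 0) (n : ℕ) : (wp p)^[n] (0 : k) = 0 := by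
  induction n with
  | zero => rfl
  | succ n ih =>
    rw [Function.iterate_succ_apply', ih]
    unfold wp
    rw [zero_pow hp, sub_zero]

open Classical in
theorem PlG_exists (T : Tower p ζ m r K) (hp2 : p ≠ 2) (W : Finset k) :
    ∃ S : Finset (Plc k K), (∀ P, P ∈ S ↔ P ≠ T.Λ.inf ∧ P.val T.t ∈ W) ∧
      S.card = ∑ τ ∈ W, ∑ b ∈ PlG_R (p - 1) ((wp p)^[r] τ), (PlG_R (p - 2) ((wp p)^[m] b)).card := by
  have hp : p.Prime := Fact.out
  have hp3 : 3 ≤ p := by
    have := hp.two_le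
    omega
  let D : Finset (Σ _ : k, Σ _ : k, k) :=
    W.sigma (fun τ => (PlG_R (p - 1) ((wp p)^[r] τ)).sigma (fun b => PlG_R (p - 2) ((wp p)^[m] b)))
  have hmem : ∀ x : (Σ _ : k, Σ _ : k, k), x ∈ D ↔ x.1 ∈ W ∧ x.2.1 ^ (p - 1) = (wp p)^[r] x.1 ∧
      x.2.2 ^ (p - 2) = (wp p)^[m] x.2.1 := by
    intro x
    show x ∈ W.sigma _ ↔ _
    rw [Finset.mem_sigma, Finset.mem_sigma, PlG_mem (by omega), PlG_mem (by omega)]
  have hex : ∀ x : (Σ _ : k, Σ _ : k, k), ∃ P : Plc k K, x ∈ D →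
      (P ≠ T.Λ.inf ∧ P.val T.Λ.s = x.2.2 ∧ P.val T.v = x.2.1 ∧ P.val T.t = x.1) := by
    intro x
    by_cases hx : x ∈ D
    · have h := (hmem x).1 hx
      obtain ⟨P, hP⟩ := T.exists_plc x.2.2 x.2.1 x.1 h.2.2.symm h.2.1.symm
      exact ⟨P, fun _ => hP⟩
    · exact ⟨T.Λ.inf, fun h => absurd h hx⟩
  choose g hg using hex
  refine ⟨D.image g, ?_, ?_⟩
  · intro P
    rw [Finset.mem_image]
    constructor
    · rintro ⟨x, hx, rfl⟩
      have h := hg x hx
      refine ⟨h.1, ?_⟩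
      rw [h.2.2.2]
      exact ((hmem x).1 hx).1
    · rintro ⟨hP, hW⟩
      have hs := T.Λ.fin_s P hP
      have hv := T.reg_v P hP
      have ht := T.reg_t P hP
      have e1 : (wp p)^[m] (P.val T.v) = (P.val T.Λ.s) ^ (p - 2) := by
        rw [← (PlG_wp_iter P T.v hv m).2, T.eq_v, P.val_pow hs]
      have e2 : (wp p)^[r] (P.val T.t) = (P.val T.v) ^ (p - 1) := by
        rw [← (PlG_wp_iter P T.t ht r).2, T.eq_t, P.val_pow hv]
      have hxD : (⟨P.val T.t, P.val T.v, P.val T.Λ.s⟩ : (Σ _ : k, Σ _ : k, k)) ∈ D :=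
        (hmem _).2 ⟨hW, e2.symm, e1.symm⟩
      refine ⟨_, hxD, ?_⟩
      have h := hg _ hxD
      exact T.unique _ _ h.1 hP h.2.1 h.2.2.1 h.2.2.2
  · rw [Finset.card_image_of_injOn]
    · show (W.sigma _).card = _
      rw [Finset.card_sigma]
      refine Finset.sum_congr rfl (fun τ _ => ?_)
      rw [Finset.card_sigma]
    · intro x hx y hy hxy
      have h1 := hg x hx
      have h2 := hg y hy
      rw [hxy] at h1
      obtain ⟨x1, x2, x3⟩ := x
      obtain ⟨y1, y2, y3⟩ := y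
      have e1 : x3 = y3 := h1.2.1.symm.trans h2.2.1
      have e2 : x2 = y2 := h1.2.2.1.symm.trans h2.2.2.1
      have e3 : x1 = y1 := h1.2.2.2.symm.trans h2.2.2.2
      subst e1; subst e2; subst e3
      rfl

open Classical in
/-- The number of the places above a set of values of `t`. -/
theorem Tower.exists_places (T : Tower p ζ m r K) (hp2 : p ≠ 2) (W G : Finset k)
    (hW : ∀ τ ∈ W, (wp p)^[r] τ = 0) (hG : ∀ τ ∈ G, Good p m r τ) :
    ∃ S1 S2 : Finset (Plc k K),
      (∀ P, P ∈ S1 ↔ P ≠ T.Λ.inf ∧ P.val T.t ∈ W) ∧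
      (∀ P, P ∈ S2 ↔ P ≠ T.Λ.inf ∧ P.val T.t ∈ G) ∧
      S1.card = W.card ∧ S2.card = (p - 1) * (p - 2) * G.card := by
  have hp : p.Prime := Fact.out
  have hp3 : 3 ≤ p := by
    have := hp.two_le
    omega
  obtain ⟨S1, h1, h1c⟩ := PlG_exists T hp2 W
  obtain ⟨S2, h2, h2c⟩ := PlG_exists T hp2 G
  refine ⟨S1, S2, h1, h2, ?_, ?_⟩
  · rw [h1c, Finset.card_eq_sum_ones]
    refine Finset.sum_congr rfl (fun τ hτ => ?_)
    rw [hW τ hτ, PlG_card_zero (by omega), Finset.sum_singleton, PlG_zero_iter hp.ne_zero,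
      PlG_card_zero (by omega), Finset.card_singleton]
  · rw [h2c]
    have h3 : ∀ τ ∈ G, ∑ b ∈ PlG_R (p - 1) ((wp p)^[r] τ),
        (PlG_R (p - 2) ((wp p)^[m] b)).card = (p - 1) * (p - 2) := by
      intro τ hτ
      have hgood := hG τ hτ
      have h4 : ∀ b ∈ PlG_R (p - 1) ((wp p)^[r] τ),
          (PlG_R (p - 2) ((wp p)^[m] b)).card = p - 2 := by
        intro b hb
        rw [PlG_mem (by omega)] at hb
        refine PlG_card (p := p) (by omega) ?_ (hgood.2 b hb)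
        intro hd
        have := Nat.le_of_dvd (by omega) hd
        omega
      rw [Finset.sum_congr rfl h4, Finset.sum_const, PlG_card (p := p) (by omega) ?_ hgood.1,
        smul_eq_mul]
      intro hd
      have := Nat.le_of_dvd (by omega) hd
      omega
    rw [Finset.sum_congr rfl h3, Finset.sum_const, smul_eq_mul, mul_comm]

end Pool.Agent.PRB
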