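import Mathlib

/-!
# Places (discrete valuations with residue field `k`) of a field `K` over `k`
-/

set_option autoImplicit false

namespace Pool.Agent.PRB

/-- A normalized discrete valuation `ord` of `K`, trivial on `k`, with residue field `k`.
The value `ord 0` is `0` by convention. -/
@[ext] structure Plc (k K : Type) [Field k] [Field K] [Algebra k K] where
  ord : K → ℤ
  ord_zero : ord 0 = 0
  ord_mul' : ∀ a b : K, a ≠ 0 → b ≠ 0 → ord (a * b) = ord a + ord b
  ord_add' : ∀ a b : K, a ≠ 0 → b ≠ 0 → a + b ≠ 0 → min (ord a) (ord b) ≤ ord (a + b)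
  exists_unif : ∃ a : K, a ≠ 0 ∧ ord a = 1
  ord_const : ∀ c : k, ord (algebraMap k K c) = 0
  exists_const : ∀ a : K, a ≠ 0 → ord a = 0 →
    ∃ c : k, a - algebraMap k K c = 0 ∨ 0 < ord (a - algebraMap k K c)

/-- A place of `K/k` as a valuation ring: a valuation ring of `K` containing `k`, not `K`. -/
def IsPl (k : Type) {K : Type} [Field k] [Field K] [Algebra k K] (O : ValuationSubring K) : Prop :=
  (∀ c : k, algebraMap k K c ∈ O) ∧ O ≠ ⊤

namespace Plc

variable {k K : Type} [Field k] [Field K] [Algebra k K] (P : Plc k K)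

/-- `ord a ≥ n` (with `ord 0 = ∞`). -/
def ge (n : ℤ) (a : K) : Prop := a = 0 ∨ n ≤ P.ord a

theorem ge_zero (n : ℤ) : P.ge n 0 := Or.inl rfl

theorem ge_iff {n : ℤ} {a : K} (ha : a ≠ 0) : P.ge n a ↔ n ≤ P.ord a := by
  simp [ge, ha]

theorem ge.mono {P : Plc k K} {m n : ℤ} {a : K} (h : P.ge n a) (hmn : m ≤ n) : P.ge m a := by
  rcases h with h | h
  · exact Or.inl h
  · exact Or.inr (hmn.trans h)

theorem ord_one : P.ord 1 = 0 := by
  have := P.ord_const 1
  simpa using this

theorem ord_mul {a b : K} (ha : a ≠ 0) (hb : b ≠ 0) : P.ord (a * b) = P.ord a + P.ord b :=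
  P.ord_mul' a b ha hb

theorem ord_neg (a : K) : P.ord (-a) = P.ord a := by
  by_cases ha : a = 0
  · simp [ha]
  · have h := P.ord_mul' (algebraMap k K (-1)) a (by simp) ha
    rw [P.ord_const] at h
    simpa using h

theorem ord_pow {a : K} (n : ℕ) : P.ord (a ^ n) = n * P.ord a := by
  by_cases ha : a = 0
  · subst ha
    rcases Nat.eq_zero_or_pos n with rfl | hn
    · simp [P.ord_one]
    · rw [zero_pow hn.ne', P.ord_zero]; simp
  · induction n with
    | zero => simp [P.ord_one]
    | succ n ih =>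
      rw [pow_succ, P.ord_mul (pow_ne_zero _ ha) ha, ih]; push_cast; ring

theorem ord_inv (a : K) : P.ord a⁻¹ = - P.ord a := by
  by_cases ha : a = 0
  · simp [ha, P.ord_zero]
  · have h := P.ord_mul (inv_ne_zero ha) ha
    rw [inv_mul_cancel₀ ha, P.ord_one] at h
    linarith

theorem ord_div {a b : K} (ha : a ≠ 0) (hb : b ≠ 0) : P.ord (a / b) = P.ord a - P.ord b := by
  rw [div_eq_mul_inv, P.ord_mul ha (inv_ne_zero hb), P.ord_inv]; ring

theorem ord_zpow (a : K) (n : ℤ) : P.ord (a ^ n) = n * P.ord a := by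
  cases n with
  | ofNat n => simp [P.ord_pow]
  | negSucc n =>
    rw [zpow_negSucc, P.ord_inv, P.ord_pow, Int.negSucc_eq]; push_cast; ring

theorem ge_neg {n : ℤ} {a : K} (h : P.ge n a) : P.ge n (-a) := by
  rcases h with h | h
  · left; simp [h]
  · right; rwa [P.ord_neg]

theorem ge_neg_iff {n : ℤ} {a : K} : P.ge n (-a) ↔ P.ge n a :=
  ⟨fun h => by simpa using P.ge_neg h, P.ge_neg⟩

theorem ge_add {n : ℤ} {a b : K} (ha : P.ge n a) (hb : P.ge n b) : P.ge n (a + b) := by
  by_cases h0 : a = 0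
  · simpa [h0] using hb
  by_cases h1 : b = 0
  · simpa [h1] using ha
  by_cases h2 : a + b = 0
  · exact Or.inl h2
  · right
    have h3 := P.ord_add' a b h0 h1 h2
    rw [P.ge_iff h0] at ha
    rw [P.ge_iff h1] at hb
    exact (le_min ha hb).trans h3

theorem ge_sub {n : ℤ} {a b : K} (ha : P.ge n a) (hb : P.ge n b) : P.ge n (a - b) := by
  rw [sub_eq_add_neg]; exact P.ge_add ha (P.ge_neg hb)

theorem ge_mul {m n : ℤ} {a b : K} (ha : P.ge m a) (hb : P.ge n b) : P.ge (m + n) (a * b) := by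
  by_cases h0 : a = 0
  · left; simp [h0]
  by_cases h1 : b = 0
  · left; simp [h1]
  rw [P.ge_iff h0] at ha
  rw [P.ge_iff h1] at hb
  right
  rw [P.ord_mul h0 h1]
  linarith

theorem ge_pow {n : ℤ} {a : K} (ha : P.ge n a) (i : ℕ) : P.ge (i * n) (a ^ i) := by
  induction i with
  | zero => right; simp [P.ord_one]
  | succ i ih =>
    rw [pow_succ]
    have := P.ge_mul ih ha
    refine this.mono ?_
    push_cast; linarith

theorem ge_one : P.ge 0 1 := Or.inr (by rw [P.ord_one])

theorem ge_const (c : k) : P.ge 0 (algebraMap k K c) := Or.inr (by rw [P.ord_const])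

theorem ge_smul {n : ℤ} {a : K} (c : k) (ha : P.ge n a) : P.ge n (c • a) := by
  rw [Algebra.smul_def]
  simpa using P.ge_mul (P.ge_const c) ha

theorem ge_sum {n : ℤ} {ι : Type*} (s : Finset ι) (f : ι → K) (h : ∀ i ∈ s, P.ge n (f i)) :
    P.ge n (∑ i ∈ s, f i) := by
  classical
  induction s using Finset.induction_on with
  | empty => simpa using P.ge_zero n
  | insert i s hi ih =>
    rw [Finset.sum_insert hi]
    exact P.ge_add (h i (Finset.mem_insert_self _ _))
      (ih fun j hj => h j (Finset.mem_insert_of_mem hj))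

theorem ge_mul_iff {n : ℤ} {a b : K} (ha : a ≠ 0) : P.ge n (a * b) ↔ P.ge (n - P.ord a) b := by
  by_cases hb : b = 0
  · simp [hb, P.ge_zero]
  · rw [P.ge_iff (mul_ne_zero ha hb), P.ge_iff hb, P.ord_mul ha hb]
    constructor <;> intro h <;> linarith

theorem ge_pow_iff {n : ℤ} {a : K} {i : ℕ} : P.ge (i * n) (a ^ i) → 0 < i → P.ge n a := by
  intro h hi
  by_cases ha : a = 0
  · exact Or.inl ha
  · rw [P.ge_iff (pow_ne_zero _ ha), P.ord_pow] at h
    right
    have : (0 : ℤ) < i := by exact_mod_cast hi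
    exact le_of_mul_le_mul_left h this

/-- The dominant term decides the order. -/
theorem ord_add_eq {a b : K} (ha : a ≠ 0) (hb : P.ge (P.ord a + 1) b) :
    a + b ≠ 0 ∧ P.ord (a + b) = P.ord a := by
  by_cases hb0 : b = 0
  · simp [hb0, ha]
  rw [P.ge_iff hb0] at hb
  have hne : a + b ≠ 0 := by
    intro h
    have : b = -a := by linear_combination h
    rw [this, P.ord_neg] at hb
    linarith
  refine ⟨hne, ?_⟩
  have h1 := P.ord_add' a b ha hb0 hne
  have h2 : min (P.ord (a + b)) (P.ord b) ≤ P.ord a := by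
    have := P.ord_add' (a + b) (-b) hne (neg_ne_zero.mpr hb0) (by simpa using ha)
    rw [P.ord_neg] at this
    simpa using this
  rcases min_le_iff.mp h2 with h2 | h2
  · rw [min_eq_left (by linarith)] at h1
    exact le_antisymm h2 h1
  · linarith

theorem ord_add_eq' {a b : K} (ha : a ≠ 0) (hb0 : b ≠ 0) (hb : P.ord a < P.ord b) :
    a + b ≠ 0 ∧ P.ord (a + b) = P.ord a :=
  P.ord_add_eq ha ((P.ge_iff hb0).mpr (by linarith))

theorem res {a : K} (ha : P.ge 0 a) : ∃ c : k, P.ge 1 (a - algebraMap k K c) := by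
  by_cases h0 : a = 0
  · exact ⟨0, by simp [h0, P.ge_zero]⟩
  rw [P.ge_iff h0] at ha
  rcases ha.eq_or_lt with h | h
  · obtain ⟨c, hc⟩ := P.exists_const a h0 h.symm
    refine ⟨c, ?_⟩
    rcases hc with hc | hc
    · exact Or.inl hc
    · exact Or.inr (by linarith)
  · exact ⟨0, Or.inr (by simp only [map_zero, sub_zero]; linarith)⟩

open Classical in
/-- The value of `a` at the place `P` (junk `0` if `a` has a pole). -/
noncomputable def val (a : K) : k := if h : P.ge 0 a then (P.res h).choose else 0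

theorem val_spec {a : K} (ha : P.ge 0 a) : P.ge 1 (a - algebraMap k K (P.val a)) := by
  unfold val
  rw [dif_pos ha]
  exact (P.res ha).choose_spec

theorem const_eq_zero_of_ge {c : k} (h : P.ge 1 (algebraMap k K c)) : c = 0 := by
  rcases h with h | h
  · simpa using h
  · rw [P.ord_const] at h; norm_num at h

theorem val_eq {a : K} {c : k} (h : P.ge 1 (a - algebraMap k K c)) : P.val a = c := by
  have ha : P.ge 0 a := by
    have h1 : P.ge 0 (a - algebraMap k K c) := h.mono (by norm_num)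
    have := P.ge_add h1 (P.ge_const c)
    simpa using this
  have h2 := P.ge_sub (P.val_spec ha) h
  have h3 : P.ge 1 (algebraMap k K (c - P.val a)) := by
    rw [map_sub]; convert h2 using 1; ring
  have := P.const_eq_zero_of_ge h3
  linear_combination -this

theorem val_eq_iff {a : K} {c : k} (ha : P.ge 0 a) :
    P.val a = c ↔ P.ge 1 (a - algebraMap k K c) :=
  ⟨fun h => h ▸ P.val_spec ha, P.val_eq⟩

theorem val_eq_zero_iff {a : K} (ha : P.ge 0 a) : P.val a = 0 ↔ P.ge 1 a := by
  rw [P.val_eq_iff ha]; simp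

theorem val_const (c : k) : P.val (algebraMap k K c) = c :=
  P.val_eq (by rw [sub_self]; exact P.ge_zero 1)

theorem val_add {a b : K} (ha : P.ge 0 a) (hb : P.ge 0 b) :
    P.val (a + b) = P.val a + P.val b := by
  apply P.val_eq
  have := P.ge_add (P.val_spec ha) (P.val_spec hb)
  rw [map_add]; convert this using 1; ring

theorem val_neg {a : K} (ha : P.ge 0 a) : P.val (-a) = - P.val a := by
  apply P.val_eq
  have := P.ge_neg (P.val_spec ha)
  rw [map_neg]; convert this using 1; ring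

theorem val_sub {a b : K} (ha : P.ge 0 a) (hb : P.ge 0 b) :
    P.val (a - b) = P.val a - P.val b := by
  rw [sub_eq_add_neg, P.val_add ha (P.ge_neg hb), P.val_neg hb]; ring

theorem val_mul {a b : K} (ha : P.ge 0 a) (hb : P.ge 0 b) :
    P.val (a * b) = P.val a * P.val b := by
  apply P.val_eq
  have h1 := P.ge_mul (P.val_spec ha) hb
  have h2 := P.ge_mul (P.ge_const (P.val a)) (P.val_spec hb)
  have h3 : P.ge 1 _ := P.ge_add (h1.mono (by norm_num)) (h2.mono (by norm_num))
  rw [map_mul]; convert h3 using 1; ring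

theorem val_pow {a : K} (ha : P.ge 0 a) (n : ℕ) : P.val (a ^ n) = P.val a ^ n := by
  induction n with
  | zero => simpa using P.val_const 1
  | succ n ih =>
    rw [pow_succ, P.val_mul (by simpa using P.ge_pow ha n) ha, ih, pow_succ]

/-- The valuation ring of `P`. -/
def ring : ValuationSubring K where
  carrier := {a | P.ge 0 a}
  mul_mem' := fun {a b} ha hb => by simpa using P.ge_mul ha hb
  one_mem' := P.ge_one
  add_mem' := fun {a b} ha hb => P.ge_add ha hb
  zero_mem' := P.ge_zero 0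
  neg_mem' := fun {a} ha => P.ge_neg ha
  mem_or_inv_mem' := fun a => by
    by_cases ha : a = 0
    · left; simp [ha, P.ge_zero]
    · rcases le_total 0 (P.ord a) with h | h
      · exact Or.inl (Or.inr h)
      · exact Or.inr (Or.inr (by rw [P.ord_inv]; linarith))

theorem mem_ring {a : K} : a ∈ P.ring ↔ P.ge 0 a := Iff.rfl

theorem isPl : IsPl k P.ring := by
  refine ⟨fun c => P.ge_const c, fun h => ?_⟩
  obtain ⟨a, ha, h1⟩ := P.exists_unif
  have : a⁻¹ ∈ P.ring := by rw [h]; trivial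
  rw [P.mem_ring, P.ge_iff (inv_ne_zero ha), P.ord_inv] at this
  linarith

/-- A place is determined by its valuation ring. -/
theorem ext_ring {P Q : Plc k K} (h : ∀ a, P.ge 0 a ↔ Q.ge 0 a) : P = Q := by
  have hle : ∀ a, a ≠ 0 → (0 ≤ P.ord a ↔ 0 ≤ Q.ord a) := by
    intro a ha
    rw [← P.ge_iff ha, ← Q.ge_iff ha]; exact h a
  have hzero : ∀ a, a ≠ 0 → (P.ord a = 0 ↔ Q.ord a = 0) := by
    intro a ha
    have h1 := hle a ha
    have h2 := hle a⁻¹ (inv_ne_zero ha)
    rw [P.ord_inv, Q.ord_inv] at h2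
    omega
  obtain ⟨π, hπ, hπ1⟩ := P.exists_unif
  obtain ⟨ρ, hρ, hρ1⟩ := Q.exists_unif
  have key : ∀ a, a ≠ 0 → Q.ord a = P.ord a * Q.ord π := by
    intro a ha
    have h1 : P.ord (a / π ^ (P.ord a)) = 0 := by
      rw [P.ord_div ha (zpow_ne_zero _ hπ), P.ord_zpow, hπ1]; ring
    have h2 := (hzero _ (div_ne_zero ha (zpow_ne_zero _ hπ))).mp h1
    rw [Q.ord_div ha (zpow_ne_zero _ hπ), Q.ord_zpow] at h2
    linarith
  have hQπ : 0 ≤ Q.ord π := (hle π hπ).mp (by rw [hπ1]; norm_num)
  have h1 := key ρ hρ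
  rw [hρ1] at h1
  have h3 : Q.ord π = 1 := by
    rcases Int.eq_one_or_neg_one_of_mul_eq_one' h1.symm with ⟨_, h2⟩ | ⟨_, h2⟩
    · exact h2
    · rw [h2] at hQπ; norm_num at hQπ
  ext a
  by_cases ha : a = 0
  · rw [ha, P.ord_zero, Q.ord_zero]
  · rw [key a ha, h3]; ring

theorem ext_ring' {P Q : Plc k K} (h : P.ring = Q.ring) : P = Q :=
  ext_ring fun a => by rw [← P.mem_ring, ← Q.mem_ring, h]

end Plc

end Pool.Agent.PRB
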