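import Mathlib

/-!
# Coefficients of products of powers of linear polynomials in characteristic `p`

PLAN. `ofL l = ∑ i, (l.getD i 0 : k) X^i`.  `PolL_lmul`: `ofL (lmul p c l) = (X - C c) * ofL l` in characteristic `p` if `c ≤ p`
(the coefficient of `X^i` is `l_(i-1) + (p - c) l_i`, reduced modulo `p`: `CharP.cast_eq_zero`, `Nat.cast_mod...` i.e.
`(a % p : k) = a`).  `PolL_lpow`: induction on `e`.  `coeff_lprod`: induction on the list.
-/

set_option autoImplicit false

namespace Pool.Agent.PRB

/-- The coefficient list of `(X - c) * l`, modulo `p`. -/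
def lmul (p c : ℕ) (l : List ℕ) : List ℕ :=
  List.zipWith (fun a b => (a + (p - c) * b) % p) (0 :: l) (l ++ [0])

/-- The coefficient list of `(X - c) ^ e * l`, modulo `p`. -/
def lpow (p c : ℕ) : ℕ → List ℕ → List ℕ
  | 0, l => l
  | e + 1, l => lmul p c (lpow p c e l)

/-- The coefficient list of `∏ (X - c) ^ e`, modulo `p`. -/
def lprod (p : ℕ) : List (ℕ × ℕ) → List ℕ
  | [] => [1]
  | x :: t => lpow p x.1 x.2 (lprod p t)

theorem PolL_zip (f : ℕ → ℕ → ℕ) (hf : f 0 0 = 0) (as bs : List ℕ)
    (h : as.length = bs.length) (i : ℕ) :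
    (List.zipWith f as bs).getD i 0 = f (as.getD i 0) (bs.getD i 0) := by
  induction as generalizing bs i with
  | nil =>
    have hb : bs = [] := by
      rw [List.length_nil] at h
      exact List.length_eq_zero_iff.1 h.symm
    subst hb
    simp [hf]
  | cons a as ih =>
    cases bs with
    | nil => simp at h
    | cons b bs =>
      simp only [List.length_cons, Nat.add_right_cancel_iff] at h
      cases i with
      | zero => simp
      | succ i =>
        rw [List.zipWith_cons_cons, List.getD_cons_succ, List.getD_cons_succ,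
          List.getD_cons_succ]
        exact ih bs h i

theorem PolL_app (l : List ℕ) (i : ℕ) : (l ++ [0]).getD i 0 = l.getD i 0 := by
  induction l generalizing i with
  | nil =>
    cases i with
    | zero => simp
    | succ i => simp
  | cons a l ih =>
    cases i with
    | zero => simp
    | succ i =>
      rw [List.cons_append, List.getD_cons_succ, List.getD_cons_succ]
      exact ih i

theorem PolL_mod {p : ℕ} {k : Type} [Field k] [CharP k p] (a : ℕ) :
    ((a % p : ℕ) : k) = (a : k) := by
  conv_rhs => rw [← Nat.div_add_mod a p]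
  rw [Nat.cast_add, Nat.cast_mul, CharP.cast_eq_zero k p, zero_mul, zero_add]

open Polynomial in
theorem PolL_lmul {p : ℕ} {k : Type} [Field k] [CharP k p] (c : ℕ) (hc : c ≤ p)
    (P : k[X]) (l : List ℕ) (h : ∀ j, P.coeff j = ((l.getD j 0 : ℕ) : k)) (j : ℕ) :
    ((X - C (c : k)) * P).coeff j = (((lmul p c l).getD j 0 : ℕ) : k) := by
  unfold lmul
  rw [PolL_zip _ (by simp) _ _ (by simp), PolL_app, PolL_mod, Nat.cast_add, Nat.cast_mul,
    Nat.cast_sub hc, CharP.cast_eq_zero k p, ← h j, sub_mul, coeff_sub, coeff_C_mul]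
  cases j with
  | zero =>
    rw [List.getD_cons_zero, mul_coeff_zero, coeff_X_zero]
    push_cast
    ring
  | succ j =>
    rw [List.getD_cons_succ, coeff_X_mul, ← h j]
    ring

open Polynomial in
theorem PolL_lpow {p : ℕ} {k : Type} [Field k] [CharP k p] (c : ℕ) (hc : c ≤ p) (e : ℕ)
    (P : k[X]) (l : List ℕ) (h : ∀ j, P.coeff j = ((l.getD j 0 : ℕ) : k)) :
    ∀ j, ((X - C (c : k)) ^ e * P).coeff j = (((lpow p c e l).getD j 0 : ℕ) : k) := by
  induction e with
  | zero =>
    intro j
    rw [pow_zero, one_mul]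
    exact h j
  | succ e ih =>
    intro j
    rw [pow_succ', mul_assoc]
    exact PolL_lmul c hc _ _ ih j

open Polynomial in
theorem coeff_lprod {p : ℕ} [Fact p.Prime] {k : Type} [Field k] [CharP k p] (t : List (ℕ × ℕ))
    (ht : ∀ x ∈ t, x.1 ≤ p) (j : ℕ) :
    ((t.map fun x : ℕ × ℕ => (X - C (x.1 : k)) ^ x.2).prod).coeff j =
      (((lprod p t).getD j 0 : ℕ) : k) := by
  induction t generalizing j with
  | nil =>
    rw [List.map_nil, List.prod_nil]
    unfold lprod
    rw [coeff_one]
    cases j with
    | zero => simp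
    | succ j => simp
  | cons x t ih =>
    rw [List.map_cons, List.prod_cons]
    exact PolL_lpow x.1 (ht x List.mem_cons_self) x.2 _ _
      (fun j => ih (fun y hy => ht y (List.mem_cons_of_mem x hy)) j) j

open Polynomial in
theorem natDegree_lprod {k : Type} [Field k] (t : List (ℕ × ℕ)) :
    ((t.map fun x : ℕ × ℕ => (X - C (x.1 : k)) ^ x.2).prod).natDegree = (t.map Prod.snd).sum := by
  have hm : ∀ t : List (ℕ × ℕ),
      ((t.map fun x : ℕ × ℕ => (X - C (x.1 : k)) ^ x.2).prod).Monic := by
    intro t
    induction t with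
    | nil => simp
    | cons x t ih =>
      rw [List.map_cons, List.prod_cons]
      exact ((monic_X_sub_C _).pow _).mul ih
  induction t with
  | nil => simp
  | cons x t ih =>
    rw [List.map_cons, List.prod_cons, List.map_cons, List.sum_cons,
      ((monic_X_sub_C _).pow _).natDegree_mul (hm t), (monic_X_sub_C _).natDegree_pow,
      natDegree_X_sub_C, mul_one, ih]

end Pool.Agent.PRB
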