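import Pool.Agent.LibPRB.TowerD

/-! # Frobenius-stable sets of roots of `wp^3` -/

set_option autoImplicit false

open Polynomial

namespace Pool.Agent.PRB

variable {p : ℕ} [Fact p.Prime]

theorem PolyA_prod (y : (ZMod p)[X]) : y ^ p - y = ∏ a : ZMod p, (y - C a) := by
  have h1 : (X ^ p - X : (ZMod p)[X]) = ∏ a : ZMod p, (X - C a) := by
    have hp1 : 1 < p := (Fact.out : p.Prime).one_lt
    have hr : (X ^ p - X : (ZMod p)[X]).roots = Finset.univ.val := by
      have := FiniteField.roots_X_pow_card_sub_X (ZMod p)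
      rwa [ZMod.card] at this
    have hm : (X ^ p - X : (ZMod p)[X]).Monic := by
      apply monic_X_pow_sub
      rw [degree_X]
      exact_mod_cast hp1
    have h2 := prod_multiset_X_sub_C_of_monic_of_roots_card_eq hm (by
      rw [hr, FiniteField.X_pow_card_sub_X_natDegree_eq (ZMod p) hp1]
      simp [ZMod.card])
    rw [hr] at h2
    rw [← h2]
    rfl
  have h2 := congrArg (fun q : (ZMod p)[X] => q.comp y) h1
  simpa [prod_comp] using h2

/-- The polynomial of degree `p ^ n` describing `wp^n`. -/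
noncomputable def PolyA_Phi (p : ℕ) [Fact p.Prime] (n : ℕ) : (ZMod p)[X] :=
  (fun q : (ZMod p)[X] => q ^ p - q)^[n] X

theorem PolyA_Phi_zero : PolyA_Phi p 0 = X := rfl

theorem PolyA_Phi_succ (n : ℕ) : PolyA_Phi p (n + 1) = PolyA_Phi p n ^ p - PolyA_Phi p n := by
  unfold PolyA_Phi
  rw [Function.iterate_succ_apply']

theorem PolyA_Phi_monic (n : ℕ) :
    (PolyA_Phi p n).Monic ∧ (PolyA_Phi p n).natDegree = p ^ n := by
  have hp1 : 1 < p := (Fact.out : p.Prime).one_lt
  induction n with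
  | zero => rw [PolyA_Phi_zero]; simp [monic_X]
  | succ n ih =>
    rw [PolyA_Phi_succ]
    have h1 : (PolyA_Phi p n ^ p).natDegree = p ^ (n + 1) := by
      rw [ih.1.natDegree_pow, ih.2]; ring
    have h2 : (PolyA_Phi p n).degree < (PolyA_Phi p n ^ p).degree := by
      rw [degree_eq_natDegree ih.1.ne_zero, degree_eq_natDegree (ih.1.pow p).ne_zero, h1, ih.2]
      exact_mod_cast Nat.pow_lt_pow_right hp1 (Nat.lt_succ_self n)
    refine ⟨(ih.1.pow p).sub_of_left h2, ?_⟩
    rw [natDegree_sub_eq_left_of_natDegree_lt, h1]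
    rw [h1, ih.2]
    exact Nat.pow_lt_pow_right hp1 (Nat.lt_succ_self n)

theorem PolyA_Phi_sub_monic (n : ℕ) (a : ZMod p) :
    (PolyA_Phi p n - C a).Monic ∧ (PolyA_Phi p n - C a).natDegree = p ^ n := by
  obtain ⟨h1, h2⟩ := PolyA_Phi_monic (p := p) n
  have hp1 : 1 < p := (Fact.out : p.Prime).one_lt
  have h3 : (C a : (ZMod p)[X]).degree < (PolyA_Phi p n).degree := by
    rw [degree_eq_natDegree h1.ne_zero, h2]
    refine lt_of_le_of_lt degree_C_le ?_
    exact_mod_cast Nat.pow_pos (by omega)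
  exact ⟨h1.sub_of_left h3, by rw [natDegree_sub_C, h2]⟩

theorem PolyA_Phi_deriv (n : ℕ) : derivative (PolyA_Phi p n) = (-1) ^ n := by
  induction n with
  | zero => rw [PolyA_Phi_zero]; simp
  | succ n ih =>
    rw [PolyA_Phi_succ, derivative_sub, derivative_pow, ih]
    simp [pow_succ]

theorem PolyA_Phi_aeval (n : ℕ) (τ : AlgebraicClosure (ZMod p)) :
    aeval τ (PolyA_Phi p n) = (wp p)^[n] τ := by
  induction n with
  | zero => rw [PolyA_Phi_zero]; simp
  | succ n ih =>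
    rw [PolyA_Phi_succ, Function.iterate_succ_apply', map_sub, map_pow, ih]
    rfl

theorem PolyA_finset {A : (ZMod p)[X]} (hm : A.Monic) (hs : A.Separable) :
    ∃ W : Finset (AlgebraicClosure (ZMod p)),
      A.map (algebraMap (ZMod p) (AlgebraicClosure (ZMod p))) = ∏ τ ∈ W, (X - C τ) ∧
      W.card = A.natDegree ∧ ∀ τ, τ ∈ W ↔ aeval τ A = 0 := by
  classical
  have hBm : (A.map (algebraMap (ZMod p) (AlgebraicClosure (ZMod p)))).Monic := hm.map _
  have hBnd : (A.map (algebraMap (ZMod p) (AlgebraicClosure (ZMod p)))).roots.Nodup :=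
    nodup_roots hs.map
  have hBc : (A.map (algebraMap (ZMod p) (AlgebraicClosure (ZMod p)))).roots.card =
      (A.map (algebraMap (ZMod p) (AlgebraicClosure (ZMod p)))).natDegree :=
    splits_iff_card_roots.1 (IsAlgClosed.splits _)
  refine ⟨(A.map (algebraMap (ZMod p) (AlgebraicClosure (ZMod p)))).roots.toFinset, ?_, ?_, ?_⟩
  · have h2 := prod_multiset_X_sub_C_of_monic_of_roots_card_eq hBm hBc
    refine h2.symm.trans ?_
    rw [Finset.prod, Multiset.toFinset_val, Multiset.dedup_eq_self.2 hBnd]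
  · rw [Multiset.toFinset_card_of_nodup hBnd, hBc, hm.natDegree_map]
  · intro τ
    rw [Multiset.mem_toFinset, mem_roots hBm.ne_zero, IsRoot.def, eval_map_algebraMap]

/-- Subsets of any size of the set of roots of `wp^3`, stable under Frobenius, containing `0`. -/
theorem exists_polyA (j : ℕ) (h1 : 1 ≤ j) (hj : j ≤ p ^ 3) :
    ∃ (A : (ZMod p)[X]) (W : Finset (AlgebraicClosure (ZMod p))),
      A.map (algebraMap (ZMod p) (AlgebraicClosure (ZMod p))) = ∏ τ ∈ W, (X - C τ) ∧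
      W.card = j ∧ 0 ∈ W ∧ ∀ τ ∈ W, (wp p)^[3] τ = 0 := by
  classical
  have hp1 : 1 < p := (Fact.out : p.Prime).one_lt
  have hp0 : 0 < p := by omega
  set d0 := (j - 1) % p with hd0
  set d1 := ((j - 1) / p) % p with hd1
  set d2 := (j - 1) / p / p with hd2
  have hj' : j = 1 + d0 + d1 * p + d2 * p ^ 2 := by
    have e1 := Nat.mod_add_div (j - 1) p
    have e2 := Nat.mod_add_div ((j - 1) / p) p
    have e3 : j - 1 = d0 + p * (d1 + p * d2) := by
      rw [hd0, hd1, hd2, e2, e1]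
    have e4 : j = 1 + (j - 1) := by omega
    rw [e4, e3]
    ring
  have l0 : d0 < p := Nat.mod_lt _ hp0
  have l1 : d1 < p := Nat.mod_lt _ hp0
  have l2 : d2 < p := by
    rw [hd2, Nat.div_div_eq_div_mul]
    rw [Nat.div_lt_iff_lt_mul (Nat.mul_pos hp0 hp0)]
    have : p ^ 3 = p * (p * p) := by ring
    omega
  have hcard : (Finset.univ.erase (0 : ZMod p)).card = p - 1 := by
    rw [Finset.card_erase_of_mem (Finset.mem_univ _), Finset.card_univ, ZMod.card]
  obtain ⟨S0, hS0, hc0⟩ := Finset.exists_subset_card_eq (s := Finset.univ.erase (0 : ZMod p))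
    (n := d0) (by rw [hcard]; omega)
  obtain ⟨S1, hS1, hc1⟩ := Finset.exists_subset_card_eq (s := Finset.univ.erase (0 : ZMod p))
    (n := d1) (by rw [hcard]; omega)
  obtain ⟨S2, hS2, hc2⟩ := Finset.exists_subset_card_eq (s := Finset.univ.erase (0 : ZMod p))
    (n := d2) (by rw [hcard]; omega)
  have hn0 : (0 : ZMod p) ∉ S0 := fun h => by simpa using hS0 h
  -- the factorisation
  have hfac : ∀ n : ℕ, PolyA_Phi p (n + 1) = PolyA_Phi p n *
      ∏ a ∈ Finset.univ.erase (0 : ZMod p), (PolyA_Phi p n - C a) := by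
    intro n
    rw [PolyA_Phi_succ, PolyA_prod, ← Finset.mul_prod_erase Finset.univ _ (Finset.mem_univ 0)]
    simp
  set A : (ZMod p)[X] := (∏ a ∈ insert 0 S0, (PolyA_Phi p 0 - C a)) *
    (∏ a ∈ S1, (PolyA_Phi p 1 - C a)) * ∏ a ∈ S2, (PolyA_Phi p 2 - C a) with hA
  have g0 := hfac 0
  have g1 := hfac 1
  have g2 := hfac 2
  rw [show 0 + 1 = 1 from rfl] at g0
  rw [show 1 + 1 = 2 from rfl] at g1
  rw [show 2 + 1 = 3 from rfl] at g2
  have g3 := g2.trans (congrArg (fun Y => Y *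
    ∏ a ∈ Finset.univ.erase (0 : ZMod p), (PolyA_Phi p 2 - C a)) g1)
  have g4 := g3.trans (congrArg (fun Y => Y *
    (∏ a ∈ Finset.univ.erase (0 : ZMod p), (PolyA_Phi p 1 - C a)) *
    ∏ a ∈ Finset.univ.erase (0 : ZMod p), (PolyA_Phi p 2 - C a)) g0)
  have hdvd : A ∣ PolyA_Phi p 3 := by
    refine Dvd.dvd.trans ?_ (dvd_of_eq g4.symm)
    refine mul_dvd_mul (mul_dvd_mul ?_ ?_) ?_
    · rw [Finset.prod_insert hn0, C_0, sub_zero]
      exact mul_dvd_mul_left _ (Finset.prod_dvd_prod_of_subset _ _ _ hS0)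
    · exact Finset.prod_dvd_prod_of_subset _ _ _ hS1
    · exact Finset.prod_dvd_prod_of_subset _ _ _ hS2
  have hmon : A.Monic := by
    refine ((monic_prod_of_monic _ _ ?_).mul (monic_prod_of_monic _ _ ?_)).mul
      (monic_prod_of_monic _ _ ?_)
    · intro a _; exact (PolyA_Phi_sub_monic 0 a).1
    · intro a _; exact (PolyA_Phi_sub_monic 1 a).1
    · intro a _; exact (PolyA_Phi_sub_monic 2 a).1
  have hdeg1 : ∀ (n : ℕ) (S : Finset (ZMod p)), (∏ a ∈ S, (PolyA_Phi p n - C a)).natDegree =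
      S.card * p ^ n := by
    intro n S
    rw [natDegree_prod_of_monic _ _ (fun a _ => (PolyA_Phi_sub_monic n a).1)]
    rw [Finset.sum_congr rfl (fun a _ => (PolyA_Phi_sub_monic n a).2)]
    simp
  have hmonS : ∀ (n : ℕ) (S : Finset (ZMod p)), (∏ a ∈ S, (PolyA_Phi p n - C a)).Monic :=
    fun n S => monic_prod_of_monic _ _ (fun a _ => (PolyA_Phi_sub_monic n a).1)
  have hdeg : A.natDegree = j := by
    rw [hA, ((hmonS 0 _).mul (hmonS 1 _)).natDegree_mul (hmonS 2 _),
      (hmonS 0 _).natDegree_mul (hmonS 1 _), hdeg1, hdeg1, hdeg1,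
      Finset.card_insert_of_notMem hn0, hc0, hc1, hc2, hj']
    ring
  have hsep : A.Separable := by
    refine Separable.of_dvd ?_ hdvd
    rw [separable_def, PolyA_Phi_deriv]
    exact ⟨0, -1, by ring⟩
  obtain ⟨W, hW1, hW2, hW3⟩ := PolyA_finset hmon hsep
  refine ⟨A, W, hW1, hW2.trans hdeg, ?_, ?_⟩
  · rw [hW3, hA, Finset.prod_insert hn0]
    simp [PolyA_Phi_zero]
  · intro τ hτ
    rw [hW3] at hτ
    obtain ⟨R, hR⟩ := hdvd
    rw [← PolyA_Phi_aeval, hR, map_mul, hτ, zero_mul]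

end Pool.Agent.PRB
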