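import Pool.Agent.LibPRB.TowerD

/-! # Bad values -/

set_option autoImplicit false

open Polynomial

namespace Pool.Agent.PRB

variable {p : ℕ} [Fact p.Prime]

theorem PolyG_key (n : ℕ) (x : AlgebraicClosure (ZMod p)) :
    (wp p)^[p ^ n] x = x ^ (p ^ (p ^ n)) - x := by
  set F : Module.End (ZMod p) (AlgebraicClosure (ZMod p)) :=
    (FiniteField.frobeniusAlgHom (ZMod p) (AlgebraicClosure (ZMod p))).toLinearMap with hF
  have hFx : ∀ x, F x = x ^ p := by
    intro x
    change x ^ (Fintype.card (ZMod p)) = x ^ p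
    rw [ZMod.card]
  have h1 : ∀ (m : ℕ) (x : AlgebraicClosure (ZMod p)), (wp p)^[m] x = ((F - 1) ^ m) x := by
    intro m
    induction m with
    | zero => intro x; rfl
    | succ m ih =>
      intro x
      rw [Function.iterate_succ_apply', ih, pow_succ', Module.End.mul_apply, LinearMap.sub_apply,
        hFx]
      rfl
  have h2 : ∀ (m : ℕ) (x : AlgebraicClosure (ZMod p)), (F ^ m) x = x ^ (p ^ m) := by
    intro m
    induction m with
    | zero => intro x; simp
    | succ m ih =>
      intro x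
      rw [pow_succ', Module.End.mul_apply, ih, hFx, ← pow_mul, pow_succ]
  have : CharP (Module.End (ZMod p) (AlgebraicClosure (ZMod p))) p :=
    charP_of_injective_algebraMap
      (FaithfulSMul.algebraMap_injective (ZMod p) _) p
  have h3 : (F - 1) ^ (p ^ n) = F ^ (p ^ n) - 1 := by
    rw [sub_pow_char_pow_of_commute _ _ (Commute.one_right F), one_pow]
  rw [h1, h3, LinearMap.sub_apply, h2]
  rfl

theorem PolyG_zero (n : ℕ) : (wp p)^[n] (0 : AlgebraicClosure (ZMod p)) = 0 := by
  have hp0 : p ≠ 0 := (Fact.out : p.Prime).ne_zero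
  induction n with
  | zero => rfl
  | succ n ih => rw [Function.iterate_succ_apply', ih, wp, zero_pow hp0, sub_zero]

theorem PolyG_mono {m n : ℕ} (hmn : m ≤ n) {x : AlgebraicClosure (ZMod p)}
    (h : (wp p)^[m] x = 0) : (wp p)^[n] x = 0 := by
  obtain ⟨d, rfl⟩ := Nat.exists_eq_add_of_le hmn
  rw [add_comm, Function.iterate_add_apply, h, PolyG_zero]

/-- Bad values lie in the field with `p ^ (p ^ 2)` elements. -/
theorem pow_eq_of_not_good (h5 : 5 ≤ p) (m : ℕ) (hm : m < p) (τ : AlgebraicClosure (ZMod p))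
    (h : ¬ Good p m 3 τ) : τ ^ (p ^ (p ^ 2)) = τ := by
  have h1 : (wp p)^[p + 3] τ = 0 := by
    unfold Good at h
    rw [not_and_or] at h
    rcases h with h | h
    · rw [not_not] at h
      exact PolyG_mono (by omega) h
    · push Not at h
      obtain ⟨b, hb1, hb2⟩ := h
      have h2 : (wp p)^[p ^ 1] b = 0 := PolyG_mono (by rw [pow_one]; omega) hb2
      rw [PolyG_key, sub_eq_zero] at h2
      have h3 : (wp p)^[p ^ 1] ((wp p)^[3] τ) = 0 := by
        rw [PolyG_key, ← hb1, ← pow_mul, mul_comm, pow_mul, h2, sub_self]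
      rw [pow_one, ← Function.iterate_add_apply] at h3
      exact h3
  have h2 : (wp p)^[p ^ 2] τ = 0 := PolyG_mono (by nlinarith) h1
  rw [PolyG_key, sub_eq_zero] at h2
  exact h2

end Pool.Agent.PRB
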