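import Pool.Agent.LibPRB.QdReg
import Pool.Agent.LibPRB.TwCur

/-!
# Quadratic covers as curves over `F_p`

PLAN. As `hasCurve_of_TwS` (TwCur.lean), with `exists_phi_qd` and `QdS.gf'`.
-/

set_option autoImplicit false

namespace Pool.Agent.PRB

theorem hasCurve_of_QdS (p : ℕ) [Fact p.Prime] {K L : Type} [Field K] [Field L]
    [Algebra (AlgebraicClosure (ZMod p)) K] [Algebra (AlgebraicClosure (ZMod p)) L] [Algebra K L]
    [IsScalarTower (AlgebraicClosure (ZMod p)) K L] {s : K}
    {D : Derivation (AlgebraicClosure (ZMod p)) K K} {h : K} {y : L}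
    {D' : Derivation (AlgebraicClosure (ZMod p)) L L} (A : QdS p s D h y D')
    (hs : Transcendental (AlgebraicClosure (ZMod p)) s)
    (hfin : Module.Finite (IntermediateField.adjoin (AlgebraicClosure (ZMod p)) {s}) K)
    (φ : K →+* K) (hφc : ∀ c : AlgebraicClosure (ZMod p),
      φ (algebraMap _ K c) = algebraMap _ K (c ^ p))
    (hφs : φ s = s) (hφh : φ h = h) (hφn : ∀ a, ∃ n > 0, φ^[n] a = a) (g f : ℕ)
    (hg : Module.finrank (AlgebraicClosure (ZMod p)) (regSp D') = g)
    (hf : Nat.card {a : L // a ∈ regSp D' ∧ car p D' a = a} = p ^ f) : HasCurve p g f := by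
  obtain ⟨Φ, hΦa, hΦy, hΦc, hΦn⟩ := exists_phi_qd A.qd φ hφc hφh hφn
  obtain ⟨F₀, i1, i2, ι, hι, e, he⟩ :=
    exists_descent p (AlgebraicClosure (ZMod p)) L Φ hΦc hΦn
  have hKL : Module.Finite K L := A.qd.finite
  have htr : Transcendental (AlgebraicClosure (ZMod p)) (algebraMap K L s) := by
    rw [transcendental_algebraMap_iff (algebraMap K L).injective]
    exact hs
  have hfinL : Module.Finite
      (IntermediateField.adjoin (AlgebraicClosure (ZMod p)) {algebraMap K L s}) L :=
    TwCur_fin s hKL hfin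
  have hx : Φ (algebraMap K L s) = algebraMap K L s := by rw [hΦa, hφs]
  obtain ⟨b, hb⟩ := (hι _).2 hx
  have hb' : e (TensorProduct.tmul (ZMod p) 1 b) = algebraMap K L s := by rw [he, hb]
  refine ⟨F₀, L, i1, inferInstance, i2, inferInstance, ?_, ⟨e⟩, ⟨_, htr, hfinL⟩, ?_, ?_⟩
  · exact functionField_descent p (AlgebraicClosure (ZMod p)) L F₀ e b (by rw [hb']; exact htr)
      (by rw [hb']; exact hfinL)
  · rw [genus_eq A.gf', hg]
  · rw [card_torsion A.gf', hf]

end Pool.Agent.PRB
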