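import Pool.Agent.LibPRB.TwD

/-!
# Quadratic covers `y ^ 2 = h`: definitions

The cover `L = K(y)`, `y ^ 2 = h`, is described by `IsTw 2 0 h y` (files TwD, TwB, TwL: coefficients `co a 0`, `co a 1`,
`finrank = 2`, universal property; these files do not use the characteristic).
-/

set_option autoImplicit false

namespace Pool.Agent.PRB

/-- The quadratic cover `y ^ 2 = h` of the function field `K` with its derivation. -/
structure QdS (p : ℕ) {k K L : Type} [Field k] [Field K] [Field L] [Algebra k K] [Algebra k L]
    [Algebra K L] (s : K) (D : Derivation k K K) (h : K) (y : L) (D' : Derivation k L L) :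
    Prop where
  gf : GF p s D
  qd : IsTw 2 0 h y
  h0 : h ≠ 0
  p2 : p ≠ 2
  D_alg : ∀ a : K, D' (algebraMap K L a) = algebraMap K L (D a)

/-- The pole order allowed for the coefficient of `y ^ d`, `d = 0, 1`, of a regular differential:
`0` and `⌈ord h / 2⌉`. -/
def qdc {k K : Type} [Field k] [Field K] [Algebra k K] (h : K) (d : ℕ) (P : Plc k K) : ℤ :=
  cdiv (d * P.ord h) 2

end Pool.Agent.PRB
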