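import Pool.Agent.LibPRB.TwB

/-! # Twisted Artin–Schreier covers: universal property -/

set_option autoImplicit false

namespace Pool.Agent.PRB

variable {p : ℕ} [Fact p.Prime] {K L : Type} [Field K] [Field L] [Algebra K L] {h v : K} {w : L}

namespace IsTw

theorem TwL_li (T : IsTw p h v w) : LinearIndependent K (fun i : Fin p => w ^ (i : ℕ)) := by
  rw [Fintype.linearIndependent_iff]
  intro c hc i
  have h1 : ∑ i ∈ Finset.range p,
      algebraMap K L ((fun j : ℕ => if hj : j < p then c ⟨j, hj⟩ else 0) i) * w ^ i = 0 := by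
    rw [Finset.sum_range, ← hc]
    apply Finset.sum_congr rfl
    intro j _
    simp [Algebra.smul_def]
  have h2 := T.indep _ h1 i i.2
  simpa using h2

theorem TwL_span (T : IsTw p h v w) :
    ⊤ ≤ Submodule.span K (Set.range (fun i : Fin p => w ^ (i : ℕ))) := by
  intro a _
  obtain ⟨c, rfl⟩ := T.repr a
  apply Submodule.sum_mem
  intro i hi
  rw [← Algebra.smul_def]
  apply Submodule.smul_mem
  apply Submodule.subset_span
  exact ⟨⟨i, Finset.mem_range.1 hi⟩, rfl⟩

noncomputable def TwL_basis (T : IsTw p h v w) : Module.Basis (Fin p) K L :=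
  Module.Basis.mk T.TwL_li T.TwL_span

theorem finite (T : IsTw p h v w) : Module.Finite K L :=
  Module.Finite.of_basis T.TwL_basis

theorem finrank (T : IsTw p h v w) : Module.finrank K L = p := by
  rw [Module.finrank_eq_card_basis T.TwL_basis, Fintype.card_fin]

theorem TwL_ker (T : IsTw p h v w) (q : Polynomial K) (hq : Polynomial.aeval w q = 0) :
    (Polynomial.X ^ p - Polynomial.C h * Polynomial.X - Polynomial.C v) ∣ q := by
  have hp : 1 < p := (Fact.out : p.Prime).one_lt
  set f : Polynomial K := Polynomial.X ^ p - Polynomial.C h * Polynomial.X - Polynomial.C v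
    with hf
  have hfe : f = Polynomial.X ^ p - (Polynomial.C h * Polynomial.X + Polynomial.C v) := by
    rw [hf]; ring
  have hdeg : (Polynomial.C h * Polynomial.X + Polynomial.C v : Polynomial K).degree <
      (p : ℕ) := by
    refine lt_of_le_of_lt Polynomial.degree_linear_le ?_
    exact_mod_cast hp
  have hmon : f.Monic := by
    rw [hfe]
    exact Polynomial.monic_X_pow_sub (n := p)
      (p := Polynomial.C h * Polynomial.X + Polynomial.C v) hdeg
  have hfd : f.degree = (p : ℕ) := by
    rw [hfe, Polynomial.degree_sub_eq_left_of_degree_lt, Polynomial.degree_X_pow]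
    rw [Polynomial.degree_X_pow]
    exact hdeg
  have hfz : Polynomial.aeval w f = 0 := by
    simp only [hf, map_sub, map_mul, map_pow, Polynomial.aeval_X, Polynomial.aeval_C]
    rw [T.eq]; ring
  rw [← Polynomial.modByMonic_eq_zero_iff_dvd hmon]
  set r := q %ₘ f with hr
  have hrz : Polynomial.aeval w r = 0 := by
    have := Polynomial.modByMonic_add_div q f
    have h2 := congrArg (Polynomial.aeval w) this
    rw [map_add, map_mul, hfz, zero_mul, add_zero, hq] at h2
    exact h2
  have hrd : r.degree < (p : ℕ) := by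
    rw [← hfd]
    exact Polynomial.degree_modByMonic_lt q hmon
  have hsum : ∑ i ∈ Finset.range p, algebraMap K L (r.coeff i) * w ^ i = 0 := by
    rw [← hrz, Polynomial.aeval_def, Polynomial.eval₂_eq_sum_range' (algebraMap K L)]
    by_cases hr0 : r = 0
    · rw [hr0]; simp; exact (Fact.out : p.Prime).pos
    · exact (Polynomial.natDegree_lt_iff_degree_lt hr0).2 hrd
  ext i
  by_cases hi : i < p
  · rw [T.indep _ hsum i hi]; simp
  · rw [Polynomial.coeff_zero]
    apply Polynomial.coeff_eq_zero_of_degree_lt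
    refine lt_of_lt_of_le hrd ?_
    exact_mod_cast not_lt.1 hi

/-- Universal property of `L = K(w)`. -/
theorem lift (T : IsTw p h v w) {M : Type} [CommRing M] (θ : K →+* M) (x : M)
    (hx : x ^ p = θ h * x + θ v) :
    ∃ Θ : L →+* M, (∀ a : K, Θ (algebraMap K L a) = θ a) ∧ Θ w = x := by
  have hsurj : Function.Surjective
      ((Polynomial.aeval w : Polynomial K →ₐ[K] L) : Polynomial K →+* L) := by
    intro a
    obtain ⟨c, rfl⟩ := T.repr a
    refine ⟨∑ i ∈ Finset.range p, Polynomial.C (c i) * Polynomial.X ^ i, ?_⟩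
    simp
  have hker : RingHom.ker ((Polynomial.aeval w : Polynomial K →ₐ[K] L) : Polynomial K →+* L) ≤
      RingHom.ker (Polynomial.eval₂RingHom θ x) := by
    intro q hq
    rw [RingHom.mem_ker] at hq ⊢
    obtain ⟨u, rfl⟩ := T.TwL_ker q hq
    rw [map_mul]
    have : Polynomial.eval₂RingHom θ x (Polynomial.X ^ p - Polynomial.C h * Polynomial.X -
        Polynomial.C v) = 0 := by
      simp [hx]
    rw [this, zero_mul]
  let Θ := (((Polynomial.aeval w : Polynomial K →ₐ[K] L) : Polynomial K →+* L).liftOfSurjective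
    hsurj) ⟨Polynomial.eval₂RingHom θ x, hker⟩
  have hΘ : ∀ q : Polynomial K, Θ (Polynomial.aeval w q) = Polynomial.eval₂ θ x q := fun q =>
    RingHom.liftOfRightInverse_comp_apply _ _ _ _ q
  refine ⟨Θ, fun a => ?_, ?_⟩
  · have := hΘ (Polynomial.C a)
    simpa using this
  · have := hΘ Polynomial.X
    simpa using this

theorem ringHom_ext (T : IsTw p h v w) {M : Type} [CommRing M] {Θ Θ' : L →+* M}
    (h1 : ∀ a : K, Θ (algebraMap K L a) = Θ' (algebraMap K L a)) (h2 : Θ w = Θ' w) : Θ = Θ' := by
  ext a
  obtain ⟨c, rfl⟩ := T.repr a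
  simp only [map_sum, map_mul, map_pow, h1, h2]

end IsTw

end Pool.Agent.PRB
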