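import Pool.Agent.LibPRB.QdD
import Pool.Agent.LibPRB.TwL
import Pool.Agent.LibPRB.TwEx

/-!
# Quadratic covers: existence, derivation, Frobenius
-/

set_option autoImplicit false

namespace Pool.Agent.PRB

open Polynomial in
private theorem QdEx_irr {k K : Type} [Field k] [Field K] [Algebra k K] (P : Plc k K) (h : K)
    (hodd : ¬ (2 : ℤ) ∣ P.ord h) : Irreducible (TwEx_f 2 0 h) := by
  have h1 : TwEx_f 2 0 h = X ^ 2 - C h := by
    unfold TwEx_f
    rw [C_0, zero_mul, sub_zero]
  rw [h1]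
  apply X_pow_sub_C_irreducible_of_prime Nat.prime_two
  intro b hb
  apply hodd
  rw [← hb, P.ord_pow]
  exact ⟨P.ord b, by push_cast; ring⟩

open Polynomial in
theorem exists_Qd {k K : Type} [Field k] [Field K] [Algebra k K] (P : Plc k K) (h : K)
    (hh : h ≠ 0) (hodd : ¬ (2 : ℤ) ∣ P.ord h) :
    ∃ (L : Type) (_ : Field L) (_ : Algebra k L) (_ : Algebra K L) (_ : IsScalarTower k K L)
      (y : L), IsTw 2 0 h y := by
  haveI : Fact (Irreducible (TwEx_f 2 0 h)) := ⟨QdEx_irr P h hodd⟩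
  have hf0 := (TwEx_monic (p := 2) 0 h).ne_zero
  refine ⟨AdjoinRoot (TwEx_f 2 0 h), inferInstance,
    ((algebraMap K (AdjoinRoot (TwEx_f 2 0 h))).comp (algebraMap k K)).toAlgebra, inferInstance,
    @IsScalarTower.of_algebraMap_eq _ _ _ _ _ _ _ _
      ((algebraMap K (AdjoinRoot (TwEx_f 2 0 h))).comp (algebraMap k K)).toAlgebra (fun _ => rfl),
    AdjoinRoot.root (TwEx_f 2 0 h), ?_, ?_, ?_⟩
  · have h' := AdjoinRoot.mk_self (f := TwEx_f 2 0 h)
    have h1 : AdjoinRoot.mk (TwEx_f 2 0 h) (X ^ 2 - C 0 * X - C h) = 0 := h'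
    rw [map_sub, map_sub, map_pow, map_mul, AdjoinRoot.mk_X, AdjoinRoot.mk_C,
      AdjoinRoot.mk_C] at h1
    rw [AdjoinRoot.algebraMap_eq]
    linear_combination h1
  · intro a
    obtain ⟨r, rfl⟩ := AdjoinRoot.mk_surjective a
    refine ⟨(r %ₘ TwEx_f 2 0 h).coeff, ?_⟩
    have h1 : AdjoinRoot.mk (TwEx_f 2 0 h) r =
        AdjoinRoot.mk (TwEx_f 2 0 h) (r %ₘ TwEx_f 2 0 h) := by
      rw [AdjoinRoot.mk_eq_mk]
      have := modByMonic_add_div r (TwEx_f 2 0 h)
      exact ⟨r /ₘ TwEx_f 2 0 h, by linear_combination -this⟩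
    have hlt : (r %ₘ TwEx_f 2 0 h).natDegree < 2 := by
      have := natDegree_modByMonic_lt r (TwEx_monic (p := 2) 0 h) (by
        intro h'
        have h2 := TwEx_natDegree (p := 2) 0 h
        rw [h', natDegree_one] at h2
        exact absurd h2 (by norm_num))
      rwa [TwEx_natDegree] at this
    rw [h1]
    conv_lhs => rw [as_sum_range' (r %ₘ TwEx_f 2 0 h) 2 hlt]
    rw [map_sum]
    refine Finset.sum_congr rfl fun i _ => ?_
    rw [← C_mul_X_pow_eq_monomial, map_mul, map_pow, AdjoinRoot.mk_X, AdjoinRoot.mk_C,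
      AdjoinRoot.algebraMap_eq]
  · intro c hc i hi
    have h1 : AdjoinRoot.mk (TwEx_f 2 0 h) (∑ i ∈ Finset.range 2, C (c i) * X ^ i) = 0 := by
      rw [map_sum, ← hc]
      refine Finset.sum_congr rfl fun i _ => ?_
      rw [map_mul, map_pow, AdjoinRoot.mk_X, AdjoinRoot.mk_C, AdjoinRoot.algebraMap_eq]
    rw [AdjoinRoot.mk_eq_zero] at h1
    have h2 : (∑ i ∈ Finset.range 2, C (c i) * X ^ i : K[X]) = 0 := by
      refine eq_zero_of_dvd_of_degree_lt h1 ?_
      rw [degree_eq_natDegree hf0, TwEx_natDegree]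
      refine (degree_sum_le _ _).trans_lt ?_
      rw [Finset.sup_lt_iff (by exact_mod_cast WithBot.bot_lt_coe _)]
      intro j hj
      exact (degree_C_mul_X_pow_le _ _).trans_lt (by exact_mod_cast Finset.mem_range.1 hj)
    have h3 := congrArg (fun r => coeff r i) h2
    simp only [finsetSum_coeff, coeff_C_mul, coeff_X_pow, coeff_zero] at h3
    simpa [hi] using h3

variable {k K L : Type} [Field k] [Field K] [Field L]
  [Algebra k K] [Algebra k L] [Algebra K L] [IsScalarTower k K L] {h : K} {y : L}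

omit [IsScalarTower k K L] in
private theorem QdEx_sq (T : IsTw 2 0 h y) : y ^ 2 = algebraMap K L h := by
  have := T.eq
  rwa [map_zero, zero_mul, zero_add] at this

private theorem QdEx_y_ne (T : IsTw 2 0 h y) (hh : h ≠ 0) : y ≠ 0 := by
  rintro rfl
  have h1 := QdEx_sq T
  rw [zero_pow two_ne_zero] at h1
  exact hh ((algebraMap K L).injective (by rw [← h1, map_zero]))

theorem exists_deriv_qd (T : IsTw 2 0 h y) (hh : h ≠ 0) (h2 : (2 : K) ≠ 0)
    (D : Derivation k K K) :
    ∃ D' : Derivation k L L, ∀ a : K, D' (algebraMap K L a) = algebraMap K L (D a) := by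
  have hy := QdEx_y_ne T hh
  have h2' : (2 : L) ≠ 0 := by
    intro h0
    apply h2
    apply (algebraMap K L).injective
    rw [map_zero, map_ofNat, h0]
  let θ : K →+* TrivSqZeroExt L L :=
    { toFun := fun a => (TrivSqZeroExt.inl (algebraMap K L a) +
        TrivSqZeroExt.inr (algebraMap K L (D a)) : TrivSqZeroExt L L)
      map_one' := by
        ext <;> simp
      map_mul' := fun a b => by
        ext
        · simp
        · simp only [map_mul, Derivation.leibniz, smul_eq_mul, map_add, TrivSqZeroExt.snd_add,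
            TrivSqZeroExt.snd_inl, TrivSqZeroExt.snd_inr, TrivSqZeroExt.snd_mul,
            TrivSqZeroExt.fst_add, TrivSqZeroExt.fst_inl, TrivSqZeroExt.fst_inr, zero_add,
            add_zero, MulOpposite.smul_eq_mul_unop, MulOpposite.unop_op]
          ring
      map_zero' := by
        ext <;> simp
      map_add' := fun a b => by
        ext
        · simp
        · simp only [map_add, TrivSqZeroExt.snd_add, TrivSqZeroExt.snd_inl,
            TrivSqZeroExt.snd_inr, zero_add] }
  have hθf : ∀ a, (θ a).fst = algebraMap K L a := fun a => by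
    change (TrivSqZeroExt.inl (algebraMap K L a) +
        TrivSqZeroExt.inr (algebraMap K L (D a)) : TrivSqZeroExt L L).fst = _
    simp
  have hθs : ∀ a, (θ a).snd = algebraMap K L (D a) := fun a => by
    change (TrivSqZeroExt.inl (algebraMap K L a) +
        TrivSqZeroExt.inr (algebraMap K L (D a)) : TrivSqZeroExt L L).snd = _
    simp only [TrivSqZeroExt.snd_add, TrivSqZeroExt.snd_inl, TrivSqZeroExt.snd_inr, zero_add]
  obtain ⟨ω, hω⟩ : ∃ ω : L, 2 * y * ω = algebraMap K L (D h) := by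
    refine ⟨algebraMap K L (D h) / (2 * y), ?_⟩
    rw [mul_div_cancel₀ _ (mul_ne_zero h2' hy)]
  obtain ⟨x, hxf, hxs⟩ : ∃ x : TrivSqZeroExt L L, x.fst = y ∧ x.snd = ω := by
    refine ⟨TrivSqZeroExt.inl y + TrivSqZeroExt.inr ω, ?_, ?_⟩
    · simp only [TrivSqZeroExt.fst_add, TrivSqZeroExt.fst_inl, TrivSqZeroExt.fst_inr, add_zero]
    · simp only [TrivSqZeroExt.snd_add, TrivSqZeroExt.snd_inl, TrivSqZeroExt.snd_inr, zero_add]
  have hx : x ^ 2 = θ 0 * x + θ h := by
    rw [map_zero, zero_mul, zero_add, pow_two]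
    ext
    · rw [TrivSqZeroExt.fst_mul, hxf, hθf, ← pow_two, QdEx_sq T]
    · rw [TrivSqZeroExt.snd_mul, hxs, hxf, hθs, smul_eq_mul, MulOpposite.smul_eq_mul_unop,
        MulOpposite.unop_op, ← hω]
      ring
  obtain ⟨Θ, hΘ, hΘw⟩ := T.lift θ x hx
  have hfst : ∀ a : L, (Θ a).fst = a := by
    have h1 : (TrivSqZeroExt.fstHom L L L).toRingHom.comp Θ = RingHom.id L := by
      apply T.ringHom_ext
      · intro a
        change (Θ (algebraMap K L a)).fst = algebraMap K L a
        rw [hΘ, hθf]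
      · change (Θ y).fst = y
        rw [hΘw, hxf]
    intro a
    exact congrArg (fun f : L →+* L => f a) h1
  have hmul : ∀ a b : L, (Θ (a * b)).snd = a * (Θ b).snd + b * (Θ a).snd := by
    intro a b
    rw [map_mul, TrivSqZeroExt.snd_mul, hfst, hfst, smul_eq_mul,
      MulOpposite.smul_eq_mul_unop, MulOpposite.unop_op, mul_comm (Θ a).snd b]
  let E : L →ₗ[k] L :=
    { toFun := fun a => (Θ a).snd
      map_add' := fun a b => by rw [map_add, TrivSqZeroExt.snd_add]
      map_smul' := fun c a => by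
        have h1 : c • a = algebraMap K L (algebraMap k K c) * a := by
          rw [← IsScalarTower.algebraMap_apply, Algebra.smul_def]
        rw [h1, hmul, hΘ, hθs, D.map_algebraMap, map_zero, mul_zero, add_zero,
          ← IsScalarTower.algebraMap_apply, ← Algebra.smul_def]
        rfl }
  refine ⟨Derivation.mk' E fun a b => ?_, fun a => ?_⟩
  · change (Θ (a * b)).snd = a • (Θ b).snd + b • (Θ a).snd
    rw [hmul, smul_eq_mul, smul_eq_mul]
  · change (Θ (algebraMap K L a)).snd = _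
    rw [hΘ, hθs]

theorem deriv_y (T : IsTw 2 0 h y) (hh : h ≠ 0) (h2 : (2 : K) ≠ 0)
    (D : Derivation k K K) (D' : Derivation k L L)
    (hD : ∀ a : K, D' (algebraMap K L a) = algebraMap K L (D a)) :
    D' y = algebraMap K L (D h / (2 * h)) * y := by
  have hy := QdEx_y_ne T hh
  have h2' : (2 : L) ≠ 0 := by
    intro h0
    apply h2
    apply (algebraMap K L).injective
    rw [map_zero, map_ofNat, h0]
  have hh' : algebraMap K L h ≠ 0 := by
    rw [Ne, map_eq_zero]; exact hh
  have h1 : D' (y ^ 2) = algebraMap K L (D h) := by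
    rw [QdEx_sq T, hD]
  rw [Derivation.leibniz_pow, nsmul_eq_mul, smul_eq_mul] at h1
  have h3 : (2 * y) * D' y = algebraMap K L (D h) := by
    rw [← h1]
    push_cast
    ring
  rw [map_div₀, map_mul, map_ofNat, ← h3, ← QdEx_sq T]
  field_simp

private theorem QdEx_ind {K L : Type} [Field K] [Field L] [Algebra K L] {h v : K} {w : L}
    (T : IsTw 2 h v w) (P : L → Prop) (halg : ∀ c, P (algebraMap K L c)) (hz : P w)
    (hadd : ∀ a b, P a → P b → P (a + b)) (hmul : ∀ a b, P a → P b → P (a * b)) (a : L) : P a := by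
  rw [← T.sum_co a, Finset.sum_range_succ, Finset.sum_range_one, pow_zero, pow_one, mul_one]
  exact hadd _ _ (halg _) (hmul _ _ (halg _) hz)

theorem exists_phi_qd {p : ℕ} (T : IsTw 2 0 h y) (φ : K →+* K)
    (hφc : ∀ c : k, φ (algebraMap k K c) = algebraMap k K (c ^ p))
    (hφh : φ h = h) (hφn : ∀ a, ∃ n > 0, φ^[n] a = a) :
    ∃ Φ : L →+* L, (∀ a : K, Φ (algebraMap K L a) = algebraMap K L (φ a)) ∧ Φ y = y ∧
      (∀ c : k, Φ (algebraMap k L c) = algebraMap k L (c ^ p)) ∧
      ∀ a, ∃ n > 0, Φ^[n] a = a := by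
  obtain ⟨Φ, hΦ, hw⟩ := T.lift ((algebraMap K L).comp φ) y (by
    rw [RingHom.comp_apply, RingHom.comp_apply, hφh, T.eq, map_zero (algebraMap K L), map_zero φ, map_zero (algebraMap K L)])
  have hΦ' : ∀ a : K, Φ (algebraMap K L a) = algebraMap K L (φ a) := hΦ
  refine ⟨Φ, hΦ', hw, ?_, ?_⟩
  · intro c
    rw [IsScalarTower.algebraMap_apply k K L, hΦ', hφc, ← IsScalarTower.algebraMap_apply k K L]
  have halg : ∀ (n : ℕ) (c : K), Φ^[n] (algebraMap K L c) = algebraMap K L (φ^[n] c) := by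
    intro n c
    induction n with
    | zero => rfl
    | succ n ih => rw [Function.iterate_succ_apply', ih, hΦ', Function.iterate_succ_apply']
  intro a
  refine QdEx_ind T (fun a => ∃ n > 0, Φ^[n] a = a) ?_ ?_ ?_ ?_ a
  · intro c
    obtain ⟨n, hn, h⟩ := hφn c
    exact ⟨n, hn, by rw [halg, h]⟩
  · exact ⟨1, one_pos, hw⟩
  · rintro a b ⟨n, hn, ha⟩ ⟨m, hm, hb⟩
    have h1 : Φ^[n * m] a = a := Function.IsPeriodicPt.mul_const ha m
    have h2 : Φ^[n * m] b = b := Function.IsPeriodicPt.const_mul hb n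
    exact ⟨n * m, Nat.mul_pos hn hm, by rw [iterate_map_add, h1, h2]⟩
  · rintro a b ⟨n, hn, ha⟩ ⟨m, hm, hb⟩
    have h1 : Φ^[n * m] a = a := Function.IsPeriodicPt.mul_const ha m
    have h2 : Φ^[n * m] b = b := Function.IsPeriodicPt.const_mul hb n
    exact ⟨n * m, Nat.mul_pos hn hm, by rw [iterate_map_mul, h1, h2]⟩

omit [IsScalarTower k K L] [Field k] [Algebra k K] [Algebra k L] in
private theorem QdEx_trace_y (T : IsTw 2 0 h y) : Algebra.trace K L y = 0 := by
  have hb : ∀ i : Fin 2, T.TwL_basis i = y ^ (i : ℕ) := fun i => by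
    unfold IsTw.TwL_basis
    rw [Module.Basis.mk_apply]
  rw [Algebra.trace_eq_matrix_trace T.TwL_basis, Matrix.trace, Fin.sum_univ_two]
  have e0 : Algebra.leftMulMatrix T.TwL_basis y 0 0 = 0 := by
    rw [Algebra.leftMulMatrix_eq_repr_mul, hb]
    have h1 : y * y ^ ((0 : Fin 2) : ℕ) = T.TwL_basis 1 := by rw [hb]; simp
    rw [h1, Module.Basis.repr_self]
    simp
  have e1 : Algebra.leftMulMatrix T.TwL_basis y 1 1 = 0 := by
    rw [Algebra.leftMulMatrix_eq_repr_mul, hb]
    have h1 : y * y ^ ((1 : Fin 2) : ℕ) = h • T.TwL_basis 0 := by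
      rw [hb, Algebra.smul_def, ← QdEx_sq T]
      simp
      ring
    rw [h1, map_smul, Module.Basis.repr_self]
    simp
  rw [Matrix.diag_apply, Matrix.diag_apply, e0, e1, add_zero]

theorem trace_qd (T : IsTw 2 0 h y) (a : L) : Algebra.trace K L a = 2 * T.co a 0 := by
  conv_lhs => rw [← T.sum_co a, Finset.sum_range_succ, Finset.sum_range_one, pow_zero, pow_one,
    mul_one]
  rw [map_add, Algebra.trace_algebraMap, T.finrank, ← Algebra.smul_def, map_smul,
    QdEx_trace_y T, smul_zero, add_zero, nsmul_eq_mul]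
  push_cast
  rfl

end Pool.Agent.PRB
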