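import Pool.Agent.LibPRB.TwTr
import Pool.Agent.LibPRB.FinI
import Pool.Agent.LibPRB.FinU

/-!
# Traces and places
-/

set_option autoImplicit false

namespace Pool.Agent.PRB

variable {p : ℕ} [Fact p.Prime] {k K L : Type} [Field k] [Field K] [Field L]
  [Algebra k K] [Algebra k L] [Algebra K L] [IsScalarTower k K L] {h v : K} {w : L}

omit [Field k] [Algebra k K] [Algebra k L] [IsScalarTower k K L] in
private theorem TwTg_trace_mul (c : K) (a : L) :
    Algebra.trace K L (algebraMap K L c * a) = c * Algebra.trace K L a := by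
  rw [← Algebra.smul_def, map_smul, smul_eq_mul]

theorem trace_ge_shift [IsAlgClosed k] (hfin : Module.Finite K L) (P : Plc k K) (n : ℤ) (a : L)
    (ha : ∀ (Q : Plc k L) (e : ℕ), OverE e Q P → Q.ge (e * n) a) :
    P.ge n (Algebra.trace K L a) := by
  obtain ⟨π, hπ0, hπ⟩ := P.exists_unif
  have hz0 : π ^ (-n) ≠ 0 := zpow_ne_zero _ hπ0
  have hzo : P.ord (π ^ (-n)) = -n := by rw [P.ord_zpow, hπ, mul_one]
  have h1 : P.ge 0 (Algebra.trace K L (algebraMap K L (π ^ (-n)) * a)) := by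
    refine trace_ge hfin P _ fun Q e hQ => ?_
    have h2 : Q.ge (e * (-n)) (algebraMap K L (π ^ (-n))) := by
      right
      rw [hQ.2, hzo]
    have h3 := Q.ge_mul h2 (ha Q e hQ)
    refine h3.mono ?_
    linarith
  rw [TwTg_trace_mul, P.ge_mul_iff hz0, hzo] at h1
  simpa using h1

theorem trace_ge_tw [IsAlgClosed k] [CharP K p] (T : IsTw p h v w) (P : Plc k K) (n : ℤ) (a : L)
    (ha : ∀ (Q : Plc k L) (e : ℕ), OverE e Q P → Q.ge (e * n + 1 - e) a) :
    P.ge n (Algebra.trace K L a) := by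
  obtain ⟨π, hπ0, hπ⟩ := P.exists_unif
  have hp0 : (0 : ℤ) < p := by exact_mod_cast (Fact.out : p.Prime).pos
  have hz0 : π ^ (1 - n) ≠ 0 := zpow_ne_zero _ hπ0
  have hzo : P.ord (π ^ (1 - n)) = 1 - n := by rw [P.ord_zpow, hπ, mul_one]
  have hi0 : π⁻¹ ≠ 0 := inv_ne_zero hπ0
  have hio : P.ord π⁻¹ = -1 := by rw [P.ord_inv, hπ]
  have h1 : P.ge 0 (Algebra.trace K L
      (algebraMap K L π⁻¹ * (algebraMap K L (π ^ (1 - n)) * a) ^ p)) := by
    refine trace_ge T.finite P _ fun Q e hQ => ?_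
    have h2 : Q.ge (e * (1 - n)) (algebraMap K L (π ^ (1 - n))) := by
      right
      rw [hQ.2, hzo]
    have h3 := Q.ge_mul h2 (ha Q e hQ)
    have h4 : Q.ge 1 (algebraMap K L (π ^ (1 - n)) * a) := by
      refine h3.mono ?_
      linarith
    have h5 := Q.ge_pow h4 p
    have h6 : Q.ge (e * (-1)) (algebraMap K L π⁻¹) := by
      right
      rw [hQ.2, hio]
    have h7 := Q.ge_mul h6 h5
    have h8 : (e : ℤ) ≤ p := by
      have := OverE.le_finrank T.finite hQ
      rw [T.finrank] at this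
      exact_mod_cast this
    refine h7.mono ?_
    linarith
  rw [TwTg_trace_mul, trace_pow_tw T, P.ge_mul_iff hi0, hio] at h1
  have h2 : P.ge 1 (Algebra.trace K L (algebraMap K L (π ^ (1 - n)) * a)) := by
    by_cases h3 : Algebra.trace K L (algebraMap K L (π ^ (1 - n)) * a) = 0
    · exact Or.inl h3
    · right
      rw [P.ge_iff (pow_ne_zero _ h3), P.ord_pow] at h1
      by_contra h4
      push Not at h4
      have h5 : P.ord (Algebra.trace K L (algebraMap K L (π ^ (1 - n)) * a)) ≤ 0 := by linarith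
      have h6 : (p : ℤ) * P.ord (Algebra.trace K L (algebraMap K L (π ^ (1 - n)) * a)) ≤ 0 :=
        mul_nonpos_of_nonneg_of_nonpos hp0.le h5
      linarith
  rw [TwTg_trace_mul, P.ge_mul_iff hz0, hzo] at h2
  simpa using h2

end Pool.Agent.PRB
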