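import Pool.Agent.LibPRB.QdEx
import Pool.Agent.LibPRB.FinD
import Pool.Agent.LibPRB.FinN
import Pool.Agent.LibPRB.FinU
import Pool.Agent.LibPRB.FinI
import Pool.Agent.LibPRB.TwTg

/-!
# Quadratic covers: places and differentials
-/

set_option autoImplicit false

namespace Pool.Agent.PRB

variable {p : ℕ} [Fact p.Prime] {k K L : Type} [Field k] [Field K] [Field L]
  [Algebra k K] [Algebra k L] [Algebra K L] [IsScalarTower k K L] {h : K} {y : L}

omit [Algebra k K] [Algebra k L] [IsScalarTower k K L] [Field k] in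
private theorem QdLoc_y2 (T : IsTw 2 0 h y) : y ^ 2 = algebraMap K L h := by
  have := T.eq
  rw [map_zero, zero_mul, zero_add] at this
  exact this

omit [Algebra k K] [Algebra k L] [IsScalarTower k K L] [Field k] in
private theorem QdLoc_y_ne (T : IsTw 2 0 h y) (hh : h ≠ 0) : y ≠ 0 := by
  intro h0
  have h1 := QdLoc_y2 T
  rw [h0, zero_pow two_ne_zero] at h1
  exact hh ((map_eq_zero (algebraMap K L)).1 h1.symm)

omit [Algebra k K] [Algebra k L] [IsScalarTower k K L] [Field k] in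
private theorem QdLoc_sum (T : IsTw 2 0 h y) (a : L) :
    a = algebraMap K L (T.co a 0) + algebraMap K L (T.co a 1) * y := by
  have h1 := T.sum_co a
  rw [Finset.sum_range_succ, Finset.sum_range_succ, Finset.sum_range_zero, zero_add, pow_zero,
    mul_one, pow_one] at h1
  exact h1.symm

omit [Algebra k K] [Algebra k L] [IsScalarTower k K L] [Field k] in
private theorem QdLoc_co_mul_y (T : IsTw 2 0 h y) (a : L) : T.co (a * y) 0 = h * T.co a 1 := by
  refine T.co_eq_of_lt (c := fun i => if i = 0 then h * T.co a 1 else T.co a 0) ?_ (by norm_num)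
  rw [Finset.sum_range_succ, Finset.sum_range_succ, Finset.sum_range_zero, zero_add, pow_zero,
    mul_one, pow_one]
  simp only [if_true, one_ne_zero, if_false]
  have h1 := QdLoc_sum T a
  have h2 := QdLoc_y2 T
  rw [map_mul]
  generalize algebraMap K L (T.co a 0) = A0 at *
  generalize algebraMap K L (T.co a 1) = A1 at *
  linear_combination (-A1) * h2 - y * h1

private theorem QdLoc_ge_co (h2 : (2 : K) ≠ 0) (T : IsTw 2 0 h y) (P : Plc k K) {n : ℤ} (a : L)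
    (ha : P.ge n (Algebra.trace K L a)) : P.ge n (T.co a 0) := by
  have h1 : T.co a 0 = (2 : k)⁻¹ • Algebra.trace K L a := by
    rw [trace_qd T a, Algebra.smul_def, map_inv₀, map_ofNat, ← mul_assoc, inv_mul_cancel₀ h2,
      one_mul]
  rw [h1]
  exact P.ge_smul _ ha

omit [IsScalarTower k K L] in
private theorem QdLoc_ord (T : IsTw 2 0 h y) {e : ℕ} {Q : Plc k L} {P : Plc k K}
    (hQ : OverE e Q P) : 2 * Q.ord y = e * P.ord h := by
  have h1 : Q.ord (y ^ 2) = e * P.ord h := by rw [QdLoc_y2 T, hQ.2]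
  rw [Q.ord_pow] at h1
  exact_mod_cast h1

private theorem QdLoc_e (T : IsTw 2 0 h y) {e : ℕ} {Q : Plc k L} {P : Plc k K}
    (hQ : OverE e Q P) : e ≤ 2 := by
  have := OverE.le_finrank T.finite hQ
  rwa [T.finrank] at this

private theorem QdLoc_ge_one [IsAlgClosed k] (h2 : (2 : K) ≠ 0) (T : IsTw 2 0 h y) (P : Plc k K)
    (b : L) (hb : ∀ (Q : Plc k L) (e : ℕ), OverE e Q P → Q.ge 1 b) : P.ge 1 (T.co b 0) := by
  have hsq : ∀ b : L, (∀ (Q : Plc k L) (e : ℕ), OverE e Q P → Q.ge 1 b) →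
      P.ge 1 (T.co (b ^ 2) 0) := by
    intro b hb
    obtain ⟨π, hπ0, hπ⟩ := P.exists_unif
    have h1 : P.ge 0 (T.co (algebraMap K L π⁻¹ * b ^ 2) 0) := by
      apply QdLoc_ge_co h2 T P
      refine trace_ge T.finite P _ fun Q e hQ => ?_
      have h3 : Q.ge (e * (-1)) (algebraMap K L π⁻¹) := by
        right
        rw [hQ.2, P.ord_inv, hπ]
      have h4 := Q.ge_mul h3 (Q.ge_pow (hb Q e hQ) 2)
      have h5 : (e : ℤ) ≤ 2 := by exact_mod_cast QdLoc_e T hQ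
      refine h4.mono ?_
      push_cast
      linarith
    rw [T.co_mul, P.ge_mul_iff (inv_ne_zero hπ0), P.ord_inv, hπ] at h1
    simpa using h1
  have hroot : ∀ x : K, P.ge 1 (x ^ 2) → P.ge 1 x := by
    intro x hx
    by_cases hx0 : x = 0
    · exact Or.inl hx0
    · rw [P.ge_iff (pow_ne_zero _ hx0), P.ord_pow] at hx
      right
      push_cast at hx
      omega
  have hb0 : P.ge 0 (T.co b 0) := QdLoc_ge_co h2 T P b
    (trace_ge T.finite P b fun Q e hQ => (hb Q e hQ).mono (by norm_num))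
  obtain ⟨N, hN⟩ : ∃ N : K, N = T.co b 0 ^ 2 - h * T.co b 1 ^ 2 := ⟨_, rfl⟩
  have hN1 : algebraMap K L N = algebraMap K L (2 * T.co b 0) * b - b ^ 2 := by
    have h1 := QdLoc_sum T b
    have h3 := QdLoc_y2 T
    rw [hN]
    simp only [map_sub, map_mul, map_pow, map_ofNat]
    generalize algebraMap K L (T.co b 0) = B0 at *
    generalize algebraMap K L (T.co b 1) = B1 at *
    linear_combination (b - B0 + B1 * y) * h1 + B1 ^ 2 * h3
  have hN2 : ∀ (Q : Plc k L) (e : ℕ), OverE e Q P → Q.ge 1 (algebraMap K L N) := by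
    intro Q e hQ
    rw [hN1]
    refine Q.ge_sub ?_ ?_
    · have h3 : P.ge 0 (2 * T.co b 0) := by
        have h4 := P.ge_smul (2 : k) hb0
        rwa [Algebra.smul_def, map_ofNat] at h4
      have h5 := (hQ.ge_iff 0 (2 * T.co b 0)).2 h3
      have h6 := Q.ge_mul h5 (hb Q e hQ)
      exact h6.mono (by norm_num)
    · exact (Q.ge_pow (hb Q e hQ) 2).mono (by norm_num)
  have h5 : T.co (algebraMap K L N ^ 2) 0 = N ^ 2 := by
    rw [← map_pow, T.co_algebraMap, if_pos rfl]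
  have h6 : P.ge 1 N := by
    apply hroot
    rw [← h5]
    exact hsq _ hN2
  have h7 : T.co b 0 ^ 2 = (2 : k)⁻¹ • (T.co (b ^ 2) 0 + N) := by
    have h8 : b ^ 2 = algebraMap K L (2 * T.co b 0) * b - algebraMap K L N := by
      rw [hN1]
      ring
    have h9 : T.co (b ^ 2) 0 = 2 * T.co b 0 * T.co b 0 - N := by
      rw [h8, T.co_sub, T.co_mul, T.co_algebraMap, if_pos rfl]
    rw [h9, Algebra.smul_def, map_inv₀, map_ofNat]
    field_simp
    ring
  apply hroot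
  rw [h7]
  exact P.ge_smul _ (P.ge_add (hsq b hb) h6)

private theorem QdLoc_tr [IsAlgClosed k] (h2 : (2 : K) ≠ 0) (T : IsTw 2 0 h y) (P : Plc k K)
    (n : ℤ) (a : L) (ha : ∀ (Q : Plc k L) (e : ℕ), OverE e Q P → Q.ge (e * n + 1 - e) a) :
    P.ge n (T.co a 0) := by
  obtain ⟨π, hπ0, hπ⟩ := P.exists_unif
  have hz0 : π ^ (1 - n) ≠ 0 := zpow_ne_zero _ hπ0
  have hzo : P.ord (π ^ (1 - n)) = 1 - n := by rw [P.ord_zpow, hπ, mul_one]
  have h1 : P.ge 1 (T.co (algebraMap K L (π ^ (1 - n)) * a) 0) := by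
    apply QdLoc_ge_one h2 T P
    intro Q e hQ
    have h3 : Q.ge (e * (1 - n)) (algebraMap K L (π ^ (1 - n))) := by
      right
      rw [hQ.2, hzo]
    exact (Q.ge_mul h3 (ha Q e hQ)).mono (by linarith)
  rw [T.co_mul, P.ge_mul_iff hz0, hzo] at h1
  simpa using h1

omit [Algebra k K] [Algebra k L] [IsScalarTower k K L] [Field k] [Field L] [Algebra K L] in
private theorem QdLoc_two [CharP K p] (hp2 : p ≠ 2) : (2 : K) ≠ 0 := by
  intro h0
  have h1 : ((2 : ℕ) : K) = 0 := by exact_mod_cast h0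
  have h2 := (CharP.cast_eq_zero_iff K p 2).1 h1
  have h3 := Nat.le_of_dvd (by norm_num) h2
  have h4 := (Fact.out : p.Prime).two_le
  exact hp2 (le_antisymm h3 h4)

private theorem QdLoc_bd [CharP K p] (hp2 : p ≠ 2) (T : IsTw 2 0 h y) (hh : h ≠ 0)
    (D : Derivation k K K) (D' : Derivation k L L)
    (hD : ∀ a : K, D' (algebraMap K L a) = algebraMap K L (D a)) {P : Plc k K} {δ : ℤ}
    (hP : IsDiff P D δ) {e : ℕ} {Q : Plc k L} (hQ : OverE e Q P) (N : ℕ) (x : L)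
    (hx0 : P.ge 0 (T.co x 0)) (hx1 : P.ge (-(N : ℤ)) (T.co x 1)) :
    Q.ge (-((e * (N + 1 + δ.natAbs) + (Q.ord y).natAbs + (Q.ord (D' y)).natAbs : ℕ) : ℤ))
      (D' x) := by
  have hsum : D' x = algebraMap K L (D (T.co x 0)) + (algebraMap K L (T.co x 1) * D' y +
      y * algebraMap K L (D (T.co x 1))) := by
    conv_lhs => rw [QdLoc_sum T x]
    rw [map_add, D'.leibniz, hD, hD]
    simp only [smul_eq_mul]
  rw [hsum]
  have he0 : (0 : ℤ) ≤ e := Int.natCast_nonneg e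
  have hN0 : (0 : ℤ) ≤ N := Int.natCast_nonneg N
  have hδ : δ ≤ (δ.natAbs : ℤ) := Int.le_natAbs
  have hy1 : -((Q.ord y).natAbs : ℤ) ≤ Q.ord y := by omega
  have hy2 : -((Q.ord (D' y)).natAbs : ℤ) ≤ Q.ord (D' y) := by omega
  have hdn : (0 : ℤ) ≤ (δ.natAbs : ℤ) := Int.natCast_nonneg _
  have h1n : (0 : ℤ) ≤ ((Q.ord y).natAbs : ℤ) := Int.natCast_nonneg _
  have h2n : (0 : ℤ) ≤ ((Q.ord (D' y)).natAbs : ℤ) := Int.natCast_nonneg _
  have hk1 : (e : ℤ) * δ ≤ e * (δ.natAbs : ℤ) := mul_le_mul_of_nonneg_left hδ he0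
  have hk2 : (0 : ℤ) ≤ e * (N : ℤ) := mul_nonneg he0 hN0
  have hk3 : (0 : ℤ) ≤ e * (δ.natAbs : ℤ) := mul_nonneg he0 hdn
  refine Q.ge_add ?_ (Q.ge_add ?_ ?_)
  · have h1 := (hQ.ge_iff _ _).2 (hP.ge_D hx0)
    refine h1.mono ?_
    simp only [Nat.cast_add, Nat.cast_mul, Nat.cast_one]
    linarith
  · have h1 := (hQ.ge_iff _ _).2 hx1
    have h2 : Q.ge (Q.ord (D' y)) (D' y) := Or.inr le_rfl
    refine (Q.ge_mul h1 h2).mono ?_
    simp only [Nat.cast_add, Nat.cast_mul, Nat.cast_one]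
    linarith
  · have h1 := (hQ.ge_iff _ _).2 (hP.ge_D hx1)
    have h2 : Q.ge (Q.ord y) y := Or.inr le_rfl
    refine (Q.ge_mul h2 h1).mono ?_
    simp only [Nat.cast_add, Nat.cast_mul, Nat.cast_one]
    linarith

private theorem QdLoc_co [IsAlgClosed k] (h2 : (2 : K) ≠ 0) (T : IsTw 2 0 h y) (hh : h ≠ 0)
    (P : Plc k K) (x : L)
    (hx : ∀ (Q' : Plc k L) (e' : ℕ), OverE e' Q' P → Q'.ge 0 x) :
    P.ge 0 (T.co x 0) ∧ P.ge (-((P.ord h).natAbs : ℤ)) (T.co x 1) := by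
  refine ⟨QdLoc_ge_co h2 T P x (trace_ge T.finite P x hx), ?_⟩
  have h1 : T.co (algebraMap K L h⁻¹ * (x * y)) 0 = T.co x 1 := by
    rw [T.co_mul, QdLoc_co_mul_y T x, ← mul_assoc, inv_mul_cancel₀ hh, one_mul]
  rw [← h1]
  apply QdLoc_ge_co h2 T P
  refine trace_ge_shift T.finite P _ _ fun Q e hQ => ?_
  have h3 : Q.ge (e * (-P.ord h)) (algebraMap K L h⁻¹) := by
    right
    rw [hQ.2, P.ord_inv]
  have h4 : Q.ge (Q.ord y) y := Or.inr le_rfl
  refine (Q.ge_mul h3 (Q.ge_mul (hx Q e hQ) h4)).mono ?_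
  have h5 := QdLoc_ord T hQ
  have he0 : (0 : ℤ) ≤ e := Int.natCast_nonneg e
  have h6 : P.ord h ≤ ((P.ord h).natAbs : ℤ) := Int.le_natAbs
  have h7 : (e : ℤ) * P.ord h ≤ e * ((P.ord h).natAbs : ℤ) := mul_le_mul_of_nonneg_left h6 he0
  have h8 : (0 : ℤ) ≤ e * ((P.ord h).natAbs : ℤ) := mul_nonneg he0 (Int.natCast_nonneg _)
  linarith

theorem diff_qd [IsAlgClosed k] [CharP k p] [CharP K p] (hp2 : p ≠ 2) (T : IsTw 2 0 h y)
    (hh : h ≠ 0) (D : Derivation k K K) (D' : Derivation k L L)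
    (hD : ∀ a : K, D' (algebraMap K L a) = algebraMap K L (D a)) {P : Plc k K} {δ : ℤ}
    (hP : IsDiff P D δ) {e : ℕ} {Q : Plc k L} (hQ : OverE e Q P) : ∃ δ', IsDiff Q D' δ' := by
  classical
  have h2 : (2 : K) ≠ 0 := QdLoc_two hp2
  obtain ⟨S, hS⟩ : ∃ S : Finset (Plc k L), ∀ Q' : Plc k L, Q' ∈ S ↔ ∃ e', OverE e' Q' P :=
    ⟨(over_finite T.finite P).toFinset, fun Q' => by
      rw [Set.Finite.mem_toFinset]
      exact Iff.rfl⟩
  haveI : CharP L p := charP_of_injective_algebraMap (algebraMap K L).injective p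
  refine isDiff_of_bdd Q D' (e * ((P.ord h).natAbs + 1 + δ.natAbs) + (Q.ord y).natAbs +
    (Q.ord (D' y)).natAbs) ?_ ?_
  · intro a ha
    obtain ⟨M, hM⟩ : ∃ M : ℕ, M = ∑ Q' ∈ S, (Q'.ord a).natAbs := ⟨_, rfl⟩
    obtain ⟨s, hs0, hsQ, hsM⟩ := exists_appr (S.erase Q) Q (Finset.notMem_erase Q S) M
    have hp1 : 1 ≤ p := (Fact.out : p.Prime).one_lt.le
    have hx : ∀ (Q' : Plc k L) (e' : ℕ), OverE e' Q' P → Q'.ge 0 (s ^ p * a) := by
      intro Q' e' hQ'
      have hmem : Q' ∈ S := (hS Q').2 ⟨e', hQ'⟩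
      rw [Q'.ge_mul_iff (pow_ne_zero _ hs0), Q'.ord_pow]
      by_cases hQQ : Q' = Q
      · rw [hQQ, hsQ]
        simpa using ha
      · right
        have h1 := hsM Q' (Finset.mem_erase.2 ⟨hQQ, hmem⟩)
        have h2 : (Q'.ord a).natAbs ≤ ∑ Q' ∈ S, (Q'.ord a).natAbs :=
          Finset.single_le_sum (f := fun Q' : Plc k L => (Q'.ord a).natAbs) (fun _ _ => Nat.zero_le _) hmem
        have h3 : (M : ℤ) ≤ p * Q'.ord s := by
          have h4 : (0 : ℤ) ≤ Q'.ord s := le_trans (Int.natCast_nonneg M) h1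
          have h5 : (1 : ℤ) ≤ p := by exact_mod_cast hp1
          nlinarith
        omega
    have hco := QdLoc_co h2 T hh P (s ^ p * a) hx
    have h1 := QdLoc_bd hp2 T hh D D' hD hP hQ (P.ord h).natAbs (s ^ p * a) hco.1 hco.2
    have h2 : D' (s ^ p * a) = s ^ p * D' a := by
      rw [D'.leibniz, Derivation.leibniz_pow]
      simp only [smul_eq_mul, nsmul_eq_mul, CharP.cast_eq_zero, zero_mul, mul_zero, add_zero]
    rw [h2, Q.ge_mul_iff (pow_ne_zero _ hs0), Q.ord_pow, hsQ, mul_zero, sub_zero] at h1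
    exact h1
  · obtain ⟨_, π, _, _, hDπ, _⟩ := hP
    refine ⟨algebraMap K L π, ?_⟩
    rw [hD]
    exact (map_ne_zero (algebraMap K L)).2 hDπ

private theorem QdLoc_cdiv (x : ℤ) : x ≤ 2 * cdiv x 2 ∧ 2 * cdiv x 2 ≤ x + 1 := by
  unfold cdiv
  omega

theorem qd_reg [IsAlgClosed k] [CharP k p] [CharP K p] (hp2 : p ≠ 2) (T : IsTw 2 0 h y)
    (hh : h ≠ 0) (D : Derivation k K K) (D' : Derivation k L L)
    (hD : ∀ a : K, D' (algebraMap K L a) = algebraMap K L (D a)) {P : Plc k K} {δ : ℤ}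
    (hP : IsDiff P D δ) (a : L) :
    (∀ (Q : Plc k L) (e : ℕ) (δ' : ℤ), OverE e Q P → IsDiff Q D' δ' → Q.ge (-δ') a) ↔
      ∀ d < 2, P.ge (-δ - qdc h d P) (T.co a d) := by
  have h2 : (2 : K) ≠ 0 := QdLoc_two hp2
  have hpe : ∀ (Q : Plc k L) (e : ℕ), OverE e Q P → ¬ p ∣ e := by
    intro Q e hQ hdvd
    have h3 := Nat.le_of_dvd hQ.1 hdvd
    have h4 := QdLoc_e T hQ
    have h5 := (Fact.out : p.Prime).two_le
    omega
  have hδ : ∀ (Q : Plc k L) (e : ℕ) (δ' : ℤ), OverE e Q P → IsDiff Q D' δ' →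
      δ' = e * δ + e - 1 := fun Q e δ' hQ hQ' =>
    diff_tame hQ (hpe Q e hQ) D D' hD hP hQ'
  have hq0 : qdc h 0 P = 0 := by
    unfold qdc cdiv
    simp
  have hq1 : P.ord h ≤ 2 * qdc h 1 P ∧ 2 * qdc h 1 P ≤ P.ord h + 1 := by
    have h3 := QdLoc_cdiv (((1 : ℕ) : ℤ) * P.ord h)
    unfold qdc
    rw [Nat.cast_one, one_mul] at h3 ⊢
    exact h3
  constructor
  · intro H
    have hQa : ∀ (Q : Plc k L) (e : ℕ), OverE e Q P → Q.ge (-(e * δ + e - 1)) a := by
      intro Q e hQ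
      obtain ⟨δ', hQ'⟩ := diff_qd hp2 T hh D D' hD hP hQ
      have := H Q e δ' hQ hQ'
      rwa [hδ Q e δ' hQ hQ'] at this
    intro d hd
    have hd' : d = 0 ∨ d = 1 := by omega
    rcases hd' with rfl | rfl
    · rw [hq0, sub_zero]
      refine QdLoc_tr h2 T P _ _ fun Q e hQ => ?_
      exact (hQa Q e hQ).mono (by linarith)
    · have h1 : T.co (algebraMap K L h⁻¹ * (a * y)) 0 = T.co a 1 := by
        rw [T.co_mul, QdLoc_co_mul_y T a, ← mul_assoc, inv_mul_cancel₀ hh, one_mul]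
      rw [← h1]
      refine QdLoc_tr h2 T P _ _ fun Q e hQ => ?_
      have h3 : Q.ge (e * (-P.ord h)) (algebraMap K L h⁻¹) := by
        right
        rw [hQ.2, P.ord_inv]
      have h4 : Q.ge (Q.ord y) y := Or.inr le_rfl
      refine (Q.ge_mul h3 (Q.ge_mul (hQa Q e hQ) h4)).mono ?_
      have h5 := QdLoc_ord T hQ
      have he0 : (0 : ℤ) ≤ e := Int.natCast_nonneg e
      have h6 : (e : ℤ) * P.ord h ≤ e * (2 * qdc h 1 P) := mul_le_mul_of_nonneg_left hq1.1 he0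
      linarith
  · intro hc Q e δ' hQ hQ'
    rw [hδ Q e δ' hQ hQ', QdLoc_sum T a]
    have h0 := hc 0 (by norm_num)
    have h1 := hc 1 (by norm_num)
    rw [hq0, sub_zero] at h0
    have he : (1 : ℤ) ≤ e := by exact_mod_cast hQ.1
    refine Q.ge_add ?_ ?_
    · exact ((hQ.ge_iff _ _).2 h0).mono (by linarith)
    · have h4 : Q.ge (Q.ord y) y := Or.inr le_rfl
      refine (Q.ge_mul ((hQ.ge_iff _ _).2 h1) h4).mono ?_
      have h5 := QdLoc_ord T hQ
      have h6 : (e : ℤ) * (2 * qdc h 1 P) ≤ e * (P.ord h + 1) :=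
        mul_le_mul_of_nonneg_left hq1.2 (by linarith)
      have h7 : (e : ℤ) * qdc h 1 P ≤ Q.ord y + e - 1 := by
        have h8 : 2 * ((e : ℤ) * qdc h 1 P) ≤ 2 * Q.ord y + e := by linarith
        omega
      linarith

end Pool.Agent.PRB
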