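import Pool.Agent.LibPRB.QdEx
import Pool.Agent.LibPRB.PBa
import Pool.Agent.LibPRB.ASPB

/-!
# Quadratic covers: `p`-basis and Cartier operator
-/

set_option autoImplicit false

namespace Pool.Agent.PRB

variable {p : ℕ} [Fact p.Prime] {k K L : Type} [Field k] [Field K] [Field L]
  [Algebra k K] [Algebra k L] [Algebra K L] [IsScalarTower k K L] {h : K} {y : L}

omit [IsScalarTower k K L] [Field k] [Algebra k K] [Algebra k L] in
private theorem QdPB_y (hp2 : p ≠ 2) (T : IsTw 2 0 h y) (hh : h ≠ 0) (c : K) :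
    algebraMap K L c * y = y ^ p * algebraMap K L (c / h ^ ((p - 1) / 2)) := by
  have hh' : algebraMap K L h ≠ 0 := by
    rw [Ne, map_eq_zero]; exact hh
  have hodd := (Fact.out : p.Prime).eq_two_or_odd'
  have hy2 : y ^ 2 = algebraMap K L h := by
    have := T.eq
    rwa [map_zero, zero_mul, zero_add] at this
  obtain ⟨m, hm⟩ : ∃ m, p = 2 * m + 1 := by
    rcases hodd with h1 | h1
    · exact absurd h1 hp2
    · exact h1
  have h2 : (p - 1) / 2 = m := by omega
  have h3 : y ^ p = algebraMap K L h ^ m * y := by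
    rw [hm, pow_succ, pow_mul, hy2]
  rw [h2, h3, map_div₀, map_pow]
  field_simp

omit [IsScalarTower k K L] [Field k] [Algebra k K] [Algebra k L] in
private theorem QdPB_sum (T : IsTw 2 0 h y) (a : L) :
    algebraMap K L (T.co a 0) + algebraMap K L (T.co a 1) * y = a := by
  conv_rhs => rw [← T.sum_co a, Finset.sum_range_succ, Finset.sum_range_one, pow_zero, pow_one,
    mul_one]

theorem PB.of_Qd [CharP K p] (hp2 : p ≠ 2) (T : IsTw 2 0 h y) (hh : h ≠ 0) {s : K}
    {D : Derivation k K K} (hs : PB p s D) (D' : Derivation k L L)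
    (hD : ∀ a : K, D' (algebraMap K L a) = algebraMap K L (D a)) :
    PB p (algebraMap K L s) D' := by
  have : CharP L p := charP_of_injective_algebraMap (algebraMap K L).injective p
  refine ⟨by rw [hD, hs.D_s, map_one], fun a => ?_⟩
  obtain ⟨e0, he0⟩ := hs.span (T.co a 0)
  obtain ⟨e1, he1⟩ := hs.span (T.co a 1 / h ^ ((p - 1) / 2))
  refine ⟨fun j => algebraMap K L (e0 j) + y * algebraMap K L (e1 j), ?_⟩
  conv_lhs => rw [← QdPB_sum T a, QdPB_y hp2 T hh, he0, he1]
  rw [map_sum, map_sum, Finset.mul_sum, ← Finset.sum_add_distrib]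
  refine Finset.sum_congr rfl fun j _ => ?_
  rw [add_pow_char, mul_pow, map_mul, map_mul, map_pow, map_pow, map_pow]
  ring

private theorem QdPB_car_algebraMap [CharP K p] (hp2 : p ≠ 2) (T : IsTw 2 0 h y) (hh : h ≠ 0)
    {s : K} {D : Derivation k K K} (hs : PB p s D)
    (D' : Derivation k L L) (hD : ∀ a : K, D' (algebraMap K L a) = algebraMap K L (D a)) (a : K) :
    car p D' (algebraMap K L a) = algebraMap K L (car p D a) := by
  have : CharP L p := charP_of_injective_algebraMap (algebraMap K L).injective p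
  have hs' := PB.of_Qd hp2 T hh hs D' hD
  have hit : ∀ n : ℕ, D'^[n] (algebraMap K L a) = algebraMap K L (D^[n] a) := by
    intro n
    induction n with
    | zero => rfl
    | succ n ih => rw [Function.iterate_succ_apply', Function.iterate_succ_apply', ih, hD]
  have h1 : car p D' (algebraMap K L a) ^ p = (algebraMap K L (car p D a)) ^ p := by
    rw [hs'.car_pow, hit, ← map_neg, ← hs.car_pow, map_pow]
  exact frobenius_inj L p h1

theorem co_car_qd [CharP K p] (hp2 : p ≠ 2) (T : IsTw 2 0 h y) (hh : h ≠ 0) {s : K}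
    {D : Derivation k K K} (hs : PB p s D) (D' : Derivation k L L)
    (hD : ∀ a : K, D' (algebraMap K L a) = algebraMap K L (D a)) (a : L) :
    T.co (car p D' a) 0 = car p D (T.co a 0) ∧
      T.co (car p D' a) 1 = car p D (T.co a 1 / h ^ ((p - 1) / 2)) := by
  have : CharP L p := charP_of_injective_algebraMap (algebraMap K L).injective p
  have hs' := PB.of_Qd hp2 T hh hs D' hD
  have h1 : car p D' a = algebraMap K L (car p D (T.co a 0)) +
      algebraMap K L (car p D (T.co a 1 / h ^ ((p - 1) / 2))) * y := by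
    conv_lhs => rw [← QdPB_sum T a, QdPB_y hp2 T hh]
    rw [hs'.car_add, hs'.car_pow_mul, QdPB_car_algebraMap hp2 T hh hs D' hD,
      QdPB_car_algebraMap hp2 T hh hs D' hD, mul_comm y]
  have e0 : ∀ c : K, T.co (algebraMap K L c * y) 0 = 0 := fun c => by
    have := T.co_mul_w_pow c (j := 1) (by norm_num) 0
    simpa using this
  have e1 : ∀ c : K, T.co (algebraMap K L c * y) 1 = c := fun c => by
    have := T.co_mul_w_pow c (j := 1) (by norm_num) 1
    simpa using this
  rw [h1, T.co_add, T.co_add, e0, e1, T.co_algebraMap, T.co_algebraMap]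
  simp

end Pool.Agent.PRB
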