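import Pool.Agent.LibPRB.QdPB
import Pool.Agent.LibPRB.QdLoc
import Pool.Agent.LibPRB.FinS
import Pool.Agent.LibPRB.Lang

/-!
# Quadratic covers: function field, genus and fixed points of the Cartier operator

PLAN. `QdS.gf'`, `QdS.mem_regSp`: as TwReg.lean (`PB.of_Qd`, `disc_fin`, `exists_under_plc`, `diff_qd`, `fsupp_fin`, `qd_reg`).
`QdS.finrank`: as TwCnt.lean.
`QdS.card`: by `co_car_qd` the map `a ↦ (co a 0, co a 1)` is a bijection from the fixed points in `regSp D'` onto the product of the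
two sets (the conditions separate; `qdc h 0 = 0`: `polSp D (qdc h 0) = regSp D`); `Nat.card_prod`.
-/

set_option autoImplicit false

namespace Pool.Agent.PRB

variable {p : ℕ} [Fact p.Prime] {k K L : Type} [Field k] [IsAlgClosed k] [CharP k p] [Field K]
  [Field L] [Algebra k K] [Algebra k L] [Algebra K L] [IsScalarTower k K L] {s : K}
  {D : Derivation k K K} {h : K} {y : L} {D' : Derivation k L L}

theorem QdS.gf' (A : QdS p s D h y D') : GF p (algebraMap K L s) D' := by
  have : CharP K p := charP_of_injective_algebraMap (algebraMap k K).injective p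
  have hfin : Module.Finite K L := A.qd.finite
  refine ⟨PB.of_Qd A.p2 A.qd A.h0 A.gf.pb D' A.D_alg, disc_fin hfin A.gf.disc, fun Q => ?_,
    fsupp_fin hfin A.gf.disc A.gf.fsupp⟩
  obtain ⟨P, e, hQ⟩ := exists_under_plc hfin A.gf.disc Q
  obtain ⟨δ, hδ⟩ := A.gf.diff P
  exact diff_qd A.p2 A.qd A.h0 D D' A.D_alg hδ hQ

theorem QdS.mem_regSp (A : QdS p s D h y D') (a : L) :
    a ∈ regSp D' ↔ ∀ d < 2, A.qd.co a d ∈ polSp D (qdc h d) := by
  have : CharP K p := charP_of_injective_algebraMap (algebraMap k K).injective p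
  have hfin : Module.Finite K L := A.qd.finite
  rw [PRB.mem_regSp]
  constructor
  · intro ha d hd
    rw [mem_polSp]
    intro P δ hP
    exact (qd_reg A.p2 A.qd A.h0 D D' A.D_alg hP a).1 (fun Q _ δ' _ h' => ha Q δ' h') d hd
  · intro ha Q δ' hQ'
    obtain ⟨P, e, hQ⟩ := exists_under_plc hfin A.gf.disc Q
    obtain ⟨δ, hP⟩ := A.gf.diff P
    exact (qd_reg A.p2 A.qd A.h0 D D' A.D_alg hP a).2
      (fun d hd => mem_polSp.1 (ha d hd) P δ hP) Q e δ' hQ hQ'

omit [IsAlgClosed k] in
private theorem QdReg_co_smul (T : IsTw 2 0 h y) (r : k) (a : L) (i : ℕ) :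
    T.co (r • a) i = r • T.co a i := by
  have h : r • a = algebraMap K L (algebraMap k K r) * a := by
    rw [← IsScalarTower.algebraMap_apply, Algebra.smul_def]
  rw [h, T.co_mul, Algebra.smul_def]

omit [IsAlgClosed k] in
/-- A subspace given by conditions on the coefficients is the product of the spaces of
coefficients. -/
private theorem QdReg_equiv (T : IsTw 2 0 h y) (V : Submodule k L) (W : ℕ → Submodule k K)
    (hV : ∀ a, a ∈ V ↔ ∀ d < 2, T.co a d ∈ W d) :
    Nonempty (V ≃ₗ[k] (∀ d : Fin 2, W (d : ℕ))) := by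
  classical
  let f : V →ₗ[k] (∀ d : Fin 2, W (d : ℕ)) :=
    { toFun := fun a d => ⟨T.co (a : L) d, (hV a).1 a.2 d d.2⟩
      map_add' := fun a b => by
        funext d
        apply Subtype.ext
        exact T.co_add _ _ _
      map_smul' := fun r a => by
        funext d
        apply Subtype.ext
        exact QdReg_co_smul T r _ _ }
  have hf : ∀ (a : V) (d : Fin 2), ((f a d : W (d : ℕ)) : K) = T.co (a : L) d :=
    fun a d => rfl
  refine ⟨LinearEquiv.ofBijective f ⟨?_, ?_⟩⟩
  · intro a b hab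
    apply Subtype.ext
    apply T.ext
    intro i hi
    have h1 := congrFun hab ⟨i, hi⟩
    have h2 := congrArg Subtype.val h1
    exact h2
  · intro c
    let c' : ℕ → K := fun i => if h : i < 2 then (c ⟨i, h⟩ : K) else 0
    have hc' : ∀ (i : ℕ) (hi : i < 2), c' i = (c ⟨i, hi⟩ : K) := fun i hi => dif_pos hi
    let a : L := ∑ i ∈ Finset.range 2, algebraMap K L (c' i) * y ^ i
    have hco : ∀ i < 2, T.co a i = c' i := fun i hi => T.co_eq_of_lt rfl hi
    have ha : a ∈ V := by
      rw [hV]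
      intro d hd
      rw [hco d hd, hc' d hd]
      exact (c ⟨d, hd⟩).2
    refine ⟨⟨a, ha⟩, ?_⟩
    funext d
    apply Subtype.ext
    rw [hf]
    change T.co a d = _
    rw [hco d d.2, hc' d d.2]

theorem QdS.finrank (A : QdS p s D h y D')
    (hfin : ∀ d < 2, Module.Finite k (polSp D (qdc h d))) :
    Module.finrank k (regSp D') =
      Module.finrank k (polSp D (qdc h 0)) + Module.finrank k (polSp D (qdc h 1)) := by
  obtain ⟨e⟩ := QdReg_equiv A.qd (regSp D') (fun d => polSp D (qdc h d))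
    (fun a => A.mem_regSp a)
  have h1 : ∀ d : Fin 2, Module.Finite k (polSp D (qdc h (d : ℕ))) := fun d => hfin d d.2
  rw [e.finrank_eq, Module.finrank_pi_fintype, Fin.sum_univ_two]
  rfl

theorem QdS.card (A : QdS p s D h y D') :
    Nat.card {a : L // a ∈ regSp D' ∧ car p D' a = a} =
      Nat.card {c : K // c ∈ polSp D (qdc h 0) ∧ car p D c = c} *
      Nat.card {c : K // c ∈ polSp D (qdc h 1) ∧ car p D (c / h ^ ((p - 1) / 2)) = c} := by
  have : CharP K p := charP_of_injective_algebraMap (algebraMap k K).injective p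
  have hcar := co_car_qd A.p2 A.qd A.h0 A.gf.pb D' A.D_alg
  rw [← Nat.card_prod]
  let b : K → K → L := fun c0 c1 =>
    ∑ i ∈ Finset.range 2, algebraMap K L (if i = 0 then c0 else c1) * y ^ i
  have hb : ∀ (c0 c1 : K) (i : ℕ), i < 2 → A.qd.co (b c0 c1) i = if i = 0 then c0 else c1 :=
    fun c0 c1 i hi => A.qd.co_eq_of_lt (c := fun i => if i = 0 then c0 else c1) rfl hi
  have hb0 : ∀ c0 c1, A.qd.co (b c0 c1) 0 = c0 := fun c0 c1 => by
    rw [hb c0 c1 0 (by norm_num), if_pos rfl]
  have hb1 : ∀ c0 c1, A.qd.co (b c0 c1) 1 = c1 := fun c0 c1 => by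
    rw [hb c0 c1 1 (by norm_num), if_neg one_ne_zero]
  refine Nat.card_congr
    ⟨fun a => (⟨A.qd.co a.1 0, (A.mem_regSp a.1).1 a.2.1 0 (by norm_num), ?_⟩,
        ⟨A.qd.co a.1 1, (A.mem_regSp a.1).1 a.2.1 1 (by norm_num), ?_⟩),
      fun c => ⟨b c.1.1 c.2.1, (A.mem_regSp _).2 ?_, ?_⟩, ?_, ?_⟩
  · rw [← (hcar a.1).1, a.2.2]
  · rw [← (hcar a.1).2, a.2.2]
  · intro d hd
    have h2 : d = 0 ∨ d = 1 := by omega
    rcases h2 with rfl | rfl
    · rw [hb0]
      exact c.1.2.1
    · rw [hb1]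
      exact c.2.2.1
  · apply A.qd.ext
    intro d hd
    have h2 : d = 0 ∨ d = 1 := by omega
    rcases h2 with rfl | rfl
    · rw [(hcar _).1, hb0, c.1.2.2]
    · rw [(hcar _).2, hb1, c.2.2.2]
  · intro a
    apply Subtype.ext
    apply A.qd.ext
    intro d hd
    have h2 : d = 0 ∨ d = 1 := by omega
    rcases h2 with rfl | rfl
    · exact hb0 _ _
    · exact hb1 _ _
  · intro c
    exact Prod.ext (Subtype.ext (hb0 _ _)) (Subtype.ext (hb1 _ _))

end Pool.Agent.PRB
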