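import Pool.Agent.LibPRB.Base
import Pool.Agent.LibPRB.GF

/-!
# The rational function field: places and differentials

PLAN.  Everything is contained in the proof of `exists_base` (Base.lean): there `Base_IsC P c` says that
`P` is the place `X = c` and `Base_IsInf P` that it is the place at infinity.
`ratD_C`: order of `dX` at `X = c`: `0`; `ratD_I`: at infinity `-2` (uniformizer `X⁻¹`, `D X⁻¹ = -X⁻¹ ^ 2`;
`Base_IsInf.ge_deriv` for the boundedness: for `a = f / g` with `Q.ge 0 a` ...; use `isDiff_of`).
`rat_gf`: `pb` is `ratD_pb`; `disc`: `ratFunc_disc`; `diff`: `pl_class`; `fsupp`: `Base_finite_poly` for the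
numerator and the denominator.
-/

set_option autoImplicit false

namespace Pool.Agent.PRB

section defs

variable {k : Type} [Field k] [IsAlgClosed k]

/-- The place `X = c` of `k(X)`. -/
noncomputable def plC (c : k) : Plc k (RatFunc k) := (exists_plc_C c).choose

/-- The place at infinity of `k(X)`. -/
noncomputable def plI (k : Type) [Field k] [IsAlgClosed k] : Plc k (RatFunc k) :=
  (exists_plc_inf (k := k)).choose

theorem plC_spec (c : k) : Base_IsC (plC c) c := (exists_plc_C c).choose_spec

theorem plI_spec : Base_IsInf (plI k) := (exists_plc_inf (k := k)).choose_spec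

theorem pl_class (P : Plc k (RatFunc k)) : (∃ c, P = plC c) ∨ P = plI k := by
  rcases Base_class P with ⟨c, hc⟩ | h
  · exact Or.inl ⟨c, hc.eq (plC_spec c)⟩
  · exact Or.inr (h.eq plI_spec)

theorem plC_ne_plI (c : k) : plC c ≠ plI k := (plC_spec c).ne_inf plI_spec

theorem plC_inj {c c' : k} (h : plC c = plC c') : c = c' := by
  have h1 := (plC_spec c).val_X
  have h2 := (plC_spec c').val_X
  rw [h] at h1
  exact h1.symm.trans h2

/-- `∏ (X - c) ^ (m c)` -/
noncomputable def ratProd (R : Finset k) (m : k → ℤ) : RatFunc k :=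
  ∏ c ∈ R, (algebraMap (Polynomial k) (RatFunc k) (Polynomial.X - Polynomial.C c)) ^ (m c)

end defs

variable {p : ℕ} [Fact p.Prime] {k : Type} [Field k] [IsAlgClosed k] [CharP k p]

/-- `d/dX` -/
noncomputable def ratD (p : ℕ) [Fact p.Prime] (k : Type) [Field k] [IsAlgClosed k] [CharP k p] :
    Derivation k (RatFunc k) (RatFunc k) := (ratFunc_deriv (p := p) (k := k)).choose

theorem ratD_pb : PB p (RatFunc.X : RatFunc k) (ratD p k) :=
  (ratFunc_deriv (p := p) (k := k)).choose_spec.1

theorem ratD_alg (f : Polynomial k) : ratD p k (algebraMap _ (RatFunc k) f) =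
    algebraMap _ (RatFunc k) (Polynomial.derivative f) :=
  (ratFunc_deriv (p := p) (k := k)).choose_spec.2 f

private theorem RatG_div (a : RatFunc k) : ratD p k a = (algebraMap _ _ a.denom)⁻¹ ^ 2 *
    (algebraMap _ _ a.denom * algebraMap _ _ (Polynomial.derivative a.num) -
      algebraMap _ _ a.num * algebraMap _ _ (Polynomial.derivative a.denom)) := by
  conv_lhs => rw [← RatFunc.num_div_denom a]
  rw [Derivation.leibniz_div, ratD_alg, ratD_alg, smul_eq_mul, smul_eq_mul, smul_eq_mul]

theorem ratD_C (c : k) : IsDiff (plC c) (ratD p k) 0 := by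
  have hc : Base_IsC (plC c) c := plC_spec c
  refine ⟨?_, ?_⟩
  · intro a ha
    rw [RatG_div a]
    have h3 : (plC c).ge 0 ((algebraMap _ (RatFunc k) a.denom)⁻¹ ^ 2) := by
      right
      rw [(plC c).ord_pow, (plC c).ord_inv, hc.ord_denom ha]
      norm_num
    have h4 := (plC c).ge_mul (hc.ge_poly a.denom) (hc.ge_poly (Polynomial.derivative a.num))
    have h5 := (plC c).ge_mul (hc.ge_poly a.num) (hc.ge_poly (Polynomial.derivative a.denom))
    have h6 := (plC c).ge_mul h3 ((plC c).ge_sub h4 h5)
    simpa using h6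
  · refine ⟨algebraMap _ _ (Polynomial.X - Polynomial.C c),
      Base_alg_ne (Polynomial.X_sub_C_ne_zero c), ?_, ?_, ?_⟩
    · rw [hc _ (Polynomial.X_sub_C_ne_zero c), Polynomial.rootMultiplicity_X_sub_C_self]
      rfl
    · rw [ratD_alg]; simp
    · rw [ratD_alg]; simp [(plC c).ord_one]

theorem ratD_I : IsDiff (plI k) (ratD p k) (-2) := by
  have hQ : Base_IsInf (plI k) := plI_spec
  apply isDiff_of
  · intro a ha
    by_cases ha0 : a = 0
    · left; rw [ha0, map_zero]
    rw [(plI k).ge_iff ha0, Base_ord (plI k) ha0, hQ _ (RatFunc.num_ne_zero ha0),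
      hQ _ (RatFunc.denom_ne_zero a)] at ha
    rw [RatG_div a]
    have h2 : (plI k).ge (-(a.denom.natDegree : ℤ) - a.num.natDegree + 1)
        (algebraMap _ (RatFunc k) a.denom * algebraMap _ _ (Polynomial.derivative a.num) -
          algebraMap _ _ a.num * algebraMap _ _ (Polynomial.derivative a.denom)) := by
      apply (plI k).ge_sub
      · exact ((plI k).ge_mul (hQ.ge_poly a.denom) (hQ.ge_deriv a.num)).mono (by omega)
      · exact ((plI k).ge_mul (hQ.ge_poly a.num) (hQ.ge_deriv a.denom)).mono (by omega)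
    have h3 : (plI k).ge (2 * a.denom.natDegree : ℤ)
        ((algebraMap _ (RatFunc k) a.denom)⁻¹ ^ 2) := by
      right
      rw [(plI k).ord_pow, (plI k).ord_inv, hQ _ (RatFunc.denom_ne_zero a)]
      push_cast
      linarith
    exact ((plI k).ge_mul h3 h2).mono (by push_cast; omega)
  · refine ⟨RatFunc.X⁻¹, inv_ne_zero RatFunc.X_ne_zero, ?_, ?_, ?_⟩
    · rw [(plI k).ord_inv, hQ.ord_X]; rfl
    · rw [Derivation.leibniz_inv, (ratD_pb (p := p) (k := k)).D_s]
      simp [RatFunc.X_ne_zero]
    · rw [Derivation.leibniz_inv, (ratD_pb (p := p) (k := k)).D_s, smul_eq_mul, mul_one,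
        (plI k).ord_neg, (plI k).ord_pow, (plI k).ord_inv, hQ.ord_X]
      norm_num

theorem rat_gf : GF p (RatFunc.X : RatFunc k) (ratD p k) := by
  refine ⟨ratD_pb, fun O hO => (ratFunc_disc O hO).imp fun P h => h.1, ?_, ?_⟩
  · intro P
    rcases pl_class P with ⟨c, rfl⟩ | rfl
    · exact ⟨0, ratD_C c⟩
    · exact ⟨-2, ratD_I⟩
  · intro a ha
    have hQ : Base_IsInf (plI k) := plI_spec
    have h1 := Base_finite_poly a.num (RatFunc.num_ne_zero ha) (plI k) hQ
    have h2 := Base_finite_poly a.denom (RatFunc.denom_ne_zero a) (plI k) hQ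
    refine ((h1.union h2).union (Set.finite_singleton (plI k))).subset ?_
    intro P hP
    by_cases hPQ : P = plI k
    · exact Or.inr hPQ
    left
    by_contra h3
    apply hP
    rw [Base_ord P ha]
    have h4 : P.ord (algebraMap _ _ a.num) = 0 := by
      by_contra h; exact h3 (Or.inl ⟨h, hPQ⟩)
    have h5 : P.ord (algebraMap _ _ a.denom) = 0 := by
      by_contra h; exact h3 (Or.inr ⟨h, hPQ⟩)
    rw [h4, h5, sub_zero]

end Pool.Agent.PRB
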