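import Pool.Agent.LibPRB.GF

/-!
# Twisted Artin–Schreier covers `w ^ p = h w + v`: definitions
-/

set_option autoImplicit false

namespace Pool.Agent.PRB

/-- `L = K(w)` with `w ^ p = h w + v`, of degree `p` over `K`. -/
structure IsTw (p : ℕ) {K L : Type} [Field K] [Field L] [Algebra K L] (h v : K) (w : L) :
    Prop where
  eq : w ^ p = algebraMap K L h * w + algebraMap K L v
  repr : ∀ a : L, ∃ c : ℕ → K, a = ∑ i ∈ Finset.range p, algebraMap K L (c i) * w ^ i
  indep : ∀ c : ℕ → K, ∑ i ∈ Finset.range p, algebraMap K L (c i) * w ^ i = 0 → ∀ i < p, c i = 0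

open Classical in
/-- The coefficients of `a` with respect to the basis `w ^ i`, `i < p`. -/
noncomputable def IsTw.co {p : ℕ} {K L : Type} [Field K] [Field L] [Algebra K L] {h v : K} {w : L}
    (T : IsTw p h v w) (a : L) (i : ℕ) : K :=
  if i < p then (T.repr a).choose i else 0

section places

variable {k K L : Type} [Field k] [Field K] [Field L] [Algebra k K] [Algebra k L] [Algebra K L]

/-- The place `Q` of `L` lies over the place `P` of `K` with ramification index `e`. -/
def OverE (e : ℕ) (Q : Plc k L) (P : Plc k K) : Prop :=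
  0 < e ∧ ∀ a : K, Q.ord (algebraMap K L a) = e * P.ord a

/-- The invariant `D_P = p ord h - (p - 1) ord v` of the cover `w ^ p = h w + v` at `P`. -/
def twD (p : ℕ) (h v : K) (P : Plc k K) : ℤ := p * P.ord h - (p - 1) * P.ord v

/-- `⌈a / n⌉` -/
def cdiv (a n : ℤ) : ℤ := -((-a) / n)

open Classical in
/-- The order of pole at `P` allowed for the coefficient of `w ^ d` of a regular differential of
the cover `w ^ p = h w + v`. -/
noncomputable def twc (p : ℕ) (h v : K) (d : ℕ) (P : Plc k K) : ℤ :=
  if 0 < twD p h v P then ((p - 1) + twD p h v P + d * P.ord v) / p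
  else cdiv (d * P.ord h) (p - 1)

open Classical in
/-- The order of pole at `P` of the logarithmic differentials. -/
noncomputable def twl (p : ℕ) (h v : K) (d : ℕ) (P : Plc k K) : ℤ :=
  if 0 < twD p h v P then 1 + (d * P.ord h) / (p - 1)
  else cdiv (d * P.ord h) (p - 1)

/-- The differentials `a ds` with poles of order at most `E P` at all places `P`. -/
def polSp (D : Derivation k K K) (E : Plc k K → ℤ) : Submodule k K where
  carrier := {a | ∀ (P : Plc k K) (δ : ℤ), IsDiff P D δ → P.ge (-δ - E P) a}
  add_mem' := fun ha hb P δ h => P.ge_add (ha P δ h) (hb P δ h)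
  zero_mem' := fun P _ _ => P.ge_zero _
  smul_mem' := fun c _ ha P δ h => P.ge_smul c (ha P δ h)

theorem mem_polSp {D : Derivation k K K} {E : Plc k K → ℤ} {a : K} :
    a ∈ polSp D E ↔ ∀ (P : Plc k K) (δ : ℤ), IsDiff P D δ → P.ge (-δ - E P) a := Iff.rfl

end places

end Pool.Agent.PRB
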