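import Pool.Agent.LibPRB.RatP
import Pool.Agent.LibPRB.TwD

/-!
# The rational function field: spaces of differentials with given poles

PLAN.
`rat_polSp`: let `u = ratProd R (fun c => E (plC c))` (`ratProd_ordC`, `ratProd_ordI`), `b = a * u`.
By `pl_class`, `ratD_C`, `ratD_I`, `IsDiff.unique`: `a ∈ polSp` iff `(plC c).ge (-E (plC c)) a` for all `c` and
`(plI k).ge (2 - E (plI k)) a`, i.e. iff `(plC c).ge 0 b` for all `c` and
`(plI k).ge (2 - E (plI k) - ∑ c ∈ R, E (plC c)) b`.  By `Base_poly` `b = algebraMap B`, and for `B ≠ 0` the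
condition at infinity is `B.natDegree ≤ ∑ E + E (plI k) - 2` (`plI_spec`), i.e. `natDegree B < N`.
`rat_finrank`: the linear map `B ↦ algebraMap B * u⁻¹` from `Polynomial.degreeLT k N` is injective with
image `polSp`; `LinearEquiv.ofBijective`, `Polynomial.degreeLTEquiv`, `finrank (Fin N → k) = N`.
-/

set_option autoImplicit false

namespace Pool.Agent.PRB

variable {p : ℕ} [Fact p.Prime] {k : Type} [Field k] [IsAlgClosed k] [CharP k p]

theorem RatN_cond (E : Plc k (RatFunc k) → ℤ) (a : RatFunc k) : a ∈ polSp (ratD p k) E ↔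
    (∀ c, (plC c).ge (-E (plC c)) a) ∧ (plI k).ge (2 - E (plI k)) a := by
  rw [mem_polSp]
  constructor
  · intro h
    refine ⟨fun c => ?_, ?_⟩
    · have h1 := h (plC c) 0 (ratD_C c)
      rwa [neg_zero, zero_sub] at h1
    · have h1 := h (plI k) (-2) ratD_I
      rwa [neg_neg] at h1
  · rintro ⟨h1, h2⟩ P δ hδ
    rcases pl_class P with ⟨c, rfl⟩ | rfl
    · rw [hδ.unique (ratD_C c), neg_zero, zero_sub]
      exact h1 c
    · rw [hδ.unique ratD_I, neg_neg]
      exact h2

omit [Fact p.Prime] [CharP k p] in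
theorem RatN_inf (B : Polynomial k) (N : ℤ) :
    (plI k).ge (1 - N) (algebraMap _ (RatFunc k) B) ↔ B.degree < (N.toNat : ℕ) := by
  by_cases hB : B = 0
  · rw [hB, map_zero, Polynomial.degree_zero]
    exact ⟨fun _ => WithBot.bot_lt_coe _, fun _ => Plc.ge_zero _ _⟩
  · rw [Plc.ge_iff _ (Base_alg_ne hB), plI_spec B hB, Polynomial.degree_eq_natDegree hB,
      Nat.cast_lt]
    omega

theorem rat_polSp (R : Finset k) (E : Plc k (RatFunc k) → ℤ) (hE : ∀ c ∉ R, E (plC c) = 0)
    (a : RatFunc k) : a ∈ polSp (ratD p k) E ↔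
      ∃ B : Polynomial k, B.degree < (((∑ c ∈ R, E (plC c)) + E (plI k) - 1).toNat : ℕ) ∧
        a = algebraMap _ (RatFunc k) B * ratProd R (fun c => -E (plC c)) := by
  set u : RatFunc k := ratProd R (fun c => -E (plC c)) with hu
  have hu0 : u ≠ 0 := ratProd_ne R _
  have huC : ∀ c, (plC c).ord u = -E (plC c) := fun c =>
    ratProd_ordC R _ (fun c hc => by rw [hE c hc, neg_zero]) c
  have huI : (plI k).ord u = ∑ c ∈ R, E (plC c) := by
    rw [hu, ratProd_ordI, Finset.sum_neg_distrib, neg_neg]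
  have hC : ∀ (c : k) (b : RatFunc k), (plC c).ge (-E (plC c)) (u * b) ↔ (plC c).ge 0 b := by
    intro c b
    rw [Plc.ge_mul_iff _ hu0, huC, sub_self]
  have hI : ∀ b : RatFunc k, (plI k).ge (2 - E (plI k)) (u * b) ↔
      (plI k).ge (1 - ((∑ c ∈ R, E (plC c)) + E (plI k) - 1)) b := by
    intro b
    rw [Plc.ge_mul_iff _ hu0, huI]
    have h1 : 2 - E (plI k) - ∑ c ∈ R, E (plC c) =
        1 - ((∑ c ∈ R, E (plC c)) + E (plI k) - 1) := by ring
    rw [h1]
  rw [RatN_cond]
  constructor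
  · rintro ⟨h1, h2⟩
    have h3 : a = u * (u⁻¹ * a) := (mul_inv_cancel_left₀ hu0 a).symm
    obtain ⟨f, hf⟩ := Base_poly plI_spec (u⁻¹ * a) (by
      intro P hP
      rcases pl_class P with ⟨c, rfl⟩ | rfl
      · rw [← hC c, ← h3]
        exact h1 c
      · exact absurd rfl hP)
    refine ⟨f, ?_, ?_⟩
    · rw [← RatN_inf, hf, ← hI, ← h3]
      exact h2
    · rw [hf, mul_comm, ← h3]
  · rintro ⟨B, hB, rfl⟩
    refine ⟨fun c => ?_, ?_⟩
    · rw [mul_comm, hC]
      exact (plC_spec c).ge_poly B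
    · rw [mul_comm, hI, RatN_inf]
      exact hB

theorem rat_finrank (R : Finset k) (E : Plc k (RatFunc k) → ℤ) (hE : ∀ c ∉ R, E (plC c) = 0) :
    Module.Finite k (polSp (ratD p k) E) ∧ Module.finrank k (polSp (ratD p k) E) =
      ((∑ c ∈ R, E (plC c)) + E (plI k) - 1).toNat := by
  set N : ℕ := ((∑ c ∈ R, E (plC c)) + E (plI k) - 1).toNat with hN
  set u : RatFunc k := ratProd R (fun c => -E (plC c)) with hu
  have hu0 : u ≠ 0 := ratProd_ne R _
  let f : Polynomial.degreeLT k N →ₗ[k] RatFunc k :=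
    (LinearMap.mulRight k u).comp ((IsScalarTower.toAlgHom k (Polynomial k)
      (RatFunc k)).toLinearMap.comp (Polynomial.degreeLT k N).subtype)
  have hf : ∀ B, f B = algebraMap _ (RatFunc k) (B : Polynomial k) * u := fun B => rfl
  have hinj : Function.Injective f := by
    intro B B' h
    rw [hf, hf] at h
    exact Subtype.ext (IsFractionRing.injective (Polynomial k) (RatFunc k)
      (mul_right_cancel₀ hu0 h))
  have hrange : LinearMap.range f = polSp (ratD p k) E := by
    ext a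
    rw [LinearMap.mem_range, rat_polSp R E hE]
    constructor
    · rintro ⟨B, rfl⟩
      exact ⟨B, Polynomial.mem_degreeLT.1 B.2, rfl⟩
    · rintro ⟨B, hB, rfl⟩
      exact ⟨⟨B, Polynomial.mem_degreeLT.2 hB⟩, rfl⟩
  have e : (Fin N → k) ≃ₗ[k] polSp (ratD p k) E :=
    (Polynomial.degreeLTEquiv k N).symm.trans
      ((LinearEquiv.ofInjective f hinj).trans (LinearEquiv.ofEq _ _ hrange))
  refine ⟨Module.Finite.equiv e, ?_⟩
  rw [← e.finrank_eq, Module.finrank_fin_fun]

end Pool.Agent.PRB
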