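import Pool.Agent.LibPRB.RatG

/-!
# The rational function field: the products `∏ (X - c) ^ (m c)`

PLAN. `ratProd_ne`: `Finset.prod_ne_zero_iff`, `zpow_ne_zero`, `Base_alg_ne`.  Orders: induction on `R`
with `Plc.ord_mul`, `Plc.ord_zpow`, `plC_spec`, `plI_spec` (`rootMultiplicity_X_sub_C`, `natDegree_X_sub_C`).
`ratProd_phi`: `φ` maps `algebraMap (X - C c)` to `algebraMap (X - C (c ^ p))` (`hφc`, `hφX`); the map
`c ↦ c ^ p` is a bijection of `R` (injective, `R` finite): `Finset.prod_bij` or
`Finset.prod_image`/`Finset.eq_of_subset_of_card_le`.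
`rat_transc`, `rat_fin`: `X` is transcendental (`RatFunc.transcendental_X`, or `Quot_transc (plI k)`), and
`IntermediateField.adjoin k {X} = ⊤` (`RatFunc.adjoin_X` or from `RatFunc.num_div_denom`).
-/

set_option autoImplicit false

namespace Pool.Agent.PRB

variable {k : Type} [Field k] [IsAlgClosed k]

private theorem RatP_ord_prod (P : Plc k (RatFunc k)) (R : Finset k) (f : k → RatFunc k)
    (hf : ∀ c, f c ≠ 0) (m : k → ℤ) :
    P.ord (∏ c ∈ R, f c ^ m c) = ∑ c ∈ R, m c * P.ord (f c) := by
  classical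
  induction R using Finset.induction_on with
  | empty => simp [P.ord_one]
  | insert a R ha ih =>
    rw [Finset.prod_insert ha, Finset.sum_insert ha, P.ord_mul (zpow_ne_zero _ (hf a))
      (Finset.prod_ne_zero_iff.2 fun c _ => zpow_ne_zero _ (hf c)), P.ord_zpow, ih]

private theorem RatP_ne (c : k) :
    algebraMap (Polynomial k) (RatFunc k) (Polynomial.X - Polynomial.C c) ≠ 0 :=
  Base_alg_ne (Polynomial.X_sub_C_ne_zero c)

theorem ratProd_ne (R : Finset k) (m : k → ℤ) : ratProd R m ≠ 0 := by
  unfold ratProd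
  exact Finset.prod_ne_zero_iff.2 fun c _ => zpow_ne_zero _ (RatP_ne c)

theorem ratProd_ordC (R : Finset k) (m : k → ℤ) (hm : ∀ c ∉ R, m c = 0) (c : k) :
    (plC c).ord (ratProd R m) = m c := by
  classical
  unfold ratProd
  rw [RatP_ord_prod _ _ _ RatP_ne]
  have h1 : ∀ c' ∈ R, m c' * (plC c).ord (algebraMap (Polynomial k) (RatFunc k)
      (Polynomial.X - Polynomial.C c')) = if c = c' then m c' else 0 := by
    intro c' _
    rw [plC_spec c _ (Polynomial.X_sub_C_ne_zero c'), Polynomial.rootMultiplicity_X_sub_C]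
    split_ifs <;> simp
  rw [Finset.sum_congr rfl h1, Finset.sum_ite_eq]
  split_ifs with h
  · rfl
  · exact (hm c h).symm

theorem ratProd_ordI (R : Finset k) (m : k → ℤ) :
    (plI k).ord (ratProd R m) = -∑ c ∈ R, m c := by
  unfold ratProd
  rw [RatP_ord_prod _ _ _ RatP_ne, ← Finset.sum_neg_distrib]
  refine Finset.sum_congr rfl fun c _ => ?_
  rw [plI_spec _ (Polynomial.X_sub_C_ne_zero c), Polynomial.natDegree_X_sub_C]
  simp

theorem ratProd_phi (p : ℕ) [Fact p.Prime] [CharP k p] (R : Finset k) (m : k → ℤ)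
    (hR : ∀ c ∈ R, c ^ p ∈ R) (hm : ∀ c ∈ R, m (c ^ p) = m c) (φ : RatFunc k →+* RatFunc k)
    (hφX : φ RatFunc.X = RatFunc.X) (hφc : ∀ c : k, φ (algebraMap k _ c) = algebraMap k _ (c ^ p)) :
    φ (ratProd R m) = ratProd R m := by
  classical
  have hinj : Function.Injective fun c : k => c ^ p := by
    intro a b h
    have h1 : a ^ p = b ^ p := h
    have h2 : (a - b) ^ p = 0 := by
      rw [sub_pow_char, h1, sub_self]
    exact sub_eq_zero.1 (pow_eq_zero_iff (Fact.out : p.Prime).ne_zero |>.1 h2)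
  have himg : R.image (fun c : k => c ^ p) = R := by
    apply Finset.eq_of_subset_of_card_le
    · intro x hx
      obtain ⟨c, hc, rfl⟩ := Finset.mem_image.1 hx
      exact hR c hc
    · rw [Finset.card_image_of_injective _ hinj]
  unfold ratProd
  rw [map_prod]
  conv_rhs => rw [← himg]
  rw [Finset.prod_image (fun a _ b _ h => hinj h)]
  refine Finset.prod_congr rfl fun c hc => ?_
  rw [map_zpow₀, hm c hc]
  congr 1
  rw [map_sub, map_sub, map_sub, Base_alg_X, ← Base_alg_const, ← Base_alg_const, hφX, hφc]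

theorem rat_transc : Transcendental k (RatFunc.X : RatFunc k) := by
  exact RatFunc.transcendental_X

theorem rat_fin : Module.Finite (IntermediateField.adjoin k {(RatFunc.X : RatFunc k)})
    (RatFunc k) := by
  rw [RatFunc.adjoin_X]
  apply Module.finite_of_finrank_pos
  rw [IntermediateField.finrank_top]
  exact one_pos

end Pool.Agent.PRB
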