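import Pool.Agent.LibPRB.ASDr

/-! # Steps without finite poles: differentials and regular functions -/

set_option autoImplicit false

namespace Pool.Agent.PRB

namespace ASD

variable {p : ℕ} [Fact p.Prime] {k : Type} [Field k] [IsAlgClosed k] [CharP k p] {ζ : k}
  {K : Type} [Field K] [Algebra k K] {Λ : Lad p ζ K} {g : K} {N : ℕ}
  {L : Type} [Field L] [Algebra k L] [Algebra K L] [IsScalarTower k K L] {z : L}

theorem StepA_under (A : ASD Λ g N L z) (hreg : ∀ P, P ≠ Λ.inf → P.ge 0 g) (Q : Plc k L)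
    (hQ : Q ≠ A.inf) : ∃ P : Plc k K, P ≠ Λ.inf ∧ P.ge 0 g ∧ OverEt Q P := by
  have hNP := A.N_pos
  obtain ⟨P, hP⟩ := A.exists_under Q
  have hPinf : P ≠ Λ.inf := by
    rintro rfl
    rcases hP with ⟨hg, -⟩ | ⟨-, hram⟩
    · rcases hg with hg | hg
      · have := A.g_inf
        rw [hg, Plc.ord_zero] at this
        omega
      · rw [A.g_inf] at hg
        omega
    · apply hQ
      rw [A.eq_inf_iff, hram.1]
      have h1 := Λ.inf_s
      have h2 : (0 : ℤ) < p := by exact_mod_cast (Fact.out : p.Prime).pos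
      exact mul_neg_of_pos_of_neg h2 h1
  refine ⟨P, hPinf, hreg P hPinf, ?_⟩
  rcases hP with ⟨-, h⟩ | ⟨hneg, -⟩
  · exact h
  · exfalso
    rcases hreg P hPinf with h | h
    · rw [h, Plc.ord_zero] at hneg
      omega
    · omega

theorem fin_diff (A : ASD Λ g N L z) (hreg : ∀ P, P ≠ Λ.inf → P.ge 0 g) (Q : Plc k L)
    (hQ : Q ≠ A.inf) : IsDiff Q A.D 0 := by
  obtain ⟨P, hP, hg, hQP⟩ := A.StepA_under hreg Q hQ
  exact diff_et A.as P hg Λ.D A.D A.D_alg (Λ.fin_diff P hP) Q hQP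

theorem inf_diff (A : ASD Λ g N L z) :
    IsDiff A.inf A.D ((p * Λ.gam + (p - 1) * (N - 1) : ℕ) - 2) := by
  have hN := A.N_pos
  have hp1 : 1 ≤ p := (Fact.out : p.Prime).one_lt.le
  have h1 : Λ.inf.ord g < 0 := by rw [A.g_inf]; omega
  have h2 : ¬ (p : ℤ) ∣ Λ.inf.ord g := by
    rw [A.g_inf, Int.dvd_neg]
    intro h
    exact A.N_p (Int.natCast_dvd_natCast.mp h)
  have h3 := diff_ram A.as Λ.inf h1 h2 Λ.D A.D A.D_alg A.D_z Λ.inf_diff A.inf A.inf_over
  rw [A.g_inf] at h3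
  have h4 : ((p * Λ.gam + (p - 1) * (N - 1) : ℕ) : ℤ) - 2
      = p * ((Λ.gam : ℤ) - 2) + (p - 1) * (1 - -(N : ℤ)) := by
    push_cast [Nat.cast_sub hp1, Nat.cast_sub (show 1 ≤ N from hN)]
    ring
  rw [h4]
  exact h3

theorem reg_iff (A : ASD Λ g N L z) (hreg : ∀ P, P ≠ Λ.inf → P.ge 0 g) (a : L) :
    (∀ Q, Q ≠ A.inf → Q.ge 0 a) ↔ ∀ d < p, ∀ P, P ≠ Λ.inf → P.ge 0 (A.as.co a d) := by
  constructor
  · intro h d _ P hP
    have hg := hreg P hP
    refine (et_coeff A.as P hg 0 a).mp ?_ d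
    intro Q hQ
    apply h
    rw [Ne, A.eq_inf_iff, hQ]
    rcases Λ.fin_s P hP with h0 | h0
    · rw [h0, Plc.ord_zero]; omega
    · omega
  · intro h Q hQ
    obtain ⟨P, hP, hg, hQP⟩ := A.StepA_under hreg Q hQ
    refine (et_coeff A.as P hg 0 a).mpr ?_ Q hQP
    intro i
    rcases lt_or_ge i p with hi | hi
    · exact h i hi P hP
    · rw [A.as.co_of_le a hi]
      exact P.ge_zero 0

end ASD

end Pool.Agent.PRB
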