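import Pool.Agent.LibPRB.StepA
import Pool.Agent.LibPRB.ASDw

/-! # Steps without finite poles: pole orders -/

set_option autoImplicit false

namespace Pool.Agent.PRB

theorem StepP_num {p γ N n : ℕ} (hp : p.Prime) (hN : 0 < N) (hpN : ¬ p ∣ N)
    (hn : p * γ + (p - 1) * (N - 1) ≤ n) : ∃ i m : ℕ, i < p ∧ γ ≤ m ∧ n = p * m + i * N := by
  have hp0 : 0 < p := hp.pos
  have hcop : Nat.Coprime N p := (Nat.Prime.coprime_iff_not_dvd hp).mpr hpN |>.symm
  obtain ⟨i, hi, hiN⟩ := Nat.exists_mul_mod_eq_of_coprime n hcop hp0.ne'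
  have h1 : (p : ℤ) ∣ (n : ℤ) - i * N := by
    have h2 : (N * i) ≡ n [MOD p] := hiN
    have h3 := (Nat.modEq_iff_dvd.mp h2)
    push_cast at h3
    rwa [mul_comm (N : ℤ) i] at h3
  obtain ⟨m, hm⟩ := h1
  have hp1 : 1 ≤ p := hp.one_lt.le
  have h4 : (p : ℤ) * γ + (p - 1) * ((N : ℤ) - 1) ≤ n := by
    have : ((p * γ + (p - 1) * (N - 1) : ℕ) : ℤ) ≤ n := by exact_mod_cast hn
    push_cast [Nat.cast_sub hp1, Nat.cast_sub (show 1 ≤ N from hN)] at this
    linarith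
  have h5 : (i : ℤ) * N ≤ (p - 1) * N := by
    apply mul_le_mul_of_nonneg_right _ (Int.natCast_nonneg N)
    have : (i : ℤ) + 1 ≤ p := by exact_mod_cast hi
    linarith
  have hpz : (0 : ℤ) < p := by exact_mod_cast hp0
  have h6 : (γ : ℤ) ≤ m := by
    have h7 : (p : ℤ) * (γ - 1) < p * m := by
      rw [← hm]
      nlinarith
    have h8 := lt_of_mul_lt_mul_left h7 hpz.le
    omega
  refine ⟨i, m.toNat, hi, by omega, ?_⟩
  have h9 : ((m.toNat : ℕ) : ℤ) = m := Int.toNat_of_nonneg (by omega)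
  have h10 : ((n : ℕ) : ℤ) = ((p * m.toNat + i * N : ℕ) : ℤ) := by
    push_cast
    rw [h9]
    linear_combination hm
  exact_mod_cast h10

namespace ASD

variable {p : ℕ} [Fact p.Prime] {k : Type} [Field k] [IsAlgClosed k] [CharP k p] {ζ : k}
  {K : Type} [Field K] [Algebra k K] {Λ : Lad p ζ K} {g : K} {N : ℕ}
  {L : Type} [Field L] [Algebra k L] [Algebra K L] [IsScalarTower k K L] {z : L}

theorem pol (A : ASD Λ g N L z) (hreg : ∀ P, P ≠ Λ.inf → P.ge 0 g)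
    (n : ℕ) (hn : p * Λ.gam + (p - 1) * (N - 1) ≤ n)
    (hζ : IsPrimitiveRoot ζ (p - 1)) :
    ∃ c : L, c ≠ 0 ∧ (∀ Q, Q ≠ A.inf → Q.ge 0 c) ∧ A.inf.ord c = -n ∧
      A.sig c = ζ ^ n • c ∧ A.phi c = c := by
  have hp : p.Prime := Fact.out
  obtain ⟨i, m, hi, hm, hnm⟩ := StepP_num hp A.N_pos A.N_p hn
  obtain ⟨c, hc0, hc1, hc2, hc3, hc4⟩ := Λ.pol m hm
  have hz : z ≠ 0 := by
    intro h
    have h1 := A.inf_over.2
    have h2 : A.inf.ord z = A.inf.ord 0 := congrArg A.inf.ord h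
    rw [h2, Plc.ord_zero, A.g_inf] at h1
    have := A.N_pos
    omega
  have hc0' : algebraMap K L c ≠ 0 := by rw [Ne, map_eq_zero]; exact hc0
  refine ⟨algebraMap K L c * z ^ i, mul_ne_zero hc0' (pow_ne_zero _ hz), ?_, ?_, ?_, ?_⟩
  · intro Q hQ
    obtain ⟨P, hP, hg, hQP⟩ := A.StepA_under hreg Q hQ
    have h1 := et_ge_z A.as P hg Q hQP
    have h2 : Q.ge 0 (algebraMap K L c) := (hQP.ge_iff 0 c).mpr (hc1 P hP)
    simpa using Q.ge_mul h2 (Q.ge_pow h1 i)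
  · rw [A.inf.ord_mul hc0' (pow_ne_zero _ hz), A.inf.ord_pow, A.inf_over.1, A.inf_over.2, hc2,
      A.g_inf, hnm]
    push_cast
    ring
  · rw [map_mul, map_pow, A.sig_alg, A.sig_z, hc3]
    have h1 : ζ ^ n = ζ ^ m * (ζ ^ N) ^ i := by
      have h2 : n = m + N * i + (p - 1) * m := by
        have h3 : (p - 1) * m + m = p * m := by
          have : p - 1 + 1 = p := Nat.sub_add_cancel hp.one_lt.le
          calc (p - 1) * m + m = (p - 1 + 1) * m := by ring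
            _ = p * m := by rw [this]
        rw [hnm, ← h3]; ring
      rw [h2, pow_add, pow_add, pow_mul ζ (p - 1) m, hζ.pow_eq_one, one_pow, mul_one, pow_mul]
    rw [h1]
    simp only [Algebra.smul_def, map_mul, map_pow, mul_pow, IsScalarTower.algebraMap_apply k K L]
    ring
  · rw [map_mul, map_pow, A.phi_alg, A.phi_z, hc4]

theorem nopol (A : ASD Λ g N L z) (hreg : ∀ P, P ≠ Λ.inf → P.ge 0 g) (c : L) (hc : c ≠ 0)
    (h : ∀ Q, Q ≠ A.inf → Q.ge 0 c) :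
    A.inf.ord c ≠ 1 - (p * Λ.gam + (p - 1) * (N - 1) : ℕ) := by
  intro hord
  have hp : p.Prime := Fact.out
  have hN := A.N_pos
  have hp1 : 1 ≤ p := hp.one_lt.le
  have h1 : Λ.inf.ord g < 0 := by rw [A.g_inf]; omega
  have h2 : ¬ (p : ℤ) ∣ Λ.inf.ord g := by
    rw [A.g_inf, Int.dvd_neg]
    intro h
    exact A.N_p (Int.natCast_dvd_natCast.mp h)
  obtain ⟨i, hi, hi0, hi1⟩ := ram_exists_ord A.as Λ.inf h1 h2 A.inf A.inf_over c hc
  rw [hord, A.g_inf] at hi1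
  have h4 : (1 : ℤ) - (p * Λ.gam + (p - 1) * (N - 1) : ℕ)
      = 1 - (p * (Λ.gam : ℤ) + (p - 1) * ((N : ℤ) - 1)) := by
    push_cast [Nat.cast_sub hp1, Nat.cast_sub (show 1 ≤ N from hN)]
    ring
  rw [h4] at hi1
  set x := Λ.inf.ord (A.as.co c i) with hx
  have h5 : (p : ℤ) ∣ ((i : ℤ) + 1) * N := by
    refine ⟨x + Λ.gam + N - 1, ?_⟩
    linear_combination hi1
  have h6 : p ∣ (i + 1) * N := by exact_mod_cast h5
  have h7 : p ∣ i + 1 := (hp.dvd_mul.mp h6).resolve_right A.N_p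
  have h8 : i + 1 = p := le_antisymm hi (Nat.le_of_dvd (Nat.succ_pos i) h7)
  have h9 : (i : ℤ) = p - 1 := by rw [← h8]; push_cast; ring
  have h10 : x = 1 - Λ.gam := by
    have hp0 : (p : ℤ) ≠ 0 := by exact_mod_cast hp.ne_zero
    apply mul_left_cancel₀ hp0
    rw [h9] at hi1
    linear_combination -hi1
  exact Λ.nopol _ hi0 ((A.reg_iff hreg c).mp h i hi) h10

end ASD

end Pool.Agent.PRB
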