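import Pool.Agent.LibPRB.GF
import Pool.Agent.LibPRB.OverEx

/-! # Subfields: restriction of places -/

set_option autoImplicit false

namespace Pool.Agent.PRB

variable {p : ℕ} [Fact p.Prime] {k X Y : Type} [Field k] [IsAlgClosed k] [CharP k p]
  [Field X] [Field Y] [Algebra k X] [Algebra k Y] [Algebra X Y] [IsScalarTower k X Y]

/-- The place `Q` of `Y` lies over the place `P` of `X` with ramification index `e` prime to `p`. -/
def OverTame (p : ℕ) (e : ℕ) (Q : Plc k Y) (P : Plc k X) : Prop :=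
  0 < e ∧ ¬ p ∣ e ∧ ∀ a : X, Q.ord (algebraMap X Y a) = e * P.ord a

theorem Tame1_div {k X Y : Type} [Field k] [Field X] [Field Y] [Algebra k Y] [Algebra X Y]
    (Q : Plc k Y) (e : ℕ) (he : 0 < e) (u : X) (hu : u ≠ 0)
    (hue : Q.ord (algebraMap X Y u) = e)
    (hmin : ∀ (n : ℕ), 0 < n → ∀ a : X, a ≠ 0 → Q.ord (algebraMap X Y a) = n → e ≤ n) (a : X) :
    (e : ℤ) ∣ Q.ord (algebraMap X Y a) := by
  by_cases ha : a = 0
  · rw [ha, map_zero, Q.ord_zero]; exact dvd_zero _
  have he' : (e : ℤ) ≠ 0 := by exact_mod_cast he.ne'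
  have hdm := Int.emod_add_mul_ediv (Q.ord (algebraMap X Y a)) e
  have hnn := Int.emod_nonneg (Q.ord (algebraMap X Y a)) he'
  have hlt := Int.emod_lt_of_pos (Q.ord (algebraMap X Y a)) (by exact_mod_cast he : (0 : ℤ) < e)
  set q := Q.ord (algebraMap X Y a) / e with hq
  set r := Q.ord (algebraMap X Y a) % e with hr
  have hord : Q.ord (algebraMap X Y (a / u ^ q)) = r := by
    have h1 : algebraMap X Y a ≠ 0 := by rw [Ne, map_eq_zero]; exact ha
    have h2 : (algebraMap X Y u) ^ q ≠ 0 := zpow_ne_zero _ (by rw [Ne, map_eq_zero]; exact hu)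
    rw [map_div₀, map_zpow₀, Q.ord_div h1 h2, Q.ord_zpow, hue]
    linear_combination -hdm
  rcases hnn.eq_or_lt with h0 | h0
  · exact Int.dvd_of_emod_eq_zero h0.symm
  · exfalso
    have h1 := hmin r.toNat (by omega) (a / u ^ q) (div_ne_zero ha (zpow_ne_zero _ hu))
      (by rw [hord]; omega)
    omega

omit [IsAlgClosed k] [CharP k p] [Fact p.Prime] in
theorem Tame1_over {Q : Plc k Y} {P : Plc k X} {e : ℕ} (h : OverTame p e Q P) (a : X) :
    Q.ge 0 (algebraMap X Y a) ↔ P.ge 0 a := by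
  by_cases ha : a = 0
  · rw [ha, map_zero]
    exact ⟨fun _ => P.ge_zero 0, fun _ => Q.ge_zero 0⟩
  · rw [Q.ge_iff (by rw [Ne, map_eq_zero]; exact ha), P.ge_iff ha, h.2.2]
    have he : (0 : ℤ) < e := by exact_mod_cast h.1
    exact mul_nonneg_iff_of_pos_left he

/-- A place of `Y` at which some element of `X` has order prime to `p` restricts to a place of
`X`, with ramification index prime to `p`. -/
theorem tame_restrict (Q : Plc k Y) (hQ : ∃ f : X, ¬ (p : ℤ) ∣ Q.ord (algebraMap X Y f)) :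
    ∃ (P : Plc k X) (e : ℕ), OverTame p e Q P := by
  classical
  obtain ⟨f, hf⟩ := hQ
  have hf0 : f ≠ 0 := by
    rintro rfl
    apply hf
    rw [map_zero, Q.ord_zero]; exact dvd_zero _
  have hex : ∃ n : ℕ, 0 < n ∧ ∃ a : X, a ≠ 0 ∧ Q.ord (algebraMap X Y a) = n := by
    have h0 : Q.ord (algebraMap X Y f) ≠ 0 := fun h => hf (by rw [h]; exact dvd_zero _)
    refine ⟨(Q.ord (algebraMap X Y f)).natAbs, Int.natAbs_pos.2 h0, ?_⟩
    rcases le_total 0 (Q.ord (algebraMap X Y f)) with h | h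
    · exact ⟨f, hf0, by omega⟩
    · refine ⟨f⁻¹, inv_ne_zero hf0, ?_⟩
      rw [map_inv₀, Q.ord_inv]; omega
  obtain ⟨he, u, hu, hue⟩ := Nat.find_spec hex
  have hmin : ∀ (n : ℕ), 0 < n → ∀ a : X, a ≠ 0 → Q.ord (algebraMap X Y a) = n →
      Nat.find hex ≤ n := fun n hn a ha h => Nat.find_min' hex ⟨hn, a, ha, h⟩
  set e := Nat.find hex with hedef
  have hdvd := Tame1_div Q e he u hu hue hmin
  have he' : (0 : ℤ) < e := by exact_mod_cast he
  have hmul : ∀ a : X, Q.ord (algebraMap X Y a) = e * (Q.ord (algebraMap X Y a) / e) :=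
    fun a => (Int.mul_ediv_cancel' (hdvd a)).symm
  have hne : ∀ a : X, a ≠ 0 → algebraMap X Y a ≠ 0 := fun a ha => by
    rw [Ne, map_eq_zero]; exact ha
  refine ⟨⟨fun a => Q.ord (algebraMap X Y a) / e, ?_, ?_, ?_, ?_, ?_, ?_⟩, e, he, ?_, hmul⟩
  · rw [map_zero, Q.ord_zero, Int.zero_ediv]
  · intro a b ha hb
    have h1 := hmul (a * b)
    rw [map_mul, Q.ord_mul (hne a ha) (hne b hb), hmul a, hmul b, ← mul_add] at h1
    rw [map_mul, Q.ord_mul (hne a ha) (hne b hb)]
    rw [Int.add_ediv_of_dvd_left (hdvd a)]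
  · intro a b ha hb hab
    have h1 := Q.ord_add' _ _ (hne a ha) (hne b hb) (by rw [← map_add]; exact hne _ hab)
    rw [← map_add] at h1
    rcases min_le_iff.1 h1 with h | h
    · exact min_le_iff.2 (Or.inl (Int.ediv_le_ediv he' h))
    · exact min_le_iff.2 (Or.inr (Int.ediv_le_ediv he' h))
  · exact ⟨u, hu, by rw [hue, Int.ediv_self he'.ne']⟩
  · intro c
    rw [← IsScalarTower.algebraMap_apply, Q.ord_const, Int.zero_ediv]
  · intro a ha h0
    have h1 : Q.ord (algebraMap X Y a) = 0 := by rw [hmul a, h0, mul_zero]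
    obtain ⟨c, hc⟩ := Q.exists_const _ (hne a ha) h1
    refine ⟨c, ?_⟩
    rw [IsScalarTower.algebraMap_apply k X Y, ← map_sub] at hc
    rcases hc with hc | hc
    · left
      exact (map_eq_zero (algebraMap X Y)).1 hc
    · right
      have h2 := hmul (a - algebraMap k X c)
      by_contra hcon
      rw [not_lt] at hcon
      have h3 : (e : ℤ) * (Q.ord (algebraMap X Y (a - algebraMap k X c)) / e) ≤ 0 :=
        mul_nonpos_of_nonneg_of_nonpos he'.le hcon
      rw [← h2] at h3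
      omega
  · intro hpe
    apply hf
    rw [hmul f]
    exact Dvd.dvd.mul_right (by exact_mod_cast hpe) _

/-- If all places of `Y` are discrete and tame over `X`, then all places of `X` are discrete and
come from places of `Y`. -/
theorem tame_disc (hdisc : ∀ O : ValuationSubring Y, IsPl k O → ∃ Q : Plc k Y, Q.ring = O)
    (htame : ∀ Q : Plc k Y, ∃ f : X, ¬ (p : ℤ) ∣ Q.ord (algebraMap X Y f))
    (O : ValuationSubring X) (hO : IsPl k O) :
    ∃ (P : Plc k X) (Q : Plc k Y) (e : ℕ), P.ring = O ∧ OverTame p e Q P := by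
  obtain ⟨A, h, hloc⟩ := IsLocalRing.exists_factor_valuationRing
    ((algebraMap X Y).comp O.subtype)
  have hA : ∀ a : X, algebraMap X Y a ∈ A ↔ a ∈ O := by
    intro a
    refine ⟨fun ha => ?_, fun ha => h ⟨a, ha⟩⟩
    rcases O.mem_or_inv_mem a with h1 | hinv
    · exact h1
    by_cases ha0 : a = 0
    · rw [ha0]; exact O.zero_mem
    have hu : IsUnit (⟨a⁻¹, hinv⟩ : O) := by
      apply hloc.map_nonunit
      refine IsUnit.of_mul_eq_one (⟨algebraMap X Y a, ha⟩ : A.toSubring) ?_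
      apply Subtype.ext
      change algebraMap X Y a⁻¹ * algebraMap X Y a = 1
      rw [← map_mul, inv_mul_cancel₀ ha0, map_one]
    obtain ⟨b, hb⟩ := hu.exists_right_inv
    have hb' : a⁻¹ * (b : X) = 1 := congrArg Subtype.val hb
    have hab : (b : X) = a := by
      field_simp at hb'
      exact hb'
    rw [← hab]
    exact b.2
  have hApl : IsPl k A := by
    refine ⟨fun c => ?_, fun htop => hO.2 ?_⟩
    · rw [IsScalarTower.algebraMap_apply k X Y, hA]
      exact hO.1 c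
    · rw [eq_top_iff]
      intro a _
      rw [← hA, htop]
      trivial
  obtain ⟨Q, hQ⟩ := hdisc A hApl
  obtain ⟨P, e, hP⟩ := tame_restrict Q (htame Q)
  refine ⟨P, Q, e, ?_, hP⟩
  ext a
  rw [P.mem_ring, ← Tame1_over hP a, ← Q.mem_ring, hQ, hA]

theorem tame_exists_over
    (hdisc : ∀ O : ValuationSubring Y, IsPl k O → ∃ Q : Plc k Y, Q.ring = O)
    (htame : ∀ Q : Plc k Y, ∃ f : X, ¬ (p : ℤ) ∣ Q.ord (algebraMap X Y f)) (P : Plc k X) :
    ∃ (Q : Plc k Y) (e : ℕ), OverTame p e Q P := by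
  obtain ⟨P', Q, e, hP', hQ⟩ := tame_disc hdisc htame P.ring P.isPl
  rw [Plc.ext_ring' hP'] at hQ
  exact ⟨Q, e, hQ⟩

theorem tame_fsupp
    (hdisc : ∀ O : ValuationSubring Y, IsPl k O → ∃ Q : Plc k Y, Q.ring = O)
    (htame : ∀ Q : Plc k Y, ∃ f : X, ¬ (p : ℤ) ∣ Q.ord (algebraMap X Y f))
    (hfs : ∀ a : Y, a ≠ 0 → {Q : Plc k Y | Q.ord a ≠ 0}.Finite) (a : X) (ha : a ≠ 0) :
    {P : Plc k X | P.ord a ≠ 0}.Finite := by
  choose F e hF using fun P : Plc k X => tame_exists_over hdisc htame P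
  refine Set.Finite.of_injOn (f := F) (t := {Q : Plc k Y | Q.ord (algebraMap X Y a) ≠ 0}) ?_ ?_
    (hfs _ (by rw [Ne, map_eq_zero]; exact ha))
  · intro P hP
    change (F P).ord (algebraMap X Y a) ≠ 0
    rw [(hF P).2.2]
    exact mul_ne_zero (by exact_mod_cast (hF P).1.ne') hP
  · intro P _ P' _ hPP
    apply Plc.ext_ring
    intro b
    rw [← Tame1_over (hF P) b, ← Tame1_over (hF P') b, hPP]

end Pool.Agent.PRB
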