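import Pool.Agent.LibPRB.Tame1
import Pool.Agent.LibPRB.Diff

/-! # The quotient by an automorphism of order `p - 1`: orders of differentials -/

set_option autoImplicit false

namespace Pool.Agent.PRB

variable {p : ℕ} [Fact p.Prime] {k X Y : Type} [Field k] [IsAlgClosed k] [CharP k p]
  [Field X] [Field Y] [Algebra k X] [Algebra k Y] [Algebra X Y] [IsScalarTower k X Y]

/-- The order of `ds_X` at `P`, and the comparison of regularity at `P` and `Q`. -/
theorem tame_diff {s : Y} {D : Derivation k Y Y} (hs : s ≠ 0) (DX : Derivation k X X)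
    (hDX : ∀ a : X, algebraMap X Y (DX a) * s ^ (p - 2) = - D (algebraMap X Y a))
    (Q : Plc k Y) (P : Plc k X) (e : ℕ) (hQP : OverTame p e Q P) (δ : ℤ) (hQ : IsDiff Q D δ) :
    ∃ δX : ℤ, IsDiff P DX δX ∧
      ∀ a : X, P.ge (-δX) a ↔ Q.ge (-δ) (-(algebraMap X Y a * s ^ (p - 2))) := by
  obtain ⟨he, hpe, hord⟩ := hQP
  have hsp : s ^ (p - 2) ≠ 0 := pow_ne_zero _ hs
  set c : ℤ := Q.ord (s ^ (p - 2)) with hc
  have he' : (0 : ℤ) < e := by exact_mod_cast he
  have hinj : ∀ a : X, a ≠ 0 → algebraMap X Y a ≠ 0 := fun a ha h =>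
    ha ((algebraMap X Y).injective (by rw [h, map_zero]))
  obtain ⟨π, hπ0, hπ1⟩ := P.exists_unif
  have h1 : Q.ord (algebraMap X Y π) = e := by rw [hord, hπ1, mul_one]
  obtain ⟨hDπ, hDπo⟩ := hQ.ord_D (p := p) (hinj π hπ0)
    (by rw [h1]; exact fun h => hpe (Int.natCast_dvd_natCast.mp h))
  rw [h1] at hDπo
  have hDXπ : DX π ≠ 0 := by
    intro h
    have h2 := hDX π
    rw [h, map_zero, zero_mul] at h2
    exact hDπ (neg_eq_zero.mp h2.symm)
  have h3 : (e : ℤ) * P.ord (DX π) + c = e - 1 - δ := by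
    have h4 := congrArg Q.ord (hDX π)
    rw [Q.ord_mul (hinj _ hDXπ) hsp, Q.ord_neg, hord, hDπo] at h4
    exact h4
  refine ⟨-P.ord (DX π), isDiff_of P DX _ ?_ ⟨π, hπ0, hπ1, hDXπ, by ring⟩, ?_⟩
  · intro a ha
    by_cases hDa : DX a = 0
    · exact Or.inl hDa
    have ha0 : a ≠ 0 := by
      rintro rfl
      exact hDa (map_zero _)
    rw [P.ge_iff ha0] at ha
    have h5 : Q.ge e (algebraMap X Y a) := by
      right
      rw [hord]
      nlinarith
    have h6 := hQ.ge_D h5
    have h7 : D (algebraMap X Y a) = -(algebraMap X Y (DX a) * s ^ (p - 2)) := by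
      rw [hDX a, neg_neg]
    rw [h7, Q.ge_neg_iff, Q.ge_iff (mul_ne_zero (hinj _ hDa) hsp), Q.ord_mul (hinj _ hDa) hsp,
      hord] at h6
    right
    have h8 : (e : ℤ) * P.ord (DX π) ≤ e * P.ord (DX a) := by linarith
    have h9 := le_of_mul_le_mul_left h8 he'
    linarith
  · intro a
    by_cases ha0 : a = 0
    · subst ha0
      simp [Plc.ge]
    rw [P.ge_iff ha0, Q.ge_neg_iff, Q.ge_iff (mul_ne_zero (hinj _ ha0) hsp),
      Q.ord_mul (hinj _ ha0) hsp, hord]
    constructor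
    · intro h
      have h10 : (e : ℤ) * P.ord (DX π) ≤ e * P.ord a :=
        mul_le_mul_of_nonneg_left (by linarith) he'.le
      have h11 : (1 : ℤ) ≤ e := he'
      linarith
    · intro h
      by_contra hlt
      push Not at hlt
      have h12 : P.ord a + 1 ≤ P.ord (DX π) := by linarith
      have h13 : (e : ℤ) * (P.ord a + 1) ≤ e * P.ord (DX π) :=
        mul_le_mul_of_nonneg_left h12 he'.le
      linarith

end Pool.Agent.PRB
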