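import Pool.Agent.LibPRB.Lad

/-! # The tower `wp^m(v) = s^(p-2)`, `wp^r(t) = v^(p-1)`: definition -/

set_option autoImplicit false

namespace Pool.Agent.PRB

/-- `wp x = x ^ p - x`. -/
def wp (p : ℕ) {R : Type} [CommRing R] (x : R) : R := x ^ p - x

/-- The ladder curve `wp^m(v) = s^(p-2)`, `wp^r(t) = v^(p-1)`, of `p`-rank zero. -/
structure Tower (p : ℕ) {k : Type} [Field k] (ζ : k) (m r : ℕ) (K : Type) [Field K]
    [Algebra k K] where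
  Λ : Lad p ζ K
  v : K
  t : K
  reg_v : ∀ P, P ≠ Λ.inf → P.ge 0 v
  reg_t : ∀ P, P ≠ Λ.inf → P.ge 0 t
  eq_v : (wp p)^[m] v = Λ.s ^ (p - 2)
  eq_t : (wp p)^[r] t = v ^ (p - 1)
  ord_s : Λ.inf.ord Λ.s = -(p ^ (m + r) : ℕ)
  ord_v : Λ.inf.ord v = -((p - 2) * p ^ r : ℕ)
  ord_t : Λ.inf.ord t = -((p - 1) * (p - 2) : ℕ)
  sig_v : Λ.sig v = ζ ^ (p - 2) • v
  sig_t : Λ.sig t = t
  phi_v : Λ.phi v = v
  phi_t : Λ.phi t = t
  unique : ∀ P Q : Plc k K, P ≠ Λ.inf → Q ≠ Λ.inf → P.val Λ.s = Q.val Λ.s → P.val v = Q.val v →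
    P.val t = Q.val t → P = Q
  exists_plc : ∀ a b c : k, (wp p)^[m] b = a ^ (p - 2) → (wp p)^[r] c = b ^ (p - 1) →
    ∃ P : Plc k K, P ≠ Λ.inf ∧ P.val Λ.s = a ∧ P.val v = b ∧ P.val t = c
  gam_eq : Λ.gam = p ^ r * (p ^ m - 1) * (p - 3) + (p ^ r - 1) * ((p - 1) * (p - 2) - 1)
  ginv_eq : 2 * Λ.ginv = (p - 3) * (p ^ r * ((p ^ m - 1) / (p - 1)) + (p ^ r - 1))

/-- `τ` is a good value of `t`: the places with `t = τ` are unramified over the `t`-line, and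
`s`, `v` do not vanish there. -/
def Good (p m r : ℕ) {k : Type} [Field k] (τ : k) : Prop :=
  (wp p)^[r] τ ≠ 0 ∧ ∀ b : k, b ^ (p - 1) = (wp p)^[r] τ → (wp p)^[m] b ≠ 0

end Pool.Agent.PRB
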