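import Pool.Agent.LibPRB.TwD

/-! # Twisted Artin–Schreier covers: coefficients -/

set_option autoImplicit false

namespace Pool.Agent.PRB

variable {p : ℕ} [Fact p.Prime] {K L : Type} [Field K] [Field L] [Algebra K L] {h v : K} {w : L}

namespace IsTw

theorem sum_co (T : IsTw p h v w) (a : L) :
    ∑ i ∈ Finset.range p, algebraMap K L (T.co a i) * w ^ i = a := by
  have h1 := (T.repr a).choose_spec
  conv_rhs => rw [h1]
  refine Finset.sum_congr rfl fun i hi => ?_
  unfold co
  rw [if_pos (Finset.mem_range.1 hi)]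

theorem co_of_le (T : IsTw p h v w) (a : L) {i : ℕ} (hi : p ≤ i) : T.co a i = 0 := by
  unfold co
  rw [if_neg (by omega)]

theorem co_eq_of_lt (T : IsTw p h v w) {a : L} {c : ℕ → K}
    (ha : ∑ i ∈ Finset.range p, algebraMap K L (c i) * w ^ i = a) {i : ℕ} (hi : i < p) :
    T.co a i = c i := by
  have h1 : ∑ i ∈ Finset.range p, algebraMap K L (T.co a i - c i) * w ^ i = 0 := by
    have h2 := T.sum_co a
    simp only [map_sub, sub_mul, Finset.sum_sub_distrib]
    rw [h2, ha, sub_self]
  exact sub_eq_zero.1 (T.indep (fun i => T.co a i - c i) h1 i hi)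

theorem co_eq (T : IsTw p h v w) {a : L} {c : ℕ → K} (hc : ∀ i, p ≤ i → c i = 0)
    (ha : ∑ i ∈ Finset.range p, algebraMap K L (c i) * w ^ i = a) : T.co a = c := by
  funext i
  rcases lt_or_ge i p with hi | hi
  · exact T.co_eq_of_lt ha hi
  · rw [T.co_of_le a hi, hc i hi]

theorem co_add (T : IsTw p h v w) (a b : L) (i : ℕ) : T.co (a + b) i = T.co a i + T.co b i := by
  rcases lt_or_ge i p with hi | hi
  · refine T.co_eq_of_lt (c := fun i => T.co a i + T.co b i) ?_ hi
    simp only [map_add, add_mul, Finset.sum_add_distrib]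
    rw [T.sum_co, T.sum_co]
  · rw [T.co_of_le _ hi, T.co_of_le _ hi, T.co_of_le _ hi, add_zero]

theorem co_mul (T : IsTw p h v w) (c : K) (a : L) (i : ℕ) :
    T.co (algebraMap K L c * a) i = c * T.co a i := by
  rcases lt_or_ge i p with hi | hi
  · refine T.co_eq_of_lt (c := fun i => c * T.co a i) ?_ hi
    simp only [map_mul, mul_assoc]
    rw [← Finset.mul_sum, T.sum_co]
  · rw [T.co_of_le _ hi, T.co_of_le _ hi, mul_zero]

theorem co_neg (T : IsTw p h v w) (a : L) (i : ℕ) : T.co (-a) i = - T.co a i := by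
  have := T.co_mul (-1) a i
  simpa using this

theorem co_sub (T : IsTw p h v w) (a b : L) (i : ℕ) : T.co (a - b) i = T.co a i - T.co b i := by
  rw [sub_eq_add_neg, T.co_add, T.co_neg, sub_eq_add_neg]

theorem co_zero (T : IsTw p h v w) (i : ℕ) : T.co 0 i = 0 := by
  have := T.co_mul 0 0 i
  simpa using this

theorem co_sum (T : IsTw p h v w) {ι : Type*} (s : Finset ι) (f : ι → L) (i : ℕ) :
    T.co (∑ j ∈ s, f j) i = ∑ j ∈ s, T.co (f j) i := by
  classical
  induction s using Finset.induction_on with
  | empty => simpa using T.co_zero i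
  | insert j s hj ih => rw [Finset.sum_insert hj, Finset.sum_insert hj, T.co_add, ih]

theorem co_mul_w_pow (T : IsTw p h v w) (c : K) {j : ℕ} (hj : j < p) (i : ℕ) :
    T.co (algebraMap K L c * w ^ j) i = if i = j then c else 0 := by
  have h1 : T.co (algebraMap K L c * w ^ j) = fun i => if i = j then c else 0 := by
    refine T.co_eq ?_ ?_
    · intro i hi
      rw [if_neg (by omega)]
    · rw [Finset.sum_eq_single j]
      · rw [if_pos rfl]
      · intro i _ hij
        rw [if_neg hij, map_zero, zero_mul]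
      · intro hj'
        exact absurd (Finset.mem_range.2 hj) hj'
  rw [h1]

theorem co_algebraMap (T : IsTw p h v w) (c : K) (i : ℕ) :
    T.co (algebraMap K L c) i = if i = 0 then c else 0 := by
  have := T.co_mul_w_pow c (Fact.out : p.Prime).pos i
  simpa using this

theorem ext (T : IsTw p h v w) {a b : L} (hab : ∀ i < p, T.co a i = T.co b i) : a = b := by
  rw [← T.sum_co a, ← T.sum_co b]
  refine Finset.sum_congr rfl fun i hi => ?_
  rw [hab i (Finset.mem_range.1 hi)]

theorem eq_zero_iff (T : IsTw p h v w) {a : L} : a = 0 ↔ ∀ i < p, T.co a i = 0 := by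
  constructor
  · rintro rfl i _
    exact T.co_zero i
  · intro h1
    refine T.ext fun i hi => ?_
    rw [h1 i hi, T.co_zero]

end IsTw

end Pool.Agent.PRB
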