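import Pool.Agent.LibPRB.TwReg

/-!
# The cover `w ^ p = h w + v`: the dimension of the space of regular differentials

PLAN. Copy `ASDf_co_smul`, `ASDf_equiv`, `ASDf_finrank` of ASDf.lean, with `A.as` replaced by `A.tw`
and `V = regSp D'`, `W d = polSp D (twc p h v d)` (`TwS.mem_regSp`).
-/

set_option autoImplicit false

namespace Pool.Agent.PRB

variable {p : ℕ} [Fact p.Prime] {k K L : Type} [Field k] [IsAlgClosed k] [CharP k p] [Field K]
  [Field L] [Algebra k K] [Algebra k L] [Algebra K L] [IsScalarTower k K L] {s : K}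
  {D : Derivation k K K} {h v : K} {w : L} {D' : Derivation k L L}

omit [IsAlgClosed k] [CharP k p] in
theorem TwCnt_co_smul (T : IsTw p h v w) (r : k) (a : L) (i : ℕ) :
    T.co (r • a) i = r • T.co a i := by
  have h : r • a = algebraMap K L (algebraMap k K r) * a := by
    rw [← IsScalarTower.algebraMap_apply, Algebra.smul_def]
  rw [h, T.co_mul, Algebra.smul_def]

omit [IsAlgClosed k] [CharP k p] in
/-- A subspace given by conditions on the coefficients is the product of the spaces of
coefficients. -/
theorem TwCnt_equiv (T : IsTw p h v w) (V : Submodule k L) (W : ℕ → Submodule k K)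
    (hV : ∀ a, a ∈ V ↔ ∀ d < p, T.co a d ∈ W d) :
    Nonempty (V ≃ₗ[k] (∀ d : Fin p, W (d : ℕ))) := by
  classical
  let f : V →ₗ[k] (∀ d : Fin p, W (d : ℕ)) :=
    { toFun := fun a d => ⟨T.co (a : L) d, (hV a).1 a.2 d d.2⟩
      map_add' := fun a b => by
        funext d
        apply Subtype.ext
        exact T.co_add _ _ _
      map_smul' := fun r a => by
        funext d
        apply Subtype.ext
        exact TwCnt_co_smul T r _ _ }
  have hf : ∀ (a : V) (d : Fin p), ((f a d : W (d : ℕ)) : K) = T.co (a : L) d :=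
    fun a d => rfl
  refine ⟨LinearEquiv.ofBijective f ⟨?_, ?_⟩⟩
  · intro a b hab
    apply Subtype.ext
    apply T.ext
    intro i hi
    have h1 := congrFun hab ⟨i, hi⟩
    have h2 := congrArg Subtype.val h1
    exact h2
  · intro c
    let c' : ℕ → K := fun i => if h : i < p then (c ⟨i, h⟩ : K) else 0
    have hc' : ∀ (i : ℕ) (hi : i < p), c' i = (c ⟨i, hi⟩ : K) := fun i hi => dif_pos hi
    let a : L := ∑ i ∈ Finset.range p, algebraMap K L (c' i) * w ^ i
    have hco : ∀ i < p, T.co a i = c' i := fun i hi => T.co_eq_of_lt rfl hi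
    have ha : a ∈ V := by
      rw [hV]
      intro d hd
      rw [hco d hd, hc' d hd]
      exact (c ⟨d, hd⟩).2
    refine ⟨⟨a, ha⟩, ?_⟩
    funext d
    apply Subtype.ext
    rw [hf]
    change T.co a d = _
    rw [hco d d.2, hc' d d.2]

theorem TwS.finrank (A : TwS p s D h v w D')
    (hfin : ∀ d < p, Module.Finite k (polSp D (twc p h v d))) :
    Module.Finite k (regSp D') ∧ Module.finrank k (regSp D') =
      ∑ d ∈ Finset.range p, Module.finrank k (polSp D (twc p h v d)) := by
  obtain ⟨e⟩ := TwCnt_equiv A.tw (regSp D') (fun d => polSp D (twc p h v d))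
    (fun a => A.mem_regSp a)
  have h1 : ∀ d : Fin p, Module.Finite k (polSp D (twc p h v (d : ℕ))) := fun d => hfin d d.2
  refine ⟨Module.Finite.equiv e.symm, ?_⟩
  rw [e.finrank_eq, Module.finrank_pi_fintype, Finset.sum_range]

end Pool.Agent.PRB
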