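import Pool.Agent.LibPRB.TwL

/-!
# Extension of a derivation to the cover `w ^ p = h w + v`

PLAN. Copy `exists_deriv` of ASder.lean: ring homomorphism to `TrivSqZeroExt L L` by `IsTw.lift`,
with `w ↦ (w, ω)`, `ω = -(D v + w D h) / h`; the condition is `h ω + w D h + D v = 0`
(`(w, ω) ^ p = (w ^ p, 0)` in characteristic `p`).
`deriv_w`: apply `D'` to `w ^ p = h w + v`.
-/

set_option autoImplicit false

namespace Pool.Agent.PRB

variable {p : ℕ} [Fact p.Prime] {k K L : Type} [Field k] [Field K] [Field L]
  [Algebra k K] [Algebra k L] [Algebra K L] [IsScalarTower k K L] {h v : K} {w : L}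

theorem exists_deriv_tw [CharP K p] (T : IsTw p h v w) (hh : h ≠ 0) (D : Derivation k K K) :
    ∃ D' : Derivation k L L, ∀ a : K, D' (algebraMap K L a) = algebraMap K L (D a) := by
  have hcp : CharP L p := charP_of_injective_algebraMap (algebraMap K L).injective p
  have hh' : algebraMap K L h ≠ 0 := by
    intro h0
    exact hh ((algebraMap K L).injective (by rw [h0, map_zero]))
  let θ : K →+* TrivSqZeroExt L L :=
    { toFun := fun a => (TrivSqZeroExt.inl (algebraMap K L a) +
        TrivSqZeroExt.inr (algebraMap K L (D a)) : TrivSqZeroExt L L)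
      map_one' := by
        ext <;> simp
      map_mul' := fun a b => by
        ext
        · simp
        · simp only [map_mul, Derivation.leibniz, smul_eq_mul, map_add, TrivSqZeroExt.snd_add,
            TrivSqZeroExt.snd_inl, TrivSqZeroExt.snd_inr, TrivSqZeroExt.snd_mul,
            TrivSqZeroExt.fst_add, TrivSqZeroExt.fst_inl, TrivSqZeroExt.fst_inr, zero_add,
            add_zero, MulOpposite.smul_eq_mul_unop, MulOpposite.unop_op]
          ring
      map_zero' := by
        ext <;> simp
      map_add' := fun a b => by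
        ext
        · simp
        · simp only [map_add, TrivSqZeroExt.snd_add, TrivSqZeroExt.snd_inl,
            TrivSqZeroExt.snd_inr, zero_add] }
  have hθf : ∀ a, (θ a).fst = algebraMap K L a := fun a => by
    change (TrivSqZeroExt.inl (algebraMap K L a) +
        TrivSqZeroExt.inr (algebraMap K L (D a)) : TrivSqZeroExt L L).fst = _
    simp
  have hθs : ∀ a, (θ a).snd = algebraMap K L (D a) := fun a => by
    change (TrivSqZeroExt.inl (algebraMap K L a) +
        TrivSqZeroExt.inr (algebraMap K L (D a)) : TrivSqZeroExt L L).snd = _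
    simp only [TrivSqZeroExt.snd_add, TrivSqZeroExt.snd_inl, TrivSqZeroExt.snd_inr, zero_add]
  obtain ⟨ω, hω⟩ : ∃ ω : L, algebraMap K L h * ω + w * algebraMap K L (D h) +
      algebraMap K L (D v) = 0 := by
    refine ⟨-(algebraMap K L (D v) + w * algebraMap K L (D h)) / algebraMap K L h, ?_⟩
    rw [mul_div_cancel₀ _ hh']
    ring
  obtain ⟨x, hxf, hxs⟩ : ∃ x : TrivSqZeroExt L L, x.fst = w ∧ x.snd = ω := by
    refine ⟨TrivSqZeroExt.inl w + TrivSqZeroExt.inr ω, ?_, ?_⟩
    · simp only [TrivSqZeroExt.fst_add, TrivSqZeroExt.fst_inl, TrivSqZeroExt.fst_inr, add_zero]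
    · simp only [TrivSqZeroExt.snd_add, TrivSqZeroExt.snd_inl, TrivSqZeroExt.snd_inr, zero_add]
  have hx : x ^ p = θ h * x + θ v := by
    ext
    · rw [TrivSqZeroExt.fst_pow, TrivSqZeroExt.fst_add, TrivSqZeroExt.fst_mul, hxf, hθf, hθf,
        T.eq]
    · rw [TrivSqZeroExt.snd_pow, TrivSqZeroExt.snd_add, TrivSqZeroExt.snd_mul, hxs, hxf, hθf,
        hθs, hθs]
      simp only [smul_eq_mul, MulOpposite.smul_eq_mul_unop, MulOpposite.unop_op]
      rw [mul_comm (algebraMap K L (D h)) w, hω, ← Nat.cast_smul_eq_nsmul L, CharP.cast_eq_zero,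
        zero_smul]
  obtain ⟨Θ, hΘ, hΘw⟩ := T.lift θ x hx
  have hfst : ∀ a : L, (Θ a).fst = a := by
    have h1 : (TrivSqZeroExt.fstHom L L L).toRingHom.comp Θ = RingHom.id L := by
      apply T.ringHom_ext
      · intro a
        change (Θ (algebraMap K L a)).fst = algebraMap K L a
        rw [hΘ, hθf]
      · change (Θ w).fst = w
        rw [hΘw, hxf]
    intro a
    exact congrArg (fun f : L →+* L => f a) h1
  have hmul : ∀ a b : L, (Θ (a * b)).snd = a * (Θ b).snd + b * (Θ a).snd := by
    intro a b
    rw [map_mul, TrivSqZeroExt.snd_mul, hfst, hfst, smul_eq_mul,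
      MulOpposite.smul_eq_mul_unop, MulOpposite.unop_op, mul_comm (Θ a).snd b]
  let E : L →ₗ[k] L :=
    { toFun := fun a => (Θ a).snd
      map_add' := fun a b => by rw [map_add, TrivSqZeroExt.snd_add]
      map_smul' := fun c a => by
        have h1 : c • a = algebraMap K L (algebraMap k K c) * a := by
          rw [← IsScalarTower.algebraMap_apply, Algebra.smul_def]
        rw [h1, hmul, hΘ, hθs, D.map_algebraMap, map_zero, mul_zero, add_zero,
          ← IsScalarTower.algebraMap_apply, ← Algebra.smul_def]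
        rfl }
  refine ⟨Derivation.mk' E fun a b => ?_, fun a => ?_⟩
  · change (Θ (a * b)).snd = a • (Θ b).snd + b • (Θ a).snd
    rw [hmul, smul_eq_mul, smul_eq_mul]
  · change (Θ (algebraMap K L a)).snd = _
    rw [hΘ, hθs]

theorem deriv_w [CharP K p] (T : IsTw p h v w) (hh : h ≠ 0) (D : Derivation k K K)
    (D' : Derivation k L L) (hD : ∀ a : K, D' (algebraMap K L a) = algebraMap K L (D a)) :
    D' w = -(algebraMap K L (D v) + w * algebraMap K L (D h)) / algebraMap K L h := by
  have hcp : CharP L p := charP_of_injective_algebraMap (algebraMap K L).injective p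
  have hh' : algebraMap K L h ≠ 0 := by
    intro h0
    exact hh ((algebraMap K L).injective (by rw [h0, map_zero]))
  have h1 : D' (w ^ p) = 0 := by
    rw [Derivation.leibniz_pow, nsmul_eq_mul, CharP.cast_eq_zero, zero_mul]
  rw [T.eq, map_add, Derivation.leibniz, hD, hD, smul_eq_mul, smul_eq_mul] at h1
  rw [eq_div_iff hh']
  linear_combination h1

end Pool.Agent.PRB
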