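import Pool.Agent.LibPRB.TwTg
import Pool.Agent.LibPRB.TwDer
import Pool.Agent.LibPRB.FinD
import Pool.Agent.LibPRB.FinN
import Pool.Agent.LibPRB.Appr

/-!
# The cover `w ^ p = h w + v`: differentials at the places
-/

set_option autoImplicit false

namespace Pool.Agent.PRB

variable {p : ℕ} [Fact p.Prime] {k K L : Type} [Field k] [Field K] [Field L]
  [Algebra k K] [Algebra k L] [Algebra K L] [IsScalarTower k K L] {h v : K} {w : L}

omit [IsScalarTower k K L] in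
private theorem TwDiff_up {e : ℕ} {Q : Plc k L} {P : Plc k K} (hQ : OverE e Q P) {n : ℤ} {a : K}
    (ha : P.ge n a) : Q.ge (e * n) (algebraMap K L a) := by
  rcases ha with ha | ha
  · left
    rw [ha, map_zero]
  · right
    rw [hQ.2]
    exact mul_le_mul_of_nonneg_left ha (Int.natCast_nonneg e)

private theorem TwDiff_co [IsAlgClosed k] [CharP K p] (T : IsTw p h v w) (hh : h ≠ 0)
    (P : Plc k K) (N : ℕ) (hNw : ∀ (Q' : Plc k L) (e' : ℕ), OverE e' Q' P → Q'.ge (-(N : ℤ)) w)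
    (hNh : P.ord h ≤ N) (x : L)
    (hx : ∀ (Q' : Plc k L) (e' : ℕ), OverE e' Q' P → Q'.ge 0 x) (d : ℕ) (hd : d < p) :
    P.ge (-((p * N : ℕ) : ℤ)) (T.co x d) := by
  have hH0 : algebraMap K L h ≠ 0 := (map_ne_zero (algebraMap K L)).2 hh
  have hinv : P.ge (-(N : ℤ)) h⁻¹ := by
    right
    rw [P.ord_inv]
    linarith
  have hwp : ∀ (Q' : Plc k L) (e' : ℕ), OverE e' Q' P → ∀ i : ℕ, i + 1 ≤ p →
      Q'.ge (e' * (-((p * N : ℕ) : ℤ))) (algebraMap K L h⁻¹ * w ^ i) := by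
    intro Q' e' hQ' i hi
    have h1 := Q'.ge_mul (TwDiff_up hQ' hinv) (Q'.ge_pow (hNw Q' e' hQ') i)
    refine h1.mono ?_
    have he : (1 : ℤ) ≤ e' := by exact_mod_cast hQ'.1
    have hi' : (i : ℤ) + 1 ≤ p := by exact_mod_cast hi
    have hN0 : (0 : ℤ) ≤ N := Int.natCast_nonneg N
    have h2 : ((i : ℤ) + 1) * N ≤ p * N := mul_le_mul_of_nonneg_right hi' hN0
    have h3 : (0 : ℤ) ≤ (e' - 1) * (i * N) :=
      mul_nonneg (by linarith) (mul_nonneg (Int.natCast_nonneg i) hN0)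
    have h4 : (e' : ℤ) * (((i : ℤ) + 1) * N) ≤ e' * (p * N) := mul_le_mul_of_nonneg_left h2 (by linarith)
    push_cast
    linarith
  rcases Nat.eq_zero_or_pos d with rfl | hd1
  · rw [co_zero_eq_trace T hh x]
    refine trace_ge_shift T.finite P _ _ fun Q' e' hQ' => ?_
    have h1 : x * (1 - w ^ (p - 1) / algebraMap K L h) =
        x - x * (algebraMap K L h⁻¹ * w ^ (p - 1)) := by
      rw [map_inv₀]
      ring
    rw [h1]
    have hpp : 0 < p := (Fact.out : p.Prime).pos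
    refine Q'.ge_sub ?_ ?_
    · refine (hx Q' e' hQ').mono ?_
      have : (0 : ℤ) ≤ e' * ((p * N : ℕ) : ℤ) := by positivity
      linarith
    · have := Q'.ge_mul (hx Q' e' hQ') (hwp Q' e' hQ' (p - 1) (by omega))
      rwa [zero_add] at this
  · rw [co_eq_trace T hh x d hd1 hd]
    refine trace_ge_shift T.finite P _ _ fun Q' e' hQ' => ?_
    have h1 : -(x * w ^ (p - 1 - d)) / algebraMap K L h =
        -(x * (algebraMap K L h⁻¹ * w ^ (p - 1 - d))) := by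
      rw [map_inv₀]
      ring
    rw [h1]
    apply Q'.ge_neg
    have := Q'.ge_mul (hx Q' e' hQ') (hwp Q' e' hQ' (p - 1 - d) (by omega))
    rwa [zero_add] at this

private theorem TwDiff_bd (T : IsTw p h v w)
    (D : Derivation k K K) (D' : Derivation k L L)
    (hD : ∀ a : K, D' (algebraMap K L a) = algebraMap K L (D a)) {P : Plc k K} {δ : ℤ}
    (hP : IsDiff P D δ) {e : ℕ} {Q : Plc k L} (hQ : OverE e Q P) (N : ℕ)
    (hw : Q.ge (-(N : ℤ)) w) (hDw : Q.ge (-(N : ℤ)) (D' w)) (C₁ : ℕ) (x : L)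
    (hx : ∀ d < p, P.ge (-(C₁ : ℤ)) (T.co x d)) (dn : ℕ) (hδ1 : δ ≤ (dn : ℤ)) :
    Q.ge (-((e * (C₁ + 1 + dn) + (p + 1) * N : ℕ) : ℤ)) (D' x) := by
  have hsum : D' x = ∑ d ∈ Finset.range p, D' (algebraMap K L (T.co x d) * w ^ d) := by
    conv_lhs => rw [← T.sum_co x]
    rw [map_sum]
  rw [hsum]
  refine Q.ge_sum _ _ fun d hd => ?_
  have hd' := Finset.mem_range.1 hd
  have hdp : (d : ℤ) ≤ p := by exact_mod_cast hd'.le
  have hN0 : (0 : ℤ) ≤ N := Int.natCast_nonneg N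
  have he0 : (0 : ℤ) ≤ e := Int.natCast_nonneg e
  have hC0 : (0 : ℤ) ≤ C₁ := Int.natCast_nonneg C₁
  rw [D'.leibniz, Derivation.leibniz_pow, hD]
  simp only [smul_eq_mul, nsmul_eq_mul]
  have hdN : (d : ℤ) * N ≤ p * N := mul_le_mul_of_nonneg_right hdp hN0
  refine Q.ge_add ?_ ?_
  · have h1 := TwDiff_up hQ (hx d hd')
    have h2 : Q.ge 0 ((d : ℕ) : L) := by
      have := Q.ge_const ((d : ℕ) : k)
      rwa [map_natCast] at this
    have h3 := Q.ge_mul h1 (Q.ge_mul h2 (Q.ge_mul (Q.ge_pow hw (d - 1)) hDw))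
    refine h3.mono ?_
    have h4 : ((d - 1 : ℕ) : ℤ) * N ≤ p * N := by
      apply mul_le_mul_of_nonneg_right _ hN0
      have : d - 1 ≤ p := by omega
      exact_mod_cast this
    have h5 : (0 : ℤ) ≤ e * (1 + (dn : ℤ)) := by positivity
    push_cast
    linarith
  · have h1 := TwDiff_up hQ (hP.ge_D (hx d hd'))
    have h3 := Q.ge_mul (Q.ge_pow hw d) h1
    refine h3.mono ?_
    have h5 : (e : ℤ) * δ ≤ e * (dn : ℤ) := mul_le_mul_of_nonneg_left hδ1 he0
    push_cast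
    linarith

theorem diff_tw [IsAlgClosed k] [CharP k p] [CharP K p] (T : IsTw p h v w) (hh : h ≠ 0)
    (D : Derivation k K K) (D' : Derivation k L L)
    (hD : ∀ a : K, D' (algebraMap K L a) = algebraMap K L (D a)) {P : Plc k K} {δ : ℤ}
    (hP : IsDiff P D δ) {e : ℕ} {Q : Plc k L} (hQ : OverE e Q P) : ∃ δ', IsDiff Q D' δ' := by
  classical
  obtain ⟨S, hS⟩ : ∃ S : Finset (Plc k L), ∀ Q' : Plc k L, Q' ∈ S ↔ ∃ e', OverE e' Q' P :=
    ⟨(over_finite T.finite P).toFinset, fun Q' => by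
      rw [Set.Finite.mem_toFinset]
      exact Iff.rfl⟩
  obtain ⟨N, hN⟩ : ∃ N : ℕ, N = (∑ Q' ∈ S, (Q'.ord w).natAbs) + (P.ord h).natAbs +
      (Q.ord (D' w)).natAbs := ⟨_, rfl⟩
  have hNw : ∀ (Q' : Plc k L) (e' : ℕ), OverE e' Q' P → Q'.ge (-(N : ℤ)) w := by
    intro Q' e' hQ'
    right
    have hmem : Q' ∈ S := (hS Q').2 ⟨e', hQ'⟩
    have h1 : (Q'.ord w).natAbs ≤ ∑ Q' ∈ S, (Q'.ord w).natAbs :=
      Finset.single_le_sum (f := fun Q' : Plc k L => (Q'.ord w).natAbs) (fun _ _ => Nat.zero_le _) hmem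
    omega
  have hNh : P.ord h ≤ N := by omega
  have hNd : Q.ge (-(N : ℤ)) (D' w) := by
    right
    omega
  haveI : CharP L p := charP_of_injective_algebraMap (algebraMap K L).injective p
  refine isDiff_of_bdd Q D' (e * (p * N + 1 + δ.natAbs) + (p + 1) * N) ?_ ?_
  · intro a ha
    obtain ⟨M, hM⟩ : ∃ M : ℕ, M = ∑ Q' ∈ S, (Q'.ord a).natAbs := ⟨_, rfl⟩
    obtain ⟨s, hs0, hsQ, hsM⟩ := exists_appr (S.erase Q) Q (Finset.notMem_erase Q S) M
    have hp1 : 1 ≤ p := (Fact.out : p.Prime).one_lt.le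
    have hx : ∀ (Q' : Plc k L) (e' : ℕ), OverE e' Q' P → Q'.ge 0 (s ^ p * a) := by
      intro Q' e' hQ'
      have hmem : Q' ∈ S := (hS Q').2 ⟨e', hQ'⟩
      rw [Q'.ge_mul_iff (pow_ne_zero _ hs0), Q'.ord_pow]
      by_cases hQQ : Q' = Q
      · rw [hQQ, hsQ]
        simpa using ha
      · right
        have h1 := hsM Q' (Finset.mem_erase.2 ⟨hQQ, hmem⟩)
        have h2 : (Q'.ord a).natAbs ≤ ∑ Q' ∈ S, (Q'.ord a).natAbs :=
          Finset.single_le_sum (f := fun Q' : Plc k L => (Q'.ord a).natAbs) (fun _ _ => Nat.zero_le _) hmem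
        have h3 : (M : ℤ) ≤ p * Q'.ord s := by
          have h4 : (0 : ℤ) ≤ Q'.ord s := le_trans (Int.natCast_nonneg M) h1
          have h5 : (1 : ℤ) ≤ p := by exact_mod_cast hp1
          nlinarith
        omega
    have h1 := TwDiff_bd T D D' hD hP hQ N (hNw Q e hQ) hNd (p * N) (s ^ p * a)
      (fun d hd => TwDiff_co T hh P N hNw hNh (s ^ p * a) hx d hd) δ.natAbs Int.le_natAbs
    have h2 : D' (s ^ p * a) = s ^ p * D' a := by
      rw [D'.leibniz, Derivation.leibniz_pow]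
      simp only [smul_eq_mul, nsmul_eq_mul, CharP.cast_eq_zero, zero_mul, mul_zero, add_zero]
    rw [h2, Q.ge_mul_iff (pow_ne_zero _ hs0), Q.ord_pow, hsQ] at h1
    simpa using h1
  · obtain ⟨_, π, _, _, hDπ, _⟩ := hP
    refine ⟨algebraMap K L π, ?_⟩
    rw [hD]
    exact (map_ne_zero (algebraMap K L)).2 hDπ

end Pool.Agent.PRB
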