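import Pool.Agent.LibPRB.TwS
import Pool.Agent.LibPRB.CarPl

/-!
# Fixed points of the twisted Cartier operators: logarithmic bounds

PLAN.
`car_ge_int`: `car_ge` (CarPl.lean) is the case `q ≥ 0` (`(m + p - 1) / p = 1 + (m - 1) / p`).  In general
let `π : K` with `P.ord π = 1`, `j : ℕ` large with `q + p j ≥ 0`; `car p D (π ^ (-j)) ^ p * a = ...`
(`PB.car_pow_mul`): apply the case `q + p j` to `(π⁻¹ ^ j) ^ p * a`.
`card_twl`: the two sets are equal.  Let `m = P.ord h`, `ν = P.ord v`, `n = p - 1`, `E = twD = p m - n ν`.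
(⊆) at a place with `E ≤ 0` `twc = twl` by definition.  At `P` with `0 < E` and `IsDiff P D δ`: if `c ≠ 0`
and `q = -δ - P.ord c` then `P.ge (-δ - (q + d m)) (c / h ^ d)`, so by `car_ge_int`
`-q ≥ -(1 + (q + d m - 1) / p)`, so `p (q - 1) ≤ q + d m - 1`, `n (q - 1) ≤ d m`, `q ≤ 1 + (d m) / n = twl`.
(⊇) `twl ≤ twc` for `0 < E`, `d < n`: write `d m = n t + s`, `t = (d m) / n`, `0 ≤ s < n`; then
`n (n + E + d ν) = n p t + n ^ 2 + E (n - d) + p s` (from `n d ν = d (p m - E) = p (n t + s) - d E`), and we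
need `n + E + d ν ≥ p (1 + t)`, i.e. `E (n - d) + p s ≥ n`.  The left side is
`n (E + d ν - p t) ` `=: n * x` with `x` an integer, and it is positive because `E > 0`, `d < n`.
Then `P.ge.mono`.
-/

set_option autoImplicit false

namespace Pool.Agent.PRB

variable {p : ℕ} [Fact p.Prime] {k K : Type} [Field k] [Field K] [Algebra k K] {s : K}
  {D : Derivation k K K}

theorem car_ge_int [CharP K p] (hs : PB p s D) {P : Plc k K} {δ : ℤ} (hP : IsDiff P D δ) (q : ℤ)
    {a : K} (ha : P.ge (-δ - q) a) : P.ge (-δ - (1 + (q - 1) / p)) (car p D a) := by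
  have hp : 0 < p := (Fact.out : p.Prime).pos
  have hp' : (0 : ℤ) < p := by exact_mod_cast hp
  have h1 := CarPl_iter hP ha (p - 1)
  have h2 : P.ge (-δ - q - ((p - 1 : ℕ) : ℤ) * (1 + δ)) (car p D a ^ p) := by
    rw [hs.car_pow]
    exact P.ge_neg h1
  by_cases hc : car p D a = 0
  · rw [hc]; exact P.ge_zero _
  · rw [P.ge_iff (pow_ne_zero _ hc), P.ord_pow] at h2
    rw [P.ge_iff hc]
    have h3 : q - 1 < ((q - 1) / p + 1) * p := Int.lt_ediv_add_one_mul_self _ hp'
    set t : ℤ := (q - 1) / p with ht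
    have h5 : ((p - 1 : ℕ) : ℤ) = (p : ℤ) - 1 := by
      rw [Nat.cast_sub (by omega)]
      simp
    rw [h5] at h2
    by_contra hcon
    have h6 : P.ord (car p D a) + δ ≤ -(t + 2) := by linarith
    have h7 : (p : ℤ) * (P.ord (car p D a) + δ) ≤ p * (-(t + 2)) :=
      mul_le_mul_of_nonneg_left h6 hp'.le
    nlinarith

theorem twl_le_twc {h v : K} (P : Plc k K) {d : ℕ} (hd : d < p - 1) :
    twl p h v d P ≤ twc p h v d P := by
  have hp2 := (Fact.out : p.Prime).two_le
  unfold twl twc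
  split_ifs with hE
  · have hp' : (0 : ℤ) < p := by exact_mod_cast (show 0 < p by omega)
    have hn : (0 : ℤ) < (p : ℤ) - 1 := by
      have : (2 : ℤ) ≤ p := by exact_mod_cast hp2
      linarith
    have hdn : (d : ℤ) + 1 ≤ (p : ℤ) - 1 := by
      have h1 : d + 1 ≤ p - 1 := hd
      have h2 : ((d + 1 : ℕ) : ℤ) ≤ ((p - 1 : ℕ) : ℤ) := by exact_mod_cast h1
      rw [Nat.cast_sub (by omega)] at h2
      push_cast at h2
      exact h2
    rw [Int.le_ediv_iff_mul_le hp']
    have hs1 := Int.ediv_mul_le ((d : ℤ) * P.ord h) hn.ne'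
    set t : ℤ := ((d : ℤ) * P.ord h) / ((p : ℤ) - 1) with ht
    have hED : twD p h v P = p * P.ord h - (p - 1) * P.ord v := rfl
    set E : ℤ := twD p h v P with hEdef
    obtain ⟨r, hr⟩ : ∃ r : ℤ, r = (d : ℤ) * P.ord h - t * ((p : ℤ) - 1) := ⟨_, rfl⟩
    have hr0 : 0 ≤ r := by linarith
    by_contra hcon
    push Not at hcon
    have hX : ((p : ℤ) - 1) + E + d * P.ord v - (1 + t) * p ≤ -1 := by linarith
    have hX2 := mul_le_mul_of_nonneg_left hX hn.le
    have key : ((p : ℤ) - 1) * (((p : ℤ) - 1) + E + d * P.ord v - (1 + t) * p) =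
        -((p : ℤ) - 1) + ((p : ℤ) - 1 - d) * E + p * r := by
      rw [hr, hED]
      ring
    rw [key] at hX2
    have h3 : 1 ≤ ((p : ℤ) - 1 - d) * E := by
      have h4 : 1 ≤ (p : ℤ) - 1 - d := by linarith
      have h5 : 1 ≤ E := hE
      nlinarith
    have h6 : 0 ≤ (p : ℤ) * r := mul_nonneg hp'.le hr0
    linarith
  · exact le_rfl

theorem card_twl [CharP K p] (hs : PB p s D) {h v : K} (hh : h ≠ 0) {d : ℕ} (hd : d < p - 1) :
    Nat.card {c : K // c ∈ polSp D (twc p h v d) ∧ car p D (c / h ^ d) = c} =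
      Nat.card {c : K // c ∈ polSp D (twl p h v d) ∧ car p D (c / h ^ d) = c} := by
  have hp2 := (Fact.out : p.Prime).two_le
  have hp' : (0 : ℤ) < p := by exact_mod_cast (show 0 < p by omega)
  have hn : (0 : ℤ) < (p : ℤ) - 1 := by
    have : (2 : ℤ) ≤ p := by exact_mod_cast hp2
    linarith
  have hset : ∀ c : K, (c ∈ polSp D (twc p h v d) ∧ car p D (c / h ^ d) = c) ↔
      (c ∈ polSp D (twl p h v d) ∧ car p D (c / h ^ d) = c) := by
    intro c
    constructor
    · rintro ⟨h1, h2⟩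
      refine ⟨?_, h2⟩
      rw [mem_polSp] at h1 ⊢
      intro P δ hP
      by_cases hE : 0 < twD p h v P
      · by_cases hc : c = 0
        · rw [hc]; exact P.ge_zero _
        · have hhd : h ^ d ≠ 0 := pow_ne_zero _ hh
          obtain ⟨q, hq⟩ : ∃ q : ℤ, q = -δ - P.ord c := ⟨_, rfl⟩
          have h3 : P.ge (-δ - (q + d * P.ord h)) (c / h ^ d) := by
            rw [P.ge_iff (div_ne_zero hc hhd), P.ord_div hc hhd, P.ord_pow, hq]
            linarith
          have h4 := car_ge_int hs hP _ h3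
          rw [h2, P.ge_iff hc] at h4
          have h5 : q - 1 ≤ (q + d * P.ord h - 1) / p := by linarith
          rw [Int.le_ediv_iff_mul_le hp'] at h5
          have h6 : q - 1 ≤ (d * P.ord h) / ((p : ℤ) - 1) := by
            rw [Int.le_ediv_iff_mul_le hn]
            linarith
          rw [P.ge_iff hc]
          unfold twl
          rw [if_pos hE]
          linarith
      · have h3 := h1 P δ hP
        have h4 : twl p h v d P = twc p h v d P := by
          unfold twl twc
          rw [if_neg hE, if_neg hE]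
        rw [h4]
        exact h3
    · rintro ⟨h1, h2⟩
      refine ⟨?_, h2⟩
      rw [mem_polSp] at h1 ⊢
      intro P δ hP
      refine (h1 P δ hP).mono ?_
      have := twl_le_twc (h := h) (v := v) P hd
      linarith
  exact Nat.card_congr (Equiv.subtypeEquivRight hset)

end Pool.Agent.PRB
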