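import Pool.Agent.LibPRB.TwL
import Pool.Agent.LibPRB.ASPB

/-!
# The cover `w ^ p = h w + v`: `p`-basis and Cartier operator

PLAN. Copy `PB.of_AS`, `co_car` of ASPB.lean; now `w = (w ^ p - v) / h`, so
`x w ^ d = ∑ l ≤ d, (w ^ l) ^ p * (d.choose l * (x * (-v) ^ (d - l) / h ^ d))`.
(The lemmas `ASPB_span_add`, `ASPB_span_zero`, `ASPB_span_sum`, `ASPB_car_natCast_mul` of ASPB.lean
can be used as they are.)
-/

set_option autoImplicit false

namespace Pool.Agent.PRB

variable {p : ℕ} [Fact p.Prime] {k K L : Type} [Field k] [Field K] [Field L]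
  [Algebra k K] [Algebra k L] [Algebra K L] [IsScalarTower k K L] {h v : K} {w : L}

/-- expansion of `x w ^ d` with respect to `p`-th powers -/
theorem TwPB_expand (T : IsTw p h v w) (hh : h ≠ 0) (x : K) (d : ℕ) :
    algebraMap K L x * w ^ d = ∑ l ∈ Finset.range (d + 1),
      (w ^ l) ^ p * algebraMap K L ((d.choose l : K) * (x * (-v) ^ (d - l) / h ^ d)) := by
  have hh' : algebraMap K L h ≠ 0 := by
    intro h0
    exact hh ((algebraMap K L).injective (by rw [h0, map_zero]))
  have hw : algebraMap K L h * w = w ^ p + algebraMap K L (-v) := by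
    rw [T.eq, map_neg]; ring
  have e : algebraMap K L x * w ^ d =
      algebraMap K L (x / h ^ d) * (w ^ p + algebraMap K L (-v)) ^ d := by
    rw [← hw, mul_pow, map_div₀, map_pow]
    field_simp
  rw [e, add_pow, Finset.mul_sum]
  refine Finset.sum_congr rfl fun l _ => ?_
  have e2 : (x * (-v) ^ (d - l) / h ^ d : K) = x / h ^ d * (-v) ^ (d - l) := by ring
  rw [e2, map_mul, map_mul, map_pow, map_natCast, ← pow_mul, ← pow_mul, mul_comm p l]
  ring

theorem PB.of_Tw [CharP K p] (T : IsTw p h v w) (hh : h ≠ 0) {s : K} {D : Derivation k K K}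
    (hs : PB p s D)
    (D' : Derivation k L L) (hD : ∀ a : K, D' (algebraMap K L a) = algebraMap K L (D a)) :
    PB p (algebraMap K L s) D' := by
  have : CharP L p := charP_of_injective_algebraMap (algebraMap K L).injective p
  refine ⟨by rw [hD, hs.D_s, map_one], fun a => ?_⟩
  obtain ⟨c, rfl⟩ := T.repr a
  refine ASPB_span_sum _ _ fun i _ => ?_
  rw [TwPB_expand T hh]
  refine ASPB_span_sum _ _ fun l _ => ?_
  obtain ⟨e, he⟩ := hs.span ((i.choose l : K) * (c i * (-v) ^ (i - l) / h ^ i))
  refine ⟨fun j => w ^ l * algebraMap K L (e j), ?_⟩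
  rw [he, map_sum, Finset.mul_sum]
  refine Finset.sum_congr rfl fun j _ => ?_
  rw [map_mul, map_pow, map_pow, mul_pow]
  ring

theorem TwPB_car_algebraMap [CharP K p] (T : IsTw p h v w) (hh : h ≠ 0) {s : K}
    {D : Derivation k K K} (hs : PB p s D)
    (D' : Derivation k L L) (hD : ∀ a : K, D' (algebraMap K L a) = algebraMap K L (D a)) (a : K) :
    car p D' (algebraMap K L a) = algebraMap K L (car p D a) := by
  have : CharP L p := charP_of_injective_algebraMap (algebraMap K L).injective p
  have hs' := PB.of_Tw T hh hs D' hD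
  have hit : ∀ n : ℕ, D'^[n] (algebraMap K L a) = algebraMap K L (D^[n] a) := by
    intro n
    induction n with
    | zero => rfl
    | succ n ih => rw [Function.iterate_succ_apply', Function.iterate_succ_apply', ih, hD]
  have h1 : car p D' (algebraMap K L a) ^ p = (algebraMap K L (car p D a)) ^ p := by
    rw [hs'.car_pow, hit, ← map_neg, ← hs.car_pow, map_pow]
  exact frobenius_inj L p h1

theorem co_car_tw [CharP K p] (T : IsTw p h v w) (hh : h ≠ 0) {s : K} {D : Derivation k K K}
    (hs : PB p s D)
    (D' : Derivation k L L) (hD : ∀ a : K, D' (algebraMap K L a) = algebraMap K L (D a))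
    (a : L) (l : ℕ) :
    T.co (car p D' a) l =
      ∑ d ∈ Finset.Ico l p,
        (d.choose l : K) * car p D (T.co a d * (-v) ^ (d - l) / h ^ d) := by
  have : CharP L p := charP_of_injective_algebraMap (algebraMap K L).injective p
  have hs' := PB.of_Tw T hh hs D' hD
  set c : ℕ → K := fun l =>
    ∑ d ∈ Finset.Ico l p, (d.choose l : K) * car p D (T.co a d * (-v) ^ (d - l) / h ^ d) with hc
  have hc0 : ∀ i, p ≤ i → c i = 0 := by
    intro i hi
    simp only [hc]
    rw [Finset.Ico_eq_empty (by omega), Finset.sum_empty]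
  have hterm : ∀ d, car p D' (algebraMap K L (T.co a d) * w ^ d) =
      ∑ l ∈ Finset.range (d + 1), algebraMap K L
        ((d.choose l : K) * car p D (T.co a d * (-v) ^ (d - l) / h ^ d)) * w ^ l := by
    intro d
    rw [TwPB_expand T hh, hs'.car_finset_sum]
    refine Finset.sum_congr rfl fun l _ => ?_
    rw [hs'.car_pow_mul, TwPB_car_algebraMap T hh hs D' hD, ASPB_car_natCast_mul hs, mul_comm]
  have hmain : ∑ i ∈ Finset.range p, algebraMap K L (c i) * w ^ i = car p D' a := by
    conv_rhs => rw [← T.sum_co a]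
    rw [hs'.car_finset_sum]
    simp only [hterm, hc, map_sum, Finset.sum_mul]
    refine Finset.sum_comm' fun l d => ?_
    simp only [Finset.mem_range, Finset.mem_Ico]
    omega
  exact congrFun (T.co_eq hc0 hmain) l

end Pool.Agent.PRB
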