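import Pool.Agent.LibPRB.TwTame
import Pool.Agent.LibPRB.TwDiff

/-!
# The cover `w ^ p = h w + v` at the places with `twD ≤ 0`: regularity

PLAN. For every `Q` over `P` (index `e`) there is `δ'` with `IsDiff Q D' δ'` (`diff_tw`), and
`δ' = e δ + e - 1` (`diff_tame`, `tw_tame_e`).  Let `n = p - 1`, `m = P.ord h`, `ω = Q.ord w`, `n ω ≥ e m`
(`tw_tame_ord`); `twc p h v d P = cdiv (d m) n =: c` is the least integer with `n c ≥ d m`, and
`n c ≤ d m + n - 1`.
(⇐) `Q.ge (e (-δ - c) + d ω) (algebraMap a_d * w ^ d)`, and `e (-δ - c) + d ω ≥ -e δ - e + 1`: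
`n (d ω - e c) ≥ d e m - e (d m + n - 1) = -e (n - 1) > -e n`.  Sum up with `T.sum_co`, `Plc.ge_sum`.
(⇒) Let `Q.ge (-e δ - e + 1) a` for all `Q` over `P`.  For `1 ≤ d < p`: `T.co a d = trace (-(a w ^ (n-d)) / h)`
(`co_eq_trace`), and `Q.ge (e N + 1 - e)` of the argument with `N = -δ - c`:
`(-e δ - e + 1) + (n - d) ω - e m ≥ e N + 1 - e` because `n ((n-d) ω - e m + e c) ≥ (n-d) e m - n e m +
e d m = 0`.  Now `trace_ge_tw`.  For `d = 0`: `T.co a 0 = trace (a (1 - w ^ n / h))` (`co_zero_eq_trace`),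
`Q.ge 0 (1 - w ^ n / h)`, `N = -δ`, `cdiv 0 n = 0`.
-/

set_option autoImplicit false

namespace Pool.Agent.PRB

variable {p : ℕ} [Fact p.Prime] {k K L : Type} [Field k] [Field K] [Field L]
  [Algebra k K] [Algebra k L] [Algebra K L] [IsScalarTower k K L] {h v : K} {w : L}

theorem TwTameR_cdiv (x n : ℤ) (hn : 0 < n) : x ≤ n * cdiv x n ∧ n * cdiv x n ≤ x + n - 1 := by
  unfold cdiv
  have h1 : n * ((-x) / n) ≤ -x := Int.mul_ediv_self_le hn.ne'
  have h2 : -x < n * ((-x) / n) + n := Int.lt_mul_ediv_self_add hn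
  rw [mul_neg]
  constructor
  · linarith
  · linarith

theorem TwTameR_w_ne (T : IsTw p h v w) : w ≠ 0 := by
  intro h0
  have hp : 1 < p := (Fact.out : p.Prime).one_lt
  have h1 := T.co_mul_w_pow 1 hp 1
  have h2 : algebraMap K L 1 * w = 0 := by rw [h0, mul_zero]
  rw [if_pos rfl, pow_one, h2, T.co_zero] at h1
  exact one_ne_zero h1.symm

theorem TwTameR_inv {e : ℕ} {Q : Plc k L} {P : Plc k K} (hQ : OverE e Q P) (h : K) :
    Q.ge (-(e * P.ord h)) (algebraMap K L h)⁻¹ := by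
  right
  rw [Q.ord_inv, hQ.2]

theorem tw_tame_reg [IsAlgClosed k] [CharP k p] [CharP K p] (T : IsTw p h v w) (hh : h ≠ 0)
    (hv : v ≠ 0) {P : Plc k K} (h0 : twD p h v P ≤ 0) (D : Derivation k K K)
    (D' : Derivation k L L) (hD : ∀ a : K, D' (algebraMap K L a) = algebraMap K L (D a)) {δ : ℤ}
    (hP : IsDiff P D δ) (a : L) :
    (∀ (Q : Plc k L) (e : ℕ) (δ' : ℤ), OverE e Q P → IsDiff Q D' δ' → Q.ge (-δ') a) ↔
      ∀ d < p, P.ge (-δ - twc p h v d P) (T.co a d) := by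
  have hp1 : 1 < p := (Fact.out : p.Prime).one_lt
  have hn : (0 : ℤ) < (p : ℤ) - 1 := by
    have : (1 : ℤ) < p := by exact_mod_cast hp1
    linarith
  have htwc : ∀ d : ℕ, twc p h v d P = cdiv (d * P.ord h) ((p : ℤ) - 1) := by
    intro d
    unfold twc
    rw [if_neg (not_lt.2 h0)]
  have hcd : ∀ d : ℕ, (d : ℤ) * P.ord h ≤ ((p : ℤ) - 1) * twc p h v d P ∧
      ((p : ℤ) - 1) * twc p h v d P ≤ d * P.ord h + ((p : ℤ) - 1) - 1 := by
    intro d
    rw [htwc]
    exact TwTameR_cdiv _ _ hn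
  have hδ : ∀ (Q : Plc k L) (e : ℕ) (δ' : ℤ), OverE e Q P → IsDiff Q D' δ' →
      δ' = e * δ + e - 1 := fun Q e δ' hQ hQ' =>
    diff_tame hQ (tw_tame_e T hh hv h0 hQ) D D' hD hP hQ'
  have hord : ∀ (Q : Plc k L) (e : ℕ), OverE e Q P →
      (e : ℤ) * P.ord h ≤ ((p : ℤ) - 1) * Q.ord w := fun Q e hQ => tw_tame_ord T hh hv h0 hQ
  constructor
  · intro H d hd
    have hQa : ∀ (Q : Plc k L) (e : ℕ), OverE e Q P → Q.ge (-(e * δ + e - 1)) a := by
      intro Q e hQ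
      obtain ⟨δ', hQ'⟩ := diff_tw T hh D D' hD hP hQ
      have := H Q e δ' hQ hQ'
      rwa [hδ Q e δ' hQ hQ'] at this
    rcases Nat.eq_zero_or_pos d with rfl | hd1
    · rw [co_zero_eq_trace T hh a]
      have hc0 : twc p h v 0 P = 0 := by
        rw [htwc]
        unfold cdiv
        simp
      rw [hc0, sub_zero]
      refine trace_ge_tw T P _ _ fun Q e hQ => ?_
      have h1 : Q.ge 0 (w ^ (p - 1) / algebraMap K L h) := by
        rw [div_eq_mul_inv]
        have h2 : Q.ge (Q.ord w) w := Or.inr le_rfl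
        refine (Q.ge_mul (Q.ge_pow h2 (p - 1)) (TwTameR_inv hQ h)).mono ?_
        have h3 := hord Q e hQ
        rw [Nat.cast_sub hp1.le]
        push_cast
        linarith
      have h4 := Q.ge_mul (hQa Q e hQ) (Q.ge_sub Q.ge_one h1)
      exact h4.mono (by linarith)
    · rw [co_eq_trace T hh a d hd1 hd]
      refine trace_ge_tw T P _ _ fun Q e hQ => ?_
      rw [div_eq_mul_inv]
      have h2 : Q.ge (Q.ord w) w := Or.inr le_rfl
      refine (Q.ge_mul (Q.ge_neg (Q.ge_mul (hQa Q e hQ) (Q.ge_pow h2 (p - 1 - d))))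
        (TwTameR_inv hQ h)).mono ?_
      have h3 := hord Q e hQ
      have h5 := (hcd d).1
      have h6 : ((p - 1 - d : ℕ) : ℤ) = (p : ℤ) - 1 - d := by omega
      rw [h6]
      have he : (0 : ℤ) ≤ e := by positivity
      have hnd : (0 : ℤ) ≤ (p : ℤ) - 1 - d := by omega
      have h7 : (e : ℤ) * ((d : ℤ) * P.ord h) ≤ e * (((p : ℤ) - 1) * twc p h v d P) :=
        mul_le_mul_of_nonneg_left h5 he
      have h8 : ((p : ℤ) - 1 - d) * ((e : ℤ) * P.ord h) ≤
          ((p : ℤ) - 1 - d) * (((p : ℤ) - 1) * Q.ord w) :=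
        mul_le_mul_of_nonneg_left h3 hnd
      have h9 : -((e : ℤ) * twc p h v d P) ≤ ((p : ℤ) - 1 - d) * Q.ord w - e * P.ord h := by
        refine le_of_mul_le_mul_left ?_ hn
        nlinarith [h7, h8]
      linarith
  · intro hc Q e δ' hQ hQ'
    rw [hδ Q e δ' hQ hQ', ← T.sum_co a]
    refine Q.ge_sum _ _ fun d hd => ?_
    have h2 : Q.ge (Q.ord w) w := Or.inr le_rfl
    have h1 := Q.ge_mul ((hQ.ge_iff _ _).2 (hc d (Finset.mem_range.1 hd))) (Q.ge_pow h2 d)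
    refine h1.mono ?_
    have h3 := hord Q e hQ
    have h5 := (hcd d).2
    have he : (0 : ℤ) < e := by exact_mod_cast hQ.1
    have h7 : (e : ℤ) * (((p : ℤ) - 1) * twc p h v d P) ≤
        e * (d * P.ord h + ((p : ℤ) - 1) - 1) := mul_le_mul_of_nonneg_left h5 he.le
    have h8 : (d : ℤ) * ((e : ℤ) * P.ord h) ≤ d * (((p : ℤ) - 1) * Q.ord w) :=
      mul_le_mul_of_nonneg_left h3 (by positivity)
    have h9 : -(e : ℤ) < d * Q.ord w - e * twc p h v d P := by
      refine lt_of_mul_lt_mul_left ?_ hn.le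
      nlinarith [h7, h8]
    linarith

end Pool.Agent.PRB
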