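import Pool.Agent.LibPRB.TwWildD
import Pool.Agent.LibPRB.RamG

/-!
# The cover `w ^ p = h w + v` at the places with `twD > 0`: regularity

PLAN. `e = p`, `Q.ord w = ν := P.ord v`, `p ∤ ν`, `δ' = p δ + (p - 1) + twD` (`tw_wild_diff`).  In
`a = ∑ d < p, algebraMap (a_d) * w ^ d` (`T.sum_co`) the `Q`-orders `p * P.ord a_d + d * ν` of the nonzero
terms are distinct (`p ∤ ν`), so `Q.ge n a ↔ ∀ d < p, Q.ge n (algebraMap (a_d) * w ^ d)` (compare
`RamG_min`, `RamG_main`, file RamG.lean, or the proof of `OverRam.ge_iff` if it exists there).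
Finally, for `a_d ≠ 0`: `-δ' ≤ p * P.ord a_d + d * ν ↔ -δ - ((p - 1) + twD + d ν) / p ≤ P.ord a_d`
(floor division: `p (x + δ) ≥ -((p-1) + twD + d ν) ↔ x + δ ≥ -(((p-1) + twD + d ν) / p)`,
`Int.le_ediv_iff_mul_le`, `Int.ediv_mul_le`), and `twc` is this quotient (`if_pos`).
-/

set_option autoImplicit false

namespace Pool.Agent.PRB

variable {p : ℕ} [Fact p.Prime] {k K L : Type} [Field k] [Field K] [Field L]
  [Algebra k K] [Algebra k L] [Algebra K L] [IsScalarTower k K L] {h v : K} {w : L}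

theorem TwWildR_term {P : Plc k K} {Q : Plc k L} {ν : ℤ} (hw : w ≠ 0)
    (hQ1 : ∀ a : K, Q.ord (algebraMap K L a) = p * P.ord a) (hQ2 : Q.ord w = ν)
    {c : K} (hc : c ≠ 0) (i : ℕ) :
    algebraMap K L c * w ^ i ≠ 0 ∧
      Q.ord (algebraMap K L c * w ^ i) = p * P.ord c + i * ν := by
  have hc' : algebraMap K L c ≠ 0 := by simpa using hc
  refine ⟨mul_ne_zero hc' (pow_ne_zero _ hw), ?_⟩
  rw [Q.ord_mul hc' (pow_ne_zero _ hw), Q.ord_pow, hQ1, hQ2]

theorem TwWildR_main (T : IsTw p h v w) (hw : w ≠ 0) {P : Plc k K} {Q : Plc k L} {ν : ℤ}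
    (hp : ¬ (p : ℤ) ∣ ν)
    (hQ1 : ∀ a : K, Q.ord (algebraMap K L a) = p * P.ord a) (hQ2 : Q.ord w = ν)
    (a : L) (ha : a ≠ 0) :
    ∀ j, T.co a j ≠ 0 → Q.ord a ≤ p * P.ord (T.co a j) + j * ν := by
  have hex : ∃ i ∈ Finset.range p, algebraMap K L (T.co a i) * w ^ i ≠ 0 := by
    by_contra hcon
    push Not at hcon
    apply ha
    rw [← T.sum_co a]
    exact Finset.sum_eq_zero hcon
  have hne : ∀ i, algebraMap K L (T.co a i) * w ^ i ≠ 0 → T.co a i ≠ 0 := by
    intro i hi h0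
    apply hi
    rw [h0, map_zero, zero_mul]
  have hd : ∀ i ∈ Finset.range p, ∀ j ∈ Finset.range p,
      algebraMap K L (T.co a i) * w ^ i ≠ 0 → algebraMap K L (T.co a j) * w ^ j ≠ 0 →
      Q.ord (algebraMap K L (T.co a i) * w ^ i) = Q.ord (algebraMap K L (T.co a j) * w ^ j) →
      i = j := by
    intro i hi j hj hfi hfj he
    rw [(TwWildR_term hw hQ1 hQ2 (hne i hfi) i).2,
      (TwWildR_term hw hQ1 hQ2 (hne j hfj) j).2] at he
    have h1 : (p : ℤ) ∣ ((i : ℤ) - j) * ν :=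
      ⟨P.ord (T.co a j) - P.ord (T.co a i), by linear_combination he⟩
    have hpp : Prime (p : ℤ) := Nat.prime_iff_prime_int.1 (Fact.out : p.Prime)
    rcases hpp.dvd_or_dvd h1 with h2 | h2
    · have hi' := Finset.mem_range.1 hi
      have hj' := Finset.mem_range.1 hj
      have h4 : (i : ℤ) - j = 0 := by
        apply Int.eq_zero_of_abs_lt_dvd h2
        rw [abs_lt]
        constructor <;> omega
      omega
    · exact absurd h2 hp
  obtain ⟨i, hiS, hfi, hmin, hord, _⟩ := RamG_min Q (Finset.range p)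
    (fun i => algebraMap K L (T.co a i) * w ^ i) hd hex
  rw [T.sum_co a] at hord
  intro j hj
  have hjp : j < p := by
    by_contra hcon
    exact hj (T.co_of_le a (not_lt.1 hcon))
  have h1 := hmin j (Finset.mem_range.2 hjp) (TwWildR_term hw hQ1 hQ2 hj j).1
  rw [(TwWildR_term hw hQ1 hQ2 hj j).2] at h1
  rw [hord]
  exact h1

theorem TwWildR_ge_iff (T : IsTw p h v w) (hw : w ≠ 0) {P : Plc k K} {Q : Plc k L} {ν : ℤ}
    (hp : ¬ (p : ℤ) ∣ ν)
    (hQ1 : ∀ a : K, Q.ord (algebraMap K L a) = p * P.ord a) (hQ2 : Q.ord w = ν)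
    (n : ℤ) (a : L) :
    Q.ge n a ↔ ∀ i < p, T.co a i = 0 ∨ n ≤ p * P.ord (T.co a i) + i * ν := by
  by_cases ha : a = 0
  · subst ha
    exact ⟨fun _ i _ => Or.inl (T.co_zero i), fun _ => Q.ge_zero n⟩
  constructor
  · intro hn i _
    rw [Q.ge_iff ha] at hn
    by_cases hc : T.co a i = 0
    · exact Or.inl hc
    · exact Or.inr (hn.trans (TwWildR_main T hw hp hQ1 hQ2 a ha i hc))
  · intro hall
    rw [← T.sum_co a]
    refine Q.ge_sum _ _ fun i hi => ?_
    rcases hall i (Finset.mem_range.1 hi) with h0 | h1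
    · rw [h0, map_zero, zero_mul]; exact Q.ge_zero n
    · by_cases hc : T.co a i = 0
      · rw [hc, map_zero, zero_mul]; exact Q.ge_zero n
      · right
        rw [(TwWildR_term hw hQ1 hQ2 hc i).2]; exact h1

theorem TwWildR_w_ne (T : IsTw p h v w) : w ≠ 0 := by
  intro h0
  have hp : 1 < p := (Fact.out : p.Prime).one_lt
  have h1 := T.co_mul_w_pow 1 hp 1
  have h2 : algebraMap K L 1 * w = 0 := by rw [h0, mul_zero]
  rw [if_pos rfl, pow_one, h2, T.co_zero] at h1
  exact one_ne_zero h1.symm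

theorem tw_wild_reg [CharP k p] [CharP K p] (T : IsTw p h v w) (hh : h ≠ 0) (hv : v ≠ 0)
    {P : Plc k K} (h0 : 0 < twD p h v P) (hp : ¬ (p : ℤ) ∣ twD p h v P) {e : ℕ} {Q : Plc k L}
    (hQ : OverE e Q P) (D : Derivation k K K) (D' : Derivation k L L)
    (hD : ∀ a : K, D' (algebraMap K L a) = algebraMap K L (D a)) {δ δ' : ℤ}
    (hP : IsDiff P D δ) (hQ' : IsDiff Q D' δ') (a : L) :
    Q.ge (-δ') a ↔ ∀ d < p, P.ge (-δ - twc p h v d P) (T.co a d) := by
  have hδ := tw_wild_diff T hh hv h0 hp hQ D D' hD hP hQ'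
  obtain ⟨he, hw⟩ := tw_wild T hh hv h0 hp hQ
  have hpν : ¬ (p : ℤ) ∣ P.ord v := by
    rintro ⟨c, hc⟩
    apply hp
    refine ⟨P.ord h - (p - 1) * c, ?_⟩
    unfold twD
    rw [hc]
    ring
  have hp0 : (0 : ℤ) < p := by exact_mod_cast (Fact.out : p.Prime).pos
  subst he
  rw [TwWildR_ge_iff T (TwWildR_w_ne T) hpν hQ.2 hw]
  refine forall_congr' fun d => forall_congr' fun _ => ?_
  by_cases hc : T.co a d = 0
  · simp only [hc, true_or, true_iff]
    exact P.ge_zero _
  · rw [P.ge_iff hc]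
    simp only [hc, false_or]
    unfold twc
    rw [if_pos h0, hδ]
    have key : ∀ x A : ℤ, -A ≤ e * x ↔ -(A / e) ≤ x := by
      intro x A
      have h5 : -x ≤ A / e ↔ -x * e ≤ A := Int.le_ediv_iff_mul_le hp0
      constructor
      · intro h6
        have := h5.2 (by linarith)
        linarith
      · intro h6
        have := h5.1 (by linarith)
        linarith
    have h3 := key (P.ord (T.co a d) + δ) ((e - 1) + twD e h v P + d * P.ord v)
    constructor
    · intro h4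
      have := h3.1 (by linarith)
      linarith
    · intro h4
      have := h3.2 (by linarith)
      linarith

end Pool.Agent.PRB
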