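import Pool.Agent.LibPRB.TwS
import Pool.Agent.LibPRB.TwPB
import Pool.Agent.LibPRB.TwWildR
import Pool.Agent.LibPRB.TwTameR
import Pool.Agent.LibPRB.FinS

/-!
# The cover `w ^ p = h w + v`: function field and regular differentials

PLAN. `TwS.gf'`: `PB.of_Tw` (TwPB.lean), `disc_fin` (FinQ.lean), `exists_under_plc` and `diff_tw`,
`fsupp_fin` (FinS.lean).
`TwS.mem_regSp`: `mem_regSp`, `mem_polSp`.  (⇒) for `P` with `IsDiff P D δ`: if `0 < twD`: there is a `Q`
over `P` (`exists_over_plc`), with some `δ'` (`diff_tw`), and `tw_wild_reg`; if `twD ≤ 0`: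
`tw_tame_reg`.  (⇐) for `Q` with `IsDiff Q D' δ'` let `P` be the place below (`exists_under_plc`),
`A.gf.diff P` gives `δ`; again `tw_wild_reg` or `tw_tame_reg`.
-/

set_option autoImplicit false

namespace Pool.Agent.PRB

variable {p : ℕ} [Fact p.Prime] {k K L : Type} [Field k] [IsAlgClosed k] [CharP k p] [Field K]
  [Field L] [Algebra k K] [Algebra k L] [Algebra K L] [IsScalarTower k K L] {s : K}
  {D : Derivation k K K} {h v : K} {w : L} {D' : Derivation k L L}

theorem TwS.gf' (A : TwS p s D h v w D') : GF p (algebraMap K L s) D' := by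
  have : CharP K p := charP_of_injective_algebraMap (algebraMap k K).injective p
  have hfin : Module.Finite K L := A.tw.finite
  refine ⟨PB.of_Tw A.tw A.h0 A.gf.pb D' A.D_alg, disc_fin hfin A.gf.disc, fun Q => ?_,
    fsupp_fin hfin A.gf.disc A.gf.fsupp⟩
  obtain ⟨P, e, hQ⟩ := exists_under_plc hfin A.gf.disc Q
  obtain ⟨δ, hδ⟩ := A.gf.diff P
  exact diff_tw A.tw A.h0 D D' A.D_alg hδ hQ

theorem TwS.mem_regSp (A : TwS p s D h v w D') (a : L) :
    a ∈ regSp D' ↔ ∀ d < p, A.tw.co a d ∈ polSp D (twc p h v d) := by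
  have : CharP K p := charP_of_injective_algebraMap (algebraMap k K).injective p
  have hfin : Module.Finite K L := A.tw.finite
  rw [PRB.mem_regSp]
  constructor
  · intro ha d hd
    rw [mem_polSp]
    intro P δ hP
    by_cases h0 : 0 < twD p h v P
    · obtain ⟨Q, e, hQ⟩ := exists_over_plc hfin P
      obtain ⟨δ', hδ'⟩ := diff_tw A.tw A.h0 D D' A.D_alg hP hQ
      exact (tw_wild_reg A.tw A.h0 A.v0 h0 (A.hD P h0) hQ D D' A.D_alg hP hδ' a).1
        (ha Q δ' hδ') d hd
    · exact (tw_tame_reg A.tw A.h0 A.v0 (not_lt.1 h0) D D' A.D_alg hP a).1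
        (fun Q _ δ' _ h' => ha Q δ' h') d hd
  · intro ha Q δ' hQ'
    obtain ⟨P, e, hQ⟩ := exists_under_plc hfin A.gf.disc Q
    obtain ⟨δ, hP⟩ := A.gf.diff P
    by_cases h0 : 0 < twD p h v P
    · exact (tw_wild_reg A.tw A.h0 A.v0 h0 (A.hD P h0) hQ D D' A.D_alg hP hQ' a).2
        fun d hd => mem_polSp.1 (ha d hd) P δ hP
    · exact (tw_tame_reg A.tw A.h0 A.v0 (not_lt.1 h0) D D' A.D_alg hP a).2
        (fun d hd => mem_polSp.1 (ha d hd) P δ hP) Q e δ' hQ hQ'

end Pool.Agent.PRB
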