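import Pool.Agent.LibPRB.TwD
import Pool.Agent.LibPRB.GF

/-!
# Twisted Artin–Schreier covers of a function field: the structure
-/

set_option autoImplicit false

namespace Pool.Agent.PRB

/-- `L = K(w)`, `w ^ p = h w + v`, over the function field `K` with `D = d/ds`; at each place the
invariant `twD` is `≤ 0` or prime to `p`. -/
structure TwS (p : ℕ) {k K L : Type} [Field k] [Field K] [Field L] [Algebra k K] [Algebra k L]
    [Algebra K L] (s : K) (D : Derivation k K K) (h v : K) (w : L) (D' : Derivation k L L) :
    Prop where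
  gf : GF p s D
  tw : IsTw p h v w
  h0 : h ≠ 0
  v0 : v ≠ 0
  hD : ∀ P : Plc k K, 0 < twD p h v P → ¬ (p : ℤ) ∣ twD p h v P
  D_alg : ∀ a : K, D' (algebraMap K L a) = algebraMap K L (D a)

end Pool.Agent.PRB
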