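import Pool.Agent.LibPRB.TwTg

/-!
# The cover `w ^ p = h w + v` at the places with `twD ≤ 0`: no wild ramification

PLAN. `w ≠ 0` (`T.indep`).  Let `ω = Q.ord w`, `m = P.ord h`, `ν = P.ord v`, `p m ≤ (p - 1) ν`.
`tw_tame_ord`: otherwise `(p - 1) ω < e m`; then `Q.ord (h w) = e m + ω > p ω` and
`Q.ord v = e ν ≥ e p m / (p - 1) > p ω`, contradiction with `w ^ p = h w + v`.
`tw_tame_e`: suppose `p ∣ e`.  `1 ≤ e ≤ p` gives `e = p = finrank K L`, and `Q` is the only place over `P`
(`OverE.unique_of_eq`), so for every `y : L` with `Q.ge 0 y`: `P.ge 0 (trace y)` (`trace_ge`).  Let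
`π : K`, `P.ord π = 1`, `Q.ord (algebraMap π) = p`.  `(p - 1) ω ≥ p m` by `tw_tame_ord`.
(i) `(p - 1) ω > p m`: then `Q.ord (h w) = p m + ω < p ω = Q.ord (w ^ p)`, so `v = w ^ p - h w` has
`Q`-order `p m + ω`, i.e. `ω = p (ν - m)`.  Put `x = w / π ^ (ν - m)` (zpow): `Q.ord x = 0`,
`trace (x ^ (p-1)) = trace (w ^ (p-1)) / π ^ ((p-1) (ν - m)) = -h / π ^ ((p-1) (ν - m))` by `trace_tw`
(`T.co (w ^ (p-1)) (p-1) = 1`, `co_mul_w_pow`), so `m ≥ (p-1) (ν - m)`; but `(p-1) ω > p m` says
`(p-1) (ν - m) > m`.  Contradiction.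
(ii) `(p - 1) ω = p m`: then `m = (p - 1) μ`, `ω = p μ` (`p - 1` and `p` are coprime).  Put
`x = w / π ^ μ`, `Q.ord x = 0`; by `Q.exists_const` there is `c : k` with `b = x - c`, `b ≠ 0` (`w` is not
in the image of `K`: `T.indep`), `Q.ord b > 0`.  With `h' = h / π ^ ((p-1) μ)` (`P.ord h' = 0`),
`v' = v / π ^ (p μ)`: `x ^ p = h' x + v'`, so `b ^ p = h' b + V`, `V = h' c + v' - c ^ p` in `K`
(char `p`).  `V ≠ 0` and `Q.ord V = Q.ord b`, since `Q.ord (b ^ p) = p * Q.ord b > Q.ord b = Q.ord (h' b)`.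
So `Q.ord b = p β`, `β = P.ord V ≥ 1`.  `y = b / π ^ β` has `Q.ord y = 0`, so
`P.ge 0 (trace (y ^ (p-1)))`; but the coefficient of `w ^ (p-1)` of `(w / π ^ μ - c) ^ (p-1)` is
`π ^ (-(p-1) μ)`, so by `trace_tw` `trace (y ^ (p-1)) = -h' / π ^ ((p-1) β)` of order `-(p-1) β < 0`.
(For the coefficient: `add_pow`/`sub_pow`: all other terms are `K`-multiples of `w ^ j`, `j < p - 1`.)
-/

set_option autoImplicit false

namespace Pool.Agent.PRB

variable {p : ℕ} [Fact p.Prime] {k K L : Type} [Field k] [Field K] [Field L]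
  [Algebra k K] [Algebra k L] [Algebra K L] [IsScalarTower k K L] {h v : K} {w : L}

omit [Algebra k K] [Algebra k L] [IsScalarTower k K L] [Field k] in
private theorem TwTame_w_ne (T : IsTw p h v w) : w ≠ 0 := by
  intro h0
  have h1 := T.co_mul_w_pow 1 (Fact.out : p.Prime).one_lt 1
  rw [map_one, one_mul, pow_one, if_pos rfl] at h1
  have h2 : T.co w 1 = T.co 0 1 := congrArg (fun z => T.co z 1) h0
  rw [h1, T.co_zero] at h2
  exact one_ne_zero h2

theorem tw_tame_ord (T : IsTw p h v w) (hh : h ≠ 0) (hv : v ≠ 0) {P : Plc k K}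
    (h0 : twD p h v P ≤ 0) {e : ℕ} {Q : Plc k L} (hQ : OverE e Q P) :
    e * P.ord h ≤ (p - 1) * Q.ord w := by
  by_contra hcon
  rw [not_le] at hcon
  have hw := TwTame_w_ne T
  have hah : algebraMap K L h ≠ 0 := (map_ne_zero _).2 hh
  have hav : algebraMap K L v ≠ 0 := (map_ne_zero _).2 hv
  have hp1 : (1 : ℤ) < p := by exact_mod_cast (Fact.out : p.Prime).one_lt
  have he : (1 : ℤ) ≤ e := by exact_mod_cast hQ.1
  unfold twD at h0
  have h1 : Q.ord (w ^ p) = p * Q.ord w := Q.ord_pow p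
  have h2 : Q.ord (algebraMap K L h * w) = e * P.ord h + Q.ord w := by
    rw [Q.ord_mul hah hw, hQ.2]
  have h3 : Q.ord (algebraMap K L v) = e * P.ord v := hQ.2 v
  have h4 : (p : ℤ) * Q.ord w < e * P.ord v := by
    have h5 : (e : ℤ) * (p * P.ord h - (p - 1) * P.ord v) ≤ 0 :=
      mul_nonpos_of_nonneg_of_nonpos (by omega) h0
    have h6 : (p : ℤ) * ((p - 1) * Q.ord w) < p * (e * P.ord h) :=
      mul_lt_mul_of_pos_left hcon (by omega)
    have h7 : ((p : ℤ) - 1) * (p * Q.ord w) < (p - 1) * (e * P.ord v) := by linarith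
    exact lt_of_mul_lt_mul_left h7 (by omega)
  have h5 : Q.ge (Q.ord (w ^ p) + 1) (-(algebraMap K L h * w + algebraMap K L v)) := by
    apply Q.ge_neg
    apply Q.ge_add
    · right
      rw [h1, h2]
      linarith
    · right
      rw [h1, h3]
      linarith
  have h6 := (Q.ord_add_eq (pow_ne_zero p hw) h5).1
  rw [T.eq] at h6
  exact h6 (add_neg_cancel _)

omit [Algebra k K] [Algebra k L] [IsScalarTower k K L] [Field k] in
private theorem TwTame_co (T : IsTw p h v w) (u d : K) :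
    T.co ((algebraMap K L u * w + algebraMap K L d) ^ (p - 1)) (p - 1) = u ^ (p - 1) := by
  have hp1 : p - 1 < p := by
    have := (Fact.out : p.Prime).one_lt
    omega
  rw [add_pow, T.co_sum]
  have h1 : ∀ j ∈ Finset.range (p - 1 + 1),
      T.co ((algebraMap K L u * w) ^ j * algebraMap K L d ^ (p - 1 - j) *
        ((p - 1).choose j : L)) (p - 1) =
      if p - 1 = j then u ^ (p - 1) else 0 := by
    intro j hj
    have hj' : j < p := by
      have := Finset.mem_range.1 hj
      omega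
    have h2 : (algebraMap K L u * w) ^ j * algebraMap K L d ^ (p - 1 - j) *
        ((p - 1).choose j : L) =
        algebraMap K L (u ^ j * d ^ (p - 1 - j) * ((p - 1).choose j : K)) * w ^ j := by
      rw [map_mul, map_mul, map_pow, map_pow, map_natCast, mul_pow]
      ring
    rw [h2, T.co_mul_w_pow _ hj']
    by_cases hjp : p - 1 = j
    · rw [if_pos hjp, if_pos hjp, ← hjp, Nat.sub_self, pow_zero, Nat.choose_self]
      simp
    · rw [if_neg hjp, if_neg hjp]
  rw [Finset.sum_congr rfl h1, Finset.sum_ite_eq]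
  rw [if_pos (Finset.mem_range.2 (by omega))]

theorem tw_tame_e [IsAlgClosed k] [CharP K p] (T : IsTw p h v w) (hh : h ≠ 0) (hv : v ≠ 0)
    {P : Plc k K} (h0 : twD p h v P ≤ 0) {e : ℕ} {Q : Plc k L} (hQ : OverE e Q P) : ¬ p ∣ e := by
  intro hpe
  have hfin := T.finite
  have hep : e = p := by
    have h1 := OverE.le_finrank hfin hQ
    rw [T.finrank] at h1
    exact le_antisymm h1 (Nat.le_of_dvd hQ.1 hpe)
  subst hep
  -- now `e` is the prime
  have huniq : ∀ (Q' : Plc k L) (e' : ℕ), OverE e' Q' P → Q' = Q := fun Q' e' h' =>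
    OverE.unique_of_eq hfin hQ T.finrank.symm h'
  have htr : ∀ y : L, Q.ge 0 y → P.ge 0 (Algebra.trace K L y) := by
    intro y hy
    refine trace_ge hfin P y fun Q' e' h' => ?_
    rw [huniq Q' e' h']
    exact hy
  have hw := TwTame_w_ne T
  have hah : algebraMap K L h ≠ 0 := (map_ne_zero _).2 hh
  have hav : algebraMap K L v ≠ 0 := (map_ne_zero _).2 hv
  have hp1 : (1 : ℤ) < e := by exact_mod_cast (Fact.out : e.Prime).one_lt
  have hpn : 1 < e := (Fact.out : e.Prime).one_lt
  have hcast : ((e - 1 : ℕ) : ℤ) = e - 1 := by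
    rw [Nat.cast_sub hpn.le, Nat.cast_one]
  have hord := tw_tame_ord T hh hv h0 hQ
  obtain ⟨π, hπ, hπ1⟩ := P.exists_unif
  have hzne : ∀ n : ℤ, π ^ n ≠ 0 := fun n => zpow_ne_zero n hπ
  have hzord : ∀ n : ℤ, P.ord (π ^ n) = n := fun n => by rw [P.ord_zpow, hπ1, mul_one]
  have haz : ∀ n : ℤ, algebraMap K L (π ^ n) ≠ 0 := fun n => (map_ne_zero _).2 (hzne n)
  rcases lt_or_eq_of_le hord with hlt | heq
  · -- case (i)
    have h1 : Q.ord (-(algebraMap K L h * w)) = e * P.ord h + Q.ord w := by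
      rw [Q.ord_neg, Q.ord_mul hah hw, hQ.2]
    have h2 : algebraMap K L v = -(algebraMap K L h * w) + w ^ e := by
      rw [T.eq]
      ring
    have h3 : Q.ord (algebraMap K L v) = e * P.ord h + Q.ord w := by
      rw [h2, (Q.ord_add_eq' (neg_ne_zero.2 (mul_ne_zero hah hw)) (pow_ne_zero e hw) (by
        rw [h1, Q.ord_pow]
        linarith)).2, h1]
    rw [hQ.2] at h3
    have hω : Q.ord w = e * (P.ord v - P.ord h) := by linarith
    set c : K := (π ^ (-(P.ord v - P.ord h))) ^ (e - 1) with hc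
    have hc0 : c ≠ 0 := pow_ne_zero _ (hzne _)
    have hcord : P.ord c = (e - 1) * (-(P.ord v - P.ord h)) := by
      rw [hc, P.ord_pow, hzord, hcast]
    have h4 : Q.ge 0 (algebraMap K L c * w ^ (e - 1)) := by
      right
      rw [Q.ord_mul ((map_ne_zero _).2 hc0) (pow_ne_zero _ hw), hQ.2, hcord, Q.ord_pow, hω,
        hcast]
      exact le_of_eq (by ring)
    have h5 := htr _ h4
    rw [trace_tw T, T.co_mul_w_pow c (by omega), if_pos rfl,
      P.ge_iff (mul_ne_zero (neg_ne_zero.2 hh) hc0), P.ord_mul (neg_ne_zero.2 hh) hc0,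
      P.ord_neg, hcord] at h5
    rw [hω] at hlt
    have h6 : (e : ℤ) * P.ord h < e * ((e - 1) * (P.ord v - P.ord h)) := by linarith
    have h7 := lt_of_mul_lt_mul_left h6 (by omega)
    linarith
  · -- case (ii)
    have hcop : IsCoprime ((e : ℤ) - 1) (e : ℤ) := ⟨-1, 1, by ring⟩
    obtain ⟨μ, hμ⟩ : ((e : ℤ) - 1) ∣ P.ord h := by
      apply hcop.dvd_of_dvd_mul_left
      exact ⟨Q.ord w, heq⟩
    have hω : Q.ord w = e * μ := by
      rw [hμ] at heq
      have h1 : ((e : ℤ) - 1) * Q.ord w = (e - 1) * (e * μ) := by linarith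
      exact mul_left_cancel₀ (by omega) h1
    set u : K := π ^ (-μ) with hu
    have hu0 : u ≠ 0 := hzne _
    have hau : algebraMap K L u ≠ 0 := (map_ne_zero _).2 hu0
    have huord : P.ord u = -μ := hzord _
    have hx : Q.ord (algebraMap K L u * w) = 0 := by
      rw [Q.ord_mul hau hw, hQ.2, huord, hω]
      ring
    obtain ⟨c, hc⟩ := Q.res (a := algebraMap K L u * w) (Or.inr hx.ge)
    set d : K := -(algebraMap k K c) with hd
    set b : L := algebraMap K L u * w + algebraMap K L d with hb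
    have hbc : algebraMap K L u * w - algebraMap k L c = b := by
      rw [hb, hd, map_neg, ← IsScalarTower.algebraMap_apply k K L, sub_eq_add_neg]
    rw [hbc] at hc
    have hb0 : b ≠ 0 := by
      intro hb1
      have h1 : T.co b 1 = T.co 0 1 := congrArg (fun z => T.co z 1) hb1
      have h2 := T.co_mul_w_pow u (Fact.out : e.Prime).one_lt 1
      rw [pow_one, if_pos rfl] at h2
      rw [hb, T.co_add, h2, T.co_algebraMap, if_neg one_ne_zero, T.co_zero, add_zero] at h1
      exact hu0 h1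
    have hb1 : 1 ≤ Q.ord b := (Q.ge_iff hb0).1 hc
    haveI : CharP L e := charP_of_injective_algebraMap (algebraMap K L).injective e
    set h' : K := h * u ^ (e - 1) with hh'
    have hh'0 : h' ≠ 0 := mul_ne_zero hh (pow_ne_zero _ hu0)
    have hh'ord : P.ord h' = 0 := by
      rw [hh', P.ord_mul hh (pow_ne_zero _ hu0), P.ord_pow, huord, hμ, hcast]
      ring
    set V : K := -(h' * d) + v * u ^ e + d ^ e with hV
    have hbp : b ^ e = algebraMap K L h' * b + algebraMap K L V := by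
      have h1 : b ^ e = (algebraMap K L u * w) ^ e + algebraMap K L d ^ e := by
        rw [hb]
        exact add_pow_char _ _ _
      have h2 : u ^ e = u ^ (e - 1) * u := by
        rw [← pow_succ]
        congr 1
        omega
      rw [h1, mul_pow, T.eq, hV, hh', hb]
      simp only [map_add, map_neg, map_mul, map_pow]
      have h3 : algebraMap K L u ^ e = algebraMap K L u ^ (e - 1) * algebraMap K L u := by
        rw [← map_pow, h2, map_mul, map_pow]
      rw [h3]
      ring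
    have hhb : algebraMap K L h' * b ≠ 0 := mul_ne_zero ((map_ne_zero _).2 hh'0) hb0
    have hhbord : Q.ord (-(algebraMap K L h' * b)) = Q.ord b := by
      rw [Q.ord_neg, Q.ord_mul ((map_ne_zero _).2 hh'0) hb0, hQ.2, hh'ord, mul_zero, zero_add]
    have hVeq : algebraMap K L V = -(algebraMap K L h' * b) + b ^ e := by
      rw [hbp]
      ring
    have hVo := Q.ord_add_eq' (neg_ne_zero.2 hhb) (pow_ne_zero e hb0) (by
      rw [hhbord, Q.ord_pow]
      nlinarith)
    rw [← hVeq, hhbord, hQ.2] at hVo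
    obtain ⟨-, hVo⟩ := hVo
    set β : ℤ := P.ord V with hβ
    have hβ1 : 1 ≤ β := by
      by_contra hcon
      have : (e : ℤ) * β ≤ 0 := mul_nonpos_of_nonneg_of_nonpos (by omega) (by omega)
      omega
    have hy : Q.ge 0 (algebraMap K L ((π ^ (-β)) ^ (e - 1)) * b ^ (e - 1)) := by
      right
      rw [Q.ord_mul ((map_ne_zero _).2 (pow_ne_zero _ (hzne _))) (pow_ne_zero _ hb0), hQ.2,
        P.ord_pow, hzord, Q.ord_pow, ← hVo]
      exact le_of_eq (by ring)
    have h5 := htr _ hy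
    rw [trace_tw T, T.co_mul, hb, TwTame_co T u d,
      P.ge_iff (mul_ne_zero (neg_ne_zero.2 hh)
        (mul_ne_zero (pow_ne_zero _ (hzne _)) (pow_ne_zero _ hu0))),
      P.ord_mul (neg_ne_zero.2 hh) (mul_ne_zero (pow_ne_zero _ (hzne _)) (pow_ne_zero _ hu0)),
      P.ord_mul (pow_ne_zero _ (hzne _)) (pow_ne_zero _ hu0), P.ord_neg, P.ord_pow, hzord,
      P.ord_pow, huord, hμ, hcast] at h5
    have h6 : (0 : ℤ) < (e - 1) * β := mul_pos (by omega) (by omega)
    linarith

end Pool.Agent.PRB
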