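import Pool.Agent.LibPRB.TwL

/-!
# The cover `w ^ p = h w + v`: trace

PLAN. `trace_tw`: both sides are `K`-linear in `a`, so take `a = w ^ j`, `j < p` (basis
`T.TwL_basis`; `Algebra.trace_eq_matrix_trace` and `Matrix.trace`): the coefficient of `w ^ i` of
`w ^ (j + i)` is `1` if `j = 0`; `h` if `j = p - 1` and `i ≥ 1`
(`w ^ (p - 1 + i) = h w ^ i + v w ^ (i - 1)`); `0` otherwise.  So the trace of `w ^ 0` is `p = 0`,
the trace of `w ^ (p - 1)` is `(p - 1) h = -h`, the others are `0`.
`co_eq_trace`, `co_zero_eq_trace`: linear in `a`, check on `a = w ^ i`, `i < p`, with `trace_tw`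
(write `m = i + (p - 1 - d)`; if `m ≥ p` then `w ^ m = h w ^ (m - p + 1) + v w ^ (m - p)`).
`trace_pow_tw`: `a = ∑ a_d w ^ d`, `a ^ p = ∑ a_d ^ p (h w + v) ^ d`, and the coefficient of
`w ^ (p - 1)` of `(h w + v) ^ d` is `h ^ (p - 1)` for `d = p - 1`, and `0` for `d < p - 1`; then
`trace_tw` twice and `(-1) ^ p = -1` in characteristic `p`.
-/

set_option autoImplicit false

namespace Pool.Agent.PRB

variable {p : ℕ} [Fact p.Prime] {K L : Type} [Field K] [Field L] [Algebra K L] {h v : K} {w : L}

private theorem TwTr_lt (T : IsTw p h v w) {m : ℕ} (hm : m < p) (i : ℕ) :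
    T.co (w ^ m) i = if i = m then 1 else 0 := by
  have h1 := T.co_mul_w_pow 1 hm i
  rwa [map_one, one_mul] at h1

private theorem TwTr_ge (T : IsTw p h v w) {m : ℕ} (hm : p ≤ m) (hm2 : m + 1 < 2 * p) (i : ℕ) :
    T.co (w ^ m) i = (if i = m - p + 1 then h else 0) + (if i = m - p then v else 0) := by
  have h1 : w ^ m = algebraMap K L h * w ^ (m - p + 1) + algebraMap K L v * w ^ (m - p) := by
    have h2 : w ^ m = w ^ (m - p) * w ^ p := by
      rw [← pow_add]
      congr 1
      omega
    rw [h2, T.eq, pow_succ]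
    ring
  rw [h1, T.co_add, T.co_mul_w_pow h (by omega), T.co_mul_w_pow v (by omega)]

private theorem TwTr_repr (T : IsTw p h v w) (x : L) (i : Fin p) :
    T.TwL_basis.repr x i = T.co x i := by
  have h1 : x = ∑ j : Fin p, T.co x j • T.TwL_basis j := by
    conv_lhs => rw [← T.sum_co x]
    rw [Finset.sum_range]
    refine Finset.sum_congr rfl fun j _ => ?_
    rw [Algebra.smul_def]
    unfold IsTw.TwL_basis
    rw [Module.Basis.mk_apply]
  have h2 := congrArg (fun y => T.TwL_basis.repr y i) h1
  rw [h2, Module.Basis.repr_sum_self]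

private theorem TwTr_trace (T : IsTw p h v w) (a : L) :
    Algebra.trace K L a = ∑ i ∈ Finset.range p, T.co (a * w ^ i) i := by
  classical
  rw [Algebra.trace_eq_matrix_trace T.TwL_basis, Matrix.trace, Finset.sum_range]
  refine Finset.sum_congr rfl fun i _ => ?_
  rw [Matrix.diag_apply, Algebra.leftMulMatrix_eq_repr_mul, TwTr_repr]
  unfold IsTw.TwL_basis
  rw [Module.Basis.mk_apply]

private theorem TwTr_wpow [CharP K p] (T : IsTw p h v w) {j : ℕ} (hj : j < p) :
    Algebra.trace K L (w ^ j) = if j = p - 1 then -h else 0 := by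
  have hp2 : 2 ≤ p := (Fact.out : p.Prime).two_le
  have hp0 : (p : K) = 0 := CharP.cast_eq_zero K p
  rw [TwTr_trace T]
  have hterm : ∀ i ∈ Finset.range p, T.co (w ^ j * w ^ i) i =
      if j = 0 then 1 else if j = p - 1 then (if i = 0 then 0 else h) else 0 := by
    intro i hi
    have hi' := Finset.mem_range.1 hi
    rw [← pow_add]
    by_cases hlt : j + i < p
    · rw [TwTr_lt T hlt]
      by_cases h0 : j = 0
      · rw [if_pos h0, if_pos (by omega)]
      · rw [if_neg (by omega), if_neg h0]
        split_ifs with h3 h4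
        · rfl
        · omega
        · rfl
    · rw [TwTr_ge T (by omega) (by omega)]
      by_cases h0 : j = 0
      · omega
      · rw [if_neg h0, if_neg (show ¬ (i = j + i - p) by omega), add_zero]
        by_cases h5 : j = p - 1
        · rw [if_pos h5, if_pos (by omega), if_neg (by omega)]
        · rw [if_neg h5, if_neg (by omega)]
  rw [Finset.sum_congr rfl hterm]
  by_cases h0 : j = 0
  · rw [if_neg (show ¬ (j = p - 1) by omega)]
    simp only [if_pos h0]
    rw [Finset.sum_const, Finset.card_range, nsmul_eq_mul, hp0, zero_mul]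
  · simp only [if_neg h0]
    by_cases h5 : j = p - 1
    · simp only [if_pos h5]
      have h6 : ∀ i ∈ Finset.range p, (if i = 0 then (0 : K) else h) = h - (if i = 0 then h else 0) := by
        intro i _
        split_ifs
        · rw [sub_self]
        · rw [sub_zero]
      rw [Finset.sum_congr rfl h6, Finset.sum_sub_distrib, Finset.sum_const, Finset.card_range,
        nsmul_eq_mul, hp0, zero_mul, Finset.sum_ite_eq', if_pos (Finset.mem_range.2 (by omega)),
        zero_sub]
    · simp only [if_neg h5]
      exact Finset.sum_const_zero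

theorem trace_tw [CharP K p] (T : IsTw p h v w) (a : L) :
    Algebra.trace K L a = -h * T.co a (p - 1) := by
  have hp2 : 2 ≤ p := (Fact.out : p.Prime).two_le
  conv_lhs => rw [← T.sum_co a]
  rw [map_sum]
  have h1 : ∀ i ∈ Finset.range p, Algebra.trace K L (algebraMap K L (T.co a i) * w ^ i) =
      if i = p - 1 then -h * T.co a (p - 1) else 0 := by
    intro i hi
    rw [← Algebra.smul_def, map_smul, TwTr_wpow T (Finset.mem_range.1 hi), smul_eq_mul]
    split_ifs with h2
    · rw [h2, mul_comm]
    · rw [mul_zero]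
  rw [Finset.sum_congr rfl h1, Finset.sum_ite_eq', if_pos (Finset.mem_range.2 (by omega))]

/-- the coefficient of `w ^ (p - 1)` of `a * w ^ e` -/
private theorem TwTr_mulpow (T : IsTw p h v w) (a : L) {e : ℕ} (he : e < p) :
    T.co (a * w ^ e) (p - 1) = T.co a (p - 1 - e) +
      if e = p - 1 then h * T.co a (p - 1) else 0 := by
  have hp2 : 2 ≤ p := (Fact.out : p.Prime).two_le
  have h0 : a * w ^ e = ∑ i ∈ Finset.range p, algebraMap K L (T.co a i) * w ^ (i + e) := by
    conv_lhs => rw [← T.sum_co a]
    rw [Finset.sum_mul]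
    refine Finset.sum_congr rfl fun i _ => ?_
    rw [mul_assoc, ← pow_add]
  rw [h0, T.co_sum]
  have h1 : ∀ i ∈ Finset.range p, T.co (algebraMap K L (T.co a i) * w ^ (i + e)) (p - 1) =
      (if i = p - 1 - e then T.co a (p - 1 - e) else 0) +
        (if i = p - 1 then (if e = p - 1 then h * T.co a (p - 1) else 0) else 0) := by
    intro i hi
    have hi' := Finset.mem_range.1 hi
    rw [T.co_mul]
    by_cases hlt : i + e < p
    · rw [TwTr_lt T hlt]
      by_cases h3 : i = p - 1 - e
      · rw [if_pos (by omega), if_pos h3, mul_one]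
        by_cases h4 : i = p - 1
        · rw [if_pos h4, if_neg (by omega), add_zero, h3]
        · rw [if_neg h4, add_zero, h3]
      · rw [if_neg (by omega), if_neg h3, mul_zero, zero_add]
        split_ifs with h4 h5
        · omega
        · rfl
        · rfl
    · rw [TwTr_ge T (by omega) (by omega), if_neg (show ¬ (p - 1 = i + e - p) by omega), add_zero]
      by_cases h4 : i = p - 1
      · by_cases h5 : e = p - 1
        · rw [if_pos (by omega), if_neg (by omega), if_pos h4, if_pos h5, zero_add, h4, mul_comm]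
        · rw [if_neg (by omega), if_pos h4, if_neg h5, mul_zero, add_zero]
          rw [if_neg (by omega)]
      · rw [if_neg (by omega), if_neg (by omega), if_neg h4, mul_zero, add_zero]
  rw [Finset.sum_congr rfl h1, Finset.sum_add_distrib, Finset.sum_ite_eq', Finset.sum_ite_eq',
    if_pos (Finset.mem_range.2 (by omega)), if_pos (Finset.mem_range.2 (by omega))]

private theorem TwTr_div [CharP K p] (T : IsTw p h v w) (hh : h ≠ 0) (x : L) :
    Algebra.trace K L (-x / algebraMap K L h) = T.co x (p - 1) := by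
  rw [trace_tw T]
  have h1 : -x / algebraMap K L h = algebraMap K L (-h⁻¹) * x := by
    rw [map_neg, map_inv₀, neg_div, div_eq_inv_mul, neg_mul]
  rw [h1, T.co_mul, ← mul_assoc]
  have h2 : -h * -h⁻¹ = 1 := by
    rw [neg_mul_neg, mul_inv_cancel₀ hh]
  rw [h2, one_mul]

theorem co_eq_trace [CharP K p] (T : IsTw p h v w) (hh : h ≠ 0) (a : L) (d : ℕ) (h1 : 1 ≤ d)
    (hd : d < p) :
    T.co a d = Algebra.trace K L (-(a * w ^ (p - 1 - d)) / algebraMap K L h) := by
  rw [TwTr_div T hh, TwTr_mulpow T a (show p - 1 - d < p by omega), if_neg (by omega), add_zero]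
  congr 1
  omega

theorem co_zero_eq_trace [CharP K p] (T : IsTw p h v w) (hh : h ≠ 0) (a : L) :
    T.co a 0 = Algebra.trace K L (a * (1 - w ^ (p - 1) / algebraMap K L h)) := by
  have hp2 : 2 ≤ p := (Fact.out : p.Prime).two_le
  have h1 : a * (1 - w ^ (p - 1) / algebraMap K L h) =
      a + -(a * w ^ (p - 1)) / algebraMap K L h := by
    ring
  rw [h1, map_add, TwTr_div T hh, trace_tw T, TwTr_mulpow T a (show p - 1 < p by omega), if_pos rfl,
    Nat.sub_self]
  ring

theorem trace_pow_tw [CharP K p] (T : IsTw p h v w) (a : L) :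
    Algebra.trace K L (a ^ p) = Algebra.trace K L a ^ p := by
  have hp2 : 2 ≤ p := (Fact.out : p.Prime).two_le
  have : CharP L p := charP_of_injective_algebraMap (algebraMap K L).injective p
  rw [trace_tw T, trace_tw T]
  have h1 : a ^ p = ∑ d ∈ Finset.range p, ∑ k ∈ Finset.range (d + 1),
      algebraMap K L (T.co a d ^ p * (h ^ k * v ^ (d - k) * (d.choose k : K))) * w ^ k := by
    conv_lhs => rw [← T.sum_co a]
    rw [sum_pow_char p]
    refine Finset.sum_congr rfl fun d _ => ?_
    rw [mul_pow, ← pow_mul, mul_comm d p, pow_mul, T.eq, add_pow, Finset.mul_sum]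
    refine Finset.sum_congr rfl fun k _ => ?_
    rw [map_mul, map_mul, map_mul, map_pow, map_pow, map_pow, map_natCast, mul_pow]
    ring
  have h2 : T.co (a ^ p) (p - 1) = T.co a (p - 1) ^ p * h ^ (p - 1) := by
    rw [h1, T.co_sum]
    have h3 : ∀ d ∈ Finset.range p, T.co (∑ k ∈ Finset.range (d + 1),
        algebraMap K L (T.co a d ^ p * (h ^ k * v ^ (d - k) * (d.choose k : K))) * w ^ k) (p - 1) =
        if d = p - 1 then T.co a (p - 1) ^ p * h ^ (p - 1) else 0 := by
      intro d hd
      have hd' := Finset.mem_range.1 hd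
      rw [T.co_sum]
      have h4 : ∀ k ∈ Finset.range (d + 1), T.co
          (algebraMap K L (T.co a d ^ p * (h ^ k * v ^ (d - k) * (d.choose k : K))) * w ^ k) (p - 1) =
          if k = p - 1 then (T.co a d ^ p * (h ^ (p - 1) * v ^ (d - (p - 1)) *
            (d.choose (p - 1) : K))) else 0 := by
        intro k hk
        have hk' := Finset.mem_range.1 hk
        rw [T.co_mul_w_pow _ (show k < p by omega)]
        by_cases h5 : k = p - 1
        · rw [if_pos h5.symm, if_pos h5, h5]
        · rw [if_neg (fun h6 => h5 h6.symm), if_neg h5]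
      rw [Finset.sum_congr rfl h4, Finset.sum_ite_eq']
      by_cases h5 : d = p - 1
      · rw [if_pos (Finset.mem_range.2 (by omega)), if_pos h5, h5, Nat.sub_self, pow_zero,
          Nat.choose_self, Nat.cast_one, mul_one, mul_one]
      · rw [if_neg (fun h6 => h5 (by have := Finset.mem_range.1 h6; omega)), if_neg h5]
    rw [Finset.sum_congr rfl h3, Finset.sum_ite_eq', if_pos (Finset.mem_range.2 (by omega))]
  rw [h2, mul_pow, neg_pow h p, neg_one_pow_char K p]
  have h7 : h ^ p = h * h ^ (p - 1) := by
    rw [← pow_succ']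
    congr 1
    omega
  rw [h7]
  ring

end Pool.Agent.PRB
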