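import Pool.Agent.LibPRB.TwL
import Pool.Agent.LibPRB.FinU

/-!
# The cover `w ^ p = h w + v` at the places with `twD > 0`: total ramification
-/

set_option autoImplicit false

namespace Pool.Agent.PRB

variable {p : ℕ} [Fact p.Prime] {k K L : Type} [Field k] [Field K] [Field L]
  [Algebra k K] [Algebra k L] [Algebra K L] [IsScalarTower k K L] {h v : K} {w : L}

omit [Algebra k K] [Algebra k L] [IsScalarTower k K L] [Field k] in
private theorem TwWild_ne (T : IsTw p h v w) (hv : v ≠ 0) : w ≠ 0 := by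
  intro hw
  have h1 := T.eq
  have hp0 : p ≠ 0 := (Fact.out : p.Prime).ne_zero
  rw [hw, zero_pow hp0, mul_zero, zero_add] at h1
  exact hv ((map_eq_zero (algebraMap K L)).1 h1.symm)

theorem tw_wild (T : IsTw p h v w) (hh : h ≠ 0) (hv : v ≠ 0) {P : Plc k K}
    (h0 : 0 < twD p h v P) (hp : ¬ (p : ℤ) ∣ twD p h v P) {e : ℕ} {Q : Plc k L}
    (hQ : OverE e Q P) : e = p ∧ Q.ord w = P.ord v := by
  have hw := TwWild_ne T hv
  have hprime : p.Prime := Fact.out
  have hp2 : (2 : ℤ) ≤ p := by exact_mod_cast hprime.two_le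
  have hH0 : algebraMap K L h ≠ 0 := (map_ne_zero (algebraMap K L)).2 hh
  have hV0 : algebraMap K L v ≠ 0 := (map_ne_zero (algebraMap K L)).2 hv
  obtain ⟨he0, hord⟩ := hQ
  have he0' : (0 : ℤ) < e := by exact_mod_cast he0
  unfold twD at h0 hp
  obtain ⟨m, hm⟩ : ∃ m : ℤ, m = P.ord h := ⟨_, rfl⟩
  obtain ⟨ν, hν⟩ : ∃ ν : ℤ, ν = P.ord v := ⟨_, rfl⟩
  obtain ⟨ω, hω⟩ : ∃ ω : ℤ, ω = Q.ord w := ⟨_, rfl⟩
  have hH : Q.ord (algebraMap K L h) = e * m := by rw [hord, hm]
  have hV : Q.ord (algebraMap K L v) = e * ν := by rw [hord, hν]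
  have hW : Q.ord (w ^ p) = p * ω := by rw [Q.ord_pow, hω]
  have hHW : Q.ord (algebraMap K L h * w) = e * m + ω := by
    rw [Q.ord_mul hH0 hw, hH, hω]
  rw [← hm, ← hν] at h0 hp
  rw [← hω, ← hν]
  have hwp : w ^ p ≠ 0 := pow_ne_zero _ hw
  have heq : (p : ℤ) * ω = e * ν := by
    rcases lt_trichotomy ((p : ℤ) * ω) (e * ν) with hlt | heq | hgt
    · exfalso
      have h1 := Q.ord_add_eq' (a := w ^ p) (b := -algebraMap K L v) hwp (neg_ne_zero.2 hV0)
        (by rw [hW, Q.ord_neg, hV]; exact hlt)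
      have h2 : w ^ p + -algebraMap K L v = algebraMap K L h * w := by rw [T.eq]; ring
      rw [h2, hHW, hW] at h1
      have h3 := h1.2
      have h4 : (e : ℤ) * (p * m - (p - 1) * ν) < 0 := by
        have h5 : (e : ℤ) * m = (p - 1) * ω := by linarith
        have h6 : (e : ℤ) * (p * m - (p - 1) * ν) = (p - 1) * (p * ω - e * ν) := by
          calc (e : ℤ) * (p * m - (p - 1) * ν) = p * (e * m) - (p - 1) * (e * ν) := by ring
            _ = (p - 1) * (p * ω - e * ν) := by rw [h5]; ring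
        rw [h6]
        exact mul_neg_of_pos_of_neg (by linarith) (by linarith)
      have h7 : (0 : ℤ) < e * (p * m - (p - 1) * ν) := mul_pos he0' h0
      linarith
    · exact heq
    · exfalso
      have h1 := Q.ord_add_eq' (a := -algebraMap K L v) (b := w ^ p) (neg_ne_zero.2 hV0) hwp
        (by rw [hW, Q.ord_neg, hV]; exact hgt)
      have h2 : -algebraMap K L v + w ^ p = algebraMap K L h * w := by rw [T.eq]; ring
      rw [h2, hHW, Q.ord_neg, hV] at h1
      have h3 := h1.2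
      have h4 : (e : ℤ) * (p * m - (p - 1) * ν) < 0 := by
        have h5 : ω = e * ν - e * m := by linarith
        have h6 : (e : ℤ) * (p * m - (p - 1) * ν) = e * ν - p * ω := by
          rw [h5]; ring
        rw [h6]
        linarith
      have h7 : (0 : ℤ) < e * (p * m - (p - 1) * ν) := mul_pos he0' h0
      linarith
  have hpν : ¬ (p : ℤ) ∣ ν := by
    rintro ⟨t, ht⟩
    apply hp
    exact ⟨m - (p - 1) * t, by rw [ht]; ring⟩
  have hpe : p ∣ e := by
    have h1 : (p : ℤ) ∣ e * ν := ⟨ω, heq.symm⟩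
    have hpI : Prime (p : ℤ) := Nat.prime_iff_prime_int.1 hprime
    rcases hpI.dvd_or_dvd h1 with h2 | h2
    · exact_mod_cast h2
    · exact absurd h2 hpν
  have hle : e ≤ p := by
    have := OverE.le_finrank T.finite (Q := Q) (P := P) (e := e) ⟨he0, hord⟩
    rwa [T.finrank] at this
  have hep : e = p := le_antisymm hle (Nat.le_of_dvd he0 hpe)
  refine ⟨hep, ?_⟩
  rw [hep] at heq
  have hp0 : (p : ℤ) ≠ 0 := by linarith
  exact mul_left_cancel₀ hp0 heq

theorem tw_wild_unique (T : IsTw p h v w) (hh : h ≠ 0) (hv : v ≠ 0) {P : Plc k K}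
    (h0 : 0 < twD p h v P) (hp : ¬ (p : ℤ) ∣ twD p h v P) {e e' : ℕ} {Q Q' : Plc k L}
    (hQ : OverE e Q P) (hQ' : OverE e' Q' P) : Q' = Q := by
  refine OverE.unique_of_eq T.finite hQ ?_ hQ'
  rw [T.finrank]
  exact (tw_wild T hh hv h0 hp hQ).1

end Pool.Agent.PRB
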