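import Pool.Agent.LibPRB.TwWild
import Pool.Agent.LibPRB.TwDer
import Pool.Agent.LibPRB.Diff

/-!
# The cover `w ^ p = h w + v` at the places with `twD > 0`: the different
-/

set_option autoImplicit false

namespace Pool.Agent.PRB

variable {p : ℕ} [Fact p.Prime] {k K L : Type} [Field k] [Field K] [Field L]
  [Algebra k K] [Algebra k L] [Algebra K L] [IsScalarTower k K L] {h v : K} {w : L}

theorem tw_wild_diff [CharP k p] [CharP K p] (T : IsTw p h v w) (hh : h ≠ 0) (hv : v ≠ 0)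
    {P : Plc k K} (h0 : 0 < twD p h v P) (hp : ¬ (p : ℤ) ∣ twD p h v P) {e : ℕ} {Q : Plc k L}
    (hQ : OverE e Q P) (D : Derivation k K K) (D' : Derivation k L L)
    (hD : ∀ a : K, D' (algebraMap K L a) = algebraMap K L (D a)) {δ δ' : ℤ}
    (hP : IsDiff P D δ) (hQ' : IsDiff Q D' δ') : δ' = p * δ + (p - 1) + twD p h v P := by
  obtain ⟨hep, hω⟩ := tw_wild T hh hv h0 hp hQ
  have hprime : p.Prime := Fact.out
  have hp2 : (2 : ℤ) ≤ p := by exact_mod_cast hprime.two_le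
  have hw : w ≠ 0 := by
    intro hw
    have h1 := T.eq
    rw [hw, zero_pow hprime.ne_zero, mul_zero, zero_add] at h1
    exact hv ((map_eq_zero (algebraMap K L)).1 h1.symm)
  have hH0 : algebraMap K L h ≠ 0 := (map_ne_zero (algebraMap K L)).2 hh
  obtain ⟨he0, hord⟩ := hQ
  unfold twD at h0 hp ⊢
  obtain ⟨m, hm⟩ : ∃ m : ℤ, m = P.ord h := ⟨_, rfl⟩
  obtain ⟨ν, hν⟩ : ∃ ν : ℤ, ν = P.ord v := ⟨_, rfl⟩
  rw [← hm, ← hν] at h0 hp ⊢
  rw [← hν] at hω
  have hpν : ¬ (p : ℤ) ∣ ν := by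
    rintro ⟨t, ht⟩
    apply hp
    exact ⟨m - (p - 1) * t, by rw [ht]; ring⟩
  obtain ⟨hDw0, hDw⟩ := hQ'.ord_D (p := p) hw (by rw [hω]; exact hpν)
  obtain ⟨hDv0, hDv⟩ := hP.ord_D (p := p) hv (by rw [← hν]; exact hpν)
  have hDh := hP.ge_D (n := m) (a := h) (Or.inr (by rw [hm]))
  have hDvL0 : algebraMap K L (D v) ≠ 0 := (map_ne_zero (algebraMap K L)).2 hDv0
  have hDvL : Q.ord (algebraMap K L (D v)) = p * (ν - 1 - δ) := by
    rw [hord, hDv, hep, ← hν]
  have hDhL : Q.ge (p * (m - 1 - δ)) (algebraMap K L (D h)) := by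
    rcases hDh with h1 | h1
    · left
      rw [h1, map_zero]
    · right
      rw [hord, hep]
      exact mul_le_mul_of_nonneg_left h1 (by linarith)
  have hwDh : Q.ge (Q.ord (algebraMap K L (D v)) + 1) (w * algebraMap K L (D h)) := by
    have h1 := Q.ge_mul (m := ν) (a := w) (Or.inr (by rw [hω])) hDhL
    refine h1.mono ?_
    rw [hDvL]
    linarith
  obtain ⟨hS0, hS⟩ := Q.ord_add_eq hDvL0 hwDh
  have hder := deriv_w T hh D D' hD
  have hfin : Q.ord (D' w) = p * (ν - 1 - δ) - p * m := by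
    rw [hder, Q.ord_div (neg_ne_zero.2 hS0) hH0, Q.ord_neg, hS, hDvL, hord, hep, ← hm]
  rw [hDw, hω] at hfin
  linarith

end Pool.Agent.PRB
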